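import Pool.Agent.Lib.MP_5bb885_an.T9PH

/-!
Invariant Lipschitz flows: continuity, minimal sets, recurrence.
-/

namespace Pool.Agent.Lib.MP_5bb885_an.Gen

open UpperHalfPlane MeasureTheory Filter Topology

variable {Γ : Type} [Group Γ] [MulAction Γ ℍ] {K : Set ℍ} {Φ : ℝ → ℍ → ℍ} {V : ℍ → ℂ} {z : ℍ}

lemma Lam.continuous (A : Lam Γ K Φ V) (hz : z ∈ K) : Continuous fun t => Φ t z :=
  isEmbedding_coe.continuous_iff.2
    (continuous_iff_continuousAt.2 fun t => (A.deriv z hz t).continuousAt)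

lemma t9lam_le (A : Lam Γ K Φ V) {C : ℝ} (hC : ∀ z ∈ K, ‖V z‖ ≤ C * z.im) (hz : z ∈ K) {s t : ℝ}
    (h : s ≤ t) : dist (Φ t z) (Φ s z) ≤ 2 * C * (t - s) := by
  have hc := A.continuous hz
  refine image_le_of_liminf_slope_right_le_deriv_boundary (f := fun u => dist (Φ u z) (Φ s z))
    (a := s) (b := t) (B := fun u => 2 * C * (u - s)) (B' := fun _ => 2 * C)
    (hc.dist continuous_const).continuousOn (by simp) (by fun_prop)
    (fun x _ => ?_) (fun x _ r hr => ?_) ⟨h, le_rfl⟩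
  · simpa using (((hasDerivAt_id x).sub_const s).const_mul (2 * C)).hasDerivWithinAt
  have hi := (Φ x z).im_pos
  have h1 : ∀ᶠ u in 𝓝[>] x, dist (Φ u z) (Φ x z) ≤ 1 :=
    nhdsWithin_le_nhds (hc.continuousAt.eventually (Metric.closedBall_mem_nhds _ one_pos))
  have h2 : ∀ᶠ u in 𝓝[>] x, ‖slope (fun s => (Φ s z : ℂ)) x u‖ < r / 2 * (Φ x z).im :=
    (((hasDerivAt_iff_tendsto_slope.1 (A.deriv z hz x)).mono_left (nhdsGT_le_nhdsNE x)).norm).eventually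
      (gt_mem_nhds ((hC _ (A.map x z hz)).trans_lt (mul_lt_mul_of_pos_right (by linarith) hi)))
  refine ((h1.and h2).and self_mem_nhdsWithin).frequently.mono ?_
  rintro u ⟨⟨k1, k2⟩, k3⟩
  have k4 : 0 < u - x := sub_pos.2 k3
  rw [slope_def_field, div_lt_iff₀ k4]
  rw [slope_def_module, norm_smul, norm_inv, Real.norm_of_nonneg k4.le, inv_mul_lt_iff₀ k4] at k2
  have k5 := (near_cmp _ _ k1).2.1
  have k6 := dist_triangle (Φ u z) (Φ x z) (Φ s z)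
  have k7 : dist (Φ u z) (Φ x z) < r * (u - x) := lt_of_mul_lt_mul_left (a := (Φ x z).im) (by linarith) hi.le
  linarith

lemma Lam.dist_le (A : Lam Γ K Φ V) : ∃ C : ℝ, 0 ≤ C ∧ ∀ z ∈ K, ∀ s t,
    dist (Φ s z) (Φ t z) ≤ C * |s - t| := by
  obtain ⟨C, hC⟩ := A.speed
  have h : ∀ z ∈ K, ‖V z‖ ≤ |C| * z.im := fun z hz =>
    (hC z hz).trans (mul_le_mul_of_nonneg_right (le_abs_self C) z.im_pos.le)
  refine ⟨2 * |C|, by positivity, fun z hz s t => ?_⟩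
  rcases le_total s t with k | k
  · rw [dist_comm, abs_sub_comm, abs_of_nonneg (sub_nonneg.2 k)]
    exact t9lam_le A h hz k
  · rw [abs_of_nonneg (sub_nonneg.2 k)]
    exact t9lam_le A h hz k

lemma t9lam_gron0 {g g' : ℝ → ℂ} {L W : ℝ} (hL : 0 ≤ L) (hg : ∀ t, HasDerivAt g (g' t) t)
    (hb : ∀ t, |t| ≤ W → ‖g' t‖ ≤ L * ‖g t‖) {t : ℝ} (h0 : 0 ≤ t) (ht : t ≤ W) :
    ‖g t‖ ≤ Real.exp (L * W) * ‖g 0‖ := by
  have h := norm_le_gronwallBound_of_norm_deriv_right_le (f := g) (f' := g') (δ := ‖g 0‖) (K := L)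
    (ε := 0) (a := 0) (b := W) (fun t _ => (hg t).continuousAt.continuousWithinAt)
    (fun t _ => (hg t).hasDerivWithinAt) le_rfl
    (fun t ht => by simpa using hb t (abs_le.2 ⟨by linarith [ht.1, ht.2], ht.2.le⟩)) t ⟨h0, ht⟩
  rw [gronwallBound_ε0, sub_zero, mul_comm] at h
  exact h.trans (by gcongr)

lemma t9lam_gron {g g' : ℝ → ℂ} {L W : ℝ} (hL : 0 ≤ L) (hg : ∀ t, HasDerivAt g (g' t) t)
    (hb : ∀ t, |t| ≤ W → ‖g' t‖ ≤ L * ‖g t‖) {t : ℝ} (ht : |t| ≤ W) :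
    ‖g t‖ ≤ Real.exp (L * W) * ‖g 0‖ := by
  rcases le_total 0 t with h | h
  · exact t9lam_gron0 hL hg hb h (abs_le.1 ht).2
  · simpa using t9lam_gron0 (g := fun s => g (-s)) (g' := fun s => -g' (-s)) (W := W) (t := -t) hL
      (fun s => by simpa [Function.comp_def] using (hg (-s)).scomp s (hasDerivAt_neg s))
      (fun s hs => by simpa using hb (-s) (by rwa [abs_neg])) (by linarith)
      (by linarith [(abs_le.1 ht).1])

lemma t9lam_lip (A : Lam Γ K Φ V) (R W : ℝ) : ∃ L R' : ℝ, 0 ≤ L ∧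
    (∀ z ∈ K, dist z I ≤ R → ∀ t, |t| ≤ W → dist (Φ t z) I ≤ R') ∧
    ∀ z ∈ K, ∀ w ∈ K, dist z I ≤ R' → dist w I ≤ R' → ‖V z - V w‖ ≤ L * ‖(z : ℂ) - w‖ := by
  obtain ⟨C, h0, hC⟩ := A.dist_le
  obtain ⟨L, hL⟩ := A.lip (R + C * W)
  refine ⟨|L|, R + C * W, abs_nonneg L, fun z hz h1 t ht => ?_, fun z hz w hw h1 h2 =>
    (hL z hz w hw h1 h2).trans (mul_le_mul_of_nonneg_right (le_abs_self L) (norm_nonneg _))⟩
  have h2 := hC z hz t 0
  rw [A.zero z hz, sub_zero] at h2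
  linarith [dist_triangle (Φ t z) z I, mul_le_mul_of_nonneg_left ht h0]

lemma Lam.loc (A : Lam Γ K Φ V) (R W : ℝ) : ∃ C : ℝ, 0 ≤ C ∧ ∀ z ∈ K, ∀ w ∈ K, dist z I ≤ R →
    dist w I ≤ R → ∀ t, |t| ≤ W → ‖(Φ t z : ℂ) - Φ t w‖ ≤ C * ‖(z : ℂ) - w‖ ∧
      ‖(Φ t z : ℂ) - Φ t w - (z - w)‖ ≤ C * |t| * ‖(z : ℂ) - w‖ := by
  obtain ⟨L, R', hL, h1, h2⟩ := t9lam_lip A R W
  refine ⟨(1 + L) * Real.exp (L * W), by positivity, fun z hz w hw k1 k2 t ht => ?_⟩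
  have hg := fun s => (A.deriv z hz s).sub (A.deriv w hw s)
  have hb := fun s hs => h2 _ (A.map s z hz) _ (A.map s w hw) (h1 z hz k1 s hs) (h1 w hw k2 s hs)
  have h3 : ∀ s, |s| ≤ W → ‖(Φ s z : ℂ) - Φ s w‖ ≤ Real.exp (L * W) * ‖(z : ℂ) - w‖ := fun s hs => by
    simpa [A.zero z hz, A.zero w hw] using t9lam_gron hL hg hb hs
  have h4 := (convex_Icc (-W) W).norm_image_sub_le_of_norm_hasDerivWithin_le
    (C := L * (Real.exp (L * W) * ‖(z : ℂ) - w‖)) (fun s _ => (hg s).hasDerivWithinAt)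
    (fun s hs => (hb s (abs_le.2 hs)).trans (mul_le_mul_of_nonneg_left (h3 s (abs_le.2 hs)) hL))
    (abs_le.1 ((abs_zero (α := ℝ)).trans_le ((abs_nonneg t).trans ht))) (abs_le.1 ht)
  simp only [Pi.sub_apply, A.zero z hz, A.zero w hw, sub_zero, Real.norm_eq_abs] at h4
  have h5 : 0 ≤ Real.exp (L * W) * ‖(z : ℂ) - w‖ := by positivity
  exact ⟨(h3 t ht).trans (by nlinarith [mul_nonneg hL h5]),
    h4.trans (by nlinarith [mul_nonneg (abs_nonneg t) h5])⟩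

lemma t9lam_co {f : ℍ → ℂ} (h : ∀ R : ℝ, ∃ C : ℝ, ∀ z ∈ K, ∀ w ∈ K, dist z I ≤ R → dist w I ≤ R →
    ‖f z - f w‖ ≤ C * ‖(z : ℂ) - w‖) : ContinuousOn f K := by
  intro w hw
  obtain ⟨C, hC⟩ := h (dist w I + 1)
  refine tendsto_iff_norm_sub_tendsto_zero.2 (squeeze_zero' (Eventually.of_forall fun _ => norm_nonneg _)
    (g := fun z : ℍ => C * ‖(z : ℂ) - w‖) ?_ ?_)
  · filter_upwards [self_mem_nhdsWithin,
      nhdsWithin_le_nhds (Metric.closedBall_mem_nhds w one_pos)] with z h1 h2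
    exact hC z h1 w hw (by linarith [dist_triangle z w I, Metric.mem_closedBall.1 h2]) (by linarith)
  · have : Continuous fun z : ℍ => C * ‖(z : ℂ) - w‖ := by fun_prop
    simpa using (this.tendsto w).mono_left nhdsWithin_le_nhds

lemma t9lam_cz (A : Lam Γ K Φ V) (t : ℝ) : ContinuousOn (Φ t) K :=
  isEmbedding_coe.continuousOn_iff.2 (t9lam_co fun R => (A.loc R |t|).imp
    fun _ h z hz w hw h1 h2 => (h.2 z hz w hw h1 h2 t le_rfl).1)

lemma Lam.cont (A : Lam Γ K Φ V) :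
    ContinuousOn (fun p : ℝ × ℍ => Φ p.1 p.2) (Set.univ ×ˢ K) := by
  obtain ⟨C, h0, hC⟩ := A.dist_le
  exact continuousOn_prod_of_continuousOn_lipschitzOnWith _ ⟨C, h0⟩ (fun t _ => t9lam_cz A t)
    fun z hz => LipschitzOnWith.of_dist_le_mul fun s _ t _ => hC z hz s t

lemma Lam.contV (A : Lam Γ K Φ V) : ContinuousOn V K := t9lam_co A.lip

lemma Lam.eqv (F : Deck Γ) (A : Lam Γ K Φ V) (γ : Γ) (hz : z ∈ K) : V (γ • z) = dk γ z (V z) := by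
  have h1 := A.deriv _ (A.smul γ z hz) 0
  have h2 := F.hasDerivAt_smul γ (A.deriv z hz 0)
  rw [A.zero _ (A.smul γ z hz)] at h1
  simp only [A.comm _ γ z hz] at h1
  simp only [A.zero z hz] at h2
  exact h1.unique h2

lemma Lam.fix (A : Lam Γ K Φ V) (hz : z ∈ K) (h : V z = 0) (t : ℝ) : Φ t z = z := by
  obtain ⟨L, R', hL, h1, h2⟩ := t9lam_lip A (dist z I) |t|
  have h3 := h1 z hz le_rfl 0 (by simp)
  rw [A.zero z hz] at h3
  have h4 := t9lam_gron (W := |t|) hL (fun s => (A.deriv z hz s).sub_const (z : ℂ))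
    (fun s hs => by simpa [h] using h2 _ (A.map s z hz) z hz (h1 z hz le_rfl s hs) h3) le_rfl
  rw [A.zero z hz, sub_self, norm_zero, mul_zero, norm_le_zero_iff, sub_eq_zero] at h4
  exact UpperHalfPlane.ext h4

lemma Lam.sub (A : Lam Γ K Φ V) {K' : Set ℍ} (h : K' ⊆ K) (h1 : IsClosed K')
    (h2 : ∀ (γ : Γ), ∀ z ∈ K', γ • z ∈ K') (h3 : ∀ t, ∀ z ∈ K', Φ t z ∈ K') : Lam Γ K' Φ V :=
  ⟨h1, h2, h3, fun z hz => A.zero z (h hz), fun s t z hz => A.add s t z (h hz),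
    fun t γ z hz => A.comm t γ z (h hz), fun z hz => A.deriv z (h hz),
    A.speed.imp fun _ k z hz => k z (h hz),
    fun R => (A.lip R).imp fun _ k z hz w hw => k z (h hz) w (h hw)⟩

theorem Lam.trichotomy (F : Deck Γ) (A : Lam Γ K Φ V) (hK : K.Nonempty) :
    (∃ z ∈ K, ∃ (γ : Γ) (T : ℝ), 0 < T ∧ Φ T z = γ • z) ∨ ∃ K' ⊆ K, Aper Γ K' Φ V := by
  refine or_iff_not_imp_left.2 fun hp => ?_
  obtain ⟨R, hR⟩ := F.cpt
  obtain ⟨M, hM, ⟨m1, m2, m3, m4⟩, hm⟩ := zorn_superset_nonempty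
    {M : Set ℍ | M.Nonempty ∧ IsClosed M ∧ (∀ (γ : Γ), ∀ z ∈ M, γ • z ∈ M) ∧
      ∀ t, ∀ z ∈ M, Φ t z ∈ M} (fun c hc h1 h2 => by
      refine ⟨⋂₀ c, ⟨?_, isClosed_sInter fun M hM => (hc hM).2.1,
        fun γ z hz M hM => (hc hM).2.2.1 γ z (hz M hM),
        fun t z hz M hM => (hc hM).2.2.2 t z (hz M hM)⟩, fun M hM => Set.sInter_subset_of_mem hM⟩
      have := h2.to_subtype
      obtain ⟨z, hz⟩ := IsCompact.nonempty_iInter_of_directed_nonempty_isCompact_isClosed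
        (fun M : c => Metric.closedBall I R ∩ M.1)
        (fun M N => (h1.total M.2 N.2).elim
          (fun h => ⟨M, subset_rfl, Set.inter_subset_inter_right _ h⟩)
          fun h => ⟨N, Set.inter_subset_inter_right _ h, subset_rfl⟩)
        (fun M => by
          obtain ⟨z, hz⟩ := (hc M.2).1
          obtain ⟨γ, hγ⟩ := hR z
          exact ⟨γ • z, hγ, (hc M.2).2.2.1 γ z hz⟩)
        (fun M => (isCompact_closedBall I R).inter_right (hc M.2).2.1)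
        fun M => Metric.isClosed_closedBall.inter (hc M.2).2.1
      exact ⟨z, fun M hM => (Set.mem_iInter.1 hz ⟨M, hM⟩).2⟩) K ⟨hK, A.closed, A.smul, A.map⟩
  refine ⟨M, hM, A.sub hM m2 m3 m4, m1, fun N h1 h2 h3 h4 h5 => h1.antisymm (hm ⟨h2, h3, h4, h5⟩ h1),
    fun z hz t γ h => ?_, fun h => ?_⟩
  · rcases lt_trichotomy t 0 with k | k | k
    · refine absurd ⟨z, hM hz, γ⁻¹, -t, by linarith, ?_⟩ hp
      rw [eq_inv_smul_iff, ← A.comm _ γ z (hM hz), ← h, ← A.add _ _ z (hM hz), neg_add_cancel,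
        A.zero z (hM hz)]
    · exact k
    · exact absurd ⟨z, hM hz, γ, t, k, h⟩ hp
  · have hU : ∀ z, z ∈ K := fun z => hM (h ▸ Set.mem_univ z)
    exact F.no_field V (continuousOn_univ.1 (A.contV.mono fun z _ => hU z))
      (fun z k => hp ⟨z, hU z, 1, 1, one_pos, by rw [A.fix (hU z) k, one_smul]⟩)
      fun γ z => A.eqv F γ (hU z)

lemma Aper.ne_zero (A : Aper Γ K Φ V) (hz : z ∈ K) : V z ≠ 0 := fun h =>
  one_ne_zero (A.aper z hz 1 1 (by rw [A.toLam.fix hz h, one_smul]))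

lemma t9lam_cl (F : Deck Γ) (A : Lam Γ K Φ V) {O : Set ℍ} (hO : IsOpen O) (J : Set ℝ) :
    IsClosed {w | w ∈ K ∧ ∀ t ∈ J, ∀ γ : Γ, γ • Φ t w ∉ O} := by
  have h : ∀ (t : ℝ) (γ : Γ), IsClosed (K ∩ (fun w => γ • Φ t w) ⁻¹' Oᶜ) := fun t γ =>
    ((F.cont γ).comp_continuousOn (t9lam_cz A t)).preimage_isClosed_of_isClosed A.closed
      hO.isClosed_compl
  convert A.closed.inter (isClosed_biInter (s := J) fun t _ => isClosed_iInter (h t)) using 1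
  ext w
  simp only [Set.mem_ofPred_eq, Set.mem_inter_iff, Set.mem_iInter, Set.mem_preimage,
    Set.mem_compl_iff]
  exact and_congr_right fun hw => ⟨fun k t ht γ => ⟨hw, k t ht γ⟩, fun k t ht γ => (k t ht γ).2⟩

lemma Aper.recur (F : Deck Γ) (A : Aper Γ K Φ V) {O : Set ℍ} (hO : IsOpen O)
    (h : (O ∩ K).Nonempty) : ∃ T₀ : ℝ, 0 ≤ T₀ ∧ ∀ z ∈ K, ∃ t ∈ Set.Icc 0 T₀, ∃ γ : Γ,
      γ • Φ t z ∈ O := by
  by_contra hn
  push Not at hn
  obtain ⟨R, hR⟩ := F.cpt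
  have hc := fun n : ℕ => t9lam_cl F A.toLam hO (Set.Icc (-n : ℝ) n)
  obtain ⟨z, hz⟩ := IsCompact.nonempty_iInter_of_sequence_nonempty_isCompact_isClosed
    (fun n : ℕ => Metric.closedBall I R ∩
      {w | w ∈ K ∧ ∀ t ∈ Set.Icc (-n : ℝ) n, ∀ γ : Γ, γ • Φ t w ∉ O})
    (fun n w hw => ⟨hw.1, hw.2.1, fun t ht => hw.2.2 t
      ⟨by push_cast; linarith [ht.1], by push_cast; linarith [ht.2]⟩⟩)
    (fun n => by
      obtain ⟨z, hz, k⟩ := hn (2 * n) (by positivity)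
      obtain ⟨δ, hδ⟩ := hR (Φ n z)
      refine ⟨_, hδ, A.smul δ _ (A.map _ z hz), fun t ht γ => ?_⟩
      rw [A.comm t δ _ (A.map _ z hz), ← A.add t n z hz, smul_smul]
      exact k _ ⟨by linarith [ht.1], by linarith [ht.2]⟩ _)
    ((isCompact_closedBall I R).inter_right (hc 0)) fun n => Metric.isClosed_closedBall.inter (hc n)
  have h1 := A.min {w | w ∈ K ∧ ∀ t ∈ Set.univ, ∀ γ : Γ, γ • Φ t w ∉ O} (fun w hw => hw.1)
    ⟨z, (Set.mem_iInter.1 hz 0).2.1, fun t _ => by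
      obtain ⟨n, k⟩ := exists_nat_ge |t|
      exact (Set.mem_iInter.1 hz n).2.2 t (abs_le.1 k)⟩ (t9lam_cl F A.toLam hO _)
    (fun δ w hw => ⟨A.smul δ w hw.1, fun t ht γ => by
      rw [A.comm t δ w hw.1, smul_smul]
      exact hw.2 t ht _⟩)
    fun s w hw => ⟨A.map s w hw.1, fun t ht γ => by
      rw [← A.add t s w hw.1]
      exact hw.2 _ trivial _⟩
  obtain ⟨w, h2, h3⟩ := h
  refine (h1.ge h3).2 0 trivial 1 ?_
  rwa [A.zero w h3, one_smul]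

end Pool.Agent.Lib.MP_5bb885_an.Gen
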