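import Pool.Agent.Lib.MP_5bb885_an.H9Meas

/-!
The critical value, the action potential and the static curves in metric terms.
-/

namespace Pool.Agent.Lib.MP_5bb885_an

open UpperHalfPlane Real Filter Topology MeasureTheory

variable {Γ : Subgroup G} {c : Γ → ℝ} {u U : ℍ → ℝ} {x : ℝ → ℍ} {s t l : ℝ}

lemma ac_of_le {Y : Type} [PseudoMetricSpace Y] {y : ℝ → Y} (h : AbsolutelyContinuousOnInterval x s t)
    (K : ℝ) (H : ∀ a ∈ Set.uIcc s t, ∀ b ∈ Set.uIcc s t, dist (y a) (y b) ≤ K * dist (x a) (x b)) :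
    AbsolutelyContinuousOnInterval y s t := by
  refine squeeze_zero' (Eventually.of_forall fun _ => by positivity) ?_
    (by simpa using Tendsto.const_mul K h)
  refine mem_inf_of_right (mem_principal.2 fun E hE => ?_)
  rw [Set.mem_ofPred_eq, Finset.mul_sum]
  exact Finset.sum_le_sum fun i hi => H _ (hE.1 i hi).1 _ (hE.1 i hi).2

lemma ac_dist (h : AbsolutelyContinuousOnInterval x s t) (z : ℍ) :
    AbsolutelyContinuousOnInterval (fun τ => dist z (x τ)) s t :=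
  ac_of_le h 1 fun a _ b _ => by
    rw [one_mul, dist_comm z, dist_comm z]
    exact abs_dist_sub_le _ _ _

lemma ac_coe (h : AbsolutelyContinuousOnInterval x s t) :
    AbsolutelyContinuousOnInterval (fun τ => (x τ : ℂ)) s t := by
  obtain ⟨R, hR⟩ := (ac_dist h I).exists_bound
  refine ac_of_le h (exp R * exp (R + R)) fun a ha b hb => ?_
  have h1 : dist (x a) I ≤ R := (dist_comm _ _).trans_le ((le_abs_self _).trans (hR a ha))
  have h2 : dist (x b) I ≤ R := (dist_comm _ _).trans_le ((le_abs_self _).trans (hR b hb))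
  have h3 : (x b).im ≤ exp R := by
    simpa using (im_le_im_mul_exp_dist (x b) I).trans (by simpa using h2)
  have h4 := exp_le_exp.2 ((dist_triangle_right (x a) (x b) I).trans (add_le_add h1 h2))
  have h5 : exp (dist (x a) (x b)) - 1 ≤ exp (dist (x a) (x b)) * dist (x a) (x b) := by
    have h5 := mul_le_mul_of_nonneg_left (add_one_le_exp (-dist (x a) (x b)))
      (exp_pos (dist (x a) (x b))).le
    rw [← exp_add, add_neg_cancel, exp_zero] at h5
    linarith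
  rw [mul_assoc]
  exact (dist_coe_le _ _).trans (mul_le_mul h3 (h5.trans (mul_le_mul_of_nonneg_right h4 dist_nonneg))
    (sub_nonneg.2 (one_le_exp dist_nonneg)) (exp_pos R).le)

lemma deriv_dist_le (z : ℍ) {τ : ℝ} (h1 : DifferentiableAt ℝ (fun τ => (x τ : ℂ)) τ)
    (h2 : DifferentiableAt ℝ (fun τ => dist z (x τ)) τ) :
    deriv (fun τ => dist z (x τ)) τ ≤ ‖deriv (fun τ => (x τ : ℂ)) τ‖ / (x τ).im := by
  have h3 := h1.hasDerivAt.tendsto_slope_zero_right.norm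
  have h4 : Tendsto (fun r => (x (τ + r)).im) (𝓝[>] 0) (𝓝 (x τ).im) := by
    have h4 : ContinuousAt (fun r => ((x (τ + r) : ℂ)).im) 0 :=
      Complex.continuous_im.continuousAt.comp (h1.continuousAt.comp_of_eq
        (show ContinuousAt (fun r => τ + r) 0 by fun_prop) (add_zero τ))
    simpa using h4.tendsto.mono_left nhdsWithin_le_nhds
  have h5 := h3.div (h4.const_mul (x τ).im).sqrt (by
    rw [sqrt_mul_self (x τ).im_pos.le]
    exact (x τ).im_ne_zero)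
  rw [sqrt_mul_self (x τ).im_pos.le] at h5
  refine le_of_tendsto_of_tendsto h2.hasDerivAt.tendsto_slope_zero_right h5 ?_
  filter_upwards [self_mem_nhdsWithin] with r hr
  have h6 : 0 < r⁻¹ := inv_pos.2 hr
  have h7 := dist_triangle z (x τ) (x (τ + r))
  have h8 := dist_le_dist_coe_div_sqrt (x τ) (x (τ + r))
  rw [Pi.div_apply, norm_smul, Real.norm_of_nonneg h6.le, smul_eq_mul, mul_div_assoc,
    ← dist_eq_norm, dist_comm (x (τ + r) : ℂ)]
  exact mul_le_mul_of_nonneg_left (by linarith) h6.le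

lemma Adm.le (h : Adm x s t) (μ : ℝ) (hμ : 0 ≤ μ) :
    μ * dist (x s) (x t) ≤ (∫ τ in s..t, lag x τ) + μ ^ 2 / 2 * (t - s) := by
  obtain ⟨h0, h1, h2⟩ := h
  have h3 := ac_dist h1 (x s)
  have h4 := intervalIntegral.integral_mono_ae_restrict h0.le
    (h3.intervalIntegrable_deriv.const_mul μ) (h2.add (intervalIntegrable_const (c := μ ^ 2 / 2))) (by
      refine (ae_restrict_iff' measurableSet_Icc).2 ?_
      filter_upwards [h3.ae_differentiableAt,
        (ac_coe h1).boundedVariationOn.ae_differentiableAt_of_mem_uIcc] with τ k1 k2 k3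
      rw [← Set.uIcc_of_le h0.le] at k3
      have k4 := mul_le_mul_of_nonneg_left (deriv_dist_le (x s) (k2 k3) (k1 k3)) hμ
      have k5 : lag x τ = (‖deriv (fun τ => (x τ : ℂ)) τ‖ / (x τ).im) ^ 2 / 2 := by
        rw [lag, div_pow, div_div, mul_comm]
      rw [k5]
      nlinarith [sq_nonneg (‖deriv (fun τ => (x τ : ℂ)) τ‖ / (x τ).im - μ)])
  rw [intervalIntegral.integral_const_mul, h3.integral_deriv_eq_sub,
    intervalIntegral.integral_add h2 intervalIntegrable_const, intervalIntegral.integral_const] at h4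
  simpa [mul_comm] using h4

lemma Adm.act_eq (h : Adm x s t) (U : ℍ → ℝ) (k : ℝ) :
    act U k x s t = (∫ τ in s..t, lag x τ) + k * (t - s) - (U (x t) - U (x s)) := by
  rw [act, intervalIntegral.integral_add h.2.2 intervalIntegrable_const,
    intervalIntegral.integral_const, smul_eq_mul, mul_comm]

lemma lag_geo (g : G) (v τ : ℝ) : lag (fun τ => geo g (v * τ)) τ = v ^ 2 / 2 := by
  have h1 : HasDerivAt (fun τ => ((exp (v * τ) : ℝ) : ℂ) * Complex.I)
      (((exp (v * τ) * v : ℝ) : ℂ) * Complex.I) τ := by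
    simpa using (((hasDerivAt_id τ).const_mul v).exp.ofReal_comp).mul_const Complex.I
  have h2 : ∀ τ, ((up τ : ℍ) : ℂ) = ((exp τ : ℝ) : ℂ) * Complex.I := fun τ =>
    Complex.ext (by simp [up, -Complex.ofReal_exp]) (by simp [up, -Complex.ofReal_exp])
  have h3 := den_pos g (up (v * τ))
  simp only [up_re, up_im, mul_zero, zero_add] at h3
  have h4 : Complex.normSq ((g 1 0 : ℂ) * ((exp (v * τ) : ℝ) * Complex.I) + g 1 1) =
      g 1 1 ^ 2 + (g 1 0 * exp (v * τ)) ^ 2 := by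
    simp [Complex.normSq_apply, -Complex.ofReal_exp]
    ring
  have h5 := ((h1.const_mul (g 0 0 : ℂ)).add_const (g 0 1 : ℂ)).div
    ((h1.const_mul (g 1 0 : ℂ)).add_const (g 1 1 : ℂ)) fun h => by
      rw [h, map_zero] at h4
      linarith
  have h6 : (fun τ => ((geo g (v * τ) : ℍ) : ℂ)) = (fun τ => (g 0 0 : ℂ) * ((exp (v * τ) : ℝ) * Complex.I)
      + g 0 1) / fun τ => (g 1 0 : ℂ) * ((exp (v * τ) : ℝ) * Complex.I) + g 1 1 := by
    ext τ
    rw [geo_def, coe_specialLinearGroup_apply, h2]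
    rfl
  have h7 : (g 0 0 : ℂ) * g 1 1 - g 0 1 * g 1 0 = 1 := by exact_mod_cast det_eq g
  rw [lag, h6, h5.deriv, geo_def, smul_im, show (g 0 0 : ℂ) * (((exp (v * τ) * v : ℝ) : ℂ) * Complex.I) *
    ((g 1 0 : ℂ) * ((exp (v * τ) : ℝ) * Complex.I) + g 1 1) - ((g 0 0 : ℂ) * ((exp (v * τ) : ℝ) * Complex.I)
      + g 0 1) * ((g 1 0 : ℂ) * (((exp (v * τ) * v : ℝ) : ℂ) * Complex.I)) =
        ((exp (v * τ) * v : ℝ) : ℂ) * Complex.I by
      linear_combination ((exp (v * τ) * v : ℝ) : ℂ) * Complex.I * h7, norm_div, norm_pow,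
    Complex.sq_norm, h4, norm_mul, Complex.norm_I, Complex.norm_real, mul_one, div_pow, Real.norm_eq_abs,
    sq_abs]
  simp only [up_re, up_im, mul_zero, zero_add]
  have := exp_pos (v * τ)
  generalize g 1 1 ^ 2 + (g 1 0 * exp (v * τ)) ^ 2 = N at h3
  field_simp

lemma adm_geo (g : G) {v : ℝ} (hv : 0 ≤ v) (h : s < t) : Adm (fun τ => geo g (v * τ)) s t := by
  refine ⟨h, (LipschitzWith.of_dist_le_mul (K := ⟨v, hv⟩) fun a b => ?_).lipschitzOnWith
    |>.absolutelyContinuousOnInterval, ?_⟩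
  · rw [dist_geo, ← mul_sub, abs_mul, abs_of_nonneg hv]
    rfl
  · simp only [funext (lag_geo g v)]
    exact intervalIntegrable_const

lemma act_geo (g : G) (v : ℝ) (U : ℍ → ℝ) (k s t : ℝ) : act U k (fun τ => geo g (v * τ)) s t =
    (v ^ 2 / 2 + k) * (t - s) - (U (geo g (v * t)) - U (geo g (v * s))) := by
  simp only [act, lag_geo, intervalIntegral.integral_const, smul_eq_mul, mul_comm]

lemma alpha_eq (h : IsLam c l) (hU : ∀ (γ : Γ) z, U ((γ : G) • z) = U z + c γ) :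
    alpha Γ U = l ^ 2 / 2 := by
  refine IsLeast.csInf_eq ⟨fun x s t h1 ⟨γ, h2, h3⟩ => ?_, fun k hk => ?_⟩
  · have h4 := h1.le l h.1.le
    have h5 := h.2.1 ⟨γ, h2⟩ (x s)
    rw [h1.act_eq, h3, hU ⟨γ, h2⟩]
    rw [h3] at h4
    linarith
  · have h0 := h.1
    refine le_of_forall_pos_le_add fun θ hθ => ?_
    obtain ⟨γ, z, h1⟩ := h.2.2 (θ / l ^ 2) (by positivity)
    obtain ⟨g, h2, h3⟩ := exists_frame z ((γ : G) • z)
    have h4 : 0 < dist z ((γ : G) • z) := dist_nonneg.lt_of_ne fun e => by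
      have := h.2.1 γ z
      rw [← e] at this h1
      linarith
    have h5 := hk _ 0 _ (adm_geo g h0.le (div_pos h4 h0)) ⟨γ, γ.2, by
      simp only [mul_div_cancel₀ _ h0.ne', mul_zero, h2, h3]⟩
    rw [act_geo, mul_div_cancel₀ _ h0.ne', mul_zero, h2, h3, hU] at h5
    generalize dist z ((γ : G) • z) = d at *
    have h6 : (1 - θ / l ^ 2) * l * d = (l ^ 2 - θ) * (d / l) := by field_simp
    linarith [lt_of_mul_lt_mul_right (show (l ^ 2 - θ) * (d / l) < (l ^ 2 / 2 + k) * (d / l) by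
      linarith) (div_pos h4 h0).le]

lemma Pot.inv (P : Pot Γ (l⁻¹ • c) u) (h : IsLam c l)
    (hU : ∀ (γ : Γ) z, U ((γ : G) • z) = U z + c γ) (γ : Γ) (z : ℍ) :
    U ((γ : G) • z) - l * u ((γ : G) • z) = U z - l * u z := by
  rw [hU, P.eqv, mul_add, Pi.smul_apply, smul_eq_mul, mul_inv_cancel_left₀ h.1.ne']
  ring

lemma phi_le (h : IsLam c l) (P : Pot Γ (l⁻¹ • c) u)
    (hU : ∀ (γ : Γ) z, U ((γ : G) • z) = U z + c γ) (z w : ℍ) :
    (∀ γ : Γ, Phi Γ U z w ≤ l * dist z ((γ : G) • w) - (U ((γ : G) • w) - U z)) ∧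
    l * (u w - u z) - (U w - U z) ≤ Phi Γ U z w ∧ ∀ θ, 0 < θ →
      ∃ γ : Γ, l * dist z ((γ : G) • w) - (U ((γ : G) • w) - U z) ≤ Phi Γ U z w + θ := by
  have h0 := h.1
  set A := {r | ∃ x s t, Adm x s t ∧ x s = z ∧ (∃ γ ∈ Γ, x t = γ • w) ∧
    r = act U (alpha Γ U) x s t} with hA
  have h1 : ∀ r ∈ A, ∃ γ : Γ, l * dist z ((γ : G) • w) - (U ((γ : G) • w) - U z) ≤ r := by
    rintro _ ⟨x, s, t, h1, rfl, ⟨γ, h2, h3⟩, rfl⟩
    refine ⟨⟨γ, h2⟩, ?_⟩
    rw [h1.act_eq, alpha_eq h hU, ← h3]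
    linarith [h1.le l h0.le]
  have h2 : l * (u w - u z) - (U w - U z) ∈ lowerBounds A := fun r hr => by
    obtain ⟨γ, h2⟩ := h1 r hr
    have h3 := mul_le_mul_of_nonneg_left (P.lip ((γ : G) • w) z) h0.le
    rw [dist_comm] at h3
    linarith [P.inv h hU γ w]
  have h3 : ∀ (γ : Γ) θ, 0 < θ → ∃ r ∈ A,
      r ≤ l * dist z ((γ : G) • w) - (U ((γ : G) • w) - U z) + θ := fun γ θ hθ => by
    obtain ⟨g, h3, h4⟩ := exists_frame z ((γ : G) • w)
    have h5 : 0 ≤ dist z ((γ : G) • w) := dist_nonneg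
    generalize dist z ((γ : G) • w) = d at *
    have h6 : 0 < d / l + θ / l ^ 2 := by positivity
    have h7 : d / (d / l + θ / l ^ 2) ≤ l := by
      rw [div_le_iff₀ h6, mul_add, mul_div_cancel₀ _ h0.ne']
      exact le_add_of_nonneg_right (by positivity)
    refine ⟨_, ⟨_, 0, _, adm_geo g (div_nonneg h5 h6.le) h6, by simp only [mul_zero, h3],
      ⟨γ, γ.2, by simp only [div_mul_cancel₀ _ h6.ne', h4]⟩, rfl⟩, ?_⟩
    rw [act_geo, div_mul_cancel₀ _ h6.ne', mul_zero, h3, h4, alpha_eq h hU, sub_zero]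
    have h8 : l ^ 2 * (d / l + θ / l ^ 2) = l * d + θ := by field_simp
    nlinarith [mul_le_mul_of_nonneg_right (pow_le_pow_left₀ (div_nonneg h5 h6.le) h7 2) h6.le]
  have h4 : A.Nonempty := let ⟨r, h, _⟩ := h3 1 1 one_pos; ⟨r, h⟩
  refine ⟨fun γ => le_of_forall_pos_le_add fun θ hθ => ?_, le_csInf h4 h2, fun θ hθ => ?_⟩
  · obtain ⟨r, h5, h6⟩ := h3 γ θ hθ
    exact (csInf_le ⟨_, h2⟩ h5).trans h6
  · obtain ⟨r, h5, h6⟩ := exists_lt_of_csInf_lt h4 (lt_add_of_pos_right _ hθ)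
    obtain ⟨γ, h7⟩ := h1 r h5
    exact ⟨γ, h7.trans h6.le⟩

theorem static_iff (h : IsLam c l) (P : Pot Γ (l⁻¹ • c) u)
    (hU : ∀ (γ : Γ) z, U ((γ : G) • z) = U z + c γ) :
    Static Γ U x ↔ ∃ g, MS Γ u g ∧ ∀ τ, x τ = geo g (l * τ) := by
  have h0 := h.1
  constructor
  · intro H
    have h1 : ∀ s t, s < t → dist (x s) (x t) = l * (t - s) ∧ u (x t) - u (x s) = l * (t - s) ∧
        Phi Γ U (x t) (x s) = U (x t) - U (x s) - l * (l * (t - s)) := by
      intro s t hst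
      obtain ⟨h1, h2⟩ := H s t hst
      rw [h1.act_eq, alpha_eq h hU] at h2
      have h3 := (phi_le h P hU (x t) (x s)).2.1
      have h4 := mul_le_mul_of_nonneg_left (P.lip (x t) (x s)) h0.le
      rw [dist_comm] at h4
      have h5 : 0 < t - s := sub_pos.2 hst
      have h6 := h1.le (dist (x s) (x t) / (t - s)) (by positivity)
      have h7 := h1.le l h0.le
      obtain ⟨v, hv⟩ : ∃ v, dist (x s) (x t) = v * (t - s) := ⟨_, (div_mul_cancel₀ _ h5.ne').symm⟩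
      rw [hv, mul_div_cancel_right₀ _ h5.ne'] at h6
      rw [hv] at h4 h7 ⊢
      obtain rfl : v = l := sub_eq_zero.1 (pow_eq_zero_iff two_ne_zero |>.1 (le_antisymm
        (le_of_mul_le_mul_right (by linarith) h5) (sq_nonneg (v - l))))
      exact ⟨rfl, mul_left_cancel₀ h0.ne' (by linarith), by linarith⟩
    have h2 : ∀ s t, s < t → s / l < t / l ∧ l * (t / l - s / l) = t - s := fun s t h =>
      ⟨div_lt_div_of_pos_right h h0, by field_simp⟩
    obtain ⟨g, hg⟩ := line_eq (ξ := fun τ => x (τ / l)) fun s t => by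
      rcases lt_trichotomy s t with h | rfl | h
      · rw [(h1 _ _ (h2 s t h).1).1, (h2 s t h).2, abs_sub_comm, abs_of_pos (sub_pos.2 h)]
      · simp
      · rw [dist_comm, (h1 _ _ (h2 t s h).1).1, (h2 t s h).2, abs_of_pos (sub_pos.2 h)]
    refine ⟨g, ⟨fun s t => ?_, fun s t hst θ hθ => ?_⟩,
      fun τ => by rw [← hg, mul_div_cancel_left₀ _ h0.ne']⟩
    · rw [← hg, ← hg]
      rcases lt_trichotomy s t with h | rfl | h
      · rw [(h1 _ _ (h2 s t h).1).2.1, (h2 s t h).2]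
      · simp
      · linarith [(h1 _ _ (h2 t s h).1).2.1, (h2 t s h).2]
    · obtain ⟨γ, h3⟩ := (phi_le h P hU (x (t / l)) (x (s / l))).2.2 (l * θ) (by positivity)
      obtain ⟨-, h4, h5⟩ := h1 _ _ (h2 s t hst).1
      rw [← hg, ← hg]
      refine ⟨γ, le_of_mul_le_mul_left ?_ h0⟩
      rw [← h4] at h5
      linarith [P.inv h hU γ (x (s / l))]
  · rintro ⟨g, ⟨h1, h2⟩, h3⟩ s t hst
    obtain rfl := funext h3
    refine ⟨adm_geo g h0.le hst, ?_⟩
    obtain ⟨h4, h5, -⟩ := phi_le h P hU (geo g (l * t)) (geo g (l * s))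
    rw [act_geo, alpha_eq h hU]
    rw [h1] at h5
    refine le_antisymm (le_of_forall_pos_le_add fun θ hθ => ?_) (by linarith)
    obtain ⟨γ, h6⟩ := h2 _ _ (mul_lt_mul_of_pos_left hst h0) (θ / l) (by positivity)
    have h7 := mul_le_mul_of_nonneg_left h6 h0.le
    rw [mul_add, mul_div_cancel₀ _ h0.ne'] at h7
    have h8 := congrArg (l * ·) (h1 (l * t) (l * s))
    linarith [h4 γ, P.inv h hU γ (geo g (l * s))]

theorem Good.aubry (F : Fu Γ) (hc : c ∈ Coh Γ) (h : Good c)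
    (hU : ∀ (γ : Γ) z, U ((γ : G) • z) = U z + c γ) :
    ∃ (S : Finset G) (v : ℝ) (ρ : (Γ → ℝ) → ℝ), S.Nonempty ∧ 0 < v ∧
      (∀ x, Static Γ U x ↔ ∃ γ ∈ Γ, ∃ g ∈ S, ∃ t₀, ∀ t, x t = γ • geo g (v * (t + t₀))) ∧
      ∀ g ∈ S, ∃ (γ : Γ) (T : ℝ), 0 < T ∧ (∀ t, geo g (v * (t + T)) = (γ : G) • geo g (v * t)) ∧
        ∀ φ ∈ Coh Γ, φ γ = T * ρ φ := by
  obtain ⟨l, u, δ, h, P, hδ, R⟩ := h
  have h0 := h.1
  have h1 := (Coh Γ).smul_mem l⁻¹ hc
  obtain ⟨S, ρ, h2, h3, h4⟩ := top F h1 P (P.nonempty F h1 fun θ hθ => by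
    obtain ⟨γ, z, h2⟩ := h.2.2 θ hθ
    exact ⟨γ, z, (lt_inv_mul_iff₀ h0).2 (by linarith)⟩) hδ R
  refine ⟨S, l, fun φ => l * ρ φ, h2, h0, fun x => (static_iff h P hU).trans ⟨?_, ?_⟩,
    fun g hg => ?_⟩
  · rintro ⟨g, h5, h6⟩
    obtain ⟨γ, f, h7, t₀, h8⟩ := h4 g h5.1 (h5.cr P F)
    exact ⟨γ, γ.2, f, h7, t₀ / l, fun t => by rw [h6, h8, mul_add, mul_div_cancel₀ _ h0.ne']⟩
  · rintro ⟨γ, h5, f, h6, t₀, h7⟩
    obtain ⟨h8, β, T, h9, h10, -⟩ := h3 f h6
    exact ⟨_, MS.of_per P h8 h9 h10 ⟨γ, h5⟩ (l * t₀), fun t => by rw [h7, geo_aa, geo_mul, mul_add]⟩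
  · obtain ⟨-, β, T, h5, h6, h7⟩ := h3 g hg
    exact ⟨β, T / l, by positivity, fun t => by rw [mul_add, mul_div_cancel₀ _ h0.ne', h6],
      fun φ hφ => by rw [h7 φ hφ]; field_simp⟩

end Pool.Agent.Lib.MP_5bb885_an
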