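import Pool.Agent.Lib.MP_5bb885_an.H9Geo

/-!
Calibrated geodesics.
-/

namespace Pool.Agent.Lib.MP_5bb885_an

open UpperHalfPlane Real Filter Topology

/-- Discrete cocompact groups. -/
structure Fu (Γ : Subgroup G) : Prop where
  fin : ∀ R, {γ : Γ | dist ((γ : G) • I) I ≤ R}.Finite
  cpt : ∃ R, ∀ z : ℍ, ∃ γ : Γ, dist ((γ : G) • z) I ≤ R

/-- Oriented laminations. -/
structure La (Γ : Subgroup G) (Λ : Set G) : Prop where
  mul : ∀ γ : Γ, ∀ g ∈ Λ, (γ : G) * g ∈ Λ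
  flow : ∀ g ∈ Λ, ∀ t, g * aa t ∈ Λ
  closed : IsClosed Λ
  key : ∀ g ∈ Λ, ∀ g' ∈ Λ, 1 ≤ ((g⁻¹ * g') 0 0 * (g⁻¹ * g') 1 1) ^ 2

/-- Equivariant 1-Lipschitz functions. -/
structure Pot (Γ : Subgroup G) (c : Γ → ℝ) (u : ℍ → ℝ) : Prop where
  lip : ∀ z w, u z - u w ≤ dist z w
  eqv : ∀ (γ : Γ) z, u ((γ : G) • z) = u z + c γ

/-- The frames of the calibrated geodesics. -/
def Lam (u : ℍ → ℝ) : Set G := {g | ∀ s t, u (geo g t) - u (geo g s) = t - s}

variable {Γ : Subgroup G} {c : Γ → ℝ} {u : ℍ → ℝ} {Λ : Set G}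

theorem fu_of [DiscreteTopology Γ] [CompactSpace (MulAction.orbitRel.Quotient Γ ℍ)] : Fu Γ := by
  constructor
  · intro R
    refine (ProperlyDiscontinuousSMul.finite_disjoint_inter_image (Γ := Γ)
      (isCompact_singleton (x := I)) (isCompact_closedBall I R)).subset fun γ hγ => ?_
    exact ⟨_, ⟨I, rfl, rfl⟩, hγ⟩
  · obtain ⟨t, ht⟩ := (isCompact_univ (X := MulAction.orbitRel.Quotient Γ ℍ)).elim_finite_subcover
      (fun n : ℕ => Quotient.mk _ '' Metric.ball I n)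
      (fun n => isOpenMap_quotient_mk'_mul _ Metric.isOpen_ball) (by
        rintro ⟨z⟩ -
        obtain ⟨n, hn⟩ := exists_nat_gt (dist z I)
        exact Set.mem_iUnion.2 ⟨n, z, hn, rfl⟩)
    refine ⟨(t.sup id : ℕ), fun z => ?_⟩
    obtain ⟨n, hn, w, h1, h2⟩ := Set.mem_iUnion₂.1 (ht (Set.mem_univ (Quotient.mk _ z)))
    obtain ⟨γ, rfl⟩ := Quotient.exact h2
    exact ⟨γ, (Metric.mem_ball.1 h1).le.trans (by exact_mod_cast Finset.le_sup (f := id) hn)⟩

lemma Fu.fin' (F : Fu Γ) (z w : ℍ) (R : ℝ) : {γ : Γ | dist ((γ : G) • z) w ≤ R}.Finite := by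
  refine (F.fin (dist I z + R + dist w I)).subset fun γ hγ => ?_
  have h1 := dist_triangle4 ((γ : G) • I) ((γ : G) • z) w I
  rw [dist_smul] at h1
  exact h1.trans (by have : dist ((γ : G) • z) w ≤ R := hγ; linarith)

lemma Fu.card (F : Fu Γ) (R : ℝ) : ∃ D : ℕ, ∀ (z w : ℍ) (S : Finset Γ),
    (∀ γ ∈ S, dist ((γ : G) • z) w ≤ R) → S.card ≤ D := by
  obtain ⟨R₀, h₀⟩ := F.cpt
  refine ⟨(F.fin (R₀ + R + R₀)).toFinset.card, fun z w S hS => ?_⟩
  obtain ⟨δ, h1⟩ := h₀ z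
  obtain ⟨δ', h2⟩ := h₀ w
  refine Finset.card_le_card_of_injOn (fun γ => δ' * γ * δ⁻¹) (fun γ hγ => ?_)
    fun _ _ _ _ h => by simpa using h
  rw [Finset.mem_coe, Set.Finite.mem_toFinset]
  have h3 := dist_triangle4 (((δ' * γ * δ⁻¹ : Γ) : G) • I) (((δ' * γ * δ⁻¹ : Γ) : G) • (δ : G) • z)
    ((δ' : G) • w) I
  rw [dist_smul, dist_comm I] at h3
  have h4 : ((δ' * γ * δ⁻¹ : Γ) : G) • (δ : G) • z = (δ' : G) • (γ : G) • z := by
    simp [mul_smul]
  rw [h4, dist_smul] at h3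
  exact h3.trans (by linarith [hS γ hγ])

lemma Fu.countable (F : Fu Γ) : Countable Γ := by
  rw [← Set.countable_univ_iff]
  refine (Set.countable_iUnion fun n : ℕ => (F.fin n).countable).mono fun γ _ => ?_
  obtain ⟨n, hn⟩ := exists_nat_ge (dist ((γ : G) • I) I)
  exact Set.mem_iUnion.2 ⟨n, hn⟩

lemma coh_one (hc : c ∈ Coh Γ) : c 1 = 0 := by simpa using hc 1 1

lemma coh_inv (hc : c ∈ Coh Γ) (x : Γ) : c x⁻¹ = -c x := by
  have := hc x x⁻¹
  rw [mul_inv_cancel, coh_one hc] at this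
  linarith

lemma coh_pow (hc : c ∈ Coh Γ) (x : Γ) (n : ℕ) : c (x ^ n) = n * c x := by
  induction n with
  | zero => simp [coh_one hc]
  | succ n ih => rw [pow_succ, hc, ih]; push_cast; ring

lemma exists_pot (hc : c ∈ Coh Γ) (h : ∀ (γ : Γ) (z : ℍ), c γ ≤ dist z ((γ : G) • z)) :
    ∃ u, Pot Γ c u := by
  have hb : ∀ z, BddAbove (Set.range fun γ : Γ => c γ - dist z ((γ : G) • I)) := fun z =>
    ⟨dist I z, by
      rintro _ ⟨γ, rfl⟩
      linarith [h γ I, dist_triangle I z ((γ : G) • I)]⟩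
  refine ⟨fun z => ⨆ γ : Γ, (c γ - dist z ((γ : G) • I)), fun z w => ?_, fun γ z => ?_⟩
  · rw [sub_le_iff_le_add']
    refine ciSup_le fun γ => ?_
    linarith [le_ciSup (hb w) γ, dist_triangle w z ((γ : G) • I), dist_comm w z]
  · have key : ∀ (γ : Γ) z, (⨆ δ : Γ, (c δ - dist z ((δ : G) • I))) + c γ ≤
        ⨆ δ : Γ, (c δ - dist ((γ : G) • z) ((δ : G) • I)) := by
      intro γ z
      rw [← le_sub_iff_add_le]
      refine ciSup_le fun δ => ?_
      have := le_ciSup (hb ((γ : G) • z)) (γ * δ)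
      rw [hc, Subgroup.coe_mul, mul_smul, dist_smul] at this
      linarith
    refine le_antisymm ?_ (key γ z)
    have := key γ⁻¹ ((γ : G) • z)
    rw [coh_inv hc, Subgroup.coe_inv, inv_smul_smul] at this
    linarith

lemma Pot.continuous (P : Pot Γ c u) : Continuous u :=
  (LipschitzWith.of_le_add fun z w => by linarith [P.lip z w]).continuous

lemma continuous_geo (t : ℝ) : Continuous fun g : G => geo g t :=
  continuous_id.smul continuous_const

lemma Pot.la (P : Pot Γ c u) : La Γ (Lam u) where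
  mul γ g hg s t := by rw [geo_mul, geo_mul, P.eqv, P.eqv, ← hg s t]; ring
  flow g hg r s t := by rw [geo_aa, geo_aa, hg]; ring
  closed := by
    simp only [Lam, Set.ofPred_forall]
    exact isClosed_iInter fun s => isClosed_iInter fun t => isClosed_eq
      ((P.continuous.comp (continuous_geo t)).sub (P.continuous.comp (continuous_geo s)))
      continuous_const
  key g hg g' hg' := by
    by_contra hlt
    set m := g⁻¹ * g' with hm
    set S := m 0 0 ^ 2 + m 0 1 ^ 2 + m 1 0 ^ 2 + m 1 1 ^ 2 with hS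
    have h0 : 0 < 1 - (m 0 0 * m 1 1) ^ 2 := by linarith [not_le.1 hlt]
    obtain ⟨R, hR⟩ := ((tendsto_exp_atTop.eventually_gt_atTop
      (2 * S ^ 2 / (1 - (m 0 0 * m 1 1) ^ 2))).and (eventually_ge_atTop 0)).exists
    have h1 := P.lip (geo g (R / 2)) (geo g' (-(R / 2)))
    have h2 := P.lip (geo g' (R / 2)) (geo g (-(R / 2)))
    rw [dist_comm] at h2
    have h3 := cosh_geo m (R / 2) (-(R / 2))
    have h4 := cosh_geo m (-(R / 2)) (R / 2)
    rw [hm, ← dist_geo_geo, ← hm] at h3 h4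
    have h5 : ∀ x : ℝ, exp x ≤ 2 * cosh x := fun x => by
      rw [cosh_eq]
      linarith [exp_pos (-x)]
    have h6 : exp R * exp R ≤ 2 * cosh (dist (geo g (R / 2)) (geo g' (-(R / 2)))) *
        (2 * cosh (dist (geo g (-(R / 2))) (geo g' (R / 2)))) := by
      refine le_trans ?_ (mul_le_mul (h5 _) (h5 _) (exp_pos _).le (by positivity))
      rw [← exp_add, ← exp_add, exp_le_exp]
      linarith [hg (-(R / 2)) (R / 2), hg' (-(R / 2)) (R / 2)]
    rw [h3, h4] at h6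
    ring_nf at h6
    have h7 : exp (-R) ≤ 1 := exp_le_one_iff.2 (by linarith [hR.2])
    have h8 : 1 ≤ exp R := one_le_exp hR.2
    have h9 := exp_pos (-R)
    have h10 := hR.1
    rw [div_lt_iff₀ h0] at h10
    have h11 : exp R ^ 2 ≤ (m 1 1 ^ 2 * exp R + S) * (m 0 0 ^ 2 * exp R + S) := by
      refine le_trans (h6.trans (le_of_eq ?_)) (mul_le_mul
        (a := m 0 0 ^ 2 * exp (-R) + m 0 1 ^ 2 + m 1 0 ^ 2 + m 1 1 ^ 2 * exp R)
        (c := m 0 0 ^ 2 * exp R + m 0 1 ^ 2 + m 1 0 ^ 2 + m 1 1 ^ 2 * exp (-R)) ?_ ?_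
        (by positivity) (by positivity))
      · simp only [exp_zero]
        ring
      · nlinarith [sq_nonneg (m 0 0), sq_nonneg (m 1 1)]
      · nlinarith [sq_nonneg (m 0 0), sq_nonneg (m 1 1)]
    have h12 : m 0 0 ^ 2 + m 1 1 ^ 2 ≤ S := by nlinarith [sq_nonneg (m 0 1), sq_nonneg (m 1 0)]
    have h13 : 0 ≤ S := by positivity
    nlinarith [mul_le_mul_of_nonneg_left h12 (mul_nonneg h13 (exp_pos R).le),
      mul_le_mul_of_nonneg_left h8 (sq_nonneg S), mul_lt_mul_of_pos_left h10 (exp_pos R)]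

/-- Matrices close to plus or minus the identity. -/
structure Nr (δ : ℝ) (m : G) : Prop where
  ad : 1 ≤ m 0 0 * m 1 1
  bc : 0 ≤ m 0 1 * m 1 0
  sq : m 0 1 ^ 2 + m 1 0 ^ 2 ≤ 2 * δ ^ 2
  sq' : m 0 0 ^ 2 + m 1 1 ^ 2 ≤ 2 + 2 * δ ^ 2
  a1 : 1 / 2 ≤ m 0 0 ^ 2
  a2 : m 0 0 ^ 2 ≤ 2
  d1 : 1 / 2 ≤ m 1 1 ^ 2
  d2 : m 1 1 ^ 2 ≤ 2

lemma La.nr (L : La Γ Λ) {g g' : G} (hg : g ∈ Λ) (hg' : g' ∈ Λ) {δ : ℝ}
    (h : dist (geo g 0) (geo g' 0) ≤ δ) (hδ : δ ≤ 1 / 2) : Nr δ (g⁻¹ * g') := by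
  have h1 := L.key g hg g' hg'
  have h2 := cosh_le_sq dist_nonneg h (by linarith)
  rw [dist_geo_geo, cosh_geo] at h2
  set m := g⁻¹ * g'
  simp only [sub_zero, add_zero, neg_zero, exp_zero, mul_one] at h2
  have h3 := det_eq m
  have h0 : 0 ≤ δ := dist_nonneg.trans h
  have h4 : δ ^ 2 ≤ 1 / 4 := by nlinarith
  have h5 : 2 ≤ m 0 0 ^ 2 + m 1 1 ^ 2 := by
    by_contra h5
    nlinarith [sq_nonneg (m 0 0 ^ 2 - m 1 1 ^ 2), sq_nonneg (m 0 0), sq_nonneg (m 1 1)]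
  have h6 : m 0 1 ^ 2 + m 1 0 ^ 2 ≤ 2 * δ ^ 2 := by linarith
  have h7 : 0 < m 0 0 * m 1 1 := by nlinarith [sq_nonneg (m 0 1 + m 1 0)]
  have h8 : 1 ≤ m 0 0 * m 1 1 := by nlinarith
  have h9 : m 0 0 ^ 2 + m 1 1 ^ 2 ≤ 2 + 2 * δ ^ 2 := by
    nlinarith [sq_nonneg (m 0 1), sq_nonneg (m 1 0)]
  have key : ∀ x y : ℝ, 0 ≤ x → 0 ≤ y → x + y ≤ 5 / 2 → 1 ≤ x * y → 1 / 2 ≤ x ∧ y ≤ 2 := by
    intro x y hx hy h1 h2
    constructor <;> by_contra h3 <;> nlinarith
  have h10 := key (m 0 0 ^ 2) (m 1 1 ^ 2) (sq_nonneg _) (sq_nonneg _) (by linarith) (by linarith)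
  have h11 := key (m 1 1 ^ 2) (m 0 0 ^ 2) (sq_nonneg _) (sq_nonneg _) (by linarith) (by linarith)
  exact ⟨h8, by linarith, h6, h9, h10.1, h11.2, h11.1, h10.2⟩

lemma La.flow_close (L : La Γ Λ) {g g' : G} (hg : g ∈ Λ) (hg' : g' ∈ Λ) {δ : ℝ}
    (h : dist (geo g 0) (geo g' 0) ≤ δ) (hδ : δ ≤ 1 / 2) (τ : ℝ) :
    dist (geo g τ) (geo g' τ) ≤ 2 * exp |τ| * δ := by
  have N := L.nr hg hg' h hδ
  have h0 : 0 ≤ δ := dist_nonneg.trans h
  refine abs_le_of_sq_le_sq' ((sq_le_cosh _).trans ?_) (by positivity) |>.2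
  rw [dist_geo_geo, cosh_geo, sub_self, exp_zero]
  have h1 : exp (-τ - τ) ≤ exp |τ| ^ 2 := by
    rw [← exp_nat_mul, exp_le_exp]
    push_cast
    linarith [neg_le_abs τ]
  have h2 : exp (τ + τ) ≤ exp |τ| ^ 2 := by
    rw [← exp_nat_mul, exp_le_exp]
    push_cast
    linarith [le_abs_self τ]
  have h3 : 1 ≤ exp |τ| ^ 2 := one_le_pow₀ (one_le_exp (abs_nonneg τ))
  nlinarith [N.sq, N.sq', mul_le_mul_of_nonneg_left h1 (sq_nonneg ((g⁻¹ * g') 0 1)),
    mul_le_mul_of_nonneg_left h2 (sq_nonneg ((g⁻¹ * g') 1 0)),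
    mul_le_mul_of_nonneg_left N.sq (zero_le_one.trans h3),
    mul_le_mul_of_nonneg_left h3 (sq_nonneg δ)]

/-- Almost calibrated curves are shadowed by calibrated geodesics. -/
lemma Pot.shadow (P : Pot Γ c u) (F : Fu Γ) {ε : ℝ} (hε : 0 < ε) : ∃ n : ℕ, ∀ ξ : ℝ → ℍ,
    (∀ a b, dist (ξ a) (ξ b) ≤ |a - b|) → 2 * n - 1 / (n + 1 : ℝ) ≤ u (ξ n) - u (ξ (-n)) →
      ∃ g ∈ Lam u, dist (geo g 0) (ξ 0) ≤ ε ∧ dist (geo g 1) (ξ 1) ≤ ε := by
  by_contra H
  push Not at H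
  choose ξ h1 h2 h3 using H
  obtain ⟨R, hR⟩ := F.cpt
  choose γ hγ using fun n => hR (ξ n 0)
  have h4 : ∀ t, ∃ z, Tendsto (fun n => (γ n : G) • ξ n t) (hyperfilter ℕ) (𝓝 z) := fun t => by
    obtain ⟨z, -, hz⟩ := (isCompact_closedBall I (|t| + R)).ultrafilter_le_nhds'
      ((hyperfilter ℕ).map fun n => (γ n : G) • ξ n t) (mem_map.2 <| univ_mem' fun n => by
        have h4 := dist_triangle ((γ n : G) • ξ n t) ((γ n : G) • ξ n 0) I
        have h5 := h1 n t 0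
        rw [dist_smul] at h4
        rw [sub_zero] at h5
        exact h4.trans (add_le_add h5 (hγ n)))
    exact ⟨z, hz⟩
  choose η hη using h4
  have h5 : ∀ a b, dist (η a) (η b) ≤ |a - b| := fun a b =>
    le_of_tendsto' ((hη a).dist (hη b)) fun n => by rw [dist_smul]; exact h1 n a b
  have hc : (hyperfilter ℕ : Filter ℕ) ≤ atTop := Nat.hyperfilter_le_atTop
  have h6 : ∀ a b, a ≤ b → b - a ≤ u (η b) - u (η a) := fun a b hab => by
    have h6 := ((P.continuous.tendsto _).comp (hη b)).sub ((P.continuous.tendsto _).comp (hη a))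
    have h7 := (tendsto_one_div_add_atTop_nhds_zero_nat (𝕜 := ℝ)).mono_left hc
    have h8 := h6.add h7
    rw [add_zero] at h8
    refine ge_of_tendsto h8 (hc ?_)
    filter_upwards [tendsto_natCast_atTop_atTop.eventually_ge_atTop b,
      tendsto_natCast_atTop_atTop.eventually_ge_atTop (-a)] with n h9 h10
    have h11 := (P.lip _ _).trans (h1 n n b)
    have h12 := (P.lip _ _).trans (h1 n a (-n))
    rw [abs_of_nonneg (by linarith)] at h11 h12
    have h13 := h2 n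
    simp only [Function.comp, P.eqv]
    linarith
  have h7 : ∀ a b, a ≤ b → u (η b) - u (η a) = b - a ∧ dist (η b) (η a) = |b - a| := by
    intro a b hab
    have h7 := h5 b a
    have h8 := P.lip (η b) (η a)
    have h9 := h6 a b hab
    rw [abs_of_nonneg (by linarith)] at h7 ⊢
    constructor <;> linarith
  obtain ⟨g, hg⟩ := line_eq (ξ := η) fun s t => by
    rcases le_total s t with h | h
    · rw [dist_comm, abs_sub_comm, (h7 s t h).2]
    · exact (h7 t s h).2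
  have h8 : g ∈ Lam u := fun s t => by
    rw [← hg, ← hg]
    rcases le_total s t with h | h
    · exact (h7 s t h).1
    · linarith [(h7 t s h).1]
  obtain ⟨n, h9, h10⟩ := ((Metric.tendsto_nhds.1 (hη 0) ε hε).and
    (Metric.tendsto_nhds.1 (hη 1) ε hε)).exists
  have h11 : ∀ t, dist (geo (((γ n)⁻¹ : Γ) * g) t) (ξ n t) = dist ((γ n : G) • ξ n t) (η t) := by
    intro t
    rw [geo_mul, ← hg, ← dist_smul (γ n : G), Subgroup.coe_inv, smul_inv_smul, dist_comm]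
  have h12 := h3 n _ (P.la.mul (γ n)⁻¹ g h8) (by rw [h11]; exact h9.le)
  rw [h11] at h12
  linarith

lemma Pot.nonempty (P : Pot Γ c u) (F : Fu Γ) (hc : c ∈ Coh Γ)
    (h : ∀ θ, 0 < θ → ∃ (γ : Γ) (z : ℍ), (1 - θ) * dist z ((γ : G) • z) < c γ) :
    (Lam u).Nonempty := by
  obtain ⟨n, hn⟩ := P.shadow F one_pos
  by_contra H
  have h0 : ∀ g : G, u (geo g n) - u (geo g (-n)) < 2 * n - 1 / (n + 1 : ℝ) := fun g => by
    by_contra h0
    obtain ⟨g', h1, -⟩ := hn (geo g) (fun a b => (dist_geo g a b).le) (not_lt.1 h0)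
    exact H ⟨g', h1⟩
  have hn0 : 0 < n := by
    rcases n.eq_zero_or_pos with rfl | h1
    · have := h0 1
      norm_num at this
    · exact h1
  have hn1 : (1 : ℝ) ≤ n := by exact_mod_cast hn0
  set κ : ℝ := 1 / (n + 1 : ℝ) with hκ
  have hκ0 : 0 < κ := by positivity
  have hκ1 : κ ≤ 1 := by
    rw [hκ, div_le_one (by positivity)]
    linarith
  have h1 : ∀ (g : G) (j : ℕ), u (geo g (2 * n * j)) - u (geo g 0) ≤ 2 * n * j - κ * j := by
    intro g j
    induction j with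
    | zero => simp
    | succ j ih =>
      have h1 := h0 (g * aa (2 * n * j + n))
      rw [geo_aa, geo_aa, show (n : ℝ) + (2 * n * j + n) = 2 * n * (j + 1 : ℕ) by push_cast; ring,
        show -(n : ℝ) + (2 * n * j + n) = 2 * n * j by ring] at h1
      push_cast at h1 ⊢
      linarith
  have h2 : ∀ z w, u w - u z ≤ (1 - κ / (2 * n)) * dist z w + κ := by
    intro z w
    obtain ⟨g, h2, h3⟩ := exists_frame z w
    have h4 := h1 g ⌊dist z w / (2 * n)⌋₊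
    have h5 := Nat.floor_le (show 0 ≤ dist z w / (2 * n) by positivity)
    have h6 := Nat.lt_floor_add_one (dist z w / (2 * n))
    have h7 := P.lip (geo g (dist z w)) (geo g (2 * n * ⌊dist z w / (2 * n)⌋₊))
    rw [le_div_iff₀ (by positivity)] at h5
    rw [dist_geo, h3, abs_of_nonneg (by linarith)] at h7
    rw [h2] at h4
    have h8 := mul_lt_mul_of_pos_left h6 hκ0
    have h9 : κ / (2 * n) * dist z w = κ * (dist z w / (2 * n)) := by ring
    linarith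
  obtain ⟨γ, z, h3⟩ := h (κ / (2 * n)) (by positivity)
  have h4 : κ / (2 * n) ≤ 1 := by
    rw [div_le_one (by positivity)]
    linarith
  have h5 : ∀ m : ℕ, dist z (((γ ^ m : Γ) : G) • z) ≤ m * dist z ((γ : G) • z) := by
    intro m
    induction m with
    | zero => simp
    | succ m ih =>
      have := dist_triangle z (((γ ^ m : Γ) : G) • z) (((γ ^ (m + 1) : Γ) : G) • z)
      rw [pow_succ γ, Subgroup.coe_mul, mul_smul, dist_smul] at this
      rw [pow_succ γ, Subgroup.coe_mul, mul_smul]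
      push_cast at this ih ⊢
      linarith
  obtain ⟨m, hm⟩ := exists_nat_gt (κ / (c γ - (1 - κ / (2 * n)) * dist z ((γ : G) • z)))
  have h6 := h2 z (((γ ^ m : Γ) : G) • z)
  rw [P.eqv, coh_pow hc] at h6
  rw [div_lt_iff₀ (by linarith)] at hm
  nlinarith [mul_le_mul_of_nonneg_left (h5 m) (sub_nonneg.2 h4)]

end Pool.Agent.Lib.MP_5bb885_an
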