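import Pool.Agent.Lib.MP_5bb885_an.H9Dual

/-!
Chains in a lamination, and the leaves near a closed leaf.
-/

namespace Pool.Agent.Lib.MP_5bb885_an

open UpperHalfPlane Real Filter Topology

variable {Γ : Subgroup G} {Λ : Set G} {f g g' : G} {β : Γ} {ε δ : ℝ}

/-- One step of a chain. -/
def St (Λ : Set G) (ε : ℝ) (g g' : G) : Prop :=
  g ∈ Λ ∧ g' ∈ Λ ∧ ∃ τ, 1 ≤ τ ∧ τ ≤ 2 ∧ dist (geo g τ) (geo g' 0) ≤ ε

/-- Chains. -/
def Ch (Λ : Set G) (ε : ℝ) : G → G → Prop := Relation.TransGen (St Λ ε)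

/-- The classes of all closed chains are proportional. -/
def Rat (Γ : Subgroup G) (Λ : Set G) (δ : ℝ) : Prop :=
  ∀ (g g' : G) (ν ν' : Γ), Ch Λ δ g (ν * g) → Ch Λ δ g' (ν' * g') →
    ∀ φ ∈ Coh Γ, φ ν = 0 → φ ν' = 0

/-- Chain recurrent frames. -/
def CR (Γ : Subgroup G) (Λ : Set G) (g : G) : Prop :=
  ∀ ε, 0 < ε → ∀ s t, s ≤ t → ∃ ν : Γ, Ch Λ ε (g * aa t) (ν * g * aa s)

lemma geo_aa0 (g : G) (s : ℝ) : geo (g * aa s) 0 = geo g s := by rw [geo_aa, zero_add]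

lemma Ch.mono (h : Ch Λ ε g g') (hε : ε ≤ δ) : Ch Λ δ g g' :=
  Relation.TransGen.mono (p := St Λ δ)
    (fun _ _ ⟨h1, h2, τ, h3, h4, h5⟩ => ⟨h1, h2, τ, h3, h4, h5.trans hε⟩) _ _ h

lemma Ch.smul (L : La Γ Λ) (h : Ch Λ ε g g') (γ : Γ) : Ch Λ ε (γ * g) (γ * g') :=
  Relation.TransGen.lift (p := St Λ ε) (fun g : G => (γ : G) * g)
    (fun _ _ ⟨h1, h2, τ, h3, h4, h5⟩ =>
      ⟨L.mul γ _ h1, L.mul γ _ h2, τ, h3, h4, by rwa [geo_mul, geo_mul, dist_smul]⟩) _ _ h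

lemma Ch.orbit (L : La Γ Λ) (hg : g ∈ Λ) (hg' : g' ∈ Λ) {T : ℝ} (hT : 1 ≤ T)
    (h : dist (geo g T) (geo g' 0) ≤ ε) : Ch Λ ε g g' := by
  obtain ⟨n, hn⟩ := exists_nat_ge (T - 2)
  induction n generalizing g T with
  | zero => exact .single ⟨hg, hg', T, hT, by simpa [sub_nonpos] using hn, h⟩
  | succ n ih =>
    rcases le_total T 2 with h1 | h1
    · exact .single ⟨hg, hg', T, hT, h1, h⟩
    · refine .head ⟨hg, L.flow g hg 1, 1, le_rfl, one_le_two, ?_⟩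
        (ih (L.flow g hg 1) (T := T - 1) (by linarith) (by rwa [geo_aa, sub_add_cancel])
          (by push_cast at hn; linarith))
      rw [geo_aa0, dist_self]
      exact dist_nonneg.trans h

lemma CR.smul (L : La Γ Λ) (h : CR Γ Λ g) (γ : Γ) (r : ℝ) : CR Γ Λ (γ * g * aa r) := by
  intro ε hε s t hst
  obtain ⟨ν, h1⟩ := h ε hε (r + s) (r + t) (by linarith)
  refine ⟨γ * ν * γ⁻¹, ?_⟩
  convert h1.smul L γ using 1
  · rw [← aa_add]
    group
  · rw [← aa_add]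
    push_cast
    group

lemma Per.time {f β : G} (h : Per f β) : ∃ T, 0 < T ∧ ∀ t, geo f (t + T) = β • geo f t :=
  ⟨_, log_pos h.2, fun t => (h.shift t).symm⟩

lemma geo_pow {f β : G} {T : ℝ} (h : ∀ t, geo f (t + T) = β • geo f t) (k : ℕ) (t : ℝ) :
    geo f (t + k * T) = β ^ k • geo f t := by
  induction k with
  | zero => simp
  | succ k ih =>
    rw [pow_succ', mul_smul, ← ih, ← h]
    push_cast
    ring_nf

lemma La.per (L : La Γ Λ) (hδ : 0 ≤ δ) (hf : f ∈ Λ) {T : ℝ} (hT : 0 < T)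
    (h : ∀ t, geo f (t + T) = (β : G) • geo f t) :
    ∃ k : ℕ, 0 < k ∧ Ch Λ δ f (((β ^ k : Γ) : G) * f) := by
  obtain ⟨k, hk⟩ := exists_nat_ge (1 / T)
  rw [div_le_iff₀ hT] at hk
  refine ⟨k, Nat.pos_of_ne_zero fun e => ?_, Ch.orbit L hf (L.mul _ _ hf) hk ?_⟩
  · rw [e] at hk
    norm_num at hk
  · rw [geo_mul, Subgroup.coe_pow, ← geo_pow h, zero_add, dist_self]
    exact hδ

lemma jump {e y m : ℝ} (he : e = 1 ∨ e = -1) {w w' : ℍ} (h1 : y + m ≤ e * XX f w)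
    (h2 : exp (dist w w') - 1 ≤ 1) (h3 : (1 + |y|) * (exp (dist w w') - 1) < m) :
    y ≤ e * XX f w' := by
  by_contra h4
  have h5 := XX_lip f w' w
  rw [dist_comm] at h5
  have h6 : 0 ≤ exp (dist w w') - 1 := sub_nonneg.2 (one_le_exp dist_nonneg)
  generalize exp (dist w w') - 1 = κ at *
  have h7 : e * XX f w - e * XX f w' ≤ (1 + |e * XX f w'|) * κ := by
    rcases he with rfl | rfl
    · simpa using (le_abs_self _).trans h5
    · have := (neg_le_abs _).trans h5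
      simp only [neg_mul, one_mul, abs_neg]
      linarith
  generalize e * XX f w' = v at *
  have h8 : |v| ≤ |y| + (y - v) := by
    have := abs_sub_abs_le_abs_sub v y
    rw [abs_sub_comm, abs_of_nonneg (show 0 ≤ y - v by linarith)] at this
    linarith
  nlinarith [mul_le_mul_of_nonneg_right h8 h6, mul_le_mul_of_nonneg_left h2
    (show 0 ≤ y - v by linarith)]

/-- A threshold that no chain crosses backwards is not crossed forwards by a recurrent leaf. -/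
lemma trap (F : Fu Γ) (L : La Γ Λ) (hP : Per f β) (hδ : 0 < δ)
    (hR : ∀ (g : G) (ν : Γ), Ch Λ δ g (ν * g) → ∀ φ ∈ Coh Γ, φ β = 0 → φ ν = 0)
    {e y m : ℝ} (he : e = 1 ∨ e = -1) (hm : 0 < m)
    (H : ∀ g ∈ Λ, ∀ τ, 1 ≤ τ → y ≤ e * XX f (geo g 0) → y + m ≤ e * XX f (geo g τ))
    (hg : g ∈ Λ) (hC : CR Γ Λ g) {s : ℝ} (h1 : e * XX f (geo g s) < y)
    (h2 : y ≤ e * XX f (geo g (s + 1))) : False := by
  have h3 : ∀ᶠ x in 𝓝 (0 : ℝ), exp x - 1 < 1 ∧ (1 + |y|) * (exp x - 1) < m :=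
    ((continuous_exp.sub continuous_const).continuousAt.eventually_lt continuousAt_const
      (by simp)).and
      ((continuous_const.mul (continuous_exp.sub continuous_const)).continuousAt.eventually_lt
        continuousAt_const (by simpa))
  obtain ⟨ε, ⟨⟨h4, h5⟩, h6⟩, h7⟩ := (((h3.and (gt_mem_nhds hδ)).filter_mono
    nhdsWithin_le_nhds).and (self_mem_nhdsWithin (s := Set.Ioi 0))).exists
  have h8 : ∀ g g', Ch Λ ε g g' → y ≤ e * XX f (geo g 0) → y ≤ e * XX f (geo g' 0) := by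
    intro g g' h h0
    have step : ∀ g g', St Λ ε g g' → y ≤ e * XX f (geo g 0) → y ≤ e * XX f (geo g' 0) := by
      rintro g g' ⟨k1, -, τ, k2, -, k3⟩ k4
      have k5 := exp_le_exp.2 k3
      exact jump he (H g k1 τ k2 k4) (by linarith)
        (lt_of_le_of_lt (mul_le_mul_of_nonneg_left (by linarith) (by positivity)) h5)
    induction h with
    | single h => exact step _ _ h h0
    | tail _ h ih => exact step _ _ h ih
  obtain ⟨ν, h9⟩ := hC ε h7 s (s + 1) (by linarith)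
  have h10 : Ch Λ ε (g * aa s) (ν * g * aa s) :=
    (Ch.orbit L (L.flow g hg s) (L.flow g hg (s + 1)) le_rfl
      (by rw [geo_aa, geo_aa0, add_comm, dist_self]; exact h7.le)).trans h9
  obtain ⟨φ, h11, h12, h13⟩ := hP.dual F
  refine h13 e y (geo g s) ν he (fun η k => ?_) h1 ?_
    (hR (g * aa s) ν (by rw [← mul_assoc]; exact h10.mono h6.le) φ h11 h12)
  · have := h8 _ _ (h10.smul L η) (by rwa [geo_mul, geo_aa0])
    rwa [geo_mul, geo_aa0, geo_mul] at this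
  · have := h8 _ _ h9 (by rwa [geo_aa0])
    rwa [geo_aa0, geo_mul] at this

lemma La.nocross (L : La Γ Λ) (hf : f ∈ Λ) (hg : g ∈ Λ) :
    0 ≤ (f⁻¹ * g) 0 0 * (f⁻¹ * g) 1 0 * ((f⁻¹ * g) 0 1 * (f⁻¹ * g) 1 1) := by
  have h1 := L.key f hf g hg
  have h2 := det_eq (f⁻¹ * g)
  generalize f⁻¹ * g = m at *
  have h3 : m 0 0 * m 1 0 * (m 0 1 * m 1 1) = m 0 0 * m 1 1 * (m 0 0 * m 1 1 - 1) := by
    linear_combination (-(m 0 0 * m 1 1)) * h2
  rw [h3]
  generalize m 0 0 * m 1 1 = x at *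
  by_contra h
  nlinarith [sq_nonneg (x - 1), sq_nonneg (x + 1)]

lemma La.close (L : La Γ Λ) (hf : f ∈ Λ) (hP : Per f β) : ∃ r, 0 < r ∧ ∀ g ∈ Λ, ∀ t,
    |XX f (geo g t)| ≤ 2 * r → (f⁻¹ * g) 0 1 = 0 ∨ (f⁻¹ * g) 1 0 = 0 := by
  have h0 := hP.1.mul_eq
  have h1 := hP.2
  have h1' := hP.1
  set D := f⁻¹ * β * f with hD
  have h2 : 0 < (D 0 0 - D 1 1) ^ 2 := by
    refine sq_pos_iff.2 fun h => ?_
    rw [← sub_eq_zero.1 h] at h0
    linarith
  obtain ⟨r, h3, h4⟩ : ∃ r, 0 < r ∧ r ^ 2 * (D 0 0 - D 1 1) ^ 2 < 2 :=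
    ⟨1 / |D 0 0 - D 1 1|, by have := sq_pos_iff.1 h2; positivity, by
      rw [div_pow, sq_abs, div_mul_cancel₀ _ h2.ne']; norm_num⟩
  refine ⟨r, h3, fun g hg t h5 => ?_⟩
  have h6 := L.nocross hf hg
  have h7 := L.key f hf g hg
  have h8 := L.key g hg _ (L.mul β g hg)
  have h9 := det_eq (f⁻¹ * g)
  rw [show g⁻¹ * (β * g) = (f⁻¹ * g)⁻¹ * (D * (f⁻¹ * g)) by rw [hD]; group] at h8
  rw [XX_geo] at h5
  generalize f⁻¹ * g = m at *
  set p := m 0 0 * m 1 0 * (m 0 1 * m 1 1) with hp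
  have h10 : (m⁻¹ * (D * m)) 0 0 * (m⁻¹ * (D * m)) 1 1 = 1 - p * (D 0 0 - D 1 1) ^ 2 := by
    simp only [mul_ent, inv_00, inv_01, inv_10, inv_11, h1'.1, h1'.2, hp]
    linear_combination (m 0 0 * m 1 1 - m 0 1 * m 1 0) ^ 2 * h0 +
      (m 0 0 * m 1 1 - m 0 1 * m 1 0 + 1) * h9
  have h11 : 4 * p ≤ (2 * r) ^ 2 := by
    refine le_trans ?_ (sq_le_sq' (abs_le.1 h5).1 (abs_le.1 h5).2)
    have h11 : exp t * exp (-t) = 1 := by rw [← exp_add, add_neg_cancel, exp_zero]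
    nlinarith [sq_nonneg (m 0 0 * m 1 0 * exp t - m 0 1 * m 1 1 * exp (-t))]
  rw [h10] at h8
  have h12 : p * (D 0 0 - D 1 1) ^ 2 < 2 :=
    lt_of_le_of_lt (mul_le_mul_of_nonneg_right (by linarith) h2.le) h4
  have h13 : p * (D 0 0 - D 1 1) ^ 2 = 0 := by
    have := mul_nonneg h6 h2.le
    by_contra h13
    nlinarith [mul_pos (lt_of_le_of_ne this (Ne.symm h13)) (sub_pos.2 h12)]
  have h14 : m 0 0 * m 1 1 * (m 0 1 * m 1 0) = 0 := by
    have := (mul_eq_zero.1 h13).resolve_right h2.ne'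
    linarith
  refine mul_eq_zero.1 ((mul_eq_zero.1 h14).resolve_left fun h => ?_)
  rw [h] at h7
  norm_num at h7

lemma La.side (L : La Γ Λ) (hP : Per f β) (hg : g ∈ Λ) (hg' : g' ∈ Λ) (h1 : (f⁻¹ * g) 1 0 = 0)
    (h2 : (f⁻¹ * g') 0 1 = 0) :
    (f⁻¹ * g) 0 1 * (f⁻¹ * g) 1 1 * ((f⁻¹ * g') 0 0 * (f⁻¹ * g') 1 0) ≤ 0 := by
  by_contra h
  have h3 := det_eq (f⁻¹ * g)
  have h4 := det_eq (f⁻¹ * g')
  have h5 : ∀ k : ℕ, g⁻¹ * (((β ^ k : Γ) : G) * g') =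
      (f⁻¹ * g)⁻¹ * ((f⁻¹ * β * f) ^ (k : ℤ) * (f⁻¹ * g')) := fun k => by
    rw [← conj_pow, zpow_natCast, Subgroup.coe_pow]
    group
  have h6 := fun k : ℕ => h5 k ▸ L.key g hg _ (L.mul (β ^ k) g' hg')
  generalize f⁻¹ * g = m at *
  generalize f⁻¹ * g' = n at *
  rw [h1, mul_zero, sub_zero] at h3
  rw [h2, zero_mul, sub_zero] at h4
  set κ := m 0 1 * m 0 0 * n 1 0 * n 1 1 with hκ
  have h7 : 0 < κ := by
    have : κ * (m 1 1 * n 0 0) ^ 2 = m 0 1 * m 1 1 * (n 0 0 * n 1 0) := by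
      rw [hκ]
      linear_combination m 0 1 * m 1 1 * n 0 0 * n 1 0 * (n 0 0 * n 1 1) * h3 +
        m 0 1 * m 1 1 * n 0 0 * n 1 0 * h4
    exact pos_of_mul_pos_left (this ▸ not_le.1 h) (sq_nonneg _)
  obtain ⟨k, hk⟩ := pow_unbounded_of_one_lt κ hP.2
  have h8 := h6 k
  obtain ⟨h9, h10⟩ := hP.1.zpow k
  have h11 := h9.mul_eq
  rw [← pow_mul, mul_comm, pow_mul, ← zpow_natCast _ k, ← h10] at hk
  generalize (f⁻¹ * β * f) ^ (k : ℤ) = D at *
  have h12 : (m⁻¹ * (D * n)) 0 0 * (m⁻¹ * (D * n)) 1 1 = 1 - κ * D 1 1 ^ 2 := by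
    simp only [mul_ent, inv_00, inv_01, inv_10, inv_11, h9.1, h9.2, h1, h2, hκ]
    linear_combination (m 0 0 * m 1 1 * (n 0 0 * n 1 1)) * h11 + (n 0 0 * n 1 1) * h3 + h4
  have h13 : 0 < D 1 1 ^ 2 := sq_pos_iff.2 (right_ne_zero_of_mul_eq_one h11)
  have h14 : κ * D 1 1 ^ 2 < 1 := by
    refine (mul_lt_mul_of_pos_right hk h13).trans_eq ?_
    rw [← mul_pow, h11, one_pow]
  rw [h12] at h8
  nlinarith [mul_pos h7 h13]

lemma exists_sign {x : ℝ} (h : x ≠ 0) : ∃ e : ℝ, (e = 1 ∨ e = -1) ∧ 0 < e * x := by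
  rcases h.lt_or_gt with h | h
  · exact ⟨-1, Or.inr rfl, by linarith⟩
  · exact ⟨1, Or.inl rfl, by linarith⟩

lemma eXX (e : ℝ) (f g : G) (t : ℝ) : e * XX f (geo g t) =
    e * ((f⁻¹ * g) 0 0 * (f⁻¹ * g) 1 0) * exp t + e * ((f⁻¹ * g) 0 1 * (f⁻¹ * g) 1 1) * exp (-t) := by
  rw [XX_geo]
  ring

/-- A chain recurrent leaf asymptotic to a closed leaf is the closed leaf. -/
lemma CR.isDg (F : Fu Γ) (L : La Γ Λ) (hf : f ∈ Λ) (hP : Per f β) (hδ : 0 < δ) (R : Rat Γ Λ δ)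
    (hg : g ∈ Λ) (hC : CR Γ Λ g) (h : (f⁻¹ * g) 0 1 = 0 ∨ (f⁻¹ * g) 1 0 = 0) : IsDg (f⁻¹ * g) := by
  obtain ⟨T, hT, hT'⟩ := hP.time
  obtain ⟨k, hk, hk'⟩ := L.per hδ.le hf hT hT'
  have hR : ∀ (g : G) (ν : Γ), Ch Λ δ g (ν * g) → ∀ φ ∈ Coh Γ, φ β = 0 → φ ν = 0 :=
    fun g ν h φ h1 h2 => R f g _ ν hk' h φ h1 (by rw [coh_pow h1, h2, mul_zero])
  obtain ⟨r, hr, H⟩ := L.close hf hP
  have h0 := det_eq (f⁻¹ * g)
  have hsq : ∀ e : ℝ, (e = 1 ∨ e = -1) → e * e = 1 ∧ ∀ x, |e * x| = |x| := by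
    rintro e (rfl | rfl) <;> simp
  have hτ : ∀ τ : ℝ, 1 ≤ τ → 2 ≤ exp τ := fun τ h => by linarith [add_one_le_exp τ]
  have out : (f⁻¹ * g) 0 1 = 0 → (f⁻¹ * g) 1 0 = 0 := by
    intro h1
    by_contra h2
    rw [h1, zero_mul, sub_zero] at h0
    obtain ⟨e, he, h3⟩ := exists_sign (mul_ne_zero (left_ne_zero_of_mul_eq_one h0) h2)
    refine trap F L hP hδ hR he hr (y := r) (fun g₁ h4 τ h5 h6 => not_lt.1 fun h7 => ?_) hg hC
      (s := log (r / (e * ((f⁻¹ * g) 0 0 * (f⁻¹ * g) 1 0))) - 1) ?_ ?_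
    · have h8 := L.nocross hf h4
      have h9 := H g₁ h4 τ
      have h10 := fun h => L.side hP h4 hg h h1
      rw [← (hsq e he).2, eXX] at h9
      rw [eXX] at h6 h7
      rw [neg_zero, exp_zero, mul_one, mul_one] at h6
      have h11 := hτ τ h5
      have h12 := exp_pos (-τ)
      have h13 := (hsq e he).1
      generalize f⁻¹ * g₁ = n at *
      have h14 : 0 ≤ e * (n 0 0 * n 1 0) * (e * (n 0 1 * n 1 1)) := by
        rwa [mul_mul_mul_comm, h13, one_mul]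
      have h15 : 0 ≤ e * (n 0 0 * n 1 0) ∧ 0 ≤ e * (n 0 1 * n 1 1) :=
        (mul_nonneg_iff.1 h14).resolve_right fun h => by linarith [h.1, h.2]
      rcases h9 (by rw [abs_of_nonneg (by nlinarith [h15.1, h15.2])]; linarith) with h16 | h16
      · simp only [h16, zero_mul, mul_zero, add_zero] at h6 h7
        nlinarith
      · have h17 := h10 h16
        rw [h16, mul_zero, mul_zero, zero_add] at h6
        have h18 := mul_pos (hr.trans_le h6) h3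
        rw [mul_mul_mul_comm, h13] at h18
        linarith
    · rw [eXX, h1, zero_mul, mul_zero, zero_mul, add_zero, exp_sub, exp_log (div_pos hr h3),
        ← mul_div_assoc, mul_div_cancel₀ _ h3.ne']
      exact div_lt_self hr (by linarith [hτ 1 le_rfl])
    · rw [eXX, h1, zero_mul, mul_zero, zero_mul, add_zero, sub_add_cancel,
        exp_log (div_pos hr h3), mul_div_cancel₀ _ h3.ne']
  have inc : (f⁻¹ * g) 1 0 = 0 → (f⁻¹ * g) 0 1 = 0 := by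
    intro h1
    by_contra h2
    rw [h1, mul_zero, sub_zero] at h0
    obtain ⟨e, he, h3⟩ := exists_sign (neg_ne_zero.2 (mul_ne_zero h2 (right_ne_zero_of_mul_eq_one h0)))
    refine trap F L hP hδ hR he (half_pos hr) (y := -r) (fun g₁ h4 τ h5 h6 => ?_) hg hC
      (s := log (e * -((f⁻¹ * g) 0 1 * (f⁻¹ * g) 1 1) / r) - 1) ?_ ?_
    · have h8 := L.nocross hf h4
      have h9 := H g₁ h4 0
      have h10 := L.side hP hg h4 h1
      rw [← (hsq e he).2, eXX] at h9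
      rw [eXX] at h6 ⊢
      rw [neg_zero, exp_zero, mul_one, mul_one] at h6 h9
      have h11 : exp (-τ) ≤ 1 / 2 := by
        rw [exp_neg, one_div]
        exact inv_anti₀ two_pos (hτ τ h5)
      have h12 := exp_pos (-τ)
      have h12' := exp_pos τ
      have h13 := (hsq e he).1
      generalize f⁻¹ * g₁ = n at *
      have h14 : 0 ≤ e * (n 0 0 * n 1 0) * (e * (n 0 1 * n 1 1)) := by
        rwa [mul_mul_mul_comm, h13, one_mul]
      rcases mul_nonneg_iff.1 h14 with h15 | h15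
      · nlinarith [mul_nonneg h15.1 h12'.le, mul_nonneg h15.2 h12.le]
      rcases h9 (by rw [abs_of_nonpos (by linarith [h15.1, h15.2])]; linarith) with h16 | h16
      · have h17 := h10 h16
        have h18 : 0 ≤ e * (n 0 0 * n 1 0) := by
          refine nonneg_of_mul_nonneg_right ?_ h3
          rw [mul_mul_mul_comm, h13]
          linarith
        simp only [h16, zero_mul, mul_zero, add_zero]
        nlinarith [mul_nonneg h18 h12'.le]
      · simp only [h16, zero_mul, mul_zero, zero_add] at h6 ⊢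
        nlinarith [h15.2]
    · rw [eXX, h1, mul_zero, mul_zero, zero_mul, zero_add, neg_sub, exp_sub,
        exp_log (div_pos h3 hr), div_div_eq_mul_div, ← mul_div_assoc, div_lt_iff₀ h3]
      nlinarith [hτ 1 le_rfl, mul_pos hr h3]
    · rw [eXX, h1, mul_zero, mul_zero, zero_mul, zero_add, sub_add_cancel, exp_neg,
        exp_log (div_pos h3 hr), inv_div, ← mul_div_assoc, le_div_iff₀ h3]
      linarith
  exact h.elim (fun h => ⟨h, out h⟩) fun h => ⟨inc h, h⟩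

end Pool.Agent.Lib.MP_5bb885_an
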