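import Pool.Agent.Lib.MP_5bb885_an.H9Cal

/-!
Laminations have polynomial complexity.
-/

namespace Pool.Agent.Lib.MP_5bb885_an

open UpperHalfPlane Real Filter Topology

variable {Γ : Subgroup G} {Λ : Set G}

/-- The backward endpoint. -/
noncomputable def pp (m : G) : ℝ := m 0 1 / m 1 1

/-- The inverse of the forward endpoint. -/
noncomputable def qq (m : G) : ℝ := m 1 0 / m 0 0

lemma Nr.a0 {δ : ℝ} {m : G} (N : Nr δ m) : m 0 0 ≠ 0 := fun h => by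
  have := N.a1
  rw [h] at this
  norm_num at this

lemma Nr.d0 {δ : ℝ} {m : G} (N : Nr δ m) : m 1 1 ≠ 0 := fun h => by
  have := N.d1
  rw [h] at this
  norm_num at this

lemma Nr.pp_le {δ : ℝ} {m : G} (N : Nr δ m) (h0 : 0 ≤ δ) : |pp m| ≤ 2 * δ := by
  refine abs_le_of_sq_le_sq ?_ (by positivity)
  rw [pp, div_pow, div_le_iff₀ (by linarith [N.d1])]
  nlinarith [N.sq, sq_nonneg (m 1 0), mul_le_mul_of_nonneg_left N.d1 (sq_nonneg δ)]

lemma Nr.qq_le {δ : ℝ} {m : G} (N : Nr δ m) (h0 : 0 ≤ δ) : |qq m| ≤ 2 * δ := by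
  refine abs_le_of_sq_le_sq ?_ (by positivity)
  rw [qq, div_pow, div_le_iff₀ (by linarith [N.a1])]
  nlinarith [N.sq, sq_nonneg (m 0 1), mul_le_mul_of_nonneg_left N.a1 (sq_nonneg δ)]

lemma rel (F g g' : G) : g⁻¹ * g' = (F⁻¹ * g)⁻¹ * (F⁻¹ * g') := by group

lemma rel_ent {m n : G} (h1 : m 0 0 ≠ 0) (h2 : m 1 1 ≠ 0) (h3 : n 0 0 ≠ 0) (h4 : n 1 1 ≠ 0) :
    (m⁻¹ * n) 0 0 = m 1 1 * n 0 0 * (1 - pp m * qq n) ∧
    (m⁻¹ * n) 0 1 = m 1 1 * n 1 1 * (pp n - pp m) ∧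
    (m⁻¹ * n) 1 0 = m 0 0 * n 0 0 * (qq n - qq m) ∧
    (m⁻¹ * n) 1 1 = m 0 0 * n 1 1 * (1 - qq m * pp n) := by
  simp only [mul_ent, inv_00, inv_01, inv_10, inv_11, pp, qq]
  refine ⟨?_, ?_, ?_, ?_⟩ <;> field_simp <;> ring

lemma La.mono (L : La Γ Λ) {F g g' : G} (hg : g ∈ Λ) (hg' : g' ∈ Λ) (h1 : (F⁻¹ * g) 0 0 ≠ 0)
    (h2 : (F⁻¹ * g) 1 1 ≠ 0) (h3 : (F⁻¹ * g') 0 0 ≠ 0) (h4 : (F⁻¹ * g') 1 1 ≠ 0)
    (h5 : pp (F⁻¹ * g) * qq (F⁻¹ * g') < 1) (h6 : qq (F⁻¹ * g) * pp (F⁻¹ * g') < 1)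
    (h7 : qq (F⁻¹ * g) < qq (F⁻¹ * g')) : pp (F⁻¹ * g) ≤ pp (F⁻¹ * g') := by
  have h8 := L.key g hg g' hg'
  have h9 := det_eq (g⁻¹ * g')
  have h10 : 0 ≤ (g⁻¹ * g') 0 0 * (g⁻¹ * g') 1 1 * ((g⁻¹ * g') 0 1 * (g⁻¹ * g') 1 0) := by
    rw [show (g⁻¹ * g') 0 1 * (g⁻¹ * g') 1 0 = (g⁻¹ * g') 0 0 * (g⁻¹ * g') 1 1 - 1 by linarith]
    nlinarith [sq_nonneg ((g⁻¹ * g') 0 0 * (g⁻¹ * g') 1 1 - 1)]
  obtain ⟨e1, e2, e3, e4⟩ := rel_ent h1 h2 h3 h4
  rw [rel F, e1, e2, e3, e4] at h10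
  by_contra h11
  have h12 : 0 < ((F⁻¹ * g) 0 0 * (F⁻¹ * g) 1 1 * (F⁻¹ * g') 0 0 * (F⁻¹ * g') 1 1) ^ 2 *
      ((1 - pp (F⁻¹ * g) * qq (F⁻¹ * g')) * (1 - qq (F⁻¹ * g) * pp (F⁻¹ * g')) *
        (qq (F⁻¹ * g') - qq (F⁻¹ * g)) * (pp (F⁻¹ * g) - pp (F⁻¹ * g'))) :=
    mul_pos (by positivity) (mul_pos (mul_pos (mul_pos (by linarith) (by linarith)) (by linarith))
      (by linarith [not_le.1 h11]))
  nlinarith

lemma conj_ent (m : G) (t : ℝ) : ((aa t)⁻¹ * m * aa t) 0 0 = m 0 0 ∧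
    ((aa t)⁻¹ * m * aa t) 0 1 = m 0 1 * exp (-t) ∧ ((aa t)⁻¹ * m * aa t) 1 0 = m 1 0 * exp t ∧
      ((aa t)⁻¹ * m * aa t) 1 1 = m 1 1 := by
  have h1 : exp (-(t / 2)) * exp (t / 2) = 1 := by simp [← exp_add]
  have h2 : exp (-t) = exp (-(t / 2)) * exp (-(t / 2)) := by rw [← exp_add]; ring_nf
  have h3 : exp t = exp (t / 2) * exp (t / 2) := by rw [← exp_add]; ring_nf
  simp only [mul_ent, inv_00, inv_01, inv_10, inv_11, aa, mk4_00, mk4_01, mk4_10, mk4_11, h2]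
  refine ⟨by linear_combination m 0 0 * h1, by ring, by rw [h3]; ring,
    by linear_combination m 1 1 * h1⟩

lemma rel_flow (γ g g' : G) (t : ℝ) :
    (γ * g * aa t)⁻¹ * (γ * g' * aa t) = (aa t)⁻¹ * (g⁻¹ * g') * aa t := by group

lemma La.qq_ge (L : La Γ Λ) {h g g' : G} (hh : h ∈ Λ) (hg : g ∈ Λ) (hg' : g' ∈ Λ)
    (h1 : dist (geo h 0) (geo g 0) ≤ 1 / 100) (h2 : dist (geo h 0) (geo g' 0) ≤ 1 / 100)
    (h3 : qq (h⁻¹ * g) < qq (h⁻¹ * g')) : (qq (h⁻¹ * g') - qq (h⁻¹ * g)) / 4 ≤ qq (g⁻¹ * g') := by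
  have N := L.nr hh hg h1 (by norm_num)
  have N' := L.nr hh hg' h2 (by norm_num)
  obtain ⟨e1, -, e3, -⟩ := rel_ent N.a0 N.d0 N'.a0 N'.d0
  have h4 := abs_le.1 (N.pp_le (by norm_num))
  have h5 := abs_le.1 (N'.qq_le (by norm_num))
  have h6 : 0 < 1 - pp (h⁻¹ * g) * qq (h⁻¹ * g') := by nlinarith
  have h7 : 1 - pp (h⁻¹ * g) * qq (h⁻¹ * g') ≤ 2 := by nlinarith
  have h8 : qq (g⁻¹ * g') = (h⁻¹ * g) 0 0 * (h⁻¹ * g) 1 1 * (qq (h⁻¹ * g') - qq (h⁻¹ * g)) /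
      ((h⁻¹ * g) 1 1 ^ 2 * (1 - pp (h⁻¹ * g) * qq (h⁻¹ * g'))) := by
    have := N.d0
    have := N'.a0
    conv_lhs => rw [qq, rel h, e1, e3]
    field_simp
  rw [h8]
  refine div_le_div₀ (mul_nonneg (by linarith [N.ad]) (by linarith))
    (le_mul_of_one_le_left (by linarith) N.ad) (mul_pos (by linarith [N.d1]) h6) ?_
  nlinarith [N.d2, N.d1]

lemma La.back (L : La Γ Λ) {g k g' : G} {γ γ' : Γ} {t : ℝ} (hg : g ∈ Λ) (hk : k ∈ Λ) (hg' : g' ∈ Λ)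
    (ht : 0 ≤ t) (h1 : dist (geo g 0) (geo g' 0) ≤ 1 / 50)
    (h2 : dist (geo (γ * g * aa t) 0) (geo (γ' * k * aa t) 0) ≤ 1 / 50)
    (h3 : 1 / 20 ≤ qq (g⁻¹ * g') * exp t) (h4 : qq (g⁻¹ * g') * exp t ≤ 1)
    (h5 : 0 ≤ pp (((γ : G) * g * aa t)⁻¹ * (γ' * k * aa t))) :
    dist (geo (γ * g) 0) (geo (γ' * k) 0) ≤ 2 := by
  have a1 := L.flow _ (L.mul γ g hg) t
  have a2 := L.flow _ (L.mul γ' k hk) t
  have a3 := L.flow _ (L.mul γ g' hg') t
  have N := L.nr a1 a2 h2 (by norm_num)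
  have N' := L.nr hg hg' h1 (by norm_num)
  obtain ⟨e1, e2, e3, e4⟩ := conj_ent (g⁻¹ * g') t
  rw [← rel_flow γ] at e1 e2 e3 e4
  have h6 : pp (((γ : G) * g * aa t)⁻¹ * (γ * g' * aa t)) = pp (g⁻¹ * g') * exp (-t) := by
    rw [pp, e2, e4, pp]
    ring
  have h7 : qq (((γ : G) * g * aa t)⁻¹ * (γ * g' * aa t)) = qq (g⁻¹ * g') * exp t := by
    rw [qq, e3, e1, qq]
    ring
  have h8 := abs_le.1 (N.pp_le (by norm_num))
  have h9 := abs_le.1 (N.qq_le (by norm_num))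
  have h10 := abs_le.1 (N'.pp_le (by norm_num))
  have h11 : exp (-t) ≤ 1 := exp_le_one_iff.2 (by linarith)
  have h12 := exp_pos (-t)
  have h13 := L.mono a2 a3 N.a0 N.d0 (e1 ▸ N'.a0) (e4 ▸ N'.d0) (by rw [h7]; nlinarith)
    (by
      rw [h6]
      have : |pp (g⁻¹ * g') * exp (-t)| ≤ 1 := abs_le.2 ⟨by nlinarith, by nlinarith⟩
      nlinarith [abs_le.1 this])
    (by rw [h7]; linarith)
  rw [h6] at h13
  obtain ⟨f1, f2, f3, f4⟩ := conj_ent (((γ : G) * g)⁻¹ * (γ' * k)) t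
  have h14 : ((γ : G) * g * aa t)⁻¹ * (γ' * k * aa t) =
      (aa t)⁻¹ * (((γ : G) * g)⁻¹ * (γ' * k)) * aa t := by group
  have h15 := N.sq
  have h16 := N.sq'
  have h17 := N.d2
  have h18 := N.d0
  rw [pp] at h13 h5
  rw [h14] at h13 h5 h15 h16 h17 h18
  rw [f2, f4] at h13 h5
  rw [f2, f3] at h15
  rw [f1, f4] at h16
  rw [f4] at h17 h18
  refine (abs_le_of_sq_le_sq' ((sq_le_cosh _).trans ?_) (by norm_num)).2
  rw [dist_geo_geo, cosh_geo]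
  set M := ((γ : G) * g)⁻¹ * (γ' * k)
  simp only [sub_zero, add_zero, neg_zero, exp_zero, mul_one]
  rw [mul_div_right_comm] at h13 h5
  have h19 : M 0 1 / M 1 1 ≤ pp (g⁻¹ * g') := le_of_mul_le_mul_right h13 h12
  have h20 : 0 ≤ M 0 1 / M 1 1 := nonneg_of_mul_nonneg_left h5 h12
  have h21 : M 0 1 ^ 2 = (M 0 1 / M 1 1) ^ 2 * M 1 1 ^ 2 := by field_simp
  have h22 : (M 0 1 / M 1 1) ^ 2 ≤ 1 / 2 := by nlinarith
  have h23 : M 1 0 ^ 2 ≤ (M 1 0 * exp t) ^ 2 := by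
    rw [mul_pow]
    exact le_mul_of_one_le_right (sq_nonneg _) (one_le_pow₀ (one_le_exp ht))
  nlinarith [sq_nonneg (M 0 1 * exp (-t)), sq_nonneg (M 1 1)]

lemma Fu.net (F : Fu Γ) {r : ℝ} (hr : 0 < r) :
    ∃ T : Finset ℍ, ∀ z : ℍ, ∃ γ : Γ, ∃ w ∈ T, dist ((γ : G) • z) w < r := by
  obtain ⟨R, hR⟩ := F.cpt
  obtain ⟨T, -, h1, h2⟩ := (isCompact_closedBall I R).finite_cover_balls hr
  refine ⟨h1.toFinset, fun z => ?_⟩
  obtain ⟨γ, hγ⟩ := hR z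
  obtain ⟨w, h3, h4⟩ := Set.mem_iUnion₂.1 (h2 hγ)
  exact ⟨γ, w, h1.mem_toFinset.2 h3, h4⟩

open Classical in
lemma Fu.count (F : Fu Γ) : ∃ C : ℕ, ∀ Λ, La Γ Λ → ∀ (n : ℕ), ∀ h ∈ Λ, ∀ S : Finset G,
    (∀ g ∈ S, g ∈ Λ ∧ dist (geo h 0) (geo g 0) ≤ 1 / 100) →
    (∀ g ∈ S, ∀ g' ∈ S, g ≠ g' → exp (-n) ≤ |qq (h⁻¹ * g) - qq (h⁻¹ * g')|) →
    S.card ≤ C * (n + 1) := by
  obtain ⟨T, hT⟩ := F.net (show (0 : ℝ) < 1 / 100 by norm_num)
  obtain ⟨D, hD⟩ := F.card 3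
  refine ⟨D * T.card + 1, fun Λ L n h hh S h1 h2 => ?_⟩
  set S' := S.filter fun g => ∃ g' ∈ S, qq (h⁻¹ * g) < qq (h⁻¹ * g') with hS'
  have hd : ∀ g ∈ S, ∀ g' ∈ S, dist (geo g 0) (geo g' 0) ≤ 1 / 50 := fun g hg g' hg' => by
    linarith [dist_triangle_left (geo g 0) (geo g' 0) (geo h 0), (h1 g hg).2, (h1 g' hg').2]
  have h3 : ∀ g ∈ S', ∃ t : ℕ, t ≤ n ∧
      (∃ g' ∈ S, 1 / 20 ≤ qq (g⁻¹ * g') * exp t ∧ qq (g⁻¹ * g') * exp t ≤ 1) ∧
      ∀ g' ∈ S, qq (h⁻¹ * g) < qq (h⁻¹ * g') → 1 / 20 ≤ qq (g⁻¹ * g') * exp t := by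
    intro g hg
    obtain ⟨hg, g₀, h3, h4⟩ := Finset.mem_filter.1 hg
    obtain ⟨g', h5, h6⟩ := (S.filter fun g' => qq (h⁻¹ * g) < qq (h⁻¹ * g')).exists_min_image
      (fun g' => qq (g⁻¹ * g')) ⟨g₀, Finset.mem_filter.2 ⟨h3, h4⟩⟩
    obtain ⟨h5, h7⟩ := Finset.mem_filter.1 h5
    have h8 := L.qq_ge hh (h1 g hg).1 (h1 g' h5).1 (h1 g hg).2 (h1 g' h5).2 h7
    have h9 := h2 g hg g' h5 (by rintro rfl; exact lt_irrefl _ h7)
    rw [abs_sub_comm, abs_of_pos (by linarith)] at h9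
    have h10 := abs_le.1 ((L.nr (h1 g hg).1 (h1 g' h5).1 (hd g hg g' h5) (by norm_num)).qq_le
      (by norm_num))
    have h11 : 1 / 20 ≤ qq (g⁻¹ * g') * exp (n : ℕ) := by
      have h11 : exp (-n : ℝ) * exp n = 1 := by simp [← exp_add]
      nlinarith [exp_pos (n : ℝ)]
    have h12 : ∃ t : ℕ, 1 / 20 ≤ qq (g⁻¹ * g') * exp t := ⟨n, h11⟩
    refine ⟨Nat.find h12, Nat.find_min' h12 h11, ⟨g', h5, Nat.find_spec h12, ?_⟩,
      fun g'' h13 h14 => (Nat.find_spec h12).trans (mul_le_mul_of_nonneg_right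
        (h6 g'' (Finset.mem_filter.2 ⟨h13, h14⟩)) (exp_pos _).le)⟩
    rcases h13 : Nat.find h12 with _ | t
    · simp only [Nat.cast_zero, exp_zero]
      linarith
    · have h14 := not_le.1 (Nat.find_min h12 (show t < Nat.find h12 by omega))
      push_cast
      rw [exp_add, ← mul_assoc]
      nlinarith [exp_one_lt_three, exp_pos (1 : ℝ)]
  choose! t h4 h5 h6 using h3
  choose γ w h7 h8 using fun g => hT (geo g (t g))
  have hsub : ∀ g ∈ S', g ∈ S := fun g hg => (Finset.mem_filter.1 hg).1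
  have h9 : S'.card ≤ D * (Finset.range (n + 1) ×ˢ T).card := by
    refine Finset.card_le_mul_card_image_of_maps_to (f := fun g => (t g, w g))
      (fun g hg => Finset.mem_product.2 ⟨Finset.mem_range.2 (Nat.lt_succ_of_le (h4 g hg)), h7 g⟩)
      D fun b _ => ?_
    have close : ∀ j ∈ S'.filter (fun g => (t g, w g) = b), ∀ k ∈ S'.filter fun g => (t g, w g) = b,
        t k = t j ∧ dist (geo (γ j * j * aa (t j)) 0) (geo (γ k * k * aa (t j)) 0) ≤ 1 / 50 := by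
      intro j hj k hk
      have e := Prod.mk.inj ((Finset.mem_filter.1 hk).2.trans (Finset.mem_filter.1 hj).2.symm)
      have h9 := h8 k
      rw [e.1, e.2] at h9
      rw [geo_aa, geo_aa, zero_add, geo_mul, geo_mul]
      have h10 := dist_triangle_right ((γ j : G) • geo j (t j)) ((γ k : G) • geo k (t j)) (w j)
      exact ⟨e.1, by linarith [h8 j]⟩
    rcases (S'.filter fun g => (t g, w g) = b).eq_empty_or_nonempty with h9 | ⟨j, hj⟩
    · simp [h9]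
    rw [← Finset.card_image_of_injOn (f := γ)]
    · refine hD (geo h 0) ((γ j : G) • geo h 0) _ fun δ hδ => ?_
      obtain ⟨k, hk, rfl⟩ := Finset.mem_image.1 hδ
      have hj' := (Finset.mem_filter.1 hj).1
      have hk' := (Finset.mem_filter.1 hk).1
      obtain ⟨e, h9⟩ := close j hj k hk
      have h10 : dist (geo (γ j * j) 0) (geo (γ k * k) 0) ≤ 2 := by
        by_cases h10 : 0 ≤ pp (((γ j : G) * j * aa (t j))⁻¹ * (γ k * k * aa (t j)))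
        · obtain ⟨g', h11, h12, h13⟩ := h5 j hj'
          exact L.back (h1 j (hsub j hj')).1 (h1 k (hsub k hk')).1 (h1 g' h11).1 (t j).cast_nonneg
            (hd j (hsub j hj') g' h11) h9 h12 h13 h10
        · obtain ⟨g', h11, h12, h13⟩ := h5 k hk'
          rw [e] at h12 h13
          rw [dist_comm]
          refine L.back (h1 k (hsub k hk')).1 (h1 j (hsub j hj')).1 (h1 g' h11).1 (t j).cast_nonneg
            (hd k (hsub k hk') g' h11) (by rwa [dist_comm]) h12 h13 ?_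
          have N := L.nr (L.flow _ (L.mul (γ j) j (h1 j (hsub j hj')).1) _)
            (L.flow _ (L.mul (γ k) k (h1 k (hsub k hk')).1) _) h9 (by norm_num)
          rw [← inv_inv (_ * _), mul_inv_rev, inv_inv]
          generalize ((γ j : G) * j * aa (t j))⁻¹ * (γ k * k * aa (t j)) = m at N h10 ⊢
          have h14 : pp m⁻¹ = -pp m * (m 0 0 * m 1 1) / m 0 0 ^ 2 := by
            have := N.a0
            have := N.d0
            simp only [pp, inv_01, inv_11]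
            field_simp
          rw [h14]
          exact div_nonneg (mul_nonneg (by linarith) (by linarith [N.ad])) (sq_nonneg _)
      have h11 := dist_triangle4 ((γ k : G) • geo h 0) (geo (γ k * k) 0) (geo (γ j * j) 0)
        ((γ j : G) • geo h 0)
      rw [dist_comm (geo (γ k * k) 0), geo_mul, geo_mul, dist_smul, dist_smul,
        dist_comm (geo j 0)] at h11
      rw [geo_mul, geo_mul] at h10
      linarith [(h1 j (hsub j hj')).2, (h1 k (hsub k hk')).2]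
    · have key : ∀ j ∈ S'.filter (fun g => (t g, w g) = b), ∀ k ∈ S'.filter fun g => (t g, w g) = b,
          γ j = γ k → ¬ qq (h⁻¹ * j) < qq (h⁻¹ * k) := by
        intro j hj k hk e hlt
        have hj' := (Finset.mem_filter.1 hj).1
        have hk' := (Finset.mem_filter.1 hk).1
        have h9 := (close j hj k hk).2
        have h10 := (abs_le.1 ((L.nr (L.flow _ (L.mul (γ j) j (h1 j (hsub j hj')).1) _)
          (L.flow _ (L.mul (γ k) k (h1 k (hsub k hk')).1) _) h9 (by norm_num)).qq_le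
            (by norm_num))).2
        have h11 := h6 j hj' k (hsub k hk') hlt
        obtain ⟨e1, -, e3, -⟩ := conj_ent (j⁻¹ * k) (t j)
        rw [← e, rel_flow, qq, e1, e3, mul_div_right_comm] at h10
        rw [qq] at h11
        linarith
      intro j hj k hk e
      by_contra h9
      have h10 := h2 j (hsub j (Finset.mem_filter.1 hj).1) k (hsub k (Finset.mem_filter.1 hk).1) h9
      rw [le_antisymm (not_lt.1 (key k hk j hj e.symm)) (not_lt.1 (key j hj k hk e)), sub_self,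
        abs_zero] at h10
      exact absurd h10 (not_le.2 (exp_pos _))
  have h10 : (S \ S').card ≤ 1 := Finset.card_le_one.2 fun a ha b hb => by
    obtain ⟨h10, h11⟩ := Finset.mem_sdiff.1 ha
    obtain ⟨h12, h13⟩ := Finset.mem_sdiff.1 hb
    by_contra h14
    have h15 := h2 a h10 b h12 h14
    rw [le_antisymm (not_lt.1 fun h => h13 (Finset.mem_filter.2 ⟨h12, a, h10, h⟩))
      (not_lt.1 fun h => h11 (Finset.mem_filter.2 ⟨h10, b, h12, h⟩)), sub_self, abs_zero] at h15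
    exact absurd h15 (not_le.2 (exp_pos _))
  have h11 := Finset.card_sdiff_add_card_eq_card (show S' ⊆ S from hsub)
  rw [Finset.card_product, Finset.card_range] at h9
  nlinarith

lemma exists_grid {α : Type} (A : Set α) (f : α → ℝ) (hf : ∀ a ∈ A, |f a| ≤ 1) {δ : ℝ} (hδ : 0 < δ)
    {N : ℕ} (h : ∀ S : Finset α, (∀ a ∈ S, a ∈ A) →
      (∀ a ∈ S, ∀ b ∈ S, a ≠ b → δ ≤ |f a - f b|) → S.card ≤ N) :
    ∃ B : Finset ℤ, B.card ≤ 2 * N ∧ ∀ a ∈ A, ⌊f a / δ⌋ ∈ B := by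
  classical
  set B := (Finset.Icc ⌊-1 / δ⌋ ⌊1 / δ⌋).filter fun z => ∃ a ∈ A, ⌊f a / δ⌋ = z with hB
  refine ⟨B, ?_, fun a ha => Finset.mem_filter.2 ⟨Finset.mem_Icc.2
    ⟨Int.floor_mono (by gcongr; exact (abs_le.1 (hf a ha)).1),
      Int.floor_mono (by gcongr; exact (abs_le.1 (hf a ha)).2)⟩, a, ha, rfl⟩⟩
  have key : ∀ r : ℤ, (B.filter fun z => z % 2 = r).card ≤ N := by
    intro r
    choose a h1 h2 using fun z : B.filter fun z => z % 2 = r =>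
      (Finset.mem_filter.1 (Finset.mem_filter.1 z.2).1).2
    have h3 : Function.Injective a := fun z z' e => Subtype.ext (by rw [← h2 z, ← h2 z', e])
    rw [← Finset.card_attach, ← Finset.card_image_of_injective _ h3]
    refine h _ (fun x hx => ?_) fun x hx y hy hxy => ?_
    · obtain ⟨z, -, rfl⟩ := Finset.mem_image.1 hx
      exact h1 z
    · obtain ⟨z, -, rfl⟩ := Finset.mem_image.1 hx
      obtain ⟨z', -, rfl⟩ := Finset.mem_image.1 hy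
      have h4 : z.1 ≠ z'.1 := fun e => hxy (congrArg a (Subtype.ext e))
      have h5 := (Finset.mem_filter.1 z.2).2
      have h6 := (Finset.mem_filter.1 z'.2).2
      have h7 := Int.floor_le (f (a z) / δ)
      have h8 := Int.lt_floor_add_one (f (a z) / δ)
      have h9 := Int.floor_le (f (a z') / δ)
      have h10 := Int.lt_floor_add_one (f (a z') / δ)
      rw [h2] at h7 h8 h9 h10
      rw [← one_le_div hδ, ← abs_of_pos hδ, ← abs_div, sub_div, le_abs]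
      rcases (by omega : z.1 + 2 ≤ z'.1 ∨ z'.1 + 2 ≤ z.1) with h11 | h11
      · have : (z.1 : ℝ) + 2 ≤ z'.1 := by exact_mod_cast h11
        right
        linarith
      · have : (z'.1 : ℝ) + 2 ≤ z.1 := by exact_mod_cast h11
        left
        linarith
  have h1 := Finset.card_filter_add_card_filter_not (s := B) fun z => z % 2 = 0
  rw [Finset.filter_congr (p := fun z => ¬ z % 2 = 0) (q := fun z => z % 2 = 1)
    fun z _ => by omega] at h1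
  linarith [key 0, key 1]

/-- The rotation by a half turn about `i`. -/
def wv : G := mk4 0 (-1) 1 0 (by norm_num)

lemma wv_ent (m : G) : (wv⁻¹ * m * wv) 0 0 = m 1 1 ∧ (wv⁻¹ * m * wv) 1 0 = -m 0 1 ∧
    (wv⁻¹ * m * wv) 1 1 = m 0 0 := by
  simp [mul_ent, wv]

lemma geo_wv (g : G) : geo (g * wv) 0 = geo g 0 := by
  rw [geo_mul, geo_def g]
  congr 1
  refine ext_re_im ?_ ?_ <;> simp [geo_def, smul_re, smul_im, wv]

lemma La.rev (L : La Γ Λ) : La Γ {g | g * wv⁻¹ ∈ Λ} where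
  mul γ g hg := by
    rw [Set.mem_ofPred_eq, mul_assoc]
    exact L.mul γ _ hg
  flow g hg t := by
    have : aa t * wv⁻¹ = wv⁻¹ * aa (-t) := by
      refine ext4 ?_ ?_ ?_ ?_ <;> simp [mul_ent, wv, aa, neg_div]
    rw [Set.mem_ofPred_eq, mul_assoc, this, ← mul_assoc]
    exact L.flow _ hg _
  closed := L.closed.preimage (continuous_mul_const _)
  key g hg g' hg' := by
    have h1 := L.key _ hg _ hg'
    obtain ⟨e1, -, e2⟩ := wv_ent ((g * wv⁻¹)⁻¹ * (g' * wv⁻¹))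
    rw [← e1, ← e2, mul_comm] at h1
    rwa [show wv⁻¹ * ((g * wv⁻¹)⁻¹ * (g' * wv⁻¹)) * wv = g⁻¹ * g' by group] at h1

lemma La.same_box (L : La Γ Λ) {h v g : G} (hh : h ∈ Λ) (hv : v ∈ Λ) (hg : g ∈ Λ) {δ : ℝ}
    (h1 : dist (geo h 0) (geo v 0) ≤ 1 / 100) (h2 : dist (geo h 0) (geo g 0) ≤ 1 / 100)
    (h3 : |pp (h⁻¹ * g) - pp (h⁻¹ * v)| ≤ δ) (h4 : |qq (h⁻¹ * g) - qq (h⁻¹ * v)| ≤ δ) :
    ∃ s, dist (geo v s) (geo g 0) ≤ 5 * δ := by
  have N₁ := L.nr hh hv h1 (by norm_num)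
  have N₂ := L.nr hh hg h2 (by norm_num)
  have N := L.nr hv hg (δ := 1 / 50)
    (by linarith [dist_triangle_left (geo v 0) (geo g 0) (geo h 0)]) (by norm_num)
  obtain ⟨-, e2, e3, -⟩ := rel_ent N₁.a0 N₁.d0 N₂.a0 N₂.d0
  rw [← rel] at e2 e3
  have h0 : 0 ≤ δ := (abs_nonneg _).trans h3
  have h5 : (v⁻¹ * g) 0 1 ^ 2 ≤ 4 * δ ^ 2 := by
    rw [e2, mul_pow, mul_pow]
    refine mul_le_mul (by nlinarith [N₁.d2, N₂.d2, N₁.d1, N₂.d1]) (sq_le_sq' ?_ ?_) (sq_nonneg _)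
      (by norm_num) <;> linarith [abs_le.1 h3]
  have h6 : (v⁻¹ * g) 1 0 ^ 2 ≤ 4 * δ ^ 2 := by
    rw [e3, mul_pow, mul_pow]
    refine mul_le_mul (by nlinarith [N₁.a2, N₂.a2, N₁.a1, N₂.a1]) (sq_le_sq' ?_ ?_) (sq_nonneg _)
      (by norm_num) <;> linarith [abs_le.1 h4]
  set m := v⁻¹ * g with hm
  have h7 := N.a0
  have h8 := N.d0
  have h9 : 0 < m 0 0 / m 1 1 := div_pos_iff.2 (mul_pos_iff.1 (by linarith [N.ad]))
  refine ⟨log (m 0 0 / m 1 1), (abs_le_of_sq_le_sq' ((sq_le_cosh _).trans ?_) (by positivity)).2⟩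
  rw [dist_geo_geo, cosh_geo, ← hm]
  simp only [zero_sub, neg_zero, zero_add, sub_zero, exp_neg, exp_log h9]
  have h10 : m 0 0 / m 1 1 ≤ 2 := by
    refine (abs_le_of_sq_le_sq' ?_ (by norm_num)).2
    rw [div_pow, div_le_iff₀ (by linarith [N.d1])]
    linarith [N.a2, N.d1]
  have h11 : (m 0 0 / m 1 1)⁻¹ ≤ 2 := by
    refine (abs_le_of_sq_le_sq' ?_ (by norm_num)).2
    rw [inv_div, div_pow, div_le_iff₀ (by linarith [N.a1])]
    linarith [N.d2, N.a1]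
  have h12 : m 0 0 ^ 2 * (m 0 0 / m 1 1)⁻¹ = m 0 0 * m 1 1 := by field_simp
  have h13 : m 1 1 ^ 2 * (m 0 0 / m 1 1) = m 0 0 * m 1 1 := by field_simp
  rw [h12, h13]
  nlinarith [det_eq m, sq_nonneg (m 0 1 - m 1 0), mul_le_mul_of_nonneg_left h10 (sq_nonneg (m 1 0)),
    mul_le_mul_of_nonneg_left h11 (sq_nonneg (m 0 1)), sq_nonneg δ]

open Classical in
/-- Polynomially many orbit segments approximate a lamination exponentially well. -/
lemma Fu.cover (F : Fu Γ) : ∃ C : ℕ, ∀ Λ, La Γ Λ → ∀ n : ℕ, 4 ≤ n → ∃ V : Finset G,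
    (∀ v ∈ V, v ∈ Λ) ∧ V.card ≤ C * (n + 1) ^ 2 ∧ ∀ g ∈ Λ, ∃ γ : Γ, ∃ v ∈ V, ∃ s, |s| ≤ 1 / 4 ∧
      dist (geo g 0) (geo (γ * v) s) ≤ 5 * exp (-n) := by
  obtain ⟨C, hC⟩ := F.count
  obtain ⟨T, hT⟩ := F.net (show (0 : ℝ) < 1 / 200 by norm_num)
  refine ⟨T.card * (2 * C) ^ 2, fun Λ L n hn => ?_⟩
  have key : ∀ z : ℍ, ∃ V : Finset G, (∀ v ∈ V, v ∈ Λ) ∧ V.card ≤ (2 * C) ^ 2 * (n + 1) ^ 2 ∧
      ∀ g ∈ Λ, dist (geo g 0) z < 1 / 200 → ∃ v ∈ V, ∃ s, |s| ≤ 1 / 4 ∧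
        dist (geo v s) (geo g 0) ≤ 5 * exp (-n) := by
    intro z
    set A := {g | g ∈ Λ ∧ dist (geo g 0) z < 1 / 200} with hA
    rcases A.eq_empty_or_nonempty with h0 | ⟨h, hh, hz⟩
    · exact ⟨∅, by simp, by simp, fun g h1 h2 => absurd (show g ∈ A from ⟨h1, h2⟩) (by simp [h0])⟩
    have hd : ∀ g ∈ A, dist (geo h 0) (geo g 0) ≤ 1 / 100 := fun g hg => by
      linarith [dist_triangle_right (geo h 0) (geo g 0) z, hg.2]
    have hN := fun g (hg : g ∈ A) => L.nr hh hg.1 (hd g hg) (by norm_num)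
    obtain ⟨Bq, q1, q2⟩ := exists_grid A (fun g => qq (h⁻¹ * g))
      (fun g hg => ((hN g hg).qq_le (by norm_num)).trans (by norm_num)) (exp_pos (-n))
      fun S h1 h2 => hC Λ L n h hh S (fun g hg => ⟨(h1 g hg).1, hd g (h1 g hg)⟩) h2
    obtain ⟨Bp, p1, p2⟩ := exists_grid A (fun g => pp (h⁻¹ * g))
      (fun g hg => ((hN g hg).pp_le (by norm_num)).trans (by norm_num)) (exp_pos (-n))
      (N := C * (n + 1)) fun S h1 h2 => by
        rw [← Finset.card_image_of_injective S (mul_left_injective wv)]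
        refine hC _ L.rev n (h * wv) (by simpa using hh) _ (fun g hg => ?_) fun g hg g' hg' e => ?_
        · obtain ⟨g, hg1, rfl⟩ := Finset.mem_image.1 hg
          exact ⟨by simpa using (h1 g hg1).1, by rw [geo_wv, geo_wv]; exact hd g (h1 g hg1)⟩
        · obtain ⟨g, hg1, rfl⟩ := Finset.mem_image.1 hg
          obtain ⟨g', hg2, rfl⟩ := Finset.mem_image.1 hg'
          have h3 : ∀ g, qq ((h * wv)⁻¹ * (g * wv)) = -pp (h⁻¹ * g) := fun g => by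
            obtain ⟨e1, e2, -⟩ := wv_ent (h⁻¹ * g)
            rw [show (h * wv)⁻¹ * (g * wv) = wv⁻¹ * (h⁻¹ * g) * wv by group, qq, e1, e2, pp, neg_div]
          rw [h3, h3, neg_sub_neg, abs_sub_comm]
          exact h2 g hg1 g' hg2 fun e' => e (by rw [e'])
    set κ : G → ℤ × ℤ := fun g => (⌊pp (h⁻¹ * g) / exp (-n)⌋, ⌊qq (h⁻¹ * g) / exp (-n)⌋) with hκ
    choose! r r1 r2 using fun (y : ℤ × ℤ) (hy : ∃ g ∈ A, κ g = y) => hy
    refine ⟨((Bp ×ˢ Bq).filter fun y => ∃ g ∈ A, κ g = y).image r, fun v hv => ?_, ?_,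
      fun g h1 h2 => ?_⟩
    · obtain ⟨y, hy, rfl⟩ := Finset.mem_image.1 hv
      exact (r1 y (Finset.mem_filter.1 hy).2).1
    · refine Finset.card_image_le.trans ((Finset.card_filter_le _ _).trans ?_)
      rw [Finset.card_product]
      exact (Nat.mul_le_mul p1 q1).trans (le_of_eq (by ring))
    · have hg : g ∈ A := ⟨h1, h2⟩
      have h3 := r1 (κ g) ⟨g, hg, rfl⟩
      have h4 := Prod.mk.inj (r2 (κ g) ⟨g, hg, rfl⟩)
      have h5 : ∀ x y : ℝ, ⌊y / exp (-n)⌋ = ⌊x / exp (-n)⌋ → |x - y| ≤ exp (-n) := fun x y e => by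
        have := Int.abs_sub_lt_one_of_floor_eq_floor e.symm
        rw [← sub_div, abs_div, abs_of_pos (exp_pos _), div_lt_one (exp_pos _)] at this
        exact this.le
      obtain ⟨s, hs⟩ := L.same_box hh h3.1 h1 (hd _ h3) (hd g hg) (h5 _ _ h4.1) (h5 _ _ h4.2)
      refine ⟨r (κ g), Finset.mem_image.2 ⟨κ g, Finset.mem_filter.2
        ⟨Finset.mem_product.2 ⟨p2 g hg, q2 g hg⟩, g, hg, rfl⟩, rfl⟩, s, ?_, hs⟩
      have h6 := dist_triangle4 (geo (r (κ g)) s) (geo g 0) z (geo (r (κ g)) 0)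
      rw [dist_geo, sub_zero, dist_comm z] at h6
      have h7 : exp (-n : ℝ) ≤ 1 / 25 := by
        have h7 : exp (-n : ℝ) ≤ exp (-(2 + 2)) := exp_le_exp.2 (by
          have : (4 : ℝ) ≤ n := by exact_mod_cast hn
          linarith)
        have h8 := quadratic_le_exp_of_nonneg (show (0 : ℝ) ≤ 2 by norm_num)
        rw [exp_neg (2 + 2), exp_add] at h7
        refine h7.trans ?_
        rw [one_div]
        exact inv_anti₀ (by norm_num) (by nlinarith)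
      linarith [h3.2]
  choose V h1 h2 h3 using key
  refine ⟨T.biUnion V, fun v hv => ?_, ?_, fun g hg => ?_⟩
  · obtain ⟨z, -, hz⟩ := Finset.mem_biUnion.1 hv
    exact h1 z v hz
  · refine Finset.card_biUnion_le.trans ((Finset.sum_le_card_nsmul _ _ _ fun z _ => h2 z).trans ?_)
    rw [smul_eq_mul, mul_assoc]
  · obtain ⟨γ, z, h4, h5⟩ := hT (geo g 0)
    obtain ⟨v, h6, s, h7, h8⟩ := h3 z _ (L.mul γ g hg) (by rwa [geo_mul])
    refine ⟨γ⁻¹, v, Finset.mem_biUnion.2 ⟨z, h4, h6⟩, s, h7, ?_⟩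
    rwa [geo_mul, ← dist_smul (γ : G), Subgroup.coe_inv, smul_inv_smul, dist_comm, ← geo_mul]

end Pool.Agent.Lib.MP_5bb885_an
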