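import Pool.Agent.Lib.MP_5bb885_an.H9Top

/-!
Short cycles, and chain recurrence of static geodesics.
-/

namespace Pool.Agent.Lib.MP_5bb885_an

open UpperHalfPlane Real Filter Topology

variable {Γ : Subgroup G} {c : Γ → ℝ} {u : ℍ → ℝ} {g g' : G} {ε : ℝ}

/-- Edges between points. -/
def Ed (u : ℍ → ℝ) (ρ : ℝ) (z w : ℍ) : Prop :=
  dist z w ≤ u w - u z + ρ ∧ dist z w ≤ 3 ∧ 1 / 4 ≤ u w - u z

/-- Short cycles. -/
def Sh (c : Γ → ℝ) (L ρ : ℝ) (η : Γ) : Prop :=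
  ∃ z : ℍ, dist z ((η : G) • z) ≤ c η + ρ ∧ dist z ((η : G) • z) ≤ L ∧ 1 / 4 ≤ c η

lemma Ed.smul (P : Pot Γ c u) {ρ : ℝ} {z w : ℍ} (h : Ed u ρ z w) (γ : Γ) :
    Ed u ρ ((γ : G) • z) ((γ : G) • w) := by
  simpa only [Ed, dist_smul, P.eqv, add_sub_add_right_eq_sub] using h

lemma walk_le {ρ : ℝ} {w : ℕ → ℍ} {k : ℕ} (h : ∀ i < k, Ed u ρ (w i) (w (i + 1))) :
    dist (w 0) (w k) ≤ u (w k) - u (w 0) + k * ρ ∧ dist (w 0) (w k) ≤ 3 * k ∧
      k / 4 ≤ u (w k) - u (w 0) := by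
  induction k with
  | zero => simp
  | succ k ih =>
    obtain ⟨h1, h2, h3⟩ := ih fun i hi => h i (by omega)
    obtain ⟨h4, h5, h6⟩ := h k (by omega)
    have := dist_triangle (w 0) (w k) (w (k + 1))
    push_cast
    refine ⟨?_, ?_, ?_⟩ <;> linarith

/-- Removal of cycles. -/
lemma walk_kill (P : Pot Γ c u) {ρ : ℝ} (hρ : 0 ≤ ρ) (V : Finset ℍ) {φ : Γ → ℝ} (hφ : φ ∈ Coh Γ)
    (H : ∀ η, Sh c (3 * V.card) (V.card * ρ) η → φ η = 0) (k : ℕ) : ∀ (w : ℕ → ℍ) (ν : Γ), 0 < k →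
      (∀ i, ∃ γ : Γ, ∃ v ∈ V, w i = (γ : G) • v) → (∀ i < k, Ed u ρ (w i) (w (i + 1))) →
      w k = (ν : G) • w 0 → φ ν = 0 := by
  induction k using Nat.strong_induction_on with
  | _ k ih =>
  intro w ν h0 h1 h2 h3
  rcases le_or_gt k V.card with h4 | h4
  · obtain ⟨h5, h6, h7⟩ := walk_le h2
    rw [h3] at h5 h6 h7
    rw [P.eqv] at h5 h7
    have h8 : (k : ℝ) ≤ V.card := by exact_mod_cast h4
    have h9 : (1 : ℝ) ≤ k := by exact_mod_cast h0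
    exact H ν ⟨w 0, by linarith [mul_le_mul_of_nonneg_right h8 hρ], by linarith, by linarith⟩
  choose γ v h5 h6 using h1
  obtain ⟨i, j, h7, h8, h9⟩ : ∃ i j, i < j ∧ j ≤ V.card ∧ v i = v j := by
    obtain ⟨i, hi, j, hj, h7, h8⟩ := Finset.exists_ne_map_eq_of_card_lt_of_maps_to
      (s := Finset.range (V.card + 1)) (t := V) (by simp) (f := v) fun i _ => h5 i
    rw [Finset.mem_range] at hi hj
    rcases h7.lt_or_gt with h | h
    · exact ⟨i, j, h, by omega, h8⟩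
    · exact ⟨j, i, h, by omega, h8.symm⟩
  obtain ⟨d, rfl⟩ := Nat.exists_eq_add_of_lt h7
  set η := γ (i + d + 1) * (γ i)⁻¹ with hη
  have h10 : w (i + d + 1) = (η : G) • w i := by
    rw [h6, h6 i, h9, hη]
    simp [mul_smul]
  have h11 := ih (d + 1) (by omega) (fun m => w (i + m)) η (by omega) (fun m => ⟨_, _, h5 _, h6 _⟩)
    (fun m hm => h2 (i + m) (by omega)) h10
  set w' : ℕ → ℍ := fun m => if m ≤ i then w m else ((η⁻¹ : Γ) : G) • w (m + (d + 1)) with hw'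
  have h12 : ∀ m, i ≤ m → w' m = ((η⁻¹ : Γ) : G) • w (m + (d + 1)) := fun m hm => by
    rcases hm.eq_or_lt with rfl | hm
    · simp only [hw', le_refl, if_true, ← add_assoc, h10, Subgroup.coe_inv, inv_smul_smul]
    · simp only [hw', hm.not_ge, if_false]
  have h13 := ih (k - (d + 1)) (by omega) w' (η⁻¹ * ν) (by omega) (fun m => by
      simp only [hw']
      split_ifs
      · exact ⟨_, _, h5 _, h6 _⟩
      · exact ⟨η⁻¹ * γ _, _, h5 _, by rw [h6, Subgroup.coe_mul, mul_smul]⟩)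
    (fun m hm => by
      rcases lt_or_ge m i with h | h
      · simpa only [hw', if_pos h.le, if_pos (Nat.succ_le_of_lt h)] using h2 m (by omega)
      · rw [h12 m h, h12 (m + 1) (by omega), add_right_comm m 1]
        exact (h2 _ (by omega)).smul P _)
    (by
      rw [h12 _ (by omega), Nat.sub_add_cancel (by omega), h3, Subgroup.coe_mul, mul_smul]
      simp only [hw', zero_le, if_true])
  rw [hφ, coh_inv hφ, h11] at h13
  simpa using h13

lemma exists_walk {α : Type} {r : α → α → Prop} {p : α → Prop} {a b : α} (ha : p a)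
    (h : Relation.TransGen (fun x y => r x y ∧ p y) a b) :
    ∃ k, 0 < k ∧ ∃ w : ℕ → α, w 0 = a ∧ w k = b ∧ (∀ i, p (w i)) ∧ ∀ i < k, r (w i) (w (i + 1)) := by
  induction h with
  | @single b h =>
    refine ⟨1, one_pos, fun i => if i = 0 then a else b, rfl, rfl, fun i => ?_, fun i hi => ?_⟩
    · dsimp only
      split_ifs
      exacts [ha, h.2]
    · obtain rfl : i = 0 := by omega
      exact h.1
  | @tail b b' _ h ih =>
    obtain ⟨k, h0, w, h1, h2, h3, h4⟩ := ih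
    refine ⟨k + 1, by omega, fun i => if i ≤ k then w i else b', by simpa, by simp, fun i => ?_,
      fun i hi => ?_⟩
    · dsimp only
      split_ifs
      exacts [h3 i, h.2]
    · rcases (Nat.le_of_lt_succ hi).eq_or_lt with rfl | hi
      · simpa [h2] using h.1
      · simpa only [if_pos hi.le, if_pos (Nat.succ_le_of_lt hi)] using h4 i hi

lemma exp_three : exp 3 ≤ 27 := by
  have h := exp_one_lt_three.le
  rw [show (3 : ℝ) = 1 + 1 + 1 by norm_num, exp_add, exp_add]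
  nlinarith [exp_pos 1]

lemma Pot.edge (P : Pot Γ c u) (hε : ε ≤ 1 / 2400) (h : St (Lam u) ε g g') {w w' : G} {s s' : ℝ}
    (hw : w ∈ Lam u) (hw' : w' ∈ Lam u) (hs : |s| ≤ 1 / 4) (hs' : |s'| ≤ 1 / 4)
    (h1 : dist (geo g 0) (geo w s) ≤ 5 * ε) (h2 : dist (geo g' 0) (geo w' s') ≤ 5 * ε) :
    Ed u (1200 * ε) (geo w 0) (geo w' 0) := by
  obtain ⟨hg, -, τ, h3, h4, h5⟩ := h
  have L := P.la
  have h0 : 0 ≤ ε := dist_nonneg.trans h5
  obtain ⟨h6, h7⟩ := abs_le.1 hs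
  obtain ⟨h8, h9⟩ := abs_le.1 hs'
  have h10 := L.flow_close hg (L.flow w hw s) (δ := 5 * ε) (by rwa [geo_aa0]) (by linarith) (τ - s')
  have h11 := L.flow_close (L.flow g hg τ) (L.flow w' hw' s') (δ := 6 * ε) (by
    rw [geo_aa0, geo_aa0]
    linarith [dist_triangle (geo g τ) (geo g' 0) (geo w' s')]) (by linarith) (-s')
  rw [geo_aa] at h10
  rw [geo_aa, geo_aa, neg_add_cancel, neg_add_eq_sub] at h11
  have h12 : exp |τ - s'| ≤ 27 := (exp_le_exp.2 (abs_le.2 ⟨by linarith, by linarith⟩)).trans exp_three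
  have h13 : exp |-s'| ≤ 27 := (exp_le_exp.2 (abs_le.2 ⟨by linarith, by linarith⟩)).trans exp_three
  have h14 : dist (geo w (τ - s' + s)) (geo w' 0) ≤ 600 * ε := by
    nlinarith [dist_triangle_left (geo w (τ - s' + s)) (geo w' 0) (geo g (τ - s')),
      mul_le_mul_of_nonneg_right h12 h0, mul_le_mul_of_nonneg_right h13 h0]
  have h15 := dist_triangle (geo w 0) (geo w (τ - s' + s)) (geo w' 0)
  rw [dist_geo, zero_sub, abs_neg, abs_of_nonneg (by linarith)] at h15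
  have h16 := hw 0 (τ - s' + s)
  have h17 := P.lip (geo w (τ - s' + s)) (geo w' 0)
  refine ⟨?_, ?_, ?_⟩ <;> linarith

theorem Fu.cyc (F : Fu Γ) : ∃ C : ℕ, ∀ c ∈ Coh Γ, ∀ u, Pot Γ c u → ∀ n : ℕ, 4 ≤ n →
    exp (-n) ≤ 1 / 2400 → ¬Rat Γ (Lam u) (exp (-n)) → ∃ η η' : Γ,
      Sh c (3 * (C * (n + 1) ^ 2)) (C * (n + 1) ^ 2 * (1200 * exp (-n))) η ∧
      Sh c (3 * (C * (n + 1) ^ 2)) (C * (n + 1) ^ 2 * (1200 * exp (-n))) η' ∧
      ∃ φ ∈ Coh Γ, φ η = 0 ∧ φ η' ≠ 0 := by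
  classical
  obtain ⟨C, hC⟩ := F.cover
  refine ⟨C, fun c hc u P n h1 h2 h3 => ?_⟩
  have L := P.la
  obtain ⟨V, h4, h5, h6⟩ := hC _ L n h1
  set V₀ := V.image fun v => geo v 0 with hV
  have h7 : (V₀.card : ℝ) ≤ C * (n + 1) ^ 2 := by exact_mod_cast Finset.card_image_le.trans h5
  have h8 : 0 ≤ 1200 * exp (-n : ℝ) := by positivity
  have h9 : ∀ g g', Ch (Lam u) (exp (-n)) g g' → ∀ (γ γ' : Γ) (v v' : G) (s s' : ℝ), v ∈ V →
      v' ∈ V → |s| ≤ 1 / 4 → |s'| ≤ 1 / 4 → dist (geo g 0) (geo (γ * v) s) ≤ 5 * exp (-n) →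
      dist (geo g' 0) (geo (γ' * v') s') ≤ 5 * exp (-n) →
      Relation.TransGen (fun z w => Ed u (1200 * exp (-n)) z w ∧ ∃ γ : Γ, ∃ v ∈ V₀, w = (γ : G) • v)
        (geo (γ * v) 0) (geo (γ' * v') 0) := by
    intro g g' h γ γ' v v' s s' k1 k2 k3 k4 k5 k6
    induction h generalizing γ' v' s' with
    | single h =>
      exact .single ⟨P.edge h2 h (L.mul γ v (h4 v k1)) (L.mul γ' v' (h4 v' k2)) k3 k4 k5 k6,
        γ', _, Finset.mem_image_of_mem _ k2, geo_mul _ _ _⟩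
    | tail _ h ih =>
      obtain ⟨γ₁, v₁, k7, s₁, k8, k9⟩ := h6 _ h.1
      exact .tail (ih γ₁ v₁ s₁ k7 k8 k9)
        ⟨P.edge h2 h (L.mul γ₁ v₁ (h4 v₁ k7)) (L.mul γ' v' (h4 v' k2)) k8 k4 k9 k6,
          γ', _, Finset.mem_image_of_mem _ k2, geo_mul _ _ _⟩
  have h10 : ∀ (g : G) (ν : Γ), Ch (Lam u) (exp (-n)) g (ν * g) → c ν ≠ 0 ∧ ∀ φ ∈ Coh Γ,
      (∀ η, Sh c (3 * (C * (n + 1) ^ 2)) (C * (n + 1) ^ 2 * (1200 * exp (-n))) η → φ η = 0) →
        φ ν = 0 := by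
    intro g ν h
    obtain ⟨_, k0, -⟩ := Relation.TransGen.head'_iff.1 h
    obtain ⟨γ, v, k1, s, k2, k3⟩ := h6 g k0.1
    obtain ⟨k, k4, w, k5, k6, k7, k8⟩ := exists_walk
      ⟨γ, _, Finset.mem_image_of_mem _ k1, geo_mul _ _ _⟩
      (h9 g _ h γ (ν * γ) v v s s k1 k1 k2 k2 k3 (by
        rwa [Subgroup.coe_mul, mul_assoc, geo_mul, geo_mul (ν : G), dist_smul]))
    rw [Subgroup.coe_mul, mul_assoc, geo_mul, ← k5] at k6
    refine ⟨fun k9 => ?_, fun φ hφ H => walk_kill P h8 V₀ hφ (fun η ⟨z, a1, a2, a3⟩ => H η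
      ⟨z, by linarith [mul_le_mul_of_nonneg_right h7 h8], by linarith, a3⟩) k w ν k4 k7 k8 k6⟩
    have := (walk_le k8).2.2
    rw [k6, P.eqv, k9] at this
    have : (0 : ℝ) < k := by exact_mod_cast k4
    linarith
  by_contra H
  refine h3 fun g g' ν ν' k1 k2 φ hφ k3 => (h10 g' ν' k2).2 φ hφ fun η k4 => ?_
  have k5 : c η ≠ 0 := by
    obtain ⟨_, -, -, k5⟩ := k4
    linarith
  have k6 := (Coh Γ).sub_mem hφ ((Coh Γ).smul_mem (φ η / c η) hc)
  have k7 := (h10 g ν k1).2 _ k6 fun η' k7 => by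
    by_contra k8
    exact H ⟨η, η', k4, k7, _, k6, by simp [k5], k8⟩
  simpa [k3, k5, (h10 g ν k1).1] using k7

lemma glue {ξ ξ' : ℝ → ℍ} (h : ∀ a b, dist (ξ a) (ξ b) ≤ |a - b|)
    (h' : ∀ a b, dist (ξ' a) (ξ' b) ≤ |a - b|) {x : ℝ} (hx : ξ x = ξ' x) (a b : ℝ) :
    dist (if a ≤ x then ξ a else ξ' a) (if b ≤ x then ξ b else ξ' b) ≤ |a - b| := by
  have key : ∀ a b, a ≤ x → x < b → dist (ξ a) (ξ' b) ≤ |a - b| := fun a b h1 h2 => by
    have h3 := dist_triangle (ξ a) (ξ x) (ξ' b)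
    have h4 := h a x
    have h5 := h' x b
    rw [← hx] at h5
    rw [abs_of_nonpos (by linarith)] at h4 h5 ⊢
    linarith
  split_ifs with h1 h2 h2
  · exact h a b
  · exact key a b h1 (not_le.1 h2)
  · rw [dist_comm, abs_sub_comm]
    exact key b a h2 (not_le.1 h1)
  · exact h' a b

/-- Calibrated geodesics with almost calibrated returns. -/
def MS (Γ : Subgroup G) (u : ℍ → ℝ) (g : G) : Prop :=
  g ∈ Lam u ∧ ∀ s t, s < t → ∀ θ, 0 < θ → ∃ γ : Γ,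
    dist (geo g t) ((γ : G) • geo g s) ≤ u ((γ : G) • geo g s) - u (geo g t) + θ

theorem MS.cr (P : Pot Γ c u) (F : Fu Γ) (h : MS Γ u g) : CR Γ (Lam u) g := by
  intro ε hε s t hst
  have L := P.la
  obtain ⟨hg, h⟩ := h
  set ε' := min (1 / 4) (ε / 110) with hε'
  have e1 : ε' ≤ 1 / 4 := min_le_left _ _
  have e2 : ε' ≤ ε / 110 := min_le_right _ _
  have e3 : 0 < ε' := by positivity
  obtain ⟨n, hn⟩ := P.shadow F e3
  obtain ⟨γ, h1⟩ := h (s - 2) t (by linarith) (1 / (n + 1)) (by positivity)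
  obtain ⟨k, h2, h3⟩ := exists_frame (geo g t) ((γ : G) • geo g (s - 2))
  set D := dist (geo g t) ((γ : G) • geo g (s - 2)) with hD
  have h0 : 0 ≤ D := dist_nonneg
  set ξ : ℝ → ℍ := fun x => if x ≤ D then (if x ≤ 0 then geo (g * aa t) x else geo k x)
    else geo (γ * g * aa (s - 2 - D)) x with hξ
  have h4 : ∀ x, x ≤ 0 → ξ x = geo (g * aa t) x := fun x hx => by
    simp only [hξ, if_pos hx, if_pos (hx.trans h0)]
  have h5' : (if D ≤ 0 then geo (g * aa t) D else geo k D) = geo (γ * g * aa (s - 2 - D)) D := by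
    rw [geo_aa _ (s - 2 - D), add_sub_cancel, geo_mul (γ : G), ← h3]
    split_ifs with h5
    · rw [le_antisymm h5 h0, geo_aa0, h2]
    · rfl
  have h5 : ∀ x, D ≤ x → ξ x = geo (γ * g * aa (s - 2 - D)) x := fun x hx => by
    rcases hx.eq_or_lt with rfl | hx
    · simp only [hξ, le_refl, if_true, h5']
    · simp only [hξ, if_neg hx.not_ge]
  have h6 : ∀ a b, dist (ξ a) (ξ b) ≤ |a - b| :=
    glue (glue (fun a b => (dist_geo _ a b).le) (fun a b => (dist_geo _ a b).le)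
      (by rw [geo_aa0, h2])) (fun a b => (dist_geo _ a b).le) h5'
  have h7 : ∀ a b, b - a - 1 / (n + 1 : ℝ) ≤ u (ξ b) - u (ξ a) := fun a b => by
    have k1 := (P.lip _ _).trans (h6 (max b D) b)
    have k2 := (P.lip _ _).trans (h6 a (min a 0))
    rw [abs_of_nonneg (sub_nonneg.2 (le_max_left _ _)), h5 _ (le_max_right _ _)] at k1
    rw [abs_of_nonneg (sub_nonneg.2 (min_le_left _ _)), h4 _ (min_le_right _ _)] at k2
    have k3 := L.flow _ (L.mul γ g hg) (s - 2 - D) D (max b D)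
    have k4 := L.flow g hg t (min a 0) 0
    rw [geo_aa _ _ D, add_sub_cancel, geo_mul (γ : G) g] at k3
    rw [geo_aa0] at k4
    linarith
  have h8 : ∀ x, ∃ g ∈ Lam u, dist (geo g 0) (ξ x) ≤ ε' ∧ dist (geo g 1) (ξ (x + 1)) ≤ ε' := by
    intro x
    simpa using hn (fun y => ξ (x + y)) (fun a b => by simpa using h6 (x + a) (x + b))
      (by linarith [h7 (x + -n) (x + n)])
  have h9 : ∀ x, ∀ p ∈ Lam u, ∀ p' ∈ Lam u, dist (geo p 0) (ξ x) ≤ ε' →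
      dist (geo p' 0) (ξ (x + 1)) ≤ ε' → St (Lam u) ε p p' := by
    intro x p hp p' hp' k1 k2
    obtain ⟨q, k3, k4, k5⟩ := h8 x
    have k6 := L.flow_close hp k3 (δ := 2 * ε')
      (by linarith [dist_triangle_right (geo p 0) (geo q 0) (ξ x)]) (by linarith) 1
    have k7 : exp |1| ≤ 27 := (exp_le_exp.2 (by norm_num)).trans exp_three
    refine ⟨hp, hp', 1, le_rfl, one_le_two, ?_⟩
    have k8 := dist_triangle4 (geo p 1) (geo q 1) (ξ (x + 1)) (geo p' 0)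
    rw [dist_comm (ξ _)] at k8
    nlinarith [mul_le_mul_of_nonneg_right k7 e3.le]
  have h10 : ∀ m : ℕ, ∀ p' ∈ Lam u, dist (geo p' 0) (ξ (m + 1)) ≤ ε' →
      Ch (Lam u) ε (g * aa t) p' := by
    intro m
    induction m with
    | zero =>
      exact fun p' hp' k => .single (h9 0 _ (L.flow g hg t) p' hp'
        (by rw [h4 0 le_rfl, dist_self]; exact e3.le) (by simpa using k))
    | succ m ih =>
      intro p' hp' k
      obtain ⟨q, k3, k4, -⟩ := h8 (m + 1)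
      exact .tail (ih q k3 k4) (h9 _ q k3 p' hp' k4 (by exact_mod_cast k))
  have h11 := Nat.lt_floor_add_one D
  have h12 := Nat.floor_le h0
  have h13 := L.flow _ (L.flow _ (L.mul γ g hg) (s - 2 - D)) (⌊D⌋₊ + 1)
  refine ⟨γ, (h10 ⌊D⌋₊ _ h13 (by rw [geo_aa0, h5 _ h11.le, dist_self]; exact e3.le)).trans
    (Ch.orbit L h13 (L.flow _ (L.mul γ g hg) s) (T := 1 + D - ⌊D⌋₊) (by linarith) ?_)⟩
  rw [geo_aa, geo_aa, geo_aa0, show 1 + D - ⌊D⌋₊ + (⌊D⌋₊ + 1) + (s - 2 - D) = s by ring, dist_self]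
  exact hε.le

lemma MS.of_per (P : Pot Γ c u) {f : G} (hf : f ∈ Lam u) {β : Γ} {T : ℝ} (hT : 0 < T)
    (h : ∀ t, geo f (t + T) = (β : G) • geo f t) (γ : Γ) (t₀ : ℝ) : MS Γ u (γ * f * aa t₀) := by
  have h0 := P.la.flow _ (P.la.mul γ f hf) t₀
  refine ⟨h0, fun s t hst θ hθ => ?_⟩
  obtain ⟨k, hk⟩ := exists_nat_ge ((t - s) / T)
  rw [div_le_iff₀ hT] at hk
  refine ⟨γ * β ^ k * γ⁻¹, ?_⟩
  have h1 : ((γ * β ^ k * γ⁻¹ : Γ) : G) • geo (γ * f * aa t₀) s = geo (γ * f * aa t₀) (s + k * T) := by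
    rw [geo_aa, geo_aa, geo_mul, geo_mul, add_right_comm, geo_pow h]
    simp [mul_smul]
  rw [h1, h0, dist_geo, abs_of_nonpos (by linarith)]
  linarith

end Pool.Agent.Lib.MP_5bb885_an
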