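import Mathlib

/-!
Aubry sets of the Lagrangian `L(x, v) = |v|^2 / 2` of a closed hyperbolic surface `Γ \ ℍ`.
Curves on the surface are represented by their lifts to the upper half plane `ℍ`, and a closed
1-form `ω` by a primitive `U` of its lift.
-/

namespace Pool.Agent.Lib.MP_5bb885_an

open UpperHalfPlane MeasureTheory

open scoped MatrixGroups

/-- The first cohomology group `Hom(Γ, ℝ)`. -/
def Coh (Γ : Subgroup SL(2, ℝ)) : Submodule ℝ (Γ → ℝ) where
  carrier := {c | ∀ x y, c (x * y) = c x + c y}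
  zero_mem' := fun _ _ => by simp
  add_mem' := fun {a b} ha hb x y => by
    simp only [Pi.add_apply, ha x y, hb x y]
    ring
  smul_mem' := fun r a ha x y => by
    simp only [Pi.smul_apply, ha x y, smul_add]

/-- The unit speed geodesic `t ↦ g (i e^t)`. -/
noncomputable def geo (g : SL(2, ℝ)) (t : ℝ) : ℍ :=
  g • (⟨⟨0, Real.exp t⟩, Real.exp_pos t⟩ : ℍ)

/-- The Lagrangian along a curve: half the square of the hyperbolic speed. -/
noncomputable def lag (x : ℝ → ℍ) (t : ℝ) : ℝ :=
  ‖deriv (fun s => (x s : ℂ)) t‖ ^ 2 / (2 * (x t).im ^ 2)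

/-- An absolutely continuous curve on `[s, t]` with finite action. -/
def Adm (x : ℝ → ℍ) (s t : ℝ) : Prop :=
  s < t ∧ AbsolutelyContinuousOnInterval x s t ∧ IntervalIntegrable (lag x) volume s t

/-- The action of `L - ω + k` on `[s, t]`, for `ω = dU`. -/
noncomputable def act (U : ℍ → ℝ) (k : ℝ) (x : ℝ → ℍ) (s t : ℝ) : ℝ :=
  (∫ τ in s..t, (lag x τ + k)) - (U (x t) - U (x s))

variable (Γ : Subgroup SL(2, ℝ)) (U : ℍ → ℝ)

/-- The critical value: the least `k` such that `L - ω + k` has nonnegative action on all closed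
curves of the surface. -/
noncomputable def alpha : ℝ :=
  sInf {k | ∀ x s t, Adm x s t → (∃ γ ∈ Γ, x t = γ • x s) → 0 ≤ act U k x s t}

/-- The action potential between the points of the surface below `z` and `w`. -/
noncomputable def Phi (z w : ℍ) : ℝ :=
  sInf {r | ∃ x s t, Adm x s t ∧ x s = z ∧ (∃ γ ∈ Γ, x t = γ • w) ∧
    r = act U (alpha Γ U) x s t}

/-- Static curves. -/
def Static (x : ℝ → ℍ) : Prop :=
  ∀ s t, s < t → Adm x s t ∧ act U (alpha Γ U) x s t = -Phi Γ U (x t) (x s)

end Pool.Agent.Lib.MP_5bb885_an
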