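import Pool.Agent.Lib.MP_5bb885_an.H9Cal

/-!
The cohomology class dual to a closed geodesic.
-/

namespace Pool.Agent.Lib.MP_5bb885_an

open UpperHalfPlane Real Filter Topology

variable {Γ : Subgroup G} {f : G} {β : Γ}

/-- `β` translates the geodesic of the frame `f` forward. -/
def Per (f β : G) : Prop := IsDg (f⁻¹ * β * f) ∧ 1 < (f⁻¹ * β * f) 0 0 ^ 2

/-- The signed position with respect to the geodesic of the frame `f`. -/
noncomputable def XX (f : G) (z : ℍ) : ℝ := xx (f⁻¹ • z)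

lemma XX_geo (f g : G) (t : ℝ) : XX f (geo g t) = (f⁻¹ * g) 0 0 * (f⁻¹ * g) 1 0 * exp t +
    (f⁻¹ * g) 0 1 * (f⁻¹ * g) 1 1 * exp (-t) := by
  rw [XX, ← geo_mul, xx_geo]

lemma XX_lip (f : G) (z w : ℍ) : |XX f w - XX f z| ≤ (1 + |XX f z|) * (exp (dist z w) - 1) := by
  simpa [XX] using xx_lip (f⁻¹ • z) (f⁻¹ • w)

lemma XX_sign {f : G} {z w : ℍ} (h : XX f z * XX f w ≤ 0) : |XX f w| ≤ exp (dist z w) - 1 := by
  simpa [XX] using xx_sign h

lemma conj_pow (f β : G) (k : ℤ) : f⁻¹ * β ^ k * f = (f⁻¹ * β * f) ^ k := by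
  simpa using (conj_zpow (a := f⁻¹) (b := β) (i := k)).symm

lemma Per.smul {f β : G} (k : ℤ) (z : ℍ) : f⁻¹ • β ^ k • z = (f⁻¹ * β * f) ^ k • f⁻¹ • z := by
  rw [← conj_pow, mul_smul, mul_smul, smul_inv_smul]

lemma Per.xinv {f β : G} (h : Per f β) (k : ℤ) (z : ℍ) : XX f (β ^ k • z) = XX f z := by
  rw [XX, Per.smul, (h.1.zpow k).1.xx]
  rfl

lemma Per.shift {f β : G} (h : Per f β) (t : ℝ) :
    β • geo f t = geo f (t + log ((f⁻¹ * β * f) 0 0 ^ 2)) := by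
  rw [geo_def, geo_def, ← h.1.up, ← mul_smul, ← mul_smul]
  congr 1
  group

/-- The position with respect to the translate of the geodesic given by a coset. -/
noncomputable def XQ (f : G) (β : Γ) (q : Γ ⧸ Subgroup.zpowers β) (z : ℍ) : ℝ :=
  XX f ((q.out : G)⁻¹ • z)

lemma Per.XQ_mk (h : Per f β) (γ : Γ) (z : ℍ) : XQ f β γ z = XX f ((γ : G)⁻¹ • z) := by
  obtain ⟨⟨_, k, rfl⟩, hk⟩ := QuotientGroup.mk_out_eq_mul (Subgroup.zpowers β) γ
  rw [XQ, hk, ← h.xinv k]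
  simp [mul_smul]

lemma Per.XQ_smul (h : Per f β) (γ : Γ) (q : Γ ⧸ Subgroup.zpowers β) (z : ℍ) :
    XQ f β (γ • q) ((γ : G) • z) = XQ f β q z := by
  obtain ⟨δ, rfl⟩ := QuotientGroup.mk_surjective q
  rw [MulAction.Quotient.smul_mk, h.XQ_mk, h.XQ_mk]
  simp [mul_smul]

lemma Per.fin (F : Fu Γ) (h : Per f β) (z : ℍ) (K : ℝ) : {q | |XQ f β q z| ≤ K}.Finite := by
  set μ := (f⁻¹ * β * f) 0 0 ^ 2 with hμ
  have h1 : 1 < μ := h.2
  refine ((F.fin' z (f • I) ((K ^ 2 + 1) * μ ^ 2 + 1)).image fun γ => ((γ⁻¹ : Γ) : Γ ⧸ _)).subset ?_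
  intro q hq
  obtain ⟨γ, rfl⟩ := QuotientGroup.mk_surjective q
  rw [Set.mem_ofPred_eq, h.XQ_mk] at hq
  obtain ⟨k, h2, h3⟩ := exists_mem_Ico_zpow (f⁻¹ • (γ : G)⁻¹ • z).im_pos h1
  refine ⟨β ^ (-k) * γ⁻¹, ?_, ?_⟩
  · rw [← h.xinv (-k)] at hq
    have h4 : (f⁻¹ • (β : G) ^ (-k) • (γ : G)⁻¹ • z).im = (μ ^ k)⁻¹ * (f⁻¹ • (γ : G)⁻¹ • z).im := by
      rw [Per.smul, (h.1.zpow _).1.im, (h.1.zpow _).2, hμ, ← zpow_natCast, ← zpow_natCast,
        ← zpow_mul, ← zpow_mul, ← zpow_neg]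
      congr 2
      ring
    have h5 : 0 < μ ^ k := zpow_pos (by linarith) k
    rw [zpow_add_one₀ (by linarith)] at h3
    rw [Set.mem_ofPred_eq, ← dist_smul f⁻¹, inv_smul_smul, Subgroup.coe_mul, mul_smul,
      Subgroup.coe_zpow, Subgroup.coe_inv]
    rw [XX, xx] at hq
    set w := f⁻¹ • (β : G) ^ (-k) • (γ : G)⁻¹ • z
    have h6 : 1 ≤ w.im := by rwa [h4, le_inv_mul_iff₀ h5, mul_one]
    have h7 : w.im ≤ μ := by rw [h4, inv_mul_le_iff₀ h5]; exact h3.le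
    have h8 : w.re ^ 2 ≤ K ^ 2 * μ ^ 2 := by
      rw [abs_div, abs_of_pos w.im_pos, div_le_iff₀ w.im_pos] at hq
      rw [← mul_pow]
      have hK : 0 ≤ K := nonneg_of_mul_nonneg_left ((abs_nonneg _).trans hq) w.im_pos
      exact sq_le_sq' (by nlinarith [abs_le.1 hq]) (by nlinarith [abs_le.1 hq])
    have h9 := cosh_dist' w I
    simp only [I_re, I_im, sub_zero, one_pow, mul_one] at h9
    have h10 := sq_le_cosh (dist w I)
    have h11 : cosh (dist w I) ≤ ((K ^ 2 + 1) * μ ^ 2 + 1) / 2 := by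
      rw [h9]
      exact div_le_div₀ (by positivity) (by nlinarith) two_pos (by linarith)
    nlinarith [sq_nonneg (dist w I - 1), sq_nonneg (K * μ)]
  · simp only [mul_inv_rev, inv_inv, ← zpow_neg, neg_neg]
    exact QuotientGroup.mk_mul_of_mem γ (Subgroup.zpow_mem_zpowers β k)

lemma Per.gap (F : Fu Γ) (h : Per f β) (z : ℍ) :
    ∃ ρ, 0 < ρ ∧ ∀ η : Γ, XX f ((η : G) • z) ≠ 0 → ρ ≤ |XX f ((η : G) • z)| := by
  have h1 := ((h.fin F z 1).image fun q => |XQ f β q z|).subset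
    (show (fun q => |XQ f β q z|) '' {q | |XQ f β q z| ≤ 1} \ {0} ⊆ _ from Set.sdiff_subset)
  have h2 := h1.isClosed.isOpen_compl.mem_nhds (show (0 : ℝ) ∈ _ from fun h => h.2 rfl)
  obtain ⟨ρ, h3, h4⟩ := Metric.mem_nhds_iff.1 h2
  refine ⟨min ρ 1, lt_min h3 one_pos, fun η hη => not_lt.1 fun h5 => ?_⟩
  have h6 := h.XQ_mk η⁻¹ z
  rw [Subgroup.coe_inv, inv_inv] at h6
  rw [← h6] at hη h5
  exact h4 (show |XQ f β (η⁻¹ : Γ) z| ∈ Metric.ball 0 ρ by simpa using h5.trans_le (min_le_left _ _))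
    ⟨⟨_, h5.le.trans (min_le_right _ _), rfl⟩, by simpa using hη⟩

/-- The indicator of the positive reals. -/
noncomputable def th (x : ℝ) : ℝ := if 0 < x then 1 else 0

/-- The signed number of translates that separate two points. -/
noncomputable def NN (f : G) (β : Γ) (z w : ℍ) : ℝ := ∑ᶠ q, (th (XQ f β q w) - th (XQ f β q z))

lemma Per.supp (F : Fu Γ) (h : Per f β) (z w : ℍ) :
    Function.HasFiniteSupport fun q => th (XQ f β q w) - th (XQ f β q z) := by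
  refine (h.fin F w (exp (dist z w) - 1)).subset fun q hq => ?_
  have h1 : XQ f β q z * XQ f β q w ≤ 0 := by
    by_contra h1
    rcases mul_pos_iff.1 (not_le.1 h1) with h2 | h2
    · simp [th, h2.1, h2.2] at hq
    · simp [th, h2.1.not_gt, h2.2.not_gt] at hq
  simpa [XQ] using XX_sign h1

lemma Per.NN_add (F : Fu Γ) (h : Per f β) (z w y : ℍ) :
    NN f β z w + NN f β w y = NN f β z y := by
  rw [NN, NN, ← finsum_add_distrib (h.supp F z w) (h.supp F w y)]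
  exact finsum_congr fun q => by ring

lemma Per.NN_smul (h : Per f β) (γ : Γ) (z w : ℍ) :
    NN f β ((γ : G) • z) ((γ : G) • w) = NN f β z w := by
  rw [NN, ← finsum_comp_equiv (MulAction.toPerm γ)]
  exact finsum_congr fun q => by simp only [MulAction.toPerm_apply, h.XQ_smul]

lemma Per.NN_base (F : Fu Γ) (h : Per f β) (γ : Γ) (z w : ℍ) :
    NN f β z ((γ : G) • z) = NN f β w ((γ : G) • w) := by
  have h1 := h.NN_add F z ((γ : G) • z) ((γ : G) • w)
  have h2 := h.NN_add F z w ((γ : G) • w)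
  rw [h.NN_smul] at h1
  linarith

/-- The crossing parameter. -/
noncomputable def yy (m : G) : ℝ := -(m 0 1 * m 1 1) / (m 0 0 * m 1 0)

/-- The geodesic crosses the imaginary axis. -/
def Cr (m : G) : Prop := m 0 0 * m 1 0 * (m 0 1 * m 1 1) < 0

/-- The direction of the crossing. -/
noncomputable def sg (m : G) : ℝ := if 0 < m 0 0 * m 1 0 then 1 else -1

open Classical in
lemma th_eval (m : G) {Y Y' : ℝ} (h0 : 0 < Y) (h1 : Y < Y') (h2 : yy m ≠ Y) (h3 : yy m ≠ Y') :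
    th (m 0 0 * m 1 0 * Y' + m 0 1 * m 1 1) - th (m 0 0 * m 1 0 * Y + m 0 1 * m 1 1) =
      if Cr m ∧ Y < yy m ∧ yy m < Y' then sg m else 0 := by
  unfold Cr sg th
  unfold yy at *
  generalize m 0 0 * m 1 0 = A at *
  generalize m 0 1 * m 1 1 = B at *
  rcases lt_trichotomy A 0 with h | rfl | h
  · have h4 : B = -A * (-B / A) := by field_simp [h.ne]
    generalize -B / A = y at *
    subst h4
    have h5 : ∀ Z, 0 < A * Z + -A * y ↔ Z < y := fun Z => ⟨fun _ => by nlinarith, fun _ => by nlinarith⟩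
    simp only [h5, if_neg h.not_gt]
    by_cases c1 : Y < y
    · by_cases c2 : y < Y'
      · rw [if_neg c2.not_gt, if_pos c1, if_pos ⟨by nlinarith [mul_pos_of_neg_of_neg h h], c1, c2⟩]
        norm_num
      · rw [if_pos (lt_of_le_of_ne (not_lt.1 c2) h3.symm), if_pos c1, if_neg fun h => c2 h.2.2]
        norm_num
    · rw [if_neg (fun h => c1 (h1.trans h)), if_neg c1, if_neg fun h => c1 h.2.1]
      norm_num
  · simp
  · have h4 : B = -A * (-B / A) := by field_simp [h.ne']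
    generalize -B / A = y at *
    subst h4
    have h5 : ∀ Z, 0 < A * Z + -A * y ↔ y < Z := fun Z => ⟨fun _ => by nlinarith, fun _ => by nlinarith⟩
    simp only [h5, if_pos h]
    by_cases c1 : Y < y
    · by_cases c2 : y < Y'
      · rw [if_pos c2, if_neg c1.not_gt, if_pos ⟨by nlinarith [mul_pos h h], c1, c2⟩]
        norm_num
      · rw [if_neg c2, if_neg c1.not_gt, if_neg fun h => c2 h.2.2]
        norm_num
    · have c2 := lt_of_le_of_ne (not_lt.1 c1) h2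
      rw [if_pos (c2.trans h1), if_pos c2, if_neg fun h => c1 h.2.1]
      norm_num

lemma Cr.inv {m : G} (h : Cr m) : Cr m⁻¹ ∧ sg m⁻¹ = -sg m := by
  unfold Cr sg at *
  simp only [inv_00, inv_01, inv_10, inv_11]
  refine ⟨by linarith, ?_⟩
  have h1 := det_eq m
  have h2 : 0 < m 0 0 * m 1 1 := by
    by_contra h2
    nlinarith [mul_nonneg_of_nonpos_of_nonpos (not_lt.1 h2) (show m 0 1 * m 1 0 ≤ 0 by linarith [not_lt.1 h2])]
  have h3 : m 1 0 ≠ 0 := fun e => by simp [e] at h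
  have h4 : 0 < m 0 0 * m 1 0 * (m 1 1 * m 1 0) := by nlinarith [mul_pos h2 (mul_self_pos.2 h3)]
  rcases mul_pos_iff.1 h4 with h5 | h5
  · rw [if_neg (by linarith [h5.2]), if_pos h5.1]
  · rw [if_pos (by linarith [h5.2]), if_neg h5.1.not_gt, neg_neg]

lemma IsDg.left {D : G} (h : IsDg D) (m : G) : yy (D * m) = yy m ∧ (Cr (D * m) ↔ Cr m) := by
  have h1 : (D * m) 0 0 * (D * m) 1 0 = m 0 0 * m 1 0 := by
    simp only [mul_ent, h.1, h.2]
    linear_combination m 0 0 * m 1 0 * h.mul_eq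
  have h2 : (D * m) 0 1 * (D * m) 1 1 = m 0 1 * m 1 1 := by
    simp only [mul_ent, h.1, h.2]
    linear_combination m 0 1 * m 1 1 * h.mul_eq
  rw [yy, Cr, h1, h2]
  exact ⟨rfl, Iff.rfl⟩

lemma IsDg.right {D : G} (h : IsDg D) (m : G) : yy (m * D) = yy m / D 0 0 ^ 4 := by
  have := h.ne
  simp only [yy, mul_ent, h.1, h.2, h.eq_inv, mul_zero, add_zero, zero_add]
  by_cases h1 : m 0 0 * m 1 0 = 0
  · rw [show m 0 0 * D 0 0 * (m 1 0 * D 0 0) = m 0 0 * m 1 0 * D 0 0 ^ 2 by ring, h1]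
    simp
  · have := left_ne_zero_of_mul h1
    have := right_ne_zero_of_mul h1
    field_simp

lemma Per.NN_self (F : Fu Γ) (h : Per f β) : NN f β I ((β : G) • I) = 0 := by
  classical
  have := F.countable
  set l := (f⁻¹ * β * f) 0 0 with hl
  have h1 : 1 < l ^ 4 := by
    have := h.2
    nlinarith
  set m : Γ → G := fun γ => f⁻¹ * (γ : G)⁻¹ * f with hm
  obtain ⟨Y, hY, h0⟩ := (((Set.countable_range fun γ => yy (m γ)).union
    (Set.countable_range fun γ => yy (m γ) / l ^ 4)).dense_compl ℝ).exists_mem_open isOpen_Ioi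
      ⟨1, (one_pos : (0 : ℝ) < 1)⟩
  have h0 : 0 < Y := h0
  have h2 : ∀ γ, yy (m γ) ≠ Y := fun γ e => hY (Or.inl ⟨γ, e⟩)
  have h3 : ∀ γ, yy (m γ) ≠ l ^ 4 * Y := fun γ e => hY (Or.inr ⟨γ, by
    simp only [e]
    exact mul_div_cancel_left₀ _ (by linarith)⟩)
  have h4 : ∀ (γ : Γ) t, th (XQ f β γ (geo f t)) =
      th (m γ 0 0 * m γ 1 0 * exp t ^ 2 + m γ 0 1 * m γ 1 1) := by
    intro γ t
    rw [h.XQ_mk, ← geo_mul, XX_geo, ← mul_assoc]
    refine if_congr ?_ rfl rfl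
    rw [← mul_pos_iff_of_pos_right (exp_pos t), add_mul, mul_assoc _ (exp (-t)), ← exp_add,
      neg_add_cancel, exp_zero, mul_one, mul_assoc _ (exp t), ← pow_two]
  set z := geo f (log Y / 2) with hz
  have h5 : ∀ γ : Γ, th (XQ f β γ ((β : G) • z)) - th (XQ f β γ z) =
      if Cr (m γ) ∧ Y < yy (m γ) ∧ yy (m γ) < l ^ 4 * Y then sg (m γ) else 0 := by
    intro γ
    have h5 : exp (log Y / 2) ^ 2 = Y := by rw [pow_two, ← exp_add, add_halves, exp_log h0]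
    rw [hz, h.shift, h4, h4, exp_add, exp_log (by linarith [h.2]), mul_pow, h5, ← hl, ← pow_mul,
      mul_comm Y]
    exact th_eval _ h0 (show Y < l ^ 4 * Y by nlinarith) (h2 γ) (h3 γ)
  have h6 : ∀ γ, m γ⁻¹ = (m γ)⁻¹ := fun γ => by simp only [hm, Subgroup.coe_inv]; group
  have h7 : ∀ (γ : Γ) (k : ℤ), yy (m (γ * β ^ k)) = yy (m γ) ∧ (Cr (m (γ * β ^ k)) ↔ Cr (m γ)) ∧
      yy (m (γ * β ^ k)⁻¹) = yy (m γ⁻¹) / (l ^ 4) ^ k := by
    intro γ k
    have e1 : m (γ * β ^ k) = (f⁻¹ * β * f) ^ (-k) * m γ := by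
      simp only [hm, ← conj_pow, Subgroup.coe_mul, Subgroup.coe_zpow]
      group
    have e2 : m (γ * β ^ k)⁻¹ = m γ⁻¹ * (f⁻¹ * β * f) ^ k := by
      rw [h6, e1, h6]
      group
    rw [e2, (h.1.zpow k).1.right, (h.1.zpow k).2, e1, ← hl, ← zpow_natCast, ← zpow_natCast,
      ← zpow_mul, ← zpow_mul, mul_comm k]
    exact ⟨((h.1.zpow _).1.left _).1, ((h.1.zpow _).1.left _).2, rfl⟩
  set A := {γ : Γ | (Cr (m γ) ∧ Y < yy (m γ) ∧ yy (m γ) < l ^ 4 * Y) ∧
    Y < yy (m γ⁻¹) ∧ yy (m γ⁻¹) < l ^ 4 * Y} with hA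
  have h8 : NN f β z ((β : G) • z) = ∑ᶠ γ ∈ A, sg (m γ) := by
    rw [NN, ← finsum_mem_univ, finsum_mem_inter_support_eq' _ _ (((↑) : Γ → Γ ⧸ _) '' A),
      finsum_mem_image]
    · exact finsum_mem_congr rfl fun γ hγ => by rw [h5, if_pos hγ.1]
    · intro γ hγ γ' hγ' e
      obtain ⟨k, hk⟩ := QuotientGroup.eq.1 e
      have hk : β ^ k = _ := hk
      obtain rfl : γ' = γ * β ^ k := by rw [hk]; group
      have h8 := hγ'.2
      have h9 := hγ.2
      have h10 : 0 < (l ^ 4) ^ k := zpow_pos (by linarith) k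
      rw [(h7 γ k).2.2, lt_div_iff₀ h10, div_lt_iff₀ h10] at h8
      have h11 : (l ^ 4) ^ k < (l ^ 4) ^ (1 : ℤ) := by
        rw [zpow_one]
        nlinarith
      have h12 : (l ^ 4) ^ (0 : ℤ) < (l ^ 4) ^ (k + 1) := by
        rw [zpow_zero, zpow_add_one₀ (by linarith)]
        nlinarith
      rw [zpow_lt_zpow_iff_right₀ h1] at h11 h12
      rw [show k = 0 by omega, zpow_zero, mul_one]
    · intro q hq
      obtain ⟨γ, rfl⟩ := QuotientGroup.mk_surjective q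
      rw [Function.mem_support, h5] at hq
      have h8 : Cr (m γ) ∧ Y < yy (m γ) ∧ yy (m γ) < l ^ 4 * Y := by
        by_contra h8
        exact hq (if_neg h8)
      have h9 : 0 < yy (m γ⁻¹) := by
        have h9 := h8.1.inv.1
        rw [← h6] at h9
        rw [yy, div_pos_iff, neg_pos, neg_lt_zero]
        rcases mul_neg_iff.1 h9 with h | h
        · exact Or.inl ⟨h.2, h.1⟩
        · exact Or.inr ⟨h.2, h.1⟩
      obtain ⟨k, h10, h11⟩ := exists_mem_Ico_zpow (div_pos h9 h0) h1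
      have h12 : 0 < (l ^ 4) ^ k := zpow_pos (by linarith) k
      refine iff_of_true trivial ⟨γ * β ^ k, ⟨by rwa [(h7 γ k).1, (h7 γ k).2.1], ?_, ?_⟩,
        QuotientGroup.mk_mul_of_mem γ (Subgroup.zpow_mem_zpowers β k)⟩
      · refine lt_of_le_of_ne ?_ (h2 _).symm
        rwa [(h7 γ k).2.2, le_div_comm₀ h0 h12]
      · rw [(h7 γ k).2.2, div_lt_iff₀ h12]
        rw [zpow_add_one₀ (by linarith), div_lt_iff₀ h0] at h11
        linarith
  have h9 : ∑ᶠ γ ∈ A, sg (m γ) = ∑ᶠ γ ∈ A, -sg (m γ) := by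
    have h9 : Set.MapsTo (fun γ : Γ => γ⁻¹) A A := fun γ hγ =>
      ⟨⟨h6 γ ▸ hγ.1.1.inv.1, hγ.2⟩, by simpa using hγ.1.2⟩
    exact finsum_mem_eq_of_bijOn (fun γ => γ⁻¹)
      (Set.InvOn.bijOn ⟨fun γ _ => inv_inv γ, fun γ _ => inv_inv γ⟩ h9 h9)
      fun γ hγ => by rw [h6, hγ.1.1.inv.2, neg_neg]
  have h10 : ∑ᶠ γ ∈ A, -sg (m γ) = -∑ᶠ γ ∈ A, sg (m γ) := by simp only [finsum_neg_distrib]
  rw [h.NN_base F β I z, h8]
  linarith

theorem Per.dual (F : Fu Γ) (h : Per f β) : ∃ φ ∈ Coh Γ, φ β = 0 ∧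
    ∀ (e y : ℝ) (z : ℍ) (γ : Γ), (e = 1 ∨ e = -1) →
      (∀ η : Γ, y ≤ e * XX f ((η : G) • z) → y ≤ e * XX f ((η : G) • (γ : G) • z)) →
      e * XX f z < y → y ≤ e * XX f ((γ : G) • z) → φ γ ≠ 0 := by
  refine ⟨fun γ => NN f β I ((γ : G) • I), fun x y => ?_, h.NN_self F, fun e y z γ he h1 h2 h3 h4 => ?_⟩
  · simp only [Subgroup.coe_mul, mul_smul]
    rw [← h.NN_add F I ((x : G) • I), h.NN_smul]
  set θ : ℝ → ℝ := fun x => if y ≤ e * x then 1 else 0 with hθ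
  have h5 : ∀ w, Function.HasFiniteSupport
      fun q => θ (XQ f β q w) - e * th (XQ f β q w) - (1 - e) / 2 := by
    intro w
    refine (h.fin F w |y|).subset fun q hq =>
      show |XQ f β q w| ≤ |y| from not_lt.1 fun h5 => hq ?_
    have h6 := le_abs_self y
    have h7 := neg_abs_le y
    have h8 := abs_nonneg y
    simp only [hθ, th]
    rcases lt_abs.1 h5 with h9 | h9 <;> rcases he with rfl | rfl
    · rw [if_pos (by linarith), if_pos (by linarith)]; norm_num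
    · rw [if_neg (by linarith), if_pos (by linarith)]; norm_num
    · rw [if_neg (by linarith), if_neg (by linarith)]; norm_num
    · rw [if_pos (by linarith), if_neg (by linarith)]; norm_num
  have h6 : ∑ᶠ q, (θ (XQ f β q ((γ : G) • z)) - e * th (XQ f β q ((γ : G) • z)) - (1 - e) / 2) =
      ∑ᶠ q, (θ (XQ f β q z) - e * th (XQ f β q z) - (1 - e) / 2) := by
    rw [← finsum_comp_equiv (MulAction.toPerm γ)]
    exact finsum_congr fun q => by simp only [MulAction.toPerm_apply, h.XQ_smul]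
  have h7 : Function.HasFiniteSupport
      fun q => e * (th (XQ f β q ((γ : G) • z)) - th (XQ f β q z)) :=
    (h.supp F z ((γ : G) • z)).subset (Function.support_mul_subset_right _ _)
  have h8 := finsum_add_distrib ((h5 ((γ : G) • z)).sub (h5 z)) h7
  have h9 := h.NN_base F γ I z
  simp only [Pi.sub_apply] at h4 h8
  rw [finsum_sub_distrib (h5 _) (h5 _), h6, sub_self, zero_add, ← mul_finsum, ← NN, ← h9, h4,
    mul_zero] at h8
  refine (finsum_pos (fun q => ?_) ⟨((1 : Γ) : Γ ⧸ _), ?_⟩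
    (((h5 ((γ : G) • z)).sub (h5 z)).add h7)).ne' h8
  · obtain ⟨δ, rfl⟩ := QuotientGroup.mk_surjective q
    have := h1 δ⁻¹
    simp only [Pi.add_apply, Pi.sub_apply, h.XQ_mk, hθ]
    rw [Subgroup.coe_inv] at this
    split_ifs with c1 c2 c2
    · linarith
    · linarith
    · exact absurd (this c2) c1
    · linarith
  · simp only [Pi.add_apply, Pi.sub_apply, h.XQ_mk, hθ, Subgroup.coe_one, inv_one, one_smul]
    rw [if_pos h3, if_neg h2.not_ge]
    linarith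

end Pool.Agent.Lib.MP_5bb885_an
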