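import Pool.Agent.Lib.MP_5bb885_an.H9Defs

/-!
Geodesics of the upper half plane in matrix coordinates.
-/

namespace Pool.Agent.Lib.MP_5bb885_an

open UpperHalfPlane Real

open scoped MatrixGroups

/-- The group `SL(2, ℝ)`. -/
abbrev G : Type := SL(2, ℝ)

/-- The point `i e^t`. -/
noncomputable def up (t : ℝ) : ℍ := ⟨⟨0, exp t⟩, exp_pos t⟩

lemma geo_def (g : G) (t : ℝ) : geo g t = g • up t := rfl

@[simp] lemma up_re (t : ℝ) : (up t).re = 0 := rfl

@[simp] lemma up_im (t : ℝ) : (up t).im = exp t := rfl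

lemma up_zero : up 0 = I := ext_re_im (by simp) (by simp)

lemma geo_zero (g : G) : geo g 0 = g • I := by rw [geo_def, up_zero]

/-- A matrix of determinant one. -/
def mk4 (a b c d : ℝ) (h : a * d - b * c = 1) : G := ⟨!![a, b; c, d], by rwa [Matrix.det_fin_two_of]⟩

@[simp] lemma mk4_00 (a b c d : ℝ) (h) : mk4 a b c d h 0 0 = a := rfl
@[simp] lemma mk4_01 (a b c d : ℝ) (h) : mk4 a b c d h 0 1 = b := rfl
@[simp] lemma mk4_10 (a b c d : ℝ) (h) : mk4 a b c d h 1 0 = c := rfl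
@[simp] lemma mk4_11 (a b c d : ℝ) (h) : mk4 a b c d h 1 1 = d := rfl

lemma det_eq (g : G) : g 0 0 * g 1 1 - g 0 1 * g 1 0 = 1 := by
  rw [← Matrix.det_fin_two]
  exact g.det_coe

lemma mul_ent (g h : G) (i j : Fin 2) : (g * h) i j = g i 0 * h 0 j + g i 1 * h 1 j := by
  simp [Matrix.mul_apply, Fin.sum_univ_two]

lemma ext4 {g h : G} (h1 : g 0 0 = h 0 0) (h2 : g 0 1 = h 0 1) (h3 : g 1 0 = h 1 0)
    (h4 : g 1 1 = h 1 1) : g = h := by
  ext i j
  fin_cases i <;> fin_cases j <;> assumption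

lemma inv_eq (g : G) : g⁻¹ = mk4 (g 1 1) (-g 0 1) (-g 1 0) (g 0 0) (by linarith [det_eq g]) := by
  refine inv_eq_of_mul_eq_one_right (ext4 ?_ ?_ ?_ ?_) <;> simp [mul_ent] <;> linarith [det_eq g]

@[simp] lemma inv_00 (g : G) : g⁻¹ 0 0 = g 1 1 := by rw [inv_eq]; rfl
@[simp] lemma inv_01 (g : G) : g⁻¹ 0 1 = -g 0 1 := by rw [inv_eq]; rfl
@[simp] lemma inv_10 (g : G) : g⁻¹ 1 0 = -g 1 0 := by rw [inv_eq]; rfl
@[simp] lemma inv_11 (g : G) : g⁻¹ 1 1 = g 0 0 := by rw [inv_eq]; rfl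

/-- The diagonal flow. -/
noncomputable def aa (t : ℝ) : G :=
  mk4 (exp (t / 2)) 0 0 (exp (-(t / 2))) (by simp [← exp_add])

lemma den_pos (g : G) (z : ℍ) : 0 < (g 1 0 * z.re + g 1 1) ^ 2 + (g 1 0 * z.im) ^ 2 := by
  by_cases h : g 1 0 = 0
  · have : g 1 1 ≠ 0 := fun h' => by simpa [h, h'] using det_eq g
    simp only [h, zero_mul, zero_add]
    positivity
  · have := z.im_ne_zero
    positivity

lemma smul_im (g : G) (z : ℍ) :
    (g • z).im = z.im / ((g 1 0 * z.re + g 1 1) ^ 2 + (g 1 0 * z.im) ^ 2) := by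
  have h := den_pos g z
  rw [← coe_im, coe_specialLinearGroup_apply, Complex.div_im, Complex.normSq_apply]
  simp only [Algebra.algebraMap_self, RingHom.id_apply, Complex.add_re, Complex.mul_re,
    Complex.ofReal_re, coe_re, Complex.ofReal_im, coe_im, Complex.add_im, Complex.mul_im, zero_mul,
    sub_zero, add_zero]
  rw [← pow_two, ← pow_two, ← sub_div]
  congr 1
  linear_combination z.im * det_eq g

lemma smul_re (g : G) (z : ℍ) : (g • z).re =
    ((g 0 0 * z.re + g 0 1) * (g 1 0 * z.re + g 1 1) + g 0 0 * g 1 0 * z.im ^ 2) /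
      ((g 1 0 * z.re + g 1 1) ^ 2 + (g 1 0 * z.im) ^ 2) := by
  have h := den_pos g z
  rw [← coe_re, coe_specialLinearGroup_apply, Complex.div_re, Complex.normSq_apply]
  simp only [Algebra.algebraMap_self, RingHom.id_apply, Complex.add_re, Complex.mul_re,
    Complex.ofReal_re, coe_re, Complex.ofReal_im, coe_im, Complex.add_im, Complex.mul_im, zero_mul,
    sub_zero, add_zero]
  rw [← pow_two, ← pow_two, ← add_div]
  congr 1
  ring

/-- Diagonal matrices. -/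
def IsDg (m : G) : Prop := m 0 1 = 0 ∧ m 1 0 = 0

lemma IsDg.mul_eq {m : G} (h : IsDg m) : m 0 0 * m 1 1 = 1 := by simpa [h.1] using det_eq m

lemma IsDg.ne {m : G} (h : IsDg m) : m 0 0 ≠ 0 := left_ne_zero_of_mul_eq_one h.mul_eq

lemma IsDg.eq_inv {m : G} (h : IsDg m) : m 1 1 = (m 0 0)⁻¹ := eq_inv_of_mul_eq_one_right h.mul_eq

lemma IsDg.im {m : G} (h : IsDg m) (z : ℍ) : (m • z).im = m 0 0 ^ 2 * z.im := by
  rw [smul_im, h.2, h.eq_inv]
  have := h.ne
  field_simp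
  simp

lemma IsDg.re {m : G} (h : IsDg m) (z : ℍ) : (m • z).re = m 0 0 ^ 2 * z.re := by
  rw [smul_re, h.2, h.1, h.eq_inv]
  have := h.ne
  field_simp
  simp

lemma IsDg.up {m : G} (h : IsDg m) (t : ℝ) : m • up t = up (t + log (m 0 0 ^ 2)) := by
  have := h.ne
  refine ext_re_im (by simp [h.re]) ?_
  rw [h.im, up_im, up_im, exp_add, exp_log (by positivity), mul_comm]

lemma IsDg.mul {m n : G} (h : IsDg m) (h' : IsDg n) :
    IsDg (m * n) ∧ (m * n) 0 0 = m 0 0 * n 0 0 := by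
  simp [IsDg, mul_ent, h.1, h.2, h'.1, h'.2]

lemma IsDg.inv {m : G} (h : IsDg m) : IsDg m⁻¹ ∧ m⁻¹ 0 0 = (m 0 0)⁻¹ := by
  simp [IsDg, h.1, h.2, h.eq_inv]

lemma IsDg.zpow {m : G} (h : IsDg m) (k : ℤ) : IsDg (m ^ k) ∧ (m ^ k) 0 0 = m 0 0 ^ k := by
  induction k using Int.induction_on with
  | zero => simp [IsDg]
  | succ k ih =>
    rw [zpow_add_one, zpow_add_one₀ h.ne, ← ih.2]
    exact ih.1.mul h
  | pred k ih =>
    rw [zpow_sub_one, zpow_sub_one₀ h.ne, ← ih.2, ← h.inv.2]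
    exact ih.1.mul h.inv.1

lemma isDg_aa (t : ℝ) : IsDg (aa t) := ⟨rfl, rfl⟩

lemma aa_up (s t : ℝ) : aa s • up t = up (t + s) := by
  rw [(isDg_aa s).up]
  congr 1
  simp [aa]
  ring

lemma aa_add (s t : ℝ) : aa s * aa t = aa (s + t) := by
  refine ext4 ?_ ?_ ?_ ?_ <;> simp [mul_ent, aa, ← exp_add] <;> ring

lemma aa_zero : aa 0 = 1 := by
  refine ext4 ?_ ?_ ?_ ?_ <;> simp [aa]

lemma aa_inv (t : ℝ) : (aa t)⁻¹ = aa (-t) :=
  inv_eq_of_mul_eq_one_right (by rw [aa_add, add_neg_cancel, aa_zero])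

lemma geo_mul (g h : G) (t : ℝ) : geo (g * h) t = g • geo h t := mul_smul _ _ _

lemma geo_aa (g : G) (s t : ℝ) : geo (g * aa s) t = geo g (t + s) := by
  rw [geo_mul, geo_def, aa_up, geo_def]

lemma dist_up (s t : ℝ) : dist (up s) (up t) = |s - t| :=
  (isometry_vertical_line 0).dist_eq s t

lemma dist_geo (g : G) (s t : ℝ) : dist (geo g s) (geo g t) = |s - t| := by
  rw [geo_def, geo_def, dist_smul, dist_up]

lemma dist_geo_geo (g h : G) (s t : ℝ) :
    dist (geo g s) (geo h t) = dist (up s) (geo (g⁻¹ * h) t) := by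
  rw [← dist_smul g (up s), ← geo_mul, mul_inv_cancel_left, geo_def g]

lemma cosh_geo (m : G) (s t : ℝ) : 2 * cosh (dist (up s) (geo m t)) =
    m 0 0 ^ 2 * exp (t - s) + m 0 1 ^ 2 * exp (-t - s) + m 1 0 ^ 2 * exp (t + s) +
      m 1 1 ^ 2 * exp (s - t) := by
  have h := den_pos m (up t)
  rw [cosh_dist', geo_def, smul_im, smul_re]
  simp only [up_re, up_im, mul_zero, zero_add, zero_sub, exp_sub, exp_add, exp_neg] at h ⊢
  have h1 := exp_pos s
  have h2 := exp_pos t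
  have h3 := det_eq m
  have h4 : (m 0 1 * m 1 1 + m 0 0 * m 1 0 * exp t ^ 2) ^ 2 + exp t ^ 2 =
      (m 0 0 ^ 2 * exp t ^ 2 + m 0 1 ^ 2) * (m 1 1 ^ 2 + (m 1 0 * exp t) ^ 2) := by
    linear_combination (-(exp t) ^ 2 * (m 0 0 * m 1 1 - m 0 1 * m 1 0 + 1)) * h3
  generalize hN : m 1 1 ^ 2 + (m 1 0 * exp t) ^ 2 = N at h h4
  field_simp
  linear_combination h4 - exp s ^ 2 * N * hN

/-- The signed position with respect to the imaginary axis. -/
noncomputable def xx (z : ℍ) : ℝ := z.re / z.im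

lemma xx_geo (m : G) (t : ℝ) :
    xx (geo m t) = m 0 0 * m 1 0 * exp t + m 0 1 * m 1 1 * exp (-t) := by
  have h := den_pos m (up t)
  rw [xx, geo_def, smul_im, smul_re]
  simp only [up_re, up_im, mul_zero, zero_add, exp_neg] at h ⊢
  have h2 := exp_pos t
  rw [div_div_div_cancel_right₀ h.ne']
  field_simp
  ring

lemma IsDg.xx {m : G} (h : IsDg m) (z : ℍ) : xx (m • z) = xx z := by
  rw [Pool.Agent.Lib.MP_5bb885_an.xx, h.im, h.re, mul_div_mul_left _ _ (pow_ne_zero 2 h.ne)]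
  rfl

lemma xx_lip (z w : ℍ) : |xx w - xx z| ≤ (1 + |xx z|) * (exp (dist z w) - 1) := by
  have h1 := dist_coe_le z w
  have h2 : |z.re - w.re| ≤ dist (z : ℂ) w := by
    rw [Complex.dist_eq]
    exact Complex.abs_re_le_norm (z - w)
  have h3 : |z.im - w.im| ≤ dist (z : ℂ) w := by
    rw [Complex.dist_eq]
    exact Complex.abs_im_le_norm (z - w)
  have hz := z.im_pos
  have hw := w.im_pos
  have h4 : xx w - xx z = (-(z.re - w.re) + xx z * (z.im - w.im)) / w.im := by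
    unfold xx
    field_simp
    ring
  rw [h4, abs_div, abs_of_pos hw, div_le_iff₀ hw]
  refine (abs_add_le _ _).trans ?_
  rw [abs_neg, abs_mul]
  nlinarith [abs_nonneg (xx z), mul_le_mul_of_nonneg_left (h3.trans h1) (abs_nonneg (xx z))]

lemma xx_sign {z w : ℍ} (h : xx z * xx w ≤ 0) : |xx w| ≤ exp (dist z w) - 1 := by
  have h1 := dist_coe_le z w
  have h2 : |z.re - w.re| ≤ dist (z : ℂ) w := by
    rw [Complex.dist_eq]
    exact Complex.abs_re_le_norm (z - w)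
  have hz := z.im_pos
  have hw := w.im_pos
  rw [xx, xx, div_mul_div_comm, div_nonpos_iff] at h
  have h3 : z.re * w.re ≤ 0 := by
    rcases h with h | h
    · nlinarith [mul_pos hz hw, h.2]
    · exact h.1
  rw [xx, abs_div, abs_of_pos hw, div_le_iff₀ hw, mul_comm]
  refine le_trans (sq_le_sq.1 ?_) (h2.trans h1)
  nlinarith [sq_nonneg z.re]

lemma sq_le_cosh (x : ℝ) : x ^ 2 ≤ 2 * cosh x - 2 := by
  have h1 : cosh x = 2 * sinh (x / 2) ^ 2 + 1 := by
    conv_lhs => rw [show x = 2 * (x / 2) by ring, cosh_two_mul, cosh_sq]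
    ring
  have h2 : |x / 2| ≤ |sinh (x / 2)| := by
    rw [abs_sinh]
    exact self_le_sinh_iff.2 (abs_nonneg _)
  have := sq_le_sq.2 h2
  linarith

lemma cosh_le_sq {x δ : ℝ} (h0 : 0 ≤ x) (h : x ≤ δ) (h1 : δ ≤ 1) : 2 * cosh x - 2 ≤ 2 * δ ^ 2 := by
  have h2 := cosh_le_exp_half_sq x
  have h3 : |x ^ 2 / 2| ≤ 1 := by
    rw [abs_of_nonneg (by positivity)]
    nlinarith
  have h4 := (abs_le.1 (abs_exp_sub_one_le h3)).2
  rw [abs_of_nonneg (by positivity)] at h4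
  nlinarith

lemma eq_up {z : ℍ} {a b τ : ℝ} (hab : a ≠ b) (h1 : dist (up a) z = |τ - a|)
    (h2 : dist (up b) z = |τ - b|) : z = up τ := by
  have key : ∀ a, dist (up a) z = |τ - a| →
      exp τ * (z.re ^ 2 + exp a ^ 2 + z.im ^ 2) = z.im * (exp τ ^ 2 + exp a ^ 2) := by
    intro a h
    have h3 := cosh_dist' (up a) z
    rw [h, cosh_abs, cosh_eq, neg_sub, exp_sub, exp_sub] at h3
    simp only [up_re, up_im, zero_sub, neg_sq] at h3
    have := z.im_pos
    have := exp_pos a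
    have := exp_pos τ
    field_simp at h3
    linarith
  have h3 := key a h1
  have h4 := key b h2
  have h5 : exp a ^ 2 - exp b ^ 2 ≠ 0 := fun h => hab (exp_injective
    ((pow_left_inj₀ (exp_pos a).le (exp_pos b).le two_ne_zero).1 (sub_eq_zero.1 h)))
  have h6 : z.im = exp τ := mul_left_cancel₀ h5 (by linear_combination h4 - h3)
  rw [h6] at h3
  have h7 : z.re ^ 2 = 0 := mul_left_cancel₀ (exp_pos τ).ne' (by linear_combination h3)
  exact ext_re_im (by simpa using h7) h6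

lemma exists_frame (z w : ℍ) : ∃ g, geo g 0 = z ∧ geo g (dist z w) = w := by
  obtain ⟨h, rfl⟩ := MulAction.exists_smul_eq G I z
  obtain ⟨w, rfl⟩ := MulAction.surjective h w
  rw [dist_smul]
  suffices H : ∃ k, geo k 0 = I ∧ geo k (dist I w) = w by
    obtain ⟨k, h1, h2⟩ := H
    exact ⟨h * k, by rw [geo_mul, h1], by rw [geo_mul, h2]⟩
  set D := dist I w with hD
  rcases (dist_nonneg : 0 ≤ D).eq_or_lt with h0 | h0
  · refine ⟨1, by simp [geo_zero], ?_⟩
    rw [hD, ← h0, geo_zero, one_smul]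
    exact dist_eq_zero.1 h0.symm
  have hy : 1 < exp D := one_lt_exp_iff.2 h0
  have hw := w.im_pos
  have h1 : w.im ≤ exp D := by simpa [dist_comm w] using im_le_im_mul_exp_dist w I
  have h2 : 1 ≤ w.im * exp D := by simpa using im_le_im_mul_exp_dist I w
  have h3 : 0 < exp D ^ 2 - 1 := by nlinarith
  set β2 := (exp D / w.im - 1) / (exp D ^ 2 - 1) with hβ
  have h4 : 0 ≤ β2 := div_nonneg (sub_nonneg.2 ((one_le_div hw).2 h1)) h3.le
  have h5 : β2 ≤ 1 := by
    rw [hβ, div_le_one h3, sub_le_sub_iff_right, div_le_iff₀ hw]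
    nlinarith
  have key : ∀ β : ℝ, β ^ 2 = β2 → ∃ k, geo k 0 = I ∧ (geo k D).im = w.im ∧
      (geo k D).re = √(1 - β2) * β * (1 - exp D ^ 2) / (exp D / w.im) := by
    intro β hb
    have h6 : √(1 - β2) ^ 2 = 1 - β2 := sq_sqrt (by linarith)
    have h7 : √(1 - β2) ^ 2 + (-β * exp D) ^ 2 = exp D / w.im := by
      rw [h6, mul_pow, neg_sq, hb, hβ]
      field_simp
      ring
    refine ⟨mk4 √(1 - β2) β (-β) √(1 - β2) (by linear_combination h6 + hb), ?_, ?_, ?_⟩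
    · refine ext_re_im ?_ ?_
      · simp [geo_def, smul_re]
        ring_nf
        simp
      · simp only [geo_def, smul_im, up_re, up_im, mk4_10, mk4_11, exp_zero, I_im]
        rw [mul_zero, zero_add, mul_one, h6, neg_sq, hb]
        simp
    · simp only [geo_def, smul_im, up_re, up_im, mk4_10, mk4_11]
      rw [mul_zero, zero_add, h7]
      field_simp
    · simp only [geo_def, smul_re, up_re, up_im, mk4_10, mk4_11, mk4_00, mk4_01]
      simp only [mul_zero, zero_add, h7]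
      ring
  obtain ⟨k, k1, k2, k3⟩ := key √β2 (sq_sqrt h4)
  obtain ⟨k', k1', k2', k3'⟩ := key (-√β2) (by rw [neg_sq, sq_sqrt h4])
  have h6 : (geo k D).re ^ 2 = w.re ^ 2 := by
    have h6 := cosh_dist' I (geo k D)
    have h7 := cosh_dist' I w
    rw [← k1, dist_geo, k1, zero_sub, abs_neg, abs_of_pos h0, k2, hD, h7,
      div_left_inj' (by simpa using hw.ne')] at h6
    simp only [I_re, zero_sub, neg_sq] at h6
    linarith
  rcases sq_eq_sq_iff_eq_or_eq_neg.1 h6 with h7 | h7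
  · exact ⟨k, k1, ext_re_im h7 k2⟩
  · refine ⟨k', k1', ext_re_im ?_ k2'⟩
    rw [k3', ← neg_neg w.re, ← h7, k3]
    ring

lemma line_eq {ξ : ℝ → ℍ} (h : ∀ s t, dist (ξ s) (ξ t) = |s - t|) : ∃ g, ∀ t, ξ t = geo g t := by
  obtain ⟨g, h1, h2⟩ := exists_frame (ξ 0) (ξ 1)
  rw [h, zero_sub, abs_neg, abs_one] at h2
  refine ⟨g, fun t => ?_⟩
  rw [geo_def, ← inv_smul_eq_iff]
  refine eq_up zero_ne_one ?_ ?_
  · rw [← dist_smul g, smul_inv_smul, ← geo_def, h1, h, abs_sub_comm]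
  · rw [← dist_smul g, smul_inv_smul, ← geo_def, h2, h, abs_sub_comm]

end Pool.Agent.Lib.MP_5bb885_an
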