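import Pool.Agent.Lib.MP_5bb885_an.H9Cyc

/-!
For almost every cohomology class the closed chains have proportional classes.
-/

namespace Pool.Agent.Lib.MP_5bb885_an

open UpperHalfPlane Real Filter Topology MeasureTheory

variable {Γ : Subgroup G} {c : Γ → ℝ}

lemma Fu.gen (F : Fu Γ) : ∃ S : Finset Γ, ∀ γ : Γ, ∃ l : List Γ, (∀ x ∈ l, x ∈ S) ∧ l.prod = γ ∧
    l.length ≤ dist I ((γ : G) • I) + 2 := by
  obtain ⟨R, hR⟩ := F.cpt
  have h0 : 0 ≤ R := dist_nonneg.trans (hR I).choose_spec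
  refine ⟨(F.fin (2 * R + 1)).toFinset, fun γ => ?_⟩
  have key : ∀ (n : ℕ) (z : ℍ) (γ : Γ), dist I z ≤ n → dist ((γ : G) • I) z ≤ R →
      ∃ l : List Γ, (∀ x ∈ l, x ∈ (F.fin (2 * R + 1)).toFinset) ∧ l.prod = γ ∧ l.length = n + 1 := by
    intro n
    induction n with
    | zero =>
      intro z γ h1 h2
      refine ⟨[γ], fun x hx => ?_, by simp, rfl⟩
      rw [List.mem_singleton.1 hx, Set.Finite.mem_toFinset, Set.mem_ofPred_eq]
      rw [← dist_le_zero.1 (h1.trans_eq Nat.cast_zero)] at h2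
      linarith
    | succ n ih =>
      intro z γ h1 h2
      obtain ⟨k, h3, h4⟩ := exists_frame I z
      obtain ⟨γ', h5⟩ := hR (geo k (min n (dist I z)))
      rw [← dist_smul (γ' : G)⁻¹, inv_smul_smul, dist_comm] at h5
      obtain ⟨l, h6, h7, h8⟩ := ih (geo k (min n (dist I z))) γ'⁻¹ (by
        nth_rewrite 1 [← h3]
        rw [dist_geo, zero_sub, abs_neg, abs_of_nonneg (by positivity)]
        exact min_le_left _ _) h5
      refine ⟨l ++ [γ' * γ], fun x hx => ?_, by simp [h7], by simp [h8]⟩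
      rcases List.mem_append.1 hx with hx | hx
      · exact h6 x hx
      have h9 : dist z (geo k (min n (dist I z))) ≤ 1 := by
        nth_rewrite 1 [← h4]
        rw [dist_geo, abs_of_nonneg (sub_nonneg.2 (min_le_right _ _)), sub_le_comm, le_min_iff]
        push_cast at h1
        constructor <;> linarith
      rw [List.mem_singleton.1 hx, Set.Finite.mem_toFinset, Set.mem_ofPred_eq,
        ← dist_smul (γ' : G)⁻¹, Subgroup.coe_mul, mul_smul, inv_smul_smul]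
      have := dist_triangle4 ((γ : G) • I) z (geo k (min n (dist I z))) ((γ' : G)⁻¹ • I)
      rw [dist_comm (geo _ _)] at this
      linarith
  obtain ⟨l, h1, h2, h3⟩ := key _ _ γ (Nat.le_ceil _) (by rwa [dist_self])
  refine ⟨l, h1, h2, ?_⟩
  rw [h3]
  push_cast
  linarith [Nat.ceil_lt_add_one (dist_nonneg : 0 ≤ dist I ((γ : G) • I))]

lemma coh_prod (hc : c ∈ Coh Γ) (l : List Γ) : c l.prod = (l.map c).sum := by
  induction l with
  | nil => simp [coh_one hc]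
  | cons x l ih => rw [List.prod_cons, hc, ih, List.map_cons, List.sum_cons]

lemma dist_pow_le (γ : G) (z : ℍ) (m : ℕ) : dist z (γ ^ m • z) ≤ m * dist z (γ • z) := by
  induction m with
  | zero => simp
  | succ m ih =>
    have := dist_triangle z (γ ^ m • z) (γ ^ (m + 1) • z)
    rw [pow_succ γ, mul_smul, dist_smul] at this
    rw [pow_succ γ, mul_smul]
    push_cast
    linarith

lemma Fu.lip (F : Fu Γ) (hc : c ∈ Coh Γ) :
    ∃ M, 0 ≤ M ∧ ∀ (γ : Γ) (z : ℍ), |c γ| ≤ M * dist z ((γ : G) • z) := by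
  obtain ⟨S, hS⟩ := F.gen
  have h0 : 0 ≤ ∑ x ∈ S, |c x| := by positivity
  refine ⟨_, h0, fun γ z => ?_⟩
  have h1 : ∀ l : List Γ, (∀ x ∈ l, x ∈ S) → |c l.prod| ≤ (∑ x ∈ S, |c x|) * l.length := by
    intro l hl
    induction l with
    | nil => simp [coh_one hc]
    | cons x l ih =>
      have h1 := ih fun y hy => hl y (List.mem_cons_of_mem _ hy)
      have h2 := Finset.single_le_sum (f := fun x => |c x|) (fun _ _ => abs_nonneg _)
        (hl x List.mem_cons_self)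
      rw [List.prod_cons, hc, List.length_cons]
      push_cast
      linarith [abs_add_le (c x) (c l.prod)]
  generalize ∑ x ∈ S, |c x| = M at *
  by_contra h2
  obtain ⟨m, hm⟩ := exists_nat_gt (M * (2 * dist I z + 2) / (|c γ| - M * dist z ((γ : G) • z)))
  rw [div_lt_iff₀ (by linarith)] at hm
  obtain ⟨l, h3, h4, h5⟩ := hS (γ ^ m)
  have h6 := (h1 l h3).trans (mul_le_mul_of_nonneg_left h5 h0)
  have h7 := dist_triangle4 I z ((γ : G) ^ m • z) ((γ : G) ^ m • I)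
  rw [h4, coh_pow hc, abs_mul, Nat.abs_cast, Subgroup.coe_pow] at h6
  rw [dist_smul, dist_comm z I] at h7
  nlinarith [mul_le_mul_of_nonneg_left (h7.trans (add_le_add_left
    (add_le_add_right (dist_pow_le (γ : G) z m) _) _)) h0]

lemma Fu.ints (F : Fu Γ) : ∃ (r : ℕ) (ψ : Γ → Fin r → ℤ), (∀ i, (fun γ => (ψ γ i : ℝ)) ∈ Coh Γ) ∧
    ∀ φ ∈ Coh Γ, ∃ a : Fin r → ℝ, ∀ γ, φ γ = ∑ i, a i * ψ γ i := by
  obtain ⟨S, hS⟩ := F.gen
  set ev : Γ → Coh Γ → ℝ := fun γ φ => φ.1 γ with hev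
  set N := Submodule.span ℤ (ev '' S) with hN
  have h1 : ∀ x y, ev (x * y) = ev x + ev y := fun x y => funext fun φ => φ.2 x y
  have h2 : ∀ γ, ev γ ∈ N := fun γ => by
    obtain ⟨l, h2, rfl, -⟩ := hS γ
    induction l with
    | nil =>
      rw [show ev [].prod = 0 from funext fun φ => coh_one φ.2]
      exact zero_mem _
    | cons x l ih =>
      rw [List.prod_cons, h1]
      exact add_mem (Submodule.subset_span ⟨x, h2 x List.mem_cons_self, rfl⟩)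
        (ih fun y hy => h2 y (List.mem_cons_of_mem _ hy))
  have : Module.Finite ℤ N := Module.Finite.span_of_finite ℤ (S.finite_toSet.image _)
  set b := Module.finBasis ℤ N
  refine ⟨_, fun γ => b.repr ⟨ev γ, h2 γ⟩, fun i x y => ?_, fun φ hφ => ⟨fun i => (b i).1 ⟨φ, hφ⟩,
    fun γ => ?_⟩⟩
  · simp only
    rw [show (⟨ev (x * y), h2 _⟩ : N) = ⟨ev x, h2 x⟩ + ⟨ev y, h2 y⟩ from Subtype.ext (h1 x y),
      map_add, Finsupp.add_apply, Int.cast_add]
  · have := congrArg (fun x : N => x.1 ⟨φ, hφ⟩) (b.sum_repr ⟨ev γ, h2 γ⟩)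
    simp only [Submodule.coe_sum, Finset.sum_apply, Submodule.coe_smul_of_tower, zsmul_eq_mul,
      Pi.mul_apply, Pi.intCast_apply] at this
    simpa only [mul_comm] using this.symm

lemma Fu.dim (F : Fu Γ) : ∃ b : ℕ, Nonempty ((Fin b → ℝ) ≃ₗ[ℝ] Coh Γ) := by
  obtain ⟨r, ψ, -, h⟩ := F.ints
  have : FiniteDimensional ℝ (Coh Γ) := by
    have := FiniteDimensional.span_of_finite ℝ (Set.finite_range fun i γ => (ψ γ i : ℝ))
    refine Submodule.finiteDimensional_of_le (S₂ := Submodule.span ℝ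
      (Set.range fun i γ => (ψ γ i : ℝ))) fun φ hφ => ?_
    obtain ⟨a, ha⟩ := h φ hφ
    exact (Submodule.mem_span_range_iff_exists_fun ℝ).2 ⟨a, funext fun γ => by simp [ha]⟩
  exact ⟨_, ⟨(Module.finBasis ℝ (Coh Γ)).equivFun.symm⟩⟩

/-- The norm of a class. -/
def IsLam (c : Γ → ℝ) (l : ℝ) : Prop := 0 < l ∧ (∀ (γ : Γ) (z : ℍ), c γ ≤ l * dist z ((γ : G) • z)) ∧
  ∀ θ, 0 < θ → ∃ (γ : Γ) (z : ℍ), (1 - θ) * l * dist z ((γ : G) • z) < c γ

lemma Fu.lam (F : Fu Γ) (hc : c ∈ Coh Γ) (h : c ≠ 0) : ∃ l, IsLam c l := by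
  obtain ⟨M, -, hM⟩ := F.lip hc
  set A := {l | ∀ (γ : Γ) (z : ℍ), c γ ≤ l * dist z ((γ : G) • z)} with hA
  have h1 : M ∈ A := fun γ z => (le_abs_self _).trans (hM γ z)
  obtain ⟨γ, h2⟩ : ∃ γ, 0 < c γ := by
    obtain ⟨γ, h2⟩ := Function.ne_iff.1 h
    rcases h2.lt_or_gt with h2 | h2
    · exact ⟨γ⁻¹, by rwa [coh_inv hc, neg_pos]⟩
    · exact ⟨γ, h2⟩
  have h3 : 0 < dist I ((γ : G) • I) := dist_nonneg.lt_of_ne fun e => by
    have := h1 γ I
    rw [← e] at this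
    linarith
  have h4 : c γ / dist I ((γ : G) • I) ∈ lowerBounds A := fun l hl => (div_le_iff₀ h3).2 (hl γ I)
  have h5 : IsClosed A := by
    simp only [hA, Set.ofPred_forall]
    exact isClosed_iInter fun _ => isClosed_iInter fun _ => isClosed_le continuous_const (by fun_prop)
  have h6 := (div_pos h2 h3).trans_le (le_csInf ⟨M, h1⟩ h4)
  refine ⟨sInf A, h6, h5.csInf_mem ⟨M, h1⟩ ⟨_, h4⟩, fun θ hθ => ?_⟩
  by_contra h7
  push Not at h7
  nlinarith [csInf_le ⟨_, h4⟩ (show (1 - θ) * sInf A ∈ A from h7), mul_pos hθ h6]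

lemma IsLam.le {l M : ℝ} (h : IsLam c l) (hM : ∀ (γ : Γ) (z : ℍ), c γ ≤ M * dist z ((γ : G) • z)) :
    l ≤ 2 * M := by
  obtain ⟨γ, z, h1⟩ := h.2.2 (1 / 2) one_half_pos
  linarith [lt_of_mul_lt_mul_right (h1.trans_le (hM γ z)) dist_nonneg]

lemma IsLam.norm {l : ℝ} (h : IsLam c l) (γ : Γ) (z : ℍ) : (l⁻¹ • c) γ ≤ dist z ((γ : G) • z) :=
  (inv_mul_le_iff₀ h.1).2 (h.2.1 γ z)

lemma slab {b : ℕ} (ℓ : (Fin b → ℝ) →ₗ[ℝ] ℝ) (x : Fin b → ℝ) {R B w μ : ℝ} (hw : 0 < w)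
    (hx : ‖x‖ ≤ B) (h : 1 ≤ μ * |ℓ x|) {N : ℕ} (hN : N * (3 * w * μ) ≤ 1) :
    N * volume {t | ‖t‖ ≤ R ∧ |ℓ t| ≤ w} ≤ volume (Metric.closedBall (0 : Fin b → ℝ) (R + B)) := by
  have h0 : 0 ≤ μ := nonneg_of_mul_nonneg_left (zero_le_one.trans h) (abs_pos.2 fun e => by
    rw [e, abs_zero, mul_zero] at h
    linarith)
  have h1 : MeasurableSet {t | ‖t‖ ≤ R ∧ |ℓ t| ≤ w} :=
    ((isClosed_le continuous_norm continuous_const).inter
      (isClosed_le ℓ.continuous_of_finiteDimensional.abs continuous_const)).measurableSet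
  have h2 := measure_biUnion_finset (μ := volume) (s := Finset.range N)
    (f := fun k : ℕ => (· + (k * (3 * w * μ)) • x) ⁻¹' {t | ‖t‖ ≤ R ∧ |ℓ t| ≤ w})
    (fun k _ j _ hkj => Set.disjoint_left.2 fun t h2 h3 => by
      have h4 := abs_sub (ℓ (t + (k * (3 * w * μ)) • x)) (ℓ (t + (j * (3 * w * μ)) • x))
      have h5 : (1 : ℝ) ≤ |(k : ℝ) - j| := by
        have := Int.one_le_abs (sub_ne_zero.2 (Int.natCast_inj.ne.2 hkj))
        exact_mod_cast this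
      have h6 : |ℓ (t + (k * (3 * w * μ)) • x) - ℓ (t + (j * (3 * w * μ)) • x)| =
          3 * w * (|(k : ℝ) - j| * (μ * |ℓ x|)) := by
        rw [show ℓ (t + (k * (3 * w * μ)) • x) - ℓ (t + (j * (3 * w * μ)) • x) =
          3 * w * ((k - j) * (μ * ℓ x)) by simp; ring, abs_mul, abs_mul ((k : ℝ) - j), abs_mul μ,
          abs_of_nonneg h0, abs_of_pos (by positivity)]
      nlinarith [h2.2, h3.2, mul_le_mul_of_nonneg_left (one_le_mul_of_one_le_of_one_le h5 h) hw.le])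
    fun k _ => measurable_add_const _ h1
  simp only [measure_preimage_add_right, Finset.sum_const, Finset.card_range, nsmul_eq_mul] at h2
  rw [← h2]
  refine measure_mono (Set.iUnion₂_subset fun k hk t ht => mem_closedBall_zero_iff.2 ?_)
  have h3 := norm_sub_le (t + (k * (3 * w * μ)) • x) ((k * (3 * w * μ)) • x)
  rw [add_sub_cancel_right, norm_smul, Real.norm_of_nonneg (by positivity)] at h3
  have h4 : (k : ℝ) ≤ N := by exact_mod_cast (Finset.mem_range.1 hk).le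
  have h5 : k * (3 * w * μ) ≤ 1 := (mul_le_mul_of_nonneg_right h4 (by positivity)).trans hN
  nlinarith [ht.1, mul_le_mul_of_nonneg_right h5 (norm_nonneg x)]

/-- Good classes. -/
def Good (c : Γ → ℝ) : Prop := ∃ l u δ, IsLam c l ∧ Pot Γ (l⁻¹ • c) u ∧ 0 < δ ∧ Rat Γ (Lam u) δ

theorem Fu.ae_good (F : Fu Γ) {b : ℕ} (e : (Fin b → ℝ) ≃ₗ[ℝ] Coh Γ) :
    ∀ᵐ t, t ≠ 0 → Good (e t : Γ → ℝ) := by
  classical
  obtain ⟨r, ψ, hψ, hψ'⟩ := F.ints
  obtain ⟨C, hC⟩ := F.cyc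
  choose M hM hM' using fun φ : Coh Γ => F.lip φ.2
  obtain ⟨A, hA⟩ := exists_nat_ge (∑ i, M ⟨_, hψ i⟩)
  set ev : Γ → (Fin b → ℝ) →ₗ[ℝ] ℝ := fun γ =>
    (LinearMap.proj γ).comp ((Coh Γ).subtype.comp e.toLinearMap) with hev
  have e1 : ∀ γ t, ev γ t = (e t : Γ → ℝ) γ := fun _ _ => rfl
  have e2 : ∀ γ, ∀ φ ∈ Coh Γ, φ (Function.invFun ψ (ψ γ)) = φ γ := fun γ φ hφ => by
    obtain ⟨a, ha⟩ := hψ' φ hφ
    rw [ha, ha, Function.invFun_eq (f := ψ) ⟨γ, rfl⟩]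
  set s : (Fin r → ℤ) → ℝ := fun v => sInf {d | ∃ (γ : Γ) (z : ℍ), ψ γ = v ∧ d = dist z ((γ : G) • z)}
    with hs
  set ℓ : (Fin r → ℤ) × (Fin r → ℤ) → (Fin b → ℝ) →ₗ[ℝ] ℝ := fun p =>
    s p.2 • ev (Function.invFun ψ p.1) - s p.1 • ev (Function.invFun ψ p.2) with hℓ
  set x : Fin r → Fin b → ℝ := fun i => e.symm ⟨_, hψ i⟩ with hx
  suffices H : ∀ R : ℕ, volume {t | ‖t‖ ≤ R ∧ t ≠ 0 ∧ ¬Good (e t : Γ → ℝ)} = 0 by
    refine measure_mono_null (fun t ht => ?_) (measure_iUnion_null H)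
    obtain ⟨R, hR⟩ := exists_nat_ge ‖t‖
    exact Set.mem_iUnion.2 ⟨R, hR, by simpa using ht⟩
  intro R
  set M₀ := R * ∑ j, M (e fun j' => if j = j' then 1 else 0) with hM₀
  have e3 : 0 ≤ M₀ := mul_nonneg R.cast_nonneg (Finset.sum_nonneg fun _ _ => hM _)
  have e4 : ∀ t, ‖t‖ ≤ R → ∀ (γ : Γ) (z : ℍ), (e t : Γ → ℝ) γ ≤ M₀ * dist z ((γ : G) • z) := by
    intro t ht γ z
    rw [← e1, LinearMap.pi_apply_eq_sum_univ, hM₀, Finset.mul_sum, Finset.sum_mul]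
    refine Finset.sum_le_sum fun j _ => (le_abs_self _).trans ?_
    rw [smul_eq_mul, abs_mul, mul_assoc]
    exact mul_le_mul ((norm_le_pi_norm t j).trans ht) (hM' _ γ z) (abs_nonneg _) R.cast_nonneg
  suffices H : ∀ K : ℕ, K * volume {t | ‖t‖ ≤ R ∧ t ≠ 0 ∧ ¬Good (e t : Γ → ℝ)} ≤
      volume (Metric.closedBall (0 : Fin b → ℝ) (R + ∑ i, ‖x i‖)) by
    by_contra h
    obtain ⟨K, hK⟩ := ENNReal.exists_nat_mul_gt h (measure_closedBall_lt_top (μ := volume)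
      (x := (0 : Fin b → ℝ)) (r := R + ∑ i, ‖x i‖)).ne
    exact hK.not_ge (H K)
  intro K
  have h1 := (Polynomial.tendsto_div_exp_atTop (Polynomial.C (K : ℝ) *
    ((2 * (Polynomial.C (A * 3 * C : ℝ) * (.X + 1) ^ 2) + 1) ^ r) ^ 2 * (3 *
      (Polynomial.C (7200 * M₀ * C ^ 2) * (.X + 1) ^ 4 + 1) *
        (8 * (Polynomial.C (A * 3 * C : ℝ) * (.X + 1) ^ 2))))).comp tendsto_natCast_atTop_atTop
  obtain ⟨n, ⟨h2, h3⟩, h4⟩ := (((h1.eventually_le_const one_pos).and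
    ((tendsto_exp_neg_atTop_nhds_zero.comp tendsto_natCast_atTop_atTop).eventually_le_const
      (show (0 : ℝ) < 1 / 2400 by norm_num))).and (eventually_ge_atTop 4)).exists
  set m := A * 3 * C * (n + 1) ^ 2 with hm
  set w := (7200 * M₀ * C ^ 2 * (n + 1) ^ 4 + 1) * exp (-n) with hw
  set Bx := Fintype.piFinset fun _ : Fin r => Finset.Icc (-m : ℤ) m with hBx
  have h5 : (Bx ×ˢ Bx).card = ((2 * m + 1) ^ r) ^ 2 := by
    simp only [hBx, Finset.card_product, Fintype.card_piFinset, Int.card_Icc, Finset.prod_const,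
      Finset.card_univ, Fintype.card_fin, pow_two]
    rw [show ((m : ℤ) + 1 - -m).toNat = 2 * m + 1 by omega]
  have h6 : ((K * (Bx ×ˢ Bx).card : ℕ) : ℝ) * (3 * w * (8 * m)) ≤ 1 := by
    refine le_of_eq_of_le ?_ h2
    simp only [h5, hw, hm, Function.comp, Polynomial.eval_mul, Polynomial.eval_C, Polynomial.eval_pow,
      Polynomial.eval_add, Polynomial.eval_X, Polynomial.eval_one, Polynomial.eval_ofNat, exp_neg]
    push_cast
    ring
  have h7 : {t | ‖t‖ ≤ R ∧ t ≠ 0 ∧ ¬Good (e t : Γ → ℝ)} ⊆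
      ⋃ p ∈ (Bx ×ˢ Bx).filter fun p => ∃ i, 1 ≤ 8 * m * |ℓ p (x i)|, {t | ‖t‖ ≤ R ∧ |ℓ p t| ≤ w} := by
    rintro t ⟨k1, k2, k3⟩
    obtain ⟨l, k4⟩ := F.lam (e t).2 fun h => k2 (e.map_eq_zero_iff.1 (Subtype.ext h))
    have k5 := (Coh Γ).smul_mem l⁻¹ (e t).2
    obtain ⟨u, P⟩ := exists_pot k5 k4.norm
    obtain ⟨η, η', k6, k7, φ, k8, k9, k10⟩ := hC _ k5 u P n h4 h3
      fun h => k3 ⟨l, u, _, k4, P, exp_pos _, h⟩
    set c := l⁻¹ • (e t : Γ → ℝ) with hc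
    set L : ℝ := 3 * (C * (n + 1) ^ 2) with hL
    set ρ : ℝ := C * (n + 1) ^ 2 * (1200 * exp (-n)) with hρ
    have key : ∀ η, Sh c L ρ η → (∀ i, |ψ η i| ≤ m) ∧ 1 / 4 ≤ c η ∧ c η ≤ s (ψ η) ∧
        s (ψ η) ≤ c η + ρ ∧ s (ψ η) ≤ L := by
      rintro η ⟨z, a1, a2, a3⟩
      have a4 : c η ∈ lowerBounds {d | ∃ (γ : Γ) (z : ℍ), ψ γ = ψ η ∧ d = dist z ((γ : G) • z)} := by
        rintro _ ⟨γ, z, a4, rfl⟩
        rw [← e2 η c k5, ← a4, e2 γ c k5]
        exact k4.norm γ z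
      have a5 : s (ψ η) ≤ _ := csInf_le ⟨_, a4⟩ ⟨η, z, rfl, rfl⟩
      refine ⟨fun i => ?_, a3, le_csInf ⟨_, η, z, rfl, rfl⟩ a4, a5.trans a1, a5.trans a2⟩
      have a6 := (hM' ⟨_, hψ i⟩ η z).trans (mul_le_mul ((Finset.single_le_sum
        (fun i _ => hM ⟨_, hψ i⟩) (Finset.mem_univ i)).trans hA) a2 dist_nonneg A.cast_nonneg)
      rw [hL, ← mul_assoc, ← mul_assoc] at a6
      rw [hm]
      dsimp only at a6
      exact_mod_cast a6
    obtain ⟨a1, a2, a3, a4, a5⟩ := key η k6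
    obtain ⟨b1, b2, b3, b4, b5⟩ := key η' k7
    have k11 : ∀ t, ℓ (ψ η, ψ η') t = s (ψ η') * (e t : Γ → ℝ) η - s (ψ η) * (e t : Γ → ℝ) η' := by
      intro t
      simp only [hℓ, LinearMap.sub_apply, LinearMap.smul_apply, e1, e2 _ _ (e t).2, smul_eq_mul]
    refine Set.mem_iUnion₂.2 ⟨(ψ η, ψ η'), Finset.mem_filter.2 ⟨Finset.mem_product.2
      ⟨Fintype.mem_piFinset.2 fun i => Finset.mem_Icc.2 (abs_le.1 (a1 i)),
        Fintype.mem_piFinset.2 fun i => Finset.mem_Icc.2 (abs_le.1 (b1 i))⟩, ?_⟩, k1, ?_⟩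
    · simp only [k11, hx, LinearEquiv.apply_symm_apply]
      obtain ⟨i, j, k12⟩ : ∃ i j, ψ η i * ψ η' j - ψ η j * ψ η' i ≠ 0 := by
        by_contra k12
        push Not at k12
        obtain ⟨a, ha⟩ := hψ' φ k8
        obtain ⟨a', ha'⟩ := hψ' c k5
        have : φ η * c η' = φ η' * c η := by
          rw [ha, ha, ha', ha', Finset.sum_mul_sum, Finset.sum_mul_sum]
          refine Finset.sum_congr rfl fun i _ => Finset.sum_congr rfl fun j _ => ?_
          have : (ψ η i : ℝ) * ψ η' j - ψ η j * ψ η' i = 0 := by exact_mod_cast k12 i j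
          linear_combination a i * a' j * this
        rw [k9, zero_mul] at this
        exact mul_ne_zero k10 (by linarith) this.symm
      have k13 : (1 : ℝ) ≤ |(ψ η i : ℝ) * ψ η' j - ψ η j * ψ η' i| := by
        exact_mod_cast Int.one_le_abs k12
      have k14 : ∀ i, |(ψ η' i : ℝ)| ≤ m := fun i => by exact_mod_cast b1 i
      by_contra k15
      push Not at k15
      have k16 := abs_sub ((s (ψ η') * ψ η i - s (ψ η) * ψ η' i) * ψ η' j)
        ((s (ψ η') * ψ η j - s (ψ η) * ψ η' j) * ψ η' i)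
      rw [show (s (ψ η') * ψ η i - s (ψ η) * ψ η' i) * ψ η' j -
        (s (ψ η') * ψ η j - s (ψ η) * ψ η' j) * ψ η' i =
          s (ψ η') * (ψ η i * ψ η' j - ψ η j * ψ η' i) by ring, abs_mul, abs_mul, abs_mul,
        abs_of_nonneg (by linarith)] at k16
      nlinarith [k15 i, k15 j, mul_le_mul_of_nonneg_left (k14 j)
        (abs_nonneg (s (ψ η') * ψ η i - s (ψ η) * ψ η' i)), mul_le_mul_of_nonneg_left (k14 i)
        (abs_nonneg (s (ψ η') * ψ η j - s (ψ η) * ψ η' j)),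
        mul_le_mul_of_nonneg_left k13 (show 0 ≤ s (ψ η') by linarith)]
    · have k12 : ∀ γ, (e t : Γ → ℝ) γ = l * c γ := fun γ => (mul_inv_cancel_left₀ k4.1.ne' _).symm
      have k13 : |s (ψ η') * c η - s (ψ η) * c η'| ≤ L * ρ := by
        have c1 := mul_le_mul b5 (sub_le_iff_le_add'.2 a4) (sub_nonneg.2 a3) (by positivity)
        have c2 := mul_le_mul a5 (sub_le_iff_le_add'.2 b4) (sub_nonneg.2 b3) (by positivity)
        have c3 := mul_nonneg (show 0 ≤ s (ψ η') by linarith) (sub_nonneg.2 a3)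
        have c4 := mul_nonneg (show 0 ≤ s (ψ η) by linarith) (sub_nonneg.2 b3)
        exact abs_le.2 ⟨by linarith, by linarith⟩
      rw [k11, k12, k12, mul_left_comm, mul_left_comm _ l, ← mul_sub, abs_mul, abs_of_pos k4.1]
      refine (mul_le_mul (k4.le (e4 t k1)) k13 (abs_nonneg _) (by positivity)).trans ?_
      rw [hw, hL, hρ]
      linarith [exp_pos (-n : ℝ)]
  have h8 : ((Bx ×ˢ Bx).card : ENNReal) ≠ 0 := by
    rw [h5]
    positivity
  rw [← ENNReal.mul_le_mul_iff_right h8 (ENNReal.natCast_ne_top _), ← mul_assoc]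
  refine (mul_le_mul_right ((measure_mono h7).trans (measure_biUnion_finset_le _ _)) _).trans ?_
  rw [Finset.mul_sum, ← nsmul_eq_mul _ (volume _)]
  refine (Finset.sum_le_card_nsmul _ _ _ fun p hp => ?_).trans
    (nsmul_le_nsmul_left zero_le (Finset.card_filter_le _ _))
  obtain ⟨i, hi⟩ := (Finset.mem_filter.1 hp).2
  have := slab (ℓ p) (x i) (R := R) (by positivity) (Finset.single_le_sum
    (fun i _ => norm_nonneg (x i)) (Finset.mem_univ i)) hi h6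
  rwa [Nat.cast_mul, mul_comm (K : ENNReal)] at this

end Pool.Agent.Lib.MP_5bb885_an
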