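import Pool.Agent.Lib.MP_5bb885_an.H9Ch
import Pool.Agent.Lib.MP_5bb885_an.H9Cnt

/-!
If all closed chains have proportional classes, the chain recurrent set is a finite union of closed
leaves.
-/

namespace Pool.Agent.Lib.MP_5bb885_an

open UpperHalfPlane Real Filter Topology

variable {Γ : Subgroup G} {Λ : Set G} {f g g' : G} {β : Γ} {ε δ : ℝ}

lemma continuous_mk4 {X : Type} [TopologicalSpace X] {a b c d : X → ℝ} (ha : Continuous a)
    (hb : Continuous b) (hc : Continuous c) (hd : Continuous d) (h : ∀ x, a x * d x - b x * c x = 1) :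
    Continuous fun x => mk4 (a x) (b x) (c x) (d x) (h x) := by
  refine Continuous.subtype_mk (continuous_matrix fun i j => ?_) _
  fin_cases i <;> fin_cases j <;> assumption

lemma continuous_XX (f : G) : Continuous (XX f) :=
  (continuous_re.div continuous_im fun z => z.im_ne_zero).comp (continuous_const_smul f⁻¹)

lemma isCompact_frames (R : ℝ) : IsCompact {g : G | dist (geo g 0) I ≤ R} := by
  simp only [geo_zero]
  exact isProperMap_smul_I.isCompact_preimage (isCompact_closedBall I R)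

/-- Recurrent frames. -/
def Rec (Γ : Subgroup G) (g : G) : Prop :=
  ∀ ε, 0 < ε → ∀ T₀, ∃ T, T₀ ≤ T ∧ ∃ γ : Γ, dist (geo g T) ((γ : G) • geo g 0) ≤ ε

/-- The closure of a forward orbit. -/
def Orb (Γ : Subgroup G) (g : G) (T : ℝ) : Set G :=
  closure {x | ∃ γ : Γ, ∃ t, T ≤ t ∧ x = γ * g * aa t}

lemma exists_rec (F : Fu Γ) (g : G) : ∃ g₁ ∈ Orb Γ g 0, Rec Γ g₁ := by
  obtain ⟨R, hR⟩ := F.cpt
  set S : Set (Set G) := {K | K.Nonempty ∧ IsClosed K ∧ (∀ γ : Γ, ∀ x ∈ K, (γ : G) * x ∈ K) ∧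
    ∀ t, 0 ≤ t → ∀ x ∈ K, x * aa t ∈ K} with hS
  have h1 : ∀ g T, Orb Γ g T ∈ S := fun g T =>
    ⟨⟨_, subset_closure ⟨1, T, le_rfl, rfl⟩⟩, isClosed_closure,
      fun γ x hx => map_mem_closure (continuous_const_mul (γ : G)) hx (by
        rintro _ ⟨γ', t, ht, rfl⟩
        exact ⟨γ * γ', t, ht, by push_cast; group⟩),
      fun t ht x hx => map_mem_closure (f := (· * aa t)) (continuous_mul_const (aa t)) hx (by
        rintro _ ⟨γ', t', ht', rfl⟩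
        exact ⟨γ', t' + t, by linarith, by rw [← aa_add]; group⟩)⟩
  obtain ⟨K, h2, h3⟩ := zorn_superset_nonempty S (fun c hc hch hne => by
    have := hne.to_subtype
    obtain ⟨x, hx⟩ := IsCompact.nonempty_iInter_of_directed_nonempty_isCompact_isClosed
      (fun K : c => {g : G | dist (geo g 0) I ≤ R} ∩ K)
      (fun K K' => by
        rcases hch.total K.2 K'.2 with h | h
        · exact ⟨K, le_rfl, Set.inter_subset_inter_right _ h⟩
        · exact ⟨K', Set.inter_subset_inter_right _ h, le_rfl⟩)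
      (fun K => by
        obtain ⟨⟨x, hx⟩, -, h, -⟩ := hc K.2
        obtain ⟨γ, hγ⟩ := hR (geo x 0)
        exact ⟨γ * x, by rwa [Set.mem_ofPred_eq, geo_mul], h γ x hx⟩)
      (fun K => (isCompact_frames R).inter_right (hc K.2).2.1)
      (fun K => (isCompact_frames R).isClosed.inter (hc K.2).2.1)
    exact ⟨⋂₀ c, ⟨⟨x, fun K hK => (Set.mem_iInter.1 hx ⟨K, hK⟩).2⟩,
      isClosed_sInter fun K hK => (hc hK).2.1, fun γ x hx K hK => (hc hK).2.2.1 γ x (hx K hK),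
      fun t ht x hx K hK => (hc hK).2.2.2 t ht x (hx K hK)⟩, fun K hK => Set.sInter_subset_of_mem hK⟩)
    _ (h1 g 0)
  obtain ⟨⟨x, hx⟩, h4, h5, h6⟩ := h3.prop
  refine ⟨x, h2 hx, fun ε hε T₀ => ?_⟩
  have h7 : x ∈ Orb Γ x (max T₀ 0) := h3.le_of_le (h1 x _) (closure_minimal (by
    rintro _ ⟨γ, t, ht, rfl⟩
    exact h6 t ((le_max_right _ _).trans ht) _ (h5 γ x hx)) h4) hx
  obtain ⟨_, h8, γ, t, ht, rfl⟩ := mem_closure_iff_nhds.1 h7 _
    ((continuous_geo 0).continuousAt (Metric.closedBall_mem_nhds _ hε))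
  refine ⟨t, (le_max_left _ _).trans ht, γ⁻¹, ?_⟩
  rw [← dist_smul (γ : G), Subgroup.coe_inv, smul_inv_smul, ← geo_mul, ← geo_aa0]
  exact h8

lemma La.orb (L : La Γ Λ) (hg : g ∈ Λ) (T : ℝ) : Orb Γ g T ⊆ Λ :=
  closure_minimal (by rintro _ ⟨γ, t, -, rfl⟩; exact L.flow _ (L.mul γ g hg) t) L.closed

lemma Rec.shift (h : Rec Γ g) (L : La Γ Λ) (hg : g ∈ Λ) (hε : 0 < ε) (s T₀ : ℝ) :
    ∃ T, T₀ ≤ T ∧ ∃ γ : Γ, dist (geo g (s + T)) ((γ : G) • geo g s) ≤ ε := by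
  obtain ⟨T, h1, γ, h2⟩ := h (min (1 / 2) (ε / (2 * exp |s|))) (by positivity) T₀
  refine ⟨T, h1, γ, ?_⟩
  rw [← geo_mul, ← geo_aa0] at h2
  have := L.flow_close (L.flow g hg T) (L.mul γ g hg) h2 (min_le_left _ _) s
  rw [geo_aa, geo_mul] at this
  exact this.trans ((le_div_iff₀' (by positivity)).1 (min_le_right _ _))

lemma Rec.cr (h : Rec Γ g) (L : La Γ Λ) (hg : g ∈ Λ) : CR Γ Λ g := fun ε hε s t _ => by
  obtain ⟨T, h1, γ, h2⟩ := h.shift L hg hε s (t - s + 1)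
  refine ⟨γ, Ch.orbit L (L.flow g hg t) (L.flow _ (L.mul γ g hg) s) (T := s + T - t)
    (by linarith) ?_⟩
  rwa [geo_aa, geo_aa0, geo_mul, sub_add_cancel]

lemma exists_axis (M : G) (h1 : M 1 1 ^ 2 < 1) (h2 : 4 < (M 0 0 + M 1 1) ^ 2)
    (h3 : 0 ≤ M 0 1 * M 1 0) : ∃ m : G, IsDg (m * M * m⁻¹) ∧ 1 < (m * M * m⁻¹) 0 0 ^ 2 ∧
      (Cr m ∨ m 0 1 = 0 ∨ m 1 0 = 0) := by
  have h0 := det_eq M
  obtain ⟨l, h4, h5⟩ : ∃ l : ℝ, 1 < l ^ 2 ∧ l * (M 0 0 + M 1 1 - l) = 1 := by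
    generalize M 0 0 + M 1 1 = τ at h2
    have h4 := sq_sqrt (show 0 ≤ τ ^ 2 - 4 by linarith)
    have h5 := sqrt_nonneg (τ ^ 2 - 4)
    rcases le_total 0 τ with h | h
    · exact ⟨(τ + √(τ ^ 2 - 4)) / 2, by nlinarith [mul_nonneg h h5], by linarith⟩
    · exact ⟨(τ - √(τ ^ 2 - 4)) / 2, by nlinarith [mul_nonneg (neg_nonneg.2 h) h5], by linarith⟩
  have h6 : l - M 1 1 ≠ 0 := fun h => by
    rw [sub_eq_zero.1 h] at h4
    linarith
  have h7 : 0 < (l - M 1 1) ^ 2 + M 0 1 * M 1 0 := by positivity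
  obtain ⟨s, h8⟩ : ∃ s : ℝ, s ^ 2 * ((l - M 1 1) ^ 2 + M 0 1 * M 1 0) = 1 :=
    ⟨(√((l - M 1 1) ^ 2 + M 0 1 * M 1 0))⁻¹, by rw [inv_pow, sq_sqrt h7.le, inv_mul_cancel₀ h7.ne']⟩
  set m := mk4 (s * (l - M 1 1)) (s * M 0 1) (-(s * M 1 0)) (s * (l - M 1 1))
    (by linear_combination h8) with hm
  have h9 : m * M * m⁻¹ = mk4 l 0 0 (M 0 0 + M 1 1 - l) (by linarith) := by
    rw [mul_inv_eq_iff_eq_mul]
    refine ext4 ?_ ?_ ?_ ?_ <;> simp only [mul_ent, hm, mk4_00, mk4_01, mk4_10, mk4_11]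
    · linear_combination s * h5 - s * h0
    · ring
    · ring
    · linear_combination s * h0 - s * h5
  refine ⟨m, h9 ▸ ⟨rfl, rfl⟩, h9 ▸ h4, ?_⟩
  have h10 : s ≠ 0 := fun h => by simp [h] at h8
  rcases h3.eq_or_lt with h | h
  · exact Or.inr ((mul_eq_zero.1 h.symm).imp (fun h => by simp [hm, h]) fun h => by simp [hm, h])
  · refine Or.inl ?_
    simp only [Cr, hm, mk4_00, mk4_01, mk4_10, mk4_11]
    have : 0 < s ^ 4 * (l - M 1 1) ^ 2 * (M 0 1 * M 1 0) := by positivity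
    linarith

lemma Per.mul_dg {f β D : G} (h : Per f β) (hD : IsDg D) : Per (f * D) β := by
  have h1 := (hD.inv.1.mul h.1).1.mul hD
  rw [Per, show (f * D)⁻¹ * β * (f * D) = D⁻¹ * (f⁻¹ * β * f) * D by group, h1.2,
    (hD.inv.1.mul h.1).2, hD.inv.2, mul_right_comm, inv_mul_cancel₀ hD.ne, one_mul]
  exact ⟨h1.1, h.2⟩

lemma La.lim (L : La Γ Λ) (hg : g ∈ Λ) (hP : Per f β)
    (h : (f⁻¹ * g) 0 1 = 0 ∨ (f⁻¹ * g) 1 0 = 0) : ∃ D, IsDg D ∧ f * D ∈ Λ := by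
  set l := (f⁻¹ * β * f) 0 0 with hl
  have h0 : 0 < l ^ 2 := by linarith [hP.2]
  have h1 : ∀ k : ℤ, f * ((aa (2 * k * log (l ^ 2)))⁻¹ * (f⁻¹ * g) * aa (2 * k * log (l ^ 2))) ∈ Λ := by
    intro k
    obtain ⟨h1, h2⟩ := hP.1.zpow (2 * k)
    have h3 : ((f⁻¹ * β * f) ^ (2 * k)) 0 0 = aa (2 * k * log (l ^ 2)) 0 0 := by
      rw [h2, zpow_mul, ← hl, aa, mk4_00, show 2 * k * log (l ^ 2) / 2 = log (l ^ 2) * k by ring,
        exp_mul, exp_log h0, rpow_intCast]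
      rfl
    have h4 : (f⁻¹ * β * f) ^ (2 * k) = aa (2 * k * log (l ^ 2)) :=
      ext4 h3 h1.1 h1.2 (by rw [h1.eq_inv, (isDg_aa _).eq_inv, h3])
    convert L.flow _ (L.mul (β ^ (-(2 * k))) g hg) (2 * k * log (l ^ 2)) using 1
    nth_rewrite 1 [← h4]
    rw [← conj_pow, Subgroup.coe_zpow]
    group
  have h2 := det_eq (f⁻¹ * g)
  generalize f⁻¹ * g = m at *
  have h3 : m 0 1 * m 1 0 = 0 := mul_eq_zero.2 h
  set φ : ℝ → G := fun x => mk4 (m 0 0) (m 0 1 * x) (m 1 0 * x) (m 1 1)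
    (by linear_combination h2 + (1 - x ^ 2) * h3) with hφ
  have h4 : Continuous φ := continuous_mk4 continuous_const (by fun_prop) (by fun_prop)
    continuous_const _
  have h5 : Tendsto (fun n : ℕ => exp (-(2 * log (l ^ 2))) ^ n) atTop (𝓝 0) :=
    tendsto_pow_atTop_nhds_zero_of_lt_one (exp_pos _).le
      (exp_lt_one_iff.2 (by linarith [log_pos hP.2]))
  refine ⟨φ 0, ⟨mul_zero _, mul_zero _⟩, L.closed.mem_of_tendsto
    ((((continuous_const_mul f).comp h4).tendsto 0).comp h5) (Eventually.of_forall fun n => ?_)⟩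
  rcases h with h | h
  · convert h1 (-n) using 1
    obtain ⟨h6, h7, h8, h9⟩ := conj_ent m (2 * (-n : ℤ) * log (l ^ 2))
    refine congrArg (f * ·) (ext4 h6.symm ?_ ?_ h9.symm)
    · simp only [h7, hφ, mk4_01, h, zero_mul]
    · simp only [h8, hφ, mk4_10, ← exp_nat_mul]
      push_cast
      ring_nf
  · convert h1 n using 1
    obtain ⟨h6, h7, h8, h9⟩ := conj_ent m (2 * (n : ℤ) * log (l ^ 2))
    refine congrArg (f * ·) (ext4 h6.symm ?_ ?_ h9.symm)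
    · simp only [h7, hφ, mk4_01, ← exp_nat_mul]
      push_cast
      ring_nf
    · simp only [h8, hφ, mk4_10, h, zero_mul]

lemma cross_eq (m n : G) (h1 : m 1 0 ≠ 0) (h2 : m 1 1 ≠ 0) (h3 : n 1 0 ≠ 0) (h4 : n 1 1 ≠ 0) :
    (m⁻¹ * n) 0 0 * (m⁻¹ * n) 1 1 * ((m 0 0 / m 1 0 - m 0 1 / m 1 1) * (n 0 0 / n 1 0 - n 0 1 / n 1 1)) =
      (n 0 0 / n 1 0 - m 0 1 / m 1 1) * (m 0 0 / m 1 0 - n 0 1 / n 1 1) := by
  have h5 : m 0 0 / m 1 0 - m 0 1 / m 1 1 = 1 / (m 1 0 * m 1 1) := by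
    field_simp
    linear_combination det_eq m
  have h6 : n 0 0 / n 1 0 - n 0 1 / n 1 1 = 1 / (n 1 0 * n 1 1) := by
    field_simp
    linear_combination det_eq n
  simp only [h5, h6, mul_ent, inv_00, inv_01, inv_10, inv_11]
  field_simp
  ring

lemma IsDg.ends {D : G} (h : IsDg D) (m : G) :
    (D * m) 0 0 / (D * m) 1 0 = D 0 0 ^ 2 * (m 0 0 / m 1 0) ∧
      (D * m) 0 1 / (D * m) 1 1 = D 0 0 ^ 2 * (m 0 1 / m 1 1) ∧
      (m 1 0 ≠ 0 → (D * m) 1 0 ≠ 0) ∧ (m 1 1 ≠ 0 → (D * m) 1 1 ≠ 0) := by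
  have h0 := h.ne
  simp only [mul_ent, h.1, h.2, h.eq_inv, zero_mul, add_zero, zero_add]
  refine ⟨?_, ?_, fun h => by positivity, fun h => by positivity⟩ <;>
    rw [mul_div_mul_comm, div_inv_eq_mul, pow_two]

lemma wrong_one {P Q P' Q' x : ℝ} (hP : 0 < P) (hQ : 0 < Q) (hP' : 0 < P') (hQ' : 0 < Q')
    (h1 : 1 ≤ x ^ 2) (h2 : x * ((P + Q) * (P' + Q')) = -((Q - Q') * (P - P'))) :
    (P + Q) * (P' + Q') ≤ (Q - Q') * (P - P') := by
  have h3 : 0 < (P + Q) * (P' + Q') := by positivity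
  have h4 : x < 1 := lt_of_mul_lt_mul_right (by
    rw [h2]
    nlinarith [mul_pos hP hP', mul_pos hQ hQ', mul_pos hP hQ', mul_pos hQ hP', mul_pos hP hQ,
      mul_pos hP' hQ', le_abs_self (Q - Q'), mul_pos hQ' hP]) h3.le
  have h5 : x ≤ -1 := by nlinarith
  nlinarith [mul_le_mul_of_nonneg_right h5 h3.le]

lemma wrong_two {P Q P' Q' μ : ℝ} (hP : 0 < P) (hQ : 0 < Q) (hQ' : 0 < Q') (h0 : 1 < μ)
    (h1 : P ≤ P') (h2 : P' < μ * P) (h3 : (P + Q) * (P' + Q') ≤ (Q - Q') * (P - P'))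
    (h4 : (μ * P + μ * Q) * (P' + Q') ≤ (μ * Q - Q') * (μ * P - P'))
    (h5 : P * Q * (μ - 1) ^ 2 < μ * (P + Q) ^ 2) : False := by
  have hP' : 0 < P' := by linarith
  have h6 : 0 < (P + Q) * (P' + Q') := by positivity
  have h7 : 0 < (μ * P + μ * Q) * (P' + Q') := by positivity
  have h8 : Q ≤ Q' := by
    by_contra h
    nlinarith [mul_nonneg (sub_nonneg.2 h1) (sub_nonneg.2 (not_le.1 h).le)]
  have h9 : Q' ≤ μ * Q := by
    by_contra h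
    nlinarith [mul_pos (sub_pos.2 h2) (sub_pos.2 (not_le.1 h))]
  have h10 : (Q - Q') * (P - P') ≤ Q' * P' := by nlinarith [mul_pos hP hQ, mul_pos hP hQ']
  have h11 : (μ * Q - Q') * (μ * P - P') ≤ (μ * Q - Q) * (μ * P - P) :=
    mul_le_mul (by linarith) (by linarith) (by linarith) (by linarith)
  have h12 := mul_le_mul (h3.trans h10) (h4.trans h11) h7.le (by positivity)
  have h13 : Q' * P' ≤ (P' + Q') ^ 2 := by nlinarith [mul_pos hP' hQ']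
  nlinarith [mul_lt_mul_of_pos_right h5 (mul_pos hQ' hP'),
    mul_le_mul_of_nonneg_left h13 (show 0 ≤ μ * (P + Q) ^ 2 by positivity)]

/-- All leaves cross the axis of a close return in the same direction. -/
lemma La.nowrong (L : La Γ Λ) (hg : g ∈ Λ) (hP : Per f β) {e : ℝ}
    (h1 : 0 < e * ((f⁻¹ * g) 0 0 * (f⁻¹ * g) 1 0)) (h2 : e * ((f⁻¹ * g) 0 1 * (f⁻¹ * g) 1 1) < 0)
    (h3 : (g⁻¹ * (β * g)) 0 0 * (g⁻¹ * (β * g)) 1 1 < 2) (hg' : g' ∈ Λ)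
    (h4 : e * ((f⁻¹ * g') 0 0 * (f⁻¹ * g') 1 0) < 0)
    (h5 : 0 < e * ((f⁻¹ * g') 0 1 * (f⁻¹ * g') 1 1)) : False := by
  have pos : ∀ e a c : ℝ, 0 < e * (a * c) → c ≠ 0 ∧ 0 < e * (a / c) := fun e a c h => by
    have h6 : c ≠ 0 := fun h' => by simp [h'] at h
    exact ⟨h6, by rw [show e * (a / c) = e * (a * c) / c ^ 2 by field_simp]; positivity⟩
  obtain ⟨k1, k2⟩ := pos _ _ _ h1
  obtain ⟨k3, k4⟩ := pos (-e) _ _ (by linarith : 0 < -e * ((f⁻¹ * g) 0 1 * (f⁻¹ * g) 1 1))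
  obtain ⟨k5, k6⟩ := pos (-e) _ _ (by linarith : 0 < -e * ((f⁻¹ * g') 0 0 * (f⁻¹ * g') 1 0))
  obtain ⟨k7, k8⟩ := pos _ _ _ h5
  have hμ := hP.2
  obtain ⟨k, h6, h7⟩ := exists_mem_Ico_zpow (div_pos k8 k2) hμ
  have h8 := L.key g hg _ (L.mul (β ^ (-k)) g' hg')
  have h9 := L.key _ (L.mul β g hg) _ (L.mul (β ^ (-k)) g' hg')
  obtain ⟨h10, h11⟩ := hP.1.zpow (-k)
  have e1 : f⁻¹ * (((β ^ (-k) : Γ) : G) * g') = (f⁻¹ * β * f) ^ (-k) * (f⁻¹ * g') := by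
    rw [← conj_pow, Subgroup.coe_zpow]
    group
  have e2 : f⁻¹ * ((β : G) * g) = (f⁻¹ * β * f) * (f⁻¹ * g) := by group
  rw [rel f, e1] at h8
  rw [rel f, e1, e2] at h9
  rw [rel f, e2] at h3
  have h12 : ((f⁻¹ * β * f) ^ (-k)) 0 0 ^ 2 = (((f⁻¹ * β * f) 0 0 ^ 2) ^ k)⁻¹ := by
    rw [h11, ← zpow_natCast, ← zpow_natCast, ← zpow_mul, ← zpow_mul, ← zpow_neg]
    congr 1
    ring
  obtain ⟨a1, a2, a3, a4⟩ := hP.1.ends (f⁻¹ * g)
  obtain ⟨b1, b2, b3, b4⟩ := h10.ends (f⁻¹ * g')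
  have c1 := cross_eq _ _ k1 k3 (b3 k5) (b4 k7)
  have c2 := cross_eq _ _ (a3 k1) (a4 k3) (b3 k5) (b4 k7)
  have c3 := cross_eq _ _ k1 k3 (a3 k1) (a4 k3)
  rw [b1, b2, h12] at c1 c2
  rw [a1, a2] at c2 c3
  rw [zpow_add_one₀ (by linarith)] at h7
  have h13 := zpow_pos (zero_lt_one.trans hμ) k
  generalize (f⁻¹ * β * f) 0 0 ^ 2 = μ at *
  have h14 := inv_pos.2 h13
  rw [le_div_iff₀ k2, ← le_inv_mul_iff₀ h13] at h6
  rw [div_lt_iff₀ k2, mul_assoc, ← inv_mul_lt_iff₀ h13] at h7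
  generalize (μ ^ k)⁻¹ = ν at *
  generalize (f⁻¹ * g) 0 0 / (f⁻¹ * g) 1 0 = p at *
  generalize (f⁻¹ * g) 0 1 / (f⁻¹ * g) 1 1 = q at *
  generalize (f⁻¹ * g') 0 0 / (f⁻¹ * g') 1 0 = q' at *
  generalize (f⁻¹ * g') 0 1 / (f⁻¹ * g') 1 1 = p' at *
  have h15 := mul_pos h14 k8
  have h16 := mul_pos h14 k6
  have h17 : 0 < μ := by linarith
  refine wrong_two k2 k4 h16 hμ h6 h7 (wrong_one k2 k4 h15 h16 h8 ?_)
    (wrong_one (mul_pos h17 k2) (mul_pos h17 k4) h15 h16 h9 ?_) ?_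
  · linear_combination (-(e * e)) * c1
  · linear_combination (-(e * e)) * c2
  · have h18 : 0 < μ * (e * p + -e * q) ^ 2 := by positivity
    have h19 := mul_lt_mul_of_pos_right h3 h18
    nlinarith [congrArg (e * e * ·) c3]

/-- Recurrent leaves are closed. -/
lemma Rec.per (F : Fu Γ) (L : La Γ Λ) (hδ : 0 < δ) (R : Rat Γ Λ δ) (hg : g ∈ Λ) (h : Rec Γ g) :
    ∃ β : Γ, Per g β := by
  obtain ⟨T, h1, β, h2⟩ := h (min δ (1 / 2)) (by positivity) 8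
  have h3 : Ch Λ δ g (β * g) :=
    Ch.orbit L hg (L.mul β g hg) (T := T) (by linarith) (by rw [geo_mul]; exact h2.trans (min_le_left _ _))
  rw [← geo_mul, ← geo_aa0] at h2
  have N := L.nr (L.flow g hg T) (L.mul β g hg) (h2.trans (min_le_right _ _)) le_rfl
  set M := g⁻¹ * (β * g) with hM
  rw [show (g * aa T)⁻¹ * (β * g) = aa (-T) * M by rw [hM, ← aa_inv]; group] at N
  have h4 := N.ad
  have h5 := N.bc
  have h6 := N.sq'
  have h7 := N.a1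
  have h8 := N.d2
  simp only [mul_ent, aa, mk4_00, mk4_01, mk4_10, mk4_11, zero_mul, add_zero, zero_add] at h4 h5 h6 h7 h8
  have h9 : exp (-T / 2) * exp (-(-T / 2)) = 1 := by rw [← exp_add, add_neg_cancel, exp_zero]
  have h10 : 5 ≤ exp (-(-T / 2)) := by linarith [add_one_le_exp (-(-T / 2))]
  have h11 := exp_pos (-T / 2)
  generalize exp (-T / 2) = x at *
  generalize exp (-(-T / 2)) = y at *
  rw [mul_mul_mul_comm, h9, one_mul] at h4 h5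
  have h12 : M 0 0 * M 1 1 < 2 := by nlinarith [sq_nonneg (x * M 0 0 - y * M 1 1)]
  have h13 : 25 ≤ y ^ 2 := by nlinarith
  have h14 : 4 < M 0 0 ^ 2 := by
    have := mul_le_mul_of_nonneg_left h7 (sq_nonneg y)
    rw [← mul_pow, ← mul_assoc, mul_comm y, h9, one_mul] at this
    linarith
  obtain ⟨m, h15, h16, h17⟩ := exists_axis M (by nlinarith [sq_nonneg (M 1 1)])
    (by nlinarith [sq_nonneg (M 1 1)]) h5
  have hP : Per (g * m⁻¹) β := by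
    rw [Per, show (g * m⁻¹)⁻¹ * β * (g * m⁻¹) = m * M * m⁻¹ by rw [hM]; group]
    exact ⟨h15, h16⟩
  have hm : m = (g * m⁻¹)⁻¹ * g := by group
  generalize g * m⁻¹ = f at hP hm
  subst hm
  rcases h17 with h17 | h17
  swap
  · obtain ⟨D, h18, h19⟩ := L.lim hg hP h17
    have h20 := (h.cr L hg).isDg F L h19 (hP.mul_dg h18) hδ R hg (by
      rw [show (f * D)⁻¹ * g = D⁻¹ * (f⁻¹ * g) by group, mul_ent D⁻¹, mul_ent D⁻¹,
        h18.inv.1.1, h18.inv.1.2]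
      exact h17.imp (fun h => by rw [h]; ring) fun h => by rw [h]; ring)
    exact ⟨β, mul_inv_cancel_left (f * D) g ▸ (hP.mul_dg h18).mul_dg h20⟩
  exfalso
  obtain ⟨e, he, h18⟩ := exists_sign (left_ne_zero_of_mul h17.ne)
  have h19 : e * e = 1 := by rcases he with rfl | rfl <;> norm_num
  have h20 : e * ((f⁻¹ * g) 0 1 * (f⁻¹ * g) 1 1) < 0 :=
    neg_of_mul_neg_left (by rwa [mul_mul_mul_comm, h19, one_mul, mul_comm]) h18.le
  have h21 : ∀ g' ∈ Λ, ∀ s t, s ≤ t → 0 ≤ e * XX f (geo g' s) → 0 ≤ e * XX f (geo g' t) := by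
    intro g' hg' s t hst k1
    have k2 := L.nowrong hg hP h18 h20 h12 hg'
    rw [eXX] at k1 ⊢
    generalize e * ((f⁻¹ * g') 0 0 * (f⁻¹ * g') 1 0) = A at *
    generalize e * ((f⁻¹ * g') 0 1 * (f⁻¹ * g') 1 1) = B at *
    have k3 := exp_le_exp.2 hst
    have k4 := exp_le_exp.2 (neg_le_neg hst)
    rcases lt_or_ge A 0 with k5 | k5
    · nlinarith [mul_pos (neg_pos.2 k5) (exp_pos s),
        mul_nonneg (neg_nonneg.2 (not_lt.1 (k2 k5))) (exp_pos (-s)).le]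
    rcases le_total 0 B with k6 | k6
    · positivity
    · nlinarith [mul_le_mul_of_nonneg_left k3 k5, mul_le_mul_of_nonpos_left k4 k6]
  obtain ⟨s, h22, h23⟩ : ∃ s, e * XX f (geo g s) < 0 ∧ 0 ≤ e * XX f (geo g (s + 1)) := by
    simp only [eXX]
    generalize e * ((f⁻¹ * g) 0 0 * (f⁻¹ * g) 1 0) = A at *
    generalize e * ((f⁻¹ * g) 0 1 * (f⁻¹ * g) 1 1) = B at *
    have k1 : A * exp (log (-B / A) / 2) + B * exp (-(log (-B / A) / 2)) = 0 := by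
      rw [exp_neg, ← mul_left_inj' (exp_pos (log (-B / A) / 2)).ne', add_mul,
        inv_mul_cancel_right₀ (exp_pos _).ne', mul_assoc, ← exp_add, add_halves,
        exp_log (div_pos (neg_pos.2 h20) h18), mul_div_cancel₀ _ h18.ne', zero_mul, neg_add_cancel]
    generalize log (-B / A) / 2 = t at k1
    refine ⟨t - 1, ?_, by rw [sub_add_cancel, k1]⟩
    have k2 : exp (t - 1) < exp t := exp_lt_exp.2 (by linarith)
    have k3 : exp (-t) < exp (-(t - 1)) := exp_lt_exp.2 (by linarith)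
    nlinarith [mul_lt_mul_of_pos_left k2 h18, mul_lt_mul_of_neg_left k3 h20]
  obtain ⟨ρ, h24, h25⟩ := hP.gap F (geo g s)
  obtain ⟨T', h26, γ, h27⟩ := h.shift L hg (show 0 < min δ (log (1 + ρ / 2)) from
    lt_min hδ (log_pos (by linarith))) s 1
  have h28 : ∀ η : Γ, 0 ≤ e * XX f ((η : G) • geo g (s + T')) →
      0 ≤ e * XX f ((η : G) • (γ : G) • geo g s) := by
    intro η k1
    by_contra k2
    have k3 := XX_sign (f := f) (z := (η : G) • geo g (s + T')) (w := (η : G) • (γ : G) • geo g s) (by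
      have := mul_nonpos_of_nonneg_of_nonpos k1 (not_le.1 k2).le
      rwa [mul_mul_mul_comm, h19, one_mul] at this)
    have k4 := h25 (η * γ)
    rw [Subgroup.coe_mul, mul_smul] at k4
    have k5 := k4 fun h => k2 (by rw [h, mul_zero])
    have k6 := exp_le_exp.2 (h27.trans (min_le_right _ _))
    rw [exp_log (by linarith)] at k6
    rw [dist_smul] at k3
    linarith
  obtain ⟨φ, h29, h30, h31⟩ := hP.dual F
  refine h31 e 0 (geo g s) γ he (fun η k => h28 η ?_) h22 ?_ (R g (g * aa s) β γ h3 ?_ φ h29 h30)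
  · rw [← geo_mul] at k ⊢
    exact h21 _ (L.mul η g hg) _ _ (by linarith) k
  · simpa using h28 1 (by simpa using h21 g hg _ _ (by linarith) h23)
  · refine Ch.orbit L (L.flow g hg s) (L.mul γ _ (L.flow g hg s)) h26 ?_
    rw [geo_aa, geo_mul, geo_aa0, add_comm]
    exact h27.trans (min_le_left _ _)

theorem top {c : Γ → ℝ} {u : ℍ → ℝ} (F : Fu Γ) (hc : c ∈ Coh Γ) (P : Pot Γ c u)
    (hne : (Lam u).Nonempty) (hδ : 0 < δ) (R : Rat Γ (Lam u) δ) :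
    ∃ (S : Finset G) (h : (Γ → ℝ) → ℝ), S.Nonempty ∧
      (∀ f ∈ S, f ∈ Lam u ∧ ∃ (β : Γ) (T : ℝ), 0 < T ∧
        (∀ t, geo f (t + T) = (β : G) • geo f t) ∧ ∀ φ ∈ Coh Γ, φ β = T * h φ) ∧
      ∀ g ∈ Lam u, CR Γ (Lam u) g → ∃ γ : Γ, ∃ f ∈ S, ∃ t₀, ∀ t,
        geo g t = (γ : G) • geo f (t + t₀) := by
  classical
  have L := P.la
  obtain ⟨R₀, hR₀⟩ := F.cpt
  have h1 : ∀ x : Lam u, ∃ f ∈ Lam u, ∃ (β γ : Γ) (t r : ℝ), Per f β ∧
      |XX f (geo (γ * x * aa t) 0)| < 2 * r ∧ ∀ g ∈ Lam u, ∀ t, |XX f (geo g t)| ≤ 2 * r →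
        (f⁻¹ * g) 0 1 = 0 ∨ (f⁻¹ * g) 1 0 = 0 := by
    intro x
    obtain ⟨f, h1, h2⟩ := exists_rec F (x : G)
    have h3 := L.orb x.2 0 h1
    obtain ⟨β, h4⟩ := h2.per F L hδ R h3
    obtain ⟨r, h5, h6⟩ := L.close h3 h4
    obtain ⟨_, h7, γ, t, -, rfl⟩ := mem_closure_iff.1 h1 {y | |XX f (geo y 0)| < 2 * r}
      (isOpen_lt ((continuous_XX f).comp (continuous_geo 0)).abs continuous_const)
      (by rw [Set.mem_ofPred_eq, XX_geo, inv_mul_cancel]; simpa using h5)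
    exact ⟨f, h3, β, γ, t, r, h4, h7, h6⟩
  choose f hf β γ t r h1 h2 h3 using h1
  obtain ⟨S, hS⟩ := ((isCompact_frames R₀).inter_right L.closed).elim_finite_subcover
    (fun x : Lam u => {y | |XX (f x) (geo (γ x * y * aa (t x)) 0)| < 2 * r x})
    (fun x => isOpen_lt ((continuous_XX _).comp ((continuous_geo 0).comp (by fun_prop))).abs
      continuous_const) fun y hy => Set.mem_iUnion.2 ⟨⟨y, hy.2⟩, h2 _⟩
  have h4 : ∀ g ∈ Lam u, ∃ x ∈ S, ∃ η : Γ, |XX (f x) (geo (η * g * aa (t x)) 0)| < 2 * r x := by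
    intro g hg
    obtain ⟨η, h4⟩ := hR₀ (geo g 0)
    obtain ⟨x, h5, h6⟩ := Set.mem_iUnion₂.1 (hS ⟨by rwa [Set.mem_ofPred_eq, geo_mul], L.mul η g hg⟩)
    exact ⟨x, h5, γ x * η, by rwa [Subgroup.coe_mul, mul_assoc _ _ g]⟩
  choose T h5 h6 using fun x => (h1 x).time
  have h7 : ∀ x, c (β x) = T x := fun x => by
    have := hf x 0 (0 + T x)
    rw [h6, P.eqv] at this
    linarith
  obtain ⟨g₀, hg₀⟩ := hne
  obtain ⟨x₀, hx₀, -⟩ := h4 g₀ hg₀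
  refine ⟨S.image f, fun φ => φ (β x₀) / T x₀, ⟨_, Finset.mem_image_of_mem f hx₀⟩, fun _ h8 => ?_,
    fun g hg hC => ?_⟩
  · obtain ⟨x, -, rfl⟩ := Finset.mem_image.1 h8
    refine ⟨hf x, β x, T x, h5 x, h6 x, fun φ hφ => ?_⟩
    obtain ⟨k₀, h9, h10⟩ := L.per hδ.le (hf x₀) (h5 x₀) (h6 x₀)
    obtain ⟨k, h11, h12⟩ := L.per hδ.le (hf x) (h5 x) (h6 x)
    have h13 := (Coh Γ).sub_mem hφ ((Coh Γ).smul_mem (φ (β x₀) / T x₀) hc)
    have h14 := R _ _ _ _ h10 h12 _ h13 (by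
      rw [coh_pow h13, Pi.sub_apply, Pi.smul_apply, h7, smul_eq_mul, div_mul_cancel₀ _ (h5 x₀).ne',
        sub_self, mul_zero])
    rw [coh_pow h13, Pi.sub_apply, Pi.smul_apply, h7, smul_eq_mul, mul_eq_zero] at h14
    linarith [h14.resolve_left (Nat.cast_ne_zero.2 h11.ne')]
  · obtain ⟨x, h8, η, h9⟩ := h4 g hg
    have h10 := L.flow _ (L.mul η g hg) (t x)
    have h11 := (hC.smul L η (t x)).isDg F L (hf x) (h1 x) hδ R h10 (h3 x _ h10 0 h9.le)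
    refine ⟨η⁻¹, f x, Finset.mem_image_of_mem f h8,
      -t x + log (((f x)⁻¹ * (η * g * aa (t x))) 0 0 ^ 2), fun τ => ?_⟩
    rw [← add_assoc, geo_def (f x), ← h11.up, ← geo_def, ← geo_mul, mul_inv_cancel_left, geo_aa,
      geo_mul, Subgroup.coe_inv, inv_smul_smul, neg_add_cancel_right]

end Pool.Agent.Lib.MP_5bb885_an
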