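import Pool.Agent.Lib.MP_5bb885_an.T18Cyl1

/-!
Approximate coboundaries.
-/

namespace Pool.Agent.Lib.MP_5bb885_an.Gen

open UpperHalfPlane MeasureTheory Filter Topology

variable {X : Set ℝ} {R e J : ℝ → ℝ} {ε : ℝ}

/-- One segment with a jump of size at most `d`. -/
lemma t18ac_seg {C s d d₀ : ℝ} {h : ℝ → ℝ} (hC : 0 ≤ C) (hd : d ≤ d₀)
    (hh : ∀ z ∈ X, ∀ w ∈ X, ∀ k : ℕ, 0 < k →
      |R^[k] z - w| ≤ d₀ → h w - h z ≤ C * (R^[k] z - w) ^ 2 + C * |s| * |R^[k] z - w| +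
        s * SJ J R z k + C * s ^ 2 * k)
    {z w : ℝ} {k : ℕ} (hz : z ∈ X) (hw : w ∈ X) (hk : 0 < k) (hj : |R^[k] z - w| ≤ d) :
    h w - h z ≤ (C * d ^ 2 + C * |s| * d) + s * SJ J R z k + C * s ^ 2 * k := by
  have h1 := hh z hz w hw k hk (hj.trans hd)
  have h2 : (R^[k] z - w) ^ 2 ≤ d ^ 2 := by
    rw [← sq_abs]
    exact pow_le_pow_left₀ (abs_nonneg _) hj 2
  have h3 : C * (R^[k] z - w) ^ 2 ≤ C * d ^ 2 := mul_le_mul_of_nonneg_left h2 hC
  have h4 : C * |s| * |R^[k] z - w| ≤ C * |s| * d :=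
    mul_le_mul_of_nonneg_left hj (mul_nonneg hC (abs_nonneg _))
  linarith

/-- The inequality along a chain. -/
lemma t18ac_chain {C s d d₀ : ℝ} {h : ℝ → ℝ} (hC : 0 ≤ C) (hd : d ≤ d₀)
    (hh : ∀ z ∈ X, ∀ w ∈ X, ∀ k : ℕ, 0 < k →
      |R^[k] z - w| ≤ d₀ → h w - h z ≤ C * (R^[k] z - w) ^ 2 + C * |s| * |R^[k] z - w| +
        s * SJ J R z k + C * s ^ 2 * k)
    {z w : ℝ} {n t : ℕ} {S : ℝ} (hc : Ch X R J d z w n t S) :
    h w - h z ≤ n * (C * d ^ 2 + C * |s| * d) + s * S + C * s ^ 2 * t := by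
  induction hc with
  | one hz hw hk hj =>
    have := t18ac_seg hC hd hh hz hw hk hj
    simpa using this
  | cons hz hy hk hj _ ih =>
    have := t18ac_seg hC hd hh hz hy hk hj
    push_cast
    linarith

theorem TK.ac (H : FI X R e ε) (h : TK X R J) (hl : Link X R J) : AC X R J := by
  obtain ⟨C, s₀, d₀, hC, hs₀, hd₀, hT⟩ := h
  obtain ⟨n₀, C', hL⟩ := hl
  intro η hη B
  set K : ℝ := 3 * C + 2 * (2 * n₀ * C + C * |C'|) with hK
  have hK0 : 0 ≤ K := by positivity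
  have hev : ∀ᶠ m : ℕ in atTop,
      max (max 1 (1 / s₀)) (max (1 / d₀) (max B (K / η))) ≤ (m : ℝ) :=
    tendsto_natCast_atTop_atTop.eventually_ge_atTop _
  obtain ⟨m, hm, hm'⟩ := (hL.and_eventually hev).exists
  simp only [max_le_iff] at hm'
  obtain ⟨⟨hm1, hms⟩, hmd, hmB, hmK⟩ := hm'
  set M : ℝ := (m : ℝ) with hM
  have hM0 : 0 < M := by linarith
  have hpow : ∀ k : ℕ, k ≠ 0 → M ≤ M ^ k := fun k hk => le_self_pow₀ hm1 hk
  set s : ℝ := 1 / M ^ 11 with hs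
  set d : ℝ := 1 / M ^ 6 with hd
  have hs0 : 0 < s := by positivity
  have hd0 : 0 < d := by positivity
  have hss : s ≤ s₀ := by
    rw [hs, div_le_iff₀ (by positivity)]
    rw [div_le_iff₀ hs₀] at hms
    have := hpow 11 (by norm_num)
    nlinarith
  have hdd : d ≤ d₀ := by
    rw [hd, div_le_iff₀ (by positivity)]
    rw [div_le_iff₀ hd₀] at hmd
    have := hpow 6 (by norm_num)
    nlinarith
  have hd1 : d ≤ 1 := by
    rw [hd, div_le_iff₀ (by positivity)]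
    have := hpow 6 (by norm_num)
    linarith
  have hdM : d ≤ 1 / M := by
    rw [hd]
    exact one_div_le_one_div_of_le hM0 (hpow 6 (by norm_num))
  have e1 : d ^ 2 = s / M := by
    rw [hd, hs]; field_simp
  have e2 : s * d ≤ s / M := by
    have := mul_le_mul_of_nonneg_left hdM hs0.le
    rwa [mul_one_div s M] at this
  have e3 : s ^ 2 * M ^ 10 = s / M := by
    rw [hs]; field_simp
  obtain ⟨hp, -, hhp⟩ := hT s (by rw [abs_of_pos hs0]; exact hss)
  obtain ⟨hn, -, hhn⟩ := hT (-s) (by rw [abs_neg, abs_of_pos hs0]; exact hss)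
  refine ⟨m ^ 10, d, fun x => hp x / s, hd0, hd1, ?_, ?_⟩
  · have : d * ((m ^ 10 : ℕ) : ℝ) = M ^ 4 := by
      push_cast
      rw [hd, ← hM]; field_simp
    rw [this]
    exact hmB.trans (hpow 4 (by norm_num))
  intro z hz w hw k hk hkH hj
  obtain ⟨n, t, S, hc, hn₀, ht⟩ := hm w hw z hz
  have a1 := t18ac_seg hC hdd hhp hz hw hk hj
  have a2 := t18ac_seg hC hdd hhn hz hw hk hj
  have a3 := t18ac_chain hC hdd hhp hc
  have a4 := t18ac_chain hC hdd hhn hc
  rw [abs_neg, neg_sq] at a2 a4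
  rw [abs_of_pos hs0] at a1 a2 a3 a4
  have hq : 0 ≤ s / M := by positivity
  have b0 : C * d ^ 2 + C * s * d ≤ 2 * C * (s / M) := by
    have := mul_le_mul_of_nonneg_left e2 hC
    rw [e1]; linarith
  have b1 : C * s ^ 2 * k ≤ C * (s / M) := by
    have hk' : (k : ℝ) ≤ M ^ 10 := by
      rw [hM]; exact_mod_cast hkH
    have : s ^ 2 * k ≤ s ^ 2 * M ^ 10 := mul_le_mul_of_nonneg_left hk' (by positivity)
    rw [e3] at this
    have := mul_le_mul_of_nonneg_left this hC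
    linarith
  have b2 : (n : ℝ) * (C * d ^ 2 + C * s * d) ≤ 2 * n₀ * C * (s / M) := by
    have hn' : (n : ℝ) ≤ n₀ := by exact_mod_cast hn₀
    have h0 : 0 ≤ C * d ^ 2 + C * s * d := by positivity
    calc (n : ℝ) * (C * d ^ 2 + C * s * d) ≤ n₀ * (2 * C * (s / M)) :=
          mul_le_mul hn' b0 h0 (by positivity)
      _ = 2 * n₀ * C * (s / M) := by ring
  have b3 : C * s ^ 2 * t ≤ C * |C'| * (s / M) := by
    have ht' : (t : ℝ) ≤ |C'| * M ^ 10 :=
      ht.trans (mul_le_mul_of_nonneg_right (le_abs_self _) (by positivity))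
    have : s ^ 2 * t ≤ s ^ 2 * (|C'| * M ^ 10) := mul_le_mul_of_nonneg_left ht' (by positivity)
    have e4 : s ^ 2 * (|C'| * M ^ 10) = |C'| * (s / M) := by rw [← e3]; ring
    rw [e4] at this
    have := mul_le_mul_of_nonneg_left this hC
    linarith
  have hfin : K * (s / M) ≤ η * s := by
    rw [div_le_iff₀ hη] at hmK
    have : K * (s / M) = (K / M) * s := by ring
    rw [this]
    refine mul_le_mul_of_nonneg_right ?_ hs0.le
    rw [div_le_iff₀ hM0]; linarith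
  have hx : 0 ≤ (2 * n₀ * C + C * |C'|) * (s / M) := by positivity
  have key : |hp w - hp z - s * SJ J R z k| ≤ η * s := by
    rw [abs_le]
    rw [hK] at hfin
    constructor <;> nlinarith
  have : hp w / s - hp z / s - SJ J R z k = (hp w - hp z - s * SJ J R z k) / s := by
    field_simp
  show |hp w / s - hp z / s - SJ J R z k| ≤ η
  rw [this, abs_div, abs_of_pos hs0, div_le_iff₀ hs0]
  exact key

lemma TK.mean (H : FI X R e ε) (h : TK X R J) {z : ℝ} (hz : z ∈ X) {η : ℝ} (hη : 0 < η) :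
    ∀ᶠ N : ℕ in atTop, |SJ J R z N| ≤ η * N := by
  obtain ⟨C, s₀, d₀, hC, hs₀, hd₀, hT⟩ := h
  set σ : ℝ := min s₀ (η / (2 * (C + 1))) with hσ
  have hσ0 : 0 < σ := lt_min hs₀ (by positivity)
  have hσs : σ ≤ s₀ := min_le_left _ _
  have hσC : C * σ ≤ η / 2 := by
    have h1 : σ ≤ η / (2 * (C + 1)) := min_le_right _ _
    rw [le_div_iff₀ (by positivity)] at h1
    nlinarith
  obtain ⟨hp, hbp, hhp⟩ := hT σ (by rw [abs_of_pos hσ0]; exact hσs)
  obtain ⟨hn, hbn, hhn⟩ := hT (-σ) (by rw [abs_neg, abs_of_pos hσ0]; exact hσs)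
  have hev : ∀ᶠ N : ℕ in atTop, 2 * C / (σ * η) ≤ (N : ℝ) :=
    tendsto_natCast_atTop_atTop.eventually_ge_atTop _
  filter_upwards [hev, eventually_gt_atTop 0] with N hN hN0
  have hw := H.iter hz N
  have a1 := hhp z hz _ hw N hN0 (by simpa using hd₀.le)
  have a2 := hhn z hz _ hw N hN0 (by simpa using hd₀.le)
  have a3 := hbp z hz _ hw
  have a4 := hbn z hz _ hw
  simp only [sub_self, abs_zero, mul_zero, neg_sq] at a1 a2
  rw [div_le_iff₀ (by positivity)] at hN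
  have hN' : (0 : ℝ) ≤ N := Nat.cast_nonneg _
  have b : C * σ ^ 2 * N ≤ σ * (η / 2 * N) := by
    have : C * σ * (σ * N) ≤ η / 2 * (σ * N) := mul_le_mul_of_nonneg_right hσC (by positivity)
    nlinarith
  have key : |σ * SJ J R z N| ≤ σ * (η * N) := by
    rw [abs_le]
    constructor <;> nlinarith
  rw [abs_mul, abs_of_pos hσ0] at key
  exact le_of_mul_le_mul_left key hσ0

/-- At most one visit of a short interval in a block of length `P`. -/
lemma t18ac_block (H : FI X R e ε) {P : ℕ} {η u u' w : ℝ} {A : ℝ → ℝ}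
    (hs : ∀ x ∈ X, ∀ k : ℕ, 0 < k → k ≤ P → η < |R^[k] x - x|) (hu : u' - u ≤ η)
    (h0 : ∀ x ∈ X, x ∉ Set.Icc u u' → A x = 0) (hw : ∀ x ∈ X, |A x| ≤ w) {x : ℝ} (hx : x ∈ X) :
    |SJ A R x P| ≤ w := by
  have hlt : ∀ i j : ℕ, i < j → j < P → R^[i] x ∈ Set.Icc u u' → R^[j] x ∈ Set.Icc u u' →
      False := by
    intro i j hij hj hi' hj'
    have h1 := hs _ (H.iter hx i) (j - i) (by omega) (by omega)
    rw [← Function.iterate_add_apply, Nat.sub_add_cancel hij.le] at h1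
    have h2 : |R^[j] x - R^[i] x| ≤ η := by
      rw [abs_le]
      constructor <;> linarith [hi'.1, hi'.2, hj'.1, hj'.2]
    linarith
  by_cases hv : ∃ i < P, R^[i] x ∈ Set.Icc u u'
  · obtain ⟨i, hi, hi'⟩ := hv
    have : SJ A R x P = A (R^[i] x) := by
      unfold SJ
      refine Finset.sum_eq_single i ?_ ?_
      · intro j hj hji
        refine h0 _ (H.iter hx j) fun hj' => ?_
        rcases lt_or_gt_of_ne hji with hc | hc
        · exact hlt j i hc hi hj' hi'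
        · exact hlt i j hc (Finset.mem_range.1 hj) hi' hj'
      · intro hni
        exact absurd (Finset.mem_range.2 hi) hni
    rw [this]
    exact hw _ (H.iter hx i)
  · have : SJ A R x P = 0 := by
      unfold SJ
      refine Finset.sum_eq_zero fun j hj => h0 _ (H.iter hx j) fun hj' => hv ?_
      exact ⟨j, Finset.mem_range.1 hj, hj'⟩
    rw [this, abs_zero]
    exact (abs_nonneg _).trans (hw x hx)

lemma t18ac_blocks (H : FI X R e ε) {P : ℕ} {w : ℝ} {A : ℝ → ℝ}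
    (hb : ∀ x ∈ X, |SJ A R x P| ≤ w) {x : ℝ} (hx : x ∈ X) (n : ℕ) :
    |SJ A R x (P * n)| ≤ n * w := by
  induction n with
  | zero => simp [SJ]
  | succ n ih =>
    rw [Nat.mul_succ, SJ_add]
    have h1 := hb _ (H.iter hx (P * n))
    have h2 := abs_add_le (SJ A R x (P * n)) (SJ A R (R^[P * n] x) P)
    push_cast
    linarith

/-- The mean of a function that is supported in a short interval is small. -/
lemma TK.rho (H : FI X R e ε) {τ : ℝ → ℝ} {τ₁ : ℝ} (h1 : 0 < τ₁) (hτ : ∀ x ∈ X, τ₁ ≤ τ x)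
    {θ : ℝ} (hθ : 0 < θ) : ∃ η : ℝ, 0 < η ∧ ∀ (u u' w ρ : ℝ) (A : ℝ → ℝ), u' - u ≤ η →
      (∀ x ∈ X, x ∉ Set.Icc u u' → A x = 0) → (∀ x ∈ X, |A x| ≤ w) →
      TK X R (fun x => A x + ρ * τ x) → |ρ| ≤ θ * w := by
  obtain ⟨P, hP⟩ := exists_nat_gt (1 / (θ * τ₁))
  have hP0 : (0 : ℝ) < P := lt_trans (by positivity) hP
  have hPn : 0 < P := by exact_mod_cast hP0
  obtain ⟨η, hη, hs⟩ := H.sparse P
  refine ⟨η, hη, fun u u' w ρ A hu h0 hw hT => ?_⟩
  obtain ⟨z, hz⟩ := H.ne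
  have hw0 : 0 ≤ w := (abs_nonneg _).trans (hw z hz)
  have hmain : |ρ| * τ₁ * P ≤ w := by
    refine le_of_forall_pos_le_add fun δ hδ => ?_
    have hm := TK.mean H hT hz (η := δ / P) (by positivity)
    obtain ⟨N, hN⟩ := eventually_atTop.1 hm
    have hn := hN (P * (N + 1)) (by nlinarith)
    have hA := t18ac_blocks H (fun x hx => t18ac_block H hs hu h0 hw hx) hz (N + 1)
    have hsplit : SJ (fun x => A x + ρ * τ x) R z (P * (N + 1)) =
        SJ A R z (P * (N + 1)) + ρ * SJ τ R z (P * (N + 1)) := by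
      unfold SJ
      rw [Finset.sum_add_distrib, Finset.mul_sum]
    have hτ' : ((P * (N + 1) : ℕ) : ℝ) * τ₁ ≤ SJ τ R z (P * (N + 1)) := by
      unfold SJ
      have := Finset.card_nsmul_le_sum (Finset.range (P * (N + 1))) (fun j => τ (R^[j] z)) τ₁
        fun j _ => hτ _ (H.iter hz j)
      rwa [Finset.card_range, nsmul_eq_mul] at this
    have hpos : (0 : ℝ) ≤ ((P * (N + 1) : ℕ) : ℝ) * τ₁ := by positivity
    have h2 : |ρ| * (((P * (N + 1) : ℕ) : ℝ) * τ₁) ≤ |ρ * SJ τ R z (P * (N + 1))| := by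
      rw [abs_mul, abs_of_nonneg (hpos.trans hτ')]
      exact mul_le_mul_of_nonneg_left hτ' (abs_nonneg _)
    have h3 : |ρ * SJ τ R z (P * (N + 1))| ≤
        |SJ (fun x => A x + ρ * τ x) R z (P * (N + 1))| + |SJ A R z (P * (N + 1))| := by
      rw [hsplit]
      have := abs_sub (SJ A R z (P * (N + 1)) + ρ * SJ τ R z (P * (N + 1)))
        (SJ A R z (P * (N + 1)))
      rwa [add_sub_cancel_left] at this
    have h4 : δ / P * ((P * (N + 1) : ℕ) : ℝ) = δ * ((N : ℝ) + 1) := by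
      push_cast
      field_simp
    rw [h4] at hn
    push_cast at h2 hA
    have hN1 : (0 : ℝ) < (N : ℝ) + 1 := by positivity
    have h5 : |ρ| * τ₁ * P * ((N : ℝ) + 1) ≤ (w + δ) * ((N : ℝ) + 1) := by nlinarith
    exact le_of_mul_le_mul_right h5 hN1
  rw [div_lt_iff₀ (by positivity)] at hP
  have h6 : |ρ| * 1 ≤ |ρ| * (P * (θ * τ₁)) := mul_le_mul_of_nonneg_left hP.le (abs_nonneg _)
  have h7 : θ * (|ρ| * τ₁ * P) ≤ θ * w := mul_le_mul_of_nonneg_left hmain hθ.le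
  nlinarith

end Pool.Agent.Lib.MP_5bb885_an.Gen
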