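import Pool.Agent.Lib.MP_5bb885_an.T18Cyl1

/-!
Big cylinders and words with a short period.
-/

namespace Pool.Agent.Lib.MP_5bb885_an.Gen

open UpperHalfPlane MeasureTheory Filter Topology

variable {X : Set ℝ} {R e J : ℝ → ℝ} {ε : ℝ} {ℓ : ℝ → ℕ} {r n : ℕ} {x y z : ℝ}

lemma t18big_pick {d : ℝ} (h : ¬Sml X R ℓ n d x) : ∃ y ∈ X, ∃ y' ∈ X, Cy R ℓ n x y ∧
    Cy R ℓ n x y' ∧ d < y' - y := by
  unfold Sml at h
  push Not at h
  obtain ⟨y, hy, y', hy', h1, h2, h3⟩ := h
  rcases lt_abs.1 h3 with h4 | h4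
  · exact ⟨y', hy', y, hy, h2, h1, h4⟩
  · exact ⟨y, hy, y', hy', h1, h2, by linarith⟩

/-- There are few big cylinders. -/
theorem Lt.big (H : FI X R e ε) (G : Lt X R ε ℓ r) : ∃ C : ℝ, 0 ≤ C ∧ ∀ (n : ℕ) (d : ℝ), 0 < d →
    ∀ Y : Finset ℝ, ↑Y ⊆ X → (∀ x ∈ Y, ∀ y ∈ Y, Cy R ℓ n x y → x = y) →
      (∀ x ∈ Y, ¬Sml X R ℓ n d x) → (Y.card : ℝ) ≤ C / d := by
  obtain ⟨B, hB⟩ := H.cpt.isBounded.subset_closedBall 0
  rw [Real.closedBall_eq_Icc, zero_sub, zero_add] at hB
  obtain ⟨x₀, hx₀⟩ := H.ne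
  have hB0 : 0 ≤ B := by
    have := hB hx₀
    linarith [this.1, this.2]
  refine ⟨2 * B, by positivity, fun n d hd Y hY h hs => ?_⟩
  choose! a ha b hb h1 h2 h3 using fun x (hx : x ∈ Y) => t18big_pick (hs x hx)
  have key : ∀ x ∈ Y, ∀ x' ∈ Y, a x' ∈ Set.Icc (a x) (b x) → x = x' := fun x hx x' hx' hm => by
    have h4 : Cy R ℓ n (a x) (b x) := (h1 x hx).symm.trans (h2 x hx)
    have h5 := (Cy.between H G (ha x hx) (hb x hx) (ha x' hx') h4 (Set.Icc_subset_uIcc hm)).1
    exact h x hx x' hx' (((h1 x hx).trans h5).trans (h1 x' hx').symm)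
  have hdis : (↑Y : Set ℝ).PairwiseDisjoint fun x => Set.Icc (a x) (b x) := by
    intro x hx x' hx' hne
    refine Set.disjoint_left.2 fun p hp hp' => hne ?_
    rcases le_total (a x) (a x') with h4 | h4
    · exact key x hx x' hx' ⟨h4, hp'.1.trans hp.2⟩
    · exact (key x' hx' x hx ⟨h4, hp.1.trans hp'.2⟩).symm
  have hsub : (⋃ x ∈ Y, Set.Icc (a x) (b x)) ⊆ Set.Icc (-B) B := by
    refine Set.iUnion₂_subset fun x hx => Set.Icc_subset_Icc (hB (ha x hx)).1 (hB (hb x hx)).2
  have hm := measureReal_biUnion_finset (μ := volume) hdis (fun _ _ => measurableSet_Icc)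
    (fun _ _ => by simp)
  have hle := measureReal_mono (μ := volume) hsub (by simp)
  rw [hm, Real.volume_real_Icc_of_le (by linarith)] at hle
  have hsum : ∑ _x ∈ Y, d ≤ ∑ x ∈ Y, volume.real (Set.Icc (a x) (b x)) :=
    Finset.sum_le_sum fun x hx => by
      rw [Real.volume_real_Icc_of_le (by linarith [h3 x hx])]
      exact (h3 x hx).le
  rw [Finset.sum_const, nsmul_eq_mul] at hsum
  rw [le_div_iff₀ hd]
  linarith

lemma t18big_per {v : ℕ → ℕ} {p : ℕ} (h : ∀ j, v (j + p) = v j) (j k : ℕ) :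
    v (j + k * p) = v j := by
  induction k with
  | zero => simp
  | succ k ih => rw [Nat.succ_mul, ← add_assoc, h, ih]

lemma t18big_ee (H : FI X R e ε) (G : Lt X R ε ℓ r) (hx : x ∈ X) (hy : y ∈ X)
    (h : Cy R ℓ n x y) : EE e R x n = EE e R y n := by
  rcases lt_trichotomy x y with h1 | h1 | h1
  · exact (Cy.sign H G hx hy h h1).1
  · rw [h1]
  · exact (Cy.sign H G hy hx h.symm h1).1.symm

lemma t18big_step {z : ℕ → ℝ} {σ d : ℝ} {N : ℕ} (hN : 0 < N)
    (hd : σ * (z N - z 0) ≤ d) : ∃ i < N, σ * (z (i + 1) - z i) ≤ d / N := by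
  by_contra hcon
  push Not at hcon
  have h1 : ∑ _i ∈ Finset.range N, d / N < ∑ i ∈ Finset.range N, σ * (z (i + 1) - z i) :=
    Finset.sum_lt_sum_of_nonempty (Finset.nonempty_range_iff.2 hN.ne') fun i hi =>
      hcon i (Finset.mem_range.1 hi)
  rw [← Finset.mul_sum, Finset.sum_range_sub, Finset.sum_const, Finset.card_range,
    nsmul_eq_mul, mul_div_cancel₀ _ (by exact_mod_cast hN.ne')] at h1
  linarith

/-- A long word with a short period gives a very close return. -/
theorem Lt.period (H : FI X R e ε) (G : Lt X R ε ℓ r) : ∃ C : ℝ, 0 ≤ C ∧ ∀ (n p : ℕ), 0 < p →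
    8 * p ≤ n → ∀ y ∈ X, Cy R ℓ n y (R^[p] y) →
      ∃ x ∈ X, ∃ k : ℕ, 0 < k ∧ k ≤ 2 * p ∧ |x - R^[k] x| ≤ C / n := by
  classical
  obtain ⟨C, hC, hbig⟩ := G.big H
  refine ⟨8 * (C + 1), by positivity, fun n p hp hn y hy hc => ?_⟩
  set v : ℕ → ℕ := fun j => ℓ (R^[j % p] y) with hv
  have hvp : ∀ j, v (j + p) = v j := fun j => by simp only [hv, Nat.add_mod_right]
  have huv : ∀ j, j < n + p → ℓ (R^[j] y) = v j := by
    intro j
    induction j using Nat.strong_induction_on with
    | _ j ih =>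
      intro hj
      rcases lt_or_ge j p with h1 | h1
      · simp only [hv, Nat.mod_eq_of_lt h1]
      · obtain ⟨i, rfl⟩ := Nat.exists_eq_add_of_le' h1
        rw [hvp, ← ih i (by omega) (by omega), Function.iterate_add_apply]
        exact (hc i (by omega)).symm
  have hex : ∃ q : ℕ, 0 < q ∧ ∀ j, v (j + q) = v j := ⟨p, hp, hvp⟩
  set q := Nat.find hex with hq
  obtain ⟨hq0, hvq⟩ : 0 < q ∧ ∀ j, v (j + q) = v j := Nat.find_spec hex
  have hqp : q ≤ p := Nat.find_min' hex ⟨hp, hvp⟩
  have hcy : ∀ {j j' m : ℕ}, j + m ≤ n + p → j' + m ≤ n + p → (∀ i < m, v (i + j) = v (i + j')) →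
      Cy R ℓ m (R^[j] y) (R^[j'] y) := fun {j j' m} h1 h2 h3 i hi => by
    rw [← Function.iterate_add_apply, ← Function.iterate_add_apply, huv _ (by omega),
      huv _ (by omega), h3 i hi]
  have hdiff : ∀ j < q, ∀ j' < q, j < j' → ¬Cy R ℓ p (R^[j] y) (R^[j'] y) := by
    intro j hj j' hj' hlt h
    have h1 : ∀ i < p, v (i + j) = v (i + j') := fun i hi => by
      have := h i hi
      rwa [← Function.iterate_add_apply, ← Function.iterate_add_apply, huv _ (by omega),
        huv _ (by omega)] at this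
    have h2 : ∀ i, v (i + j) = v (i + j') := fun i => by
      have h3 := h1 (i % p) (Nat.mod_lt _ hp)
      have e1 : i + j = i % p + j + i / p * p := by
        have := Nat.mod_add_div' i p
        omega
      have e2 : i + j' = i % p + j' + i / p * p := by
        have := Nat.mod_add_div' i p
        omega
      rw [e1, e2, t18big_per hvp, t18big_per hvp, h3]
    refine Nat.find_min hex (m := j' - j) (by omega) ⟨by omega, fun m => ?_⟩
    have hj1 : j ≤ j * p := Nat.le_mul_of_pos_right _ hp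
    have h4 := h2 (m + j * p - j)
    have e1 : m + j * p - j + j = m + j * p := by omega
    have e2 : m + j * p - j + j' = m + (j' - j) + j * p := by omega
    rw [e1, e2, t18big_per hvp, t18big_per hvp] at h4
    exact h4.symm
  have hq0' : (0 : ℝ) < q := by exact_mod_cast hq0
  obtain ⟨j, hj, hsm⟩ : ∃ j < q, Sml X R ℓ p ((C + 1) / q) (R^[j] y) := by
    by_contra hcon
    push Not at hcon
    have hinj : Set.InjOn (fun j => R^[j] y) ↑(Finset.range q) := by
      intro j hj j' hj' h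
      have hj := Finset.mem_range.1 hj
      have hj' := Finset.mem_range.1 hj'
      simp only at h
      rcases lt_trichotomy j j' with h1 | h1 | h1
      · exact absurd (h ▸ Cy.refl R ℓ p _) (hdiff j hj j' hj' h1)
      · exact h1
      · exact absurd (h ▸ Cy.refl R ℓ p _) (hdiff j' hj' j hj h1)
    have h1 := hbig p ((C + 1) / q) (by positivity) ((Finset.range q).image fun j => R^[j] y)
      (by
        intro x hx
        obtain ⟨j, -, rfl⟩ := Finset.mem_image.1 hx
        exact H.iter hy j)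
      (by
        intro x hx x' hx' h
        obtain ⟨j, hj, rfl⟩ := Finset.mem_image.1 hx
        obtain ⟨j', hj', rfl⟩ := Finset.mem_image.1 hx'
        have hj := Finset.mem_range.1 hj
        have hj' := Finset.mem_range.1 hj'
        rcases lt_trichotomy j j' with h1 | h1 | h1
        · exact absurd h (hdiff j hj j' hj' h1)
        · rw [h1]
        · exact absurd h.symm (hdiff j' hj' j hj h1))
      (by
        intro x hx
        obtain ⟨j, hj, rfl⟩ := Finset.mem_image.1 hx
        exact hcon j (Finset.mem_range.1 hj))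
    rw [Finset.card_image_of_injOn hinj, Finset.card_range, div_div_eq_mul_div,
      le_div_iff₀ (by positivity)] at h1
    nlinarith
  set N := n / (4 * q) with hN
  have hN1 : 4 * q * N ≤ n := Nat.mul_div_le n (4 * q)
  have hN2 : n < 4 * q * (N + 1) := Nat.lt_mul_div_succ n (by omega)
  have hN3 : n ≤ 8 * (q * N) := by nlinarith
  have hN0 : 0 < N := by
    rcases Nat.eq_zero_or_pos N with h | h
    · rw [h] at hN3
      omega
    · exact h
  set z : ℕ → ℝ := fun i => R^[j + i * (2 * q)] y with hz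
  have hzX : ∀ i, z i ∈ X := fun i => H.iter hy _
  have hzs : ∀ i, z (i + 1) = R^[2 * q] (z i) := fun i => by
    simp only [hz]
    rw [← Function.iterate_add_apply]
    congr 1
    ring
  have hb : ∀ i ≤ N, i * (2 * q) * 2 ≤ n := fun i hi => by nlinarith
  have hv2 : ∀ i k, v (k + (j + i * (2 * q))) = v (k + j) := fun i k => by
    rw [show k + (j + i * (2 * q)) = k + j + i * 2 * q by ring, t18big_per hvq]
  have hzc : ∀ i ≤ N, ∀ i' ≤ N, Cy R ℓ (2 * p) (z i) (z i') := fun i hi i' hi' =>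
    hcy (by have := hb i hi; omega) (by have := hb i' hi'; omega) fun k _ => by rw [hv2, hv2]
  have hE : ∀ i ≤ N, EE e R (z i) (2 * q) = 1 := fun i hi => by
    have h1 : Cy R ℓ q (z i) (R^[q] (z i)) := by
      simp only [hz]
      rw [← Function.iterate_add_apply]
      refine hcy (by have := hb i hi; omega) (by have := hb i hi; omega) fun k _ => ?_
      rw [show k + (q + (j + i * (2 * q))) = k + (j + i * (2 * q)) + q by ring, hvq]
    rw [two_mul, EE_add, ← t18big_ee H G (hzX i) (H.iter (hzX i) q) h1]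
    rcases H.ee (hzX i) q with h | h <;> rw [h] <;> norm_num
  have hne : z 1 ≠ z 0 := by
    rw [hzs 0]
    exact H.aper _ (hzX 0) _ (by omega)
  obtain ⟨σ, hσ, hσ0⟩ : ∃ σ : ℝ, (σ = 1 ∨ σ = -1) ∧ 0 < σ * (z 1 - z 0) := by
    rcases lt_or_gt_of_ne hne with h | h
    · exact ⟨-1, Or.inr rfl, by linarith⟩
    · exact ⟨1, Or.inl rfl, by linarith⟩
  have hmon : ∀ i < N, 0 < σ * (z (i + 1) - z i) := by
    intro i
    induction i with
    | zero => exact fun _ => hσ0
    | succ i ih =>
      intro hi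
      have h1 := ih (by omega)
      have h2 : Cy R ℓ (2 * q) (z i) (z (i + 1)) :=
        (hzc i (by omega) (i + 1) (by omega)).mono (by omega)
      rcases hσ with rfl | rfl
      · have h3 := (Cy.sign H G (hzX i) (hzX (i + 1)) h2 (by linarith)).2
        rwa [hE i (by omega), ← hzs, ← hzs] at h3
      · have h3 := (Cy.sign H G (hzX (i + 1)) (hzX i) h2.symm (by linarith)).2
        rw [hE (i + 1) (by omega), ← hzs, ← hzs] at h3
        linarith
  have hz0 : z 0 = R^[j] y := by simp [hz]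
  have hd : σ * (z N - z 0) ≤ (C + 1) / q := by
    have h1 := hsm (z N) (hzX N) (z 0) (hzX 0)
      (hz0 ▸ (hzc 0 (by omega) N le_rfl).mono (by omega)) (hz0 ▸ Cy.refl R ℓ p _)
    rcases hσ with rfl | rfl
    · linarith [le_abs_self (z N - z 0)]
    · linarith [neg_abs_le (z N - z 0)]
  obtain ⟨i, hi, h1⟩ := t18big_step hN0 hd
  refine ⟨z i, hzX i, 2 * q, by omega, by omega, ?_⟩
  have h2 := hmon i hi
  have h3 : |z i - z (i + 1)| = σ * (z (i + 1) - z i) := by
    rcases hσ with rfl | rfl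
    · rw [abs_of_neg (by linarith)]
      ring
    · rw [abs_of_pos (by linarith)]
      ring
  rw [← hzs, h3]
  refine h1.trans ?_
  have hN0' : (0 : ℝ) < N := by exact_mod_cast hN0
  have hn0 : (0 : ℝ) < n := by exact_mod_cast (by omega : 0 < n)
  have hN3' : (n : ℝ) ≤ 8 * (q * N) := by exact_mod_cast hN3
  rw [div_div, div_le_div_iff₀ (by positivity) hn0]
  nlinarith

end Pool.Agent.Lib.MP_5bb885_an.Gen
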