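import Pool.Agent.Lib.MP_5bb885_an.T18Defs

/-!
The second derivative of a deck transformation.
-/

namespace Pool.Agent.Lib.MP_5bb885_an.Gen

open UpperHalfPlane MeasureTheory Filter Topology

variable {Γ : Type} [Group Γ] [MulAction Γ ℍ] {L : ℂ × ℂ → ℝ} {c : Γ → ℝ} {x : ℝ → ℍ} {γ : Γ}
  {T a b : ℝ} {η : ℝ → ℂ}

lemma t18bq_snd {σ : ℂ →L[ℝ] ℂ} {M m₁ m₂ m₃ : ℂ → ℂ} (h : MobD γ σ M m₁ m₂ m₃) (z : ℍ)
    (v : ℂ) : fderiv ℝ (fderiv ℝ fun w : ℂ => ((γ • ofComplex w : ℍ) : ℂ)) z v v =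
      σ (m₂ z * v ^ 2) := by
  let A : ℂ →L[ℝ] ℂ →L[ℝ] ℂ :=
    (ContinuousLinearMap.compL ℝ ℂ ℂ ℂ σ).comp (ContinuousLinearMap.mul ℝ ℂ)
  have h1 : (fderiv ℝ fun w : ℂ => ((γ • ofComplex w : ℍ) : ℂ)) =ᶠ[𝓝 (z : ℂ)]
      fun w => A (m₁ w) := by
    filter_upwards [isOpen_HP.mem_nhds (show (z : ℂ) ∈ HP from z.im_pos)] with w hw
    ext u
    exact h.dk_eq ⟨w, hw⟩ u
  have h2 := A.hasFDerivAt.comp (z : ℂ) ((h.d2 z).hasFDerivAt.restrictScalars ℝ)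
  have h3 : HasFDerivAt (fun w => A (m₁ w)) _ (z : ℂ) := h2
  rw [h1.fderiv_eq, h3.fderiv]
  have h4 : σ (m₂ z * v ^ 2) = σ (v * m₂ z * v) := by
    congr 1
    ring
  rw [h4]
  rfl

lemma MobD.bq (F : Deck Γ) {σ : ℂ →L[ℝ] ℂ} {M m₁ m₂ m₃ : ℂ → ℂ} (h : MobD γ σ M m₁ m₂ m₃)
    (z : ℍ) (v : ℂ) : Bq γ z v = m₂ z / m₁ z * v ^ 2 := by
  have h1 : σ (m₂ z * v ^ 2) = dk γ z (m₂ z / m₁ z * v ^ 2) := by
    rw [h.dk_eq, ← mul_assoc, mul_div_cancel₀ _ (h.ne z)]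
  rw [Bq, t18bq_snd h, h1, ← F.dk_mul, inv_mul_cancel, dk_one]

lemma t18bq_lip {m : ℂ → ℂ} (hm : DifferentiableOn ℂ m HP) (R : ℝ) : ∃ K : ℝ, 0 ≤ K ∧
    (∀ z ∈ KB R, ‖m z‖ ≤ K) ∧ ∀ z ∈ KB R, ∀ w ∈ KB R, ‖m z - m w‖ ≤ K * ‖z - w‖ := by
  have h1 : ContDiffOn ℂ 1 m HP := hm.contDiffOn isOpen_HP
  have h2 : ContDiffOn ℝ 1 m (KB R) := (h1.restrict_scalars ℝ).mono (KB_sub R)
  obtain ⟨K, hK⟩ := h2.exists_lipschitzOnWith one_ne_zero (convex_KB R) (isCompact_KB R)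
  obtain ⟨B, hB⟩ := (isCompact_KB R).exists_bound_of_continuousOn h2.continuousOn
  refine ⟨max K B, le_max_of_le_left K.2, fun z hz => (hB z hz).trans (le_max_right _ _),
    fun z hz w hw => ?_⟩
  have h3 := hK.dist_le_mul z hz w hw
  rw [dist_eq_norm, dist_eq_norm] at h3
  exact h3.trans (mul_le_mul_of_nonneg_right (le_max_left _ _) (norm_nonneg _))

lemma Deck.bq_lip (F : Deck Γ) (γ : Γ) (R : ℝ) : ∃ M : ℝ, 0 ≤ M ∧ ∀ z w : ℍ, dist z I ≤ R →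
    dist w I ≤ R → ∀ v : ℂ, ‖Bq γ z v‖ ≤ M * ‖v‖ ^ 2 ∧
      ‖Bq γ z v - Bq γ w v‖ ≤ M * ‖(z : ℂ) - w‖ * ‖v‖ ^ 2 ∧
      ‖dk γ z v - dk γ w v‖ ≤ M * ‖(z : ℂ) - w‖ * ‖v‖ := by
  obtain ⟨σ, M, m₁, m₂, m₃, h⟩ := F.mobD γ
  have d1 : DifferentiableOn ℂ m₁ HP := fun w hw =>
    (h.d2 ⟨w, hw⟩).differentiableAt.differentiableWithinAt
  have d2 : DifferentiableOn ℂ m₂ HP := fun w hw =>
    (h.d3 ⟨w, hw⟩).differentiableAt.differentiableWithinAt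
  have d3 : DifferentiableOn ℂ (fun w => m₂ w / m₁ w) HP :=
    d2.div d1 fun w hw => h.ne ⟨w, hw⟩
  obtain ⟨K, hK, -, k2⟩ := t18bq_lip d1 R
  obtain ⟨B, hB, b1, b2⟩ := t18bq_lip d3 R
  refine ⟨K + B, add_nonneg hK hB, fun z w hz hw v => ⟨?_, ?_, ?_⟩⟩
  · rw [h.bq F, norm_mul, norm_pow]
    exact mul_le_mul_of_nonneg_right ((b1 z (mem_KB.2 hz)).trans (by linarith)) (by positivity)
  · rw [h.bq F, h.bq F, ← sub_mul, norm_mul, norm_pow]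
    refine mul_le_mul_of_nonneg_right ((b2 z (mem_KB.2 hz) w (mem_KB.2 hw)).trans ?_)
      (by positivity)
    exact mul_le_mul_of_nonneg_right (by linarith) (norm_nonneg _)
  · rw [h.dk_eq, h.dk_eq, ← map_sub, t9ji_norm h, ← sub_mul, norm_mul]
    refine mul_le_mul_of_nonneg_right ((k2 z (mem_KB.2 hz) w (mem_KB.2 hw)).trans ?_)
      (by positivity)
    exact mul_le_mul_of_nonneg_right (by linarith) (norm_nonneg _)

/-- The Taylor expansion of a deck transformation. -/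
lemma Deck.taylor (F : Deck Γ) (γ : Γ) (z : ℍ) {θ : ℝ} (hθ : 0 < θ) : ∃ δ : ℝ, 0 < δ ∧
    ∀ h : ℂ, ‖h‖ ≤ δ → ‖((γ • ofComplex (z + h) : ℍ) : ℂ) - (γ • z : ℍ) - dk γ z h -
      (1 / 2 : ℝ) • dk γ z (Bq γ z h)‖ ≤ θ * ‖h‖ ^ 2 := by
  obtain ⟨σ, M, m₁, m₂, m₃, H⟩ := F.mobD γ
  have h1 := (H.d2 z).isLittleO.bound hθ
  have h2 : ∀ᶠ w in 𝓝 (z : ℂ), w ∈ HP := isOpen_HP.mem_nhds z.im_pos
  obtain ⟨δ, hδ, h3⟩ := Metric.nhds_basis_closedBall.eventually_iff.1 (h1.and h2)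
  refine ⟨δ, hδ, fun h hh => ?_⟩
  have hs : Metric.closedBall (z : ℂ) ‖h‖ ⊆ Metric.closedBall (z : ℂ) δ :=
    Metric.closedBall_subset_closedBall hh
  have hz : (z : ℂ) + h ∈ Metric.closedBall (z : ℂ) ‖h‖ := by simp
  have hp : 0 < ((z : ℂ) + h).im := (h3 (hs hz)).2
  have h4 := Convex.norm_image_sub_le_of_norm_hasDerivWithin_le
    (f := fun w => M w - m₁ z * (w - z) - m₂ z / 2 * (w - z) ^ 2)
    (f' := fun w => m₁ w - m₁ z - (w - z) • m₂ z) (C := θ * ‖h‖)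
    (s := Metric.closedBall (z : ℂ) ‖h‖) (x := z) (y := z + h) (fun w hw => ?_) (fun w hw => ?_)
    (convex_closedBall _ _) (Metric.mem_closedBall_self (norm_nonneg _)) hz
  · have e1 := H.val ⟨z + h, hp⟩
    have e2 : (1 / 2 : ℝ) • σ (m₁ z * (m₂ z / m₁ z * h ^ 2)) = σ (m₂ z / 2 * h ^ 2) := by
      rw [← map_smul, ← mul_assoc, mul_div_cancel₀ _ (H.ne z)]
      congr 1
      rw [Complex.real_smul]
      push_cast
      ring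
    rw [ofComplex_apply_of_im_pos hp, e1, H.val, H.dk_eq, H.dk_eq, H.bq F, e2, ← map_sub,
      ← map_sub, ← map_sub, t9ji_norm H]
    simp only [add_sub_cancel_left, sub_self] at h4
    calc _ = _ := by
          congr 1
          change M (z + h) - M z - m₁ z * h - m₂ z / 2 * h ^ 2 = _
          ring
      _ ≤ _ := h4
      _ = _ := by ring
  · have d1 : HasDerivAt M (m₁ w) w := H.d1 ⟨w, (h3 (hs hw)).2⟩
    have d2 := (hasDerivAt_id w).sub_const (z : ℂ)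
    refine (((d1.sub (d2.const_mul (m₁ z))).sub
      ((d2.pow 2).const_mul (m₂ z / 2))).congr_deriv ?_).hasDerivWithinAt
    simp only [id, smul_eq_mul]
    push_cast
    ring
  · refine (h3 (hs hw)).1.trans (mul_le_mul_of_nonneg_left ?_ hθ.le)
    rwa [Metric.mem_closedBall, dist_eq_norm] at hw

theorem qt_zero (F : Deck Γ) (hL : Tonelli Γ L) (hx : Reg L x) (hp : Per x γ T) (hJ : Jac L x η)
    (ha : Anti x γ T η) :
    (∫ t in (0 : ℝ)..T, D2 L (jet x t) (η t, deriv η t) (η t, deriv η t)) +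
      mom L x 0 (Bq γ (x 0) (η 0)) = 0 := by
  obtain ⟨σ, M, m₁, m₂, m₃, H⟩ := F.mobD γ
  have e1 : (fun s => γ • x s) = fun s => x (s + T) := funext fun s => (hp.2 s).symm
  have e2 : (fun s => dk γ (x s) (η s)) = fun s => -η (s + T) :=
    funext fun s => by rw [ha s, neg_neg]
  have e3 : σ (m₁ (x 0) * η 0) = -η T := by
    rw [← H.dk_eq]
    simpa using congrFun e2 0
  have e4 : deriv (fun s => -η (s + T)) 0 = -deriv η T := by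
    rw [deriv.fun_neg, deriv_comp_add_const, zero_add]
  have e5 : dmom L (fun s => γ • x s) (fun s => dk γ (x s) (η s)) 0 (σ (m₁ (x 0) * η 0)) =
      dmom L x η T (η T) := by
    rw [e1, e2, e3, dmom, dmom, jet_shift, e4, zero_add, ← Prod.neg_mk, map_neg, map_neg,
      t9ji_Dv, t9ji_Dv, neg_apply, neg_neg]
  have e6 : σ (m₁ (x 0) * Bq γ (x 0) (η 0)) = σ (m₂ (x 0) * η 0 * η 0) := by
    rw [H.bq F, ← mul_assoc, mul_div_cancel₀ _ (H.ne _), sq, mul_assoc]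
  rw [Jac.integral hL hx hJ, t9ji_dmom F H hL hx (hJ 0).1, e5, t9ji_mom F H hL x 0, e6]
  ring

end Pool.Agent.Lib.MP_5bb885_an.Gen
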