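import Pool.Agent.Lib.MP_5bb885_an.T18Defs

/-!
Bounds for the third derivatives of invariant functions.
-/

namespace Pool.Agent.Lib.MP_5bb885_an.Gen

open UpperHalfPlane MeasureTheory Filter Topology

variable {Γ : Type} [Group Γ] [MulAction Γ ℍ]

lemma Near.mono {k k' : ℕ} {δ : ℝ} {f g : ℂ → ℝ} (h : Near k' δ f g) (hk : k ≤ k') :
    Near k δ f g :=
  fun j hj z hz => h j (hj.trans hk) z (hz.trans (Nat.cast_le.2 hk))

lemma t18c3_top (j : ℕ) : ((j : ℕ) : WithTop ℕ∞) ≤ ((⊤ : ℕ∞) : WithTop ℕ∞) := by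
  exact_mod_cast le_top

/-- The derivatives of a deck transformation are bounded on compact sets. -/
lemma t18c3_deck (F : Deck Γ) (γ : Γ) (R : ℝ) : ∃ D : ℝ, ∀ i ≤ 3, ∀ z ∈ KB R,
    ‖iteratedFDerivWithin ℝ i (fun w : ℂ => ((γ • ofComplex w : ℍ) : ℂ)) HP z‖ ≤ D := by
  have h : ∀ i : ℕ, ∃ D : ℝ, ∀ z ∈ KB R,
      ‖iteratedFDerivWithin ℝ i (fun w : ℂ => ((γ • ofComplex w : ℍ) : ℂ)) HP z‖ ≤ D := fun i =>
    (isCompact_KB R).exists_bound_of_continuousOn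
      (((F.contDiffOn γ).continuousOn_iteratedFDerivWithin (t18c3_top i)
        isOpen_HP.uniqueDiffOn).mono (KB_sub R))
  choose D hD using h
  refine ⟨∑ i ∈ Finset.range 4, |D i|, fun i hi z hz => ((hD i z hz).trans (le_abs_self _)).trans ?_⟩
  exact Finset.single_le_sum (f := fun i => |D i|) (fun _ _ => abs_nonneg _)
    (Finset.mem_range.2 (by omega))

theorem Deck.three (F : Deck Γ) : ∃ k₀ : ℕ, ∀ δ R : ℝ, ∃ M : ℝ, ∀ f : ℂ → ℝ, Pot Γ f →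
    Near k₀ δ 0 f → ∀ j ≤ 3, ∀ z ∈ KB R, ‖iteratedFDeriv ℝ j f z‖ ≤ M := by
  obtain ⟨R₀, hR₀⟩ := F.cpt
  obtain ⟨n, hn⟩ := exists_nat_ge R₀
  refine ⟨n + 3, fun δ R => ?_⟩
  choose D hD using fun γ : Γ => t18c3_deck F γ R
  have hfin := F.fin' (max R R₀)
  set E : ℝ := 1 + ∑ γ ∈ hfin.toFinset, |D γ| with hE
  have hE1 : 1 ≤ E := le_add_of_nonneg_right (Finset.sum_nonneg fun _ _ => abs_nonneg _)
  refine ⟨6 * |δ| * E ^ 3, fun f hf hN j hj z hz => ?_⟩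
  obtain ⟨w, hw, rfl⟩ := hz
  have hw' : dist w I ≤ R := hw
  obtain ⟨γ, hγ⟩ := hR₀ w
  have hmem : γ ∈ hfin.toFinset := hfin.mem_toFinset.2
    ⟨w, hw'.trans (le_max_left _ _), hγ.trans (le_max_right _ _)⟩
  have hDE : D γ ≤ E := by
    have := Finset.single_le_sum (f := fun γ => |D γ|) (fun _ _ => abs_nonneg _) hmem
    linarith [le_abs_self (D γ)]
  have hwH : (w : ℂ) ∈ HP := w.im_pos
  have heq : Set.EqOn f (f ∘ fun v : ℂ => ((γ • ofComplex v : ℍ) : ℂ)) HP := fun v hv => by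
    have h1 := hf.inv γ ⟨v, hv⟩
    have h2 : ofComplex v = ⟨v, hv⟩ := ofComplex_apply_of_im_pos hv
    rw [Function.comp_apply, h2, h1]
  have key := norm_iteratedFDerivWithin_comp_le (𝕜 := ℝ) (g := f)
    (f := fun v : ℂ => ((γ • ofComplex v : ℍ) : ℂ)) (n := j) (s := HP) (t := HP) (x := (w : ℂ))
    hf.smooth (F.contDiffOn γ) (t18c3_top j) isOpen_HP.uniqueDiffOn isOpen_HP.uniqueDiffOn
    (fun v _ => (γ • ofComplex v : ℍ).im_pos) hwH (C := |δ|) (D := E) (fun i hi => by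
      rw [ofComplex_apply, iteratedFDerivWithin_of_isOpen i isOpen_HP (γ • w).im_pos]
      have h1 := hN i (by omega) (γ • w) (by push_cast; linarith)
      rw [sub_zero] at h1
      exact h1.trans (le_abs_self _)) (fun i h1 hi =>
      ((hD γ i (hi.trans hj) w (mem_KB.2 hw')).trans hDE).trans (le_self_pow₀ hE1 (by omega)))
  rw [← iteratedFDerivWithin_congr heq hwH, iteratedFDerivWithin_of_isOpen j isOpen_HP hwH] at key
  refine key.trans ?_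
  have h1 : ((j.factorial : ℕ) : ℝ) ≤ 6 := by
    exact_mod_cast Nat.factorial_le hj
  have h2 : E ^ j ≤ E ^ 3 := pow_le_pow_right₀ hE1 hj
  gcongr

lemma bddC2_of_three {G : Set (ℂ → ℝ)}
    (h : ∀ R : ℝ, ∃ M : ℝ, ∀ f ∈ G, ∀ j ≤ 3, ∀ z ∈ KB R, ‖iteratedFDeriv ℝ j f z‖ ≤ M) :
    BddC2 G := by
  intro R
  obtain ⟨M, hM⟩ := h R
  refine ⟨M, fun f hf z hz => ?_⟩
  obtain ⟨a, b, c⟩ := t9pert_norms f z
  rw [a, b, c]
  exact ⟨hM f hf 0 (by omega) z hz, hM f hf 1 (by omega) z hz, hM f hf 2 (by omega) z hz⟩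

lemma t18c3_c1 {E : Type*} [NormedAddCommGroup E] [NormedSpace ℝ E] {g : E → ℝ} {s : Set E}
    (hs : IsOpen s) (hg : ContDiffOn ℝ 3 g s) : ContDiffOn ℝ 1 (fderiv ℝ (fderiv ℝ g)) s :=
  (hg.fderiv_of_isOpen (m := 2) hs (by norm_num)).fderiv_of_isOpen hs (by norm_num)

lemma t18c3_pot {f : ℂ → ℝ} (hf : Pot Γ f) : ContDiffOn ℝ 3 f HP :=
  hf.smooth.of_le (t18c3_top 3)

lemma lip2_of_three {L : ℂ × ℂ → ℝ} (hL : ContDiffOn ℝ 3 L TH) {G : Set (ℂ → ℝ)}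
    (hG : ∀ f ∈ G, Pot Γ f)
    (h : ∀ R : ℝ, ∃ M : ℝ, ∀ f ∈ G, ∀ j ≤ 3, ∀ z ∈ KB R, ‖iteratedFDeriv ℝ j f z‖ ≤ M) :
    Lip2 (addP L '' G) := by
  intro R r
  obtain ⟨hK, hC, hs⟩ := t9tay_KT R r
  have h1 : ContDiffOn ℝ 1 (D2 L) TH := t18c3_c1 isOpen_TH hL
  obtain ⟨A, hA⟩ := hK.exists_bound_of_continuousOn
    ((h1.continuousOn_fderiv_of_isOpen isOpen_TH le_rfl).mono hs)
  obtain ⟨M, hM⟩ := h R
  refine ⟨|A| + |M|, by positivity, ?_⟩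
  rintro _ ⟨f, hf, rfl⟩ p p' hp hp' hv hv'
  have h2 : ContDiffOn ℝ 3 f HP := t18c3_pot (hG f hf)
  have a1 : ‖D2 L p - D2 L p'‖ ≤ |A| * ‖p - p'‖ :=
    hC.norm_image_sub_le_of_norm_fderiv_le (𝕜 := ℝ)
      (fun x hx => (h1.contDiffAt (isOpen_TH.mem_nhds (hs hx))).differentiableAt (by norm_num))
      (fun x hx => (hA x hx).trans (le_abs_self _)) (t9tay_mem hp' hv') (t9tay_mem hp hv)
  have a2 : ‖fderiv ℝ (fderiv ℝ f) p.1 - fderiv ℝ (fderiv ℝ f) p'.1‖ ≤ |M| * ‖p.1 - p'.1‖ :=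
    (convex_KB R).norm_image_sub_le_of_norm_fderiv_le (𝕜 := ℝ)
      (fun x hx => ((t18c3_c1 isOpen_HP h2).contDiffAt
        (isOpen_HP.mem_nhds (KB_sub R hx))).differentiableAt (by norm_num))
      (fun x hx => by
        rw [← norm_iteratedFDeriv_one, norm_iteratedFDeriv_fderiv, norm_iteratedFDeriv_fderiv]
        exact (hM f hf 3 le_rfl x hx).trans (le_abs_self _)) hp' hp
  have a3 : ‖fderiv ℝ (fderiv ℝ f) p.1 - fderiv ℝ (fderiv ℝ f) p'.1‖ ≤ |M| * ‖p - p'‖ :=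
    a2.trans (mul_le_mul_of_nonneg_left (norm_fst_le (p - p')) (abs_nonneg _))
  have hL2 : ContDiffOn ℝ 2 L TH := hL.of_le (by norm_num)
  have hf2 : ContDiffOn ℝ 2 f HP := h2.of_le (by norm_num)
  refine ContinuousLinearMap.opNorm_le_bound₂ _ (by positivity) fun u k => ?_
  have e : (D2 (addP L f) p - D2 (addP L f) p') u k = (D2 L p - D2 L p') u k +
      (fderiv ℝ (fderiv ℝ f) p.1 - fderiv ℝ (fderiv ℝ f) p'.1) u.1 k.1 := by
    simp only [sub_apply]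
    rw [D2_addP hL2 hf2 (KB_sub R hp), D2_addP hL2 hf2 (KB_sub R hp')]
    ring
  rw [e]
  have b1 := (D2 L p - D2 L p').le_of_opNorm₂_le_of_le a1 (le_refl ‖u‖) (le_refl ‖k‖)
  have b2 := (fderiv ℝ (fderiv ℝ f) p.1 - fderiv ℝ (fderiv ℝ f) p'.1).le_of_opNorm₂_le_of_le a3
    (norm_fst_le u) (norm_fst_le k)
  exact (norm_add_le _ _).trans (by linarith)

lemma Pot.three {L : ℂ × ℂ → ℝ} (hL : ContDiffOn ℝ 3 L TH) {f : ℂ → ℝ} (hf : Pot Γ f) :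
    ContDiffOn ℝ 3 (addP L f) TH :=
  hL.add ((t18c3_pot hf).comp contDiffOn_fst fun _ hp => hp)

end Pool.Agent.Lib.MP_5bb885_an.Gen
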