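import Pool.Agent.Lib.MP_5bb885_an.T18Defs

/-!
Minimal sets with and without a transverse orientation.
-/

namespace Pool.Agent.Lib.MP_5bb885_an.Gen

open UpperHalfPlane MeasureTheory Filter Topology

variable {Γ : Type} [Group Γ] [MulAction Γ ℍ] {K : Set ℍ} {Φ : ℝ → ℍ → ℍ} {V : ℍ → ℂ}

variable (Γ) in
/-- Points whose translates with sign `s` avoid `O` at the times in `J`. -/
def t18cases_av (K : Set ℍ) (Φ : ℝ → ℍ → ℍ) (O : Set ℍ) (J : Set ℝ) (s : ℝ) : Set ℍ :=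
  {w | w ∈ K ∧ ∀ t ∈ J, ∀ γ : Γ, sg γ = s → γ • Φ t w ∉ O}

lemma t18cases_cl (F : Deck Γ) (A : Lam Γ K Φ V) {O : Set ℍ} (hO : IsOpen O) (J : Set ℝ) (s : ℝ) :
    IsClosed (t18cases_av Γ K Φ O J s) := by
  have h : ∀ (t : ℝ) (γ : Γ), IsClosed (K ∩ (fun w => γ • Φ t w) ⁻¹' Oᶜ) := fun t γ =>
    ((F.cont γ).comp_continuousOn (t9lam_cz A t)).preimage_isClosed_of_isClosed A.closed
      hO.isClosed_compl
  convert A.closed.inter (isClosed_biInter (s := J) fun t _ =>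
    isClosed_biInter (s := {γ : Γ | sg γ = s}) fun γ _ => h t γ) using 1
  ext w
  simp only [t18cases_av, Set.mem_ofPred_eq, Set.mem_inter_iff, Set.mem_iInter, Set.mem_preimage,
    Set.mem_compl_iff]
  exact and_congr_right fun hw =>
    ⟨fun k t ht γ hγ => ⟨hw, k t ht γ hγ⟩, fun k t ht γ hγ => (k t ht γ hγ).2⟩

lemma t18cases_smul (F : Deck Γ) (A : Lam Γ K Φ V) {O : Set ℍ} {J : Set ℝ} {s : ℝ} {w : ℍ}
    (hw : w ∈ t18cases_av Γ K Φ O J s) (δ : Γ) : δ • w ∈ t18cases_av Γ K Φ O J (s * sg δ) := by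
  refine ⟨A.smul δ w hw.1, fun t ht γ hγ => ?_⟩
  rw [A.comm t δ w hw.1, smul_smul]
  refine hw.2 t ht _ ?_
  rw [F.sg_mul, hγ]
  rcases sg_cases δ with ⟨-, a⟩ | ⟨-, a⟩ <;> rw [a] <;> ring

lemma t18cases_map (A : Lam Γ K Φ V) {O : Set ℍ} {s : ℝ} {w : ℍ}
    (hw : w ∈ t18cases_av Γ K Φ O Set.univ s) (u : ℝ) :
    Φ u w ∈ t18cases_av Γ K Φ O Set.univ s := by
  refine ⟨A.map u w hw.1, fun t _ γ hγ => ?_⟩
  rw [← A.add t u w hw.1]
  exact hw.2 _ trivial γ hγ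

lemma t18cases_ne (F : Deck Γ) (A : Lam Γ K Φ V) {O : Set ℍ} (hO : IsOpen O) {σ : ℝ}
    (hσ : σ = 1 ∨ σ = -1) {z : ℍ} (hz : z ∈ K)
    (h : ∀ t : ℝ, 0 ≤ t → ∀ γ : Γ, sg γ = σ → γ • Φ t z ∉ O) :
    (t18cases_av Γ K Φ O Set.univ 1 ∪ t18cases_av Γ K Φ O Set.univ (-1)).Nonempty := by
  obtain ⟨R, hR⟩ := F.cpt
  have hc := fun n : ℕ => (t18cases_cl F A hO (Set.Ici (-n : ℝ)) 1).union
    (t18cases_cl F A hO (Set.Ici (-n : ℝ)) (-1))
  have hm : ∀ (s : ℝ) (n m : ℕ), n ≤ m → t18cases_av Γ K Φ O (Set.Ici (-m : ℝ)) s ⊆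
      t18cases_av Γ K Φ O (Set.Ici (-n : ℝ)) s := fun s n m hnm w hw =>
    ⟨hw.1, fun t ht => hw.2 t (Set.mem_Ici.2
      (le_trans (neg_le_neg (Nat.cast_le.2 hnm)) (Set.mem_Ici.1 ht)))⟩
  obtain ⟨w, hw⟩ := IsCompact.nonempty_iInter_of_sequence_nonempty_isCompact_isClosed
    (fun n : ℕ => Metric.closedBall I R ∩ (t18cases_av Γ K Φ O (Set.Ici (-n : ℝ)) 1 ∪
      t18cases_av Γ K Φ O (Set.Ici (-n : ℝ)) (-1)))
    (fun n w hw => ⟨hw.1, hw.2.imp (fun k => hm _ n (n + 1) n.le_succ k)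
      fun k => hm _ n (n + 1) n.le_succ k⟩)
    (fun n => by
      obtain ⟨δ, hδ⟩ := hR (Φ n z)
      have k : Φ n z ∈ t18cases_av Γ K Φ O (Set.Ici (-n : ℝ)) σ :=
        ⟨A.map _ z hz, fun t ht γ hγ => by
          rw [← A.add t n z hz]
          exact h _ (by linarith [Set.mem_Ici.1 ht]) γ hγ⟩
      have k' := t18cases_smul F A k δ
      refine ⟨_, hδ, ?_⟩
      rcases hσ with rfl | rfl <;> rcases sg_cases δ with ⟨-, a⟩ | ⟨-, a⟩ <;> rw [a] at k'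
      · exact Or.inl (by simpa using k')
      · exact Or.inr (by simpa using k')
      · exact Or.inr (by simpa using k')
      · exact Or.inl (by simpa using k'))
    ((isCompact_closedBall I R).inter_right (hc 0)) fun n => Metric.isClosed_closedBall.inter (hc n)
  have hw' := fun n => (Set.mem_iInter.1 hw n).2
  have hK : w ∈ K := (hw' 0).elim (fun k => k.1) fun k => k.1
  refine ⟨w, ?_⟩
  by_contra hn
  simp only [Set.mem_union, t18cases_av, Set.mem_ofPred_eq, hK, true_and, Set.mem_univ,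
    forall_true_left, not_or, not_forall, not_not] at hn
  obtain ⟨⟨t, γ, h1, h2⟩, t', γ', h3, h4⟩ := hn
  obtain ⟨n, k⟩ := exists_nat_ge (max (-t) (-t'))
  have k1 := (le_max_left _ _).trans k
  have k2 := (le_max_right _ _).trans k
  rcases hw' n with j | j
  · exact j.2 t (by simp only [Set.mem_Ici]; linarith) γ h1 h2
  · exact j.2 t' (by simp only [Set.mem_Ici]; linarith) γ' h3 h4

lemma t18cases_small (A : Lam Γ K Φ V) (R₀ : ℝ) : ∃ C : ℝ, 0 < C ∧ ∀ (q : Bx) (r : ℝ),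
    Sec Γ K Φ V q r → (∀ z : ℍ, InB q.p q.d r z → dist z I ≤ R₀) →
      ∀ x ∈ K ∩ q.ln, ∀ y ∈ K ∩ q.ln, dist x I ≤ R₀ ∧ dist x y ≤ C * r := by
  obtain ⟨C, hC, h⟩ := KB_cmp R₀
  obtain ⟨D, hD⟩ := A.speed
  refine ⟨C * ((|D| + 1) * C), by positivity, fun q r S hb x hx y hy => ?_⟩
  have hr := S.cht.pos
  have hin : ∀ z ∈ q.ln, InB q.p q.d r z := fun z hz =>
    ⟨(S.inB hz).1.trans (by linarith), (S.inB hz).2.trans (by linarith)⟩
  have h1 := hb x (hin x hx.2)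
  have h2 := hb y (hin y hy.2)
  refine ⟨h1, (h x y h1 h2).1.trans ?_⟩
  have h3 := S.cht.vel x hx.1 (hin x hx.2) 0 (by simp; positivity)
  rw [A.zero x hx.1] at h3
  have hd : 0 < ‖q.d‖ := norm_pos_iff.2 S.ok.ne
  have h4 : 9 / 10 ≤ ‖V x‖ / ‖q.d‖ := by
    rw [← norm_div]
    have := norm_sub_norm_le (1 : ℂ) (V x / q.d)
    rw [norm_one, norm_sub_rev] at this
    linarith
  rw [le_div_iff₀ hd] at h4
  have h5 : ‖V x‖ ≤ |D| * C := (hD x hx.1).trans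
    (mul_le_mul (le_abs_self D) (h x y h1 h2).2.2.2 x.im_pos.le (abs_nonneg D))
  have h6 : (x : ℂ) - y = q.d * (co q.p q.d x - co q.p q.d y) := by
    simp only [co]
    field_simp [S.ok.ne]
    ring
  have h7 : ‖co q.p q.d x - co q.p q.d y‖ ≤ r / 2 := by
    refine (Complex.norm_le_abs_re_add_abs_im _).trans ?_
    rw [Complex.sub_re, hx.2.1, hy.2.1, sub_zero, abs_zero, zero_add, Complex.sub_im]
    have a1 := abs_le.1 (S.inB hx.2).2
    have a2 := abs_le.1 (S.inB hy.2).2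
    exact abs_le.2 ⟨by linarith [a1.1, a2.2], by linarith [a1.2, a2.1]⟩
  rw [h6, norm_mul, mul_assoc]
  refine mul_le_mul_of_nonneg_left ?_ (by positivity)
  have h8 : ‖q.d‖ ≤ 2 * ((|D| + 1) * C) := by nlinarith [abs_nonneg D]
  calc ‖q.d‖ * ‖co q.p q.d x - co q.p q.d y‖ ≤ 2 * ((|D| + 1) * C) * (r / 2) := by gcongr
    _ = (|D| + 1) * C * r := by ring

theorem Aper.cases (F : Deck Γ) (A : Aper Γ K Φ V) : Flip Γ K Φ ∨ ∀ R₀ : ℝ, ∃ ρ₀ : ℝ, 0 < ρ₀ ∧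
    ∀ (q : Bx) (r : ℝ), r ≤ ρ₀ → Sec Γ K Φ V q r → (∀ z : ℍ, InB q.p q.d r z → dist z I ≤ R₀) →
      ∀ x ∈ K ∩ q.ln, ∀ y ∈ K ∩ q.ln, ∀ (t : ℝ) (γ : Γ), Φ t x = γ • y → Ori γ := by
  refine or_iff_not_imp_left.2 fun hn R₀ => ?_
  simp only [Flip, not_forall, not_exists, not_and] at hn
  obtain ⟨σ, hσ, O, hO, ⟨w₀, hw₀, hw₀K⟩, z, hz, h⟩ := hn
  set P := t18cases_av Γ K Φ O Set.univ 1 with hP
  set M := t18cases_av Γ K Φ O Set.univ (-1) with hM
  have cP : IsClosed P := t18cases_cl F A.toLam hO _ _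
  have cM : IsClosed M := t18cases_cl F A.toLam hO _ _
  have sP : ∀ (δ : Γ), ∀ w ∈ P, (Ori δ → δ • w ∈ P) ∧ (¬Ori δ → δ • w ∈ M) := fun δ w hw => by
    have k := t18cases_smul F A.toLam hw δ
    rcases sg_cases δ with ⟨b, a⟩ | ⟨b, a⟩ <;> rw [a] at k
    · exact ⟨fun _ => by simpa using k, fun c => absurd b c⟩
    · exact ⟨fun c => absurd c b, fun _ => by simpa using k⟩
  have sM : ∀ (δ : Γ), ∀ w ∈ M, (Ori δ → δ • w ∈ M) ∧ (¬Ori δ → δ • w ∈ P) := fun δ w hw => by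
    have k := t18cases_smul F A.toLam hw δ
    rcases sg_cases δ with ⟨b, a⟩ | ⟨b, a⟩ <;> rw [a] at k
    · exact ⟨fun _ => by simpa using k, fun c => absurd b c⟩
    · exact ⟨fun c => absurd c b, fun _ => by simpa using k⟩
  have hU : P ∪ M = K := A.min _ (fun w hw => hw.elim (fun k => k.1) fun k => k.1)
    (t18cases_ne F A.toLam hO hσ hz h) (cP.union cM)
    (fun δ w hw => by
      by_cases c : Ori δ
      · exact hw.imp (fun k => (sP δ w k).1 c) fun k => (sM δ w k).1 c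
      · exact (hw.imp (fun k => (sP δ w k).2 c) fun k => (sM δ w k).2 c).symm)
    fun t w hw => hw.imp (fun k => t18cases_map A.toLam k t) fun k => t18cases_map A.toLam k t
  have hI : ∀ w ∈ P, w ∉ M := by
    intro w h1 h2
    have := A.min (P ∩ M) (fun w hw => hw.1.1) ⟨w, h1, h2⟩ (cP.inter cM)
      (fun δ w hw => by
        by_cases c : Ori δ
        · exact ⟨(sP δ w hw.1).1 c, (sM δ w hw.2).1 c⟩
        · exact ⟨(sM δ w hw.2).2 c, (sP δ w hw.1).2 c⟩)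
      fun t w hw => ⟨t18cases_map A.toLam hw.1 t, t18cases_map A.toLam hw.2 t⟩
    refine (this.ge hw₀K).1.2 0 trivial 1 sg_one ?_
    rwa [A.zero w₀ hw₀K, one_smul]
  obtain ⟨ε, hε, hd⟩ := Disjoint.exists_thickenings
    (s := Metric.closedBall I R₀ ∩ P) (t := M)
    (Set.disjoint_left.2 fun w hw => hI w hw.2) ((isCompact_closedBall I R₀).inter_right cP) cM
  have hfar : ∀ x ∈ P, ∀ y ∈ M, dist x I ≤ R₀ → ε ≤ dist x y := by
    intro x hx y hy h1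
    by_contra h2
    exact Set.disjoint_left.1 hd
      (Metric.mem_thickening_iff.2 ⟨x, ⟨h1, hx⟩, by rw [dist_comm]; exact not_le.1 h2⟩)
      (Metric.self_subset_thickening hε _ hy)
  obtain ⟨C, hC, hs⟩ := t18cases_small A.toLam R₀
  refine ⟨ε / (2 * C), by positivity, fun q r hr S hb x hx y hy t γ e => ?_⟩
  have h1 := hs q r S hb x hx y hy
  have h2 := hs q r S hb y hy x hx
  have h3 : C * r < ε := by
    have : C * r ≤ C * (ε / (2 * C)) := mul_le_mul_of_nonneg_left hr hC.le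
    have k : C * (ε / (2 * C)) = ε / 2 := by field_simp
    linarith
  by_contra c
  rcases hU.ge hx.1 with a | a <;> rcases hU.ge hy.1 with b | b
  · exact hI _ (t18cases_map A.toLam a t) (e ▸ (sP γ y b).2 c)
  · linarith [hfar x a y b h1.1, h1.2]
  · linarith [hfar y b x a h2.1, h2.2]
  · exact hI _ (e ▸ (sM γ y b).2 c) (t18cases_map A.toLam a t)

end Pool.Agent.Lib.MP_5bb885_an.Gen
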