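import Pool.Agent.Lib.MP_5bb885_an.T18Bq

/-!
The second variation of the doubled curve.
-/

namespace Pool.Agent.Lib.MP_5bb885_an.Gen

open UpperHalfPlane MeasureTheory Filter Topology

variable {Γ : Type} [Group Γ] [MulAction Γ ℍ] {L : ℂ × ℂ → ℝ} {c : Γ → ℝ} {x : ℝ → ℍ} {γ : Γ}
  {T a b : ℝ} {η : ℝ → ℂ}

/-- The second order expansion of the action, uniformly in the field. -/
theorem sv_gen (hL : ContDiffOn ℝ 2 L TH) (hx : Reg L x) (hab : a < b) (k : ℝ) {θ : ℝ}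
    (hθ : 0 < θ) : ∃ δ : ℝ, 0 < δ ∧ ∀ (ζ ζ' : ℝ → ℂ) (D : ℝ), (∀ t, HasDerivAt ζ (ζ' t) t) →
      Continuous ζ' → D ≤ δ → (∀ t ∈ Set.Icc a b, ‖ζ t‖ ≤ D ∧ ‖ζ' t‖ ≤ D) →
      (∀ t ∈ Set.Icc a b, (x t : ℂ) + ζ t ∈ HP) ∧ Adm L (fun t => ofComplex (x t + ζ t)) a b ∧
      |ac L k (fun t => ofComplex (x t + ζ t)) a b - ac L k x a b -
        (mom L x b (ζ b) - mom L x a (ζ a)) -
        1 / 2 * ∫ t in a..b, D2 L (jet x t) (ζ t, ζ' t) (ζ t, ζ' t)| ≤ θ * D ^ 2 := by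
  obtain ⟨R, hR⟩ := t9sv1_KB hx.continuous a b
  obtain ⟨r, hr⟩ := isCompact_Icc.exists_bound_of_continuousOn
    (hx.contVel.continuousOn (s := Set.Icc a b))
  have hba : 0 < b - a := sub_pos.2 hab
  set ε' := θ / (b - a) with hε'
  have hε0 : 0 < ε' := by positivity
  obtain ⟨δ, hδ, hT⟩ := taylor2 hL R r hε0
  obtain ⟨δ₁, hδ₁, hK⟩ := KB_thick R
  have cL : Continuous fun t => L (jet x t) :=
    hL.continuousOn.comp_continuous hx.contJet (t9sv1_mem x)
  have cD : Continuous fun t => fderiv ℝ L (jet x t) :=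
    (t9tay_cont isOpen_TH hL).2.1.comp_continuous hx.contJet (t9sv1_mem x)
  have cD2 : Continuous fun t => D2 L (jet x t) :=
    (continuousOn_D2 hL).comp_continuous hx.contJet (t9sv1_mem x)
  refine ⟨min δ δ₁, lt_min hδ hδ₁, fun ξ ξ' D h1 h2 hD hM => ?_⟩
  have e1 : D ≤ δ := hD.trans (min_le_left _ _)
  have e2 : D ≤ δ₁ := hD.trans (min_le_right _ _)
  have hξ : Continuous ξ := continuous_iff_continuousAt.2 fun t => (h1 t).continuousAt
  have hh : Continuous fun t => ((ξ t, ξ' t) : ℂ × ℂ) := hξ.prodMk h2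
  have c1 : Continuous fun t => fderiv ℝ L (jet x t) (ξ t, ξ' t) := cD.clm_apply hh
  have c2 : Continuous fun t => D2 L (jet x t) (ξ t, ξ' t) (ξ t, ξ' t) :=
    (cD2.clm_apply hh).clm_apply hh
  have ftc : ∫ t in a..b, fderiv ℝ L (jet x t) (ξ t, ξ' t)
      = mom L x b (ξ b) - mom L x a (ξ a) := by
    refine intervalIntegral.integral_eq_sub_of_hasDerivAt (f := fun t => mom L x t (ξ t))
      (fun t _ => ?_) (c1.intervalIntegrable _ _)
    have := (hx.hasDerivAt_mom t).clm_apply (h1 t)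
    rwa [frc, mom, t9sv1_split] at this
  have hn : ∀ t ∈ Set.Icc a b, ‖((ξ t, ξ' t) : ℂ × ℂ)‖ ≤ D := fun t ht =>
    max_le (hM t ht).1 (hM t ht).2
  have hHP : ∀ t ∈ Set.Icc a b, (x t : ℂ) + ξ t ∈ HP := fun t ht =>
    KB_sub _ (hK _ (hR t ht) _ ((hM t ht).1.trans e2))
  have hd : ∀ t ∈ Set.Icc a b,
      HasDerivAt (fun t => (x t : ℂ) + ξ t) (vel x t + ξ' t) t := fun t _ =>
    (hx.hasDerivAt t).add (h1 t)
  have cv : Continuous fun t => vel x t + ξ' t := hx.contVel.add h2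
  have cy : Continuous fun t => (x t : ℂ) + ξ t :=
    (UpperHalfPlane.continuous_coe.comp hx.continuous).add hξ
  obtain ⟨A1, A2⟩ := adm_C1 hL.continuousOn hab hd cv.continuousOn hHP
  refine ⟨hHP, A1, ?_⟩
  have c0 : ContinuousOn (fun t => L ((x t : ℂ) + ξ t, vel x t + ξ' t))
      (Set.uIcc a b) := by
    rw [Set.uIcc_of_le hab.le]
    exact hL.continuousOn.comp (cy.prodMk cv).continuousOn hHP
  have i0 : IntervalIntegrable (fun t => L ((x t : ℂ) + ξ t, vel x t + ξ' t) + k)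
      volume a b := (c0.add (continuousOn_const (c := k))).intervalIntegrable
  have i1 : IntervalIntegrable (fun t => L (jet x t) + k) volume a b :=
    (cL.add (continuous_const (y := k))).intervalIntegrable a b
  have i2 := c1.intervalIntegrable (μ := volume) a b
  have i3 := (c2.intervalIntegrable (μ := volume) a b).const_mul (1 / 2)
  rw [A2, ac, ← ftc, ← intervalIntegral.integral_const_mul,
    ← intervalIntegral.integral_sub i0 i1, ← intervalIntegral.integral_sub (i0.sub i1) i2,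
    ← intervalIntegral.integral_sub ((i0.sub i1).sub i2) i3, ← Real.norm_eq_abs]
  refine (intervalIntegral.norm_integral_le_of_norm_le_const (C := ε' * D ^ 2)
    fun t ht => ?_).trans ?_
  · rw [Set.uIoc_of_le hab.le] at ht
    have ht' := Set.Ioc_subset_Icc_self ht
    have h3 := (hT (jet x t) (hR t ht') (hr t ht') (ξ t, ξ' t) 0 ((hn t ht').trans e1)
      (by simpa using hδ.le)).1
    have e3 : jet x t + ((ξ t, ξ' t) : ℂ × ℂ)
        = ((x t : ℂ) + ξ t, vel x t + ξ' t) := rfl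
    rw [e3] at h3
    rw [Real.norm_eq_abs]
    refine le_trans (le_of_eq ?_) (h3.trans (mul_le_mul_of_nonneg_left
      (pow_le_pow_left₀ (norm_nonneg _) (hn t ht') 2) hε0.le))
    congr 1
    ring
  · rw [abs_of_pos hba, hε']
    apply le_of_eq
    field_simp

lemma t18qt_bq (γ : Γ) (z : ℍ) (s : ℝ) (v : ℂ) : Bq γ z (s • v) = s ^ 2 • Bq γ z v := by
  simp only [Bq, map_smul, smul_apply, smul_smul, sq]

lemma t18qt_mom (F : Deck Γ) (hL : Tonelli Γ L) (hp : Per x γ T) (w : ℂ) :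
    mom L x T (dk γ (x 0) w) = mom L x 0 w := by
  have e : (fun s => γ • x s) = fun s => x (s + T) := funext fun s => (hp.2 s).symm
  have h := hL.mom_smul F γ x 0 w
  rw [e, mom, jet_shift, zero_add] at h
  exact h

/-- The one-sided estimate for the curve from `x 0 + s ξ 0` to `γ (x 0 - s ξ 0)`. -/
lemma t18qt_key (F : Deck Γ) (hL : Tonelli Γ L) {u : ℍ → ℝ} {k : ℝ} (hu : Eqv c u)
    (hd : Dom L k u) (hcal : Cal L k u x) (hp : Per x γ T) {ξ ξ' : ℝ → ℂ}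
    (h1 : ∀ t, HasDerivAt ξ (ξ' t) t) (h2 : Continuous ξ') (he : ξ T = -dk γ (x 0) (ξ 0))
    {θ : ℝ} (hθ : 0 < θ) : ∀ᶠ s : ℝ in 𝓝[≠] 0,
      u (ofComplex (x 0 + (-s) • ξ 0)) - u (ofComplex (x 0 + s • ξ 0)) ≤
        s * (mom L x T (ξ T) - mom L x 0 (ξ 0)) + s ^ 2 / 2 *
          ((∫ t in (0 : ℝ)..T, D2 L (jet x t) (ξ t, ξ' t) (ξ t, ξ' t)) +
            mom L x 0 (Bq γ (x 0) (ξ 0))) + 3 * θ * s ^ 2 := by
  have hx : Reg L x := hcal.reg (hL.unif1 F) rfl hd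
  have hT : 0 < T := hp.1
  have hξ : Continuous ξ := continuous_iff_continuousAt.2 fun t => (h1 t).continuousAt
  have hh : Continuous fun t => ((ξ t, ξ' t) : ℂ × ℂ) := hξ.prodMk h2
  obtain ⟨M, hM⟩ := isCompact_Icc.exists_bound_of_continuousOn
    (hh.continuousOn (s := Set.Icc 0 T))
  have hM0 : 0 ≤ M := (norm_nonneg _).trans (hM 0 ⟨le_rfl, hT.le⟩)
  have cD2 : Continuous fun t => D2 L (jet x t) :=
    (continuousOn_D2 hL.smooth).comp_continuous hx.contJet (t9sv1_mem x)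
  set K := M + 1 + 1 / T with hK
  have hK0 : 0 < K := by positivity
  set P := mom L x T with hP
  set v := ξ 0 with hv
  set B := dk γ (x 0) (Bq γ (x 0) v) with hB
  set θ₂ := θ / (‖P‖ * ‖v‖ ^ 2 + 1) with hθ₂
  have hθ₂0 : 0 < θ₂ := by positivity
  obtain ⟨δ₁, hδ₁, hsv⟩ := sv_gen hL.smooth hx hT k (θ := θ / K ^ 2) (by positivity)
  obtain ⟨δ₂, hδ₂, hta⟩ := F.taylor γ (x 0) hθ₂0
  set e : ℝ → ℂ := fun s => ((γ • ofComplex (x 0 + (-s) • v) : ℍ) : ℂ) - (γ • x 0 : ℍ) -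
    dk γ (x 0) ((-s) • v) with he'
  have hr : ∀ᶠ s : ℝ in 𝓝 0, ‖e s - (s ^ 2 / 2) • B‖ ≤ θ₂ * (s ^ 2 * ‖v‖ ^ 2) := by
    filter_upwards [t9sv1_small ‖v‖ hδ₂] with s hs
    have hn : ‖(-s) • v‖ = |s| * ‖v‖ := by rw [norm_smul, Real.norm_eq_abs, abs_neg]
    have h3 := hta ((-s) • v) (hn ▸ hs)
    rw [hn, t18qt_bq, map_smul _ ((-s) ^ 2), smul_smul, mul_pow, sq_abs, ← hB] at h3
    have e1 : (1 / 2 : ℝ) * (-s) ^ 2 = s ^ 2 / 2 := by ring
    rw [e1] at h3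
    exact h3
  set f : ℝ → ℂ := fun s => s⁻¹ • e s with hf
  have hf0 : Tendsto f (𝓝[≠] 0) (𝓝 0) := by
    have hb : Tendsto (fun s : ℝ => |s| * (‖B‖ / 2 + θ₂ * ‖v‖ ^ 2)) (𝓝[≠] 0) (𝓝 0) := by
      have hc : Continuous fun s : ℝ => |s| * (‖B‖ / 2 + θ₂ * ‖v‖ ^ 2) := by fun_prop
      have := hc.tendsto 0
      simp only [abs_zero, zero_mul] at this
      exact this.mono_left nhdsWithin_le_nhds
    refine squeeze_zero_norm' ?_ hb
    filter_upwards [hr.filter_mono nhdsWithin_le_nhds, self_mem_nhdsWithin] with s hs hs0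
    have hs1 : 0 < |s| := abs_pos.2 hs0
    have h3 : ‖e s‖ ≤ s ^ 2 / 2 * ‖B‖ + θ₂ * (s ^ 2 * ‖v‖ ^ 2) := by
      have h4 := norm_add_le ((s ^ 2 / 2) • B) (e s - (s ^ 2 / 2) • B)
      rw [add_sub_cancel, norm_smul, Real.norm_of_nonneg (by positivity)] at h4
      linarith
    simp only [hf]
    rw [norm_smul, norm_inv, Real.norm_eq_abs, inv_mul_le_iff₀ hs1]
    refine h3.trans (le_of_eq ?_)
    rw [← mul_assoc |s|, abs_mul_abs_self]
    ring
  set Q : ℂ → ℝ := fun g => ∫ t in (0 : ℝ)..T,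
    D2 L (jet x t) (ξ t + (t / T) • g, ξ' t + (1 / T) • g)
      (ξ t + (t / T) • g, ξ' t + (1 / T) • g) with hQ
  have cQ : Continuous Q := by
    have c0 : Continuous fun p : ℂ × ℝ =>
        ((ξ p.2 + (p.2 / T) • p.1, ξ' p.2 + (1 / T) • p.1) : ℂ × ℂ) := by fun_prop
    exact intervalIntegral.continuous_parametric_intervalIntegral_of_continuous'
      (((cD2.comp continuous_snd).clm_apply c0).clm_apply c0) 0 T
  have hQ0 : Q 0 = ∫ t in (0 : ℝ)..T, D2 L (jet x t) (ξ t, ξ' t) (ξ t, ξ' t) := by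
    simp only [hQ, smul_zero, add_zero]
  have g1 : ∀ᶠ s : ℝ in 𝓝[≠] 0, Q (f s) ≤ Q 0 + 2 * θ :=
    ((cQ.tendsto 0).comp hf0).eventually (ge_mem_nhds (by linarith))
  have g2 : ∀ᶠ s : ℝ in 𝓝[≠] 0, ‖f s‖ ≤ 1 := by
    have := hf0.norm
    rw [norm_zero] at this
    exact this.eventually (ge_mem_nhds one_pos)
  filter_upwards [hr.filter_mono nhdsWithin_le_nhds, self_mem_nhdsWithin, g1, g2,
    (t9sv1_small K hδ₁).filter_mono nhdsWithin_le_nhds] with s hs hs0 hg1 hg2 hg3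
  have hs0' : s ≠ 0 := hs0
  have hef : s • f s = e s := by
    simp only [hf]
    rw [smul_smul, mul_inv_cancel₀ hs0', one_smul]
  have hder : ∀ t, HasDerivAt (fun t : ℝ => s • (ξ t + (t / T) • f s))
      (s • (ξ' t + (1 / T) • f s)) t := fun t =>
    ((h1 t).add (((hasDerivAt_id t).div_const T).smul_const (f s))).const_smul s
  obtain ⟨-, A1, A2⟩ := hsv (fun t => s • (ξ t + (t / T) • f s))
    (fun t => s • (ξ' t + (1 / T) • f s)) (|s| * K) hder (by fun_prop) hg3 (fun t ht => by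
      have b1 : ‖ξ t‖ ≤ M := (norm_fst_le ((ξ t, ξ' t) : ℂ × ℂ)).trans (hM t ht)
      have b2 : ‖ξ' t‖ ≤ M := (norm_snd_le ((ξ t, ξ' t) : ℂ × ℂ)).trans (hM t ht)
      have b3 : ‖(t / T) • f s‖ ≤ 1 := by
        rw [norm_smul, Real.norm_of_nonneg (div_nonneg ht.1 hT.le)]
        exact mul_le_one₀ ((div_le_one hT).2 ht.2) (norm_nonneg _) hg2
      have b4 : ‖(1 / T) • f s‖ ≤ 1 / T := by
        rw [norm_smul, Real.norm_of_nonneg (by positivity)]
        exact mul_le_of_le_one_right (by positivity) hg2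
      have b5 : 0 < 1 / T := by positivity
      constructor
      · rw [norm_smul, Real.norm_eq_abs]
        exact mul_le_mul_of_nonneg_left ((norm_add_le _ _).trans (by linarith)) (abs_nonneg s)
      · rw [norm_smul, Real.norm_eq_abs]
        exact mul_le_mul_of_nonneg_left ((norm_add_le _ _).trans (by linarith)) (abs_nonneg s))
  have z0 : s • (ξ 0 + ((0 : ℝ) / T) • f s) = s • v := by simp [hv]
  have zT : s • (ξ T + (T / T) • f s) = s • ξ T + e s := by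
    rw [div_self hT.ne', one_smul, smul_add, hef]
  have xT : x T = γ • x 0 := by simpa using hp.2 0
  have yT : (x T : ℂ) + (s • ξ T + e s) = (γ • ofComplex (x 0 + (-s) • v) : ℍ) := by
    rw [xT, he, he']
    simp only [map_smul, _root_.neg_smul, map_neg, smul_neg]
    ring
  have hdom := hd _ 0 T A1
  simp only [z0, zT, yT, ofComplex_apply, hu γ] at hdom
  have hc := (hcal 0 T hT).2
  rw [xT, hu γ] at hc
  have hint : ∫ t in (0 : ℝ)..T, D2 L (jet x t)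
      (s • (ξ t + (t / T) • f s), s • (ξ' t + (1 / T) • f s))
      (s • (ξ t + (t / T) • f s), s • (ξ' t + (1 / T) • f s)) = s ^ 2 * Q (f s) := by
    simp only [hQ]
    rw [← intervalIntegral.integral_const_mul]
    congr 1
    funext t
    rw [← Prod.smul_mk, map_smul, map_smul, smul_apply, smul_eq_mul,
      smul_eq_mul]
    ring
  simp only [z0, zT, hint] at A2
  have A3 := (abs_le.1 A2).2
  have e1 : θ / K ^ 2 * (|s| * K) ^ 2 = θ * s ^ 2 := by
    rw [mul_pow, sq_abs]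
    field_simp
  have e2 : P (e s) ≤ s ^ 2 / 2 * mom L x 0 (Bq γ (x 0) v) + θ * s ^ 2 := by
    have a1 : P (e s) = s ^ 2 / 2 * P B + P (e s - (s ^ 2 / 2) • B) := by
      rw [map_sub P (e s), map_smul P (s ^ 2 / 2), smul_eq_mul]
      ring
    have a2 : P (e s - (s ^ 2 / 2) • B) ≤ ‖P‖ * (θ₂ * (s ^ 2 * ‖v‖ ^ 2)) :=
      (le_abs_self _).trans ((P.le_opNorm _).trans
        (mul_le_mul_of_nonneg_left hs (norm_nonneg _)))
    have a3 : θ₂ * (‖P‖ * ‖v‖ ^ 2 + 1) = θ := by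
      rw [hθ₂]
      field_simp
    have a4 : P B = mom L x 0 (Bq γ (x 0) v) := t18qt_mom F hL hp _
    have a5 : 0 ≤ θ₂ * s ^ 2 := by positivity
    rw [a1, a4, ← a3]
    nlinarith
  rw [e1, map_add, map_smul, map_smul, smul_eq_mul, smul_eq_mul, ← hP] at A3
  have e3 : s ^ 2 * Q (f s) ≤ s ^ 2 * (Q 0 + 2 * θ) :=
    mul_le_mul_of_nonneg_left hg1 (sq_nonneg s)
  rw [← hQ0]
  linarith

theorem CP.qt_nonneg (F : Deck Γ) (hL : Tonelli Γ L) (h : CP L c x γ T) {ξ ξ' : ℝ → ℂ}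
    (h1 : ∀ t, HasDerivAt ξ (ξ' t) t) (h2 : Continuous ξ') (he : ξ T = -dk γ (x 0) (ξ 0)) :
    0 ≤ (∫ t in (0 : ℝ)..T, D2 L (jet x t) (ξ t, ξ' t) (ξ t, ξ' t)) +
      mom L x 0 (Bq γ (x 0) (ξ 0)) := by
  obtain ⟨u, hu, hd, hcal, hp⟩ := h
  refine le_of_forall_pos_le_add fun θ hθ => ?_
  have k1 := t18qt_key F hL hu hd hcal hp h1 h2 he (θ := θ / 6) (by positivity)
  have hneg : Tendsto (fun s : ℝ => -s) (𝓝[≠] 0) (𝓝[≠] 0) := by
    refine tendsto_nhdsWithin_iff.2 ⟨?_, ?_⟩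
    · have := (continuous_neg (G := ℝ)).tendsto 0
      rw [neg_zero] at this
      exact this.mono_left nhdsWithin_le_nhds
    · filter_upwards [self_mem_nhdsWithin] with s hs
      exact neg_ne_zero.2 hs
  obtain ⟨s, ⟨a1, a2⟩, hs⟩ := ((k1.and (hneg.eventually k1)).and self_mem_nhdsWithin).exists
  have hs2 : 0 < s ^ 2 := by
    have : s ≠ 0 := hs
    positivity
  rw [neg_neg, neg_sq] at a2
  refine le_of_mul_le_mul_left ?_ hs2
  linarith

end Pool.Agent.Lib.MP_5bb885_an.Gen
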