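import Pool.Agent.Lib.MP_5bb885_an.T18Conj
import Pool.Agent.Lib.MP_5bb885_an.T18QT

/-!
Comparison of the second variations along two close curves.
-/

namespace Pool.Agent.Lib.MP_5bb885_an.Gen

open UpperHalfPlane MeasureTheory Filter Topology

variable {Γ : Type} [Group Γ] [MulAction Γ ℍ]

lemma t18cmp_bil {E : Type} [NormedAddCommGroup E] [NormedSpace ℝ E] {A A' : E →L[ℝ] E →L[ℝ] ℝ}
    {p q : E} {M N B K D : ℝ} (hA : ‖A‖ ≤ M) (hAA : ‖A - A'‖ ≤ N * D) (hp : ‖p‖ ≤ B)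
    (hq : ‖q‖ ≤ K * D) (hK : 0 ≤ K) (hD0 : 0 ≤ D) (hD : D ≤ 1) :
    |A (p + q) (p + q) - A' p p| ≤ (N * B ^ 2 + 2 * M * B * K + M * K ^ 2) * D := by
  have hM : 0 ≤ M := A.opNorm_nonneg.trans hA
  have e : A (p + q) (p + q) - A' p p = (A - A') p p + A p q + A q p + A q q := by
    simp only [map_add, add_apply, sub_apply]
    ring
  have a1 := (A - A').le_of_opNorm₂_le_of_le hAA hp hp
  have a2 := A.le_of_opNorm₂_le_of_le hA hp hq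
  have a3 := A.le_of_opNorm₂_le_of_le hA hq hp
  have a4 := A.le_of_opNorm₂_le_of_le hA hq hq
  rw [Real.norm_eq_abs] at a1 a2 a3 a4
  have a5 : M * (K * D) * (K * D) ≤ M * K ^ 2 * D := by
    have : 0 ≤ M * K ^ 2 * D := by positivity
    nlinarith
  rw [e, abs_le]
  obtain ⟨b1, b2⟩ := abs_le.1 a1
  obtain ⟨b3, b4⟩ := abs_le.1 a2
  obtain ⟨b5, b6⟩ := abs_le.1 a3
  obtain ⟨b7, b8⟩ := abs_le.1 a4
  constructor <;> nlinarith

lemma t18cmp_lin {m m' : ℂ →L[ℝ] ℝ} {b b' : ℂ} {M N D : ℝ} (hm : ‖m'‖ ≤ M)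
    (hmm : ‖m - m'‖ ≤ M * D) (hb : ‖b‖ ≤ N) (hbb : ‖b - b'‖ ≤ N * D) :
    m b - m' b' ≤ 2 * M * N * D := by
  have e : m b - m' b' = (m - m') b + m' (b - b') := by
    simp only [map_sub, sub_apply]
    ring
  have a1 := (m - m').le_of_opNorm_le_of_le hmm hb
  have a2 := m'.le_of_opNorm_le_of_le hm hbb
  rw [Real.norm_eq_abs] at a1 a2
  rw [e]
  nlinarith [le_abs_self ((m - m') b), le_abs_self (m' (b - b'))]

lemma t18cmp_int {a b : ℝ → ℝ} (ha : Continuous a) (hb : Continuous b) {T₁ T₂ W P Q D : ℝ}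
    (h1 : T₁ ∈ Set.Icc 0 W) (h2 : T₂ ∈ Set.Icc 0 W) (hT : |T₁ - T₂| ≤ D) (hP : 0 ≤ P)
    (hab : ∀ t ∈ Set.Icc 0 T₁, |a t - b t| ≤ P * D) (hbQ : ∀ t ∈ Set.Icc 0 W, |b t| ≤ Q) :
    (∫ t in (0 : ℝ)..T₁, a t) - ∫ t in (0 : ℝ)..T₂, b t ≤ (P * W + Q) * D := by
  have hD : 0 ≤ D := (abs_nonneg _).trans hT
  have hQ : 0 ≤ Q := (abs_nonneg _).trans (hbQ T₁ h1)
  have e1 : (∫ t in (0 : ℝ)..T₂, b t) + ∫ t in T₂..T₁, b t = ∫ t in (0 : ℝ)..T₁, b t :=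
    intervalIntegral.integral_add_adjacent_intervals (hb.intervalIntegrable _ _)
      (hb.intervalIntegrable _ _)
  have e2 : ∫ t in (0 : ℝ)..T₁, (a t - b t) =
      (∫ t in (0 : ℝ)..T₁, a t) - ∫ t in (0 : ℝ)..T₁, b t :=
    intervalIntegral.integral_sub (ha.intervalIntegrable _ _) (hb.intervalIntegrable _ _)
  have a1 : ‖∫ t in (0 : ℝ)..T₁, (a t - b t)‖ ≤ P * D * |T₁ - 0| :=
    intervalIntegral.norm_integral_le_of_norm_le_const fun t ht => by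
      rw [Set.uIoc_of_le h1.1] at ht
      exact hab t ⟨ht.1.le, ht.2⟩
  have a2 : ‖∫ t in T₂..T₁, b t‖ ≤ Q * |T₁ - T₂| :=
    intervalIntegral.norm_integral_le_of_norm_le_const fun t ht =>
      hbQ t ⟨(le_min h2.1 h1.1).trans ht.1.le, ht.2.trans (max_le h2.2 h1.2)⟩
  rw [Real.norm_eq_abs] at a1 a2
  rw [sub_zero, abs_of_nonneg h1.1] at a1
  have a3 : P * D * T₁ ≤ P * D * W := mul_le_mul_of_nonneg_left h1.2 (by positivity)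
  have a4 : Q * |T₁ - T₂| ≤ Q * D := mul_le_mul_of_nonneg_left hT hQ
  have a5 := le_abs_self (∫ t in (0 : ℝ)..T₁, (a t - b t))
  have a6 := le_abs_self (∫ t in T₂..T₁, b t)
  linarith

theorem cmp_hess (F : Deck Γ) {S : Set (ℂ × ℂ → ℝ)} (U : Unif S) (hS : Lip2 S) (γ : Γ)
    (R W B : ℝ) {τ : ℝ} (hτ : 0 < τ) : ∃ C : ℝ, 0 ≤ C ∧ ∀ L ∈ S, Tonelli Γ L → ∀ g : ℂ → ℝ,
      C2 Γ g → ∀ (c : Γ → ℝ) (y₁ y₂ : ℝ → ℍ) (T₁ T₂ D : ℝ) (η : ℝ → ℂ), CP L c y₁ γ T₁ →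
      OD (addP L g) c y₂ γ T₂ η → T₁ ∈ Set.Icc τ W → T₂ ∈ Set.Icc τ W → D ≤ 1 → |T₁ - T₂| ≤ D →
      (∀ t ∈ Set.Icc 0 W, dist (y₁ t) I ≤ R ∧ dist (y₂ t) I ≤ R ∧ ‖vel y₁ t‖ ≤ B ∧
        ‖vel y₂ t‖ ≤ B ∧ ‖η t‖ ≤ B ∧ ‖deriv η t‖ ≤ B ∧ ‖jet y₁ t - jet y₂ t‖ ≤ D) →
      ∫ t in (0 : ℝ)..T₂, fderiv ℝ (fderiv ℝ g) (y₂ t) (η t) (η t) ≤ C * D := by
  obtain ⟨M₁, hM₁⟩ := U.bd R B
  obtain ⟨M₂, hM₂0, hM₂⟩ := U.taylor R B
  obtain ⟨M₃, hM₃0, hM₃⟩ := hS R B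
  obtain ⟨M₄, hM₄0, hM₄⟩ := F.bq_lip γ R
  set K : ℝ := (1 + τ⁻¹) * ((M₄ + 1) * |B|) with hK
  have hK0 : 0 ≤ K := by positivity
  set P : ℝ := M₃ * |B| ^ 2 + 2 * |M₁| * |B| * K + |M₁| * K ^ 2 with hP
  have hP0 : 0 ≤ P := by positivity
  refine ⟨P * |W| + |M₁| * |B| * |B| + 2 * M₂ * (M₄ * |B| ^ 2), by positivity, ?_⟩
  intro L hLS hL g hg c y₁ y₂ T₁ T₂ D η h1 h2 hT₁ hT₂ hD1 hTT hb
  have hD0 : 0 ≤ D := (abs_nonneg _).trans hTT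
  have hT₁0 : 0 < T₁ := hτ.trans_le hT₁.1
  have hT₂0 : 0 < T₂ := hτ.trans_le hT₂.1
  have hW : 0 ≤ W := hT₁0.le.trans hT₁.2
  have h0W : (0 : ℝ) ∈ Set.Icc 0 W := ⟨le_rfl, hW⟩
  have hB : 0 ≤ B := (norm_nonneg _).trans (hb 0 h0W).2.2.1
  rw [abs_of_nonneg hB] at hK hP
  rw [abs_of_nonneg hB, abs_of_nonneg hW]
  have hLg : Tonelli Γ (addP L g) := hL.add F hg
  have hr₁ : Reg L y₁ := h1.reg F hL
  have hr₂ : Reg (addP L g) y₂ := h2.cp.reg F hLg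
  have hJ : JacA (fun t => D2 (addP L g) (jet y₂ t)) η := h2.jac
  have hηc' : Continuous (deriv η) := hJ.contDeriv (hr₂.coef hLg)
  have hηd : ∀ t, HasDerivAt η (deriv η t) t := fun t => (hJ t).1.hasDerivAt
  have hηc : Continuous η := continuous_iff_continuousAt.2 fun t => (hηd t).continuousAt
  have hpos : ∀ t ∈ Set.Icc 0 W, ‖(y₁ t : ℂ) - y₂ t‖ ≤ D := fun t ht =>
    (norm_fst_le (jet y₁ t - jet y₂ t)).trans (hb t ht).2.2.2.2.2.2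
  -- the correction
  set e : ℂ := -dk γ (y₁ 0) (η 0) - η T₁ with he
  have hen : ‖e‖ ≤ (M₄ + 1) * B * D := by
    have a1 : η T₂ = -dk γ (y₂ 0) (η 0) := by simpa using h2.anti 0
    have a2 := (hM₄ (y₁ 0) (y₂ 0) (hb 0 h0W).1 (hb 0 h0W).2.1 (η 0)).2.2
    have a3 : ‖η T₂ - η T₁‖ ≤ B * ‖T₂ - T₁‖ :=
      (convex_Icc (0 : ℝ) W).norm_image_sub_le_of_norm_hasDerivWithin_le
        (f := η) (f' := deriv η) (fun t _ => (hηd t).hasDerivWithinAt)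
        (fun t ht => (hb t ht).2.2.2.2.2.1) ⟨hT₁0.le, hT₁.2⟩ ⟨hT₂0.le, hT₂.2⟩
    rw [Real.norm_eq_abs, abs_sub_comm] at a3
    have a4 : e = (η T₂ - η T₁) - (dk γ (y₁ 0) (η 0) - dk γ (y₂ 0) (η 0)) := by
      rw [he, a1]
      ring
    have a5 : M₄ * ‖(y₁ 0 : ℂ) - y₂ 0‖ * ‖η 0‖ ≤ M₄ * D * B :=
      mul_le_mul (mul_le_mul_of_nonneg_left (hpos 0 h0W) hM₄0) (hb 0 h0W).2.2.2.2.1
        (norm_nonneg _) (by positivity)
    have a6 : B * |T₁ - T₂| ≤ B * D := mul_le_mul_of_nonneg_left hTT hB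
    rw [a4]
    refine (norm_sub_le _ _).trans ?_
    linarith
  have hξd : ∀ t, HasDerivAt (fun t => η t + (t / T₁) • e) (deriv η t + (1 / T₁) • e) t :=
    fun t => (hηd t).add (((hasDerivAt_id t).div_const T₁).smul_const e)
  have hξc : Continuous fun t => deriv η t + (1 / T₁) • e := hηc'.add continuous_const
  have q1 := h1.qt_nonneg F hL hξd hξc (by
    simp only [zero_div, zero_smul, add_zero, div_self hT₁0.ne', one_smul, he]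
    ring)
  simp only [zero_div, zero_smul, add_zero] at q1
  have q2 := qt_zero F hLg hr₂ h2.cp.per h2.jac h2.anti
  have hj₁ : Continuous fun t => D2 L (jet y₁ t) :=
    (continuousOn_D2 hL.smooth).comp_continuous hr₁.contJet (jet_mem y₁)
  have hj₂ : Continuous fun t => D2 L (jet y₂ t) :=
    (continuousOn_D2 hL.smooth).comp_continuous hr₂.contJet (jet_mem y₂)
  have hg₂ : Continuous fun t => fderiv ℝ (fderiv ℝ g) (y₂ t) :=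
    (t9tay_cont isOpen_HP hg.1).2.2.comp_continuous
      (UpperHalfPlane.continuous_coe.comp hr₂.continuous) fun t => (y₂ t).im_pos
  have hpc : Continuous fun t => ((η t, deriv η t) : ℂ × ℂ) := hηc.prodMk hηc'
  have hqc : Continuous fun t => ((η t + (t / T₁) • e, deriv η t + (1 / T₁) • e) : ℂ × ℂ) :=
    (continuous_iff_continuousAt.2 fun t => (hξd t).continuousAt).prodMk hξc
  have hbc : Continuous fun t => D2 L (jet y₂ t) (η t, deriv η t) (η t, deriv η t) :=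
    (hj₂.clm_apply hpc).clm_apply hpc
  have hac : Continuous fun t => D2 L (jet y₁ t) (η t + (t / T₁) • e, deriv η t + (1 / T₁) • e)
      (η t + (t / T₁) • e, deriv η t + (1 / T₁) • e) := (hj₁.clm_apply hqc).clm_apply hqc
  have hgc : Continuous fun t => fderiv ℝ (fderiv ℝ g) (y₂ t) (η t) (η t) :=
    (hg₂.clm_apply hηc).clm_apply hηc
  have e1 : (∫ t in (0 : ℝ)..T₂, D2 (addP L g) (jet y₂ t) (η t, deriv η t) (η t, deriv η t)) =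
      (∫ t in (0 : ℝ)..T₂, D2 L (jet y₂ t) (η t, deriv η t) (η t, deriv η t)) +
        ∫ t in (0 : ℝ)..T₂, fderiv ℝ (fderiv ℝ g) (y₂ t) (η t) (η t) := by
    rw [← intervalIntegral.integral_add (hbc.intervalIntegrable _ _) (hgc.intervalIntegrable _ _)]
    refine intervalIntegral.integral_congr fun t _ => ?_
    exact D2_addP hL.smooth hg.1 (jet_mem y₂ t) _ _
  have e2 : ∀ v, mom (addP L g) y₂ 0 v = mom L y₂ 0 v := fun v => by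
    have := fderiv_addP hL.smooth hg.1 (jet_mem y₂ 0) (0, v)
    rw [map_zero, add_zero] at this
    exact this
  rw [e1, e2] at q2
  have hKB₁ : ∀ t ∈ Set.Icc 0 W, (jet y₁ t).1 ∈ KB R := fun t ht => mem_KB.2 (hb t ht).1
  have hKB₂ : ∀ t ∈ Set.Icc 0 W, (jet y₂ t).1 ∈ KB R := fun t ht => mem_KB.2 (hb t ht).2.1
  have hpn : ∀ t ∈ Set.Icc 0 W, ‖((η t, deriv η t) : ℂ × ℂ)‖ ≤ B := fun t ht =>
    norm_prod_le_iff.2 ⟨(hb t ht).2.2.2.2.1, (hb t ht).2.2.2.2.2.1⟩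
  have q3 := t18cmp_int hac hbc (W := W) (P := P) (Q := |M₁| * B * B) ⟨hT₁0.le, hT₁.2⟩
    ⟨hT₂0.le, hT₂.2⟩ hTT hP0 (fun t ht => by
      have ht' : t ∈ Set.Icc 0 W := ⟨ht.1, ht.2.trans hT₁.2⟩
      have a1 : ‖D2 L (jet y₁ t)‖ ≤ |M₁| :=
        (hM₁ L hLS _ (hKB₁ t ht') _ (hb t ht').2.2.1).2.trans (le_abs_self _)
      have a2 : ‖D2 L (jet y₁ t) - D2 L (jet y₂ t)‖ ≤ M₃ * D :=
        (hM₃ L hLS _ _ (hKB₁ t ht') (hKB₂ t ht') (hb t ht').2.2.1 (hb t ht').2.2.2.1).trans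
          (mul_le_mul_of_nonneg_left (hb t ht').2.2.2.2.2.2 hM₃0)
      have a3 : ‖(((t / T₁) • e, (1 / T₁) • e) : ℂ × ℂ)‖ ≤ K * D := by
        have b0 : 0 ≤ τ⁻¹ := by positivity
        have b1 : |t / T₁| ≤ 1 + τ⁻¹ := by
          rw [abs_of_nonneg (div_nonneg ht.1 hT₁0.le)]
          have := (div_le_one hT₁0).2 ht.2
          linarith
        have b2 : |1 / T₁| ≤ 1 + τ⁻¹ := by
          rw [abs_of_nonneg (by positivity), one_div]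
          have := inv_anti₀ hτ hT₁.1
          linarith
        rw [hK, mul_assoc]
        refine norm_prod_le_iff.2 ⟨?_, ?_⟩
        · rw [norm_smul, Real.norm_eq_abs]
          exact mul_le_mul b1 hen (norm_nonneg _) (by positivity)
        · rw [norm_smul, Real.norm_eq_abs]
          exact mul_le_mul b2 hen (norm_nonneg _) (by positivity)
      rw [hP]
      exact t18cmp_bil a1 a2 (hpn t ht') a3 hK0 hD0 hD1) (fun t ht => by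
      have a1 : ‖D2 L (jet y₂ t)‖ ≤ |M₁| :=
        (hM₁ L hLS _ (hKB₂ t ht) _ (hb t ht).2.2.2.1).2.trans (le_abs_self _)
      exact (D2 L (jet y₂ t)).le_of_opNorm₂_le_of_le a1 (hpn t ht) (hpn t ht))
  have q4 : mom L y₁ 0 (Bq γ (y₁ 0) (η 0)) - mom L y₂ 0 (Bq γ (y₂ 0) (η 0)) ≤
      2 * M₂ * (M₄ * B ^ 2) * D := by
    obtain ⟨-, a1, -, -, a2⟩ := hM₂ L hLS (jet y₂ 0) (jet y₁ 0) (hKB₂ 0 h0W) (hKB₁ 0 h0W)
      (hb 0 h0W).2.2.2.1 (hb 0 h0W).2.2.1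
    obtain ⟨a3, a4, -⟩ := hM₄ (y₁ 0) (y₂ 0) (hb 0 h0W).1 (hb 0 h0W).2.1 (η 0)
    have a5 : ‖η 0‖ ^ 2 ≤ B ^ 2 := pow_le_pow_left₀ (norm_nonneg _) (hb 0 h0W).2.2.2.2.1 2
    refine t18cmp_lin ((t9exp_Dv _).trans a1) ?_ (a3.trans (mul_le_mul_of_nonneg_left a5 hM₄0)) ?_
    · have a6 : mom L y₁ 0 - mom L y₂ 0 =
          Dv (fderiv ℝ L (jet y₁ 0) - fderiv ℝ L (jet y₂ 0)) := rfl
      rw [a6]
      exact (t9exp_Dv _).trans (a2.trans (mul_le_mul_of_nonneg_left (hb 0 h0W).2.2.2.2.2.2 hM₂0))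
    · refine a4.trans ?_
      have a7 : M₄ * ‖(y₁ 0 : ℂ) - y₂ 0‖ * ‖η 0‖ ^ 2 ≤ M₄ * D * B ^ 2 :=
        mul_le_mul (mul_le_mul_of_nonneg_left (hpos 0 h0W) hM₄0) a5 (by positivity)
          (by positivity)
      linarith
  linarith

end Pool.Agent.Lib.MP_5bb885_an.Gen
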