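import Pool.Agent.Lib.MP_5bb885_an.T18Pass

/-!
A test function with a large Hessian and a small gradient along a closed curve.
-/

namespace Pool.Agent.Lib.MP_5bb885_an.Gen

open UpperHalfPlane MeasureTheory Filter Topology

lemma t18hess_ev {P : ℂ → Prop} {z : ℍ} (h : ∀ᶠ w : ℍ in 𝓝 z, P w) : ∀ᶠ w in 𝓝 (z : ℂ), P w := by
  rw [← isOpenEmbedding_coe.map_nhds_eq, Filter.eventually_map]
  exact h

lemma t18hess_smooth (w : ℝ) :
    ContDiff ℝ 2 fun z : ℂ => cut (-w) w w z.re * Complex.normSq z := by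
  have h1 : ContDiff ℝ 2 fun z : ℂ => z.re := Complex.reCLM.contDiff
  have h2 : ContDiff ℝ 2 fun z : ℂ => z.im := Complex.imCLM.contDiff
  refine (((contDiff_cut _ _ _).of_le (WithTop.coe_le_coe.2 (le_top : (2 : ℕ∞) ≤ ⊤))).comp h1).mul ?_
  have h3 : ContDiff ℝ 2 fun z : ℂ => z.re * z.re + z.im * z.im := (h1.mul h1).add (h2.mul h2)
  exact h3

lemma t18hess_comp {G f : ℂ → ℝ} (hG : ContDiff ℝ 2 G) (p d : ℂ) {z : ℂ}
    (h : f =ᶠ[𝓝 z] G ∘ co p d) (v : ℂ) :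
    ‖fderiv ℝ f z‖ ≤ ‖fderiv ℝ G (co p d z)‖ * ‖d‖⁻¹ ∧
      fderiv ℝ (fderiv ℝ f) z v v = fderiv ℝ (fderiv ℝ G) (co p d z) (v / d) (v / d) := by
  have h1 : fderiv ℝ (G ∘ co p d) =
      fun y => (fderiv ℝ G (co p d y)).comp (ContinuousLinearMap.mul ℝ ℂ d⁻¹) := funext fun y =>
    ((hG.differentiable (by simp) _).hasFDerivAt.comp y (t9pass_co p d y)).fderiv
  constructor
  · rw [h.fderiv_eq, h1]
    refine (ContinuousLinearMap.opNorm_comp_le _ _).trans ?_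
    refine mul_le_mul_of_nonneg_left ?_ (norm_nonneg _)
    rw [← norm_inv]
    exact ContinuousLinearMap.opNorm_mul_apply_le ℝ ℂ _
  · have h2 : Differentiable ℝ (fderiv ℝ G) :=
      (hG.fderiv_right (m := 1) (by norm_num)).differentiable (by simp)
    have h3 := (((h2 _).hasFDerivAt.comp z (t9pass_co p d z)).clm_comp
      (hasFDerivAt_const (ContinuousLinearMap.mul ℝ ℂ d⁻¹) z)).fderiv
    simp only [Function.comp_def] at h3
    rw [h.fderiv.fderiv_eq, h1, h3]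
    simp [div_eq_inv_mul]

lemma t18hess_h {g n n₀ ε : ℝ} {u : ℂ} (hε : 0 ≤ ε) (hε1 : ε ≤ 1 / 10) (hu : ‖u - 1‖ ≤ ε)
    (hg : |g| ≤ ε * n₀) (h1 : n₀ / 2 ≤ |n|) (h2 : |n| ≤ 2 * n₀) :
    9 / 20 * n₀ ≤ ‖(g + n * Complex.I) * u‖ ∧ ‖(g + n * Complex.I) * u‖ ≤ 3 * n₀ ∧
      |((g + n * Complex.I) * u).re| ≤ 4 * ε * n₀ := by
  have h0 : 0 ≤ n₀ := by linarith [abs_nonneg n]
  have a1 : ‖u‖ ≤ 11 / 10 := by
    have := norm_add_le (u - 1) 1
    rw [sub_add_cancel, norm_one] at this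
    linarith
  have a2 : 9 / 10 ≤ ‖u‖ := by
    have := norm_sub_norm_le (1 : ℂ) u
    rw [norm_one, norm_sub_rev] at this
    linarith
  have a3 : |n| ≤ ‖(g + n * Complex.I : ℂ)‖ := by
    simpa using Complex.abs_im_le_norm (g + n * Complex.I)
  have a4 : ‖(g + n * Complex.I : ℂ)‖ ≤ |g| + |n| := by
    simpa using Complex.norm_le_abs_re_add_abs_im (g + n * Complex.I)
  have a5 : |u.im| ≤ ε := by simpa using (Complex.abs_im_le_norm (u - 1)).trans hu
  have a6 : |u.re| ≤ 11 / 10 := (Complex.abs_re_le_norm u).trans a1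
  have a7 : ε * n₀ ≤ 1 / 10 * n₀ := mul_le_mul_of_nonneg_right hε1 h0
  refine ⟨?_, ?_, ?_⟩
  · rw [norm_mul]
    have := mul_le_mul (h1.trans a3) a2 (by norm_num) (norm_nonneg _)
    linarith
  · rw [norm_mul]
    have := mul_le_mul (a4.trans (add_le_add hg h2)) a1 (norm_nonneg _) (by positivity)
    linarith
  · have e : ((g + n * Complex.I) * u).re = g * u.re - n * u.im := by simp
    rw [e]
    refine (abs_sub _ _).trans ?_
    rw [abs_mul, abs_mul]
    have b1 := mul_le_mul hg a6 (abs_nonneg _) (by positivity)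
    have b2 := mul_le_mul h2 a5 (abs_nonneg _) (by positivity)
    nlinarith [mul_nonneg hε h0]

lemma t18hess_win {f : ℝ → ℝ} (hf : Continuous f) {a b T : ℝ} (ha : 0 ≤ a) (hb : b ≤ T)
    (hab : a ≤ b) (h : ∀ t ∈ Set.Icc 0 T, t ≤ a ∨ b ≤ t → f t = 0) :
    ∫ t in (0 : ℝ)..T, f t = ∫ t in a..b, f t := by
  rw [← intervalIntegral.integral_add_adjacent_intervals (hf.intervalIntegrable 0 a)
    (hf.intervalIntegrable a T), ← intervalIntegral.integral_add_adjacent_intervals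
    (hf.intervalIntegrable a b) (hf.intervalIntegrable b T)]
  have h1 : ∫ t in (0 : ℝ)..a, f t = ∫ _ in (0 : ℝ)..a, (0 : ℝ) :=
    intervalIntegral.integral_congr fun t ht => by
      rw [Set.uIcc_of_le ha] at ht
      exact h t ⟨ht.1, by linarith [ht.2]⟩ (Or.inl ht.2)
  have h2 : ∫ t in b..T, f t = ∫ _ in b..T, (0 : ℝ) :=
    intervalIntegral.integral_congr fun t ht => by
      rw [Set.uIcc_of_le hb] at ht
      exact h t ⟨by linarith [ht.1], ht.2⟩ (Or.inr ht.1)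
  rw [h1, h2]
  simp

variable {Γ : Type} [Group Γ] [MulAction Γ ℍ] {L : ℂ × ℂ → ℝ} {c : Γ → ℝ} {x : ℝ → ℍ} {γ : Γ}
  {T : ℝ} {η : ℝ → ℂ}

theorem OD.hess (F : Deck Γ) (hL : Tonelli Γ L) (hc : c ∈ Coh Γ) (h : OD L c x γ T η)
    (hm : MinPer x γ T) (h0 : tng x η (T / 2) = 0) {θ : ℝ} (hθ : 0 < θ) :
    ∃ (q : Bx) (m : ℝ), q.Ok ∧ 0 < m ∧
      m ≤ ∫ t in (0 : ℝ)..T, fderiv ℝ (fderiv ℝ (fam Γ q 3)) (x t) (η t) (η t) ∧
      (∀ t, |fam Γ q 3 (x t)| ≤ θ * m) ∧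
      ∫ t in (0 : ℝ)..T, ‖fderiv ℝ (fam Γ q 3) (x t)‖ * (x t).im ≤ θ * m := by
  have hR := h.cp.reg F hL
  have hv := h.cp.vel_ne F hL h.no
  have hT : 0 < T := hm.1.1
  have cη : Continuous η := continuous_iff_continuousAt.2 fun t => (h.jac t).1.continuousAt
  have cx : Continuous fun t => (x t : ℂ) := UpperHalfPlane.continuous_coe.comp hR.continuous
  have cq : Continuous fun t => η t / vel x t := cη.div hR.contVel hv
  have cn : Continuous (nrm x η) := Complex.continuous_im.comp cq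
  have cg : Continuous (tng x η) := Complex.continuous_re.comp cq
  have ci : Continuous fun t => (x t).im := UpperHalfPlane.continuous_im.comp hR.continuous
  obtain ⟨Λ, hΛ, hloc⟩ := hess_local
  set t₀ := T / 2 with ht₀
  obtain ⟨n₀, hn₀, hn⟩ : ∃ n₀ : ℝ, 0 < n₀ ∧ |nrm x η t₀| = n₀ :=
    ⟨_, abs_pos.2 (h.nrm_ne F hL hc t₀), rfl⟩
  obtain ⟨v₀, hv₀, hvv⟩ : ∃ v₀ : ℝ, 0 < v₀ ∧ ‖vel x t₀‖ = v₀ := ⟨_, norm_pos_iff.2 (hv t₀), rfl⟩
  obtain ⟨y₀, hy₀, hyy⟩ : ∃ y₀ : ℝ, 0 < y₀ ∧ (x t₀).im = y₀ := ⟨_, (x t₀).im_pos, rfl⟩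
  obtain ⟨ε, hε, hε1, hε2⟩ : ∃ ε : ℝ, 0 < ε ∧ ε ≤ 1 / 10 ∧ Λ * ε ≤ 1 / 144 := by
    refine ⟨min (1 / 10) (1 / (144 * Λ)), by positivity, min_le_left _ _, ?_⟩
    calc Λ * min (1 / 10) (1 / (144 * Λ)) ≤ Λ * (1 / (144 * Λ)) :=
          mul_le_mul_of_nonneg_left (min_le_right _ _) hΛ.le
      _ = 1 / 144 := by field_simp
  have hev : ∀ᶠ t in 𝓝 t₀, |tng x η t| < ε * n₀ ∧ n₀ / 2 < |nrm x η t| ∧
      |nrm x η t| < 2 * n₀ ∧ (x t).im < 2 * y₀ := by
    refine (cg.abs.continuousAt.eventually_lt continuousAt_const ?_).and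
      ((continuousAt_const.eventually_lt cn.abs.continuousAt ?_).and
      ((cn.abs.continuousAt.eventually_lt continuousAt_const ?_).and
      (ci.continuousAt.eventually_lt continuousAt_const ?_)))
    · rw [h0, abs_zero]; positivity
    · rw [hn]; linarith
    · rw [hn]; linarith
    · rw [hyy]; linarith
  obtain ⟨r, hr, hnear⟩ := Metric.eventually_nhds_iff.1 hev
  obtain ⟨q, hok, hw1, ha, hb, he, hwT, hζ0, hdir, key⟩ := h.cp.passage F hL hm hv t₀ hε hε1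
    (show 0 < min (r / 4) (min (θ * n₀ ^ 2 / 104) (θ * n₀ ^ 2 * v₀ / (192 * Λ * y₀))) by positivity)
  simp only [le_min_iff] at hw1
  obtain ⟨hw1, hw2, hw3⟩ := hw1
  have hw0 := hok.w
  obtain ⟨p, d, w, a, b, e⟩ := q
  simp only at ha hb he hwT hζ0 hdir hw0 hw1 hw2 hw3
  subst ha hb he
  have hd0 : d ≠ 0 := hok.ne
  have hdn : 0 < ‖d‖ := norm_pos_iff.2 hd0
  set q : Bx := ⟨p, d, e, -e, e, e⟩ with hq
  have key' : ∀ (δ : Γ) (t : ℝ), ((δ • x t : ℍ) : ℂ) ∈ q.supp →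
      ∃ j : ℤ, |t - (t₀ + j * T)| < 3 * e ∧ δ = γ ^ (-j) := key
  set ζ : ℝ → ℂ := fun t => co p d (x t) with hζ
  have hζd : ∀ t, HasDerivAt ζ (vel x t / d) t := fun t =>
    ((hR.hasDerivAt t).sub_const p).div_const d
  have habs : ∀ t ∈ Set.Icc (t₀ - 3 * e) (t₀ + 3 * e), |t - t₀| ≤ 3 * e := fun t ht =>
    abs_le.2 ⟨by linarith [ht.1], by linarith [ht.2]⟩
  have hri := fun t (ht : t ∈ Set.Icc (t₀ - 3 * e) (t₀ + 3 * e)) =>
    t9pass_re_im hζd (fun s hs => hdir s (habs s hs)) hζ0 ht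
  have hεe : ε * e ≤ 1 / 10 * e := mul_le_mul_of_nonneg_right hε1 hw0.le
  have hsm := (hok.pot F 3).smooth
  have hO : IsOpen {w : ℂ | 0 < w.im} := isOpen_lt continuous_const Complex.continuous_im
  have hs1 : ContDiffOn ℝ 1 (fderiv ℝ (fam Γ q 3)) {w : ℂ | 0 < w.im} :=
    hsm.fderiv_of_isOpen hO (WithTop.coe_le_coe.2 (le_top : (1 + 1 : ℕ∞) ≤ ⊤))
  have c1 : Continuous fun t => fderiv ℝ (fam Γ q 3) (x t) :=
    hs1.continuousOn.comp_continuous cx fun t => (x t).im_pos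
  have c2 : Continuous fun t => fderiv ℝ (fderiv ℝ (fam Γ q 3)) (x t) :=
    (hs1.continuousOn_fderiv_of_isOpen hO le_rfl).comp_continuous cx fun t => (x t).im_pos
  have cH : Continuous fun t => fderiv ℝ (fderiv ℝ (fam Γ q 3)) (x t) (η t) (η t) :=
    (c2.clm_apply cη).clm_apply cη
  have cI : Continuous fun t => ‖fderiv ℝ (fam Γ q 3) (x t)‖ * (x t).im := c1.norm.mul ci
  have hout : ∀ t ∈ Set.Icc 0 T, t ≤ t₀ - 3 * e ∨ t₀ + 3 * e ≤ t →
      fam Γ q 3 =ᶠ[𝓝 (x t : ℂ)] fun _ => 0 := by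
    intro t ht ht'
    have H : ∀ δ : Γ, ((δ • x t : ℍ) : ℂ) ∉ q.supp := fun δ hδ => by
      obtain ⟨j, hj, -⟩ := key' δ t hδ
      have hj0 : j = 0 := t9pass_int (w := T / 6) (T := T) (t := t) (t₀ := t₀) (by linarith)
        (by linarith) (by
          rw [Int.cast_zero, zero_mul, add_zero, abs_le]
          constructor <;> linarith [ht.1, ht.2])
      rw [hj0, Int.cast_zero, zero_mul, add_zero, abs_lt] at hj
      rcases ht' with h' | h' <;> linarith [hj.1, hj.2]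
    exact t18hess_ev ((hok.fam_zero F H).mono fun z hz => hz 3)
  have hin : ∀ t ∈ Set.Icc (t₀ - 3 * e) (t₀ + 3 * e), fam Γ q 3 =ᶠ[𝓝 (x t : ℂ)]
      (fun z : ℂ => cut (-e) e e z.re * Complex.normSq z) ∘ co p d := by
    intro t ht
    have hU : ∀ δ : Γ, ((δ • x t : ℍ) : ℂ) ∈ q.supp → δ = 1 := by
      intro δ hδ
      obtain ⟨i, hi, rfl⟩ := key' δ _ hδ
      have : i = 0 := t9pass_int hwT hi (by simpa using habs t ht)
      rw [this, neg_zero, zpow_zero]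
    have hev2 : ∀ᶠ z : ℍ in 𝓝 (x t), |(co p d z).im| < 2 * e := by
      have hc : Continuous fun z : ℍ => |(co p d z).im| := by
        unfold co
        exact (Complex.continuous_im.comp
          ((UpperHalfPlane.continuous_coe.sub continuous_const).div_const d)).abs
      refine hc.continuousAt.eventually_lt continuousAt_const ?_
      have h1 := (hri t ht).2
      have h2 := mul_le_mul hε1 (habs t ht) (abs_nonneg _) (by norm_num)
      simp only [hζ] at h1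
      linarith
    refine t18hess_ev ?_
    filter_upwards [hok.fam_eventually F hU, hev2] with z h1 h2
    have h3 : cut (-e - e) (e + e) e (co p d z).im = 1 :=
      cut_eq_one hw0 ⟨by linarith [(abs_lt.1 h2).1], by linarith [(abs_lt.1 h2).2]⟩
    rw [h1 3, one_smul]
    simp only [Bx.fn, hq, h3, Function.comp_apply]
    simp only [Matrix.cons_val]
    ring
  have hζn : ∀ t ∈ Set.Icc (t₀ - 3 * e) (t₀ + 3 * e), ‖ζ t‖ ≤ 5 * e := by
    intro t ht
    obtain ⟨h1, h2⟩ := hri t ht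
    have h3 := habs t ht
    have h4 := mul_le_mul hε1 h3 (abs_nonneg _) (by norm_num)
    have h5 := abs_add_le ((ζ t).re - (t - t₀)) (t - t₀)
    rw [sub_add_cancel] at h5
    refine (Complex.norm_le_abs_re_add_abs_im _).trans ?_
    linarith
  have hnr : ∀ t ∈ Set.Icc (t₀ - 3 * e) (t₀ + 3 * e), |tng x η t| < ε * n₀ ∧
      n₀ / 2 < |nrm x η t| ∧ |nrm x η t| < 2 * n₀ ∧ (x t).im < 2 * y₀ := fun t ht =>
    hnear (by rw [Real.dist_eq]; linarith [habs t ht])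
  have hlow : ∀ t ∈ Set.Icc (t₀ - 3 * e) (t₀ + 3 * e),
      2 / 5 * n₀ ^ 2 * cut (-e) e e (ζ t).re ≤
        fderiv ℝ (fderiv ℝ (fam Γ q 3)) (x t) (η t) (η t) + n₀ ^ 2 / 12 := by
    intro t ht
    obtain ⟨a1, a2, a3, -⟩ := hnr t ht
    obtain ⟨b1, b2, b3⟩ := t18hess_h hε.le hε1 (hdir t (habs t ht)) a1.le a2.le a3.le
    have e1 : (tng x η t + nrm x η t * Complex.I) * (vel x t / d) = η t / d := by
      rw [tng, nrm, Complex.re_add_im]
      have := hv t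
      field_simp
    rw [e1] at b1 b2 b3
    rw [(t18hess_comp (t18hess_smooth e) p d (hin t ht) (η t)).2]
    have b4 := (hloc e (ζ t) (η t / d) hw0 (hζn t ht)).2
    have b5 : (9 / 20 * n₀) ^ 2 ≤ ‖η t / d‖ ^ 2 := pow_le_pow_left₀ (by positivity) b1 2
    have b6 := mul_le_mul_of_nonneg_left b5 (cut_nonneg (-e) e e (ζ t).re)
    have b7 := mul_le_mul_of_nonneg_left (mul_le_mul b3 b2 (norm_nonneg _) (by positivity)) hΛ.le
    have b8 := mul_le_mul_of_nonneg_right hε2 (sq_nonneg n₀)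
    have b9 := mul_nonneg (cut_nonneg (-e) e e (ζ t).re) (sq_nonneg n₀)
    simp only [hζ] at b4 b6 b9 ⊢
    nlinarith
  have hw00 : 0 ≤ t₀ - 3 * e := by linarith
  have hw01 : t₀ + 3 * e ≤ T := by linarith
  have hw02 : t₀ - 3 * e ≤ t₀ + 3 * e := by linarith
  refine ⟨q, e * n₀ ^ 2 / 8, hok, by positivity, ?_, fun t => ?_, ?_⟩
  · rw [t18hess_win cH hw00 hw01 hw02 fun t ht ht' => by
      rw [(hout t ht ht').fderiv.fderiv_eq]; simp]
    have cH' := cH.add (continuous_const (y := n₀ ^ 2 / 12))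
    have h1 : (∫ t in (t₀ - 4 / 5 * e)..(t₀ + 4 / 5 * e),
        (fderiv ℝ (fderiv ℝ (fam Γ q 3)) (x t) (η t) (η t) + n₀ ^ 2 / 12)) ≤
        ∫ t in (t₀ - 3 * e)..(t₀ + 3 * e),
          (fderiv ℝ (fderiv ℝ (fam Γ q 3)) (x t) (η t) (η t) + n₀ ^ 2 / 12) := by
      refine intervalIntegral.integral_mono_interval (by linarith) (by linarith) (by linarith) ?_
        (cH'.intervalIntegrable _ _)
      refine (ae_restrict_iff' measurableSet_Ioc).2 (ae_of_all _ fun t ht => ?_)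
      exact le_trans (mul_nonneg (by positivity) (cut_nonneg _ _ _ _)) (hlow t ⟨ht.1.le, ht.2⟩)
    have h2 : (∫ _ in (t₀ - 4 / 5 * e)..(t₀ + 4 / 5 * e), 2 / 5 * n₀ ^ 2) ≤
        ∫ t in (t₀ - 4 / 5 * e)..(t₀ + 4 / 5 * e),
          (fderiv ℝ (fderiv ℝ (fam Γ q 3)) (x t) (η t) (η t) + n₀ ^ 2 / 12) := by
      refine intervalIntegral.integral_mono_on (by linarith) intervalIntegrable_const
        (cH'.intervalIntegrable _ _) fun t ht => ?_
      have ht' : t ∈ Set.Icc (t₀ - 3 * e) (t₀ + 3 * e) :=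
        ⟨by linarith [ht.1], by linarith [ht.2]⟩
      have h3 : |t - t₀| ≤ 4 / 5 * e := abs_le.2 ⟨by linarith [ht.1], by linarith [ht.2]⟩
      have h4 := abs_le.1 (hri t ht').1
      have h5 : ε * |t - t₀| ≤ 1 / 10 * (4 / 5 * e) :=
        mul_le_mul hε1 h3 (abs_nonneg _) (by norm_num)
      have h7 : cut (-e) e e (ζ t).re = 1 := cut_eq_one hw0
        ⟨by linarith [h4.1, ht.1], by linarith [h4.2, ht.2]⟩
      have := hlow t ht'
      rwa [h7, mul_one] at this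
    rw [intervalIntegral.integral_const, smul_eq_mul] at h2
    have h3 := h2.trans h1
    rw [intervalIntegral.integral_add (cH.intervalIntegrable _ _) intervalIntegrable_const,
      intervalIntegral.integral_const, smul_eq_mul] at h3
    nlinarith [mul_nonneg hw0.le (sq_nonneg n₀)]
  · have hb : 13 * e ^ 2 ≤ θ * (e * n₀ ^ 2 / 8) := by
      have := mul_le_mul_of_nonneg_left hw2 hw0.le
      nlinarith
    refine le_trans ?_ hb
    by_cases hex : ∃ δ : Γ, ((δ • x t : ℍ) : ℂ) ∈ q.supp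
    · obtain ⟨δ, hδ⟩ := hex
      obtain ⟨j, hj, hδj⟩ := key' δ t hδ
      rw [hok.fam_eq 3 (δ := δ) fun δ' hδ' => by
        obtain ⟨i, hi, rfl⟩ := key' δ' t hδ'
        rw [hδj, t9pass_int hwT hi hj.le]]
      obtain ⟨h1, h2, h3⟩ := hδ
      simp only [hq] at h1 h2 h3
      simp only [Bx.fn, hq]
      simp only [Matrix.cons_val]
      set z := co p d (δ • x t : ℍ)
      have h4 : Complex.normSq z ≤ 13 * e ^ 2 := by
        rw [Complex.normSq_apply]
        have := abs_le.1 h1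
        nlinarith
      have h5 := mul_le_one₀ (cut_le_one (-e) e e z.re) (cut_nonneg (-e - e) (e + e) e z.im)
        (cut_le_one (-e - e) (e + e) e z.im)
      have h6 := mul_nonneg (cut_nonneg (-e) e e z.re) (cut_nonneg (-e - e) (e + e) e z.im)
      rw [abs_of_nonneg (mul_nonneg h6 (Complex.normSq_nonneg z))]
      exact (mul_le_of_le_one_left (Complex.normSq_nonneg z) h5).trans h4
    · rw [hok.fam_eq 3 (δ := 1) fun δ' hδ' => absurd ⟨δ', hδ'⟩ hex,
        hok.fn_zero 3 fun h' => hex ⟨1, h'⟩, abs_zero]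
      positivity
  · rw [t18hess_win cI hw00 hw01 hw02 fun t ht ht' => by
      rw [(hout t ht ht').fderiv_eq]; simp]
    have hdv : ‖d‖⁻¹ ≤ 2 / v₀ := by
      have h1 := hdir t₀ (by rw [sub_self, abs_zero]; positivity)
      have h2 := norm_add_le (vel x t₀ / d - 1) 1
      rw [sub_add_cancel, norm_one, norm_div, hvv, div_le_iff₀ hdn] at h2
      rw [inv_eq_one_div, div_le_div_iff₀ hdn hv₀]
      nlinarith
    have h1 : (∫ t in (t₀ - 3 * e)..(t₀ + 3 * e), ‖fderiv ℝ (fam Γ q 3) (x t)‖ * (x t).im) ≤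
        ∫ _ in (t₀ - 3 * e)..(t₀ + 3 * e), Λ * e * (2 / v₀) * (2 * y₀) := by
      refine intervalIntegral.integral_mono_on hw02 (cI.intervalIntegrable _ _)
        intervalIntegrable_const fun t ht => ?_
      refine mul_le_mul ?_ (hnr t ht).2.2.2.le (x t).im_pos.le (by positivity)
      refine (t18hess_comp (t18hess_smooth e) p d (hin t ht) 0).1.trans ?_
      exact mul_le_mul (hloc e (ζ t) 0 hw0 (hζn t ht)).1 hdv (by positivity) (by positivity)
    refine h1.trans ?_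
    rw [intervalIntegral.integral_const, smul_eq_mul]
    rw [le_div_iff₀ (by positivity)] at hw3
    have e1 : (t₀ + 3 * e - (t₀ - 3 * e)) * (Λ * e * (2 / v₀) * (2 * y₀)) =
        e / (8 * v₀) * (e * (192 * Λ * y₀)) := by field_simp; ring
    have e2 : θ * (e * n₀ ^ 2 / 8) = e / (8 * v₀) * (θ * n₀ ^ 2 * v₀) := by field_simp
    rw [e1, e2]
    exact mul_le_mul_of_nonneg_left hw3 (by positivity)

end Pool.Agent.Lib.MP_5bb885_an.Gen
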