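import Pool.Agent.Lib.MP_5bb885_an.T18Stab
import Pool.Agent.Lib.MP_5bb885_an.T18Cmp
import Pool.Agent.Lib.MP_5bb885_an.T18Hess

/-!
A direction in which the degeneracy of a one-sided curve does not persist.
-/

namespace Pool.Agent.Lib.MP_5bb885_an.Gen

open UpperHalfPlane MeasureTheory Filter Topology

variable {Γ : Type} [Group Γ] [MulAction Γ ℍ] {L : ℂ × ℂ → ℝ} {c : Γ → ℝ} {x : ℝ → ℍ} {γ : Γ}
  {T : ℝ} {η : ℝ → ℂ}

lemma t18cone_prod {E G : Type} [NormedAddCommGroup E] [NormedAddCommGroup G] {l : Filter ℕ}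
    {fs : ℕ → ℝ → E} {f : ℝ → E} {gs : ℕ → ℝ → G} {g : ℝ → G} (h : UW l fs f) (h' : UW l gs g) :
    UW l (fun n t => (fs n t, gs n t)) fun t => (f t, g t) := by
  intro W ε hε
  filter_upwards [h W ε hε, h' W ε hε] with n h1 h2 t ht
  rw [Prod.mk_sub_mk, Prod.norm_mk]
  exact max_le (h1 t ht) (h2 t ht)

lemma t18cone_mem (y : ℝ → ℍ) (t : ℝ) : jet y t ∈ TH := (y t).im_pos

lemma t18cone_sup {l : Filter ℕ} {g : ℂ → ℝ} (hg : C2 Γ g) {ys : ℕ → ℝ → ℍ} {Ts : ℕ → ℝ}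
    (hx : Continuous (jet x)) (hu : UW l (fun n => jet (ys n)) (jet x))
    (hp : ∀ n, Per (ys n) γ (Ts n)) (hT : Tendsto Ts l (𝓝 T)) {a : ℝ} (ha : 0 < a)
    (hb : ∀ t, |g (x t)| ≤ a) : ∀ᶠ n in l, ∀ t, |g (ys n t)| ≤ 2 * a := by
  have hφ : ContinuousOn (fun p : ℂ × ℂ => g p.1) TH :=
    hg.1.continuousOn.comp continuous_fst.continuousOn fun p hp => hp
  have h1 := hu.comp hx isOpen_TH (t18cone_mem x) hφ (T + 1) a ha
  filter_upwards [h1, hT.eventually (ge_mem_nhds (lt_add_one T))] with n h2 h3 t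
  obtain ⟨j, hj, e⟩ := (hp n).reduce t
  have h4 := h2 (t - j * Ts n) (by rw [abs_of_nonneg hj.1]; linarith [hj.2])
  have h5 : |g (ys n (t - j * Ts n)) - g (x (t - j * Ts n))| ≤ a := h4
  rw [e, hg.2]
  have h6 := hb (t - j * Ts n)
  rw [abs_le] at h5 h6 ⊢
  constructor <;> linarith [h5.1, h5.2, h6.1, h6.2]

lemma t18cone_grad {l : Filter ℕ} {g : ℂ → ℝ} (hg : C2 Γ g) {ys : ℕ → ℝ → ℍ} {Ts : ℕ → ℝ}
    (hx : Continuous (jet x)) (hy : ∀ n, Continuous (jet (ys n)))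
    (hu : UW l (fun n => jet (ys n)) (jet x)) (hT : Tendsto Ts l (𝓝 T)) :
    Tendsto (fun n => ∫ t in (0 : ℝ)..Ts n, ‖fderiv ℝ g (ys n t)‖ * (ys n t).im) l
      (𝓝 (∫ t in (0 : ℝ)..T, ‖fderiv ℝ g (x t)‖ * (x t).im)) := by
  have hφ : ContinuousOn (fun p : ℂ × ℂ => ‖fderiv ℝ g p.1‖ * p.1.im) TH :=
    (((t9tay_cont isOpen_HP hg.1).2.1.comp continuous_fst.continuousOn fun p hp => hp).norm).mul
      (Complex.continuous_im.comp continuous_fst).continuousOn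
  exact (hu.comp hx isOpen_TH (t18cone_mem x) hφ).integral
    (fun n => hφ.comp_continuous (hy n) (t18cone_mem _))
    (hφ.comp_continuous hx (t18cone_mem _)) hT

lemma t18cone_hess {l : Filter ℕ} {g : ℂ → ℝ} (hg : C2 Γ g) {ys : ℕ → ℝ → ℍ} {Ts : ℕ → ℝ}
    {ζ : ℕ → ℝ → ℂ} (hx : Continuous (jet x)) (hy : ∀ n, Continuous (jet (ys n)))
    (hη : Continuous η) (hζ : ∀ n, Continuous (ζ n))
    (hu : UW l (fun n => jet (ys n)) (jet x)) (hu' : UW l ζ η) (hT : Tendsto Ts l (𝓝 T)) :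
    Tendsto (fun n => ∫ t in (0 : ℝ)..Ts n, fderiv ℝ (fderiv ℝ g) (ys n t) (ζ n t) (ζ n t)) l
      (𝓝 (∫ t in (0 : ℝ)..T, fderiv ℝ (fderiv ℝ g) (x t) (η t) (η t))) := by
  have h0 : ContinuousOn (fun p : (ℂ × ℂ) × ℂ => fderiv ℝ (fderiv ℝ g) p.1.1)
      (Prod.fst ⁻¹' TH) :=
    (t9tay_cont isOpen_HP hg.1).2.2.comp continuous_fst.fst.continuousOn fun p hp => hp
  have hφ : ContinuousOn (fun p : (ℂ × ℂ) × ℂ => fderiv ℝ (fderiv ℝ g) p.1.1 p.2 p.2)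
      (Prod.fst ⁻¹' TH) :=
    (h0.clm_apply continuous_snd.continuousOn).clm_apply continuous_snd.continuousOn
  exact ((t18cone_prod hu hu').comp (hx.prodMk hη) (isOpen_TH.preimage continuous_fst)
    (t18cone_mem x) hφ).integral
    (fun n => hφ.comp_continuous ((hy n).prodMk (hζ n)) (t18cone_mem _))
    (hφ.comp_continuous (hx.prodMk hη) (t18cone_mem _)) hT

lemma t18cone_bd {E : Type} [NormedAddCommGroup E] {l : Filter ℕ} {fs : ℕ → ℝ → E} {f : ℝ → E}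
    (h : UW l fs f) {W B : ℝ} (hB : ∀ t ∈ Set.Icc 0 W, ‖f t‖ ≤ B) :
    ∀ᶠ n in l, ∀ t ∈ Set.Icc 0 W, ‖fs n t‖ ≤ B + 1 := by
  filter_upwards [h W 1 one_pos] with n hn t ht
  have h1 := hn t (by rw [abs_of_nonneg ht.1]; exact ht.2)
  have h2 := norm_le_norm_add_norm_sub' (fs n t) (f t)
  linarith [hB t ht]

lemma t18cone_ball {l : Filter ℕ} {ys : ℕ → ℝ → ℍ} (hu : UW l (fun n => jet (ys n)) (jet x))
    {W R : ℝ} (hR : ∀ t ∈ Set.Icc 0 W, (x t : ℂ) ∈ KB R) :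
    ∀ᶠ n in l, ∀ t ∈ Set.Icc 0 W, dist (ys n t) I ≤ R + 1 := by
  obtain ⟨δ, hδ, hK⟩ := KB_thick R
  filter_upwards [hu W δ hδ] with n hn t ht
  have h1 := hn t (by rw [abs_of_nonneg ht.1]; exact ht.2)
  have h2 : ‖(ys n t : ℂ) - x t‖ ≤ δ := (norm_fst_le (jet (ys n) t - jet x t)).trans h1
  have h3 := hK _ (hR t ht) _ h2
  rw [add_sub_cancel] at h3
  exact mem_KB.1 h3

lemma t18cone_close {l : Filter ℕ} {a : ℕ → ℝ} {b ε : ℝ} (h : Tendsto a l (𝓝 b)) (hε : 0 < ε) :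
    ∀ᶠ n in l, |a n - b| ≤ ε := by
  filter_upwards [Metric.tendsto_nhds.1 h ε hε] with n hn
  exact hn.le

theorem OD.cone (F : Deck Γ) (hL : Tonelli Γ L) (hc : c ∈ Coh Γ) {S : Set (ℂ × ℂ → ℝ)}
    (U : Unif S) (hS : Lip2 S) (h : OD L c x γ T η) (hm : MinPer x γ T)
    (h0 : tng x η (T / 2) = 0) : ∃ q : Bx, q.Ok ∧ ∀ (f : ℕ → ℂ → ℝ) (s : ℕ → ℝ)
      (cs : ℕ → Γ → ℝ) (y₁ y₂ : ℕ → ℝ → ℍ) (T₁ T₂ : ℕ → ℝ) (ζ : ℕ → ℝ → ℂ),
      (∀ n, C2 Γ (f n) ∧ addP L (f n) ∈ S ∧ 0 < s n ∧ cs n ∈ Coh Γ ∧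
        CP (addP L (f n)) (cs n) (y₁ n) γ (T₁ n) ∧
        OD (addP L (f n + s n • fam Γ q 3)) (cs n) (y₂ n) γ (T₂ n) (ζ n)) →
      ToZero atTop f → Tendsto s atTop (𝓝 0) → CLim atTop c cs → Tendsto T₁ atTop (𝓝 T) →
      Tendsto T₂ atTop (𝓝 T) → Tendsto (fun n => y₁ n 0) atTop (𝓝 (x 0)) →
      Tendsto (fun n => y₂ n 0) atTop (𝓝 (x 0)) → Tendsto (fun n => ζ n 0) atTop (𝓝 (η 0)) →
      Tendsto (fun n => deriv (ζ n) 0) atTop (𝓝 (deriv η 0)) → False := by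
  have hx := h.cp.reg F hL
  have hT : 0 < T := h.cp.per.1
  have cη : Continuous η := continuous_iff_continuousAt.2 fun t => (h.jac t).1.continuousAt
  have cη' : Continuous (deriv η) := JacA.contDeriv (hx.coef hL) h.jac
  obtain ⟨C₁, δ, hC₁, hδ, hst⟩ := h.cp.stab F hL hc h.no
  obtain ⟨R, hR⟩ := exists_KB (Q := (fun t => (x t : ℂ)) '' Set.Icc 0 (T + 1))
    (isCompact_Icc.image (continuous_coe.comp hx.continuous))
    (by rintro _ ⟨t, -, rfl⟩; exact (x t).im_pos)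
  obtain ⟨B, hB⟩ := (isCompact_Icc (a := (0 : ℝ)) (b := T + 1)).exists_bound_of_continuousOn
    (f := fun t => (jet x t, η t, deriv η t)) (hx.contJet.prodMk (cη.prodMk cη')).continuousOn
  obtain ⟨C₂, hC₂, hcmp⟩ := cmp_hess F U hS γ (R + 1) (T + 1) (B + 1) (half_pos hT)
  have hθ : 0 < 1 / (8 * (C₁ + 1) * (C₂ + 1)) := by positivity
  obtain ⟨q, m, hq, hm0, hH, hG0, hG1⟩ := h.hess F hL hc hm h0 hθ
  set θ := 1 / (8 * (C₁ + 1) * (C₂ + 1)) with hθd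
  refine ⟨q, hq, fun f s cs y₁ y₂ T₁ T₂ ζ H hf hs hcs hT₁ hT₂ hy₁ hy₂ hζ hζ' => ?_⟩
  set g := fam Γ q 3 with hgd
  have hg : C2 Γ g := (hq.pot F 3).c2
  let l : Ultrafilter ℕ := Ultrafilter.of atTop
  have hl : (l : Filter ℕ) ≤ atTop := Ultrafilter.of_le atTop
  have hsg : ToZero atTop fun n => s n • g := hg.toZero hs
  have S₁ := (lseq_of_toZero F hL (fun n => (H n).1) hf).mono hl
  have S₂ := (lseq_of_toZero F hL (fun n => (H n).1.add (hg.smul (s n)))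
    (ToZero.add (fun n => (H n).1) (fun n => hg.smul (s n)) hf hsg)).mono hl
  have r₁ := fun n => (H n).2.2.2.2.1.reg F (S₁.tons n)
  have r₂ := fun n => (H n).2.2.2.2.2.cp.reg F (S₂.tons n)
  have u₀ := S₁.uw_cp F hc (fun n => (H n).2.2.2.1) (hcs.mono hl) h.cp
    (fun n => (H n).2.2.2.2.1) (hT₁.mono_left hl) (hy₁.mono_left hl)
  obtain ⟨u₂, u₃, u₄⟩ := S₂.uw_od F hc (fun n => (H n).2.2.2.1) (hcs.mono hl) h
    (fun n => (H n).2.2.2.2.2) (hT₂.mono_left hl) (hy₂.mono_left hl) (hζ.mono_left hl)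
    (hζ'.mono_left hl)
  obtain ⟨σ, hσ, hsec⟩ := exists_section ⟨hx.hasDerivAt, hx.contVel⟩
    (fun n => ⟨(r₁ n).hasDerivAt, (r₁ n).contVel⟩) u₀ (h.cp.vel_ne F hL h.no 0)
    (hy₂.mono_left hl)
  have p₁ := fun n => (H n).2.2.2.2.1.shift (σ n)
  have u₁ : UW l (fun n => jet fun t => y₁ n (t + σ n)) (jet x) := by
    have := u₀.shift hx.contJet hσ
    simpa only [← jet_shift] using this
  have d₁ : Tendsto (fun n => y₁ n (0 + σ n)) l (𝓝 (x 0)) := by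
    rw [isEmbedding_coe.tendsto_nhds_iff]
    exact (continuous_fst.tendsto _).comp (u₁.tendsto hx.contJet (tendsto_const_nhds (x := 0)))
  have hθm : 0 < θ * m := mul_pos hθ hm0
  have e1 := t18cone_sup hg hx.contJet u₁ (fun n => (p₁ n).per) (hT₁.mono_left hl) hθm hG0
  have e2 := t18cone_sup hg hx.contJet u₂ (fun n => (H n).2.2.2.2.2.cp.per) (hT₂.mono_left hl)
    hθm hG0
  have e3 := (t18cone_grad hg hx.contJet (fun n => (r₂ n).contJet) u₂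
    (hT₂.mono_left hl)).eventually (ge_mem_nhds (show _ < 2 * (θ * m) by linarith))
  have e4 := (t18cone_hess hg hx.contJet (fun n => (r₂ n).contJet) cη
    (fun n => continuous_iff_continuousAt.2 fun t => ((H n).2.2.2.2.2.jac t).1.continuousAt)
    u₂ u₃ (hT₂.mono_left hl)).eventually (le_mem_nhds (show m / 2 < _ by linarith))
  have e5 := t18cone_ball u₁ fun t ht => hR ⟨t, ht, rfl⟩
  have e6 := t18cone_ball u₂ fun t ht => hR ⟨t, ht, rfl⟩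
  have e7 := t18cone_bd u₁ fun t ht => (norm_fst_le (jet x t, η t, deriv η t)).trans (hB t ht)
  have e8 := t18cone_bd (t18cone_prod u₂ (t18cone_prod u₃ u₄)) hB
  have e9 : ∀ᶠ n in l, C₁ * (s n * (2 * (θ * m))) ≤ 1 := by
    have := ((hs.mono_left hl).mul_const (2 * (θ * m))).const_mul C₁
    exact this.eventually (ge_mem_nhds (by simp))
  have hε : 0 < min δ (min 1 (T / 2)) := by positivity
  obtain ⟨n, ⟨a1, a2, a3, a4, a5⟩, ⟨a6, a7, a8, a9⟩, ⟨b1, b2, b3⟩, ⟨b4, b5⟩, b6, b7, b8⟩ :=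
    ((e1.and (e2.and (e3.and (e4.and e5)))).and ((e6.and (e7.and (e8.and e9))).and
      ((((hf.sm hδ).filter_mono hl).and (((hsg.sm hδ).filter_mono hl).and
        (hcs.mono hl δ hδ))).and (((t18cone_close (hT₁.mono_left hl) hε).and
        (t18cone_close (hT₂.mono_left hl) hε)).and ((Metric.tendsto_nhds.1 d₁ δ hδ).and
        ((Metric.tendsto_nhds.1 (hy₂.mono_left hl) δ hδ).and hsec)))))).exists
  obtain ⟨c1, c2, c3, c4, -, c6⟩ := H n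
  have k1 : fderiv ℝ (s n • g) = s n • fderiv ℝ g := fderiv_const_smul_field (s n)
  have k2 : fderiv ℝ (s n • fderiv ℝ g) = s n • fderiv ℝ (fderiv ℝ g) :=
    fderiv_const_smul_field (𝕜 := ℝ) (f := fderiv ℝ g) (s n)
  have k3 : ∀ z : ℂ, |g z| ≤ 2 * (θ * m) → |(s n • g) z| ≤ s n * (2 * (θ * m)) := fun z hz => by
    rw [Pi.smul_apply, smul_eq_mul, abs_mul, abs_of_pos c3]
    exact mul_le_mul_of_nonneg_left hz c3.le
  rw [le_min_iff, le_min_iff] at b4 b5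
  obtain ⟨s1, s2⟩ := hst (f n) (s n • g) c1 (hg.smul _) b1 b2 (cs n) c4 b3 _ (y₂ n) (T₁ n) (T₂ n)
    (s n * (2 * (θ * m))) (p₁ n) c6.cp b4.1 b5.1 b6.le b7.le (by rw [zero_add]; exact b8)
    (fun t => ⟨k3 _ (a1 t), k3 _ (a2 t)⟩) (by
      rw [k1]
      simp only [Pi.smul_apply, norm_smul, Real.norm_eq_abs, abs_of_pos c3, mul_assoc,
        intervalIntegral.integral_const_mul]
      exact mul_le_mul_of_nonneg_left a3 c3.le)
  have key := hcmp _ c2 (S₁.tons n) (s n • g) (hg.smul _) (cs n) _ (y₂ n) (T₁ n) (T₂ n) _ (ζ n)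
    (p₁ n) (by rw [addP_addP]; exact c6)
    ⟨by linarith [(abs_le.1 b4.2.2).1], by linarith [(abs_le.1 b4.2.1).2]⟩
    ⟨by linarith [(abs_le.1 b5.2.2).1], by linarith [(abs_le.1 b5.2.1).2]⟩ a9 s1
    fun t ht => ⟨a5 t ht, a6 t ht, (norm_snd_le _).trans (a7 t ht),
      ((norm_snd_le _).trans (norm_fst_le _)).trans (a8 t ht),
      ((norm_fst_le _).trans (norm_snd_le _)).trans (a8 t ht),
      ((norm_snd_le _).trans (norm_snd_le _)).trans (a8 t ht), s2 t ht⟩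
  rw [k1, k2] at key
  simp only [Pi.smul_apply, smul_apply, smul_eq_mul,
    intervalIntegral.integral_const_mul] at key
  have k4 : s n * (m / 2) ≤ C₂ * (C₁ * (s n * (2 * (θ * m)))) :=
    (mul_le_mul_of_nonneg_left a4 c3.le).trans key
  have k5 : C₂ * C₁ * θ ≤ 1 / 8 := by
    rw [hθd, mul_one_div, div_le_iff₀ (by positivity)]
    nlinarith
  have k6 : 0 < s n * m := mul_pos c3 hm0
  nlinarith [mul_le_mul_of_nonneg_right k5 k6.le]

end Pool.Agent.Lib.MP_5bb885_an.Gen
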