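import Pool.Agent.Lib.MP_5bb885_an.T18Defs

/-!
Calibrated closed curves have no conjugate points.
-/

namespace Pool.Agent.Lib.MP_5bb885_an.Gen

open UpperHalfPlane MeasureTheory Filter Topology

variable {Γ : Type} [Group Γ] [MulAction Γ ℍ] {L : ℂ × ℂ → ℝ} {c : Γ → ℝ} {x : ℝ → ℍ} {γ : Γ}
  {T : ℝ} {η : ℝ → ℂ}

lemma CP.per (h : CP L c x γ T) : Per x γ T := by
  obtain ⟨u, -, -, -, hp⟩ := h
  exact hp

lemma CP.reg (F : Deck Γ) (hL : Tonelli Γ L) (h : CP L c x γ T) : Reg L x := by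
  obtain ⟨u, -, hd, hx, -⟩ := h
  exact Cal.reg (hL.unif1 F) (Set.mem_singleton L) hd hx

lemma CP.vel_ne (F : Deck Γ) (hL : Tonelli Γ L) (h : CP L c x γ T) (hn : ¬Ori γ) (t : ℝ) :
    vel x t ≠ 0 := by
  obtain ⟨u, -, hd, hx, hp⟩ := h
  rcases hx.vel_cases F hL hd with h | ⟨-, h⟩
  · exact h t
  · exfalso
    apply hn
    have e : γ • x 0 = x 0 := by rw [← hp.2 0, h]
    rw [F.free γ _ e]
    exact ori_one

lemma t18conj_per (h : Per x γ T) (r : ℝ) : Per (fun t => x (t + r)) γ T :=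
  ⟨h.1, fun t => by
    change x (t + T + r) = γ • x (t + r)
    rw [← h.2, add_right_comm]⟩

lemma CP.shift (h : CP L c x γ T) (r : ℝ) : CP L c (fun t => x (t + r)) γ T := by
  obtain ⟨u, hu, hd, hx, hp⟩ := h
  exact ⟨u, hu, hd, hx.shift r, t18conj_per hp r⟩

lemma MinPer.shift (h : MinPer x γ T) (r : ℝ) : MinPer (fun t => x (t + r)) γ T := by
  refine ⟨t18conj_per h.1 r, fun s t δ e => ?_⟩
  obtain ⟨j, h1, h2⟩ := h.2 (s + r) (t + r) δ e
  exact ⟨j, by linarith, h2⟩

lemma CP.unique (F : Deck Γ) (hL : Tonelli Γ L) (h : CP L c x γ T) {y : ℝ → ℍ} {γ' : Γ} {T' : ℝ}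
    (h' : CP L c y γ' T') (e : x 0 = y 0) : x = y := by
  obtain ⟨u, hu, hd, hx, hp⟩ := h
  obtain ⟨u', hu', hd', hy, hp'⟩ := h'
  funext r
  have := Cal.unique (hL.unif1 F) (Set.mem_singleton L) hd hx (hy.per hu' hp' hu hd) e r
  rwa [zero_add] at this

lemma Per.vel (F : Deck Γ) (h : Per x γ T) (t : ℝ) :
    Gen.vel x (t + T) = dk γ (x t) (Gen.vel x t) := by
  rw [← F.vel_smul γ x t, ← vel_shift, funext h.2]

lemma t18conj_sv (F : Deck Γ) (hL : Tonelli Γ L) (hc : c ∈ Coh Γ) (h : CP L c x γ T)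
    (hv : ∀ t, vel x t ≠ 0) (hJ : Jac L x η) (hE : En L x η) {b : ℝ} (hb : nrm x η b = 0) :
    ∃ C : ℝ, ∀ t < b, bt L x η t ≤ C * (‖nu x η t‖ / (x t).im) ^ 2 := by
  obtain ⟨u, hu, hd, hx, hp⟩ := h
  obtain ⟨C, -, hC⟩ := sv_ineq F hL hc hu hd hx hp c2_zero (TDa.zero L c) (by simp)
  have hn : nu x η b = 0 := (nrm_eq_zero (hv b)).1 hb
  have hbt : bt L x η b = 0 := by rw [bt, hn, map_zero]
  refine ⟨2 * C, fun t ht => ?_⟩
  set A := ‖nu x η t‖ / (x t).im with hA
  have h1 : ∀ σ : ℝ, 0 < σ →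
      0 ≤ -bt L x η t / 2 + C * A ^ 2 + C * σ * A + C * σ ^ 2 * (b - t + C) := by
    intro σ hσ
    have := hC η hJ hE t b ht rfl rfl σ hσ
    simpa [hn, hbt] using this
  have h2 : Tendsto (fun σ : ℝ =>
      -bt L x η t / 2 + C * A ^ 2 + C * σ * A + C * σ ^ 2 * (b - t + C)) (𝓝[>] 0)
      (𝓝 (-bt L x η t / 2 + C * A ^ 2 + C * 0 * A + C * 0 ^ 2 * (b - t + C))) :=
    (Continuous.tendsto (by fun_prop) 0).mono_left nhdsWithin_le_nhds
  have h3 := ge_of_tendsto h2 (eventually_nhdsWithin_of_forall h1)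
  linarith

theorem CP.conj (F : Deck Γ) (hL : Tonelli Γ L) (hc : c ∈ Coh Γ) (h : CP L c x γ T)
    (hv : ∀ t, vel x t ≠ 0) (hJ : Jac L x η) (hE : En L x η) {a b : ℝ} (hab : a < b)
    (ha : nrm x η a = 0) (hb : nrm x η b = 0) : ∃ p : ℝ, ∀ t, η t = p • vel x t := by
  have hx := h.reg F hL
  obtain ⟨C, hC⟩ := t18conj_sv F hL hc h hv hJ hE hb
  have cη : Continuous η := continuous_iff_continuousAt.2 fun t => (hJ t).1.continuousAt
  have cq : Continuous fun t => η t / vel x t := cη.div hx.contVel hv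
  have ct : Continuous (tng x η) := Complex.continuous_re.comp cq
  have cn : Continuous (nrm x η) := Complex.continuous_im.comp cq
  have cd : Continuous (dmom L x η) :=
    continuous_iff_continuousAt.2 fun t => (hJ t).2.continuousAt
  let G : ℝ → ℝ := fun t => (dmom L x η t - tng x η t • frc L x t) (Complex.I * vel x t)
  have cG : Continuous G :=
    (cd.sub (ct.smul (hx.contFrc hL.smooth))).clm_apply (continuous_const.mul hx.contVel)
  let q : ℝ → ℝ := fun t => (‖vel x t‖ / (x t).im) ^ 2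
  have cq' : Continuous q :=
    (hx.contVel.norm.div (UpperHalfPlane.continuous_im.comp hx.continuous)
      fun t => (x t).im_pos.ne').pow 2
  have hnu : ∀ t, nu x η t = nrm x η t • (Complex.I * vel x t) := fun t => by
    rw [t9js_nu (hv t), Complex.real_smul, mul_assoc]
  have hineq : ∀ t < b, nrm x η t * G t ≤ C * (nrm x η t ^ 2 * q t) := by
    intro t ht
    have := hC t ht
    rw [bt, norm_nu (hv t), mul_div_assoc, mul_pow, sq_abs, hnu, map_smul, smul_eq_mul] at this
    exact this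
  set ω : ℂ := deriv η a - tng x η a • deriv (vel x) a with hω
  have h0 : η a = tng x η a • vel x a := sub_eq_zero.1 ((nrm_eq_zero (hv a)).1 ha)
  have him : HasDerivAt (nrm x η) (ω / vel x a).im a := by
    have hq := (hJ a).1.hasDerivAt.div (hx.acc a).hasDerivAt (hv a)
    have e : (deriv η a * vel x a - η a * deriv (vel x) a) / vel x a ^ 2 = ω / vel x a := by
      have := hv a
      rw [hω]
      generalize tng x η a = τ at h0 ⊢
      rw [h0, Complex.real_smul, Complex.real_smul]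
      field_simp
    rw [e] at hq
    exact Complex.imCLM.hasFDerivAt.comp_hasDerivAt a hq
  have hs : Tendsto (slope (nrm x η) a) (𝓝[>] a) (𝓝 (ω / vel x a).im) :=
    (hasDerivAt_iff_tendsto_slope.1 him).mono_left (nhdsGT_le_nhdsNE a)
  have l1 : Tendsto (fun t => slope (nrm x η) a t * G t) (𝓝[>] a)
      (𝓝 ((ω / vel x a).im * G a)) := hs.mul ((cG.tendsto a).mono_left nhdsWithin_le_nhds)
  have l2 : Tendsto (fun t => C * (slope (nrm x η) a t * (nrm x η t * q t))) (𝓝[>] a)
      (𝓝 (C * ((ω / vel x a).im * (nrm x η a * q a)))) :=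
    (hs.mul (((cn.mul cq').tendsto a).mono_left nhdsWithin_le_nhds)).const_mul C
  have hle : (ω / vel x a).im * G a ≤ 0 := by
    have := le_of_tendsto_of_tendsto l1 l2 (by
      filter_upwards [Ioo_mem_nhdsGT hab] with t ht
      have h1 := hineq t ht.2
      have h2 : 0 < (t - a)⁻¹ := inv_pos.2 (sub_pos.2 ht.1)
      have h3 := mul_le_mul_of_nonneg_left h1 h2.le
      rw [slope_def_field, ha, sub_zero, div_eq_inv_mul]
      calc _ = (t - a)⁻¹ * (nrm x η t * G t) := by ring
        _ ≤ _ := h3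
        _ = _ := by ring)
    rwa [ha, zero_mul, mul_zero, mul_zero] at this
  have e1 : (((0 : ℂ), ω) : ℂ × ℂ) =
      (η a, deriv η a) - tng x η a • (vel x a, deriv (vel x) a) := by
    rw [Prod.smul_mk, Prod.mk_sub_mk, ← h0, sub_self]
  have e2 : D2 L (jet x a) (0, ω) (0, vel x a) = 0 := by
    have e3 : ((η a, (0 : ℂ)) : ℂ × ℂ) = tng x η a • (vel x a, 0) := by
      rw [Prod.smul_mk, ← h0, smul_zero]
    rw [e1, map_sub, map_smul, sub_apply, smul_apply,
      hE a, hx.en_vel hL.smooth a, e3, map_smul, sub_self]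
  have e4 : D2 L (jet x a) (0, ω) (0, Complex.I * vel x a) = G a := by
    rw [e1, map_sub, map_smul]
    simp only [G]
    rw [← hx.dmom_vel hL.smooth a]
    rfl
  have e5 : (((0 : ℂ), ω) : ℂ × ℂ) = (ω / vel x a).re • (0, vel x a) +
      (ω / vel x a).im • (0, Complex.I * vel x a) := by
    have e := Complex.re_add_im (ω / vel x a)
    rw [eq_div_iff (hv a)] at e
    rw [Prod.smul_mk, Prod.smul_mk, Prod.mk_add_mk, smul_zero, smul_zero, add_zero,
      Complex.real_smul, Complex.real_smul]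
    congr 1
    linear_combination -e
  have e6 : D2 L (jet x a) (0, ω) (0, ω) = (ω / vel x a).im * G a := by
    conv_lhs => arg 2; rw [e5]
    rw [map_add, map_smul, map_smul, e2, e4, smul_zero, zero_add, smul_eq_mul]
  have hω0 : ω = 0 := by
    by_contra hne
    have := hL.convex _ (jet_mem x a) ω hne
    linarith
  refine hJ.tangent hL hx hv hE ha ?_
  rw [him.deriv, hω0, zero_div, Complex.zero_im]

/-- The eigenvalue one does not occur on a one-sided curve. -/
theorem CP.tangent (F : Deck Γ) (hL : Tonelli Γ L) (hc : c ∈ Coh Γ) (h : CP L c x γ T)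
    (hn : ¬Ori γ) (hJ : Jac L x η) (hE : En L x η) {β : ℝ}
    (he : ∀ t, η (t + T) = dk γ (x t) (η t) + β • vel x (t + T)) :
    ∃ p : ℝ, ∀ t, η t = p • vel x t := by
  have hx := h.reg F hL
  have hv := h.vel_ne F hL hn
  have hT := h.per.1
  have hsg : sg γ = -1 := ((sg_cases γ).resolve_left fun h => hn h.1).2
  have hneg : ∀ t, nrm x η (t + T) = -nrm x η t := by
    intro t
    have h1 := (F.dk_div γ (x t) (η t) (vel x t)).1
    rw [← h.per.vel F t, hsg] at h1
    rw [nrm, he, add_div, Complex.add_im, h1, Complex.real_smul, mul_div_assoc,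
      div_self (hv _), nrm]
    simp
  have cη : Continuous η := continuous_iff_continuousAt.2 fun t => (hJ t).1.continuousAt
  have cn : Continuous (nrm x η) := Complex.continuous_im.comp (cη.div hx.contVel hv)
  obtain ⟨a, ha⟩ : ∃ a, nrm x η a = 0 := by
    have h1 := hneg 0
    rcases le_total (nrm x η 0) 0 with h2 | h2
    · exact intermediate_value_univ 0 (0 + T) cn ⟨h2, by linarith⟩
    · exact intermediate_value_univ (0 + T) 0 cn ⟨by linarith, h2⟩
  exact h.conj F hL hc hv hJ hE (a := a) (b := a + T) (by linarith) ha (by rw [hneg, ha, neg_zero])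

lemma OD.nrm_ne (F : Deck Γ) (hL : Tonelli Γ L) (hc : c ∈ Coh Γ) (h : OD L c x γ T η) (t : ℝ) :
    nrm x η t ≠ 0 := by
  intro ht
  have hv := h.cp.vel_ne F hL h.no
  have hT := h.cp.per.1
  have hsg : sg γ = -1 := ((sg_cases γ).resolve_left fun h' => h.no h'.1).2
  have h2 : nrm x η (t + T) = 0 := by
    have h1 := (F.dk_div γ (x t) (η t) (vel x t)).1
    rw [← h.cp.per.vel F t] at h1
    rw [nrm] at ht
    rw [nrm, h.anti, neg_div, Complex.neg_im, h1, ht, mul_zero, neg_zero]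
  obtain ⟨p, hp⟩ := h.cp.conj F hL hc hv h.jac h.en (a := t) (b := t + T) (by linarith) ht h2
  have h3 := h.anti 0
  rw [hp, hp, map_smul, ← h.cp.per.vel F 0] at h3
  have h4 : (p + p) • vel x (0 + T) = 0 := by rw [add_smul]; exact eq_neg_iff_add_eq_zero.1 h3
  have h5 : p = 0 := by
    have := (smul_eq_zero.1 h4).resolve_right (hv _)
    linarith
  have h6 : η = fun _ => 0 := funext fun s => by rw [hp, h5, zero_smul]
  have := h.one
  rw [h6] at this
  simp at this

end Pool.Agent.Lib.MP_5bb885_an.Gen
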