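import Pool.Agent.Lib.MP_5bb885_an.T18Defs

/-!
Cylinders.
-/

namespace Pool.Agent.Lib.MP_5bb885_an.Gen

open UpperHalfPlane MeasureTheory Filter Topology

variable {X : Set ℝ} {R e J : ℝ → ℝ} {ε : ℝ} {ℓ : ℝ → ℕ} {r n : ℕ} {x y z : ℝ}

lemma SJ_add (J R : ℝ → ℝ) (x : ℝ) (k n : ℕ) :
    SJ J R x (k + n) = SJ J R x k + SJ J R (R^[k] x) n := by
  unfold SJ
  rw [Finset.sum_range_add]
  congr 1
  refine Finset.sum_congr rfl fun j _ => ?_
  rw [add_comm k j, Function.iterate_add_apply]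

lemma EE_add (e R : ℝ → ℝ) (x : ℝ) (k n : ℕ) :
    EE e R x (k + n) = EE e R x k * EE e R (R^[k] x) n := by
  unfold EE
  rw [Finset.prod_range_add]
  congr 1
  refine Finset.prod_congr rfl fun j _ => ?_
  rw [add_comm k j, Function.iterate_add_apply]

lemma FI.iter (H : FI X R e ε) (hx : x ∈ X) (k : ℕ) : R^[k] x ∈ X := by
  exact (H.bij.mapsTo.iterate k) hx

lemma FI.back (H : FI X R e ε) (hx : x ∈ X) (k : ℕ) : ∃ z ∈ X, R^[k] z = x := by
  induction k with
  | zero => exact ⟨x, hx, rfl⟩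
  | succ k ih =>
    obtain ⟨z, hz, h⟩ := ih
    obtain ⟨w, hw, h'⟩ := H.bij.surjOn hz
    exact ⟨w, hw, by rw [Function.iterate_succ_apply, h', h]⟩

lemma FI.iter_inj (H : FI X R e ε) (hx : x ∈ X) (hy : y ∈ X) {k : ℕ} (h : R^[k] x = R^[k] y) :
    x = y := by
  induction k with
  | zero => exact h
  | succ k ih =>
    rw [Function.iterate_succ_apply', Function.iterate_succ_apply'] at h
    exact ih (H.bij.injOn (H.iter hx k) (H.iter hy k) h)

lemma FI.ee (H : FI X R e ε) (hx : x ∈ X) (k : ℕ) : EE e R x k = 1 ∨ EE e R x k = -1 := by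
  induction k with
  | zero => left; simp [EE]
  | succ k ih =>
    have h1 : EE e R x (k + 1) = EE e R x k * e (R^[k] x) := by
      unfold EE; rw [Finset.prod_range_succ]
    rw [h1]
    rcases ih with h | h <;> rcases H.sgn _ (H.iter hx k) with h' | h' <;> rw [h, h'] <;> norm_num

/-- Uniform continuity of the map and of its inverse. -/
lemma FI.unif (H : FI X R e ε) {η : ℝ} (hη : 0 < η) : ∃ κ : ℝ, 0 < κ ∧ ∀ x ∈ X, ∀ y ∈ X,
    (|x - y| ≤ κ → |R x - R y| ≤ η) ∧ (|R x - R y| ≤ κ → |x - y| ≤ η) := by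
  obtain ⟨δ, hδ, h1⟩ := Metric.uniformContinuousOn_iff_le.1
    (H.cpt.uniformContinuousOn_of_continuous H.cont) η hη
  have hK : IsCompact ((X ×ˢ X) ∩ {p : ℝ × ℝ | η ≤ |p.1 - p.2|}) :=
    (H.cpt.prod H.cpt).inter_right (isClosed_le continuous_const (by fun_prop))
  have hc : ContinuousOn (fun p : ℝ × ℝ => |R p.1 - R p.2|)
      ((X ×ˢ X) ∩ {p : ℝ × ℝ | η ≤ |p.1 - p.2|}) := by
    refine ContinuousOn.abs (ContinuousOn.sub ?_ ?_)
    · exact H.cont.comp continuous_fst.continuousOn fun p hp => hp.1.1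
    · exact H.cont.comp continuous_snd.continuousOn fun p hp => hp.1.2
  obtain ⟨a, ha, h2⟩ := hK.exists_forall_le' hc (a := 0) (by
    rintro ⟨u, v⟩ ⟨⟨hu, hv⟩, huv⟩
    refine abs_pos.2 fun h0 => ?_
    have huv' : η ≤ |u - v| := huv
    have : u = v := H.bij.injOn hu hv (sub_eq_zero.1 h0)
    rw [this, sub_self, abs_zero] at huv'
    linarith)
  refine ⟨min δ (a / 2), lt_min hδ (by linarith), fun x hx y hy => ⟨fun h => ?_, fun h => ?_⟩⟩
  · have := h1 x hx y hy (by rw [Real.dist_eq]; exact h.trans (min_le_left _ _))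
    rwa [Real.dist_eq] at this
  · by_contra hn
    have h3 := h2 (x, y) ⟨⟨hx, hy⟩, (not_le.1 hn).le⟩
    have h4 := h.trans (min_le_right _ _)
    simp only at h3
    linarith

lemma FI.perfect (H : FI X R e ε) (hx : x ∈ X) {η : ℝ} (hη : 0 < η) :
    ∃ y ∈ X, y ≠ x ∧ |y - x| < η := by
  obtain ⟨k, hk, -⟩ := H.flip (R x) (H.bij.mapsTo hx) x hx 1 (Or.inl rfl) η hη
  exact ⟨R^[k + 1] x, H.iter hx _, H.aper x hx _ (Nat.succ_pos k), hk⟩

lemma FI.sparse (H : FI X R e ε) (P : ℕ) : ∃ η : ℝ, 0 < η ∧ ∀ x ∈ X, ∀ k : ℕ, 0 < k → k ≤ P →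
    η < |R^[k] x - x| := by
  induction P with
  | zero => exact ⟨1, one_pos, fun x _ k h1 h2 => by omega⟩
  | succ P ih =>
    obtain ⟨η, hη, h1⟩ := ih
    have hc : ContinuousOn (fun x : ℝ => |R^[P + 1] x - x|) X :=
      ((H.cont.iterate H.bij.mapsTo (P + 1)).sub continuousOn_id).abs
    obtain ⟨a, ha, h2⟩ := H.cpt.exists_forall_le' hc (a := 0) fun x hx =>
      abs_pos.2 (sub_ne_zero.2 (H.aper x hx _ (Nat.succ_pos P)))
    refine ⟨min η (a / 2), lt_min hη (by linarith), fun x hx k hk hkP => ?_⟩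
    rcases Nat.lt_or_ge k (P + 1) with h | h
    · exact (min_le_left _ _).trans_lt (h1 x hx k hk (by omega))
    · have hk' : k = P + 1 := by omega
      have h3 := h2 x hx
      rw [hk']
      exact (min_le_right _ _).trans_lt (by linarith)

/-- At a small scale the image of an interval is an interval. -/
lemma FI.conv (H : FI X R e ε) : ∃ a : ℝ, 0 < a ∧ a ≤ ε ∧ ∀ x ∈ X, ∀ y ∈ X, ∀ z ∈ X,
    |x - y| ≤ a → R z ∈ Set.uIcc (R x) (R y) → z ∈ Set.uIcc x y := by
  obtain ⟨κ, hκ, h1⟩ := H.unif H.pos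
  obtain ⟨a, ha, h2⟩ := H.unif hκ
  refine ⟨min a ε, lt_min ha H.pos, min_le_right _ _, fun x hx y hy z hz hxy hR => ?_⟩
  have h3 := abs_le.1 ((h2 x hx y hy).1 (hxy.trans (min_le_left _ _)))
  have hR' := Set.mem_uIcc.1 hR
  have h4 : |z - x| ≤ ε := (h1 z hz x hx).2 (by
    rw [abs_le]; rcases hR' with h | h <;> constructor <;> linarith [h.1, h.2, h3.1, h3.2])
  have h5 : |z - y| ≤ ε := (h1 z hz y hy).2 (by
    rw [abs_le]; rcases hR' with h | h <;> constructor <;> linarith [h.1, h.2, h3.1, h3.2])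
  have h4' := abs_le.1 h4
  have h5' := abs_le.1 h5
  by_contra hn
  rw [Set.mem_uIcc] at hn
  have hc : (z < x ∧ z < y) ∨ (x < z ∧ y < z) := by
    by_contra hc
    push Not at hc hn
    rcases le_total x z with h | h <;> rcases le_total y z with h' | h'
    · rcases eq_or_lt_of_le h with h | h
      · rcases le_total z y with g | g
        · exact absurd (hn.1 h.le) (not_lt.2 g)
        · exact absurd (hn.2 g) (not_lt.2 h.ge)
      · have := hc.2 h
        exact absurd (hn.1 h.le) (not_lt.2 this)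
    · exact absurd (hn.1 h) (not_lt.2 h')
    · exact absurd (hn.2 h') (not_lt.2 h)
    · rcases eq_or_lt_of_le h with h | h
      · exact absurd (hn.1 h.ge) (not_lt.2 h')
      · have := hc.1 h
        exact absurd (hn.2 this) (not_lt.2 h.le)
  rcases hc with ⟨c1, c2⟩ | ⟨c1, c2⟩
  · obtain ⟨-, n1⟩ := H.near z hz x hx c1 (by linarith [h4'.1])
    obtain ⟨-, n2⟩ := H.near z hz y hy c2 (by linarith [h5'.1])
    rcases H.sgn z hz with g | g <;> rw [g] at n1 n2 <;> rcases hR' with h | h <;>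
      linarith [h.1, h.2]
  · obtain ⟨e1, n1⟩ := H.near x hx z hz c1 (by linarith [h4'.2])
    obtain ⟨e2, n2⟩ := H.near y hy z hz c2 (by linarith [h5'.2])
    rw [e1] at n1
    rw [e2] at n2
    rcases H.sgn z hz with g | g <;> rw [g] at n1 n2 <;> rcases hR' with h | h <;>
      linarith [h.1, h.2]

theorem FI.exists_lt (H : FI X R e ε) : ∃ (ℓ : ℝ → ℕ) (r : ℕ), Lt X R ε ℓ r := by
  classical
  obtain ⟨a, ha, haε, hconv⟩ := H.conv
  obtain ⟨M, hM⟩ := H.cpt.isBounded.exists_norm_le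
  have hb : 0 < a / 2 := by linarith
  have hc : ∀ j : ℕ, ∃ w ∈ Set.Ioo (-M + j * (a / 2)) (-M + (j + 1) * (a / 2)), w ∉ X :=
    fun j => H.nd _ _ (by linarith)
  choose c hc1 hc2 using hc
  obtain ⟨r, hr⟩ := exists_nat_ge (2 * M / (a / 2))
  have hr' : 2 * M ≤ r * (a / 2) := (div_le_iff₀ hb).1 hr
  set ℓ : ℝ → ℕ := fun x => ((Finset.range r).filter fun j => c j < x).card with hℓ
  have hmono : Monotone ℓ := fun x y hxy => Finset.card_le_card fun j hj => by
    rw [Finset.mem_filter] at hj ⊢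
    exact ⟨hj.1, hj.2.trans_le hxy⟩
  have hlt : ∀ x ∈ X, ∀ y ∈ X, a < y - x → ℓ x < ℓ y := by
    intro x hx y hy hxy
    have hx' := abs_le.1 (show |x| ≤ M from hM x hx)
    have hy' := abs_le.1 (show |y| ≤ M from hM y hy)
    have h0 : 0 ≤ (x + M) / (a / 2) := div_nonneg (by linarith [hx'.1]) hb.le
    have h1 : (x + M) / (a / 2) ≤ (⌈(x + M) / (a / 2)⌉₊ : ℝ) := Nat.le_ceil _
    have h2 : (⌈(x + M) / (a / 2)⌉₊ : ℝ) < (x + M) / (a / 2) + 1 := Nat.ceil_lt_add_one h0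
    set j := ⌈(x + M) / (a / 2)⌉₊
    have h1' : x + M ≤ j * (a / 2) := (div_le_iff₀ hb).1 h1
    have h2' : ((j : ℝ) - 1) * (a / 2) < x + M := (lt_div_iff₀ hb).1 (by linarith)
    have h3 := (hc1 j).1
    have h4 := (hc1 j).2
    have hjr : j < r := by
      have : (j : ℝ) * (a / 2) < r * (a / 2) := by linarith [hy'.2]
      exact_mod_cast lt_of_mul_lt_mul_right this hb.le
    refine Finset.card_lt_card ⟨fun i hi => ?_, fun hsub => ?_⟩
    · rw [Finset.mem_filter] at hi ⊢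
      exact ⟨hi.1, by linarith [hi.2]⟩
    · have : j ∈ (Finset.range r).filter fun j => c j < x :=
        hsub (Finset.mem_filter.2 ⟨Finset.mem_range.2 hjr, by linarith⟩)
      have := (Finset.mem_filter.1 this).2
      linarith
  have hsame : ∀ x ∈ X, ∀ y ∈ X, ℓ x = ℓ y → |x - y| ≤ a := by
    intro x hx y hy h
    rw [abs_le]
    constructor
    · by_contra hn
      have := hlt x hx y hy (by linarith [not_le.1 hn])
      omega
    · by_contra hn
      have := hlt y hy x hx (by linarith [not_le.1 hn])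
      omega
  have hsep : ∀ s : ℕ, ∃ κ : ℝ, 0 < κ ∧ ∀ j < s, ∀ x ∈ X, κ < |x - c j| := by
    intro s
    induction s with
    | zero => exact ⟨1, one_pos, fun j hj => by omega⟩
    | succ s ih =>
      obtain ⟨κ, hκ, h1⟩ := ih
      obtain ⟨b, hb', h2⟩ := H.cpt.exists_forall_le' (f := fun x => |x - c s|) (by fun_prop)
        (a := 0) fun x hx => abs_pos.2 (sub_ne_zero.2 fun h => hc2 s (h ▸ hx))
      refine ⟨min κ (b / 2), lt_min hκ (by linarith), fun j hj x hx => ?_⟩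
      rcases Nat.lt_or_ge j s with h | h
      · exact (min_le_left _ _).trans_lt (h1 j h x hx)
      · have hj' : j = s := by omega
        have h3 := h2 x hx
        rw [hj']
        exact (min_le_right _ _).trans_lt (by linarith)
  obtain ⟨κ, hκ, hκ'⟩ := hsep r
  refine ⟨ℓ, r, hmono, fun x => ?_, fun x hx y hy h => (hsame x hx y hy h).trans haε,
    fun x hx y hy z hz h hR => hconv x hx y hy z hz (hsame x hx y hy h) hR,
    κ, hκ, fun x hx y hy hxy => ?_⟩
  · exact (Finset.card_filter_le _ _).trans (Finset.card_range r).le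
  · have hxy' := abs_le.1 hxy
    refine congrArg Finset.card (Finset.filter_congr fun j hj => ?_)
    have h1 := hκ' j (Finset.mem_range.1 hj) x hx
    have h2 := hκ' j (Finset.mem_range.1 hj) y hy
    constructor
    · intro h
      rw [abs_of_pos (by linarith)] at h1
      linarith [hxy'.2]
    · intro h
      rw [abs_of_pos (by linarith)] at h2
      linarith [hxy'.1]

lemma Cy.refl (R : ℝ → ℝ) (ℓ : ℝ → ℕ) (n : ℕ) (x : ℝ) : Cy R ℓ n x x := by
  exact fun _ _ => rfl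

lemma Cy.symm (h : Cy R ℓ n x y) : Cy R ℓ n y x := by
  exact fun j hj => (h j hj).symm

lemma Cy.trans (h : Cy R ℓ n x y) (h' : Cy R ℓ n y z) : Cy R ℓ n x z := by
  exact fun j hj => (h j hj).trans (h' j hj)

lemma Cy.mono (h : Cy R ℓ n x y) {k : ℕ} (hk : k ≤ n) : Cy R ℓ k x y := by
  exact fun j hj => h j (hj.trans_le hk)

lemma Cy.shift {j k : ℕ} (h : Cy R ℓ n x y) (hk : j + k ≤ n) :
    Cy R ℓ k (R^[j] x) (R^[j] y) := by
  intro i hi
  rw [← Function.iterate_add_apply, ← Function.iterate_add_apply]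
  exact h _ (by omega)

lemma t18cyl1_step' (H : FI X R e ε) (G : Lt X R ε ℓ r) (hx : x ∈ X) (hy : y ∈ X) (hz : z ∈ X)
    (h : ℓ x = ℓ y) (h1 : x ≤ z) (h2 : z ≤ y) : ℓ x = ℓ z ∧ R z ∈ Set.uIcc (R x) (R y) := by
  refine ⟨le_antisymm (G.mono h1) (h ▸ G.mono h2), ?_⟩
  have hm := abs_le.1 (G.mesh x hx y hy h)
  rcases eq_or_lt_of_le h1 with g | g
  · rw [← g]; exact Set.left_mem_uIcc
  rcases eq_or_lt_of_le h2 with g' | g'
  · rw [g']; exact Set.right_mem_uIcc
  obtain ⟨e1, n1⟩ := H.near x hx z hz g (by linarith [hm.1])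
  obtain ⟨-, n2⟩ := H.near z hz y hy g' (by linarith [hm.1])
  rw [e1] at n1
  rw [Set.mem_uIcc]
  rcases H.sgn z hz with s | s <;> rw [s] at n1 n2
  · exact Or.inl ⟨by linarith, by linarith⟩
  · exact Or.inr ⟨by linarith, by linarith⟩

lemma t18cyl1_step (H : FI X R e ε) (G : Lt X R ε ℓ r) (hx : x ∈ X) (hy : y ∈ X) (hz : z ∈ X)
    (h : ℓ x = ℓ y) (hb : z ∈ Set.uIcc x y) : ℓ x = ℓ z ∧ R z ∈ Set.uIcc (R x) (R y) := by
  rcases Set.mem_uIcc.1 hb with g | g
  · exact t18cyl1_step' H G hx hy hz h g.1 g.2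
  · obtain ⟨h1, h2⟩ := t18cyl1_step' H G hy hx hz h.symm g.1 g.2
    exact ⟨h.trans h1, by rwa [Set.uIcc_comm]⟩

lemma Cy.between (H : FI X R e ε) (G : Lt X R ε ℓ r) (hx : x ∈ X) (hy : y ∈ X) (hz : z ∈ X)
    (h : Cy R ℓ n x y) (hb : z ∈ Set.uIcc x y) :
    Cy R ℓ n x z ∧ R^[n] z ∈ Set.uIcc (R^[n] x) (R^[n] y) := by
  induction n with
  | zero => exact ⟨fun j hj => by omega, hb⟩
  | succ n ih =>
    obtain ⟨h1, h2⟩ := ih (h.mono (Nat.le_succ n))
    obtain ⟨h3, h4⟩ := t18cyl1_step H G (H.iter hx n) (H.iter hy n) (H.iter hz n)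
      (h n (Nat.lt_succ_self n)) h2
    refine ⟨fun j hj => ?_, ?_⟩
    · rcases Nat.lt_or_ge j n with g | g
      · exact h1 j g
      · have : j = n := by omega
        rw [this]; exact h3
    · simpa only [Function.iterate_succ_apply'] using h4

lemma Cy.pull (H : FI X R e ε) (G : Lt X R ε ℓ r) (hx : x ∈ X) (hy : y ∈ X) (hz : z ∈ X)
    (h : Cy R ℓ n x y) (hb : R^[n] z ∈ Set.uIcc (R^[n] x) (R^[n] y)) : z ∈ Set.uIcc x y := by
  induction n with
  | zero => exact hb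
  | succ n ih =>
    simp only [Function.iterate_succ_apply'] at hb
    exact ih (h.mono (Nat.le_succ n))
      (G.conv _ (H.iter hx n) _ (H.iter hy n) _ (H.iter hz n) (h n (Nat.lt_succ_self n)) hb)

lemma Cy.sign (H : FI X R e ε) (G : Lt X R ε ℓ r) (hx : x ∈ X) (hy : y ∈ X) (h : Cy R ℓ n x y)
    (hxy : x < y) : EE e R x n = EE e R y n ∧ 0 < EE e R x n * (R^[n] y - R^[n] x) := by
  induction n with
  | zero => simpa [EE] using hxy
  | succ n ih =>
    obtain ⟨h1, h2⟩ := ih (h.mono (Nat.le_succ n))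
    have e1 : ∀ u, EE e R u (n + 1) = EE e R u n * e (R^[n] u) := fun u => by
      unfold EE; rw [Finset.prod_range_succ]
    have hm := abs_le.1 (G.mesh _ (H.iter hx n) _ (H.iter hy n) (h n (Nat.lt_succ_self n)))
    rw [e1, e1, ← h1, Function.iterate_succ_apply', Function.iterate_succ_apply']
    rcases H.ee hx n with g | g <;> rw [g] at h2 ⊢
    · obtain ⟨n1, n2⟩ := H.near _ (H.iter hx n) _ (H.iter hy n) (by linarith) (by linarith [hm.1])
      exact ⟨by rw [n1], by linarith⟩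
    · obtain ⟨n1, n2⟩ := H.near _ (H.iter hy n) _ (H.iter hx n) (by linarith) (by linarith [hm.2])
      rw [n1] at n2
      exact ⟨by rw [n1], by linarith⟩

lemma Lt.nbhd (H : FI X R e ε) (G : Lt X R ε ℓ r) (n : ℕ) : ∃ κ : ℝ, 0 < κ ∧ ∀ x ∈ X, ∀ y ∈ X,
    |x - y| ≤ κ → Cy R ℓ n x y := by
  induction n with
  | zero => exact ⟨1, one_pos, fun x _ y _ _ j hj => by omega⟩
  | succ n ih =>
    obtain ⟨κ, hκ, h1⟩ := ih
    obtain ⟨b, hb, h2⟩ := G.loc
    obtain ⟨δ, hδ, h3⟩ := Metric.uniformContinuousOn_iff_le.1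
      (H.cpt.uniformContinuousOn_of_continuous (H.cont.iterate H.bij.mapsTo n)) b hb
    refine ⟨min κ δ, lt_min hκ hδ, fun x hx y hy hxy j hj => ?_⟩
    rcases Nat.lt_or_ge j n with g | g
    · exact h1 x hx y hy (hxy.trans (min_le_left _ _)) j g
    · have : j = n := by omega
      rw [this]
      refine h2 _ (H.iter hx n) _ (H.iter hy n) ?_
      have := h3 x hx y hy (by rw [Real.dist_eq]; exact hxy.trans (min_le_right _ _))
      rwa [Real.dist_eq] at this

/-- Two pairs that are cut at the same level have a common point between them. -/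
lemma Lt.cut (G : Lt X R ε ℓ r) {x y x' y' : ℝ} {i : ℕ} (hx : x ∈ X) (hy : y ∈ X) (hx' : x' ∈ X)
    (hy' : y' ∈ X) (h : ℓ (min x y) ≤ i ∧ i < ℓ (max x y))
    (h' : ℓ (min x' y') ≤ i ∧ i < ℓ (max x' y')) :
    ∃ m ∈ X, m ∈ Set.uIcc x y ∧ m ∈ Set.uIcc x' y' ∧ ℓ m ≤ i ∧ (m = min x y ∨ m = min x' y') := by
  have hm : max (min x y) (min x' y') = min x y ∨ max (min x y) (min x' y') = min x' y' :=
    max_choice _ _
  have hl : ℓ (max (min x y) (min x' y')) ≤ i := by
    rcases hm with g | g <;> rw [g]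
    exacts [h.1, h'.1]
  have hX : max (min x y) (min x' y') ∈ X := by
    rcases hm with g | g <;> rw [g]
    · rcases min_choice x y with g' | g' <;> rw [g'] <;> assumption
    · rcases min_choice x' y' with g' | g' <;> rw [g'] <;> assumption
  refine ⟨_, hX, ⟨le_max_left _ _, ?_⟩, ⟨le_max_right _ _, ?_⟩, hl, hm⟩
  · by_contra hn
    have := G.mono (not_le.1 hn).le
    have h2 := h.2
    exact absurd (h2.trans_le (this.trans hl)) (lt_irrefl _)
  · by_contra hn
    have := G.mono (not_le.1 hn).le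
    have h2 := h'.2
    exact absurd (h2.trans_le (this.trans hl)) (lt_irrefl _)

end Pool.Agent.Lib.MP_5bb885_an.Gen
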