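import Pool.Agent.Lib.MP_5bb885_an.T18Cyl1

/-!
Counting cylinders.
-/

namespace Pool.Agent.Lib.MP_5bb885_an.Gen

open UpperHalfPlane MeasureTheory Filter Topology

variable {X : Set ℝ} {R e J : ℝ → ℝ} {ε : ℝ} {ℓ : ℝ → ℕ} {r n : ℕ} {x y z : ℝ}

/-- The first time at which two points have different letters, and the level of the cut. -/
lemma t18cyl2_first (G : Lt X R ε ℓ r) {N : ℕ} {a b : ℝ} (h : ¬Cy R ℓ N a b) :
    ∃ t i : ℕ, t < N ∧ i < r ∧ Cy R ℓ t a b ∧ ℓ (R^[t] a) ≠ ℓ (R^[t] b) ∧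
      ℓ (min (R^[t] a) (R^[t] b)) ≤ i ∧ i < ℓ (max (R^[t] a) (R^[t] b)) := by
  classical
  have hex : ∃ j, ℓ (R^[j] a) ≠ ℓ (R^[j] b) := by
    by_contra hc
    exact h fun j _ => by_contra fun hj => hc ⟨j, hj⟩
  have h1 := Nat.find_spec hex
  have h2 : Cy R ℓ (Nat.find hex) a b := fun j hj => by_contra (Nat.find_min hex hj)
  have h3 : Nat.find hex < N := by
    by_contra hc
    exact h (h2.mono (not_lt.1 hc))
  set t := Nat.find hex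
  have h4 : ℓ (min (R^[t] a) (R^[t] b)) < ℓ (max (R^[t] a) (R^[t] b)) := by
    rcases le_total (R^[t] a) (R^[t] b) with hl | hl
    · rw [min_eq_left hl, max_eq_right hl]
      exact lt_of_le_of_ne (G.mono hl) h1
    · rw [min_eq_right hl, max_eq_left hl]
      exact lt_of_le_of_ne (G.mono hl) (Ne.symm h1)
  exact ⟨t, _, h3, h4.trans_le (G.bdd _), h2, h1, le_rfl, h4⟩

lemma t18cyl2_key (H : FI X R e ε) (G : Lt X R ε ℓ r) {a b a' b' : ℝ} {j i : ℕ} (ha : a ∈ X)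
    (hb : b ∈ X) (ha' : a' ∈ X) (hb' : b' ∈ X) (h1 : a < b) (h2 : b ≤ a') (h3 : a' < b')
    (c1 : Cy R ℓ j a b) (c2 : Cy R ℓ j a' b')
    (l1 : ℓ (min (R^[j] a) (R^[j] b)) ≤ i ∧ i < ℓ (max (R^[j] a) (R^[j] b)))
    (l2 : ℓ (min (R^[j] a') (R^[j] b')) ≤ i ∧ i < ℓ (max (R^[j] a') (R^[j] b'))) : False := by
  obtain ⟨m, hm, m1, m2, m3, -⟩ :=
    G.cut (H.iter ha j) (H.iter hb j) (H.iter ha' j) (H.iter hb' j) l1 l2
  obtain ⟨w, hw, rfl⟩ := H.back hm j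
  have p1 := Cy.pull H G ha hb hw c1 m1
  have p2 := Cy.pull H G ha' hb' hw c2 m2
  rw [Set.uIcc_of_le h1.le] at p1
  rw [Set.uIcc_of_le h3.le] at p2
  have e1 : w = b := le_antisymm p1.2 (h2.trans p2.1)
  have e2 : w = a' := le_antisymm (p1.2.trans h2) p2.1
  subst e1
  subst e2
  have q1 : R^[j] w < R^[j] a := by
    by_contra hc
    rw [max_eq_right (not_lt.1 hc)] at l1
    exact absurd (m3.trans_lt l1.2) (lt_irrefl _)
  have q2 : R^[j] w < R^[j] b' := by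
    by_contra hc
    rw [max_eq_left (not_lt.1 hc)] at l2
    exact absurd (m3.trans_lt l2.2) (lt_irrefl _)
  obtain ⟨s1, s2⟩ := Cy.sign H G ha hw c1 h1
  obtain ⟨-, s3⟩ := Cy.sign H G hw hb' c2 h3
  rw [s1] at s2
  rcases H.ee hw j with h | h <;> rw [h] at s2 s3 <;> linarith

/-- Linear complexity. -/
theorem Lt.count (H : FI X R e ε) (G : Lt X R ε ℓ r) (n : ℕ) (Y : Finset ℝ) (hY : ↑Y ⊆ X)
    (h : ∀ x ∈ Y, ∀ y ∈ Y, Cy R ℓ n x y → x = y) : Y.card ≤ r * n + 1 := by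
  classical
  set Y' := Y.filter fun a => ∃ b ∈ Y, a < b with hY'
  have h1 : (Y.filter fun a => ¬∃ b ∈ Y, a < b).card ≤ 1 := by
    refine Finset.card_le_one.2 fun a ha b hb => ?_
    rw [Finset.mem_filter] at ha hb
    exact le_antisymm (not_lt.1 fun hc => hb.2 ⟨a, ha.1, hc⟩) (not_lt.1 fun hc => ha.2 ⟨b, hb.1, hc⟩)
  have h2 : ∀ a ∈ Y', ∃ p : ℕ × ℕ, p.1 < r ∧ p.2 < n ∧ ∃ b ∈ Y, a < b ∧ (∀ c ∈ Y, a < c → b ≤ c) ∧
      Cy R ℓ p.2 a b ∧ ℓ (min (R^[p.2] a) (R^[p.2] b)) ≤ p.1 ∧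
        p.1 < ℓ (max (R^[p.2] a) (R^[p.2] b)) := by
    intro a ha
    obtain ⟨haY, b0, hb0, hab0⟩ := Finset.mem_filter.1 ha
    obtain ⟨b, hb, hmin⟩ := (Y.filter fun c => a < c).exists_min_image id
      ⟨b0, Finset.mem_filter.2 ⟨hb0, hab0⟩⟩
    obtain ⟨hbY, hab⟩ := Finset.mem_filter.1 hb
    obtain ⟨t, i, ht, hi, c, -, l1, l2⟩ :=
      t18cyl2_first G (N := n) (a := a) (b := b) fun hc => hab.ne (h a haY b hbY hc)
    exact ⟨(i, t), hi, ht, b, hbY, hab, fun c hc hac => hmin c (Finset.mem_filter.2 ⟨hc, hac⟩),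
      c, l1, l2⟩
  choose! f f1 f2 g g1 g2 g3 g4 g5 g6 using h2
  have h3 : ∀ a ∈ Y', ∀ a' ∈ Y', f a = f a' → ¬a < a' := by
    intro a ha a' ha' hf hlt
    have haY := (Finset.mem_filter.1 ha).1
    have haY' := (Finset.mem_filter.1 ha').1
    refine t18cyl2_key H G (hY haY) (hY (g1 a ha)) (hY haY') (hY (g1 a' ha')) (g2 a ha)
      (g3 a ha a' haY' hlt) (g2 a' ha') (g4 a ha) ?_ ⟨g5 a ha, g6 a ha⟩ ?_
    · rw [hf]; exact g4 a' ha'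
    · rw [hf]; exact ⟨g5 a' ha', g6 a' ha'⟩
  have h4 : Y'.card ≤ (Finset.range r ×ˢ Finset.range n).card := by
    refine Finset.card_le_card_of_injOn f (fun a ha => ?_) fun a ha a' ha' hf => ?_
    · exact Finset.mem_coe.2 (Finset.mem_product.2
        ⟨Finset.mem_range.2 (f1 a ha), Finset.mem_range.2 (f2 a ha)⟩)
    · exact le_antisymm (not_lt.1 (h3 a' ha' a ha hf.symm)) (not_lt.1 (h3 a ha a' ha' hf))
  rw [Finset.card_product, Finset.card_range, Finset.card_range] at h4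
  have h5 : Y'.card + (Y.filter fun a => ¬∃ b ∈ Y, a < b).card = Y.card :=
    Finset.card_filter_add_card_filter_not (s := Y) fun a => ∃ b ∈ Y, a < b
  omega

lemma t18cyl2_key2 (H : FI X R e ε) (G : Lt X R ε ℓ r) {d x₁ x₂ y₁ y₁' y₂ y₂' : ℝ}
    {t₁ t₂ j i : ℕ} (hy₁ : y₁ ∈ X) (hy₁' : y₁' ∈ X) (hy₂ : y₂ ∈ X) (hy₂' : y₂' ∈ X)
    (a1 : Cy R ℓ n x₁ y₁) (a2 : Cy R ℓ n x₂ y₂) (hs : Sml X R ℓ n d x₂)
    (hj : ∀ k, 0 < k → k < j → ¬Sml X R ℓ n d (R^[k] y₁)) (hn : n ≤ t₂) (ht : t₂ ≤ t₁)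
    (hlt : t₁ < n + j) (c1 : Cy R ℓ t₁ y₁ y₁') (c2 : Cy R ℓ t₂ y₂ y₂')
    (l1 : ℓ (min (R^[t₁] y₁) (R^[t₁] y₁')) ≤ i ∧ i < ℓ (max (R^[t₁] y₁) (R^[t₁] y₁')))
    (l2 : ℓ (min (R^[t₂] y₂) (R^[t₂] y₂')) ≤ i ∧ i < ℓ (max (R^[t₂] y₂) (R^[t₂] y₂'))) :
    Cy R ℓ n x₁ x₂ := by
  obtain ⟨m, hm, m1, m2, -, -⟩ :=
    G.cut (H.iter hy₁ t₁) (H.iter hy₁' t₁) (H.iter hy₂ t₂) (H.iter hy₂' t₂) l1 l2
  obtain ⟨w, hw, rfl⟩ := H.back hm t₁
  obtain ⟨k, rfl⟩ := Nat.exists_eq_add_of_le ht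
  have p1 := (Cy.between H G hy₁ hy₁' hw c1 (Cy.pull H G hy₁ hy₁' hw c1 m1)).1
  rw [Function.iterate_add_apply] at m2
  have hw' := H.iter hw k
  have p2 := (Cy.between H G hy₂ hy₂' hw' c2 (Cy.pull H G hy₂ hy₂' hw' c2 m2)).1
  have p3 : Cy R ℓ n x₂ (R^[k] w) := a2.trans (p2.mono hn)
  have p4 : Cy R ℓ n (R^[k] y₁) (R^[k] w) := p1.shift (by omega)
  have p5 : Cy R ℓ n x₂ (R^[k] y₁) := p3.trans p4.symm
  rcases Nat.eq_zero_or_pos k with rfl | hk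
  · exact a1.trans p5.symm
  · exact absurd (fun u hu u' hu' b b' => hs u hu u' hu' (p5.trans b) (p5.trans b'))
      (hj k hk (by omega))

/-- There are few small cylinders that split before they reach the next small cylinder. -/
theorem Lt.special (H : FI X R e ε) (G : Lt X R ε ℓ r) (n : ℕ) (d : ℝ) (Y : Finset ℝ)
    (hY : ↑Y ⊆ X) (h : ∀ x ∈ Y, ∀ y ∈ Y, Cy R ℓ n x y → x = y) (hs : ∀ x ∈ Y, Sml X R ℓ n d x)
    (hsp : ∀ x ∈ Y, ∃ y ∈ X, ∃ y' ∈ X, Cy R ℓ n x y ∧ Cy R ℓ n x y' ∧ ∃ j : ℕ, 0 < j ∧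
      (∀ i, 0 < i → i < j → ¬Sml X R ℓ n d (R^[i] y)) ∧ ¬Cy R ℓ n (R^[j] y) (R^[j] y')) :
    Y.card ≤ r := by
  classical
  have h2 : ∀ x ∈ Y, ∃ i : ℕ, i < r ∧ ∃ y ∈ X, ∃ y' ∈ X, ∃ j t : ℕ, Cy R ℓ n x y ∧
      (∀ k, 0 < k → k < j → ¬Sml X R ℓ n d (R^[k] y)) ∧ n ≤ t ∧ t < n + j ∧ Cy R ℓ t y y' ∧
      ℓ (min (R^[t] y) (R^[t] y')) ≤ i ∧ i < ℓ (max (R^[t] y) (R^[t] y')) := by
    intro x hx
    obtain ⟨y, hy, y', hy', c, c', j, -, hj, hn⟩ := hsp x hx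
    obtain ⟨t, i, ht, hi, c2, hne, l1, l2⟩ :=
      t18cyl2_first G (N := n + j) (a := y) (b := y') fun hc => hn (hc.shift (by omega))
    refine ⟨i, hi, y, hy, y', hy', j, t, c, hj, ?_, ht, c2, l1, l2⟩
    by_contra hc
    exact hne ((c.symm.trans c') t (not_le.1 hc))
  choose! f f1 f2 using h2
  have h4 : Y.card ≤ (Finset.range r).card := by
    refine Finset.card_le_card_of_injOn f
      (fun a ha => Finset.mem_coe.2 (Finset.mem_range.2 (f1 a ha))) fun a ha a' ha' hf => ?_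
    obtain ⟨y, hy, y', hy', j, t, c, hj, hn, ht, c2, l⟩ := f2 a ha
    obtain ⟨u, hu, u', hu', k, s, b, hk, hm, hs', b2, l'⟩ := f2 a' ha'
    rw [← hf] at l'
    rcases le_total s t with hle | hle
    · exact h a ha a' ha' (t18cyl2_key2 H G hy hy' hu hu' c b (hs a' ha') hj hm hle ht c2 b2 l l')
    · exact (h a' ha' a ha
        (t18cyl2_key2 H G hu hu' hy hy' b c (hs a ha) hk hn hle hs' b2 c2 l' l)).symm
  rwa [Finset.card_range] at h4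

end Pool.Agent.Lib.MP_5bb885_an.Gen
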