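import Pool.Agent.Lib.MP_5bb885_an.T18Cyl2

/-!
Chains.
-/

namespace Pool.Agent.Lib.MP_5bb885_an.Gen

open UpperHalfPlane MeasureTheory Filter Topology

variable {X : Set ℝ} {R e J : ℝ → ℝ} {ε : ℝ} {ℓ : ℝ → ℕ} {r n : ℕ} {x y z : ℝ}

lemma Ch.prepend {d w S : ℝ} {t k : ℕ} (hz : z ∈ X) (h : Ch X R J d (R^[k] z) w n t S) :
    Ch X R J d z w n (k + t) (SJ J R z k + S) := by
  generalize hu : R^[k] z = u at h
  cases h with
  | one h1 h2 h3 h4 =>
    subst hu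
    rw [← SJ_add]
    refine Ch.one hz h2 (by omega) ?_
    rw [Nat.add_comm, Function.iterate_add_apply]
    exact h4
  | cons h1 h2 h3 h4 h5 =>
    subst hu
    rw [← add_assoc, ← add_assoc, ← SJ_add]
    refine Ch.cons hz h2 (by omega) ?_ h5
    rw [Nat.add_comm, Function.iterate_add_apply]
    exact h4

/-- Smallness only depends on the cylinder. -/
lemma t18cyl3_sml {d : ℝ} (h : Sml X R ℓ n d x) (hc : Cy R ℓ n x y) : Sml X R ℓ n d y :=
  fun a ha b hb h1 h2 => h a ha b hb (hc.trans h1) (hc.trans h2)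

/-- The waiting time until the next small cylinder. -/
def t18cyl3_Nx (X : Set ℝ) (R : ℝ → ℝ) (ℓ : ℝ → ℕ) (n : ℕ) (d : ℝ) (q : ℕ) (nx : ℝ → ℕ) : Prop :=
  ∀ x ∈ X, 0 < nx x ∧ nx x ≤ q ∧ Sml X R ℓ n d (R^[nx x] x) ∧
    ∀ i, 0 < i → i < nx x → ¬Sml X R ℓ n d (R^[i] x)

lemma t18cyl3_exists_nx {d : ℝ} {q : ℕ}
    (hq : ∀ x ∈ X, ∃ j : ℕ, 0 < j ∧ j ≤ q ∧ Sml X R ℓ n d (R^[j] x)) :
    ∃ nx : ℝ → ℕ, t18cyl3_Nx X R ℓ n d q nx := by
  classical
  have h : ∀ x, ∃ j : ℕ, x ∈ X → 0 < j ∧ j ≤ q ∧ Sml X R ℓ n d (R^[j] x) ∧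
      ∀ i, 0 < i → i < j → ¬Sml X R ℓ n d (R^[i] x) := by
    intro x
    by_cases hx : x ∈ X
    · have he : ∃ j : ℕ, 0 < j ∧ Sml X R ℓ n d (R^[j] x) := by
        obtain ⟨j, h1, -, h3⟩ := hq x hx
        exact ⟨j, h1, h3⟩
      refine ⟨Nat.find he, fun _ => ⟨(Nat.find_spec he).1, ?_, (Nat.find_spec he).2, ?_⟩⟩
      · obtain ⟨j, h1, h2, h3⟩ := hq x hx
        exact (Nat.find_min' he ⟨h1, h3⟩).trans h2
      · intro i h1 h2 h3
        exact Nat.find_min he h2 ⟨h1, h3⟩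
    · exact ⟨0, fun h => absurd h hx⟩
  choose nx hnx using h
  exact ⟨nx, fun x hx => hnx x hx⟩

/-- Paths in the graph of small cylinders. -/
def t18cyl3_Path (X : Set ℝ) (R : ℝ → ℝ) (ℓ : ℝ → ℕ) (n : ℕ) (d : ℝ) (nx : ℝ → ℕ) (a b : ℝ)
    (L : ℕ) (p : ℕ → ℝ) : Prop :=
  (∀ i ≤ L, p i ∈ X ∧ Sml X R ℓ n d (p i)) ∧ Cy R ℓ n a (p 0) ∧
    (∀ i < L, Cy R ℓ n (R^[nx (p i)] (p i)) (p (i + 1))) ∧ p L = b

lemma t18cyl3_path (H : FI X R e ε) {d : ℝ} {q : ℕ} {nx : ℝ → ℕ}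
    (hnx : t18cyl3_Nx X R ℓ n d q nx) {b : ℝ} (hb : b ∈ X) (hsb : Sml X R ℓ n d b) (k : ℕ) :
    ∀ a ∈ X, Sml X R ℓ n d a → Cy R ℓ n (R^[k] a) b →
      ∃ (L : ℕ) (p : ℕ → ℝ), t18cyl3_Path X R ℓ n d nx a b L p := by
  induction k using Nat.strong_induction_on with
  | _ k ih =>
    intro a ha hsa hc
    rcases Nat.eq_zero_or_pos k with rfl | hk
    · exact ⟨0, fun _ => b, fun i _ => ⟨hb, hsb⟩, hc, fun i hi => absurd hi (by omega), rfl⟩
    · obtain ⟨h1, -, h3, h4⟩ := hnx a ha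
      have h5 : nx a ≤ k := by
        by_contra h6
        exact h4 k hk (by omega) (t18cyl3_sml hsb hc.symm)
      have h7 : R^[k - nx a] (R^[nx a] a) = R^[k] a := by
        rw [← Function.iterate_add_apply, Nat.sub_add_cancel h5]
      obtain ⟨L, p, p1, p2, p3, p4⟩ := ih (k - nx a) (by omega) (R^[nx a] a) (H.iter ha _) h3
        (by rw [h7]; exact hc)
      refine ⟨L + 1, fun i => Nat.casesOn i a p, ?_, Cy.refl _ _ _ _, ?_, p4⟩
      · intro i hi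
        cases i with
        | zero => exact ⟨ha, hsa⟩
        | succ i => exact p1 i (by omega)
      · intro i hi
        cases i with
        | zero => exact p2
        | succ i => exact p3 i (by omega)

/-- A loop can be cut. -/
lemma t18cyl3_cut {d : ℝ} {nx : ℝ → ℕ} {a b : ℝ} {L : ℕ} {p : ℕ → ℝ}
    (h : t18cyl3_Path X R ℓ n d nx a b L p) {i u : ℕ} (hu : i + u ≤ L)
    (hc : Cy R ℓ n (p i) (p (i + u))) :
    t18cyl3_Path X R ℓ n d nx a b (L - u) fun m => if m < i then p m else p (m + u) := by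
  obtain ⟨p1, p2, p3, p4⟩ := h
  refine ⟨?_, ?_, ?_, ?_⟩
  · intro m hm
    by_cases h1 : m < i
    · simp only [if_pos h1]
      exact p1 m (by omega)
    · simp only [if_neg h1]
      exact p1 _ (by omega)
  · by_cases h1 : 0 < i
    · simp only [if_pos h1]
      exact p2
    · simp only [if_neg h1]
      obtain rfl : i = 0 := by omega
      exact p2.trans hc
  · intro m hm
    by_cases h1 : m + 1 < i
    · simp only [if_pos h1, if_pos (show m < i by omega)]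
      exact p3 m (by omega)
    · by_cases h2 : m < i
      · simp only [if_neg h1, if_pos h2]
        obtain rfl : i = m + 1 := by omega
        exact (p3 m (by omega)).trans hc
      · simp only [if_neg h1, if_neg h2]
        rw [show m + 1 + u = m + u + 1 by omega]
        exact p3 _ (by omega)
  · simp only [if_neg (show ¬(L - u < i) by omega)]
    rw [show L - u + u = L by omega]
    exact p4

lemma t18cyl3_min {d : ℝ} {nx : ℝ → ℕ} {a b : ℝ}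
    (h : ∃ (L : ℕ) (p : ℕ → ℝ), t18cyl3_Path X R ℓ n d nx a b L p) :
    ∃ (L : ℕ) (p : ℕ → ℝ), t18cyl3_Path X R ℓ n d nx a b L p ∧
      ∀ i ≤ L, ∀ j ≤ L, Cy R ℓ n (p i) (p j) → i = j := by
  classical
  obtain ⟨p, hp⟩ := Nat.find_spec h
  have key : ∀ i j, i < j → j ≤ Nat.find h → ¬Cy R ℓ n (p i) (p j) := by
    intro i j hij hj hc
    obtain ⟨u, rfl⟩ : ∃ u, j = i + u := ⟨j - i, by omega⟩
    exact Nat.find_min h (show Nat.find h - u < Nat.find h by omega) ⟨_, t18cyl3_cut hp hj hc⟩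
  refine ⟨Nat.find h, p, hp, fun i hi j hj hc => ?_⟩
  rcases lt_trichotomy i j with h1 | h1 | h1
  · exact absurd hc (key i j h1 hj)
  · exact h1
  · exact absurd hc.symm (key j i h1 hi)

/-- Two points with the same long word have the same waiting time. -/
lemma t18cyl3_wait {d : ℝ} {q : ℕ} {nx : ℝ → ℕ} (hnx : t18cyl3_Nx X R ℓ n d q nx) (hx : x ∈ X)
    (hy : y ∈ X) {s s' : ℕ} (hs : s < nx x) (hc : Cy R ℓ (n + q) (R^[s] x) (R^[s'] y)) :
    ¬(nx x - s + s' < nx y) := by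
  intro h
  obtain ⟨-, h2, h3, -⟩ := hnx x hx
  obtain ⟨-, -, -, h4⟩ := hnx y hy
  have h5 := hc.shift (j := nx x - s) (k := n) (by omega)
  rw [← Function.iterate_add_apply, ← Function.iterate_add_apply,
    show nx x - s + s = nx x by omega] at h5
  exact h4 _ (by omega) h (t18cyl3_sml h3 h5)

lemma t18cyl3_time (H : FI X R e ε) (G : Lt X R ε ℓ r) {d : ℝ} {q : ℕ} {nx : ℝ → ℕ}
    (hnx : t18cyl3_Nx X R ℓ n d q nx) {a b : ℝ} {L : ℕ} {p : ℕ → ℝ}
    (hp : t18cyl3_Path X R ℓ n d nx a b L p)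
    (hi : ∀ i ≤ L, ∀ j ≤ L, Cy R ℓ n (p i) (p j) → i = j) :
    ∑ i ∈ Finset.range L, nx (p i) ≤ r * (n + q) + 1 := by
  classical
  obtain ⟨p1, -, p3, -⟩ := hp
  set T : Finset (Σ _ : ℕ, ℕ) := (Finset.range L).sigma fun i => Finset.range (nx (p i)) with hT
  set f : (Σ _ : ℕ, ℕ) → ℝ := fun c => R^[c.2] (p c.1) with hf
  have key : ∀ c ∈ T, ∀ c' ∈ T, Cy R ℓ (n + q) (f c) (f c') → c = c' := by
    rintro ⟨i, s⟩ h1 ⟨i', s'⟩ h2 hc
    simp only [hT, Finset.mem_sigma, Finset.mem_range] at h1 h2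
    simp only [hf] at hc
    have hx := (p1 i h1.1.le).1
    have hy := (p1 i' h2.1.le).1
    have h3 := t18cyl3_wait hnx hx hy h1.2 hc
    have h4 := t18cyl3_wait hnx hy hx h2.2 hc.symm
    have h5 := hc.shift (j := nx (p i) - s) (k := n) (by have := (hnx _ hx).2.1; omega)
    rw [← Function.iterate_add_apply, ← Function.iterate_add_apply,
      show nx (p i) - s + s = nx (p i) by omega,
      show nx (p i) - s + s' = nx (p i') by omega] at h5
    have h6 := hi (i + 1) h1.1 (i' + 1) h2.1 (((p3 i h1.1).symm.trans h5).trans (p3 i' h2.1))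
    obtain rfl : i = i' := by omega
    obtain rfl : s = s' := by omega
    rfl
  have h1 : (T.image f).card = T.card := by
    apply Finset.card_image_of_injOn
    intro c hc c' hc' he
    apply key c hc c' hc'
    rw [he]
    exact Cy.refl _ _ _ _
  have h2 : T.card = ∑ i ∈ Finset.range L, nx (p i) := by
    rw [hT, Finset.card_sigma]
    simp only [Finset.card_range]
  rw [← h2, ← h1]
  apply G.count H
  · intro v hv
    obtain ⟨c, hc, rfl⟩ := Finset.mem_image.1 (Finset.mem_coe.1 hv)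
    simp only [hT, Finset.mem_sigma, Finset.mem_range] at hc
    exact H.iter (p1 _ hc.1.le).1 _
  · intro v hv v' hv' hc
    obtain ⟨c, h3, rfl⟩ := Finset.mem_image.1 hv
    obtain ⟨c', h4, rfl⟩ := Finset.mem_image.1 hv'
    rw [key c h3 c' h4 hc]

/-- Cylinders that split before they reach the next small cylinder. -/
def t18cyl3_Sp (X : Set ℝ) (R : ℝ → ℝ) (ℓ : ℝ → ℕ) (n : ℕ) (d x : ℝ) : Prop :=
  ∃ y ∈ X, ∃ y' ∈ X, Cy R ℓ n x y ∧ Cy R ℓ n x y' ∧ ∃ j : ℕ, 0 < j ∧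
    (∀ i, 0 < i → i < j → ¬Sml X R ℓ n d (R^[i] y)) ∧ ¬Cy R ℓ n (R^[j] y) (R^[j] y')

open Classical in
lemma t18cyl3_few (H : FI X R e ε) (G : Lt X R ε ℓ r) {d : ℝ} {nx : ℝ → ℕ} {a b : ℝ} {L : ℕ}
    {p : ℕ → ℝ} (hp : t18cyl3_Path X R ℓ n d nx a b L p)
    (hi : ∀ i ≤ L, ∀ j ≤ L, Cy R ℓ n (p i) (p j) → i = j) :
    ∑ i ∈ Finset.range L, (if t18cyl3_Sp X R ℓ n d (p i) then 1 else 0) ≤ r := by
  obtain ⟨p1, -, -, -⟩ := hp
  rw [← Finset.card_filter]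
  set T : Finset ℕ := (Finset.range L).filter fun i => t18cyl3_Sp X R ℓ n d (p i) with hT
  have hm : ∀ i ∈ T, i ≤ L ∧ t18cyl3_Sp X R ℓ n d (p i) := by
    intro i h
    simp only [hT, Finset.mem_filter, Finset.mem_range] at h
    exact ⟨h.1.le, h.2⟩
  have h1 : (T.image p).card = T.card := by
    apply Finset.card_image_of_injOn
    intro c hc c' hc' he
    apply hi c (hm c hc).1 c' (hm c' hc').1
    rw [he]
    exact Cy.refl _ _ _ _
  rw [← h1]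
  apply G.special H n d
  · intro v hv
    obtain ⟨c, hc, rfl⟩ := Finset.mem_image.1 (Finset.mem_coe.1 hv)
    exact (p1 _ (hm c hc).1).1
  · intro v hv v' hv' hc
    obtain ⟨c, h3, rfl⟩ := Finset.mem_image.1 hv
    obtain ⟨c', h4, rfl⟩ := Finset.mem_image.1 hv'
    rw [hi c (hm c h3).1 c' (hm c' h4).1 hc]
  · intro v hv
    obtain ⟨c, hc, rfl⟩ := Finset.mem_image.1 hv
    exact (p1 _ (hm c hc).1).2
  · intro v hv
    obtain ⟨c, hc, rfl⟩ := Finset.mem_image.1 hv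
    exact (hm c hc).2

open Classical in
lemma t18cyl3_down (H : FI X R e ε) (J : ℝ → ℝ) {d : ℝ} (hd : 0 ≤ d) {q : ℕ} {nx : ℝ → ℕ}
    (hnx : t18cyl3_Nx X R ℓ n d q nx) {a b w : ℝ} {L c : ℕ} {p : ℕ → ℝ}
    (hp : t18cyl3_Path X R ℓ n d nx a b L p) (hw : w ∈ X) (hc : 0 < c) (hb : R^[c] b = w)
    (m : ℕ) : ∀ i, i + m = L → ∀ v ∈ X, ∀ k, 0 < k → Cy R ℓ n (R^[k] v) (p i) →
      ∃ (u : ℕ) (S : ℝ), Ch X R J d v w u (k + (∑ j ∈ Finset.Ico i L, nx (p j) + c)) S ∧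
        u ≤ 2 + ∑ j ∈ Finset.Ico i L, (if t18cyl3_Sp X R ℓ n d (p j) then 1 else 0) := by
  obtain ⟨p1, -, p3, p4⟩ := hp
  have jump : ∀ i ≤ L, ∀ v ∈ X, ∀ k, Cy R ℓ n (R^[k] v) (p i) → |R^[k] v - p i| ≤ d :=
    fun i hi v hv k h => (p1 i hi).2 _ (H.iter hv k) _ (p1 i hi).1 h.symm (Cy.refl _ _ _ _)
  induction m with
  | zero =>
    intro i hi v hv k hk h
    obtain rfl : i = L := by omega
    have h1 : Ch X R J d (p i) w 1 c (SJ J R (p i) c) :=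
      Ch.one (p1 i le_rfl).1 hw hc (by rw [p4, hb, sub_self, abs_zero]; exact hd)
    refine ⟨1 + 1, SJ J R v k + SJ J R (p i) c, ?_, by omega⟩
    · simp only [Finset.Ico_self, Finset.sum_empty, zero_add]
      exact Ch.cons hv (p1 i le_rfl).1 hk (jump i le_rfl v hv k h) h1
  | succ m ih =>
    intro i hi v hv k hk h
    have hL : i < L := by omega
    have hx := (p1 i hL.le).1
    obtain ⟨h1, -, -, h4⟩ := hnx _ hx
    rw [Finset.sum_eq_sum_Ico_succ_bot hL, Finset.sum_eq_sum_Ico_succ_bot hL]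
    by_cases hs : t18cyl3_Sp X R ℓ n d (p i)
    · obtain ⟨u, S, h5, h6⟩ := ih (i + 1) (by omega) (p i) hx (nx (p i)) h1 (p3 i hL)
      refine ⟨u + 1, SJ J R v k + S, ?_, by rw [if_pos hs]; omega⟩
      rw [add_assoc]
      exact Ch.cons hv hx hk (jump i hL.le v hv k h) h5
    · have h5 : Cy R ℓ n (R^[nx (p i)] (p i)) (R^[nx (p i)] (R^[k] v)) := by
        by_contra h6
        exact hs ⟨p i, hx, R^[k] v, H.iter hv k, Cy.refl _ _ _ _, h.symm, nx (p i), h1, h4, h6⟩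
      rw [← Function.iterate_add_apply] at h5
      obtain ⟨u, S, h6, h7⟩ := ih (i + 1) (by omega) v hv (nx (p i) + k) (by omega)
        (h5.symm.trans (p3 i hL))
      refine ⟨u, S, ?_, by rw [if_neg hs]; omega⟩
      rw [show k + (nx (p i) + ∑ j ∈ Finset.Ico (i + 1) L, nx (p j) + c) =
        nx (p i) + k + (∑ j ∈ Finset.Ico (i + 1) L, nx (p j) + c) by omega]
      exact h6

theorem Lt.chain (H : FI X R e ε) (G : Lt X R ε ℓ r) (J : ℝ → ℝ) (n q : ℕ) {d : ℝ} (hd : 0 ≤ d)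
    (hq : ∀ x ∈ X, ∃ j : ℕ, 0 < j ∧ j ≤ q ∧ Sml X R ℓ n d (R^[j] x)) {w : ℝ} (hz : z ∈ X)
    (hw : w ∈ X) : ∃ (k t : ℕ) (S : ℝ), Ch X R J d z w k t S ∧ k ≤ r + 3 ∧
      t ≤ r * (n + q) + 1 + 2 * q := by
  classical
  obtain ⟨nx, hnx⟩ := t18cyl3_exists_nx hq
  obtain ⟨v, hv, hvw⟩ := H.back hw (q + 1)
  obtain ⟨i, i1, i2, i3⟩ := hq v hv
  have hb : R^[q + 1 - i] (R^[i] v) = w := by
    rw [← Function.iterate_add_apply, show q + 1 - i + i = q + 1 by omega, hvw]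
  obtain ⟨z1, z2, z3, -⟩ := hnx z hz
  obtain ⟨κ, hκ, hnb⟩ := G.nbhd H n
  obtain ⟨k, hk, -⟩ := H.flip _ (H.iter hz (nx z)) _ (H.iter hv i) 1 (Or.inl rfl) κ hκ
  obtain ⟨L, p, hp, hi⟩ := t18cyl3_min (t18cyl3_path H hnx (H.iter hv i) i3 k _
    (H.iter hz (nx z)) z3 (hnb _ (H.iter (H.iter hz (nx z)) k) _ (H.iter hv i) hk.le))
  obtain ⟨u, S, h1, h2⟩ := t18cyl3_down H J hd hnx hp hw (show 0 < q + 1 - i by omega) hb L 0
    (by omega) z hz (nx z) z1 hp.2.1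
  have h3 := t18cyl3_time H G hnx hp hi
  have h4 := t18cyl3_few H G hp hi
  rw [← Finset.range_eq_Ico] at h1 h2
  exact ⟨u, _, S, h1, by omega, by omega⟩

end Pool.Agent.Lib.MP_5bb885_an.Gen
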