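import Pool.Agent.Lib.MP_5bb885_an.T9Main

/-!
Definitions for surfaces that are not orientable.
-/

namespace Pool.Agent.Lib.MP_5bb885_an.Gen

open UpperHalfPlane MeasureTheory Filter Topology

/-- Birkhoff sums. -/
noncomputable def SJ (J R : ℝ → ℝ) (x : ℝ) (k : ℕ) : ℝ := ∑ j ∈ Finset.range k, J (R^[j] x)

/-- The product of the signs along an orbit. -/
noncomputable def EE (e R : ℝ → ℝ) (x : ℝ) (k : ℕ) : ℝ := ∏ j ∈ Finset.range k, e (R^[j] x)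

/-- Locally monotone homeomorphisms of a Cantor set whose orbits are dense with both signs. -/
structure FI (X : Set ℝ) (R e : ℝ → ℝ) (ε : ℝ) : Prop where
  cpt : IsCompact X
  ne : X.Nonempty
  nd : ∀ y y' : ℝ, y < y' → ∃ w ∈ Set.Ioo y y', w ∉ X
  pos : 0 < ε
  bij : Set.BijOn R X X
  cont : ContinuousOn R X
  sgn : ∀ x ∈ X, e x = 1 ∨ e x = -1
  near : ∀ x ∈ X, ∀ y ∈ X, x < y → y - x ≤ ε → e x = e y ∧ 0 < e x * (R y - R x)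
  aper : ∀ x ∈ X, ∀ k : ℕ, 0 < k → R^[k] x ≠ x
  flip : ∀ x ∈ X, ∀ y ∈ X, ∀ σ : ℝ, σ = 1 ∨ σ = -1 → ∀ η : ℝ, 0 < η →
    ∃ k : ℕ, |R^[k] x - y| < η ∧ EE e R x k = σ

/-- Letters. -/
structure Lt (X : Set ℝ) (R : ℝ → ℝ) (ε : ℝ) (ℓ : ℝ → ℕ) (r : ℕ) : Prop where
  mono : Monotone ℓ
  bdd : ∀ x, ℓ x ≤ r
  mesh : ∀ x ∈ X, ∀ y ∈ X, ℓ x = ℓ y → |x - y| ≤ ε
  conv : ∀ x ∈ X, ∀ y ∈ X, ∀ z ∈ X, ℓ x = ℓ y → R z ∈ Set.uIcc (R x) (R y) → z ∈ Set.uIcc x y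
  loc : ∃ κ : ℝ, 0 < κ ∧ ∀ x ∈ X, ∀ y ∈ X, |x - y| ≤ κ → ℓ x = ℓ y

/-- Two points with the same first `n` letters. -/
def Cy (R : ℝ → ℝ) (ℓ : ℝ → ℕ) (n : ℕ) (x y : ℝ) : Prop := ∀ j < n, ℓ (R^[j] x) = ℓ (R^[j] y)

/-- Points whose cylinder has diameter at most `d`. -/
def Sml (X : Set ℝ) (R : ℝ → ℝ) (ℓ : ℝ → ℕ) (n : ℕ) (d x : ℝ) : Prop :=
  ∀ y ∈ X, ∀ y' ∈ X, Cy R ℓ n x y → Cy R ℓ n x y' → |y - y'| ≤ d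

/-- Chains with `n` segments, jumps at most `d`, length `t` and sum `S`. -/
inductive Ch (X : Set ℝ) (R J : ℝ → ℝ) (d : ℝ) : ℝ → ℝ → ℕ → ℕ → ℝ → Prop
  | one {z w : ℝ} {k : ℕ} : z ∈ X → w ∈ X → 0 < k → |R^[k] z - w| ≤ d →
      Ch X R J d z w 1 k (SJ J R z k)
  | cons {z y w : ℝ} {k n t : ℕ} {S : ℝ} : z ∈ X → y ∈ X → 0 < k → |R^[k] z - y| ≤ d →
      Ch X R J d y w n t S → Ch X R J d z w (n + 1) (k + t) (SJ J R z k + S)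

/-- Very close returns at all scales. -/
def Short (X : Set ℝ) (R : ℝ → ℝ) : Prop :=
  ∃ C : ℝ, ∀ᶠ m : ℕ in atTop, ∃ x ∈ X, ∃ k : ℕ, 0 < k ∧ (k : ℝ) ≤ C * m ^ 6 ∧
    |x - R^[k] x| ≤ C / m ^ 10

/-- Short chains between any two points at infinitely many scales. -/
def Link (X : Set ℝ) (R J : ℝ → ℝ) : Prop :=
  ∃ (n₀ : ℕ) (C : ℝ), ∃ᶠ m : ℕ in atTop, ∀ z ∈ X, ∀ w ∈ X, ∃ (n t : ℕ) (S : ℝ),
    Ch X R J (1 / m ^ 6) z w n t S ∧ n ≤ n₀ ∧ (t : ℝ) ≤ C * m ^ 10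

/-- The inequality for pseudo-orbits of a return map. -/
def TK (X : Set ℝ) (R J : ℝ → ℝ) : Prop :=
  ∃ C s₀ d₀ : ℝ, 0 ≤ C ∧ 0 < s₀ ∧ 0 < d₀ ∧ ∀ s : ℝ, |s| ≤ s₀ → ∃ h : ℝ → ℝ,
    (∀ z ∈ X, ∀ w ∈ X, h z - h w ≤ C) ∧ ∀ z ∈ X, ∀ w ∈ X, ∀ k : ℕ, 0 < k →
      |R^[k] z - w| ≤ d₀ → h w - h z ≤ C * (R^[k] z - w) ^ 2 + C * |s| * |R^[k] z - w| +
        s * SJ J R z k + C * s ^ 2 * k

/-- Approximate coboundaries. -/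
def AC (X : Set ℝ) (R J : ℝ → ℝ) : Prop :=
  ∀ η : ℝ, 0 < η → ∀ B : ℝ, ∃ (H : ℕ) (d : ℝ) (p : ℝ → ℝ), 0 < d ∧ d ≤ 1 ∧ B ≤ d * H ∧
    ∀ z ∈ X, ∀ w ∈ X, ∀ k : ℕ, 0 < k → k ≤ H → |R^[k] z - w| ≤ d →
      |p w - p z - SJ J R z k| ≤ η

/-- The point `u` of `X` is isolated on the side `σ`. -/
def Iso (X : Set ℝ) (u σ : ℝ) : Prop :=
  u ∈ X ∧ (σ = 1 ∨ σ = -1) ∧ ∃ κ : ℝ, 0 < κ ∧ ∀ y ∈ X, 0 < σ * (y - u) → κ ≤ σ * (y - u)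

/-- The sides of the gaps. -/
def Side (X : Set ℝ) : Type := {s : ℝ × ℝ // Iso X s.1 s.2}

/-- The point of the transversal at a given height. -/
noncomputable def Bx.pt (q : Bx) (y : ℝ) : ℍ := ofComplex (q.p + q.d * (y * Complex.I))

/-- The heights of the points of `K` on the transversal. -/
def Bx.hs (q : Bx) (K : Set ℍ) : Set ℝ := q.ht '' (K ∩ q.ln)

/-- The return map in the height coordinate. -/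
noncomputable def Bx.rm (q : Bx) (R : ℍ → ℍ) (y : ℝ) : ℝ := q.ht (R (q.pt y))

/-- Families with uniformly Lipschitz second derivatives. -/
def Lip2 (S : Set (ℂ × ℂ → ℝ)) : Prop :=
  ∀ R r : ℝ, ∃ M : ℝ, 0 ≤ M ∧ ∀ L ∈ S, ∀ p p' : ℂ × ℂ, p.1 ∈ KB R → p'.1 ∈ KB R → ‖p.2‖ ≤ r →
    ‖p'.2‖ ≤ r → ‖D2 L p - D2 L p'‖ ≤ M * ‖p - p'‖

/-- Small functions. -/
def Sm (δ : ℝ) (f : ℂ → ℝ) : Prop :=
  ∀ z ∈ KB (1 / δ), |f z| ≤ δ ∧ ‖fderiv ℝ f z‖ ≤ δ ∧ ‖fderiv ℝ (fderiv ℝ f) z‖ ≤ δ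

variable {Γ : Type} [Group Γ] [MulAction Γ ℍ]

/-- Cocycles twisted by the orientation character. -/
def TCoh (β : Γ → ℝ) : Prop := ∀ γ δ : Γ, β (γ * δ) = β γ + sg γ * β δ

variable (Γ) in
/-- All forward orbits are dense with both orientations. -/
def Flip (K : Set ℍ) (Φ : ℝ → ℍ → ℍ) : Prop :=
  ∀ σ : ℝ, σ = 1 ∨ σ = -1 → ∀ O : Set ℍ, IsOpen O → (O ∩ K).Nonempty → ∀ z ∈ K,
    ∃ t : ℝ, 0 ≤ t ∧ ∃ γ : Γ, sg γ = σ ∧ γ • Φ t z ∈ O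

/-- The second derivative of a deck transformation, moved back to the base point. -/
noncomputable def Bq (γ : Γ) (z : ℍ) (h : ℂ) : ℂ :=
  dk γ⁻¹ (γ • z) (fderiv ℝ (fderiv ℝ fun w : ℂ => ((γ • ofComplex w : ℍ) : ℂ)) z h h)

/-- Fields that change sign after one period. -/
def Anti (x : ℝ → ℍ) (γ : Γ) (T : ℝ) (η : ℝ → ℂ) : Prop := ∀ t, η (t + T) = -dk γ (x t) (η t)

/-- Calibrated closed curves. -/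
def CP (L : ℂ × ℂ → ℝ) (c : Γ → ℝ) (x : ℝ → ℍ) (γ : Γ) (T : ℝ) : Prop :=
  ∃ u, Eqv c u ∧ Dom L (crit L c) u ∧ Cal L (crit L c) u x ∧ Per x γ T

/-- One-sided calibrated closed curves with the eigenvalue minus one. -/
structure OD (L : ℂ × ℂ → ℝ) (c : Γ → ℝ) (x : ℝ → ℍ) (γ : Γ) (T : ℝ) (η : ℝ → ℂ) : Prop where
  cp : CP L c x γ T
  no : ¬Ori γ
  jac : Jac L x η
  en : En L x η
  anti : Anti x γ T η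
  one : ‖η 0‖ + ‖deriv η 0‖ = 1

/-- There is a degenerate one-sided closed orbit. -/
def DegO (L : ℂ × ℂ → ℝ) (c : Γ → ℝ) : Prop :=
  ∃ (x : ℝ → ℍ) (γ : Γ) (T : ℝ) (η : ℝ → ℂ), OD L c x γ T η ∧ MinPer x γ T ∧ tng x η (T / 2) = 0

end Pool.Agent.Lib.MP_5bb885_an.Gen
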