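import Pool.Agent.Lib.MP_5bb885_an.T18Conj

/-!
One-sided closed curves are hyperbolic or degenerate.
-/

namespace Pool.Agent.Lib.MP_5bb885_an.Gen

open UpperHalfPlane MeasureTheory Filter Topology

variable {Γ : Type} [Group Γ] [MulAction Γ ℍ] {L : ℂ × ℂ → ℝ} {c : Γ → ℝ} {x : ℝ → ℍ} {γ : Γ}
  {T : ℝ} {η : ℝ → ℂ}

lemma t18deg_cont (hx : Reg L x) (hv : ∀ t, vel x t ≠ 0) (hJ : Jac L x η) :
    Continuous fun t => η t / vel x t :=
  (continuous_iff_continuousAt.2 fun t => (hJ t).1.continuousAt).div hx.contVel hv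

lemma t18deg_nrm_smul (a t : ℝ) : nrm x (a • η) t = a * nrm x η t := by
  simp only [nrm, Pi.smul_apply, smul_div_assoc, Complex.smul_im, smul_eq_mul]

lemma t18deg_tng_smul (a t : ℝ) : tng x (a • η) t = a * tng x η t := by
  simp only [tng, Pi.smul_apply, smul_div_assoc, Complex.smul_re, smul_eq_mul]

/-- A bounded field whose normal part is a positive coboundary is tangent. -/
lemma t18deg_pos (F : Deck Γ) (hL : Tonelli Γ L) (hx : Reg L x) (hp : Per x γ T) (hn : ¬Ori γ)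
    (hv : ∀ t, vel x t ≠ 0) (hJ : Jac L x η) (hE : En L x η) (hB : Bdd x η)
    (ht : ¬∃ a : ℝ, ∀ t, η t = a • vel x t) {n : ℝ → ℝ} {C r : ℝ} (hC : ∀ t, |n t| ≤ C)
    (he : ∀ t, nrm x η t = n t - n (t + T)) (hr : ∀ t, r ≤ t → 0 < nrm x η t) : False := by
  have hp2 : Per x (γ * γ) (T + T) := ⟨add_pos hp.1 hp.1, fun t => by
    rw [← add_assoc, hp.2, hp.2, mul_smul]⟩
  have ho : Ori (γ * γ) := by
    rcases sg_cases (γ * γ) with h | h
    · exact h.1
    · have h1 := F.sg_mul γ γ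
      rw [h.2, ((sg_cases γ).resolve_left fun h => hn h.1).2] at h1
      norm_num at h1
  obtain ⟨c₀, hc₀, low⟩ := jac_pos F hL hx hp2 ho hv hJ hE hB ht
  have h1 : ∀ k : ℕ, n (r + 1 + k * T) ≤ n (r + 1) - k * c₀ := by
    intro k
    induction k with
    | zero => simp
    | succ k ih =>
      have hk : 0 ≤ (k : ℝ) * T := mul_nonneg (Nat.cast_nonneg k) hp.1.le
      have h2 := low (r + 1 + k * T) fun s hs => hr s (by linarith [hs.1])
      rw [he] at h2
      have e : r + 1 + ((k + 1 : ℕ) : ℝ) * T = r + 1 + k * T + T := by push_cast; ring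
      rw [e]
      push_cast
      linarith
  obtain ⟨k, hk⟩ := exists_nat_gt (2 * C / c₀)
  rw [div_lt_iff₀ hc₀] at hk
  have h2 := abs_le.1 (hC (r + 1 + k * T))
  have h3 := abs_le.1 (hC (r + 1))
  linarith [h1 k, h2.1, h3.2]

lemma t18deg_tan (F : Deck Γ) (hL : Tonelli Γ L) (hc : c ∈ Coh Γ) (h : CP L c x γ T)
    (hn : ¬Ori γ) (hJ : Jac L x η) (hE : En L x η) (hB : Bdd x η) {n : ℝ → ℝ} {C : ℝ}
    (hC : ∀ t, |n t| ≤ C) (he : ∀ t, nrm x η t = n t - n (t + T)) :
    ∃ a : ℝ, ∀ t, η t = a • vel x t := by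
  by_contra ht
  have hx := h.reg F hL
  have hv := h.vel_ne F hL hn
  have hcont : Continuous (nrm x η) := Complex.continuous_im.comp (t18deg_cont hx hv hJ)
  obtain ⟨r, hr⟩ : ∃ r : ℝ, ∀ t, r ≤ t → nrm x η t ≠ 0 := by
    by_cases hz : ∃ a, nrm x η a = 0
    · obtain ⟨a, ha⟩ := hz
      exact ⟨a + 1, fun t hat hb => ht (h.conj F hL hc hv hJ hE (by linarith : a < t) ha hb)⟩
    · exact ⟨0, fun t _ hb => hz ⟨t, hb⟩⟩
  rcases lt_or_gt_of_ne (hr r le_rfl) with h0 | h0
  · refine t18deg_pos (η := (-1 : ℝ) • η) (n := fun t => -n t) (C := C) (r := r) F hL hx h.per hn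
      hv (JacA.smul hJ _) (hE.smul' (fun t => (hJ t).1) _) (hB.smul' _) ?_
      (fun t => by rw [abs_neg]; exact hC t) (fun t => by rw [t18deg_nrm_smul, he]; ring) ?_
    · rintro ⟨a, ha⟩
      refine ht ⟨-a, fun t => ?_⟩
      have := ha t
      rw [Pi.smul_apply, neg_one_smul, neg_eq_iff_eq_neg] at this
      rw [this, _root_.neg_smul]
    · intro t hrt
      rw [t18deg_nrm_smul]
      by_contra hb
      obtain ⟨s, hs, e⟩ := intermediate_value_Icc hrt hcont.continuousOn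
        (show (0 : ℝ) ∈ Set.Icc (nrm x η r) (nrm x η t) from ⟨h0.le, by linarith⟩)
      exact hr s hs.1 e
  · refine t18deg_pos (r := r) F hL hx h.per hn hv hJ hE hB ht hC he fun t hrt => ?_
    by_contra hb
    obtain ⟨s, hs, e⟩ := intermediate_value_Icc' hrt hcont.continuousOn
      (show (0 : ℝ) ∈ Set.Icc (nrm x η t) (nrm x η r) from ⟨not_lt.1 hb, h0.le⟩)
    exact hr s hs.1 e

/-- A bounded field that is not tangent gives a field that changes sign after one period. -/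
lemma t18deg_anti (F : Deck Γ) (hL : Tonelli Γ L) (hc : c ∈ Coh Γ) (h : CP L c x γ T)
    (hn : ¬Ori γ) (hJ : Jac L x η) (hE : En L x η) (hB : Bdd x η) :
    ∃ a : ℝ, Anti x γ T (η + a • vel x) := by
  have hx := h.reg F hL
  have hv := h.vel_ne F hL hn
  have hp := h.per
  obtain ⟨C, -, hC⟩ := jac_bound F hL hx hp hv hJ hE hB
  obtain ⟨m1, m2, -, m4, m5⟩ := hp.mono F hL hx hJ hE 1
  have hB' : Bdd x (mono x γ T 1 η) := by
    refine ⟨C, fun t => ⟨tng x (mono x γ T 1 η) t, ?_⟩⟩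
    have := (hC (t + (1 : ℤ) * T)).2.2.1
    rw [← m5, div_le_iff₀ (x t).im_pos] at this
    exact this
  obtain ⟨a, ha⟩ := t18deg_tan (η := η + mono x γ T 1 η) (n := nrm x η) (C := C) F hL hc h hn
    (JacA.add hJ m1) (hE.add (fun t => (hJ t).1) (fun t => (m1 t).1) m2) (hB.add hB')
    (fun t => (hC t).1) fun t => by
      have e := m4 t
      rw [zpow_one, ((sg_cases γ).resolve_left fun h => hn h.1).2, Int.cast_one, one_mul] at e
      have e2 : nrm x (η + mono x γ T 1 η) t = nrm x η t + nrm x (mono x γ T 1 η) t := by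
        simp only [nrm, Pi.add_apply, add_div, Complex.add_im]
      rw [e2, e]
      ring
  refine ⟨-(a / 2), fun t => ?_⟩
  have e1 : dk γ (x t) (mono x γ T 1 η t) = η (t + T) := by
    have e : x t = γ⁻¹ • x (t + T) := by rw [hp.2, inv_smul_smul]
    rw [mono, Int.cast_one, one_mul, zpow_neg_one]
    conv_lhs => rw [e]
    rw [← F.dk_mul, mul_inv_cancel, dk_one]
  have e2 : mono x γ T 1 η t = a • vel x t - η t := by
    rw [← ha t, Pi.add_apply]
    abel
  rw [e2, map_sub, map_smul] at e1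
  rw [Pi.add_apply, Pi.add_apply, Pi.smul_apply, Pi.smul_apply, map_add, map_smul, ← e1,
    hp.vel F t]
  module

theorem CP.hyp_or_degO (F : Deck Γ) (hL : Tonelli Γ L) (hc : c ∈ Coh Γ) (h : CP L c x γ T)
    (hm : MinPer x γ T) (hn : ¬Ori γ) : Hyp L x ∨ DegO L c := by
  refine or_iff_not_imp_left.2 fun hh => ?_
  obtain ⟨η, hJ, hE, hB, ht⟩ : ∃ η, Jac L x η ∧ En L x η ∧ Bdd x η ∧
      ¬∃ a : ℝ, ∀ t, η t = a • vel x t := by
    by_contra hcon
    exact hh fun η h1 h2 h3 => by_contra fun h4 => hcon ⟨η, h1, h2, h3, h4⟩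
  have hx := h.reg F hL
  have hv := h.vel_ne F hL hn
  have hp := h.per
  obtain ⟨a, hA⟩ := t18deg_anti F hL hc h hn hJ hE hB
  have hs : ∀ t, DifferentiableAt ℝ (a • vel x) t := fun t => (hx.acc t).const_smul _
  have hJ0 : Jac L x (η + a • vel x) := JacA.add hJ (JacA.smul (hx.jac_vel hL.smooth) _)
  have hE0 : En L x (η + a • vel x) :=
    hE.add (fun t => (hJ t).1) hs ((hx.en_vel hL.smooth).smul' hx.acc _)
  have hne : ¬∀ t, (η + a • vel x) t = 0 := fun h0 => ht ⟨-a, fun t => by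
    have := h0 t
    rw [Pi.add_apply, Pi.smul_apply, add_eq_zero_iff_eq_neg] at this
    rw [this, _root_.neg_smul]⟩
  generalize η + a • vel x = ζ at hA hJ0 hE0 hne
  have hcont : Continuous (tng x ζ) := Complex.continuous_re.comp (t18deg_cont hx hv hJ0)
  have hT : tng x ζ T = -tng x ζ 0 := by
    have e1 := hA 0
    have e2 := hp.vel F 0
    rw [zero_add] at e1 e2
    rw [tng, tng, e1, e2, neg_div, Complex.neg_re, (F.dk_div _ _ _ _).2]
  obtain ⟨s, hs0⟩ : ∃ s, tng x ζ s = 0 := by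
    rcases le_total (tng x ζ 0) 0 with h0 | h0
    · exact intermediate_value_univ 0 T hcont ⟨h0, by linarith⟩
    · exact intermediate_value_univ T 0 hcont ⟨by linarith, h0⟩
  have hJ1 := hJ0.shift (s - T / 2)
  have hE1 := hE0.shift (s - T / 2)
  have hx1 := hx.shift (s - T / 2)
  set N := ‖ζ (0 + (s - T / 2))‖ + ‖deriv (fun t => ζ (t + (s - T / 2))) 0‖ with hN
  have hN0 : 0 < N := by
    refine lt_of_le_of_ne (add_nonneg (norm_nonneg _) (norm_nonneg _)) fun h0 => hne fun t => ?_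
    have h1 := (add_eq_zero_iff_of_nonneg (norm_nonneg _) (norm_nonneg _)).1 h0.symm
    have h2 := JacA.eq_zero (hx1.coef hL) hJ1 (s := 0) (norm_eq_zero.1 h1.1) (norm_eq_zero.1 h1.2)
      (t - (s - T / 2))
    simpa using h2
  refine ⟨fun t => x (t + (s - T / 2)), γ, T, N⁻¹ • fun t => ζ (t + (s - T / 2)),
    ⟨h.shift _, hn, JacA.smul hJ1 _, hE1.smul' (fun t => (hJ1 t).1) _, fun t => ?_, ?_⟩,
    hm.shift _, ?_⟩
  · rw [Pi.smul_apply, Pi.smul_apply, map_smul, add_right_comm, hA, smul_neg]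
  · rw [deriv_const_smul _ (hJ1 0).1, Pi.smul_apply, norm_smul, norm_smul, ← mul_add, ← hN,
      Real.norm_eq_abs, abs_of_pos (inv_pos.2 hN0), inv_mul_cancel₀ hN0.ne']
  · rw [t18deg_tng_smul]
    refine mul_eq_zero_of_right _ ?_
    rw [tng, vel_shift, add_sub_cancel]
    exact hs0

end Pool.Agent.Lib.MP_5bb885_an.Gen
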