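import Pool.Agent.Lib.MP_5bb885_an.T18Cyl3
import Pool.Agent.Lib.MP_5bb885_an.T18Big

/-!
Close returns or short chains.
-/

namespace Pool.Agent.Lib.MP_5bb885_an.Gen

open UpperHalfPlane MeasureTheory Filter Topology

variable {X : Set ℝ} {R e J : ℝ → ℝ} {ε : ℝ} {ℓ : ℝ → ℕ} {r n : ℕ} {x y z : ℝ}

lemma t18dich_inj (H : FI X R e ε) (hx : x ∈ X) {i j : ℕ} (h : R^[i] x = R^[j] x) : i = j := by
  by_contra hne
  rcases lt_or_gt_of_ne hne with hl | hl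
  · obtain ⟨p, rfl⟩ := Nat.exists_eq_add_of_lt hl
    refine H.aper _ (H.iter hx i) (p + 1) (Nat.succ_pos p) ?_
    rw [← Function.iterate_add_apply, h]
    congr 1
    ring
  · obtain ⟨p, rfl⟩ := Nat.exists_eq_add_of_lt hl
    refine H.aper _ (H.iter hx j) (p + 1) (Nat.succ_pos p) ?_
    rw [← Function.iterate_add_apply, ← h]
    congr 1
    ring

/-- Many consecutive big cylinders give a short period. -/
lemma t18dich_rep (H : FI X R e ε) {C d : ℝ} {q : ℕ}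
    (hb : ∀ Y : Finset ℝ, ↑Y ⊆ X → (∀ x ∈ Y, ∀ y ∈ Y, Cy R ℓ n x y → x = y) →
      (∀ x ∈ Y, ¬Sml X R ℓ n d x) → (Y.card : ℝ) ≤ C / d)
    (hq : C / d < q) (hx : x ∈ X) (hn : ∀ j : ℕ, 0 < j → j ≤ q → ¬Sml X R ℓ n d (R^[j] x)) :
    ∃ y ∈ X, ∃ p : ℕ, 0 < p ∧ p ≤ q ∧ Cy R ℓ n y (R^[p] y) := by
  classical
  by_contra hc
  push Not at hc
  have key : ∀ i j : ℕ, i < j → j ≤ q → ¬Cy R ℓ n (R^[i] x) (R^[j] x) := by
    intro i j hij hj hcy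
    refine hc _ (H.iter hx i) (j - i) (by omega) (by omega) ?_
    rw [← Function.iterate_add_apply, Nat.sub_add_cancel hij.le]
    exact hcy
  have h1 := hb ((Finset.Icc 1 q).image fun j => R^[j] x) ?_ ?_ ?_
  · rw [Finset.card_image_of_injective _ fun i j h => t18dich_inj H hx h] at h1
    simp only [Nat.card_Icc, Nat.add_sub_cancel] at h1
    linarith
  · intro y hy
    obtain ⟨j, -, rfl⟩ := Finset.mem_image.1 (Finset.mem_coe.1 hy)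
    exact H.iter hx j
  · intro a ha b hb' hcy
    obtain ⟨i, hi, rfl⟩ := Finset.mem_image.1 ha
    obtain ⟨j, hj, rfl⟩ := Finset.mem_image.1 hb'
    rcases lt_trichotomy i j with h | h | h
    · exact absurd hcy (key i j h (Finset.mem_Icc.1 hj).2)
    · rw [h]
    · exact absurd hcy.symm (key j i h (Finset.mem_Icc.1 hi).2)
  · intro a ha
    obtain ⟨j, hj, rfl⟩ := Finset.mem_image.1 ha
    exact hn j (Finset.mem_Icc.1 hj).1 (Finset.mem_Icc.1 hj).2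

theorem FI.dich (H : FI X R e ε) (J : ℝ → ℝ) : Short X R ∨ Link X R J := by
  obtain ⟨ℓ, r, G⟩ := H.exists_lt
  obtain ⟨C₁, h₁, hb⟩ := G.big H
  obtain ⟨C₂, h₂, hp⟩ := G.period H
  rw [or_iff_not_imp_left]
  intro hs
  have hs' : ∃ᶠ m : ℕ in atTop, ¬∃ x ∈ X, ∃ k : ℕ, 0 < k ∧
      (k : ℝ) ≤ (2 * C₁ + 4 + C₂) * m ^ 6 ∧ |x - R^[k] x| ≤ (2 * C₁ + 4 + C₂) / m ^ 10 := by
    by_contra hc
    rw [not_frequently] at hc
    exact hs ⟨2 * C₁ + 4 + C₂, hc.mono fun m hm => not_not.1 hm⟩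
  refine ⟨r + 3, 2 * r + 3, (hs'.and_eventually (eventually_ge_atTop ⌈8 * C₁ + 16⌉₊)).mono ?_⟩
  rintro m ⟨hm, hm'⟩ z hz w hw
  have hm1 : 8 * C₁ + 16 ≤ (m : ℝ) := Nat.ceil_le.1 hm'
  have hm2 : (1 : ℝ) ≤ m := by linarith
  have h6 : (1 : ℝ) ≤ (m : ℝ) ^ 6 := one_le_pow₀ hm2
  have h10 : (1 : ℝ) ≤ (m : ℝ) ^ 10 := one_le_pow₀ hm2
  have hd : (0 : ℝ) < 1 / (m : ℝ) ^ 6 := by positivity
  obtain ⟨q, hq1, hq2⟩ : ∃ q : ℕ, C₁ * (m : ℝ) ^ 6 < q ∧ (q : ℝ) ≤ C₁ * m ^ 6 + 2 := by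
    refine ⟨⌈C₁ * (m : ℝ) ^ 6⌉₊ + 1, ?_, ?_⟩
    · push_cast
      linarith [Nat.le_ceil (C₁ * (m : ℝ) ^ 6)]
    · push_cast
      linarith [Nat.ceil_lt_add_one (show 0 ≤ C₁ * (m : ℝ) ^ 6 by positivity)]
  have hq3 : 8 * (q : ℝ) ≤ (m : ℝ) ^ 10 := by
    have h7 : (m : ℝ) * m ^ 6 ≤ m ^ 10 := by
      rw [← pow_succ']
      exact pow_le_pow_right₀ hm2 (by norm_num)
    have h8 : (8 * C₁ + 16) * (m : ℝ) ^ 6 ≤ m * m ^ 6 :=
      mul_le_mul_of_nonneg_right hm1 (by positivity)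
    nlinarith
  have hq4 : 8 * q ≤ m ^ 10 := by exact_mod_cast hq3
  have hq : ∀ x ∈ X, ∃ j : ℕ, 0 < j ∧ j ≤ q ∧
      Sml X R ℓ (m ^ 10) (1 / (m : ℝ) ^ 6) (R^[j] x) := by
    intro x hx
    by_contra hc
    push Not at hc
    obtain ⟨y, hy, p, hp0, hpq, hcy⟩ := t18dich_rep H (hb (m ^ 10) _ hd)
      (by rw [div_div_eq_mul_div, div_one]; exact hq1) hx hc
    obtain ⟨u, hu, k, hk0, hk, hle⟩ := hp (m ^ 10) p hp0 (by omega) y hy hcy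
    refine hm ⟨u, hu, k, hk0, ?_, hle.trans ?_⟩
    · have hk' : (k : ℝ) ≤ 2 * q := by exact_mod_cast hk.trans (by omega)
      nlinarith
    · push_cast
      exact div_le_div_of_nonneg_right (by linarith) (by positivity)
  obtain ⟨k, t, S, hch, hk, ht⟩ := G.chain H J (m ^ 10) q hd.le hq hz hw
  refine ⟨k, t, S, hch, hk, ?_⟩
  have ht' : (t : ℝ) ≤ r * ((m : ℝ) ^ 10 + q) + 1 + 2 * q := by exact_mod_cast ht
  have hr : (0 : ℝ) ≤ r := Nat.cast_nonneg r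
  have hq0 : (0 : ℝ) ≤ q := Nat.cast_nonneg q
  have hq5 : (q : ℝ) ≤ (m : ℝ) ^ 10 := by linarith
  nlinarith [mul_le_mul_of_nonneg_left hq5 hr]

end Pool.Agent.Lib.MP_5bb885_an.Gen
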