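import Pool.Agent.Lib.MP_5bb885_an.T18Lim

/-!
Differences of closed curves.
-/

namespace Pool.Agent.Lib.MP_5bb885_an.Gen

open UpperHalfPlane MeasureTheory Filter Topology

variable {Γ : Type} [Group Γ] [MulAction Γ ℍ] {L : ℂ × ℂ → ℝ} {c : Γ → ℝ} {x : ℝ → ℍ} {γ : Γ}
  {T : ℝ}

lemma t18diff_act (h : CP L c x γ T) : Adm L x 0 T ∧ x T = γ • x 0 ∧
    ac L (crit L c) x 0 T = c γ := by
  obtain ⟨u, hu, -, hx, hp⟩ := h
  have e : x T = γ • x 0 := by simpa using hp.2 0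
  obtain ⟨h1, h2⟩ := hx 0 T hp.1
  refine ⟨h1, e, ?_⟩
  rw [← h2, e, hu, add_sub_cancel_left]

lemma t18diff_int {g : ℂ → ℝ} {y : ℝ → ℍ} {E : ℝ} (hT : 0 < T) (h : ∀ t, |g (y t)| ≤ E) :
    |∫ t in (0 : ℝ)..T, g (y t)| ≤ E * T := by
  have := intervalIntegral.norm_integral_le_of_norm_le_const (a := 0) (b := T)
    (f := fun t => g (y t)) (C := E) fun t _ => h t
  rwa [sub_zero, abs_of_pos hT] at this

lemma CP.crit_sub (F : Deck Γ) (hL : Tonelli Γ L) (hc : c ∈ Coh Γ) {g : ℂ → ℝ} (hg : C2 Γ g)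
    {y₁ y₂ : ℝ → ℍ} {T₁ T₂ E : ℝ} (h₁ : CP L c y₁ γ T₁) (h₂ : CP (addP L g) c y₂ γ T₂)
    (hE : ∀ t, |g (y₁ t)| ≤ E ∧ |g (y₂ t)| ≤ E) : |crit L c - crit (addP L g) c| ≤ E := by
  have hg0 := hg.1.continuousOn
  obtain ⟨a1, a2, a3⟩ := t18diff_act h₁
  obtain ⟨b1, b2, b3⟩ := t18diff_act h₂
  have b1' := (adm_addP hg0).1 b1
  have p1 := h₁.per.1
  have p2 := h₂.per.1
  have c1 := crit_loop F hL hc b1' b2
  have c2 := crit_loop F (hL.add F hg) hc ((adm_addP hg0).2 a1) a2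
  rw [b1'.ac_addP hg0, b1'.ac_const (crit L c)] at b3
  rw [a1.ac_addP hg0, a1.ac_const (crit L c), a3] at c2
  have d1 := abs_le.1 (t18diff_int p1 fun t => (hE t).1)
  have d2 := abs_le.1 (t18diff_int p2 fun t => (hE t).2)
  rw [abs_le]
  constructor
  · refine le_of_mul_le_mul_right ?_ p2
    linarith [d2.1]
  · refine le_of_mul_le_mul_right ?_ p1
    linarith [d1.2]

lemma t18diff_le (F : Deck Γ) {g : ℂ → ℝ} (hg : C2 Γ g) (δ : Γ) (z : ℍ) :
    ‖fderiv ℝ g z‖ * z.im ≤ ‖fderiv ℝ g (δ • z : ℍ)‖ * (δ • z).im := by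
  have h1 : HasFDerivAt g (fderiv ℝ g (δ • z : ℍ)) ((δ • ofComplex (z : ℂ) : ℍ) : ℂ) := by
    rw [ofComplex_apply]
    exact (t9tay_has isOpen_HP hg.1 (δ • z).im_pos).1
  have h2 := h1.comp (z : ℂ) (F.hasFDerivAt δ z)
  have h3 : g =ᶠ[𝓝 (z : ℂ)] g ∘ fun w : ℂ => ((δ • ofComplex w : ℍ) : ℂ) := by
    filter_upwards [isOpen_HP.mem_nhds z.im_pos] with w hw
    rw [Function.comp_apply, hg.2, ofComplex_apply_of_im_pos hw]
  rw [(h2.congr_of_eventuallyEq h3).fderiv, ← le_div_iff₀ z.im_pos]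
  have i0 := (δ • z).im_pos
  have i1 := z.im_pos
  refine ContinuousLinearMap.opNorm_le_bound _ (by positivity) fun v => ?_
  refine ((fderiv ℝ g (δ • z : ℍ)).le_opNorm _).trans (le_of_eq ?_)
  have h4 := F.norm_dk δ z v
  rw [div_eq_iff i0.ne'] at h4
  change _ * ‖dk δ z v‖ = _
  rw [h4]
  ring

/-- The integral of the invariant norm of a differential along a closed curve. -/
lemma Per.force_le (F : Deck Γ) {g : ℂ → ℝ} (hg : C2 Γ g) {y : ℝ → ℍ} (hy : Continuous y)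
    (hp : Per y γ T) {τ W μ E : ℝ} (hτ : 0 < τ) (hT : τ ≤ T) (hμ : 0 < μ)
    (him : ∀ t, |t| ≤ W → μ ≤ (y t).im)
    (hE : ∫ t in (0 : ℝ)..T, ‖fderiv ℝ g (y t)‖ * (y t).im ≤ E) {t : ℝ} (ht : |t| ≤ W) :
    ‖∫ s in (0 : ℝ)..t, fderiv ℝ g (y s)‖ ≤ (W / τ + 1) * E / μ := by
  set φ : ℝ → ℝ := fun s => ‖fderiv ℝ g (y s)‖ * (y s).im with hφ
  have c1 : Continuous fun s => fderiv ℝ g (y s) :=
    (t9tay_cont isOpen_HP hg.1).2.1.comp_continuous (continuous_coe.comp hy) fun s => (y s).im_pos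
  have c2 : Continuous φ := c1.norm.mul (UpperHalfPlane.continuous_im.comp hy)
  have p0 : ∀ s, 0 ≤ φ s := fun s => mul_nonneg (norm_nonneg _) (y s).im_pos.le
  have per : Function.Periodic φ T := fun s => by
    refine le_antisymm ?_ ?_
    · have := t18diff_le F hg γ⁻¹ (γ • y s)
      rw [inv_smul_smul] at this
      simpa only [hφ, hp.2] using this
    · simpa only [hφ, hp.2] using t18diff_le F hg γ (y s)
  have E0 : 0 ≤ E := (intervalIntegral.integral_nonneg hp.1.le fun s _ => p0 s).trans hE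
  set n := ⌈|t| / T⌉₊ with hn
  have n1 : |t| ≤ n * T := (div_le_iff₀ hp.1).1 (Nat.le_ceil _)
  have n2 : (n : ℝ) ≤ W / τ + 1 := by
    have h1 := Nat.ceil_lt_add_one (div_nonneg (abs_nonneg t) hp.1.le)
    have h2 : |t| / T ≤ W / τ := div_le_div₀ ((abs_nonneg t).trans ht) ht hτ hT
    linarith
  have key : ∀ a b : ℝ, a ≤ b → b ≤ a + n * T → |a| ≤ W → |b| ≤ W →
      ‖∫ s in a..b, fderiv ℝ g (y s)‖ ≤ (W / τ + 1) * E / μ := fun a b hab hb ha hb' => by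
    have h1 : ‖∫ s in a..b, fderiv ℝ g (y s)‖ ≤ ∫ s in a..b, φ s / μ := by
      refine intervalIntegral.norm_integral_le_of_norm_le hab (Eventually.of_forall fun s hs => ?_)
        ((c2.div_const μ).intervalIntegrable _ _)
      rw [le_div_iff₀ hμ]
      refine mul_le_mul_of_nonneg_left (him s ?_) (norm_nonneg _)
      rw [abs_le] at ha hb' ⊢
      exact ⟨ha.1.trans hs.1.le, hs.2.trans hb'.2⟩
    have h2 : ∫ s in a..b, φ s ≤ ∫ s in a..a + n * T, φ s :=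
      intervalIntegral.integral_mono_interval le_rfl hab hb (Eventually.of_forall p0)
        (c2.intervalIntegrable _ _)
    have h3 := per.intervalIntegral_add_zsmul_eq (n : ℤ) a fun _ _ => c2.intervalIntegrable _ _
    rw [per.intervalIntegral_add_eq a 0, zero_add, zsmul_eq_mul, zsmul_eq_mul, Int.cast_natCast]
      at h3
    rw [intervalIntegral.integral_div] at h1
    refine h1.trans (div_le_div_of_nonneg_right (h2.trans ?_) hμ.le)
    rw [h3]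
    exact (mul_le_mul_of_nonneg_left hE n.cast_nonneg).trans (mul_le_mul_of_nonneg_right n2 E0)
  have w0 : |(0 : ℝ)| ≤ W := by
    rw [abs_zero]
    exact (abs_nonneg t).trans ht
  rcases le_total 0 t with h | h
  · exact key 0 t h (by linarith [le_abs_self t]) w0 ht
  · rw [intervalIntegral.integral_symm, norm_neg]
    exact key t 0 h (by linarith [neg_abs_le t]) ht w0

/-- The mean value theorem for the energy. -/
lemma t18diff_mv (hL : ContDiffOn ℝ 2 L TH) {p q : ℂ × ℂ} (hp : p ∈ TH) (hq : q ∈ TH) :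
    ∃ c ∈ Set.Icc (0 : ℝ) 1, D2 L (p + c • (q - p)) (q - p) (0, (p + c • (q - p)).2) -
      fderiv ℝ L (p + c • (q - p)) ((q - p).1, 0) =
        fderiv ℝ L q (0, q.2) - L q - (fderiv ℝ L p (0, p.2) - L p) := by
  have hd : ∀ c ∈ Set.Icc (0 : ℝ) 1, HasDerivAt
      (fun s : ℝ => fderiv ℝ L (p + s • (q - p)) (0, (p + s • (q - p)).2) - L (p + s • (q - p)))
      (D2 L (p + c • (q - p)) (q - p) (0, (p + c • (q - p)).2) -
        fderiv ℝ L (p + c • (q - p)) ((q - p).1, 0)) c := fun c hc => by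
    have h1 : HasDerivAt (fun s : ℝ => p + s • (q - p)) (q - p) c := by
      simpa using ((hasDerivAt_id c).smul_const (q - p)).const_add p
    have h2 : HasDerivAt (fun s : ℝ => ((0 : ℂ), (p + s • (q - p)).2)) (0, (q - p).2) c :=
      (hasDerivAt_const c (0 : ℂ)).prodMk (hasFDerivAt_snd.comp_hasDerivAt c h1)
    obtain ⟨h3, h4⟩ := hasFDerivAt_L hL (t9exp_convex.add_smul_sub_mem hp hq hc)
    have h5 : HasDerivAt (fun s : ℝ => fderiv ℝ L (p + s • (q - p)))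
        (D2 L (p + c • (q - p)) (q - p)) c := h4.comp_hasDerivAt c h1
    have h6 : HasDerivAt (fun s : ℝ => L (p + s • (q - p)))
        (fderiv ℝ L (p + c • (q - p)) (q - p)) c := h3.comp_hasDerivAt c h1
    refine ((h5.clm_apply h2).sub h6).congr_deriv ?_
    have e : q - p = ((q - p).1, 0) + (0, (q - p).2) := by ext <;> simp
    have e' : fderiv ℝ L (p + c • (q - p)) (q - p) = fderiv ℝ L (p + c • (q - p)) ((q - p).1, 0) +
        fderiv ℝ L (p + c • (q - p)) (0, (q - p).2) := by rw [← map_add, ← e]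
    rw [e']
    ring
  obtain ⟨c, hc, h⟩ := exists_hasDerivAt_eq_slope _ _ zero_lt_one
    (fun c hc => (hd c hc).continuousAt.continuousWithinAt)
    fun c hc => hd c (Set.Ioo_subset_Icc_self hc)
  exact ⟨c, Set.Ioo_subset_Icc_self hc, by simpa using h⟩

lemma t18diff_mom (hL : ContDiffOn ℝ 2 L TH) {g : ℂ → ℝ} (hg : ContDiffOn ℝ 2 g HP) (y : ℝ → ℍ) :
    mom (addP L g) y = mom L y ∧ ∀ t, frc (addP L g) y t = frc L y t + fderiv ℝ g (y t) := by
  refine ⟨funext fun t => ?_, fun t => ?_⟩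
  · refine ContinuousLinearMap.ext fun w => ?_
    simpa [mom, Dv] using fderiv_addP hL hg (jet_mem y t) (0, w)
  · refine ContinuousLinearMap.ext fun w => ?_
    simpa [frc, Dx, jet] using fderiv_addP hL hg (jet_mem y t) (w, 0)

lemma t18diff_energy (F : Deck Γ) (hL : Tonelli Γ L) (h : CP L c x γ T) (t : ℝ) :
    mom L x t (vel x t) = L (jet x t) + crit L c := by
  obtain ⟨u, -, hd, hx, -⟩ := h
  exact hx.energy (hL.unif1 F) rfl hd t

/-- The normalised difference of two closed curves converges to a Jacobi field. -/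
theorem CP.diff_lim (F : Deck Γ) (hL : Tonelli Γ L) (hc : c ∈ Coh Γ) (h : CP L c x γ T)
    {l : Ultrafilter ℕ} (hl : (l : Filter ℕ) ≤ atTop) {f g : ℕ → ℂ → ℝ} (hf : ∀ n, C2 Γ (f n))
    (hg : ∀ n, C2 Γ (g n)) (hf0 : ToZero atTop f) (hg0 : ToZero atTop g) {cs : ℕ → Γ → ℝ}
    (hcs : ∀ n, cs n ∈ Coh Γ) (hcl : CLim l c cs) {y₁ y₂ : ℕ → ℝ → ℍ} {T₁ T₂ d E : ℕ → ℝ}
    (h₁ : ∀ n, CP (addP L (f n)) (cs n) (y₁ n) γ (T₁ n))
    (h₂ : ∀ n, CP (addP L (f n + g n)) (cs n) (y₂ n) γ (T₂ n))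
    (t₁ : Tendsto T₁ l (𝓝 T)) (t₂ : Tendsto T₂ l (𝓝 T))
    (p₁ : Tendsto (fun n => y₁ n 0) l (𝓝 (x 0))) (p₂ : Tendsto (fun n => y₂ n 0) l (𝓝 (x 0)))
    (hd : ∀ n, 0 < d n ∧ ‖jet (y₁ n) 0 - jet (y₂ n) 0‖ ≤ d n)
    (hE : ∀ n, (∀ t, |g n (y₁ n t)| ≤ E n ∧ |g n (y₂ n t)| ≤ E n) ∧
      ∫ t in (0 : ℝ)..T₂ n, ‖fderiv ℝ (g n) (y₂ n t)‖ * (y₂ n t).im ≤ E n)
    (h0 : Tendsto (fun n => E n / d n) l (𝓝 0)) :
    ∃ η, Jac L x η ∧ En L x η ∧ UW l (fun n t => (d n)⁻¹ • ((y₁ n t : ℂ) - y₂ n t)) η ∧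
      UW l (fun n t => (d n)⁻¹ • (vel (y₁ n) t - vel (y₂ n) t)) (deriv η) := by
  have S1 : LSeq Γ l L fun n => addP L (f n) := (lseq_of_toZero F hL hf hf0).mono hl
  have S2 : LSeq Γ l L fun n => addP L (f n + g n) :=
    (lseq_of_toZero F hL (fun n => (hf n).add (hg n)) (ToZero.add hf hg hf0 hg0)).mono hl
  have hx := h.reg F hL
  have u1 := S1.uw_cp F hc hcs hcl h h₁ t₁ p₁
  have u2 := S2.uw_cp F hc hcs hcl h h₂ t₂ p₂
  have r1 : ∀ n, Reg (addP L (f n)) (y₁ n) := fun n => (h₁ n).reg F (S1.tons n)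
  have r2 : ∀ n, Reg (addP L (f n + g n)) (y₂ n) := fun n => (h₂ n).reg F (S2.tons n)
  have h₂' : ∀ n, CP (addP (addP L (f n)) (g n)) (cs n) (y₂ n) γ (T₂ n) := fun n => by
    rw [addP_addP]
    exact h₂ n
  have m2 : ∀ n t, HasDerivAt (mom (addP L (f n)) (y₂ n))
      (frc (addP L (f n)) (y₂ n) t + fderiv ℝ (g n) (y₂ n t)) t := fun n t => by
    have := (r2 n).hasDerivAt_mom t
    obtain ⟨e1, e2⟩ := t18diff_mom (S1.tons n).smooth (hg n).1 (y₂ n)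
    rwa [← addP_addP, e1, e2] at this
  have c1 : ∀ n, Continuous fun s => fderiv ℝ (g n) (y₂ n s) := fun n =>
    (t9tay_cont isOpen_HP (hg n).1).2.1.comp_continuous (continuous_coe.comp (r2 n).continuous)
      fun s => (y₂ n s).im_pos
  have a1 : ∀ᶠ n in l, ∀ t, HasDerivAt (fun t => (d n)⁻¹ • ((y₁ n t : ℂ) - y₂ n t))
      ((d n)⁻¹ • (vel (y₁ n) t - vel (y₂ n) t)) t ∧
      HasDerivAt (fun t => (d n)⁻¹ • (mom (addP L (f n)) (y₁ n) t - mom (addP L (f n)) (y₂ n) t +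
        ∫ s in (0 : ℝ)..t, fderiv ℝ (g n) (y₂ n s)))
        ((d n)⁻¹ • (frc (addP L (f n)) (y₁ n) t - frc (addP L (f n)) (y₂ n) t)) t :=
    Eventually.of_forall fun n t => by
      refine ⟨(((r1 n).hasDerivAt t).fun_sub ((r2 n).hasDerivAt t)).fun_const_smul (d n)⁻¹, ?_⟩
      refine (((((r1 n).hasDerivAt_mom t).fun_sub (m2 n t)).fun_add
        ((c1 n).integral_hasStrictDerivAt 0 t).hasDerivAt).fun_const_smul (d n)⁻¹).congr_deriv ?_
      congr 1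
      abel
  have hT := h.per.1
  have small : ∀ W ε : ℝ, 0 < ε → ∀ᶠ n in l, ∀ t, |t| ≤ W →
      ‖(d n)⁻¹ • ∫ s in (0 : ℝ)..t, fderiv ℝ (g n) (y₂ n s)‖ ≤ ε := fun W ε hε => by
    obtain ⟨μ, hμ, hm⟩ : ∃ μ : ℝ, 0 < μ ∧ ∀ t, |t| ≤ W → 2 * μ ≤ (x t).im := by
      rcases (Set.Icc (-W) W).eq_empty_or_nonempty with he | he
      · exact ⟨1, one_pos, fun t ht => absurd (abs_le.1 ht) (he.subset · )⟩
      · obtain ⟨s, -, hs⟩ := isCompact_Icc.exists_isMinOn he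
          (UpperHalfPlane.continuous_im.comp hx.continuous).continuousOn
        refine ⟨(x s).im / 2, half_pos (x s).im_pos, fun t ht => ?_⟩
        have : (x s).im ≤ (x t).im := hs (abs_le.1 ht)
        linarith
    have b1 := (h0.const_mul ((W / (T / 2) + 1) / μ)).eventually
      (eventually_le_nhds (b := ε) (by rwa [mul_zero]))
    filter_upwards [u2 W μ hμ, b1, t₂.eventually (eventually_ge_nhds (half_lt_self hT))]
      with n b2 b3 b4 t ht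
    have b5 := (h₂ n).per.force_le F (hg n) (r2 n).continuous (half_pos hT) b4 hμ (fun s hs => by
      have b6 : ‖(y₂ n s : ℂ) - x s‖ ≤ μ := (norm_fst_le (jet (y₂ n) s - jet x s)).trans (b2 s hs)
      have b7 := abs_le.1 ((Complex.abs_im_le_norm _).trans b6)
      rw [Complex.sub_im, coe_im, coe_im] at b7
      linarith [hm s hs, b7.1]) (hE n).2 ht
    rw [norm_smul, norm_inv, Real.norm_of_nonneg (hd n).1.le]
    refine (mul_le_mul_of_nonneg_left b5 (inv_nonneg.2 (hd n).1.le)).trans (le_of_eq_of_le ?_ b3)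
    ring
  obtain ⟨η, hJ, hη⟩ := aj_lim (hx.coef hL) l
    (ξ := fun n t => (d n)⁻¹ • ((y₁ n t : ℂ) - y₂ n t))
    (ξ' := fun n t => (d n)⁻¹ • (vel (y₁ n) t - vel (y₂ n) t))
    (P := fun n t => (d n)⁻¹ • (mom (addP L (f n)) (y₁ n) t - mom (addP L (f n)) (y₂ n) t +
        ∫ s in (0 : ℝ)..t, fderiv ℝ (g n) (y₂ n s)))
    (P' := fun n t => (d n)⁻¹ • (frc (addP L (f n)) (y₁ n) t - frc (addP L (f n)) (y₂ n) t)) a1
    (fun W ε hε => by
      obtain ⟨δ, hδ, h4⟩ := t9exp_near S1 (t9exp_cpt hx W).1 (t9exp_cpt hx W).2 (half_pos hε)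
      filter_upwards [h4, u1 W δ hδ, u2 W δ hδ, small W _ (half_pos hε)] with n h5 h6 h7 h8 t ht
      obtain ⟨k1, k2⟩ := t9exp_mvi (S1.tons n).smooth (half_pos hε).le (d n)⁻¹ (fun q hq =>
        ⟨(h5 _ ⟨t, abs_le.1 ht, rfl⟩ q hq).1, (h5 _ ⟨t, abs_le.1 ht, rfl⟩ q hq).2.2⟩)
        (h6 t ht) (h7 t ht)
      have n1 := norm_nonneg ((d n)⁻¹ • ((y₁ n t : ℂ) - y₂ n t))
      have n2 := norm_nonneg ((d n)⁻¹ • (vel (y₁ n) t - vel (y₂ n) t))
      refine ⟨?_, k2.trans (mul_le_mul_of_nonneg_right (half_le_self hε.le) (by positivity))⟩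
      rw [smul_add, add_sub_right_comm]
      refine (norm_add_le _ _).trans ((add_le_add k1 (h8 t ht)).trans ?_)
      change ε / 2 * (1 + ‖(d n)⁻¹ • ((y₁ n t : ℂ) - y₂ n t)‖ +
        ‖(d n)⁻¹ • (vel (y₁ n) t - vel (y₂ n) t)‖) + ε / 2 ≤ _
      nlinarith) (C := 1) (Eventually.of_forall fun n => by
      rw [t9exp_norm_inv (hd n).1, t9exp_norm_inv (hd n).1, inv_mul_le_iff₀ (hd n).1,
        inv_mul_le_iff₀ (hd n).1, mul_one]
      exact ⟨(norm_fst_le (jet (y₁ n) 0 - jet (y₂ n) 0)).trans (hd n).2,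
        (norm_snd_le (jet (y₁ n) 0 - jet (y₂ n) 0)).trans (hd n).2⟩)
  have v1 : UW l (fun n t => (d n)⁻¹ • ((y₁ n t : ℂ) - y₂ n t)) η := fun W ε hε =>
    (hη W ε hε).mono fun n hn t ht => (hn t ht).1
  have v2 : UW l (fun n t => (d n)⁻¹ • (vel (y₁ n) t - vel (y₂ n) t)) (deriv η) := fun W ε hε =>
    (hη W ε hε).mono fun n hn t ht => (hn t ht).2
  refine ⟨η, hJ, fun t => ?_, v1, v2⟩
  choose s hs hs' using fun n =>
    t18diff_mv (S1.tons n).smooth (jet_mem (y₂ n) t) (jet_mem (y₁ n) t)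
  have j1 : Tendsto (fun n => jet (y₁ n) t) l (𝓝 (jet x t)) :=
    t9exp_lim fun ε hε => (u1 |t| ε hε).mono fun n hn => hn t le_rfl
  have j2 : Tendsto (fun n => jet (y₂ n) t) l (𝓝 (jet x t)) :=
    t9exp_lim fun ε hε => (u2 |t| ε hε).mono fun n hn => hn t le_rfl
  have j3 : Tendsto (fun n => s n • (jet (y₁ n) t - jet (y₂ n) t)) l (𝓝 0) := by
    refine squeeze_zero_norm (a := fun n => ‖jet (y₁ n) t - jet (y₂ n) t‖) (fun n => ?_) ?_
    · rw [norm_smul, Real.norm_of_nonneg (hs n).1]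
      exact mul_le_of_le_one_left (norm_nonneg _) (hs n).2
    · simpa using (j1.sub j2).norm
  have j4 := j2.add j3
  rw [add_zero] at j4
  have w1 : Tendsto (fun n => (d n)⁻¹ • ((y₁ n t : ℂ) - y₂ n t)) l (𝓝 (η t)) :=
    t9exp_lim fun ε hε => (v1 |t| ε hε).mono fun n hn => hn t le_rfl
  have w2 : Tendsto (fun n => (d n)⁻¹ • (vel (y₁ n) t - vel (y₂ n) t)) l (𝓝 (deriv η t)) :=
    t9exp_lim fun ε hε => (v2 |t| ε hε).mono fun n hn => hn t le_rfl
  obtain ⟨z1, z2⟩ := t9exp_tend S1 (jet_mem x t) j4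
  have z3 := (tendsto_const_nhds (x := (0 : ℂ))).prodMk_nhds
    (continuous_snd.continuousAt.tendsto.comp j4)
  have z4 := (t9exp_app (t9exp_app z2 (w1.prodMk_nhds w2)) z3).sub
    (t9exp_app z1 (w1.prodMk_nhds (tendsto_const_nhds (x := (0 : ℂ)))))
  refine sub_eq_zero.1 (tendsto_nhds_unique z4 ?_)
  refine squeeze_zero_norm (a := fun n => 2 * (E n / d n)) (fun n => ?_)
    (by simpa using h0.const_mul 2)
  have e1 := t18diff_energy F (S1.tons n) (h₁ n) t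
  have e2 := t18diff_energy F ((S1.tons n).add F (hg n)) (h₂' n) t
  rw [(t18diff_mom (S1.tons n).smooth (hg n).1 (y₂ n)).1] at e2
  change fderiv ℝ (addP L (f n)) (jet (y₁ n) t) (0, (jet (y₁ n) t).2) = _ at e1
  change fderiv ℝ (addP L (f n)) (jet (y₂ n) t) (0, (jet (y₂ n) t).2) =
    addP L (f n) (jet (y₂ n) t) + g n (y₂ n t) + _ at e2
  have e3 := abs_le.1 ((h₁ n).crit_sub F (S1.tons n) (hcs n) (hg n) (h₂' n) (hE n).1)
  have e4 := abs_le.1 ((hE n).1 t).2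
  have e5 : ((d n)⁻¹ • ((y₁ n t : ℂ) - y₂ n t), (d n)⁻¹ • (vel (y₁ n) t - vel (y₂ n) t)) =
      (d n)⁻¹ • (jet (y₁ n) t - jet (y₂ n) t) := rfl
  have e6 : (((d n)⁻¹ • ((y₁ n t : ℂ) - y₂ n t), 0) : ℂ × ℂ) =
      (d n)⁻¹ • ((jet (y₁ n) t - jet (y₂ n) t).1, 0) := by simp [jet]
  have e7 := hs' n
  simp only [Function.comp_apply]
  rw [e5, e6, map_smul, map_smul, smul_apply, ← smul_sub, e7, e1, e2, norm_smul, norm_inv,
    Real.norm_of_nonneg (hd n).1.le, inv_mul_le_iff₀ (hd n).1, Real.norm_eq_abs,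
    mul_left_comm, mul_div_cancel₀ _ (hd n).1.ne', abs_le]
  constructor <;> linarith [e3.1, e3.2, e4.1, e4.2]

end Pool.Agent.Lib.MP_5bb885_an.Gen
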