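import Pool.Agent.Lib.MP_5bb885_an.T18Defs

/-!
The boundary leaves of a complementary region.
-/

namespace Pool.Agent.Lib.MP_5bb885_an.Gen

open UpperHalfPlane MeasureTheory Filter Topology

theorem t18dih_zz {B : Type} (T : Equiv.Perm B) (i j : ℤ) (x : B) :
    (T ^ i) ((T ^ j) x) = (T ^ (i + j)) x := by
  rw [zpow_add, Equiv.Perm.mul_apply]

theorem t18dih_far {B : Type} (T : Equiv.Perm B) {E : Set B} (hE : E.Finite)
    (free : ∀ (s : B) (k : ℤ), (T ^ k) s = s → k = 0) (x : B) :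
    ∃ N : ℕ, ∀ k : ℕ, (T ^ k) ((T ^ N) x) ∉ E := by
  have hinj : Function.Injective (fun k : ℕ => (T ^ k) x) := by
    intro i j hij
    have h1 : (T ^ (i : ℤ)) x = (T ^ (j : ℤ)) x := by
      simpa only [zpow_natCast] using hij
    have h2 : (T ^ (-(j : ℤ) + (i : ℤ))) x = x := by
      rw [← t18dih_zz, h1, t18dih_zz]
      simp
    have := free x _ h2
    omega
  have hfin : ((fun k : ℕ => (T ^ k) x) ⁻¹' E).Finite := hE.preimage hinj.injOn
  obtain ⟨M, hM⟩ := hfin.bddAbove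
  refine ⟨M + 1, fun k hk => ?_⟩
  have h3 : (k + (M + 1)) ∈ ((fun k : ℕ => (T ^ k) x) ⁻¹' E) := by
    show (T ^ (k + (M + 1))) x ∈ E
    rw [pow_add, Equiv.Perm.mul_apply]
    exact hk
  have := hM h3
  omega

theorem t18dih_comm {B : Type} (T : Equiv.Perm B) (o : B → B) {E : Set B}
    (comm : ∀ s, s ∉ E → o (T s) = T (o s)) {a : B} (ha : ∀ k : ℕ, (T ^ k) a ∉ E) (k : ℕ) :
    o ((T ^ k) a) = (T ^ k) (o a) := by
  induction k with
  | zero => simp
  | succ k ih =>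
    rw [pow_succ', Equiv.Perm.mul_apply, Equiv.Perm.mul_apply, comm _ (ha k), ih]

theorem t18dih_shift {B : Type} (T : Equiv.Perm B) {E : Set B} {a : B}
    (ha : ∀ k : ℕ, (T ^ k) a ∉ E) (m k : ℕ) : (T ^ k) ((T ^ m) a) ∉ E := by
  rw [← Equiv.Perm.mul_apply, ← pow_add]
  exact ha _

theorem t18dih_half {B Q : Type} (T : Equiv.Perm B) (o : B → B) {E : Set B} (hE : E.Finite)
    (free : ∀ (s : B) (k : ℤ), (T ^ k) s = s → k = 0) (inv : ∀ s, o (o s) = s)
    (ne : ∀ s, o s ≠ s) (comm : ∀ s, s ∉ E → o (T s) = T (o s)) (q : B → Q)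
    (hq : ∀ x y, q x = q y ↔ ∃ k : ℤ, (T ^ k) x = y) (hs : Function.Surjective q) :
    ∃ F : Q → Q, (∀ a, (∀ k : ℕ, (T ^ k) a ∉ E) → F (q a) = q (o a)) ∧ (∀ L, F (F L) = L) ∧
      (∀ L, F L ≠ L) ∧ ∀ L, ∃ a, q a = L ∧ ∀ k : ℕ, (T ^ k) a ∉ E := by
  have hqn : ∀ (m : ℕ) (x : B), q ((T ^ m) x) = q x := by
    intro m x
    symm
    exact (hq _ _).2 ⟨(m : ℤ), by rw [zpow_natCast]⟩
  have hex : ∀ L, ∃ a, q a = L ∧ ∀ k : ℕ, (T ^ k) a ∉ E := by
    intro L
    obtain ⟨x, rfl⟩ := hs L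
    obtain ⟨N, hN⟩ := t18dih_far T hE free x
    exact ⟨(T ^ N) x, hqn N x, hN⟩
  have hwd : ∀ a b, (∀ k : ℕ, (T ^ k) a ∉ E) → (∀ k : ℕ, (T ^ k) b ∉ E) → q a = q b →
      q (o a) = q (o b) := by
    intro a b ha hb hab
    obtain ⟨j, hj⟩ := (hq _ _).1 hab
    obtain ⟨m, rfl | rfl⟩ := Int.eq_nat_or_neg j
    · rw [zpow_natCast] at hj
      rw [← hj, t18dih_comm T o comm ha, hqn]
    · have h1 : (T ^ m) b = a := by
        rw [← hj, ← zpow_natCast, t18dih_zz]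
        simp
      rw [← h1, t18dih_comm T o comm hb, hqn]
  choose r hr1 hr2 using hex
  have hF : ∀ a, (∀ k : ℕ, (T ^ k) a ∉ E) → q (o (r (q a))) = q (o a) := fun a ha =>
    hwd _ _ (hr2 _) ha (hr1 _)
  refine ⟨fun L => q (o (r L)), hF, fun L => ?_, fun L hL => ?_, fun L => ⟨r L, hr1 L, hr2 L⟩⟩
  · obtain ⟨N, hN⟩ := t18dih_far T hE free (o (r L))
    have h1 := hF _ hN
    rw [hqn] at h1
    show q (o (r (q (o (r L))))) = L
    rw [h1, ← t18dih_comm T o comm (hr2 L), inv, hqn, hr1]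
  · have h1 : q (r L) = q (o (r L)) := by
      rw [hr1]
      exact hL.symm
    obtain ⟨j, hj⟩ := (hq _ _).1 h1
    have hj0 : j = 0 := by
      obtain ⟨m, rfl | rfl⟩ := Int.eq_nat_or_neg j
      · have h2 := t18dih_comm T o comm (hr2 L) m
        rw [← zpow_natCast, hj, inv, ← hj, t18dih_zz] at h2
        have := free _ _ h2.symm
        omega
      · have h2 := t18dih_comm T o comm (hr2 L) m
        rw [← hj, ← zpow_natCast, t18dih_zz] at h2
        have h3 : o ((T ^ (m : ℤ)) (r L)) = r L := by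
          rw [h2]
          simp
        have h4 : (T ^ (m : ℤ)) (r L) = (T ^ (-(m : ℤ))) (r L) := by
          rw [hj]
          conv_lhs => rw [← inv ((T ^ (m : ℤ)) (r L)), h3]
        have h5 : (T ^ ((m : ℤ) + (m : ℤ))) (r L) = r L := by
          rw [← t18dih_zz, h4, t18dih_zz]
          simp
        have := free _ _ h5
        omega
    rw [hj0] at hj
    exact ne (r L) (by simpa using hj.symm)

theorem t18dih_odd {Q : Type} (F G : Q → Q) (hF : ∀ L, F (F L) = L) (hG : ∀ L, G (G L) = L)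
    (nF : ∀ L, F L ≠ L) (nG : ∀ L, G L ≠ L) (i : ℕ) :
    ∀ L, F ((fun x => G (F x))^[i] L) ≠ L := by
  induction i using Nat.twoStepInduction with
  | zero => intro L; simpa using nF L
  | one =>
    intro L h
    have h1 : F (G (F L)) = L := h
    apply nG (F L)
    have h2 := congrArg F h1
    rwa [hF] at h2
  | more i ih _ =>
    intro L h
    rw [Function.iterate_succ_apply', Function.iterate_succ_apply] at h
    apply ih (G (F L))
    have h2 := congrArg (fun x => G (F x)) h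
    simp only [hF, hG] at h2
    exact h2

theorem t18dih_per {Q : Type} (g : Q → Q) (hg : Function.Injective g)
    (hfin : {L | g L ≠ L}.Finite) (L : Q) : ∃ m : ℕ, g^[m + 1] L = L := by
  by_cases h : g L = L
  · exact ⟨0, h⟩
  have h1 : ∀ i : ℕ, g^[i] L ∈ {L | g L ≠ L} := by
    intro i hi
    apply h
    rw [← Function.iterate_succ_apply' g i L, Function.iterate_succ_apply] at hi
    exact hg.iterate i hi
  obtain ⟨i, j, hij, he⟩ := hfin.exists_lt_map_eq_of_forall_mem h1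
  obtain ⟨m, rfl⟩ := Nat.exists_eq_add_of_lt hij
  refine ⟨m, ?_⟩
  rw [add_assoc, Function.iterate_add_apply] at he
  exact (hg.iterate i he).symm

theorem dihedral {B : Type} (T : Equiv.Perm B) (o : B → B) {E : Set B} (hE : E.Finite)
    (free : ∀ (s : B) (k : ℤ), (T ^ k) s = s → k = 0) (inv : ∀ s, o (o s) = s)
    (ne : ∀ s, o s ≠ s) (comm : ∀ s, s ∉ E → o (T s) = T (o s)) (s₀ : B) :
    ∃ (n : ℕ) (α β : Fin n → B) (π : Equiv.Perm (Fin n)) (c c' : Fin n → ℕ) (i₀ : Fin n) (k₀ : ℕ),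
      α i₀ = (T ^ k₀) s₀ ∧ (∀ (i : Fin n) (k : ℕ), (T ^ k) (α i) ∉ E) ∧
      (∀ (i : Fin n) (k : ℕ), (T⁻¹ ^ (k + 1)) (β i) ∉ E) ∧ (∀ i, α i = (T ^ c i) (β i)) ∧
      (∀ i, o (α i) = (T ^ c' i) (o (β (π i)))) ∧
      ∀ (i : Fin n) (k : ℤ), o (α i) ≠ (T ^ k) s₀ := by
  let q : B → Quotient (Equiv.Perm.SameCycle.setoid T) := Quotient.mk _
  have hq : ∀ x y, q x = q y ↔ ∃ k : ℤ, (T ^ k) x = y := fun x y => Quotient.eq
  have hs : Function.Surjective q := Quotient.mk_surjective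
  have hq' : ∀ x y, q x = q y ↔ ∃ k : ℤ, (T⁻¹ ^ k) x = y := by
    intro x y
    rw [hq]
    constructor
    · rintro ⟨k, hk⟩
      exact ⟨-k, by rw [inv_zpow', neg_neg]; exact hk⟩
    · rintro ⟨k, hk⟩
      exact ⟨-k, by rw [← inv_zpow']; exact hk⟩
  have free' : ∀ (s : B) (k : ℤ), (T⁻¹ ^ k) s = s → k = 0 := by
    intro s k hk
    rw [inv_zpow'] at hk
    have := free _ _ hk
    omega
  have comm' : ∀ s, s ∉ T '' E → o (T⁻¹ s) = T⁻¹ (o s) := by
    intro s hs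
    have h1 : T⁻¹ s ∉ E := fun h => hs ⟨_, h, by simp⟩
    have h2 := comm _ h1
    have h3 : T (T⁻¹ s) = s := by simp
    rw [h3] at h2
    rw [h2]
    simp
  obtain ⟨F, hF, iF, nF, xF⟩ := t18dih_half T o hE free inv ne comm q hq hs
  obtain ⟨G, hG, iG, nG, xG⟩ := t18dih_half T⁻¹ o (hE.image T) free' inv ne comm' q hq' hs
  have hqz : ∀ (k : ℤ) (x : B), q ((T ^ k) x) = q x := fun k x => ((hq _ _).2 ⟨k, rfl⟩).symm
  have hginj : Function.Injective (fun x => G (F x)) := by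
    intro x y hxy
    have h2 := congrArg (fun x => F (G x)) hxy
    simpa only [iF, iG] using h2
  have hfin : {L | (fun x => G (F x)) L ≠ L}.Finite := by
    refine (hE.image q).subset fun L hL => ?_
    by_contra hn
    apply hL
    obtain ⟨a, rfl⟩ := hs L
    have h1 : ∀ k : ℤ, (T ^ k) a ∉ E := fun k hk => hn ⟨_, hk, hqz k a⟩
    have h2 : F (q a) = q (o a) := hF a fun k => by
      rw [← zpow_natCast]
      exact h1 _
    have h3 : G (q a) = q (o a) := hG a fun k hk => by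
      obtain ⟨e, he, hek⟩ := hk
      apply h1 (-1 + -(k : ℤ))
      rw [← t18dih_zz, ← inv_zpow' T (k : ℤ), zpow_natCast, ← hek]
      simpa using he
    show G (F (q a)) = q a
    rw [h2, ← h3, iG]
  obtain ⟨m, hm⟩ := t18dih_per _ hginj hfin (q s₀)
  let A : Fin (m + 1) → Quotient (Equiv.Perm.SameCycle.setoid T) :=
    fun i => (fun x => G (F x))^[i.val] (q s₀)
  have hA : ∀ i, A (finRotate (m + 1) i) = G (F (A i)) := by
    intro i
    have h1 : G (F (A i)) = (fun x => G (F x))^[i.val + 1] (q s₀) := by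
      rw [Function.iterate_succ_apply']
    rw [h1]
    by_cases hi : i = Fin.last m
    · subst hi
      rw [finRotate_last]
      exact hm.symm
    · show (fun x => G (F x))^[(finRotate (m + 1) i).val] (q s₀) = _
      rw [coe_finRotate_of_ne_last hi]
  choose β hβ1 hβ2 using fun i => xG (A i)
  have key : ∀ i, ∃ (a : B) (c c' k₀ : ℕ), q a = A i ∧ (∀ k : ℕ, (T ^ k) a ∉ E) ∧
      a = (T ^ c) (β i) ∧ o a = (T ^ c') (o (β (finRotate (m + 1) i))) ∧
      (A i = q s₀ → a = (T ^ k₀) s₀) := by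
    intro i
    obtain ⟨a, ha1, ha2⟩ := xF (A i)
    obtain ⟨j, hj⟩ := (hq (β i) a).1 (by rw [hβ1, ha1])
    obtain ⟨j', hj'⟩ := (hq (o (β (finRotate (m + 1) i))) (o a)).1 (by
      rw [← hG _ (hβ2 _), ← hF _ ha2, hβ1, ha1, hA, iG])
    obtain ⟨j₀, hj₀⟩ : ∃ j₀ : ℤ, A i = q s₀ → (T ^ j₀) s₀ = a := by
      by_cases h : A i = q s₀
      · obtain ⟨j₀, hj₀⟩ := (hq s₀ a).1 (by rw [ha1, h])
        exact ⟨j₀, fun _ => hj₀⟩
      · exact ⟨0, fun h' => absurd h' h⟩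
    obtain ⟨M, hM⟩ : ∃ M : ℕ, 0 ≤ (M : ℤ) + j ∧ 0 ≤ (M : ℤ) + j' ∧ 0 ≤ (M : ℤ) + j₀ :=
      ⟨j.natAbs + j'.natAbs + j₀.natAbs, by omega, by omega, by omega⟩
    have hz : ∀ (l : ℤ) (x : B), 0 ≤ (M : ℤ) + l →
        (T ^ M) ((T ^ l) x) = (T ^ ((M : ℤ) + l).toNat) x := by
      intro l x hl
      rw [← zpow_natCast T M, t18dih_zz, ← zpow_natCast, Int.toNat_of_nonneg hl]
    refine ⟨(T ^ M) a, ((M : ℤ) + j).toNat, ((M : ℤ) + j').toNat, ((M : ℤ) + j₀).toNat, ?_,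
      t18dih_shift T ha2 M, ?_, ?_, fun h => ?_⟩
    · rw [← zpow_natCast, hqz, ha1]
    · rw [← hz _ _ hM.1, hj]
    · rw [← hz _ _ hM.2.1, hj', t18dih_comm T o comm ha2]
    · rw [← hz _ _ hM.2.2, hj₀ h]
  choose α c c' k₀ h1 h2 h3 h4 h5 using key
  refine ⟨m + 1, α, β, finRotate (m + 1), c, c', 0, k₀ 0, h5 0 rfl, h2, fun i k hk => ?_, h3, h4,
    fun i k hk => ?_⟩
  · apply hβ2 i k
    refine ⟨_, hk, ?_⟩
    rw [pow_succ', Equiv.Perm.mul_apply]
    simp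
  · apply t18dih_odd F G iF iG nF nG i.val (q s₀)
    show F (A i) = q s₀
    rw [← h1, hF _ (h2 i), hk, hqz]

end Pool.Agent.Lib.MP_5bb885_an.Gen
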