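import Pool.Agent.Lib.MP_5bb885_an.T18Side

/-!
The sum over the boundary of a complementary region.
-/

namespace Pool.Agent.Lib.MP_5bb885_an.Gen

open UpperHalfPlane MeasureTheory Filter Topology

variable {X : Set ℝ} {R e J : ℝ → ℝ} {ε : ℝ}

/-- Among many indices there is one at which all the gaps are narrow. -/
lemma t18poly_narrow {a u u' d : ℝ} (hu : u ≤ u') (hX : X ⊆ Set.Icc u u') (hd : 0 < d)
    (o : Side X → Side X) {n : ℕ} (f : Fin n → ℕ → Side X)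
    (hf : ∀ i, Function.Injective (f i)) (hg : ∀ i k, Gap X a (f i k) (o (f i k)))
    {N₀ H : ℕ} (hH : d * N₀ + 2 * n * (u' - u) < d * H) :
    ∃ N, N₀ ≤ N ∧ N < H ∧ ∀ i, |(o (f i N)).1.1 - (f i N).1.1| ≤ d := by
  classical
  by_contra hcon
  push Not at hcon
  set S : Fin n → Finset ℕ := fun i =>
    (Finset.Ico N₀ H).filter fun k => d < |(o (f i k)).1.1 - (f i k).1.1| with hS
  have hsub : Finset.Ico N₀ H ⊆ Finset.univ.biUnion S := by
    intro k hk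
    obtain ⟨i, hi⟩ := hcon k (Finset.mem_Ico.1 hk).1 (Finset.mem_Ico.1 hk).2
    exact Finset.mem_biUnion.2 ⟨i, Finset.mem_univ _, Finset.mem_filter.2 ⟨hk, hi⟩⟩
  have hone : ∀ i, d * ((S i).card : ℝ) ≤ 2 * (u' - u) := by
    intro i
    have h1 := gap_sum (a := a) hu o ((S i).image (f i)) (by
      intro s hs
      obtain ⟨k, -, rfl⟩ := Finset.mem_image.1 hs
      exact ⟨hg i k, hX (f i k).2.1, hX (o (f i k)).2.1⟩)
    rw [Finset.sum_image (fun x _ y _ h => hf i h)] at h1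
    refine le_trans ?_ h1
    have h2 : ∑ _k ∈ S i, d ≤ ∑ k ∈ S i, |(o (f i k)).1.1 - (f i k).1.1| :=
      Finset.sum_le_sum fun k hk => (Finset.mem_filter.1 hk).2.le
    simpa [mul_comm] using h2
  have hc : (Finset.Ico N₀ H).card ≤ ∑ i, (S i).card :=
    (Finset.card_le_card hsub).trans Finset.card_biUnion_le
  rw [Nat.card_Ico] at hc
  have hc' : (H : ℝ) - N₀ ≤ ∑ i, ((S i).card : ℝ) := by
    have h3 : H ≤ N₀ + ∑ i, (S i).card := by omega
    have h4 : (H : ℝ) ≤ N₀ + ∑ i, ((S i).card : ℝ) := by exact_mod_cast h3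
    linarith
  have hs : d * ∑ i, ((S i).card : ℝ) ≤ n * (2 * (u' - u)) := by
    rw [Finset.mul_sum]
    have := Finset.sum_le_sum (s := Finset.univ) fun i _ => hone i
    simpa using this
  have := mul_le_mul_of_nonneg_left hc' hd.le
  nlinarith

lemma t18poly_pt {T : Equiv.Perm (Side X)} (hT : ∀ s, (T s).1 = (R s.1.1, s.1.2 * e s.1.1))
    (s : Side X) (k : ℕ) : ((T ^ k) s).1.1 = R^[k] s.1.1 := by
  rw [side_pow hT]

lemma t18poly_fw {T : Equiv.Perm (Side X)} (hT : ∀ s, (T s).1 = (R s.1.1, s.1.2 * e s.1.1))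
    (s : Side X) (N : ℕ) :
    ∑ k ∈ Finset.range N, J ((T ^ k) s).1.1 = SJ J R s.1.1 N := by
  unfold SJ
  exact Finset.sum_congr rfl fun k _ => by rw [t18poly_pt hT]

lemma t18poly_cancel (T : Equiv.Perm (Side X)) (s : Side X) (j k : ℕ) :
    (T ^ j) ((T⁻¹ ^ (j + k)) s) = (T⁻¹ ^ k) s := by
  rw [← Equiv.Perm.mul_apply, pow_add, inv_pow T j, ← mul_assoc, mul_inv_cancel, one_mul]

lemma t18poly_bw {T : Equiv.Perm (Side X)} (hT : ∀ s, (T s).1 = (R s.1.1, s.1.2 * e s.1.1))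
    (s : Side X) (M : ℕ) :
    ∑ k ∈ Finset.range M, J ((T⁻¹ ^ (k + 1)) s).1.1 = SJ J R ((T⁻¹ ^ M) s).1.1 M := by
  rw [← t18poly_fw hT, ← Finset.sum_range_reflect]
  refine Finset.sum_congr rfl fun k hk => ?_
  have hk' := Finset.mem_range.1 hk
  have : M = k + (M - 1 - k + 1) := by omega
  conv_rhs => rw [this, t18poly_cancel]

lemma t18poly_inj {T : Equiv.Perm (Side X)}
    (free : ∀ (s : Side X) (k : ℤ), (T ^ k) s = s → k = 0) (s : Side X) {j k : ℤ}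
    (h : (T ^ j) s = (T ^ k) s) : j = k := by
  have h1 : (T ^ (j - k)) ((T ^ k) s) = (T ^ k) s := by
    rw [← Equiv.Perm.mul_apply, ← zpow_add, sub_add_cancel, h]
  have := free _ _ h1
  omega

/-- The alternating sum over the boundary leaves is small. -/
theorem AC.poly (H : FI X R e ε) (h : AC X R J) {a : ℝ} {T : Equiv.Perm (Side X)}
    {o : Side X → Side X} (hT : ∀ s, (T s).1 = (R s.1.1, s.1.2 * e s.1.1))
    (free : ∀ (s : Side X) (k : ℤ), (T ^ k) s = s → k = 0) {n : ℕ} {α β : Fin n → Side X}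
    {π : Equiv.Perm (Fin n)} {c c' : Fin n → ℕ}
    (h1 : ∀ (i : Fin n) (k : ℕ), Gap X a ((T ^ k) (α i)) (o ((T ^ k) (α i))) ∧
      o ((T ^ k) (α i)) = (T ^ k) (o (α i)))
    (h2 : ∀ (i : Fin n) (k : ℕ), Gap X a ((T⁻¹ ^ (k + 1)) (β i)) (o ((T⁻¹ ^ (k + 1)) (β i))) ∧
      o ((T⁻¹ ^ (k + 1)) (β i)) = (T⁻¹ ^ (k + 1)) (o (β i)))
    (h3 : ∀ i, α i = (T ^ c i) (β i)) (h4 : ∀ i, o (α i) = (T ^ c' i) (o (β (π i))))
    {η : ℝ} (hη : 0 < η) (N₀ : ℕ) : ∃ N M : ℕ, N₀ ≤ N ∧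
      |∑ i, (∑ k ∈ Finset.range N, (J ((T ^ k) (α i)).1.1 - J (o ((T ^ k) (α i))).1.1) +
        ∑ k ∈ Finset.range M, (J ((T⁻¹ ^ (k + 1)) (β i)).1.1 -
          J (o ((T⁻¹ ^ (k + 1)) (β i))).1.1) +
        (SJ J R (β i).1.1 (c i) - SJ J R (o (β (π i))).1.1 (c' i)))| ≤ η := by
  obtain ⟨u, hu0⟩ := H.cpt.bddBelow
  obtain ⟨u', hu1⟩ := H.cpt.bddAbove
  have hX : X ⊆ Set.Icc u u' := fun x hx => ⟨hu0 hx, hu1 hx⟩
  have hu : u ≤ u' := by
    obtain ⟨x, hx⟩ := H.ne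
    exact (hX hx).1.trans (hX hx).2
  have hn0 : (0 : ℝ) ≤ n := Nat.cast_nonneg n
  have hη' : 0 < η / (8 * n + 1) := by positivity
  set η' := η / (8 * n + 1) with hη'def
  obtain ⟨Hh, d, p, hd, hd1, hB, hp⟩ := h η' hη'
    ((N₀ : ℝ) + 2 + 2 * n * (u' - u) + ∑ i, ((c i : ℝ) + c' i))
  have hsum0 : (0 : ℝ) ≤ ∑ i, ((c i : ℝ) + c' i) :=
    Finset.sum_nonneg fun i _ => by positivity
  have hN0 : (0 : ℝ) ≤ N₀ := Nat.cast_nonneg _
  have hD : 0 ≤ 2 * (n : ℝ) * (u' - u) := by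
    have : 0 ≤ u' - u := by linarith
    positivity
  have hH0 : (0 : ℝ) ≤ Hh := Nat.cast_nonneg _
  have hdH : d * Hh ≤ Hh := by nlinarith
  have hc : ∀ i, c i ≤ Hh ∧ c' i ≤ Hh := by
    intro i
    have h5 : (c i : ℝ) + c' i ≤ ∑ i, ((c i : ℝ) + c' i) :=
      Finset.single_le_sum (f := fun i => (c i : ℝ) + c' i) (fun i _ => by positivity)
        (Finset.mem_univ i)
    have h6 : (0 : ℝ) ≤ c i := Nat.cast_nonneg _
    have h7 : (0 : ℝ) ≤ c' i := Nat.cast_nonneg _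
    constructor
    · have : (c i : ℝ) ≤ Hh := by linarith
      exact_mod_cast this
    · have : (c' i : ℝ) ≤ Hh := by linarith
      exact_mod_cast this
  obtain ⟨N, hN1, hN2, hN3⟩ := t18poly_narrow (a := a) hu hX hd o
    (fun i k => (T ^ k) (α i)) (fun i j k hjk => by
      have := t18poly_inj free (α i) (j := j) (k := k) (by simpa using hjk)
      exact_mod_cast this) (fun i k => (h1 i k).1) (N₀ := N₀ + 1) (H := Hh) (by
      push_cast
      nlinarith)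
  obtain ⟨m, -, hm2, hm3⟩ := t18poly_narrow (a := a) hu hX hd o
    (fun i k => (T⁻¹ ^ (k + 1)) (β i)) (fun i j k hjk => by
      have := t18poly_inj free (β i) (j := -((j + 1 : ℕ) : ℤ)) (k := -((k + 1 : ℕ) : ℤ)) (by
        rw [zpow_neg, zpow_neg, zpow_natCast, zpow_natCast, ← inv_pow, ← inv_pow]
        exact hjk)
      omega) (fun i k => (h2 i k).1) (N₀ := 0) (H := Hh) (by
      push_cast
      nlinarith)
  have jump : ∀ (s s' : Side X) (k : ℕ), 0 < k → k ≤ Hh → |((T ^ k) s).1.1 - s'.1.1| ≤ d →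
      |p s'.1.1 - p s.1.1 - SJ J R s.1.1 k| ≤ η' := by
    intro s s' k hk hk' hj
    rw [t18poly_pt hT] at hj
    exact hp _ s.2.1 _ s'.2.1 k hk hk' hj
  have exa : ∀ (s : Side X) (k : ℕ), k ≤ Hh →
      |p ((T ^ k) s).1.1 - p s.1.1 - SJ J R s.1.1 k| ≤ η' := by
    intro s k hk
    rcases Nat.eq_zero_or_pos k with rfl | hk0
    · simp [SJ, hη'.le]
    · exact jump s _ k hk0 hk (by simp [hd.le])
  refine ⟨N, m + 1, by omega, ?_⟩
  have key : ∀ i, |(∑ k ∈ Finset.range N, (J ((T ^ k) (α i)).1.1 - J (o ((T ^ k) (α i))).1.1) +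
        ∑ k ∈ Finset.range (m + 1), (J ((T⁻¹ ^ (k + 1)) (β i)).1.1 -
          J (o ((T⁻¹ ^ (k + 1)) (β i))).1.1) +
        (SJ J R (β i).1.1 (c i) - SJ J R (o (β (π i))).1.1 (c' i))) -
        (p (o (β (π i))).1.1 - p (o (β i)).1.1)| ≤ 8 * η' := by
    intro i
    have e1 : ∑ k ∈ Finset.range N, (J ((T ^ k) (α i)).1.1 - J (o ((T ^ k) (α i))).1.1) =
        SJ J R (α i).1.1 N - SJ J R (o (α i)).1.1 N := by
      rw [← t18poly_fw hT, ← t18poly_fw hT, ← Finset.sum_sub_distrib]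
      exact Finset.sum_congr rfl fun k _ => by rw [(h1 i k).2]
    have e2 : ∑ k ∈ Finset.range (m + 1), (J ((T⁻¹ ^ (k + 1)) (β i)).1.1 -
          J (o ((T⁻¹ ^ (k + 1)) (β i))).1.1) =
        SJ J R ((T⁻¹ ^ (m + 1)) (β i)).1.1 (m + 1) -
          SJ J R ((T⁻¹ ^ (m + 1)) (o (β i))).1.1 (m + 1) := by
      rw [← t18poly_bw hT, ← t18poly_bw hT, ← Finset.sum_sub_distrib]
      exact Finset.sum_congr rfl fun k _ => by rw [(h2 i k).2]
    rw [e1, e2]
    have a1 := exa (α i) N hN2.le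
    have a2 := jump (o (α i)) ((T ^ N) (α i)) N (by omega) hN2.le (by
      rw [← (h1 i N).2]
      exact hN3 i)
    have can : ∀ s : Side X, (T ^ (m + 1)) ((T⁻¹ ^ (m + 1)) s) = s := fun s => by
      simp
    have a3 := exa ((T⁻¹ ^ (m + 1)) (β i)) (m + 1) (by omega)
    have a4 := exa ((T⁻¹ ^ (m + 1)) (o (β i))) (m + 1) (by omega)
    rw [can] at a3 a4
    have can1 : (T ^ 1) ((T⁻¹ ^ (1 + (m + 1))) (β i)) = (T⁻¹ ^ (m + 1)) (β i) :=
      t18poly_cancel T _ 1 (m + 1)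
    have a5 := exa ((T⁻¹ ^ (1 + (m + 1))) (β i)) 1 (by omega)
    have a6 := jump ((T⁻¹ ^ (1 + (m + 1))) (β i)) ((T⁻¹ ^ (m + 1)) (o (β i))) 1 one_pos
      (by omega) (by
        rw [can1, ← (h2 i m).2, abs_sub_comm]
        exact hm3 i)
    rw [can1] at a5
    have a7 := exa (β i) (c i) (hc i).1
    have a8 := exa (o (β (π i))) (c' i) (hc i).2
    rw [← h3 i] at a7
    rw [← h4 i] at a8
    rw [abs_le] at a1 a2 a3 a4 a5 a6 a7 a8 ⊢
    constructor <;> linarith [a1.1, a1.2, a2.1, a2.2, a3.1, a3.2, a4.1, a4.2, a5.1, a5.2, a6.1,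
      a6.2, a7.1, a7.2, a8.1, a8.2]
  have tel : ∑ i, (p (o (β (π i))).1.1 - p (o (β i)).1.1) = 0 := by
    rw [Finset.sum_sub_distrib, Equiv.sum_comp π fun i => p (o (β i)).1.1, sub_self]
  have hfin := (Finset.abs_sum_le_sum_abs _ Finset.univ).trans
    (Finset.sum_le_sum fun i _ => key i)
  rw [Finset.sum_sub_distrib, tel, sub_zero] at hfin
  refine hfin.trans ?_
  have h8 : η' * (8 * n + 1) = η := by
    rw [hη'def]
    field_simp
  simp only [Finset.sum_const, Finset.card_univ, Fintype.card_fin, nsmul_eq_mul]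
  nlinarith

end Pool.Agent.Lib.MP_5bb885_an.Gen
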