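import Pool.Agent.Lib.MP_5bb885_an.T18Dich
import Pool.Agent.Lib.MP_5bb885_an.T18AC
import Pool.Agent.Lib.MP_5bb885_an.T18Dih
import Pool.Agent.Lib.MP_5bb885_an.T18Poly

/-!
Second order bounds give close returns for maps with flips.
-/

namespace Pool.Agent.Lib.MP_5bb885_an.Gen

open UpperHalfPlane MeasureTheory Filter Topology

variable {X : Set ℝ} {R e J : ℝ → ℝ} {ε : ℝ}

open Classical in
lemma t18flip_width {a v v' : ℝ} (hv : v ≤ v') (o : Side X → Side X) (g : ℕ → Side X)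
    (hg : Function.Injective g) (hG : ∀ k, Gap X a (g k) (o (g k))) (N : ℕ) :
    ∑ k ∈ Finset.range N, (if (g k).1.1 ∈ Set.Icc v v' ∧ (o (g k)).1.1 ∈ Set.Icc v v' then
      |(o (g k)).1.1 - (g k).1.1| else 0) ≤ 2 * (v' - v) := by
  rw [← Finset.sum_filter]
  have h := gap_sum (a := a) hv o (((Finset.range N).filter fun k =>
    (g k).1.1 ∈ Set.Icc v v' ∧ (o (g k)).1.1 ∈ Set.Icc v v').image g) (by
      intro s hs
      obtain ⟨k, hk, rfl⟩ := Finset.mem_image.1 hs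
      exact ⟨hG k, (Finset.mem_filter.1 hk).2⟩)
  rwa [Finset.sum_image (fun x _ y _ hxy => hg hxy)] at h

open Classical in
lemma t18flip_term {a u u' w Λ : ℝ} {A : ℝ → ℝ} (hw : 0 < w) {s s' su su' : Side X}
    (hsu : su.1 = (u, -1)) (hsu' : su'.1 = (u', 1)) (hG : Gap X a s s') (n1 : s' ≠ su)
    (n2 : s' ≠ su') (huu : u < u')
    (A0 : ∀ x ∈ X, x ∉ Set.Icc u u' → A x = 0)
    (A1 : ∀ x ∈ X, x ∈ Set.Icc u u' → A x ∈ Set.Icc w (6 * w))
    (A2 : ∀ x ∈ X, ∀ y ∈ X, x ∈ Set.Icc u u' → y ∈ Set.Icc u u' →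
      |A x - A y| ≤ Λ * w * |x - y|) :
    0 ≤ A s.1.1 - A s'.1.1 + |Λ| * w * (if s.1.1 ∈ Set.Icc u u' ∧ s'.1.1 ∈ Set.Icc u u' then
      |s'.1.1 - s.1.1| else 0) ∧
    (s = su → w ≤ A s.1.1 - A s'.1.1 + |Λ| * w *
      (if s.1.1 ∈ Set.Icc u u' ∧ s'.1.1 ∈ Set.Icc u u' then |s'.1.1 - s.1.1| else 0)) := by
  obtain ⟨g1, -, g3, g4⟩ := hG
  have hs : s.1.1 ∈ X := s.2.1
  have hs' : s'.1.1 ∈ X := s'.2.1
  have hu : u ∈ X := by
    have := su.2.1
    rwa [hsu] at this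
  have hu' : u' ∈ X := by
    have := su'.2.1
    rwa [hsu'] at this
  have only : s.1.1 ∈ Set.Icc u u' → s'.1.1 ∉ Set.Icc u u' →
      w ≤ A s.1.1 - A s'.1.1 + |Λ| * w *
      (if s.1.1 ∈ Set.Icc u u' ∧ s'.1.1 ∈ Set.Icc u u' then |s'.1.1 - s.1.1| else 0) := by
    intro h1 h2
    rw [if_neg (fun h => h2 h.2), A0 _ hs' h2]
    have := (A1 _ hs h1).1
    linarith
  refine ⟨?_, ?_⟩
  · by_cases h1 : s.1.1 ∈ Set.Icc u u'
    · by_cases h2 : s'.1.1 ∈ Set.Icc u u'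
      · rw [if_pos ⟨h1, h2⟩]
        have h3 := A2 _ hs _ hs' h1 h2
        have h4 : Λ * w * |s.1.1 - s'.1.1| ≤ |Λ| * w * |s'.1.1 - s.1.1| := by
          rw [abs_sub_comm s.1.1]
          exact mul_le_mul_of_nonneg_right
            (mul_le_mul_of_nonneg_right (le_abs_self Λ) hw.le) (abs_nonneg _)
        have h5 := neg_abs_le (A s.1.1 - A s'.1.1)
        linarith
      · exact hw.le.trans (only h1 h2)
    · by_cases h2 : s'.1.1 ∈ Set.Icc u u'
      · exfalso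
        rcases lt_or_ge s.1.1 u with h3 | h3
        · have h4 : s.1.1 < s'.1.1 := h3.trans_le h2.1
          have h5 : s'.1.1 = u := by
            by_contra h5
            refine g4 u hu ?_
            rw [min_eq_left h4.le, max_eq_right h4.le]
            exact ⟨h3, lt_of_le_of_ne h2.1 (Ne.symm h5)⟩
          have h6 : s.1.2 = 1 := by
            rcases s.2.2.1 with h6 | h6
            · exact h6
            · rw [h6] at g1
              linarith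
          refine n1 (Subtype.ext ?_)
          rw [hsu]
          exact Prod.ext h5 (by rw [g3, h6])
        · have h3' : u' < s.1.1 := by
            by_contra h7
            exact h1 ⟨h3, not_lt.1 h7⟩
          have h4 : s'.1.1 < s.1.1 := h2.2.trans_lt h3'
          have h5 : s'.1.1 = u' := by
            by_contra h5
            refine g4 u' hu' ?_
            rw [min_eq_right h4.le, max_eq_left h4.le]
            exact ⟨lt_of_le_of_ne h2.2 h5, h3'⟩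
          have h6 : s.1.2 = -1 := by
            rcases s.2.2.1 with h6 | h6
            · rw [h6] at g1
              linarith
            · exact h6
          refine n2 (Subtype.ext ?_)
          rw [hsu']
          exact Prod.ext h5 (by rw [g3, h6]; simp)
      · rw [if_neg (fun h => h2 h.2), A0 _ hs' h2, A0 _ hs h1]
        simp
  · intro h
    have e1 : s.1.1 = u := by rw [h, hsu]
    have e2 : s.1.2 = -1 := by rw [h, hsu]
    refine only (by rw [e1]; exact ⟨le_rfl, huu.le⟩) ?_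
    intro h2
    rw [e1, e2] at g1
    have := h2.1
    linarith

lemma t18flip_tail {a u u' w Λ ρ lo hi δ : ℝ} {A τ : ℝ → ℝ} (hw : 0 < w) {su su' : Side X}
    (hsu : su.1 = (u, -1)) (hsu' : su'.1 = (u', 1)) (huu : u < u')
    (hX : X ⊆ Set.Icc lo hi) (hlo : lo ≤ hi)
    (hl : ∀ x ∈ X, ∀ y ∈ X, |x - y| ≤ a → |τ x - τ y| ≤ Λ * |x - y|)
    (A0 : ∀ x ∈ X, x ∉ Set.Icc u u' → A x = 0)
    (A1 : ∀ x ∈ X, x ∈ Set.Icc u u' → A x ∈ Set.Icc w (6 * w))
    (A2 : ∀ x ∈ X, ∀ y ∈ X, x ∈ Set.Icc u u' → y ∈ Set.Icc u u' →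
      |A x - A y| ≤ Λ * w * |x - y|)
    (o : Side X → Side X) (g : ℕ → Side X) (hg : Function.Injective g)
    (hG : ∀ k, Gap X a (g k) (o (g k))) (n1 : ∀ k, o (g k) ≠ su) (n2 : ∀ k, o (g k) ≠ su')
    (N : ℕ) (hδ : δ = 0 ∨ (δ = w ∧ ∃ k < N, g k = su)) :
    δ - (|Λ| * w * (2 * (u' - u)) + |ρ| * (|Λ| * (2 * (hi - lo)))) ≤
      ∑ k ∈ Finset.range N, ((A (g k).1.1 + ρ * τ (g k).1.1) -
        (A (o (g k)).1.1 + ρ * τ (o (g k)).1.1)) := by
  classical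
  set φ : ℕ → ℝ := fun k => if (g k).1.1 ∈ Set.Icc u u' ∧ (o (g k)).1.1 ∈ Set.Icc u u' then
      |(o (g k)).1.1 - (g k).1.1| else 0 with hφ
  set ψ : ℕ → ℝ := fun k => if (g k).1.1 ∈ Set.Icc lo hi ∧ (o (g k)).1.1 ∈ Set.Icc lo hi then
      |(o (g k)).1.1 - (g k).1.1| else 0 with hψ
  set t : ℕ → ℝ := fun k => A (g k).1.1 - A (o (g k)).1.1 + |Λ| * w * φ k with ht
  have w1 : ∑ k ∈ Finset.range N, φ k ≤ 2 * (u' - u) := by
    have := t18flip_width huu.le o g hg hG N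
    convert this using 3
  have w2 : ∑ k ∈ Finset.range N, ψ k ≤ 2 * (hi - lo) := by
    have := t18flip_width hlo o g hg hG N
    convert this using 3
  have tm : ∀ k, 0 ≤ t k ∧ (g k = su → w ≤ t k) := by
    intro k
    have := t18flip_term hw hsu hsu' (hG k) (n1 k) (n2 k) huu A0 A1 A2
    convert this using 4
  have t1 : δ ≤ ∑ k ∈ Finset.range N, t k := by
    rcases hδ with rfl | ⟨rfl, k, hk, hk'⟩
    · exact Finset.sum_nonneg fun k _ => (tm k).1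
    · exact ((tm k).2 hk').trans
        (Finset.single_le_sum (f := t) (fun k _ => (tm k).1) (Finset.mem_range.2 hk))
  have t2 : ∀ k, t k - |Λ| * w * φ k - |ρ| * (|Λ| * ψ k) ≤ (A (g k).1.1 + ρ * τ (g k).1.1) -
        (A (o (g k)).1.1 + ρ * τ (o (g k)).1.1) := by
    intro k
    have hs : (g k).1.1 ∈ X := (g k).2.1
    have hs' : (o (g k)).1.1 ∈ X := (o (g k)).2.1
    have e1 : ψ k = |(g k).1.1 - (o (g k)).1.1| := by
      simp only [hψ]
      rw [if_pos ⟨hX hs, hX hs'⟩, abs_sub_comm]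
    have e2 := hl _ hs _ hs' (by rw [abs_sub_comm]; exact (hG k).2.1)
    have e3 : |τ (g k).1.1 - τ (o (g k)).1.1| ≤ |Λ| * ψ k := by
      rw [e1]
      exact e2.trans (mul_le_mul_of_nonneg_right (le_abs_self Λ) (abs_nonneg _))
    have e4 : |ρ * (τ (g k).1.1 - τ (o (g k)).1.1)| ≤ |ρ| * (|Λ| * ψ k) := by
      rw [abs_mul]
      exact mul_le_mul_of_nonneg_left e3 (abs_nonneg _)
    have e5 := neg_abs_le (ρ * (τ (g k).1.1 - τ (o (g k)).1.1))
    simp only [ht]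
    linarith
  refine le_trans ?_ (Finset.sum_le_sum fun k _ => t2 k)
  rw [Finset.sum_sub_distrib, Finset.sum_sub_distrib, ← Finset.mul_sum, ← Finset.mul_sum,
    ← Finset.mul_sum]
  have b1 : |Λ| * w * ∑ k ∈ Finset.range N, φ k ≤ |Λ| * w * (2 * (u' - u)) :=
    mul_le_mul_of_nonneg_left w1 (mul_nonneg (abs_nonneg _) hw.le)
  have b2 : |ρ| * (|Λ| * ∑ k ∈ Finset.range N, ψ k) ≤ |ρ| * (|Λ| * (2 * (hi - lo))) :=
    mul_le_mul_of_nonneg_left (mul_le_mul_of_nonneg_left w2 (abs_nonneg _)) (abs_nonneg _)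
  linarith

lemma t18flip_mid (H : FI X R e ε) {A τ : ℝ → ℝ} {τ₁ τ₂ ρ x : ℝ} (h1 : 0 < τ₁)
    (hτ : ∀ x ∈ X, τ x ∈ Set.Icc τ₁ τ₂) (hx : x ∈ X) (c : ℕ)
    (hA : ∀ j < c, A (R^[j] x) = 0) :
    |SJ (fun x => A x + ρ * τ x) R x c| ≤ |ρ| * (τ₂ * c) := by
  unfold SJ
  refine (Finset.abs_sum_le_sum_abs _ _).trans ?_
  have : ∀ j ∈ Finset.range c, |A (R^[j] x) + ρ * τ (R^[j] x)| ≤ |ρ| * τ₂ := by
    intro j hj
    have h2 := hτ _ (H.iter hx j)
    rw [hA j (Finset.mem_range.1 hj), zero_add, abs_mul, abs_of_pos (h1.trans_le h2.1)]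
    exact mul_le_mul_of_nonneg_left h2.2 (abs_nonneg _)
  refine (Finset.sum_le_sum this).trans (le_of_eq ?_)
  rw [Finset.sum_const, Finset.card_range, nsmul_eq_mul]
  ring

lemma t18flip_inf (H : FI X R e ε) : X.Infinite := by
  obtain ⟨x, hx⟩ := H.ne
  refine Set.infinite_of_injective_forall_mem (f := fun k : ℕ => R^[k] x) ?_
    (fun k => H.iter hx k)
  have key : ∀ i j : ℕ, i < j → R^[i] x ≠ R^[j] x := by
    intro i j hij h
    obtain ⟨k, rfl⟩ := Nat.exists_eq_add_of_lt hij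
    refine H.aper _ (H.iter hx i) (k + 1) (Nat.succ_pos k) ?_
    rw [← Function.iterate_add_apply, show k + 1 + i = i + k + 1 by ring]
    exact h.symm
  intro i j hij
  rcases lt_trichotomy i j with h | h | h
  · exact absurd hij (key i j h)
  · exact h
  · exact absurd hij.symm (key j i h)

/-- Two sides in the forward orbit of a side that bound a short interval. -/
lemma t18flip_pick (H : FI X R e ε) {T : Equiv.Perm (Side X)}
    (hT : ∀ s, (T s).1 = (R s.1.1, s.1.2 * e s.1.1)) (s : Side X) {F : Set ℝ} (hF : F.Finite)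
    {η : ℝ} (hη : 0 < η) : ∃ (u u' : ℝ) (k₁ k₂ : ℕ), u < u' ∧ u' - u ≤ η ∧
      ((T ^ k₁) s).1 = (u, -1) ∧ ((T ^ k₂) s).1 = (u', 1) ∧ ∀ z ∈ F, z ∉ Set.Icc u u' := by
  obtain ⟨y, hy, hyF⟩ := (t18flip_inf H).exists_notMem_finite hF
  obtain ⟨r, hr, hrF⟩ := Metric.isOpen_iff.1 hF.isClosed.isOpen_compl y hyF
  set q := min r η with hq
  have hq0 : 0 < q := lt_min hr hη
  have hq1 : q ≤ r := min_le_left _ _
  have hq2 : q ≤ η := min_le_right _ _
  obtain ⟨y', hy', hne, hd⟩ := H.perfect hy (show 0 < q / 4 by positivity)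
  have hd' := abs_lt.1 hd
  obtain ⟨y₁, y₂, hy₁, hy₂, h12, b1, b2⟩ : ∃ y₁ y₂ : ℝ, y₁ ∈ X ∧ y₂ ∈ X ∧ y₁ < y₂ ∧
      y - q / 4 < y₁ ∧ y₂ < y + q / 4 := by
    rcases lt_or_gt_of_ne hne with h | h
    · exact ⟨y', y, hy', hy, h, by linarith, by linarith⟩
    · exact ⟨y, y', hy, hy', h, by linarith, by linarith⟩
  have hκ : 0 < min (q / 4) ((y₂ - y₁) / 2) := lt_min (by positivity) (by linarith)
  have m1 := min_le_left (q / 4) ((y₂ - y₁) / 2)
  have m2 := min_le_right (q / 4) ((y₂ - y₁) / 2)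
  have hσ := s.2.2.1
  have hσ2 : s.1.2 * s.1.2 = 1 := by
    rcases hσ with h | h <;> rw [h] <;> norm_num
  obtain ⟨k₁, p1, p2⟩ := H.flip _ s.2.1 _ hy₁ (-s.1.2)
    (by rcases hσ with h | h <;> rw [h] <;> simp) _ hκ
  obtain ⟨k₂, p3, p4⟩ := H.flip _ s.2.1 _ hy₂ s.1.2 hσ _ hκ
  have p1' := abs_lt.1 p1
  have p3' := abs_lt.1 p3
  refine ⟨R^[k₁] s.1.1, R^[k₂] s.1.1, k₁, k₂, by linarith, by linarith, ?_, ?_, ?_⟩
  · rw [side_pow hT, p2, mul_neg, hσ2]
  · rw [side_pow hT, p4, hσ2]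
  · intro z hz hz'
    refine hrF (a := z) ?_ hz
    rw [Metric.mem_ball, Real.dist_eq, abs_lt]
    constructor <;> linarith [hz'.1, hz'.2]

lemma t18flip_inj {B : Type} {T : Equiv.Perm B}
    (free : ∀ (s : B) (k : ℤ), (T ^ k) s = s → k = 0) (s : B) {i j : ℤ}
    (h : (T ^ i) s = (T ^ j) s) : i = j := by
  have : (T ^ (-j + i)) s = s := by
    rw [zpow_add, Equiv.Perm.mul_apply, h, ← Equiv.Perm.mul_apply, ← zpow_add]
    simp
  have := free s _ this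
  omega

lemma t18flip_shift {B : Type} {T : Equiv.Perm B} {s s₀ : B} {i j : ℤ}
    (h : (T ^ i) s = (T ^ j) s₀) : s = (T ^ (-i + j)) s₀ := by
  rw [zpow_add, Equiv.Perm.mul_apply, ← h, ← Equiv.Perm.mul_apply, ← zpow_add]
  simp

lemma t18flip_invpow {B : Type} (T : Equiv.Perm B) (k : ℕ) : T⁻¹ ^ k = T ^ (-(k : ℤ)) := by
  rw [zpow_neg, zpow_natCast, inv_pow]

theorem FI.short (H : FI X R e ε) {τ : ℝ → ℝ} {τ₁ τ₂ a Λ : ℝ} (h1 : 0 < τ₁) (ha : 0 < a)
    (hτ : ∀ x ∈ X, τ x ∈ Set.Icc τ₁ τ₂)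
    (hl : ∀ x ∈ X, ∀ y ∈ X, |x - y| ≤ a → |τ x - τ y| ≤ Λ * |x - y|)
    (h : ∀ u u' : ℝ, u < u' → Iso X u (-1) → Iso X u' 1 → ∃ (w ρ : ℝ) (A : ℝ → ℝ), 0 < w ∧
      (∀ x ∈ X, x ∉ Set.Icc u u' → A x = 0) ∧
      (∀ x ∈ X, x ∈ Set.Icc u u' → A x ∈ Set.Icc w (6 * w)) ∧
      (∀ x ∈ X, ∀ y ∈ X, x ∈ Set.Icc u u' → y ∈ Set.Icc u u' → |A x - A y| ≤ Λ * w * |x - y|) ∧
      TK X R fun x => A x + ρ * τ x) : Short X R := by
  classical
  obtain ⟨⟨s₀⟩, T, o, E, hE, hT, free, inv, ne, comm, gap⟩ := H.sides ha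
  obtain ⟨n, α, β, π, c, c', i₀, k₀, d0, d1, d2, d3, d4, d5⟩ :=
    dihedral T o hE free inv ne comm s₀
  have f1 : ∀ (i : Fin n) (k : ℕ), o ((T ^ k) (α i)) = (T ^ k) (o (α i)) := by
    intro i k
    induction k with
    | zero => simp
    | succ k ih =>
      rw [pow_succ', Equiv.Perm.mul_apply, Equiv.Perm.mul_apply, comm _ (d1 i k), ih]
  have f2 : ∀ (i : Fin n) (k : ℕ), o ((T⁻¹ ^ k) (β i)) = (T⁻¹ ^ k) (o (β i)) := by
    intro i k
    induction k with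
    | zero => simp
    | succ k ih =>
      have h2 := comm _ (d2 i k)
      have h3 : T ((T⁻¹ ^ (k + 1)) (β i)) = (T⁻¹ ^ k) (β i) := by
        rw [pow_succ', Equiv.Perm.mul_apply]
        simp
      rw [h3, ih] at h2
      rw [pow_succ' T⁻¹ k, Equiv.Perm.mul_apply T⁻¹ _ (o (β i)), h2, ← pow_succ']
      simp
  have g1 : ∀ (i : Fin n) (k : ℕ) (j : ℤ), o ((T ^ k) (α i)) ≠ (T ^ j) s₀ := by
    intro i k j hj
    rw [f1, ← zpow_natCast] at hj
    exact d5 i _ (t18flip_shift hj)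
  have g2 : ∀ (i : Fin n) (k : ℕ) (j : ℤ), o ((T⁻¹ ^ k) (β i)) ≠ (T ^ j) s₀ := by
    intro i k j hj
    rw [f2, t18flip_invpow] at hj
    have h2 := d4 (π.symm i)
    rw [Equiv.apply_symm_apply, t18flip_shift hj, ← zpow_natCast, ← Equiv.Perm.mul_apply,
      ← zpow_add] at h2
    exact d5 _ _ h2
  obtain ⟨lo, hi, hX, hlo⟩ : ∃ lo hi : ℝ, X ⊆ Set.Icc lo hi ∧ lo ≤ hi := by
    obtain ⟨r, hr⟩ := H.cpt.isBounded.subset_closedBall 0
    obtain ⟨x, hx⟩ := H.ne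
    rw [Real.closedBall_eq_Icc] at hr
    exact ⟨_, _, hr, (hr hx).1.trans (hr hx).2⟩
  have hτ2 : 0 < τ₂ := by
    obtain ⟨x, hx⟩ := H.ne
    exact (h1.trans_le (hτ x hx).1).trans_le (hτ x hx).2
  set K : ℝ := n * (2 * (|Λ| * (2 * (hi - lo)))) + ∑ i, (τ₂ * c i + τ₂ * c' i) with hK
  have hK0 : 0 ≤ K := by
    have : 0 ≤ hi - lo := by linarith
    positivity
  obtain ⟨η, hη, hρ⟩ := TK.rho H h1 (fun x hx => (hτ x hx).1)
    (show 0 < 1 / (48 * (K + 1)) by positivity)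
  have hF : ((⋃ i, (fun j : ℕ => R^[j] (β i).1.1) '' Set.Iio (c i)) ∪
      ⋃ i, (fun j : ℕ => R^[j] (o (β (π i))).1.1) '' Set.Iio (c' i)).Finite :=
    (Set.finite_iUnion fun i => (Set.finite_Iio _).image _).union
      (Set.finite_iUnion fun i => (Set.finite_Iio _).image _)
  obtain ⟨u, u', k₁, k₂, huu, hsm, hsu, hsu', hmid⟩ := t18flip_pick H hT (α i₀) hF
    (show 0 < min η (1 / (32 * (n * |Λ| + 1))) from lt_min hη (by positivity))
  have iu : Iso X u (-1) := by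
    have := ((T ^ k₁) (α i₀)).2
    rwa [hsu] at this
  have iu' : Iso X u' 1 := by
    have := ((T ^ k₂) (α i₀)).2
    rwa [hsu'] at this
  obtain ⟨w, ρ, A, hw, A0, A1, A2, htk⟩ := h u u' huu iu iu'
  rcases H.dich (fun x => A x + ρ * τ x) with hs | hlink
  · exact hs
  exfalso
  have hρ' : |ρ| ≤ 1 / (48 * (K + 1)) * (6 * w) := by
    refine hρ u u' (6 * w) ρ A (hsm.trans (min_le_left _ _)) A0 ?_ htk
    intro x hx
    by_cases hx' : x ∈ Set.Icc u u'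
    · have := A1 x hx hx'
      rw [abs_of_pos (hw.trans_le this.1)]
      exact this.2
    · rw [A0 x hx hx', abs_zero]
      positivity
  obtain ⟨N, M, hN, hsum⟩ := (htk.ac H hlink).poly H (a := a) (o := o) hT free
    (α := α) (β := β) (π := π) (c := c) (c' := c')
    (fun i k => ⟨gap _ (d1 i k), f1 i k⟩) (fun i k => ⟨gap _ (d2 i k), f2 i (k + 1)⟩) d3 d4
    (show 0 < w / 4 by positivity) (k₁ + 1)
  have o1 : ∀ k : ℕ, (T ^ k) (α i₀) = (T ^ ((k + k₀ : ℕ) : ℤ)) s₀ := by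
    intro k
    rw [d0, zpow_natCast, pow_add, Equiv.Perm.mul_apply]
  set Q : ℝ := |Λ| * w * (2 * (u' - u)) + |ρ| * (|Λ| * (2 * (hi - lo))) with hQ
  have low : ∀ i : Fin n, (if i = i₀ then w else 0) - Q - Q - |ρ| * (τ₂ * c i + τ₂ * c' i) ≤
      ∑ k ∈ Finset.range N, ((A ((T ^ k) (α i)).1.1 + ρ * τ ((T ^ k) (α i)).1.1) -
          (A (o ((T ^ k) (α i))).1.1 + ρ * τ (o ((T ^ k) (α i))).1.1)) +
        ∑ k ∈ Finset.range M, ((A ((T⁻¹ ^ (k + 1)) (β i)).1.1 +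
            ρ * τ ((T⁻¹ ^ (k + 1)) (β i)).1.1) -
          (A (o ((T⁻¹ ^ (k + 1)) (β i))).1.1 + ρ * τ (o ((T⁻¹ ^ (k + 1)) (β i))).1.1)) +
        (SJ (fun x => A x + ρ * τ x) R (β i).1.1 (c i) -
          SJ (fun x => A x + ρ * τ x) R (o (β (π i))).1.1 (c' i)) := by
    intro i
    have l1 := t18flip_tail (ρ := ρ) (δ := if i = i₀ then w else 0) hw hsu hsu' huu hX hlo hl
      A0 A1 A2 o (fun k => (T ^ k) (α i))
      (fun j k hjk => by
        have : (T ^ (j : ℤ)) (α i) = (T ^ (k : ℤ)) (α i) := by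
          simpa only [zpow_natCast] using hjk
        exact_mod_cast t18flip_inj free _ this)
      (fun k => gap _ (d1 i k)) (fun k => by rw [o1]; exact g1 i k _)
      (fun k => by rw [o1]; exact g1 i k _) N (by
        by_cases hi : i = i₀
        · exact Or.inr ⟨if_pos hi, k₁, hN, by rw [hi]⟩
        · exact Or.inl (if_neg hi))
    have l2 := t18flip_tail (ρ := ρ) (δ := 0) hw hsu hsu' huu hX hlo hl
      A0 A1 A2 o (fun k => (T⁻¹ ^ (k + 1)) (β i))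
      (fun j k hjk => by
        have : (T ^ (-((j + 1 : ℕ) : ℤ))) (β i) = (T ^ (-((k + 1 : ℕ) : ℤ))) (β i) := by
          simpa only [t18flip_invpow] using hjk
        have := t18flip_inj free _ this
        omega)
      (fun k => gap _ (d2 i k)) (fun k => by rw [o1]; exact g2 i _ _)
      (fun k => by rw [o1]; exact g2 i _ _) M (Or.inl rfl)
    have l3 := t18flip_mid H (A := A) (ρ := ρ) h1 hτ (β i).2.1 (c i) (fun j hj =>
      A0 _ (H.iter (β i).2.1 j) (hmid _ (Or.inl (Set.mem_iUnion.2 ⟨i, j, hj, rfl⟩))))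
    have l4 := t18flip_mid H (A := A) (ρ := ρ) h1 hτ (o (β (π i))).2.1 (c' i) (fun j hj =>
      A0 _ (H.iter (o (β (π i))).2.1 j) (hmid _ (Or.inr (Set.mem_iUnion.2 ⟨i, j, hj, rfl⟩))))
    have l5 := (abs_le.1 l3).1
    have l6 := (abs_le.1 l4).2
    linarith
  have tot := (Finset.sum_le_sum fun i (_ : i ∈ Finset.univ) => low i).trans
    ((le_abs_self _).trans hsum)
  rw [Finset.sum_sub_distrib, Finset.sum_sub_distrib, Finset.sum_sub_distrib, ← Finset.mul_sum,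
    Finset.sum_ite_eq', if_pos (Finset.mem_univ _), Finset.sum_const, Finset.card_univ,
    Fintype.card_fin, nsmul_eq_mul] at tot
  have c1 : |ρ| * K ≤ w / 8 := by
    have e1 : |ρ| * K ≤ 1 / (48 * (K + 1)) * (6 * w) * (K + 1) :=
      mul_le_mul hρ' (by linarith) hK0 (by positivity)
    have e2 : 1 / (48 * (K + 1)) * (6 * w) * (K + 1) = w / 8 := by
      field_simp
      ring
    linarith
  have c2 : n * |Λ| * (u' - u) ≤ 1 / 32 := by
    have e0 : (0 : ℝ) ≤ n * |Λ| := by positivity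
    have e1 : n * |Λ| * (u' - u) ≤ (n * |Λ| + 1) * (1 / (32 * (n * |Λ| + 1))) :=
      mul_le_mul (by linarith) (hsm.trans (min_le_right _ _)) (by linarith) (by positivity)
    have e2 : (n * |Λ| + 1) * (1 / (32 * (n * |Λ| + 1))) = 1 / 32 := by
      field_simp
    linarith
  have c3 : w * (n * |Λ| * (u' - u)) ≤ w * (1 / 32) := mul_le_mul_of_nonneg_left c2 hw.le
  have c4 : n * Q + n * Q + |ρ| * ∑ i, (τ₂ * c i + τ₂ * c' i) =
      4 * (w * (n * |Λ| * (u' - u))) + |ρ| * K := by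
    rw [hQ, hK]
    ring
  linarith

end Pool.Agent.Lib.MP_5bb885_an.Gen
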