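import Pool.Agent.Lib.MP_5bb885_an.T18Tw2

/-!
The return map as a map of a Cantor set of the line.
-/

namespace Pool.Agent.Lib.MP_5bb885_an.Gen

open UpperHalfPlane MeasureTheory Filter Topology

variable {Γ : Type} [Group Γ] [MulAction Γ ℍ] {K : Set ℍ} {Φ : ℝ → ℍ → ℍ} {V : ℍ → ℂ} {q : Bx}
  {r τ₁ τ₂ ε₁ : ℝ} {τ : ℍ → ℝ} {g : ℍ → Γ} {R : ℍ → ℍ} {x : ℍ} {y : ℝ}

lemma Sec.pt_ht (S : Sec Γ K Φ V q r) (hx : x ∈ q.ln) : q.pt (q.ht x) = x := by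
  have h1 : q.p + q.d * ((q.ht x : ℝ) * Complex.I) = (x : ℂ) := by
    have h2 : ((q.ht x : ℝ) : ℂ) * Complex.I = co q.p q.d x := by
      apply Complex.ext
      · simp [hx.1]
      · simp [Bx.ht]
    rw [h2, co, mul_div_cancel₀ _ S.ok.ne]
    ring
  rw [Bx.pt, h1, ofComplex_apply]

lemma Sec.pt_mem (S : Sec Γ K Φ V q r) (hy : y ∈ q.hs K) :
    q.pt y ∈ K ∩ q.ln ∧ q.ht (q.pt y) = y := by
  obtain ⟨x, hx, rfl⟩ := hy
  rw [S.pt_ht hx.2]
  exact ⟨hx, rfl⟩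

lemma Ret.rm_iter (S : Sec Γ K Φ V q r) (H : Ret K Φ q τ g R τ₁ τ₂ ε₁) (hx : x ∈ K ∩ q.ln)
    (k : ℕ) : (q.rm R)^[k] (q.ht x) = q.ht (R^[k] x) := by
  induction k with
  | zero => rfl
  | succ k ih =>
    rw [Function.iterate_succ_apply', ih, Function.iterate_succ_apply', Bx.rm,
      S.pt_ht (H.iter hx k).2]

lemma t18glue1_inj (A : Lam Γ K Φ V) (S : Sec Γ K Φ V q r) (H : Ret K Φ q τ g R τ₁ τ₂ ε₁)
    {x y : ℍ} (hx : x ∈ K ∩ q.ln) (hy : y ∈ K ∩ q.ln) (h : R x = R y) (h1 : τ x ≤ τ y) :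
    x = y := by
  have h2 : (g x * (g y)⁻¹) • Φ (τ y - τ x) y = x := by
    have h3 : Φ (-τ x) (Φ (τ x) x) = x := by
      rw [← A.add _ _ x hx.1, neg_add_cancel, A.zero x hx.1]
    have h4 : Φ (τ x) x = (g x * (g y)⁻¹) • Φ (τ y) y := by
      rw [H.hit x hx, H.hit y hy, h, mul_smul, inv_smul_smul]
    rw [h4, t9ret_flow A hy.1, neg_add_eq_sub] at h3
    exact h3
  have h3 : τ y - τ x = 0 := by
    by_contra hc
    refine H.first y hy (τ y - τ x) ⟨lt_of_le_of_ne (by linarith) (Ne.symm hc),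
      by linarith [(H.bd x hx).1, H.lo]⟩ (g x * (g y)⁻¹) ?_
    rw [h2]
    exact hx.2
  rw [h3, A.zero y hy.1] at h2
  have h4 : g x * (g y)⁻¹ = 1 :=
    t9ret_uniq S (z := y) (by rw [h2]; exact hx.2) (by rw [one_smul]; exact hy.2)
  rw [h4, one_smul] at h2
  exact h2.symm

lemma Ret.bij (F : Deck Γ) (A : Aper Γ K Φ V) (S : Sec Γ K Φ V q r)
    (H : Ret K Φ q τ g R τ₁ τ₂ ε₁) : Set.BijOn R (K ∩ q.ln) (K ∩ q.ln) := by
  refine ⟨fun x hx => H.map x hx, fun x hx y hy h => ?_, fun x hx => ?_⟩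
  · rcases le_total (τ x) (τ y) with h1 | h1
    · exact t18glue1_inj A.toLam S H hx hy h h1
    · exact (t18glue1_inj A.toLam S H hy hx h.symm h1).symm
  · have hc : IsClosed (R '' (K ∩ q.ln)) :=
      ((S.isCompact_ln.inter_left A.closed).image_of_continuousOn H.cont).isClosed
    rw [← hc.closure_eq]
    refine Metric.mem_closure_iff.2 fun ε hε => ?_
    obtain ⟨C, hC, hd⟩ := S.dist_le
    obtain ⟨P, hP⟩ := H.recur F A S hx (div_pos hε hC)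
    obtain ⟨j, -, hj⟩ := hP _ (H.map x hx)
    rw [← Function.iterate_succ_apply] at hj
    refine ⟨R^[j + 1] x, ⟨R^[j] x, H.iter hx j, (Function.iterate_succ_apply' R j x).symm⟩, ?_⟩
    rw [dist_comm]
    have h1 := hd _ (H.iter hx (j + 1)).2 x hx.2
    have h2 := (lt_div_iff₀' hC).1 hj
    exact h1.trans_lt h2

/-- Every point of the transversal is an accumulation point. -/
lemma t18glue1_acc (F : Deck Γ) (A : Aper Γ K Φ V) (S : Sec Γ K Φ V q r)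
    (H : Ret K Φ q τ g R τ₁ τ₂ ε₁) (hx : x ∈ K ∩ q.ln) {δ η : ℝ} (hδ : 0 < δ) (hη : 0 < η) :
    ∃ z ∈ K ∩ q.ln, z ≠ x ∧ |q.ht z - q.ht x| < δ ∧ -η < q.ht (R z) - q.ht (R x) ∧
      q.ht (R z) - q.ht (R x) < η := by
  obtain ⟨C, hC, hd⟩ := S.dist_le
  obtain ⟨d, hd0, h1⟩ := Metric.continuousWithinAt_iff.1
    ((q.continuous_ht.comp_continuousOn H.cont) x hx) _ hη
  obtain ⟨P, hP⟩ := H.recur F A S hx (lt_min hδ (div_pos hd0 hC))
  obtain ⟨j, -, hj⟩ := hP _ (H.map x hx)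
  rw [← Function.iterate_succ_apply, lt_min_iff] at hj
  have hz := H.iter hx j.succ
  have h2 : |q.ht (R (R^[j.succ] x)) - q.ht (R x)| < η :=
    h1 hz ((hd _ hz.2 x hx.2).trans_lt ((lt_div_iff₀' hC).1 hj.2))
  exact ⟨_, hz, fun e => j.succ_ne_zero (H.inj F A hx (j := 0) e), hj.1, abs_lt.1 h2⟩

/-- The return map is monotone at a small scale. -/
lemma Ret.near' (F : Deck Γ) (A : Aper Γ K Φ V) (S : Sec Γ K Φ V q r)
    (H : Ret K Φ q τ g R τ₁ τ₂ ε₁) {x y : ℍ} (hx : x ∈ K ∩ q.ln) (hy : y ∈ K ∩ q.ln)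
    (h1 : q.ht x < q.ht y) (h2 : q.ht y - q.ht x ≤ ε₁) :
    0 < sg (g x) * (q.ht (R y) - q.ht (R x)) := by
  obtain ⟨θ, hθ⟩ := H.exists_cdf F A S hx (Filter.hyperfilter ℕ) Nat.hyperfilter_le_atTop
  obtain ⟨β, -, hb, -⟩ := hθ.exists_shift' F A S H hx Nat.hyperfilter_le_atTop
  have hg : g y = g x := H.near y hy x hx (by rw [abs_of_pos (sub_pos.2 h1)]; exact h2)
  have e1 := hb x hx
  have e2 := hb y hy
  rw [hg] at e2
  have hne : q.ht (R y) ≠ q.ht (R x) := fun e => by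
    have h3 := (H.bij F A S).injOn hy hx (S.ht_inj (H.map y hy).2 (H.map x hx).2 e)
    rw [h3] at h1
    exact lt_irrefl _ h1
  rcases (hθ.mono h1.le).lt_or_eq with h3 | h3
  · rcases sg_cases (g x) with ⟨-, a⟩ | ⟨-, a⟩ <;> rw [a] at e1 e2 ⊢
    · have h4 : q.ht (R x) < q.ht (R y) := hθ.mono.reflect_lt (by linarith)
      linarith
    · have h4 : q.ht (R y) < q.ht (R x) := hθ.mono.reflect_lt (by linarith)
      linarith
  · obtain ⟨z, hz, k1, k2, k3, k4⟩ := t18glue1_acc F A S H hx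
      (lt_min H.pos (sub_pos.2 h1)) (abs_pos.2 (sub_ne_zero.2 hne))
    have k5 := lt_min_iff.1 k2
    have k6 := abs_lt.1 k5.2
    have e3 := hb z hz
    rw [H.near z hz x hx k5.1.le] at e3
    have k7 : θ (q.ht z) ≤ θ (q.ht y) := hθ.mono (by linarith)
    have k8 : θ (q.ht z) < θ (q.ht x) := by
      refine lt_of_le_of_ne (by linarith) fun e => ?_
      rcases hθ.three S hz hx hy e h3 with k9 | k9 | k9
      · exact k1 k9
      · rw [k9] at h1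
        exact lt_irrefl _ h1
      · rw [k9] at k6
        linarith [k6.2]
    by_contra hc
    rcases sg_cases (g x) with ⟨-, a⟩ | ⟨-, a⟩ <;> rw [a] at e1 e2 e3 hc
    · have h4 : q.ht (R y) < q.ht (R x) := lt_of_le_of_ne (by linarith) hne
      rw [abs_of_neg (sub_neg.2 h4)] at k3 k4
      have h5 : θ (q.ht (R y)) ≤ θ (q.ht (R z)) := hθ.mono (by linarith)
      linarith
    · have h4 : q.ht (R x) < q.ht (R y) := lt_of_le_of_ne (by linarith) hne.symm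
      rw [abs_of_pos (sub_pos.2 h4)] at k3 k4
      have h5 : θ (q.ht (R z)) ≤ θ (q.ht (R y)) := hθ.mono (by linarith)
      linarith

lemma t18glue1_EE (F : Deck Γ) (S : Sec Γ K Φ V q r) (H : Ret K Φ q τ g R τ₁ τ₂ ε₁)
    (hx : x ∈ K ∩ q.ln) (k : ℕ) :
    EE (fun y => sg (g (q.pt y))) (q.rm R) (q.ht x) k = sg (Gk g R x k) := by
  induction k with
  | zero => exact sg_one.symm
  | succ k ih =>
    rw [Gk, F.sg_mul, ← ih, EE, Finset.prod_range_succ, H.rm_iter S hx, S.pt_ht (H.iter hx k).2,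
      EE]

lemma t18glue1_flip (F : Deck Γ) (A : Aper Γ K Φ V) (S : Sec Γ K Φ V q r)
    (H : Ret K Φ q τ g R τ₁ τ₂ ε₁) (hf : Flip Γ K Φ) {x y : ℍ} (hx : x ∈ K ∩ q.ln)
    (hy : y ∈ K ∩ q.ln) {σ ε : ℝ} (hσ : σ = 1 ∨ σ = -1) (hε : 0 < ε) :
    ∃ k : ℕ, |q.ht (R^[k] x) - q.ht y| < ε ∧ sg (Gk g R x k) = σ := by
  have hr := S.cht.pos
  have he := S.ok.e
  have hw := S.ok.w
  have hwr := S.wr
  have hO : IsOpen
      {z : ℍ | |(co q.p q.d z).re| < min q.w ε ∧ |q.ht z - q.ht y| < min q.e (ε / 2)} :=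
    (isOpen_lt (Complex.continuous_re.comp (t9ret_co q.p q.d)).abs continuous_const).inter
      (isOpen_lt (q.continuous_ht.sub continuous_const).abs continuous_const)
  obtain ⟨t, ht, γ, hγ, h1, h2⟩ := hf σ hσ _ hO ⟨y, ⟨by rw [hy.2.1, abs_zero]; exact lt_min hw hε,
    by rw [sub_self, abs_zero]; exact lt_min he (by linarith)⟩, hy.1⟩ _ (A.map r x hx.1)
  rw [← A.add t r x hx.1] at h1 h2
  have h3 := lt_min_iff.1 h1
  have h4 := lt_min_iff.1 h2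
  have h5 := abs_lt.1 h4.1
  have hz : γ • Φ (t + r) x ∈ K := A.smul γ _ (A.map _ x hx.1)
  have hs : ((γ • Φ (t + r) x : ℍ) : ℂ) ∈ q.supp := by
    have h6 := hy.2.2.1
    have h7 := hy.2.2.2
    unfold Bx.ht at h5 h6 h7
    exact ⟨by linarith [h3.1], by linarith, by linarith⟩
  obtain ⟨s, h6, h7, h8⟩ := t9ret_hit A.toLam S hz hs
  rw [t9ret_flow A.toLam hx.1] at h7 h8
  have h9 := abs_le.1 (h6.trans (mul_le_mul_of_nonneg_left h3.1.le (by norm_num)))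
  obtain ⟨j, k1, k2⟩ := t9ret_all A.toLam S H hx (s := s + (t + r)) (by linarith) h7
  refine ⟨j, ?_, ?_⟩
  · rw [k2]
    calc _ ≤ |q.ht (γ • Φ (s + (t + r)) x) - q.ht (γ • Φ (t + r) x)| +
          |q.ht (γ • Φ (t + r) x) - q.ht y| := abs_sub_le _ _ _
      _ < ε := by linarith [h3.2, h4.2]
  · rw [← k1, H.flow A.toLam hx, ← mul_smul] at k2
    rw [eq_inv_of_mul_eq_one_right (F.free _ _ k2.symm), F.sg_inv, hγ]

theorem Ret.fi (F : Deck Γ) (A : Aper Γ K Φ V) (S : Sec Γ K Φ V q r)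
    (H : Ret K Φ q τ g R τ₁ τ₂ ε₁) (hf : Flip Γ K Φ) :
    FI (q.hs K) (q.rm R) (fun y => sg (g (q.pt y))) ε₁ := by
  have hb := H.bij F A S
  have hr1 : ∀ x ∈ K ∩ q.ln, q.rm R (q.ht x) = q.ht (R x) := fun x hx => H.rm_iter S hx 1
  refine ⟨(S.isCompact_ln.inter_left A.closed).image q.continuous_ht, S.ne.image _,
    fun y y' h => ?_, H.pos, ⟨?_, ?_, ?_⟩, ?_, fun y _ => ?_, ?_, ?_, ?_⟩
  · have hr := S.cht.pos
    have he := S.ok.e
    have hlo := S.lo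
    have hhi := S.hi
    have hab := S.ok.ab
    by_cases h1 : max y q.a < min y' q.b
    · obtain ⟨w, k1, k2, k3⟩ := A.gap_line F S.cht (y := max y q.a) (y' := min y' q.b)
        (le_max_of_le_right (by linarith)) h1 (min_le_of_right_le (by linarith))
      have k4 := max_lt_iff.1 k3.1
      have k5 := lt_min_iff.1 k3.2
      refine ⟨q.ht w, ⟨k4.1, k5.1⟩, ?_⟩
      rintro ⟨x, hx, e⟩
      rw [← S.ht_inj hx.2 ⟨k2, k4.2.le, k5.2.le⟩ e] at k1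
      exact k1 hx.1
    · refine ⟨(y + y') / 2, ⟨by linarith, by linarith⟩, ?_⟩
      rintro ⟨x, hx, e⟩
      have k1 := S.ht_mem hx
      rw [e] at k1
      exact h1 ((max_lt (by linarith) k1.1).trans (lt_min (by linarith) k1.2))
  · rintro _ ⟨x, hx, rfl⟩
    exact ⟨R x, H.map x hx, (hr1 x hx).symm⟩
  · rintro _ ⟨x, hx, rfl⟩ _ ⟨y, hy, rfl⟩ h
    rw [hr1 x hx, hr1 y hy] at h
    rw [hb.injOn hx hy (S.ht_inj (H.map x hx).2 (H.map y hy).2 h)]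
  · rintro _ ⟨x, hx, rfl⟩
    obtain ⟨z, hz, rfl⟩ := hb.surjOn hx
    exact ⟨q.ht z, ⟨z, hz, rfl⟩, hr1 z hz⟩
  · have h1 : ContinuousOn q.pt (q.hs K) := by
      obtain ⟨C, hC, hd⟩ := S.dist_le
      refine Metric.continuousOn_iff.2 fun y hy ε hε => ⟨ε / C, div_pos hε hC, fun z hz h => ?_⟩
      have h2 := hd _ (S.pt_mem hz).1.2 _ (S.pt_mem hy).1.2
      rw [(S.pt_mem hz).2, (S.pt_mem hy).2, ← Real.dist_eq] at h2
      exact h2.trans_lt ((lt_div_iff₀' hC).1 h)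
    exact q.continuous_ht.comp_continuousOn (H.cont.comp h1 fun y hy => (S.pt_mem hy).1)
  · exact (sg_cases _).imp And.right And.right
  · rintro _ ⟨x, hx, rfl⟩ _ ⟨y, hy, rfl⟩ h1 h2
    rw [hr1 x hx, hr1 y hy, S.pt_ht hx.2, S.pt_ht hy.2]
    exact ⟨by rw [H.near y hy x hx (by rw [abs_of_pos (sub_pos.2 h1)]; exact h2)],
      H.near' F A S hx hy h1 h2⟩
  · rintro _ ⟨x, hx, rfl⟩ k hk h
    rw [H.rm_iter S hx] at h
    exact hk.ne' (H.inj F A hx (j := 0) (S.ht_inj (H.iter hx k).2 hx.2 h))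
  · rintro _ ⟨x, hx, rfl⟩ _ ⟨y, hy, rfl⟩ σ hσ η hη
    obtain ⟨k, h1, h2⟩ := t18glue1_flip F A S H hf hx hy hσ hη
    exact ⟨k, by rw [H.rm_iter S hx]; exact h1, by rw [t18glue1_EE F S H hx]; exact h2⟩

end Pool.Agent.Lib.MP_5bb885_an.Gen
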