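import Pool.Agent.Lib.MP_5bb885_an.T18Defs

/-!
Sub-intervals of a transversal.
-/

namespace Pool.Agent.Lib.MP_5bb885_an.Gen

open UpperHalfPlane MeasureTheory Filter Topology

variable {Γ : Type} [Group Γ] [MulAction Γ ℍ] {K : Set ℍ} {Φ : ℝ → ℍ → ℍ} {V : ℍ → ℂ} {q q' : Bx}
  {r τ₁ τ₂ ε₁ : ℝ} {τ : ℍ → ℝ} {g : ℍ → Γ} {R : ℍ → ℍ}

/-- A box that sees only the heights in `[u, u']`. -/
lemma Sec.exists_sub (S : Sec Γ K Φ V q r) {u u' : ℝ} (h : u < u') (hu : Iso (q.hs K) u (-1))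
    (hu' : Iso (q.hs K) u' 1) : ∃ q' : Bx, Sec Γ K Φ V q' r ∧ q'.p = q.p ∧ q'.d = q.d ∧
      q'.w ≤ q.w ∧ q.a ≤ q'.a ∧ q'.b ≤ q.b ∧
      ∀ x ∈ K ∩ q.ln, (x ∈ q'.ln ↔ q.ht x ∈ Set.Icc u u') := by
  obtain ⟨⟨x₀, hx₀, e₀⟩, -, κ, hκ, k1⟩ := hu
  obtain ⟨⟨x₁, hx₁, e₁⟩, -, κ', hκ', k2⟩ := hu'
  have he := S.ok.e
  have hw := S.ok.w
  have m0 := S.ht_mem hx₀
  have m1 := S.ht_mem hx₁
  rw [e₀] at m0
  rw [e₁] at m1
  obtain ⟨a, a1, a2⟩ := exists_rat_btwn (max_lt m0.1 (show u - κ / 2 < u by linarith))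
  obtain ⟨b, b1, b2⟩ := exists_rat_btwn (lt_min m1.2 (show u' < u' + κ' / 2 by linarith))
  obtain ⟨e, c1, c2⟩ := exists_rat_btwn
    (lt_min he (lt_min (show 0 < κ / 16 by linarith) (show 0 < κ' / 16 by linarith)))
  obtain ⟨w, d1, d2⟩ := exists_rat_btwn (lt_min hw c1)
  rw [max_lt_iff] at a1
  rw [lt_min_iff] at b2 d2
  rw [lt_min_iff, lt_min_iff] at c2
  have key : ∀ z ∈ K, (co q.p q.d z).re = 0 → q.ht z ∈ Set.Icc (a - 4 * e : ℝ) (b + 4 * e) →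
      q.ht z ∈ Set.Icc u u' := fun z hz h1 h2 => by
    have h3 := S.gap z hz h1 ⟨by linarith [h2.1, a1.1, c2.1], by linarith [h2.2, b2.1, c2.1]⟩
    have h4 : q.ht z ∈ q.hs K := ⟨z, ⟨hz, h1, Set.Ioo_subset_Icc_self h3⟩, rfl⟩
    constructor
    · by_contra hc
      have := k1 _ h4 (by linarith [not_le.1 hc])
      linarith [h2.1, a1.2, c2.2.1]
    · by_contra hc
      have := k2 _ h4 (by linarith [not_le.1 hc])
      linarith [h2.2, b2.2, c2.2.2]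
  refine ⟨⟨q.p, q.d, w, a, b, e⟩, ⟨⟨S.ok.ne, d1, c1, (a2.trans h).trans b1, fun z hz => S.ok.sub ?_,
    ?_⟩, S.cht, S.dis, d2.2.le, ?_, ?_, ?_, fun z hz h1 h2 => ?_, x₀, hx₀.1, hx₀.2.1, ?_⟩, rfl, rfl,
    d2.1.le, a1.1.le, b2.1.le, fun x hx => ⟨fun h1 => key x hx.1 hx.2.1 ?_, fun h1 => ⟨hx.2.1, ?_⟩⟩⟩
  · obtain ⟨z1, z2, z3⟩ := hz
    simp only at z1 z2 z3
    exact ⟨by linarith [d2.1], by linarith [a1.1, c2.1], by linarith [b2.1, c2.1]⟩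
  · intro y hy
    simp only [Set.mem_insert_iff, Set.mem_singleton_iff] at hy
    rcases hy with h1 | h1 | h1 | h1 | h1 | h1 | h1 | h1
    · exact S.ok.rat y (by simp [h1])
    · exact S.ok.rat y (by simp [h1])
    · exact S.ok.rat y (by simp [h1])
    · exact S.ok.rat y (by simp [h1])
    · exact ⟨w, h1⟩
    · exact ⟨a, h1⟩
    · exact ⟨b, h1⟩
    · exact ⟨e, h1⟩
  · change 20 * (w : ℝ) ≤ r
    linarith [S.wr, d2.1]
  · change -(r / 4) ≤ (a : ℝ) - 4 * e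
    linarith [S.lo, a1.1, c2.1]
  · change (b : ℝ) + 4 * e ≤ r / 4
    linarith [S.hi, b2.1, c2.1]
  · have h3 := key z hz h1 h2
    exact ⟨a2.trans_le h3.1, h3.2.trans_lt b1⟩
  · change q.ht x₀ ∈ Set.Icc (a : ℝ) b
    rw [e₀]
    exact ⟨a2.le, (h.trans b1).le⟩
  · have h2 : q.ht x ∈ Set.Icc (a : ℝ) b := h1.2
    exact ⟨by linarith [h2.1], by linarith [h2.2]⟩
  · exact ⟨a2.le.trans h1.1, h1.2.trans b1.le⟩

lemma t18sub_one (A : Lam Γ K Φ V) (S : Sec Γ K Φ V q r) (S' : Sec Γ K Φ V q' r)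
    (hl : q'.ln ⊆ q.ln) {x : ℍ} (hx : x ∈ K ∩ q.ln) {t : ℝ} (ht : |t| ≤ 3 * q'.w) {δ : Γ}
    (hδ : ((δ • Φ t x : ℍ) : ℂ) ∈ q'.supp) : δ = 1 ∧ x ∈ q'.ln := by
  have hw := S'.ok.w
  have hwr := S'.wr
  obtain ⟨s, h5, h6, -⟩ := t9ret_hit A S' (A.smul _ _ (A.map _ _ hx.1)) hδ
  rw [t9ret_flow A hx.1] at h6
  have h7 := abs_le.1 (h5.trans (mul_le_mul_of_nonneg_left hδ.1 (by norm_num)))
  have h8 := abs_le.1 ht
  have h9 := t9ret_sep0 A S hx (u := s + t) (abs_le.2 ⟨by linarith, by linarith⟩) (hl h6)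
  rw [h9, A.zero x hx.1] at h6
  have h10 : δ = 1 := t9ret_uniq S (hl h6) (by rw [one_smul]; exact hx.2)
  rw [h10, one_smul] at h6
  exact ⟨h10, h6⟩

lemma Ret.split_sub (F : Deck Γ) (A : Lam Γ K Φ V) (S : Sec Γ K Φ V q r) (S' : Sec Γ K Φ V q' r)
    (H : Ret K Φ q τ g R τ₁ τ₂ ε₁) (hl : q'.ln ⊆ q.ln) {x : ℍ} (hx : x ∈ K ∩ q.ln) :
    (∫ t in (0 : ℝ)..τ x, fam Γ q' 0 (Φ t x) = (∫ t in (0 : ℝ)..3 * q'.w, q'.fn 0 (Φ t x)) +
      ∫ t in -(3 * q'.w)..0, q'.fn 0 (Φ t (R x))) ∧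
    (x ∉ q'.ln → ∀ t, |t| ≤ 3 * q'.w → q'.fn 0 (Φ t x) = 0) := by
  have hr := S.cht.pos
  have hw := S'.ok.w
  have hwr := S'.wr
  refine ⟨?_, fun h t ht => S'.ok.fn_zero 0 fun h' =>
    h (t18sub_one A S S' hl hx ht (δ := (1 : Γ)) (by rwa [one_smul])).2⟩
  have hy := H.map x hx
  have e : (g x)⁻¹ • Φ (τ x) x = R x := by rw [H.hit x hx, inv_smul_smul]
  have h0 : 0 < τ x := H.lo.trans_le (H.bd x hx).1
  have h1 : r / 2 ≤ τ x := by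
    by_contra hc
    have := t9ret_sep0 A S hx (u := τ x) (abs_le.2 ⟨by linarith, by linarith⟩) (e ▸ hy.2)
    linarith
  have hc := t9ret_contφ A hx.1 (S'.ok.pot F 0).smooth.continuousOn
  have i1 : ∫ t in (0 : ℝ)..3 * q'.w, fam Γ q' 0 (Φ t x) =
      ∫ t in (0 : ℝ)..3 * q'.w, q'.fn 0 (Φ t x) := by
    refine intervalIntegral.integral_congr fun t ht => ?_
    rw [Set.uIcc_of_le (by linarith)] at ht
    have h4 := S'.ok.fam_eq 0 (δ := (1 : Γ)) (z := Φ t x) fun δ hδ =>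
      (t18sub_one A S S' hl hx (abs_le.2 ⟨by linarith [ht.1], ht.2⟩) hδ).1
    rw [one_smul] at h4
    exact h4
  have i2 : ∫ t in (3 * q'.w)..(τ x - 3 * q'.w), fam Γ q' 0 (Φ t x) = 0 := by
    rw [← intervalIntegral.integral_zero (a := 3 * q'.w) (b := τ x - 3 * q'.w) (μ := volume)]
    refine intervalIntegral.integral_congr fun t ht => ?_
    rw [Set.uIcc_of_le (by linarith)] at ht
    have h4 : ∀ δ : Γ, ((δ • Φ t x : ℍ) : ℂ) ∉ q'.supp := by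
      intro δ hδ
      obtain ⟨s, h5, h6, -⟩ := t9ret_hit A S' (A.smul _ _ (A.map _ _ hx.1)) hδ
      rw [t9ret_flow A hx.1] at h6
      have h7 := abs_le.1 (h5.trans (mul_le_mul_of_nonneg_left hδ.1 (by norm_num)))
      exact H.first x hx (s + t) ⟨by linarith [ht.1], by linarith [ht.2]⟩ δ (hl h6)
    exact (S'.ok.fam_eq 0 (δ := (1 : Γ)) fun δ hδ => absurd hδ (h4 δ)).trans
      (S'.ok.fn_zero 0 (h4 1))
  have i3 : ∫ t in (τ x - 3 * q'.w)..τ x, fam Γ q' 0 (Φ t x) =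
      ∫ t in -(3 * q'.w)..0, q'.fn 0 (Φ t (R x)) := by
    have h4 := intervalIntegral.integral_comp_add_right (a := -(3 * q'.w)) (b := 0)
      (fun t => fam Γ q' 0 (Φ t x)) (τ x)
    rw [zero_add, neg_add_eq_sub] at h4
    rw [← h4]
    refine intervalIntegral.integral_congr fun t ht => ?_
    rw [Set.uIcc_of_le (by linarith)] at ht
    have h5 : Φ t (R x) = (g x)⁻¹ • Φ (t + τ x) x := by rw [← e, t9ret_flow A hx.1]
    simp only [h5]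
    refine S'.ok.fam_eq 0 fun δ hδ => ?_
    have h6 := (t18sub_one A S S' hl hy (t := t) (abs_le.2 ⟨ht.1, by linarith [ht.2]⟩)
      (δ := δ * g x) (by rw [h5, mul_smul, smul_inv_smul]; exact hδ)).1
    exact eq_inv_of_mul_eq_one_left h6
  rw [← intervalIntegral.integral_add_adjacent_intervals (hc.intervalIntegrable 0 (3 * q'.w))
      (hc.intervalIntegrable _ (τ x)),
    ← intervalIntegral.integral_add_adjacent_intervals
      (hc.intervalIntegrable (3 * q'.w) (τ x - 3 * q'.w)) (hc.intervalIntegrable _ (τ x)),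
    i1, i2, i3, zero_add]

end Pool.Agent.Lib.MP_5bb885_an.Gen
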