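import Pool.Agent.Lib.MP_5bb885_an.T18Glue1
import Pool.Agent.Lib.MP_5bb885_an.T18Sub

/-!
Test functions of sub-intervals of a transversal.
-/

namespace Pool.Agent.Lib.MP_5bb885_an.Gen

open UpperHalfPlane MeasureTheory Filter Topology

variable {Γ : Type} [Group Γ] [MulAction Γ ℍ] {K : Set ℍ} {Φ : ℝ → ℍ → ℍ} {V : ℍ → ℂ} {q q' : Bx}
  {r τ₁ τ₂ ε₁ : ℝ} {τ : ℍ → ℝ} {g : ℍ → Γ} {R : ℍ → ℍ}

lemma t18glue2_le_one (q : Bx) (z : ℂ) : q.fn 0 z ≤ 1 := by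
  rw [Bx.fn_eq]
  simp only [Bx.md, Matrix.cons_val_zero, mul_one]
  exact mul_le_one₀ (cut_le_one _ _ _ _) (cut_nonneg _ _ _ _) (cut_le_one _ _ _ _)

lemma t18glue2_point (A : Lam Γ K Φ V) (S : Sec Γ K Φ V q r) {C Λ : ℝ} (hC : 0 ≤ C) (hΛ : 0 ≤ Λ)
    (hl : ∀ y y', |cut (-q.w) q.w q.w y - cut (-q.w) q.w q.w y'| ≤ Λ / q.w * |y - y'|)
    {x y : ℍ} (hx : x ∈ K ∩ q.ln) (hy : y ∈ K ∩ q.ln) {t : ℝ} (ht : |t| ≤ 3 * q.w)
    (hloc : ‖(Φ t x : ℂ) - Φ t y - (x - y)‖ ≤ C * |t| * ‖(x : ℂ) - y‖) :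
    |q.fn 0 (Φ t x) - q.fn 0 (Φ t y)| ≤ 3 * Λ * C * |q.ht x - q.ht y| := by
  have hw := S.ok.w
  have mx := t9sig_move A S hx ht
  have my := t9sig_move A S hy ht
  rw [Bx.fn_eq, Bx.fn_eq, cut_eq_one S.ok.e mx.2, cut_eq_one S.ok.e my.2]
  simp only [Bx.md, Matrix.cons_val_zero, mul_one]
  obtain ⟨δ, hδ⟩ : ∃ δ, δ = q.ht x - q.ht y := ⟨_, rfl⟩
  rw [← hδ]
  have hd : 0 < ‖q.d‖ := norm_pos_iff.2 S.ok.ne
  have e1 : ((x : ℂ) - y) / q.d = δ * Complex.I := by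
    rw [← co_sub q.p]
    apply Complex.ext
    · simp [hx.2.1, hy.2.1]
    · simp [hδ, Bx.ht]
  have e2 : ‖(x : ℂ) - y‖ / ‖q.d‖ = |δ| := by
    rw [← norm_div, e1, norm_mul, Complex.norm_I, mul_one, Complex.norm_real, Real.norm_eq_abs]
  have e3 : ‖co q.p q.d (Φ t x) - co q.p q.d (Φ t y) - δ * Complex.I‖ ≤ C * |t| * |δ| := by
    rw [co_sub, ← e1, ← sub_div, norm_div, ← e2, ← mul_div_assoc]
    exact div_le_div_of_nonneg_right hloc hd.le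
  have hre := (Complex.abs_re_le_norm _).trans e3
  simp only [Complex.sub_re, Complex.mul_re, Complex.ofReal_re, Complex.I_re, mul_zero,
    Complex.ofReal_im, Complex.I_im, zero_mul, sub_zero] at hre
  refine (hl _ _).trans ?_
  calc _ ≤ Λ / q.w * (C * (3 * q.w) * |δ|) := by
        gcongr
        exact hre.trans (by gcongr)
    _ = 3 * Λ * C * |δ| := by field_simp

lemma t18glue2_int {f f' : ℝ → ℝ} (hf : Continuous f) (hf' : Continuous f') {a b c : ℝ}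
    (hab : a ≤ b) (h : ∀ t ∈ Set.Icc a b, |f t - f' t| ≤ c) :
    |(∫ t in a..b, f t) - ∫ t in a..b, f' t| ≤ c * (b - a) := by
  rw [← intervalIntegral.integral_sub (hf.intervalIntegrable _ _) (hf'.intervalIntegrable _ _)]
  have h1 := intervalIntegral.norm_integral_le_of_norm_le_const (a := a) (b := b) (C := c)
    (f := fun t => f t - f' t) fun t ht => by
      rw [Set.uIoc_of_le hab] at ht
      exact h t ⟨ht.1.le, ht.2⟩
  rwa [Real.norm_eq_abs, abs_of_nonneg (sub_nonneg.2 hab)] at h1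

lemma t18glue2_bd (A : Lam Γ K Φ V) {x : ℍ} (hx : x ∈ K) (q : Bx) {a b : ℝ} (hab : a ≤ b) :
    0 ≤ ∫ t in a..b, q.fn 0 (Φ t x) ∧ ∫ t in a..b, q.fn 0 (Φ t x) ≤ b - a := by
  refine ⟨intervalIntegral.integral_nonneg hab fun t _ => q.fn_nonneg _, ?_⟩
  have h1 := intervalIntegral.integral_mono_on hab
    ((t9sig_cont_fn A hx q 0).intervalIntegrable (μ := volume) a b)
    ((continuous_const (y := (1 : ℝ))).intervalIntegrable a b) fun t _ => t18glue2_le_one q _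
  rwa [intervalIntegral.integral_const, smul_eq_mul, mul_one] at h1

lemma t18glue2_low (A : Lam Γ K Φ V) (S : Sec Γ K Φ V q r) {x : ℍ} (hx : x ∈ K ∩ q.ln) :
    q.w ≤ (∫ t in (0 : ℝ)..3 * q.w, q.fn 0 (Φ t x)) + ∫ t in -(3 * q.w)..0, q.fn 0 (Φ t x) := by
  have hw := S.ok.w
  have cx := t9sig_cont_fn A hx.1 q 0
  have one : ∀ t, |t| ≤ 9 / 10 * q.w → 1 ≤ q.fn 0 (Φ t x) := fun t h0 => by
    have h1 := t9sig_move A S hx (t := t) (by linarith)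
    rw [S.ok.fn_core 0 (h1.1.trans (by linarith)) h1.2]
    simp [Bx.md]
  rw [← intervalIntegral.integral_add_adjacent_intervals (a := 0) (b := 9 / 10 * q.w)
    (cx.intervalIntegrable _ _) (cx.intervalIntegrable _ _),
    ← intervalIntegral.integral_add_adjacent_intervals (c := 0) (b := -(9 / 10 * q.w))
    (cx.intervalIntegrable _ _) (cx.intervalIntegrable _ _)]
  have i1 := t9sig_lb cx (a := 0) (b := 9 / 10 * q.w) (c := 1) (by linarith) fun t ht =>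
    one t (abs_le.2 ⟨by linarith [ht.1], ht.2⟩)
  have i2 := t9sig_lb cx (a := -(9 / 10 * q.w)) (b := 0) (c := 1) (by linarith) fun t ht =>
    one t (abs_le.2 ⟨ht.1, by linarith [ht.2]⟩)
  have i3 := (t18glue2_bd A hx.1 q (a := 9 / 10 * q.w) (b := 3 * q.w) (by linarith)).1
  have i4 := (t18glue2_bd A hx.1 q (a := -(3 * q.w)) (b := -(9 / 10 * q.w)) (by linarith)).1
  linarith

lemma t18glue2_sum (P M : ℕ → ℝ) (k : ℕ) : ∑ j ∈ Finset.range k, (P j + M (j + 1)) =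
    ∑ j ∈ Finset.range k, (P j + M j) + M k - M 0 := by
  induction k with
  | zero => simp
  | succ k ih =>
    rw [Finset.sum_range_succ, Finset.sum_range_succ, ih]
    ring

/-- The inequality for pseudo-orbits in the height coordinate. -/
lemma t18glue2_tk (F : Deck Γ) (A : Lam Γ K Φ V) (S : Sec Γ K Φ V q r)
    (H : Ret K Φ q τ g R τ₁ τ₂ ε₁) {φ : ℂ → ℝ} (hφ : C2 Γ φ) {ρ : ℝ}
    (hT : TDK K Φ (0 : Γ → ℝ) φ ρ) {P M : ℍ → ℝ} {D d L : ℝ} (hd : 0 < d) (hL : 0 ≤ L)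
    (hs : ∀ x ∈ K ∩ q.ln, ∫ t in (0 : ℝ)..τ x, φ (Φ t x) = P x + M (R x))
    (hM : ∀ x ∈ K ∩ q.ln, |M x| ≤ D)
    (hl : ∀ x ∈ K ∩ q.ln, ∀ y ∈ K ∩ q.ln, |q.ht x - q.ht y| ≤ d →
      |M x - M y| ≤ L * |q.ht x - q.ht y|) :
    TK (q.hs K) (q.rm R) fun x => (P (q.pt x) + M (q.pt x)) + ρ * τ (q.pt x) := by
  obtain ⟨ρ₀, hρ₀⟩ := S.isCompact_ln.isBounded.subset_closedBall I
  obtain ⟨Cd, hCd, hdist⟩ := S.dist_le
  obtain ⟨C, s₀, δ₀, hC, hs₀, hδ₀, hh⟩ := hT τ₁ H.lo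
  obtain ⟨x₀, hx₀⟩ := S.ne
  have τ0 : 0 ≤ τ₂ := H.lo.le.trans ((H.bd x₀ hx₀).1.trans (H.bd x₀ hx₀).2)
  have ρ0 : 0 ≤ ρ₀ := dist_nonneg.trans (hρ₀ hx₀.2)
  have D0 : 0 ≤ D := (abs_nonneg _).trans (hM x₀ hx₀)
  have p1 : 0 ≤ C * Cd ^ 2 := by positivity
  have p2 : 0 ≤ C * Cd + L := by positivity
  have p3 : 0 ≤ C * τ₂ := by positivity
  have p4 : 0 ≤ C * (2 * ρ₀) + s₀ * (2 * D) := by positivity
  refine ⟨C * Cd ^ 2 + (C * Cd + L) + C * τ₂ + (C * (2 * ρ₀) + s₀ * (2 * D)), s₀,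
    min d (δ₀ / Cd), by positivity, hs₀, lt_min hd (by positivity), fun s hs' => ?_⟩
  obtain ⟨h, he, hlip, hmain⟩ := hh s hs'
  refine ⟨fun y => h (q.pt y) - s * M (q.pt y), fun z hz w hw => ?_, fun z hz w hw k hk hc => ?_⟩
  · have a1 := (S.pt_mem hz).1
    have a2 := (S.pt_mem hw).1
    have b1 := hlip (q.pt z) (q.pt w)
    have b2 : dist (q.pt z) (q.pt w) ≤ 2 * ρ₀ := by
      have c1 : dist (q.pt z) I ≤ ρ₀ := hρ₀ a1.2
      have c2 : dist (q.pt w) I ≤ ρ₀ := hρ₀ a2.2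
      linarith [dist_triangle_right (q.pt z) (q.pt w) I]
    have b3 : |s * (M (q.pt w) - M (q.pt z))| ≤ s₀ * (2 * D) := by
      rw [abs_mul]
      gcongr
      linarith [abs_sub (M (q.pt w)) (M (q.pt z)), hM _ a1, hM _ a2]
    have b4 := mul_le_mul_of_nonneg_left b2 hC
    have b5 := (abs_le.1 b3).2
    simp only
    linarith
  · obtain ⟨a1, e1⟩ := S.pt_mem hz
    obtain ⟨a2, e2⟩ := S.pt_mem hw
    obtain ⟨z', hz'⟩ : ∃ z', z' = q.pt z := ⟨_, rfl⟩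
    obtain ⟨w', hw'⟩ : ∃ w', w' = q.pt w := ⟨_, rfl⟩
    rw [← hz'] at a1 e1
    rw [← hw'] at a2 e2
    have it : ∀ j, (q.rm R)^[j] z = q.ht (R^[j] z') := fun j => by
      rw [← e1]
      exact H.rm_iter S a1 j
    have a3 := H.iter a1 k
    rw [it k] at hc ⊢
    rw [← e2] at hc
    have hc1 := hc.trans (min_le_left _ _)
    have hc2 := (le_div_iff₀ hCd).1 (hc.trans (min_le_right _ _))
    have b1 := hdist _ a3.2 _ a2.2
    have k1 : (1 : ℝ) ≤ k := by exact_mod_cast hk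
    have tb := H.tk_bd a1 k
    have ed : dist (Φ (tk τ R z' k) z') (Gk g R z' k • w') = dist (R^[k] z') w' := by
      rw [H.flow A a1 k, F.iso]
    have m := hmain z' a1.1 (Gk g R z' k • w') (A.smul _ _ a2.1) (tk τ R z' k)
      (by nlinarith [H.lo, tb.1]) (by rw [ed]; linarith)
    rw [ed, he, H.integral A a1 hφ, Finset.sum_congr rfl fun j _ => hs _ (H.iter a1 j)] at m
    simp only [smul_zero, Pi.zero_apply, add_zero, ← Function.iterate_succ_apply' R] at m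
    rw [t18glue2_sum (fun j => P (R^[j] z')) (fun j => M (R^[j] z'))] at m
    have eS : SJ (fun x => (P (q.pt x) + M (q.pt x)) + ρ * τ (q.pt x)) (q.rm R) z k =
        ∑ j ∈ Finset.range k, (P (R^[j] z') + M (R^[j] z')) + ρ * tk τ R z' k := by
      unfold SJ tk
      rw [Finset.mul_sum, ← Finset.sum_add_distrib]
      refine Finset.sum_congr rfl fun j _ => ?_
      simp only [it j, S.pt_ht (H.iter a1 j).2]
    simp only [← hz', ← hw']
    rw [eS, ← e2]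
    obtain ⟨δ, hδ⟩ : ∃ δ, δ = q.ht (R^[k] z') - q.ht w' := ⟨_, rfl⟩
    have b2 := hl _ a3 _ a2 hc1
    rw [← hδ] at b1 b2 ⊢
    have b3 : |s * (M (R^[k] z') - M w')| ≤ |s| * (L * |δ|) := by
      rw [abs_mul]
      gcongr
    have b4 := (abs_le.1 b3).2
    have b5 : C * dist (R^[k] z') w' ^ 2 ≤ C * Cd ^ 2 * δ ^ 2 := by
      rw [mul_assoc, ← sq_abs δ, ← mul_pow]
      gcongr
    have b6 : C * |s| * dist (R^[k] z') w' ≤ C * |s| * (Cd * |δ|) := by gcongr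
    have b7 : C * s ^ 2 * tk τ R z' k ≤ C * s ^ 2 * (k * τ₂) := by
      gcongr
      exact tb.2
    have n1 : 0 ≤ δ ^ 2 := sq_nonneg _
    have n2 : 0 ≤ |s| * |δ| := by positivity
    have n3 : 0 ≤ s ^ 2 * k := by positivity
    simp only [Function.iterate_zero, id] at m
    generalize C * (2 * ρ₀) + s₀ * (2 * D) = c4 at *
    nlinarith [mul_nonneg p2 n1, mul_nonneg p3 n1, mul_nonneg p4 n1, mul_nonneg p1 n2,
      mul_nonneg p3 n2, mul_nonneg p4 n2, mul_nonneg p1 n3, mul_nonneg p2 n3, mul_nonneg p4 n3]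

theorem Ret.tk_sub (F : Deck Γ) (A : Lam Γ K Φ V) (S : Sec Γ K Φ V q r)
    (H : Ret K Φ q τ g R τ₁ τ₂ ε₁)
    (h : ∀ q : Bx, q.Ok → ∀ j, ∃ ρ, TDK K Φ (0 : Γ → ℝ) (fam Γ q j) ρ) : ∃ Λ : ℝ, 0 ≤ Λ ∧
      ∀ u u' : ℝ, u < u' → Iso (q.hs K) u (-1) → Iso (q.hs K) u' 1 →
        ∃ (w ρ : ℝ) (B : ℝ → ℝ), 0 < w ∧ (∀ x ∈ q.hs K, x ∉ Set.Icc u u' → B x = 0) ∧
          (∀ x ∈ q.hs K, x ∈ Set.Icc u u' → B x ∈ Set.Icc w (6 * w)) ∧
          (∀ x ∈ q.hs K, ∀ y ∈ q.hs K, x ∈ Set.Icc u u' → y ∈ Set.Icc u u' →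
            |B x - B y| ≤ Λ * w * |x - y|) ∧
          TK (q.hs K) (q.rm R) fun x => B x + ρ * τ (q.pt x) := by
  obtain ⟨ρ₀, hρ₀⟩ := S.isCompact_ln.isBounded.subset_closedBall I
  obtain ⟨C, hC, hloc⟩ := A.loc ρ₀ r
  obtain ⟨Λ, hΛ, hcut⟩ := cut_lip
  refine ⟨18 * Λ * C, by positivity, fun u u' huu hu hu' => ?_⟩
  obtain ⟨q', S', ep, ed, -, ha, hb, hiff⟩ := S.exists_sub huu hu hu'
  have eh : ∀ x, q'.ht x = q.ht x := fun x => by rw [Bx.ht, Bx.ht, ep, ed]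
  have hl : q'.ln ⊆ q.ln := fun x hx => by
    refine ⟨by rw [← ep, ← ed]; exact hx.1, ?_⟩
    rw [← eh]
    exact ⟨ha.trans hx.2.1, hx.2.2.trans hb⟩
  obtain ⟨ρ, hT⟩ := h q' S'.ok 0
  have hw := S'.ok.w
  have hwr := S'.wr
  obtain ⟨P, hP⟩ : ∃ P : ℍ → ℝ, P = fun x => ∫ t in (0 : ℝ)..3 * q'.w, q'.fn 0 (Φ t x) := ⟨_, rfl⟩
  obtain ⟨M, hM⟩ : ∃ M : ℍ → ℝ, M = fun x => ∫ t in -(3 * q'.w)..0, q'.fn 0 (Φ t x) := ⟨_, rfl⟩
  have out : ∀ x ∈ K ∩ q.ln, q.ht x ∉ Set.Icc u u' → P x = 0 ∧ M x = 0 := fun x hx ho => by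
    have h0 := (H.split_sub F A S S' hl hx).2 fun h1 => ho ((hiff x hx).1 h1)
    rw [hP, hM]
    constructor
    · refine (intervalIntegral.integral_congr (g := fun _ => 0) fun t ht => ?_).trans (by simp)
      rw [Set.uIcc_of_le (by linarith)] at ht
      exact h0 t (abs_le.2 ⟨by linarith [ht.1], ht.2⟩)
    · refine (intervalIntegral.integral_congr (g := fun _ => 0) fun t ht => ?_).trans (by simp)
      rw [Set.uIcc_of_le (by linarith)] at ht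
      exact h0 t (abs_le.2 ⟨ht.1, by linarith [ht.2]⟩)
  have lip : ∀ x ∈ K ∩ q.ln, ∀ y ∈ K ∩ q.ln, q.ht x ∈ Set.Icc u u' → q.ht y ∈ Set.Icc u u' →
      |P x - P y| ≤ 9 * Λ * C * q'.w * |q.ht x - q.ht y| ∧
      |M x - M y| ≤ 9 * Λ * C * q'.w * |q.ht x - q.ht y| := fun x hx y hy h1 h2 => by
    have pt : ∀ t, |t| ≤ 3 * q'.w →
        |q'.fn 0 (Φ t x) - q'.fn 0 (Φ t y)| ≤ 3 * Λ * C * |q.ht x - q.ht y| := fun t ht => by
      rw [← eh, ← eh]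
      exact t18glue2_point A S' hC hΛ.le (hcut _ _ _ hw).2 ⟨hx.1, (hiff x hx).2 h1⟩
        ⟨hy.1, (hiff y hy).2 h2⟩ ht
        (hloc x hx.1 y hy.1 (hρ₀ hx.2) (hρ₀ hy.2) t (by linarith)).2
    have cx := t9sig_cont_fn A hx.1 q' 0
    have cy := t9sig_cont_fn A hy.1 q' 0
    rw [hP, hM]
    constructor
    · refine (t18glue2_int cx cy (by linarith) fun t ht =>
        pt t (abs_le.2 ⟨by linarith [ht.1], ht.2⟩)).trans (le_of_eq (by ring))
    · refine (t18glue2_int cx cy (by linarith) fun t ht =>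
        pt t (abs_le.2 ⟨ht.1, by linarith [ht.2]⟩)).trans (le_of_eq (by ring))
  have bP : ∀ x ∈ K, 0 ≤ P x ∧ P x ≤ 3 * q'.w := fun x hx => by
    have := t18glue2_bd A hx q' (a := 0) (b := 3 * q'.w) (by linarith)
    rw [hP]
    exact ⟨this.1, by linarith [this.2]⟩
  have bM : ∀ x ∈ K, 0 ≤ M x ∧ M x ≤ 3 * q'.w := fun x hx => by
    have := t18glue2_bd A hx q' (a := -(3 * q'.w)) (b := 0) (by linarith)
    rw [hM]
    exact ⟨this.1, by linarith [this.2]⟩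
  refine ⟨q'.w, ρ, fun y => P (q.pt y) + M (q.pt y), hw, fun x hx ho => ?_, fun x hx hi => ?_,
    fun x hx y hy h1 h2 => ?_, ?_⟩
  · obtain ⟨a1, e1⟩ := S.pt_mem hx
    have := out _ a1 (by rwa [e1])
    simp only [this.1, this.2, add_zero]
  · obtain ⟨a1, e1⟩ := S.pt_mem hx
    have h1 := t18glue2_low A S' ⟨a1.1, (hiff _ a1).2 (by rwa [e1])⟩
    refine ⟨?_, by linarith [(bP _ a1.1).2, (bM _ a1.1).2]⟩
    rw [hP, hM]
    exact h1
  · obtain ⟨a1, e1⟩ := S.pt_mem hx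
    obtain ⟨a2, e2⟩ := S.pt_mem hy
    have h3 := lip _ a1 _ a2 (by rwa [e1]) (by rwa [e2])
    rw [e1, e2] at h3
    have h4 := abs_add_le (P (q.pt x) - P (q.pt y)) (M (q.pt x) - M (q.pt y))
    simp only
    rw [show P (q.pt x) + M (q.pt x) - (P (q.pt y) + M (q.pt y)) =
      P (q.pt x) - P (q.pt y) + (M (q.pt x) - M (q.pt y)) by ring]
    linarith [h3.1, h3.2]
  · obtain ⟨-, -, κ, hκ, h1⟩ := hu
    obtain ⟨-, -, κ', hκ', h2⟩ := hu'
    have key : ∀ x ∈ K ∩ q.ln, ∀ y ∈ K ∩ q.ln, |q.ht x - q.ht y| ≤ min κ κ' / 2 →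
        q.ht x ∈ Set.Icc u u' → q.ht y ∈ Set.Icc u u' := fun x hx y hy hd hi => by
      have m1 := min_le_left κ κ'
      have m2 := min_le_right κ κ'
      have m3 := abs_le.1 hd
      have my : q.ht y ∈ q.hs K := ⟨y, hy, rfl⟩
      constructor
      · by_contra hn
        have := h1 _ my (by linarith [not_le.1 hn])
        linarith [hi.1, m3.2]
      · by_contra hn
        have := h2 _ my (by linarith [not_le.1 hn])
        linarith [hi.2, m3.1]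
    refine t18glue2_tk F A S H (S'.ok.pot F 0).c2 hT (D := 3 * q'.w) (d := min κ κ' / 2)
      (L := 9 * Λ * C * q'.w) (by have := lt_min hκ hκ'; linarith) (by positivity)
      (fun x hx => ?_) (fun x hx => ?_) fun x hx y hy hd => ?_
    · rw [hP, hM]
      exact (H.split_sub F A S S' hl hx).1
    · rw [abs_of_nonneg (bM x hx.1).1]
      exact (bM x hx.1).2
    · by_cases hi : q.ht x ∈ Set.Icc u u'
      · exact (lip x hx y hy hi (key x hx y hy hd hi)).2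
      · have hj : q.ht y ∉ Set.Icc u u' := fun hj => hi (key y hy x hx (by rwa [abs_sub_comm]) hj)
        rw [(out x hx hi).2, (out y hy hj).2, sub_zero, abs_zero]
        positivity

end Pool.Agent.Lib.MP_5bb885_an.Gen
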