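import Pool.Agent.Lib.MP_5bb885_an.T18Defs

/-!
Very close returns force a rational rotation vector.
-/

namespace Pool.Agent.Lib.MP_5bb885_an.Gen

open UpperHalfPlane MeasureTheory Filter Topology

variable {Γ : Type} [Group Γ] [MulAction Γ ℍ] {K : Set ℍ} {Φ : ℝ → ℍ → ℍ} {V : ℍ → ℂ} {q : Bx}
  {r τ₁ τ₂ ε₁ : ℝ} {τ : ℍ → ℝ} {g : ℍ → Γ} {R : ℍ → ℍ}

lemma t18lat_bound {C x y u w m : ℝ} {a b : ℕ} (hab : a < b) (hm : 1 ≤ m) (hu : 0 ≤ u)
    (hu2 : u ≤ 2 * m) (hw : m ≤ w) (hx : |x| ≤ |C| * u ^ a) (hy : |y| ≤ |C| / w ^ b) :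
    ‖x * y‖ ≤ 2 ^ a * |C| * |C| / m := by
  have hm0 : 0 < m := by linarith
  have hw0 : 0 < w := by linarith
  have h1 : m ^ (a + 1) ≤ w ^ b :=
    (pow_le_pow_right₀ hm hab).trans (pow_le_pow_left₀ hm0.le hw b)
  rw [Real.norm_eq_abs, abs_mul]
  calc |x| * |y| ≤ |C| * u ^ a * (|C| / w ^ b) :=
        mul_le_mul hx hy (abs_nonneg _) (by positivity)
    _ ≤ |C| * (2 * m) ^ a * (|C| / m ^ (a + 1)) := by gcongr
    _ = _ := by
        rw [mul_pow, pow_succ]
        field_simp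

theorem lattice' {n : ℕ} {ρ : Fin n → ℝ} {v : ℕ → Fin n → ℤ} {T : ℕ → ℝ} {τ₁ C : ℝ} {a b : ℕ}
    (hab : a < b) (hτ : 0 < τ₁) (h : ∀ᶠ m : ℕ in atTop, τ₁ ≤ T m ∧ T m ≤ C * m ^ a ∧
      ∀ i, |v m i - ρ i * T m| ≤ C / m ^ b) : ∃ (μ : ℝ) (m : ℕ), ∀ i, ρ i = μ * v m i := by
  by_cases hρ : ∀ i, ρ i = 0
  · exact ⟨0, 0, fun i => by rw [hρ, zero_mul]⟩
  obtain ⟨i, hi⟩ := not_forall.1 hρ
  obtain ⟨e, he⟩ : ∃ e : ℕ → Fin n → ℝ, ∀ m i, (v m i : ℝ) = ρ i * T m + e m i :=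
    ⟨fun m i => v m i - ρ i * T m, fun m i => by ring⟩
  have h' : ∀ᶠ m : ℕ in atTop, τ₁ ≤ T m ∧ |T m| ≤ |C| * m ^ a ∧ ∀ i, |e m i| ≤ |C| / m ^ b := by
    filter_upwards [h] with m ⟨h1, h2, h3⟩
    refine ⟨h1, ?_, fun i => ?_⟩
    · rw [abs_of_pos (hτ.trans_le h1)]
      exact h2.trans (by gcongr; exact le_abs_self C)
    · have := h3 i
      rw [he, add_sub_cancel_left] at this
      exact this.trans (by gcongr; exact le_abs_self C)
  have h'' := (tendsto_add_atTop_nat 1).eventually h'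
  have hlim : ∀ B : ℝ, Tendsto (fun m : ℕ => B / m) atTop (𝓝 0) :=
    tendsto_const_div_atTop_nhds_zero_nat
  have e0 : ∀ i, Tendsto (fun m => e m i) atTop (𝓝 0) := fun i => by
    refine squeeze_zero_norm' ?_ (hlim |C|)
    filter_upwards [h', eventually_ge_atTop 1] with m h1 h2
    have hm : (1 : ℝ) ≤ m := by exact_mod_cast h2
    exact (h1.2.2 i).trans (by gcongr; exact le_self_pow₀ hm (by omega))
  have e1 : ∀ i, Tendsto (fun m => e (m + 1) i) atTop (𝓝 0) := fun i =>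
    (e0 i).comp (tendsto_add_atTop_nat 1)
  have e2 : ∀ i, Tendsto (fun m => T m * e (m + 1) i) atTop (𝓝 0) := fun i => by
    refine squeeze_zero_norm' ?_ (hlim (2 ^ a * |C| * |C|))
    filter_upwards [h', h'', eventually_ge_atTop 1] with m h1 h2 h3
    have hm : (1 : ℝ) ≤ m := by exact_mod_cast h3
    exact t18lat_bound hab hm (by positivity) (by linarith) (by push_cast; linarith) h1.2.1
      (h2.2.2 i)
  have e3 : ∀ i, Tendsto (fun m => T (m + 1) * e m i) atTop (𝓝 0) := fun i => by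
    refine squeeze_zero_norm' ?_ (hlim (2 ^ a * |C| * |C|))
    filter_upwards [h', h'', eventually_ge_atTop 1] with m h1 h2 h3
    have hm : (1 : ℝ) ≤ m := by exact_mod_cast h3
    exact t18lat_bound hab hm (by positivity) (by push_cast; linarith) le_rfl h2.2.1 (h1.2.2 i)
  have h1 : ∀ᶠ m in atTop, ∀ j, v m i * v (m + 1) j - v m j * v (m + 1) i = 0 :=
    eventually_all.2 fun j => t9cmb_int (by
      have := ((((((e2 j).const_mul (ρ i)).sub ((e2 i).const_mul (ρ j))).add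
        ((e3 i).const_mul (ρ j))).sub ((e3 j).const_mul (ρ i))).add ((e0 i).mul (e1 j))).sub
        ((e0 j).mul (e1 i))
      simp only [mul_zero, add_zero, sub_zero] at this
      refine this.congr fun m => ?_
      push_cast
      simp only [he]
      ring)
  have h2 : ∀ᶠ m in atTop, v m i ≠ 0 := by
    filter_upwards [h', (e0 i).abs.eventually_lt_const
      (show |(0 : ℝ)| < |ρ i| * τ₁ by simpa using mul_pos (abs_pos.2 hi) hτ)] with m h3 h4 h5
    have h6 : e m i = -(ρ i * T m) := by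
      have := he m i
      rw [h5, Int.cast_zero] at this
      linarith
    rw [h6, abs_neg, abs_mul, abs_of_pos (hτ.trans_le h3.1)] at h4
    exact h4.not_ge (mul_le_mul_of_nonneg_left h3.1 (abs_nonneg _))
  obtain ⟨M, hM⟩ := eventually_atTop.1 (h1.and h2)
  refine ⟨ρ i / v M i, M, fun j => ?_⟩
  set s : ℕ → ℝ := fun m => ρ i * v m j - ρ j * v m i with hs
  have h3 : ∀ m, M ≤ m → s m / v m i = s M / v M i := fun m hm => by
    induction m, hm using Nat.le_induction with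
    | base => rfl
    | succ m hm ih =>
      rw [← ih, div_eq_div_iff (by exact_mod_cast (hM (m + 1) (by omega)).2)
        (by exact_mod_cast (hM m hm).2)]
      simp only [hs]
      have h4 : (v m i : ℝ) * v (m + 1) j - v m j * v (m + 1) i = 0 := by
        exact_mod_cast (hM m hm).1 j
      linear_combination ρ i * h4
  have h4 : Tendsto s atTop (𝓝 0) := by
    have := ((e0 j).const_mul (ρ i)).sub ((e0 i).const_mul (ρ j))
    simp only [mul_zero, sub_zero] at this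
    refine this.congr fun m => ?_
    simp only [hs, he]
    ring
  have h5 : |s M / v M i| ≤ |0| := by
    refine ge_of_tendsto h4.abs ?_
    filter_upwards [eventually_ge_atTop M] with m hm
    rw [← h3 m hm, abs_div]
    refine div_le_self (abs_nonneg _) ?_
    exact_mod_cast Int.one_le_abs (hM m hm).2
  have h6 : (v M i : ℝ) ≠ 0 := by exact_mod_cast (hM M le_rfl).2
  have h7 := (div_eq_zero_iff.1 (abs_nonpos_iff.1 (h5.trans_eq abs_zero))).resolve_right h6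
  simp only [hs] at h7
  field_simp
  linarith

theorem Ret.rat (F : Deck Γ) (A : Lam Γ K Φ V) (S : Sec Γ K Φ V q r)
    (H : Ret K Φ q τ g R τ₁ τ₂ ε₁) (h : ∀ ψ ∈ Coh Γ, ∃ ρ, TDK K Φ ψ 0 ρ) {a b : ℕ}
    (hab : 3 * a < b) {C : ℝ} (hm : ∀ᶠ m : ℕ in atTop, ∃ x ∈ K ∩ q.ln, ∃ k : ℕ, 0 < k ∧
      (k : ℝ) ≤ C * m ^ (2 * a) ∧ |q.ht x - q.ht (R^[k] x)| ≤ C / m ^ b) :
    ∃ (μ : ℝ) (G : Γ), ∀ ψ ∈ Coh Γ, ∀ ρ, TDK K Φ ψ 0 ρ → ρ = μ * ψ G := by
  obtain ⟨n, ψ, hψ, hspan⟩ := F.ints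
  choose ρ hρ using fun i => h _ (hψ i)
  obtain ⟨D, hD, hdist⟩ := S.dist_le
  have hτ := H.lo
  have hd : ∀ z ∈ K ∩ q.ln, ∀ N, dist (Φ (tk τ R z N) z) (Gk g R z N • z) ≤
      D * |q.ht z - q.ht (R^[N] z)| := by
    intro z hz N
    rw [H.flow A hz, F.iso, dist_comm]
    exact hdist z hz.2 _ (H.iter hz N).2
  have hT : ∀ z ∈ K ∩ q.ln, ∀ N, 1 ≤ N → τ₁ ≤ tk τ R z N := by
    intro z hz N hN
    have h1 : (1 : ℝ) ≤ N := by exact_mod_cast hN
    have h2 := (H.tk_bd hz N).1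
    nlinarith
  obtain ⟨z, hz⟩ := S.ne
  have hτ₂ : 0 ≤ τ₂ := hτ.le.trans ((H.bd z hz).1.trans (H.bd z hz).2)
  have hm' : ∀ᶠ m : ℕ in atTop, ∃ y : ℍ × ℕ, y.1 ∈ K ∩ q.ln ∧ 0 < y.2 ∧
      (y.2 : ℝ) ≤ C * m ^ (2 * a) ∧ |q.ht y.1 - q.ht (R^[y.2] y.1)| ≤ C / m ^ b :=
    hm.mono fun m ⟨x, hx, k, hk⟩ => ⟨(x, k), hx, hk⟩
  obtain ⟨y, hy⟩ := hm'.choice
  choose B δ hB0 hδ hB using fun i => (hρ i).loop A hτ
  have hsmall : ∀ᶠ m : ℕ in atTop, ∀ i, D * (|C| / m ^ b) ≤ δ i := by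
    refine eventually_all.2 fun i => ?_
    have h1 : Tendsto (fun m : ℕ => D * (|C| / (m : ℝ) ^ b)) atTop (𝓝 (D * 0)) :=
      (tendsto_const_nhds.div_atTop ((tendsto_pow_atTop (by omega)).comp
        tendsto_natCast_atTop_atTop)).const_mul D
    rw [mul_zero] at h1
    exact h1.eventually (ge_mem_nhds (hδ i))
  obtain ⟨c, rfl⟩ : ∃ c, b = c + a := ⟨b - a, by omega⟩
  obtain ⟨μ, M, hμ⟩ := lattice' (ρ := ρ) (v := fun m i => ψ (Gk g R (y m).1 (y m).2) i)
    (T := fun m => tk τ R (y m).1 (y m).2) (a := 2 * a) (b := c)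
    (C := |C| * τ₂ + (∑ i, B i) * (D * |C|) * (1 + √(|C| * τ₂))) (by omega) hτ (by
      filter_upwards [hy, hsmall, eventually_ge_atTop 1] with m ⟨h1, h2, h3, h4⟩ h5 h6
      have hm1 : (1 : ℝ) ≤ m := by exact_mod_cast h6
      have hm2 : (1 : ℝ) ≤ (m : ℝ) ^ a := one_le_pow₀ hm1
      have hsum : 0 ≤ ∑ i, B i := Finset.sum_nonneg fun i _ => hB0 i
      have h7 := hT _ h1 _ h2
      have h8 : tk τ R (y m).1 (y m).2 ≤ |C| * τ₂ * m ^ (2 * a) := by
        refine (H.tk_bd h1 (y m).2).2.trans ?_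
        have h9 : ((y m).2 : ℝ) ≤ |C| * m ^ (2 * a) :=
          h3.trans (mul_le_mul_of_nonneg_right (le_abs_self C) (by positivity))
        nlinarith
      have h9 : dist (Φ (tk τ R (y m).1 (y m).2) (y m).1) (Gk g R (y m).1 (y m).2 • (y m).1) ≤
          D * (|C| / m ^ (c + a)) :=
        (hd _ h1 _).trans (mul_le_mul_of_nonneg_left (h4.trans
          (div_le_div_of_nonneg_right (le_abs_self C) (by positivity))) hD.le)
      have h10 : 1 + √(tk τ R (y m).1 (y m).2) ≤ (1 + √(|C| * τ₂)) * m ^ a := by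
        have h11 : √(tk τ R (y m).1 (y m).2) ≤ √(|C| * τ₂) * m ^ a := by
          refine (Real.sqrt_le_sqrt h8).trans (le_of_eq ?_)
          rw [Real.sqrt_mul (by positivity), show (m : ℝ) ^ (2 * a) = (m ^ a) ^ 2 by ring,
            Real.sqrt_sq (by positivity)]
        linarith
      refine ⟨h7, h8.trans (mul_le_mul_of_nonneg_right (le_add_of_nonneg_right (by positivity))
        (by positivity)), fun i => ?_⟩
      have h11 := hB i _ h1.1 _ _ h7 (h9.trans (h5 i))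
      simp only [Pi.zero_apply, intervalIntegral.integral_zero, sub_zero] at h11
      have h12 : B i ≤ ∑ i, B i :=
        Finset.single_le_sum (f := B) (fun i _ => hB0 i) (Finset.mem_univ i)
      have h13 := mul_le_mul (mul_le_mul h12 h9 dist_nonneg hsum) h10 (by positivity)
        (by positivity)
      refine h11.trans (h13.trans ?_)
      have e : (∑ i, B i) * (D * (|C| / m ^ (c + a))) * ((1 + √(|C| * τ₂)) * m ^ a) =
          (∑ i, B i) * (D * |C|) * (1 + √(|C| * τ₂)) / m ^ c := by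
        rw [pow_add]
        field_simp
      rw [e]
      exact div_le_div_of_nonneg_right (le_add_of_nonneg_left (by positivity)) (by positivity))
  refine ⟨μ, Gk g R (y M).1 (y M).2, fun φ hφ σ hσ => ?_⟩
  obtain ⟨w, hw⟩ := hspan φ hφ
  have h0 : σ - ∑ i, w i * ρ i = 0 := by
    choose B' hB0' hB' using fun i => (hρ i).seg A hτ (D * (q.b - q.a))
    obtain ⟨B₁, -, hB₁⟩ := hσ.seg A hτ (D * (q.b - q.a))
    refine t9np_zero (B := B₁ + ∑ i, |w i| * B' i) hτ (T := tk τ R z)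
      (fun N => (H.tk_bd hz N).1) fun N hN => ?_
    have h1 := hT z hz N hN
    have h2 : dist (Φ (tk τ R z N) z) (Gk g R z N • z) ≤ D * (q.b - q.a) := by
      refine (hd z hz N).trans (mul_le_mul_of_nonneg_left ?_ hD.le)
      have h3 := hz.2.2
      have h4 := (H.iter hz N).2.2
      rw [abs_le]
      constructor <;> linarith [h3.1, h3.2, h4.1, h4.2]
    have h3 : |φ (Gk g R z N) - (∑ i, w i * ρ i) * tk τ R z N| ≤
        (∑ i, |w i| * B' i) * (1 + √(tk τ R z N)) := by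
      rw [hw, Finset.sum_mul, Finset.sum_mul, ← Finset.sum_sub_distrib]
      refine (Finset.abs_sum_le_sum_abs _ _).trans (Finset.sum_le_sum fun i _ => ?_)
      have h4 := hB' i z hz.1 _ _ h1 h2
      simp only [Pi.zero_apply, intervalIntegral.integral_zero, sub_zero] at h4
      rw [mul_assoc, ← mul_sub, abs_mul, mul_assoc]
      exact mul_le_mul_of_nonneg_left h4 (abs_nonneg _)
    have h4 := hB₁ z hz.1 _ _ h1 h2
    simp only [Pi.zero_apply, intervalIntegral.integral_zero, sub_zero] at h4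
    have h5 : |σ - ∑ i, w i * ρ i| * tk τ R z N =
        |(φ (Gk g R z N) - (∑ i, w i * ρ i) * tk τ R z N) - (φ (Gk g R z N) - σ * tk τ R z N)| := by
      rw [← abs_of_pos (hτ.trans_le h1), ← abs_mul, abs_of_pos (hτ.trans_le h1)]
      congr 1
      ring
    rw [h5]
    refine (abs_sub _ _).trans ?_
    linarith
  rw [sub_eq_zero.1 h0, hw, Finset.mul_sum]
  exact Finset.sum_congr rfl fun i _ => by rw [hμ i]; ring

end Pool.Agent.Lib.MP_5bb885_an.Gen
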