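import Pool.Agent.Lib.MP_5bb885_an.T18Defs

/-!
Uniform convergence on bounded intervals.
-/

namespace Pool.Agent.Lib.MP_5bb885_an.Gen

open UpperHalfPlane MeasureTheory Filter Topology

/-- Uniform convergence on bounded intervals. -/
def UW {E : Type} [NormedAddCommGroup E] (l : Filter ℕ) (fs : ℕ → ℝ → E) (f : ℝ → E) : Prop :=
  ∀ W ε : ℝ, 0 < ε → ∀ᶠ n in l, ∀ t, |t| ≤ W → ‖fs n t - f t‖ ≤ ε

lemma UW.tendsto {E : Type} [NormedAddCommGroup E] {l : Filter ℕ} {fs : ℕ → ℝ → E} {f : ℝ → E}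
    (h : UW l fs f) (hf : Continuous f) {s : ℕ → ℝ} {t : ℝ} (hs : Tendsto s l (𝓝 t)) :
    Tendsto (fun n => fs n (s n)) l (𝓝 (f t)) := by
  rw [Metric.tendsto_nhds]
  intro ε hε
  have h1 := Metric.tendsto_nhds.1 ((hf.tendsto t).comp hs) (ε / 2) (by positivity)
  have h2 := Metric.tendsto_nhds.1 hs 1 one_pos
  filter_upwards [h (|t| + 1) (ε / 2) (by positivity), h1, h2] with n a b c
  rw [Real.dist_eq] at c
  have h3 : |s n| ≤ |t| + 1 := by linarith [abs_sub_abs_le_abs_sub (s n) t]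
  have h4 := a (s n) h3
  rw [← dist_eq_norm] at h4
  have h5 := dist_triangle (fs n (s n)) (f (s n)) (f t)
  simp only [Function.comp] at b
  linarith

lemma UW.shift {E : Type} [NormedAddCommGroup E] {l : Filter ℕ} {fs : ℕ → ℝ → E} {f : ℝ → E}
    (h : UW l fs f) (hf : Continuous f) {s : ℕ → ℝ} (hs : Tendsto s l (𝓝 0)) :
    UW l (fun n t => fs n (t + s n)) f := by
  intro W ε hε
  obtain ⟨δ, hδ, hu⟩ := Metric.uniformContinuousOn_iff_le.1
    ((isCompact_Icc (a := -(W + 1)) (b := W + 1)).uniformContinuousOn_of_continuous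
      hf.continuousOn) (ε / 2) (by positivity)
  have h2 := Metric.tendsto_nhds.1 hs (min 1 δ) (lt_min one_pos hδ)
  filter_upwards [h (W + 1) (ε / 2) (by positivity), h2] with n a c t ht
  rw [Real.dist_eq, sub_zero, lt_min_iff] at c
  have h3 : |t + s n| ≤ W + 1 := by linarith [abs_add_le t (s n), c.1]
  have h4 := a _ h3
  have h5 := hu (t + s n) (abs_le.1 h3) t (abs_le.1 (by linarith))
    (by rw [Real.dist_eq, add_sub_cancel_left]; exact c.2.le)
  rw [← dist_eq_norm] at h4 ⊢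
  linarith [dist_triangle (fs n (t + s n)) (f (t + s n)) (f t)]

/-- Composition with a function that is continuous on an open set. -/
lemma UW.comp {E G : Type} [NormedAddCommGroup E] [NormedAddCommGroup G] [ProperSpace E]
    {l : Filter ℕ} {fs : ℕ → ℝ → E} {f : ℝ → E} (h : UW l fs f) (hf : Continuous f) {O : Set E}
    (hO : IsOpen O) (hm : ∀ t, f t ∈ O) {φ : E → G} (hφ : ContinuousOn φ O) :
    UW l (fun n t => φ (fs n t)) fun t => φ (f t) := by
  intro W ε hε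
  have hK : IsCompact (f '' Set.Icc (-W) W) := isCompact_Icc.image hf
  obtain ⟨r, hr, hsub⟩ := hK.exists_cthickening_subset_open hO (by
    rintro _ ⟨t, -, rfl⟩; exact hm t)
  obtain ⟨δ, hδ, hu⟩ := Metric.uniformContinuousOn_iff_le.1
    ((hK.cthickening (r := r)).uniformContinuousOn_of_continuous (hφ.mono hsub)) ε hε
  filter_upwards [h W (min r δ) (lt_min hr hδ)] with n a t ht
  have h1 := a t ht
  rw [← dist_eq_norm, le_min_iff] at h1
  have h2 : f t ∈ f '' Set.Icc (-W) W := ⟨t, abs_le.1 ht, rfl⟩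
  rw [← dist_eq_norm]
  exact hu _ (Metric.mem_cthickening_of_dist_le _ _ _ _ h2 h1.1) _
    (Metric.self_subset_cthickening _ h2) h1.2

lemma UW.integral {l : Filter ℕ} {fs : ℕ → ℝ → ℝ} {f : ℝ → ℝ} (h : UW l fs f)
    (hfs : ∀ n, Continuous (fs n)) (hf : Continuous f) {Ts : ℕ → ℝ} {T : ℝ}
    (hT : Tendsto Ts l (𝓝 T)) :
    Tendsto (fun n => ∫ t in (0 : ℝ)..Ts n, fs n t) l (𝓝 (∫ t in (0 : ℝ)..T, f t)) := by
  have hc : Continuous fun b => ∫ t in (0 : ℝ)..b, f t :=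
    intervalIntegral.continuous_primitive (fun a b => hf.intervalIntegrable a b) 0
  refine UW.tendsto (fs := fun n b => ∫ t in (0 : ℝ)..b, fs n t) ?_ hc hT
  intro W ε hε
  filter_upwards [h W (ε / (|W| + 1)) (by positivity)] with n a b hb
  rw [← intervalIntegral.integral_sub ((hfs n).intervalIntegrable _ _) (hf.intervalIntegrable _ _)]
  have h1 := intervalIntegral.norm_integral_le_of_norm_le_const (a := 0) (b := b)
    (C := ε / (|W| + 1)) (f := fun t => fs n t - f t) fun t ht => a t (by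
      have := Set.abs_sub_left_of_mem_uIcc (Set.uIoc_subset_uIcc ht)
      rw [sub_zero, sub_zero] at this
      exact this.trans hb)
  refine h1.trans ?_
  rw [sub_zero, div_mul_eq_mul_div, div_le_iff₀ (by positivity)]
  have := le_abs_self W
  gcongr
  linarith

lemma toZero_of_sm {f : ℕ → ℂ → ℝ} (h : ∀ n : ℕ, Sm (1 / (n + 1)) (f n)) : ToZero atTop f := by
  intro R ε hε
  have h1 : ∀ᶠ n : ℕ in atTop, (1 : ℝ) / (n + 1) ≤ ε :=
    tendsto_one_div_add_atTop_nhds_zero_nat.eventually (eventually_le_nhds hε)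
  have h2 : ∀ᶠ n : ℕ in atTop, R ≤ n := tendsto_natCast_atTop_atTop.eventually_ge_atTop R
  filter_upwards [h1, h2] with n a b z hz
  obtain ⟨c1, c2, c3⟩ := h n z (KB_mono (by rw [one_div_one_div]; linarith) hz)
  exact ⟨c1.trans a, c2.trans a, c3.trans a⟩

lemma ToZero.sm {l : Filter ℕ} {f : ℕ → ℂ → ℝ} (h : ToZero l f) {δ : ℝ} (hδ : 0 < δ) :
    ∀ᶠ n in l, Sm δ (f n) := h (1 / δ) δ hδ

variable {Γ : Type} [Group Γ] [MulAction Γ ℍ] {L : ℂ × ℂ → ℝ} {Ls : ℕ → ℂ × ℂ → ℝ} {c : Γ → ℝ}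
  {cs : ℕ → Γ → ℝ} {x : ℝ → ℍ} {ys : ℕ → ℝ → ℍ} {γ : Γ} {T : ℝ} {Ts : ℕ → ℝ} {η : ℝ → ℂ}
  {ζ : ℕ → ℝ → ℂ}

lemma ToZero.add {l : Filter ℕ} {f g : ℕ → ℂ → ℝ} (hf : ∀ n, C2 Γ (f n)) (hg : ∀ n, C2 Γ (g n))
    (h : ToZero l f) (h' : ToZero l g) : ToZero l fun n => f n + g n := by
  intro R ε hε
  filter_upwards [h R (ε / 2) (by positivity), h' R (ε / 2) (by positivity)] with n a b z hz
  obtain ⟨a1, a2, a3⟩ := a z hz
  obtain ⟨b1, b2, b3⟩ := b z hz
  have e1 : ∀ w ∈ HP, fderiv ℝ (f n + g n) w = fderiv ℝ (f n) w + fderiv ℝ (g n) w := fun w hw =>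
    ((t9tay_has isOpen_HP (hf n).1 hw).1.add (t9tay_has isOpen_HP (hg n).1 hw).1).fderiv
  have hz' := KB_sub R hz
  have e2 : fderiv ℝ (fderiv ℝ (f n + g n)) z =
      fderiv ℝ (fderiv ℝ (f n)) z + fderiv ℝ (fderiv ℝ (g n)) z := by
    refine (((t9tay_has isOpen_HP (hf n).1 hz').2.add
      (t9tay_has isOpen_HP (hg n).1 hz').2).congr_of_eventuallyEq ?_).fderiv
    filter_upwards [isOpen_HP.mem_nhds hz'] with w hw using e1 w hw
  refine ⟨?_, ?_, ?_⟩
  · exact (abs_add_le _ _).trans (by linarith)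
  · rw [e1 z hz']
    exact (norm_add_le _ _).trans (by linarith)
  · rw [e2]
    exact (ContinuousLinearMap.opNorm_add_le _ _).trans (by linarith)

lemma C2.toZero {l : Filter ℕ} {g : ℂ → ℝ} (hg : C2 Γ g) {s : ℕ → ℝ} (hs : Tendsto s l (𝓝 0)) :
    ToZero l fun n => s n • g := by
  intro R ε hε
  obtain ⟨M, hM0, hM⟩ := t9tay_bd isOpen_HP hg.1 (isCompact_KB R) (KB_sub _)
  have h1 : Tendsto (fun n => |s n| * M) l (𝓝 0) := by simpa using hs.abs.mul_const M
  filter_upwards [h1.eventually (eventually_le_nhds hε)] with n a z hz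
  obtain ⟨b1, b2, b3⟩ := hM z hz
  have e1 : fderiv ℝ (s n • g) = s n • fderiv ℝ g := fderiv_const_smul_field _
  have e2 : fderiv ℝ (s n • fderiv ℝ g) = s n • fderiv ℝ (fderiv ℝ g) :=
    fderiv_const_smul_field (𝕜 := ℝ) (f := fderiv ℝ g) (s n)
  rw [e1, e2]
  refine ⟨le_trans ?_ a, le_trans ?_ a, le_trans ?_ a⟩
  · rw [Pi.smul_apply, smul_eq_mul, abs_mul]
    gcongr
  · rw [Pi.smul_apply, norm_smul, Real.norm_eq_abs]
    gcongr
  · rw [Pi.smul_apply]
    refine (ContinuousLinearMap.opNorm_smul_le _ _).trans ?_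
    rw [Real.norm_eq_abs]
    gcongr

lemma t18uw_zero {G G' : ℝ → ℝ} (hG : ∀ s, HasDerivAt G (G' s) s) {r : ℝ} (hr : 0 < r)
    (hG' : ∀ s, |s| ≤ r → 1 / 2 ≤ G' s) (h0 : 2 * |G 0| ≤ r) :
    ∃ s, |s| ≤ 2 * |G 0| ∧ G s = 0 := by
  have hc : Continuous G := continuous_iff_continuousAt.2 fun s => (hG s).continuousAt
  have hm : ∀ a b, -r ≤ a → a ≤ b → b ≤ r → 1 / 2 * (b - a) ≤ G b - G a := by
    intro a b ha hab hb
    refine (convex_Icc (-r) r).mul_sub_le_image_sub_of_le_deriv hc.continuousOn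
      (fun s _ => (hG s).differentiableAt.differentiableWithinAt) (fun s hs => ?_) a
      ⟨ha, hab.trans hb⟩ b ⟨ha.trans hab, hb⟩ hab
    rw [(hG s).deriv]
    have hs' : s ∈ Set.Icc (-r) r := interior_subset hs
    exact hG' s (abs_le.2 hs')
  have hp := abs_nonneg (G 0)
  have h1 := hm 0 (2 * |G 0|) (by linarith) (by linarith) h0
  have h2 := hm (-(2 * |G 0|)) 0 (by linarith) (by linarith) hr.le
  obtain ⟨s, hs, e⟩ := intermediate_value_Icc (show -(2 * |G 0|) ≤ 2 * |G 0| by linarith)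
    hc.continuousOn (show (0 : ℝ) ∈ _ from
      ⟨by linarith [le_abs_self (G 0)], by linarith [neg_abs_le (G 0)]⟩)
  exact ⟨s, abs_le.2 hs, e⟩

/-- A small time shift puts a curve on a transversal. -/
lemma exists_section {l : Filter ℕ} (hx : C1 x) (hy : ∀ n, C1 (ys n))
    (h : UW l (fun n => jet (ys n)) (jet x)) (hv : vel x 0 ≠ 0) {z : ℕ → ℍ}
    (hz : Tendsto z l (𝓝 (x 0))) : ∃ σ : ℕ → ℝ, Tendsto σ l (𝓝 0) ∧
      ∀ᶠ n in l, (((ys n (σ n) : ℂ) - z n) / vel x 0).re = 0 := by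
  classical
  let G : ℕ → ℝ → ℝ := fun n s => (((ys n s : ℂ) - z n) / vel x 0).re
  have hG : ∀ n s, HasDerivAt (G n) ((vel (ys n) s / vel x 0).re) s := fun n s =>
    Complex.reCLM.hasFDerivAt.comp_hasDerivAt s ((((hy n).1 s).sub_const _).div_const _)
  have hp : 0 < ‖vel x 0‖ := norm_pos_iff.2 hv
  obtain ⟨r, hr, hr'⟩ := Metric.continuousAt_iff.1 (hx.2.continuousAt (x := 0)) (‖vel x 0‖ / 4)
    (by positivity)
  have hj : Continuous (jet x) := (t9flux1_cx hx).prodMk hx.2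
  have h0 : Tendsto (fun n => G n 0) l (𝓝 0) := by
    have h1 := (continuous_fst.tendsto _).comp (h.tendsto hj (tendsto_const_nhds (x := (0 : ℝ))))
    have h2 := (UpperHalfPlane.continuous_coe.tendsto _).comp hz
    have h3 := (Complex.continuous_re.tendsto _).comp ((h1.sub h2).div_const (vel x 0))
    simpa [jet, G, Function.comp_def] using h3
  have h0' : Tendsto (fun n => 2 * |G n 0|) l (𝓝 0) := by simpa using h0.abs.const_mul 2
  have hex : ∀ᶠ n in l, ∃ s, |s| ≤ 2 * |G n 0| ∧ G n s = 0 := by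
    filter_upwards [h (r / 2) (‖vel x 0‖ / 4) (by positivity),
      h0'.eventually (eventually_le_nhds (half_pos hr))] with n a b
    refine t18uw_zero (hG n) (half_pos hr) (fun s hs => ?_) b
    have h1 : ‖vel (ys n) s - vel x s‖ ≤ ‖vel x 0‖ / 4 :=
      (norm_snd_le (jet (ys n) s - jet x s)).trans (a s hs)
    have h2 := hr' (x := s) (by rw [Real.dist_eq, sub_zero]; linarith)
    rw [dist_eq_norm] at h2
    have h3 : ‖vel (ys n) s - vel x 0‖ ≤ ‖vel x 0‖ / 2 := by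
      linarith [norm_sub_le_norm_sub_add_norm_sub (vel (ys n) s) (vel x s) (vel x 0)]
    have h4 : vel (ys n) s / vel x 0 = 1 + (vel (ys n) s - vel x 0) / vel x 0 := by
      field_simp
      ring
    have h5 : ‖(vel (ys n) s - vel x 0) / vel x 0‖ ≤ 1 / 2 := by
      rw [norm_div, div_le_iff₀ hp]
      linarith
    have h6 := (abs_le.1 ((Complex.abs_re_le_norm _).trans h5)).1
    rw [h4, Complex.add_re, Complex.one_re]
    linarith
  let σ : ℕ → ℝ := fun n => if e : ∃ s, |s| ≤ 2 * |G n 0| ∧ G n s = 0 then e.choose else 0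
  have hσ : ∀ᶠ n in l, |σ n| ≤ 2 * |G n 0| ∧ G n (σ n) = 0 := by
    filter_upwards [hex] with n e
    simp only [σ, dif_pos e]
    exact e.choose_spec
  exact ⟨σ, squeeze_zero_norm' (hσ.mono fun n a => a.1) h0', hσ.mono fun n a => a.2⟩

end Pool.Agent.Lib.MP_5bb885_an.Gen
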