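import Pool.Agent.Lib.MP_5bb885_an.T18Conj
import Pool.Agent.Lib.MP_5bb885_an.T18UW

/-!
Limits of calibrated closed curves.
-/

namespace Pool.Agent.Lib.MP_5bb885_an.Gen

open UpperHalfPlane MeasureTheory Filter Topology

variable {Γ : Type} [Group Γ] [MulAction Γ ℍ] {L : ℂ × ℂ → ℝ} {Ls : ℕ → ℂ × ℂ → ℝ} {c : Γ → ℝ}
  {cs : ℕ → Γ → ℝ} {x : ℝ → ℍ} {ys : ℕ → ℝ → ℍ} {γ : Γ} {T : ℝ} {Ts : ℕ → ℝ} {η : ℝ → ℂ}
  {ζ : ℕ → ℝ → ℂ}

theorem LSeq.lim_cp (F : Deck Γ) {l : Ultrafilter ℕ} (h : LSeq Γ l L Ls) (hc : c ∈ Coh Γ)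
    (hcs : ∀ n, cs n ∈ Coh Γ) (hl : CLim l c cs) (hT : 0 < T)
    (h1 : ∀ n, CP (Ls n) (cs n) (ys n) γ (Ts n)) (h2 : Tendsto Ts l (𝓝 T)) {z : ℍ}
    (h3 : Tendsto (fun n => ys n 0) l (𝓝 z)) :
    ∃ x, CP L c x γ T ∧ x 0 = z ∧ UW l (fun n => jet (ys n)) (jet x) := by
  choose us hu hd hy hp using h1
  have hk := h.tendsto_crit F hc hcs hl
  obtain ⟨w, w1, w2, w3⟩ := h.lim_dom hk hd hl hu
  obtain ⟨x, x1, x2⟩ := h.lim_cal' hk (fun n => (hd n).add_const (-us n I)) w3 (xs := ys)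
    (Eventually.of_forall fun n => (hy n).add_const (-us n I)) (t9exp_ball h3)
  have hx : Reg L x := x1.reg h.unif (Set.mem_insert _ _) w2
  have hU : UW l (fun n => jet (ys n)) (jet x) := fun W ε hε =>
    h.jet_lim (t9open_k F h hc hcs hl) hd hy hx x2 W hε
  refine ⟨x, ⟨w, w1, w2, x1, hT, fun t => ?_⟩, tendsto_nhds_unique (x2 0) h3, hU⟩
  have a1 : Tendsto (fun n => (ys n (t + Ts n) : ℂ)) l (𝓝 (x (t + T) : ℂ)) :=
    (continuous_fst.tendsto _).comp (hU.tendsto hx.contJet (h2.const_add t))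
  have a2 : Tendsto (fun n => ((γ • ys n t : ℍ) : ℂ)) l (𝓝 ((γ • x t : ℍ) : ℂ)) :=
    ((continuous_coe.comp (F.cont γ)).tendsto _).comp (x2 t)
  refine UpperHalfPlane.ext (tendsto_nhds_unique a1 (a2.congr fun n => ?_))
  rw [(hp n).2 t]

lemma t18lim_pt {l : Filter ℕ} (hx : Continuous (jet x))
    (hU : UW l (fun n => jet (ys n)) (jet x)) (t : ℝ) :
    Tendsto (fun n => ys n t) l (𝓝 (x t)) :=
  isEmbedding_coe.tendsto_nhds_iff.2
    ((continuous_fst.tendsto _).comp (hU.tendsto hx (tendsto_const_nhds (x := t))))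

lemma t18lim_jac {l : Ultrafilter ℕ} (h : LSeq Γ l L Ls) (hx : Reg L x)
    (hU : UW l (fun n => jet (ys n)) (jet x)) (h1 : ∀ n, Jac (Ls n) (ys n) (ζ n))
    (h2 : ∀ n, ‖ζ n 0‖ + ‖deriv (ζ n) 0‖ = 1) :
    ∃ η, Jac L x η ∧ UW l ζ η ∧ UW l (fun n => deriv (ζ n)) (deriv η) := by
  obtain ⟨η, hJ, hη⟩ := jacA_lim (hx.coef h.ton) l (As := fun n t => D2 (Ls n) (jet (ys n) t))
    (ξ := ζ) (Eventually.of_forall h1) (fun W ε hε => by
      obtain ⟨δ, hδ, h4⟩ := t9exp_near h (t9exp_cpt hx W).1 (t9exp_cpt hx W).2 hε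
      filter_upwards [h4, hU W δ hδ] with n h5 h6 t ht
      exact (h5 _ ⟨t, abs_le.1 ht, rfl⟩ _ (h6 t ht)).2.2) (C := 1)
    (Eventually.of_forall fun n => ⟨by linarith [h2 n, norm_nonneg (deriv (ζ n) 0)],
      by linarith [h2 n, norm_nonneg (ζ n 0)]⟩)
  exact ⟨η, hJ, fun W ε hε => (hη W ε hε).mono fun n hn t ht => (hn t ht).1,
    fun W ε hε => (hη W ε hε).mono fun n hn t ht => (hn t ht).2⟩

theorem LSeq.lim_od (F : Deck Γ) {l : Ultrafilter ℕ} (h : LSeq Γ l L Ls) (hc : c ∈ Coh Γ)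
    (hcs : ∀ n, cs n ∈ Coh Γ) (hl : CLim l c cs) (hT : 0 < T)
    (h1 : ∀ n, OD (Ls n) (cs n) (ys n) γ (Ts n) (ζ n)) (h2 : Tendsto Ts l (𝓝 T)) {z : ℍ}
    (h3 : Tendsto (fun n => ys n 0) l (𝓝 z)) :
    ∃ x η, OD L c x γ T η ∧ x 0 = z ∧ UW l (fun n => jet (ys n)) (jet x) ∧ UW l ζ η ∧
      UW l (fun n => deriv (ζ n)) (deriv η) := by
  obtain ⟨x, x1, x2, hU⟩ := h.lim_cp F hc hcs hl hT (fun n => (h1 n).cp) h2 h3
  have hx := x1.reg F h.ton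
  obtain ⟨η, hJ, u1, u2⟩ := t18lim_jac h hx hU (fun n => (h1 n).jac) fun n => (h1 n).one
  have c1 : Continuous η := continuous_iff_continuousAt.2 fun t => (hJ t).1.continuousAt
  have c2 : Continuous (deriv η) := JacA.contDeriv (hx.coef h.ton) hJ
  have l1 : ∀ t, Tendsto (fun n => ζ n t) l (𝓝 (η t)) := fun t =>
    u1.tendsto c1 tendsto_const_nhds
  have l2 : ∀ t, Tendsto (fun n => deriv (ζ n) t) l (𝓝 (deriv η t)) := fun t =>
    u2.tendsto c2 tendsto_const_nhds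
  have l3 : ∀ t, Tendsto (fun n => jet (ys n) t) l (𝓝 (jet x t)) := fun t =>
    hU.tendsto hx.contJet tendsto_const_nhds
  refine ⟨x, η, ⟨x1, (h1 0).no, hJ, fun t => ?_, fun t => ?_, ?_⟩, x2, hU, u1, u2⟩
  · exact t9exp_en h (a := (η t, deriv η t)) (jet_mem x t) (l3 t)
      ((l1 t).prodMk_nhds (l2 t)) (Eventually.of_forall fun n => (h1 n).en t)
  · have a1 : Tendsto (fun n => ζ n (t + Ts n)) l (𝓝 (η (t + T))) :=
      u1.tendsto c1 (h2.const_add t)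
    have a2 : Tendsto (fun n => -dk γ (ys n t) (ζ n t)) l (𝓝 (-dk γ (x t) (η t))) :=
      (t9exp_app (((F.continuous_dk γ).tendsto _).comp (t18lim_pt hx.contJet hU t)) (l1 t)).neg
    exact tendsto_nhds_unique a1 (a2.congr fun n => ((h1 n).anti t).symm)
  · exact tendsto_nhds_unique ((l1 0).norm.add (l2 0).norm)
      (tendsto_const_nhds.congr fun n => (h1 n).one.symm)

lemma LSeq.uw_cp (F : Deck Γ) {l : Ultrafilter ℕ} (h : LSeq Γ l L Ls) (hc : c ∈ Coh Γ)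
    (hcs : ∀ n, cs n ∈ Coh Γ) (hl : CLim l c cs) (hx : CP L c x γ T)
    (h1 : ∀ n, CP (Ls n) (cs n) (ys n) γ (Ts n)) (h2 : Tendsto Ts l (𝓝 T))
    (h3 : Tendsto (fun n => ys n 0) l (𝓝 (x 0))) : UW l (fun n => jet (ys n)) (jet x) := by
  obtain ⟨y, y1, y2, hU⟩ := h.lim_cp F hc hcs hl hx.per.1 h1 h2 h3
  rwa [y1.unique F h.ton hx y2] at hU

lemma LSeq.uw_od (F : Deck Γ) {l : Ultrafilter ℕ} (h : LSeq Γ l L Ls) (hc : c ∈ Coh Γ)
    (hcs : ∀ n, cs n ∈ Coh Γ) (hl : CLim l c cs) (hx : OD L c x γ T η)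
    (h1 : ∀ n, OD (Ls n) (cs n) (ys n) γ (Ts n) (ζ n)) (h2 : Tendsto Ts l (𝓝 T))
    (h3 : Tendsto (fun n => ys n 0) l (𝓝 (x 0))) (h4 : Tendsto (fun n => ζ n 0) l (𝓝 (η 0)))
    (h5 : Tendsto (fun n => deriv (ζ n) 0) l (𝓝 (deriv η 0))) :
    UW l (fun n => jet (ys n)) (jet x) ∧ UW l ζ η ∧ UW l (fun n => deriv (ζ n)) (deriv η) := by
  have hU := h.uw_cp F hc hcs hl hx.cp (fun n => (h1 n).cp) h2 h3
  have hR := hx.cp.reg F h.ton
  obtain ⟨ξ, hJ, u1, u2⟩ := t18lim_jac h hR hU (fun n => (h1 n).jac) fun n => (h1 n).one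
  have c1 : Continuous ξ := continuous_iff_continuousAt.2 fun t => (hJ t).1.continuousAt
  have c2 : Continuous (deriv ξ) := JacA.contDeriv (hR.coef h.ton) hJ
  have e1 : ξ 0 = η 0 := tendsto_nhds_unique (u1.tendsto c1 tendsto_const_nhds) h4
  have e2 : deriv ξ 0 = deriv η 0 := tendsto_nhds_unique (u2.tendsto c2 tendsto_const_nhds) h5
  have hD : JacA (fun t => D2 L (jet x t)) (ξ + (-1 : ℝ) • η) :=
    JacA.add hJ (JacA.smul hx.jac (-1))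
  have e : ξ = η := funext fun t => by
    have := hD.eq_zero (hR.coef h.ton) (s := 0) (by simp [e1]) (by
      rw [deriv_add (hJ 0).1 ((hx.jac 0).1.const_smul _), deriv_const_smul _ (hx.jac 0).1, e2]
      simp) t
    simpa [add_neg_eq_zero] using this
  exact ⟨hU, e ▸ u1, e ▸ u2⟩

end Pool.Agent.Lib.MP_5bb885_an.Gen
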