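import Pool.Agent.Lib.MP_5bb885_an.T18Cone

/-!
Degenerate one-sided curves occur with probability zero.
-/

namespace Pool.Agent.Lib.MP_5bb885_an.Gen

open UpperHalfPlane MeasureTheory Filter Topology

variable {Γ : Type} [Group Γ] [MulAction Γ ℍ] {L : ℂ × ℂ → ℝ} {ε : OB → ℝ} {P : Om → ℂ → ℝ}
  {b : ℕ}

/-- The data of the degenerate curves. -/
def ODset (L : ℂ × ℂ → ℝ) (P : Om → ℂ → ℝ) (e : (Fin b → ℝ) ≃ₗ[ℝ] Coh Γ) (γ : Γ) :
    Set ((Om × (Fin b → ℝ)) × (ℝ × ℍ × ℂ × ℂ)) :=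
  {p | ∃ (x : ℝ → ℍ) (η : ℝ → ℂ), OD (addP L (P p.1.1)) (e p.1.2 : Γ → ℝ) x γ p.2.1 η ∧
    p.2.2 = (x 0, η 0, deriv η 0)}

lemma t18null_uw {l : Filter ℕ} {fs : ℕ → ℝ → ℂ} {f : ℝ → ℂ} (h : UW l fs f) :
    Tendsto (fun n => fs n 0) l (𝓝 (f 0)) := by
  rw [Metric.tendsto_nhds]
  intro δ hδ
  filter_upwards [h 0 (δ / 2) (by linarith)] with n hn
  rw [dist_eq_norm]
  have := hn 0 (by simp)
  linarith

lemma Pert.isClosed_od (F : Deck Γ) (hL : Tonelli Γ L) (h : Pert Γ ε P)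
    (e : (Fin b → ℝ) ≃ₗ[ℝ] Coh Γ) (γ : Γ) {A : Set (Om × (Fin b → ℝ))} (hA : IsClosed A)
    {B : Set (ℝ × ℍ × ℂ × ℂ)} (hB : IsCompact B) (h0 : ∀ d ∈ B, 0 < d.1) :
    IsClosed {p | p ∈ A ∧ ∃ d ∈ B, (p, d) ∈ ODset L P e γ} := by
  refine IsSeqClosed.isClosed fun ps p hps hlim => ?_
  refine ⟨hA.mem_of_tendsto hlim (Eventually.of_forall fun n => (hps n).1), ?_⟩
  choose ds hds xs ηs h1 h2 using fun n => (hps n).2
  obtain ⟨d, hd, φ, hφ, hdl⟩ := hB.tendsto_subseq hds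
  have hp : Tendsto (fun n => ps (φ n)) atTop (𝓝 p) := hlim.comp hφ.tendsto_atTop
  have hL' : Tonelli Γ (addP L (P p.1)) := hL.add F (h.pot p.1).c2
  have hS := lseq_of_toZero F hL' (f := fun n => P (ps (φ n)).1 - P p.1)
    (fun n => ((h.pot _).sub (h.pot _)).c2)
    (h.lim p.1 (fun n => (ps (φ n)).1) ((continuous_fst.tendsto p).comp hp))
  have he : ∀ n, addP (addP L (P p.1)) (P (ps (φ n)).1 - P p.1) = addP L (P (ps (φ n)).1) :=
    fun n => by rw [addP_addP, add_sub_cancel]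
  simp only [he] at hS
  have hC := clim_of_tendsto F e ((continuous_snd.tendsto p).comp hp)
  have hl : ((hyperfilter ℕ : Ultrafilter ℕ) : Filter ℕ) ≤ atTop := Nat.hyperfilter_le_atTop
  have hd2 : Tendsto (fun n => (ds (φ n)).2) atTop (𝓝 d.2) :=
    (continuous_snd.tendsto d).comp hdl
  have hd2' : Tendsto (fun n => (xs (φ n) 0, ηs (φ n) 0, deriv (ηs (φ n)) 0)) atTop (𝓝 d.2) :=
    hd2.congr fun n => h2 (φ n)
  have t1 : Tendsto (fun n => xs (φ n) 0) atTop (𝓝 d.2.1) :=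
    (continuous_fst.tendsto d.2).comp hd2'
  have t2 : Tendsto (fun n => ηs (φ n) 0) atTop (𝓝 d.2.2.1) :=
    ((continuous_fst.comp continuous_snd).tendsto d.2).comp hd2'
  have t3 : Tendsto (fun n => deriv (ηs (φ n)) 0) atTop (𝓝 d.2.2.2) :=
    ((continuous_snd.comp continuous_snd).tendsto d.2).comp hd2'
  obtain ⟨x, η, hx, hx0, -, hu, hu'⟩ := (hS.mono hl).lim_od F (e p.2).2
    (cs := fun n => (e (ps (φ n)).2 : Γ → ℝ)) (fun n => (e (ps (φ n)).2).2) (hC.mono hl)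
    (h0 d hd) (Ts := fun n => (ds (φ n)).1) (ys := fun n => xs (φ n)) (ζ := fun n => ηs (φ n))
    (fun n => h1 (φ n)) (((continuous_fst.tendsto d).comp hdl).mono_left hl) (t1.mono_left hl)
  refine ⟨d, hd, x, η, hx, ?_⟩
  have e2 := tendsto_nhds_unique (t2.mono_left hl) (t18null_uw hu)
  have e3 := tendsto_nhds_unique (t3.mono_left hl) (t18null_uw hu')
  exact Prod.ext hx0.symm (Prod.ext e2 e3)

lemma Pert.od_nhds (F : Deck Γ) (hL : Tonelli Γ L) (h : Pert Γ ε P)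
    (e : (Fin b → ℝ) ≃ₗ[ℝ] Coh Γ) (hb : BddC2 (Set.range P)) (hl : Lip2 (addP L '' Set.range P))
    {a : Om} {t : Fin b → ℝ} {x : ℝ → ℍ} {γ : Γ} {T : ℝ} {η : ℝ → ℂ}
    (hx : OD (addP L (P a)) (e t : Γ → ℝ) x γ T η) (hm : MinPer x γ T)
    (h0 : tng x η (T / 2) = 0) : ∃ i : OB, ∃ O ∈ 𝓝 ((a, t), (T, x 0, η 0, deriv η 0)),
      ∀ p ∈ O ∩ ODset L P e γ, ∀ p' ∈ O ∩ ODset L P e γ, p.1.2 = p'.1.2 → ∀ s : ℝ, 0 < s →
        s ≤ ε i * |p'.1.1 i 3 - p.1.1 i 3| → P p'.1.1 ≠ P p.1.1 + s • fam Γ i.1 3 := by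
  have hL' : Tonelli Γ (addP L (P a)) := hL.add F (h.pot a).c2
  have U : Unif (addP L '' Set.range P) :=
    hL.unif F (by rintro _ ⟨a', rfl⟩; exact (h.pot a').c2) hb
  obtain ⟨q, hq, H⟩ := OD.cone F hL' (e t).2 U hl hx hm h0
  refine ⟨⟨q, hq⟩, ?_⟩
  by_contra hcon
  obtain ⟨u, hu⟩ :=
    (𝓝 (((a, t), (T, x 0, η 0, deriv η 0)) : (Om × (Fin b → ℝ)) × (ℝ × ℍ × ℂ × ℂ))).exists_antitone_basis
  have key : ∀ n, ∃ p ∈ u n ∩ ODset L P e γ, ∃ p' ∈ u n ∩ ODset L P e γ, p.1.2 = p'.1.2 ∧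
      ∃ s : ℝ, 0 < s ∧ s ≤ ε ⟨q, hq⟩ * |p'.1.1 ⟨q, hq⟩ 3 - p.1.1 ⟨q, hq⟩ 3| ∧
        P p'.1.1 = P p.1.1 + s • fam Γ q 3 := by
    intro n
    by_contra hn
    refine hcon ⟨u n, hu.mem n, fun p hp p' hp' he s hs hs' hP => hn ?_⟩
    exact ⟨p, hp, p', hp', he, s, hs, hs', hP⟩
  choose p hp p' hp' he s hs hs' hP using key
  have tp : Tendsto p atTop (𝓝 ((a, t), (T, x 0, η 0, deriv η 0))) :=
    hu.tendsto fun n => (hp n).1
  have tp' : Tendsto p' atTop (𝓝 ((a, t), (T, x 0, η 0, deriv η 0))) :=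
    hu.tendsto fun n => (hp' n).1
  choose y₁ ζ₁ g1 g2 using fun n => (hp n).2
  choose y₂ ζ₂ g3 g4 using fun n => (hp' n).2
  have ta : Tendsto (fun n => (p n).1.1) atTop (𝓝 a) :=
    ((continuous_fst.comp continuous_fst).tendsto _).comp tp
  have ta' : Tendsto (fun n => (p' n).1.1) atTop (𝓝 a) :=
    ((continuous_fst.comp continuous_fst).tendsto _).comp tp'
  have tt : Tendsto (fun n => (p n).1.2) atTop (𝓝 t) :=
    ((continuous_snd.comp continuous_fst).tendsto _).comp tp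
  have td : Tendsto (fun n => (y₁ n 0, ζ₁ n 0, deriv (ζ₁ n) 0)) atTop
      (𝓝 (x 0, η 0, deriv η 0)) :=
    (((continuous_snd.comp continuous_snd).tendsto _).comp tp).congr fun n => g2 n
  have td' : Tendsto (fun n => (y₂ n 0, ζ₂ n 0, deriv (ζ₂ n) 0)) atTop
      (𝓝 (x 0, η 0, deriv η 0)) :=
    (((continuous_snd.comp continuous_snd).tendsto _).comp tp').congr fun n => g4 n
  have ts : Tendsto s atTop (𝓝 0) := by
    have c3 : Continuous fun a' : Om => a' ⟨q, hq⟩ 3 :=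
      (continuous_apply 3).comp (continuous_apply _)
    have h1 := ((((c3.tendsto a).comp ta').sub ((c3.tendsto a).comp ta)).abs).const_mul (ε ⟨q, hq⟩)
    rw [sub_self, abs_zero, mul_zero] at h1
    exact squeeze_zero (fun n => (hs n).le) hs' h1
  have e1 : ∀ n, addP (addP L (P a)) (P (p n).1.1 - P a) = addP L (P (p n).1.1) :=
    fun n => by rw [addP_addP, add_sub_cancel]
  have e2 : ∀ n, addP (addP L (P a)) (P (p n).1.1 - P a + s n • fam Γ q 3) =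
      addP L (P (p' n).1.1) := fun n => by
    rw [addP_addP, ← add_assoc, add_sub_cancel, hP n]
  refine H (fun n => P (p n).1.1 - P a) s (fun n => (e (p n).1.2 : Γ → ℝ)) y₁ y₂
    (fun n => (p n).2.1) (fun n => (p' n).2.1) ζ₂ (fun n => ?_) (h.lim a _ ta) ts
    (clim_of_tendsto F e tt) (((continuous_fst.comp continuous_snd).tendsto _).comp tp)
    (((continuous_fst.comp continuous_snd).tendsto _).comp tp')
    ((continuous_fst.tendsto _).comp td) ((continuous_fst.tendsto _).comp td')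
    (((continuous_fst.comp continuous_snd).tendsto _).comp td')
    (((continuous_snd.comp continuous_snd).tendsto _).comp td')
  refine ⟨((h.pot _).sub (h.pot _)).c2, ?_, hs n, (e _).2, ?_, ?_⟩
  · rw [e1]
    exact ⟨_, ⟨_, rfl⟩, rfl⟩
  · rw [e1]
    exact (g1 n).cp
  · rw [e2, he n]
    exact g3 n

/-- A measurable set that meets each line in the direction of one coefficient in at most one
point is null. -/
lemma t18null_line (h : Pert Γ ε P) (i : OB) {N : Set (Om × (Fin b → ℝ))} (hN : MeasurableSet N)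
    (hs : ∀ p ∈ N, ∀ p' ∈ N, p.2 = p'.2 → ∀ s : ℝ, 0 < s →
      s ≤ ε i * |p'.1 i 3 - p.1 i 3| → P p'.1 ≠ P p.1 + s • fam Γ i.1 3) :
    ∀ᵐ a ∂law, ∀ᵐ t, (a, t) ∉ N := by
  classical
  have h1 : ∀ t : Fin b → ℝ, ∀ᵐ a ∂law, (a, t) ∉ N := by
    intro t
    have hmt : MeasurableSet {a : Om | (a, t) ∈ N} := measurable_prodMk_right hN
    have h2 : law {a : Om | (a, t) ∈ N} = 0 := by
      refine law_null cube i hmt fun a => cube_null ?_
      have hopen : MeasurableSet {y : Fin 4 → ℝ | ∀ j', y j' ∈ Set.Ioo (-1 : ℝ) 1} := by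
        rw [Set.ofPred_forall]
        exact MeasurableSet.iInter fun j' => measurable_pi_apply j' measurableSet_Ioo
      refine line_null (Pi.single 3 1) ((measurable_update a hmt).inter hopen) fun y => ?_
      have e0 : ∀ s : ℝ, (∀ j', (y + s • (Pi.single 3 1 : Fin 4 → ℝ)) j' ∈ Set.Ioo (-1 : ℝ) 1) →
          P (Function.update a i (y + s • (Pi.single 3 1 : Fin 4 → ℝ))) =
            P (Function.update a i 0) + ∑ j', (ε i * y j') • fam Γ i.1 j' +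
              (ε i * s) • fam Γ i.1 3 := by
        intro s hs2
        have hu := h.upd a i (y + s • (Pi.single 3 1 : Fin 4 → ℝ))
        have e3 : ∀ j', (ε i * clamp ((y + s • (Pi.single 3 1 : Fin 4 → ℝ)) j')) • fam Γ i.1 j' =
            (ε i * y j') • fam Γ i.1 j' + if j' = 3 then (ε i * s) • fam Γ i.1 3 else 0 := by
          intro j'
          rw [clamp_eq (Set.Ioo_subset_Icc_self (hs2 j'))]
          by_cases hj : j' = 3
          · subst hj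
            simp only [Pi.add_apply, Pi.smul_apply, Pi.single_eq_same, smul_eq_mul, mul_one,
              if_true]
            rw [← add_smul]
            congr 1
            ring
          · simp [hj]
        simp only [e3, Finset.sum_add_distrib, Finset.sum_ite_eq', Finset.mem_univ, if_true] at hu
        rw [add_assoc]
        convert hu
      have key : ∀ s s' : ℝ, s < s' →
          y + s • (Pi.single 3 1 : Fin 4 → ℝ) ∈
            {y | Function.update a i y ∈ {a : Om | (a, t) ∈ N}} ∩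
              {y : Fin 4 → ℝ | ∀ j', y j' ∈ Set.Ioo (-1 : ℝ) 1} →
          y + s' • (Pi.single 3 1 : Fin 4 → ℝ) ∈
            {y | Function.update a i y ∈ {a : Om | (a, t) ∈ N}} ∩
              {y : Fin 4 → ℝ | ∀ j', y j' ∈ Set.Ioo (-1 : ℝ) 1} → False := by
        intro s s' hlt g1 g2
        have hpos : 0 < s' - s := sub_pos.2 hlt
        refine hs _ g1.1 _ g2.1 rfl (ε i * (s' - s)) (mul_pos (h.pos i) hpos) ?_ ?_
        · refine le_of_eq ?_
          congr 1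
          simp only [Function.update_self, Pi.add_apply, Pi.smul_apply, Pi.single_eq_same,
            smul_eq_mul, mul_one]
          rw [show y 3 + s' - (y 3 + s) = s' - s by ring, abs_of_pos hpos]
        · show P (Function.update a i _) = P (Function.update a i _) + _
          rw [e0 s g1.2, e0 s' g2.2, add_assoc _ ((ε i * s) • _), ← add_smul]
          congr 2
          ring
      refine Set.Subsingleton.measure_zero (fun s g1 s' g2 => ?_) _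
      rcases lt_trichotomy s s' with hlt | heq | hlt
      · exact (key s s' hlt g1 g2).elim
      · exact heq
      · exact (key s' s hlt g2 g1).elim
    rw [ae_iff]
    simpa only [not_not] using h2
  exact (Measure.ae_ae_comm (p := fun (a : Om) (t : Fin b → ℝ) => (a, t) ∉ N) hN.compl).2
    (Eventually.of_forall h1)

lemma t18null_one (F : Deck Γ) (hL : Tonelli Γ L) (h : Pert Γ ε P)
    (e : (Fin b → ℝ) ≃ₗ[ℝ] Coh Γ) (hb : BddC2 (Set.range P))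
    (hl : Lip2 (addP L '' Set.range P)) (γ : Γ) :
    ∀ᵐ a ∂law, ∀ᵐ t, ¬∃ (x : ℝ → ℍ) (T : ℝ) (η : ℝ → ℂ),
      OD (addP L (P a)) (e t : Γ → ℝ) x γ T η ∧ MinPer x γ T ∧ tng x η (T / 2) = 0 := by
  set D : Set ((Om × (Fin b → ℝ)) × (ℝ × ℍ × ℂ × ℂ)) :=
    {p | ∃ (x : ℝ → ℍ) (η : ℝ → ℂ), OD (addP L (P p.1.1)) (e p.1.2 : Γ → ℝ) x γ p.2.1 η ∧
      MinPer x γ p.2.1 ∧ tng x η (p.2.1 / 2) = 0 ∧ p.2.2 = (x 0, η 0, deriv η 0)} with hD
  have key : ∀ p : (Om × (Fin b → ℝ)) × (ℝ × ℍ × ℂ × ℂ),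
      ∃ W : Set ((Om × (Fin b → ℝ)) × (ℝ × ℍ × ℂ × ℂ)), p ∈ D → W ∈ 𝓝 p ∧
        ∀ᵐ a ∂law, ∀ᵐ t, ∀ d, ((a, t), d) ∈ W → ((a, t), d) ∉ ODset L P e γ := by
    rintro ⟨⟨a, t⟩, T, d⟩
    by_cases hp : (((a, t), T, d) : (Om × (Fin b → ℝ)) × (ℝ × ℍ × ℂ × ℂ)) ∈ D
    swap
    · exact ⟨∅, fun hp' => absurd hp' hp⟩
    obtain ⟨x, η, hx, hm, h0, hd⟩ := hp
    obtain rfl : d = (x 0, η 0, deriv η 0) := hd
    obtain ⟨i, O, hO, H⟩ := h.od_nhds F hL e hb hl hx hm h0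
    obtain ⟨A₀, hA₀, B₀, hB₀, hAB⟩ := mem_nhds_prod_iff.1 hO
    obtain ⟨A, hA, hAc, hAs⟩ := exists_mem_nhds_isClosed_subset hA₀
    have hpos : {d : ℝ × ℍ × ℂ × ℂ | 0 < d.1} ∈ 𝓝 ((T, x 0, η 0, deriv η 0) : ℝ × ℍ × ℂ × ℂ) :=
      (isOpen_lt continuous_const continuous_fst).mem_nhds hm.1.1
    obtain ⟨B, hB, hBs, hBc⟩ := local_compact_nhds (inter_mem hB₀ hpos)
    refine ⟨A ×ˢ B, fun _ => ⟨prod_mem_nhds hA hB, ?_⟩⟩
    have hcl := h.isClosed_od F hL e γ hAc hBc fun d hd => (hBs hd).2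
    have hn := t18null_line h i hcl.measurableSet (by
      rintro p ⟨hp, d, hd, hpd⟩ p' ⟨hp', d', hd', hpd'⟩ he s hs hs'
      exact H (p, d) ⟨hAB ⟨hAs hp, (hBs hd).1⟩, hpd⟩ (p', d') ⟨hAB ⟨hAs hp', (hBs hd').1⟩, hpd'⟩
        he s hs hs')
    filter_upwards [hn] with a' ha'
    filter_upwards [ha'] with t' ht' d hd hd'
    exact ht' ⟨hd.1, d, hd.2, hd'⟩
  choose W hW using key
  obtain ⟨C, hCD, hCc, hcov⟩ := TopologicalSpace.countable_cover_nhdsWithin (f := W) (s := D)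
    fun p hp => mem_nhdsWithin_of_mem_nhds (hW p hp).1
  have h1 : ∀ᵐ a ∂law, ∀ p ∈ C, ∀ᵐ t, ∀ d, ((a, t), d) ∈ W p → ((a, t), d) ∉ ODset L P e γ :=
    (ae_ball_iff hCc).2 fun p hp => (hW p (hCD hp)).2
  filter_upwards [h1] with a ha
  filter_upwards [(ae_ball_iff hCc).2 ha] with t ht
  rintro ⟨x, T, η, hx, hm, h0⟩
  have hp : (((a, t), T, x 0, η 0, deriv η 0) : (Om × (Fin b → ℝ)) × (ℝ × ℍ × ℂ × ℂ)) ∈ D :=
    ⟨x, η, hx, hm, h0, rfl⟩
  obtain ⟨p, hpC, hpW⟩ := Set.mem_iUnion₂.1 (hcov hp)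
  exact ht p hpC _ hpW ⟨x, η, hx, rfl⟩

theorem Pert.ae_nodegO (F : Deck Γ) (hL : Tonelli Γ L) (h : Pert Γ ε P)
    (e : (Fin b → ℝ) ≃ₗ[ℝ] Coh Γ) (hb : BddC2 (Set.range P))
    (hl : Lip2 (addP L '' Set.range P)) :
    ∀ᵐ a ∂law, ∀ᵐ t, ¬DegO (addP L (P a)) (e t : Γ → ℝ) := by
  have := F.countable
  filter_upwards [ae_all_iff.2 fun γ : Γ => t18null_one F hL h e hb hl γ] with a ha
  filter_upwards [ae_all_iff.2 ha] with t ht
  rintro ⟨x, γ, T, η, hx⟩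
  exact ht γ ⟨x, T, η, hx⟩

end Pool.Agent.Lib.MP_5bb885_an.Gen
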