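import Pool.Agent.Lib.MP_5bb885_an.T18NP
import Pool.Agent.Lib.MP_5bb885_an.T18Null
import Pool.Agent.Lib.MP_5bb885_an.T18C3
import Pool.Agent.Lib.MP_5bb885_an.T18Deg

/-!
Assembly for all closed surfaces covered by the upper half plane.
-/

namespace Pool.Agent.Lib.MP_5bb885_an.Gen

open UpperHalfPlane MeasureTheory Filter Topology

variable {Γ : Type} [Group Γ] [MulAction Γ ℍ] {L : ℂ × ℂ → ℝ} {c : Γ → ℝ} {b : ℕ}

theorem TDall.gs_or' (F : Deck Γ) (hL : Tonelli Γ L) (hc : c ∈ Coh Γ) (h : TDall L c) :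
    Gs L c ∨ DegEq L ∨ DegO L c := by
  obtain ⟨u, hu, hd⟩ := exists_dom F hL hc
  obtain ⟨x, hx⟩ := exists_cal F hL hc hu hd
  obtain ⟨Φ, V, A, hΦ, hx'⟩ := exists_flow F hL hu hd
  have hK : (CS L (crit L c) u).Nonempty := ⟨x 0, x, hx, rfl⟩
  have hK0 : ∀ z ∈ CS L (crit L c) u, Φ 0 z = z ∧ Cal L (crit L c) u fun t => Φ t z :=
    fun z hz => ⟨A.zero z hz, hΦ z hz⟩
  rcases A.trichotomy F hK with ⟨z, hz, γ, T, hT, hzT⟩ | ⟨K', hK', A'⟩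
  · have hy : Cal L (crit L c) u fun t => Φ t z := hΦ z hz
    have hp : Per (fun t => Φ t z) γ T := by
      refine ⟨hT, fun t => ?_⟩
      show Φ (t + T) z = γ • Φ t z
      rw [A.add t T z hz, hzT, A.comm t γ z hz]
    rcases hy.vel_cases F hL hd with hv | ⟨_, h0⟩
    · obtain ⟨γ', T', hm⟩ := hy.minPer F hL hu hd hp hv
      by_cases ho : Ori γ'
      · exact Or.inl (h.gs F hL hc hu hd hy hp (h.hyp F hL hc hu hd hy hm ho hv))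
      · rcases CP.hyp_or_degO F hL hc ⟨u, hu, hd, hy, hm.1⟩ hm ho with hH | hD
        · exact Or.inl (h.gs F hL hc hu hd hy hp hH)
        · exact Or.inr (Or.inr hD)
    · have e : (fun t => Φ t z) = fun _ => Φ 0 z := funext h0
      rw [e] at hy hp
      rcases hy.hyp_or_deg F hL hd with hH | hD
      · exact Or.inl (h.gs F hL hc hu hd hy hp hH)
      · exact Or.inr (Or.inl hD)
  · exfalso
    refine A'.false' F (fun ψ hψ => ?_) (fun q hq j => ?_)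
    · obtain ⟨ρ, hρ⟩ := h.1 ψ hψ
      exact ⟨ρ, (tdk_of_tda F hL hc hψ c2_zero hu hd hK0 hρ).mono hK'⟩
    · obtain ⟨ρ, hρ⟩ := h.2 q hq j
      exact ⟨ρ, (tdk_of_tda F hL hc (Coh Γ).zero_mem (hq.pot F j).c2 hu hd hK0 hρ).mono hK'⟩

theorem dense_good' (F : Deck Γ) (hL : Tonelli Γ L) (h3 : ContDiffOn ℝ 3 L TH)
    (e : (Fin b → ℝ) ≃ₗ[ℝ] Coh Γ) {f : ℂ → ℝ} (hf : Pot Γ f) (k : ℕ) {δ : ℝ} (hδ : 0 < δ) :
    ∃ g, Pot Γ g ∧ Near k δ f g ∧ ∀ᵐ t, Gs (addP L g) (e t : Γ → ℝ) := by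
  obtain ⟨k₀, hk₀⟩ := F.three
  obtain ⟨ε, P, hP, hN⟩ := exists_pert F (max k k₀) hδ
  have hL' : Tonelli Γ (addP L f) := hL.add F hf.c2
  have hb : ∀ R : ℝ, ∃ M : ℝ, ∀ g ∈ Set.range P, ∀ j ≤ 3, ∀ z ∈ KB R,
      ‖iteratedFDeriv ℝ j g z‖ ≤ M := fun R => by
    obtain ⟨M, hM⟩ := hk₀ δ R
    refine ⟨M, ?_⟩
    rintro _ ⟨a, rfl⟩
    have h1 := (hN a 0).mono (le_max_right k k₀)
    rw [zero_add] at h1
    exact hM _ (hP.pot a) h1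
  have hl : Lip2 (addP (addP L f) '' Set.range P) :=
    lip2_of_three (Γ := Γ) (hf.three h3) (by rintro _ ⟨a, rfl⟩; exact hP.pot a) hb
  obtain ⟨a, ⟨h1, h2⟩, h4⟩ := (((hP.ae_tdall F hL' e).and (hP.ae_nondeg F hL')).and
    (hP.ae_nodegO F hL' e (bddC2_of_three hb) hl)).exists
  refine ⟨f + P a, hf.add (hP.pot a), (hN a f).mono (le_max_left k k₀), ?_⟩
  rw [addP_addP] at h1 h2 h4
  filter_upwards [h1, h4] with t ht ht'
  rcases ht.gs_or' F (hL.add F (hf.add (hP.pot a)).c2) (e t).2 with h5 | h5 | h5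
  · exact h5
  · exact absurd h5 h2
  · exact absurd h5 ht'

theorem main' (F : Deck Γ) (hL : Tonelli Γ L) (h3 : (∀ γ : Γ, Ori γ) ∨ ContDiffOn ℝ 3 L TH) :
    ∃ b : ℕ, Nonempty ((Fin b → ℝ) ≃ₗ[ℝ] Coh Γ) ∧ ∃ O : ℕ → Set (ℂ → ℝ),
      (∀ n, OpenDense Γ (O n)) ∧ ∀ f, Pot Γ f → (∀ n, f ∈ O n) →
        ∀ e : (Fin b → ℝ) ≃ₗ[ℝ] Coh Γ, ∀ᵐ t, Good Γ (addP L f) (e t : Γ → ℝ) := by
  rcases h3 with ho | h3
  · exact main F ho hL
  obtain ⟨b, ⟨e₀⟩⟩ := F.dim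
  obtain ⟨O, hO, hG⟩ := residual_good F hL e₀ fun f hf k δ hδ => dense_good' F hL h3 e₀ hf k hδ
  refine ⟨b, ⟨e₀⟩, O, hO, fun f hf hfO e => ?_⟩
  have h1 := ae_transfer e₀ e (P := fun c : Coh Γ => Gs (addP L f) (c : Γ → ℝ)) (hG f hf hfO)
  filter_upwards [h1] with t ht
  exact ht.good F (hL.add F hf.c2) (e t).2

end Pool.Agent.Lib.MP_5bb885_an.Gen
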