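import Pool.Agent.Lib.MP_5bb885_an.T18Tw2

/-!
Very close returns force a rational rotation vector, which is impossible.
-/

namespace Pool.Agent.Lib.MP_5bb885_an.Gen

open UpperHalfPlane MeasureTheory Filter Topology

variable {Γ : Type} [Group Γ] [MulAction Γ ℍ] {K : Set ℍ} {Φ : ℝ → ℍ → ℍ} {V : ℍ → ℂ} {q : Bx}
  {r τ₁ τ₂ ε₁ : ℝ} {τ : ℍ → ℝ} {g : ℍ → Γ} {R : ℍ → ℍ}

lemma t18rat_fin (c lam : ℝ) : {y : ℝ | y ∈ Set.Icc (0 : ℝ) 1 ∧ ∃ n : ℤ, y = c + lam * n}.Finite := by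
  rcases eq_or_ne lam 0 with h0 | h0
  · refine (Set.finite_singleton c).subset ?_
    rintro y ⟨-, n, rfl⟩
    simp [h0]
  · obtain ⟨M, hM⟩ := exists_nat_ge ((1 + |c|) / |lam|)
    refine ((Set.finite_Icc (-(M : ℤ)) M).image fun n : ℤ => c + lam * n).subset ?_
    rintro y ⟨⟨h1, h2⟩, n, rfl⟩
    refine ⟨n, ?_, rfl⟩
    have hl : 0 < |lam| := abs_pos.2 h0
    rw [div_le_iff₀ hl] at hM
    have h3 : |lam * n| ≤ 1 + |c| := by
      rw [abs_le]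
      constructor <;> linarith [le_abs_self c, neg_abs_le c]
    rw [abs_mul] at h3
    have h4 : |(n : ℝ)| ≤ M := by
      refine le_of_mul_le_mul_left ?_ hl
      linarith
    have h5 : |n| ≤ (M : ℤ) := by exact_mod_cast h4
    exact abs_le.1 h5

lemma t18rat_three {f : ℕ → ℝ} {s : Set ℝ} (hs : s.Finite) (h : ∀ k, f k ∈ s) :
    ∃ i j k : ℕ, i ≠ j ∧ j ≠ k ∧ i ≠ k ∧ f i = f j ∧ f j = f k := by
  have : Finite s := hs.to_subtype
  obtain ⟨y, hy⟩ := Finite.exists_infinite_fiber fun k : ℕ => (⟨f k, h k⟩ : s)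
  have hi : ((fun k : ℕ => (⟨f k, h k⟩ : s)) ⁻¹' {y}).Infinite := Set.infinite_coe_iff.1 hy
  obtain ⟨i, hi1⟩ := hi.nonempty
  obtain ⟨j, hj1, hj2⟩ := hi.exists_gt i
  obtain ⟨k, hk1, hk2⟩ := hi.exists_gt j
  have e1 : f i = y := congrArg Subtype.val hi1
  have e2 : f j = y := congrArg Subtype.val hj1
  have e3 : f k = y := congrArg Subtype.val hk1
  exact ⟨i, j, k, hj2.ne, hk2.ne, (hj2.trans hk2).ne, e1.trans e2.symm, e2.trans e3.symm⟩

lemma t18rat_sqrt (C t : ℝ) :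
    Tendsto (fun N : ℕ => C * (1 + √(N * t)) / N) atTop (𝓝 0) := by
  have h1 : Tendsto (fun N : ℕ => (1 : ℝ) / N) atTop (𝓝 0) := tendsto_one_div_atTop_nhds_zero_nat
  have h2 : Tendsto (fun N : ℕ => √(t / N)) atTop (𝓝 0) := by
    have h3 := (tendsto_const_div_atTop_nhds_zero_nat t).sqrt
    rwa [Real.sqrt_zero] at h3
  have h4 := (h1.add h2).const_mul C
  rw [add_zero, mul_zero] at h4
  refine h4.congr' ?_
  filter_upwards [eventually_gt_atTop 0] with N hN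
  have hN' : (0 : ℝ) < N := by exact_mod_cast hN
  have e : √(N * t) = N * √(t / N) := by
    rw [show (N : ℝ) * t = (N : ℝ) ^ 2 * (t / N) by field_simp, Real.sqrt_mul (by positivity),
      Real.sqrt_sq hN'.le]
  rw [e]
  field_simp

lemma t18rat_lim (F : Deck Γ) (A : Lam Γ K Φ V) (S : Sec Γ K Φ V q r)
    (H : Ret K Φ q τ g R τ₁ τ₂ ε₁) {ψ : Γ → ℝ} {ρ tb : ℝ} (h : TDK K Φ ψ 0 ρ) {x : ℍ}
    (hx : x ∈ K ∩ q.ln) {l : Filter ℕ} (hl : l ≤ atTop)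
    (ht : HasM l (fun k => τ (R^[k] x)) tb) :
    Tendsto (fun N : ℕ => ψ (Gk g R x N) / N) l (𝓝 (ρ * tb)) := by
  obtain ⟨D, hD, hd⟩ := S.dist_le
  obtain ⟨C, hC, hB⟩ := h.seg A H.lo (D * (q.b - q.a))
  have h1 : Tendsto (fun N : ℕ => (ψ (Gk g R x N) - ρ * tk τ R x N) / N) atTop (𝓝 0) := by
    refine squeeze_zero_norm' ?_ (t18rat_sqrt C τ₂)
    filter_upwards [eventually_ge_atTop 1] with N hN
    have hN1 : (1 : ℝ) ≤ N := by exact_mod_cast hN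
    have h2 := H.tk_bd hx N
    have h3 : τ₁ ≤ tk τ R x N := by nlinarith [H.lo]
    have h4 : dist (Φ (tk τ R x N) x) (Gk g R x N • x) ≤ D * (q.b - q.a) := by
      rw [H.flow A hx N, F.iso]
      refine (hd _ (H.iter hx N).2 _ hx.2).trans (mul_le_mul_of_nonneg_left ?_ hD.le)
      have h5 := hx.2.2
      have h6 := (H.iter hx N).2.2
      rw [abs_le]
      constructor <;> linarith [h5.1, h5.2, h6.1, h6.2]
    have h5 := hB x hx.1 _ _ h3 h4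
    simp only [Pi.zero_apply, intervalIntegral.integral_zero, sub_zero] at h5
    rw [Real.norm_eq_abs, abs_div, abs_of_pos (show (0 : ℝ) < N by linarith)]
    refine div_le_div_of_nonneg_right (h5.trans (mul_le_mul_of_nonneg_left ?_ hC)) (by linarith)
    linarith [Real.sqrt_le_sqrt h2.2]
  have h2 := (h1.mono_left hl).add (Tendsto.const_mul ρ ht)
  rw [zero_add] at h2
  refine h2.congr fun N => ?_
  rw [tk]
  ring

theorem Ret.false_of_rat (F : Deck Γ) (A : Aper Γ K Φ V) (S : Sec Γ K Φ V q r)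
    (H : Ret K Φ q τ g R τ₁ τ₂ ε₁) (h : ∀ ψ ∈ Coh Γ, ∃ ρ, TDK K Φ ψ 0 ρ) {μ : ℝ} {G : Γ}
    (hr : ∀ ψ ∈ Coh Γ, ∀ ρ, TDK K Φ ψ 0 ρ → ρ = μ * ψ G) : False := by
  obtain ⟨x₀, hx⟩ := S.ne
  have hl : (Ultrafilter.of (atTop : Filter ℕ) : Filter ℕ) ≤ atTop := Ultrafilter.of_le _
  obtain ⟨θ, hθ⟩ := H.exists_cdf F A S hx _ hl
  obtain ⟨β, hb, hsh, hψ⟩ := hθ.exists_shift' F A S H hx hl
  obtain ⟨tb, htb⟩ := HasM.exists (Ultrafilter.of (atTop : Filter ℕ))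
    (a := fun k => τ (R^[k] x₀)) (C := τ₂) (fun k => by
      have h1 := H.bd _ (H.iter hx k)
      rw [abs_of_pos (H.lo.trans_le h1.1)]
      exact h1.2)
  have hlat : ∀ γ : Γ, Ori γ → ∃ n : ℤ, β γ = μ * tb * n := by
    intro γ ho
    obtain ⟨ψ, h1, h2⟩ := hψ γ ho
    obtain ⟨ρ, h3⟩ := h _ h1
    have h4 := t18rat_lim F A.toLam S H h3 hx hl htb
    refine ⟨ψ G, ?_⟩
    rw [tendsto_nhds_unique h2 h4, hr _ h1 ρ h3]
    ring
  have hσ : ∃ c : ℝ, ∀ γ : Γ, ¬Ori γ → ∃ n : ℤ, β γ = c + μ * tb * n := by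
    by_cases hall : ∀ γ : Γ, Ori γ
    · exact ⟨0, fun γ hγ => absurd (hall γ) hγ⟩
    · obtain ⟨σ, hσ⟩ := not_forall.1 hall
      refine ⟨β σ, fun γ hγ => ?_⟩
      have h1 : sg σ = -1 := ((sg_cases σ).resolve_left fun h => hσ h.1).2
      have h2 : sg γ = -1 := ((sg_cases γ).resolve_left fun h => hγ h.1).2
      have h3 : sg (γ * σ⁻¹) = 1 := by rw [F.sg_mul, F.sg_inv, h1, h2]; norm_num
      have h4 : Ori (γ * σ⁻¹) := by
        rcases sg_cases (γ * σ⁻¹) with h5 | h5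
        · exact h5.1
        · rw [h5.2] at h3
          norm_num at h3
      obtain ⟨n, hn⟩ := hlat _ h4
      have h5 := hb (γ * σ⁻¹) σ
      rw [inv_mul_cancel_right, h3, hn] at h5
      exact ⟨n, by rw [h5]; ring⟩
  obtain ⟨c, hc⟩ := hσ
  obtain ⟨i, j, k, h1, h2, h3, h4, h5⟩ := t18rat_three (f := fun k => θ (q.ht (R^[k] x₀)))
    ((t18rat_fin (θ (q.ht x₀)) (μ * tb)).union (t18rat_fin (c - θ (q.ht x₀)) (μ * tb)))
    (fun k => by
      have h1 := shift_iter' F H hb hsh hx k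
      have h2 := hθ.mem S (H.iter hx k)
      rcases sg_cases (Gk g R x₀ k) with h3 | h3
      · obtain ⟨n, hn⟩ := hlat _ h3.1
        rw [h3.2, hn] at h1
        exact Or.inl ⟨h2, -n, by push_cast; linarith⟩
      · obtain ⟨n, hn⟩ := hc _ h3.1
        rw [h3.2, hn] at h1
        exact Or.inr ⟨h2, n, by linarith⟩)
  rcases hθ.three S (H.iter hx i) (H.iter hx j) (H.iter hx k) h4 h5 with k5 | k5 | k5
  · exact h1 (H.inj F A hx k5)
  · exact h2 (H.inj F A hx k5)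
  · exact h3 (H.inj F A hx k5)

end Pool.Agent.Lib.MP_5bb885_an.Gen
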