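import Pool.Agent.Lib.MP_5bb885_an.T18Defs

/-!
The return time.
-/

namespace Pool.Agent.Lib.MP_5bb885_an.Gen

open UpperHalfPlane MeasureTheory Filter Topology

variable {Γ : Type} [Group Γ] [MulAction Γ ℍ] {K : Set ℍ} {Φ : ℝ → ℍ → ℍ} {V : ℍ → ℂ} {q : Bx}
  {r τ₁ τ₂ ε₁ : ℝ} {τ : ℍ → ℝ} {g : ℍ → Γ} {R : ℍ → ℍ} {x : ℍ} {y : ℝ}

lemma t18tau_close (F : Deck Γ) (A : Lam Γ K Φ V) (S : Sec Γ K Φ V q r)
    (H : Ret K Φ q τ g R τ₁ τ₂ ε₁) : ∃ D M : ℝ, 0 ≤ D ∧ 0 ≤ M ∧ ∀ x ∈ K ∩ q.ln, ∀ y ∈ K ∩ q.ln,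
      D * |q.ht x - q.ht y| ≤ 1 →
      ‖co q.p q.d ((g x)⁻¹ • Φ (τ x) y : ℍ) - co q.p q.d (R x)‖ ≤ M * |q.ht x - q.ht y| := by
  obtain ⟨ρ, hρ⟩ := S.isCompact_ln.isBounded.subset_closedBall I
  obtain ⟨C₁, hC₁, h₁⟩ := S.dist_le
  obtain ⟨C₂, hC₂, h₂⟩ := KB_cmp ρ
  obtain ⟨C₃, hC₃, h₃⟩ := A.loc ρ τ₂
  obtain ⟨C₄, hC₄, h₄⟩ := A.dist_le
  obtain ⟨C₅, hC₅, h₅⟩ := KB_cmp (ρ + C₄ * τ₂)
  obtain ⟨C₆, hC₆, h₆⟩ := KB_cmp (ρ + 1)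
  have hd : 0 < ‖q.d‖ := norm_pos_iff.2 S.ok.ne
  refine ⟨C₅ * (C₃ * (C₂ * C₁)), C₆ * (C₅ * (C₃ * (C₂ * C₁))) / ‖q.d‖, by positivity,
    by positivity, fun x hx y hy h1 => ?_⟩
  have hτ := H.bd x hx
  have hτ0 : |τ x| ≤ τ₂ := by
    rw [abs_of_pos (H.lo.trans_le hτ.1)]
    exact hτ.2
  have hb : ∀ z ∈ K ∩ q.ln, dist (Φ (τ x) z) I ≤ ρ + C₄ * τ₂ := by
    intro z hz
    have k1 := h₄ z hz.1 (τ x) 0
    rw [A.zero z hz.1, sub_zero] at k1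
    have k2 : dist z I ≤ ρ := hρ hz.2
    have k3 := dist_triangle (Φ (τ x) z) z I
    have k4 := mul_le_mul_of_nonneg_left hτ0 hC₄
    linarith
  have e1 : dist y x ≤ C₁ * |q.ht x - q.ht y| := by
    rw [dist_comm]
    exact h₁ x hx.2 y hy.2
  have e2 : ‖(y : ℂ) - x‖ ≤ C₂ * (C₁ * |q.ht x - q.ht y|) :=
    (h₂ y x (hρ hy.2) (hρ hx.2)).2.1.trans (mul_le_mul_of_nonneg_left e1 (by linarith))
  have e3 : ‖(Φ (τ x) y : ℂ) - Φ (τ x) x‖ ≤ C₃ * (C₂ * (C₁ * |q.ht x - q.ht y|)) :=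
    (h₃ y hy.1 x hx.1 (hρ hy.2) (hρ hx.2) (τ x) hτ0).1.trans (mul_le_mul_of_nonneg_left e2 hC₃)
  have e4 : dist (Φ (τ x) y) (Φ (τ x) x) ≤ C₅ * (C₃ * (C₂ * (C₁ * |q.ht x - q.ht y|))) :=
    (h₅ _ _ (hb y hy) (hb x hx)).1.trans (mul_le_mul_of_nonneg_left e3 (by linarith))
  have e5 : dist ((g x)⁻¹ • Φ (τ x) y) (R x) ≤ C₅ * (C₃ * (C₂ * C₁)) * |q.ht x - q.ht y| := by
    rw [← F.iso (g x), smul_inv_smul, ← H.hit x hx]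
    linarith
  have e6 : dist (R x) I ≤ ρ := hρ (H.map x hx).2
  have e7 : dist ((g x)⁻¹ • Φ (τ x) y) I ≤ ρ + 1 := by
    have k3 := dist_triangle ((g x)⁻¹ • Φ (τ x) y) (R x) I
    linarith
  have e8 := (h₆ _ (R x) e7 (by linarith)).2.1.trans (mul_le_mul_of_nonneg_left e5 (by linarith))
  rw [co_sub, norm_div, div_mul_eq_mul_div]
  refine div_le_div_of_nonneg_right ?_ hd.le
  linarith

lemma t18tau_le (F : Deck Γ) (A : Lam Γ K Φ V) (S : Sec Γ K Φ V q r)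
    (H : Ret K Φ q τ g R τ₁ τ₂ ε₁) : ∃ a Λ : ℝ, 0 < a ∧ 0 ≤ Λ ∧ ∀ x ∈ K ∩ q.ln, ∀ y ∈ K ∩ q.ln,
      |q.ht x - q.ht y| ≤ a → τ y - τ x ≤ Λ * |q.ht x - q.ht y| := by
  obtain ⟨D, M, hD, hM, h⟩ := t18tau_close F A S H
  have hw := S.ok.w
  have he := S.ok.e
  have hlo := H.lo
  obtain ⟨m, hm0, hm1, hm2, hm3, hm4⟩ : ∃ m : ℝ, 0 < m ∧ m ≤ 1 ∧ m ≤ q.w ∧ m ≤ q.e ∧
      m ≤ τ₁ / 2 :=
    ⟨min (min 1 q.w) (min q.e (τ₁ / 2)), by positivity,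
      (min_le_left _ _).trans (min_le_left _ _), (min_le_left _ _).trans (min_le_right _ _),
      (min_le_right _ _).trans (min_le_left _ _), (min_le_right _ _).trans (min_le_right _ _)⟩
  refine ⟨m / (D + M + 1), 10 / 9 * M, by positivity, by positivity, fun x hx y hy hxy => ?_⟩
  have h0 := abs_nonneg (q.ht x - q.ht y)
  rw [le_div_iff₀ (by positivity)] at hxy
  have k1 : D * |q.ht x - q.ht y| ≤ m := by nlinarith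
  have k2 : M * |q.ht x - q.ht y| ≤ m := by nlinarith
  have k3 := h x hx y hy (k1.trans hm1)
  have k4 := (Complex.abs_re_le_norm _).trans k3
  have k5 := (Complex.abs_im_le_norm _).trans k3
  have hR := H.map x hx
  rw [Complex.sub_re, hR.2.1, sub_zero] at k4
  rw [Complex.sub_im] at k5
  have hz : (g x)⁻¹ • Φ (τ x) y ∈ K := A.smul _ _ (A.map _ y hy.1)
  have hs : (((g x)⁻¹ • Φ (τ x) y : ℍ) : ℂ) ∈ q.supp := by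
    have k6 := abs_le.1 k5
    have k7 := hR.2.2.1
    have k8 := hR.2.2.2
    unfold Bx.ht at k7 k8
    exact ⟨by linarith, by linarith [k6.1], by linarith [k6.2]⟩
  obtain ⟨t, t1, t2, -⟩ := t9ret_hit A S hz hs
  rw [t9ret_flow A hy.1] at t2
  have t3 := abs_le.1 (t1.trans (mul_le_mul_of_nonneg_left k4 (by norm_num)))
  have t4 := (H.bd x hx).1
  by_contra hcon
  exact H.first y hy (t + τ x) ⟨by linarith [t3.1], by linarith [t3.2, not_le.1 hcon]⟩ _ t2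

/-- The return time is Lipschitz at a small scale. -/
theorem Ret.tau_lip (F : Deck Γ) (A : Lam Γ K Φ V) (S : Sec Γ K Φ V q r)
    (H : Ret K Φ q τ g R τ₁ τ₂ ε₁) : ∃ a Λ : ℝ, 0 < a ∧ 0 ≤ Λ ∧ ∀ x ∈ K ∩ q.ln, ∀ y ∈ K ∩ q.ln,
      |q.ht x - q.ht y| ≤ a → |τ x - τ y| ≤ Λ * |q.ht x - q.ht y| := by
  obtain ⟨a, Λ, ha, hΛ, h⟩ := t18tau_le F A S H
  refine ⟨a, Λ, ha, hΛ, fun x hx y hy hxy => abs_le.2 ⟨?_, ?_⟩⟩
  · linarith [h x hx y hy hxy]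
  · have h1 := h y hy x hx (by rwa [abs_sub_comm])
    rwa [abs_sub_comm] at h1

end Pool.Agent.Lib.MP_5bb885_an.Gen
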