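import Pool.Agent.Lib.MP_5bb885_an.T18Flip
import Pool.Agent.Lib.MP_5bb885_an.T18Lat
import Pool.Agent.Lib.MP_5bb885_an.T18Rat
import Pool.Agent.Lib.MP_5bb885_an.T18Glue2
import Pool.Agent.Lib.MP_5bb885_an.T18Tau
import Pool.Agent.Lib.MP_5bb885_an.T18Cases

/-!
Second order bounds exclude minimal sets without closed orbits on all surfaces.
-/

namespace Pool.Agent.Lib.MP_5bb885_an.Gen

open UpperHalfPlane MeasureTheory Filter Topology

variable {Γ : Type} [Group Γ] [MulAction Γ ℍ] {K : Set ℍ} {Φ : ℝ → ℍ → ℍ} {V : ℍ → ℂ}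

theorem Aper.false' (F : Deck Γ) (A : Aper Γ K Φ V) (h1 : ∀ ψ ∈ Coh Γ, ∃ ρ, TDK K Φ ψ 0 ρ)
    (h2 : ∀ q : Bx, q.Ok → ∀ j, ∃ ρ, TDK K Φ (0 : Γ → ℝ) (fam Γ q j) ρ) : False := by
  rcases A.cases F with hf | ho
  · obtain ⟨R₀, hsec⟩ := A.exists_sec F
    obtain ⟨q, r, -, S, -⟩ := hsec 1 one_pos
    obtain ⟨τ, g, R, τ₁, τ₂, ε₁, H⟩ := S.exists_ret F A
    obtain ⟨a, Λ, ha, hΛ, hl⟩ := H.tau_lip F A.toLam S
    obtain ⟨Λ', hΛ', hk⟩ := H.tk_sub F A.toLam S h2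
    have hs : Short (q.hs K) (q.rm R) := by
      refine (H.fi F A S hf).short (τ := fun y => τ (q.pt y)) (τ₂ := τ₂) (Λ := Λ + Λ') H.lo ha
        (fun x hx => H.bd _ (S.pt_mem hx).1) (fun x hx y hy hxy => ?_) fun u u' h3 h4 h5 => ?_
      · have h3 := hl _ (S.pt_mem hx).1 _ (S.pt_mem hy).1
        rw [(S.pt_mem hx).2, (S.pt_mem hy).2] at h3
        exact (h3 hxy).trans (mul_le_mul_of_nonneg_right (by linarith) (abs_nonneg _))
      · obtain ⟨w, ρ, B, hw, k1, k2, k3, k4⟩ := hk u u' h3 h4 h5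
        refine ⟨w, ρ, B, hw, k1, k2, fun x hx y hy a1 a2 => (k3 x hx y hy a1 a2).trans ?_, k4⟩
        gcongr
        linarith
    obtain ⟨C, hC⟩ := hs
    obtain ⟨μ, G, hr⟩ := H.rat F A.toLam S h1 (a := 3) (b := 10) (by norm_num) (C := C) (by
      filter_upwards [hC] with m ⟨x, hx, k, k1, k2, k3⟩
      refine ⟨q.pt x, (S.pt_mem hx).1, k, k1, k2, ?_⟩
      rw [← H.rm_iter S (S.pt_mem hx).1, (S.pt_mem hx).2]
      exact k3)
    exact H.false_of_rat F A S h1 hr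
  · obtain ⟨R₀, hsec⟩ := A.exists_sec F
    obtain ⟨r₁, hr₁, hsig⟩ := A.toLam.signal R₀
    obtain ⟨ρ₀, hρ₀, hori⟩ := ho R₀
    obtain ⟨q, r, hr, S, hin⟩ := hsec (Min.min r₁ ρ₀) (lt_min hr₁ hρ₀)
    obtain ⟨τ, g, R, τ₁, τ₂, ε₁, H⟩ := S.exists_ret F A
    obtain ⟨x₀, hx⟩ := S.ne
    have hl : (Ultrafilter.of (atTop : Filter ℕ) : Filter ℕ) ≤ atTop := Ultrafilter.of_le _
    obtain ⟨θ, hθ⟩ := H.exists_cdf F A S hx _ hl
    obtain ⟨b, -, hsh, -⟩ := hθ.exists_shift' F A S H hx hl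
    have hsh' : ∀ x ∈ K ∩ q.ln, θ (q.ht x) - θ (q.ht (R x)) = b (g x) := fun x hx' => by
      have h3 := hori q r (hr.trans (min_le_right _ _)) S hin x hx' _ (H.map x hx') _ _
        (H.hit x hx')
      have h4 : sg (g x) = 1 := if_pos h3
      rw [hsh x hx', h4]
      ring
    obtain ⟨κ, hκ, hT⟩ := H.kappa F A.toLam S (h2 q S.ok)
    have hw := S.ok.w
    obtain ⟨C, hC⟩ := close_returns F A.toLam S H hx hl hθ hsh' (c := q.w / 4) (by positivity) hT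
      (hsig q r (hr.trans (min_le_left _ _)) S hin κ hκ)
    obtain ⟨μ, G, hr⟩ := H.rat F A.toLam S h1 (a := 2) (b := 8) (by norm_num) (C := C) (by
      filter_upwards [hC] with m ⟨i, j, k, k1, k2, k3, k4, _⟩
      refine ⟨R^[i] x₀, H.iter hx i, j - i, Nat.sub_pos_of_lt k1, ?_, ?_⟩
      · have k6 : (j : ℝ) ≤ k := by exact_mod_cast k2.le
        rw [Nat.cast_sub k1.le, show 2 * 2 = 4 from rfl]
        linarith
      · rwa [← Function.iterate_add_apply, Nat.sub_add_cancel k1.le])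
    exact H.false_of_rat F A S h1 hr

end Pool.Agent.Lib.MP_5bb885_an.Gen
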