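import Pool.Agent.Lib.MP_5bb885_an.T18Defs

/-!
Winding numbers of closed chains.
-/

namespace Pool.Agent.Lib.MP_5bb885_an.Gen

open UpperHalfPlane MeasureTheory Filter Topology

variable {Γ : Type} [Group Γ] [MulAction Γ ℍ] {x : ℝ → ℍ}

lemma cr_int (h : C1 x) {z w : ℂ} (hz : ∀ τ, (x τ : ℂ) ≠ z) (hw : ∀ τ, (x τ : ℂ) ≠ w)
    (s t : ℝ) : ∃ n : ℤ, cr z w x s t = n := by
  have hp := Real.pi_pos
  set k : ℝ → ℂ := fun τ => vel x τ / (x τ - z) - vel x τ / (x τ - w) with hk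
  have cx := t9flux1_cx h
  have ck : Continuous k :=
    (h.cont.div (cx.sub continuous_const) fun τ => sub_ne_zero.2 (hz τ)).sub
      (h.cont.div (cx.sub continuous_const) fun τ => sub_ne_zero.2 (hw τ))
  set A : ℝ → ℂ := fun τ => ∫ σ in s..τ, k σ with hA
  have dA : ∀ τ, HasDerivAt A (k τ) τ := fun τ => (ck.integral_hasStrictDerivAt s τ).hasDerivAt
  have dq : ∀ τ, HasDerivAt (fun τ => ((x τ : ℂ) - z) / (x τ - w) * Complex.exp (-A τ)) 0 τ := by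
    intro τ
    refine ((t9flux1_der h (hz τ) (hw τ)).mul (dA τ).neg.cexp).congr_deriv ?_
    simp only [hk, Pi.neg_apply]
    ring
  have e := is_const_of_deriv_eq_zero (fun τ => (dq τ).differentiableAt)
    (fun τ => (dq τ).deriv) t s
  have e0 : A s = 0 := intervalIntegral.integral_same
  have e1 : ((x t : ℂ) - z) / (x t - w) = ((x s : ℂ) - z) / (x s - w) * Complex.exp (A t) := by
    rw [e0, neg_zero, Complex.exp_zero, mul_one] at e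
    rw [← e, mul_assoc, ← Complex.exp_add, neg_add_cancel, Complex.exp_zero, mul_one]
  obtain ⟨n, hn⟩ := t9flux1_mul (a := ((x s : ℂ) - z) / (x s - w))
    (div_ne_zero (sub_ne_zero.2 (hz s)) (sub_ne_zero.2 (hw s))) (Complex.exp_ne_zero (A t))
  obtain ⟨m, hm⟩ := Complex.log_exp_exists (A t)
  have e2 : Complex.arg (Complex.exp (A t)) = (A t).im + m * (2 * Real.pi) := by
    have := congrArg Complex.im hm
    rw [Complex.log_im] at this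
    rw [this]
    simp
  have e3 : ∫ τ in s..t, (k τ).im = (A t).im :=
    Complex.imCLM.intervalIntegral_comp_comm (ck.intervalIntegrable s t)
  refine ⟨-(m + n), ?_⟩
  simp only [cr, Wq, ar]
  rw [e1, hn, e2]
  change (∫ τ in s..t, (k τ).im) / (2 * Real.pi) - _ = _
  rw [e3]
  push_cast
  field_simp
  ring

lemma t18pd1_bdd (h : C1 x) (s t : ℝ) : ∃ R : ℝ, ∀ τ ∈ Set.Icc s t, dist (x τ) I ≤ R := by
  obtain ⟨R, hR⟩ := (isCompact_Icc.image (t9flux1_cx' h)).isBounded.subset_closedBall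
    (I : ℍ) (s := x '' Set.Icc s t)
  exact ⟨R, fun τ hτ => hR ⟨τ, hτ, rfl⟩⟩

lemma C1.flux_finite (F : Deck Γ) (h : C1 x) (z w : ℍ) {s t : ℝ} (hst : s ≤ t) :
    (Function.support fun γ : Γ => cr z w (fun τ => γ • x τ) s t).Finite := by
  obtain ⟨R, hR⟩ := t18pd1_bdd h s t
  refine (F.fin' (max R (max (dist z I) (dist w I)))).subset fun γ hγ => ?_
  by_contra H
  refine hγ (cr_zero (h.smul F γ) hst fun τ hτ hm => H ⟨x τ, le_max_of_le_left (hR τ hτ),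
    le_max_of_le_right (mem_KB.1 ?_)⟩)
  exact (convex_KB _).segment_subset (mem_KB.2 (le_max_left _ _)) (mem_KB.2 (le_max_right _ _)) hm

lemma C1.flux_int (F : Deck Γ) (h : C1 x) {z w : ℍ} (hz : ∀ (δ : Γ) (τ : ℝ), δ • x τ ≠ z)
    (hw : ∀ (δ : Γ) (τ : ℝ), δ • x τ ≠ w) {s t : ℝ} (hst : s ≤ t) :
    ∃ n : ℤ, flux Γ z w x s t = n := by
  refine finsum_induction (fun r : ℝ => ∃ n : ℤ, r = n) ⟨0, by simp⟩ ?_ fun γ => ?_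
  · rintro _ _ ⟨a, rfl⟩ ⟨b, rfl⟩
    exact ⟨a + b, by simp⟩
  · exact cr_int (h.smul F γ) (fun τ e => hz γ τ (UpperHalfPlane.ext e))
      (fun τ e => hw γ τ (UpperHalfPlane.ext e)) s t

lemma flux_translate (δ : Γ) (z w : ℂ) (x : ℝ → ℍ) (s t : ℝ) :
    flux Γ z w (fun τ => δ • x τ) s t = flux Γ z w x s t := by
  unfold flux
  rw [← finsum_comp_equiv (Equiv.mulRight δ) (f := fun γ => cr z w (fun τ => γ • x τ) s t)]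
  simp only [Equiv.coe_mulRight, mul_smul]

lemma t18pd1_add (h : C1 x) {z w v : ℂ} {s t : ℝ} (hst : s ≤ t)
    (hz : ∀ τ ∈ Set.Icc s t, (x τ : ℂ) ≠ z) (hw : ∀ τ ∈ Set.Icc s t, (x τ : ℂ) ≠ w)
    (hv : ∀ τ ∈ Set.Icc s t, (x τ : ℂ) ≠ v) : Wq z w x s t + Wq w v x s t = Wq z v x s t := by
  have hI : Set.uIcc s t = Set.Icc s t := Set.uIcc_of_le hst
  simp only [Wq]
  rw [← add_div, ← intervalIntegral.integral_add
    (ContinuousOn.intervalIntegrable fun τ hτ =>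
      (t9flux1_contAt h (hz τ (hI ▸ hτ)) (hw τ (hI ▸ hτ))).continuousWithinAt)
    (ContinuousOn.intervalIntegrable fun τ hτ =>
      (t9flux1_contAt h (hw τ (hI ▸ hτ)) (hv τ (hI ▸ hτ))).continuousWithinAt)]
  congr 2
  funext τ
  rw [← Complex.add_im, sub_add_sub_cancel]

/-- The relative winding number of a closed chain. -/
noncomputable def t18pd1W (a₁ a₂ a₃ : ℝ → ℍ) (s₁ t₁ s₂ t₂ s₃ t₃ : ℝ) (z w : ℂ) : ℝ :=
  Wq z w a₁ s₁ t₁ + Wq z w a₂ s₂ t₂ - Wq z w a₃ s₃ t₃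

section
variable {a₁ a₂ a₃ : ℝ → ℍ} {s₁ t₁ s₂ t₂ s₃ t₃ : ℝ}

lemma t18pd1_cr (e₁ : a₁ t₁ = a₂ s₂) (e₂ : a₁ s₁ = a₃ s₃) (e₃ : a₂ t₂ = a₃ t₃) (z w : ℂ) :
    cr z w a₁ s₁ t₁ + cr z w a₂ s₂ t₂ - cr z w a₃ s₃ t₃ =
      t18pd1W a₁ a₂ a₃ s₁ t₁ s₂ t₂ s₃ t₃ z w := by
  simp only [cr, t18pd1W, e₁, e₂, e₃]
  ring

lemma t18pd1_zero (h₁ : C1 a₁) (h₂ : C1 a₂) (h₃ : C1 a₃) (l₁ : s₁ ≤ t₁) (l₂ : s₂ ≤ t₂)
    (l₃ : s₃ ≤ t₃) (e₁ : a₁ t₁ = a₂ s₂) (e₂ : a₁ s₁ = a₃ s₃) (e₃ : a₂ t₂ = a₃ t₃) {Q : Set ℂ}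
    (hQ : IsClosed Q) (q₁ : ∀ τ ∈ Set.Icc s₁ t₁, (a₁ τ : ℂ) ∈ Q)
    (q₂ : ∀ τ ∈ Set.Icc s₂ t₂, (a₂ τ : ℂ) ∈ Q) (q₃ : ∀ τ ∈ Set.Icc s₃ t₃, (a₃ τ : ℂ) ∈ Q)
    {S : Set ℍ} (hS : IsPreconnected S) (hSQ : ∀ ζ ∈ S, (ζ : ℂ) ∉ Q) {z w : ℍ} (hz : z ∈ S)
    (hw : w ∈ S) : t18pd1W a₁ a₂ a₃ s₁ t₁ s₂ t₂ s₃ t₃ z w = 0 := by
  have loc : ∀ p q : ℂ, segment ℝ p q ⊆ Qᶜ → t18pd1W a₁ a₂ a₃ s₁ t₁ s₂ t₂ s₃ t₃ p q = 0 := by
    intro p q H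
    rw [← t18pd1_cr e₁ e₂ e₃, cr_zero h₁ l₁ fun τ hτ hm => H hm (q₁ τ hτ),
      cr_zero h₂ l₂ fun τ hτ hm => H hm (q₂ τ hτ), cr_zero h₃ l₃ fun τ hτ hm => H hm (q₃ τ hτ)]
    ring
  refine hS.induction₂' (fun p q : ℍ => t18pd1W a₁ a₂ a₃ s₁ t₁ s₂ t₂ s₃ t₃ p q = 0)
    (fun p hp => ?_) (fun p q v hp hq hv H₁ H₂ => ?_) hz hw
  · obtain ⟨ε, hε, hb⟩ := Metric.isOpen_iff.1 hQ.isOpen_compl p (hSQ p hp)
    have h1 : ∀ᶠ q : ℍ in 𝓝 p, (q : ℂ) ∈ Metric.ball (p : ℂ) ε :=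
      continuous_coe.continuousAt.eventually (Metric.ball_mem_nhds _ hε)
    filter_upwards [h1.filter_mono nhdsWithin_le_nhds] with q hq
    exact ⟨loc _ _ (((convex_ball _ _).segment_subset (Metric.mem_ball_self hε) hq).trans hb),
      loc _ _ (((convex_ball _ _).segment_subset hq (Metric.mem_ball_self hε)).trans hb)⟩
  · have n : ∀ {a : ℝ → ℍ} {s t : ℝ}, (∀ τ ∈ Set.Icc s t, (a τ : ℂ) ∈ Q) → ∀ ζ ∈ S,
        ∀ τ ∈ Set.Icc s t, (a τ : ℂ) ≠ ζ := fun q ζ hζ τ hτ e => hSQ ζ hζ (e ▸ q τ hτ)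
    have b₁ := t18pd1_add h₁ l₁ (n q₁ p hp) (n q₁ q hq) (n q₁ v hv)
    have b₂ := t18pd1_add h₂ l₂ (n q₂ p hp) (n q₂ q hq) (n q₂ v hv)
    have b₃ := t18pd1_add h₃ l₃ (n q₃ p hp) (n q₃ q hq) (n q₃ v hv)
    simp only [t18pd1W] at H₁ H₂ ⊢
    linarith

end

lemma t18pd1_unb (R : ℝ) : ∃ u : ℍ, R < dist u I := by
  refine ⟨⟨(Real.exp (|R| + 1) : ℂ) * Complex.I, by simp [-Complex.ofReal_exp, Real.exp_pos]⟩, ?_⟩
  rw [UpperHalfPlane.dist_of_re_eq (by simp [-Complex.ofReal_exp])]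
  simp only [UpperHalfPlane.I_im, Real.log_one, Real.dist_eq, sub_zero]
  have e : (⟨(Real.exp (|R| + 1) : ℂ) * Complex.I, by
      simp [-Complex.ofReal_exp, Real.exp_pos]⟩ : ℍ).im = Real.exp (|R| + 1) := by
    change ((Real.exp (|R| + 1) : ℂ) * Complex.I).im = _
    simp [-Complex.ofReal_exp]
  rw [e, Real.log_exp]
  have := le_abs_self R
  have := le_abs_self (|R| + 1)
  linarith

lemma t18pd1_far (F : Deck Γ) (z : ℍ) (ρ : ℝ) : ∃ δ : Γ, ρ < dist (δ • z) I := by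
  obtain ⟨R, hR⟩ := F.cpt
  obtain ⟨u, hu⟩ := t18pd1_unb (ρ + R + dist z I)
  obtain ⟨γ, hγ⟩ := hR u
  refine ⟨γ⁻¹, ?_⟩
  have h1 : dist u (γ⁻¹ • I) ≤ R := by rwa [← F.iso γ, smul_inv_smul]
  have h2 : dist (γ⁻¹ • I) (γ⁻¹ • z) = dist z I := by rw [F.iso, dist_comm]
  have h3 := dist_triangle4 u (γ⁻¹ • I) (γ⁻¹ • z) I
  linarith

/-- The flux through a closed curve of the surface depends only on the end points. -/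
theorem flux_tri (F : Deck Γ) {γ : Γ} (ho : Ori γ) {z : ℍ} {a₁ a₂ a₃ : ℝ → ℍ} (h₁ : C1 a₁)
    (h₂ : C1 a₂) (h₃ : C1 a₃) (n₁ : ∀ (δ : Γ) (τ : ℝ), δ • a₁ τ ≠ z)
    (n₂ : ∀ (δ : Γ) (τ : ℝ), δ • a₂ τ ≠ z) (n₃ : ∀ (δ : Γ) (τ : ℝ), δ • a₃ τ ≠ z)
    {s₁ t₁ s₂ t₂ s₃ t₃ : ℝ} (l₁ : s₁ ≤ t₁) (l₂ : s₂ ≤ t₂) (l₃ : s₃ ≤ t₃) (e₁ : a₁ t₁ = a₂ s₂)
    (e₂ : a₁ s₁ = a₃ s₃) (e₃ : a₂ t₂ = a₃ t₃) :
    flux Γ z (γ • z : ℍ) a₁ s₁ t₁ + flux Γ z (γ • z : ℍ) a₂ s₂ t₂ =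
      flux Γ z (γ • z : ℍ) a₃ s₃ t₃ := by
  obtain ⟨R₁, hR₁⟩ := t18pd1_bdd h₁ s₁ t₁
  obtain ⟨R₂, hR₂⟩ := t18pd1_bdd h₂ s₂ t₂
  obtain ⟨R₃, hR₃⟩ := t18pd1_bdd h₃ s₃ t₃
  set ρ := max R₁ (max R₂ R₃) with hρ
  have r₁ : R₁ ≤ ρ := le_max_left _ _
  have r₂ : R₂ ≤ ρ := (le_max_left _ _).trans (le_max_right _ _)
  have r₃ : R₃ ≤ ρ := (le_max_right _ _).trans (le_max_right _ _)
  obtain ⟨δ, hδ⟩ := t18pd1_far F z ρ
  have n : ∀ {a : ℝ → ℍ}, (∀ (δ : Γ) (τ : ℝ), δ • a τ ≠ z) → ∀ (g k : Γ) (τ : ℝ),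
      g • a τ ≠ k • z := fun {a} H g k τ e =>
    H (k⁻¹ * g) τ (by rw [mul_smul, e, inv_smul_smul])
  have n' : ∀ {a : ℝ → ℍ}, (∀ (δ : Γ) (τ : ℝ), δ • a τ ≠ z) → ∀ (g k : Γ) (τ : ℝ),
      ((g • a τ : ℍ) : ℂ) ≠ (k • z : ℍ) := fun H g k τ e => n H g k τ (UpperHalfPlane.ext e)
  have n'' : ∀ {a : ℝ → ℍ}, (∀ (δ : Γ) (τ : ℝ), δ • a τ ≠ z) → ∀ (g : Γ) (τ : ℝ),
      ((g • a τ : ℍ) : ℂ) ≠ z := fun H g τ e => H g τ (UpperHalfPlane.ext e)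
  set W : Γ → ℝ := fun g => t18pd1W (fun τ => g • a₁ τ) (fun τ => g • a₂ τ) (fun τ => g • a₃ τ)
    s₁ t₁ s₂ t₂ s₃ t₃ z (g • δ • z : ℍ) with hW
  have fin : (Function.support W).Finite := by
    refine (F.fin (ρ + dist z I)).subset fun g hg => ?_
    by_contra H
    rw [Set.mem_setOf_eq, not_le] at H
    have q : ∀ {a : ℝ → ℍ} {s t R : ℝ}, (∀ τ ∈ Set.Icc s t, dist (a τ) I ≤ R) → R ≤ ρ →
        ∀ τ ∈ Set.Icc s t, ((g • a τ : ℍ) : ℂ) ∈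
          (fun z : ℍ => (z : ℂ)) '' Metric.closedBall (g • I) ρ := fun {a s t R} H hR τ hτ =>
      ⟨_, by rw [Metric.mem_closedBall, F.iso]; exact (H τ hτ).trans hR, rfl⟩
    refine hg (t18pd1_zero (h₁.smul F g) (h₂.smul F g) (h₃.smul F g) l₁ l₂ l₃
      (congrArg (g • ·) e₁) (congrArg (g • ·) e₂) (congrArg (g • ·) e₃)
      ((isCompact_closedBall (g • I : ℍ) ρ).image continuous_coe).isClosed
      (q hR₁ r₁) (q hR₂ r₂) (q hR₃ r₃)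
      ((isPreconnected_ext ρ).image _ (F.cont g).continuousOn) ?_ ?_ ⟨δ • z, hδ, rfl⟩)
    · rintro _ ⟨ζ, hζ, rfl⟩ ⟨p, hp, e⟩
      obtain rfl : p = g • ζ := UpperHalfPlane.ext e
      rw [Metric.mem_closedBall, F.iso] at hp
      exact absurd hp (not_le.2 hζ)
    · refine ⟨g⁻¹ • z, ?_, smul_inv_smul g z⟩
      rw [Set.mem_setOf_eq, ← F.iso g, smul_inv_smul]
      have := dist_triangle_left (g • I) I z
      linarith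
  have key : ∀ g : Γ, cr z (γ • z : ℍ) (fun τ => g • a₁ τ) s₁ t₁ +
      cr z (γ • z : ℍ) (fun τ => g • a₂ τ) s₂ t₂ - cr z (γ • z : ℍ) (fun τ => g • a₃ τ) s₃ t₃ =
      W g - W (γ⁻¹ * g) := by
    intro g
    rw [t18pd1_cr (a₁ := fun τ => g • a₁ τ) (a₂ := fun τ => g • a₂ τ) (a₃ := fun τ => g • a₃ τ)
      (congrArg (g • ·) e₁) (congrArg (g • ·) e₂) (congrArg (g • ·) e₃)]
    have one : ∀ {a : ℝ → ℍ}, C1 a → (∀ (δ : Γ) (τ : ℝ), δ • a τ ≠ z) → ∀ s t : ℝ,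
        Wq z (γ • z : ℍ) (fun τ => g • a τ) s t =
          Wq z (g • δ • z : ℍ) (fun τ => g • a τ) s t -
            Wq z ((γ⁻¹ * g) • δ • z : ℍ) (fun τ => (γ⁻¹ * g) • a τ) s t := by
      intro a h H s t
      have b₁ := Wq_add (h.smul F g) (n'' H g) (n' H g γ) (n' H g (g * δ)) s t
      have b₂ := Wq_smul F ho (h.smul F (γ⁻¹ * g)) (H (γ⁻¹ * g)) (n H (γ⁻¹ * g) (γ⁻¹ * g * δ)) s t
      simp only [mul_smul, smul_inv_smul] at b₁ b₂ ⊢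
      linarith
    simp only [hW, t18pd1W]
    rw [one h₁ n₁, one h₂ n₂, one h₃ n₃]
    ring
  have f₁ := h₁.flux_finite F z (γ • z) l₁
  have f₂ := h₂.flux_finite F z (γ • z) l₂
  have f₃ := h₃.flux_finite F z (γ • z) l₃
  have fin' : (Function.support fun g : Γ => W (Equiv.mulLeft γ⁻¹ g)).Finite :=
    fin.preimage (Equiv.mulLeft γ⁻¹).injective.injOn
  rw [← sub_eq_zero, flux, flux, flux, ← finsum_add_distrib f₁ f₂,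
    ← finsum_sub_distrib ((f₁.union f₂).subset (Function.support_add _ _)) f₃,
    finsum_congr key]
  exact (finsum_sub_distrib fin fin').trans
    (sub_eq_zero.2 (finsum_comp_equiv (Equiv.mulLeft γ⁻¹)).symm)

end Pool.Agent.Lib.MP_5bb885_an.Gen
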