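import Pool.Agent.Lib.MP_5bb885_an.T18PD1

/-!
The dual class of a two-sided closed curve.
-/

namespace Pool.Agent.Lib.MP_5bb885_an.Gen

open UpperHalfPlane MeasureTheory Filter Topology

variable {Γ : Type} [Group Γ] [MulAction Γ ℍ] {K : Set ℍ} {Φ : ℝ → ℍ → ℍ} {V : ℍ → ℂ} {q : Bx}
  {r τ₁ τ₂ ε₁ : ℝ} {τ : ℍ → ℝ} {g : ℍ → Γ} {R : ℍ → ℍ} {x : ℍ}

/-- A straight segment, with a parameter that is defined for all times. -/
noncomputable def sgm (y y' : ℍ) (t : ℝ) : ℍ :=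
  ofComplex ((y : ℂ) + Real.smoothTransition t • ((y' : ℂ) - y))

lemma t18pd2_mem (y y' : ℂ) (t : ℝ) :
    y + Real.smoothTransition t • (y' - y) ∈ segment ℝ y y' := by
  rw [segment_eq_image']
  exact ⟨_, ⟨Real.smoothTransition.nonneg t, Real.smoothTransition.le_one t⟩, rfl⟩

lemma t18pd2_coe (y y' : ℍ) (t : ℝ) :
    (sgm y y' t : ℂ) = (y : ℂ) + Real.smoothTransition t • ((y' : ℂ) - y) := by
  have h : (y : ℂ) + Real.smoothTransition t • ((y' : ℂ) - y) ∈ KB (max (dist y I) (dist y' I)) :=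
    (convex_KB _).segment_subset (mem_KB.2 (le_max_left _ _)) (mem_KB.2 (le_max_right _ _))
      (t18pd2_mem _ _ t)
  rw [sgm, ofComplex_apply_of_im_pos (KB_sub _ h)]

lemma t18pd2_der (y y' : ℍ) (t : ℝ) : HasDerivAt (fun s => (sgm y y' s : ℂ))
    (deriv Real.smoothTransition t • ((y' : ℂ) - y)) t := by
  have hd : HasDerivAt Real.smoothTransition (deriv Real.smoothTransition t) t :=
    ((Real.smoothTransition.contDiff (n := 1)).differentiable (by simp) t).hasDerivAt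
  rw [funext (t18pd2_coe y y')]
  exact (hd.smul_const _).const_add _

lemma t18pd2_vel (y y' : ℍ) (t : ℝ) :
    vel (sgm y y') t = deriv Real.smoothTransition t • ((y' : ℂ) - y) :=
  (t18pd2_der y y' t).deriv

lemma sgm_spec (y y' : ℍ) : C1 (sgm y y') ∧ sgm y y' 0 = y ∧ sgm y y' 1 = y' ∧
    ∀ t, (sgm y y' t : ℂ) ∈ segment ℝ (y : ℂ) y' := by
  refine ⟨⟨fun t => ?_, ?_⟩, ?_, ?_, fun t => ?_⟩
  · rw [t18pd2_vel]
    exact t18pd2_der y y' t
  · rw [funext (t18pd2_vel y y')]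
    exact ((Real.smoothTransition.contDiff (n := 1)).continuous_deriv (by simp)).smul
      continuous_const
  · refine UpperHalfPlane.ext ?_
    rw [t18pd2_coe]
    simp
  · refine UpperHalfPlane.ext ?_
    rw [t18pd2_coe]
    simp
  · rw [t18pd2_coe]
    exact t18pd2_mem _ _ t

lemma vel_sgm : ∃ Λ : ℝ, ∀ (y y' : ℍ) (t : ℝ), ‖vel (sgm y y') t‖ ≤ Λ * ‖(y' : ℂ) - y‖ := by
  obtain ⟨M, -, hM⟩ := t9fam_deriv
  refine ⟨M, fun y y' t => ?_⟩
  rw [t18pd2_vel, norm_smul, Real.norm_eq_abs]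
  exact mul_le_mul_of_nonneg_right (hM t) (norm_nonneg _)

lemma t18pd2_closed (y y' : ℂ) : IsClosed (segment ℝ y y') := by
  rw [segment_eq_image']
  exact (isCompact_Icc.image (by fun_prop)).isClosed

lemma t18pd2_dense (y y' : ℂ) : Dense (segment ℝ y y')ᶜ := by
  have h : ContDiff ℝ 1 fun t : ℝ => y + t • (y' - y) := by fun_prop
  refine (h.dense_compl_range_of_finrank_lt_finrank (by simp)).mono ?_
  rw [segment_eq_image']
  exact Set.compl_subset_compl.2 (Set.image_subset_range _ _)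

/-- Points whose orbit avoids countably many segments. -/
lemma exists_generic (F : Deck Γ) {O : Set ℍ} (hO : IsOpen O) (hne : O.Nonempty) {ι : Type}
    [Countable ι] (y y' : ι → ℂ) :
    ∃ z ∈ O, ∀ (δ : Γ) (i : ι), ((δ • z : ℍ) : ℂ) ∉ segment ℝ (y i) (y' i) := by
  have := F.countable
  have hd : Dense (⋂ p : Γ × ι, {z : ℍ | ((p.1 • z : ℍ) : ℂ) ∉ segment ℝ (y p.2) (y' p.2)}) := by
    refine dense_iInter_of_isOpen (fun p => ?_) fun p => ?_
    · exact (t18pd2_closed _ _).isOpen_compl.preimage (continuous_coe.comp (F.cont p.1))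
    · have e : IsOpenMap fun z : ℍ => p.1 • z :=
        IsOpenMap.of_inverse (F.cont p.1⁻¹) (fun z => smul_inv_smul p.1 z)
          (fun z => inv_smul_smul p.1 z)
      exact (t18pd2_dense _ _).preimage (isOpenEmbedding_coe.isOpenMap.comp e)
  obtain ⟨z, hz, hz'⟩ := hd.inter_open_nonempty O hO hne
  exact ⟨z, hz, fun δ i => Set.mem_iInter.1 hz' (δ, i)⟩

/-- The flux of short segments inside a compact convex set is bounded. -/
lemma t18pd2_bd (F : Deck Γ) {L : Set ℍ} (hL : IsCompact L) {z w : ℍ} (hz : ∀ δ : Γ, δ • z ∉ L)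
    (hw : ∀ δ : Γ, δ • w ∉ L) : ∃ C : ℝ, ∀ y y' : ℍ, (∀ t, sgm y y' t ∈ L) →
      |flux Γ z w (sgm y y') 0 1| ≤ C := by
  obtain ⟨ρ, hρ⟩ := hL.isBounded.subset_closedBall I
  have far : ∀ v : ℍ, (∀ δ : Γ, δ • v ∉ L) → ∃ ε : ℝ, 0 < ε ∧ ∀ (δ : Γ), ∀ p ∈ L,
      ε ≤ dist (δ • p) v := fun v hv => by
    obtain ⟨ε, hε, h⟩ := Metric.isOpen_iff.1 (F.isClosed_sat hL).isOpen_compl v
      (fun ⟨δ, hδ⟩ => hv δ hδ)
    exact ⟨ε, hε, fun δ p hp => not_lt.1 fun h' => h h' ⟨δ⁻¹, by rwa [inv_smul_smul]⟩⟩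
  obtain ⟨ε₁, hε₁, h1⟩ := far z hz
  obtain ⟨ε₂, hε₂, h2⟩ := far w hw
  set R₀ := max (dist z I) (dist w I) with hR₀
  have hR0 : 0 ≤ R₀ := dist_nonneg.trans (le_max_left _ _)
  set R := 2 * |ρ| + R₀ with hR
  obtain ⟨M, hM1, hM⟩ := KB_cmp R
  obtain ⟨Λ, hΛ⟩ := vel_sgm
  have hM0 : 0 < M := one_pos.trans_le hM1
  have hε : 0 < min ε₁ ε₂ / M := div_pos (lt_min hε₁ hε₂) hM0
  have hρ0 := abs_nonneg ρ
  have hLR : ∀ p ∈ L, dist p I ≤ |ρ| := fun p hp => (hρ hp).trans (le_abs_self _)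
  have hLL : ∀ p ∈ L, ∀ p' ∈ L, dist p p' ≤ 2 * |ρ| := fun p hp p' hp' => by
    linarith [dist_triangle_right p p' I, hLR p hp, hLR p' hp']
  obtain ⟨C, hC⟩ := t9f2_bound F R (|Λ| * (M * (2 * |ρ|)) * M * M / (min ε₁ ε₂ / M) * (1 - 0) + 1)
  refine ⟨C, fun y y' hy => hC y y _ fun δ hδ => ?_⟩
  obtain ⟨c1, e0, e1, -⟩ := sgm_spec y y'
  have hyL : y ∈ L := e0 ▸ hy 0
  have hyL' : y' ∈ L := e1 ▸ hy 1
  have hit : ∃ s, dist (δ • sgm y y' s) I ≤ R₀ := by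
    by_contra H
    refine hδ (cr_zero (c1.smul F δ) zero_le_one fun s _ hm => H ⟨s, mem_KB.1 ?_⟩)
    exact (convex_KB _).segment_subset (mem_KB.2 (le_max_left _ _)) (mem_KB.2 (le_max_right _ _))
      hm
  obtain ⟨s, hs⟩ := hit
  have stay : ∀ p ∈ L, dist (δ • p) I ≤ R := fun p hp => by
    have := dist_triangle (δ • p) (δ • sgm y y' s) I
    rw [F.iso] at this
    linarith [hLL p hp _ (hy s)]
  refine ⟨?_, Or.inl (stay y hyL)⟩
  have hzR : dist z I ≤ R := by linarith [le_max_left (dist z I) (dist w I)]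
  have hwR : dist w I ≤ R := by linarith [le_max_right (dist z I) (dist w I)]
  have hW : |Wq z w (fun t => δ • sgm y y' t) 0 1| ≤
      |Λ| * (M * (2 * |ρ|)) * M * M / (min ε₁ ε₂ / M) * (1 - 0) := by
    refine abs_Wq_le zero_le_one hε fun t _ => ?_
    have hp := stay _ (hy t)
    have hp' : dist (sgm y y' t) I ≤ R := by linarith [hLR _ (hy t)]
    refine ⟨?_, ?_, ?_⟩
    · rw [F.vel_smul]
      have n1 := F.norm_dk δ (sgm y y' t) (vel (sgm y y') t)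
      have n2 : ‖vel (sgm y y') t‖ ≤ |Λ| * (M * (2 * |ρ|)) := by
        refine (hΛ y y' t).trans (mul_le_mul (le_abs_self _) ?_ (norm_nonneg _) (abs_nonneg _))
        exact (hM y' y (by linarith [hLR _ hyL']) (by linarith [hLR _ hyL])).2.1.trans
          (mul_le_mul_of_nonneg_left (hLL _ hyL' _ hyL) hM0.le)
      have n3 := (hM _ _ hp hp).2.2.2
      have n4 := (hM _ _ hp' hp').2.2.1
      rw [div_eq_iff (im_pos _).ne'] at n1
      rw [n1]
      refine mul_le_mul ?_ n3 (im_pos _).le (by positivity)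
      rw [div_le_iff₀ (im_pos _)]
      refine n2.trans ?_
      rw [mul_assoc (|Λ| * (M * (2 * |ρ|)))]
      refine le_mul_of_one_le_right (by positivity) ?_
      rwa [inv_le_iff_one_le_mul₀' hM0] at n4
    · rw [div_le_iff₀' hM0]
      exact (min_le_left _ _).trans ((h1 δ _ (hy t)).trans (hM _ _ hp hzR).1)
    · rw [div_le_iff₀' hM0]
      exact (min_le_right _ _).trans ((h2 δ _ (hy t)).trans (hM _ _ hp hwR).1)
  have h4 := abs_le.1 (abs_ar_le z w (δ • sgm y y' 1 : ℍ))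
  have h5 := abs_le.1 (abs_ar_le z w (δ • sgm y y' 0 : ℍ))
  have h6 := abs_le.1 hW
  rw [cr, abs_le]
  constructor <;> linarith [h4.1, h4.2, h5.1, h5.2, h6.1, h6.2]

theorem Ret.exists_dual (F : Deck Γ) (A : Lam Γ K Φ V) (hK : K ≠ Set.univ) (S : Sec Γ K Φ V q r)
    (H : Ret K Φ q τ g R τ₁ τ₂ ε₁) (hx : x ∈ K ∩ q.ln) {γ : Γ} (ho : Ori γ) :
    ∃ z : ℍ, z ∉ K ∧ ∃ (ψ : Γ → ℤ) (C : ℝ), (fun δ => (ψ δ : ℝ)) ∈ Coh Γ ∧ ∀ k : ℕ,
      |Gen.flux Γ z (γ • z : ℍ) (fun t => Φ t x) 0 (tk τ R x k) - ψ (Gk g R x k)| ≤ C := by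
  have := F.countable
  obtain ⟨u, hu, hua⟩ := S.exists_ht (s := q.a) ⟨le_rfl, S.ok.ab.le⟩
  obtain ⟨u', hu', hub⟩ := S.exists_ht (s := q.b) ⟨S.ok.ab.le, le_rfl⟩
  have huu : q.ht u < q.ht u' := by rw [hua, hub]; exact S.ok.ab
  have hln : ∀ p : ℍ, (p : ℂ) ∈ segment ℝ (u : ℂ) u' ↔ p ∈ q.ln := fun p => by
    rw [S.mem_segment hu hu' huu, hua, hub]
    exact ⟨fun h => h.1, fun h => ⟨h, h.2⟩⟩
  obtain ⟨z, hz, hg⟩ := exists_generic F A.closed.isOpen_compl (Set.nonempty_compl.2 hK)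
    (ι := Option Γ) (fun i => i.elim (u : ℂ) fun _ => (x : ℂ))
    (fun i => i.elim (u' : ℂ) fun G => ((G • x : ℍ) : ℂ))
  have g1 : ∀ δ : Γ, δ • z ∉ q.ln := fun δ h => hg δ none ((hln _).2 h)
  have g2 : ∀ (G δ δ' : Γ) (t : ℝ), δ • sgm x (G • x) t ≠ δ' • z := fun G δ δ' t h => by
    refine hg (δ⁻¹ * δ') (some G) ?_
    rw [mul_smul, ← h, inv_smul_smul]
    exact (sgm_spec x (G • x)).2.2.2 t
  have g3 : ∀ (G δ : Γ) (t : ℝ), δ • sgm x (G • x) t ≠ z := fun G δ t => by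
    simpa only [one_smul] using g2 G δ 1 t
  have g4 : ∀ y ∈ q.ln, ∀ t, sgm y x t ∈ q.ln := fun y hy t =>
    (hln _).1 ((convex_segment _ _).segment_subset ((hln _).2 hy) ((hln _).2 hx.2)
      ((sgm_spec y x).2.2.2 t))
  choose ψ hψ using fun G : Γ => (sgm_spec x (G • x)).1.flux_int F (z := z) (w := γ • z) (g3 G)
    (fun δ t => g2 G δ γ t) zero_le_one
  obtain ⟨C, hC⟩ := t18pd2_bd F S.isCompact_ln (z := z) (w := γ • z) g1
    (fun δ => by rw [← mul_smul]; exact g1 _)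
  refine ⟨z, hz, ψ, C, fun G G' => ?_, fun k => ?_⟩
  · have e := flux_tri F ho (z := z) (sgm_spec x (G • x)).1 ((sgm_spec x (G' • x)).1.smul F G)
      (sgm_spec x ((G * G') • x)).1 (g3 G) (fun δ t => by rw [← mul_smul]; exact g3 G' _ t)
      (g3 (G * G')) zero_le_one zero_le_one zero_le_one
      (by rw [(sgm_spec x (G • x)).2.2.1, (sgm_spec x (G' • x)).2.1])
      (by rw [(sgm_spec x (G • x)).2.1, (sgm_spec x ((G * G') • x)).2.1])
      (by rw [(sgm_spec x (G' • x)).2.2.1, (sgm_spec x ((G * G') • x)).2.2.1, mul_smul])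
    rw [flux_translate, hψ, hψ, hψ] at e
    exact e.symm
  · have hk := H.iter hx k
    have h0 : 0 ≤ tk τ R x k := le_trans (mul_nonneg (Nat.cast_nonneg k) H.lo.le) (H.tk_bd hx k).1
    have e := flux_tri F ho (z := z) (A.c1 hx.1).1 ((sgm_spec (R^[k] x) x).1.smul F (Gk g R x k))
      (sgm_spec x (Gk g R x k • x)).1 (t9f2_ne A hx.1 hz)
      (fun δ t h => g1 (δ * Gk g R x k)⁻¹ (by
        rw [← h, ← mul_smul δ, inv_smul_smul]
        exact g4 _ hk.2 t))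
      (g3 _) h0 zero_le_one zero_le_one
      (by rw [H.flow A hx k, (sgm_spec (R^[k] x) x).2.1])
      (by rw [A.zero x hx.1, (sgm_spec x (Gk g R x k • x)).2.1])
      (by rw [(sgm_spec (R^[k] x) x).2.2.1, (sgm_spec x (Gk g R x k • x)).2.2.1])
    rw [flux_translate, hψ] at e
    rw [← e, sub_add_cancel_left, abs_neg]
    exact hC _ _ (g4 _ hk.2)

end Pool.Agent.Lib.MP_5bb885_an.Gen
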