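import Pool.Agent.Lib.MP_5bb885_an.T18Conj

/-!
One passage through a box.
-/

namespace Pool.Agent.Lib.MP_5bb885_an.Gen

open UpperHalfPlane MeasureTheory Filter Topology

lemma t18pass_scale {w : ℝ} (hw : 0 < w) :
    cut (-w) w w = fun y => cut (-1) 1 1 (y / w) := by
  funext y
  have h1 : (y - -w) / w + 1 = (y / w - -1) / 1 + 1 := by field_simp
  have h2 : (w - y) / w + 1 = (1 - y / w) / 1 + 1 := by field_simp
  simp only [cut, h1, h2]

lemma t18pass_supp : HasCompactSupport (cut (-1) 1 1) := by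
  refine HasCompactSupport.intro (K := Set.Icc (-2 : ℝ) 2) isCompact_Icc fun y hy => ?_
  refine cut_eq_zero one_pos fun h => hy ⟨?_, ?_⟩
  · linarith [h.1]
  · linarith [h.2]

lemma t18pass_der2 (a b e y : ℝ) :
    HasDerivAt (deriv (cut a b e)) (deriv (deriv (cut a b e)) y) y := by
  have h : ContDiff ℝ 1 (deriv (cut a b e)) :=
    (contDiff_infty_iff_deriv.1 (contDiff_cut a b e)).2.of_le (by exact_mod_cast le_top)
  exact (h.differentiable (by simp) y).hasDerivAt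

lemma t18pass_cont2 (a b e : ℝ) : Continuous (deriv (deriv (cut a b e))) := by
  have h : ContDiff ℝ 1 (deriv (cut a b e)) :=
    (contDiff_infty_iff_deriv.1 (contDiff_cut a b e)).2.of_le (by exact_mod_cast le_top)
  exact h.continuous_deriv le_rfl

/-- Scaled bounds for two derivatives of the cutoff. -/
lemma t18pass_bounds : ∃ M : ℝ, 0 < M ∧ ∀ w : ℝ, 0 < w → ∀ y,
    |deriv (cut (-w) w w) y| ≤ M / w ∧ |deriv (deriv (cut (-w) w w)) y| ≤ M / w ^ 2 := by
  obtain ⟨M₁, h1⟩ := (t9pass_cut_cont (-1) 1 1).bounded_above_of_compact_support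
    t18pass_supp.deriv
  obtain ⟨M₂, h2⟩ := (t18pass_cont2 (-1) 1 1).bounded_above_of_compact_support
    t18pass_supp.deriv.deriv
  have a1 : 0 ≤ M₁ := (norm_nonneg _).trans (h1 0)
  have a2 : 0 ≤ M₂ := (norm_nonneg _).trans (h2 0)
  refine ⟨M₁ + M₂ + 1, by positivity, fun w hw y => ?_⟩
  have hs : ∀ y : ℝ, HasDerivAt (fun y : ℝ => y / w) (1 / w) y := fun y =>
    (hasDerivAt_id y).div_const w
  have d1 : deriv (cut (-w) w w) = fun y => deriv (cut (-1) 1 1) (y / w) * (1 / w) := by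
    funext y
    rw [t18pass_scale hw]
    exact ((t9pass_cut_der (-1) 1 1 (y / w)).comp y (hs y)).deriv
  have d2 : deriv (deriv (cut (-w) w w)) y =
      deriv (deriv (cut (-1) 1 1)) (y / w) * (1 / w) * (1 / w) := by
    rw [d1]
    exact (((t18pass_der2 (-1) 1 1 (y / w)).comp y (hs y)).mul_const (1 / w)).deriv
  have e : |1 / w| = 1 / w := abs_of_pos (by positivity)
  constructor
  · rw [d1]
    simp only [abs_mul, e]
    have := h1 (y / w)
    rw [Real.norm_eq_abs] at this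
    rw [mul_one_div]
    gcongr
    linarith
  · rw [d2]
    simp only [abs_mul, e]
    have := h2 (y / w)
    rw [Real.norm_eq_abs] at this
    have e2 : (M₁ + M₂ + 1) / w ^ 2 = (M₁ + M₂ + 1) * (1 / w) * (1 / w) := by field_simp
    rw [e2]
    gcongr
    linarith

lemma t18pass_normSq (z : ℂ) : HasFDerivAt (fun z : ℂ => Complex.normSq z)
    ((2 * z.re) • Complex.reCLM + (2 * z.im) • Complex.imCLM) z := by
  have h := (Complex.reCLM.hasFDerivAt (x := z)).mul (Complex.reCLM.hasFDerivAt (x := z))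
  have h' := (Complex.imCLM.hasFDerivAt (x := z)).mul (Complex.imCLM.hasFDerivAt (x := z))
  have h2 := h.add h'
  have e : (fun z : ℂ => Complex.normSq z) =
      (⇑Complex.reCLM * ⇑Complex.reCLM + ⇑Complex.imCLM * ⇑Complex.imCLM) := by
    funext y
    simp [Complex.normSq_apply]
  rw [e]
  refine h2.congr_fderiv ?_
  ext
  simp
  ring

lemma t18pass_comp {f : ℝ → ℝ} {f' : ℝ} (z : ℂ) (h : HasDerivAt f f' z.re) :
    HasFDerivAt (fun z : ℂ => f z.re) (f' • Complex.reCLM) z :=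
  h.comp_hasFDerivAt z Complex.reCLM.hasFDerivAt

lemma t18pass_fderiv (w : ℝ) :
    (fderiv ℝ fun z : ℂ => cut (-w) w w z.re * Complex.normSq z) = fun z : ℂ =>
      (cut (-w) w w z.re * (2 * z.re) + Complex.normSq z * deriv (cut (-w) w w) z.re) •
        Complex.reCLM + (cut (-w) w w z.re * (2 * z.im)) • Complex.imCLM := by
  funext z
  have h := (t18pass_comp z (t9pass_cut_der (-w) w w z.re)).mul (t18pass_normSq z)
  refine (h.congr_fderiv ?_).fderiv
  ext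
  simp
  ring

lemma t18pass_fderiv2 (w : ℝ) (z h : ℂ) :
    fderiv ℝ (fderiv ℝ fun z : ℂ => cut (-w) w w z.re * Complex.normSq z) z h h =
      2 * cut (-w) w w z.re * (h.re ^ 2 + h.im ^ 2) +
        h.re * (4 * deriv (cut (-w) w w) z.re * (z.re * h.re + z.im * h.im) +
          Complex.normSq z * deriv (deriv (cut (-w) w w)) z.re * h.re) := by
  rw [t18pass_fderiv]
  have h0 := t18pass_comp z (t9pass_cut_der (-w) w w z.re)
  have h1 := t18pass_comp z (t18pass_der2 (-w) w w z.re)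
  have hre : HasFDerivAt (fun z : ℂ => 2 * z.re) ((2 : ℝ) • Complex.reCLM) z :=
    (Complex.reCLM.hasFDerivAt (x := z)).const_mul 2
  have him : HasFDerivAt (fun z : ℂ => 2 * z.im) ((2 : ℝ) • Complex.imCLM) z :=
    (Complex.imCLM.hasFDerivAt (x := z)).const_mul 2
  have hA := ((h0.mul hre).add ((t18pass_normSq z).mul h1)).smul_const Complex.reCLM
  have hB := (h0.mul him).smul_const Complex.imCLM
  have hC := (hA.add hB).fderiv
  have e : (fun z : ℂ =>
      (cut (-w) w w z.re * (2 * z.re) + Complex.normSq z * deriv (cut (-w) w w) z.re) •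
        Complex.reCLM + (cut (-w) w w z.re * (2 * z.im)) • Complex.imCLM) =
      ((fun y : ℂ => ((fun z : ℂ => cut (-w) w w z.re) * (fun z : ℂ => 2 * z.re) +
        (fun z : ℂ => Complex.normSq z) * fun z : ℂ => deriv (cut (-w) w w) z.re) y •
          Complex.reCLM) +
        fun y : ℂ => ((fun z : ℂ => cut (-w) w w z.re) * fun z : ℂ => 2 * z.im) y •
          Complex.imCLM) := by
    funext y
    simp
  rw [e, hC]
  simp
  ring

lemma hess_local : ∃ Λ : ℝ, 0 < Λ ∧ ∀ (w : ℝ) (ζ h : ℂ), 0 < w → ‖ζ‖ ≤ 5 * w →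
    ‖fderiv ℝ (fun z : ℂ => cut (-w) w w z.re * Complex.normSq z) ζ‖ ≤ Λ * w ∧
    2 * cut (-w) w w ζ.re * ‖h‖ ^ 2 - Λ * |h.re| * ‖h‖ ≤
      fderiv ℝ (fderiv ℝ fun z : ℂ => cut (-w) w w z.re * Complex.normSq z) ζ h h := by
  obtain ⟨M, hM, hb⟩ := t18pass_bounds
  refine ⟨20 + 45 * M, by positivity, fun w ζ h hw hζ => ?_⟩
  obtain ⟨b1, b2⟩ := hb w hw ζ.re
  have c0 : |cut (-w) w w ζ.re| ≤ 1 := by
    rw [abs_of_nonneg (cut_nonneg _ _ _ _)]
    exact cut_le_one _ _ _ _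
  have hre : |ζ.re| ≤ 5 * w := (Complex.abs_re_le_norm ζ).trans hζ
  have him : |ζ.im| ≤ 5 * w := (Complex.abs_im_le_norm ζ).trans hζ
  have hns : |Complex.normSq ζ| ≤ (5 * w) ^ 2 := by
    rw [abs_of_nonneg (Complex.normSq_nonneg _), Complex.normSq_eq_norm_sq]
    gcongr
  constructor
  · rw [t18pass_fderiv]
    refine (norm_add_le _ _).trans ?_
    rw [norm_smul, norm_smul, Complex.reCLM_norm, Complex.imCLM_norm, mul_one, mul_one,
      Real.norm_eq_abs, Real.norm_eq_abs]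
    have e1 : |cut (-w) w w ζ.re * (2 * ζ.re)| ≤ 1 * (2 * (5 * w)) := by
      rw [abs_mul, abs_mul, abs_two]
      gcongr
    have e2 : |cut (-w) w w ζ.re * (2 * ζ.im)| ≤ 1 * (2 * (5 * w)) := by
      rw [abs_mul, abs_mul, abs_two]
      gcongr
    have e3 : |Complex.normSq ζ * deriv (cut (-w) w w) ζ.re| ≤ (5 * w) ^ 2 * (M / w) := by
      rw [abs_mul]
      gcongr
    have e4 : (5 * w) ^ 2 * (M / w) = 25 * M * w := by field_simp; ring
    have e5 := abs_add_le (cut (-w) w w ζ.re * (2 * ζ.re))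
      (Complex.normSq ζ * deriv (cut (-w) w w) ζ.re)
    have e6 : 0 ≤ M * w := by positivity
    nlinarith
  · rw [t18pass_fderiv2]
    have hn : ‖h‖ ^ 2 = h.re ^ 2 + h.im ^ 2 := by
      rw [← Complex.normSq_eq_norm_sq, Complex.normSq_apply]
      ring
    have hin : |ζ.re * h.re + ζ.im * h.im| ≤ 5 * w * ‖h‖ := by
      have e : ζ.re * h.re + ζ.im * h.im = (ζ * (starRingEnd ℂ) h).re := by simp
      rw [e]
      refine (Complex.abs_re_le_norm _).trans ?_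
      rw [norm_mul, Complex.norm_conj]
      gcongr
    have e1 : |4 * deriv (cut (-w) w w) ζ.re * (ζ.re * h.re + ζ.im * h.im)| ≤
        4 * (M / w) * (5 * w * ‖h‖) := by
      rw [abs_mul, abs_mul, abs_of_pos (show (0 : ℝ) < 4 by norm_num)]
      gcongr
    have e2 : |Complex.normSq ζ * deriv (deriv (cut (-w) w w)) ζ.re * h.re| ≤
        (5 * w) ^ 2 * (M / w ^ 2) * ‖h‖ := by
      rw [abs_mul, abs_mul]
      gcongr
      exact Complex.abs_re_le_norm h
    have e3 : 4 * (M / w) * (5 * w * ‖h‖) = 20 * M * ‖h‖ := by field_simp; ring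
    have e4 : (5 * w) ^ 2 * (M / w ^ 2) * ‖h‖ = 25 * M * ‖h‖ := by field_simp; ring
    set X := 4 * deriv (cut (-w) w w) ζ.re * (ζ.re * h.re + ζ.im * h.im) +
      Complex.normSq ζ * deriv (deriv (cut (-w) w w)) ζ.re * h.re with hX
    have e5 : |X| ≤ 45 * M * ‖h‖ := by
      refine (abs_add_le _ _).trans ?_
      linarith
    have e6 : |h.re * X| ≤ |h.re| * (45 * M * ‖h‖) := by
      rw [abs_mul]
      gcongr
    have e7 := (abs_le.1 e6).1
    have e8 : 0 ≤ |h.re| * ‖h‖ := by positivity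
    rw [hn]
    nlinarith

variable {Γ : Type} [Group Γ] [MulAction Γ ℍ] {L : ℂ × ℂ → ℝ} {c : Γ → ℝ} {x : ℝ → ℍ} {γ : Γ}
  {T : ℝ} {η : ℝ → ℂ}

/-- A small box that the curve crosses once in each period. -/
lemma CP.passage (F : Deck Γ) (hL : Tonelli Γ L) (h : CP L c x γ T) (hm : MinPer x γ T)
    (hv : ∀ t, vel x t ≠ 0) (t₀ : ℝ) {ε w₁ : ℝ} (hε : 0 < ε) (hε' : ε ≤ 1 / 10) (hw : 0 < w₁) :
    ∃ q : Bx, q.Ok ∧ q.w ≤ w₁ ∧ q.a = -q.w ∧ q.b = q.w ∧ q.e = q.w ∧ 6 * q.w ≤ T ∧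
      ‖co q.p q.d (x t₀)‖ ≤ ε * q.w ∧ (∀ t, |t - t₀| ≤ 3 * q.w → ‖vel x t / q.d - 1‖ ≤ ε) ∧
      ∀ (δ : Γ) (t : ℝ), ((δ • x t : ℍ) : ℂ) ∈ q.supp →
        ∃ j : ℤ, |t - (t₀ + j * T)| < 3 * q.w ∧ δ = γ ^ (-j) := by
  obtain ⟨u, hu, hd, hx, -⟩ := h
  have hR : Reg L x := Cal.reg (hL.unif1 F) (Set.mem_singleton L) hd hx
  have hT : 0 < T := hm.1.1
  obtain ⟨d₁, d₂, τ, hd0, hτ, hdir⟩ := t9pass_dir hR.contVel (hv t₀) hε
  set d : ℂ := ⟨d₁, d₂⟩ with hdd
  have hdn : 0 < ‖d‖ := norm_pos_iff.2 hd0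
  obtain ⟨ε₀, hε₀, hemb⟩ := Cal.emb F hL hu hd hx hm.1 hτ
  obtain ⟨ρ, hρ, hball⟩ := t9pass_ball (x t₀) hε₀
  obtain ⟨w', hw0, hw'⟩ := exists_rat_btwn
    (show (0 : ℝ) < min (min w₁ (min (τ / 3) (T / 6))) (ρ / (6 * ‖d‖)) by positivity)
  set w : ℝ := (w' : ℝ) with hww
  simp only [lt_min_iff] at hw'
  obtain ⟨⟨hw2, hw3, hw4⟩, hw5⟩ := hw'
  have hw6 : 6 * w * ‖d‖ < ρ := by
    rw [lt_div_iff₀ (by positivity)] at hw5
    linarith
  obtain ⟨p₁, p₂, hp0⟩ := t9pass_rat (x t₀) (show 0 < ε * w * ‖d‖ by positivity)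
  set p : ℂ := ⟨p₁, p₂⟩ with hpp
  set q : Bx := ⟨p, d, w, -w, w, w⟩ with hq
  set ζ : ℝ → ℂ := fun t => co p d (x t) with hζ
  have hζd : ∀ t, HasDerivAt ζ (vel x t / d) t := fun t =>
    ((hR.hasDerivAt t).sub_const p).div_const d
  have hζ0 : ‖ζ t₀‖ ≤ ε * w := by
    simp only [hζ, co, norm_div]
    rw [div_le_iff₀ hdn, norm_sub_rev]
    exact hp0
  have hεw : ε * w ≤ 1 / 10 * w := mul_le_mul_of_nonneg_right hε' hw0.le
  have hsupp : ∀ z ∈ q.supp, ‖z - x t₀‖ < ρ := by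
    intro z hz
    obtain ⟨h1, h2, h3⟩ := hz
    simp only [hq] at h1 h2 h3
    have h4 : ‖co p d z‖ ≤ 5 * w := by
      refine (Complex.norm_le_abs_re_add_abs_im _).trans ?_
      have : |(co p d z).im| ≤ 3 * w := abs_le.2 ⟨by linarith, by linarith⟩
      linarith
    simp only [co, norm_div] at h4
    rw [div_le_iff₀ hdn] at h4
    have h5 : ε * w * ‖d‖ ≤ 1 / 10 * w * ‖d‖ := mul_le_mul_of_nonneg_right hεw hdn.le
    have h6 : 0 ≤ w * ‖d‖ := by positivity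
    calc ‖z - x t₀‖ = ‖(z - p) + (p - x t₀)‖ := by congr 1; ring
      _ ≤ ‖z - p‖ + ‖p - x t₀‖ := norm_add_le _ _
      _ < ρ := by linarith
  have hok : q.Ok := by
    refine ⟨hd0, hw0, hw0, by simp only [hq]; linarith, fun z hz => (hball z (hsupp z hz)).1, ?_⟩
    intro y hy
    simp only [hq, hpp, hdd, Set.mem_insert_iff, Set.mem_singleton_iff] at hy
    rcases hy with rfl | rfl | rfl | rfl | rfl | rfl | rfl | rfl
    · exact ⟨p₁, rfl⟩
    · exact ⟨p₂, rfl⟩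
    · exact ⟨d₁, rfl⟩
    · exact ⟨d₂, rfl⟩
    · exact ⟨w', rfl⟩
    · exact ⟨-w', by push_cast; rfl⟩
    · exact ⟨w', rfl⟩
    · exact ⟨w', rfl⟩
  have hri := fun t (ht : t ∈ Set.Icc (t₀ - τ) (t₀ + τ)) => t9pass_re_im hζd hdir hζ0 ht
  refine ⟨q, hok, hw2.le, rfl, rfl, rfl, by simp only [hq]; linarith, hζ0, ?_, ?_⟩
  · intro t ht
    simp only [hq] at ht
    have := abs_le.1 ht
    exact hdir t ⟨by linarith [this.1], by linarith [this.2]⟩
  · intro δ t h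
    obtain ⟨s, hs, e⟩ := hemb δ t₀ t ((hball _ (hsupp _ h)).2 _ rfl)
    have h1 : |(ζ (t₀ + s)).re| ≤ 2 * w := by
      have := h.1
      rw [e] at this
      exact this
    have h2 := (hri (t₀ + s) ⟨by linarith [(abs_le.1 hs).1], by linarith [(abs_le.1 hs).2]⟩).1
    rw [add_sub_cancel_left] at h2
    have h3 : ε * |s| ≤ 1 / 10 * |s| := mul_le_mul_of_nonneg_right hε' (abs_nonneg _)
    have h4 : |s| ≤ |(ζ (t₀ + s)).re| + |(ζ (t₀ + s)).re - s| := by
      have := abs_sub (ζ (t₀ + s)).re ((ζ (t₀ + s)).re - s)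
      rwa [sub_sub_cancel] at this
    obtain ⟨j, hj, hδ⟩ := hm.2 t (t₀ + s) δ e.symm
    refine ⟨-j, ?_, by rw [neg_neg]; exact hδ⟩
    have : t - (t₀ + ((-j : ℤ) : ℝ) * T) = s := by
      push_cast
      linarith
    show |t - (t₀ + ((-j : ℤ) : ℝ) * T)| < 3 * w
    rw [this]
    linarith

end Pool.Agent.Lib.MP_5bb885_an.Gen
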