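import Pool.Agent.Lib.MP_5bb885_an.T18Cyl1

/-!
The sides of the gaps.
-/

namespace Pool.Agent.Lib.MP_5bb885_an.Gen

open UpperHalfPlane MeasureTheory Filter Topology

variable {X : Set ℝ} {R e : ℝ → ℝ} {ε : ℝ}

/-- The two sides of a gap of width at most `a`. -/
def Gap (X : Set ℝ) (a : ℝ) (s s' : Side X) : Prop :=
  0 < s.1.2 * (s'.1.1 - s.1.1) ∧ |s'.1.1 - s.1.1| ≤ a ∧ s'.1.2 = -s.1.2 ∧
    ∀ y ∈ X, y ∉ Set.Ioo (min s.1.1 s'.1.1) (max s.1.1 s'.1.1)

lemma t18side_len {ι : Type} {u u' : ℝ} (hu : u ≤ u') (S : Finset ι) (f g : ι → ℝ)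
    (hfg : ∀ i ∈ S, f i ≤ g i) (hin : ∀ i ∈ S, u ≤ f i ∧ g i ≤ u')
    (hd : ∀ i ∈ S, ∀ j ∈ S, i ≠ j → g i ≤ f j ∨ g j ≤ f i) :
    ∑ i ∈ S, (g i - f i) ≤ u' - u := by
  have h1 : (volume : Measure ℝ).real (⋃ i ∈ S, Set.Ioo (f i) (g i)) =
      ∑ i ∈ S, (volume : Measure ℝ).real (Set.Ioo (f i) (g i)) := by
    refine measureReal_biUnion_finset ?_ (fun i _ => measurableSet_Ioo) ?_
    · intro i hi j hj hij
      refine Set.disjoint_left.2 fun y hy hy' => ?_
      rcases hd i hi j hj hij with h | h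
      · linarith [hy.2, hy'.1]
      · linarith [hy.1, hy'.2]
    · intro i _
      simp
  have h2 : (volume : Measure ℝ).real (⋃ i ∈ S, Set.Ioo (f i) (g i)) ≤
      (volume : Measure ℝ).real (Set.Icc u u') := by
    refine measureReal_mono ?_ (by simp)
    intro y hy
    simp only [Set.mem_iUnion] at hy
    obtain ⟨i, hi, hy⟩ := hy
    exact ⟨(hin i hi).1.trans hy.1.le, hy.2.le.trans (hin i hi).2⟩
  rw [h1, Real.volume_real_Icc_of_le hu] at h2
  refine le_trans (le_of_eq ?_) h2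
  refine Finset.sum_congr rfl fun i hi => ?_
  rw [Real.volume_real_Ioo_of_le (hfg i hi)]

lemma t18side_ext {s t : Side X} (h1 : s.1.1 = t.1.1) (h2 : s.1.2 = t.1.2) : s = t :=
  Subtype.ext (Prod.ext h1 h2)

lemma side_pow {T : Equiv.Perm (Side X)} (h : ∀ s, (T s).1 = (R s.1.1, s.1.2 * e s.1.1))
    (s : Side X) (k : ℕ) : ((T ^ k) s).1 = (R^[k] s.1.1, s.1.2 * EE e R s.1.1 k) := by
  induction k with
  | zero => simp [EE]
  | succ k ih =>
    rw [pow_succ', Equiv.Perm.mul_apply, h, ih, Function.iterate_succ_apply']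
    simp only [EE, Finset.prod_range_succ, mul_assoc]

/-- The total width of the gaps in an interval. -/
lemma gap_sum {a u u' : ℝ} (hu : u ≤ u') (o : Side X → Side X) (S : Finset (Side X))
    (h : ∀ s ∈ S, Gap X a s (o s) ∧ s.1.1 ∈ Set.Icc u u' ∧ (o s).1.1 ∈ Set.Icc u u') :
    ∑ s ∈ S, |(o s).1.1 - s.1.1| ≤ 2 * (u' - u) := by
  classical
  rw [← Finset.sum_filter_add_sum_filter_not S (fun s => s.1.2 = 1)]
  have hp : ∀ s ∈ S.filter (fun s => s.1.2 = 1), s.1.1 < (o s).1.1 := by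
    intro s hs
    rw [Finset.mem_filter] at hs
    have := (h s hs.1).1.1
    rw [hs.2] at this
    linarith
  have hm0 : ∀ s ∈ S.filter (fun s => ¬ s.1.2 = 1), s.1.2 = -1 := by
    intro s hs
    rw [Finset.mem_filter] at hs
    exact s.2.2.1.resolve_left hs.2
  have hm : ∀ s ∈ S.filter (fun s => ¬ s.1.2 = 1), (o s).1.1 < s.1.1 := by
    intro s hs
    have h0 := hm0 s hs
    rw [Finset.mem_filter] at hs
    have := (h s hs.1).1.1
    rw [h0] at this
    linarith
  have h1 : ∑ s ∈ S.filter (fun s => s.1.2 = 1), |(o s).1.1 - s.1.1| ≤ u' - u := by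
    have key : ∀ s ∈ S.filter (fun s => s.1.2 = 1), ∀ t ∈ S.filter (fun s => s.1.2 = 1),
        s.1.1 < t.1.1 → (o s).1.1 ≤ t.1.1 := by
      intro s hs t _ hst
      have hs' := hp s hs
      have h4 := (h s (Finset.mem_filter.1 hs).1).1.2.2.2 t.1.1 t.2.1
      rw [min_eq_left hs'.le, max_eq_right hs'.le] at h4
      by_contra hc
      exact h4 ⟨hst, not_le.1 hc⟩
    refine le_trans (le_of_eq ?_) (t18side_len hu (S.filter (fun s => s.1.2 = 1))
      (fun s => s.1.1) (fun s => (o s).1.1) (fun s hs => (hp s hs).le) ?_ ?_)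
    · refine Finset.sum_congr rfl fun s hs => ?_
      rw [abs_of_pos (sub_pos.2 (hp s hs))]
    · intro s hs
      have := h s (Finset.mem_filter.1 hs).1
      exact ⟨this.2.1.1, this.2.2.2⟩
    · intro s hs t ht hst
      rcases lt_trichotomy s.1.1 t.1.1 with hlt | heq | hlt
      · exact Or.inl (key s hs t ht hlt)
      · exact absurd (t18side_ext heq
          ((Finset.mem_filter.1 hs).2.trans (Finset.mem_filter.1 ht).2.symm)) hst
      · exact Or.inr (key t ht s hs hlt)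
  have h2 : ∑ s ∈ S.filter (fun s => ¬ s.1.2 = 1), |(o s).1.1 - s.1.1| ≤ u' - u := by
    have key : ∀ s ∈ S.filter (fun s => ¬ s.1.2 = 1), ∀ t ∈ S.filter (fun s => ¬ s.1.2 = 1),
        s.1.1 < t.1.1 → s.1.1 ≤ (o t).1.1 := by
      intro s _ t ht hst
      have ht' := hm t ht
      have h4 := (h t (Finset.mem_filter.1 ht).1).1.2.2.2 s.1.1 s.2.1
      rw [min_eq_right ht'.le, max_eq_left ht'.le] at h4
      by_contra hc
      exact h4 ⟨not_le.1 hc, hst⟩
    refine le_trans (le_of_eq ?_) (t18side_len hu (S.filter (fun s => ¬ s.1.2 = 1))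
      (fun s => (o s).1.1) (fun s => s.1.1) (fun s hs => (hm s hs).le) ?_ ?_)
    · refine Finset.sum_congr rfl fun s hs => ?_
      rw [abs_of_neg (sub_neg.2 (hm s hs))]
      ring
    · intro s hs
      have := h s (Finset.mem_filter.1 hs).1
      exact ⟨this.2.2.1, this.2.1.2⟩
    · intro s hs t ht hst
      rcases lt_trichotomy s.1.1 t.1.1 with hlt | heq | hlt
      · exact Or.inl (key s hs t ht hlt)
      · exact absurd (t18side_ext heq ((hm0 s hs).trans (hm0 t ht).symm)) hst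
      · exact Or.inr (key t ht s hs hlt)
  linarith

lemma t18side_near (H : FI X R e ε) {x y σ : ℝ} (hx : x ∈ X) (hy : y ∈ X) (hne : x ≠ y)
    (hd : |y - x| ≤ ε) (hσ : σ = 1 ∨ σ = -1) :
    e x = e y ∧ (0 < σ * (y - x) ↔ 0 < σ * e x * (R y - R x)) := by
  rcases lt_or_gt_of_ne hne with h | h
  · obtain ⟨h1, h2⟩ := H.near x hx y hy h ((le_abs_self _).trans hd)
    refine ⟨h1, ?_⟩
    rcases hσ with rfl | rfl
    · constructor
      · intro _
        linarith
      · intro _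
        linarith
    · constructor
      · intro h3
        linarith
      · intro h3
        linarith
  · have hd' : x - y ≤ ε := by
      rw [abs_sub_comm] at hd
      exact (le_abs_self _).trans hd
    obtain ⟨h1, h2⟩ := H.near y hy x hx h hd'
    refine ⟨h1.symm, ?_⟩
    rw [h1] at h2
    rcases hσ with rfl | rfl
    · constructor
      · intro h3
        linarith
      · intro h3
        linarith
    · constructor
      · intro _
        linarith
      · intro _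
        linarith

lemma t18side_abs {σ v : ℝ} (hσ : σ = 1 ∨ σ = -1) (h : 0 < σ * v) : |v| = σ * v := by
  rcases hσ with rfl | rfl
  · rw [abs_of_pos (by linarith)]
    ring
  · rw [abs_of_neg (by linarith)]
    ring

lemma t18side_sgn {σ τ : ℝ} (hσ : σ = 1 ∨ σ = -1) (hτ : τ = 1 ∨ τ = -1) :
    σ * τ = 1 ∨ σ * τ = -1 := by
  rcases hσ with rfl | rfl <;> rcases hτ with rfl | rfl <;> norm_num

lemma t18side_fwd (H : FI X R e ε) {u σ : ℝ} (h : Iso X u σ) : Iso X (R u) (σ * e u) := by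
  obtain ⟨hu, hσ, κ, hκ, hI⟩ := h
  have hs := t18side_sgn hσ (H.sgn u hu)
  obtain ⟨κ', hκ', hU⟩ := H.unif (η := min (κ / 2) ε) (lt_min (by linarith) H.pos)
  refine ⟨H.bij.mapsTo hu, hs, κ', hκ', fun y hy h0 => ?_⟩
  obtain ⟨z, hz, rfl⟩ := H.bij.surjOn hy
  by_contra hc
  have h1 : |R z - R u| ≤ κ' := by
    rw [t18side_abs hs h0]
    exact (not_le.1 hc).le
  have h2 := (hU z hz u hu).2 h1
  have hne : u ≠ z := by
    rintro rfl
    simp at h0
  have h3 := (t18side_near H hu hz hne (h2.trans (min_le_right _ _)) hσ).2.2 h0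
  have h4 := hI z hz h3
  rw [← t18side_abs hσ h3] at h4
  linarith [h2.trans (min_le_left _ _)]

lemma t18side_bwd (H : FI X R e ε) {u σ : ℝ} (hu : u ∈ X) (hσ : σ = 1 ∨ σ = -1)
    (h : Iso X (R u) (σ * e u)) : Iso X u σ := by
  obtain ⟨_, hs, κ, hκ, hI⟩ := h
  obtain ⟨κ', hκ', hU⟩ := H.unif (η := κ / 2) (by linarith)
  refine ⟨hu, hσ, min κ' ε, lt_min hκ' H.pos, fun y hy h0 => ?_⟩
  by_contra hc
  have h1 : |y - u| ≤ min κ' ε := by
    rw [t18side_abs hσ h0]
    exact (not_le.1 hc).le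
  have h2 := (hU y hy u hu).1 (h1.trans (min_le_left _ _))
  have hne : u ≠ y := by
    rintro rfl
    simp at h0
  have h3 := (t18side_near H hu hy hne (h1.trans (min_le_right _ _)) hσ).2.1 h0
  have h4 := hI (R y) (H.bij.mapsTo hy) h3
  rw [← t18side_abs hs h3] at h4
  linarith

lemma t18side_T (H : FI X R e ε) :
    ∃ T : Equiv.Perm (Side X), ∀ s, (T s).1 = (R s.1.1, s.1.2 * e s.1.1) := by
  let F : Side X → Side X := fun s => ⟨(R s.1.1, s.1.2 * e s.1.1), t18side_fwd H s.2⟩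
  have hF : ∀ s, (F s).1 = (R s.1.1, s.1.2 * e s.1.1) := fun s => rfl
  have hb : Function.Bijective F := by
    constructor
    · intro s t hst
      have h1 : (F s).1 = (F t).1 := by rw [hst]
      rw [hF, hF, Prod.mk.injEq] at h1
      have h2 : s.1.1 = t.1.1 := H.bij.injOn s.2.1 t.2.1 h1.1
      have h3 := h1.2
      rw [← h2] at h3
      have h4 : e s.1.1 ≠ 0 := by
        rcases H.sgn _ s.2.1 with h | h <;> rw [h] <;> norm_num
      exact t18side_ext h2 (mul_right_cancel₀ h4 h3)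
    · intro t
      obtain ⟨u, hu, hR⟩ := H.bij.surjOn t.2.1
      have h1 : t.1.2 * e u * e u = t.1.2 := by
        rcases H.sgn _ hu with h | h <;> rw [h] <;> ring
      have h2 : Iso X (R u) (t.1.2 * e u * e u) := by
        rw [h1, hR]
        exact t.2
      refine ⟨⟨(u, t.1.2 * e u), t18side_bwd H hu (t18side_sgn t.2.2.1 (H.sgn u hu)) h2⟩, ?_⟩
      exact t18side_ext hR h1
  exact ⟨Equiv.ofBijective F hb, hF⟩

/-- Opposite sides. -/
def t18side_Op (X : Set ℝ) (s s' : Side X) : Prop :=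
  s'.1.2 = -s.1.2 ∧ ((0 < s.1.2 * (s'.1.1 - s.1.1) ∧
    ∀ y ∈ X, 0 < s.1.2 * (y - s.1.1) → s.1.2 * s'.1.1 ≤ s.1.2 * y) ∨
    ((∀ y ∈ X, s.1.2 * y ≤ s.1.2 * s.1.1) ∧ ∀ y ∈ X, s.1.2 * s'.1.1 ≤ s.1.2 * y))

lemma t18side_neg {σ : ℝ} (hσ : σ = 1 ∨ σ = -1) : -σ = 1 ∨ -σ = -1 := by
  rcases hσ with rfl | rfl <;> norm_num

lemma t18side_ex (hX : IsCompact X) (s : Side X) : ∃ s', t18side_Op X s s' := by
  obtain ⟨⟨u, σ⟩, hu, hσ, κ, hκ, hI⟩ := s
  dsimp only at hu hσ hI
  have hc : Continuous fun y : ℝ => σ * y := continuous_const.mul continuous_id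
  by_cases hA : ∃ y ∈ X, 0 < σ * (y - u)
  · obtain ⟨y₀, hy₀, h₀⟩ := hA
    have hK : IsCompact (X ∩ {y | κ ≤ σ * (y - u)}) :=
      hX.inter_right (isClosed_le continuous_const (by fun_prop))
    obtain ⟨v, ⟨hv, hv'⟩, hmin⟩ := hK.exists_isMinOn ⟨y₀, hy₀, hI y₀ hy₀ h₀⟩ hc.continuousOn
    have hv0 : 0 < σ * (v - u) := hκ.trans_le hv'
    have hm : ∀ y ∈ X, 0 < σ * (y - u) → σ * v ≤ σ * y := fun y hy h =>
      hmin (a := y) ⟨hy, hI y hy h⟩
    have hiso : Iso X v (-σ) := by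
      refine ⟨hv, t18side_neg hσ, σ * (v - u), hv0, fun y hy h => ?_⟩
      by_contra hc'
      have := hm y hy (by linarith)
      linarith
    exact ⟨⟨(v, -σ), hiso⟩, rfl, Or.inl ⟨hv0, hm⟩⟩
  · obtain ⟨v, hv, hmin⟩ := hX.exists_isMinOn ⟨u, hu⟩ hc.continuousOn
    have hm : ∀ y ∈ X, σ * v ≤ σ * y := fun y hy => hmin (a := y) hy
    have hiso : Iso X v (-σ) := by
      refine ⟨hv, t18side_neg hσ, 1, one_pos, fun y hy h => ?_⟩
      have := hm y hy
      linarith
    refine ⟨⟨(v, -σ), hiso⟩, rfl, Or.inr ⟨fun y hy => ?_, hm⟩⟩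
    by_contra hc'
    exact hA ⟨y, hy, by dsimp only at hc'; linarith⟩

lemma t18side_uniq {s t t' : Side X} (h : t18side_Op X s t) (h' : t18side_Op X s t') :
    t = t' := by
  have h0 : s.1.2 ≠ 0 := by
    rcases s.2.2.1 with h | h <;> rw [h] <;> norm_num
  refine t18side_ext (mul_left_cancel₀ h0 ?_) (h.1.trans h'.1.symm)
  rcases h.2 with ⟨h1, h2⟩ | ⟨h1, h2⟩ <;> rcases h'.2 with ⟨h3, h4⟩ | ⟨h3, h4⟩
  · exact le_antisymm (h2 _ t'.2.1 h3) (h4 _ t.2.1 h1)
  · linarith [h3 _ t.2.1]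
  · linarith [h1 _ t'.2.1]
  · exact le_antisymm (h2 _ t'.2.1) (h4 _ t.2.1)

lemma t18side_symm {s t : Side X} (h : t18side_Op X s t) : t18side_Op X t s := by
  obtain ⟨h0, h⟩ := h
  refine ⟨by rw [h0, neg_neg], ?_⟩
  rw [h0]
  rcases h with ⟨h1, h2⟩ | ⟨h1, h2⟩
  · refine Or.inl ⟨by linarith, fun y hy h3 => ?_⟩
    by_contra hc
    have := h2 y hy (by linarith)
    linarith
  · exact Or.inr ⟨fun y hy => by linarith [h2 y hy], fun y hy => by linarith [h1 y hy]⟩

lemma t18side_gap {a : ℝ} {s t : Side X} (h : t18side_Op X s t)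
    (h1 : 0 < s.1.2 * (t.1.1 - s.1.1)) (h2 : |t.1.1 - s.1.1| ≤ a) : Gap X a s t := by
  refine ⟨h1, h2, h.1, fun y hy hm => ?_⟩
  rcases h.2 with ⟨_, h4⟩ | ⟨h3, _⟩
  · have h5 := h4 y hy
    rcases s.2.2.1 with hs | hs <;> rw [hs] at h1 h5
    · rw [min_eq_left (by linarith), max_eq_right (by linarith)] at hm
      have := h5 (by linarith [hm.1])
      linarith [hm.2]
    · rw [min_eq_right (by linarith), max_eq_left (by linarith)] at hm
      have := h5 (by linarith [hm.2])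
      linarith [hm.1]
  · linarith [h3 _ t.2.1]

theorem FI.sides (H : FI X R e ε) {a : ℝ} (ha : 0 < a) : Nonempty (Side X) ∧
    ∃ (T : Equiv.Perm (Side X)) (o : Side X → Side X) (E : Set (Side X)), E.Finite ∧
      (∀ s, (T s).1 = (R s.1.1, s.1.2 * e s.1.1)) ∧
      (∀ (s : Side X) (k : ℤ), (T ^ k) s = s → k = 0) ∧ (∀ s, o (o s) = s) ∧ (∀ s, o s ≠ s) ∧
      (∀ s, s ∉ E → o (T s) = T (o s)) ∧ ∀ s, s ∉ E → Gap X a s (o s) := by
  obtain ⟨M, hM, hmax⟩ := H.cpt.exists_isGreatest H.ne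
  obtain ⟨m, hm, hmin⟩ := H.cpt.exists_isLeast H.ne
  have hmM : m ≤ M := hmax hm
  refine ⟨⟨⟨(M, 1), hM, Or.inl rfl, 1, one_pos, fun y hy h => ?_⟩⟩, ?_⟩
  · have := hmax hy
    dsimp only at h
    linarith
  obtain ⟨T, hT⟩ := t18side_T H
  choose o ho using t18side_ex H.cpt
  obtain ⟨a₀, ha₀, haε, hconv⟩ := H.conv
  have hfree : ∀ (s : Side X) (k : ℕ), (T ^ k) s = s → k = 0 := by
    intro s k hk
    by_contra hc
    have h1 := side_pow hT s k
    rw [hk] at h1
    exact H.aper _ s.2.1 k (Nat.pos_of_ne_zero hc) (congrArg Prod.fst h1).symm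
  have hb : 0 < min a a₀ := lt_min ha ha₀
  refine ⟨T, o, {s | ¬ (0 < s.1.2 * ((o s).1.1 - s.1.1) ∧ |(o s).1.1 - s.1.1| ≤ min a a₀)},
    ?_, hT, ?_, ?_, ?_, ?_, ?_⟩
  · have f1 : {s : Side X | ∀ y ∈ X, s.1.2 * y ≤ s.1.2 * s.1.1}.Finite := by
      refine Set.Finite.of_finite_image (f := fun s => s.1.2)
        ((Set.toFinite ({1, -1} : Set ℝ)).subset ?_) ?_
      · rintro _ ⟨s, _, rfl⟩
        exact s.2.2.1
      · intro s hs t ht hst
        have hst' : s.1.2 = t.1.2 := hst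
        have h0 : s.1.2 ≠ 0 := by
          rcases s.2.2.1 with h | h <;> rw [h] <;> norm_num
        refine t18side_ext (mul_left_cancel₀ h0 ?_) hst'
        have h1 := hs _ t.2.1
        have h2 := ht _ s.2.1
        rw [← hst'] at h2
        exact le_antisymm h2 h1
    have f2 : {s : Side X | Gap X (M - m) s (o s) ∧ min a a₀ < |(o s).1.1 - s.1.1|}.Finite := by
      by_contra hc
      obtain ⟨N, hN⟩ := exists_nat_gt (2 * (M - m) / min a a₀)
      obtain ⟨S, hS, hcard⟩ := Set.Infinite.exists_subset_card_eq hc N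
      have h1 := gap_sum hmM o S (fun s hs => ⟨(hS hs).1, ⟨hmin s.2.1, hmax s.2.1⟩,
        ⟨hmin (o s).2.1, hmax (o s).2.1⟩⟩)
      have h2 : ∑ _s ∈ S, min a a₀ ≤ ∑ s ∈ S, |(o s).1.1 - s.1.1| :=
        Finset.sum_le_sum fun s hs => (hS hs).2.le
      rw [Finset.sum_const, hcard, nsmul_eq_mul] at h2
      rw [div_lt_iff₀ hb] at hN
      linarith
    refine (f1.union f2).subset fun s hs => ?_
    rcases (ho s).2 with ⟨h1, _⟩ | ⟨h1, _⟩
    · refine Or.inr ⟨t18side_gap (ho s) h1 ?_, ?_⟩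
      · have h2 := hmin s.2.1
        have h3 := hmax s.2.1
        have h4 := hmin (o s).2.1
        have h5 := hmax (o s).2.1
        rw [abs_le]
        constructor <;> linarith
      · by_contra hc
        exact hs ⟨h1, not_lt.1 hc⟩
    · exact Or.inl h1
  · intro s k hk
    rcases Int.eq_nat_or_neg k with ⟨n, rfl | rfl⟩
    · rw [zpow_natCast] at hk
      rw [hfree s n hk]
      rfl
    · rw [zpow_neg, zpow_natCast, Equiv.Perm.inv_eq_iff_eq] at hk
      rw [hfree s n hk.symm]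
      rfl
  · exact fun s => t18side_uniq (ho (o s)) (t18side_symm (ho s))
  · intro s hs
    have h1 := (ho s).1
    rw [hs] at h1
    rcases s.2.2.1 with h | h <;> rw [h] at h1 <;> norm_num at h1
  · intro s hs
    obtain ⟨h1, h2⟩ := not_not.1 hs
    have hG := t18side_gap (ho s) h1 h2
    have hne : s.1.1 ≠ (o s).1.1 := by
      intro h
      rw [← h] at h1
      simp at h1
    obtain ⟨h3, h4⟩ := t18side_near H s.2.1 (o s).2.1 hne
      (h2.trans ((min_le_right _ _).trans haε)) s.2.2.1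
    have h5 := h4.1 h1
    refine t18side_uniq (ho (T s)) ⟨?_, Or.inl ⟨?_, ?_⟩⟩
    · rw [hT, hT]
      dsimp only
      rw [(ho s).1, h3]
      ring
    · rw [hT, hT]
      exact h5
    · rw [hT, hT]
      dsimp only
      intro y hy h6
      obtain ⟨z, hz, rfl⟩ := H.bij.surjOn hy
      by_contra hc
      have hc' := not_le.1 hc
      have h7 : R z ∈ Set.uIcc (R s.1.1) (R (o s).1.1) := by
        rw [Set.mem_uIcc]
        rcases t18side_sgn s.2.2.1 (H.sgn _ s.2.1) with h | h <;> rw [h] at h6 hc'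
        · exact Or.inl ⟨by linarith, by linarith⟩
        · exact Or.inr ⟨by linarith, by linarith⟩
      have h8 := hconv _ s.2.1 _ (o s).2.1 z hz
        (by rw [abs_sub_comm]; exact h2.trans (min_le_right _ _)) h7
      have h9 := hG.2.2.2 z hz
      have hz1 : z ≠ s.1.1 := by
        rintro rfl
        simp at h6
      have hz2 : z ≠ (o s).1.1 := by
        rintro rfl
        exact lt_irrefl _ hc'
      refine h9 ⟨lt_of_le_of_ne h8.1 ?_, lt_of_le_of_ne h8.2 ?_⟩
      · intro h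
        rcases min_choice s.1.1 (o s).1.1 with h' | h' <;> rw [h'] at h
        · exact hz1 h.symm
        · exact hz2 h.symm
      · intro h
        rcases max_choice s.1.1 (o s).1.1 with h' | h' <;> rw [h'] at h
        · exact hz1 h
        · exact hz2 h
  · intro s hs
    obtain ⟨h1, h2⟩ := not_not.1 hs
    exact t18side_gap (ho s) h1 (h2.trans (min_le_left _ _))

end Pool.Agent.Lib.MP_5bb885_an.Gen
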