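import Pool.Agent.Lib.MP_5bb885_an.T18Diff

/-!
One-sided calibrated closed curves depend on the potential in a Lipschitz way.
-/

namespace Pool.Agent.Lib.MP_5bb885_an.Gen

open UpperHalfPlane MeasureTheory Filter Topology

variable {Γ : Type} [Group Γ] [MulAction Γ ℍ] {L : ℂ × ℂ → ℝ} {c : Γ → ℝ} {x : ℝ → ℍ} {γ : Γ}
  {T : ℝ}

lemma t18stab_first {l : Filter ℕ} {Y V : ℕ → ℝ → ℂ} {v : ℝ → ℂ} {a b d : ℕ → ℝ} {s₀ β : ℝ}
    (hY : ∀ n s, HasDerivAt (Y n) (V n s) s) (hV : UW l V v) (hv : Continuous v)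
    (ha : Tendsto a l (𝓝 s₀)) (hb : Tendsto b l (𝓝 s₀)) (hd : ∀ n, 0 < d n ∧ |b n - a n| ≤ d n)
    (hβ : Tendsto (fun n => (b n - a n) / d n) l (𝓝 β)) :
    Tendsto (fun n => (d n)⁻¹ • (Y n (b n) - Y n (a n))) l (𝓝 (β • v s₀)) := by
  have h1 : Tendsto (fun n => ((b n - a n) / d n) • v s₀) l (𝓝 (β • v s₀)) :=
    hβ.smul_const _
  have h2 : Tendsto (fun n => (d n)⁻¹ • (Y n (b n) - Y n (a n)) - ((b n - a n) / d n) • v s₀) l
      (𝓝 0) := by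
    rw [NormedAddGroup.tendsto_nhds_zero]
    intro ε hε
    obtain ⟨r, hr, hc⟩ := Metric.continuousAt_iff.1 (hv.continuousAt (x := s₀)) (ε / 4)
      (by positivity)
    filter_upwards [hV (|s₀| + r) (ε / 4) (by positivity), ha.eventually (Metric.ball_mem_nhds _ hr),
      hb.eventually (Metric.ball_mem_nhds _ hr)] with n h3 h4 h5
    have h6 : ∀ s ∈ Metric.ball s₀ r, HasDerivWithinAt (fun s : ℝ => Y n s - s • v s₀)
        (V n s - v s₀) (Metric.ball s₀ r) s := fun s _ => by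
      have := (hY n s).sub ((hasDerivAt_id s).smul_const (v s₀))
      rw [one_smul] at this
      exact this.hasDerivWithinAt
    have h7 : ∀ s ∈ Metric.ball s₀ r, ‖V n s - v s₀‖ ≤ ε / 2 := fun s hs => by
      have h8 : |s - s₀| < r := by simpa [Real.dist_eq] using hs
      have h9 : |s| ≤ |s₀| + r := by
        have := abs_sub_abs_le_abs_sub s s₀
        linarith
      have h10 := h3 s h9
      have h11 := hc hs
      rw [dist_eq_norm] at h11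
      have := norm_sub_le_norm_sub_add_norm_sub (V n s) (v s) (v s₀)
      linarith
    have h8 := (convex_ball s₀ r).norm_image_sub_le_of_norm_hasDerivWithin_le h6 h7 h4 h5
    have e : (d n)⁻¹ • (Y n (b n) - Y n (a n)) - ((b n - a n) / d n) • v s₀ =
        (d n)⁻¹ • (Y n (b n) - b n • v s₀ - (Y n (a n) - a n • v s₀)) := by
      rw [div_eq_inv_mul, mul_smul, ← smul_sub, sub_smul]
      congr 1
      abel
    obtain ⟨d1, d2⟩ := hd n
    rw [e, norm_smul, Real.norm_eq_abs, abs_of_pos (inv_pos.2 d1), inv_mul_lt_iff₀ d1]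
    rw [Real.norm_eq_abs] at h8
    nlinarith
  simpa using h2.add h1

lemma t18stab_second {l : Filter ℕ} {φ : ℂ → ℂ} {A : ℂ →L[ℝ] ℂ} {z w : ℂ} {p q : ℕ → ℂ}
    {r : ℕ → ℝ} (h : HasStrictFDerivAt φ A z) (hp : Tendsto p l (𝓝 z)) (hq : Tendsto q l (𝓝 z))
    (hw : Tendsto (fun n => r n • (p n - q n)) l (𝓝 w)) :
    Tendsto (fun n => r n • (φ (p n) - φ (q n))) l (𝓝 (A w)) := by
  have h1 := h.isLittleO.comp_tendsto (hp.prodMk_nhds hq)
  have h2 := ((Asymptotics.isBigO_refl r l).smul_isLittleO h1).trans_isBigO (hw.isBigO_one ℝ)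
  rw [Asymptotics.isLittleO_one_iff] at h2
  have h3 := h2.add ((A.continuous.tendsto w).comp hw)
  rw [zero_add] at h3
  refine h3.congr fun n => ?_
  simp only [Function.comp_def, map_smul]
  rw [← smul_add, sub_add_cancel]

lemma t18stab_tend {X : Type} [PseudoMetricSpace X] {a : ℕ → X} {z : X}
    (h : ∀ n : ℕ, dist (a n) z ≤ 1 / (n + 1)) : Tendsto a atTop (𝓝 z) :=
  tendsto_iff_dist_tendsto_zero.2
    (squeeze_zero (fun _ => dist_nonneg) h tendsto_one_div_add_atTop_nhds_zero_nat)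

lemma t18stab_fst {l : Filter ℕ} {ys : ℕ → ℝ → ℍ} (h : UW l (fun n => jet (ys n)) (jet x))
    (hx : Continuous (jet x)) (t : ℝ) : Tendsto (fun n => (ys n t : ℂ)) l (𝓝 (x t)) :=
  (continuous_fst.tendsto _).comp (h.tendsto hx tendsto_const_nhds)

lemma t18stab_snd {l : Filter ℕ} {ys : ℕ → ℝ → ℍ} (h : UW l (fun n => jet (ys n)) (jet x)) :
    UW l (fun n => vel (ys n)) (vel x) := fun W ε hε => by
  filter_upwards [h W ε hε] with n hn t ht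
  exact (norm_snd_le (jet (ys n) t - jet x t)).trans (hn t ht)

lemma t18stab_jet {y₁ y₂ : ℝ → ℍ} {d ε t : ℝ} (hd : 0 < d)
    (h1 : ‖d⁻¹ • ((y₁ t : ℂ) - y₂ t) - 0‖ ≤ ε) (h2 : ‖d⁻¹ • (vel y₁ t - vel y₂ t) - 0‖ ≤ ε) :
    ‖jet y₁ t - jet y₂ t‖ ≤ d * ε := by
  rw [sub_zero, norm_smul, Real.norm_eq_abs, abs_of_pos (inv_pos.2 hd), inv_mul_le_iff₀ hd] at h1 h2
  exact norm_prod_le_iff.2 ⟨h1, h2⟩

theorem CP.stab (F : Deck Γ) (hL : Tonelli Γ L) (hc : c ∈ Coh Γ) (h : CP L c x γ T)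
    (hn : ¬Ori γ) : ∃ C δ : ℝ, 0 ≤ C ∧ 0 < δ ∧ ∀ f g : ℂ → ℝ, C2 Γ f → C2 Γ g → Sm δ f → Sm δ g →
      ∀ c' ∈ Coh Γ, (∀ (γ' : Γ) (z : ℍ), |c' γ' - c γ'| ≤ δ * dist z (γ' • z)) →
      ∀ (y₁ y₂ : ℝ → ℍ) (T₁ T₂ E : ℝ), CP (addP L f) c' y₁ γ T₁ → CP (addP L (f + g)) c' y₂ γ T₂ →
        |T₁ - T| ≤ δ → |T₂ - T| ≤ δ → dist (y₁ 0) (x 0) ≤ δ → dist (y₂ 0) (x 0) ≤ δ →
        (((y₁ 0 : ℂ) - y₂ 0) / vel x 0).re = 0 → (∀ t, |g (y₁ t)| ≤ E ∧ |g (y₂ t)| ≤ E) →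
        ∫ t in (0 : ℝ)..T₂, ‖fderiv ℝ g (y₂ t)‖ * (y₂ t).im ≤ E →
        |T₁ - T₂| ≤ C * E ∧ ∀ t ∈ Set.Icc 0 (T + 1), ‖jet y₁ t - jet y₂ t‖ ≤ C * E := by
  by_contra hcon
  have hT := h.per.1
  have key : ∀ n : ℕ, ∃ (f g : ℂ → ℝ) (c' : Γ → ℝ) (y₁ y₂ : ℝ → ℍ) (T₁ T₂ E t : ℝ),
      C2 Γ f ∧ C2 Γ g ∧ Sm (1 / (n + 1)) f ∧ Sm (1 / (n + 1)) g ∧ c' ∈ Coh Γ ∧
      (∀ (γ' : Γ) (z : ℍ), |c' γ' - c γ'| ≤ 1 / (n + 1) * dist z (γ' • z)) ∧
      CP (addP L f) c' y₁ γ T₁ ∧ CP (addP L (f + g)) c' y₂ γ T₂ ∧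
      |T₁ - T| ≤ 1 / (n + 1) ∧ |T₂ - T| ≤ 1 / (n + 1) ∧ dist (y₁ 0) (x 0) ≤ 1 / (n + 1) ∧
      dist (y₂ 0) (x 0) ≤ 1 / (n + 1) ∧ (((y₁ 0 : ℂ) - y₂ 0) / vel x 0).re = 0 ∧
      (∀ t, |g (y₁ t)| ≤ E ∧ |g (y₂ t)| ≤ E) ∧
      (∫ t in (0 : ℝ)..T₂, ‖fderiv ℝ g (y₂ t)‖ * (y₂ t).im ≤ E) ∧ |t| ≤ T + 1 ∧
      n * E < |T₁ - T₂| + ‖jet y₁ t - jet y₂ t‖ := by
    intro n
    by_contra hk
    refine hcon ⟨n, 1 / (n + 1), n.cast_nonneg, by positivity, ?_⟩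
    intro f g a1 a2 a3 a4 c' a5 a6 y₁ y₂ T₁ T₂ E a7 a8 a9 a10 a11 a12 a13 a14 a15
    have hh : ∀ t, |t| ≤ T + 1 → |T₁ - T₂| + ‖jet y₁ t - jet y₂ t‖ ≤ n * E := fun t ht => by
      by_contra h'
      exact hk ⟨f, g, c', y₁, y₂, T₁, T₂, E, t, a1, a2, a3, a4, a5, a6, a7, a8, a9, a10, a11, a12,
        a13, a14, a15, ht, not_le.1 h'⟩
    constructor
    · have := hh 0 (by rw [abs_zero]; linarith)
      linarith [norm_nonneg (jet y₁ 0 - jet y₂ 0)]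
    · intro t ht
      have := hh t (by rw [abs_of_nonneg ht.1]; exact ht.2)
      linarith [abs_nonneg (T₁ - T₂)]
  choose f g cs y₁ y₂ T₁ T₂ E τ a1 a2 a3 a4 a5 a6 a7 a8 a9 a10 a11 a12 a13 a14 a15 a16 a17 using key
  obtain ⟨d, hd⟩ : ∃ d : ℕ → ℝ, ∀ n, d n = ‖jet (y₁ n) 0 - jet (y₂ n) 0‖ +
      (|T₁ n - T₂ n| + ‖jet (y₁ n) (τ n) - jet (y₂ n) (τ n)‖) := ⟨_, fun _ => rfl⟩
  have hE0 : ∀ n, 0 ≤ E n := fun n => (abs_nonneg _).trans (a14 n 0).1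
  have hdE : ∀ n : ℕ, n * E n < d n := fun n => by
    rw [hd]
    linarith [a17 n, norm_nonneg (jet (y₁ n) 0 - jet (y₂ n) 0)]
  have hd0 : ∀ n, 0 < d n := fun n => (mul_nonneg n.cast_nonneg (hE0 n)).trans_lt (hdE n)
  have hd1 : ∀ n, ‖jet (y₁ n) 0 - jet (y₂ n) 0‖ ≤ d n := fun n => by
    rw [hd]
    exact le_add_of_nonneg_right (by positivity)
  have hd2 : ∀ n, |T₂ n - T₁ n| ≤ d n := fun n => by
    rw [hd, abs_sub_comm]
    linarith [norm_nonneg (jet (y₁ n) 0 - jet (y₂ n) 0),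
      norm_nonneg (jet (y₁ n) (τ n) - jet (y₂ n) (τ n))]
  obtain ⟨l, hl⟩ : ∃ l : Ultrafilter ℕ, (l : Filter ℕ) ≤ atTop := ⟨_, Ultrafilter.of_le _⟩
  have hf0 := toZero_of_sm a3
  have hg0 := toZero_of_sm a4
  have hcl : CLim l c cs := fun ε hε => by
    filter_upwards [hl (tendsto_one_div_add_atTop_nhds_zero_nat.eventually (ge_mem_nhds hε))]
      with n hn γ' z
    exact (a6 n γ' z).trans (mul_le_mul_of_nonneg_right hn dist_nonneg)
  have t₁ : Tendsto T₁ l (𝓝 T) := (t18stab_tend a9).mono_left hl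
  have t₂ : Tendsto T₂ l (𝓝 T) := (t18stab_tend a10).mono_left hl
  have p₁ : Tendsto (fun n => y₁ n 0) l (𝓝 (x 0)) := (t18stab_tend a11).mono_left hl
  have p₂ : Tendsto (fun n => y₂ n 0) l (𝓝 (x 0)) := (t18stab_tend a12).mono_left hl
  have h0 : Tendsto (fun n => E n / d n) l (𝓝 0) := by
    refine Tendsto.mono_left ?_ hl
    refine squeeze_zero' (Eventually.of_forall fun n => div_nonneg (hE0 n) (hd0 n).le) ?_
      tendsto_one_div_atTop_nhds_zero_nat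
    filter_upwards [eventually_gt_atTop 0] with n hn
    rw [div_le_div_iff₀ (hd0 n) (Nat.cast_pos.2 hn)]
    linarith [hdE n]
  obtain ⟨η, hJ, hEn, u1, u2⟩ := CP.diff_lim F hL hc h hl a1 a2 hf0 hg0 a5 hcl a7 a8 t₁ t₂ p₁ p₂
    (fun n => ⟨hd0 n, hd1 n⟩) (fun n => ⟨a14 n, a15 n⟩) h0
  have hx := h.reg F hL
  have j₁ := ((lseq_of_toZero F hL a1 hf0).mono hl).uw_cp F hc a5 hcl h a7 t₁ p₁
  have j₂ := ((lseq_of_toZero F hL (fun n => (a1 n).add (a2 n))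
    (ToZero.add a1 a2 hf0 hg0)).mono hl).uw_cp F hc a5 hcl h a8 t₂ p₂
  have hηc : Continuous η := continuous_iff_continuousAt.2 fun t => (hJ t).1.continuousAt
  obtain ⟨β, -, hβ⟩ := (isCompact_Icc (a := (-1 : ℝ)) (b := 1)).ultrafilter_le_nhds
    (l.map fun n => (T₂ n - T₁ n) / d n) (by
      rw [Ultrafilter.coe_map, le_principal_iff, mem_map]
      refine Eventually.of_forall fun n => abs_le.1 ?_
      rw [abs_div, abs_of_pos (hd0 n), div_le_one (hd0 n)]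
      exact hd2 n)
  replace hβ : Tendsto (fun n => (T₂ n - T₁ n) / d n) l (𝓝 β) := hβ
  have he : ∀ t, η (t + T) = dk γ (x t) (η t) + β • vel x (t + T) := fun t => by
    have e1 := u1.tendsto hηc (t₂.const_add t)
    have e2 := t18stab_first (Y := fun n s => (y₁ n s : ℂ)) (d := d) (β := β)
      (fun n s => ((a7 n).reg F (hL.add F (a1 n))).hasDerivAt s) (t18stab_snd j₁) hx.contVel
      (t₁.const_add t) (t₂.const_add t)
      (fun n => ⟨hd0 n, by rw [add_sub_add_left_eq_sub]; exact hd2 n⟩)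
      (by simpa only [add_sub_add_left_eq_sub] using hβ)
    have e3 := t18stab_second (((F.contDiffOn γ).contDiffAt
      (isOpen_HP.mem_nhds (x t).im_pos)).hasStrictFDerivAt (by simp))
      (t18stab_fst j₁ hx.contJet t) (t18stab_fst j₂ hx.contJet t)
      (u1.tendsto hηc (tendsto_const_nhds (x := t)))
    refine tendsto_nhds_unique e1 ((e3.add e2).congr fun n => ?_)
    rw [ofComplex_apply, ofComplex_apply, ← (a7 n).per.2, ← (a8 n).per.2, ← smul_add]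
    congr 1
    ring
  obtain ⟨p, hp⟩ := h.tangent F hL hc hn hJ hEn he
  have hv := h.vel_ne F hL hn
  have hp0 : p = 0 := by
    have e1 := (Complex.continuous_re.tendsto _).comp
      ((u1.tendsto hηc (tendsto_const_nhds (x := 0))).div_const (vel x 0))
    have e2 : (η 0 / vel x 0).re = 0 := by
      refine tendsto_nhds_unique e1 (tendsto_const_nhds.congr fun n => ?_)
      simp only [Function.comp_def]
      rw [smul_div_assoc, Complex.smul_re, a13 n, smul_zero]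
    rwa [hp, smul_div_assoc, div_self (hv 0), Complex.smul_re, Complex.one_re, smul_eq_mul,
      mul_one] at e2
  have hη : η = fun _ => 0 := funext fun t => by rw [hp, hp0, zero_smul]
  have hβ0 : β = 0 := by
    have e := he 0
    simp only [hη, map_zero, zero_add] at e
    exact (smul_eq_zero.1 e.symm).resolve_right (hv T)
  rw [hβ0] at hβ
  have hη' : deriv η = fun _ => 0 := by
    rw [hη]
    exact deriv_const' _
  rw [hη'] at u2
  rw [hη] at u1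
  have e0 := hβ.abs
  rw [abs_zero] at e0
  obtain ⟨n, b1, b2, b3⟩ := ((u1 (T + 1) (1 / 4) (by norm_num)).and
    ((u2 (T + 1) (1 / 4) (by norm_num)).and
      (e0.eventually (ge_mem_nhds (show (0 : ℝ) < 1 / 4 by norm_num))))).exists
  have hz : |(0 : ℝ)| ≤ T + 1 := by rw [abs_zero]; linarith
  have c1 := t18stab_jet (hd0 n) (b1 0 hz) (b2 0 hz)
  have c2 := t18stab_jet (hd0 n) (b1 _ (a16 n)) (b2 _ (a16 n))
  rw [abs_div, abs_of_pos (hd0 n), div_le_iff₀ (hd0 n), abs_sub_comm] at b3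
  linarith [hd n, hd0 n]

end Pool.Agent.Lib.MP_5bb885_an.Gen
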