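import Pool.Agent.Lib.MP_5bb885_an.T18Defs

/-!
The flux potential twisted by the orientation character.
-/

namespace Pool.Agent.Lib.MP_5bb885_an.Gen

open UpperHalfPlane MeasureTheory Filter Topology

variable {Γ : Type} [Group Γ] [MulAction Γ ℍ] {K : Set ℍ} {Φ : ℝ → ℍ → ℍ} {V : ℍ → ℂ}

lemma t18tw1_cov (F : Deck Γ) {γ : Γ} (ho : ¬Ori γ) (z w : ℍ) : ∃ c : ℂ, c ≠ 0 ∧ ∀ ζ : ℍ,
    (((γ • ζ : ℍ) : ℂ) - (γ • z : ℍ)) / (((γ • ζ : ℍ) : ℂ) - (γ • w : ℍ)) =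
      starRingEnd ℂ (((ζ : ℂ) - z) / (ζ - w) * c) := by
  obtain ⟨σ, M, m₁, m₂, m₃, h⟩ := F.mobD γ
  obtain ⟨j, e, -, hj, he, hM⟩ := h.crs
  have hσ : ∀ u, σ u = starRingEnd ℂ u := by
    rcases h.sgn with ⟨a, -⟩ | ⟨-, b⟩
    · exact absurd a ho
    · exact b
  refine ⟨j w / j z, div_ne_zero (hj w) (hj z), fun ζ => ?_⟩
  simp only [h.val, hσ, ← map_sub, ← map_div₀, hM]
  congr 1
  have n1 := hj ζ
  have n2 := hj z
  have n3 := hj w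
  by_cases hw : (ζ : ℂ) - w = 0
  · simp [hw]
  · field_simp

lemma Wq_smul' (F : Deck Γ) {γ : Γ} (ho : ¬Ori γ) {x : ℝ → ℍ} (h : C1 x) {z w : ℍ}
    (hz : ∀ τ, x τ ≠ z) (hw : ∀ τ, x τ ≠ w) (s t : ℝ) :
    Wq (γ • z : ℍ) (γ • w : ℍ) (fun τ => γ • x τ) s t = -Wq z w x s t := by
  obtain ⟨c, hc, e⟩ := t18tw1_cov F ho z w
  have hz' : ∀ τ, (x τ : ℂ) ≠ z := fun τ e => hz τ (UpperHalfPlane.ext e)
  have hw' : ∀ τ, (x τ : ℂ) ≠ w := fun τ e => hw τ (UpperHalfPlane.ext e)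
  have hz'' : ∀ τ, ((γ • x τ : ℍ) : ℂ) ≠ (γ • z : ℍ) := fun τ e =>
    hz τ (smul_left_cancel γ (UpperHalfPlane.ext e))
  have hw'' : ∀ τ, ((γ • x τ : ℍ) : ℂ) ≠ (γ • w : ℍ) := fun τ e =>
    hw τ (smul_left_cancel γ (UpperHalfPlane.ext e))
  simp only [Wq]
  rw [← neg_div, ← intervalIntegral.integral_neg]
  congr 2
  funext τ
  have d1 := t9flux1_der (h.smul F γ) (hz'' τ) (hw'' τ)
  have d2 := Complex.conjCLE.hasFDerivAt.comp_hasDerivAt τ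
    ((t9flux1_der h (hz' τ) (hw' τ)).mul_const c)
  simp only [e] at d1
  have e2 := d1.unique d2
  have n : ((x τ : ℂ) - z) / (x τ - w) * c ≠ 0 :=
    mul_ne_zero (div_ne_zero (sub_ne_zero.2 (hz' τ)) (sub_ne_zero.2 (hw' τ))) hc
  have n' : starRingEnd ℂ (((x τ : ℂ) - z) / (x τ - w) * c) ≠ 0 := (map_ne_zero _).2 n
  rw [← Complex.conj_im]
  congr 1
  refine mul_left_cancel₀ n' ?_
  rw [e2, ← map_mul]
  change starRingEnd ℂ _ = _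
  congr 1
  ring

lemma ar_smul' (F : Deck Γ) {γ : Γ} (ho : ¬Ori γ) (z w : ℍ) : ∃ R c : ℝ, ∀ ζ : ℍ, R < dist ζ I →
    ar (γ • z : ℍ) (γ • w : ℍ) (γ • ζ : ℍ) + ar z w ζ = c := by
  obtain ⟨k, hk, e⟩ := t18tw1_cov F ho z w
  set R := max (dist z I) (dist w I) with hR
  set D := dist (γ • I : ℍ) I with hD
  have hD0 : 0 ≤ D := dist_nonneg
  have hz : dist z I ≤ R := le_max_left _ _
  have hw : dist w I ≤ R := le_max_right _ _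
  have up : ∀ u : ℍ, dist (γ • u) I ≤ dist u I + D := fun u => by
    have := dist_triangle (γ • u) (γ • I) I
    rwa [F.iso] at this
  have lo : ∀ u : ℍ, dist u I ≤ dist (γ • u) I + D := fun u => by
    have := dist_triangle_right (γ • u) (γ • I) I
    rwa [F.iso] at this
  have o1 : ∀ ζ : ℍ, R + 2 * D < dist ζ I → (ζ : ℂ) ∉ segment ℝ (z : ℂ) w := fun ζ hζ =>
    t9flux1_out hz hw (by linarith)
  have o2 : ∀ ζ : ℍ, R + 2 * D < dist ζ I →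
      ((γ • ζ : ℍ) : ℂ) ∉ segment ℝ ((γ • z : ℍ) : ℂ) (γ • w : ℍ) := fun ζ hζ =>
    t9flux1_out (R := R + D) (by linarith [up z]) (by linarith [up w]) (by linarith [lo ζ])
  refine ⟨R + 2 * D, t9flux1_const (isPreconnected_ext (R + 2 * D))
    (f := fun ζ => ar (γ • z : ℍ) (γ • w : ℍ) (γ • ζ : ℍ) + ar z w ζ)
    (c₀ := -(Complex.arg k / (2 * Real.pi))) (fun ζ hζ => ?_) fun ζ hζ => ?_⟩
  · exact ((ContinuousAt.comp (f := fun ζ : ℍ => γ • ζ) (t9flux1_car (o2 ζ hζ))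
      (F.cont γ).continuousAt).add (t9flux1_car (o1 ζ hζ))).continuousWithinAt
  · obtain ⟨n, hn⟩ := t9flux1_mul (Complex.slitPlane_ne_zero (t9flux1_slit (o1 ζ hζ))) hk
    have h1 := t9flux1_slit (o2 ζ hζ)
    rw [e] at h1
    have h2 : Complex.arg (((ζ : ℂ) - z) / (ζ - w) * k) ≠ Real.pi := fun h3 => by
      have h4 := Complex.slitPlane_arg_ne_pi h1
      rw [Complex.arg_conj, if_pos h3] at h4
      exact h4 rfl
    refine ⟨-n, ?_⟩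
    simp only [ar]
    rw [e, Complex.arg_conj, if_neg h2, neg_div, hn]
    push_cast
    ring

lemma Lam.flux_smul' (F : Deck Γ) (A : Lam Γ K Φ V) {z w : ℍ} (hz : z ∉ K) (hw : w ∉ K) (δ : Γ) :
    ∃ C : ℝ, ∀ x ∈ K, ∀ s t, s ≤ t →
      |flux Γ (δ • z : ℍ) (δ • w : ℍ) (fun τ => Φ τ x) s t -
        sg δ * flux Γ z w (fun τ => Φ τ x) s t| ≤ C := by
  rcases sg_cases δ with ⟨ho, hs⟩ | ⟨ho, hs⟩
  · simpa only [hs, one_mul] using A.flux_smul F hz hw ho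
  obtain ⟨R, c, hR⟩ := ar_smul' F ho z w
  obtain ⟨C, hC⟩ := t9f2_bound F R 2
  refine ⟨C, fun x hx s t hst => ?_⟩
  have f1 : (Function.support fun γ : Γ =>
      cr (δ • z : ℍ) (δ • w : ℍ) (fun τ => (Equiv.mulLeft δ γ) • Φ τ x) s t).Finite :=
    (A.flux_finite F hx (δ • z) (δ • w) hst).preimage (Equiv.mulLeft δ).injective.injOn
  rw [hs, neg_one_mul, sub_neg_eq_add, flux, flux, ← finsum_comp_equiv (Equiv.mulLeft δ),
    ← finsum_add_distrib f1 (A.flux_finite F hx z w hst)]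
  refine hC (Φ s x) (Φ t x) _ fun γ hγ => ?_
  have e := Wq_smul' F ho ((A.c1 hx).1.smul F γ) (t9f2_ne A hx hz γ) (t9f2_ne A hx hw γ) s t
  simp only [cr, Equiv.coe_mulLeft, mul_smul] at hγ ⊢
  constructor
  · have h1 := abs_le.1 (abs_ar_le z w (γ • Φ t x : ℍ))
    have h2 := abs_le.1 (abs_ar_le z w (γ • Φ s x : ℍ))
    have h3 := abs_le.1 (abs_ar_le (δ • z : ℍ) (δ • w : ℍ) (δ • γ • Φ t x : ℍ))
    have h4 := abs_le.1 (abs_ar_le (δ • z : ℍ) (δ • w : ℍ) (δ • γ • Φ s x : ℍ))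
    rw [abs_le]
    constructor <;> linarith [h1.1, h1.2, h2.1, h2.2, h3.1, h3.2, h4.1, h4.2]
  · by_contra H
    rw [not_or, not_le, not_le] at H
    exact hγ (by linarith [hR _ H.1, hR _ H.2])

theorem Lam.exists_pot' (F : Deck Γ) (A : Lam Γ K Φ V) (hK : K ≠ Set.univ) {x : ℍ}
    (hx : x ∈ K) (l : Ultrafilter ℕ) (hl : (l : Filter ℕ) ≤ atTop) {t : ℕ → ℝ} {τ₂ : ℝ}
    (ht : ∀ k, t k ≤ t (k + 1) ∧ t (k + 1) ≤ t k + τ₂) : ∃ (Θ : ℍ → ℝ) (β : Γ → ℝ),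
      TCoh β ∧ LC K Θ ∧ (∀ (γ : Γ) (z : ℍ), z ∉ K → Θ (γ • z) = sg γ * Θ z + β γ) ∧
      ∀ z w : ℍ, z ∉ K → w ∉ K →
        HasM l (fun k => flux Γ z w (fun τ => Φ τ x) (t k) (t (k + 1))) (Θ z - Θ w) := by
  obtain ⟨z₀, hz₀⟩ := (Set.ne_univ_iff_exists_notMem K).1 hK
  have hm : Monotone t := monotone_nat_of_le_succ fun k => (ht k).1
  have tel : ∀ z w : ℍ, z ∉ K → w ∉ K → ∀ N, ∑ k ∈ Finset.range N,
      flux Γ z w (fun τ => Φ τ x) (t k) (t (k + 1)) = flux Γ z w (fun τ => Φ τ x) (t 0) (t N) := by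
    intro z w hz hw N
    induction N with
    | zero =>
      have h := A.flux_add F hx hz hw (le_refl (t 0)) le_rfl
      rw [Finset.sum_range_zero]
      linarith
    | succ N ih =>
      rw [Finset.sum_range_succ, ih, A.flux_add F hx hz hw (hm N.zero_le) (ht N).1]
  have ex : ∀ z : ℍ, ∃ y, z ∉ K →
      HasM l (fun k => flux Γ z z₀ (fun τ => Φ τ x) (t k) (t (k + 1))) y := fun z => by
    by_cases hz : z ∈ K
    · exact ⟨0, fun h => absurd hz h⟩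
    · obtain ⟨C, hC⟩ := A.flux_bd F hz hz₀ τ₂
      obtain ⟨y, hy⟩ := HasM.exists l fun k => hC x hx _ _ (ht k).1 (ht k).2
      exact ⟨y, fun _ => hy⟩
  choose Θ hΘ using ex
  have main : ∀ z w : ℍ, z ∉ K → w ∉ K →
      HasM l (fun k => flux Γ z w (fun τ => Φ τ x) (t k) (t (k + 1))) (Θ z - Θ w) := by
    intro z w hz hw
    obtain ⟨C, hC⟩ := A.flux_pts F hz hw hz₀
    refine ((hΘ z hz).sub (hΘ w hw)).of_bdd hl (C := C) fun N => ?_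
    rw [Finset.sum_sub_distrib, tel z w hz hw, tel z z₀ hz hz₀, tel w z₀ hw hz₀,
      ← sub_add, sub_add_eq_add_sub]
    exact hC x hx _ _ (hm N.zero_le)
  have hout : ∀ (γ : Γ) (z : ℍ), z ∉ K → γ • z ∉ K := fun γ z hz h =>
    hz (inv_smul_smul γ z ▸ A.smul γ⁻¹ _ h)
  have eqv : ∀ (γ : Γ) (z : ℍ), z ∉ K →
      Θ (γ • z) = sg γ * Θ z + (Θ (γ • z₀) - sg γ * Θ z₀) := by
    intro γ z hz
    obtain ⟨C, hC⟩ := A.flux_smul' F hz hz₀ γ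
    have h := (main _ _ (hout γ z hz) (hout γ z₀ hz₀)).unique
      (((main z z₀ hz hz₀).const_mul (sg γ)).of_bdd hl (C := C) fun N => by
        rw [tel _ _ (hout γ z hz) (hout γ z₀ hz₀), ← Finset.mul_sum, tel z z₀ hz hz₀]
        exact hC x hx _ _ (hm N.zero_le))
    linarith
  refine ⟨Θ, fun γ => Θ (γ • z₀) - sg γ * Θ z₀, fun γ δ => ?_, fun z hz => ?_, eqv, main⟩
  · simp only [mul_smul, eqv γ _ (hout δ z₀ hz₀), F.sg_mul]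
    ring
  · filter_upwards [A.flux_near F hz] with w hw
    have h := main w z hw.1 hz
    simp only [fun k => hw.2 x hx _ _ (ht k).1] at h
    exact sub_eq_zero.1 (h.unique (HasM.const hl 0))

theorem Aper.star' (F : Deck Γ) (A : Aper Γ K Φ V) {q : Bx} {r : ℝ} (S : Sec Γ K Φ V q r)
    {Θ : ℍ → ℝ} (h : LC K Θ) {β : Γ → ℝ}
    (he : ∀ (γ : Γ) (z : ℍ), z ∉ K → Θ (γ • z) = sg γ * Θ z + β γ) {x x' : ℍ}
    (hx : x ∈ K ∩ q.ln) (hx' : x' ∈ K ∩ q.ln) {T : ℝ} {γ : Γ} (e : Φ T x = γ • x') {ε : ℝ}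
    (hε : 0 < ε) : ∃ u ∈ q.ln, ∃ u' ∈ q.ln, u ∉ K ∧ u' ∉ K ∧ |q.ht u - q.ht x| ≤ ε ∧
      |q.ht u' - q.ht x'| ≤ ε ∧ Θ u = sg γ * Θ u' + β γ := by
  obtain ⟨δ₁, hδ₁, h1⟩ := t9box_near A.toLam S h hx hε
  obtain ⟨δ₂, hδ₂, h2⟩ := t9box_near A.toLam S h hx' hε
  obtain ⟨δ₃, hδ₃, h3⟩ := A.transport h hx.1 T hδ₂
  obtain ⟨w, hw, k0⟩ := Metric.mem_closure_iff.1 (A.mem_closure F hx.1) _ (lt_min hδ₁ hδ₃)
  rw [dist_comm] at k0
  obtain ⟨u, u1, u2, u3, u4⟩ := h1 w hw (k0.le.trans (min_le_left _ _))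
  obtain ⟨w', k1, k2, k3⟩ := h3 w hw (k0.le.trans (min_le_right _ _))
  have k4 : γ⁻¹ • w' ∉ K := t9box_not A.toLam _ k1
  have k5 : dist (γ⁻¹ • w') x' ≤ δ₂ := by
    rw [← F.iso γ, smul_inv_smul, ← e]; exact k2
  obtain ⟨u', v1, v2, v3, v4⟩ := h2 _ k4 k5
  have k6 := he γ _ k4
  rw [smul_inv_smul] at k6
  exact ⟨u, u1, u', v1, u2, v2, u3, v3, by rw [u4, ← k3, k6, v4]⟩

end Pool.Agent.Lib.MP_5bb885_an.Gen
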