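import Pool.Agent.Lib.MP_5bb885_an.T18Tw1
import Pool.Agent.Lib.MP_5bb885_an.T18PD2

/-!
The return map in the coordinate of the invariant measure.
-/

namespace Pool.Agent.Lib.MP_5bb885_an.Gen

open UpperHalfPlane MeasureTheory Filter Topology

variable {Γ : Type} [Group Γ] [MulAction Γ ℍ] {K : Set ℍ} {Φ : ℝ → ℍ → ℍ} {V : ℍ → ℂ} {q : Bx}
  {r τ₁ τ₂ ε₁ : ℝ} {τ : ℍ → ℝ} {g : ℍ → Γ} {R : ℍ → ℍ} {x₀ : ℍ} {θ : ℝ → ℝ} {β : Γ → ℝ}

lemma TCoh.one (h : TCoh β) : β 1 = 0 := by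
  have h1 := h 1 1
  rw [mul_one, sg_one] at h1
  linarith

theorem Cdf.exists_shift' (F : Deck Γ) (A : Aper Γ K Φ V) (S : Sec Γ K Φ V q r)
    (H : Ret K Φ q τ g R τ₁ τ₂ ε₁) (hx : x₀ ∈ K ∩ q.ln) {l : Ultrafilter ℕ}
    (hl : (l : Filter ℕ) ≤ atTop) (h : Cdf K q R l x₀ θ) : ∃ β : Γ → ℝ, TCoh β ∧
      (∀ x ∈ K ∩ q.ln, θ (q.ht x) = sg (g x) * θ (q.ht (R x)) + β (g x)) ∧
      ∀ γ : Γ, Ori γ → ∃ ψ : Γ → ℤ, (fun δ => (ψ δ : ℝ)) ∈ Coh Γ ∧
        Tendsto (fun N : ℕ => (ψ (Gk g R x₀ N) : ℝ) / N) l (𝓝 (β γ)) := by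
  classical
  have hstep : ∀ k, tk τ R x₀ k ≤ tk τ R x₀ (k + 1) ∧ tk τ R x₀ (k + 1) ≤ tk τ R x₀ k + τ₂ :=
    fun k => by
      have := H.bd _ (H.iter hx k)
      rw [tk_succ]
      exact ⟨by linarith [this.1, H.lo], by linarith [this.2]⟩
  obtain ⟨Θ, b, hb, hc, he, h4⟩ := A.toLam.exists_pot' F A.nuniv hx.1 l hl (t := tk τ R x₀)
    (τ₂ := τ₂) hstep
  have hf : ∀ u ∈ q.ln, ∀ u' ∈ q.ln, u ∉ K → u' ∉ K → q.ht u < q.ht u' →
      HasM l (fun k => if q.ht (R^[k] x₀) ∈ Set.Ioo (q.ht u) (q.ht u') then 1 else 0)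
        (Θ u' - Θ u) := by
    intro u hu u' hu' a1 a2 a3
    have h5 := (h4 u u' a1 a2).const_mul (-1)
    rw [show -1 * (Θ u - Θ u') = Θ u' - Θ u by ring] at h5
    refine (HasM.shift hl (C := 1) (fun k => by split_ifs <;> simp) 1).1 ?_
    refine (congrArg (fun f => HasM l f (Θ u' - Θ u)) (funext fun k => ?_)).mp h5
    rw [H.flux F A.toLam S hx hu hu' a1 a2 a3 k]
    split_ifs <;> simp
  have k1 : ∀ u ∈ q.ln, ∀ u' ∈ q.ln, u ∉ K → u' ∉ K → q.ht u < q.ht u' →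
      Θ u' - Θ u = θ (q.ht u') - θ (q.ht u) := by
    intro u hu u' hu' h1 h2 h3
    refine (hf u hu u' hu' h1 h2 h3).unique ?_
    have h4 := t9theta_ico h.mean h3.le
    have h6 : ∀ k, q.ht (R^[k] x₀) ∈ Set.Ioo (q.ht u) (q.ht u') ↔
        q.ht (R^[k] x₀) ∈ Set.Ico (q.ht u) (q.ht u') := fun k => by
      refine ⟨fun h5 => Set.Ioo_subset_Ico_self h5,
        fun h5 => ⟨h5.1.lt_of_ne fun e => h1 ?_, h5.2⟩⟩
      rw [S.ht_inj hu (H.iter hx k).2 e]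
      exact (H.iter hx k).1
    simp only [h6]
    convert h4
  have k2 : ∀ u ∈ q.ln, ∀ u' ∈ q.ln, u ∉ K → u' ∉ K →
      Θ u' - Θ u = θ (q.ht u') - θ (q.ht u) := by
    intro u hu u' hu' h1 h2
    rcases lt_trichotomy (q.ht u) (q.ht u') with h3 | h3 | h3
    · exact k1 u hu u' hu' h1 h2 h3
    · rw [S.ht_inj hu hu' h3, sub_self, sub_self]
    · linarith [k1 u' hu' u hu h2 h1 h3]
  obtain ⟨u₀, hu₀, -, -, hn₀, -⟩ :=
    A.star' F S hc he hx (H.map x₀ hx) (H.hit x₀ hx) one_pos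
  refine ⟨fun γ => b γ + (θ (q.ht u₀) - Θ u₀) * (1 - sg γ), fun γ δ => ?_, fun x hx' => ?_,
    fun γ ho => ?_⟩
  · simp only
    rw [hb, F.sg_mul]
    ring
  · have hcl : IsClosed {p : ℝ × ℝ | θ p.1 = sg (g x) * θ p.2 +
        (b (g x) + (θ (q.ht u₀) - Θ u₀) * (1 - sg (g x)))} :=
      isClosed_eq (h.cont.comp continuous_fst)
        ((continuous_const.mul (h.cont.comp continuous_snd)).add continuous_const)
    have h5 : ((q.ht x, q.ht (R x)) : ℝ × ℝ) ∈ closure {p : ℝ × ℝ | θ p.1 = sg (g x) * θ p.2 +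
        (b (g x) + (θ (q.ht u₀) - Θ u₀) * (1 - sg (g x)))} := by
      refine Metric.mem_closure_iff.2 fun ε hε => ?_
      obtain ⟨u, hu, u', hu', h1, h2, h3, h4, h6⟩ :=
        A.star' F S hc he hx' (H.map x hx') (H.hit x hx') (half_pos hε)
      refine ⟨(q.ht u, q.ht u'), ?_, ?_⟩
      · have h7 := k2 u₀ hu₀ u hu hn₀ h1
        have h8 := k2 u₀ hu₀ u' hu' hn₀ h2
        change θ (q.ht u) = sg (g x) * θ (q.ht u') +
          (b (g x) + (θ (q.ht u₀) - Θ u₀) * (1 - sg (g x)))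
        linear_combination h6 - h7 + sg (g x) * h8
      · rw [Prod.dist_eq, max_lt_iff, Real.dist_eq, Real.dist_eq, abs_sub_comm,
          abs_sub_comm (q.ht (R x))]
        exact ⟨by linarith, by linarith⟩
    rwa [hcl.closure_eq] at h5
  · have hs : sg γ = 1 := if_pos ho
    obtain ⟨z, hz, ψ, C, hψ, hC⟩ := H.exists_dual F A.toLam A.nuniv S hx ho
    have hz' : γ • z ∉ K := fun h1 => hz (by simpa using A.smul γ⁻¹ _ h1)
    have hm : Monotone (tk τ R x₀) := monotone_nat_of_le_succ fun k => (hstep k).1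
    have hsum : ∀ N, ∑ k ∈ Finset.range N, Gen.flux Γ z (γ • z : ℍ) (fun t => Φ t x₀)
        (tk τ R x₀ k) (tk τ R x₀ (k + 1)) =
        Gen.flux Γ z (γ • z : ℍ) (fun t => Φ t x₀) (tk τ R x₀ 0) (tk τ R x₀ N) := by
      intro N
      induction N with
      | zero =>
        have h1 := A.toLam.flux_add F hx.1 hz hz' (le_refl (tk τ R x₀ 0)) le_rfl
        rw [Finset.sum_range_zero]
        linarith
      | succ N ih =>
        rw [Finset.sum_range_succ, ih, A.toLam.flux_add F hx.1 hz hz' (hm N.zero_le) (hstep N).1]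
    refine ⟨fun δ => -ψ δ, ?_, ?_⟩
    · have h1 := (Coh Γ).neg_mem hψ
      convert h1 using 1
      funext δ
      simp
    · have h1 : Tendsto (fun N : ℕ => Gen.flux Γ z (γ • z : ℍ) (fun t => Φ t x₀) 0
          (tk τ R x₀ N) / N) l (𝓝 (Θ z - Θ (γ • z))) := by
        refine Tendsto.congr (fun N => ?_) (h4 z (γ • z) hz hz')
        rw [hsum N, t9ret_tk0]
      have h2 : Tendsto (fun N : ℕ => (Gen.flux Γ z (γ • z : ℍ) (fun t => Φ t x₀) 0
          (tk τ R x₀ N) - ψ (Gk g R x₀ N)) / N) l (𝓝 0) := by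
        refine squeeze_zero_norm (fun N => ?_)
          ((tendsto_const_div_atTop_nhds_zero_nat C).mono_left hl)
        rw [Real.norm_eq_abs, abs_div, Nat.abs_cast]
        exact div_le_div_of_nonneg_right (hC N) (Nat.cast_nonneg N)
      have h3 := h2.sub h1
      rw [he γ z hz, hs] at h3
      have e : (0 : ℝ) - (Θ z - (1 * Θ z + b γ)) =
          b γ + (θ (q.ht u₀) - Θ u₀) * (1 - sg γ) := by
        rw [hs]
        ring
      rw [e] at h3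
      refine h3.congr fun N => ?_
      push_cast
      ring

lemma shift_iter' (F : Deck Γ) (H : Ret K Φ q τ g R τ₁ τ₂ ε₁) (hb : TCoh β)
    (h : ∀ x ∈ K ∩ q.ln, θ (q.ht x) = sg (g x) * θ (q.ht (R x)) + β (g x)) {x : ℍ}
    (hx : x ∈ K ∩ q.ln) (k : ℕ) :
    θ (q.ht x) = sg (Gk g R x k) * θ (q.ht (R^[k] x)) + β (Gk g R x k) := by
  induction k with
  | zero => simp [Gk, hb.one, sg_one]
  | succ k ih =>
    rw [Gk, hb, F.sg_mul, ih, Function.iterate_succ_apply', h _ (H.iter hx k)]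
    ring

end Pool.Agent.Lib.MP_5bb885_an.Gen
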