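import Pool.Agent.Lib.MP_5bb885_an.T34Defs

/-!
Null sets that are Lipschitz images, and null slices along normal lines.
-/

namespace Pool.Agent.Lib.MP_5bb885_an.Gen

open UpperHalfPlane MeasureTheory Filter Topology

section
variable {X Y : Type} [NormedAddCommGroup X] [NormedSpace ℝ X] [FiniteDimensional ℝ X]
  [MeasurableSpace X] [BorelSpace X] [NormedAddCommGroup Y] [NormedSpace ℝ Y]
  [FiniteDimensional ℝ Y] [MeasurableSpace Y] [BorelSpace Y]

/-- A set that is mapped to a null set by an expanding map is null. -/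
theorem lip_null (μ : Measure X) [μ.IsAddHaarMeasure] (ν : Measure Y) [ν.IsAddHaarMeasure]
    (hd : Module.finrank ℝ X = Module.finrank ℝ Y) {N : Set X} (Z : X → Y) (C : ℝ)
    (hC : ∀ y ∈ N, ∀ y' ∈ N, dist y y' ≤ C * dist (Z y) (Z y')) {K : Set Y}
    (hK : ∀ y ∈ N, Z y ∈ K) (h0 : ν K = 0) : μ N = 0 := by
  have hi : Set.InjOn Z N := fun y hy y' hy' e => by
    have := hC y hy y' hy'
    rw [e, dist_self, mul_zero] at this
    exact dist_le_zero.1 this
  have hl : LipschitzOnWith ⟨|C|, abs_nonneg C⟩ (Function.invFunOn Z N) (Z '' N) := by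
    refine LipschitzOnWith.of_dist_le_mul ?_
    rintro _ ⟨y, hy, rfl⟩ _ ⟨y', hy', rfl⟩
    rw [hi.leftInvOn_invFunOn hy, hi.leftInvOn_invFunOn hy']
    exact (hC y hy y' hy').trans (mul_le_mul_of_nonneg_right (le_abs_self C) dist_nonneg)
  have h1 : (μH[Module.finrank ℝ Y] : Measure Y) (Z '' N) = 0 :=
    Measure.absolutelyContinuous_isAddHaarMeasure _ ν
      (measure_mono_null (Set.image_subset_iff.2 hK) h0)
  have h2 := hl.hausdorffMeasure_image_le (d := Module.finrank ℝ Y) (Nat.cast_nonneg _)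
  rw [h1, mul_zero, hi.invFunOn_image Set.Subset.rfl, ← hd] at h2
  exact Measure.absolutelyContinuous_isAddHaarMeasure μ μH[Module.finrank ℝ X]
    (le_antisymm h2 zero_le)

end

/-- Almost every normal line of a curve carries a null slice of a null set. -/
lemma t34ae_slice {X V : ℝ → ℂ} {A : ℝ → ℂ} (hX : ∀ t, HasDerivAt X (V t) t)
    (hV : ∀ t, HasDerivAt V (A t) t) (hA : Continuous A) (h0 : V 0 ≠ 0) {K : Set (ℂ × ℂ)}
    (hK : volume K = 0) : ∃ r ρ : ℝ, 0 < ρ ∧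
      volume {w : ℝ × ℂ | |w.1| ≤ ρ ∧ (X r + w.1 * Complex.I * V r, w.2) ∈ K} = 0 := by
  have cV : Continuous V := continuous_iff_continuousAt.2 fun t => (hV t).continuousAt
  have sX : HasStrictDerivAt X (V 0) 0 :=
    hasStrictDerivAt_of_hasDerivAt_of_continuousAt (Eventually.of_forall hX) cV.continuousAt
  have sV : HasStrictDerivAt V (A 0) 0 :=
    hasStrictDerivAt_of_hasDerivAt_of_continuousAt (Eventually.of_forall hV) hA.continuousAt
  have f1 : HasStrictFDerivAt (fun u : ℝ × ℝ => u.1) (ContinuousLinearMap.fst ℝ ℝ ℝ) (0, 0) :=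
    hasStrictFDerivAt_fst
  have f2 : HasStrictFDerivAt (fun u : ℝ × ℝ => ((u.2 : ℝ) : ℂ))
      (Complex.ofRealCLM.comp (ContinuousLinearMap.snd ℝ ℝ ℝ)) (0, 0) :=
    (Complex.ofRealCLM.comp (ContinuousLinearMap.snd ℝ ℝ ℝ)).hasStrictFDerivAt
  have s := (sX.hasStrictFDerivAt.comp (0, 0) f1).add
    ((f2.mul_const Complex.I).mul (sV.hasStrictFDerivAt.comp (0, 0) f1))
  have hv : 0 < ‖V 0‖ := norm_pos_iff.2 h0
  have hb := s.isLittleO.bound (half_pos hv)
  obtain ⟨ρ, hρ, hb⟩ := Metric.eventually_nhds_iff.1 hb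
  have key : ∀ u u' : ℝ × ℝ, ‖u‖ ≤ ρ / 2 → ‖u'‖ ≤ ρ / 2 → ‖V 0‖ / 2 * ‖u - u'‖ ≤
      ‖X u.1 + u.2 * Complex.I * V u.1 - (X u'.1 + u'.2 * Complex.I * V u'.1)‖ := by
    intro u u' hu hu'
    have h1 := hb (y := (u, u')) (by
      rw [Prod.dist_eq, Prod.mk_zero_zero, dist_zero_right, dist_zero_right, max_lt_iff]
      constructor <;> linarith)
    have h2 : ‖u - u'‖ * ‖V 0‖ ≤ ‖(((u - u').1 : ℂ) + (u - u').2 * Complex.I) * V 0‖ := by
      rw [norm_mul]
      refine mul_le_mul_of_nonneg_right ?_ hv.le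
      rw [Prod.norm_def]
      refine max_le ?_ ?_
      · simpa using Complex.abs_re_le_norm (((u - u').1 : ℂ) + (u - u').2 * Complex.I)
      · simpa using Complex.abs_im_le_norm (((u - u').1 : ℂ) + (u - u').2 * Complex.I)
    have h3 : ‖X u.1 + u.2 * Complex.I * V u.1 - (X u'.1 + u'.2 * Complex.I * V u'.1) -
        (((u - u').1 : ℂ) + (u - u').2 * Complex.I) * V 0‖ ≤ ‖V 0‖ / 2 * ‖u - u'‖ := by
      refine le_trans (le_of_eq ?_) h1
      congr 1
      simp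
      ring
    have h4 := norm_sub_norm_le ((((u - u').1 : ℂ) + (u - u').2 * Complex.I) * V 0)
      (X u.1 + u.2 * Complex.I * V u.1 - (X u'.1 + u'.2 * Complex.I * V u'.1))
    rw [norm_sub_rev (_ * V 0)] at h4
    linarith
  have i1 : (volume : Measure (ℝ × ℂ)).IsAddHaarMeasure :=
    Measure.prod.instIsAddHaarMeasure _ _
  have i2 : (volume : Measure (ℂ × ℂ)).IsAddHaarMeasure :=
    Measure.prod.instIsAddHaarMeasure _ _
  have hn := lip_null ((volume : Measure ℝ).prod (volume : Measure (ℝ × ℂ)))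
    (volume : Measure (ℂ × ℂ)) (by simp)
    (N := {w : ℝ × ℝ × ℂ | |w.1| ≤ ρ / 2 ∧ |w.2.1| ≤ ρ / 2 ∧
      (X w.1 + w.2.1 * Complex.I * V w.1, w.2.2) ∈ K})
    (fun w => (X w.1 + w.2.1 * Complex.I * V w.1, w.2.2)) (2 / ‖V 0‖ + 1)
    (fun w hw w' hw' => by
      have h1 := key (w.1, w.2.1) (w'.1, w'.2.1) (max_le hw.1 hw.2.1) (max_le hw'.1 hw'.2.1)
      set D := dist ((X w.1 + w.2.1 * Complex.I * V w.1, w.2.2) : ℂ × ℂ)
        (X w'.1 + w'.2.1 * Complex.I * V w'.1, w'.2.2) with hD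
      have hD0 : 0 ≤ D := dist_nonneg
      have h2 : ‖X w.1 + w.2.1 * Complex.I * V w.1 - (X w'.1 + w'.2.1 * Complex.I * V w'.1)‖ ≤ D := by
        rw [← dist_eq_norm]
        exact le_max_left _ _
      have h3 : dist w.2.2 w'.2.2 ≤ D := le_max_right _ _
      have h4 : ‖((w.1, w.2.1) : ℝ × ℝ) - (w'.1, w'.2.1)‖ ≤ 2 / ‖V 0‖ * D := by
        rw [div_mul_eq_mul_div, le_div_iff₀ hv]
        linarith
      have h5 : dist w.1 w'.1 ≤ 2 / ‖V 0‖ * D :=
        (norm_fst_le (((w.1, w.2.1) : ℝ × ℝ) - (w'.1, w'.2.1))).trans h4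
      have h6 : dist w.2.1 w'.2.1 ≤ 2 / ‖V 0‖ * D :=
        (norm_snd_le (((w.1, w.2.1) : ℝ × ℝ) - (w'.1, w'.2.1))).trans h4
      have h7 : 0 ≤ 2 / ‖V 0‖ * D := by positivity
      rw [Prod.dist_eq, Prod.dist_eq]
      refine max_le (by linarith) (max_le (by linarith) (by linarith)))
    (fun w hw => hw.2.2) hK
  have h1 := Measure.measure_ae_null_of_prod_null hn
  have h2 : ∃ᵐ r : ℝ, r ∈ Set.Icc (-(ρ / 2)) (ρ / 2) := by
    rw [frequently_ae_mem_iff, Real.volume_Icc]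
    simpa using hρ
  obtain ⟨r, hr, h3⟩ := (h2.and_eventually h1).exists
  refine ⟨r, ρ / 2, half_pos hρ, measure_mono_null (fun w hw => ?_) h3⟩
  exact ⟨abs_le.2 hr, hw.1, hw.2⟩

end Pool.Agent.Lib.MP_5bb885_an.Gen
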