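import Pool.Agent.Lib.MP_5bb885_an.T34Main
import Pool.Agent.Lib.MP_5bb885_an.T34Slice

/-!
One-sided closed curves whose jets stay in a null set occur with probability zero.
-/

namespace Pool.Agent.Lib.MP_5bb885_an.Gen

open UpperHalfPlane MeasureTheory Filter Topology

variable {Γ : Type} [Group Γ] [MulAction Γ ℍ] {L : ℂ × ℂ → ℝ} {ε : OB → ℝ} {P : Om → ℂ → ℝ}
  {b : ℕ}

/-- The data of the calibrated closed curves whose jets stay in `K`. -/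
def KSet (L : ℂ × ℂ → ℝ) (P : Om → ℂ → ℝ) (e : (Fin b → ℝ) ≃ₗ[ℝ] Coh Γ) (γ : Γ)
    (K : Set (ℂ × ℂ)) : Set ((Om × (Fin b → ℝ)) × (ℝ × ℍ)) :=
  {p | ∃ y : ℝ → ℍ, CP (addP L (P p.1.1)) (e p.1.2 : Γ → ℝ) y γ p.2.1 ∧ y 0 = p.2.2 ∧
    ∀ s, jet y s ∈ K}

lemma Pert.lseq (F : Deck Γ) (hL : Tonelli Γ L) (h : Pert Γ ε P) {a : Om} {as : ℕ → Om}
    (ha : Tendsto as atTop (𝓝 a)) : LSeq Γ atTop (addP L (P a)) fun n => addP L (P (as n)) := by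
  have hS := lseq_of_toZero F (hL.add F (h.pot a).c2) (f := fun n => P (as n) - P a)
    (fun n => ((h.pot _).sub (h.pot _)).c2) (h.lim a as ha)
  have he : ∀ n, addP (addP L (P a)) (P (as n) - P a) = addP L (P (as n)) :=
    fun n => by rw [addP_addP, add_sub_cancel]
  simpa only [he] using hS

lemma Pert.isClosed_ks (F : Deck Γ) (hL : Tonelli Γ L) (h : Pert Γ ε P)
    (e : (Fin b → ℝ) ≃ₗ[ℝ] Coh Γ) (γ : Γ) {K : Set (ℂ × ℂ)} (hK : IsClosed K)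
    {A : Set (Om × (Fin b → ℝ))} (hA : IsClosed A) {B : Set (ℝ × ℍ)} (hB : IsCompact B)
    (h0 : ∀ d ∈ B, 0 < d.1) : IsClosed {p | p ∈ A ∧ ∃ d ∈ B, (p, d) ∈ KSet L P e γ K} := by
  refine IsSeqClosed.isClosed fun ps p hps hlim => ?_
  refine ⟨hA.mem_of_tendsto hlim (Eventually.of_forall fun n => (hps n).1), ?_⟩
  choose ds hds xs h1 h2 h3 using fun n => (hps n).2
  obtain ⟨d, hd, φ, hφ, hdl⟩ := hB.tendsto_subseq hds
  have hp : Tendsto (fun n => ps (φ n)) atTop (𝓝 p) := hlim.comp hφ.tendsto_atTop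
  have hS := h.lseq F hL (as := fun n => (ps (φ n)).1) ((continuous_fst.tendsto p).comp hp)
  have hC := clim_of_tendsto F e ((continuous_snd.tendsto p).comp hp)
  have hl : ((hyperfilter ℕ : Ultrafilter ℕ) : Filter ℕ) ≤ atTop := Nat.hyperfilter_le_atTop
  have t1 : Tendsto (fun n => xs (φ n) 0) atTop (𝓝 d.2) :=
    ((continuous_snd.tendsto d).comp hdl).congr fun n => (h2 (φ n)).symm
  obtain ⟨x, hx, hx0, hu⟩ := (hS.mono hl).lim_cp F (e p.2).2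
    (cs := fun n => (e (ps (φ n)).2 : Γ → ℝ)) (fun n => (e (ps (φ n)).2).2) (hC.mono hl)
    (h0 d hd) (Ts := fun n => (ds (φ n)).1) (ys := fun n => xs (φ n))
    (fun n => h1 (φ n)) (((continuous_fst.tendsto d).comp hdl).mono_left hl) (t1.mono_left hl)
  refine ⟨d, hd, x, hx, hx0, fun s => ?_⟩
  exact hK.mem_of_tendsto (hu.tendsto (hx.reg F hS.ton).contJet (tendsto_const_nhds (x := s)))
    (Eventually.of_forall fun n => h3 (φ n) s)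

/-- Nearby curves can be started on the transversal. -/
lemma Pert.ks_sec (F : Deck Γ) (hL : Tonelli Γ L) (h : Pert Γ ε P)
    (e : (Fin b → ℝ) ≃ₗ[ℝ] Coh Γ) {K : Set (ℂ × ℂ)} {a : Om} {t : Fin b → ℝ} {x : ℝ → ℍ} {γ : Γ}
    {T : ℝ} (hx : CP (addP L (P a)) (e t : Γ → ℝ) x γ T) (hv : vel x 0 ≠ 0)
    {O : Set ((Om × (Fin b → ℝ)) × (ℝ × ℍ))} (hO : O ∈ 𝓝 ((a, t), (T, x 0))) :
    ∃ W ∈ 𝓝 (((a, t), (T, x 0)) : (Om × (Fin b → ℝ)) × (ℝ × ℍ)),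
      ∀ p ∈ W ∩ KSet L P e γ K, ∃ d, (p.1, d) ∈ O ∩ KSet L P e γ K ∧
        (((d.2 : ℂ) - x 0) / vel x 0).re = 0 := by
  by_contra hcon
  obtain ⟨u, hu⟩ := (𝓝 (((a, t), (T, x 0)) : (Om × (Fin b → ℝ)) × (ℝ × ℍ))).exists_antitone_basis
  have key : ∀ n, ∃ p ∈ u n ∩ KSet L P e γ K, ¬∃ d, (p.1, d) ∈ O ∩ KSet L P e γ K ∧
      (((d.2 : ℂ) - x 0) / vel x 0).re = 0 := by
    intro n
    by_contra hn
    refine hcon ⟨u n, hu.mem n, fun p hp => ?_⟩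
    by_contra hp'
    exact hn ⟨p, hp, hp'⟩
  choose p hp hp' using key
  have tp := hu.tendsto fun n => (hp n).1
  choose y g1 g2 g3 using fun n => (hp n).2
  have t1 : Tendsto (fun n => (p n).1) atTop (𝓝 (a, t)) := (continuous_fst.tendsto _).comp tp
  have t2 : Tendsto (fun n => (p n).2.1) atTop (𝓝 T) :=
    ((continuous_fst.comp continuous_snd).tendsto _).comp tp
  have td : Tendsto (fun n => y n 0) atTop (𝓝 (x 0)) :=
    (((continuous_snd.comp continuous_snd).tendsto _).comp tp).congr fun n => (g2 n).symm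
  have hS := h.lseq F hL (as := fun n => (p n).1.1) ((continuous_fst.tendsto _).comp t1)
  have hC := clim_of_tendsto F e ((continuous_snd.tendsto _).comp t1)
  have hl : ((hyperfilter ℕ : Ultrafilter ℕ) : Filter ℕ) ≤ atTop := Nat.hyperfilter_le_atTop
  have u0 := (hS.mono hl).uw_cp F (e t).2 (cs := fun n => (e (p n).1.2 : Γ → ℝ))
    (fun n => (e (p n).1.2).2) (hC.mono hl) hx g1 (t2.mono_left hl) (td.mono_left hl)
  have hR := hx.reg F hS.ton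
  have r1 : ∀ n, Reg (addP L (P (p n).1.1)) (y n) := fun n => (g1 n).reg F (hS.tons n)
  obtain ⟨σ, hσ, hsec⟩ := exists_section ⟨hR.hasDerivAt, hR.contVel⟩
    (fun n => ⟨(r1 n).hasDerivAt, (r1 n).contVel⟩) u0 hv (z := fun _ => x 0) tendsto_const_nhds
  have t0 : Tendsto (fun n => y n (σ n)) (hyperfilter ℕ) (𝓝 (x 0)) := by
    rw [isEmbedding_coe.tendsto_nhds_iff]
    exact (continuous_fst.tendsto _).comp (u0.tendsto hR.contJet hσ)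
  have k4 := (t1.mono_left hl).prodMk_nhds ((t2.mono_left hl).prodMk_nhds t0)
  obtain ⟨n, n1, n2⟩ := ((k4.eventually hO).and hsec).exists
  refine hp' n ⟨_, ⟨n1, fun s => y n (s + σ n), (g1 n).shift _, congrArg (y n) (zero_add _),
    fun s => ?_⟩, n2⟩
  rw [jet_shift]
  exact g3 n _

lemma Pert.ev_near (F : Deck Γ) (h : Pert Γ ε P) (e : (Fin b → ℝ) ≃ₗ[ℝ] Coh Γ) (a : Om)
    (t : Fin b → ℝ) {δ : ℝ} (hδ : 0 < δ) : ∀ᶠ p in 𝓝 ((a, t) : Om × (Fin b → ℝ)),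
      Sm δ (P p.1 - P a) ∧ ∀ (γ : Γ) (z : ℍ),
        |(e p.2 : Γ → ℝ) γ - (e t : Γ → ℝ) γ| ≤ δ * dist z (γ • z) := by
  refine Filter.eventually_iff_seq_eventually.2 fun u hu => ?_
  exact ((h.lim a (fun n => (u n).1) ((continuous_fst.tendsto _).comp hu)).sm hδ).and
    (clim_of_tendsto F e ((continuous_snd.tendsto _).comp hu) δ hδ)

lemma t34ae_scale {n : ℕ} {w : Fin n → ℝ} (hw : ∀ k, 0 < w k) : ∃ E : ℝ, 0 ≤ E ∧
    ∀ v : Fin n → ℝ, ‖v‖ ≤ E * ‖fun k => w k * v k‖ := by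
  have h0 : ∀ k, 0 ≤ (w k)⁻¹ := fun k => (inv_pos.2 (hw k)).le
  have hE : 0 ≤ ∑ k, (w k)⁻¹ := Finset.sum_nonneg fun k _ => h0 k
  refine ⟨_, hE, fun v => (pi_norm_le_iff_of_nonneg (by positivity)).2 fun k => ?_⟩
  have e : v k = (w k)⁻¹ * (w k * v k) := by rw [inv_mul_cancel_left₀ (hw k).ne']
  rw [e, norm_mul, Real.norm_of_nonneg (h0 k)]
  exact mul_le_mul (Finset.single_le_sum (f := fun k => (w k)⁻¹) (fun k _ => h0 k)
    (Finset.mem_univ k)) (norm_le_pi_norm (fun k => w k * v k) k) (norm_nonneg _) hE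

lemma t34ae_pt {z z₀ v : ℂ} (hv : v ≠ 0) (h : ((z - z₀) / v).re = 0) :
    z = z₀ + ((z - z₀) / v).im * Complex.I * v := by
  have h1 := Complex.re_add_im ((z - z₀) / v)
  rw [h, Complex.ofReal_zero, zero_add] at h1
  rw [h1, div_mul_cancel₀ _ hv, add_sub_cancel]

/-- Three coefficients are controlled by the jet on the transversal. -/
lemma Pert.ks_nhds (F : Deck Γ) (hL : Tonelli Γ L) (h : Pert Γ ε P)
    (e : (Fin b → ℝ) ≃ₗ[ℝ] Coh Γ) {a : Om} {t : Fin b → ℝ} {x : ℝ → ℍ} {γ : Γ} {T : ℝ}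
    {η : ℝ → ℂ} (hx : OD (addP L (P a)) (e t : Γ → ℝ) x γ T η) (hm : MinPer x γ T) :
    ∃ (κ : Fin 3 → OB × Fin 4) (C : ℝ), Function.Injective κ ∧ 0 ≤ C ∧
      ∃ O ∈ 𝓝 (((a, t), (T, x 0)) : (Om × (Fin b → ℝ)) × (ℝ × ℍ)), ∀ (a' : Om) (t' : Fin b → ℝ)
        (β β' : Fin 3 → ℝ) (y₁ y₂ : ℝ → ℍ) (T₁ T₂ : ℝ), β ∈ Set.Icc (-1 : Fin 3 → ℝ) 1 →
        β' ∈ Set.Icc (-1 : Fin 3 → ℝ) 1 →
        CP (addP L (P (updk a' κ β))) (e t' : Γ → ℝ) y₁ γ T₁ →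
        CP (addP L (P (updk a' κ β'))) (e t' : Γ → ℝ) y₂ γ T₂ →
        ((updk a' κ β, t'), (T₁, y₁ 0)) ∈ O → ((updk a' κ β', t'), (T₂, y₂ 0)) ∈ O →
        (((y₁ 0 : ℂ) - y₂ 0) / vel x 0).re = 0 → ‖β' - β‖ ≤ C * ‖jet y₁ 0 - jet y₂ 0‖ := by
  have hL' : Tonelli Γ (addP L (P a)) := hL.add F (h.pot a).c2
  have hT : 0 < T := hm.1.1
  obtain ⟨ζ₂, j1, j2, j3, j4⟩ := exists_jac2 hL' (hx.cp.reg F hL')
  obtain ⟨κ, -, hκo, hN⟩ := hx.controls F hL' (e t).2 hm j1 j2 j3 j4 (r := T / 4) (by positivity)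
  have hφ : ∀ j, C2 Γ (fam Γ (κ j).1.1 (κ j).2) := fun j => ((κ j).1.2.pot F _).c2
  have hz : |(0 : ℝ)| ≤ T / 2 - T / 4 := by rw [abs_zero]; linarith
  obtain ⟨C, δ, hC, hδ, hct⟩ := hx.cp.ctrl F hL' (e t).2 hx.no
    (φ := fun j => fam Γ (κ j).1.1 (κ j).2) hφ (fun j => (hκo j 0 hz).self_of_nhds) hN
  have hκ : Function.Injective κ :=
    t34cone_inj (ι := Option (ℝ → ℂ))
      (v := fun i k => i.elim (∫ t in (0 : ℝ)..T, fam Γ k.1.1 k.2 (x t))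
        fun ζ => ∫ t in (0 : ℝ)..T, fderiv ℝ (fam Γ k.1.1 k.2) (x t) (ζ t))
      (p := fun i => i.elim True fun ζ => Jac (addP L (P a)) x ζ ∧ En (addP L (P a)) x ζ)
      fun α hα => hN α (hα none trivial) fun ζ a1 a2 => hα (some ζ) ⟨a1, a2⟩
  obtain ⟨E, hE, hE'⟩ := t34ae_scale (w := fun k => ε (κ k).1) fun k => h.pos _
  have n1 : ∀ᶠ p in 𝓝 (((a, t), (T, x 0)) : (Om × (Fin b → ℝ)) × (ℝ × ℍ)),
      Sm δ (P p.1.1 - P a) ∧ ∀ (γ : Γ) (z : ℍ),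
        |(e p.1.2 : Γ → ℝ) γ - (e t : Γ → ℝ) γ| ≤ δ * dist z (γ • z) :=
    (continuous_fst.tendsto (((a, t), (T, x 0)) : (Om × (Fin b → ℝ)) × (ℝ × ℍ))).eventually
      (h.ev_near F e a t hδ)
  have n2 : ∀ᶠ p in 𝓝 (((a, t), (T, x 0)) : (Om × (Fin b → ℝ)) × (ℝ × ℍ)),
      ∀ k, |ε (κ k).1 * (p.1.1 (κ k).1 (κ k).2 - a (κ k).1 (κ k).2)| ≤ δ / 2 := by
    refine eventually_all.2 fun k => ?_
    have c3 : Continuous fun p : (Om × (Fin b → ℝ)) × (ℝ × ℍ) =>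
        |ε (κ k).1 * (p.1.1 (κ k).1 (κ k).2 - a (κ k).1 (κ k).2)| := by fun_prop
    refine (c3.tendsto _).eventually (eventually_le_nhds ?_)
    simpa using hδ
  have n3 : ∀ᶠ p in 𝓝 (((a, t), (T, x 0)) : (Om × (Fin b → ℝ)) × (ℝ × ℍ)),
      dist p.2 (T, x 0) ≤ δ :=
    (continuous_snd.tendsto _).eventually (Metric.closedBall_mem_nhds _ hδ)
  refine ⟨κ, E * C, hκ, by positivity, _, n1.and (n2.and n3),
    fun a' t' β β' y₁ y₂ T₁ T₂ g1 g2 g3 g4 ⟨⟨p1, p2⟩, p3, p4⟩ ⟨_, q3, q4⟩ g7 => ?_⟩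
  have e1 : addP (addP L (P a)) (P (updk a' κ β) - P a) = addP L (P (updk a' κ β)) := by
    rw [addP_addP, add_sub_cancel]
  have e2 : addP (addP L (P a)) (P (updk a' κ β) - P a +
      (∑ j, (ε (κ j).1 * (β' j - β j)) • fam Γ (κ j).1.1 (κ j).2 + 0)) =
      addP L (P (updk a' κ β')) := by
    rw [addP_addP, ← add_assoc, add_sub_cancel, add_zero, ← h.updk_eq hκ a' g1 g2]
  have hα : ‖fun j => ε (κ j).1 * (β' j - β j)‖ ≤ δ := by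
    refine (pi_norm_le_iff_of_nonneg hδ.le).2 fun k => ?_
    have a1 := p3 k
    have a2 := q3 k
    simp only [updk_apply hκ] at a1 a2
    rw [Real.norm_eq_abs, abs_le]
    rw [abs_le] at a1 a2
    constructor <;> nlinarith [a1.1, a1.2, a2.1, a2.2]
  have s0 : Sm δ (0 : ℂ → ℝ) := fun z _ => by
    have z1 : fderiv ℝ (0 : ℂ → ℝ) = 0 := fderiv_zero
    have z2 : fderiv ℝ (0 : ℂ → ℂ →L[ℝ] ℝ) = 0 := fderiv_zero
    rw [z1, z2, Pi.zero_apply, Pi.zero_apply, Pi.zero_apply, abs_zero, norm_zero,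
      ContinuousLinearMap.opNorm_zero]
    exact ⟨hδ.le, hδ.le, hδ.le⟩
  have H := (hct _ 0 ((h.pot _).sub (h.pot _)).c2 c2_zero p1 s0
    (fun j => ε (κ j).1 * (β' j - β j)) hα _ (e t').2 p2 y₁ y₂ T₁ T₂ 0 (by rwa [e1]) (by rwa [e2])
    ((le_max_left _ _).trans p4) ((le_max_left _ _).trans q4) ((le_max_right _ _).trans p4)
    ((le_max_right _ _).trans q4) g7 (fun s => by simp) (by simp)).1
  rw [add_zero] at H
  rw [mul_assoc]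
  exact (hE' (β' - β)).trans (mul_le_mul_of_nonneg_left H hE)

lemma t34ae_loc (F : Deck Γ) (hL : Tonelli Γ L) (h : Pert Γ ε P)
    (e : (Fin b → ℝ) ≃ₗ[ℝ] Coh Γ) {K Ks : Set (ℂ × ℂ)} (hK : IsClosed K) {γ : Γ}
    (hKs : ∀ (a : Om) (y : ℝ → ℍ) (T : ℝ), EL (addP L (P a)) y → Per y γ T →
      (∀ s, jet y s ∈ K) → jet y 0 ∈ Ks)
    {a : Om} {t : Fin b → ℝ} {x : ℝ → ℍ} {T : ℝ} {η : ℝ → ℂ}
    (hx : OD (addP L (P a)) (e t : Γ → ℝ) x γ T η) (hm : MinPer x γ T) {ρ : ℝ} (hρ : 0 < ρ)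
    (h0 : volume {w : ℝ × ℂ | |w.1| ≤ ρ ∧
      ((x 0 : ℂ) + w.1 * Complex.I * vel x 0, w.2) ∈ Ks} = 0) :
    ∃ W ∈ 𝓝 (((a, t), (T, x 0)) : (Om × (Fin b → ℝ)) × (ℝ × ℍ)),
      ∀ᵐ a ∂law, ∀ᵐ t, ∀ d, ((a, t), d) ∈ W → ((a, t), d) ∉ KSet L P e γ K := by
  obtain ⟨κ, C, hκ, hC, O, hO, H⟩ := h.ks_nhds F hL e hx hm
  obtain ⟨A₀, hA₀, B₀, hB₀, hAB⟩ := mem_nhds_prod_iff.1 hO
  obtain ⟨A, hA, hAc, hAs⟩ := exists_mem_nhds_isClosed_subset hA₀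
  have hv : vel x 0 ≠ 0 := hx.cp.vel_ne F (hL.add F (h.pot a).c2) hx.no 0
  have cq : Continuous fun d : ℝ × ℍ => ((d.2 : ℂ) - x 0) / vel x 0 :=
    ((UpperHalfPlane.continuous_coe.comp continuous_snd).sub continuous_const).div_const _
  have hpos : {d : ℝ × ℍ | 0 < d.1} ∈ 𝓝 ((T, x 0) : ℝ × ℍ) :=
    (isOpen_lt continuous_const continuous_fst).mem_nhds hm.1.1
  have hsm : {d : ℝ × ℍ | |(((d.2 : ℂ) - x 0) / vel x 0).im| < ρ} ∈ 𝓝 ((T, x 0) : ℝ × ℍ) :=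
    (isOpen_lt (Complex.continuous_im.comp cq).abs continuous_const).mem_nhds (by simpa using hρ)
  obtain ⟨B, hB, hBs, hBc⟩ := local_compact_nhds (inter_mem hB₀ (inter_mem hpos hsm))
  obtain ⟨W, hW, hWs⟩ := h.ks_sec F hL e (K := K) hx.cp hv (prod_mem_nhds hA hB)
  refine ⟨W, hW, ?_⟩
  have hsc : IsClosed {d : ℝ × ℍ | (((d.2 : ℂ) - x 0) / vel x 0).re = 0} :=
    isClosed_eq (Complex.continuous_re.comp cq) continuous_const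
  have hcl := h.isClosed_ks F hL e γ hK hAc (hBc.inter_right hsc) fun d hd => (hBs hd.1).2.1
  set N := {p | p ∈ A ∧ ∃ d ∈ B ∩ {d : ℝ × ℍ | (((d.2 : ℂ) - x 0) / vel x 0).re = 0},
    (p, d) ∈ KSet L P e γ K} with hN
  have i1 : (volume : Measure (ℝ × ℂ)).IsAddHaarMeasure :=
    Measure.prod.instIsAddHaarMeasure _ _
  have h1 : ∀ t' : Fin b → ℝ, ∀ᵐ a' ∂law, (a', t') ∉ N := by
    intro t'
    have hct : IsClosed {a' : Om | (a', t') ∈ N} :=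
      hcl.preimage (continuous_id.prodMk continuous_const)
    have h2 : law {a' : Om | (a', t') ∈ N} = 0 := by
      refine law_null_k hκ hct.measurableSet fun a' => ?_
      have hex : ∀ β : Fin 3 → ℝ, ∃ (y : ℝ → ℍ) (T' : ℝ), (updk a' κ β, t') ∈ N →
          CP (addP L (P (updk a' κ β))) (e t' : Γ → ℝ) y γ T' ∧
            ((updk a' κ β, t'), (T', y 0)) ∈ O ∧ (((y 0 : ℂ) - x 0) / vel x 0).re = 0 ∧
            |(((y 0 : ℂ) - x 0) / vel x 0).im| ≤ ρ ∧ ∀ s, jet y s ∈ K := by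
        intro β
        by_cases hβ : (updk a' κ β, t') ∈ N
        swap
        · exact ⟨x, T, fun h' => absurd h' hβ⟩
        obtain ⟨g1, ⟨T', d⟩, ⟨g2, g3⟩, y, g4, g5, g6⟩ := hβ
        obtain rfl : y 0 = d := g5
        exact ⟨y, T', fun _ => ⟨g4, hAB ⟨hAs g1, (hBs g2).1⟩, g3, le_of_lt (hBs g2).2.2, g6⟩⟩
      choose y T' hy using hex
      refine lip_null volume (volume : Measure (ℝ × ℂ)) (by simp)
        (fun β => ((((y β 0 : ℂ) - x 0) / vel x 0).im, vel (y β) 0)) (C * (‖vel x 0‖ + 1))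
        (fun β hβ β' hβ' => ?_) (fun β hβ => ?_) h0
      · obtain ⟨a1, a2, a3, -⟩ := hy β hβ.2
        obtain ⟨b1, b2, b3, -⟩ := hy β' hβ'.2
        have e1 : ((y β 0 : ℂ) - y β' 0) / vel x 0 =
            ((y β 0 : ℂ) - x 0) / vel x 0 - ((y β' 0 : ℂ) - x 0) / vel x 0 := by ring
        have e2 : (((y β 0 : ℂ) - y β' 0) / vel x 0).re = 0 := by
          rw [e1, Complex.sub_re, a3, b3, sub_self]
        have c1 := H a' t' β β' _ _ _ _ hβ.1 hβ'.1 a1 b1 a2 b2 e2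
        rw [dist_comm β, dist_eq_norm, mul_assoc]
        refine c1.trans (mul_le_mul_of_nonneg_left ?_ hC)
        set D := dist ((((y β 0 : ℂ) - x 0) / vel x 0).im, vel (y β) 0)
          ((((y β' 0 : ℂ) - x 0) / vel x 0).im, vel (y β') 0) with hD
        have d0 : 0 ≤ D := dist_nonneg
        have d1 : |(((y β 0 : ℂ) - y β' 0) / vel x 0).im| ≤ D := by
          rw [e1, Complex.sub_im]
          exact le_max_left _ _
        have d2 : ‖vel (y β) 0 - vel (y β') 0‖ ≤ D := by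
          rw [← dist_eq_norm]
          exact le_max_right _ _
        have d3 : ‖(y β 0 : ℂ) - y β' 0‖ ≤ D * ‖vel x 0‖ := by
          rw [t34ae_pt hv e2, add_sub_cancel_left, norm_mul, norm_mul, Complex.norm_I, mul_one,
            Complex.norm_real, Real.norm_eq_abs]
          exact mul_le_mul_of_nonneg_right d1 (norm_nonneg _)
        have d4 : 0 ≤ D * ‖vel x 0‖ := by positivity
        refine max_le (d3.trans ?_) (d2.trans ?_) <;> linarith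
      · obtain ⟨a1, -, a3, a4, a5⟩ := hy β hβ.2
        refine ⟨a4, ?_⟩
        rw [← t34ae_pt hv a3]
        exact hKs _ _ _ (a1.reg F (hL.add F (h.pot _).c2)).el a1.per a5
    rw [ae_iff]
    simpa only [not_not] using h2
  have hn : ∀ᵐ a' ∂law, ∀ᵐ t', (a', t') ∉ N :=
    (Measure.ae_ae_comm (p := fun (a : Om) (t : Fin b → ℝ) => (a, t) ∉ N)
      hcl.measurableSet.compl).2 (Eventually.of_forall h1)
  filter_upwards [hn] with a' ha'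
  filter_upwards [ha'] with t' ht' d hd hd'
  obtain ⟨d', ⟨⟨g1, g2⟩, g3⟩, g4⟩ := hWs _ ⟨hd, hd'⟩
  exact ht' ⟨g1, d', ⟨g2, g4⟩, g3⟩

lemma t34ae_one (F : Deck Γ) (hL : Tonelli Γ L) (h : Pert Γ ε P)
    (e : (Fin b → ℝ) ≃ₗ[ℝ] Coh Γ) {K Ks : Set (ℂ × ℂ)} (hK : IsClosed K) (h0 : volume Ks = 0)
    (γ : Γ) (hKs : ¬Ori γ → ∀ (a : Om) (y : ℝ → ℍ) (T : ℝ), EL (addP L (P a)) y → Per y γ T →
      (∀ s, jet y s ∈ K) → jet y 0 ∈ Ks) :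
    ∀ᵐ a ∂law, ∀ᵐ t, ¬∃ (x : ℝ → ℍ) (T : ℝ) (η : ℝ → ℂ),
      OD (addP L (P a)) (e t : Γ → ℝ) x γ T η ∧ MinPer x γ T ∧ ∀ s, jet x s ∈ K := by
  set D : Set ((Om × (Fin b → ℝ)) × (ℝ × ℍ)) :=
    {p | ∃ (x : ℝ → ℍ) (η : ℝ → ℂ) (ρ : ℝ), OD (addP L (P p.1.1)) (e p.1.2 : Γ → ℝ) x γ p.2.1 η ∧
      MinPer x γ p.2.1 ∧ 0 < ρ ∧ volume {w : ℝ × ℂ | |w.1| ≤ ρ ∧
        ((x 0 : ℂ) + w.1 * Complex.I * vel x 0, w.2) ∈ Ks} = 0 ∧ p.2.2 = x 0} with hD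
  have key : ∀ p : (Om × (Fin b → ℝ)) × (ℝ × ℍ),
      ∃ W : Set ((Om × (Fin b → ℝ)) × (ℝ × ℍ)), p ∈ D → W ∈ 𝓝 p ∧
        ∀ᵐ a ∂law, ∀ᵐ t, ∀ d, ((a, t), d) ∈ W → ((a, t), d) ∉ KSet L P e γ K := by
    rintro ⟨⟨a, t⟩, T, d⟩
    by_cases hp : (((a, t), T, d) : (Om × (Fin b → ℝ)) × (ℝ × ℍ)) ∈ D
    swap
    · exact ⟨∅, fun hp' => absurd hp' hp⟩
    obtain ⟨x, η, ρ, hx, hm, hρ, h1, hd⟩ := hp
    obtain rfl : d = x 0 := hd
    obtain ⟨W, hW, H⟩ := t34ae_loc F hL h e hK (hKs hx.no) hx hm hρ h1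
    exact ⟨W, fun _ => ⟨hW, H⟩⟩
  choose W hW using key
  obtain ⟨C, hCD, hCc, hcov⟩ := TopologicalSpace.countable_cover_nhdsWithin (f := W) (s := D)
    fun p hp => mem_nhdsWithin_of_mem_nhds (hW p hp).1
  have h1 : ∀ᵐ a ∂law, ∀ p ∈ C, ∀ᵐ t, ∀ d, ((a, t), d) ∈ W p → ((a, t), d) ∉ KSet L P e γ K :=
    (ae_ball_iff hCc).2 fun p hp => (hW p (hCD hp)).2
  filter_upwards [h1] with a ha
  filter_upwards [(ae_ball_iff hCc).2 ha] with t ht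
  rintro ⟨x, T, η, hx, hm, h2⟩
  have hL' : Tonelli Γ (addP L (P a)) := hL.add F (h.pot a).c2
  have hR := hx.cp.reg F hL'
  obtain ⟨r, ρ, hρ, h3⟩ := t34ae_slice hR.hasDerivAt (fun s => (hR.acc s).hasDerivAt) hR.cont
    (hx.cp.vel_ne F hL' hx.no 0) h0
  have hp : (((a, t), T, x (0 + r)) : (Om × (Fin b → ℝ)) × (ℝ × ℍ)) ∈ D :=
    ⟨fun s => x (s + r), _, ρ, (hx.shift F hL' r).2, hm.shift r, hρ, by
      simpa only [vel_shift, zero_add] using h3, rfl⟩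
  obtain ⟨p, hpC, hpW⟩ := Set.mem_iUnion₂.1 (hcov hp)
  refine ht p hpC _ hpW ⟨fun s => x (s + r), hx.cp.shift r, rfl, fun s => ?_⟩
  rw [jet_shift]
  exact h2 _

lemma isOpen_lipAt (S : Set (ℂ × ℂ → ℝ)) : IsOpen {p | LipAt S p} := by
  refine Metric.isOpen_iff.2 ?_
  rintro p ⟨ρ, M, hρ, hM, h⟩
  refine ⟨ρ / 2, half_pos hρ, fun p' hp' => ⟨ρ / 2, M, half_pos hρ, hM, fun L hL q q' a1 a2 => ?_⟩⟩
  rw [Metric.mem_ball, dist_eq_norm] at hp'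
  exact h L hL q q' (by linarith [norm_sub_le_norm_sub_add_norm_sub q p' p])
    (by linarith [norm_sub_le_norm_sub_add_norm_sub q' p' p])

theorem Pert.ae_nodegO_ae (F : Deck Γ) (hL : Tonelli Γ L) (h : Pert Γ ε P)
    (e : (Fin b → ℝ) ≃ₗ[ℝ] Coh Γ) (hb : BddC2 (Set.range P)) {Ks : Set (ℂ × ℂ)}
    (h0 : volume Ks = 0) (hl : ∀ (a : Om) (γ : Γ) (x : ℝ → ℍ) (T : ℝ), EL (addP L (P a)) x →
      Per x γ T → ¬Ori γ → (∀ t, ¬LipAt (addP L '' Set.range P) (jet x t)) → jet x 0 ∈ Ks) :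
    ∀ᵐ a ∂law, ∀ᵐ t, ¬DegO (addP L (P a)) (e t : Γ → ℝ) := by
  have := F.countable
  filter_upwards [ae_all_iff.2 fun γ : Γ => t34null_one F hL h e hb γ,
    ae_all_iff.2 fun γ : Γ => t34ae_one F hL h e
      (isOpen_lipAt (addP L '' Set.range P)).isClosed_compl h0 γ
      fun hn a y T h1 h2 h3 => hl a γ y T h1 h2 hn h3] with a ha ha'
  filter_upwards [ae_all_iff.2 ha, ae_all_iff.2 ha'] with t ht ht'
  rintro ⟨x, γ, T, η, hx, hm, -⟩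
  have hL' : Tonelli Γ (addP L (P a)) := hL.add F (h.pot a).c2
  by_cases hs : ∃ s, LipAt (addP L '' Set.range P) (jet x s)
  · obtain ⟨s, hs⟩ := hs
    refine ht γ ⟨_, T, _, (hx.shift F hL' (s - T / 2)).2, hm.shift _, ?_⟩
    rwa [jet_shift, add_sub_cancel]
  · exact ht' γ ⟨x, T, η, hx, hm, fun s h' => hs ⟨s, h'⟩⟩

theorem dense_good_ae (F : Deck Γ) (hL : Tonelli Γ L) {Ks : Set (ℂ × ℂ)} (h0 : volume Ks = 0)
    (h3 : ∀ f, Pot Γ f → ∀ (γ : Γ) (x : ℝ → ℍ) (T : ℝ), EL (addP L f) x → Per x γ T → ¬Ori γ →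
      (∀ t, ¬LipAt {L} (jet x t)) → jet x 0 ∈ Ks)
    (e : (Fin b → ℝ) ≃ₗ[ℝ] Coh Γ) {f : ℂ → ℝ} (hf : Pot Γ f) (k : ℕ) {δ : ℝ} (hδ : 0 < δ) :
    ∃ g, Pot Γ g ∧ Near k δ f g ∧ ∀ᵐ t, Gs (addP L g) (e t : Γ → ℝ) := by
  obtain ⟨k₀, hk₀⟩ := F.three
  obtain ⟨ε, P, hP, hN⟩ := exists_pert F (max k k₀) hδ
  have hL' : Tonelli Γ (addP L f) := hL.add F hf.c2
  have hb : ∀ R : ℝ, ∃ M : ℝ, ∀ g ∈ Set.range P, ∀ j ≤ 3, ∀ z ∈ KB R,
      ‖iteratedFDeriv ℝ j g z‖ ≤ M := fun R => by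
    obtain ⟨M, hM⟩ := hk₀ δ R
    refine ⟨M, ?_⟩
    rintro _ ⟨a, rfl⟩
    have h1 := (hN a 0).mono (le_max_right k k₀)
    rw [zero_add] at h1
    exact hM _ (hP.pot a) h1
  have hl : ∀ (a : Om) (γ : Γ) (x : ℝ → ℍ) (T : ℝ), EL (addP (addP L f) (P a)) x → Per x γ T →
      ¬Ori γ → (∀ t, ¬LipAt (addP (addP L f) '' Set.range P) (jet x t)) → jet x 0 ∈ Ks := by
    intro a γ x T h1 h2 h4 h5
    rw [addP_addP] at h1
    refine h3 _ (hf.add (hP.pot a)) γ x T h1 h2 h4 fun t ht => h5 t ?_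
    have h0 := LipAt.add (Γ := Γ) hL.smooth (jet_mem x t) ht (G := {f})
      (by rintro _ rfl; exact hf) hf.bdd3
    rw [Set.image_singleton] at h0
    exact LipAt.add (Γ := Γ) hL'.smooth (jet_mem x t) h0
      (by rintro _ ⟨a, rfl⟩; exact hP.pot a) hb
  obtain ⟨a, ⟨h1, h2⟩, h4⟩ := (((hP.ae_tdall F hL' e).and (hP.ae_nondeg F hL')).and
    (hP.ae_nodegO_ae F hL' e (bddC2_of_three hb) h0 hl)).exists
  refine ⟨f + P a, hf.add (hP.pot a), (hN a f).mono (le_max_left k k₀), ?_⟩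
  rw [addP_addP] at h1 h2 h4
  filter_upwards [h1, h4] with t ht ht'
  rcases ht.gs_or' F (hL.add F (hf.add (hP.pot a)).c2) (e t).2 with h5 | h5 | h5
  · exact h5
  · exact absurd h5 h2
  · exact absurd h5 ht'

/-- The theorem when almost no jet starts a one-sided closed orbit along which the second
derivative is nowhere Lipschitz. -/
theorem main_ae (F : Deck Γ) (hL : Tonelli Γ L)
    (h3 : volume {p : ℂ × ℂ | ∃ (f : ℂ → ℝ) (γ : Γ) (x : ℝ → ℍ) (T : ℝ), Pot Γ f ∧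
      EL (addP L f) x ∧ Per x γ T ∧ ¬Ori γ ∧
      (∀ t, ∀ s ∈ 𝓝 (jet x t), ∀ K, ¬LipschitzOnWith K (D2 L) s) ∧ p = jet x 0} = 0) :
    ∃ b : ℕ, Nonempty ((Fin b → ℝ) ≃ₗ[ℝ] Coh Γ) ∧ ∃ O : ℕ → Set (ℂ → ℝ),
      (∀ n, OpenDense Γ (O n)) ∧ ∀ f, Pot Γ f → (∀ n, f ∈ O n) →
        ∀ e : (Fin b → ℝ) ≃ₗ[ℝ] Coh Γ, ∀ᵐ t, Good Γ (addP L f) (e t : Γ → ℝ) := by
  obtain ⟨b, ⟨e₀⟩⟩ := F.dim
  obtain ⟨O, hO, hG⟩ := residual_good F hL e₀ fun f hf k δ hδ => dense_good_ae F hL h3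
    (fun f hf γ x T h1 h2 h4 h5 =>
      ⟨f, γ, x, T, hf, h1, h2, h4, fun t s hs K hK => h5 t (lipAt_of hs hK), rfl⟩) e₀ hf k hδ
  refine ⟨b, ⟨e₀⟩, O, hO, fun f hf hfO e => ?_⟩
  have h1 := ae_transfer e₀ e (P := fun c : Coh Γ => Gs (addP L f) (c : Γ → ℝ)) (hG f hf hfO)
  filter_upwards [h1] with t ht
  exact ht.good F (hL.add F hf.c2) (e t).2

end Pool.Agent.Lib.MP_5bb885_an.Gen
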