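import Pool.Agent.Lib.MP_5bb885_an.T34Defs

/-!
Comparison of the second variations along two curves that agree outside a window.
-/

namespace Pool.Agent.Lib.MP_5bb885_an.Gen

open UpperHalfPlane MeasureTheory Filter Topology

variable {Γ : Type} [Group Γ] [MulAction Γ ℍ] {L : ℂ × ℂ → ℝ} {c : Γ → ℝ} {x : ℝ → ℍ} {γ : Γ}
  {T : ℝ} {η : ℝ → ℂ}

lemma t34k_step {σ : ℝ} (hσ : 0 < σ) : ∃ (ψ ψ' : ℝ → ℝ) (K : ℝ), 0 ≤ K ∧
    (∀ t, HasDerivAt ψ (ψ' t) t) ∧ Continuous ψ' ∧ (∀ t, 0 ≤ ψ t ∧ ψ t ≤ 1) ∧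
    (∀ t, |ψ' t| ≤ K) ∧ (∀ t, t ≤ 0 → ψ t = 0 ∧ ψ' t = 0) ∧
    ∀ t, σ ≤ t → ψ t = 1 ∧ ψ' t = 0 := by
  set ψ : ℝ → ℝ := fun t => Real.smoothTransition (t / σ) with hψ
  have hs : ContDiff ℝ 1 ψ :=
    (Real.smoothTransition.contDiff (n := 1)).comp (contDiff_id.div_const σ)
  have hc : Continuous (deriv ψ) := hs.continuous_deriv le_rfl
  have h01 : ∀ t, 0 ≤ ψ t ∧ ψ t ≤ 1 := fun t =>
    ⟨Real.smoothTransition.nonneg _, Real.smoothTransition.le_one _⟩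
  have h0 : ∀ t, t ≤ 0 → ψ t = 0 ∧ deriv ψ t = 0 := fun t ht => by
    have e : ψ t = 0 := Real.smoothTransition.zero_of_nonpos (div_nonpos_of_nonpos_of_nonneg ht hσ.le)
    exact ⟨e, IsLocalMin.deriv_eq_zero (Eventually.of_forall fun s => e ▸ (h01 s).1)⟩
  have h1 : ∀ t, σ ≤ t → ψ t = 1 ∧ deriv ψ t = 0 := fun t ht => by
    have e : ψ t = 1 := Real.smoothTransition.one_of_one_le ((one_le_div hσ).2 ht)
    exact ⟨e, IsLocalMax.deriv_eq_zero (Eventually.of_forall fun s => e ▸ (h01 s).2)⟩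
  obtain ⟨K, hK⟩ := (isCompact_Icc (a := (0 : ℝ)) (b := σ)).exists_bound_of_continuousOn
    hc.continuousOn
  refine ⟨ψ, deriv ψ, |K|, abs_nonneg _,
    fun t => (hs.differentiable one_ne_zero t).hasDerivAt, hc, h01, fun t => ?_, h0, h1⟩
  rcases le_total t 0 with h | h
  · rw [(h0 t h).2, abs_zero]; exact abs_nonneg _
  · rcases le_total σ t with h' | h'
    · rw [(h1 t h').2, abs_zero]; exact abs_nonneg _
    · exact (hK t ⟨h, h'⟩).trans (le_abs_self _)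

lemma t34k_jet (F : Deck Γ) {y₁ y₂ : ℝ → ℍ} {T₁ T₂ s : ℝ} (h₁ : Per y₁ γ T₁) (h₂ : Per y₂ γ T₂)
    (h : jet y₁ s = jet y₂ s) : jet y₁ (s + T₁) = jet y₂ (s + T₂) := by
  have e1 : y₁ s = y₂ s := UpperHalfPlane.ext (congrArg Prod.fst h)
  have e2 : vel y₁ s = vel y₂ s := congrArg Prod.snd h
  simp only [jet, h₁.2 s, h₂.2 s, h₁.vel F s, h₂.vel F s, e1, e2]

theorem cmp_loc (F : Deck Γ) {S : Set (ℂ × ℂ → ℝ)} (U : Unif S) {p₀ : ℂ × ℂ} {ρ M : ℝ}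
    (hM : 0 ≤ M) (hS : ∀ L ∈ S, ∀ q q' : ℂ × ℂ, ‖q - p₀‖ ≤ ρ → ‖q' - p₀‖ ≤ ρ →
      ‖D2 L q - D2 L q'‖ ≤ M * ‖q - q'‖) (γ : Γ) (R W B k₀ : ℝ) {σ : ℝ} (hσ : 0 < σ) :
    ∃ C : ℝ, 0 ≤ C ∧ ∀ L ∈ S, Tonelli Γ L → ∀ g : ℂ → ℝ, C2 Γ g → addP L g ∈ S →
      ∀ (c : Γ → ℝ) (y₁ y₂ : ℝ → ℍ) (T₁ T₂ D a : ℝ) (η : ℝ → ℂ), CP L c y₁ γ T₁ →
      OD (addP L g) c y₂ γ T₂ η → |crit (addP L g) c| ≤ k₀ → T₁ ≤ W → T₂ ≤ W →
      2 * a + σ ≤ T₁ → D ≤ 1 → D ≤ a → |T₁ - T₂| ≤ D →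
      (∀ t, |t| ≤ a → jet y₁ t = jet y₂ t) →
      (∀ t ∈ Set.Icc (a - D) (T₁ - a + D), ‖jet y₁ t - p₀‖ ≤ ρ ∧ ‖jet y₂ t - p₀‖ ≤ ρ) →
      (∀ t ∈ Set.Icc 0 W, dist (y₁ t) I ≤ R ∧ dist (y₂ t) I ≤ R ∧ ‖vel y₁ t‖ ≤ B ∧
        ‖vel y₂ t‖ ≤ B ∧ ‖η t‖ ≤ B ∧ ‖deriv η t‖ ≤ B ∧ ‖jet y₁ t - jet y₂ t‖ ≤ D) →
      ∫ t in (0 : ℝ)..T₂, fderiv ℝ (fderiv ℝ g) (y₂ t) (η t) (η t) ≤ C * D := by
  obtain ⟨M₁, hM₁⟩ := U.bd R B
  obtain ⟨Kv, hKv0, hKv⟩ := U.vlip k₀ R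
  obtain ⟨ψ, ψ', K, hK0, hψd, hψc, hψ01, hψK, hψ0, hψ1⟩ := t34k_step hσ
  set N : ℝ := M * (1 + (1 + Kv) * |B|) with hN
  have hN0 : 0 ≤ N := by positivity
  set P : ℝ := (N * |B| ^ 2 + 2 * |M₁| * |B| * (K * |B|) + |M₁| * (K * |B|) ^ 2)
    + |M₁| * |B| * |B| * K with hP
  have hP0 : 0 ≤ P := by positivity
  refine ⟨P * |W|, by positivity, ?_⟩
  intro L hLS hL g hg hgS c y₁ y₂ T₁ T₂ D a η h1 h2 hk hT₁ hT₂ ha hD1 hDa hTT heq hρ hb
  have hD0 : 0 ≤ D := (abs_nonneg _).trans hTT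
  have hT₁0 : 0 < T₁ := by linarith
  have hW : 0 ≤ W := hT₁0.le.trans hT₁
  have h0W : (0 : ℝ) ∈ Set.Icc 0 W := ⟨le_rfl, hW⟩
  have hB : 0 ≤ B := (norm_nonneg _).trans (hb 0 h0W).2.2.1
  rw [abs_of_nonneg hB] at hN hP
  rw [abs_of_nonneg hW]
  have hLg : Tonelli Γ (addP L g) := hL.add F hg
  have hr₁ : Reg L y₁ := h1.reg F hL
  have hr₂ : Reg (addP L g) y₂ := h2.cp.reg F hLg
  have hJ : JacA (fun t => D2 (addP L g) (jet y₂ t)) η := h2.jac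
  have hηc' : Continuous (deriv η) := hJ.contDeriv (hr₂.coef hLg)
  have hηd : ∀ t, HasDerivAt η (deriv η t) t := fun t => (hJ t).1.hasDerivAt
  have hηc : Continuous η := continuous_iff_continuousAt.2 fun t => (hηd t).continuousAt
  obtain ⟨hΔ1, hΔ2⟩ := abs_le.1 hTT
  set θ : ℝ → ℝ := fun t => t + (T₂ - T₁) * ψ (t - a) with hθ
  set θ' : ℝ → ℝ := fun t => 1 + (T₂ - T₁) * ψ' (t - a) with hθ'
  have hθd : ∀ t, HasDerivAt θ (θ' t) t := fun t =>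
    (hasDerivAt_id t).add (((hψd (t - a)).comp_sub_const t a).const_mul _)
  have hθ'c : Continuous θ' := by simp only [hθ']; fun_prop
  have hθc : Continuous θ := continuous_iff_continuousAt.2 fun t => (hθd t).continuousAt
  have hlo : ∀ t, t ≤ a → θ t = t ∧ θ' t = 1 := fun t ht => by
    simp [hθ, hθ', hψ0 (t - a) (by linarith)]
  have hhi : ∀ t, T₁ - a ≤ t → θ t = t - T₁ + T₂ ∧ θ' t = 1 := fun t ht => by
    simp only [hθ, hθ', hψ1 (t - a) (by linarith)]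
    constructor <;> ring
  have hθ0 : θ 0 = 0 := (hlo 0 (by linarith)).1
  have hθT : θ T₁ = T₂ := by rw [(hhi T₁ (by linarith)).1]; ring
  have hθn : ∀ t, |θ t - t| ≤ D := fun t => by
    obtain ⟨b1, b2⟩ := hψ01 (t - a)
    simp only [hθ, add_sub_cancel_left]
    rw [abs_mul, abs_sub_comm, abs_of_nonneg b1]
    nlinarith [abs_nonneg (T₁ - T₂)]
  have hθ'n : ∀ t, |θ' t - 1| ≤ K * D := fun t => by
    simp only [hθ', add_sub_cancel_left]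
    rw [abs_mul, abs_sub_comm, mul_comm]
    exact mul_le_mul (hψK _) hTT (abs_nonneg _) hK0
  have hξd : ∀ t, HasDerivAt (fun t => η (θ t)) (θ' t • deriv η (θ t)) t := fun t =>
    (hηd (θ t)).scomp t (hθd t)
  have hξc : Continuous fun t => θ' t • deriv η (θ t) := hθ'c.smul (hηc'.comp hθc)
  have he0 : jet y₁ 0 = jet y₂ 0 := heq 0 (by rw [abs_zero]; linarith)
  have hy0 : y₁ 0 = y₂ 0 := UpperHalfPlane.ext (congrArg Prod.fst he0)
  have q1 := h1.qt_nonneg F hL hξd hξc (by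
    simp only [hθT, hθ0, hy0]
    simpa using h2.anti 0)
  simp only [hθ0] at q1
  have q2 := qt_zero F hLg hr₂ h2.cp.per h2.jac h2.anti
  have hj₁ : Continuous fun t => D2 L (jet y₁ t) :=
    (continuousOn_D2 hL.smooth).comp_continuous hr₁.contJet (jet_mem y₁)
  have hj₂ : Continuous fun t => D2 L (jet y₂ t) :=
    (continuousOn_D2 hL.smooth).comp_continuous hr₂.contJet (jet_mem y₂)
  have hg₂ : Continuous fun t => fderiv ℝ (fderiv ℝ g) (y₂ t) :=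
    (t9tay_cont isOpen_HP hg.1).2.2.comp_continuous
      (UpperHalfPlane.continuous_coe.comp hr₂.continuous) fun t => (y₂ t).im_pos
  have hpc : Continuous fun t => ((η t, deriv η t) : ℂ × ℂ) := hηc.prodMk hηc'
  have hqc : Continuous fun t => ((η (θ t), θ' t • deriv η (θ t)) : ℂ × ℂ) :=
    (hηc.comp hθc).prodMk hξc
  have hbc : Continuous fun t => D2 L (jet y₂ t) (η t, deriv η t) (η t, deriv η t) :=
    (hj₂.clm_apply hpc).clm_apply hpc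
  have hac : Continuous fun t => D2 L (jet y₁ t) (η (θ t), θ' t • deriv η (θ t))
      (η (θ t), θ' t • deriv η (θ t)) := (hj₁.clm_apply hqc).clm_apply hqc
  have hgc : Continuous fun t => fderiv ℝ (fderiv ℝ g) (y₂ t) (η t) (η t) :=
    (hg₂.clm_apply hηc).clm_apply hηc
  have e1 : (∫ t in (0 : ℝ)..T₂, D2 (addP L g) (jet y₂ t) (η t, deriv η t) (η t, deriv η t)) =
      (∫ t in (0 : ℝ)..T₂, D2 L (jet y₂ t) (η t, deriv η t) (η t, deriv η t)) +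
        ∫ t in (0 : ℝ)..T₂, fderiv ℝ (fderiv ℝ g) (y₂ t) (η t) (η t) := by
    rw [← intervalIntegral.integral_add (hbc.intervalIntegrable _ _) (hgc.intervalIntegrable _ _)]
    refine intervalIntegral.integral_congr fun t _ => ?_
    exact D2_addP hL.smooth hg.1 (jet_mem y₂ t) _ _
  have e2 : ∀ v, mom (addP L g) y₂ 0 v = mom L y₁ 0 v := fun v => by
    have := fderiv_addP hL.smooth hg.1 (jet_mem y₂ 0) (0, v)
    rw [map_zero, add_zero] at this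
    rw [mom, mom, he0]
    exact this
  rw [e1, e2, ← hy0] at q2
  have e3 := intervalIntegral.integral_comp_mul_deriv (a := 0) (b := T₁) (fun t _ => hθd t)
    hθ'c.continuousOn hbc
  rw [hθ0, hθT] at e3
  have hcc : Continuous fun t => ((fun t => D2 L (jet y₂ t) (η t, deriv η t) (η t, deriv η t))
      ∘ θ) t * θ' t := (hbc.comp hθc).mul hθ'c
  have e4 := intervalIntegral.integral_sub (hac.intervalIntegrable (μ := volume) 0 T₁)
    (hcc.intervalIntegrable 0 T₁)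
  obtain ⟨u, -, hd, hcal, -⟩ := id h2.cp
  have key : ∀ t ∈ Set.Icc 0 T₁, |D2 L (jet y₁ t) (η (θ t), θ' t • deriv η (θ t))
      (η (θ t), θ' t • deriv η (θ t)) - D2 L (jet y₂ (θ t)) (η (θ t), deriv η (θ t))
        (η (θ t), deriv η (θ t)) * θ' t| ≤ P * D := by
    intro t ht
    rcases le_total t a with hta | hta
    · rw [(hlo t hta).1, (hlo t hta).2, heq t (by rw [abs_of_nonneg ht.1]; exact hta), one_smul,
        mul_one, sub_self, abs_zero]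
      positivity
    rcases le_total (T₁ - a) t with htb | htb
    · have b1 := t34k_jet F h1.per h2.cp.per
        (heq (t - T₁) (by rw [abs_of_nonpos (by linarith [ht.2])]; linarith))
      rw [sub_add_cancel] at b1
      rw [(hhi t htb).1, (hhi t htb).2, b1, one_smul, mul_one, sub_self, abs_zero]
      positivity
    obtain ⟨b1, b2⟩ := abs_le.1 (hθn t)
    have htW : t ∈ Set.Icc 0 W := ⟨ht.1, ht.2.trans hT₁⟩
    have hθW : θ t ∈ Set.Icc 0 W := ⟨by linarith, by linarith⟩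
    have c1 : ‖(y₂ t : ℂ) - y₂ (θ t)‖ ≤ B * ‖t - θ t‖ :=
      (convex_Icc (0 : ℝ) W).norm_image_sub_le_of_norm_hasDerivWithin_le
        (f := fun s => (y₂ s : ℂ)) (f' := vel y₂)
        (fun s _ => (hr₂.hasDerivAt s).hasDerivWithinAt) (fun s hs => (hb s hs).2.2.2.1) hθW htW
    rw [Real.norm_eq_abs, abs_sub_comm] at c1
    have c2 : ‖(y₂ t : ℂ) - y₂ (θ t)‖ ≤ B * D :=
      c1.trans (mul_le_mul_of_nonneg_left (hθn t) hB)
    have c3 : ‖vel y₂ t - vel y₂ (θ t)‖ ≤ Kv * (B * D) :=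
      (hKv _ hgS _ hk u hd y₂ y₂ hcal hcal t (θ t) (hb t htW).2.1 (hb _ hθW).2.1).trans
        (mul_le_mul_of_nonneg_left c2 hKv0)
    have c4 : ‖jet y₂ t - jet y₂ (θ t)‖ ≤ (1 + Kv) * B * D := by
      have d1 : 0 ≤ B * D := by positivity
      have d2 : 0 ≤ Kv * (B * D) := by positivity
      refine norm_prod_le_iff.2 ⟨c2.trans ?_, c3.trans ?_⟩ <;> linarith
    have c5 : ‖jet y₁ t - jet y₂ (θ t)‖ ≤ (1 + (1 + Kv) * B) * D := by
      have := norm_sub_le_norm_sub_add_norm_sub (jet y₁ t) (jet y₂ t) (jet y₂ (θ t))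
      linarith [(hb t htW).2.2.2.2.2.2]
    have c6 : ‖D2 L (jet y₁ t) - D2 L (jet y₂ (θ t))‖ ≤ N * D := by
      refine (hS L hLS _ _ (hρ t ⟨by linarith, by linarith⟩).1
        (hρ (θ t) ⟨by linarith, by linarith⟩).2).trans ?_
      rw [hN, mul_assoc]
      exact mul_le_mul_of_nonneg_left c5 hM
    have a1 : ‖D2 L (jet y₁ t)‖ ≤ |M₁| :=
      (hM₁ L hLS _ (mem_KB.2 (hb t htW).1) _ (hb t htW).2.2.1).2.trans (le_abs_self _)
    have a2 : ‖D2 L (jet y₂ (θ t))‖ ≤ |M₁| :=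
      (hM₁ L hLS _ (mem_KB.2 (hb _ hθW).2.1) _ (hb _ hθW).2.2.2.1).2.trans (le_abs_self _)
    have a3 : ‖((η (θ t), deriv η (θ t)) : ℂ × ℂ)‖ ≤ B :=
      norm_prod_le_iff.2 ⟨(hb _ hθW).2.2.2.2.1, (hb _ hθW).2.2.2.2.2.1⟩
    have a4 : ‖((0, (θ' t - 1) • deriv η (θ t)) : ℂ × ℂ)‖ ≤ K * B * D := by
      refine norm_prod_le_iff.2 ⟨by rw [norm_zero]; positivity, ?_⟩
      rw [norm_smul, Real.norm_eq_abs, mul_right_comm]
      exact mul_le_mul (hθ'n t) (hb _ hθW).2.2.2.2.2.1 (norm_nonneg _) (by positivity)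
    have a5 := t18cmp_bil a1 c6 a3 a4 (by positivity) hD0 hD1
    have a6 : ((η (θ t), deriv η (θ t)) : ℂ × ℂ) + (0, (θ' t - 1) • deriv η (θ t))
        = (η (θ t), θ' t • deriv η (θ t)) := by
      rw [Prod.mk_add_mk, add_zero, sub_smul, one_smul, add_sub_cancel]
    rw [a6] at a5
    have a7 := (D2 L (jet y₂ (θ t))).le_of_opNorm₂_le_of_le a2 a3 a3
    rw [Real.norm_eq_abs] at a7
    have a8 := mul_le_mul a7 (hθ'n t) (abs_nonneg _) (by positivity)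
    rw [← abs_mul] at a8
    obtain ⟨d1, d2⟩ := abs_le.1 a5
    obtain ⟨d3, d4⟩ := abs_le.1 a8
    rw [hP, abs_le]
    constructor <;> linarith
  have q3 := intervalIntegral.norm_integral_le_of_norm_le_const (a := 0) (b := T₁) (C := P * D)
    (f := fun t => D2 L (jet y₁ t) (η (θ t), θ' t • deriv η (θ t))
      (η (θ t), θ' t • deriv η (θ t)) - ((fun t => D2 L (jet y₂ t) (η t, deriv η t)
        (η t, deriv η t)) ∘ θ) t * θ' t)
    fun t ht => key t (by rw [Set.uIoc_of_le hT₁0.le] at ht; exact ⟨ht.1.le, ht.2⟩)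
  have q4 : P * D * |T₁ - 0| ≤ P * W * D := by
    rw [sub_zero, abs_of_pos hT₁0, mul_right_comm P W]
    exact mul_le_mul_of_nonneg_left hT₁ (by positivity)
  have q5 := (le_abs_self _).trans (q3.trans q4)
  have e5 := e4.symm.trans_le q5
  rw [e3] at e5
  linarith

end Pool.Agent.Lib.MP_5bb885_an.Gen
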