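import Pool.Agent.Lib.MP_5bb885_an.T34Defs

/-!
The Wronskian pairing of two close closed curves with a Jacobi field.
-/

namespace Pool.Agent.Lib.MP_5bb885_an.Gen

open UpperHalfPlane MeasureTheory Filter Topology

variable {Γ : Type} [Group Γ] [MulAction Γ ℍ] {L : ℂ × ℂ → ℝ} {c : Γ → ℝ} {x : ℝ → ℍ} {γ : Γ}
  {T : ℝ} {η : ℝ → ℂ}

lemma t34b_split (B : ℂ × ℂ →L[ℝ] ℝ) (p : ℂ × ℂ) : B p = Dx B p.1 + Dv B p.2 := by
  have e : p = (p.1, 0) + (0, p.2) := by ext <;> simp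
  conv_lhs => rw [e, map_add]
  rfl

lemma t34b_mvi (hL : ContDiffOn ℝ 2 L TH) {A : ℂ × ℂ →L[ℝ] ℂ × ℂ →L[ℝ] ℝ} {p q q' : ℂ × ℂ}
    {δ ε : ℝ} (h : ∀ q : ℂ × ℂ, ‖q - p‖ ≤ δ → q ∈ TH ∧ ‖D2 L q - A‖ ≤ ε)
    (hq : ‖q - p‖ ≤ δ) (hq' : ‖q' - p‖ ≤ δ) :
    ‖fderiv ℝ L q - fderiv ℝ L q' - A (q - q')‖ ≤ ε * ‖q - q'‖ :=
  (convex_closedBall p δ).norm_image_sub_le_of_norm_hasFDerivWithin_le'
    (f := fderiv ℝ L) (f' := D2 L) (φ := A)
    (fun y hy => (hasFDerivAt_L hL (h y (mem_closedBall_iff_norm.1 hy)).1).2.hasFDerivWithinAt)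
    (fun y hy => (h y (mem_closedBall_iff_norm.1 hy)).2) (mem_closedBall_iff_norm.2 hq')
    (mem_closedBall_iff_norm.2 hq)

lemma t34b_mvt {H H' : ℝ → ℝ} (h : ∀ s, HasDerivAt H (H' s) s) (a b : ℝ) :
    ∃ s, |s - a| ≤ |b - a| ∧ min a b ≤ s ∧ H b - H a = H' s * (b - a) := by
  have hc : Continuous H := continuous_iff_continuousAt.2 fun s => (h s).continuousAt
  rcases lt_trichotomy a b with hab | rfl | hab
  · obtain ⟨s, hs, e⟩ := exists_hasDerivAt_eq_slope H H' hab hc.continuousOn fun s _ => h s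
    refine ⟨s, ?_, (min_le_left _ _).trans hs.1.le, ?_⟩
    · rw [abs_of_pos (sub_pos.2 hs.1), abs_of_pos (sub_pos.2 hab)]
      linarith [hs.2]
    · rw [e, div_mul_cancel₀ _ (sub_pos.2 hab).ne']
  · exact ⟨a, le_rfl, (min_le_left _ _), by simp⟩
  · obtain ⟨s, hs, e⟩ := exists_hasDerivAt_eq_slope H H' hab hc.continuousOn fun s _ => h s
    refine ⟨s, ?_, (min_le_right _ _).trans hs.1.le, ?_⟩
    · rw [abs_of_neg (sub_neg.2 hs.2), abs_of_neg (sub_neg.2 hab)]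
      linarith [hs.1]
    · have := (sub_pos.2 hab).ne'
      rw [e]
      field_simp
      ring

lemma t34b_sq {l : Filter ℕ} {a b d : ℕ → ℝ} {K : ℝ} (hd : ∀ n, 0 < d n)
    (hb : Tendsto (fun n => b n / d n) l (𝓝 0)) (h : ∀ᶠ n in l, |a n| ≤ K * b n) :
    Tendsto (fun n => a n / d n) l (𝓝 0) := by
  refine squeeze_zero_norm' (a := fun n => K * (b n / d n)) (h.mono fun n hn => ?_)
    (by simpa using hb.const_mul K)
  rw [Real.norm_eq_abs, abs_div, abs_of_pos (hd n), ← mul_div_assoc]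
  exact div_le_div_of_nonneg_right hn (hd n).le

/-- The boundary terms are of the order of the difference of the jets. -/
lemma t34b_small {l : Ultrafilter ℕ} {Ls : ℕ → ℂ × ℂ → ℝ} (S : LSeq Γ l L Ls) {p : ℂ × ℂ}
    (hp : p ∈ TH) {q q' : ℕ → ℂ × ℂ} (hq : Tendsto q l (𝓝 p)) (hq' : Tendsto q' l (𝓝 p))
    {w : ℕ → ℂ} {w₀ : ℂ} (hw : Tendsto w l (𝓝 w₀)) {Q : ℕ → ℂ →L[ℝ] ℝ} {Q₀ : ℂ →L[ℝ] ℝ}
    (hQ : Tendsto Q l (𝓝 Q₀)) {d : ℕ → ℝ} (hd : ∀ n, 0 < d n)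
    (h0 : Tendsto (fun n => ‖q n - q' n‖ / d n) l (𝓝 0)) :
    Tendsto (fun n => ((Dv (fderiv ℝ (Ls n) (q n)) - Dv (fderiv ℝ (Ls n) (q' n))) (w n) -
      Q n ((q n).1 - (q' n).1)) / d n) l (𝓝 0) := by
  obtain ⟨δ, hδ, h1⟩ := t9exp_near S isCompact_singleton (Set.singleton_subset_iff.2 hp) one_pos
  refine t34b_sq (K := (1 + ‖D2 L p‖) * (‖w₀‖ + 1) + (‖Q₀‖ + 1)) hd h0 ?_
  filter_upwards [h1, hq (Metric.closedBall_mem_nhds p hδ), hq' (Metric.closedBall_mem_nhds p hδ),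
    hw.norm.eventually (eventually_le_nhds (lt_add_one _)),
    hQ.norm.eventually (eventually_le_nhds (lt_add_one _))] with n a1 a2 a3 a4 a5
  have b1 := t34b_mvi (S.tons n).smooth (A := D2 L p) (fun r hr =>
    ⟨(a1 p rfl r hr).1, (a1 p rfl r hr).2.2⟩) (mem_closedBall_iff_norm.1 a2)
    (mem_closedBall_iff_norm.1 a3)
  have b2 := (D2 L p).le_opNorm (q n - q' n)
  have b3 : ‖fderiv ℝ (Ls n) (q n) - fderiv ℝ (Ls n) (q' n)‖ ≤ (1 + ‖D2 L p‖) * ‖q n - q' n‖ := by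
    have := norm_le_norm_sub_add (fderiv ℝ (Ls n) (q n) - fderiv ℝ (Ls n) (q' n))
      (D2 L p (q n - q' n))
    linarith
  have b4 : |(Dv (fderiv ℝ (Ls n) (q n)) - Dv (fderiv ℝ (Ls n) (q' n))) (w n)| ≤
      (1 + ‖D2 L p‖) * ‖q n - q' n‖ * (‖w₀‖ + 1) := by
    have e : Dv (fderiv ℝ (Ls n) (q n)) - Dv (fderiv ℝ (Ls n) (q' n)) =
        Dv (fderiv ℝ (Ls n) (q n) - fderiv ℝ (Ls n) (q' n)) := rfl
    rw [e]
    refine ((Dv _).le_opNorm _).trans ?_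
    exact mul_le_mul ((t9exp_Dv _).trans b3) a4 (norm_nonneg _) (by positivity)
  have b5 : |Q n ((q n).1 - (q' n).1)| ≤ (‖Q₀‖ + 1) * ‖q n - q' n‖ :=
    ((Q n).le_opNorm _).trans
      (mul_le_mul a5 (norm_fst_le (q n - q' n)) (norm_nonneg _) (by positivity))
  refine (abs_sub _ _).trans ?_
  linarith

/-- The action of a deck transformation on jets is Lipschitz on compact sets. -/
lemma t34b_lip (F : Deck Γ) (γ : Γ) (R B : ℝ) : ∃ M : ℝ, ∀ z w : ℍ, dist z I ≤ R → dist w I ≤ R →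
    ∀ v v' : ℂ, ‖v'‖ ≤ B → ‖((((γ • z : ℍ) : ℂ), dk γ z v) : ℂ × ℂ) - (((γ • w : ℍ) : ℂ), dk γ w v')‖ ≤
      M * ‖(((z : ℂ), v) : ℂ × ℂ) - ((w : ℂ), v')‖ := by
  obtain ⟨C, hC1, hC⟩ := KB_cmp (R + dist (γ • I) I)
  obtain ⟨M, hM, hm⟩ := F.bq_lip γ R
  refine ⟨C * C + M * |B|, fun z w hz hw v v' hv => ?_⟩
  have C0 : 0 ≤ C := zero_le_one.trans hC1
  have k : ∀ u : ℍ, dist u I ≤ R → dist u I ≤ R + dist (γ • I) I ∧
      dist (γ • u) I ≤ R + dist (γ • I) I := fun u hu => by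
    have := dist_triangle (γ • u) (γ • I) I
    rw [F.iso] at this
    exact ⟨hu.trans (le_add_of_nonneg_right dist_nonneg), by linarith⟩
  set D := ‖(((z : ℂ), v) : ℂ × ℂ) - ((w : ℂ), v')‖ with hD
  have D0 : 0 ≤ D := norm_nonneg _
  have d1 : ‖(z : ℂ) - w‖ ≤ D := norm_fst_le ((((z : ℂ), v) : ℂ × ℂ) - ((w : ℂ), v'))
  have d2 : ‖v - v'‖ ≤ D := norm_snd_le ((((z : ℂ), v) : ℂ × ℂ) - ((w : ℂ), v'))
  have e0 : 0 ≤ M * |B| * D := by positivity
  rw [Prod.mk_sub_mk, Prod.norm_mk, add_mul]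
  refine max_le ?_ ?_
  · have a1 := (hC _ _ (k z hz).2 (k w hw).2).2.1
    rw [F.iso] at a1
    have a2 := (hC _ _ (k z hz).1 (k w hw).1).1
    have a3 := a1.trans (mul_le_mul_of_nonneg_left
      (a2.trans (mul_le_mul_of_nonneg_left d1 C0)) C0)
    linarith
  · have a1 := (hm z w hz hw v').2.2
    have a2 : ‖dk γ z (v - v')‖ ≤ C * C * D := by
      have h4 := F.norm_dk γ z (v - v')
      rw [div_eq_iff (γ • z).im_pos.ne'] at h4
      have h5 := (hC _ _ (k z hz).2 (k w hw).2).2.2.2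
      have h6 := (hC _ _ (k z hz).1 (k w hw).1).2.2.1
      have h7 : ‖v - v'‖ / z.im ≤ D * C := by
        rw [div_le_iff₀ z.im_pos]
        have h8 : 1 ≤ C * z.im := by
          rw [← div_le_iff₀' (zero_lt_one.trans_le hC1), one_div]
          exact h6
        nlinarith
      rw [h4]
      have := mul_le_mul h7 h5 (γ • z).im_pos.le (by positivity)
      linarith
    have a3 : M * ‖(z : ℂ) - w‖ * ‖v'‖ ≤ M * D * |B| :=
      mul_le_mul (mul_le_mul_of_nonneg_left d1 hM) (hv.trans (le_abs_self B)) (norm_nonneg _)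
        (by positivity)
    have e : dk γ z v - dk γ w v' = dk γ z (v - v') + (dk γ z v' - dk γ w v') := by
      rw [map_sub]
      abel
    rw [e]
    refine (norm_add_le _ _).trans ?_
    linarith

lemma t34b_per (F : Deck Γ) {y : ℝ → ℍ} (h : Per y γ T) :
    jet y T = (((γ • y 0 : ℍ) : ℂ), dk γ (y 0) (vel y 0)) := by
  have e1 := h.2 0
  have e2 := h.vel F 0
  rw [zero_add] at e1 e2
  rw [jet, e1, e2]

theorem CP.ctrl_b (F : Deck Γ) (hL : Tonelli Γ L) (hc : c ∈ Coh Γ) (h : CP L c x γ T)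
    {l : Ultrafilter ℕ} (hl : (l : Filter ℕ) ≤ atTop) {f g : ℕ → ℂ → ℝ} (hf : ∀ n, C2 Γ (f n))
    (hg : ∀ n, C2 Γ (g n)) (hf0 : ToZero atTop f) (hg0 : ToZero atTop g) {cs : ℕ → Γ → ℝ}
    (hcs : ∀ n, cs n ∈ Coh Γ) (hcl : CLim l c cs) {y₁ y₂ : ℕ → ℝ → ℍ} {T₁ T₂ d : ℕ → ℝ}
    (h₁ : ∀ n, CP (addP L (f n)) (cs n) (y₁ n) γ (T₁ n))
    (h₂ : ∀ n, CP (addP L (f n + g n)) (cs n) (y₂ n) γ (T₂ n))
    (t₁ : Tendsto T₁ l (𝓝 T)) (t₂ : Tendsto T₂ l (𝓝 T))
    (p₁ : Tendsto (fun n => y₁ n 0) l (𝓝 (x 0))) (p₂ : Tendsto (fun n => y₂ n 0) l (𝓝 (x 0)))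
    (hd : ∀ n, 0 < d n)
    (h0 : Tendsto (fun n => ‖jet (y₁ n) 0 - jet (y₂ n) 0‖ / d n) l (𝓝 0)) {C : ℝ}
    (hC : ∀ᶠ n in l, |T₁ n - T₂ n| ≤ C * d n ∧
      ∀ t ∈ Set.Icc 0 (T + 1), ‖jet (y₁ n) t - jet (y₂ n) t‖ ≤ C * d n)
    {ζ : ℝ → ℂ} (hJ : Jac L x ζ) (hE : En L x ζ) :
    Tendsto (fun n => (∫ t in (0 : ℝ)..T₂ n, fderiv ℝ (g n) (y₂ n t) (ζ t)) / d n) l (𝓝 0) := by
  have S1 : LSeq Γ l L fun n => addP L (f n) := (lseq_of_toZero F hL hf hf0).mono hl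
  have S2 : LSeq Γ l L fun n => addP L (f n + g n) :=
    (lseq_of_toZero F hL (fun n => (hf n).add (hg n)) (ToZero.add hf hg hf0 hg0)).mono hl
  have hx := h.reg F hL
  have u1 := S1.uw_cp F hc hcs hcl h h₁ t₁ p₁
  have u2 := S2.uw_cp F hc hcs hcl h h₂ t₂ p₂
  have r1 : ∀ n, Reg (addP L (f n)) (y₁ n) := fun n => (h₁ n).reg F (S1.tons n)
  have r2 : ∀ n, Reg (addP L (f n + g n)) (y₂ n) := fun n => (h₂ n).reg F (S2.tons n)
  have m2 : ∀ n t, HasDerivAt (mom (addP L (f n)) (y₂ n))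
      (frc (addP L (f n)) (y₂ n) t + fderiv ℝ (g n) (y₂ n t)) t := fun n t => by
    have := (r2 n).hasDerivAt_mom t
    obtain ⟨e1, e2⟩ := t18diff_mom (S1.tons n).smooth (hg n).1 (y₂ n)
    rwa [← addP_addP, e1, e2] at this
  have c0 : Continuous ζ := continuous_iff_continuousAt.2 fun t => (hJ t).1.continuousAt
  have c0' : Continuous (deriv ζ) := JacA.contDeriv (hx.coef hL) hJ
  have dP : ∀ t, HasDerivAt (dmom L x ζ) (Dx (D2 L (jet x t) (ζ t, deriv ζ t))) t :=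
    fun t => (hJ t).2
  have cP : Continuous (dmom L x ζ) := continuous_iff_continuousAt.2 fun t => (dP t).continuousAt
  have c1 : ∀ n, Continuous fun s => fderiv ℝ (g n) (y₂ n s) (ζ s) := fun n =>
    ((t9tay_cont isOpen_HP (hg n).1).2.1.comp_continuous (continuous_coe.comp (r2 n).continuous)
      fun s => (y₂ n s).im_pos).clm_apply c0
  have hT := h.per.1
  -- the Wronskian
  have dG : ∀ n t, HasDerivAt (fun t => (mom (addP L (f n)) (y₂ n) t -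
      mom (addP L (f n)) (y₁ n) t) (ζ t) - dmom L x ζ t ((y₂ n t : ℂ) - y₁ n t) -
      ∫ s in (0 : ℝ)..t, fderiv ℝ (g n) (y₂ n s) (ζ s))
      ((fderiv ℝ (addP L (f n)) (jet (y₂ n) t) - fderiv ℝ (addP L (f n)) (jet (y₁ n) t) -
        D2 L (jet x t) (jet (y₂ n) t - jet (y₁ n) t)) (ζ t, deriv ζ t)) t := fun n t => by
    refine ((((((m2 n t).fun_sub ((r1 n).hasDerivAt_mom t)).clm_apply (hJ t).1.hasDerivAt).fun_sub
      ((dP t).clm_apply (((r2 n).hasDerivAt t).fun_sub ((r1 n).hasDerivAt t)))).fun_sub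
      ((c1 n).integral_hasStrictDerivAt 0 t).hasDerivAt)).congr_deriv ?_
    rw [_root_.sub_apply (_ - _), D2_symm hL.smooth (jet_mem x t) (_ - _),
      t34b_split (D2 L (jet x t) (ζ t, deriv ζ t)), _root_.sub_apply (fderiv ℝ _ _),
      t34b_split (fderiv ℝ (addP L (f n)) (jet (y₂ n) t)),
      t34b_split (fderiv ℝ (addP L (f n)) (jet (y₁ n) t))]
    simp only [_root_.sub_apply, _root_.add_apply, mom, frc, dmom, jet,
      Prod.mk_sub_mk]
    ring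
  choose s hs hs' hs'' using fun n => t34b_mvt (dG n) 0 (T₂ n)
  have dH : ∀ n r, HasDerivAt (fun r => mom (addP L (f n)) (y₁ n) r (ζ (T₂ n)) -
      dmom L x ζ (T₂ n) (y₁ n r)) (frc (addP L (f n)) (y₁ n) r (ζ (T₂ n)) -
      dmom L x ζ (T₂ n) (vel (y₁ n) r)) r := fun n r => by
    refine ((((r1 n).hasDerivAt_mom r).clm_apply (hasDerivAt_const r (ζ (T₂ n)))).fun_sub
      ((dmom L x ζ (T₂ n)).hasFDerivAt.comp_hasDerivAt r ((r1 n).hasDerivAt r))).congr_deriv ?_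
    rw [map_zero, add_zero]
  choose σ hσ _ hσ' using fun n => t34b_mvt (dH n) (T₁ n) (T₂ n)
  have j10 := u1.tendsto hx.contJet (tendsto_const_nhds (x := (0 : ℝ)))
  have j20 := u2.tendsto hx.contJet (tendsto_const_nhds (x := (0 : ℝ)))
  have z1 := (c0.tendsto T).comp t₂
  have z2 := (cP.tendsto T).comp t₂
  -- the term at time zero
  have k1 := t34b_small S1 (jet_mem x 0) j20 j10 (tendsto_const_nhds (x := ζ 0))
    (tendsto_const_nhds (x := dmom L x ζ 0)) hd (by simpa only [norm_sub_rev] using h0)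
  -- the term at the periods
  have k2 := t34b_small S1 (jet_mem x T) (u2.tendsto hx.contJet t₂) (u1.tendsto hx.contJet t₁)
    z1 z2 hd (by
      obtain ⟨M, hM⟩ := t34b_lip F γ (dist (x 0) I + 1) (‖vel x 0‖ + 1)
      refine t34b_sq (K := M) hd h0 ?_
      filter_upwards [t9exp_ball p₁, t9exp_ball p₂,
        ((continuous_snd.tendsto _).comp j20).norm.eventually (eventually_le_nhds (lt_add_one _))]
        with n a1 a2 a3
      rw [abs_norm, norm_sub_rev, t34b_per F (h₁ n).per, t34b_per F (h₂ n).per]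
      exact hM _ _ a1 a2 _ _ a3)
  -- the difference of the periods
  have k3 : Tendsto (fun n => (frc (addP L (f n)) (y₁ n) (σ n) (ζ (T₂ n)) -
      dmom L x ζ (T₂ n) (vel (y₁ n) (σ n))) * (T₂ n - T₁ n) / d n) l (𝓝 0) := by
    have a1 : Tendsto σ l (𝓝 T) := by
      have a2 : Tendsto (fun n => σ n - T₁ n) l (𝓝 0) :=
        squeeze_zero_norm (a := fun n => |T₂ n - T₁ n|) hσ (by simpa using (t₂.sub t₁).abs)
      simpa using a2.add t₁
    have a2 := u1.tendsto hx.contJet a1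
    have a3 := t9exp_app (t9exp_tend S1 (jet_mem x T) a2).1
      (z1.prodMk_nhds (tendsto_const_nhds (x := (0 : ℂ))))
    have a4 := a3.sub (t9exp_app z2 ((continuous_snd.tendsto _).comp a2))
    have a6 : fderiv ℝ L (jet x T) (ζ T, 0) - dmom L x ζ T (jet x T).2 = 0 :=
      sub_eq_zero.2 (hE T).symm
    rw [a6] at a4
    have a5 : Tendsto (fun n => frc (addP L (f n)) (y₁ n) (σ n) (ζ (T₂ n)) -
        dmom L x ζ (T₂ n) (vel (y₁ n) (σ n))) l (𝓝 0) := a4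
    refine squeeze_zero_norm' (a := fun n => |frc (addP L (f n)) (y₁ n) (σ n) (ζ (T₂ n)) -
        dmom L x ζ (T₂ n) (vel (y₁ n) (σ n))| * C) (hC.mono fun n hn => ?_)
      (by simpa using a5.abs.mul_const C)
    rw [Real.norm_eq_abs, mul_div_assoc, abs_mul, abs_div, abs_of_pos (hd n)]
    refine mul_le_mul_of_nonneg_left ?_ (abs_nonneg _)
    rw [div_le_iff₀ (hd n), abs_sub_comm]
    exact hn.1
  -- the remainder
  have k4 : Tendsto (fun n => (fderiv ℝ (addP L (f n)) (jet (y₂ n) (s n)) -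
      fderiv ℝ (addP L (f n)) (jet (y₁ n) (s n)) - D2 L (jet x (s n))
        (jet (y₂ n) (s n) - jet (y₁ n) (s n))) (ζ (s n), deriv ζ (s n)) * (T₂ n - 0) / d n) l
      (𝓝 0) := by
    obtain ⟨B, hB⟩ := (isCompact_Icc (a := -(T + 1)) (b := T + 1)).exists_bound_of_continuousOn
      (c0.prodMk c0').continuousOn
    refine t9exp_lim fun ε hε => ?_
    have K0 : 0 < |C| * |B| * (T + 1) + 1 := by positivity
    obtain ⟨δ, hδ, h4⟩ := t9exp_near S1 (t9exp_cpt hx (T + 1)).1 (t9exp_cpt hx (T + 1)).2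
      (div_pos hε K0)
    filter_upwards [h4, u1 (T + 1) δ hδ, u2 (T + 1) δ hδ, hC,
      t₂.eventually (eventually_le_nhds (lt_add_one T))] with n a1 a2 a3 a4 a5
    have b0 := (h₂ n).per.1
    have b1 : |s n| ≤ T + 1 := by
      have := hs n
      rw [sub_zero, sub_zero, abs_of_pos b0] at this
      exact this.trans a5
    have b2 : 0 ≤ s n := by simpa only [min_eq_left b0.le] using hs' n
    have b3 := t34b_mvi (S1.tons n).smooth (A := D2 L (jet x (s n))) (fun r hr =>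
      ⟨(a1 _ ⟨s n, abs_le.1 b1, rfl⟩ r hr).1, (a1 _ ⟨s n, abs_le.1 b1, rfl⟩ r hr).2.2⟩)
      (a3 _ b1) (a2 _ b1)
    have b4 : ‖jet (y₂ n) (s n) - jet (y₁ n) (s n)‖ ≤ |C| * d n := by
      rw [norm_sub_rev]
      exact (a4.2 _ ⟨b2, (abs_le.1 b1).2⟩).trans
        (mul_le_mul_of_nonneg_right (le_abs_self C) (hd n).le)
    have b5 := b3.trans (mul_le_mul_of_nonneg_left b4 (div_pos hε K0).le)
    have d0 := hd n
    have b6 := (ContinuousLinearMap.le_opNorm _ (ζ (s n), deriv ζ (s n))).trans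
      (mul_le_mul b5 ((hB _ (abs_le.1 b1)).trans (le_abs_self B)) (norm_nonneg _) (by positivity))
    rw [sub_zero, sub_zero, norm_div, norm_mul, Real.norm_of_nonneg b0.le,
      Real.norm_of_nonneg d0.le, div_le_iff₀ d0]
    refine (mul_le_mul b6 a5 b0.le (by positivity)).trans ?_
    have e : ε / (|C| * |B| * (T + 1) + 1) * (|C| * d n) * |B| * (T + 1) =
        ε * d n * (|C| * |B| * (T + 1) / (|C| * |B| * (T + 1) + 1)) := by ring
    rw [e]
    exact mul_le_of_le_one_right (by positivity) ((div_le_one K0).2 (by linarith))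
  have k5 := ((k2.sub k3).sub k1).sub k4
  simp only [sub_zero] at k5
  refine k5.congr fun n => ?_
  rw [← sub_div, ← sub_div, ← sub_div]
  congr 1
  have e1 := hs'' n
  have e2 := hσ' n
  rw [intervalIntegral.integral_same, sub_zero, sub_zero] at e1
  rw [← e1, ← e2]
  simp only [_root_.sub_apply, map_sub, mom, jet, Function.comp_apply]
  ring

end Pool.Agent.Lib.MP_5bb885_an.Gen
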