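import Pool.Agent.Lib.MP_5bb885_an.T34CtlA
import Pool.Agent.Lib.MP_5bb885_an.T34CtlB

namespace Pool.Agent.Lib.MP_5bb885_an.Gen

open UpperHalfPlane MeasureTheory Filter Topology

variable {Γ : Type} [Group Γ] [MulAction Γ ℍ] {L : ℂ × ℂ → ℝ} {c : Γ → ℝ} {x : ℝ → ℍ} {γ : Γ}
  {T : ℝ} {η : ℝ → ℂ}

lemma t34c_c2 {φ : Fin 3 → ℂ → ℝ} (hφ : ∀ j, C2 Γ (φ j)) (α : Fin 3 → ℝ) :
    C2 Γ (∑ j, α j • φ j) := by
  rw [Fin.sum_univ_three]
  exact (((hφ 0).smul _).add ((hφ 1).smul _)).add ((hφ 2).smul _)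

lemma t34c_toZero {φ : Fin 3 → ℂ → ℝ} (hφ : ∀ j, C2 Γ (φ j)) {α : ℕ → Fin 3 → ℝ}
    (hα : Tendsto α atTop (𝓝 0)) : ToZero atTop fun n => ∑ j, α n j • φ j := by
  have h : ∀ j, ToZero atTop fun n => α n j • φ j := fun j =>
    (hφ j).toZero (((continuous_apply j).tendsto _).comp hα)
  simp only [Fin.sum_univ_three]
  exact ToZero.add (fun n => ((hφ 0).smul _).add ((hφ 1).smul _)) (fun n => (hφ 2).smul _)
    (ToZero.add (fun n => (hφ 0).smul _) (fun n => (hφ 1).smul _) (h 0) (h 1)) (h 2)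

lemma t34c_val {φ : Fin 3 → ℂ → ℝ} (α : Fin 3 → ℝ) (g : ℂ → ℝ) (z : ℂ) :
    (∑ j, α j • φ j + g) z = ∑ j, α j * φ j z + g z := by
  simp only [Pi.add_apply, Finset.sum_apply, Pi.smul_apply, smul_eq_mul]

lemma t34c_fd {φ : Fin 3 → ℂ → ℝ} (hφ : ∀ j, C2 Γ (φ j)) (α : Fin 3 → ℝ) {g : ℂ → ℝ}
    (hg : C2 Γ g) (z : ℍ) : fderiv ℝ (∑ j, α j • φ j + g) z =
      ∑ j, α j • fderiv ℝ (φ j) z + fderiv ℝ g z :=
  ((HasFDerivAt.sum fun j _ => (t9tay_has isOpen_HP (hφ j).1 z.im_pos).1.const_smul (α j)).add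
    (t9tay_has isOpen_HP hg.1 z.im_pos).1).fderiv

lemma t34c_grad (F : Deck Γ) {g : ℂ → ℝ} (hg : C2 Γ g) :
    ∃ Λ : ℝ, 0 ≤ Λ ∧ ∀ z : ℍ, |g z| ≤ Λ ∧ ‖fderiv ℝ g z‖ * z.im ≤ Λ := by
  obtain ⟨R, hR⟩ := F.cpt
  obtain ⟨M, hM0, hM⟩ := t9tay_bd isOpen_HP hg.1 (isCompact_KB R) (KB_sub _)
  obtain ⟨C, hC1, hC⟩ := KB_cmp R
  refine ⟨M * C, by positivity, fun z => ?_⟩
  obtain ⟨δ, hδ⟩ := hR z
  obtain ⟨m1, m2, -⟩ := hM _ (mem_KB.2 hδ)
  constructor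
  · rw [← hg.2 δ z]
    nlinarith
  · exact (t18diff_le F hg δ z).trans
      (mul_le_mul m2 (hC _ _ hδ hδ).2.2.2 (δ • z).im_pos.le hM0)

lemma t34c_bd (F : Deck Γ) {φ : Fin 3 → ℂ → ℝ} (hφ : ∀ j, C2 Γ (φ j)) :
    ∃ Λ : ℝ, 0 ≤ Λ ∧ ∀ (α : Fin 3 → ℝ) (g : ℂ → ℝ), C2 Γ g → ∀ z : ℍ,
      |(∑ j, α j • φ j + g) z| ≤ Λ * ‖α‖ + |g z| ∧
      ‖fderiv ℝ (∑ j, α j • φ j + g) z‖ * z.im ≤ Λ * ‖α‖ + ‖fderiv ℝ g z‖ * z.im := by
  choose Λ h0 hΛ using fun j => t34c_grad F (hφ j)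
  refine ⟨∑ j, Λ j, Finset.sum_nonneg fun j _ => h0 j, fun α g hg z => ?_⟩
  have hα : ∀ j, |α j| ≤ ‖α‖ := fun j => norm_le_pi_norm α j
  constructor
  · rw [t34c_val]
    refine (abs_add_le _ _).trans (add_le_add_left ?_ _)
    refine (Finset.abs_sum_le_sum_abs _ _).trans ?_
    rw [Finset.sum_mul]
    refine Finset.sum_le_sum fun j _ => ?_
    rw [abs_mul, mul_comm]
    exact mul_le_mul (hΛ j z).1 (hα j) (abs_nonneg _) (h0 j)
  · rw [t34c_fd hφ α hg]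
    refine (mul_le_mul_of_nonneg_right ((norm_add_le _ _).trans
      (add_le_add_left (norm_sum_le _ _) _)) z.im_pos.le).trans ?_
    rw [add_mul, Finset.sum_mul, Finset.sum_mul]
    refine add_le_add_left (Finset.sum_le_sum fun j _ => ?_) _
    rw [norm_smul, Real.norm_eq_abs, mul_assoc, mul_comm]
    exact mul_le_mul (hΛ j z).2 (hα j) (abs_nonneg _) (h0 j)

lemma t34c_cont {g : ℂ → ℝ} (hg : C2 Γ g) {y : ℝ → ℍ} (hy : Continuous y) :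
    (Continuous fun t => g (y t)) ∧ Continuous fun t => fderiv ℝ g (y t) :=
  ⟨(t9tay_cont isOpen_HP hg.1).1.comp_continuous (continuous_coe.comp hy) fun t => (y t).im_pos,
    (t9tay_cont isOpen_HP hg.1).2.1.comp_continuous (continuous_coe.comp hy)
      fun t => (y t).im_pos⟩

lemma t34c_int {u : Fin 3 → ℝ → ℝ} {v : ℝ → ℝ} (hu : ∀ j, Continuous (u j)) (hv : Continuous v)
    (α : Fin 3 → ℝ) (S d : ℝ) : (∫ t in (0 : ℝ)..S, (∑ j, α j * u j t + v t)) / d =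
      ∑ j, (d⁻¹ • α) j * (∫ t in (0 : ℝ)..S, u j t) + (∫ t in (0 : ℝ)..S, v t) / d := by
  have h1 : ∀ j, Continuous fun t => α j * u j t := fun j => continuous_const.mul (hu j)
  have h2 : Continuous fun t => ∑ j, α j * u j t := continuous_finsetSum _ fun j _ => h1 j
  rw [intervalIntegral.integral_add (h2.intervalIntegrable _ _) (hv.intervalIntegrable _ _),
    intervalIntegral.integral_finsetSum fun j _ => (h1 j).intervalIntegrable _ _, add_div,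
    Finset.sum_div]
  congr 1
  refine Finset.sum_congr rfl fun j _ => ?_
  rw [intervalIntegral.integral_const_mul, Pi.smul_apply, smul_eq_mul]
  ring

lemma t34c_lim {l : Filter ℕ} {β : ℕ → Fin 3 → ℝ} {a : Fin 3 → ℝ} (hβ : Tendsto β l (𝓝 a))
    {u : Fin 3 → ℕ → ℝ} {u₀ : Fin 3 → ℝ} (hu : ∀ j, Tendsto (u j) l (𝓝 (u₀ j))) {r : ℕ → ℝ}
    (hr : Tendsto r l (𝓝 0)) :
    Tendsto (fun n => ∑ j, β n j * u j n + r n) l (𝓝 (∑ j, a j * u₀ j)) := by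
  have := (tendsto_finsetSum Finset.univ fun j _ =>
    (((continuous_apply j).tendsto _).comp hβ).mul (hu j)).add hr
  rwa [add_zero] at this

lemma t34c_small {l : Filter ℕ} {r E d : ℕ → ℝ} {B : ℝ} (hd : ∀ n, 0 < d n)
    (hE : Tendsto (fun n => E n / d n) l (𝓝 0)) (h : ∀ᶠ n in l, |r n| ≤ B * E n) :
    Tendsto (fun n => r n / d n) l (𝓝 0) := by
  have h1 := hE.const_mul B
  rw [mul_zero] at h1
  refine squeeze_zero_norm' ?_ h1
  filter_upwards [h] with n hn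
  rw [Real.norm_eq_abs, abs_div, abs_of_pos (hd n), ← mul_div_assoc]
  exact div_le_div_of_nonneg_right hn (hd n).le

lemma t34c_lim0 {l : Filter ℕ} {g : ℂ → ℝ} (hg : C2 Γ g) {ys : ℕ → ℝ → ℍ} {Ts : ℕ → ℝ}
    (hx : Continuous (jet x)) (hy : ∀ n, Continuous (jet (ys n)))
    (hu : UW l (fun n => jet (ys n)) (jet x)) (hT : Tendsto Ts l (𝓝 T)) :
    Tendsto (fun n => ∫ t in (0 : ℝ)..Ts n, g (ys n t)) l (𝓝 (∫ t in (0 : ℝ)..T, g (x t))) := by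
  have hφ : ContinuousOn (fun p : ℂ × ℂ => g p.1) TH :=
    hg.1.continuousOn.comp continuous_fst.continuousOn fun p hp => hp
  exact (hu.comp hx isOpen_TH (t18cone_mem x) hφ).integral
    (fun n => hφ.comp_continuous (hy n) (t18cone_mem _))
    (hφ.comp_continuous hx (t18cone_mem _)) hT

lemma t34c_uw (l : Filter ℕ) (ζ : ℝ → ℂ) : UW l (fun _ => ζ) ζ := fun _ _ hε =>
  Eventually.of_forall fun _ _ _ => by simpa using hε.le

lemma t34c_lim1 {l : Filter ℕ} {g : ℂ → ℝ} (hg : C2 Γ g) {ys : ℕ → ℝ → ℍ} {Ts : ℕ → ℝ}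
    (hx : Continuous (jet x)) (hy : ∀ n, Continuous (jet (ys n))) {ζ : ℝ → ℂ} (hζ : Continuous ζ)
    (hu : UW l (fun n => jet (ys n)) (jet x)) (hT : Tendsto Ts l (𝓝 T)) :
    Tendsto (fun n => ∫ t in (0 : ℝ)..Ts n, fderiv ℝ g (ys n t) (ζ t)) l
      (𝓝 (∫ t in (0 : ℝ)..T, fderiv ℝ g (x t) (ζ t))) := by
  have h0 : ContinuousOn (fun p : (ℂ × ℂ) × ℂ => fderiv ℝ g p.1.1) (Prod.fst ⁻¹' TH) :=
    (t9tay_cont isOpen_HP hg.1).2.1.comp continuous_fst.fst.continuousOn fun p hp => hp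
  have hφ : ContinuousOn (fun p : (ℂ × ℂ) × ℂ => fderiv ℝ g p.1.1 p.2) (Prod.fst ⁻¹' TH) :=
    h0.clm_apply continuous_snd.continuousOn
  exact ((t18cone_prod hu (t34c_uw l ζ)).comp (hx.prodMk hζ) (isOpen_TH.preimage continuous_fst)
    (t18cone_mem x) hφ).integral
    (fun n => hφ.comp_continuous ((hy n).prodMk hζ) (t18cone_mem _))
    (hφ.comp_continuous (hx.prodMk hζ) (t18cone_mem _)) hT

lemma t34c_ratio {l : Filter ℕ} {ys : ℕ → ℝ → ℍ} (hx : Continuous (jet x)) {ζ : ℝ → ℂ}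
    (hζ : Continuous ζ) (hu : UW l (fun n => jet (ys n)) (jet x)) (W : ℝ) :
    ∃ B : ℝ, 0 ≤ B ∧ ∀ᶠ n in l, ∀ t, |t| ≤ W → ‖ζ t‖ ≤ B * (ys n t).im := by
  have hφ : ContinuousOn (fun p : (ℂ × ℂ) × ℂ => ‖p.2‖ / p.1.1.im) (Prod.fst ⁻¹' TH) :=
    continuous_snd.norm.continuousOn.div
      (Complex.continuous_im.comp continuous_fst.fst).continuousOn fun p hp => ne_of_gt hp
  have h1 := (t18cone_prod hu (t34c_uw l ζ)).comp (hx.prodMk hζ)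
    (isOpen_TH.preimage continuous_fst) (t18cone_mem x) hφ W 1 one_pos
  obtain ⟨B, hB⟩ := (isCompact_Icc (a := -W) (b := W)).exists_bound_of_continuousOn
    (hφ.comp_continuous (hx.prodMk hζ) (t18cone_mem _)).continuousOn
  refine ⟨|B| + 1, by positivity, ?_⟩
  filter_upwards [h1] with n hn t ht
  have h2 : |‖ζ t‖ / (ys n t).im - ‖ζ t‖ / (x t).im| ≤ 1 := hn t ht
  have h3 : |‖ζ t‖ / (x t).im| ≤ B := hB t (abs_le.1 ht)
  rw [← div_le_iff₀ (ys n t).im_pos]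
  linarith [(abs_le.1 h2).2, (abs_le.1 h3).2, le_abs_self B]

theorem CP.ctrl (F : Deck Γ) (hL : Tonelli Γ L) (hc : c ∈ Coh Γ) (h : CP L c x γ T)
    (hn : ¬Ori γ) {φ : Fin 3 → ℂ → ℝ} (hφ : ∀ j, C2 Γ (φ j)) (h0 : ∀ j, φ j (x 0) = 0)
    (hN : ∀ α : Fin 3 → ℝ, ∑ j, α j * ∫ t in (0 : ℝ)..T, φ j (x t) = 0 →
      (∀ ζ, Jac L x ζ → En L x ζ →
        ∑ j, α j * ∫ t in (0 : ℝ)..T, fderiv ℝ (φ j) (x t) (ζ t) = 0) → α = 0) :
    ∃ C δ : ℝ, 0 ≤ C ∧ 0 < δ ∧ ∀ f g : ℂ → ℝ, C2 Γ f → C2 Γ g → Sm δ f → Sm δ g →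
      ∀ α : Fin 3 → ℝ, ‖α‖ ≤ δ →
      ∀ c' ∈ Coh Γ, (∀ (γ' : Γ) (z : ℍ), |c' γ' - c γ'| ≤ δ * dist z (γ' • z)) →
      ∀ (y₁ y₂ : ℝ → ℍ) (T₁ T₂ E : ℝ), CP (addP L f) c' y₁ γ T₁ →
        CP (addP L (f + (∑ j, α j • φ j + g))) c' y₂ γ T₂ →
        |T₁ - T| ≤ δ → |T₂ - T| ≤ δ → dist (y₁ 0) (x 0) ≤ δ → dist (y₂ 0) (x 0) ≤ δ →
        (((y₁ 0 : ℂ) - y₂ 0) / vel x 0).re = 0 → (∀ t, |g (y₁ t)| ≤ E ∧ |g (y₂ t)| ≤ E) →
        ∫ t in (0 : ℝ)..T₂, ‖fderiv ℝ g (y₂ t)‖ * (y₂ t).im ≤ E →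
        ‖α‖ ≤ C * (‖jet y₁ 0 - jet y₂ 0‖ + E) ∧ |T₁ - T₂| ≤ C * (‖α‖ + E) ∧
          ∀ t ∈ Set.Icc 0 (T + 1), ‖jet y₁ t - jet y₂ t‖ ≤ C * (‖α‖ + E) := by
  by_contra hcon
  have hT := h.per.1
  have key : ∀ n : ℕ, ∃ (f g : ℂ → ℝ) (α : Fin 3 → ℝ) (c' : Γ → ℝ) (y₁ y₂ : ℝ → ℍ)
      (T₁ T₂ E : ℝ), C2 Γ f ∧ C2 Γ g ∧ Sm (1 / (n + 1)) f ∧ Sm (1 / (n + 1)) g ∧ c' ∈ Coh Γ ∧
      (∀ (γ' : Γ) (z : ℍ), |c' γ' - c γ'| ≤ 1 / (n + 1) * dist z (γ' • z)) ∧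
      CP (addP L f) c' y₁ γ T₁ ∧ CP (addP L (f + (∑ j, α j • φ j + g))) c' y₂ γ T₂ ∧
      |T₁ - T| ≤ 1 / (n + 1) ∧ |T₂ - T| ≤ 1 / (n + 1) ∧ dist (y₁ 0) (x 0) ≤ 1 / (n + 1) ∧
      dist (y₂ 0) (x 0) ≤ 1 / (n + 1) ∧ (((y₁ 0 : ℂ) - y₂ 0) / vel x 0).re = 0 ∧
      (∀ t, |g (y₁ t)| ≤ E ∧ |g (y₂ t)| ≤ E) ∧
      (∫ t in (0 : ℝ)..T₂, ‖fderiv ℝ g (y₂ t)‖ * (y₂ t).im ≤ E) ∧ ‖α‖ ≤ 1 / (n + 1) ∧
      ¬(‖α‖ ≤ n * (‖jet y₁ 0 - jet y₂ 0‖ + E) ∧ |T₁ - T₂| ≤ n * (‖α‖ + E) ∧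
        ∀ t ∈ Set.Icc 0 (T + 1), ‖jet y₁ t - jet y₂ t‖ ≤ n * (‖α‖ + E)) := by
    intro n
    by_contra hk
    refine hcon ⟨n, 1 / (n + 1), n.cast_nonneg, by positivity, ?_⟩
    intro f g a1 a2 a3 a4 α a16 c' a5 a6 y₁ y₂ T₁ T₂ E a7 a8 a9 a10 a11 a12 a13 a14 a15
    by_contra h'
    exact hk ⟨f, g, α, c', y₁, y₂, T₁, T₂, E, a1, a2, a3, a4, a5, a6, a7, a8, a9, a10, a11, a12,
      a13, a14, a15, a16, h'⟩
  choose f g α cs y₁ y₂ T₁ T₂ E a1 a2 a3 a4 a5 a6 a7 a8 a9 a10 a11 a12 a13 a14 a15 a16 a17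
    using key
  have hE0 : ∀ n, 0 ≤ E n := fun n => (abs_nonneg _).trans (a14 n 0).1
  have hα0 : Tendsto α atTop (𝓝 0) := t18stab_tend fun n => by simpa using a16 n
  have hG : ∀ n, C2 Γ (∑ j, α n j • φ j + g n) := fun n => (t34c_c2 hφ _).add (a2 n)
  have hf0 := toZero_of_sm a3
  have hG0 : ToZero atTop fun n => ∑ j, α n j • φ j + g n :=
    ToZero.add (fun n => t34c_c2 hφ _) a2 (t34c_toZero hφ hα0) (toZero_of_sm a4)
  have r₁ := fun n => (a7 n).reg F (hL.add F (a1 n))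
  have r₂ := fun n => (a8 n).reg F (hL.add F ((a1 n).add (hG n)))
  have hT2 : ∀ n, 0 ≤ T₂ n ∧ T₂ n ≤ T + 1 := fun n => ⟨(a8 n).per.1.le, by
    have h1 : (1 : ℝ) / (n + 1) ≤ 1 := by
      rw [div_le_one (by positivity)]
      linarith [(n.cast_nonneg : (0 : ℝ) ≤ n)]
    linarith [(abs_le.1 (a10 n)).2]⟩
  have hT1 : ∀ n, 0 ≤ T₁ n ∧ T₁ n ≤ T + 1 := fun n => ⟨(a7 n).per.1.le, by
    have h1 : (1 : ℝ) / (n + 1) ≤ 1 := by
      rw [div_le_one (by positivity)]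
      linarith [(n.cast_nonneg : (0 : ℝ) ≤ n)]
    linarith [(abs_le.1 (a9 n)).2]⟩
  obtain ⟨Λ, hΛ0, hΛ⟩ := t34c_bd F hφ
  obtain ⟨C₀, δ₀, hC₀, hδ₀, hst⟩ := CP.stab F hL hc h hn
  obtain ⟨C, hC0, hC⟩ : ∃ C : ℝ, 0 ≤ C ∧ ∀ᶠ n in atTop, |T₁ n - T₂ n| ≤ C * (‖α n‖ + E n) ∧
      ∀ t ∈ Set.Icc 0 (T + 1), ‖jet (y₁ n) t - jet (y₂ n) t‖ ≤ C * (‖α n‖ + E n) := by
    refine ⟨C₀ * (Λ * (T + 2) + 1), by positivity, ?_⟩
    filter_upwards [hf0.sm hδ₀, hG0.sm hδ₀,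
      tendsto_one_div_add_atTop_nhds_zero_nat.eventually (ge_mem_nhds hδ₀)] with n b1 b2 b3
    have hp : 0 ≤ Λ * ‖α n‖ := by positivity
    have hp' : 0 ≤ Λ * ‖α n‖ * T := by positivity
    have e1 : ∀ t, |(∑ j, α n j • φ j + g n) (y₁ n t)| ≤ Λ * ‖α n‖ * (T + 2) + E n ∧
        |(∑ j, α n j • φ j + g n) (y₂ n t)| ≤ Λ * ‖α n‖ * (T + 2) + E n := fun t => by
      have := (hΛ (α n) (g n) (a2 n) (y₁ n t)).1
      have := (hΛ (α n) (g n) (a2 n) (y₂ n t)).1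
      have := a14 n t
      constructor <;> nlinarith
    have him : Continuous fun t => (y₂ n t).im := continuous_im.comp (r₂ n).continuous
    have c1 : Continuous fun t =>
        ‖fderiv ℝ (∑ j, α n j • φ j + g n) (y₂ n t)‖ * (y₂ n t).im :=
      (t34c_cont (hG n) (r₂ n).continuous).2.norm.mul him
    have c2 : Continuous fun t => ‖fderiv ℝ (g n) (y₂ n t)‖ * (y₂ n t).im :=
      (t34c_cont (a2 n) (r₂ n).continuous).2.norm.mul him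
    have c3 : Continuous fun t => Λ * ‖α n‖ + ‖fderiv ℝ (g n) (y₂ n t)‖ * (y₂ n t).im :=
      continuous_const.add c2
    have e2 : ∫ t in (0 : ℝ)..T₂ n, ‖fderiv ℝ (∑ j, α n j • φ j + g n) (y₂ n t)‖ * (y₂ n t).im ≤
        Λ * ‖α n‖ * (T + 2) + E n := by
      refine (intervalIntegral.integral_mono_on (hT2 n).1 (c1.intervalIntegrable _ _)
        (c3.intervalIntegrable _ _) fun t _ => (hΛ (α n) (g n) (a2 n) (y₂ n t)).2).trans ?_
      rw [intervalIntegral.integral_add (continuous_const.intervalIntegrable _ _)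
        (c2.intervalIntegrable _ _), intervalIntegral.integral_const, sub_zero, smul_eq_mul]
      have := mul_le_mul_of_nonneg_right (hT2 n).2 hp
      nlinarith [a15 n]
    obtain ⟨s1, s2⟩ := hst (f n) _ (a1 n) (hG n) b1 b2 (cs n) (a5 n)
      (fun γ' z => (a6 n γ' z).trans (mul_le_mul_of_nonneg_right b3 dist_nonneg))
      (y₁ n) (y₂ n) (T₁ n) (T₂ n) _ (a7 n) (a8 n) ((a9 n).trans b3) ((a10 n).trans b3)
      ((a11 n).trans b3) ((a12 n).trans b3) (a13 n) e1 e2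
    have e3 : C₀ * (Λ * ‖α n‖ * (T + 2) + E n) ≤ C₀ * (Λ * (T + 2) + 1) * (‖α n‖ + E n) := by
      rw [mul_assoc C₀]
      refine mul_le_mul_of_nonneg_left ?_ hC₀
      have : 0 ≤ Λ * (T + 2) * E n := by have := hE0 n; positivity
      nlinarith [norm_nonneg (α n)]
    exact ⟨s1.trans e3, fun t ht => (s2 t ht).trans e3⟩
  have hbig : ∀ᶠ n : ℕ in atTop, n * (‖jet (y₁ n) 0 - jet (y₂ n) 0‖ + E n) < ‖α n‖ := by
    filter_upwards [hC, tendsto_natCast_atTop_atTop.eventually_ge_atTop C] with n b1 b2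
    have e : C * (‖α n‖ + E n) ≤ n * (‖α n‖ + E n) :=
      mul_le_mul_of_nonneg_right b2 (add_nonneg (norm_nonneg _) (hE0 n))
    by_contra h'
    exact a17 n ⟨not_lt.1 h', b1.1.trans e, fun t ht => (b1.2 t ht).trans e⟩
  obtain ⟨d, hd0, hd⟩ : ∃ d : ℕ → ℝ, (∀ n, 0 < d n) ∧ ∀ᶠ n : ℕ in atTop, d n = ‖α n‖ := by
    refine ⟨fun n => if 0 < ‖α n‖ then ‖α n‖ else 1, fun n => ?_, ?_⟩
    · dsimp only
      split_ifs with h1
      exacts [h1, one_pos]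
    · filter_upwards [hbig] with n hn'
      refine if_pos (lt_of_le_of_lt ?_ hn')
      have := hE0 n
      positivity
  have hsm : Tendsto (fun n => (‖jet (y₁ n) 0 - jet (y₂ n) 0‖ + E n) / d n) atTop (𝓝 0) := by
    refine squeeze_zero' (Eventually.of_forall fun n =>
      div_nonneg (add_nonneg (norm_nonneg _) (hE0 n)) (hd0 n).le) ?_
      tendsto_one_div_atTop_nhds_zero_nat
    filter_upwards [eventually_gt_atTop 0, hbig, hd] with n b1 b2 b3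
    rw [div_le_div_iff₀ (hd0 n) (Nat.cast_pos.2 b1), b3]
    linarith
  obtain ⟨l, hl⟩ : ∃ l : Ultrafilter ℕ, (l : Filter ℕ) ≤ atTop := ⟨_, Ultrafilter.of_le _⟩
  have hJ0 : Tendsto (fun n => ‖jet (y₁ n) 0 - jet (y₂ n) 0‖ / d n) l (𝓝 0) := by
    refine t34c_small (B := 1) hd0 (hsm.mono_left hl) (Eventually.of_forall fun n => ?_)
    rw [abs_norm]
    linarith [hE0 n]
  have hEd : Tendsto (fun n => E n / d n) l (𝓝 0) := by
    refine t34c_small (B := 1) hd0 (hsm.mono_left hl) (Eventually.of_forall fun n => ?_)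
    rw [abs_of_nonneg (hE0 n)]
    linarith [norm_nonneg (jet (y₁ n) 0 - jet (y₂ n) 0)]
  have hcl : CLim l c cs := fun ε hε => by
    filter_upwards [hl (tendsto_one_div_add_atTop_nhds_zero_nat.eventually (ge_mem_nhds hε))]
      with n hn γ' z
    exact (a6 n γ' z).trans (mul_le_mul_of_nonneg_right hn dist_nonneg)
  have t₁ : Tendsto T₁ l (𝓝 T) := (t18stab_tend a9).mono_left hl
  have t₂ : Tendsto T₂ l (𝓝 T) := (t18stab_tend a10).mono_left hl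
  have p₁ : Tendsto (fun n => y₁ n 0) l (𝓝 (x 0)) := (t18stab_tend a11).mono_left hl
  have p₂ : Tendsto (fun n => y₂ n 0) l (𝓝 (x 0)) := (t18stab_tend a12).mono_left hl
  have hx := h.reg F hL
  have j₁ := ((lseq_of_toZero F hL a1 hf0).mono hl).uw_cp F hc a5 hcl h a7 t₁ p₁
  have j₂ := ((lseq_of_toZero F hL (fun n => (a1 n).add (hG n))
    (ToZero.add a1 hG hf0 hG0)).mono hl).uw_cp F hc a5 hcl h a8 t₂ p₂
  obtain ⟨a, ha1, ha⟩ := (isCompact_sphere (0 : Fin 3 → ℝ) 1).ultrafilter_le_nhds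
    (l.map fun n => (d n)⁻¹ • α n) (by
      rw [Ultrafilter.coe_map, le_principal_iff, mem_map]
      filter_upwards [hl hd] with n hn'
      have hn'' : d n = ‖α n‖ := hn'
      rw [Set.mem_preimage, mem_sphere_zero_iff_norm, norm_smul, Real.norm_eq_abs,
        abs_of_pos (inv_pos.2 (hd0 n)), ← hn'', inv_mul_cancel₀ (hd0 n).ne'])
  replace ha : Tendsto (fun n => (d n)⁻¹ • α n) l (𝓝 a) := ha
  have hP : Tendsto (fun n => (∑ j, α n j • φ j + g n) (y₂ n 0) / d n) l (𝓝 0) := by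
    have e1 := t34c_lim ha (u := fun j n => φ j (y₂ n 0)) (u₀ := fun j => φ j (x 0))
      (fun j => ((hφ j).1.continuousOn.continuousAt
        (isOpen_HP.mem_nhds (x 0).im_pos)).tendsto.comp ((continuous_coe.tendsto _).comp p₂))
      (t34c_small (r := fun n => g n (y₂ n 0)) (B := 1) hd0 hEd
        (Eventually.of_forall fun n => by simpa using (a14 n 0).2))
    simp only [h0, mul_zero, Finset.sum_const_zero] at e1
    refine e1.congr fun n => ?_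
    rw [t34c_val, add_div, Finset.sum_div]
    congr 1
    refine Finset.sum_congr rfl fun j _ => ?_
    rw [Pi.smul_apply, smul_eq_mul]
    ring
  have hI : ∀ (y : ℕ → ℝ → ℍ) (S : ℕ → ℝ), (∀ n, Continuous (y n)) →
      (∀ n, Continuous (jet (y n))) → UW l (fun n => jet (y n)) (jet x) → Tendsto S l (𝓝 T) →
      (∀ n, 0 ≤ S n ∧ S n ≤ T + 1) → (∀ n t, |g n (y n t)| ≤ E n) →
      Tendsto (fun n => (∫ t in (0 : ℝ)..S n, (∑ j, α n j • φ j + g n) (y n t)) / d n) l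
        (𝓝 (∑ j, a j * ∫ t in (0 : ℝ)..T, φ j (x t))) := fun y S b1 b2 b3 b4 b5 b6 => by
    have e1 := t34c_lim ha (fun j => t34c_lim0 (hφ j) hx.contJet b2 b3 b4)
      (t34c_small (r := fun n => ∫ t in (0 : ℝ)..S n, g n (y n t)) (B := T + 1) hd0 hEd
        (Eventually.of_forall fun n => by
          have := intervalIntegral.norm_integral_le_of_norm_le_const (a := 0) (b := S n)
            (f := fun t => g n (y n t)) (C := E n) fun t _ => b6 n t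
          rw [sub_zero, abs_of_nonneg (b5 n).1, Real.norm_eq_abs] at this
          nlinarith [(b5 n).2, hE0 n]))
    refine e1.congr fun n => ?_
    simp only [t34c_val]
    exact (t34c_int (fun j => (t34c_cont (hφ j) (b1 n)).1) (t34c_cont (a2 n) (b1 n)).1 _ _ _).symm
  have I₁ := hI y₁ T₁ (fun n => (r₁ n).continuous) (fun n => (r₁ n).contJet) j₁ t₁ hT1
    fun n t => (a14 n t).1
  have I₂ := hI y₂ T₂ (fun n => (r₂ n).continuous) (fun n => (r₂ n).contJet) j₂ t₂ hT2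
    fun n t => (a14 n t).2
  have hA := fun (ε : ℝ) (hε : 0 < ε) => CP.ctrl_a F hL hc h hl a1 hG hf0 hG0 a5 hcl a7 a8 t₁ t₂
    p₁ p₂ hd0 hJ0 hP hε
  have hS : ∑ j, a j * ∫ t in (0 : ℝ)..T, φ j (x t) = 0 := by
    refine le_antisymm (le_of_forall_pos_le_add fun ε hε => ?_)
      (le_of_forall_pos_le_add fun ε hε => ?_)
    · rw [zero_add]
      exact le_of_tendsto I₂ ((hA ε hε).mono fun n hn' => hn'.2)
    · have := ge_of_tendsto I₁ ((hA ε hε).mono fun n hn' => hn'.1)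
      linarith
  have hC' : ∀ᶠ n in l, |T₁ n - T₂ n| ≤ 2 * C * d n ∧
      ∀ t ∈ Set.Icc 0 (T + 1), ‖jet (y₁ n) t - jet (y₂ n) t‖ ≤ 2 * C * d n := by
    filter_upwards [hl hC, hl hd, hEd.eventually (ge_mem_nhds one_pos)] with n b1 b2 b3
    have b2' : d n = ‖α n‖ := b2
    rw [div_le_one (hd0 n)] at b3
    have e : C * (‖α n‖ + E n) ≤ 2 * C * d n := by
      rw [← b2']
      nlinarith
    exact ⟨b1.1.trans e, fun t ht => (b1.2 t ht).trans e⟩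
  have ha0 := hN a hS fun ζ hJ hE => by
    have hζ : Continuous ζ := continuous_iff_continuousAt.2 fun t => (hJ t).1.continuousAt
    have e0 := CP.ctrl_b F hL hc h hl a1 hG hf0 hG0 a5 hcl a7 a8 t₁ t₂ p₁ p₂ hd0 hJ0 hC' hJ hE
    obtain ⟨B, hB0, hB⟩ := t34c_ratio hx.contJet hζ j₂ (T + 1)
    have e1 := t34c_lim ha
      (fun j => t34c_lim1 (hφ j) hx.contJet (fun n => (r₂ n).contJet) hζ j₂ t₂)
      (t34c_small (r := fun n => ∫ t in (0 : ℝ)..T₂ n, fderiv ℝ (g n) (y₂ n t) (ζ t)) (B := B)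
        hd0 hEd (by
          filter_upwards [hB] with n hn'
          have him : Continuous fun t => (y₂ n t).im := continuous_im.comp (r₂ n).continuous
          have c0 := (t34c_cont (a2 n) (r₂ n).continuous).2
          have c2 := c0.norm.mul him
          refine (intervalIntegral.abs_integral_le_integral_abs (hT2 n).1).trans ?_
          refine (intervalIntegral.integral_mono_on (hT2 n).1
            ((c0.clm_apply hζ).abs.intervalIntegrable _ _)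
            ((continuous_const.mul c2).intervalIntegrable _ _)
            (g := fun t => B * (‖fderiv ℝ (g n) (y₂ n t)‖ * (y₂ n t).im)) fun t ht => ?_).trans ?_
          · have m1 := (fderiv ℝ (g n) (y₂ n t)).le_opNorm (ζ t)
            have m2 := hn' t (by rw [abs_of_nonneg ht.1]; linarith [ht.2, (hT2 n).2])
            rw [Real.norm_eq_abs] at m1
            nlinarith [norm_nonneg (fderiv ℝ (g n) (y₂ n t))]
          · rw [intervalIntegral.integral_const_mul]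
            exact mul_le_mul_of_nonneg_left (a15 n) hB0))
    refine tendsto_nhds_unique (e1.congr fun n => ?_) e0
    simp only [t34c_fd hφ (α n) (a2 n), add_apply, sum_apply, smul_apply, smul_eq_mul]
    exact (t34c_int (fun j => (t34c_cont (hφ j) (r₂ n).continuous).2.clm_apply hζ)
      ((t34c_cont (a2 n) (r₂ n).continuous).2.clm_apply hζ) _ _ _).symm
  rw [ha0, mem_sphere_zero_iff_norm, norm_zero] at ha1
  exact zero_ne_one ha1

end Pool.Agent.Lib.MP_5bb885_an.Gen
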