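import Pool.Agent.Lib.MP_5bb885_an.T34Defs

/-!
A test function supported near one point of a closed curve, with a large Hessian along the
degenerate field and a small gradient.
-/

namespace Pool.Agent.Lib.MP_5bb885_an.Gen

open UpperHalfPlane MeasureTheory Filter Topology

variable {Γ : Type} [Group Γ] [MulAction Γ ℍ] {L : ℂ × ℂ → ℝ} {c : Γ → ℝ} {x : ℝ → ℍ} {γ : Γ}
  {T : ℝ} {η : ℝ → ℂ}

private theorem t34H_gen (F : Deck Γ) (hL : Tonelli Γ L) (h : CP L c x γ T)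
    (hm : MinPer x γ T) (hv : ∀ t, vel x t ≠ 0) (cη : Continuous η) (h0 : tng x η (T / 2) = 0)
    (hne : nrm x η (T / 2) ≠ 0) {θ ρ : ℝ} (hθ : 0 < θ) (hρ : 0 < ρ) :
    ∃ (q : Bx) (m : ℝ), q.Ok ∧ 0 < m ∧ Off (fam Γ q 3) x (T / 2 - ρ) ∧
      (fam Γ q 3 =ᶠ[𝓝 (x 0 : ℂ)] fun _ => 0) ∧ (fam Γ q 3 =ᶠ[𝓝 (x T : ℂ)] fun _ => 0) ∧
      m ≤ ∫ t in (0 : ℝ)..T, fderiv ℝ (fderiv ℝ (fam Γ q 3)) (x t) (η t) (η t) ∧
      (∀ t, |fam Γ q 3 (x t)| ≤ θ * m) ∧
      ∫ t in (0 : ℝ)..T, ‖fderiv ℝ (fam Γ q 3) (x t)‖ * (x t).im ≤ θ * m := by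
  have hR := h.reg F hL
  have hT : 0 < T := hm.1.1
  have cx : Continuous fun t => (x t : ℂ) := UpperHalfPlane.continuous_coe.comp hR.continuous
  have cq : Continuous fun t => η t / vel x t := cη.div hR.contVel hv
  have cn : Continuous (nrm x η) := Complex.continuous_im.comp cq
  have cg : Continuous (tng x η) := Complex.continuous_re.comp cq
  have ci : Continuous fun t => (x t).im := UpperHalfPlane.continuous_im.comp hR.continuous
  obtain ⟨Λ, hΛ, hloc⟩ := hess_local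
  set t₀ := T / 2 with ht₀
  obtain ⟨n₀, hn₀, hn⟩ : ∃ n₀ : ℝ, 0 < n₀ ∧ |nrm x η t₀| = n₀ :=
    ⟨_, abs_pos.2 hne, rfl⟩
  obtain ⟨v₀, hv₀, hvv⟩ : ∃ v₀ : ℝ, 0 < v₀ ∧ ‖vel x t₀‖ = v₀ := ⟨_, norm_pos_iff.2 (hv t₀), rfl⟩
  obtain ⟨y₀, hy₀, hyy⟩ : ∃ y₀ : ℝ, 0 < y₀ ∧ (x t₀).im = y₀ := ⟨_, (x t₀).im_pos, rfl⟩
  obtain ⟨ε, hε, hε1, hε2⟩ : ∃ ε : ℝ, 0 < ε ∧ ε ≤ 1 / 10 ∧ Λ * ε ≤ 1 / 144 := by
    refine ⟨min (1 / 10) (1 / (144 * Λ)), by positivity, min_le_left _ _, ?_⟩
    calc Λ * min (1 / 10) (1 / (144 * Λ)) ≤ Λ * (1 / (144 * Λ)) :=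
          mul_le_mul_of_nonneg_left (min_le_right _ _) hΛ.le
      _ = 1 / 144 := by field_simp
  have hev : ∀ᶠ t in 𝓝 t₀, |tng x η t| < ε * n₀ ∧ n₀ / 2 < |nrm x η t| ∧
      |nrm x η t| < 2 * n₀ ∧ (x t).im < 2 * y₀ := by
    refine (cg.abs.continuousAt.eventually_lt continuousAt_const ?_).and
      ((continuousAt_const.eventually_lt cn.abs.continuousAt ?_).and
      ((cn.abs.continuousAt.eventually_lt continuousAt_const ?_).and
      (ci.continuousAt.eventually_lt continuousAt_const ?_)))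
    · rw [h0, abs_zero]; positivity
    · rw [hn]; linarith
    · rw [hn]; linarith
    · rw [hyy]; linarith
  obtain ⟨r, hr, hnear⟩ := Metric.eventually_nhds_iff.1 hev
  obtain ⟨q, hok, hw1, ha, hb, he, hwT, hζ0, hdir, key⟩ := h.passage F hL hm hv t₀ hε hε1
    (show 0 < min (ρ / 3) (min (r / 4) (min (θ * n₀ ^ 2 / 104)
      (θ * n₀ ^ 2 * v₀ / (192 * Λ * y₀)))) by positivity)
  simp only [le_min_iff] at hw1
  obtain ⟨hwρ, hw1, hw2, hw3⟩ := hw1
  have hw0 := hok.w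
  obtain ⟨p, d, w, a, b, e⟩ := q
  simp only at ha hb he hwT hζ0 hdir hw0 hw1 hw2 hw3 hwρ
  subst ha hb he
  have hd0 : d ≠ 0 := hok.ne
  have hdn : 0 < ‖d‖ := norm_pos_iff.2 hd0
  set q : Bx := ⟨p, d, e, -e, e, e⟩ with hq
  have key' : ∀ (δ : Γ) (t : ℝ), ((δ • x t : ℍ) : ℂ) ∈ q.supp →
      ∃ j : ℤ, |t - (t₀ + j * T)| < 3 * e ∧ δ = γ ^ (-j) := key
  set ζ : ℝ → ℂ := fun t => co p d (x t) with hζ
  have hζd : ∀ t, HasDerivAt ζ (vel x t / d) t := fun t =>
    ((hR.hasDerivAt t).sub_const p).div_const d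
  have habs : ∀ t ∈ Set.Icc (t₀ - 3 * e) (t₀ + 3 * e), |t - t₀| ≤ 3 * e := fun t ht =>
    abs_le.2 ⟨by linarith [ht.1], by linarith [ht.2]⟩
  have hri := fun t (ht : t ∈ Set.Icc (t₀ - 3 * e) (t₀ + 3 * e)) =>
    t9pass_re_im hζd (fun s hs => hdir s (habs s hs)) hζ0 ht
  have hεe : ε * e ≤ 1 / 10 * e := mul_le_mul_of_nonneg_right hε1 hw0.le
  have hsm := (hok.pot F 3).smooth
  have hO : IsOpen {w : ℂ | 0 < w.im} := isOpen_lt continuous_const Complex.continuous_im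
  have hs1 : ContDiffOn ℝ 1 (fderiv ℝ (fam Γ q 3)) {w : ℂ | 0 < w.im} :=
    hsm.fderiv_of_isOpen hO (WithTop.coe_le_coe.2 (le_top : (1 + 1 : ℕ∞) ≤ ⊤))
  have c1 : Continuous fun t => fderiv ℝ (fam Γ q 3) (x t) :=
    hs1.continuousOn.comp_continuous cx fun t => (x t).im_pos
  have c2 : Continuous fun t => fderiv ℝ (fderiv ℝ (fam Γ q 3)) (x t) :=
    (hs1.continuousOn_fderiv_of_isOpen hO le_rfl).comp_continuous cx fun t => (x t).im_pos
  have cH : Continuous fun t => fderiv ℝ (fderiv ℝ (fam Γ q 3)) (x t) (η t) (η t) :=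
    (c2.clm_apply cη).clm_apply cη
  have cI : Continuous fun t => ‖fderiv ℝ (fam Γ q 3) (x t)‖ * (x t).im := c1.norm.mul ci
  have hout : ∀ t ∈ Set.Icc 0 T, t ≤ t₀ - 3 * e ∨ t₀ + 3 * e ≤ t →
      fam Γ q 3 =ᶠ[𝓝 (x t : ℂ)] fun _ => 0 := by
    intro t ht ht'
    have H : ∀ δ : Γ, ((δ • x t : ℍ) : ℂ) ∉ q.supp := fun δ hδ => by
      obtain ⟨j, hj, -⟩ := key' δ t hδ
      have hj0 : j = 0 := t9pass_int (w := T / 6) (T := T) (t := t) (t₀ := t₀) (by linarith)
        (by linarith) (by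
          rw [Int.cast_zero, zero_mul, add_zero, abs_le]
          constructor <;> linarith [ht.1, ht.2])
      rw [hj0, Int.cast_zero, zero_mul, add_zero, abs_lt] at hj
      rcases ht' with h' | h' <;> linarith [hj.1, hj.2]
    exact t18hess_ev ((hok.fam_zero F H).mono fun z hz => hz 3)
  have hin : ∀ t ∈ Set.Icc (t₀ - 3 * e) (t₀ + 3 * e), fam Γ q 3 =ᶠ[𝓝 (x t : ℂ)]
      (fun z : ℂ => cut (-e) e e z.re * Complex.normSq z) ∘ co p d := by
    intro t ht
    have hU : ∀ δ : Γ, ((δ • x t : ℍ) : ℂ) ∈ q.supp → δ = 1 := by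
      intro δ hδ
      obtain ⟨i, hi, rfl⟩ := key' δ _ hδ
      have : i = 0 := t9pass_int hwT hi (by simpa using habs t ht)
      rw [this, neg_zero, zpow_zero]
    have hev2 : ∀ᶠ z : ℍ in 𝓝 (x t), |(co p d z).im| < 2 * e := by
      have hc : Continuous fun z : ℍ => |(co p d z).im| := by
        unfold co
        exact (Complex.continuous_im.comp
          ((UpperHalfPlane.continuous_coe.sub continuous_const).div_const d)).abs
      refine hc.continuousAt.eventually_lt continuousAt_const ?_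
      have h1 := (hri t ht).2
      have h2 := mul_le_mul hε1 (habs t ht) (abs_nonneg _) (by norm_num)
      simp only [hζ] at h1
      linarith
    refine t18hess_ev ?_
    filter_upwards [hok.fam_eventually F hU, hev2] with z h1 h2
    have h3 : cut (-e - e) (e + e) e (co p d z).im = 1 :=
      cut_eq_one hw0 ⟨by linarith [(abs_lt.1 h2).1], by linarith [(abs_lt.1 h2).2]⟩
    rw [h1 3, one_smul]
    simp only [Bx.fn, hq, h3, Function.comp_apply]
    simp only [Matrix.cons_val]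
    ring
  have hζn : ∀ t ∈ Set.Icc (t₀ - 3 * e) (t₀ + 3 * e), ‖ζ t‖ ≤ 5 * e := by
    intro t ht
    obtain ⟨h1, h2⟩ := hri t ht
    have h3 := habs t ht
    have h4 := mul_le_mul hε1 h3 (abs_nonneg _) (by norm_num)
    have h5 := abs_add_le ((ζ t).re - (t - t₀)) (t - t₀)
    rw [sub_add_cancel] at h5
    refine (Complex.norm_le_abs_re_add_abs_im _).trans ?_
    linarith
  have hnr : ∀ t ∈ Set.Icc (t₀ - 3 * e) (t₀ + 3 * e), |tng x η t| < ε * n₀ ∧
      n₀ / 2 < |nrm x η t| ∧ |nrm x η t| < 2 * n₀ ∧ (x t).im < 2 * y₀ := fun t ht =>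
    hnear (by rw [Real.dist_eq]; linarith [habs t ht])
  have hlow : ∀ t ∈ Set.Icc (t₀ - 3 * e) (t₀ + 3 * e),
      2 / 5 * n₀ ^ 2 * cut (-e) e e (ζ t).re ≤
        fderiv ℝ (fderiv ℝ (fam Γ q 3)) (x t) (η t) (η t) + n₀ ^ 2 / 12 := by
    intro t ht
    obtain ⟨a1, a2, a3, -⟩ := hnr t ht
    obtain ⟨b1, b2, b3⟩ := t18hess_h hε.le hε1 (hdir t (habs t ht)) a1.le a2.le a3.le
    have e1 : (tng x η t + nrm x η t * Complex.I) * (vel x t / d) = η t / d := by
      rw [tng, nrm, Complex.re_add_im]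
      have := hv t
      field_simp
    rw [e1] at b1 b2 b3
    rw [(t18hess_comp (t18hess_smooth e) p d (hin t ht) (η t)).2]
    have b4 := (hloc e (ζ t) (η t / d) hw0 (hζn t ht)).2
    have b5 : (9 / 20 * n₀) ^ 2 ≤ ‖η t / d‖ ^ 2 := pow_le_pow_left₀ (by positivity) b1 2
    have b6 := mul_le_mul_of_nonneg_left b5 (cut_nonneg (-e) e e (ζ t).re)
    have b7 := mul_le_mul_of_nonneg_left (mul_le_mul b3 b2 (norm_nonneg _) (by positivity)) hΛ.le
    have b8 := mul_le_mul_of_nonneg_right hε2 (sq_nonneg n₀)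
    have b9 := mul_nonneg (cut_nonneg (-e) e e (ζ t).re) (sq_nonneg n₀)
    simp only [hζ] at b4 b6 b9 ⊢
    nlinarith
  have hw00 : 0 ≤ t₀ - 3 * e := by linarith
  have hw01 : t₀ + 3 * e ≤ T := by linarith
  have hw02 : t₀ - 3 * e ≤ t₀ + 3 * e := by linarith
  refine ⟨q, e * n₀ ^ 2 / 8, hok, by positivity, fun t ht => ?_,
    hout 0 ⟨le_rfl, hT.le⟩ (Or.inl hw00), hout T ⟨hT.le, le_rfl⟩ (Or.inr hw01), ?_,
    fun t => ?_, ?_⟩
  · have H : ∀ δ : Γ, ((δ • x t : ℍ) : ℂ) ∉ q.supp := fun δ hδ => by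
      obtain ⟨j, hj, -⟩ := key' δ t hδ
      rw [abs_lt] at hj
      rw [abs_le] at ht
      rcases le_or_gt 0 j with h' | h'
      · have h1 : (0 : ℝ) ≤ j := by exact_mod_cast h'
        have h2 := mul_nonneg h1 hT.le
        linarith [hj.1, ht.2]
      · have h1 : (j : ℝ) ≤ -1 := by exact_mod_cast (show j ≤ -1 by omega)
        have h2 := mul_le_mul_of_nonneg_right h1 hT.le
        linarith [hj.2, ht.1]
    exact t18hess_ev ((hok.fam_zero F H).mono fun z hz => hz 3)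
  · rw [t18hess_win cH hw00 hw01 hw02 fun t ht ht' => by
      rw [(hout t ht ht').fderiv.fderiv_eq]; simp]
    have cH' := cH.add (continuous_const (y := n₀ ^ 2 / 12))
    have h1 : (∫ t in (t₀ - 4 / 5 * e)..(t₀ + 4 / 5 * e),
        (fderiv ℝ (fderiv ℝ (fam Γ q 3)) (x t) (η t) (η t) + n₀ ^ 2 / 12)) ≤
        ∫ t in (t₀ - 3 * e)..(t₀ + 3 * e),
          (fderiv ℝ (fderiv ℝ (fam Γ q 3)) (x t) (η t) (η t) + n₀ ^ 2 / 12) := by
      refine intervalIntegral.integral_mono_interval (by linarith) (by linarith) (by linarith) ?_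
        (cH'.intervalIntegrable _ _)
      refine (ae_restrict_iff' measurableSet_Ioc).2 (ae_of_all _ fun t ht => ?_)
      exact le_trans (mul_nonneg (by positivity) (cut_nonneg _ _ _ _)) (hlow t ⟨ht.1.le, ht.2⟩)
    have h2 : (∫ _ in (t₀ - 4 / 5 * e)..(t₀ + 4 / 5 * e), 2 / 5 * n₀ ^ 2) ≤
        ∫ t in (t₀ - 4 / 5 * e)..(t₀ + 4 / 5 * e),
          (fderiv ℝ (fderiv ℝ (fam Γ q 3)) (x t) (η t) (η t) + n₀ ^ 2 / 12) := by
      refine intervalIntegral.integral_mono_on (by linarith) intervalIntegrable_const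
        (cH'.intervalIntegrable _ _) fun t ht => ?_
      have ht' : t ∈ Set.Icc (t₀ - 3 * e) (t₀ + 3 * e) :=
        ⟨by linarith [ht.1], by linarith [ht.2]⟩
      have h3 : |t - t₀| ≤ 4 / 5 * e := abs_le.2 ⟨by linarith [ht.1], by linarith [ht.2]⟩
      have h4 := abs_le.1 (hri t ht').1
      have h5 : ε * |t - t₀| ≤ 1 / 10 * (4 / 5 * e) :=
        mul_le_mul hε1 h3 (abs_nonneg _) (by norm_num)
      have h7 : cut (-e) e e (ζ t).re = 1 := cut_eq_one hw0
        ⟨by linarith [h4.1, ht.1], by linarith [h4.2, ht.2]⟩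
      have := hlow t ht'
      rwa [h7, mul_one] at this
    rw [intervalIntegral.integral_const, smul_eq_mul] at h2
    have h3 := h2.trans h1
    rw [intervalIntegral.integral_add (cH.intervalIntegrable _ _) intervalIntegrable_const,
      intervalIntegral.integral_const, smul_eq_mul] at h3
    nlinarith [mul_nonneg hw0.le (sq_nonneg n₀)]
  · have hb : 13 * e ^ 2 ≤ θ * (e * n₀ ^ 2 / 8) := by
      have := mul_le_mul_of_nonneg_left hw2 hw0.le
      nlinarith
    refine le_trans ?_ hb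
    by_cases hex : ∃ δ : Γ, ((δ • x t : ℍ) : ℂ) ∈ q.supp
    · obtain ⟨δ, hδ⟩ := hex
      obtain ⟨j, hj, hδj⟩ := key' δ t hδ
      rw [hok.fam_eq 3 (δ := δ) fun δ' hδ' => by
        obtain ⟨i, hi, rfl⟩ := key' δ' t hδ'
        rw [hδj, t9pass_int hwT hi hj.le]]
      obtain ⟨h1, h2, h3⟩ := hδ
      simp only [hq] at h1 h2 h3
      simp only [Bx.fn, hq]
      simp only [Matrix.cons_val]
      set z := co p d (δ • x t : ℍ)
      have h4 : Complex.normSq z ≤ 13 * e ^ 2 := by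
        rw [Complex.normSq_apply]
        have := abs_le.1 h1
        nlinarith
      have h5 := mul_le_one₀ (cut_le_one (-e) e e z.re) (cut_nonneg (-e - e) (e + e) e z.im)
        (cut_le_one (-e - e) (e + e) e z.im)
      have h6 := mul_nonneg (cut_nonneg (-e) e e z.re) (cut_nonneg (-e - e) (e + e) e z.im)
      rw [abs_of_nonneg (mul_nonneg h6 (Complex.normSq_nonneg z))]
      exact (mul_le_of_le_one_left (Complex.normSq_nonneg z) h5).trans h4
    · rw [hok.fam_eq 3 (δ := 1) fun δ' hδ' => absurd ⟨δ', hδ'⟩ hex,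
        hok.fn_zero 3 fun h' => hex ⟨1, h'⟩, abs_zero]
      positivity
  · rw [t18hess_win cI hw00 hw01 hw02 fun t ht ht' => by
      rw [(hout t ht ht').fderiv_eq]; simp]
    have hdv : ‖d‖⁻¹ ≤ 2 / v₀ := by
      have h1 := hdir t₀ (by rw [sub_self, abs_zero]; positivity)
      have h2 := norm_add_le (vel x t₀ / d - 1) 1
      rw [sub_add_cancel, norm_one, norm_div, hvv, div_le_iff₀ hdn] at h2
      rw [inv_eq_one_div, div_le_div_iff₀ hdn hv₀]
      nlinarith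
    have h1 : (∫ t in (t₀ - 3 * e)..(t₀ + 3 * e), ‖fderiv ℝ (fam Γ q 3) (x t)‖ * (x t).im) ≤
        ∫ _ in (t₀ - 3 * e)..(t₀ + 3 * e), Λ * e * (2 / v₀) * (2 * y₀) := by
      refine intervalIntegral.integral_mono_on hw02 (cI.intervalIntegrable _ _)
        intervalIntegrable_const fun t ht => ?_
      refine mul_le_mul ?_ (hnr t ht).2.2.2.le (x t).im_pos.le (by positivity)
      refine (t18hess_comp (t18hess_smooth e) p d (hin t ht) 0).1.trans ?_
      exact mul_le_mul (hloc e (ζ t) 0 hw0 (hζn t ht)).1 hdv (by positivity) (by positivity)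
    refine h1.trans ?_
    rw [intervalIntegral.integral_const, smul_eq_mul]
    rw [le_div_iff₀ (by positivity)] at hw3
    have e1 : (t₀ + 3 * e - (t₀ - 3 * e)) * (Λ * e * (2 / v₀) * (2 * y₀)) =
        e / (8 * v₀) * (e * (192 * Λ * y₀)) := by field_simp; ring
    have e2 : θ * (e * n₀ ^ 2 / 8) = e / (8 * v₀) * (θ * n₀ ^ 2 * v₀) := by field_simp
    rw [e1, e2]
    exact mul_le_mul_of_nonneg_left hw3 (by positivity)

theorem OD.hess_win (F : Deck Γ) (hL : Tonelli Γ L) (hc : c ∈ Coh Γ) (h : OD L c x γ T η)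
    (hm : MinPer x γ T) {θ r : ℝ} (hθ : 0 < θ) (hr : 0 < r) :
    ∃ (q : Bx) (m : ℝ), q.Ok ∧ 0 < m ∧ Off (fam Γ q 3) x (T / 2 - r) ∧
      m ≤ ∫ t in (0 : ℝ)..T, fderiv ℝ (fderiv ℝ (fam Γ q 3)) (x t) (η t) (η t) ∧
      (∀ t, |fam Γ q 3 (x t)| ≤ θ * m) ∧
      ∫ t in (0 : ℝ)..T, ‖fderiv ℝ (fam Γ q 3) (x t)‖ * (x t).im ≤ θ * m := by
  have hR := h.cp.reg F hL
  have hv := h.cp.vel_ne F hL h.no
  have hT : 0 < T := hm.1.1
  have dη : ∀ t, DifferentiableAt ℝ η t := fun t => (h.jac t).1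
  have cη : Continuous η := continuous_iff_continuousAt.2 fun t => (dη t).continuousAt
  have cη' : Continuous (deriv η) := JacA.contDeriv (hR.coef hL) h.jac
  obtain ⟨hτ1, hτ2, -⟩ := t9pass_tng hR hv dη cη'
  have cτ : Continuous (tng x η) := continuous_iff_continuousAt.2 fun t => (hτ1 t).continuousAt
  have cx : Continuous fun t => (x t : ℂ) := UpperHalfPlane.continuous_coe.comp hR.continuous
  have ci : Continuous fun t => (x t).im := UpperHalfPlane.continuous_im.comp hR.continuous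
  have cν : Continuous (nu x η) := cη.sub (cτ.smul hR.contVel)
  have hq : ∀ t, nu x η t / vel x t = η t / vel x t - (tng x η t : ℂ) := fun t => by
    have := hv t
    rw [nu, Complex.real_smul]
    field_simp
  have hν0 : tng x (nu x η) (T / 2) = 0 := by
    rw [tng, hq]
    simp [tng]
  have hν1 : nrm x (nu x η) (T / 2) ≠ 0 := by
    have : nrm x (nu x η) (T / 2) = nrm x η (T / 2) := by
      rw [nrm, hq]
      simp [nrm]
    rw [this]
    exact h.nrm_ne F hL hc _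
  set om : ℝ → ℂ := fun t => tng x η t • ((2 : ℝ) • η t - tng x η t • vel x t) with hom
  set om' : ℝ → ℂ := fun t => tng x η t • ((2 : ℝ) • deriv η t -
    (tng x η t • deriv (vel x) t + deriv (tng x η) t • vel x t)) +
    deriv (tng x η) t • ((2 : ℝ) • η t - tng x η t • vel x t) with hom'
  have hod : ∀ t, HasDerivAt om (om' t) t := fun t =>
    (hτ1 t).smul (((dη t).hasDerivAt.const_smul (2 : ℝ)).sub
      ((hτ1 t).smul (hR.acc t).hasDerivAt))
  have com : Continuous om := continuous_iff_continuousAt.2 fun t => (hod t).continuousAt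
  have com' : Continuous om' :=
    (cτ.smul ((cη'.const_smul (2 : ℝ)).sub ((cτ.smul hR.cont).add (hτ2.smul hR.contVel)))).add
      (hτ2.smul ((cη.const_smul (2 : ℝ)).sub (cτ.smul hR.contVel)))
  obtain ⟨K, hK0, hK⟩ : ∃ K : ℝ, 0 < K ∧ ∀ t ∈ Set.Icc 0 T, ‖om' t‖ ≤ K * (x t).im := by
    have cq : Continuous fun t => ‖om' t‖ / (x t).im :=
      com'.norm.div ci fun t => (x t).im_pos.ne'
    obtain ⟨K, hK⟩ := isCompact_Icc.exists_bound_of_continuousOn
      (s := Set.Icc (0 : ℝ) T) cq.continuousOn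
    refine ⟨|K| + 1, by positivity, fun t ht => ?_⟩
    have h1 := (le_abs_self _).trans (hK t ht)
    rw [div_le_iff₀ (x t).im_pos] at h1
    refine h1.trans (mul_le_mul_of_nonneg_right ?_ (x t).im_pos.le)
    linarith [le_abs_self K]
  obtain ⟨q, m, hok, hm0, hoff, hz0, hzT, h1, h2, h3⟩ := t34H_gen F hL h.cp hm hv cν hν0 hν1
    (show 0 < min (θ / 2) (1 / (2 * K)) by positivity) hr
  have hθ1 : min (θ / 2) (1 / (2 * K)) * m ≤ θ * (m / 2) := by
    have := mul_le_mul_of_nonneg_right (min_le_left (θ / 2) (1 / (2 * K))) hm0.le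
    linarith
  have hθ2 : K * (min (θ / 2) (1 / (2 * K)) * m) ≤ m / 2 := by
    have := mul_le_mul_of_nonneg_left
      (mul_le_mul_of_nonneg_right (min_le_right (θ / 2) (1 / (2 * K))) hm0.le) hK0.le
    refine this.trans (le_of_eq ?_)
    field_simp
  refine ⟨q, m / 2, hok, by positivity, hoff, ?_, fun t => (h2 t).trans hθ1, h3.trans hθ1⟩
  set g := fam Γ q 3 with hg
  have hsm := (hok.pot F 3).smooth
  have hO : IsOpen {w : ℂ | 0 < w.im} := isOpen_lt continuous_const Complex.continuous_im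
  have hs1 : ContDiffOn ℝ 1 (fderiv ℝ g) {w : ℂ | 0 < w.im} :=
    hsm.fderiv_of_isOpen hO (WithTop.coe_le_coe.2 (le_top : (1 + 1 : ℕ∞) ≤ ⊤))
  have c1 : Continuous fun t => fderiv ℝ g (x t) :=
    hs1.continuousOn.comp_continuous cx fun t => (x t).im_pos
  have c2 : Continuous fun t => fderiv ℝ (fderiv ℝ g) (x t) :=
    (hs1.continuousOn_fderiv_of_isOpen hO le_rfl).comp_continuous cx fun t => (x t).im_pos
  have hsy : ∀ t (a b : ℂ), fderiv ℝ (fderiv ℝ g) (x t) a b = fderiv ℝ (fderiv ℝ g) (x t) b a := by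
    intro t a b
    have h4 : ContDiffAt ℝ 2 g (x t) :=
      (hsm.contDiffAt (hO.mem_nhds (x t).im_pos)).of_le
        (WithTop.coe_le_coe.2 (le_top : (2 : ℕ∞) ≤ ⊤))
    exact h4.isSymmSndFDerivAt (by simp) a b
  have hd1 : ∀ t, HasDerivAt (fun s => fderiv ℝ g (x s))
      (fderiv ℝ (fderiv ℝ g) (x t) (vel x t)) t := fun t =>
    (((hs1.contDiffAt (hO.mem_nhds (x t).im_pos)).differentiableAt
      (by simp)).hasFDerivAt).comp_hasDerivAt t (hR.hasDerivAt t)
  have hd2 : ∀ t, HasDerivAt (fun s => fderiv ℝ g (x s) (om s))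
      (fderiv ℝ (fderiv ℝ g) (x t) (vel x t) (om t) + fderiv ℝ g (x t) (om' t)) t := fun t =>
    (hd1 t).clm_apply (hod t)
  have cA : Continuous fun t => fderiv ℝ (fderiv ℝ g) (x t) (vel x t) (om t) :=
    (c2.clm_apply hR.contVel).clm_apply com
  have cB : Continuous fun t => fderiv ℝ g (x t) (om' t) := c1.clm_apply com'
  have cN : Continuous fun t => fderiv ℝ (fderiv ℝ g) (x t) (nu x η t) (nu x η t) :=
    (c2.clm_apply cν).clm_apply cν
  have cI : Continuous fun t => ‖fderiv ℝ g (x t)‖ * (x t).im := c1.norm.mul ci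
  have hI := intervalIntegral.integral_eq_sub_of_hasDerivAt (a := 0) (b := T)
    (fun t _ => hd2 t) ((cA.add cB).intervalIntegrable _ _)
  rw [hz0.fderiv_eq, hzT.fderiv_eq, intervalIntegral.integral_add (cA.intervalIntegrable _ _)
    (cB.intervalIntegrable _ _)] at hI
  simp only [fderiv_fun_const, Pi.zero_apply, zero_apply, sub_zero] at hI
  have hB : (∫ t in (0 : ℝ)..T, fderiv ℝ g (x t) (om' t)) ≤
      ∫ t in (0 : ℝ)..T, K * (‖fderiv ℝ g (x t)‖ * (x t).im) := by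
    refine intervalIntegral.integral_mono_on hT.le (cB.intervalIntegrable _ _)
      ((continuous_const.mul cI).intervalIntegrable _ _) fun t ht => ?_
    have h4 := (le_abs_self _).trans ((fderiv ℝ g (x t)).le_opNorm (om' t))
    have h5 := mul_le_mul_of_nonneg_left (hK t ht) (norm_nonneg (fderiv ℝ g (x t)))
    linarith
  rw [intervalIntegral.integral_const_mul] at hB
  have hE : (∫ t in (0 : ℝ)..T, fderiv ℝ (fderiv ℝ g) (x t) (η t) (η t)) =
      (∫ t in (0 : ℝ)..T, fderiv ℝ (fderiv ℝ g) (x t) (nu x η t) (nu x η t)) +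
        ∫ t in (0 : ℝ)..T, fderiv ℝ (fderiv ℝ g) (x t) (vel x t) (om t) := by
    rw [← intervalIntegral.integral_add (cN.intervalIntegrable _ _) (cA.intervalIntegrable _ _)]
    refine intervalIntegral.integral_congr fun t _ => ?_
    simp only [nu, hom, map_sub, map_smul, sub_apply,
      smul_apply, smul_eq_mul]
    rw [hsy t (η t) (vel x t)]
    ring
  have h6 := mul_le_mul_of_nonneg_left h3 hK0.le
  rw [hE]
  linarith

end Pool.Agent.Lib.MP_5bb885_an.Gen
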