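import Pool.Agent.Lib.MP_5bb885_an.T34Defs

/-!
Three controls supported in a time window.
-/

namespace Pool.Agent.Lib.MP_5bb885_an.Gen

open UpperHalfPlane MeasureTheory Filter Topology

variable {Γ : Type} [Group Γ] [MulAction Γ ℍ] {L : ℂ × ℂ → ℝ} {c : Γ → ℝ} {x : ℝ → ℍ} {γ : Γ}
  {T : ℝ} {η : ℝ → ℂ}

private lemma t34n_int {T w t t₀ : ℝ} {j : ℤ} (hT : 0 < T) (h : |t - (t₀ + j * T)| < w) :
    t₀ + T - t < w ∨ |t - t₀| < w ∨ t - t₀ + T < w := by
  rcases lt_trichotomy j 0 with hj | rfl | hj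
  · have : (j : ℝ) ≤ -1 := by exact_mod_cast (by omega : j ≤ -1)
    exact Or.inr (Or.inr (by nlinarith [(abs_lt.1 h).2]))
  · exact Or.inr (Or.inl (by simpa using h))
  · have : (1 : ℝ) ≤ j := by exact_mod_cast hj
    exact Or.inl (by nlinarith [(abs_lt.1 h).1])

/-- A family that no covector kills contains a basis. -/
private lemma t34n_lin {ι : Type} (V : ι → Fin 3 → ℝ)
    (h : ∀ a : Fin 3 → ℝ, (∀ i, ∑ k, V i k * a k = 0) → a = 0) :
    ∃ κ : Fin 3 → ι, ∀ α : Fin 3 → ℝ, (∀ k, ∑ j, α j * V (κ j) k = 0) → α = 0 := by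
  have hs : Submodule.span ℝ (Set.range V) = ⊤ := by
    by_contra hne
    obtain ⟨f, hf, hk⟩ := Submodule.exists_le_ker_of_lt_top _ (lt_top_iff_ne_top.2 hne)
    have h1 := h (fun k => f fun j => if k = j then 1 else 0) fun i => by
      have h2 : f (V i) = 0 := hk (Submodule.subset_span ⟨i, rfl⟩)
      rwa [LinearMap.pi_apply_eq_sum_univ] at h2
    refine hf (LinearMap.ext fun v => ?_)
    rw [LinearMap.pi_apply_eq_sum_univ]
    exact Finset.sum_eq_zero fun k _ => by rw [congrFun h1 k]; simp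
  obtain ⟨K, a, -, h1, h2⟩ := exists_linearIndependent' ℝ V
  have := h2.finite
  have := Fintype.ofFinite K
  have h3 := finrank_span_eq_card h2
  rw [h1, hs, finrank_top, Module.finrank_fin_fun] at h3
  let e := (Fintype.equivFinOfCardEq h3.symm).symm
  refine ⟨a ∘ e, fun α hα => funext fun j => ?_⟩
  refine Fintype.linearIndependent_iff.1 (h2.comp e e.injective) α (funext fun k => ?_) j
  simpa [Finset.sum_apply] using hα k

private lemma t34n_cont (F : Deck Γ) (hR : Reg L x) {q : Bx} (hok : q.Ok) (i : Fin 4) :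
    (Continuous fun t => fam Γ q i (x t)) ∧ (Continuous fun t => fderiv ℝ (fam Γ q i) (x t)) ∧
      ∀ t, DifferentiableAt ℝ (fam Γ q i) (x t) := by
  have cx : Continuous fun t => (x t : ℂ) := UpperHalfPlane.continuous_coe.comp hR.continuous
  have hsm := (hok.pot F i).smooth
  have hO : IsOpen {w : ℂ | 0 < w.im} := isOpen_lt continuous_const Complex.continuous_im
  refine ⟨hsm.continuousOn.comp_continuous cx fun t => (x t).im_pos,
    (hsm.continuousOn_fderiv_of_isOpen hO (by exact_mod_cast le_top)).comp_continuous cx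
      fun t => (x t).im_pos, fun t => ?_⟩
  exact (hsm.contDiffAt (hO.mem_nhds (x t).im_pos)).differentiableAt (by simp)

/-- One box in the window sees the normal component of a field. -/
private lemma t34n_pass (F : Deck Γ) (hL : Tonelli Γ L) (h : CP L c x γ T) (hm : MinPer x γ T)
    (hv : ∀ t, vel x t ≠ 0) {ζ : ℝ → ℂ} (h1 : ∀ t, DifferentiableAt ℝ ζ t)
    (h2 : Continuous (deriv ζ)) {t₀ r : ℝ} (hr : |t₀ - T / 2| < r) (hT2 : |t₀ - T / 2| < T / 2)
    (hn : 0 < nrm x ζ t₀) :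
    ∃ (q : Bx) (κ : ℝ), q.Ok ∧ (∀ i, Off (fam Γ q i) x (T / 2 - r)) ∧
      0 < ∫ t in (0 : ℝ)..T, fam Γ q 0 (x t) ∧
      ∫ t in (0 : ℝ)..T, fam Γ q 2 (x t) = κ * ∫ t in (0 : ℝ)..T, fam Γ q 0 (x t) ∧
      κ * ∫ t in (0 : ℝ)..T, fderiv ℝ (fam Γ q 0) (x t) (ζ t) <
        ∫ t in (0 : ℝ)..T, fderiv ℝ (fam Γ q 2) (x t) (ζ t) := by
  have hR := h.reg F hL
  have hT : 0 < T := hm.1.1
  have cζ : Continuous ζ := continuous_iff_continuousAt.2 fun t => (h1 t).continuousAt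
  obtain ⟨Λ, hΛ, hloc⟩ := pass_local
  obtain ⟨hg1, hg2, hg3⟩ := t9pass_tng hR hv h1 h2
  obtain ⟨c₀, hc₀, hcc⟩ : ∃ c₀ : ℝ, 0 < c₀ ∧ c₀ < nrm x ζ t₀ := ⟨_, half_pos hn, half_lt_self hn⟩
  obtain ⟨B, hB, hB1, hB2⟩ : ∃ B : ℝ, 0 < B ∧ nrm x ζ t₀ < B ∧ |deriv (tng x ζ) t₀| < B :=
    ⟨nrm x ζ t₀ + |deriv (tng x ζ) t₀| + 1, by positivity,
      by linarith [abs_nonneg (deriv (tng x ζ) t₀)], by linarith⟩
  obtain ⟨ε, hε, hε1, hε2⟩ : ∃ ε : ℝ, 0 < ε ∧ ε ≤ 1 / 10 ∧ Λ * B * ε ≤ c₀ / 2 := by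
    refine ⟨min (1 / 10) (c₀ / (2 * (Λ * B))), by positivity, min_le_left _ _, ?_⟩
    calc Λ * B * min (1 / 10) (c₀ / (2 * (Λ * B))) ≤ Λ * B * (c₀ / (2 * (Λ * B))) :=
          mul_le_mul_of_nonneg_left (min_le_right _ _) (by positivity)
      _ = c₀ / 2 := by field_simp
  have hev : ∀ᶠ t in 𝓝 t₀, c₀ < nrm x ζ t ∧ nrm x ζ t < B ∧ |deriv (tng x ζ) t| < B :=
    (continuousAt_const.eventually_lt hg3.continuousAt hcc).and
      ((hg3.continuousAt.eventually_lt continuousAt_const hB1).and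
        (hg2.abs.continuousAt.eventually_lt continuousAt_const hB2))
  obtain ⟨ρ, hρ, hnear⟩ := Metric.eventually_nhds_iff.1 hev
  have p1 := sub_pos.2 hr
  have p2 := sub_pos.2 hT2
  obtain ⟨q, hok, hw1, ha, hb, he, hwT, hζ0, hdir, key⟩ := h.passage F hL hm hv t₀ hε hε1
    (show 0 < min (min 1 (ρ / 4)) (min ((r - |t₀ - T / 2|) / 3) ((T / 2 - |t₀ - T / 2|) / 3)) by
      positivity)
  simp only [le_min_iff] at hw1
  obtain ⟨⟨hw1, hw2⟩, hw3, hw4⟩ := hw1
  have hw0 := hok.w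
  obtain ⟨p, d, w, a, b, e⟩ := q
  simp only at ha hb he hwT hζ0 hdir hw0 hw1 hw2 hw3 hw4
  subst ha hb he
  have hd0 : d ≠ 0 := hok.ne
  set q : Bx := ⟨p, d, e, -e, e, e⟩ with hq
  have key' : ∀ (δ : Γ) (t : ℝ), ((δ • x t : ℍ) : ℂ) ∈ q.supp →
      ∃ j : ℤ, |t - (t₀ + j * T)| < 3 * e ∧ δ = γ ^ (-j) := key
  have a1 := le_abs_self (t₀ - T / 2)
  have a2 := neg_abs_le (t₀ - T / 2)
  set ξ : ℝ → ℂ := fun t => co p d (x t) with hξ
  have hξd : ∀ t, HasDerivAt ξ (vel x t / d) t := fun t =>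
    ((hR.hasDerivAt t).sub_const p).div_const d
  have habs : ∀ t ∈ Set.Icc (t₀ - 3 * e) (t₀ + 3 * e), |t - t₀| ≤ 3 * e := fun t ht =>
    abs_le.2 ⟨by linarith [ht.1], by linarith [ht.2]⟩
  have hεe : ε * e ≤ 1 / 10 * e := mul_le_mul_of_nonneg_right hε1 hw0.le
  have him : ∀ t ∈ Set.Icc (t₀ - 3 * e) (t₀ + 3 * e), |(ξ t).im| ≤ 4 * ε * e := fun t ht => by
    have b1 := (t9pass_re_im hξd (fun s hs => hdir s (habs s hs)) hζ0 ht).2
    have b2 := mul_le_mul_of_nonneg_left (habs t ht) hε.le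
    linarith
  have hoff : ∀ t, t₀ + 3 * e - T ≤ t → t ≤ t₀ - 3 * e + T → t ≤ t₀ - 3 * e ∨ t₀ + 3 * e ≤ t →
      ∀ i, fam Γ q i =ᶠ[𝓝 (x t : ℂ)] fun _ => 0 := by
    intro t b1 b2 b3 i
    have H : ∀ δ : Γ, ((δ • x t : ℍ) : ℂ) ∉ q.supp := fun δ hδ => by
      obtain ⟨j, hj, -⟩ := key' δ t hδ
      rcases t34n_int hT hj with b | b | b
      · linarith
      · rw [abs_lt] at b
        rcases b3 with b3 | b3 <;> linarith [b.1, b.2]
      · linarith
    exact t18hess_ev ((hok.fam_zero F H).mono fun z hz => hz i)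
  have hout : ∀ t ∈ Set.Icc 0 T, t ≤ t₀ - 3 * e ∨ t₀ + 3 * e ≤ t →
      ∀ i, fam Γ q i =ᶠ[𝓝 (x t : ℂ)] fun _ => 0 := fun t ht =>
    hoff t (by linarith [ht.1]) (by linarith [ht.2])
  have hU : ∀ t ∈ Set.Icc (t₀ - 3 * e) (t₀ + 3 * e), ∀ δ : Γ,
      ((δ • x t : ℍ) : ℂ) ∈ q.supp → δ = 1 := by
    intro t ht δ hδ
    obtain ⟨i, hi, rfl⟩ := key' δ _ hδ
    have : i = 0 := t9pass_int hwT hi (by simpa using habs t ht)
    rw [this, neg_zero, zpow_zero]
  have hfam : ∀ t ∈ Set.Icc 0 T, |fam Γ q 2 (x t)| ≤ 4 * ε * e * fam Γ q 0 (x t) := by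
    intro t ht
    by_cases hw : t ∈ Set.Icc (t₀ - 3 * e) (t₀ + 3 * e)
    · have b1 : q.fn 2 (x t) = (ξ t).im * q.fn 0 (x t) := by
        simp only [Bx.fn, hξ, hq]
        simp only [Matrix.cons_val]
        ring
      rw [hok.fam_eq 2 (hU t hw), hok.fam_eq 0 (hU t hw), one_smul, b1, abs_mul,
        abs_of_nonneg (q.fn_nonneg _)]
      exact mul_le_mul_of_nonneg_right (him t hw) (q.fn_nonneg _)
    · have b1 : t ≤ t₀ - 3 * e ∨ t₀ + 3 * e ≤ t := by
        by_contra b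
        rw [not_or, not_le, not_le] at b
        exact hw ⟨b.1.le, b.2.le⟩
      rw [(hout t ht b1 2).self_of_nhds, (hout t ht b1 0).self_of_nhds]
      simp
  obtain ⟨c0, c0', d0⟩ := t34n_cont F hR hok 0
  obtain ⟨c2, c2', d2⟩ := t34n_cont F hR hok 2
  set I₀ : ℝ := ∫ t in (0 : ℝ)..T, fam Γ q 0 (x t) with hI₀
  set I₂ : ℝ := ∫ t in (0 : ℝ)..T, fam Γ q 2 (x t) with hI₂
  have hI0 : 0 < I₀ := by
    refine intervalIntegral.integral_pos hT c0.continuousOn (fun t _ => fam_nonneg q _)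
      ⟨t₀, ⟨by linarith, by linarith⟩, ?_⟩
    have b1 := (Complex.abs_re_le_norm _).trans hζ0
    have b2 := abs_le.1 ((Complex.abs_im_le_norm _).trans hζ0)
    rw [hok.fam_eq 0 (hU t₀ ⟨by linarith, by linarith⟩), one_smul,
      hok.fn_core 0 (show |(co p d (x t₀)).re| ≤ e by linarith)
        (show (co p d (x t₀)).im ∈ Set.Icc (-e - e) (e + e) from
          ⟨by linarith [b2.1], by linarith [b2.2]⟩)]
    exact one_pos
  have hI2 : |I₂| ≤ 4 * ε * e * I₀ := by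
    refine (intervalIntegral.abs_integral_le_integral_abs hT.le).trans ?_
    rw [hI₀, ← intervalIntegral.integral_const_mul]
    exact intervalIntegral.integral_mono_on hT.le (c2.abs.intervalIntegrable _ _)
      ((continuous_const.mul c0).intervalIntegrable _ _) hfam
  have hκ : |I₂ / I₀| ≤ 4 * ε * e := by
    rw [abs_div, abs_of_pos hI0, div_le_iff₀ hI0]
    exact hI2
  refine ⟨q, I₂ / I₀, hok, fun i t ht => ?_, hI0, (div_mul_cancel₀ _ hI0.ne').symm, ?_⟩
  · rw [abs_le] at ht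
    exact hoff t (by linarith [ht.1]) (by linarith [ht.2]) (Or.inl (by linarith [ht.2])) i
  set κ : ℝ := I₂ / I₀ with hκκ
  have hmain := hloc ξ (fun s => vel x s / d) (nrm x ζ) (tng x ζ) (deriv (tng x ζ)) e ε κ c₀ B t₀
    hw0 hw1 hε.le hε1 hκ hc₀.le hξd (hR.contVel.div_const d) hg1 hg2 hg3 hζ0 fun s hs => by
      obtain ⟨b1, b2, b3⟩ := hnear (y := s) (by rw [Real.dist_eq]; linarith [habs s hs])
      exact ⟨hdir s (habs s hs), b1.le, b2.le, b3.le⟩
  have e0 : Continuous fun t => κ * fderiv ℝ (fam Γ q 0) (x t) (ζ t) :=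
    continuous_const.mul (c0'.clm_apply cζ)
  have e2 := c2'.clm_apply cζ
  have e3 : Continuous fun t =>
      fderiv ℝ (fam Γ q 2) (x t) (ζ t) - κ * fderiv ℝ (fam Γ q 0) (x t) (ζ t) := e2.sub e0
  rw [← sub_pos, ← intervalIntegral.integral_const_mul, ← intervalIntegral.integral_sub
    (e2.intervalIntegrable _ _) (e0.intervalIntegrable _ _), t18hess_win e3
    (a := t₀ - 3 * e) (b := t₀ + 3 * e) (by linarith) (by linarith) (by linarith)
    fun t ht ht' => by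
      simp [(hout t ht ht' 2).fderiv_eq, (hout t ht ht' 0).fderiv_eq]]
  refine lt_of_lt_of_le ?_ (hmain.trans_eq (intervalIntegral.integral_congr fun t ht => ?_))
  · have := mul_le_mul_of_nonneg_left hε2 hw0.le
    nlinarith [mul_pos hw0 hc₀]
  rw [Set.uIcc_of_le (by linarith)] at ht
  have hev2 : ∀ᶠ z : ℍ in 𝓝 (x t), |(co p d z).im| < 2 * e := by
    have hc : Continuous fun z : ℍ => |(co p d z).im| := by
      unfold co
      exact (Complex.continuous_im.comp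
        ((UpperHalfPlane.continuous_coe.sub continuous_const).div_const d)).abs
    refine hc.continuousAt.eventually_lt continuousAt_const ?_
    have b1 := him t ht
    simp only [hξ] at b1
    linarith
  have hin : (fam Γ q 2 - κ • fam Γ q 0) =ᶠ[𝓝 (x t : ℂ)]
      (fun z : ℂ => cut (-e) e e z.re * (z.im - κ)) ∘ co p d := by
    refine t18hess_ev ?_
    filter_upwards [hok.fam_eventually F (hU t ht), hev2] with z b1 b2
    have b3 : cut (-e - e) (e + e) e (co p d z).im = 1 :=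
      cut_eq_one hw0 ⟨by linarith [(abs_lt.1 b2).1], by linarith [(abs_lt.1 b2).2]⟩
    simp only [Pi.sub_apply, Pi.smul_apply, smul_eq_mul, Function.comp_apply]
    rw [b1 2, b1 0, one_smul]
    simp only [Bx.fn, hq, b3]
    simp only [Matrix.cons_val]
    ring
  have hF := (t9pass_hasF e κ (co p d (x t))).differentiableAt.hasFDerivAt.comp (x t : ℂ)
    (t9pass_co p d (x t))
  have b4 := ((d2 t).hasFDerivAt.sub ((d0 t).hasFDerivAt.const_smul κ)).fderiv
  rw [hin.fderiv_eq, hF.fderiv] at b4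
  have b5 := DFunLike.congr_fun b4 (ζ t)
  simp only [ContinuousLinearMap.comp_apply, ContinuousLinearMap.mul_apply',
    sub_apply, smul_apply, smul_eq_mul] at b5
  have e1 : (tng x ζ t + nrm x ζ t * Complex.I) * (vel x t / d) = d⁻¹ * ζ t := by
    rw [tng, nrm, Complex.re_add_im]
    have := hv t
    field_simp
  simp only [e1, hξ]
  exact b5

theorem OD.controls (F : Deck Γ) (hL : Tonelli Γ L) (hc : c ∈ Coh Γ) (h : OD L c x γ T η)
    (hm : MinPer x γ T) {ζ₂ : ℝ → ℂ} (hJ : Jac L x ζ₂) (hE : En L x ζ₂) (h0 : ζ₂ 0 = 0)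
    (h1 : deriv ζ₂ 0 ≠ 0) {r : ℝ} (hr : 0 < r) :
    ∃ κ : Fin 3 → OB × Fin 4, (∀ j, (κ j).2 ≠ 3) ∧
      (∀ j, Off (fam Γ (κ j).1.1 (κ j).2) x (T / 2 - r)) ∧
      ∀ α : Fin 3 → ℝ, ∑ j, α j * ∫ t in (0 : ℝ)..T, fam Γ (κ j).1.1 (κ j).2 (x t) = 0 →
        (∀ ζ, Jac L x ζ → En L x ζ →
          ∑ j, α j * ∫ t in (0 : ℝ)..T, fderiv ℝ (fam Γ (κ j).1.1 (κ j).2) (x t) (ζ t) = 0) →
        α = 0 := by
  have hR := h.cp.reg F hL
  have hv := h.cp.vel_ne F hL h.no
  have hT : 0 < T := hm.1.1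
  have cη : Continuous η := continuous_iff_continuousAt.2 fun t => (h.jac t).1.continuousAt
  have cζ : Continuous ζ₂ := continuous_iff_continuousAt.2 fun t => (hJ t).1.continuousAt
  have jc : ∀ m n : ℝ, Jac L x (m • η + n • ζ₂) := fun m n =>
    JacA.add (JacA.smul h.jac m) (JacA.smul hJ n)
  have ec : ∀ m n : ℝ, En L x (m • η + n • ζ₂) := fun m n =>
    En.add (fun t => (h.jac t).1.const_smul m) (fun t => (hJ t).1.const_smul n)
      (En.smul' (fun t => (h.jac t).1) h.en m) (En.smul' (fun t => (hJ t).1) hE n)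
  have ic : ∀ q : Bx, q.Ok → ∀ (i : Fin 4) (m n : ℝ),
      ∫ t in (0 : ℝ)..T, fderiv ℝ (fam Γ q i) (x t) ((m • η + n • ζ₂) t) =
        (∫ t in (0 : ℝ)..T, fderiv ℝ (fam Γ q i) (x t) (η t)) * m +
          (∫ t in (0 : ℝ)..T, fderiv ℝ (fam Γ q i) (x t) (ζ₂ t)) * n := by
    intro q hq i m n
    have c1 := (t34n_cont F hR hq i).2.1
    have c2 : Continuous fun t => fderiv ℝ (fam Γ q i) (x t) (η t) * m :=
      (c1.clm_apply cη).mul continuous_const
    have c3 : Continuous fun t => fderiv ℝ (fam Γ q i) (x t) (ζ₂ t) * n :=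
      (c1.clm_apply cζ).mul continuous_const
    rw [← intervalIntegral.integral_mul_const, ← intervalIntegral.integral_mul_const,
      ← intervalIntegral.integral_add (c2.intervalIntegrable _ _) (c3.intervalIntegrable _ _)]
    refine intervalIntegral.integral_congr fun t _ => ?_
    simp only [Pi.add_apply, Pi.smul_apply, map_add, map_smul, smul_eq_mul, mul_comm]
  obtain ⟨κ, hκ⟩ := t34n_lin
    (ι := {k : OB × Fin 4 // k.2 ≠ 3 ∧ Off (fam Γ k.1.1 k.2) x (T / 2 - r)})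
    (fun k => ![∫ t in (0 : ℝ)..T, fam Γ k.1.1.1 k.1.2 (x t),
      ∫ t in (0 : ℝ)..T, fderiv ℝ (fam Γ k.1.1.1 k.1.2) (x t) (η t),
      ∫ t in (0 : ℝ)..T, fderiv ℝ (fam Γ k.1.1.1 k.1.2) (x t) (ζ₂ t)]) (by
    intro a ha
    have ha' : ∀ q : Bx, q.Ok → ∀ i : Fin 4, i ≠ 3 → Off (fam Γ q i) x (T / 2 - r) →
        (∫ t in (0 : ℝ)..T, fam Γ q i (x t)) * a 0 +
          ∫ t in (0 : ℝ)..T, fderiv ℝ (fam Γ q i) (x t) ((a 1 • η + a 2 • ζ₂) t) = 0 := by
      intro q hq i b1 b2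
      have := ha ⟨(⟨q, hq⟩, i), b1, b2⟩
      rw [Fin.sum_univ_three] at this
      rw [ic q hq, ← add_assoc]
      exact this
    have hz : ∀ t₀, |t₀ - T / 2| < r → |t₀ - T / 2| < T / 2 →
        nrm x (a 1 • η + a 2 • ζ₂) t₀ = 0 := by
      intro t₀ b1 b2
      have key : ∀ s : ℝ, ¬0 < nrm x ((s * a 1) • η + (s * a 2) • ζ₂) t₀ := fun s hs => by
        obtain ⟨q, k, hq, o, -, e1, e2⟩ := t34n_pass F hL h.cp hm hv (fun t => (jc _ _ t).1)
          (JacA.contDeriv (hR.coef hL) (jc _ _)) b1 b2 hs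
        have f0 := ha' q hq 0 (by decide) (o 0)
        have f2 := ha' q hq 2 (by decide) (o 2)
        rw [ic q hq] at f0 f2
        rw [ic q hq, ic q hq] at e2
        rw [e1] at f2
        exact e2.ne (by linear_combination k * s * f0 - s * f2)
      have k1 := key 1
      have k2 := key (-1)
      have e : nrm x ((-1 * a 1) • η + (-1 * a 2) • ζ₂) t₀ = -nrm x (a 1 • η + a 2 • ζ₂) t₀ := by
        rw [nrm, nrm, ← Complex.neg_im, ← neg_div]
        simp [add_comm]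
      rw [one_mul, one_mul] at k1
      rw [e] at k2
      linarith
    have m1 := min_le_left r (T / 2)
    have m2 := min_le_right r (T / 2)
    have m0 : 0 < min r (T / 2) := by positivity
    have m3 : |T / 2 + min r (T / 2) / 2 - T / 2| = min r (T / 2) / 2 := by
      rw [add_sub_cancel_left, abs_of_pos (half_pos m0)]
    obtain ⟨p, hp⟩ := h.cp.conj F hL hc hv (jc (a 1) (a 2)) (ec _ _)
      (a := T / 2) (b := T / 2 + min r (T / 2) / 2) (by linarith)
      (hz _ (by simpa using hr) (by simpa using hT)) (hz _ (by linarith) (by linarith))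
    have p0 := hp 0
    simp only [Pi.add_apply, Pi.smul_apply, h0, smul_zero, add_zero] at p0
    have a1 : a 1 = 0 := by
      have e : a 1 * nrm x η 0 = 0 := by
        have := congrArg (fun z => (z / vel x 0).im) p0
        simpa [nrm, mul_div_assoc, div_self (hv 0)] using this
      exact (mul_eq_zero.1 e).resolve_right (h.nrm_ne F hL hc 0)
    have p1 : p = 0 := by
      rw [a1, zero_smul] at p0
      exact (smul_eq_zero.1 p0.symm).resolve_right (hv 0)
    have a2 : a 2 = 0 := by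
      by_contra b
      have e : ζ₂ = fun _ => 0 := funext fun t => by simpa [a1, p1, b] using hp t
      rw [e] at h1
      simp at h1
    have a0 : a 0 = 0 := by
      obtain ⟨s, hs⟩ : ∃ s : ℝ, 0 < nrm x (s • η + (0 : ℝ) • ζ₂) (T / 2) := by
        refine ⟨nrm x η (T / 2), ?_⟩
        have e : nrm x (nrm x η (T / 2) • η + (0 : ℝ) • ζ₂) (T / 2) =
            nrm x η (T / 2) * nrm x η (T / 2) := by
          generalize hy : nrm x η (T / 2) = y
          rw [nrm] at hy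
          simp [nrm, mul_div_assoc, hy]
        rw [e]
        exact mul_self_pos.2 (h.nrm_ne F hL hc _)
      obtain ⟨q, -, hq, o, e0, -⟩ := t34n_pass F hL h.cp hm hv (fun t => (jc _ _ t).1)
        (JacA.contDeriv (hR.coef hL) (jc _ _)) (r := r) (by simpa using hr) (by simpa using hT) hs
      have f0 := ha' q hq 0 (by decide) (o 0)
      rw [ic q hq, a1, a2, mul_zero, mul_zero, add_zero, add_zero] at f0
      exact (mul_eq_zero.1 f0).resolve_left e0.ne'
    funext k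
    fin_cases k
    exacts [a0, a1, a2])
  refine ⟨fun j => (κ j).1, fun j => (κ j).2.1, fun j => (κ j).2.2, fun α b1 b2 => hκ α fun k => ?_⟩
  fin_cases k
  exacts [b1, b2 η h.jac h.en, b2 ζ₂ hJ hE]

end Pool.Agent.Lib.MP_5bb885_an.Gen
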