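import Pool.Agent.Lib.MP_5bb885_an.T34Defs

/-!
Finite sums of potentials.
-/

namespace Pool.Agent.Lib.MP_5bb885_an.Gen

open UpperHalfPlane MeasureTheory Filter Topology

variable {Γ : Type} [Group Γ] [MulAction Γ ℍ] {ι : Type}

lemma t34sum_c2 {φ : ι → ℂ → ℝ} (hφ : ∀ k, C2 Γ (φ k)) (β : ι → ℝ) (s : Finset ι) :
    C2 Γ (∑ k ∈ s, β k • φ k) := by
  classical
  induction s using Finset.induction_on with
  | empty => simpa using c2_zero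
  | insert a s ha ih =>
    rw [Finset.sum_insert ha]
    exact ((hφ a).smul _).add ih

lemma t34sum_toZero {l : Filter ℕ} {φ : ι → ℂ → ℝ} (hφ : ∀ k, C2 Γ (φ k)) {β : ℕ → ι → ℝ}
    (hβ : ∀ k, Tendsto (fun n => β n k) l (𝓝 0)) (s : Finset ι) :
    ToZero l fun n => ∑ k ∈ s, β n k • φ k := by
  classical
  induction s using Finset.induction_on with
  | empty =>
    intro R ε hε
    refine Eventually.of_forall fun n z _ => ?_
    have e : fderiv ℝ (0 : ℂ → ℝ) = 0 := fderiv_zero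
    have e' : fderiv ℝ (0 : ℂ → ℂ →L[ℝ] ℝ) = 0 := fderiv_zero
    simp only [Finset.sum_empty, e, e', Pi.zero_apply, abs_zero, norm_zero]
    exact ⟨hε.le, hε.le, le_of_eq_of_le ContinuousLinearMap.opNorm_zero hε.le⟩
  | insert a s ha ih =>
    simp only [Finset.sum_insert ha]
    exact ToZero.add (fun n => (hφ a).smul _) (fun n => t34sum_c2 hφ _ s)
      ((hφ a).toZero (hβ a)) ih

lemma t34sum_d1 {φ : ι → ℂ → ℝ} (hφ : ∀ k, C2 Γ (φ k)) (β : ι → ℝ) (s : Finset ι) {z : ℂ}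
    (hz : z ∈ HP) : fderiv ℝ (∑ k ∈ s, β k • φ k) z = ∑ k ∈ s, β k • fderiv ℝ (φ k) z :=
  (HasFDerivAt.sum fun k _ => ((t9tay_has isOpen_HP (hφ k).1 hz).1.const_smul (β k))).fderiv

lemma t34sum_d2 {φ : ι → ℂ → ℝ} (hφ : ∀ k, C2 Γ (φ k)) (β : ι → ℝ) (s : Finset ι) {z : ℂ}
    (hz : z ∈ HP) (v : ℂ) : fderiv ℝ (fderiv ℝ (∑ k ∈ s, β k • φ k)) z v v =
      ∑ k ∈ s, β k * fderiv ℝ (fderiv ℝ (φ k)) z v v := by
  have h1 : HasFDerivAt (∑ k ∈ s, β k • fderiv ℝ (φ k))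
      (∑ k ∈ s, β k • fderiv ℝ (fderiv ℝ (φ k)) z) z :=
    HasFDerivAt.sum fun k _ => (t9tay_has isOpen_HP (hφ k).1 hz).2.const_smul (β k)
  have h2 : fderiv ℝ (∑ k ∈ s, β k • φ k) =ᶠ[𝓝 z] ∑ k ∈ s, β k • fderiv ℝ (φ k) := by
    filter_upwards [isOpen_HP.mem_nhds hz] with w hw
    rw [t34sum_d1 hφ β s hw, Finset.sum_apply]
    rfl
  rw [(h1.congr_of_eventuallyEq h2).fderiv]
  simp only [sum_apply, smul_apply, smul_eq_mul]

lemma t34sum_hess {φ : ι → ℂ → ℝ} (hφ : ∀ k, C2 Γ (φ k)) (β : ι → ℝ) (s : Finset ι)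
    {y : ℝ → ℍ} (hy : Continuous y) {ζ : ℝ → ℂ} (hζ : Continuous ζ) (T : ℝ) :
    ∫ t in (0 : ℝ)..T, fderiv ℝ (fderiv ℝ (∑ k ∈ s, β k • φ k)) (y t) (ζ t) (ζ t) =
      ∑ k ∈ s, β k * ∫ t in (0 : ℝ)..T, fderiv ℝ (fderiv ℝ (φ k)) (y t) (ζ t) (ζ t) := by
  have hc : ∀ k, Continuous fun t => fderiv ℝ (fderiv ℝ (φ k)) (y t) (ζ t) (ζ t) := fun k =>
    (((t9tay_cont isOpen_HP (hφ k).1).2.2.comp_continuous
      (UpperHalfPlane.continuous_coe.comp hy) fun t => (y t).im_pos).clm_apply hζ).clm_apply hζ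
  simp only [fun t => t34sum_d2 hφ β s (z := (y t : ℂ)) (y t).im_pos (ζ t)]
  rw [intervalIntegral.integral_finsetSum
    (f := fun k t => β k * fderiv ℝ (fderiv ℝ (φ k)) (y t) (ζ t) (ζ t)) fun k _ =>
    ((hc k).intervalIntegrable _ _).const_mul _]
  exact Finset.sum_congr rfl fun k _ => intervalIntegral.integral_const_mul _ _

end Pool.Agent.Lib.MP_5bb885_an.Gen
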