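import Pool.Agent.Lib.MP_5bb885_an.T34Defs

/-!
Uniqueness for the Euler-Lagrange equation where the perturbation has no effect.
-/

namespace Pool.Agent.Lib.MP_5bb885_an.Gen

open UpperHalfPlane MeasureTheory Filter Topology

variable {Γ : Type} [Group Γ] [MulAction Γ ℍ] {L : ℂ × ℂ → ℝ} {c : Γ → ℝ} {x : ℝ → ℍ} {γ : Γ}
  {T : ℝ} {η : ℝ → ℂ}

lemma t34u_bound {y : ℝ → ℍ} (h : Continuous (jet y)) (a : ℝ) :
    ∃ R r : ℝ, ∀ R' r' : ℝ, R ≤ R' → r ≤ r' → ∀ t, |t| ≤ a →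
      (jet y t).1 ∈ KB R' ∧ ‖(jet y t).2‖ ≤ r' := by
  obtain ⟨R, hR⟩ := exists_KB (Q := (fun t => (jet y t).1) '' Set.Icc (-a) a)
    (isCompact_Icc.image h.fst) (by rintro _ ⟨t, -, rfl⟩; exact (y t).im_pos)
  obtain ⟨r, hr⟩ := (isCompact_Icc (a := -a) (b := a)).exists_bound_of_continuousOn
    h.snd.continuousOn
  refine ⟨R, r, fun R' r' h1 h2 t ht => ⟨?_, (hr t (abs_le.1 ht)).trans h2⟩⟩
  obtain ⟨z, hz, e⟩ := hR ⟨t, abs_le.1 ht, rfl⟩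
  exact ⟨z, Metric.closedBall_subset_closedBall h1 hz, e⟩

theorem el_unique (F : Deck Γ) (hL : Tonelli Γ L) {g : ℂ → ℝ} (hg : C2 Γ g) {y₁ y₂ : ℝ → ℍ}
    (h₁ : Reg L y₁) (h₂ : Reg (addP L g) y₂) {a : ℝ}
    (hz : ∀ t, |t| ≤ a → fderiv ℝ g (y₂ t) = 0) (he : jet y₁ 0 = jet y₂ 0) :
    ∀ t, |t| ≤ a → jet y₁ t = jet y₂ t := by
  obtain ⟨R₁, r₁, b₁⟩ := t34u_bound h₁.contJet a
  obtain ⟨R₂, r₂, b₂⟩ := t34u_bound h₂.contJet a
  have c₁ := b₁ _ _ (le_max_left R₁ R₂) (le_max_left r₁ r₂)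
  have c₂ := b₂ _ _ (le_max_right R₁ R₂) (le_max_right r₁ r₂)
  obtain ⟨M, hM0, hM⟩ := (hL.unif1 F).taylor (max R₁ R₂) (max r₁ r₂)
  obtain ⟨m, hm0, hm⟩ := (hL.unif1 F).strong (max R₁ R₂) (max r₁ r₂)
  obtain ⟨e1, e2⟩ := t18diff_mom hL.smooth hg.1 y₂
  set Y : ℝ → ℂ × (ℂ →L[ℝ] ℝ) := fun t => ((y₁ t : ℂ) - y₂ t, mom L y₁ t - mom L y₂ t) with hY
  have hv : ∀ t, |t| ≤ a → ‖vel y₁ t - vel y₂ t‖ ≤ (1 + M) / m * ‖Y t‖ := fun t ht => by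
    have k1 := hm L rfl _ (c₁ t ht).1 _ _ (c₁ t ht).2 (c₂ t ht).2
    have k2 := (hM L rfl ((jet y₁ t).1, (jet y₂ t).2) (jet y₂ t) (c₁ t ht).1 (c₂ t ht).1
      (c₂ t ht).2 (c₂ t ht).2).2.2.2.2
    have n1 : ‖(y₁ t : ℂ) - y₂ t‖ ≤ ‖Y t‖ := norm_fst_le (Y t)
    have n2 : ‖mom L y₁ t - mom L y₂ t‖ ≤ ‖Y t‖ := norm_snd_le (Y t)
    have n3 : ‖jet y₂ t - ((jet y₁ t).1, (jet y₂ t).2)‖ = ‖(y₁ t : ℂ) - y₂ t‖ := by
      rw [norm_sub_rev]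
      simp [jet, Prod.norm_def]
    rw [n3] at k2
    simp only [jet] at k1 k2
    set w := vel y₁ t - vel y₂ t with hw
    have k3 := (mom L y₁ t - mom L y₂ t).le_opNorm w
    have k4 := (fderiv ℝ L ((y₂ t : ℂ), vel y₂ t) - fderiv ℝ L ((y₁ t : ℂ), vel y₂ t)).le_opNorm
      (0, w)
    have n4 : ‖((0 : ℂ), w)‖ = ‖w‖ := by simp [Prod.norm_def]
    have k5 : fderiv ℝ L ((y₁ t : ℂ), vel y₁ t) (0, w) - fderiv ℝ L ((y₁ t : ℂ), vel y₂ t) (0, w) =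
        (mom L y₁ t - mom L y₂ t) w +
          (fderiv ℝ L ((y₂ t : ℂ), vel y₂ t) - fderiv ℝ L ((y₁ t : ℂ), vel y₂ t)) (0, w) := by
      simp [mom, Dv, jet]
    rw [n4, Real.norm_eq_abs] at k4
    rw [Real.norm_eq_abs] at k3
    have k6 : m * ‖w‖ ^ 2 ≤ (1 + M) * ‖Y t‖ * ‖w‖ := by
      have a1 := mul_le_mul_of_nonneg_right n2 (norm_nonneg w)
      have a2 := mul_le_mul_of_nonneg_right (k2.trans (mul_le_mul_of_nonneg_left n1 hM0))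
        (norm_nonneg w)
      have a3 := le_abs_self ((mom L y₁ t - mom L y₂ t) w)
      have a4 := le_abs_self ((fderiv ℝ L ((y₂ t : ℂ), vel y₂ t) -
        fderiv ℝ L ((y₁ t : ℂ), vel y₂ t)) (0, w))
      rw [k5] at k1
      linarith
    rcases (norm_nonneg w).eq_or_lt with h0 | h0
    · rw [← h0]
      positivity
    · rw [div_mul_eq_mul_div, le_div_iff₀ hm0]
      refine le_of_mul_le_mul_right ?_ h0
      nlinarith
  set C := (1 + M) / m with hC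
  have hC0 : 0 < C := by positivity
  have hd : ∀ t, HasDerivAt Y (vel y₁ t - vel y₂ t, frc L y₁ t - frc (addP L g) y₂ t) t :=
    fun t => ((h₁.hasDerivAt t).fun_sub (h₂.hasDerivAt t)).prodMk
      ((h₁.hasDerivAt_mom t).fun_sub (e1 ▸ h₂.hasDerivAt_mom t))
  have hb : ∀ t, |t| ≤ a → ‖(vel y₁ t - vel y₂ t, frc L y₁ t - frc (addP L g) y₂ t)‖ ≤
      (C + M * (1 + C)) * ‖Y t‖ + (C + M * (1 + C)) * 0 := fun t ht => by
    have k1 := hv t ht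
    have n0 := norm_nonneg (Y t)
    have n1 : ‖(y₁ t : ℂ) - y₂ t‖ ≤ ‖Y t‖ := norm_fst_le (Y t)
    have k2 := (hM L rfl (jet y₂ t) (jet y₁ t) (c₂ t ht).1 (c₁ t ht).1 (c₂ t ht).2
      (c₁ t ht).2).2.2.2.2
    have k3 : ‖jet y₁ t - jet y₂ t‖ ≤ (1 + C) * ‖Y t‖ := by
      rw [Prod.norm_def]
      refine max_le (n1.trans ?_) (k1.trans ?_) <;> nlinarith
    have k4 : ‖frc L y₁ t - frc L y₂ t‖ ≤ ‖fderiv ℝ L (jet y₁ t) - fderiv ℝ L (jet y₂ t)‖ := by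
      refine ContinuousLinearMap.opNorm_le_bound _ (norm_nonneg _) fun w => ?_
      have := (fderiv ℝ L (jet y₁ t) - fderiv ℝ L (jet y₂ t)).le_opNorm (w, 0)
      simpa [frc, Dx, Prod.norm_def] using this
    have k5 := mul_le_mul_of_nonneg_left k3 hM0
    have k6 : 0 ≤ M * ((1 + C) * ‖Y t‖) := by positivity
    have k7 : 0 ≤ C * ‖Y t‖ := by positivity
    rw [e2 t, hz t ht, add_zero, Prod.norm_def]
    refine max_le ?_ ?_ <;> simp only <;> linarith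
  intro t ht
  have h0 : Y 0 = 0 := by
    have p1 : (y₁ 0 : ℂ) = y₂ 0 := congrArg Prod.fst he
    simp [hY, mom, he, p1]
  have k := t9aj_gron (by positivity) le_rfl hd hb (s := 0) (by simpa using (abs_nonneg t).trans ht)
    ht
  rw [h0, norm_zero, add_zero, zero_mul] at k
  have k0 : ‖Y t‖ = 0 := le_antisymm k (norm_nonneg _)
  have k1 := hv t ht
  have n1 : ‖(y₁ t : ℂ) - y₂ t‖ ≤ ‖Y t‖ := norm_fst_le (Y t)
  rw [k0] at k1 n1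
  rw [mul_zero] at k1
  exact Prod.ext (sub_eq_zero.1 (norm_le_zero_iff.1 n1)) (sub_eq_zero.1 (norm_le_zero_iff.1 k1))

theorem Off.ev {φ : ℂ → ℝ} {a : ℝ} (h : Off φ x a) (hx : Continuous (jet x)) {l : Filter ℕ}
    {ys : ℕ → ℝ → ℍ} (hu : UW l (fun n => jet (ys n)) (jet x)) :
    ∀ᶠ n in l, ∀ t, |t| ≤ a → fderiv ℝ φ (ys n t) = 0 := by
  have hK : IsCompact ((fun t => (jet x t).1) '' Set.Icc (-a) a) := isCompact_Icc.image hx.fst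
  obtain ⟨r, hr, hs⟩ := hK.exists_cthickening_subset_open
    (t := {z | ∀ᶠ w in 𝓝 z, φ w = 0}) isOpen_setOfPred_eventually_nhds
    (by rintro _ ⟨t, ht, rfl⟩; exact h t (abs_le.2 ht))
  filter_upwards [hu a r hr] with n hn t ht
  have h1 : dist (ys n t : ℂ) (jet x t).1 ≤ r := by
    rw [dist_eq_norm]
    exact (norm_fst_le (jet (ys n) t - jet x t)).trans (hn t ht)
  have h2 : φ =ᶠ[𝓝 (ys n t : ℂ)] fun _ => 0 :=
    hs (Metric.mem_cthickening_of_dist_le _ _ _ _ ⟨t, abs_le.1 ht, rfl⟩ h1)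
  rw [h2.fderiv_eq]
  simp

end Pool.Agent.Lib.MP_5bb885_an.Gen
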