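import Pool.Agent.Lib.MP_5bb885_an.T34Jac
import Pool.Agent.Lib.MP_5bb885_an.T34Uniq
import Pool.Agent.Lib.MP_5bb885_an.T34Ctl
import Pool.Agent.Lib.MP_5bb885_an.T34Span
import Pool.Agent.Lib.MP_5bb885_an.T34Hess
import Pool.Agent.Lib.MP_5bb885_an.T34Cmp
import Pool.Agent.Lib.MP_5bb885_an.T34Sum

/-!
Four coefficients near a degenerate one-sided curve.
-/

namespace Pool.Agent.Lib.MP_5bb885_an.Gen

open UpperHalfPlane MeasureTheory Filter Topology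

variable {Γ : Type} [Group Γ] [MulAction Γ ℍ] {L : ℂ × ℂ → ℝ} {c : Γ → ℝ} {x : ℝ → ℍ} {γ : Γ}
  {T : ℝ} {η : ℝ → ℂ}

lemma t34cone_inj {X : Type} {κ : Fin 3 → X} {ι : Type} {v : ι → X → ℝ} {p : ι → Prop}
    (h : ∀ α : Fin 3 → ℝ, (∀ i, p i → ∑ j, α j * v i (κ j) = 0) → α = 0) :
    Function.Injective κ := by
  intro i j hij
  by_contra hne
  have h1 := h (Pi.single i 1 - Pi.single j 1) fun k _ => by
    simp only [Pi.sub_apply, sub_mul, Finset.sum_sub_distrib, Pi.single_apply, ite_mul, one_mul,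
      zero_mul, Finset.sum_ite_eq', Finset.mem_univ, if_true, hij, sub_self]
  have h2 := congrFun h1 i
  simp [hne] at h2

lemma t34cone_norm (β : Fin 4 → ℝ) : ‖fun j : Fin 3 => β j.castSucc‖ ≤ ‖β‖ ∧ |β 3| ≤ ‖β‖ ∧
    ‖β‖ ≤ ‖fun j : Fin 3 => β j.castSucc‖ + |β 3| := by
  refine ⟨(pi_norm_le_iff_of_nonneg (norm_nonneg _)).2 fun j => norm_le_pi_norm β _,
    norm_le_pi_norm β 3, (pi_norm_le_iff_of_nonneg (by positivity)).2 fun k => ?_⟩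
  induction k using Fin.lastCases with
  | last => exact le_add_of_nonneg_left (norm_nonneg _)
  | cast j =>
    exact (norm_le_pi_norm (fun j : Fin 3 => β j.castSucc) j).trans
      (le_add_of_nonneg_right (abs_nonneg _))

theorem OD.cone4 (F : Deck Γ) (hL : Tonelli Γ L) (hc : c ∈ Coh Γ) {S : Set (ℂ × ℂ → ℝ)}
    (U : Unif S) (h : OD L c x γ T η) (hm : MinPer x γ T) (hS : LipAt S (jet x (T / 2))) :
    ∃ (κ : Fin 4 → OB × Fin 4) (C : ℝ), Function.Injective κ ∧ 0 ≤ C ∧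
      ∀ (f : ℕ → ℂ → ℝ) (β : ℕ → Fin 4 → ℝ) (cs : ℕ → Γ → ℝ) (y₁ y₂ : ℕ → ℝ → ℍ)
        (T₁ T₂ : ℕ → ℝ) (ζ : ℕ → ℝ → ℂ),
      (∀ n, C2 Γ (f n) ∧ addP L (f n) ∈ S ∧
        addP L (f n + ∑ k, β n k • fam Γ (κ k).1.1 (κ k).2) ∈ S ∧ cs n ∈ Coh Γ ∧
        CP (addP L (f n)) (cs n) (y₁ n) γ (T₁ n) ∧
        OD (addP L (f n + ∑ k, β n k • fam Γ (κ k).1.1 (κ k).2)) (cs n) (y₂ n) γ (T₂ n) (ζ n) ∧
        (((y₁ n 0 : ℂ) - y₂ n 0) / vel x 0).re = 0) →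
      ToZero atTop f → Tendsto β atTop (𝓝 0) → CLim atTop c cs → Tendsto T₁ atTop (𝓝 T) →
      Tendsto T₂ atTop (𝓝 T) → Tendsto (fun n => y₁ n 0) atTop (𝓝 (x 0)) →
      Tendsto (fun n => y₂ n 0) atTop (𝓝 (x 0)) → Tendsto (fun n => ζ n 0) atTop (𝓝 (η 0)) →
      Tendsto (fun n => deriv (ζ n) 0) atTop (𝓝 (deriv η 0)) →
      ∃ n, ‖jet (y₁ n) 0 - jet (y₂ n) 0‖ ≤ C * ‖β n‖ ∧
        ‖β n‖ ≤ C * (‖jet (y₁ n) 0 - jet (y₂ n) 0‖ + |β n 3|) ∧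
        (jet (y₁ n) 0 = jet (y₂ n) 0 → β n 3 ≤ 0) := by
  have hx := h.cp.reg F hL
  have hT : 0 < T := h.cp.per.1
  have cη : Continuous η := continuous_iff_continuousAt.2 fun t => (h.jac t).1.continuousAt
  have cη' : Continuous (deriv η) := JacA.contDeriv (hx.coef hL) h.jac
  obtain ⟨ρ, M, hρ, hM, hS⟩ := hS
  obtain ⟨r₁, hr₁, hwin⟩ := Metric.continuousAt_iff.1 (hx.contJet.continuousAt (x := T / 2))
    (ρ / 2) (half_pos hρ)
  obtain ⟨r, hr, hr1, hr2⟩ : ∃ r : ℝ, 0 < r ∧ r ≤ T / 8 ∧ 4 * r ≤ r₁ :=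
    ⟨min (T / 8) (r₁ / 4), by positivity, min_le_left _ _,
      by linarith [min_le_right (T / 8) (r₁ / 4)]⟩
  obtain ⟨ζ₂, j1, j2, j3, j4⟩ := exists_jac2 hL hx
  obtain ⟨κ, hκ3, hκo, hN⟩ := h.controls F hL hc hm j1 j2 j3 j4 hr
  set φ : Fin 3 → ℂ → ℝ := fun j => fam Γ (κ j).1.1 (κ j).2 with hφd
  have hφ : ∀ j, C2 Γ (φ j) := fun j => ((κ j).1.2.pot F _).c2
  have hz : |(0 : ℝ)| ≤ T / 2 - r := by rw [abs_zero]; linarith
  obtain ⟨C₀, δ, hC₀, hδ, hct⟩ := h.cp.ctrl F hL hc h.no hφ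
    (fun j => (hκo j 0 hz).self_of_nhds) hN
  obtain ⟨R, hR⟩ := exists_KB (Q := (fun t => (x t : ℂ)) '' Set.Icc 0 (T + 1))
    (isCompact_Icc.image (continuous_coe.comp hx.continuous))
    (by rintro _ ⟨t, -, rfl⟩; exact (x t).im_pos)
  obtain ⟨B, hB⟩ := (isCompact_Icc (a := (0 : ℝ)) (b := T + 1)).exists_bound_of_continuousOn
    (f := fun t => (jet x t, η t, deriv η t)) (hx.contJet.prodMk (cη.prodMk cη')).continuousOn
  obtain ⟨C₂, hC₂, hcmp⟩ := cmp_loc F U hM hS γ (R + 1) (T + 1) (B + 1) (|crit L c| + 1) hr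
  obtain ⟨M₅, hM₅, hM₅'⟩ : ∃ M₅ : ℝ, 0 ≤ M₅ ∧ ∀ j,
      |∫ t in (0 : ℝ)..T, fderiv ℝ (fderiv ℝ (φ j)) (x t) (η t) (η t)| < M₅ := by
    refine ⟨∑ j, |∫ t in (0 : ℝ)..T, fderiv ℝ (fderiv ℝ (φ j)) (x t) (η t) (η t)| + 1,
      by positivity, fun j => lt_add_of_le_of_pos ?_ one_pos⟩
    exact Finset.single_le_sum
      (f := fun j => |∫ t in (0 : ℝ)..T, fderiv ℝ (fderiv ℝ (φ j)) (x t) (η t) (η t)|)
      (fun _ _ => abs_nonneg _) (Finset.mem_univ j)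
  obtain ⟨K, hK⟩ : ∃ K : ℝ, K = 3 * M₅ * C₀ + C₂ * (C₀ * (C₀ + 1)) := ⟨_, rfl⟩
  have hK0 : 0 ≤ K := by rw [hK]; positivity
  have hθ : 0 < 1 / (8 * (K + 1)) := by positivity
  obtain ⟨q, m, hq, hm0, hqo, hH, hG0, hG1⟩ := h.hess_win F hL hc hm hθ hr
  set θ := 1 / (8 * (K + 1)) with hθd
  set g := fam Γ q 3 with hgd
  have hg : C2 Γ g := (hq.pot F 3).c2
  have hθm : 0 < θ * m := mul_pos hθ hm0
  have hinj : Function.Injective κ :=
    t34cone_inj (ι := Option (ℝ → ℂ))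
      (v := fun i k => i.elim (∫ t in (0 : ℝ)..T, fam Γ k.1.1 k.2 (x t))
        fun ζ => ∫ t in (0 : ℝ)..T, fderiv ℝ (fam Γ k.1.1 k.2) (x t) (ζ t))
      (p := fun i => i.elim True fun ζ => Jac L x ζ ∧ En L x ζ)
      fun α hα => hN α (hα none trivial) fun ζ a1 a2 => hα (some ζ) ⟨a1, a2⟩
  refine ⟨Fin.snoc (α := fun _ => OB × Fin 4) κ (⟨q, hq⟩, 3), (C₀ + 1) * (1 + 2 * (θ * m)), ?_,
    by positivity, fun f β cs y₁ y₂ T₁ T₂ ζ H hf hβ hcs hT₁ hT₂ hy₁ hy₂ hζ hζ' => ?_⟩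
  · refine Fin.snoc_injective_iff.2 ⟨hinj, ?_⟩
    rintro ⟨j, hj⟩
    exact hκ3 j (by rw [hj])
  set α : ℕ → Fin 3 → ℝ := fun n j => β n j.castSucc with hαd
  have hsum : ∀ n, ∑ k : Fin 4, β n k • fam Γ
      ((Fin.snoc (α := fun _ => OB × Fin 4) κ (⟨q, hq⟩, 3) : Fin 4 → OB × Fin 4) k).1.1
      ((Fin.snoc (α := fun _ => OB × Fin 4) κ (⟨q, hq⟩, 3) : Fin 4 → OB × Fin 4) k).2 =
      ∑ j, α n j • φ j + β n 3 • g := fun n => by
    rw [Fin.sum_univ_castSucc]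
    simp only [Fin.snoc_castSucc, Fin.snoc_last]
    rfl
  simp only [hsum] at H
  let l : Ultrafilter ℕ := Ultrafilter.of atTop
  have hl : (l : Filter ℕ) ≤ atTop := Ultrafilter.of_le atTop
  have hβk : ∀ k, Tendsto (fun n => β n k) atTop (𝓝 0) := fun k =>
    ((continuous_apply k).tendsto (0 : Fin 4 → ℝ)).comp hβ
  have hβn : Tendsto (fun n => ‖β n‖) atTop (𝓝 0) := tendsto_zero_iff_norm_tendsto_zero.1 hβ
  have hsg : ToZero atTop fun n => β n 3 • g := hg.toZero (hβk 3)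
  have hG : ∀ n, C2 Γ (∑ j, α n j • φ j + β n 3 • g) := fun n =>
    (t34sum_c2 hφ _ _).add (hg.smul _)
  have hG0' : ToZero atTop fun n => ∑ j, α n j • φ j + β n 3 • g :=
    ToZero.add (fun n => t34sum_c2 hφ _ _) (fun n => hg.smul _)
      (t34sum_toZero hφ (fun j => hβk j.castSucc) _) hsg
  have S₁ := (lseq_of_toZero F hL (fun n => (H n).1) hf).mono hl
  have S₂ := (lseq_of_toZero F hL (fun n => (H n).1.add (hG n))
    (ToZero.add (fun n => (H n).1) hG hf hG0')).mono hl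
  have hcs' := fun n => (H n).2.2.2.1
  have p₁ := fun n => (H n).2.2.2.2.1
  have p₂ := fun n => (H n).2.2.2.2.2.1
  have r₁' := fun n => (p₁ n).reg F (S₁.tons n)
  have r₂ := fun n => (p₂ n).cp.reg F (S₂.tons n)
  have u₁ := S₁.uw_cp F hc hcs' (hcs.mono hl) h.cp p₁ (hT₁.mono_left hl) (hy₁.mono_left hl)
  obtain ⟨u₂, u₃, u₄⟩ := S₂.uw_od F hc hcs' (hcs.mono hl) h p₂ (hT₂.mono_left hl)
    (hy₂.mono_left hl) (hζ.mono_left hl) (hζ'.mono_left hl)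
  have cζ : ∀ n, Continuous (ζ n) := fun n =>
    continuous_iff_continuousAt.2 fun t => ((p₂ n).jac t).1.continuousAt
  have e1 := t18cone_sup hg hx.contJet u₁ (fun n => (p₁ n).per) (hT₁.mono_left hl) hθm hG0
  have e2 := t18cone_sup hg hx.contJet u₂ (fun n => (p₂ n).cp.per) (hT₂.mono_left hl) hθm hG0
  have e3 := (t18cone_grad hg hx.contJet (fun n => (r₂ n).contJet) u₂
    (hT₂.mono_left hl)).eventually (ge_mem_nhds (show _ < 2 * (θ * m) by linarith))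
  have e4 := (t18cone_hess hg hx.contJet (fun n => (r₂ n).contJet) cη cζ
    u₂ u₃ (hT₂.mono_left hl)).eventually (le_mem_nhds (show m / 2 < _ by linarith))
  have e5 := t18cone_ball u₁ fun t ht => hR ⟨t, ht, rfl⟩
  have e6 := t18cone_ball u₂ fun t ht => hR ⟨t, ht, rfl⟩
  have e7 := t18cone_bd u₁ fun t ht => (norm_fst_le (jet x t, η t, deriv η t)).trans (hB t ht)
  have e8 := t18cone_bd (t18cone_prod u₂ (t18cone_prod u₃ u₄)) hB
  have e9 : ∀ᶠ n in l, C₀ * (‖β n‖ + ‖β n‖ * (2 * (θ * m))) ≤ min 1 r := by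
    have := ((hβn.mono_left hl).add ((hβn.mono_left hl).mul_const (2 * (θ * m)))).const_mul C₀
    exact this.eventually (ge_mem_nhds (by simpa using hr))
  have e10 : ∀ᶠ n in l, ∀ j, |∫ t in (0 : ℝ)..T₂ n,
      fderiv ℝ (fderiv ℝ (φ j)) (y₂ n t) (ζ n t) (ζ n t)| ≤ M₅ :=
    eventually_all.2 fun j => (t18cone_hess (hφ j) hx.contJet (fun n => (r₂ n).contJet) cη cζ
      u₂ u₃ (hT₂.mono_left hl)).abs.eventually (ge_mem_nhds (hM₅' j))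
  have e11 : ∀ᶠ n in l, ∀ j, ∀ t, |t| ≤ T / 2 - r → fderiv ℝ (φ j) (y₂ n t) = 0 :=
    eventually_all.2 fun j => (hκo j).ev hx.contJet u₂
  have e12 := hqo.ev hx.contJet u₂
  have e13 := t9open_k F S₂ hc hcs' (hcs.mono hl)
  have e14 := (u₁ (T + 1) (ρ / 2) (half_pos hρ)).and (u₂ (T + 1) (ρ / 2) (half_pos hρ))
  have e15 : ∀ᶠ n in l, ‖β n‖ ≤ δ := (hβn.mono_left hl).eventually (ge_mem_nhds hδ)
  have hε : 0 < min δ (min 1 r) := by positivity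
  obtain ⟨n, ⟨⟨a1, a2, a3, a4, a5⟩, ⟨a6, a7, a8, a9⟩, ⟨b1, b2, b3⟩, ⟨b4, b5⟩, b6, b7⟩,
      ⟨d1, d2, d3, d4⟩, ⟨d5, d6⟩, d7⟩ :=
    (((e1.and (e2.and (e3.and (e4.and e5)))).and ((e6.and (e7.and (e8.and e9))).and
      ((((hf.sm hδ).filter_mono hl).and (((hsg.sm hδ).filter_mono hl).and
        (hcs.mono hl δ hδ))).and (((t18cone_close (hT₁.mono_left hl) hε).and
        (t18cone_close (hT₂.mono_left hl) hε)).and
        ((Metric.tendsto_nhds.1 (hy₁.mono_left hl) δ hδ).and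
        (Metric.tendsto_nhds.1 (hy₂.mono_left hl) δ hδ)))))).and
      ((e10.and (e11.and (e12.and e13))).and (e14.and e15))).exists
  obtain ⟨c1, c2, c3, c4, c5, c6, c7⟩ := H n
  obtain ⟨n1, n2, n3⟩ := t34cone_norm (β n)
  change ‖α n‖ ≤ ‖β n‖ at n1
  change ‖β n‖ ≤ ‖α n‖ + |β n 3| at n3
  have k1 : fderiv ℝ (β n 3 • g) = β n 3 • fderiv ℝ g := fderiv_const_smul_field (β n 3)
  have k3 : ∀ z : ℂ, |g z| ≤ 2 * (θ * m) → |(β n 3 • g) z| ≤ |β n 3| * (2 * (θ * m)) :=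
    fun z hz => by
      rw [Pi.smul_apply, smul_eq_mul, abs_mul]
      exact mul_le_mul_of_nonneg_left hz (abs_nonneg _)
  rw [le_min_iff, le_min_iff] at b4 b5
  rw [le_min_iff] at a9
  obtain ⟨s1, s2, s3⟩ := hct (f n) (β n 3 • g) c1 (hg.smul _) b1 b2 (α n) (n1.trans d7) (cs n) c4
    b3 (y₁ n) (y₂ n) (T₁ n) (T₂ n) (|β n 3| * (2 * (θ * m))) c5 c6.cp b4.1 b5.1 b6.le b7.le c7
    (fun t => ⟨k3 _ (a1 t), k3 _ (a2 t)⟩) (by
      rw [k1]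
      simp only [Pi.smul_apply, norm_smul, Real.norm_eq_abs, mul_assoc,
        intervalIntegral.integral_const_mul]
      exact mul_le_mul_of_nonneg_left a3 (abs_nonneg _))
  have z0 := norm_nonneg (jet (y₁ n) 0 - jet (y₂ n) 0)
  have z1 := norm_nonneg (β n)
  have z2 := abs_nonneg (β n 3)
  have z3 := norm_nonneg (α n)
  have z4 : |β n 3| * (2 * (θ * m)) ≤ ‖β n‖ * (2 * (θ * m)) :=
    mul_le_mul_of_nonneg_right n2 (by positivity)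
  have z5 : C₀ * (‖α n‖ + |β n 3| * (2 * (θ * m))) ≤ C₀ * (‖β n‖ + ‖β n‖ * (2 * (θ * m))) :=
    mul_le_mul_of_nonneg_left (add_le_add n1 z4) hC₀
  refine ⟨n, ?_, ?_, fun he => ?_⟩
  · refine ((s3 0 ⟨le_rfl, by linarith⟩).trans z5).trans ?_
    have : 0 ≤ (1 + 2 * (θ * m)) * ‖β n‖ := by positivity
    nlinarith
  · have w1 : 0 ≤ ‖jet (y₁ n) 0 - jet (y₂ n) 0‖ * (θ * m) := by positivity
    have w2 : 0 ≤ C₀ * (‖jet (y₁ n) 0 - jet (y₂ n) 0‖ * (θ * m)) := by positivity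
    have w3 : 0 ≤ |β n 3| * (θ * m) := by positivity
    have w4 : 0 ≤ C₀ * |β n 3| := by positivity
    nlinarith
  by_contra hpos
  rw [not_le] at hpos
  rw [he, sub_self, norm_zero, zero_add, abs_of_pos hpos] at s1
  rw [abs_of_pos hpos] at s2 s3 z5
  have hagree := el_unique F (S₁.tons n) (hG n) (r₁' n) (by rw [addP_addP]; exact r₂ n)
    (a := T / 2 - r) (fun t ht => by
      have w0 : (y₂ n t : ℂ) ∈ HP := (y₂ n t).im_pos
      have w1 := (t9tay_has isOpen_HP (t34sum_c2 hφ (α n) Finset.univ).1 w0).1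
      have w2 := (t9tay_has isOpen_HP (hg.smul (β n 3)).1 w0).1
      rw [(w1.add w2).fderiv, t34sum_d1 hφ _ _ w0, k1, Pi.smul_apply, d3 t ht,
        smul_zero, add_zero]
      exact Finset.sum_eq_zero fun j _ => by rw [d2 j t ht, smul_zero]) he
  obtain ⟨g1, g2⟩ := abs_le.1 b4.2.2
  obtain ⟨g3, g4⟩ := abs_le.1 b4.2.1
  obtain ⟨g5, g6⟩ := abs_le.1 b5.2.1
  have hD1 := z5.trans a9.1
  have hD2 := z5.trans a9.2
  have key := hcmp _ c2 (S₁.tons n) _ (hG n) (by rw [addP_addP]; exact c3) (cs n) (y₁ n) (y₂ n)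
    (T₁ n) (T₂ n) _ (T / 2 - r) (ζ n) c5 (by rw [addP_addP]; exact c6)
    (by rw [addP_addP]; exact d4) (by linarith) (by linarith) (by linarith) hD1 (by linarith) s2
    hagree (fun t ht => by
      have w0 : |t - T / 2| ≤ 3 * r := abs_le.2 ⟨by linarith [ht.1], by linarith [ht.2]⟩
      have w1 : dist (jet x t) (jet x (T / 2)) < ρ / 2 :=
        hwin (by rw [Real.dist_eq]; linarith)
      have w2 : |t| ≤ T + 1 := by
        rw [abs_le] at w0 ⊢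
        constructor <;> linarith [w0.1, w0.2]
      rw [dist_eq_norm] at w1
      have w3 := norm_sub_le_norm_sub_add_norm_sub (jet (y₁ n) t) (jet x t) (jet x (T / 2))
      have w4 := norm_sub_le_norm_sub_add_norm_sub (jet (y₂ n) t) (jet x t) (jet x (T / 2))
      exact ⟨by linarith [d5 t w2], by linarith [d6 t w2]⟩)
    fun t ht => ⟨a5 t ht, a6 t ht, (norm_snd_le _).trans (a7 t ht),
      ((norm_snd_le _).trans (norm_fst_le _)).trans (a8 t ht),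
      ((norm_fst_le _).trans (norm_snd_le _)).trans (a8 t ht),
      ((norm_snd_le _).trans (norm_snd_le _)).trans (a8 t ht), s3 t ht⟩
  have hsplit := t34sum_hess (Γ := Γ) (φ := fun k : Fin 4 => fam Γ
      ((Fin.snoc (α := fun _ => OB × Fin 4) κ (⟨q, hq⟩, 3) : Fin 4 → OB × Fin 4) k).1.1
      ((Fin.snoc (α := fun _ => OB × Fin 4) κ (⟨q, hq⟩, 3) : Fin 4 → OB × Fin 4) k).2)
    (fun k => (Bx.Ok.pot F (Subtype.property _) _).c2) (β n) Finset.univ (r₂ n).continuous (cζ n) (T₂ n)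
  rw [hsum] at hsplit
  rw [hsplit, Fin.sum_univ_castSucc] at key
  simp only [Fin.snoc_castSucc, Fin.snoc_last] at key
  have w1 : -(3 * (‖α n‖ * M₅)) ≤ ∑ j : Fin 3, β n j.castSucc * ∫ t in (0 : ℝ)..T₂ n,
      fderiv ℝ (fderiv ℝ (φ j)) (y₂ n t) (ζ n t) (ζ n t) := by
    refine neg_le_of_abs_le ((Finset.abs_sum_le_sum_abs _ _).trans ?_)
    refine (Finset.sum_le_card_nsmul _ _ (‖α n‖ * M₅) fun j _ => ?_).trans (by simp)
    rw [abs_mul]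
    exact mul_le_mul (norm_le_pi_norm (α n) j) (d1 j) (abs_nonneg _) z3
  have w2 : β n 3 * (m / 2) ≤ β n 3 * ∫ t in (0 : ℝ)..T₂ n,
      fderiv ℝ (fderiv ℝ g) (y₂ n t) (ζ n t) (ζ n t) := mul_le_mul_of_nonneg_left a4 hpos.le
  have w3 : β n 3 * (m / 2) ≤ 3 * (‖α n‖ * M₅) + C₂ * (C₀ * (‖α n‖ + β n 3 * (2 * (θ * m)))) := by
    have : ∑ j : Fin 3, β n j.castSucc * (∫ t in (0 : ℝ)..T₂ n,
        fderiv ℝ (fderiv ℝ (φ j)) (y₂ n t) (ζ n t) (ζ n t)) + β n 3 * ∫ t in (0 : ℝ)..T₂ n,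
        fderiv ℝ (fderiv ℝ g) (y₂ n t) (ζ n t) (ζ n t) ≤
        C₂ * (C₀ * (‖α n‖ + β n 3 * (2 * (θ * m)))) := key
    linarith
  have w4 : ‖α n‖ * M₅ ≤ C₀ * (β n 3 * (2 * (θ * m))) * M₅ := mul_le_mul_of_nonneg_right s1 hM₅
  have w5 : C₂ * (C₀ * ‖α n‖) ≤ C₂ * (C₀ * (C₀ * (β n 3 * (2 * (θ * m))))) :=
    mul_le_mul_of_nonneg_left (mul_le_mul_of_nonneg_left s1 hC₀) hC₂
  have w6 : β n 3 * (m / 2) ≤ K * θ * (2 * (β n 3 * m)) := by
    rw [hK]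
    linarith
  have k5 : K * θ ≤ 1 / 8 := by
    rw [hθd, mul_one_div, div_le_iff₀ (by positivity)]
    linarith
  have k6 : 0 < β n 3 * m := mul_pos hpos hm0
  nlinarith [mul_le_mul_of_nonneg_right k5 k6.le]

end Pool.Agent.Lib.MP_5bb885_an.Gen
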