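import Pool.Agent.Lib.MP_5bb885_an.T34Defs

/-!
Critical values and energy along two close closed curves.
-/

namespace Pool.Agent.Lib.MP_5bb885_an.Gen

open UpperHalfPlane MeasureTheory Filter Topology

variable {Γ : Type} [Group Γ] [MulAction Γ ℍ] {L : ℂ × ℂ → ℝ} {c : Γ → ℝ} {x : ℝ → ℍ} {γ : Γ}
  {T : ℝ} {η : ℝ → ℂ}

lemma t34a_loop (F : Deck Γ) (hL : Tonelli Γ L) (hc : c ∈ Coh Γ) {g : ℂ → ℝ} (hg : C2 Γ g)
    {y₁ y₂ : ℝ → ℍ} {T₁ T₂ : ℝ} (h₁ : CP L c y₁ γ T₁) (h₂ : CP (addP L g) c y₂ γ T₂) :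
    (crit L c - crit (addP L g) c) * T₁ ≤ ∫ t in (0 : ℝ)..T₁, g (y₁ t) ∧
      ∫ t in (0 : ℝ)..T₂, g (y₂ t) ≤ (crit L c - crit (addP L g) c) * T₂ := by
  have hg0 := hg.1.continuousOn
  obtain ⟨a1, a2, a3⟩ := t18diff_act h₁
  obtain ⟨b1, b2, b3⟩ := t18diff_act h₂
  have b1' := (adm_addP hg0).1 b1
  have c1 := crit_loop F hL hc b1' b2
  have c2 := crit_loop F (hL.add F hg) hc ((adm_addP hg0).2 a1) a2
  rw [b1'.ac_addP hg0, b1'.ac_const (crit L c)] at b3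
  rw [a1.ac_addP hg0, a1.ac_const (crit L c), a3] at c2
  constructor <;> linarith

theorem CP.ctrl_a (F : Deck Γ) (hL : Tonelli Γ L) (hc : c ∈ Coh Γ) (h : CP L c x γ T)
    {l : Ultrafilter ℕ} (hl : (l : Filter ℕ) ≤ atTop) {f g : ℕ → ℂ → ℝ} (hf : ∀ n, C2 Γ (f n))
    (hg : ∀ n, C2 Γ (g n)) (hf0 : ToZero atTop f) (hg0 : ToZero atTop g) {cs : ℕ → Γ → ℝ}
    (hcs : ∀ n, cs n ∈ Coh Γ) (hcl : CLim l c cs) {y₁ y₂ : ℕ → ℝ → ℍ} {T₁ T₂ d : ℕ → ℝ}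
    (h₁ : ∀ n, CP (addP L (f n)) (cs n) (y₁ n) γ (T₁ n))
    (h₂ : ∀ n, CP (addP L (f n + g n)) (cs n) (y₂ n) γ (T₂ n))
    (t₁ : Tendsto T₁ l (𝓝 T)) (t₂ : Tendsto T₂ l (𝓝 T))
    (p₁ : Tendsto (fun n => y₁ n 0) l (𝓝 (x 0))) (p₂ : Tendsto (fun n => y₂ n 0) l (𝓝 (x 0)))
    (hd : ∀ n, 0 < d n)
    (h0 : Tendsto (fun n => ‖jet (y₁ n) 0 - jet (y₂ n) 0‖ / d n) l (𝓝 0))
    (h1 : Tendsto (fun n => g n (y₂ n 0) / d n) l (𝓝 0)) {ε : ℝ} (hε : 0 < ε) :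
    ∀ᶠ n in l, -ε ≤ (∫ t in (0 : ℝ)..T₁ n, g n (y₁ n t)) / d n ∧
      (∫ t in (0 : ℝ)..T₂ n, g n (y₂ n t)) / d n ≤ ε := by
  have S1 : LSeq Γ l L fun n => addP L (f n) := (lseq_of_toZero F hL hf hf0).mono hl
  have S2 : LSeq Γ l L fun n => addP L (f n + g n) :=
    (lseq_of_toZero F hL (fun n => (hf n).add (hg n)) (ToZero.add hf hg hf0 hg0)).mono hl
  have u1 := S1.uw_cp F hc hcs hcl h h₁ t₁ p₁
  have u2 := S2.uw_cp F hc hcs hcl h h₂ t₂ p₂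
  have h₂' : ∀ n, CP (addP (addP L (f n)) (g n)) (cs n) (y₂ n) γ (T₂ n) := fun n => by
    rw [addP_addP]
    exact h₂ n
  choose s hs hs' using fun n =>
    t18diff_mv (S1.tons n).smooth (jet_mem (y₂ n) 0) (jet_mem (y₁ n) 0)
  have j1 : Tendsto (fun n => jet (y₁ n) 0) l (𝓝 (jet x 0)) :=
    t9exp_lim fun ε hε => (u1 |0| ε hε).mono fun n hn => hn 0 le_rfl
  have j2 : Tendsto (fun n => jet (y₂ n) 0) l (𝓝 (jet x 0)) :=
    t9exp_lim fun ε hε => (u2 |0| ε hε).mono fun n hn => hn 0 le_rfl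
  have j3 : Tendsto (fun n => s n • (jet (y₁ n) 0 - jet (y₂ n) 0)) l (𝓝 0) := by
    refine squeeze_zero_norm (a := fun n => ‖jet (y₁ n) 0 - jet (y₂ n) 0‖) (fun n => ?_) ?_
    · rw [norm_smul, Real.norm_of_nonneg (hs n).1]
      exact mul_le_of_le_one_left (norm_nonneg _) (hs n).2
    · simpa using (j1.sub j2).norm
  have j4 := j2.add j3
  rw [add_zero] at j4
  have w : Tendsto (fun n => (d n)⁻¹ • (jet (y₁ n) 0 - jet (y₂ n) 0)) l (𝓝 0) := by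
    refine squeeze_zero_norm (fun n => le_of_eq ?_) h0
    rw [norm_smul, norm_inv, Real.norm_of_nonneg (hd n).le, div_eq_inv_mul]
  have w1 := (continuous_fst.tendsto _).comp w
  obtain ⟨z1, z2⟩ := t9exp_tend S1 (jet_mem x 0) j4
  have z3 := (tendsto_const_nhds (x := (0 : ℂ))).prodMk_nhds
    (continuous_snd.continuousAt.tendsto.comp j4)
  have z4 := ((t9exp_app (t9exp_app z2 w) z3).sub
    (t9exp_app z1 (w1.prodMk_nhds (tendsto_const_nhds (x := (0 : ℂ)))))).add h1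
  have z5 : Tendsto (fun n => (crit (addP L (f n)) (cs n) -
      crit (addP (addP L (f n)) (g n)) (cs n)) / d n) l (𝓝 0) := by
    have e0 : (D2 L (jet x 0)) 0 (0, (jet x 0).2) -
        fderiv ℝ L (jet x 0) ((0 : ℂ × ℂ).1, 0) + 0 = 0 := by
      rw [map_zero, show (((0 : ℂ × ℂ).1, 0) : ℂ × ℂ) = 0 from rfl, map_zero]
      simp
    rw [e0] at z4
    refine z4.congr fun n => ?_
    have e1 := t18diff_energy F (S1.tons n) (h₁ n) 0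
    have e2 := t18diff_energy F ((S1.tons n).add F (hg n)) (h₂' n) 0
    rw [(t18diff_mom (S1.tons n).smooth (hg n).1 (y₂ n)).1] at e2
    change fderiv ℝ (addP L (f n)) (jet (y₁ n) 0) (0, (jet (y₁ n) 0).2) = _ at e1
    change fderiv ℝ (addP L (f n)) (jet (y₂ n) 0) (0, (jet (y₂ n) 0).2) =
      addP L (f n) (jet (y₂ n) 0) + g n (y₂ n 0) + _ at e2
    have e6 : ((((d n)⁻¹ • (jet (y₁ n) 0 - jet (y₂ n) 0)).1, 0) : ℂ × ℂ) =
        (d n)⁻¹ • ((jet (y₁ n) 0 - jet (y₂ n) 0).1, 0) := by simp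
    have e7 := hs' n
    simp only [Function.comp_apply]
    rw [e6, map_smul, map_smul, smul_apply, ← smul_sub, e7, e1, e2, smul_eq_mul]
    ring
  have y1 := z5.mul t₁
  have y2 := z5.mul t₂
  rw [zero_mul] at y1 y2
  filter_upwards [y1.eventually (eventually_ge_nhds (neg_lt_zero.2 hε)),
    y2.eventually (eventually_le_nhds hε)] with n a b
  obtain ⟨k1, k2⟩ := t34a_loop F (S1.tons n) (hcs n) (hg n) (h₁ n) (h₂' n)
  rw [div_mul_eq_mul_div] at a b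
  exact ⟨a.trans (div_le_div_of_nonneg_right k1 (hd n).le),
    (div_le_div_of_nonneg_right k2 (hd n).le).trans b⟩

end Pool.Agent.Lib.MP_5bb885_an.Gen
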