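import Pool.Agent.Lib.MP_5bb885_an.T9Lip

/-!
Definitions for Lagrangians whose second derivatives are Lipschitz near one point of a curve.
-/

namespace Pool.Agent.Lib.MP_5bb885_an.Gen

open UpperHalfPlane MeasureTheory Filter Topology

/-- Families whose second derivatives are uniformly Lipschitz near `p`. -/
def LipAt (S : Set (ℂ × ℂ → ℝ)) (p : ℂ × ℂ) : Prop :=
  ∃ ρ M : ℝ, 0 < ρ ∧ 0 ≤ M ∧ ∀ L ∈ S, ∀ q q' : ℂ × ℂ, ‖q - p‖ ≤ ρ → ‖q' - p‖ ≤ ρ →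
    ‖D2 L q - D2 L q'‖ ≤ M * ‖q - q'‖

/-- The function `φ` vanishes near the arc of `x` over `[-a, a]`. -/
def Off (φ : ℂ → ℝ) (x : ℝ → ℍ) (a : ℝ) : Prop :=
  ∀ t, |t| ≤ a → φ =ᶠ[𝓝 (x t : ℂ)] fun _ => 0

/-- The coefficients with indices `κ k` are replaced by `β k`. -/
noncomputable def updk {n : ℕ} (a : Om) (κ : Fin n → OB × Fin 4) (β : Fin n → ℝ) : Om :=
  fun i j => Function.extend κ β (fun p => a p.1 p.2) (i, j)

end Pool.Agent.Lib.MP_5bb885_an.Gen
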