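import Pool.Agent.Lib.MP_5bb885_an.T34Defs

namespace Pool.Agent.Lib.MP_5bb885_an.Gen

open UpperHalfPlane MeasureTheory Filter Topology

theorem graph_null {B : Set (Fin 4 → ℝ)} (hB : IsCompact B) {Z : (Fin 4 → ℝ) → ℂ × ℂ}
    {z₀ v₀ : ℂ} (hv : v₀ ≠ 0) {C : ℝ} (hs : ∀ b ∈ B, (((Z b).1 - z₀) / v₀).re = 0)
    (h1 : ∀ b ∈ B, ∀ b' ∈ B, ‖Z b - Z b'‖ ≤ C * ‖b - b'‖)
    (h2 : ∀ b ∈ B, ∀ b' ∈ B, ‖b - b'‖ ≤ C * (‖Z b - Z b'‖ + |b 3 - b' 3|))
    (h3 : ∀ b ∈ B, ∀ b' ∈ B, Z b = Z b' → b 3 = b' 3) : volume B = 0 := by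
  obtain ⟨Φ, hΦ⟩ : ∃ Φ : (Fin 4 → ℝ) → Fin 4 → ℝ, ∀ b,
      Φ b = ![(((Z b).1 - z₀) / v₀).im, (Z b).2.re, (Z b).2.im, b 3] := ⟨_, fun _ => rfl⟩
  have e1 : ∀ b ∈ B, ∀ b' ∈ B, ‖Z b - Z b'‖ ≤
      ‖v₀‖ * |Φ b 0 - Φ b' 0| + |Φ b 1 - Φ b' 1| + |Φ b 2 - Φ b' 2| := by
    intro b hb b' hb'
    have a1 : (Z b - Z b').1 = v₀ * (((Z b).1 - z₀) / v₀ - ((Z b').1 - z₀) / v₀) := by
      rw [Prod.fst_sub]
      field_simp
      ring
    have a2 := Complex.norm_le_abs_re_add_abs_im (((Z b).1 - z₀) / v₀ - ((Z b').1 - z₀) / v₀)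
    rw [Complex.sub_re, hs b hb, hs b' hb', sub_self, abs_zero, zero_add, Complex.sub_im] at a2
    have a3 := Complex.norm_le_abs_re_add_abs_im ((Z b).2 - (Z b').2)
    rw [Complex.sub_re, Complex.sub_im] at a3
    have a4 := mul_le_mul_of_nonneg_left a2 (norm_nonneg v₀)
    simp only [hΦ, Matrix.cons_val_zero, Matrix.cons_val_one, Matrix.cons_val]
    rw [Prod.norm_def, a1, norm_mul, Prod.snd_sub]
    refine max_le ?_ ?_
    · linarith [abs_nonneg ((Z b).2.re - (Z b').2.re), abs_nonneg ((Z b).2.im - (Z b').2.im)]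
    · linarith [mul_nonneg (norm_nonneg v₀)
        (abs_nonneg ((((Z b).1 - z₀) / v₀).im - (((Z b').1 - z₀) / v₀).im))]
  have e3 : ∀ b, Φ b 3 = b 3 := fun b => by simp [hΦ]
  have e2 : ∀ b ∈ B, ∀ b' ∈ B, ‖b - b'‖ ≤ |C| * (‖v₀‖ + 3) * ‖Φ b - Φ b'‖ := by
    intro b hb b' hb'
    have a1 : ∀ i, |Φ b i - Φ b' i| ≤ ‖Φ b - Φ b'‖ := fun i => norm_le_pi_norm (Φ b - Φ b') i
    have a2 := e1 b hb b' hb'
    have a3 := a1 3
    rw [e3, e3] at a3
    have a4 := mul_le_mul_of_nonneg_left (a1 0) (norm_nonneg v₀)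
    refine (h2 b hb b' hb').trans ((mul_le_mul_of_nonneg_right (le_abs_self C)
      (by positivity)).trans ?_)
    rw [mul_assoc]
    exact mul_le_mul_of_nonneg_left (by linarith [a1 1, a1 2]) (abs_nonneg C)
  have c1 : ContinuousOn Z B :=
    (LipschitzOnWith.of_dist_le' fun b hb b' hb' => by
      simpa only [dist_eq_norm] using h1 b hb b' hb').continuousOn
  have c2 : ContinuousOn Φ B := by
    rw [show Φ = _ from funext hΦ]
    refine continuousOn_pi.2 fun i => ?_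
    fin_cases i
    · exact Complex.continuous_im.comp_continuousOn ((c1.fst.sub continuousOn_const).div_const _)
    · exact Complex.continuous_re.comp_continuousOn c1.snd
    · exact Complex.continuous_im.comp_continuousOn c1.snd
    · exact (continuous_apply 3).continuousOn
  have n1 : volume (Φ '' B) = 0 := by
    refine line_null (Pi.single 3 1) (hB.image_of_continuousOn c2).measurableSet fun y =>
      Set.Subsingleton.measure_zero ?_ _
    rintro s ⟨b, hb, f1⟩ s' ⟨b', hb', f2⟩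
    have a1 := e1 b hb b' hb'
    rw [f1, f2] at a1
    have a2 := h3 b hb b' hb' (sub_eq_zero.1 (norm_le_zero_iff.1 (by simpa using a1)))
    rw [← e3 b, ← e3 b', f1, f2] at a2
    simpa using a2
  have l1 : LipschitzOnWith (Real.toNNReal (|C| * (‖v₀‖ + 3))) (Function.invFunOn Φ B) (Φ '' B) :=
    LipschitzOnWith.of_dist_le' fun u hu u' hu' => by
      have := e2 _ (Function.invFunOn_mem hu) _ (Function.invFunOn_mem hu')
      rwa [Function.invFunOn_eq hu, Function.invFunOn_eq hu', ← dist_eq_norm, ← dist_eq_norm] at this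
  have i1 : Set.InjOn Φ B := fun b hb b' hb' h =>
    sub_eq_zero.1 (norm_le_zero_iff.1 (by simpa [h] using e2 b hb b' hb'))
  have l2 := l1.hausdorffMeasure_image_le (d := Fintype.card (Fin 4)) (Nat.cast_nonneg _)
  rw [hausdorffMeasure_pi_real, n1, mul_zero, i1.invFunOn_image subset_rfl] at l2
  exact le_zero_iff.1 l2

end Pool.Agent.Lib.MP_5bb885_an.Gen
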