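import Pool.Agent.Lib.MP_5bb885_an.T9JS

/-!
Existence of Jacobi fields with given initial values.
-/

namespace Pool.Agent.Lib.MP_5bb885_an.Gen

open UpperHalfPlane MeasureTheory Filter Topology

variable {Γ : Type} [Group Γ] [MulAction Γ ℍ] {L : ℂ × ℂ → ℝ} {c : Γ → ℝ} {x : ℝ → ℍ} {γ : Γ}
  {T : ℝ} {η : ℝ → ℂ}

/-- The terms of the Picard series. -/
noncomputable def t34j_d {E : Type} [NormedAddCommGroup E] [NormedSpace ℝ E]
    (B : ℝ → E →L[ℝ] E) (y₀ : E) : ℕ → ℝ → E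
  | 0 => fun _ => y₀
  | n + 1 => fun t => ∫ s in (0 : ℝ)..t, B s (t34j_d B y₀ n s)

/-- Global existence for linear equations with continuous coefficients. -/
lemma t34j_ode {E : Type} [NormedAddCommGroup E] [NormedSpace ℝ E] [CompleteSpace E]
    {B : ℝ → E →L[ℝ] E} (hB : Continuous B) (y₀ : E) :
    ∃ y : ℝ → E, y 0 = y₀ ∧ ∀ t, HasDerivAt y (B t (y t)) t := by
  have hs : ∀ {f : ℝ → E}, Continuous f → ∀ t,
      HasDerivAt (fun t => ∫ s in (0 : ℝ)..t, B s (f s)) (B t (f t)) t := fun hf t =>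
    ((hB.clm_apply hf).integral_hasStrictDerivAt 0 t).hasDerivAt
  have hc : ∀ n, Continuous (t34j_d B y₀ n) := fun n => by
    induction n with
    | zero => exact continuous_const
    | succ n ih => exact continuous_iff_continuousAt.2 fun t => (hs ih t).continuousAt
  refine ⟨fun t => y₀ + ∑' n, t34j_d B y₀ (n + 1) t, by simp [t34j_d], fun t => ?_⟩
  obtain ⟨W, hW⟩ : ∃ W, W = |t| + 1 := ⟨_, rfl⟩
  obtain ⟨M₀, hM₀⟩ := (isCompact_Icc (a := -W) (b := W)).exists_bound_of_continuousOn (f := B)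
    hB.continuousOn
  obtain ⟨M, hM0, hM⟩ : ∃ M : ℝ, 0 ≤ M ∧ ∀ s, |s| ≤ W → ‖B s‖ ≤ M :=
    ⟨max M₀ 0, le_max_right _ _, fun s hs => (hM₀ s (abs_le.1 hs)).trans (le_max_left _ _)⟩
  have hb : ∀ n r, |r| ≤ W → ‖t34j_d B y₀ n r‖ ≤ ‖y₀‖ * (M ^ n / n.factorial) * |r| ^ n := by
    intro n
    induction n with
    | zero => intro r _; simp [t34j_d]
    | succ n ih =>
      intro r hr
      refine intervalIntegral.norm_integral_le_integral_norm_uIoc.trans ?_
      refine (setIntegral_mono_on (g := fun s => M * (‖y₀‖ * (M ^ n / n.factorial)) * |s - 0| ^ n)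
        ((hB.clm_apply (hc n)).norm.integrableOn_uIoc)
        (Continuous.integrableOn_uIoc (by fun_prop)) measurableSet_uIoc fun s hs' => ?_).trans ?_
      · have h1 : |s| ≤ W := by
          have := Set.abs_sub_left_of_mem_uIcc (Set.uIoc_subset_uIcc hs')
          simp only [sub_zero] at this
          exact this.trans hr
        rw [sub_zero, mul_assoc]
        exact ((B s).le_opNorm _).trans (mul_le_mul (hM s h1) (ih s h1) (norm_nonneg _) hM0)
      · rw [integral_const_mul, integral_pow_abs_sub_uIoc, sub_zero, Nat.factorial_succ]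
        push_cast
        exact le_of_eq (by field_simp; ring)
  have hW0 : 0 ≤ W := hW ▸ by positivity
  have hb' : ∀ n r, |r| ≤ W → ‖t34j_d B y₀ n r‖ ≤ ‖y₀‖ * ((M * W) ^ n / n.factorial) := by
    intro n r hr
    refine (hb n r hr).trans ((mul_le_mul_of_nonneg_left
      (pow_le_pow_left₀ (abs_nonneg r) hr n) (by positivity)).trans (le_of_eq ?_))
    rw [mul_pow]
    ring
  have hu : Summable fun n : ℕ => ‖y₀‖ * ((M * W) ^ n / n.factorial) :=
    (Real.summable_pow_div_factorial _).mul_left _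
  have ht : |t| ≤ W := by linarith
  have hsum : Summable fun n => t34j_d B y₀ n t := Summable.of_norm_bounded hu fun n => hb' n t ht
  have h1 := hasDerivAt_tsum_of_isPreconnected (g := fun n => t34j_d B y₀ (n + 1))
    (g' := fun n r => B r (t34j_d B y₀ n r)) (t := Set.Ioo (-W) W) (y₀ := t) (y := t)
    (hu.mul_left M) isOpen_Ioo isPreconnected_Ioo (fun n r _ => hs (hc n) r)
    (fun n r hr => ((B r).le_opNorm _).trans (mul_le_mul (hM r (abs_lt.2 hr).le)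
      (hb' n r (abs_lt.2 hr).le) (norm_nonneg _) hM0))
    (abs_lt.1 (by linarith)) ((summable_nat_add_iff 1).2 hsum) (abs_lt.1 (by linarith))
  rw [← (B t).map_tsum hsum, hsum.tsum_eq_zero_add] at h1
  exact h1.const_add y₀

/-- Solutions of the linear Jacobi equation with given initial values. -/
lemma t34j_jacA {A : ℝ → ℂ × ℂ →L[ℝ] ℂ × ℂ →L[ℝ] ℝ} (hA : Coef A) (a u : ℂ) :
    ∃ ζ : ℝ → ℂ, JacA A ζ ∧ ζ 0 = a ∧ deriv ζ 0 = u := by
  choose e he using fun t => t9reg2_equiv (A t) (hA.2 t)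
  have c1 : Continuous fun t => (e t : ℂ × ℂ →L[ℝ] ℂ × (ℂ →L[ℝ] ℝ)) := by
    simp only [he]
    exact (ContinuousLinearMap.prodₗᵢ ℝ).continuous.comp
      (continuous_const.prodMk (continuous_const.clm_comp hA.1))
  have c2 : Continuous fun t => ((e t).symm : ℂ × (ℂ →L[ℝ] ℝ) →L[ℝ] ℂ × ℂ) := by
    simp only [← ContinuousLinearMap.inverse_equiv]
    exact continuous_iff_continuousAt.2 fun t =>
      (contDiffAt_map_inverse (n := 0) (e t)).continuousAt.comp (f := fun t =>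
        (e t : ℂ × ℂ →L[ℝ] ℂ × (ℂ →L[ℝ] ℝ))) c1.continuousAt
  set D : (ℂ × ℂ →L[ℝ] ℝ) →L[ℝ] ℂ →L[ℝ] ℝ :=
    (ContinuousLinearMap.compL ℝ ℂ (ℂ × ℂ) ℝ).flip (ContinuousLinearMap.inl ℝ ℂ ℂ) with hD
  have c3 : Continuous fun t => ((ContinuousLinearMap.snd ℝ ℂ ℂ).prod (D.comp (A t))).comp
      ((e t).symm : ℂ × (ℂ →L[ℝ] ℝ) →L[ℝ] ℂ × ℂ) :=
    ((ContinuousLinearMap.prodₗᵢ ℝ).continuous.comp
      (continuous_const.prodMk (continuous_const.clm_comp hA.1))).clm_comp c2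
  obtain ⟨y, y0, hy⟩ := t34j_ode c3 (e 0 (a, u))
  have e1 : ∀ t q, e t q = (q.1, Dv (A t q)) := fun t q => by
    have := congrArg (fun f : ℂ × ℂ →L[ℝ] ℂ × (ℂ →L[ℝ] ℝ) => f q) (he t)
    exact this
  have e2 : ∀ t, y t = (((e t).symm (y t)).1, Dv (A t ((e t).symm (y t)))) := fun t => by
    rw [← e1, ContinuousLinearEquiv.apply_symm_apply]
  have d1 : ∀ t, HasDerivAt (fun s => (y s).1) ((e t).symm (y t)).2 t := fun t =>
    (ContinuousLinearMap.fst ℝ ℂ (ℂ →L[ℝ] ℝ)).hasFDerivAt.comp_hasDerivAt t (hy t)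
  have d2 : ∀ t, HasDerivAt (fun s => (y s).2) (Dx (A t ((e t).symm (y t)))) t := fun t =>
    (ContinuousLinearMap.snd ℝ ℂ (ℂ →L[ℝ] ℝ)).hasFDerivAt.comp_hasDerivAt t (hy t)
  have e3 : ∀ t, (((y t).1, deriv (fun s => (y s).1) t) : ℂ × ℂ) = (e t).symm (y t) := fun t =>
    by
      have h1 : (y t).1 = ((e t).symm (y t)).1 := congrArg Prod.fst (e2 t)
      have h2 : deriv (fun s => (y s).1) t = ((e t).symm (y t)).2 := (d1 t).deriv
      rw [h2]
      exact Prod.ext h1 rfl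
  refine ⟨fun s => (y s).1, fun t => ⟨(d1 t).differentiableAt, ?_⟩, ?_, ?_⟩
  · simp only [e3]
    have : (fun s => Dv (A s ((e s).symm (y s)))) = fun s => (y s).2 :=
      funext fun s => (congrArg Prod.snd (e2 s)).symm
    rw [this]
    exact d2 t
  · beta_reduce
    rw [y0, e1]
  · rw [(d1 0).deriv, y0, ContinuousLinearEquiv.symm_apply_apply]

theorem exists_jac2 (hL : Tonelli Γ L) (hx : Reg L x) :
    ∃ ζ : ℝ → ℂ, Jac L x ζ ∧ En L x ζ ∧ ζ 0 = 0 ∧ deriv ζ 0 ≠ 0 := by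
  obtain ⟨u, hu, hu0⟩ : ∃ u : ℂ, u ≠ 0 ∧ D2 L (jet x 0) (0, u) (0, vel x 0) = 0 := by
    by_cases h : D2 L (jet x 0) (0, 1) (0, vel x 0) = 0
    · exact ⟨1, one_ne_zero, h⟩
    obtain ⟨p, hp⟩ : ∃ p, p = D2 L (jet x 0) (0, 1) (0, vel x 0) := ⟨_, rfl⟩
    obtain ⟨q, hq⟩ : ∃ q, q = D2 L (jet x 0) (0, Complex.I) (0, vel x 0) := ⟨_, rfl⟩
    refine ⟨q • (1 : ℂ) - p • Complex.I, fun c => h ?_, ?_⟩
    · have := congrArg Complex.im c
      rw [← hp]
      simpa using this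
    · have e : (((0 : ℂ), q • (1 : ℂ) - p • Complex.I) : ℂ × ℂ) =
          q • ((0 : ℂ), (1 : ℂ)) - p • ((0 : ℂ), Complex.I) := by simp
      rw [e, map_sub, map_smul, map_smul, sub_apply, smul_apply, smul_apply, ← hp, ← hq]
      simp [mul_comm]
  obtain ⟨ζ, hζ, z0, z1⟩ := t34j_jacA (hx.coef hL) 0 u
  refine ⟨ζ, hζ, fun t => ?_, z0, z1 ▸ hu⟩
  have ef : dmom L x (vel x) = frc L x := funext (hx.dmom_vel hL.smooth)
  have hw : ∀ s, HasDerivAt (fun r => dmom L x ζ r (vel x r) - dmom L x (vel x) r (ζ r)) 0 s := by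
    intro s
    have a1 : HasDerivAt (dmom L x ζ) (Dx (D2 L (jet x s) (ζ s, deriv ζ s))) s := (hζ s).2
    have a2 : HasDerivAt (dmom L x (vel x)) (Dx (D2 L (jet x s) (vel x s, deriv (vel x) s))) s :=
      (hx.jac_vel hL.smooth s).2
    refine ((a1.clm_apply (hx.acc s).hasDerivAt).sub
      (a2.clm_apply (hζ s).1.hasDerivAt)).congr_deriv ?_
    have b : ∀ (Q : ℂ × ℂ →L[ℝ] ℝ) (v w : ℂ), Dx Q v + Dv Q w = Q (v, w) := fun Q v w => by
      rw [t9aj_Dx_apply, t9aj_Dv_apply, ← map_add]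
      simp
    rw [dmom, dmom, b, b, D2_symm hL.smooth (jet_mem x s), sub_self]
  have h1 := is_const_of_deriv_eq_zero (fun s => (hw s).differentiableAt)
    (fun s => (hw s).deriv) t 0
  have h2 : dmom L x ζ 0 (vel x 0) = 0 := by rw [dmom, z0, z1]; exact hu0
  rw [h2, z0, map_zero, sub_self, sub_eq_zero, ef] at h1
  exact h1

end Pool.Agent.Lib.MP_5bb885_an.Gen
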