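import Pool.Agent.Lib.MP_5bb885_an.T34Defs

/-!
Resampling of finitely many coefficients.
-/

namespace Pool.Agent.Lib.MP_5bb885_an.Gen

open UpperHalfPlane MeasureTheory Filter Topology

variable {Γ : Type} [Group Γ] [MulAction Γ ℍ] {L : ℂ × ℂ → ℝ} {c : Γ → ℝ} {x : ℝ → ℍ} {γ : Γ}
  {T : ℝ} {η : ℝ → ℂ}

lemma updk_apply {n : ℕ} {κ : Fin n → OB × Fin 4} (hκ : Function.Injective κ) (a : Om)
    (β : Fin n → ℝ) (k : Fin n) : updk a κ β (κ k).1 (κ k).2 = β k :=
  hκ.extend_apply β (fun p => a p.1 p.2) k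

lemma t34m_off {n : ℕ} {κ : Fin n → OB × Fin 4} (a : Om) (β : Fin n → ℝ) {i : OB} {j : Fin 4}
    (h : ∀ k, κ k ≠ (i, j)) : updk a κ β i j = a i j :=
  Function.extend_apply' β (fun p : OB × Fin 4 => a p.1 p.2) (i, j) fun ⟨k, hk⟩ => h k hk

lemma continuous_updk {n : ℕ} (a : Om) (κ : Fin n → OB × Fin 4) : Continuous (updk a κ) := by
  classical
  refine continuous_pi fun i => continuous_pi fun j => ?_
  by_cases h : ∃ k, κ k = (i, j)
  · have e : (fun β : Fin n → ℝ => updk a κ β i j) = fun β => β (Classical.choose h) := by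
      funext β
      simp only [updk, Function.extend_def, dif_pos h]
    rw [e]
    exact continuous_apply _
  · have e : (fun β : Fin n → ℝ => updk a κ β i j) = fun _ => a i j := by
      funext β
      exact t34m_off a β fun k hk => h ⟨k, hk⟩
    rw [e]
    exact continuous_const

open Classical in
/-- One coefficient is replaced. -/
noncomputable def t34mUp (a : Om) (p : OB × Fin 4) (u : ℝ) : Om :=
  Function.update a p.1 (Function.update (a p.1) p.2 u)

lemma t34m_self (a : Om) (p : OB × Fin 4) (u : ℝ) : t34mUp a p u p.1 p.2 = u := by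
  simp [t34mUp]

lemma t34m_ne (a : Om) {p : OB × Fin 4} (u : ℝ) {i : OB} {j : Fin 4} (h : p ≠ (i, j)) :
    t34mUp a p u i j = a i j := by
  classical
  unfold t34mUp
  by_cases hi : i = p.1
  · subst hi
    have hj : j ≠ p.2 := fun e => h (by rw [e])
    rw [Function.update_self, Function.update_of_ne hj]
  · rw [Function.update_of_ne hi]

lemma t34m_ext {a b : Om} {p : OB × Fin 4} {u : ℝ} (h1 : b p.1 p.2 = u)
    (h2 : ∀ i j, p ≠ (i, j) → b i j = a i j) : b = t34mUp a p u := by
  funext i j
  by_cases h : p = (i, j)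
  · subst h
    exact h1.trans (t34m_self a (i, j) u).symm
  · rw [h2 i j h, t34m_ne a u h]

lemma t34m_idem (a : Om) (p : OB × Fin 4) (u v : ℝ) :
    t34mUp (t34mUp a p u) p v = t34mUp a p v :=
  t34m_ext (t34m_self _ _ _) fun _ _ h => by rw [t34m_ne _ _ h, t34m_ne _ _ h]

lemma t34m_cont (p : OB × Fin 4) : Continuous fun q : Om × ℝ => t34mUp q.1 p q.2 := by
  refine continuous_pi fun i => continuous_pi fun j => ?_
  by_cases h : p = (i, j)
  · subst h
    have e : (fun q : Om × ℝ => t34mUp q.1 (i, j) q.2 i j) = fun q => q.2 :=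
      funext fun q => t34m_self q.1 (i, j) q.2
    rw [e]
    exact continuous_snd
  · have e : (fun q : Om × ℝ => t34mUp q.1 p q.2 i j) = fun q => q.1 i j :=
      funext fun q => t34m_ne q.1 q.2 h
    rw [e]
    fun_prop

lemma t34m_meas (p : OB × Fin 4) : Measurable fun q : Om × ℝ => t34mUp q.1 p q.2 := by
  refine measurable_pi_lambda _ fun i => measurable_pi_lambda _ fun j => ?_
  by_cases h : p = (i, j)
  · subst h
    have e : (fun q : Om × ℝ => t34mUp q.1 (i, j) q.2 i j) = fun q => q.2 :=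
      funext fun q => t34m_self q.1 (i, j) q.2
    rw [e]
    exact measurable_snd
  · have e : (fun q : Om × ℝ => t34mUp q.1 p q.2 i j) = fun q => q.1 i j :=
      funext fun q => t34m_ne q.1 q.2 h
    rw [e]
    exact (measurable_pi_apply j).comp ((measurable_pi_apply i).comp measurable_fst)

lemma t34m_updk_meas {n : ℕ} (a : Om) (κ : Fin n → OB × Fin 4) : Measurable (updk a κ) :=
  measurable_pi_lambda _ fun i => measurable_pi_lambda _ fun j =>
    ((continuous_apply j).comp ((continuous_apply i).comp (continuous_updk a κ))).measurable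

lemma t34m_updk_congr {n : ℕ} {κ : Fin n → OB × Fin 4} (hκ : Function.Injective κ) (a : Om)
    {β β' : Fin n → ℝ} (k : Fin n) (h : ∀ k', k' ≠ k → β' k' = β k') :
    updk a κ β' = t34mUp (updk a κ β) (κ k) (β' k) := by
  refine t34m_ext (updk_apply hκ a β' k) fun i j hij => ?_
  by_cases hk : ∃ k', κ k' = (i, j)
  · obtain ⟨k', hk'⟩ := hk
    have e1 := updk_apply hκ a β' k'
    have e2 := updk_apply hκ a β k'
    rw [hk'] at e1 e2
    have hne : k' ≠ k := fun e => hij (e ▸ hk')
    exact e1.trans ((h k' hne).trans e2.symm)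
  · rw [t34m_off a β' fun k' e => hk ⟨k', e⟩, t34m_off a β fun k' e => hk ⟨k', e⟩]

lemma t34m_pert {ε : OB → ℝ} {P : Om → ℂ → ℝ} (h : Pert Γ ε P) (a : Om) (p : OB × Fin 4)
    {u u' : ℝ} (hu : u ∈ Set.Icc (-1 : ℝ) 1) (hu' : u' ∈ Set.Icc (-1 : ℝ) 1) :
    P (t34mUp a p u') = P (t34mUp a p u) + (ε p.1 * (u' - u)) • fam Γ p.1.1 p.2 := by
  classical
  have h1 := h.upd a p.1 (Function.update (a p.1) p.2 u)
  have h2 := h.upd a p.1 (Function.update (a p.1) p.2 u')
  have e : ∀ j, (ε p.1 * clamp (Function.update (a p.1) p.2 u' j)) • fam Γ p.1.1 j =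
      (ε p.1 * clamp (Function.update (a p.1) p.2 u j)) • fam Γ p.1.1 j +
        if j = p.2 then (ε p.1 * (u' - u)) • fam Γ p.1.1 p.2 else 0 := by
    intro j
    by_cases hj : j = p.2
    · subst hj
      rw [Function.update_self, Function.update_self, clamp_eq hu, clamp_eq hu', if_pos rfl,
        ← add_smul]
      congr 1
      ring
    · rw [Function.update_of_ne hj, Function.update_of_ne hj, if_neg hj, add_zero]
  unfold t34mUp
  rw [h1, h2, Finset.sum_congr rfl fun j _ => e j, Finset.sum_add_distrib, Finset.sum_ite_eq',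
    if_pos (Finset.mem_univ _), add_assoc]

lemma Pert.updk_eq {ε : OB → ℝ} {P : Om → ℂ → ℝ} (h : Pert Γ ε P) {n : ℕ}
    {κ : Fin n → OB × Fin 4} (hκ : Function.Injective κ) (a : Om) {β β' : Fin n → ℝ}
    (hβ : β ∈ Set.Icc (-1 : Fin n → ℝ) 1) (hβ' : β' ∈ Set.Icc (-1 : Fin n → ℝ) 1) :
    P (updk a κ β') = P (updk a κ β) +
      ∑ k, (ε (κ k).1 * (β' k - β k)) • fam Γ (κ k).1.1 (κ k).2 := by
  have key : ∀ s : Finset (Fin n), P (updk a κ fun k => if k ∈ s then β' k else β k) =
      P (updk a κ β) + ∑ k ∈ s, (ε (κ k).1 * (β' k - β k)) • fam Γ (κ k).1.1 (κ k).2 := by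
    intro s
    induction s using Finset.induction_on with
    | empty => simp
    | insert k s hk ih =>
      have e1 : updk a κ (fun k' => if k' ∈ insert k s then β' k' else β k') =
          t34mUp (updk a κ fun k' => if k' ∈ s then β' k' else β k') (κ k) (β' k) := by
        have := t34m_updk_congr hκ a (β := fun k' => if k' ∈ s then β' k' else β k')
          (β' := fun k' => if k' ∈ insert k s then β' k' else β k') k
          (fun k' hk' => by simp only [Finset.mem_insert, hk', false_or])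
        simpa only [Finset.mem_insert_self, if_true] using this
      have e2 : updk a κ (fun k' => if k' ∈ s then β' k' else β k') =
          t34mUp (updk a κ fun k' => if k' ∈ s then β' k' else β k') (κ k) (β k) := by
        have := t34m_updk_congr hκ a (β := fun k' => if k' ∈ s then β' k' else β k')
          (β' := fun k' => if k' ∈ s then β' k' else β k') k (fun _ _ => rfl)
        simpa only [hk, if_false] using this
      rw [e1, t34m_pert h _ (κ k) ⟨hβ.1 k, hβ.2 k⟩ ⟨hβ'.1 k, hβ'.2 k⟩, ← e2, ih,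
        Finset.sum_insert hk, add_assoc, add_comm (Finset.sum _ _)]
  simpa using key Finset.univ

/-- Resampling of one coefficient. -/
lemma t34m_step (p : OB × Fin 4) {N : Set Om} (hN : MeasurableSet N)
    (hm : MeasurableSet {a : Om |
      volume {u : ℝ | u ∈ Set.Icc (-1 : ℝ) 1 ∧ t34mUp a p u ∈ N} ≠ 0})
    (h : law {a : Om | volume {u : ℝ | u ∈ Set.Icc (-1 : ℝ) 1 ∧ t34mUp a p u ∈ N} ≠ 0} = 0) :
    law N = 0 := by
  classical
  set N' : Set Om := {a : Om |
    volume {u : ℝ | u ∈ Set.Icc (-1 : ℝ) 1 ∧ t34mUp a p u ∈ N} ≠ 0} with hN'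
  have h1 : law (N \ N') = 0 := by
    have hmt : MeasurableSet (N \ N') := hN.diff hm
    refine law_null cube p.1 hmt fun a => cube_null ?_
    have hopen : MeasurableSet {y : Fin 4 → ℝ | ∀ j', y j' ∈ Set.Ioo (-1 : ℝ) 1} := by
      rw [Set.ofPred_forall]
      exact MeasurableSet.iInter fun j' => measurable_pi_apply j' measurableSet_Ioo
    refine line_null (Pi.single p.2 1) ((measurable_update a hmt).inter hopen) fun y => ?_
    have e : ∀ s : ℝ, Function.update a p.1 (y + s • (Pi.single p.2 1 : Fin 4 → ℝ)) =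
        t34mUp (Function.update a p.1 y) p (y p.2 + s) := by
      intro s
      refine t34m_ext (by simp) fun i j hij => ?_
      by_cases hi : i = p.1
      · subst hi
        have hj : j ≠ p.2 := fun e => hij (by rw [e])
        simp [hj]
      · rw [Function.update_of_ne hi, Function.update_of_ne hi]
    by_cases hb : volume {u : ℝ | u ∈ Set.Icc (-1 : ℝ) 1 ∧
        t34mUp (Function.update a p.1 y) p u ∈ N} = 0
    · rw [← measure_preimage_add volume (y p.2)] at hb
      refine measure_mono_null (fun s hs => ?_) hb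
      obtain ⟨hs1, hs2⟩ := hs
      have a1 : Function.update a p.1 (y + s • (Pi.single p.2 1 : Fin 4 → ℝ)) ∈ N := hs1.1
      have a2 := Set.Ioo_subset_Icc_self (hs2 p.2)
      rw [e] at a1
      refine ⟨?_, a1⟩
      simpa using a2
    · refine measure_mono_null (fun s hs => ?_) (measure_empty (μ := volume))
      have a1 : Function.update a p.1 (y + s • (Pi.single p.2 1 : Fin 4 → ℝ)) ∉ N' := hs.1.2
      refine a1 ?_
      rw [e, hN']
      simpa only [Set.mem_ofPred_eq, t34m_idem] using hb
  refine measure_mono_null (fun a ha => ?_) (measure_union_null h h1)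
  by_cases h2 : a ∈ N'
  · exact Or.inl h2
  · exact Or.inr ⟨ha, h2⟩

theorem law_null_k {n : ℕ} {κ : Fin n → OB × Fin 4} (hκ : Function.Injective κ) {N : Set Om}
    (hN : MeasurableSet N)
    (h : ∀ a : Om, volume {β : Fin n → ℝ | β ∈ Set.Icc (-1 : Fin n → ℝ) 1 ∧ updk a κ β ∈ N} = 0) :
    law N = 0 := by
  induction n generalizing N with
  | zero =>
    have e : N = ∅ := by
      refine Set.eq_empty_of_forall_notMem fun a ha => ?_
      have h1 := h a
      have e1 : {β : Fin 0 → ℝ | β ∈ Set.Icc (-1 : Fin 0 → ℝ) 1 ∧ updk a κ β ∈ N} = Set.univ := by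
        refine Set.eq_univ_of_forall fun β => ⟨⟨fun k => k.elim0, fun k => k.elim0⟩, ?_⟩
        have e2 : updk a κ β = a := by
          funext i j
          exact t34m_off a β fun k => k.elim0
        rwa [e2]
      rw [e1, volume_pi, Measure.pi_univ] at h1
      simp at h1
    rw [e, measure_empty]
  | succ n ih =>
    have hS : MeasurableSet {q : Om × ℝ | q.2 ∈ Set.Icc (-1 : ℝ) 1 ∧ t34mUp q.1 (κ 0) q.2 ∈ N} :=
      (measurable_snd measurableSet_Icc).inter (t34m_meas (κ 0) hN)
    have hm : MeasurableSet {a : Om |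
        volume {u : ℝ | u ∈ Set.Icc (-1 : ℝ) 1 ∧ t34mUp a (κ 0) u ∈ N} ≠ 0} :=
      (measurable_measure_prodMk_left (ν := volume) hS (measurableSet_singleton 0)).compl
    refine t34m_step (κ 0) hN hm
      (ih (κ := fun k => κ k.succ) (hκ.comp (Fin.succ_injective n)) hm fun a => ?_)
    set A : Set (Fin (n + 1) → ℝ) :=
      {β | β ∈ Set.Icc (-1 : Fin (n + 1) → ℝ) 1 ∧ updk a κ β ∈ N} with hA
    have hAm : MeasurableSet A := measurableSet_Icc.inter (t34m_updk_meas a κ hN)
    have hp := (volume_preserving_piFinSuccAbove (fun _ : Fin (n + 1) => ℝ) 0).symm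
    have hB : MeasurableSet ((MeasurableEquiv.piFinSuccAbove (fun _ : Fin (n + 1) => ℝ) 0).symm ⁻¹'
        A) := hp.measurable hAm
    have h0 := (hp.measure_preimage hAm.nullMeasurableSet).trans (h a)
    rw [Measure.volume_eq_prod, Measure.prod_apply_symm hB,
      lintegral_eq_zero_iff (measurable_measure_prodMk_right hB)] at h0
    refine measure_mono_null (fun β hβ => ?_) h0
    obtain ⟨hβ1, hβ2⟩ := hβ
    intro hz
    refine hβ2 (measure_mono_null (fun u hu => ?_) hz)
    have e : (MeasurableEquiv.piFinSuccAbove (fun _ : Fin (n + 1) => ℝ) 0).symm (u, β) =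
        (Fin.cons u β : Fin (n + 1) → ℝ) := by
      simp [MeasurableEquiv.piFinSuccAbove, Fin.consEquiv]
    have e2 : updk a κ (Fin.cons u β : Fin (n + 1) → ℝ) =
        t34mUp (updk a (fun k => κ k.succ) β) (κ 0) u := by
      refine t34m_ext (updk_apply hκ a _ 0) fun i j hij => ?_
      by_cases hk : ∃ k : Fin n, κ k.succ = (i, j)
      · obtain ⟨k, hk⟩ := hk
        have e3 := updk_apply hκ a (Fin.cons u β : Fin (n + 1) → ℝ) k.succ
        have e4 := updk_apply (κ := fun k => κ k.succ) (hκ.comp (Fin.succ_injective n)) a β k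
        simp only [hk] at e3 e4
        exact e3.trans e4.symm
      · rw [t34m_off a β fun k e => hk ⟨k, e⟩]
        refine t34m_off a _ fun k => ?_
        refine Fin.cases hij (fun k e => hk ⟨k, e⟩) k
    change (MeasurableEquiv.piFinSuccAbove (fun _ : Fin (n + 1) => ℝ) 0).symm (u, β) ∈ A
    rw [e]
    refine ⟨⟨fun k => ?_, fun k => ?_⟩, ?_⟩
    · exact Fin.cases hu.1.1 (fun k => hβ1.1 k) k
    · exact Fin.cases hu.1.2 (fun k => hβ1.2 k) k
    · rw [e2]
      exact hu.2

end Pool.Agent.Lib.MP_5bb885_an.Gen
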