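import Pool.Agent.Lib.MP_5bb885_an.T34Null

/-!
The theorem for Lagrangians whose second derivatives are Lipschitz near one point of each
one-sided closed orbit.
-/

namespace Pool.Agent.Lib.MP_5bb885_an.Gen

open UpperHalfPlane MeasureTheory Filter Topology

variable {Γ : Type} [Group Γ] [MulAction Γ ℍ] {L : ℂ × ℂ → ℝ} {b : ℕ}

theorem dense_good_loc (F : Deck Γ) (hL : Tonelli Γ L)
    (h3 : ∀ f, Pot Γ f → ∀ (γ : Γ) (x : ℝ → ℍ) (T : ℝ), EL (addP L f) x → Per x γ T → ¬Ori γ →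
      ∃ t, LipAt {L} (jet x t))
    (e : (Fin b → ℝ) ≃ₗ[ℝ] Coh Γ) {f : ℂ → ℝ} (hf : Pot Γ f) (k : ℕ) {δ : ℝ} (hδ : 0 < δ) :
    ∃ g, Pot Γ g ∧ Near k δ f g ∧ ∀ᵐ t, Gs (addP L g) (e t : Γ → ℝ) := by
  obtain ⟨k₀, hk₀⟩ := F.three
  obtain ⟨ε, P, hP, hN⟩ := exists_pert F (max k k₀) hδ
  have hL' : Tonelli Γ (addP L f) := hL.add F hf.c2
  have hb : ∀ R : ℝ, ∃ M : ℝ, ∀ g ∈ Set.range P, ∀ j ≤ 3, ∀ z ∈ KB R,
      ‖iteratedFDeriv ℝ j g z‖ ≤ M := fun R => by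
    obtain ⟨M, hM⟩ := hk₀ δ R
    refine ⟨M, ?_⟩
    rintro _ ⟨a, rfl⟩
    have h1 := (hN a 0).mono (le_max_right k k₀)
    rw [zero_add] at h1
    exact hM _ (hP.pot a) h1
  have hl : ∀ (a : Om) (γ : Γ) (x : ℝ → ℍ) (T : ℝ), EL (addP (addP L f) (P a)) x → Per x γ T →
      ¬Ori γ → ∃ t, LipAt (addP (addP L f) '' Set.range P) (jet x t) := by
    intro a γ x T h1 h2 h4
    rw [addP_addP] at h1
    obtain ⟨t, ht⟩ := h3 _ (hf.add (hP.pot a)) γ x T h1 h2 h4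
    have h0 := LipAt.add (Γ := Γ) hL.smooth (jet_mem x t) ht (G := {f})
      (by rintro _ rfl; exact hf) hf.bdd3
    rw [Set.image_singleton] at h0
    exact ⟨t, LipAt.add (Γ := Γ) hL'.smooth (jet_mem x t) h0
      (by rintro _ ⟨a, rfl⟩; exact hP.pot a) hb⟩
  obtain ⟨a, ⟨h1, h2⟩, h4⟩ := (((hP.ae_tdall F hL' e).and (hP.ae_nondeg F hL')).and
    (hP.ae_nodegO_loc F hL' e (bddC2_of_three hb) hl)).exists
  refine ⟨f + P a, hf.add (hP.pot a), (hN a f).mono (le_max_left k k₀), ?_⟩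
  rw [addP_addP] at h1 h2 h4
  filter_upwards [h1, h4] with t ht ht'
  rcases ht.gs_or' F (hL.add F (hf.add (hP.pot a)).c2) (e t).2 with h5 | h5 | h5
  · exact h5
  · exact absurd h5 h2
  · exact absurd h5 ht'

theorem main_loc (F : Deck Γ) (hL : Tonelli Γ L)
    (h3 : ∀ f, Pot Γ f → ∀ (γ : Γ) (x : ℝ → ℍ) (T : ℝ), EL (addP L f) x → Per x γ T → ¬Ori γ →
      ∃ t, LipAt {L} (jet x t)) :
    ∃ b : ℕ, Nonempty ((Fin b → ℝ) ≃ₗ[ℝ] Coh Γ) ∧ ∃ O : ℕ → Set (ℂ → ℝ),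
      (∀ n, OpenDense Γ (O n)) ∧ ∀ f, Pot Γ f → (∀ n, f ∈ O n) →
        ∀ e : (Fin b → ℝ) ≃ₗ[ℝ] Coh Γ, ∀ᵐ t, Good Γ (addP L f) (e t : Γ → ℝ) := by
  obtain ⟨b, ⟨e₀⟩⟩ := F.dim
  obtain ⟨O, hO, hG⟩ := residual_good F hL e₀ fun f hf k δ hδ => dense_good_loc F hL h3 e₀ hf k hδ
  refine ⟨b, ⟨e₀⟩, O, hO, fun f hf hfO e => ?_⟩
  have h1 := ae_transfer e₀ e (P := fun c : Coh Γ => Gs (addP L f) (c : Γ → ℝ)) (hG f hf hfO)
  filter_upwards [h1] with t ht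
  exact ht.good F (hL.add F hf.c2) (e t).2

end Pool.Agent.Lib.MP_5bb885_an.Gen
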