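import Pool.Agent.Lib.MP_5bb885_an.T34Defs

/-!
Local Lipschitz bounds and small time shifts.
-/

namespace Pool.Agent.Lib.MP_5bb885_an.Gen

open UpperHalfPlane MeasureTheory Filter Topology

variable {Γ : Type} [Group Γ] [MulAction Γ ℍ] {L : ℂ × ℂ → ℝ} {c : Γ → ℝ} {x : ℝ → ℍ} {γ : Γ}
  {T : ℝ} {η : ℝ → ℂ}

lemma lipAt_of {p : ℂ × ℂ} {s : Set (ℂ × ℂ)} (hs : s ∈ 𝓝 p) {K : NNReal}
    (h : LipschitzOnWith K (D2 L) s) : LipAt {L} p := by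
  obtain ⟨ρ, hρ, hsub⟩ := Metric.nhds_basis_closedBall.mem_iff.1 hs
  refine ⟨ρ, K, hρ, K.2, ?_⟩
  rintro _ rfl q q' hq hq'
  have h1 := h.dist_le_mul q (hsub (mem_closedBall_iff_norm.2 hq)) q'
    (hsub (mem_closedBall_iff_norm.2 hq'))
  rwa [dist_eq_norm, dist_eq_norm] at h1

lemma LipAt.add (hL2 : ContDiffOn ℝ 2 L TH) {p : ℂ × ℂ} (hp : p ∈ TH) (hL : LipAt {L} p)
    {G : Set (ℂ → ℝ)} (hG : ∀ f ∈ G, Pot Γ f)
    (h : ∀ R : ℝ, ∃ M : ℝ, ∀ f ∈ G, ∀ j ≤ 3, ∀ z ∈ KB R, ‖iteratedFDeriv ℝ j f z‖ ≤ M) :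
    LipAt (addP L '' G) p := by
  obtain ⟨ρ, A, hρ, hA0, hA⟩ := hL
  obtain ⟨R, hR⟩ := exists_KB (Q := {p.1}) isCompact_singleton (by
    rintro _ rfl
    exact hp)
  obtain ⟨δ, hδ, hth⟩ := KB_thick R
  obtain ⟨M, hM⟩ := h (R + 1)
  have hin : ∀ q : ℂ × ℂ, ‖q - p‖ ≤ min ρ δ → q.1 ∈ KB (R + 1) := fun q hq => by
    have h1 := hth p.1 (hR rfl) (q.1 - p.1)
      ((norm_fst_le (q - p)).trans (hq.trans (min_le_right _ _)))
    rwa [add_sub_cancel] at h1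
  refine ⟨min ρ δ, A + |M|, lt_min hρ hδ, by positivity, ?_⟩
  rintro _ ⟨f, hf, rfl⟩ q q' hq hq'
  have hp1 := hin q hq
  have hp2 := hin q' hq'
  have h2 : ContDiffOn ℝ 3 f HP := t18c3_pot (hG f hf)
  have a1 : ‖D2 L q - D2 L q'‖ ≤ A * ‖q - q'‖ :=
    hA L rfl q q' (hq.trans (min_le_left _ _)) (hq'.trans (min_le_left _ _))
  have a2 : ‖fderiv ℝ (fderiv ℝ f) q.1 - fderiv ℝ (fderiv ℝ f) q'.1‖ ≤ |M| * ‖q.1 - q'.1‖ :=
    (convex_KB (R + 1)).norm_image_sub_le_of_norm_fderiv_le (𝕜 := ℝ)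
      (fun x hx => ((t18c3_c1 isOpen_HP h2).contDiffAt
        (isOpen_HP.mem_nhds (KB_sub _ hx))).differentiableAt (by norm_num))
      (fun x hx => by
        rw [← norm_iteratedFDeriv_one, norm_iteratedFDeriv_fderiv, norm_iteratedFDeriv_fderiv]
        exact (hM f hf 3 le_rfl x hx).trans (le_abs_self _)) hp2 hp1
  have a3 : ‖fderiv ℝ (fderiv ℝ f) q.1 - fderiv ℝ (fderiv ℝ f) q'.1‖ ≤ |M| * ‖q - q'‖ :=
    a2.trans (mul_le_mul_of_nonneg_left (norm_fst_le (q - q')) (abs_nonneg _))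
  have hf2 : ContDiffOn ℝ 2 f HP := h2.of_le (by norm_num)
  refine ContinuousLinearMap.opNorm_le_bound₂ _ (by positivity) fun u k => ?_
  have e : (D2 (addP L f) q - D2 (addP L f) q') u k = (D2 L q - D2 L q') u k +
      (fderiv ℝ (fderiv ℝ f) q.1 - fderiv ℝ (fderiv ℝ f) q'.1) u.1 k.1 := by
    simp only [sub_apply]
    rw [D2_addP hL2 hf2 (KB_sub _ hp1), D2_addP hL2 hf2 (KB_sub _ hp2)]
    ring
  rw [e]
  have b1 := (D2 L q - D2 L q').le_of_opNorm₂_le_of_le a1 (le_refl ‖u‖) (le_refl ‖k‖)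
  have b2 := (fderiv ℝ (fderiv ℝ f) q.1 - fderiv ℝ (fderiv ℝ f) q'.1).le_of_opNorm₂_le_of_le a3
    (norm_fst_le u) (norm_fst_le k)
  exact (norm_add_le _ _).trans (by linarith)

/-- A time shift, with the field normalised again. -/
lemma OD.shift (F : Deck Γ) (hL : Tonelli Γ L) (h : OD L c x γ T η) (r : ℝ) :
    0 < ‖η r‖ + ‖deriv η r‖ ∧ OD L c (fun t => x (t + r)) γ T
      ((‖η r‖ + ‖deriv η r‖)⁻¹ • fun t => η (t + r)) := by
  have hx := h.cp.reg F hL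
  have hJ1 := h.jac.shift r
  have hE1 := h.en.shift r
  have hN0 : 0 < ‖η r‖ + ‖deriv η r‖ := by
    refine lt_of_le_of_ne (add_nonneg (norm_nonneg _) (norm_nonneg _)) fun h0 => ?_
    have h1 := (add_eq_zero_iff_of_nonneg (norm_nonneg _) (norm_nonneg _)).1 h0.symm
    have h2 : η = fun _ => 0 := funext fun t =>
      JacA.eq_zero (hx.coef hL) h.jac (s := r) (norm_eq_zero.1 h1.1) (norm_eq_zero.1 h1.2) t
    have h3 := h.one
    rw [h2] at h3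
    simp at h3
  refine ⟨hN0, h.cp.shift _, h.no, JacA.smul hJ1 _, hE1.smul' (fun t => (hJ1 t).1) _,
    fun t => ?_, ?_⟩
  · rw [Pi.smul_apply, Pi.smul_apply, map_smul, add_right_comm, h.anti, smul_neg]
  · rw [deriv_const_smul _ (hJ1 0).1, Pi.smul_apply, norm_smul, norm_smul, ← mul_add,
      deriv_comp_add_const, zero_add, Real.norm_eq_abs, abs_of_pos (inv_pos.2 hN0),
      inv_mul_cancel₀ hN0.ne']

/-- Small time shifts put convergent degenerate curves on the transversal. -/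
theorem LSeq.od_section (F : Deck Γ) {l : Ultrafilter ℕ} {Ls : ℕ → ℂ × ℂ → ℝ}
    (h : LSeq Γ l L Ls) (hc : c ∈ Coh Γ) {cs : ℕ → Γ → ℝ} (hcs : ∀ n, cs n ∈ Coh Γ)
    (hl : CLim l c cs) (hx : OD L c x γ T η) {ys : ℕ → ℝ → ℍ} {Ts : ℕ → ℝ} {ζ : ℕ → ℝ → ℂ}
    (h1 : ∀ n, OD (Ls n) (cs n) (ys n) γ (Ts n) (ζ n)) (h2 : Tendsto Ts l (𝓝 T))
    (h3 : Tendsto (fun n => ys n 0) l (𝓝 (x 0))) (h4 : Tendsto (fun n => ζ n 0) l (𝓝 (η 0)))
    (h5 : Tendsto (fun n => deriv (ζ n) 0) l (𝓝 (deriv η 0))) :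
    ∃ (ys' : ℕ → ℝ → ℍ) (ζ' : ℕ → ℝ → ℂ), (∀ n, OD (Ls n) (cs n) (ys' n) γ (Ts n) (ζ' n)) ∧
      (∀ᶠ n in l, (((ys' n 0 : ℂ) - x 0) / vel x 0).re = 0) ∧
      Tendsto (fun n => (ys' n 0, ζ' n 0, deriv (ζ' n) 0)) l (𝓝 (x 0, η 0, deriv η 0)) := by
  obtain ⟨u0, u1, u2⟩ := h.uw_od F hc hcs hl hx h1 h2 h3 h4 h5
  have hR := hx.cp.reg F h.ton
  have r1 : ∀ n, Reg (Ls n) (ys n) := fun n => (h1 n).cp.reg F (h.tons n)
  obtain ⟨σ, hσ, hsec⟩ := exists_section ⟨hR.hasDerivAt, hR.contVel⟩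
    (fun n => ⟨(r1 n).hasDerivAt, (r1 n).contVel⟩) u0 (hx.cp.vel_ne F h.ton hx.no 0)
    (z := fun _ => x 0) tendsto_const_nhds
  have c1 : Continuous η := continuous_iff_continuousAt.2 fun t => (hx.jac t).1.continuousAt
  have c2 : Continuous (deriv η) := JacA.contDeriv (hR.coef h.ton) hx.jac
  have t0 : Tendsto (fun n => ys n (0 + σ n)) l (𝓝 (x 0)) := by
    rw [isEmbedding_coe.tendsto_nhds_iff]
    simp only [zero_add]
    exact (continuous_fst.tendsto _).comp (u0.tendsto hR.contJet hσ)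
  have t1 := u1.tendsto c1 hσ
  have t2 := u2.tendsto c2 hσ
  have tN : Tendsto (fun n => (‖ζ n (σ n)‖ + ‖deriv (ζ n) (σ n)‖)⁻¹) l (𝓝 1) := by
    have := (t1.norm.add t2.norm).inv₀ (by rw [hx.one]; exact one_ne_zero)
    rwa [hx.one, inv_one] at this
  refine ⟨fun n t => ys n (t + σ n),
    fun n => (‖ζ n (σ n)‖ + ‖deriv (ζ n) (σ n)‖)⁻¹ • fun t => ζ n (t + σ n),
    fun n => ((h1 n).shift F (h.tons n) (σ n)).2, ?_, t0.prodMk_nhds (Tendsto.prodMk_nhds ?_ ?_)⟩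
  · simpa only [zero_add] using hsec
  · have := tN.smul t1
    rw [one_smul] at this
    simpa only [Pi.smul_apply, zero_add] using this
  · have := tN.smul t2
    rw [one_smul] at this
    refine this.congr fun n => ?_
    rw [deriv_const_smul _ (((h1 n).jac.shift (σ n)) 0).1, deriv_comp_add_const, zero_add]

end Pool.Agent.Lib.MP_5bb885_an.Gen
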