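import Pool.Agent.Lib.MP_5bb885_an.T34Cone
import Pool.Agent.Lib.MP_5bb885_an.T34Law
import Pool.Agent.Lib.MP_5bb885_an.T34Graph
import Pool.Agent.Lib.MP_5bb885_an.T34Small

/-!
Degenerate one-sided curves occur with probability zero when the second derivative of the
Lagrangian is Lipschitz near one of their points.
-/

namespace Pool.Agent.Lib.MP_5bb885_an.Gen

open UpperHalfPlane MeasureTheory Filter Topology

variable {Γ : Type} [Group Γ] [MulAction Γ ℍ] {L : ℂ × ℂ → ℝ} {ε : OB → ℝ} {P : Om → ℂ → ℝ}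
  {b : ℕ}

lemma Pert.od_nhds4 (F : Deck Γ) (hL : Tonelli Γ L) (h : Pert Γ ε P)
    (e : (Fin b → ℝ) ≃ₗ[ℝ] Coh Γ) (hb : BddC2 (Set.range P))
    {a : Om} {t : Fin b → ℝ} {x : ℝ → ℍ} {γ : Γ} {T : ℝ} {η : ℝ → ℂ}
    (hx : OD (addP L (P a)) (e t : Γ → ℝ) x γ T η) (hm : MinPer x γ T)
    (hl : LipAt (addP L '' Set.range P) (jet x (T / 2))) :
    ∃ (κ : Fin 4 → OB × Fin 4) (C : ℝ), Function.Injective κ ∧ 0 ≤ C ∧
      ∃ O ∈ 𝓝 ((a, t), (T, x 0, η 0, deriv η 0)), ∀ (a₁ a₂ : Om) (t' : Fin b → ℝ)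
        (y₁ y₂ : ℝ → ℍ) (T₁ T₂ : ℝ) (ζ₁ ζ₂ : ℝ → ℂ) (β : Fin 4 → ℝ),
        OD (addP L (P a₁)) (e t' : Γ → ℝ) y₁ γ T₁ ζ₁ →
        OD (addP L (P a₂)) (e t' : Γ → ℝ) y₂ γ T₂ ζ₂ →
        ((a₁, t'), (T₁, y₁ 0, ζ₁ 0, deriv ζ₁ 0)) ∈ O →
        ((a₂, t'), (T₂, y₂ 0, ζ₂ 0, deriv ζ₂ 0)) ∈ O →
        (((y₁ 0 : ℂ) - y₂ 0) / vel x 0).re = 0 →
        (∀ k, β k = ε (κ k).1 * (a₂ (κ k).1 (κ k).2 - a₁ (κ k).1 (κ k).2)) →
        P a₂ = P a₁ + ∑ k, β k • fam Γ (κ k).1.1 (κ k).2 →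
        ‖jet y₁ 0 - jet y₂ 0‖ ≤ C * ‖β‖ ∧ ‖β‖ ≤ C * (‖jet y₁ 0 - jet y₂ 0‖ + |β 3|) ∧
          (jet y₁ 0 = jet y₂ 0 → β 3 ≤ 0) := by
  have hL' : Tonelli Γ (addP L (P a)) := hL.add F (h.pot a).c2
  have U : Unif (addP L '' Set.range P) :=
    hL.unif F (by rintro _ ⟨a', rfl⟩; exact (h.pot a').c2) hb
  obtain ⟨κ, C, hκ, hC, H⟩ := OD.cone4 F hL' (e t).2 U hx hm hl
  refine ⟨κ, C, hκ, hC, ?_⟩
  by_contra hcon
  obtain ⟨u, hu⟩ := (𝓝 (((a, t), (T, x 0, η 0, deriv η 0)) :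
    (Om × (Fin b → ℝ)) × (ℝ × ℍ × ℂ × ℂ))).exists_antitone_basis
  have key : ∀ n, ∃ (a₁ a₂ : Om) (t' : Fin b → ℝ) (y₁ y₂ : ℝ → ℍ) (T₁ T₂ : ℝ) (ζ₁ ζ₂ : ℝ → ℂ)
      (β : Fin 4 → ℝ), OD (addP L (P a₁)) (e t' : Γ → ℝ) y₁ γ T₁ ζ₁ ∧
        OD (addP L (P a₂)) (e t' : Γ → ℝ) y₂ γ T₂ ζ₂ ∧
        ((a₁, t'), (T₁, y₁ 0, ζ₁ 0, deriv ζ₁ 0)) ∈ u n ∧
        ((a₂, t'), (T₂, y₂ 0, ζ₂ 0, deriv ζ₂ 0)) ∈ u n ∧
        (((y₁ 0 : ℂ) - y₂ 0) / vel x 0).re = 0 ∧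
        (∀ k, β k = ε (κ k).1 * (a₂ (κ k).1 (κ k).2 - a₁ (κ k).1 (κ k).2)) ∧
        P a₂ = P a₁ + ∑ k, β k • fam Γ (κ k).1.1 (κ k).2 ∧
        ¬(‖jet y₁ 0 - jet y₂ 0‖ ≤ C * ‖β‖ ∧ ‖β‖ ≤ C * (‖jet y₁ 0 - jet y₂ 0‖ + |β 3|) ∧
          (jet y₁ 0 = jet y₂ 0 → β 3 ≤ 0)) := by
    intro n
    by_contra hn
    refine hcon ⟨u n, hu.mem n, fun a₁ a₂ t' y₁ y₂ T₁ T₂ ζ₁ ζ₂ β g1 g2 g3 g4 g5 g6 g7 => ?_⟩
    by_contra g8
    exact hn ⟨a₁, a₂, t', y₁, y₂, T₁, T₂, ζ₁, ζ₂, β, g1, g2, g3, g4, g5, g6, g7, g8⟩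
  choose a₁ a₂ t' y₁ y₂ T₁ T₂ ζ₁ ζ₂ β g1 g2 g3 g4 g5 g6 g7 g8 using key
  have tp := hu.tendsto g3
  have tp' := hu.tendsto g4
  have ta : Tendsto a₁ atTop (𝓝 a) := ((continuous_fst.comp continuous_fst).tendsto _).comp tp
  have ta' : Tendsto a₂ atTop (𝓝 a) := ((continuous_fst.comp continuous_fst).tendsto _).comp tp'
  have tt : Tendsto t' atTop (𝓝 t) := ((continuous_snd.comp continuous_fst).tendsto _).comp tp
  have td : Tendsto (fun n => (y₁ n 0, ζ₁ n 0, deriv (ζ₁ n) 0)) atTop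
      (𝓝 (x 0, η 0, deriv η 0)) := ((continuous_snd.comp continuous_snd).tendsto _).comp tp
  have td' : Tendsto (fun n => (y₂ n 0, ζ₂ n 0, deriv (ζ₂ n) 0)) atTop
      (𝓝 (x 0, η 0, deriv η 0)) := ((continuous_snd.comp continuous_snd).tendsto _).comp tp'
  have ts : Tendsto β atTop (𝓝 0) := by
    refine tendsto_pi_nhds.2 fun k => ?_
    have c3 : Continuous fun a' : Om => a' (κ k).1 (κ k).2 :=
      (continuous_apply _).comp (continuous_apply _)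
    have h1 := (((c3.tendsto a).comp ta').sub ((c3.tendsto a).comp ta)).const_mul (ε (κ k).1)
    rw [sub_self, mul_zero] at h1
    exact h1.congr fun n => (g6 n k).symm
  have e1 : ∀ n, addP (addP L (P a)) (P (a₁ n) - P a) = addP L (P (a₁ n)) :=
    fun n => by rw [addP_addP, add_sub_cancel]
  have e2 : ∀ n, addP (addP L (P a)) (P (a₁ n) - P a + ∑ k, β n k • fam Γ (κ k).1.1 (κ k).2) =
      addP L (P (a₂ n)) := fun n => by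
    rw [addP_addP, ← add_assoc, add_sub_cancel, g7 n]
  obtain ⟨n, hn⟩ := H (fun n => P (a₁ n) - P a) β (fun n => (e (t' n) : Γ → ℝ)) y₁ y₂ T₁ T₂ ζ₂
    (fun n => ⟨((h.pot _).sub (h.pot _)).c2, by rw [e1]; exact ⟨_, ⟨_, rfl⟩, rfl⟩,
      by rw [e2]; exact ⟨_, ⟨_, rfl⟩, rfl⟩, (e _).2, by rw [e1]; exact (g1 n).cp,
      by rw [e2]; exact g2 n, g5 n⟩) (h.lim a _ ta) ts (clim_of_tendsto F e tt)
    (((continuous_fst.comp continuous_snd).tendsto _).comp tp)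
    (((continuous_fst.comp continuous_snd).tendsto _).comp tp')
    ((continuous_fst.tendsto _).comp td) ((continuous_fst.tendsto _).comp td')
    (((continuous_fst.comp continuous_snd).tendsto _).comp td')
    (((continuous_snd.comp continuous_snd).tendsto _).comp td')
  exact g8 n hn

/-- Nearby degenerate curves can be started on the transversal. -/
lemma Pert.od_sec (F : Deck Γ) (hL : Tonelli Γ L) (h : Pert Γ ε P)
    (e : (Fin b → ℝ) ≃ₗ[ℝ] Coh Γ) {a : Om} {t : Fin b → ℝ} {x : ℝ → ℍ} {γ : Γ} {T : ℝ}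
    {η : ℝ → ℂ} (hx : OD (addP L (P a)) (e t : Γ → ℝ) x γ T η)
    {O : Set ((Om × (Fin b → ℝ)) × (ℝ × ℍ × ℂ × ℂ))}
    (hO : O ∈ 𝓝 ((a, t), (T, x 0, η 0, deriv η 0))) :
    ∃ W ∈ 𝓝 (((a, t), (T, x 0, η 0, deriv η 0)) : (Om × (Fin b → ℝ)) × (ℝ × ℍ × ℂ × ℂ)),
      ∀ p ∈ W ∩ ODset L P e γ, ∃ d, (p.1, d) ∈ O ∩ ODset L P e γ ∧
        (((d.2.1 : ℂ) - x 0) / vel x 0).re = 0 := by
  by_contra hcon
  obtain ⟨u, hu⟩ := (𝓝 (((a, t), (T, x 0, η 0, deriv η 0)) :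
    (Om × (Fin b → ℝ)) × (ℝ × ℍ × ℂ × ℂ))).exists_antitone_basis
  have key : ∀ n, ∃ p ∈ u n ∩ ODset L P e γ, ¬∃ d, (p.1, d) ∈ O ∩ ODset L P e γ ∧
      (((d.2.1 : ℂ) - x 0) / vel x 0).re = 0 := by
    intro n
    by_contra hn
    refine hcon ⟨u n, hu.mem n, fun p hp => ?_⟩
    by_contra hp'
    exact hn ⟨p, hp, hp'⟩
  choose p hp hp' using key
  have tp := hu.tendsto fun n => (hp n).1
  choose y ζ g1 g2 using fun n => (hp n).2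
  have t1 : Tendsto (fun n => (p n).1) atTop (𝓝 (a, t)) := (continuous_fst.tendsto _).comp tp
  have t2 : Tendsto (fun n => (p n).2.1) atTop (𝓝 T) :=
    ((continuous_fst.comp continuous_snd).tendsto _).comp tp
  have td : Tendsto (fun n => (y n 0, ζ n 0, deriv (ζ n) 0)) atTop (𝓝 (x 0, η 0, deriv η 0)) :=
    (((continuous_snd.comp continuous_snd).tendsto _).comp tp).congr fun n => g2 n
  have hL' : Tonelli Γ (addP L (P a)) := hL.add F (h.pot a).c2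
  have hS := lseq_of_toZero F hL' (f := fun n => P (p n).1.1 - P a)
    (fun n => ((h.pot _).sub (h.pot _)).c2)
    (h.lim a (fun n => (p n).1.1) ((continuous_fst.tendsto _).comp t1))
  have he : ∀ n, addP (addP L (P a)) (P (p n).1.1 - P a) = addP L (P (p n).1.1) :=
    fun n => by rw [addP_addP, add_sub_cancel]
  simp only [he] at hS
  have hC := clim_of_tendsto F e ((continuous_snd.tendsto _).comp t1)
  have hl : ((hyperfilter ℕ : Ultrafilter ℕ) : Filter ℕ) ≤ atTop := Nat.hyperfilter_le_atTop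
  obtain ⟨y', ζ', k1, k2, k3⟩ := (hS.mono hl).od_section F (e t).2
    (cs := fun n => (e (p n).1.2 : Γ → ℝ)) (fun n => (e (p n).1.2).2) (hC.mono hl) hx g1
    (t2.mono_left hl) (((continuous_fst.tendsto _).comp td).mono_left hl)
    ((((continuous_fst.comp continuous_snd).tendsto _).comp td).mono_left hl)
    ((((continuous_snd.comp continuous_snd).tendsto _).comp td).mono_left hl)
  have k4 := (t1.mono_left hl).prodMk_nhds ((t2.mono_left hl).prodMk_nhds k3)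
  obtain ⟨n, n1, n2⟩ := ((k4.eventually hO).and k2).exists
  exact hp' n ⟨_, ⟨n1, y' n, ζ' n, k1 n, rfl⟩, n2⟩

lemma t34null_scale {w : Fin 4 → ℝ} (hw : ∀ k, 0 < w k) : ∃ E : ℝ, 0 ≤ E ∧ ∀ v : Fin 4 → ℝ,
    ‖fun k => w k * v k‖ ≤ E * ‖v‖ ∧ ‖v‖ ≤ E * ‖fun k => w k * v k‖ ∧
      |w 3 * v 3| ≤ E * |v 3| := by
  have h0 : ∀ k, 0 ≤ w k + (w k)⁻¹ := fun k => add_nonneg (hw k).le (inv_pos.2 (hw k)).le
  have h1 : ∀ k, w k + (w k)⁻¹ ≤ ∑ k, (w k + (w k)⁻¹) := fun k =>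
    Finset.single_le_sum (f := fun k => w k + (w k)⁻¹) (fun k _ => h0 k) (Finset.mem_univ k)
  have hE : 0 ≤ ∑ k, (w k + (w k)⁻¹) := Finset.sum_nonneg fun k _ => h0 k
  have h2 : ∀ k, w k ≤ ∑ k, (w k + (w k)⁻¹) := fun k => by linarith [h1 k, inv_pos.2 (hw k)]
  have h3 : ∀ k, (w k)⁻¹ ≤ ∑ k, (w k + (w k)⁻¹) := fun k => by linarith [h1 k, hw k]
  refine ⟨_, hE, fun v => ⟨?_, ?_, ?_⟩⟩
  · refine (pi_norm_le_iff_of_nonneg (by positivity)).2 fun k => ?_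
    rw [norm_mul, Real.norm_of_nonneg (hw k).le]
    exact mul_le_mul (h2 k) (norm_le_pi_norm v k) (norm_nonneg _) hE
  · refine (pi_norm_le_iff_of_nonneg (by positivity)).2 fun k => ?_
    have e : v k = (w k)⁻¹ * (w k * v k) := by rw [inv_mul_cancel_left₀ (hw k).ne']
    rw [e, norm_mul, Real.norm_of_nonneg (inv_pos.2 (hw k)).le]
    exact mul_le_mul (h3 k) (norm_le_pi_norm (fun k => w k * v k) k) (norm_nonneg _) hE
  · rw [abs_mul, abs_of_pos (hw 3)]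
    exact mul_le_mul_of_nonneg_right (h2 3) (abs_nonneg _)

lemma t34null_loc (F : Deck Γ) (hL : Tonelli Γ L) (h : Pert Γ ε P)
    (e : (Fin b → ℝ) ≃ₗ[ℝ] Coh Γ) (hb : BddC2 (Set.range P))
    {a : Om} {t : Fin b → ℝ} {x : ℝ → ℍ} {γ : Γ} {T : ℝ} {η : ℝ → ℂ}
    (hx : OD (addP L (P a)) (e t : Γ → ℝ) x γ T η) (hm : MinPer x γ T)
    (hl : LipAt (addP L '' Set.range P) (jet x (T / 2))) :
    ∃ W ∈ 𝓝 (((a, t), (T, x 0, η 0, deriv η 0)) : (Om × (Fin b → ℝ)) × (ℝ × ℍ × ℂ × ℂ)),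
      ∀ᵐ a ∂law, ∀ᵐ t, ∀ d, ((a, t), d) ∈ W → ((a, t), d) ∉ ODset L P e γ := by
  obtain ⟨κ, C, hκ, hC, O, hO, H⟩ := h.od_nhds4 F hL e hb hx hm hl
  obtain ⟨A₀, hA₀, B₀, hB₀, hAB⟩ := mem_nhds_prod_iff.1 hO
  obtain ⟨A, hA, hAc, hAs⟩ := exists_mem_nhds_isClosed_subset hA₀
  have hpos : {d : ℝ × ℍ × ℂ × ℂ | 0 < d.1} ∈ 𝓝 ((T, x 0, η 0, deriv η 0) : ℝ × ℍ × ℂ × ℂ) :=
    (isOpen_lt continuous_const continuous_fst).mem_nhds hm.1.1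
  obtain ⟨B, hB, hBs, hBc⟩ := local_compact_nhds (inter_mem hB₀ hpos)
  obtain ⟨W, hW, hWs⟩ := h.od_sec F hL e hx (prod_mem_nhds hA hB)
  refine ⟨W, hW, ?_⟩
  have hsc : IsClosed {d : ℝ × ℍ × ℂ × ℂ | (((d.2.1 : ℂ) - x 0) / vel x 0).re = 0} :=
    isClosed_eq (Complex.continuous_re.comp (((UpperHalfPlane.continuous_coe.comp
      (continuous_fst.comp continuous_snd)).sub continuous_const).div_const _)) continuous_const
  have hcl := h.isClosed_od F hL e γ hAc (hBc.inter_right hsc) fun d hd => (hBs hd.1).2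
  set N := {p | p ∈ A ∧ ∃ d ∈ B ∩ {d : ℝ × ℍ × ℂ × ℂ | (((d.2.1 : ℂ) - x 0) / vel x 0).re = 0},
    (p, d) ∈ ODset L P e γ} with hN
  have hv : vel x 0 ≠ 0 := hx.cp.vel_ne F (hL.add F (h.pot a).c2) hx.no 0
  obtain ⟨E, hE, hE'⟩ := t34null_scale (w := fun k => ε (κ k).1) fun k => h.pos _
  have h1 : ∀ t' : Fin b → ℝ, ∀ᵐ a' ∂law, (a', t') ∉ N := by
    intro t'
    have hct : IsClosed {a' : Om | (a', t') ∈ N} :=
      hcl.preimage (continuous_id.prodMk continuous_const)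
    have h2 : law {a' : Om | (a', t') ∈ N} = 0 := by
      refine law_null_k hκ hct.measurableSet fun a' => ?_
      have hK : IsCompact {β : Fin 4 → ℝ | β ∈ Set.Icc (-1 : Fin 4 → ℝ) 1 ∧
          updk a' κ β ∈ {a' : Om | (a', t') ∈ N}} :=
        isCompact_Icc.inter_right (hct.preimage (continuous_updk a' κ))
      have hex : ∀ β : Fin 4 → ℝ, ∃ (y : ℝ → ℍ) (T' : ℝ) (ζ : ℝ → ℂ), (updk a' κ β, t') ∈ N →
          OD (addP L (P (updk a' κ β))) (e t' : Γ → ℝ) y γ T' ζ ∧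
            ((updk a' κ β, t'), (T', y 0, ζ 0, deriv ζ 0)) ∈ O ∧
            (((y 0 : ℂ) - x 0) / vel x 0).re = 0 := by
        intro β
        by_cases hβ : (updk a' κ β, t') ∈ N
        swap
        · exact ⟨x, T, η, fun h' => absurd h' hβ⟩
        obtain ⟨g1, ⟨T', d⟩, ⟨g2, g3⟩, y, ζ, g4, g5⟩ := hβ
        obtain rfl : d = (y 0, ζ 0, deriv ζ 0) := g5
        exact ⟨y, T', ζ, fun _ => ⟨g4, hAB ⟨hAs g1, (hBs g2).1⟩, g3⟩⟩
      choose y T' ζ hy using hex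
      have key : ∀ β β' : Fin 4 → ℝ, β ∈ Set.Icc (-1 : Fin 4 → ℝ) 1 →
          β' ∈ Set.Icc (-1 : Fin 4 → ℝ) 1 → (updk a' κ β, t') ∈ N → (updk a' κ β', t') ∈ N →
          ‖jet (y β) 0 - jet (y β') 0‖ ≤ C * ‖fun k => ε (κ k).1 * (β' - β) k‖ ∧
          ‖fun k => ε (κ k).1 * (β' - β) k‖ ≤
            C * (‖jet (y β) 0 - jet (y β') 0‖ + |ε (κ 3).1 * (β' - β) 3|) ∧
          (jet (y β) 0 = jet (y β') 0 → ε (κ 3).1 * (β' - β) 3 ≤ 0) := by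
        intro β β' g1 g2 g3 g4
        obtain ⟨a1, a2, a3⟩ := hy β g3
        obtain ⟨b1, b2, b3⟩ := hy β' g4
        refine H _ _ t' _ _ _ _ _ _ (fun k => ε (κ k).1 * (β' - β) k) a1 b1 a2 b2 ?_
          (fun k => by rw [updk_apply hκ, updk_apply hκ, Pi.sub_apply]) (h.updk_eq hκ a' g1 g2)
        have e1 : ((y β 0 : ℂ) - y β' 0) / vel x 0 =
            ((y β 0 : ℂ) - x 0) / vel x 0 - ((y β' 0 : ℂ) - x 0) / vel x 0 := by ring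
        rw [e1, Complex.sub_re, a3, b3, sub_self]
      refine graph_null hK (Z := fun β => jet (y β) 0) (z₀ := x 0) hv (C := C * E * (1 + E))
        (fun β hβ => (hy β hβ.2).2.2) (fun β hβ β' hβ' => ?_) (fun β hβ β' hβ' => ?_)
        fun β hβ β' hβ' he => ?_
      · have a1 := (key β β' hβ.1 hβ'.1 hβ.2 hβ'.2).1
        have a2 := mul_le_mul_of_nonneg_left (hE' (β' - β)).1 hC
        have a3 : 0 ≤ C * E * E * ‖β' - β‖ := by positivity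
        rw [norm_sub_rev β β']
        linarith
      · have a1 := mul_le_mul_of_nonneg_left (key β β' hβ.1 hβ'.1 hβ.2 hβ'.2).2.1 hE
        obtain ⟨-, a2, a3⟩ := hE' (β' - β)
        have a4 := mul_le_mul_of_nonneg_left a3 (mul_nonneg hE hC)
        have a5 : 0 ≤ C * E * E * ‖jet (y β) 0 - jet (y β') 0‖ := by positivity
        have a6 : 0 ≤ C * E * |(β' - β) 3| := by positivity
        have a7 : |β 3 - β' 3| = |(β' - β) 3| := by rw [abs_sub_comm, Pi.sub_apply]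
        rw [norm_sub_rev β β', a7]
        linarith
      · have a1 := (key β β' hβ.1 hβ'.1 hβ.2 hβ'.2).2.2 he
        have a2 := (key β' β hβ'.1 hβ.1 hβ'.2 hβ.2).2.2 he.symm
        have a3 := h.pos (κ 3).1
        rw [Pi.sub_apply] at a1 a2
        have a4 := nonpos_of_mul_nonpos_right a1 a3
        have a5 := nonpos_of_mul_nonpos_right a2 a3
        linarith
    rw [ae_iff]
    simpa only [not_not] using h2
  have hn : ∀ᵐ a' ∂law, ∀ᵐ t', (a', t') ∉ N :=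
    (Measure.ae_ae_comm (p := fun (a : Om) (t : Fin b → ℝ) => (a, t) ∉ N)
      hcl.measurableSet.compl).2 (Eventually.of_forall h1)
  filter_upwards [hn] with a' ha'
  filter_upwards [ha'] with t' ht' d hd hd'
  obtain ⟨d', ⟨⟨g1, g2⟩, g3⟩, g4⟩ := hWs _ ⟨hd, hd'⟩
  exact ht' ⟨g1, d', ⟨g2, g4⟩, g3⟩

lemma t34null_one (F : Deck Γ) (hL : Tonelli Γ L) (h : Pert Γ ε P)
    (e : (Fin b → ℝ) ≃ₗ[ℝ] Coh Γ) (hb : BddC2 (Set.range P)) (γ : Γ) :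
    ∀ᵐ a ∂law, ∀ᵐ t, ¬∃ (x : ℝ → ℍ) (T : ℝ) (η : ℝ → ℂ),
      OD (addP L (P a)) (e t : Γ → ℝ) x γ T η ∧ MinPer x γ T ∧
        LipAt (addP L '' Set.range P) (jet x (T / 2)) := by
  set D : Set ((Om × (Fin b → ℝ)) × (ℝ × ℍ × ℂ × ℂ)) :=
    {p | ∃ (x : ℝ → ℍ) (η : ℝ → ℂ), OD (addP L (P p.1.1)) (e p.1.2 : Γ → ℝ) x γ p.2.1 η ∧
      MinPer x γ p.2.1 ∧ LipAt (addP L '' Set.range P) (jet x (p.2.1 / 2)) ∧
        p.2.2 = (x 0, η 0, deriv η 0)} with hD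
  have key : ∀ p : (Om × (Fin b → ℝ)) × (ℝ × ℍ × ℂ × ℂ),
      ∃ W : Set ((Om × (Fin b → ℝ)) × (ℝ × ℍ × ℂ × ℂ)), p ∈ D → W ∈ 𝓝 p ∧
        ∀ᵐ a ∂law, ∀ᵐ t, ∀ d, ((a, t), d) ∈ W → ((a, t), d) ∉ ODset L P e γ := by
    rintro ⟨⟨a, t⟩, T, d⟩
    by_cases hp : (((a, t), T, d) : (Om × (Fin b → ℝ)) × (ℝ × ℍ × ℂ × ℂ)) ∈ D
    swap
    · exact ⟨∅, fun hp' => absurd hp' hp⟩
    obtain ⟨x, η, hx, hm, h0, hd⟩ := hp
    obtain rfl : d = (x 0, η 0, deriv η 0) := hd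
    obtain ⟨W, hW, H⟩ := t34null_loc F hL h e hb hx hm h0
    exact ⟨W, fun _ => ⟨hW, H⟩⟩
  choose W hW using key
  obtain ⟨C, hCD, hCc, hcov⟩ := TopologicalSpace.countable_cover_nhdsWithin (f := W) (s := D)
    fun p hp => mem_nhdsWithin_of_mem_nhds (hW p hp).1
  have h1 : ∀ᵐ a ∂law, ∀ p ∈ C, ∀ᵐ t, ∀ d, ((a, t), d) ∈ W p → ((a, t), d) ∉ ODset L P e γ :=
    (ae_ball_iff hCc).2 fun p hp => (hW p (hCD hp)).2
  filter_upwards [h1] with a ha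
  filter_upwards [(ae_ball_iff hCc).2 ha] with t ht
  rintro ⟨x, T, η, hx, hm, h0⟩
  have hp : (((a, t), T, x 0, η 0, deriv η 0) : (Om × (Fin b → ℝ)) × (ℝ × ℍ × ℂ × ℂ)) ∈ D :=
    ⟨x, η, hx, hm, h0, rfl⟩
  obtain ⟨p, hpC, hpW⟩ := Set.mem_iUnion₂.1 (hcov hp)
  exact ht p hpC _ hpW ⟨x, η, hx, rfl⟩

theorem Pert.ae_nodegO_loc (F : Deck Γ) (hL : Tonelli Γ L) (h : Pert Γ ε P)
    (e : (Fin b → ℝ) ≃ₗ[ℝ] Coh Γ) (hb : BddC2 (Set.range P))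
    (hl : ∀ (a : Om) (γ : Γ) (x : ℝ → ℍ) (T : ℝ), EL (addP L (P a)) x → Per x γ T → ¬Ori γ →
      ∃ t, LipAt (addP L '' Set.range P) (jet x t)) :
    ∀ᵐ a ∂law, ∀ᵐ t, ¬DegO (addP L (P a)) (e t : Γ → ℝ) := by
  have := F.countable
  filter_upwards [ae_all_iff.2 fun γ : Γ => t34null_one F hL h e hb γ] with a ha
  filter_upwards [ae_all_iff.2 ha] with t ht
  rintro ⟨x, γ, T, η, hx, hm, -⟩
  have hL' : Tonelli Γ (addP L (P a)) := hL.add F (h.pot a).c2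
  obtain ⟨s, hs⟩ := hl a γ x T (hx.cp.reg F hL').el hm.1 hx.no
  refine ht γ ⟨_, T, _, (hx.shift F hL' (s - T / 2)).2, hm.shift _, ?_⟩
  rwa [jet_shift, add_sub_cancel]

end Pool.Agent.Lib.MP_5bb885_an.Gen
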