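import Pool.Agent.Lib.MP_5bb885_an.T9Core

/-!
Linear Jacobi equations and limits of approximate solutions.
-/

namespace Pool.Agent.Lib.MP_5bb885_an.Gen

open UpperHalfPlane MeasureTheory Filter Topology

variable {A : ℝ → ℂ × ℂ →L[ℝ] ℂ × ℂ →L[ℝ] ℝ} {η ζ : ℝ → ℂ}

lemma t9aj_Dv_apply (a : ℂ × ℂ →L[ℝ] ℝ) (w : ℂ) : Dv a w = a (0, w) := rfl

lemma t9aj_Dx_apply (a : ℂ × ℂ →L[ℝ] ℝ) (w : ℂ) : Dx a w = a (w, 0) := rfl

lemma t9aj_Dv_add (a b : ℂ × ℂ →L[ℝ] ℝ) : Dv (a + b) = Dv a + Dv b := rfl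

lemma t9aj_Dx_add (a b : ℂ × ℂ →L[ℝ] ℝ) : Dx (a + b) = Dx a + Dx b := rfl

lemma t9aj_Dv_sub (a b : ℂ × ℂ →L[ℝ] ℝ) : Dv (a - b) = Dv a - Dv b := rfl

lemma t9aj_Dx_sub (a b : ℂ × ℂ →L[ℝ] ℝ) : Dx (a - b) = Dx a - Dx b := rfl

lemma t9aj_Dv_smul (c : ℝ) (a : ℂ × ℂ →L[ℝ] ℝ) : Dv (c • a) = c • Dv a := rfl

lemma t9aj_Dx_smul (c : ℝ) (a : ℂ × ℂ →L[ℝ] ℝ) : Dx (c • a) = c • Dx a := rfl

lemma t9aj_norm_Dv (a : ℂ × ℂ →L[ℝ] ℝ) : ‖Dv a‖ ≤ ‖a‖ := by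
  refine ContinuousLinearMap.opNorm_le_bound _ (norm_nonneg _) fun w => ?_
  rw [t9aj_Dv_apply]
  simpa using a.le_opNorm (0, w)

lemma t9aj_norm_Dx (a : ℂ × ℂ →L[ℝ] ℝ) : ‖Dx a‖ ≤ ‖a‖ := by
  refine ContinuousLinearMap.opNorm_le_bound _ (norm_nonneg _) fun w => ?_
  rw [t9aj_Dx_apply]
  simpa using a.le_opNorm (w, 0)

lemma t9aj_norm_pair (x v : ℂ) : ‖((x, v) : ℂ × ℂ)‖ ≤ ‖x‖ + ‖v‖ := by
  rw [Prod.norm_def]
  exact max_le (le_add_of_nonneg_right (norm_nonneg _)) (le_add_of_nonneg_left (norm_nonneg _))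

lemma t9aj_norm_app {B : ℂ × ℂ →L[ℝ] ℂ × ℂ →L[ℝ] ℝ} {M : ℝ} (hB : ‖B‖ ≤ M) (x v : ℂ) :
    ‖B (x, v)‖ ≤ M * (‖x‖ + ‖v‖) :=
  (B.le_opNorm _).trans
    (mul_le_mul hB (t9aj_norm_pair x v) (norm_nonneg _) ((norm_nonneg B).trans hB))

lemma t9aj_cont_Dv : Continuous (Dv : (ℂ × ℂ →L[ℝ] ℝ) → ℂ →L[ℝ] ℝ) :=
  continuous_id.clm_comp_const _

lemma t9aj_bdd (hA : Coef A) (W : ℝ) : ∃ M : ℝ, 0 ≤ M ∧ ∀ t, |t| ≤ W → ‖A t‖ ≤ M := by
  obtain ⟨M, hM⟩ := (isCompact_Icc (a := -W) (b := W)).exists_bound_of_continuousOn (f := A)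
    hA.1.continuousOn
  exact ⟨max M 0, le_max_right _ _, fun t ht => (hM t (abs_le.1 ht)).trans (le_max_left _ _)⟩

lemma t9aj_coer (hA : Coef A) (W : ℝ) :
    ∃ m : ℝ, 0 < m ∧ ∀ t, |t| ≤ W → ∀ w : ℂ, m * ‖w‖ ^ 2 ≤ A t (0, w) (0, w) := by
  have hK : IsCompact (Set.Icc (-W) W ×ˢ Metric.sphere (0 : ℂ) 1) :=
    isCompact_Icc.prod (isCompact_sphere _ _)
  have hw : Continuous fun p : ℝ × ℂ => (((0 : ℂ), p.2) : ℂ × ℂ) :=
    continuous_const.prodMk continuous_snd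
  have hc : Continuous fun p : ℝ × ℂ => A p.1 (0, p.2) (0, p.2) :=
    ((hA.1.comp continuous_fst).clm_apply hw).clm_apply hw
  obtain ⟨m, hm, h⟩ := hK.exists_forall_le' (a := 0) hc.continuousOn (fun p hp => hA.2 p.1 p.2 (by
    intro h0
    have := hp.2
    rw [h0] at this
    simp at this))
  refine ⟨m, hm, fun t ht w => ?_⟩
  by_cases h0 : w = 0
  · subst h0
    have : (((0 : ℂ), (0 : ℂ)) : ℂ × ℂ) = 0 := rfl
    simp [this]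
  have hn : 0 < ‖w‖ := norm_pos_iff.2 h0
  have h1 := h (t, ‖w‖⁻¹ • w) ⟨abs_le.1 ht, by
    simp [hn.ne']⟩
  have e : (((0 : ℂ), ‖w‖⁻¹ • w) : ℂ × ℂ) = ‖w‖⁻¹ • (((0 : ℂ), w) : ℂ × ℂ) := by simp
  simp only [e, map_smul, smul_apply, smul_eq_mul] at h1
  have h2 := mul_le_mul_of_nonneg_right h1 (sq_nonneg ‖w‖)
  refine h2.trans (le_of_eq ?_)
  field_simp

lemma t9aj_vel {B : ℂ × ℂ →L[ℝ] ℂ × ℂ →L[ℝ] ℝ} {M m : ℝ} (hB : ‖B‖ ≤ M)
    (hm : ∀ w : ℂ, m * ‖w‖ ^ 2 ≤ B (0, w) (0, w)) (x v : ℂ) :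
    m * ‖v‖ ≤ ‖Dv (B (x, v))‖ + M * ‖x‖ := by
  have hM : 0 ≤ M := (norm_nonneg B).trans hB
  by_cases h0 : v = 0
  · subst h0
    simp only [norm_zero, mul_zero]
    positivity
  have hn : 0 < ‖v‖ := norm_pos_iff.2 h0
  have e : ((x, v) : ℂ × ℂ) = (x, 0) + (0, v) := by simp
  have h1 : B (0, v) (0, v) = Dv (B (x, v)) v - Dv (B (x, 0)) v := by
    rw [t9aj_Dv_apply, t9aj_Dv_apply, e, map_add]
    simp
  have h2 : Dv (B (x, v)) v ≤ ‖Dv (B (x, v))‖ * ‖v‖ :=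
    (le_abs_self _).trans ((Dv (B (x, v))).le_opNorm v)
  have h3 : -Dv (B (x, 0)) v ≤ M * ‖x‖ * ‖v‖ := by
    refine (neg_le_abs _).trans (((Dv (B (x, 0))).le_opNorm v).trans ?_)
    refine mul_le_mul_of_nonneg_right ((t9aj_norm_Dv _).trans ?_) hn.le
    simpa using t9aj_norm_app hB x 0
  have h4 := hm v
  refine le_of_mul_le_mul_right ?_ hn
  nlinarith

/-- Two sided Gronwall inequality. -/
lemma t9aj_gron {E : Type} [NormedAddCommGroup E] [NormedSpace ℝ E] {y y' : ℝ → E} {K δ W : ℝ}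
    (hK : 0 < K) (hδ : 0 ≤ δ) (h : ∀ t, HasDerivAt y (y' t) t)
    (hb : ∀ t, |t| ≤ W → ‖y' t‖ ≤ K * ‖y t‖ + K * δ) {s t : ℝ} (hs : |s| ≤ W) (ht : |t| ≤ W) :
    ‖y t‖ ≤ (‖y s‖ + δ) * Real.exp (K * (2 * W)) := by
  have key : ∀ {y y' : ℝ → E}, (∀ t, HasDerivAt y (y' t) t) →
      (∀ t, |t| ≤ W → ‖y' t‖ ≤ K * ‖y t‖ + K * δ) → ∀ {s t : ℝ}, |s| ≤ W → |t| ≤ W → s ≤ t →
      ‖y t‖ ≤ (‖y s‖ + δ) * Real.exp (K * (2 * W)) := by
    intro y y' h hb s t hs ht hst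
    have hs' := abs_le.1 hs
    have ht' := abs_le.1 ht
    have h1 := norm_le_gronwallBound_of_norm_deriv_right_le (f := y) (f' := y') (a := s) (b := t)
      (δ := ‖y s‖) (K := K) (ε := K * δ) (fun x _ => (h x).continuousAt.continuousWithinAt)
      (fun x _ => (h x).hasDerivWithinAt) le_rfl
      (fun x hx => hb x (abs_le.2 ⟨by linarith [hx.1], by linarith [hx.2]⟩)) t ⟨hst, le_rfl⟩
    rw [gronwallBound_of_K_ne_0 hK.ne'] at h1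
    have e : K * δ / K = δ := by field_simp
    simp only [e] at h1
    have h2 : Real.exp (K * (t - s)) ≤ Real.exp (K * (2 * W)) :=
      Real.exp_le_exp.2 (mul_le_mul_of_nonneg_left (by linarith) hK.le)
    have h3 := mul_le_mul_of_nonneg_left h2 (add_nonneg (norm_nonneg (y s)) hδ)
    nlinarith
  rcases le_total s t with hst | hst
  · exact key h hb hs ht hst
  · have h1 : ∀ r, HasDerivAt (fun r => y (-r)) (-y' (-r)) r := fun r => by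
      have := (h (-r)).scomp r (hasDerivAt_neg r)
      rw [neg_one_smul] at this
      exact this
    have := key (y := fun r => y (-r)) (y' := fun r => -y' (-r)) h1
      (fun r hr => by simpa using hb (-r) (by rwa [abs_neg])) (s := -s) (t := -t)
      (by rwa [abs_neg]) (by rwa [abs_neg]) (neg_le_neg hst)
    simpa using this

/-- Gronwall inequality for approximate solutions. -/
lemma t9aj_approx (hA : Coef A) (W : ℝ) : ∃ ε₀ C : ℝ, 0 < ε₀ ∧ 0 ≤ C ∧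
    ∀ (ξ ξ' : ℝ → ℂ) (P P' : ℝ → ℂ →L[ℝ] ℝ) (δ : ℝ), 0 ≤ δ →
      (∀ t, HasDerivAt ξ (ξ' t) t ∧ HasDerivAt P (P' t) t) →
      (∀ t, |t| ≤ W → ‖P t - Dv (A t (ξ t, ξ' t))‖ ≤ δ + ε₀ * (‖ξ t‖ + ‖ξ' t‖) ∧
        ‖P' t - Dx (A t (ξ t, ξ' t))‖ ≤ δ + ε₀ * (‖ξ t‖ + ‖ξ' t‖)) →
      ∀ s t, |s| ≤ W → |t| ≤ W → ‖ξ t‖ + ‖ξ' t‖ ≤ C * (‖ξ s‖ + ‖ξ' s‖ + δ) := by
  obtain ⟨M, hM, hb⟩ := t9aj_bdd hA W
  obtain ⟨m, hm, hc⟩ := t9aj_coer hA W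
  obtain ⟨K₁, hK₁⟩ : ∃ K₁, K₁ = 2 / m * (2 + M + m / 2) := ⟨_, rfl⟩
  have hK1 : 0 < K₁ := by rw [hK₁]; positivity
  have hK1' : m / 2 * K₁ = 2 + M + m / 2 := by rw [hK₁]; field_simp
  obtain ⟨K, hK⟩ : ∃ K, K = K₁ + (M + m / 2) * (1 + K₁) + 1 := ⟨_, rfl⟩
  have hK0 : 0 < K := by rw [hK]; positivity
  refine ⟨m / 2, (1 + K₁) * ((3 + M + m / 2) * Real.exp (K * (2 * W)) + 1), by positivity,
    by positivity, fun ξ ξ' P P' δ hδ hd he s t hs ht => ?_⟩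
  have hx : ∀ r, ‖ξ r‖ ≤ ‖(ξ r, P r)‖ := fun r => norm_fst_le (ξ r, P r)
  have hP : ∀ r, ‖P r‖ ≤ ‖(ξ r, P r)‖ := fun r => norm_snd_le (ξ r, P r)
  have hv : ∀ r, |r| ≤ W → ‖ξ' r‖ ≤ K₁ * (‖(ξ r, P r)‖ + δ) := by
    intro r hr
    have h1 := t9aj_vel (hb r hr) (hc r hr) (ξ r) (ξ' r)
    have h2 := (he r hr).1
    have h3 : ‖Dv (A r (ξ r, ξ' r))‖ ≤ ‖P r‖ + ‖P r - Dv (A r (ξ r, ξ' r))‖ := by
      have := norm_sub_le (P r) (P r - Dv (A r (ξ r, ξ' r)))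
      rwa [sub_sub_cancel] at this
    have h4 := mul_le_mul_of_nonneg_left (hx r) (show 0 ≤ M + m / 2 by positivity)
    have h5 := hP r
    have h6 := norm_nonneg (ξ r, P r)
    have h7 : 0 ≤ (M + m / 2) * δ := by positivity
    refine le_of_mul_le_mul_left ?_ (show 0 < m / 2 by positivity)
    rw [← mul_assoc, hK1']
    nlinarith
  have hy : ∀ r, HasDerivAt (fun r => (ξ r, P r)) (ξ' r, P' r) r :=
    fun r => (hd r).1.prodMk (hd r).2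
  have hy' : ∀ r, |r| ≤ W → ‖(ξ' r, P' r)‖ ≤ K * ‖(ξ r, P r)‖ + K * δ := by
    intro r hr
    have h1 := hv r hr
    have h2 := (he r hr).2
    have h3 : ‖P' r‖ ≤ ‖P' r - Dx (A r (ξ r, ξ' r))‖ + ‖Dx (A r (ξ r, ξ' r))‖ := by
      have := norm_add_le (P' r - Dx (A r (ξ r, ξ' r))) (Dx (A r (ξ r, ξ' r)))
      rwa [sub_add_cancel] at this
    have h4 := (t9aj_norm_Dx _).trans (t9aj_norm_app (hb r hr) (ξ r) (ξ' r))
    have h6 := norm_nonneg (ξ r, P r)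
    have h7 : ‖ξ r‖ + ‖ξ' r‖ ≤ (1 + K₁) * (‖(ξ r, P r)‖ + δ) := by linarith [hx r]
    have h8 := mul_le_mul_of_nonneg_left h7 (show 0 ≤ M + m / 2 by positivity)
    have h9 : 0 ≤ K₁ * (‖(ξ r, P r)‖ + δ) := by positivity
    have h10 : 0 ≤ (M + m / 2) * ((1 + K₁) * (‖(ξ r, P r)‖ + δ)) := by positivity
    have e : K * ‖(ξ r, P r)‖ + K * δ = K₁ * (‖(ξ r, P r)‖ + δ)
        + (M + m / 2) * ((1 + K₁) * (‖(ξ r, P r)‖ + δ)) + (‖(ξ r, P r)‖ + δ) := by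
      rw [hK]; ring
    rw [e, Prod.norm_def (ξ' r, P' r)]
    refine max_le ?_ ?_
    · show ‖ξ' r‖ ≤ _
      linarith
    · show ‖P' r‖ ≤ _
      linarith
  have h1 := t9aj_gron hK0 hδ hy hy' hs ht
  have h2 : ‖(ξ s, P s)‖ + δ ≤ (3 + M + m / 2) * (‖ξ s‖ + ‖ξ' s‖ + δ) := by
    have a1 : ‖(ξ s, P s)‖ ≤ ‖ξ s‖ + ‖P s‖ := by
      rw [Prod.norm_def]
      exact max_le (le_add_of_nonneg_right (norm_nonneg _)) (le_add_of_nonneg_left (norm_nonneg _))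
    have a2 := (he s hs).1
    have a3 : ‖P s‖ ≤ ‖P s - Dv (A s (ξ s, ξ' s))‖ + ‖Dv (A s (ξ s, ξ' s))‖ := by
      have := norm_add_le (P s - Dv (A s (ξ s, ξ' s))) (Dv (A s (ξ s, ξ' s)))
      rwa [sub_add_cancel] at this
    have a4 := (t9aj_norm_Dv _).trans (t9aj_norm_app (hb s hs) (ξ s) (ξ' s))
    have a5 : 0 ≤ (M + m / 2) * δ := by positivity
    have a6 := norm_nonneg (ξ s)
    have a7 := norm_nonneg (ξ' s)
    nlinarith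
  have h3 := mul_le_mul_of_nonneg_right h2 (Real.exp_pos (K * (2 * W))).le
  have h4 : ‖ξ t‖ + ‖ξ' t‖ ≤ (1 + K₁) * (‖(ξ t, P t)‖ + δ) := by linarith [hx t, hv t ht]
  have h5 : ‖(ξ t, P t)‖ + δ ≤
      ((3 + M + m / 2) * Real.exp (K * (2 * W)) + 1) * (‖ξ s‖ + ‖ξ' s‖ + δ) := by
    have a6 := norm_nonneg (ξ s)
    have a7 := norm_nonneg (ξ' s)
    nlinarith
  have h6 := mul_le_mul_of_nonneg_left h5 (show 0 ≤ 1 + K₁ by positivity)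
  rw [mul_assoc]
  exact h4.trans h6

lemma JacA.contDeriv (hA : Coef A) (h : JacA A η) : Continuous (deriv η) := by
  refine continuous_iff_continuousAt.2 fun s => ?_
  obtain ⟨M, hM, hb⟩ := t9aj_bdd hA (|s| + 1)
  obtain ⟨m, hm, hc⟩ := t9aj_coer hA (|s| + 1)
  have h1 : ContinuousAt (fun t => Dv (A t (η t, deriv η t))) s := (h s).2.continuousAt
  have h2 : ContinuousAt (fun t => Dv (A t (η s, deriv η s))) s :=
    (t9aj_cont_Dv.comp (hA.1.clm_apply continuous_const)).continuousAt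
  have h3 : ContinuousAt η s := (h s).1.continuousAt
  have h4 : Tendsto (fun t => m⁻¹ * (‖Dv (A t (η t, deriv η t)) - Dv (A t (η s, deriv η s))‖
      + M * ‖η t - η s‖)) (𝓝 s) (𝓝 0) := by
    have : ContinuousAt (fun t => m⁻¹ * (‖Dv (A t (η t, deriv η t)) - Dv (A t (η s, deriv η s))‖
      + M * ‖η t - η s‖)) s :=
      continuousAt_const.mul ((h1.sub h2).norm.add
        (continuousAt_const.mul (h3.sub continuousAt_const).norm))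
    have := this.tendsto
    simpa using this
  refine tendsto_iff_norm_sub_tendsto_zero.2 (squeeze_zero' (Eventually.of_forall fun _ =>
    norm_nonneg _) ?_ h4)
  have h5 : ∀ᶠ t in 𝓝 s, |t| ≤ |s| + 1 :=
    (continuous_abs.tendsto s).eventually (eventually_le_nhds (by linarith))
  filter_upwards [h5] with t ht
  have h6 := t9aj_vel (hb t ht) (hc t ht) (η t - η s) (deriv η t - deriv η s)
  have e : ((η t - η s, deriv η t - deriv η s) : ℂ × ℂ) = (η t, deriv η t) - (η s, deriv η s) := rfl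
  rw [e, map_sub, t9aj_Dv_sub] at h6
  rw [le_inv_mul_iff₀ hm]
  exact h6

lemma JacA.add (h : JacA A η) (h' : JacA A ζ) : JacA A (η + ζ) := by
  have e : ∀ s, A s ((η + ζ) s, deriv (η + ζ) s) =
      A s (η s, deriv η s) + A s (ζ s, deriv ζ s) := fun s => by
    rw [deriv_add (h s).1 (h' s).1, ← map_add]
    rfl
  intro t
  refine ⟨(h t).1.add (h' t).1, ?_⟩
  simp only [e, t9aj_Dv_add, t9aj_Dx_add]
  exact (h t).2.add (h' t).2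

lemma JacA.smul (h : JacA A η) (a : ℝ) : JacA A (a • η) := by
  have e : ∀ s, A s ((a • η) s, deriv (a • η) s) = a • A s (η s, deriv η s) := fun s => by
    rw [deriv_const_smul a (h s).1, ← map_smul]
    rfl
  intro t
  refine ⟨(h t).1.const_smul a, ?_⟩
  simp only [e, t9aj_Dv_smul, t9aj_Dx_smul]
  exact (h t).2.const_smul a

lemma JacA.gron (hA : Coef A) (W : ℝ) : ∃ C : ℝ, 0 ≤ C ∧ ∀ η, JacA A η → ∀ s t, |s| ≤ W →
    |t| ≤ W → ‖η t‖ + ‖deriv η t‖ ≤ C * (‖η s‖ + ‖deriv η s‖) := by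
  obtain ⟨ε₀, C, hε, hC, h⟩ := t9aj_approx hA W
  refine ⟨C, hC, fun η hη s t hs ht => ?_⟩
  have := h η (deriv η) (fun s => Dv (A s (η s, deriv η s))) (fun s => Dx (A s (η s, deriv η s)))
    0 le_rfl (fun r => ⟨(hη r).1.hasDerivAt, (hη r).2⟩)
    (fun r _ => ⟨by rw [sub_self, norm_zero]; positivity, by rw [sub_self, norm_zero]; positivity⟩)
    s t hs ht
  rwa [add_zero] at this

lemma JacA.eq_zero (hA : Coef A) (h : JacA A η) {s : ℝ} (h1 : η s = 0) (h2 : deriv η s = 0)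
    (t : ℝ) : η t = 0 := by
  obtain ⟨C, _, hC⟩ := JacA.gron hA (max |s| |t|)
  have := hC η h s t (le_max_left _ _) (le_max_right _ _)
  rw [h1, h2, norm_zero, add_zero, mul_zero] at this
  exact norm_eq_zero.1 (le_antisymm (by linarith [norm_nonneg (deriv η t)]) (norm_nonneg _))

lemma t9aj_ulim (l : Ultrafilter ℕ) {f : ℕ → ℂ} {B : ℝ} (h : ∀ᶠ n in l, ‖f n‖ ≤ B) :
    ∃ z, Tendsto f l (𝓝 z) := by
  obtain ⟨z, _, hz⟩ := (isCompact_closedBall (0 : ℂ) B).ultrafilter_le_nhds' (l.map f) (by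
    rw [Ultrafilter.mem_map]
    filter_upwards [h] with n hn
    simpa using hn)
  exact ⟨z, hz⟩

theorem aj_lim (hA : Coef A) (l : Ultrafilter ℕ) {ξ ξ' : ℕ → ℝ → ℂ} {P P' : ℕ → ℝ → ℂ →L[ℝ] ℝ}
    (h1 : ∀ᶠ n in l, ∀ t, HasDerivAt (ξ n) (ξ' n t) t ∧ HasDerivAt (P n) (P' n t) t)
    (h2 : ∀ W ε : ℝ, 0 < ε → ∀ᶠ n in l, ∀ t, |t| ≤ W →
      ‖P n t - Dv (A t (ξ n t, ξ' n t))‖ ≤ ε * (1 + ‖ξ n t‖ + ‖ξ' n t‖) ∧
      ‖P' n t - Dx (A t (ξ n t, ξ' n t))‖ ≤ ε * (1 + ‖ξ n t‖ + ‖ξ' n t‖))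
    {C : ℝ} (h0 : ∀ᶠ n in l, ‖ξ n 0‖ ≤ C ∧ ‖ξ' n 0‖ ≤ C) :
    ∃ η, JacA A η ∧ ∀ W ε : ℝ, 0 < ε → ∀ᶠ n in l, ∀ t, |t| ≤ W →
      ‖ξ n t - η t‖ ≤ ε ∧ ‖ξ' n t - deriv η t‖ ≤ ε := by
  have z0 : ∀ {t W : ℝ}, |t| ≤ W → |(0 : ℝ)| ≤ W := fun {t W} ht => by
    rw [abs_zero]; exact (abs_nonneg t).trans ht
  have hB : ∀ W, ∃ B, 0 ≤ B ∧ ∀ᶠ n in l, ∀ t, |t| ≤ W → ‖ξ n t‖ + ‖ξ' n t‖ ≤ B := by
    intro W
    obtain ⟨ε₀, D, hε, hD, h⟩ := t9aj_approx hA W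
    refine ⟨D * (2 * |C| + ε₀), by positivity, ?_⟩
    filter_upwards [h1, h2 W ε₀ hε, h0] with n a1 a2 a3 t ht
    refine (h (ξ n) (ξ' n) (P n) (P' n) ε₀ hε.le a1 (fun r hr => ⟨?_, ?_⟩) 0 t (z0 ht) ht).trans
      (mul_le_mul_of_nonneg_left ?_ hD)
    · linarith [(a2 r hr).1]
    · linarith [(a2 r hr).2]
    · linarith [a3.1, a3.2, le_abs_self C]
  have hη : ∀ t, ∃ z, Tendsto (fun n => ξ n t) l (𝓝 z) := fun t => by
    obtain ⟨B, _, h⟩ := hB |t|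
    refine t9aj_ulim l (B := B) ?_
    filter_upwards [h] with n hn
    linarith [hn t le_rfl, norm_nonneg (ξ' n t)]
  have hv : ∀ t, ∃ z, Tendsto (fun n => ξ' n t) l (𝓝 z) := fun t => by
    obtain ⟨B, _, h⟩ := hB |t|
    refine t9aj_ulim l (B := B) ?_
    filter_upwards [h] with n hn
    linarith [hn t le_rfl, norm_nonneg (ξ n t)]
  choose η hη using hη
  choose v hv using hv
  have hU : ∀ W ε : ℝ, 0 < ε → ∀ᶠ n in l, ∀ t, |t| ≤ W →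
      ‖ξ n t - η t‖ + ‖ξ' n t - v t‖ ≤ ε := by
    intro W ε hε
    obtain ⟨B, hB0, hB⟩ := hB W
    obtain ⟨ε₀, D, hε₀, hD, h⟩ := t9aj_approx hA W
    obtain ⟨θ, hθ⟩ : ∃ θ, θ = ε / ((D + 1) * (6 + 2 * B)) := ⟨_, rfl⟩
    have hθ0 : 0 < θ := by rw [hθ]; positivity
    have hθ1 : (D + 1) * (6 + 2 * B) * θ = ε := by rw [hθ]; field_simp
    have hS : ∀ᶠ n in l, (∀ t, HasDerivAt (ξ n) (ξ' n t) t ∧ HasDerivAt (P n) (P' n t) t) ∧
        (∀ t, |t| ≤ W → ‖P n t - Dv (A t (ξ n t, ξ' n t))‖ ≤ θ * (1 + B) ∧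
          ‖P' n t - Dx (A t (ξ n t, ξ' n t))‖ ≤ θ * (1 + B)) ∧
        ‖ξ n 0 - η 0‖ ≤ θ ∧ ‖ξ' n 0 - v 0‖ ≤ θ := by
      filter_upwards [h1, h2 W θ hθ0, hB,
        (tendsto_iff_norm_sub_tendsto_zero.1 (hη 0)).eventually (eventually_le_nhds hθ0),
        (tendsto_iff_norm_sub_tendsto_zero.1 (hv 0)).eventually (eventually_le_nhds hθ0)]
        with n a1 a2 a3 a4 a5
      refine ⟨a1, fun t ht => ?_, a4, a5⟩
      have a6 : θ * (1 + ‖ξ n t‖ + ‖ξ' n t‖) ≤ θ * (1 + B) :=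
        mul_le_mul_of_nonneg_left (by linarith [a3 t ht]) hθ0.le
      exact ⟨(a2 t ht).1.trans a6, (a2 t ht).2.trans a6⟩
    filter_upwards [hS] with n a t ht
    have hlim : Tendsto (fun k => ‖ξ n t - ξ k t‖ + ‖ξ' n t - ξ' k t‖) l
        (𝓝 (‖ξ n t - η t‖ + ‖ξ' n t - v t‖)) :=
      (tendsto_const_nhds.sub (hη t)).norm.add (tendsto_const_nhds.sub (hv t)).norm
    refine le_of_tendsto hlim ?_
    filter_upwards [hS] with k b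
    have hd := h (fun r => ξ n r - ξ k r) (fun r => ξ' n r - ξ' k r) (fun r => P n r - P k r)
      (fun r => P' n r - P' k r) (2 * (θ * (1 + B))) (by positivity)
      (fun r => ⟨(a.1 r).1.sub (b.1 r).1, (a.1 r).2.sub (b.1 r).2⟩) (fun r hr => by
        have e : ((ξ n r - ξ k r, ξ' n r - ξ' k r) : ℂ × ℂ) = (ξ n r, ξ' n r) - (ξ k r, ξ' k r) :=
          rfl
        have p0 : 0 ≤ ε₀ * (‖ξ n r - ξ k r‖ + ‖ξ' n r - ξ' k r‖) := by positivity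
        simp only [e, map_sub, t9aj_Dv_sub, t9aj_Dx_sub]
        refine ⟨?_, ?_⟩
        · rw [sub_sub_sub_comm]
          linarith [norm_sub_le (P n r - Dv (A r (ξ n r, ξ' n r))) (P k r - Dv (A r (ξ k r, ξ' k r))),
            (a.2.1 r hr).1, (b.2.1 r hr).1]
        · rw [sub_sub_sub_comm]
          linarith [norm_sub_le (P' n r - Dx (A r (ξ n r, ξ' n r)))
            (P' k r - Dx (A r (ξ k r, ξ' k r))), (a.2.1 r hr).2, (b.2.1 r hr).2]) 0 t (z0 ht) ht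
    have c1 : ‖ξ n 0 - ξ k 0‖ ≤ 2 * θ := by
      have := norm_sub_le (ξ n 0 - η 0) (ξ k 0 - η 0)
      rw [sub_sub_sub_cancel_right] at this
      linarith [a.2.2.1, b.2.2.1]
    have c2 : ‖ξ' n 0 - ξ' k 0‖ ≤ 2 * θ := by
      have := norm_sub_le (ξ' n 0 - v 0) (ξ' k 0 - v 0)
      rw [sub_sub_sub_cancel_right] at this
      linarith [a.2.2.2, b.2.2.2]
    have c3 : ‖ξ n 0 - ξ k 0‖ + ‖ξ' n 0 - ξ' k 0‖ + 2 * (θ * (1 + B)) ≤ (6 + 2 * B) * θ := by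
      linarith
    have c4 := mul_le_mul_of_nonneg_left c3 hD
    have c5 : 0 ≤ (6 + 2 * B) * θ := by positivity
    nlinarith
  have hPU : ∀ W ε : ℝ, 0 < ε → ∀ᶠ n in l, ∀ t, |t| ≤ W →
      ‖P n t - Dv (A t (η t, v t))‖ ≤ ε ∧ ‖P' n t - Dx (A t (η t, v t))‖ ≤ ε := by
    intro W ε hε
    obtain ⟨B, hB0, hB⟩ := hB W
    obtain ⟨M, hM, hb⟩ := t9aj_bdd hA W
    obtain ⟨θ, hθ⟩ : ∃ θ, θ = ε / (1 + B + M) := ⟨_, rfl⟩
    have hθ0 : 0 < θ := by rw [hθ]; positivity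
    have hθ1 : θ * (1 + B) + M * θ = ε := by rw [hθ]; field_simp
    filter_upwards [h2 W θ hθ0, hB, hU W θ hθ0] with n a2 a3 a4 t ht
    have a6 : θ * (1 + ‖ξ n t‖ + ‖ξ' n t‖) ≤ θ * (1 + B) :=
      mul_le_mul_of_nonneg_left (by linarith [a3 t ht]) hθ0.le
    have a7 := (t9aj_norm_app (hb t ht) (ξ n t - η t) (ξ' n t - v t)).trans
      (mul_le_mul_of_nonneg_left (a4 t ht) hM)
    have e : ((ξ n t - η t, ξ' n t - v t) : ℂ × ℂ) = (ξ n t, ξ' n t) - (η t, v t) := rfl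
    rw [e, map_sub] at a7
    have a8 := (t9aj_norm_Dv _).trans a7
    have a9 := (t9aj_norm_Dx _).trans a7
    rw [t9aj_Dv_sub] at a8
    rw [t9aj_Dx_sub] at a9
    refine ⟨?_, ?_⟩
    · linarith [norm_sub_le_norm_sub_add_norm_sub (P n t) (Dv (A t (ξ n t, ξ' n t)))
        (Dv (A t (η t, v t))), (a2 t ht).1]
    · linarith [norm_sub_le_norm_sub_add_norm_sub (P' n t) (Dx (A t (ξ n t, ξ' n t)))
        (Dx (A t (η t, v t))), (a2 t ht).2]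
  have hmem : ∀ t : ℝ, t ∈ Set.Ioo (-(|t| + 1)) (|t| + 1) := fun t =>
    ⟨by linarith [neg_abs_le t], by linarith [le_abs_self t]⟩
  have habs : ∀ {W r : ℝ}, r ∈ Set.Ioo (-W) W → |r| ≤ W := fun h => (abs_lt.2 h).le
  have hd : ∀ t, HasDerivAt η (v t) t := fun t => by
    refine hasDerivAt_of_tendstoUniformlyOn (l := (l : Filter ℕ)) (f := ξ) (f' := ξ') isOpen_Ioo
      ?_ (h1.mono fun n hn x _ => (hn x).1) (fun x _ => hη x) (hmem t)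
    refine Metric.tendstoUniformlyOn_iff.2 fun ε hε => ?_
    filter_upwards [hU (|t| + 1) (ε / 2) (half_pos hε)] with n hn r hr
    rw [dist_comm, dist_eq_norm]
    linarith [hn r (habs hr), norm_nonneg (ξ n r - η r)]
  have hd' : ∀ t, HasDerivAt (fun s => Dv (A s (η s, v s))) (Dx (A t (η t, v t))) t := fun t => by
    refine hasDerivAt_of_tendstoUniformlyOn (l := (l : Filter ℕ)) (f := P) (f' := P')
      (g' := fun t => Dx (A t (η t, v t))) isOpen_Ioo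
      ?_ (h1.mono fun n hn x _ => (hn x).2) (fun x _ => ?_) (hmem t)
    · refine Metric.tendstoUniformlyOn_iff.2 fun ε hε => ?_
      filter_upwards [hPU (|t| + 1) (ε / 2) (half_pos hε)] with n hn r hr
      rw [dist_comm, dist_eq_norm]
      linarith [(hn r (habs hr)).2]
    · refine Metric.tendsto_nhds.2 fun ε hε => ?_
      filter_upwards [hPU |x| (ε / 2) (half_pos hε)] with n hn
      rw [dist_eq_norm]
      linarith [(hn x le_rfl).1]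
  have ev : deriv η = v := funext fun t => (hd t).deriv
  refine ⟨η, fun t => ⟨(hd t).differentiableAt, by rw [ev]; exact hd' t⟩, fun W ε hε => ?_⟩
  filter_upwards [hU W ε hε] with n hn t ht
  rw [ev]
  exact ⟨by linarith [hn t ht, norm_nonneg (ξ' n t - v t)],
    by linarith [hn t ht, norm_nonneg (ξ n t - η t)]⟩

/-- Limits of exact solutions with convergent coefficients. -/
lemma jacA_lim (hA : Coef A) (l : Ultrafilter ℕ) {As : ℕ → ℝ → ℂ × ℂ →L[ℝ] ℂ × ℂ →L[ℝ] ℝ}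
    {ξ : ℕ → ℝ → ℂ} (h1 : ∀ᶠ n in l, JacA (As n) (ξ n))
    (h2 : ∀ W ε : ℝ, 0 < ε → ∀ᶠ n in l, ∀ t, |t| ≤ W → ‖As n t - A t‖ ≤ ε)
    {C : ℝ} (h0 : ∀ᶠ n in l, ‖ξ n 0‖ ≤ C ∧ ‖deriv (ξ n) 0‖ ≤ C) :
    ∃ η, JacA A η ∧ ∀ W ε : ℝ, 0 < ε → ∀ᶠ n in l, ∀ t, |t| ≤ W →
      ‖ξ n t - η t‖ ≤ ε ∧ ‖deriv (ξ n) t - deriv η t‖ ≤ ε := by
  refine aj_lim hA l (ξ' := fun n => deriv (ξ n))
    (P := fun n s => Dv (As n s (ξ n s, deriv (ξ n) s)))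
    (P' := fun n s => Dx (As n s (ξ n s, deriv (ξ n) s)))
    (h1.mono fun n hn t => ⟨(hn t).1.hasDerivAt, (hn t).2⟩) (fun W ε hε => ?_) h0
  filter_upwards [h2 W ε hε] with n hn t ht
  have a := t9aj_norm_app (hn t ht) (ξ n t) (deriv (ξ n) t)
  rw [sub_apply] at a
  have a1 := (t9aj_norm_Dv _).trans a
  have a2 := (t9aj_norm_Dx _).trans a
  rw [t9aj_Dv_sub] at a1
  rw [t9aj_Dx_sub] at a2
  exact ⟨by linarith, by linarith⟩

end Pool.Agent.Lib.MP_5bb885_an.Gen
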