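import Pool.Agent.Lib.MP_5bb885_an.T9Tay

/-!
Absolutely continuous curves and their action.
-/

namespace Pool.Agent.Lib.MP_5bb885_an.Gen

open UpperHalfPlane MeasureTheory Filter Topology

variable {Γ : Type} [Group Γ] [MulAction Γ ℍ] {L : ℂ × ℂ → ℝ} {x y : ℝ → ℍ} {s t r k : ℝ}

/-- Monotone reparametrisations that do not increase distances. -/
lemma t9adm_comp {X : Type} [PseudoMetricSpace X] {f : ℝ → X} {a b c d : ℝ}
    (hf : AbsolutelyContinuousOnInterval f c d) {φ : ℝ → ℝ} (hφ : Monotone φ)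
    (hl : ∀ u v, dist (φ u) (φ v) ≤ dist u v) (hm : ∀ u ∈ Set.uIcc a b, φ u ∈ Set.uIcc c d) :
    AbsolutelyContinuousOnInterval (fun τ => f (φ τ)) a b := by
  rw [absolutelyContinuousOnInterval_iff] at hf ⊢
  intro ε hε
  obtain ⟨δ, hδ, H⟩ := hf ε hε
  refine ⟨δ, hδ, fun E hE h => ?_⟩
  refine H (E.1, fun i => (φ (E.2 i).1, φ (E.2 i).2)) ⟨fun i hi =>
    ⟨hm _ (hE.1 i hi).1, hm _ (hE.1 i hi).2⟩, fun i hi j hj hij => ?_⟩
    ((Finset.sum_le_sum fun i _ => hl _ _).trans_lt h)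
  have h1 := hφ (Set.Ioc_disjoint_Ioc.1 (hE.2 hi hj hij))
  simp only [hφ.map_min, hφ.map_max] at h1
  exact Set.Ioc_disjoint_Ioc.2 h1

lemma t9adm_add {X Y Z : Type} [PseudoMetricSpace X] [PseudoMetricSpace Y] [PseudoMetricSpace Z]
    {f : ℝ → X} {g : ℝ → Y} {z : ℝ → Z} {a b : ℝ} (hf : AbsolutelyContinuousOnInterval f a b)
    (hg : AbsolutelyContinuousOnInterval g a b)
    (H : ∀ u v, dist (z u) (z v) ≤ dist (f u) (f v) + dist (g u) (g v)) :
    AbsolutelyContinuousOnInterval z a b := by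
  refine squeeze_zero (fun _ => by positivity) (fun E => ?_) (by simpa using Tendsto.add hf hg)
  rw [← Finset.sum_add_distrib]
  exact Finset.sum_le_sum fun i _ => H _ _

lemma t9adm_lip {X Y : Type} [PseudoMetricSpace X] [PseudoMetricSpace Y] {f : ℝ → X} {g : X → Y}
    {a b : ℝ} (hf : AbsolutelyContinuousOnInterval f a b)
    (H : ∀ u v, dist (g u) (g v) ≤ dist u v) :
    AbsolutelyContinuousOnInterval (fun τ => g (f τ)) a b :=
  squeeze_zero (fun _ => by positivity) (fun _ => Finset.sum_le_sum fun _ _ => H _ _) hf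

lemma t9adm_congr {E : Type} [NormedAddCommGroup E] {f g : ℝ → E} {a b : ℝ} (hab : a ≤ b)
    (h : ∀ τ ∈ Set.Ioo a b, f τ = g τ) (hf : IntervalIntegrable f volume a b) :
    IntervalIntegrable g volume a b := by
  rw [intervalIntegrable_iff_integrableOn_Ioo_of_le hab] at hf ⊢
  exact hf.congr_fun h measurableSet_Ioo

lemma t9adm_int {E : Type} [NormedAddCommGroup E] [NormedSpace ℝ E] {f g : ℝ → E} {a b : ℝ}
    (hab : a ≤ b) (h : ∀ τ ∈ Set.Ioo a b, f τ = g τ) : ∫ τ in a..b, f τ = ∫ τ in a..b, g τ := by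
  rw [intervalIntegral.integral_of_le hab, intervalIntegral.integral_of_le hab,
    integral_Ioc_eq_integral_Ioo, integral_Ioc_eq_integral_Ioo]
  exact setIntegral_congr_fun measurableSet_Ioo h

lemma t9adm_jet (h : x =ᶠ[𝓝 t] y) : jet x t = jet y t := by
  have h1 : (fun a => (x a : ℂ)) =ᶠ[𝓝 t] fun a => (y a : ℂ) := by
    filter_upwards [h] with a ha
    rw [ha]
  rw [jet, jet, vel, vel, h1.deriv_eq, h.eq_of_nhds]

lemma t9adm_cont (hst : s ≤ t) (h : AbsolutelyContinuousOnInterval x s t) :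
    ContinuousOn x (Set.Icc s t) := by
  rw [← Set.uIcc_of_le hst, isEmbedding_coe.isInducing.continuousOn_iff]
  exact (ac_coe h).continuousOn

lemma t9adm_ac (h : IntervalIntegrable (fun τ => L (jet x τ)) volume s t) (k : ℝ) :
    ac L k x s t = (∫ τ in s..t, L (jet x τ)) + k * (t - s) := by
  rw [ac, intervalIntegral.integral_add h intervalIntegrable_const,
    intervalIntegral.integral_const, smul_eq_mul, mul_comm]

lemma Adm.mono (h : Adm L x s t) {s' t' : ℝ} (h1 : s ≤ s') (h2 : s' < t') (h3 : t' ≤ t) :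
    Adm L x s' t' := by
  have h4 : Set.uIcc s' t' ⊆ Set.uIcc s t := by
    rw [Set.uIcc_of_le h2.le, Set.uIcc_of_le h.1.le]
    exact Set.Icc_subset_Icc h1 h3
  exact ⟨h2, h.2.1.mono h4, h.2.2.mono_set h4⟩

lemma Adm.continuousOn (h : Adm L x s t) : ContinuousOn x (Set.Icc s t) :=
  t9adm_cont h.1.le h.2.1

lemma Adm.ac_add (h : Adm L x s r) (h1 : s ≤ t) (h2 : t ≤ r) (k : ℝ) :
    ac L k x s t + ac L k x t r = ac L k x s r := by
  have h3 := h.2.2.add (intervalIntegrable_const (c := k))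
  have h4 : t ∈ Set.uIcc s r := Set.mem_uIcc_of_le h1 h2
  exact intervalIntegral.integral_add_adjacent_intervals
    (h3.mono_set (Set.uIcc_subset_uIcc_left h4)) (h3.mono_set (Set.uIcc_subset_uIcc_right h4))

lemma Adm.ac_const (h : Adm L x s t) (k k' : ℝ) :
    ac L k' x s t = ac L k x s t + (k' - k) * (t - s) := by
  rw [t9adm_ac h.2.2, t9adm_ac h.2.2]
  ring

lemma Adm.shift (h : Adm L x s t) (r : ℝ) : Adm L (fun τ => x (τ + r)) (s - r) (t - r) := by
  refine ⟨sub_lt_sub_right h.1 r, t9adm_comp h.2.1 (φ := fun τ => τ + r)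
    (fun a b hab => add_le_add_left hab r) (fun u v => (dist_add_right u v r).le) fun u hu => ?_, ?_⟩
  · rw [Set.uIcc_of_le (sub_le_sub_right h.1.le r)] at hu
    exact Set.mem_uIcc_of_le (by linarith [hu.1]) (by linarith [hu.2])
  · simp only [jet_shift]
    exact h.2.2.comp_add_right r

lemma ac_shift (L : ℂ × ℂ → ℝ) (k : ℝ) (x : ℝ → ℍ) (s t r : ℝ) :
    ac L k (fun τ => x (τ + r)) (s - r) (t - r) = ac L k x s t := by
  simp only [ac, jet_shift]
  rw [intervalIntegral.integral_comp_add_right (fun τ => L (jet x τ) + k), sub_add_cancel,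
    sub_add_cancel]

lemma Tonelli.jet_smul (F : Deck Γ) (hL : Tonelli Γ L) (γ : Γ) (x : ℝ → ℍ) (t : ℝ) :
    L (jet (fun τ => γ • x τ) t) = L (jet x t) := by
  rw [jet, F.vel_smul, hL.inv, jet]

lemma Adm.smul (F : Deck Γ) (hL : Tonelli Γ L) (h : Adm L x s t) (γ : Γ) :
    Adm L (fun τ => γ • x τ) s t := by
  refine ⟨h.1, t9adm_lip (g := fun z : ℍ => γ • z) h.2.1 fun u v => (F.iso γ u v).le, ?_⟩
  simp only [hL.jet_smul F]
  exact h.2.2

lemma Tonelli.ac_smul (F : Deck Γ) (hL : Tonelli Γ L) (γ : Γ) (k : ℝ) (x : ℝ → ℍ) (s t : ℝ) :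
    ac L k (fun τ => γ • x τ) s t = ac L k x s t := by
  simp only [ac, hL.jet_smul F]

lemma Adm.glue (h1 : Adm L x s t) (h2 : Adm L y t r) (h : x t = y t) :
    ∃ z, Adm L z s r ∧ z s = x s ∧ z r = y r ∧ ∀ k, ac L k z s r = ac L k x s t + ac L k y t r := by
  have hst := h1.1
  have htr := h2.1
  obtain ⟨z, hz⟩ : ∃ z : ℝ → ℍ, ∀ τ, z τ = if τ ≤ t then x τ else y τ := ⟨_, fun _ => rfl⟩
  have z1 : ∀ τ, τ ≤ t → z τ = x τ := fun τ hτ => by rw [hz, if_pos hτ]
  have z2 : ∀ τ, t ≤ τ → z τ = y τ := fun τ hτ => by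
    rcases hτ.eq_or_lt with rfl | hτ
    · rw [z1 _ le_rfl, h]
    · rw [hz, if_neg hτ.not_ge]
  have j1 : ∀ τ ∈ Set.Ioo s t, jet x τ = jet z τ := fun τ hτ => t9adm_jet (by
    filter_upwards [Iio_mem_nhds hτ.2] with a ha
    exact (z1 a (le_of_lt ha)).symm)
  have j2 : ∀ τ ∈ Set.Ioo t r, jet y τ = jet z τ := fun τ hτ => t9adm_jet (by
    filter_upwards [Ioi_mem_nhds hτ.1] with a ha
    exact (z2 a (le_of_lt ha)).symm)
  have a1 : AbsolutelyContinuousOnInterval (fun τ => x (min τ t)) s r :=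
    t9adm_comp h1.2.1 (φ := fun τ => min τ t) (fun a b hab => min_le_min_right t hab)
      (fun u v => by simpa using (LipschitzWith.id.min_const t).dist_le_mul u v) fun u hu => by
        rw [Set.uIcc_of_le (hst.trans htr).le] at hu
        exact Set.mem_uIcc_of_le (le_min hu.1 hst.le) (min_le_right _ _)
  have a2 : AbsolutelyContinuousOnInterval (fun τ => y (max τ t)) s r :=
    t9adm_comp h2.2.1 (φ := fun τ => max τ t) (fun a b hab => max_le_max_right t hab)
      (fun u v => by simpa using (LipschitzWith.id.max_const t).dist_le_mul u v) fun u hu => by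
        rw [Set.uIcc_of_le (hst.trans htr).le] at hu
        exact Set.mem_uIcc_of_le (le_max_right _ _) (max_le hu.2 htr.le)
  have key : ∀ u v, u ≤ t → t ≤ v → dist (z u) (z v) ≤
      dist (x (min u t)) (x (min v t)) + dist (y (max u t)) (y (max v t)) := fun u v hu hv => by
    rw [z1 u hu, z2 v hv, min_eq_left hu, min_eq_right hv, max_eq_right hu, max_eq_left hv, ← h]
    exact dist_triangle _ _ _
  have i1 : IntervalIntegrable (fun τ => L (jet z τ)) volume s t :=
    t9adm_congr hst.le (fun τ hτ => by rw [j1 τ hτ]) h1.2.2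
  have i2 : IntervalIntegrable (fun τ => L (jet z τ)) volume t r :=
    t9adm_congr htr.le (fun τ hτ => by rw [j2 τ hτ]) h2.2.2
  have hA : Adm L z s r := by
    refine ⟨hst.trans htr, t9adm_add a1 a2 fun u v => ?_, i1.trans i2⟩
    rcases le_total u t with hu | hu <;> rcases le_total v t with hv | hv
    · rw [z1 u hu, z1 v hv, min_eq_left hu, min_eq_left hv]
      exact le_add_of_nonneg_right dist_nonneg
    · exact key u v hu hv
    · rw [dist_comm, dist_comm (x _), dist_comm (y _)]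
      exact key v u hv hu
    · rw [z2 u hu, z2 v hv, max_eq_left hu, max_eq_left hv]
      exact le_add_of_nonneg_left dist_nonneg
  refine ⟨z, hA, z1 s hst.le, z2 r htr.le, fun k => ?_⟩
  rw [← hA.ac_add hst.le htr.le k]
  congr 1
  · exact t9adm_int hst.le fun τ hτ => by rw [j1 τ hτ]
  · exact t9adm_int htr.le fun τ hτ => by rw [j2 τ hτ]

lemma t9adm_pot {f : ℂ → ℝ} (hf : ContinuousOn f HP) (hst : s ≤ t)
    (h : AbsolutelyContinuousOnInterval x s t) :
    IntervalIntegrable (fun τ => f (x τ)) volume s t :=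
  (hf.comp (continuous_coe.comp_continuousOn (t9adm_cont hst h))
    fun τ _ => (x τ).im_pos).intervalIntegrable_of_Icc hst

lemma adm_addP {f : ℂ → ℝ} (hf : ContinuousOn f HP) : Adm (addP L f) x s t ↔ Adm L x s t := by
  refine ⟨fun h => ⟨h.1, h.2.1, ?_⟩, fun h => ⟨h.1, h.2.1, h.2.2.add (t9adm_pot hf h.1.le h.2.1)⟩⟩
  have h1 := h.2.2.sub (t9adm_pot hf h.1.le h.2.1)
  exact h1.congr fun τ _ => add_sub_cancel_right _ _

lemma Adm.ac_addP (h : Adm L x s t) {f : ℂ → ℝ} (hf : ContinuousOn f HP) (k : ℝ) :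
    ac (addP L f) k x s t = ac L k x s t + ∫ τ in s..t, f (x τ) := by
  rw [ac, ac, ← intervalIntegral.integral_add (h.2.2.add intervalIntegrable_const)
    (t9adm_pot hf h.1.le h.2.1)]
  exact intervalIntegral.integral_congr fun τ _ => add_right_comm _ _ _

lemma t9adm_exp (d : ℝ) : Real.exp d - 1 ≤ Real.exp d * d := by
  have h5 := mul_le_mul_of_nonneg_left (Real.add_one_le_exp (-d)) (Real.exp_pos d).le
  rw [← Real.exp_add, add_neg_cancel, Real.exp_zero] at h5
  linarith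

lemma vel_le_of_lip {C : ℝ} (h : ∀ᶠ a in 𝓝 t, dist (x a) (x t) ≤ C * |a - t|) (hC : 0 ≤ C) :
    ‖vel x t‖ ≤ C * (x t).im := by
  have h0 := (x t).im_pos
  have h1 : Tendsto (fun a => C * |a - t|) (𝓝 t) (𝓝 0) := by
    have h1 : Continuous fun a => C * |a - t| := by fun_prop
    simpa using h1.tendsto t
  have h2 : Tendsto (fun e => Real.exp e * (C * (x t).im)) (𝓝[>] 0) (𝓝 (C * (x t).im)) := by
    have h2 : Continuous fun e => Real.exp e * (C * (x t).im) := by fun_prop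
    simpa using (h2.tendsto 0).mono_left nhdsWithin_le_nhds
  refine ge_of_tendsto h2 ?_
  filter_upwards [self_mem_nhdsWithin] with e he
  refine norm_deriv_le_of_lip' (by positivity) ?_
  filter_upwards [h, h1.eventually (gt_mem_nhds (show (0 : ℝ) < e from he))] with a k1 k2
  have k3 := dist_coe_le (x a) (x t)
  have k4 := (t9adm_exp (dist (x a) (x t))).trans (mul_le_mul
    (Real.exp_le_exp.2 (k1.trans k2.le)) k1 dist_nonneg (Real.exp_pos e).le)
  rw [← dist_eq_norm, Real.norm_eq_abs]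
  refine k3.trans ((mul_le_mul_of_nonneg_left k4 h0.le).trans (le_of_eq ?_))
  ring

lemma t9adm_meas (hL : ContinuousOn L TH) (hx : ContinuousOn x (Set.Ioo s t)) :
    AEStronglyMeasurable (fun τ => L (jet x τ)) (volume.restrict (Set.Ioo s t)) := by
  classical
  have h1 : Measurable (TH.piecewise L 0) :=
    hL.measurable_piecewise continuousOn_const isOpen_TH.measurableSet
  have h2 : AEMeasurable (jet x) (volume.restrict (Set.Ioo s t)) :=
    ((continuous_coe.comp_continuousOn hx).aemeasurable measurableSet_Ioo).prodMk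
      (measurable_deriv _).aemeasurable
  have h3 : (fun τ => L (jet x τ)) = fun τ => TH.piecewise L 0 (jet x τ) :=
    funext fun τ => (Set.piecewise_eq_of_mem _ _ _ (jet_mem x τ)).symm
  rw [h3]
  exact (h1.comp_aemeasurable h2).aestronglyMeasurable

lemma t9adm_vel {C τ : ℝ} (hC : 0 ≤ C) (hτ : τ ∈ Set.Ioo s t)
    (h : ∀ a ∈ Set.Icc s t, ∀ b ∈ Set.Icc s t, dist (x a) (x b) ≤ C * |a - b|) :
    ‖vel x τ‖ ≤ C * (x τ).im := by
  refine vel_le_of_lip ?_ hC
  filter_upwards [Icc_mem_nhds hτ.1 hτ.2] with a ha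
  exact h a ha τ (Set.Ioo_subset_Icc_self hτ)

lemma adm_of_lip (hL : ContinuousOn L TH) (hst : s < t) {C : ℝ}
    (h : ∀ a ∈ Set.Icc s t, ∀ b ∈ Set.Icc s t, dist (x a) (x b) ≤ C * |a - b|) : Adm L x s t := by
  have hC : 0 ≤ C := nonneg_of_mul_nonneg_left (dist_nonneg.trans
    (h t ⟨hst.le, le_rfl⟩ s ⟨le_rfl, hst.le⟩)) (abs_pos.2 (sub_ne_zero.2 hst.ne'))
  have h1 : AbsolutelyContinuousOnInterval x s t := by
    refine (LipschitzOnWith.of_dist_le_mul (K := ⟨C, hC⟩) ?_).absolutelyContinuousOnInterval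
    rw [Set.uIcc_of_le hst.le]
    exact h
  have h2 := t9adm_cont hst.le h1
  have h3 := continuous_coe.comp_continuousOn h2
  obtain ⟨M, hM⟩ := isCompact_Icc.exists_bound_of_continuousOn h3
  obtain ⟨B, hB⟩ := ((isCompact_Icc.image_of_continuousOn h3).prod
    (isCompact_closedBall (0 : ℂ) (C * M))).exists_bound_of_continuousOn (hL.mono (by
      rintro p ⟨⟨a, -, ha⟩, -⟩
      rw [TH, Set.mem_ofPred_eq, ← ha]
      exact (x a).im_pos))
  refine ⟨hst, h1, ?_⟩
  rw [intervalIntegrable_iff_integrableOn_Ioo_of_le hst.le]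
  refine ⟨t9adm_meas hL (h2.mono Set.Ioo_subset_Icc_self), ?_⟩
  refine HasFiniteIntegral.restrict_of_bounded B (by simp) ?_
  refine (ae_restrict_iff' measurableSet_Ioo).2 (Eventually.of_forall fun τ hτ => ?_)
  have k1 := Set.Ioo_subset_Icc_self hτ
  refine hB _ ⟨⟨τ, k1, rfl⟩, mem_closedBall_zero_iff.2 ((t9adm_vel hC hτ h).trans
    (mul_le_mul_of_nonneg_left ?_ hC))⟩
  exact ((le_abs_self _).trans (Complex.abs_im_le_norm (x τ : ℂ))).trans (hM τ k1)

lemma adm_lipC (hL : ContinuousOn L TH) (hst : s < t) {y : ℝ → ℂ} {C : ℝ}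
    (h : ∀ a ∈ Set.Icc s t, ∀ b ∈ Set.Icc s t, ‖y a - y b‖ ≤ C * |a - b|)
    (hy : ∀ a ∈ Set.Icc s t, y a ∈ HP) : Adm L (fun τ => ofComplex (y τ)) s t ∧
      ∀ τ ∈ Set.Ioo s t, jet (fun τ => ofComplex (y τ)) τ = (y τ, deriv y τ) := by
  have hC : 0 ≤ C := nonneg_of_mul_nonneg_left ((norm_nonneg _).trans
    (h t ⟨hst.le, le_rfl⟩ s ⟨le_rfl, hst.le⟩)) (abs_pos.2 (sub_ne_zero.2 hst.ne'))
  have h1 : ∀ a ∈ Set.Icc s t, ((ofComplex (y a) : ℍ) : ℂ) = y a := fun a ha => by
    rw [ofComplex_apply_of_im_pos (hy a ha)]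
  have h2 : ContinuousOn y (Set.Icc s t) :=
    (LipschitzOnWith.of_dist_le_mul (K := ⟨C, hC⟩) fun a ha b hb => by
      rw [dist_eq_norm]
      exact h a ha b hb).continuousOn
  obtain ⟨a₀, k1, k2⟩ := isCompact_Icc.exists_isMinOn ⟨s, le_rfl, hst.le⟩
    (Complex.continuous_im.comp_continuousOn h2)
  have hm : 0 < (y a₀).im := hy a₀ k1
  refine ⟨adm_of_lip hL hst (C := C / (y a₀).im) fun a ha b hb => ?_, fun τ hτ => ?_⟩
  · refine (dist_le_dist_coe_div_sqrt _ _).trans ?_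
    rw [← coe_im, ← coe_im, h1 a ha, h1 b hb, dist_eq_norm, div_mul_eq_mul_div]
    refine div_le_div₀ (by positivity) (h a ha b hb) hm (Real.le_sqrt_of_sq_le ?_)
    rw [sq]
    exact mul_le_mul (k2 ha) (k2 hb) hm.le (le_of_lt (hy a ha))
  · have h3 : (fun a => ((ofComplex (y a) : ℍ) : ℂ)) =ᶠ[𝓝 τ] y := by
      filter_upwards [Icc_mem_nhds hτ.1 hτ.2] with a ha
      exact h1 a ha
    rw [jet, vel, h3.deriv_eq, h1 τ (Set.Ioo_subset_Icc_self hτ)]

lemma adm_C1 (hL : ContinuousOn L TH) (hst : s < t) {y y' : ℝ → ℂ}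
    (h : ∀ τ ∈ Set.Icc s t, HasDerivAt y (y' τ) τ) (h' : ContinuousOn y' (Set.Icc s t))
    (hy : ∀ a ∈ Set.Icc s t, y a ∈ HP) : Adm L (fun τ => ofComplex (y τ)) s t ∧
      ∀ k, ac L k (fun τ => ofComplex (y τ)) s t = ∫ τ in s..t, (L (y τ, y' τ) + k) := by
  obtain ⟨M, hM⟩ := isCompact_Icc.exists_bound_of_continuousOn h'
  obtain ⟨h1, h2⟩ := adm_lipC hL hst (C := M) (fun a ha b hb =>
    (convex_Icc s t).norm_image_sub_le_of_norm_hasDerivWithin_le
      (fun τ hτ => (h τ hτ).hasDerivWithinAt) hM hb ha) hy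
  exact ⟨h1, fun k => t9adm_int hst.le fun τ hτ => by
    rw [h2 τ hτ, (h τ (Set.Ioo_subset_Icc_self hτ)).deriv]⟩

lemma adm_const (L : ℂ × ℂ → ℝ) (z : ℍ) (hst : s < t) : Adm L (fun _ => z) s t ∧
    ∀ k, ac L k (fun _ => z) s t = (L (z, 0) + k) * (t - s) := by
  have h1 : ∀ τ, jet (fun _ => z) τ = ((z : ℂ), 0) := fun τ => by rw [jet, vel_const]
  refine ⟨⟨hst, (LipschitzWith.const z).lipschitzOnWith.absolutelyContinuousOnInterval, ?_⟩,
    fun k => ?_⟩
  · simp only [h1]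
    exact intervalIntegrable_const
  · simp only [ac, h1, intervalIntegral.integral_const, smul_eq_mul, mul_comm]

lemma Adm.ae_diff (h : Adm L x s t) :
    ∀ᵐ τ, τ ∈ Set.Icc s t → HasDerivAt (fun a => (x a : ℂ)) (vel x τ) τ := by
  filter_upwards [(ac_coe h.2.1).boundedVariationOn.ae_differentiableAt_of_mem_uIcc] with τ k1 k2
  rw [← Set.uIcc_of_le h.1.le] at k2
  exact (k1 k2).hasDerivAt

lemma Adm.ftc (h : Adm L x s t) : IntervalIntegrable (vel x) volume s t ∧
    ∫ τ in s..t, vel x τ = (x t : ℂ) - x s := by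
  have h1 : AbsolutelyContinuousOnInterval (fun τ => (x τ : ℂ).re) s t :=
    t9adm_lip (g := Complex.re) (ac_coe h.2.1) fun u v => by
      rw [Complex.dist_eq, Real.dist_eq, ← Complex.sub_re]
      exact Complex.abs_re_le_norm _
  have h2 : AbsolutelyContinuousOnInterval (fun τ => (x τ : ℂ).im) s t :=
    t9adm_lip (g := Complex.im) (ac_coe h.2.1) fun u v => by
      rw [Complex.dist_eq, Real.dist_eq, ← Complex.sub_im]
      exact Complex.abs_im_le_norm _
  have h3 : ∀ᵐ τ, τ ∈ Set.uIoc s t → vel x τ = ((deriv (fun τ => (x τ : ℂ).re) τ : ℝ) : ℂ) +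
      ((deriv (fun τ => (x τ : ℂ).im) τ : ℝ) : ℂ) * Complex.I := by
    filter_upwards [h.ae_diff] with τ k1 k2
    rw [Set.uIoc_of_le h.1.le] at k2
    have k3 := k1 (Set.Ioc_subset_Icc_self k2)
    have k4 : HasDerivAt (fun τ => (x τ : ℂ).re) (vel x τ).re τ :=
      Complex.reCLM.hasFDerivAt.comp_hasDerivAt τ k3
    have k5 : HasDerivAt (fun τ => (x τ : ℂ).im) (vel x τ).im τ :=
      Complex.imCLM.hasFDerivAt.comp_hasDerivAt τ k3
    rw [k4.deriv, k5.deriv, Complex.re_add_im]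
  have h4 : ∀ {f : ℝ → ℝ}, IntervalIntegrable f volume s t →
      IntervalIntegrable (fun τ => (f τ : ℂ)) volume s t := fun hf => ⟨hf.1.ofReal, hf.2.ofReal⟩
  have h5 := h4 h1.intervalIntegrable_deriv
  have h6 := (h4 h2.intervalIntegrable_deriv).mul_const Complex.I
  refine ⟨(h5.add h6).congr_ae ?_, ?_⟩
  · refine (ae_restrict_iff' measurableSet_uIoc).2 ?_
    filter_upwards [h3] with τ k1 k2
    exact (k1 k2).symm
  · rw [intervalIntegral.integral_congr_ae h3, intervalIntegral.integral_add h5 h6,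
      intervalIntegral.integral_mul_const, intervalIntegral.integral_ofReal,
      intervalIntegral.integral_ofReal, h1.integral_deriv_eq_sub, h2.integral_deriv_eq_sub,
      ← Complex.sub_re, ← Complex.sub_im, Complex.re_add_im]

lemma Adm.length (h : Adm L x s t) {A B : ℝ} (hA : 0 ≤ A)
    (H : ∀ (z : ℍ) (v : ℂ), A * (‖v‖ / z.im) - B ≤ L (z, v)) (k : ℝ) :
    A * dist (x s) (x t) ≤ ac L k x s t + (B - k) * (t - s) := by
  have h3 := ac_dist h.2.1 (x s)
  have h4 := intervalIntegral.integral_mono_ae_restrict h.1.le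
    (h3.intervalIntegrable_deriv.const_mul A) (h.2.2.add (intervalIntegrable_const (c := B))) (by
      refine (ae_restrict_iff' measurableSet_Icc).2 ?_
      filter_upwards [h3.ae_differentiableAt, h.ae_diff] with τ k1 k2 k3
      have k4 := mul_le_mul_of_nonneg_left (deriv_dist_le (x s) (k2 k3).differentiableAt
        (k1 (Set.mem_uIcc_of_le k3.1 k3.2))) hA
      exact k4.trans (sub_le_iff_le_add.1 (H (x τ) (vel x τ))))
  rw [intervalIntegral.integral_const_mul, h3.integral_deriv_eq_sub, dist_self, sub_zero] at h4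
  rw [← h.ac_const k B]
  exact h4

/-- A geodesic segment, travelled in time `dist z w + θ`. -/
lemma exists_seg (hL : ContinuousOn L TH) (z w : ℍ) {θ B : ℝ} (hθ : 0 < θ)
    (H : ∀ (z : ℍ) (v : ℂ), ‖v‖ / z.im ≤ 1 → L (z, v) ≤ B) :
    ∃ x, Adm L x 0 (dist z w + θ) ∧ x 0 = z ∧ x (dist z w + θ) = w ∧
      ∀ k, ac L k x 0 (dist z w + θ) ≤ (B + k) * (dist z w + θ) := by
  obtain ⟨g, h1, h2⟩ := exists_frame z w
  have h0 : 0 ≤ dist z w := dist_nonneg
  generalize dist z w = d at *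
  have h3 : 0 < d + θ := by positivity
  have h4 : ∀ a ∈ Set.Icc 0 (d + θ), ∀ b ∈ Set.Icc 0 (d + θ),
      dist (geo g (d / (d + θ) * a)) (geo g (d / (d + θ) * b)) ≤ 1 * |a - b| := fun a _ b _ => by
    rw [dist_geo, ← mul_sub, abs_mul, abs_of_nonneg (div_nonneg h0 h3.le)]
    exact mul_le_mul_of_nonneg_right ((div_le_one h3).2 (by linarith)) (abs_nonneg _)
  have h5 := adm_of_lip (x := fun τ => geo g (d / (d + θ) * τ)) hL h3 h4
  refine ⟨_, h5, by simp only [mul_zero, h1], by simp only [div_mul_cancel₀ _ h3.ne', h2],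
    fun k => ?_⟩
  refine (intervalIntegral.integral_mono_on_of_le_Ioo h3.le (h5.2.2.add intervalIntegrable_const)
    (intervalIntegrable_const (c := B + k)) fun τ hτ => ?_).trans_eq ?_
  · refine add_le_add_left (H _ _ ?_) k
    rw [div_le_iff₀ (im_pos _)]
    exact t9adm_vel (x := fun τ => geo g (d / (d + θ) * τ)) zero_le_one hτ h4
  · rw [intervalIntegral.integral_const, smul_eq_mul, sub_zero, mul_comm]

end Pool.Agent.Lib.MP_5bb885_an.Gen
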