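import Pool.Agent.Lib.MP_5bb885_an.T9Core
import Pool.Agent.Lib.MP_5bb885_an.H9Act

/-!
Hyperbolic balls.
-/

namespace Pool.Agent.Lib.MP_5bb885_an.Gen

open UpperHalfPlane MeasureTheory Filter Topology

lemma isOpen_HP : IsOpen HP := by
  exact isOpen_lt continuous_const Complex.continuous_im

lemma isOpen_TH : IsOpen TH := by
  exact isOpen_lt continuous_const (Complex.continuous_im.comp continuous_fst)

lemma isCompact_KB (R : ℝ) : IsCompact (KB R) := by
  exact (isCompact_closedBall (I : ℍ) R).image UpperHalfPlane.continuous_coe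

lemma convex_KB (R : ℝ) : Convex ℝ (KB R) := by
  have h : KB R = Metric.closedBall ((center I R : ℍ) : ℂ) ((I : ℍ).im * Real.sinh R) :=
    UpperHalfPlane.image_coe_closedBall I R
  rw [h]
  exact convex_closedBall _ _

lemma KB_sub (R : ℝ) : KB R ⊆ HP := by
  rintro _ ⟨z, -, rfl⟩
  exact z.im_pos

lemma mem_KB {R : ℝ} {z : ℍ} : (z : ℂ) ∈ KB R ↔ dist z I ≤ R := by
  constructor
  · rintro ⟨w, hw, h⟩
    have hwz : w = z := UpperHalfPlane.ext h
    rw [← hwz]
    exact hw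
  · intro h
    exact ⟨z, h, rfl⟩

lemma KB_mono {R R' : ℝ} (h : R ≤ R') : KB R ⊆ KB R' := by
  exact Set.image_mono (Metric.closedBall_subset_closedBall h)

lemma exists_KB {Q : Set ℂ} (hQ : IsCompact Q) (h : Q ⊆ HP) : ∃ R, Q ⊆ KB R := by
  have hK : IsCompact ((fun z : ℍ => (z : ℂ)) ⁻¹' Q) := by
    refine UpperHalfPlane.isEmbedding_coe.isInducing.isCompact_preimage' hQ ?_
    intro w hw
    exact ⟨⟨w, h hw⟩, rfl⟩
  obtain ⟨R, hR⟩ := hK.isBounded.subset_closedBall (I : ℍ)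
  refine ⟨R, fun w hw => ⟨⟨w, h hw⟩, hR ?_, rfl⟩⟩
  exact hw

lemma t9ball_im {R : ℝ} (z : ℍ) (hz : dist z I ≤ R) :
    (Real.exp |R|)⁻¹ ≤ z.im ∧ z.im ≤ Real.exp |R| := by
  have h0 : Real.exp (dist z I) ≤ Real.exp |R| := Real.exp_le_exp.2 (hz.trans (le_abs_self R))
  constructor
  · have h1 := UpperHalfPlane.im_div_exp_dist_le (I : ℍ) z
    rw [UpperHalfPlane.I_im, dist_comm, one_div] at h1
    exact (inv_anti₀ (Real.exp_pos _) h0).trans h1
  · have h1 := UpperHalfPlane.im_le_im_mul_exp_dist z (I : ℍ)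
    rw [UpperHalfPlane.I_im, one_mul] at h1
    exact h1.trans h0

lemma KB_cmp (R : ℝ) : ∃ C : ℝ, 1 ≤ C ∧ ∀ z w : ℍ, dist z I ≤ R → dist w I ≤ R →
    dist z w ≤ C * ‖(z : ℂ) - w‖ ∧ ‖(z : ℂ) - w‖ ≤ C * dist z w ∧ C⁻¹ ≤ z.im ∧ z.im ≤ C := by
  set E := Real.exp |R| with hE
  have hE1 : 1 ≤ E := Real.one_le_exp (abs_nonneg R)
  have hE0 : 0 < E := Real.exp_pos _
  have hE3 : E ≤ E ^ 3 := le_self_pow₀ hE1 (by norm_num)
  refine ⟨E ^ 3, one_le_pow₀ hE1, fun z w hz hw => ?_⟩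
  obtain ⟨hz1, hz2⟩ := t9ball_im z hz
  obtain ⟨hw1, hw2⟩ := t9ball_im w hw
  rw [← hE] at hz1 hz2 hw1 hw2
  have hn : 0 ≤ ‖(z : ℂ) - w‖ := norm_nonneg _
  have hd : 0 ≤ dist z w := dist_nonneg
  refine ⟨?_, ?_, ?_, hz2.trans hE3⟩
  · have h1 := UpperHalfPlane.dist_le_dist_coe_div_sqrt z w
    rw [dist_eq_norm] at h1
    have h2 : E⁻¹ ≤ √(z.im * w.im) := by
      refine Real.le_sqrt_of_sq_le ?_
      rw [sq]
      exact mul_le_mul hz1 hw1 (by positivity) z.im_pos.le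
    calc dist z w ≤ ‖(z : ℂ) - w‖ / √(z.im * w.im) := h1
      _ ≤ ‖(z : ℂ) - w‖ / E⁻¹ := div_le_div_of_nonneg_left hn (by positivity) h2
      _ = E * ‖(z : ℂ) - w‖ := by rw [div_inv_eq_mul, mul_comm]
      _ ≤ E ^ 3 * ‖(z : ℂ) - w‖ := mul_le_mul_of_nonneg_right hE3 hn
  · have h1 := UpperHalfPlane.dist_coe_le z w
    rw [dist_eq_norm] at h1
    have h2 : dist z w ≤ |R| + |R| := by
      have := dist_triangle_right z w I
      have := le_abs_self R
      linarith
    have h3 : Real.exp (dist z w) ≤ E * E := by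
      rw [hE, ← Real.exp_add]
      exact Real.exp_le_exp.2 h2
    have h4 : Real.exp (dist z w) - 1 ≤ dist z w * Real.exp (dist z w) := by
      have h5 := Real.add_one_le_exp (-dist z w)
      have h6 : Real.exp (-dist z w) * Real.exp (dist z w) = 1 := by
        rw [← Real.exp_add]; simp
      have h7 := mul_le_mul_of_nonneg_right h5 (Real.exp_pos (dist z w)).le
      nlinarith
    have h8 : 0 ≤ Real.exp (dist z w) - 1 := sub_nonneg.2 (Real.one_le_exp hd)
    calc ‖(z : ℂ) - w‖ ≤ w.im * (Real.exp (dist z w) - 1) := h1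
      _ ≤ E * (dist z w * (E * E)) :=
        mul_le_mul hw2 (h4.trans (mul_le_mul_of_nonneg_left h3 hd)) h8 hE0.le
      _ = E ^ 3 * dist z w := by ring
  · exact (inv_anti₀ hE0 hE3).trans hz1

lemma KB_thick (R : ℝ) : ∃ δ : ℝ, 0 < δ ∧ ∀ z ∈ KB R, ∀ h : ℂ, ‖h‖ ≤ δ → z + h ∈ KB (R + 1) := by
  set m := (Real.exp |R|)⁻¹ with hm
  have hm0 : 0 < m := by positivity
  refine ⟨m / 2, by positivity, ?_⟩
  rintro _ ⟨z, hz, rfl⟩ h hh
  have hz' : dist z I ≤ R := hz
  obtain ⟨hz1, -⟩ := t9ball_im z hz'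
  rw [← hm] at hz1
  have him : m / 2 ≤ ((z : ℂ) + h).im := by
    have h1 : |h.im| ≤ ‖h‖ := Complex.abs_im_le_norm h
    have h2 := (abs_le.1 (h1.trans hh)).1
    have h3 : ((z : ℂ) + h).im = z.im + h.im := by simp
    linarith
  have hpos : 0 < ((z : ℂ) + h).im := lt_of_lt_of_le (by positivity) him
  let w : ℍ := ⟨(z : ℂ) + h, hpos⟩
  have hw : (w : ℂ) = (z : ℂ) + h := rfl
  have hwi : m / 2 ≤ w.im := him
  have h1 := UpperHalfPlane.dist_le_dist_coe_div_sqrt w z
  rw [dist_eq_norm, hw, add_sub_cancel_left] at h1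
  have h2 : m / 2 ≤ √(w.im * z.im) := by
    refine Real.le_sqrt_of_sq_le ?_
    rw [sq]
    exact mul_le_mul hwi (by linarith) (by positivity) w.im_pos.le
  have h3 : dist w z ≤ 1 := by
    refine h1.trans ?_
    rw [div_le_one (lt_of_lt_of_le (by positivity) h2)]
    exact hh.trans h2
  refine ⟨w, ?_, rfl⟩
  have := dist_triangle w z I
  change dist w I ≤ R + 1
  linarith

/-- At hyperbolic distance at most one the two metrics are comparable at the scale `im`. -/
lemma near_cmp (z w : ℍ) (h : dist z w ≤ 1) :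
    ‖(z : ℂ) - w‖ ≤ 2 * w.im * dist z w ∧ w.im * dist z w ≤ 2 * ‖(z : ℂ) - w‖ ∧
      z.im ≤ 3 * w.im := by
  have hd : 0 ≤ dist z w := dist_nonneg
  have hw := w.im_pos
  have h1 : Real.exp (dist z w) - 1 ≤ 2 * dist z w := by
    have h2 := Real.abs_exp_sub_one_le (x := dist z w) (by rwa [abs_of_nonneg hd])
    rw [abs_of_nonneg hd] at h2
    exact (le_abs_self _).trans h2
  refine ⟨?_, ?_, ?_⟩
  · have h2 := UpperHalfPlane.dist_coe_le z w
    rw [dist_eq_norm] at h2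
    have := mul_le_mul_of_nonneg_left h1 hw.le
    linarith
  · have h2 := UpperHalfPlane.le_dist_coe z w
    rw [dist_eq_norm] at h2
    have h3 : Real.exp (-dist z w) ≤ 1 - dist z w / 2 := by
      have h4 := Real.add_one_le_exp (dist z w)
      have h5 : Real.exp (-dist z w) * Real.exp (dist z w) = 1 := by
        rw [← Real.exp_add]; simp
      have h6 := Real.exp_pos (-dist z w)
      have h7 := mul_le_mul_of_nonneg_left h4 h6.le
      by_contra hc
      push Not at hc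
      have h8 := mul_lt_mul_of_pos_right hc (show 0 < dist z w + 1 by linarith)
      nlinarith
    have := mul_le_mul_of_nonneg_left (show dist z w / 2 ≤ 1 - Real.exp (-dist z w) by linarith) hw.le
    linarith
  · have h2 := UpperHalfPlane.im_le_im_mul_exp_dist z w
    have := mul_le_mul_of_nonneg_left (show Real.exp (dist z w) ≤ 3 by linarith) hw.le
    linarith

end Pool.Agent.Lib.MP_5bb885_an.Gen
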