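import Pool.Agent.Lib.MP_5bb885_an.T9Ball
import Pool.Agent.Lib.MP_5bb885_an.H9Meas

/-!
Deck groups and their cohomology.
-/

namespace Pool.Agent.Lib.MP_5bb885_an.Gen

open UpperHalfPlane MeasureTheory Filter Topology

open scoped MatrixGroups

variable {Γ : Type} [Group Γ] [MulAction Γ ℍ] {c : Γ → ℝ}

lemma t9base_pos {g : GL (Fin 2) ℝ} (hg : 0 < g.det.val) :
    ∃ h : SL(2, ℝ), ∀ z : ℍ, g • z = h • z := by
  have h1 : 0 < √g.det.val := Real.sqrt_pos.2 hg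
  refine ⟨⟨(√g.det.val)⁻¹ • g.val, ?_⟩, fun z => UpperHalfPlane.ext ?_⟩
  · rw [Matrix.det_smul, Fintype.card_fin, inv_pow, Real.sq_sqrt hg.le]
    exact inv_mul_cancel₀ hg.ne'
  · have h2 : (((√g.det.val)⁻¹ : ℝ) : ℂ) ≠ 0 := Complex.ofReal_ne_zero.2 (inv_pos.2 h1).ne'
    rw [coe_smul_of_det_pos hg, coe_specialLinearGroup_apply, num, denom,
      ← mul_div_mul_left _ _ h2]
    simp only [Matrix.smul_apply, smul_eq_mul, Algebra.algebraMap_self, RingHom.id_apply,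
      Complex.ofReal_mul, mul_add, mul_assoc]

lemma t9base_neg {g : GL (Fin 2) ℝ} (hg : ¬0 < g.det.val) :
    ∃ h : SL(2, ℝ), ∀ z : ℍ, g • z = h • J • z := by
  obtain ⟨h, hh⟩ := t9base_pos (g := g * J) (by
    have := g.det.ne_zero
    rw [map_mul, det_J, Units.val_mul, Units.val_neg, Units.val_one, mul_neg_one, neg_pos]
    exact lt_of_le_of_ne (not_lt.1 hg) this)
  refine ⟨h, fun z => ?_⟩
  rw [← hh, ← mul_smul, mul_assoc, ← sq, J_sq, mul_one]

lemma t9base_J (z w : ℍ) : dist (J • z) (J • w) = dist z w := by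
  have h : ∀ z : ℍ, (J • z).im = z.im := fun z => by
    rw [← coe_im, coe_J_smul]
    simp
  rw [dist_eq, dist_eq, h, h, coe_J_smul, coe_J_smul, dist_neg_neg, Complex.dist_conj_conj]

lemma t9base_iso (g : GL (Fin 2) ℝ) (z w : ℍ) : dist (g • z) (g • w) = dist z w := by
  by_cases hg : 0 < g.det.val
  · obtain ⟨h, hh⟩ := t9base_pos hg
    rw [hh, hh, dist_smul]
  · obtain ⟨h, hh⟩ := t9base_neg hg
    rw [hh, hh, dist_smul, t9base_J]

lemma t9base_not (k : SL(2, ℝ)) : ¬∀ z : ℍ, J • z = k • z := by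
  intro h
  have key : ∀ x y : ℝ, 0 < y → -(x * (k 1 0 * x + k 1 1) + k 1 0 * y ^ 2) = k 0 0 * x + k 0 1 ∧
      k 1 1 * y = k 0 0 * y := by
    intro x y hy
    have e := congrArg (fun z : ℍ => (z : ℂ)) (h ⟨⟨x, y⟩, hy⟩)
    have e0 : (k 1 0 : ℂ) * ⟨x, y⟩ + k 1 1 ≠ 0 :=
      denom_ne_zero (Matrix.SpecialLinearGroup.mapGL ℝ k) ⟨⟨x, y⟩, hy⟩
    simp only [coe_J_smul, coe_specialLinearGroup_apply, Algebra.algebraMap_self,
      RingHom.id_apply] at e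
    replace e := (eq_div_iff e0).1 e
    have e1 := congrArg Complex.re e
    have e2 := congrArg Complex.im e
    simp at e1 e2
    constructor <;> linarith
  have h1 := key 0 1 one_pos
  have h2 := key 0 2 two_pos
  have h3 := key 1 1 one_pos
  have h4 := det_eq k
  have a1 : k 1 0 = 0 := by linarith [h1.1, h2.1]
  have a2 : k 0 0 = 0 := by linarith [h1.1, h1.2, h3.1]
  rw [a1, a2] at h4
  simp at h4

lemma t9base_ori {γ : Γ} {g : GL (Fin 2) ℝ} (h : ∀ z : ℍ, γ • z = g • z) :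
    Ori γ ↔ 0 < g.det.val := by
  constructor
  · rintro ⟨k, hk⟩
    by_contra hg
    obtain ⟨k', hk'⟩ := t9base_neg hg
    exact t9base_not (k'⁻¹ * k) fun z => by rw [mul_smul, ← hk, h, hk', inv_smul_smul]
  · intro hg
    obtain ⟨k, hk⟩ := t9base_pos hg
    exact ⟨k, fun z => (h z).trans (hk z)⟩

theorem deck_of [ProperlyDiscontinuousSMul Γ ℍ] [CompactSpace (MulAction.orbitRel.Quotient Γ ℍ)]
    (hfree : ∀ (γ : Γ) (z : ℍ), γ • z = z → γ = 1)
    (hmob : ∀ γ : Γ, ∃ g : GL (Fin 2) ℝ, ∀ z : ℍ, γ • z = g • z) : Deck Γ := by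
  have : IsIsometricSMul Γ ℍ := ⟨fun γ => Isometry.of_dist_eq fun z w => by
    obtain ⟨g, hg⟩ := hmob γ
    rw [hg, hg, t9base_iso]⟩
  refine ⟨hmob, hfree, fun R => ?_, ?_⟩
  · refine (ProperlyDiscontinuousSMul.finite_disjoint_inter_image (Γ := Γ)
      (isCompact_singleton (x := I)) (isCompact_closedBall I R)).subset fun γ hγ => ?_
    exact ⟨_, ⟨I, rfl, rfl⟩, hγ⟩
  · obtain ⟨t, ht⟩ := (isCompact_univ (X := MulAction.orbitRel.Quotient Γ ℍ)).elim_finite_subcover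
      (fun n : ℕ => Quotient.mk _ '' Metric.ball I n)
      (fun n => isOpenMap_quotient_mk'_mul _ Metric.isOpen_ball) (by
        rintro ⟨z⟩ -
        obtain ⟨n, hn⟩ := exists_nat_gt (dist z I)
        exact Set.mem_iUnion.2 ⟨n, z, hn, rfl⟩)
    refine ⟨(t.sup id : ℕ), fun z => ?_⟩
    obtain ⟨n, hn, w, h1, h2⟩ := Set.mem_iUnion₂.1 (ht (Set.mem_univ (Quotient.mk _ z)))
    obtain ⟨γ, rfl⟩ := Quotient.exact h2
    exact ⟨γ, (Metric.mem_ball.1 h1).le.trans (by exact_mod_cast Finset.le_sup (f := id) hn)⟩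

lemma Deck.iso (F : Deck Γ) (γ : Γ) (z w : ℍ) : dist (γ • z) (γ • w) = dist z w := by
  obtain ⟨g, hg⟩ := F.mob γ
  rw [hg, hg, t9base_iso]

lemma Deck.cont (F : Deck Γ) (γ : Γ) : Continuous fun z : ℍ => γ • z :=
  (Isometry.of_dist_eq (F.iso γ)).continuous

lemma Deck.fin' (F : Deck Γ) (R : ℝ) :
    {γ : Γ | ∃ z : ℍ, dist z I ≤ R ∧ dist (γ • z) I ≤ R}.Finite := by
  refine (F.fin (2 * R)).subset ?_
  rintro γ ⟨z, h1, h2⟩
  have h3 := dist_triangle (γ • I) (γ • z) I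
  rw [F.iso, dist_comm I z] at h3
  exact h3.trans (by linarith)

lemma Deck.countable (F : Deck Γ) : Countable Γ := by
  rw [← Set.countable_univ_iff]
  refine (Set.countable_iUnion fun n : ℕ => (F.fin n).countable).mono fun γ _ => ?_
  obtain ⟨n, hn⟩ := exists_nat_ge (dist (γ • I) I)
  exact Set.mem_iUnion.2 ⟨n, hn⟩

lemma Deck.inj (F : Deck Γ) : ∃ r : ℝ, 0 < r ∧ ∀ (γ : Γ) (z : ℍ), dist (γ • z) z ≤ r → γ = 1 := by
  obtain ⟨R, hR⟩ := F.cpt
  have h1 : ∀ᶠ r in 𝓝 (0 : ℝ), ∀ γ ∈ {γ : Γ | ∃ z : ℍ, dist z I ≤ R + 1 ∧ dist (γ • z) I ≤ R + 1},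
      γ ≠ 1 → ∀ z ∈ Metric.closedBall I R, r < dist (γ • z) z := by
    refine (eventually_all_finite (F.fin' (R + 1))).2 fun γ _ => ?_
    by_cases hγ : γ = 1
    · exact Eventually.of_forall fun _ h => absurd hγ h
    obtain ⟨a, ha, hb⟩ := (isCompact_closedBall I R).exists_forall_le'
      ((F.cont γ).dist continuous_id).continuousOn (a := 0)
      fun z _ => dist_pos.2 fun e => hγ (F.free γ z e)
    filter_upwards [gt_mem_nhds ha] with r hr _ z hz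
    exact hr.trans_le (hb z hz)
  obtain ⟨r, ⟨h2, h3⟩, h4⟩ := (((h1.and (gt_mem_nhds one_pos)).filter_mono
    (nhdsWithin_le_nhds (s := Set.Ioi 0))).and self_mem_nhdsWithin).exists
  refine ⟨r, h4, fun γ z hz => ?_⟩
  obtain ⟨δ, hδ⟩ := hR z
  have h5 : dist ((δ * γ * δ⁻¹) • δ • z) (δ • z) ≤ r := by
    rwa [mul_smul, inv_smul_smul, mul_smul, F.iso]
  by_contra h6
  refine (h2 (δ * γ * δ⁻¹) ⟨δ • z, by linarith, ?_⟩ (fun e => h6 ?_) _ hδ).not_ge h5
  · linarith [dist_triangle ((δ * γ * δ⁻¹) • δ • z) (δ • z) I]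
  · simpa using e

lemma Deck.isClosed_sat (F : Deck Γ) {K : Set ℍ} (hK : IsCompact K) :
    IsClosed {z : ℍ | ∃ γ : Γ, γ • z ∈ K} := by
  obtain ⟨R, hR⟩ := hK.isBounded.subset_closedBall I
  have h : LocallyFinite fun γ : Γ => (fun z : ℍ => γ • z) ⁻¹' K := fun z => by
    refine ⟨Metric.ball z 1, Metric.ball_mem_nhds z one_pos,
      (F.fin' (max R (1 + dist z I))).subset ?_⟩
    rintro γ ⟨w, h1, h2⟩
    exact ⟨w, le_max_of_le_right ((dist_triangle w z I).trans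
      (add_le_add_left (Metric.mem_ball.1 h2).le _)), le_max_of_le_left (hR h1)⟩
  convert h.isClosed_iUnion fun γ => hK.isClosed.preimage (F.cont γ)
  ext z
  simp

lemma t9base_gen (F : Deck Γ) : ∃ S : Finset Γ, ∀ γ : Γ, ∃ l : List Γ, (∀ x ∈ l, x ∈ S) ∧
    l.prod = γ ∧ l.length ≤ dist I (γ • I) + 2 := by
  obtain ⟨R, hR⟩ := F.cpt
  have h0 : 0 ≤ R := dist_nonneg.trans (hR I).choose_spec
  refine ⟨(F.fin (2 * R + 1)).toFinset, fun γ => ?_⟩
  have key : ∀ (n : ℕ) (z : ℍ) (γ : Γ), dist I z ≤ n → dist (γ • I) z ≤ R →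
      ∃ l : List Γ, (∀ x ∈ l, x ∈ (F.fin (2 * R + 1)).toFinset) ∧ l.prod = γ ∧ l.length = n + 1 := by
    intro n
    induction n with
    | zero =>
      intro z γ h1 h2
      refine ⟨[γ], fun x hx => ?_, by simp, rfl⟩
      rw [List.mem_singleton.1 hx, Set.Finite.mem_toFinset, Set.mem_ofPred_eq]
      rw [← dist_le_zero.1 (h1.trans_eq Nat.cast_zero)] at h2
      linarith
    | succ n ih =>
      intro z γ h1 h2
      obtain ⟨k, h3, h4⟩ := exists_frame I z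
      obtain ⟨γ', h5⟩ := hR (geo k (min n (dist I z)))
      rw [← F.iso γ'⁻¹, inv_smul_smul, dist_comm] at h5
      obtain ⟨l, h6, h7, h8⟩ := ih (geo k (min n (dist I z))) γ'⁻¹ (by
        nth_rewrite 1 [← h3]
        rw [dist_geo, zero_sub, abs_neg, abs_of_nonneg (by positivity)]
        exact min_le_left _ _) h5
      refine ⟨l ++ [γ' * γ], fun x hx => ?_, by simp [h7], by simp [h8]⟩
      rcases List.mem_append.1 hx with hx | hx
      · exact h6 x hx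
      have h9 : dist z (geo k (min n (dist I z))) ≤ 1 := by
        nth_rewrite 1 [← h4]
        rw [dist_geo, abs_of_nonneg (sub_nonneg.2 (min_le_right _ _)), sub_le_comm, le_min_iff]
        push_cast at h1
        constructor <;> linarith
      rw [List.mem_singleton.1 hx, Set.Finite.mem_toFinset, Set.mem_ofPred_eq,
        ← F.iso γ'⁻¹, mul_smul, inv_smul_smul]
      have := dist_triangle4 (γ • I) z (geo k (min n (dist I z))) (γ'⁻¹ • I)
      rw [dist_comm (geo _ _)] at this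
      linarith
  obtain ⟨l, h1, h2, h3⟩ := key _ _ γ (Nat.le_ceil _) (by rwa [dist_self])
  refine ⟨l, h1, h2, ?_⟩
  rw [h3]
  push_cast
  linarith [Nat.ceil_lt_add_one (dist_nonneg : 0 ≤ dist I (γ • I))]

lemma Deck.gen (F : Deck Γ) : ∃ (S : Finset Γ) (C : ℝ), ∀ γ : Γ, ∃ l : List Γ,
    (∀ x ∈ l, x ∈ S) ∧ l.prod = γ ∧ (l.length : ℝ) ≤ C * (1 + dist (γ • I) I) := by
  obtain ⟨S, hS⟩ := t9base_gen F
  refine ⟨S, 2, fun γ => ?_⟩
  obtain ⟨l, h1, h2, h3⟩ := hS γ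
  refine ⟨l, h1, h2, ?_⟩
  rw [dist_comm] at h3
  linarith [dist_nonneg (x := γ • I) (y := I)]

lemma coh_one' (hc : c ∈ Coh Γ) : c 1 = 0 := by
  simpa using hc 1 1

lemma coh_inv' (hc : c ∈ Coh Γ) (x : Γ) : c x⁻¹ = -c x := by
  have := hc x x⁻¹
  rw [mul_inv_cancel, coh_one' hc] at this
  linarith

lemma t9base_pow (hc : c ∈ Coh Γ) (x : Γ) (n : ℕ) : c (x ^ n) = n * c x := by
  induction n with
  | zero => simp [coh_one' hc]
  | succ n ih => rw [pow_succ, hc, ih]; push_cast; ring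

lemma coh_zpow' (hc : c ∈ Coh Γ) (x : Γ) (n : ℤ) : c (x ^ n) = n * c x := by
  obtain ⟨m, rfl | rfl⟩ := n.eq_nat_or_neg
  · rw [zpow_natCast, t9base_pow hc, Int.cast_natCast]
  · rw [zpow_neg, zpow_natCast, coh_inv' hc, t9base_pow hc, Int.cast_neg, Int.cast_natCast, neg_mul]

lemma t9base_dist_pow (F : Deck Γ) (γ : Γ) (z : ℍ) (m : ℕ) :
    dist z (γ ^ m • z) ≤ m * dist z (γ • z) := by
  induction m with
  | zero => simp
  | succ m ih =>
    have := dist_triangle z (γ ^ m • z) (γ ^ (m + 1) • z)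
    rw [pow_succ γ, mul_smul, F.iso] at this
    rw [pow_succ γ, mul_smul]
    push_cast
    linarith

lemma Deck.lip (F : Deck Γ) (hc : c ∈ Coh Γ) :
    ∃ M : ℝ, 0 ≤ M ∧ ∀ (γ : Γ) (z : ℍ), |c γ| ≤ M * dist z (γ • z) := by
  obtain ⟨S, hS⟩ := t9base_gen F
  have h0 : 0 ≤ ∑ x ∈ S, |c x| := by positivity
  refine ⟨_, h0, fun γ z => ?_⟩
  have h1 : ∀ l : List Γ, (∀ x ∈ l, x ∈ S) → |c l.prod| ≤ (∑ x ∈ S, |c x|) * l.length := by
    intro l hl
    induction l with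
    | nil => simp [coh_one' hc]
    | cons x l ih =>
      have h1 := ih fun y hy => hl y (List.mem_cons_of_mem _ hy)
      have h2 := Finset.single_le_sum (f := fun x => |c x|) (fun _ _ => abs_nonneg _)
        (hl x List.mem_cons_self)
      rw [List.prod_cons, hc, List.length_cons]
      push_cast
      linarith [abs_add_le (c x) (c l.prod)]
  generalize ∑ x ∈ S, |c x| = M at *
  by_contra h2
  obtain ⟨m, hm⟩ := exists_nat_gt (M * (2 * dist I z + 2) / (|c γ| - M * dist z (γ • z)))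
  rw [div_lt_iff₀ (by linarith)] at hm
  obtain ⟨l, h3, h4, h5⟩ := hS (γ ^ m)
  have h6 := (h1 l h3).trans (mul_le_mul_of_nonneg_left h5 h0)
  have h7 := dist_triangle4 I z (γ ^ m • z) (γ ^ m • I)
  rw [h4, t9base_pow hc, abs_mul, Nat.abs_cast] at h6
  rw [F.iso, dist_comm z I] at h7
  nlinarith [mul_le_mul_of_nonneg_left (h7.trans (add_le_add_left
    (add_le_add_right (t9base_dist_pow F γ z m) _) _)) h0]

lemma Deck.ints (F : Deck Γ) : ∃ (r : ℕ) (ψ : Γ → Fin r → ℤ),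
    (∀ i, (fun γ => (ψ γ i : ℝ)) ∈ Coh Γ) ∧
      ∀ φ ∈ Coh Γ, ∃ a : Fin r → ℝ, ∀ γ, φ γ = ∑ i, a i * ψ γ i := by
  obtain ⟨S, hS⟩ := t9base_gen F
  set ev : Γ → Coh Γ → ℝ := fun γ φ => φ.1 γ with hev
  set N := Submodule.span ℤ (ev '' S) with hN
  have h1 : ∀ x y, ev (x * y) = ev x + ev y := fun x y => funext fun φ => φ.2 x y
  have h2 : ∀ γ, ev γ ∈ N := fun γ => by
    obtain ⟨l, h2, rfl, -⟩ := hS γ
    induction l with
    | nil =>
      rw [show ev [].prod = 0 from funext fun φ => coh_one' φ.2]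
      exact zero_mem _
    | cons x l ih =>
      rw [List.prod_cons, h1]
      exact add_mem (Submodule.subset_span ⟨x, h2 x List.mem_cons_self, rfl⟩)
        (ih fun y hy => h2 y (List.mem_cons_of_mem _ hy))
  have : Module.Finite ℤ N := Module.Finite.span_of_finite ℤ (S.finite_toSet.image _)
  set b := Module.finBasis ℤ N
  refine ⟨_, fun γ => b.repr ⟨ev γ, h2 γ⟩, fun i x y => ?_, fun φ hφ => ⟨fun i => (b i).1 ⟨φ, hφ⟩,
    fun γ => ?_⟩⟩
  · simp only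
    rw [show (⟨ev (x * y), h2 _⟩ : N) = ⟨ev x, h2 x⟩ + ⟨ev y, h2 y⟩ from Subtype.ext (h1 x y),
      map_add, Finsupp.add_apply, Int.cast_add]
  · have := congrArg (fun x : N => x.1 ⟨φ, hφ⟩) (b.sum_repr ⟨ev γ, h2 γ⟩)
    simp only [Submodule.coe_sum, Finset.sum_apply, Submodule.coe_smul_of_tower, zsmul_eq_mul,
      Pi.mul_apply, Pi.intCast_apply] at this
    simpa only [mul_comm] using this.symm

lemma Deck.dim (F : Deck Γ) : ∃ b : ℕ, Nonempty ((Fin b → ℝ) ≃ₗ[ℝ] Coh Γ) := by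
  obtain ⟨r, ψ, -, h⟩ := F.ints
  have : FiniteDimensional ℝ (Coh Γ) := by
    have := FiniteDimensional.span_of_finite ℝ (Set.finite_range fun i γ => (ψ γ i : ℝ))
    refine Submodule.finiteDimensional_of_le (S₂ := Submodule.span ℝ
      (Set.range fun i γ => (ψ γ i : ℝ))) fun φ hφ => ?_
    obtain ⟨a, ha⟩ := h φ hφ
    exact (Submodule.mem_span_range_iff_exists_fun ℝ).2 ⟨a, funext fun γ => by simp [ha]⟩
  exact ⟨_, ⟨(Module.finBasis ℝ (Coh Γ)).equivFun.symm⟩⟩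

lemma Deck.lipE (F : Deck Γ) {b : ℕ} (e : (Fin b → ℝ) ≃ₗ[ℝ] Coh Γ) : ∃ M : ℝ, 0 ≤ M ∧
    ∀ (t : Fin b → ℝ) (γ : Γ) (z : ℍ), |(e t : Γ → ℝ) γ| ≤ M * ‖t‖ * dist z (γ • z) := by
  choose M hM hM' using fun φ : Coh Γ => F.lip φ.2
  refine ⟨∑ j, M (e fun j' => if j = j' then 1 else 0), Finset.sum_nonneg fun _ _ => hM _,
    fun t γ z => ?_⟩
  have e1 := LinearMap.pi_apply_eq_sum_univ
    ((LinearMap.proj γ : (Γ → ℝ) →ₗ[ℝ] ℝ).comp ((Coh Γ).subtype.comp e.toLinearMap)) t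
  change (e t : Γ → ℝ) γ = _ at e1
  rw [e1, Finset.sum_mul, Finset.sum_mul]
  refine (Finset.abs_sum_le_sum_abs _ _).trans (Finset.sum_le_sum fun j _ => ?_)
  rw [smul_eq_mul, abs_mul, mul_comm (M _), mul_assoc]
  exact mul_le_mul (norm_le_pi_norm t j) (hM' _ γ z) (abs_nonneg _) (norm_nonneg _)

lemma ori_one : Ori (1 : Γ) := ⟨1, fun z => by rw [one_smul, one_smul]⟩

lemma Deck.sg_mul (F : Deck Γ) (γ δ : Γ) : sg (γ * δ) = sg γ * sg δ := by
  obtain ⟨g, hg⟩ := F.mob γ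
  obtain ⟨k, hk⟩ := F.mob δ
  have h : ∀ z : ℍ, (γ * δ) • z = (g * k) • z := fun z => by rw [mul_smul, mul_smul, hk, hg]
  have h1 := g.det.ne_zero
  have h2 := k.det.ne_zero
  simp only [sg, t9base_ori h, t9base_ori hg, t9base_ori hk, map_mul, Units.val_mul]
  rcases lt_or_gt_of_ne h1 with a | a <;> rcases lt_or_gt_of_ne h2 with b | b
  · rw [if_pos (mul_pos_of_neg_of_neg a b), if_neg a.not_gt, if_neg b.not_gt]
    norm_num
  · rw [if_neg (mul_neg_of_neg_of_pos a b).not_gt, if_neg a.not_gt, if_pos b, mul_one]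
  · rw [if_neg (mul_neg_of_pos_of_neg a b).not_gt, if_pos a, if_neg b.not_gt, one_mul]
  · rw [if_pos (mul_pos a b), if_pos a, if_pos b, mul_one]

lemma sg_one : sg (1 : Γ) = 1 := if_pos ori_one

lemma sg_cases (γ : Γ) : (Ori γ ∧ sg γ = 1) ∨ (¬Ori γ ∧ sg γ = -1) := by
  by_cases h : Ori γ
  · exact Or.inl ⟨h, if_pos h⟩
  · exact Or.inr ⟨h, if_neg h⟩

lemma Deck.sg_inv (F : Deck Γ) (γ : Γ) : sg γ⁻¹ = sg γ := by
  have h := F.sg_mul γ γ⁻¹
  rw [mul_inv_cancel, sg_one] at h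
  rcases sg_cases γ with ⟨-, a⟩ | ⟨-, a⟩ <;> rw [a] at h ⊢ <;> linarith

lemma Ori.zpow {γ : Γ} (h : Ori γ) (j : ℤ) : Ori (γ ^ j) := by
  obtain ⟨g, hg⟩ := h
  have hp : ∀ (n : ℕ) (z : ℍ), γ ^ n • z = g ^ n • z := fun n => by
    induction n with
    | zero => intro z; rw [pow_zero, pow_zero, one_smul, one_smul]
    | succ n ih => intro z; rw [pow_succ, pow_succ, mul_smul, mul_smul, ih, hg]
  obtain ⟨m, rfl | rfl⟩ := j.eq_nat_or_neg
  · exact ⟨g ^ m, fun z => by rw [zpow_natCast, hp]⟩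
  · refine ⟨(g ^ m)⁻¹, fun z => ?_⟩
    rw [zpow_neg, zpow_natCast, inv_smul_eq_iff, hp, smul_inv_smul]

end Pool.Agent.Lib.MP_5bb885_an.Gen
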