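import Pool.Agent.Lib.MP_5bb885_an.T9JI

/-!
Bounds for bounded Jacobi fields along a closed curve.
-/

namespace Pool.Agent.Lib.MP_5bb885_an.Gen

open UpperHalfPlane MeasureTheory Filter Topology

variable {Γ : Type} [Group Γ] [MulAction Γ ℍ] {L : ℂ × ℂ → ℝ} {x : ℝ → ℍ} {η : ℝ → ℂ} {γ : Γ}
  {T : ℝ}

lemma Per.inv_smul (hp : Per x γ T) (j : ℤ) : (fun t => γ ^ (-j) • x (t + j * T)) = x := by
  funext t
  rw [hp.zpow, zpow_neg, inv_smul_smul]

lemma t9bnd_vel (F : Deck Γ) (hp : Per x γ T) (j : ℤ) (t : ℝ) :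
    vel x t = dk (γ ^ (-j)) (x (t + j * T)) (vel x (t + j * T)) := by
  have h := F.vel_smul (γ ^ (-j)) (fun s => x (s + j * T)) t
  rwa [vel_shift, hp.inv_smul j] at h

lemma t9bnd_tng (F : Deck Γ) (hp : Per x γ T) (η : ℝ → ℂ) (j : ℤ) (t : ℝ) :
    tng x (mono x γ T j η) t = tng x η (t + j * T) := by
  rw [tng, t9bnd_vel F hp j t]
  exact (F.dk_div _ _ _ _).2

lemma t9bnd_nu (F : Deck Γ) (hp : Per x γ T) (η : ℝ → ℂ) (j : ℤ) (t : ℝ) :
    nu x (mono x γ T j η) t = dk (γ ^ (-j)) (x (t + j * T)) (nu x η (t + j * T)) := by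
  rw [nu, t9bnd_tng F hp, t9bnd_vel F hp j t, nu, map_sub, map_smul, mono]

lemma Per.mono (F : Deck Γ) (hL : Tonelli Γ L) (hx : Reg L x) (hp : Per x γ T) (h : Jac L x η)
    (he : En L x η) (j : ℤ) : Jac L x (mono x γ T j η) ∧ En L x (mono x γ T j η) ∧
      (∀ t, tng x (mono x γ T j η) t = tng x η (t + j * T)) ∧
      (∀ t, nrm x (mono x γ T j η) t = sg (γ ^ j) * nrm x η (t + j * T)) ∧
      ∀ t, ‖nu x (mono x γ T j η) t‖ / (x t).im =
        ‖nu x η (t + j * T)‖ / (x (t + j * T)).im := by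
  have h1 : Jac L (fun t => γ ^ (-j) • x (t + j * T)) (Gen.mono x γ T j η) :=
    (h.shift (j * T)).smul F hL (hx.shift (j * T)) (γ ^ (-j))
  have h2 : En L (fun t => γ ^ (-j) • x (t + j * T)) (Gen.mono x γ T j η) :=
    (he.shift (j * T)).smul F hL (hx.shift (j * T)) (fun t => (h.shift (j * T) t).1) (γ ^ (-j))
  rw [hp.inv_smul j] at h1 h2
  refine ⟨h1, h2, t9bnd_tng F hp η j, fun t => ?_, fun t => ?_⟩
  · rw [nrm, t9bnd_vel F hp j t, ← F.sg_inv, ← zpow_neg]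
    exact (F.dk_div _ _ _ _).1
  · rw [t9bnd_nu F hp, ← F.norm_dk (γ ^ (-j)) (x (t + j * T)), congrFun (hp.inv_smul j) t]

lemma t9bnd_low {V E G : Type} [AddCommGroup V] [Module ℝ V] [FiniteDimensional ℝ V]
    [NormedAddCommGroup E] [NormedSpace ℝ E] [NormedAddCommGroup G] [NormedSpace ℝ G]
    (ι : V →ₗ[ℝ] E) (Φ : V →ₗ[ℝ] G) (hΦ : Function.Injective Φ) :
    ∃ C : ℝ, 0 ≤ C ∧ ∀ v, ‖ι v‖ ≤ C * ‖Φ v‖ := by
  let g := LinearMap.toContinuousLinearMap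
    (ι ∘ₗ (LinearEquiv.ofInjective Φ hΦ).symm.toLinearMap)
  refine ⟨‖g‖, g.opNorm_nonneg, fun v => ?_⟩
  have h := g.le_opNorm (LinearEquiv.ofInjective Φ hΦ v)
  simpa [g] using h

lemma t9bnd_cb {f : ℝ → ℝ} (hf : Continuous f) (W : ℝ) :
    ∃ C : ℝ, 0 ≤ C ∧ ∀ t ∈ Set.Icc 0 W, f t ≤ C := by
  obtain ⟨C, hC⟩ := (isCompact_Icc (a := (0 : ℝ)) (b := W)).bddAbove_image hf.continuousOn
  exact ⟨max C 0, le_max_right _ _, fun t ht => le_max_of_le_left (hC ⟨t, ht, rfl⟩)⟩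

lemma t9bnd_nu_add (x : ℝ → ℍ) (η ζ : ℝ → ℂ) (t : ℝ) : nu x (η + ζ) t = nu x η t + nu x ζ t := by
  simp only [nu, tng, Pi.add_apply, add_div, Complex.add_re, add_smul]
  abel

lemma t9bnd_nu_smul (x : ℝ → ℍ) (a : ℝ) (η : ℝ → ℂ) (t : ℝ) : nu x (a • η) t = a • nu x η t := by
  simp only [nu, tng, Pi.smul_apply, smul_div_assoc, Complex.smul_re, smul_sub, smul_smul,
    smul_eq_mul]

lemma t9bnd_div {t : ℝ} (hv : vel x t ≠ 0) (η : ℝ → ℂ) (a : ℝ) :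
    (η + a • vel x) t / vel x t = η t / vel x t + a := by
  rw [Pi.add_apply, Pi.smul_apply, add_div, smul_div_assoc, div_self hv, Complex.real_smul, mul_one]

lemma t9bnd_sh {t : ℝ} (hv : vel x t ≠ 0) (η : ℝ → ℂ) (a : ℝ) :
    tng x (η + a • vel x) t = tng x η t + a ∧ nrm x (η + a • vel x) t = nrm x η t ∧
      nu x (η + a • vel x) t = nu x η t := by
  have h : tng x (η + a • vel x) t = tng x η t + a := by
    rw [tng, t9bnd_div hv, Complex.add_re, Complex.ofReal_re, tng]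
  refine ⟨h, ?_, ?_⟩
  · rw [nrm, t9bnd_div hv, Complex.add_im, Complex.ofReal_im, add_zero, nrm]
  · rw [nu, h, nu, Pi.add_apply, Pi.smul_apply, add_smul]
    abel

lemma t9bnd_der (hx : Reg L x) (h : Jac L x η) (a t : ℝ) :
    deriv (η + a • vel x) t = deriv η t + a • deriv (vel x) t :=
  ((h t).1.hasDerivAt.add ((hx.acc t).hasDerivAt.const_smul a)).deriv

lemma t9bnd_je (hL : Tonelli Γ L) (hx : Reg L x) (h : Jac L x η) (he : En L x η) (a : ℝ) :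
    Jac L x (η + a • vel x) ∧ En L x (η + a • vel x) :=
  ⟨JacA.add (A := fun t => D2 L (jet x t)) h
    (JacA.smul (A := fun t => D2 L (jet x t)) (hx.jac_vel hL.smooth) a),
    En.add (fun t => (h t).1) (fun t => (hx.acc t).const_smul a) he
      ((hx.en_vel hL.smooth).smul' hx.acc a)⟩

lemma t9bnd_hat (hx : Reg L x) (h : Jac L x η) (t : ℝ) :
    (η + (-tng x η t) • vel x) t = nu x η t ∧
      deriv (η + (-tng x η t) • vel x) t = deriv η t - tng x η t • deriv (vel x) t := by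
  rw [t9bnd_der hx h, Pi.add_apply, Pi.smul_apply, _root_.neg_smul, _root_.neg_smul,
    ← sub_eq_add_neg,
    ← sub_eq_add_neg]
  exact ⟨rfl, rfl⟩

lemma t9bnd_sup (hb : Bdd x η) : ∃ M : ℝ, ∀ s, ‖nu x η s‖ / (x s).im ≤ M := by
  obtain ⟨C, hC⟩ := hb
  refine ⟨C, fun s => ?_⟩
  obtain ⟨a, ha⟩ := hC s
  exact (div_le_iff₀ (x s).im_pos).2 ((norm_nu_le s a).trans ha)

lemma t9bnd_bdd {M : ℝ} (h : ∀ s, ‖nu x η s‖ / (x s).im ≤ M) : Bdd x η :=
  ⟨M, fun s => ⟨tng x η s, (div_le_iff₀ (x s).im_pos).1 (h s)⟩⟩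

lemma t9bnd_lin (hL : Tonelli Γ L) (hx : Reg L x) (hv : ∀ t, vel x t ≠ 0) : ∃ C : ℝ, 0 ≤ C ∧
    ∀ ξ, Jac L x ξ → En L x ξ → Bdd x ξ →
      (∀ M, tng x ξ 0 = 0 → (∀ s, ‖nu x ξ s‖ / (x s).im ≤ M) → ‖ξ 0‖ + ‖deriv ξ 0‖ ≤ C * M) ∧
        ∀ s, ‖nu x ξ s‖ / (x s).im ≤ C * (‖ξ 0‖ + ‖deriv ξ 0‖) := by
  have hA := hx.coef hL
  have hsm : ∀ (a : ℝ) {ξ : ℝ → ℂ}, Jac L x ξ ∧ En L x ξ ∧ Bdd x ξ →
      Jac L x (a • ξ) ∧ En L x (a • ξ) ∧ Bdd x (a • ξ) := fun a ξ h =>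
    ⟨JacA.smul (A := fun t => D2 L (jet x t)) h.1 a, h.2.1.smul' (fun t => (h.1 t).1) a,
      h.2.2.smul' a⟩
  let V : Submodule ℝ (ℝ → ℂ) :=
    { carrier := {ξ | Jac L x ξ ∧ En L x ξ ∧ Bdd x ξ}
      add_mem' := fun {ξ ζ} h h' => ⟨JacA.add (A := fun t => D2 L (jet x t)) h.1 h'.1,
        En.add (fun t => (h.1 t).1) (fun t => (h'.1 t).1) h.2.1 h'.2.1, h.2.2.add h'.2.2⟩
      zero_mem' := by
        have h0 := hsm 0 ⟨hx.jac_vel hL.smooth, hx.en_vel hL.smooth, bdd_vel x⟩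
        rwa [zero_smul] at h0
      smul_mem' := fun a ξ h => hsm a h }
  let ι : V →ₗ[ℝ] ℂ × ℂ :=
    { toFun := fun ξ => (ξ.1 0, deriv ξ.1 0)
      map_add' := fun ξ ζ => Prod.ext rfl (deriv_add (ξ.2.1 0).1 (ζ.2.1 0).1)
      map_smul' := fun a ξ => Prod.ext rfl (deriv_const_smul a (ξ.2.1 0).1) }
  have hn : ∀ (ξ : ℝ → ℂ) (s : ℝ), ‖(x s).im⁻¹ • nu x ξ s‖ = ‖nu x ξ s‖ / (x s).im := fun ξ s => by
    rw [norm_smul, norm_inv, Real.norm_of_nonneg (x s).im_pos.le, div_eq_inv_mul]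
  let Φ : V →ₗ[ℝ] lp (fun _ : ℝ => ℂ) ⊤ :=
    { toFun := fun ξ => ⟨fun s => (x s).im⁻¹ • nu x ξ.1 s, memℓp_infty (by
        obtain ⟨M, hM⟩ := t9bnd_sup ξ.2.2.2
        refine ⟨M, ?_⟩
        rintro - ⟨s, rfl⟩
        exact (hn _ s).trans_le (hM s))⟩
      map_add' := fun ξ ζ => lp.ext (funext fun s => by
        change (x s).im⁻¹ • nu x (ξ.1 + ζ.1) s = (x s).im⁻¹ • nu x ξ.1 s + (x s).im⁻¹ • nu x ζ.1 s
        rw [t9bnd_nu_add, smul_add])
      map_smul' := fun a ξ => lp.ext (funext fun s => by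
        change (x s).im⁻¹ • nu x (a • ξ.1) s = a • (x s).im⁻¹ • nu x ξ.1 s
        rw [t9bnd_nu_smul, smul_comm]) }
  let τ : V →ₗ[ℝ] ℝ :=
    { toFun := fun ξ => tng x ξ.1 0
      map_add' := fun ξ ζ => by
        change ((ξ.1 0 + ζ.1 0) / _).re = _
        rw [add_div, Complex.add_re]
        rfl
      map_smul' := fun a ξ => by
        change ((a • ξ.1 0) / _).re = _
        rw [smul_div_assoc, Complex.smul_re]
        rfl }
  have hι : Function.Injective ι := (injective_iff_map_eq_zero ι).2 fun ξ h =>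
    Subtype.ext (funext (JacA.eq_zero hA ξ.2.1 (congrArg Prod.fst h) (congrArg Prod.snd h)))
  have : FiniteDimensional ℝ V := FiniteDimensional.of_injective ι hι
  have hΦ : Function.Injective (Φ.prod τ) := (injective_iff_map_eq_zero _).2 fun ξ h => by
    have h1 : nrm x ξ.1 = fun _ => 0 := funext fun s => (nrm_eq_zero (hv s)).2
      ((smul_eq_zero.1 (congrFun (congrArg (fun f => f.1.1) h) s)).resolve_left
        (inv_ne_zero (x s).im_ne_zero))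
    obtain ⟨a, ha⟩ := ξ.2.1.tangent hL hx hv ξ.2.2.1 (s := 0) (congrFun h1 0)
      (by rw [h1, deriv_const])
    have h2 : tng x ξ.1 0 = 0 := congrArg Prod.snd h
    rw [tng, ha, smul_div_assoc, div_self (hv 0), Complex.smul_re, Complex.one_re, smul_eq_mul,
      mul_one] at h2
    exact Subtype.ext (funext fun s => by rw [ha, h2, zero_smul]; rfl)
  obtain ⟨C1, c1, h1⟩ := t9bnd_low ι (Φ.prod τ) hΦ
  obtain ⟨C2, c2, h2⟩ := t9bnd_low Φ ι hι
  refine ⟨2 * C1 + C2, by positivity, fun ξ j e b => ⟨fun M h0 hM => ?_, fun s => ?_⟩⟩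
  · have m0 : 0 ≤ M := (div_nonneg (norm_nonneg _) (x 0).im_pos.le).trans (hM 0)
    have h3 : ‖(Φ.prod τ) ⟨ξ, j, e, b⟩‖ ≤ M := norm_prod_le_iff.2
      ⟨lp.norm_le_of_forall_le m0 fun s => (hn ξ s).trans_le (hM s), by
        change ‖tng x ξ 0‖ ≤ M
        rwa [h0, norm_zero]⟩
    have h4 := norm_prod_le_iff.1 ((h1 ⟨ξ, j, e, b⟩).trans (mul_le_mul_of_nonneg_left h3 c1))
    have h5 : ‖ξ 0‖ ≤ C1 * M := h4.1
    have h6 : ‖deriv ξ 0‖ ≤ C1 * M := h4.2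
    nlinarith [mul_nonneg c2 m0]
  · have h3 : ‖ι ⟨ξ, j, e, b⟩‖ ≤ ‖ξ 0‖ + ‖deriv ξ 0‖ := norm_prod_le_iff.2
      ⟨le_add_of_nonneg_right (norm_nonneg _), le_add_of_nonneg_left (norm_nonneg _)⟩
    have h4 : ‖nu x ξ s‖ / (x s).im ≤ ‖Φ ⟨ξ, j, e, b⟩‖ :=
      (hn ξ s).symm.trans_le (lp.norm_apply_le_norm ENNReal.top_ne_zero (Φ ⟨ξ, j, e, b⟩) s)
    refine (h4.trans ((h2 _).trans (mul_le_mul_of_nonneg_left h3 c2))).trans ?_
    exact mul_le_mul_of_nonneg_right (by linarith) (by positivity)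

lemma t9bnd_key (hL : Tonelli Γ L) (hx : Reg L x) (hv : ∀ t, vel x t ≠ 0) (W : ℝ) :
    ∃ C : ℝ, 0 < C ∧ ∀ ξ, Jac L x ξ → En L x ξ → Bdd x ξ → ∀ t ∈ Set.Icc 0 W,
      (∀ M, (∀ s, ‖nu x ξ s‖ / (x s).im ≤ M) →
        ‖nu x ξ t‖ + ‖deriv ξ t - tng x ξ t • deriv (vel x) t‖ ≤ C * M) ∧
      ∀ s, ‖nu x ξ s‖ / (x s).im ≤
        C * (‖nu x ξ t‖ + ‖deriv ξ t - tng x ξ t • deriv (vel x) t‖) := by
  obtain ⟨C, c0, hC⟩ := t9bnd_lin hL hx hv
  obtain ⟨G, g0, hG⟩ := JacA.gron (hx.coef hL) W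
  obtain ⟨K, k0, hK⟩ := t9bnd_cb (f := fun t => ‖deriv (vel x) t‖ / ‖vel x t‖)
    (hx.cont.norm.div hx.contVel.norm fun t => norm_ne_zero_iff.2 (hv t)) W
  refine ⟨(1 + K) * (G * C) + C * G + 1, by positivity, fun ξ j e b t ht => ?_⟩
  have t1 : |t| ≤ W := abs_le.2 ⟨by linarith [ht.1, ht.2], ht.2⟩
  have t0 : |(0 : ℝ)| ≤ W := by rw [abs_zero]; exact ht.1.trans ht.2
  have hs : ∀ a : ℝ, Bdd x (ξ + a • vel x) := fun a => b.add ((bdd_vel x).smul' a)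
  refine ⟨fun M hM => ?_, fun s => ?_⟩
  · have m0 : 0 ≤ M := (div_nonneg (norm_nonneg _) (x 0).im_pos.le).trans (hM 0)
    obtain ⟨j', e'⟩ := t9bnd_je hL hx j e (-tng x ξ 0)
    have h1 := (hC _ j' e' (hs _)).1 M (by rw [(t9bnd_sh (hv 0) ξ _).1, add_neg_cancel])
      fun s => by rw [(t9bnd_sh (hv s) ξ _).2.2]; exact hM s
    have h2 := (hG _ j' 0 t t0 t1).trans (mul_le_mul_of_nonneg_left h1 g0)
    have h3 : deriv ξ t - tng x ξ t • deriv (vel x) t = deriv (ξ + (-tng x ξ 0) • vel x) t -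
        tng x (ξ + (-tng x ξ 0) • vel x) t • deriv (vel x) t := by
      rw [t9bnd_der hx j, (t9bnd_sh (hv t) ξ _).1, add_smul]
      abel
    rw [h3, ← (t9bnd_sh (hv t) ξ (-tng x ξ 0)).2.2]
    generalize ξ + (-tng x ξ 0) • vel x = ζ at h2 ⊢
    have h4 : ‖nu x ζ t‖ ≤ ‖ζ t‖ := by simpa using norm_nu_le (x := x) (η := ζ) t 0
    have h5 : ‖tng x ζ t • deriv (vel x) t‖ ≤ ‖ζ t‖ * K := by
      rw [norm_smul]
      refine (mul_le_mul_of_nonneg_right (Complex.abs_re_le_norm _) (norm_nonneg _)).trans ?_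
      rw [norm_div, div_mul_eq_mul_div, mul_div_assoc]
      exact mul_le_mul_of_nonneg_left (hK t ht) (norm_nonneg _)
    have h6 := norm_sub_le (deriv ζ t) (tng x ζ t • deriv (vel x) t)
    have h7 := mul_le_mul_of_nonneg_left h2 (add_nonneg zero_le_one k0)
    nlinarith [mul_nonneg k0 (norm_nonneg (deriv ζ t)), mul_nonneg (mul_nonneg c0 g0) m0]
  · obtain ⟨j', e'⟩ := t9bnd_je hL hx j e (-tng x ξ t)
    have h1 := ((hC _ j' e' (hs _)).2 s).trans (mul_le_mul_of_nonneg_left (hG _ j' t 0 t1 t0) c0)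
    rw [(t9bnd_sh (hv s) ξ _).2.2, (t9bnd_hat hx j t).1, (t9bnd_hat hx j t).2, ← mul_assoc] at h1
    refine h1.trans (mul_le_mul_of_nonneg_right ?_ (by positivity))
    have : 0 ≤ (1 + K) * (G * C) := by positivity
    linarith

/-- The state modulo the tangent field is bounded above. -/
lemma state_le (F : Deck Γ) (hL : Tonelli Γ L) (hx : Reg L x) (hp : Per x γ T)
    (hv : ∀ t, vel x t ≠ 0) (h : Jac L x η) (he : En L x η) (hb : Bdd x η) : ∃ C : ℝ,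
      ∀ (j : ℤ), ∀ t ∈ Set.Icc 0 T, ‖nu x (mono x γ T j η) t‖ +
        ‖deriv (mono x γ T j η) t - tng x (mono x γ T j η) t • deriv (vel x) t‖ ≤ C := by
  obtain ⟨C, -, hC⟩ := t9bnd_key hL hx hv T
  obtain ⟨M, hM⟩ := t9bnd_sup hb
  refine ⟨C * M, fun j t ht => ?_⟩
  obtain ⟨h1, h2, -, -, h3⟩ := hp.mono F hL hx h he j
  have h4 : ∀ s, ‖nu x (mono x γ T j η) s‖ / (x s).im ≤ M := fun s => (h3 s).trans_le (hM _)
  exact (hC _ h1 h2 (t9bnd_bdd h4) t ht).1 M h4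

/-- The state modulo the tangent field is bounded below. -/
lemma le_state (F : Deck Γ) (hL : Tonelli Γ L) (hx : Reg L x) (hp : Per x γ T)
    (hv : ∀ t, vel x t ≠ 0) (h : Jac L x η) (he : En L x η) (hb : Bdd x η)
    (hn : ¬∃ a : ℝ, ∀ t, η t = a • vel x t) : ∃ c : ℝ, 0 < c ∧
      ∀ (j : ℤ), ∀ t ∈ Set.Icc 0 T, c ≤ ‖nu x (mono x γ T j η) t‖ +
        ‖deriv (mono x γ T j η) t - tng x (mono x γ T j η) t • deriv (vel x) t‖ := by
  obtain ⟨C, c0, hC⟩ := t9bnd_key hL hx hv T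
  obtain ⟨M, hM⟩ := t9bnd_sup hb
  obtain ⟨s, hs⟩ : ∃ s, nu x η s ≠ 0 := by
    by_contra h0
    have h1 : nrm x η = fun _ => 0 := funext fun s => (nrm_eq_zero (hv s)).2
      (not_not.1 fun e => h0 ⟨s, e⟩)
    exact hn (h.tangent hL hx hv he (s := 0) (congrFun h1 0) (by rw [h1, deriv_const]))
  refine ⟨‖nu x η s‖ / (x s).im / C, div_pos (div_pos (norm_pos_iff.2 hs) (x s).im_pos) c0,
    fun j t ht => ?_⟩
  obtain ⟨h1, h2, -, -, h3⟩ := hp.mono F hL hx h he j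
  have h4 := (hC _ h1 h2 (t9bnd_bdd fun s => (h3 s).trans_le (hM _)) t ht).2 (s - j * T)
  rw [h3, sub_add_cancel] at h4
  exact (div_le_iff₀' c0).2 h4

lemma t9bnd_red (hT : 0 < T) (t : ℝ) : ∃ (j : ℤ) (s : ℝ), s ∈ Set.Icc 0 T ∧ t = s + j * T :=
  ⟨toIcoDiv hT 0 t, toIcoMod hT 0 t, Set.Ico_subset_Icc_self (toIcoMod_mem_Ico' hT t), by
    rw [← zsmul_eq_mul, toIcoMod_add_toIcoDiv_zsmul]⟩

lemma t9bnd_dtng (hx : Reg L x) (h : Jac L x η) {t : ℝ} (hv : vel x t ≠ 0) :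
    |deriv (tng x η) t| ≤ (‖nu x η t‖ + ‖deriv η t - tng x η t • deriv (vel x) t‖) *
      (‖vel x t‖⁻¹ + ‖deriv (vel x) t‖ / ‖vel x t‖ ^ 2) := by
  have h1 := Complex.reCLM.hasFDerivAt.comp_hasDerivAt t
    ((h t).1.hasDerivAt.div (hx.acc t).hasDerivAt hv)
  have h2 : deriv (tng x η) t = ((deriv η t - tng x η t • deriv (vel x) t) * (vel x t)⁻¹ -
      nu x η t * (deriv (vel x) t / vel x t ^ 2)).re := by
    refine h1.deriv.trans (congrArg Complex.re ?_)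
    rw [nu, Complex.real_smul, Complex.real_smul]
    field_simp
    ring
  rw [h2]
  refine (Complex.abs_re_le_norm _).trans ((norm_sub_le _ _).trans ?_)
  rw [norm_mul, norm_mul, norm_inv, norm_div, norm_pow]
  have p1 : 0 ≤ ‖nu x η t‖ * ‖vel x t‖⁻¹ := by positivity
  have p2 : 0 ≤ ‖deriv η t - tng x η t • deriv (vel x) t‖ *
    (‖deriv (vel x) t‖ / ‖vel x t‖ ^ 2) := by positivity
  linarith

lemma t9bnd_bt (hL : Tonelli Γ L) (hx : Reg L x) (h : Jac L x η) (t : ℝ) :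
    bt L x η t = dmom L x (η + (-tng x η t) • vel x) t (nu x η t) := by
  rw [bt, ← hx.dmom_vel hL.smooth, dmom, dmom, dmom, t9bnd_der hx h]
  have e : ((η + (-tng x η t) • vel x) t, deriv η t + (-tng x η t) • deriv (vel x) t) =
      (η t, deriv η t) - tng x η t • (vel x t, deriv (vel x) t) := by
    simp [sub_eq_add_neg]
  rw [e, map_sub, map_smul]
  rfl

lemma t9bnd_dmom (L : ℂ × ℂ → ℝ) (x : ℝ → ℍ) (ξ : ℝ → ℂ) (t : ℝ) (ν : ℂ) :
    |dmom L x ξ t ν| ≤ ‖D2 L (jet x t)‖ * (‖ξ t‖ + ‖deriv ξ t‖) * ‖ν‖ := by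
  have h := (D2 L (jet x t)).le_opNorm₂ (ξ t, deriv ξ t) (0, ν)
  have h1 : ‖(ξ t, deriv ξ t)‖ ≤ ‖ξ t‖ + ‖deriv ξ t‖ := norm_prod_le_iff.2
    ⟨le_add_of_nonneg_right (norm_nonneg _), le_add_of_nonneg_left (norm_nonneg _)⟩
  have h2 : ‖((0 : ℂ), ν)‖ = ‖ν‖ := by simp
  rw [h2] at h
  exact h.trans (by gcongr)

theorem jac_bound (F : Deck Γ) (hL : Tonelli Γ L) (hx : Reg L x) (hp : Per x γ T)
    (hv : ∀ t, vel x t ≠ 0) (h : Jac L x η) (he : En L x η) (hb : Bdd x η) : ∃ C : ℝ, 0 ≤ C ∧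
      ∀ t, |nrm x η t| ≤ C ∧ |deriv (tng x η) t| ≤ C ∧ ‖nu x η t‖ / (x t).im ≤ C ∧
        |bt L x η t| ≤ C := by
  obtain ⟨S, hS⟩ := state_le F hL hx hp hv h he hb
  obtain ⟨M, hM⟩ := t9bnd_sup hb
  have m0 : 0 ≤ M := (div_nonneg (norm_nonneg _) (x 0).im_pos.le).trans (hM 0)
  have s0 : 0 ≤ S := (add_nonneg (norm_nonneg _) (norm_nonneg _)).trans
    (hS 0 0 ⟨le_rfl, hp.1.le⟩)
  have hn : ∀ t, ‖vel x t‖ ≠ 0 := fun t => norm_ne_zero_iff.2 (hv t)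
  obtain ⟨K1, k1, hK1⟩ := t9bnd_cb (f := fun t => ‖vel x t‖⁻¹ + ‖deriv (vel x) t‖ / ‖vel x t‖ ^ 2)
    ((hx.contVel.norm.inv₀ hn).add (hx.cont.norm.div (hx.contVel.norm.pow 2)
      fun t => pow_ne_zero 2 (hn t))) T
  obtain ⟨K2, k2, hK2⟩ := t9bnd_cb (f := fun t => ‖D2 L (jet x t)‖)
    ((continuous_norm (E := ℂ × ℂ →L[ℝ] ℂ × ℂ →L[ℝ] ℝ)).comp (hx.coef hL).1) T
  obtain ⟨K3, k3, hK3⟩ := t9bnd_cb (f := fun t => ‖mom L x t‖ * (x t).im)
    ((continuous_iff_continuousAt.2 fun t => (hx.hasDerivAt_mom t).continuousAt).norm.mul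
      (UpperHalfPlane.continuous_im.comp hx.continuous)) T
  have p1 : 0 ≤ S * K1 := by positivity
  have p2 : 0 ≤ K2 * S * S + 2 * K3 * M * M := by positivity
  refine ⟨S * K1 + M + (K2 * S * S + 2 * K3 * M * M), by positivity, fun t => ?_⟩
  obtain ⟨j, s, hs, rfl⟩ := t9bnd_red hp.1 t
  obtain ⟨h1, h2, h3, h4, -⟩ := hp.mono F hL hx h he j
  have h5 := hS j s hs
  have h6 : ‖nu x (mono x γ T j η) s‖ ≤ S := (le_add_of_nonneg_right (norm_nonneg _)).trans h5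
  refine ⟨?_, ?_, by linarith [hM (s + j * T)], ?_⟩
  · have e : |nrm x η (s + j * T)| = ‖nu x (mono x γ T j η) s‖ * ‖vel x s‖⁻¹ := by
      rw [norm_nu (hv s), mul_inv_cancel_right₀ (hn s), h4, abs_mul]
      rcases sg_cases (γ ^ j) with ⟨-, e⟩ | ⟨-, e⟩ <;> simp [e]
    have := mul_le_mul h6 ((le_add_of_nonneg_right (by positivity)).trans (hK1 s hs))
      (by positivity) s0
    linarith
  · have e : deriv (tng x η) (s + j * T) = deriv (tng x (mono x γ T j η)) s := by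
      rw [funext h3, deriv_comp_add_const]
    have := (t9bnd_dtng hx h1 (hv s)).trans (mul_le_mul h5 (hK1 s hs) (by positivity) s0)
    rw [e]
    linarith
  · set a := -tng x η (s + j * T) with ha
    have j1 := (t9bnd_je hL hx h he a).1
    have e1 : bt L x η (s + j * T) = dmom L (fun r => x (r + j * T))
        (fun r => (η + a • vel x) (r + j * T)) s (nu x η (s + j * T)) := by
      rw [t9bnd_bt hL hx h, dmom, dmom, jet_shift, deriv_comp_add_const]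
    have e2 : (fun r => dk (γ ^ (-j)) (x (r + j * T)) ((η + a • vel x) (r + j * T))) =
        mono x γ T j η + (-tng x (mono x γ T j η) s) • vel x := funext fun r => by
      rw [h3, Pi.add_apply, Pi.add_apply, Pi.smul_apply, Pi.smul_apply, map_add, map_smul,
        ← t9bnd_vel F hp, mono]
    have h7 := dmom_smul F hL (hx.shift (j * T)) (j1.shift (j * T) s).1 (γ ^ (-j))
      (nu x η (s + j * T))
    rw [← e1, hp.inv_smul j, e2, congrFun (hp.inv_smul j) s, ← t9bnd_nu F hp,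
      (t9bnd_hat hx h (s + j * T)).1] at h7
    have h8 := t9bnd_dmom L x (mono x γ T j η + (-tng x (mono x γ T j η) s) • vel x) s
      (nu x (mono x γ T j η) s)
    rw [(t9bnd_hat hx h1 s).1, (t9bnd_hat hx h1 s).2] at h8
    have h9 := h8.trans (mul_le_mul (mul_le_mul (hK2 s hs) h5 (by positivity) k2) h6
      (norm_nonneg _) (by positivity))
    have q0 := div_nonneg (norm_nonneg (nu x η (s + j * T))) (x (s + j * T)).im_pos.le
    have h10 := h7.trans (mul_le_mul (mul_le_mul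
      (mul_le_mul_of_nonneg_left (hK3 s hs) zero_le_two) (hM _) q0 (by positivity)) (hM _) q0
      (by positivity))
    linarith [abs_sub_abs_le_abs_sub (bt L x η (s + j * T)) (dmom L x (mono x γ T j η +
      (-tng x (mono x γ T j η) s) • vel x) s (nu x (mono x γ T j η) s))]

theorem jac_pos (F : Deck Γ) (hL : Tonelli Γ L) (hx : Reg L x) (hp : Per x γ T) (ho : Ori γ)
    (hv : ∀ t, vel x t ≠ 0) (h : Jac L x η) (he : En L x η) (hb : Bdd x η)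
    (hn : ¬∃ a : ℝ, ∀ t, η t = a • vel x t) : ∃ c : ℝ, 0 < c ∧ ∀ t,
      (∀ s ∈ Set.Icc (t - 1) (t + 1), 0 < nrm x η s) → c ≤ nrm x η t := by
  obtain ⟨S, hS⟩ := state_le F hL hx hp hv h he hb
  obtain ⟨c, c0, hc⟩ := le_state F hL hx hp hv h he hb hn
  have hA := hx.coef hL
  obtain ⟨G, g0, hG⟩ := JacA.gron hA T
  by_contra hcon
  have H : ∀ n : ℕ, ∃ (s : ℝ) (ξ : ℝ → ℂ), s ∈ Set.Icc 0 T ∧ Jac L x ξ ∧ En L x ξ ∧
      tng x ξ s = 0 ∧ c ≤ ‖ξ s‖ + ‖deriv ξ s‖ ∧ ‖ξ 0‖ + ‖deriv ξ 0‖ ≤ G * S ∧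
      nrm x ξ s ≤ 1 / ((n : ℝ) + 1) ∧ ∀ r ∈ Set.Icc (-1 : ℝ) 1, 0 ≤ nrm x ξ (s + r) := fun n => by
    obtain ⟨t, h1, h2⟩ : ∃ t, (∀ s ∈ Set.Icc (t - 1) (t + 1), 0 < nrm x η s) ∧
        nrm x η t < 1 / ((n : ℝ) + 1) := by
      by_contra h0
      exact hcon ⟨_, Nat.one_div_pos_of_nat, fun t ht => not_lt.1 fun e => h0 ⟨t, ht, e⟩⟩
    obtain ⟨j, s, hs, rfl⟩ := t9bnd_red hp.1 t
    obtain ⟨j1, e1, -, h4, -⟩ := hp.mono F hL hx h he j
    obtain ⟨j2, e2⟩ := t9bnd_je hL hx j1 e1 (-tng x (mono x γ T j η) s)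
    have h5 : ∀ r, nrm x (mono x γ T j η + (-tng x (mono x γ T j η) s) • vel x) r =
        nrm x η (r + j * T) := fun r => by
      rw [(t9bnd_sh (hv r) _ _).2.1, h4, sg, if_pos (ho.zpow j), one_mul]
    refine ⟨s, _, hs, j2, e2, ?_, ?_, ?_, ?_, fun r hr => ?_⟩
    · rw [(t9bnd_sh (hv s) _ _).1, add_neg_cancel]
    · rw [(t9bnd_hat hx j1 s).1, (t9bnd_hat hx j1 s).2]
      exact hc j s hs
    · refine (hG _ j2 s 0 (abs_le.2 ⟨by linarith [hs.1, hs.2], hs.2⟩)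
        (by rw [abs_zero]; exact hp.1.le)).trans (mul_le_mul_of_nonneg_left ?_ g0)
      rw [(t9bnd_hat hx j1 s).1, (t9bnd_hat hx j1 s).2]
      exact hS j s hs
    · rw [h5]
      exact h2.le
    · rw [h5]
      exact (h1 _ ⟨by linarith [hr.1], by linarith [hr.2]⟩).le
  choose s ξ hs j1 e1 h1 h2 h3 h4 h5 using H
  obtain ⟨t, -, ht⟩ := isCompact_Icc.ultrafilter_le_nhds ((hyperfilter ℕ).map s)
    (le_principal_iff.2 (mem_map.2 (Eventually.of_forall hs)))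
  replace ht : Tendsto s (hyperfilter ℕ) (𝓝 t) := ht
  obtain ⟨ζ, j2, hζ⟩ := jacA_lim hA (hyperfilter ℕ) (As := fun _ t => D2 L (jet x t)) (ξ := ξ)
    (Eventually.of_forall j1) (fun W ε hε => Eventually.of_forall fun n t _ => by
      refine ContinuousLinearMap.opNorm_le_bound _ hε.le fun p => ?_
      rw [sub_apply, sub_self, norm_zero]
      positivity) (C := G * S) (Eventually.of_forall fun n =>
        ⟨(le_add_of_nonneg_right (norm_nonneg _)).trans (h3 n),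
          (le_add_of_nonneg_left (norm_nonneg _)).trans (h3 n)⟩)
  have cζ : Continuous ζ := continuous_iff_continuousAt.2 fun t => (j2 t).1.continuousAt
  have conv : ∀ (u : ℕ → ℝ) (v : ℝ), Tendsto u (hyperfilter ℕ) (𝓝 v) →
      Tendsto (fun n => ξ n (u n)) (hyperfilter ℕ) (𝓝 (ζ v)) ∧
        Tendsto (fun n => deriv (ξ n) (u n)) (hyperfilter ℕ) (𝓝 (deriv ζ v)) := fun u v hu => by
    have hW : ∀ᶠ n in hyperfilter ℕ, |u n| ≤ |v| + 1 :=
      (hu.abs.eventually (gt_mem_nhds (lt_add_one _))).mono fun _ => le_of_lt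
    constructor
    · refine ((cζ.tendsto v).comp hu).congr_dist (Metric.tendsto_nhds.2 fun ε hε => ?_)
      filter_upwards [hW, hζ (|v| + 1) (ε / 2) (half_pos hε)] with n a b
      rw [dist_zero_right, Real.norm_of_nonneg dist_nonneg, dist_comm, dist_eq_norm]
      exact (b _ a).1.trans_lt (half_lt_self hε)
    · refine (((j2.contDeriv hA).tendsto v).comp hu).congr_dist
        (Metric.tendsto_nhds.2 fun ε hε => ?_)
      filter_upwards [hW, hζ (|v| + 1) (ε / 2) (half_pos hε)] with n a b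
      rw [dist_zero_right, Real.norm_of_nonneg dist_nonneg, dist_comm, dist_eq_norm]
      exact (b _ a).2.trans_lt (half_lt_self hε)
  have quo : ∀ (u : ℕ → ℝ) (v : ℝ), Tendsto u (hyperfilter ℕ) (𝓝 v) →
      Tendsto (fun n => ξ n (u n) / vel x (u n)) (hyperfilter ℕ) (𝓝 (ζ v / vel x v)) :=
    fun u v hu => (conv u v hu).1.div ((hx.contVel.tendsto v).comp hu) (hv v)
  have e2 : En L x ζ := fun v => by
    obtain ⟨a, b⟩ := conv (fun _ => v) v tendsto_const_nhds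
    have l1 := (((D2 L (jet x v)).flip (0, vel x v)).continuous.tendsto _).comp (a.prodMk_nhds b)
    have l2 := ((fderiv ℝ L (jet x v)).continuous.tendsto _).comp
      (a.prodMk_nhds (tendsto_const_nhds (x := (0 : ℂ))))
    exact tendsto_nhds_unique l1 (l2.congr fun n => (e1 n v).symm)
  have n1 : ∀ r ∈ Set.Icc (-1 : ℝ) 1, 0 ≤ nrm x ζ (t + r) := fun r hr =>
    ge_of_tendsto' ((Complex.continuous_im.tendsto _).comp (quo _ _ (ht.add_const r)))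
      fun n => h5 n r hr
  have n2 : nrm x ζ t = 0 := le_antisymm (le_of_tendsto_of_tendsto'
    ((Complex.continuous_im.tendsto _).comp (quo _ _ ht))
    (tendsto_one_div_add_atTop_nhds_zero_nat.mono_left Nat.hyperfilter_le_atTop) h4)
    (by simpa using n1 0 (by norm_num))
  have n3 : IsLocalMin (nrm x ζ) t := by
    filter_upwards [Icc_mem_nhds (sub_one_lt t) (lt_add_one t)] with r hr
    have := n1 (r - t) ⟨by linarith [hr.1], by linarith [hr.2]⟩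
    rwa [add_sub_cancel, ← n2] at this
  obtain ⟨a, ha⟩ := Jac.tangent hL hx hv j2 e2 n2 n3.deriv_eq_zero
  have n4 : tng x ζ t = 0 := tendsto_nhds_unique
    ((Complex.continuous_re.tendsto _).comp (quo _ _ ht))
    (tendsto_const_nhds.congr fun n => (h1 n).symm)
  rw [tng, ha, smul_div_assoc, div_self (hv t), Complex.smul_re, Complex.one_re, smul_eq_mul,
    mul_one] at n4
  obtain rfl : ζ = fun _ => 0 := funext fun r => by rw [ha, n4, zero_smul]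
  have n5 := ge_of_tendsto' ((conv _ _ ht).1.norm.add (conv _ _ ht).2.norm) h2
  rw [deriv_const, norm_zero, add_zero] at n5
  exact c0.not_ge n5

end Pool.Agent.Lib.MP_5bb885_an.Gen
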