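import Pool.Agent.Lib.MP_5bb885_an.T9Cht

/-!
Gaps of a lamination.
-/

namespace Pool.Agent.Lib.MP_5bb885_an.Gen

open UpperHalfPlane MeasureTheory Filter Topology

variable {Γ : Type} [Group Γ] [MulAction Γ ℍ] {K : Set ℍ} {Φ : ℝ → ℍ → ℍ} {V : ℍ → ℂ} {z : ℍ}
  {p d : ℂ} {r : ℝ} {Θ : ℍ → ℝ}

lemma LC.const (h : LC K Θ) {P : Set ℍ} (hP : IsPreconnected P) (hK : ∀ z ∈ P, z ∉ K) {z w : ℍ}
    (hz : z ∈ P) (hw : w ∈ P) : Θ z = Θ w := by
  have h1 : IsLocallyConstant (fun x : P => Θ x) := by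
    rw [IsLocallyConstant.iff_eventually_eq]
    intro x
    exact continuous_subtype_val.continuousAt.eventually (h x (hK x x.2))
  have := Subtype.preconnectedSpace hP
  exact h1.apply_eq_of_preconnectedSpace ⟨z, hz⟩ ⟨w, hw⟩

/-- The point with a given affine coordinate. -/
noncomputable def t9box_pt (p d ζ : ℂ) : ℍ := ofComplex (p + d * ζ)

lemma t9box_co0 (hd : d ≠ 0) (p ζ : ℂ) : co p d (p + d * ζ) = ζ := by
  simp only [co]; field_simp; ring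

lemma t9box_im (H : Cht K Φ V p d r) {ζ : ℂ} (h1 : |ζ.re| ≤ r) (h2 : |ζ.im| ≤ r) :
    0 < (p + d * ζ).im :=
  H.sub _ (by simp only [InB, t9box_co0 H.ne]; exact ⟨h1, h2⟩)

lemma t9box_co (H : Cht K Φ V p d r) {ζ : ℂ} (h1 : |ζ.re| ≤ r) (h2 : |ζ.im| ≤ r) :
    co p d (t9box_pt p d ζ) = ζ := by
  rw [t9box_pt, ofComplex_apply_of_im_pos (t9box_im H h1 h2)]
  exact t9box_co0 H.ne p ζ

lemma t9box_pt_co (hd : d ≠ 0) (p : ℂ) (w : ℍ) : t9box_pt p d (co p d w) = w := by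
  have : p + d * co p d w = w := by simp only [co]; field_simp; ring
  rw [t9box_pt, this, ofComplex_apply]

lemma t9box_contAt (H : Cht K Φ V p d r) {ζ : ℂ} (h1 : |ζ.re| ≤ r) (h2 : |ζ.im| ≤ r) :
    ContinuousAt (t9box_pt p d) ζ := by
  have h3 : ContinuousAt ofComplex (p + d * ζ) :=
    (contMDiffAt_ofComplex (n := 0) (t9box_im H h1 h2)).continuousAt
  have h4 : ContinuousAt (fun ζ : ℂ => p + d * ζ) ζ := by fun_prop
  exact ContinuousAt.comp (f := fun ζ : ℂ => p + d * ζ) h3 h4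

lemma t9box_cont (p d : ℂ) (x : ℍ) {η : ℝ} (hη : 0 < η) :
    ∃ δ : ℝ, 0 < δ ∧ ∀ w : ℍ, dist w x ≤ δ → ‖co p d w - co p d x‖ ≤ η := by
  have h1 : ContinuousAt (fun w : ℍ => co p d w) x :=
    ((continuous_co p d).comp continuous_coe).continuousAt
  obtain ⟨δ, hδ, h2⟩ := Metric.continuousAt_iff.1 h1 η hη
  refine ⟨δ / 2, by positivity, fun w hw => ?_⟩
  rw [← dist_eq_norm]
  exact (h2 (by linarith)).le

lemma t9box_cont' (H : Cht K Φ V p d r) {x : ℍ} (hx : InB p d r x) {ε : ℝ} (hε : 0 < ε) :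
    ∃ η : ℝ, 0 < η ∧ ∀ ζ : ℂ, ‖ζ - co p d x‖ ≤ η → dist (t9box_pt p d ζ) x ≤ ε := by
  obtain ⟨δ, hδ, h2⟩ := Metric.continuousAt_iff.1 (t9box_contAt H hx.1 hx.2) ε hε
  refine ⟨δ / 2, by positivity, fun ζ hζ => ?_⟩
  have h3 := h2 (x := ζ) (by rw [dist_eq_norm]; linarith)
  rw [t9box_pt_co H.ne] at h3
  exact h3.le

lemma t9box_lip (A : Lam Γ K Φ V) (H : Cht K Φ V p d r) : ∃ C : ℝ, 1 ≤ C ∧ ∀ y ∈ K, ∀ y' ∈ K,
    InB p d r y → InB p d r y' → ∀ t, |t| ≤ r →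
      ‖co p d (Φ t y) - co p d (Φ t y')‖ ≤ C * ‖co p d y - co p d y'‖ := by
  obtain ⟨R, hR⟩ := exists_KB (isCompact_InB H.ne p r) (fun w hw => H.sub w hw)
  obtain ⟨C, hC, h⟩ := A.loc R r
  refine ⟨C + 1, by linarith, fun y hy y' hy' h1 h2 t ht => ?_⟩
  have h3 := (h y hy y' hy' (mem_KB.1 (hR h1)) (mem_KB.1 (hR h2)) t ht).1
  have hd : 0 < ‖d‖ := norm_pos_iff.2 H.ne
  rw [co_sub, co_sub, norm_div, norm_div, ← mul_div_assoc]
  refine div_le_div_of_nonneg_right ?_ hd.le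
  nlinarith [norm_nonneg ((y : ℂ) - y')]

lemma t9box_order (A : Lam Γ K Φ V) (H : Cht K Φ V p d r) {w : ℍ} (hz : z ∈ K) (hw : w ∈ K)
    (hb : InB p d r z) (hb' : InB p d r w) (h1 : (co p d z).re = (co p d w).re) {σ : ℝ}
    (hσ : σ = 1 ∨ σ = -1) (h2 : 0 < σ * ((co p d w).im - (co p d z).im)) {s t : ℝ}
    (hs : |s| ≤ 8 * r) (ht : |t| ≤ 8 * r) (h3 : (co p d (Φ s z)).re = (co p d (Φ t w)).re) :
    0 < σ * ((co p d (Φ t w)).im - (co p d (Φ s z)).im) := by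
  rcases hσ with rfl | rfl
  · have := H.order A hz hw hb hb' h1 (by linarith) hs ht h3
    linarith
  · have := H.order A hw hz hb' hb h1.symm (by linarith) ht hs h3.symm
    linarith

lemma t9box_move (A : Lam Γ K Φ V) (H : Cht K Φ V p d r) (hz : z ∈ K) (hb : InB p d r z) {t : ℝ}
    (ht : |t| ≤ r) : |(co p d (Φ t z)).re - (co p d z).re| ≤ 11 / 10 * |t| ∧
      |(co p d (Φ t z)).im - (co p d z).im| ≤ |t| / 10 := by
  have hr := H.pos
  have h := H.move A hz hb (s := 0) (t := t) (by rw [abs_zero]; linarith) (by linarith)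
  rw [A.zero z hz, sub_zero] at h
  have h1 := (Complex.abs_re_le_norm _).trans h
  have h2 := (Complex.abs_im_le_norm _).trans h
  simp only [Complex.sub_re, Complex.sub_im, Complex.ofReal_re, Complex.ofReal_im, sub_zero]
    at h1 h2
  refine ⟨?_, h2⟩
  have h3 := abs_add_le ((co p d (Φ t z)).re - (co p d z).re - t) t
  rw [sub_add_cancel] at h3
  linarith

lemma t9box_norm (ζ : ℂ) {a b : ℝ} (h1 : |ζ.re| ≤ a) (h2 : |ζ.im| ≤ b) : ‖ζ‖ ≤ a + b :=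
  (Complex.norm_le_abs_re_add_abs_im ζ).trans (add_le_add h1 h2)

lemma t9box_abs {x y a b c : ℝ} (h1 : |y| ≤ a) (h2 : |x - y| ≤ b) (h3 : a + b ≤ c) : |x| ≤ c := by
  have := abs_add_le (x - y) y
  rw [sub_add_cancel] at this
  linarith

/-- Above the highest point of `K` on a vertical segment there is a strip free of `K`. -/
lemma t9box_strip (A : Lam Γ K Φ V) (H : Cht K Φ V p d r) {C : ℝ} (hC : 1 ≤ C)
    (hL : ∀ y ∈ K, ∀ y' ∈ K, InB p d r y → InB p d r y' → ∀ t, |t| ≤ r →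
      ‖co p d (Φ t y) - co p d (Φ t y')‖ ≤ C * ‖co p d y - co p d y'‖)
    (hz : z ∈ K) (hb : InB p d (53 / 100 * r) z) {σ : ℝ} (hσ : σ = 1 ∨ σ = -1) {D : ℝ}
    (hD : D ≤ r / 20)
    (hfree : ∀ s, 0 < s → s ≤ D → t9box_pt p d (co p d z + (σ * s : ℝ) * Complex.I) ∉ K)
    {τ s : ℝ} (hτ : |τ| ≤ r / 3) (hs : 0 < s) (hsD : 2 * C * s ≤ D) :
    t9box_pt p d (co p d (Φ τ z) + (σ * s : ℝ) * Complex.I) ∉ K := by
  intro hy
  have hr := H.pos
  have hσ1 : |σ| = 1 := by rcases hσ with rfl | rfl <;> simp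
  have hσ2 : σ * σ = 1 := by rcases hσ with rfl | rfl <;> simp
  have hbz : InB p d r z := ⟨hb.1.trans (by linarith), hb.2.trans (by linarith)⟩
  obtain ⟨m1, m2⟩ := t9box_move A H hz hbz (t := τ) (by linarith)
  have hs1 : s ≤ C * s := by nlinarith
  have hτz : Φ τ z ∈ K := A.map τ z hz
  have b1 : |(co p d (Φ τ z)).re| ≤ r := t9box_abs hb.1 m1 (by linarith)
  have b2 : |(co p d (Φ τ z)).im| ≤ 9 / 10 * r := t9box_abs hb.2 m2 (by linarith)
  have hbτ : InB p d r (Φ τ z) := ⟨b1, b2.trans (by linarith)⟩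
  set ζ := co p d (Φ τ z) + (σ * s : ℝ) * Complex.I with hζ
  have ζre : ζ.re = (co p d (Φ τ z)).re := by simp [hζ]
  have ζim : ζ.im = (co p d (Φ τ z)).im + σ * s := by simp [hζ]
  have hσs : |σ * s| = s := by rw [abs_mul, hσ1, one_mul, abs_of_pos hs]
  have c1 : |ζ.re| ≤ r := by rw [ζre]; exact b1
  have c2 : |ζ.im| ≤ r :=
    t9box_abs b2 (b := s) (by rw [ζim, add_sub_cancel_left, hσs]) (by linarith)
  set y := t9box_pt p d ζ with hydef
  have cy : co p d y = ζ := t9box_co H c1 c2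
  have hby : InB p d r y := by simp only [InB, cy]; exact ⟨c1, c2⟩
  have back : Φ (-τ) (Φ τ z) = z := by rw [← A.add _ _ z hz, neg_add_cancel, A.zero z hz]
  have l1 := hL y hy (Φ τ z) hτz hby hbτ (-τ) (by rw [abs_neg]; linarith)
  rw [back, cy] at l1
  have n1 : ‖ζ - co p d (Φ τ z)‖ = s := by
    rw [hζ, add_sub_cancel_left, norm_mul, Complex.norm_I, mul_one, Complex.norm_real,
      Real.norm_eq_abs, hσs]
  rw [n1] at l1
  have l2 := (Complex.abs_re_le_norm _).trans l1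
  have l3 := (Complex.abs_im_le_norm _).trans l1
  rw [Complex.sub_re] at l2
  rw [Complex.sub_im] at l3
  have hx' : Φ (-τ) y ∈ K := A.map _ y hy
  have hbx' : InB p d r (Φ (-τ) y) :=
    ⟨t9box_abs hb.1 l2 (by linarith), t9box_abs hb.2 l3 (by linarith)⟩
  have l2' : |(co p d z).re - (co p d (Φ (-τ) y)).re| ≤ C * s := by rw [abs_sub_comm]; exact l2
  obtain ⟨u, u1, u2, u3⟩ := H.hit A hx' hbx' (X := (co p d z).re) (by linarith)
  have e1 : Φ u (Φ (-τ) y) = Φ (u + -τ) y := (A.add _ _ y hy).symm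
  have o1 := t9box_order A H hτz hy hbτ hby (by rw [cy, ζre]) hσ
    (by rw [cy, ζim, add_sub_cancel_left, ← mul_assoc, hσ2, one_mul]; exact hs)
    (s := -τ) (t := u + -τ) (by rw [abs_neg]; linarith)
    (by
      have := abs_add_le u (-τ)
      rw [abs_neg] at this
      linarith)
    (by rw [back, ← e1, u2])
  rw [back, ← e1] at o1
  set x := Φ u (Φ (-τ) y) with hxdef
  have hx : x ∈ K := A.map _ _ hx'
  have l4 : |(co p d x).im - (co p d z).im| ≤ D := by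
    have := abs_sub_le (co p d x).im (co p d (Φ (-τ) y)).im (co p d z).im
    linarith
  refine hfree (σ * ((co p d x).im - (co p d z).im)) o1 ?_ ?_
  · have := le_abs_self (σ * ((co p d x).im - (co p d z).im))
    rw [abs_mul, hσ1, one_mul] at this
    linarith
  · have e2 : co p d z + ((σ * (σ * ((co p d x).im - (co p d z).im)) : ℝ) : ℂ) * Complex.I =
        co p d x := by
      rw [← mul_assoc, hσ2, one_mul]
      apply Complex.ext
      · simp [u2]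
      · simp
    rw [e2, t9box_pt_co H.ne]
    exact hx

/-- The highest point of `K` on the vertical segment below a point of a gap. -/
lemma t9box_top (A : Lam Γ K Φ V) (H : Cht K Φ V p d r) (h : LC K Θ) {w : ℍ} (hz : z ∈ K)
    (hw : w ∉ K) (hb : InB p d r z) (hb' : InB p d r w) (h1 : (co p d z).re = (co p d w).re) :
    ∃ (x : ℍ) (σ D : ℝ), x ∈ K ∧ (σ = 1 ∨ σ = -1) ∧ 0 < D ∧ (co p d x).re = (co p d w).re ∧
      |(co p d x).im - (co p d w).im| ≤ |(co p d z).im - (co p d w).im| ∧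
      D ≤ |(co p d z).im - (co p d w).im| ∧ ∀ s, 0 < s → s ≤ D →
        t9box_pt p d (co p d x + (σ * s : ℝ) * Complex.I) ∉ K ∧
        Θ (t9box_pt p d (co p d x + (σ * s : ℝ) * Complex.I)) = Θ w := by
  obtain ⟨σ, hσ, hσD⟩ : ∃ σ : ℝ, (σ = 1 ∨ σ = -1) ∧
      σ * |(co p d z).im - (co p d w).im| = (co p d w).im - (co p d z).im := by
    rcases le_total (co p d z).im (co p d w).im with h2 | h2
    · exact ⟨1, Or.inl rfl, by rw [abs_of_nonpos (by linarith)]; ring⟩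
    · exact ⟨-1, Or.inr rfl, by rw [abs_of_nonneg (by linarith)]; ring⟩
  set D₀ := |(co p d z).im - (co p d w).im| with hD₀
  have hD0 : 0 ≤ D₀ := abs_nonneg _
  have hσ1 : |σ| = 1 := by rcases hσ with rfl | rfl <;> simp
  set ζ : ℝ → ℂ := fun s => co p d z + (σ * s : ℝ) * Complex.I with hζ
  have ζre : ∀ s, (ζ s).re = (co p d z).re := fun s => by simp [hζ]
  have ζim : ∀ s, (ζ s).im = (co p d z).im + σ * s := fun s => by simp [hζ]
  have c1 : ∀ s, |(ζ s).re| ≤ r := fun s => by rw [ζre]; exact hb.1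
  have c2 : ∀ s ∈ Set.Icc 0 D₀, |(ζ s).im| ≤ r := fun s hs => by
    rw [ζim]
    have k1 := abs_le.1 hb.2
    have k2 := abs_le.1 hb'.2
    have k3 := hs.1
    have k4 := hs.2
    rcases hσ with rfl | rfl <;> exact abs_le.2 ⟨by linarith, by linarith⟩
  have hc : ContinuousOn (fun s => t9box_pt p d (ζ s)) (Set.Icc 0 D₀) := fun s hs =>
    (ContinuousAt.comp (f := ζ) (t9box_contAt H (c1 s) (c2 s hs))
      (by simp only [hζ]; fun_prop)).continuousWithinAt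
  have hS : IsCompact (Set.Icc 0 D₀ ∩ (fun s => t9box_pt p d (ζ s)) ⁻¹' K) :=
    isCompact_Icc.of_isClosed_subset (hc.preimage_isClosed_of_isClosed isClosed_Icc A.closed)
      Set.inter_subset_left
  have z0 : t9box_pt p d (ζ 0) = z := by simp [hζ, t9box_pt_co H.ne]
  have zD : t9box_pt p d (ζ D₀) = w := by
    have : ζ D₀ = co p d w := Complex.ext (by rw [ζre, h1]) (by rw [ζim, hσD]; ring)
    rw [this, t9box_pt_co H.ne]
  obtain ⟨s₀, ⟨hs₀, hs₀K⟩, hmax⟩ := hS.exists_isGreatest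
    ⟨0, ⟨le_rfl, hD0⟩, by simp only [Set.mem_preimage, z0]; exact hz⟩
  simp only [Set.mem_preimage] at hs₀K
  have hlt : s₀ < D₀ := lt_of_le_of_ne hs₀.2 fun e => hw (by rw [← zD, ← e]; exact hs₀K)
  have cx : co p d (t9box_pt p d (ζ s₀)) = ζ s₀ := t9box_co H (c1 s₀) (c2 s₀ hs₀)
  have hfree : ∀ s ∈ Set.Ioc s₀ D₀, t9box_pt p d (ζ s) ∉ K := fun s hs hk =>
    absurd (hmax ⟨⟨hs₀.1.trans hs.1.le, hs.2⟩, hk⟩) (not_le.2 hs.1)
  refine ⟨t9box_pt p d (ζ s₀), σ, D₀ - s₀, hs₀K, hσ, by linarith, by rw [cx, ζre, h1], ?_,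
    by linarith [hs₀.1], fun s hs hsD => ?_⟩
  · rw [cx, ζim]
    have : (co p d z).im + σ * s₀ - (co p d w).im = σ * (s₀ - D₀) := by linarith
    rw [this, abs_mul, hσ1, one_mul, abs_of_nonpos (by linarith)]
    linarith [hs₀.1]
  · have e : co p d (t9box_pt p d (ζ s₀)) + (σ * s : ℝ) * Complex.I = ζ (s₀ + s) := by
      rw [cx]; simp only [hζ]; push_cast; ring
    have hm : s₀ + s ∈ Set.Ioc s₀ D₀ := ⟨by linarith, by linarith⟩
    rw [e]
    refine ⟨hfree _ hm, ?_⟩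
    have hP : IsPreconnected ((fun s => t9box_pt p d (ζ s)) '' Set.Ioc s₀ D₀) :=
      isPreconnected_Ioc.image _ (hc.mono fun t ht => ⟨hs₀.1.trans ht.1.le, ht.2⟩)
    refine h.const hP ?_ ⟨_, hm, rfl⟩ ⟨D₀, ⟨hlt, le_rfl⟩, zD⟩
    rintro _ ⟨t, ht, rfl⟩
    exact hfree t ht

/-- Points in a gap can be moved along the leaves of a flow box. -/
theorem Cht.transport (A : Lam Γ K Φ V) (H : Cht K Φ V p d r) (h : LC K Θ) (hz : z ∈ K)
    (hb : InB p d (r / 2) z) {a : ℝ} (ha : |a| ≤ r / 4) {ε : ℝ} (hε : 0 < ε) :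
    ∃ δ : ℝ, 0 < δ ∧ ∀ w, w ∉ K → dist w z ≤ δ → ∃ w', w' ∉ K ∧ dist w' (Φ a z) ≤ ε ∧
      (co p d w').re = (co p d (Φ a z)).re ∧ Θ w' = Θ w := by
  have hr := H.pos
  obtain ⟨C, hC, hL⟩ := t9box_lip A H
  have hbz : InB p d r z := ⟨hb.1.trans (by linarith), hb.2.trans (by linarith)⟩
  obtain ⟨m1, m2⟩ := t9box_move A H hz hbz (t := a) (by linarith)
  have hba : InB p d r (Φ a z) :=
    ⟨t9box_abs hb.1 m1 (by linarith), t9box_abs hb.2 m2 (by linarith)⟩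
  obtain ⟨ε', hε', hpt⟩ := t9box_cont' H hba hε
  obtain ⟨η, hη, η1, η2⟩ : ∃ η : ℝ, 0 < η ∧ C * η ≤ r / 100 ∧ 6 * (C * η) ≤ ε' := by
    have hC0 : 0 < C := by linarith
    refine ⟨min (r / 100) (ε' / 6) / C, by positivity, ?_, ?_⟩
    · rw [mul_div_cancel₀ _ hC0.ne']; exact min_le_left _ _
    · rw [mul_div_cancel₀ _ hC0.ne']; linarith [min_le_right (r / 100) (ε' / 6)]
  have η3 : η ≤ C * η := by nlinarith
  obtain ⟨δ, hδ, hδ'⟩ := t9box_cont p d z hη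
  refine ⟨δ, hδ, fun w hw hwz => ?_⟩
  have w0 := hδ' w hwz
  have w1 := (Complex.abs_re_le_norm _).trans w0
  have w2 := (Complex.abs_im_le_norm _).trans w0
  rw [Complex.sub_re] at w1
  rw [Complex.sub_im] at w2
  have hbw : InB p d r w := ⟨t9box_abs hb.1 w1 (by linarith), t9box_abs hb.2 w2 (by linarith)⟩
  obtain ⟨t₁, -, t2, t3⟩ := H.hit A hz hbz (X := (co p d w).re) (by linarith)
  have hz₁ : Φ t₁ z ∈ K := A.map _ z hz
  have hb₁ : InB p d r (Φ t₁ z) :=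
    ⟨by rw [t2]; exact hbw.1, t9box_abs hb.2 t3 (by linarith)⟩
  obtain ⟨x, σ, D, hx, hσ, hD, x1, x2, x3, x4⟩ := t9box_top A H h hz₁ hw hb₁ hbw t2
  have hσ1 : |σ| = 1 := by rcases hσ with rfl | rfl <;> simp
  have k1 : |(co p d (Φ t₁ z)).im - (co p d w).im| ≤ 10 / 9 * η := by
    have := abs_sub_le (co p d (Φ t₁ z)).im (co p d z).im (co p d w).im
    rw [abs_sub_comm (co p d z).im] at this
    linarith
  have k2 : |(co p d x).re - (co p d z).re| ≤ η := by rw [x1]; exact w1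
  have k3 : |(co p d x).im - (co p d z).im| ≤ 19 / 9 * η := by
    have := abs_sub_le (co p d x).im (co p d w).im (co p d z).im
    linarith
  have hbx' : InB p d (53 / 100 * r) x :=
    ⟨t9box_abs hb.1 k2 (by linarith), t9box_abs hb.2 k3 (by linarith)⟩
  have hbx : InB p d r x := ⟨hbx'.1.trans (by linarith), hbx'.2.trans (by linarith)⟩
  have k4 : ‖co p d x - co p d z‖ ≤ η + 19 / 9 * η :=
    t9box_norm _ (by rw [Complex.sub_re]; exact k2) (by rw [Complex.sub_im]; exact k3)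
  have l0 := hL x hx z hz hbx hbz a (by linarith)
  have l1 : ‖co p d (Φ a x) - co p d (Φ a z)‖ ≤ 28 / 9 * (C * η) := by nlinarith
  have l2 := (Complex.abs_re_le_norm _).trans l1
  have l3 := (Complex.abs_im_le_norm _).trans l1
  rw [Complex.sub_re] at l2
  rw [Complex.sub_im] at l3
  obtain ⟨n1, n2⟩ := t9box_move A H hx hbx (t := a) (by linarith)
  have hbax : InB p d r (Φ a x) :=
    ⟨t9box_abs hbx'.1 n1 (by linarith), t9box_abs hbx'.2 n2 (by linarith)⟩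
  rw [abs_sub_comm] at l2
  obtain ⟨u, u1, u2, u3⟩ := H.hit A (A.map a x hx) hbax (X := (co p d (Φ a z)).re) (by linarith)
  rw [← A.add u a x hx] at u2 u3
  have hua : |u + a| ≤ r / 3 := by
    have := abs_add_le u a
    linarith
  have hC0 : 0 < C := by linarith
  set s := D / (2 * C) with hs
  have s0 : 0 < s := by positivity
  have s1 : 2 * C * s ≤ D := by rw [hs, mul_div_cancel₀ _ (by positivity)]
  have s2 : s ≤ D := by nlinarith
  have hτ : ∀ τ ∈ Set.uIcc 0 (u + a), |τ| ≤ r / 3 := fun τ hτ => by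
    have := Set.abs_sub_left_of_mem_uIcc hτ
    rw [sub_zero, sub_zero] at this
    linarith
  have free : ∀ τ ∈ Set.uIcc 0 (u + a),
      t9box_pt p d (co p d (Φ τ x) + (σ * s : ℝ) * Complex.I) ∉ K := fun τ hτ' =>
    t9box_strip A H hC hL hx hbx' hσ (D := D) (by linarith) (fun t h1 h2 => (x4 t h1 h2).1)
      (hτ τ hτ') s0 s1
  have hσs : |σ * s| = s := by rw [abs_mul, hσ1, one_mul, abs_of_pos s0]
  have inb : ∀ τ ∈ Set.uIcc 0 (u + a), |(co p d (Φ τ x) + (σ * s : ℝ) * Complex.I).re| ≤ r ∧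
      |(co p d (Φ τ x) + (σ * s : ℝ) * Complex.I).im| ≤ r := fun τ hτ' => by
    have j0 := hτ τ hτ'
    obtain ⟨j1, j2⟩ := t9box_move A H hx hbx (t := τ) (by linarith)
    have e1 : (co p d (Φ τ x) + (σ * s : ℝ) * Complex.I).re = (co p d (Φ τ x)).re := by simp
    have e2 : (co p d (Φ τ x) + (σ * s : ℝ) * Complex.I).im = (co p d (Φ τ x)).im + σ * s := by
      simp
    rw [e1, e2]
    refine ⟨t9box_abs hbx'.1 j1 (by linarith), ?_⟩
    have j3 : |(co p d (Φ τ x)).im| ≤ 9 / 10 * r := t9box_abs hbx'.2 j2 (by linarith)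
    exact t9box_abs j3 (b := s) (by rw [add_sub_cancel_left, hσs]) (by linarith)
  have hc : ContinuousOn (fun τ => t9box_pt p d (co p d (Φ τ x) + (σ * s : ℝ) * Complex.I))
      (Set.uIcc 0 (u + a)) := fun τ hτ' =>
    (ContinuousAt.comp (f := fun τ => co p d (Φ τ x) + (σ * s : ℝ) * Complex.I)
      (t9box_contAt H (inb τ hτ').1 (inb τ hτ').2)
      ((((continuous_co p d).comp (continuous_coe.comp (A.continuous hx))).add
        continuous_const).continuousAt)).continuousWithinAt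
  have hend := Set.right_mem_uIcc (a := (0 : ℝ)) (b := u + a)
  have cw := t9box_co H (inb _ hend).1 (inb _ hend).2
  refine ⟨t9box_pt p d (co p d (Φ (u + a) x) + (σ * s : ℝ) * Complex.I), free _ hend, ?_, ?_, ?_⟩
  · apply hpt
    have e1 : |(co p d (Φ (u + a) x) + (σ * s : ℝ) * Complex.I - co p d (Φ a z)).re| ≤ 0 := by
      simp [u2]
    have e2 : |(co p d (Φ (u + a) x) + (σ * s : ℝ) * Complex.I - co p d (Φ a z)).im| ≤ ε' := by
      have e3 : (co p d (Φ (u + a) x) + (σ * s : ℝ) * Complex.I - co p d (Φ a z)).im =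
          ((co p d (Φ (u + a) x)).im - (co p d (Φ a z)).im) + σ * s := by simp; ring
      have e4 := abs_add_le ((co p d (Φ (u + a) x)).im - (co p d (Φ a z)).im) (σ * s)
      have e5 := abs_sub_le (co p d (Φ (u + a) x)).im (co p d (Φ a x)).im (co p d (Φ a z)).im
      rw [e3]
      linarith
    have := t9box_norm _ e1 e2
    linarith
  · rw [cw]; simp [u2]
  · rw [← (x4 s s0 s2).2]
    have hP := isPreconnected_uIcc.image _ hc
    refine h.const hP ?_ ⟨_, hend, rfl⟩ ⟨0, Set.left_mem_uIcc, by simp only [A.zero x hx]⟩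
    rintro _ ⟨t, ht, rfl⟩
    exact free t ht

/-- Times up to which points of gaps can be transported. -/
def t9box_G (K : Set ℍ) (Φ : ℝ → ℍ → ℍ) (Θ : ℍ → ℝ) (z : ℍ) (t : ℝ) : Prop :=
  ∀ ε : ℝ, 0 < ε → ∃ δ : ℝ, 0 < δ ∧ ∀ w, w ∉ K → dist w z ≤ δ → ∃ w', w' ∉ K ∧
    dist w' (Φ t z) ≤ ε ∧ Θ w' = Θ w

lemma t9box_step (A : Aper Γ K Φ V) (h : LC K Θ) (hz : z ∈ K) (t₀ : ℝ) : ∃ ρ : ℝ, 0 < ρ ∧
    ∀ t t', |t - t₀| ≤ ρ → |t' - t₀| ≤ ρ → t9box_G K Φ Θ z t → t9box_G K Φ Θ z t' := by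
  have hx : Φ t₀ z ∈ K := A.map t₀ z hz
  obtain ⟨ε₀, r₀, hε₀, hr₀, hc⟩ := A.toLam.exists_cht hx (A.ne_zero hx) (O := Set.univ) univ_mem
  obtain ⟨H, -⟩ := hc (Φ t₀ z) (V (Φ t₀ z)) (by simpa using hε₀.le) (by simpa using hε₀.le)
  have c0 : co (Φ t₀ z) (V (Φ t₀ z)) (Φ t₀ z) = 0 := by simp [co]
  have hb : InB (Φ t₀ z) (V (Φ t₀ z)) r₀ (Φ t₀ z) := by
    simp only [InB, c0, Complex.zero_re, Complex.zero_im, abs_zero]
    exact ⟨hr₀.le, hr₀.le⟩
  refine ⟨r₀ / 8, by positivity, fun t t' ht ht' hG ε hε => ?_⟩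
  obtain ⟨m1, m2⟩ := t9box_move A.toLam H hx hb (t := t - t₀) (by linarith)
  rw [← A.add _ _ z hz, sub_add_cancel, c0] at m1 m2
  simp only [Complex.zero_re, Complex.zero_im, sub_zero] at m1 m2
  have ha : |t' - t| ≤ r₀ / 4 := by
    have := abs_sub_le t' t₀ t
    rw [abs_sub_comm t₀ t] at this
    linarith
  obtain ⟨δ₁, hδ₁, h1⟩ := H.transport A.toLam h (A.map t z hz)
    ⟨m1.trans (by linarith), m2.trans (by linarith)⟩ ha hε
  rw [← A.add _ _ z hz, sub_add_cancel] at h1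
  obtain ⟨δ, hδ, h2⟩ := hG δ₁ hδ₁
  refine ⟨δ, hδ, fun w hw hwz => ?_⟩
  obtain ⟨w₁, k1, k2, k3⟩ := h2 w hw hwz
  obtain ⟨w₂, j1, j2, -, j3⟩ := h1 w₁ k1 k2
  exact ⟨w₂, j1, j2, j3.trans k3⟩

/-- Transport along a whole orbit. -/
theorem Aper.transport (A : Aper Γ K Φ V) (h : LC K Θ) (hz : z ∈ K) (t : ℝ) {ε : ℝ} (hε : 0 < ε) :
    ∃ δ : ℝ, 0 < δ ∧ ∀ w, w ∉ K → dist w z ≤ δ → ∃ w', w' ∉ K ∧ dist w' (Φ t z) ≤ ε ∧
      Θ w' = Θ w := by
  have hcl : IsClopen {t | t9box_G K Φ Θ z t} := by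
    constructor
    · rw [← isOpen_compl_iff, Metric.isOpen_iff]
      intro t₀ ht₀
      obtain ⟨ρ, hρ, h1⟩ := t9box_step A h hz t₀
      refine ⟨ρ, hρ, fun t ht hG => ht₀ (h1 t t₀ ?_ (by simpa using hρ.le) hG)⟩
      rw [Metric.mem_ball, Real.dist_eq] at ht
      exact ht.le
    · rw [Metric.isOpen_iff]
      intro t₀ ht₀
      obtain ⟨ρ, hρ, h1⟩ := t9box_step A h hz t₀
      refine ⟨ρ, hρ, fun t ht => h1 t₀ t (by simpa using hρ.le) ?_ ht₀⟩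
      rw [Metric.mem_ball, Real.dist_eq] at ht
      exact ht.le
  have h0 : t9box_G K Φ Θ z 0 := fun ε hε =>
    ⟨ε, hε, fun w hw hwz => ⟨w, hw, by rw [A.zero z hz]; exact hwz, rfl⟩⟩
  have h1 : t ∈ {t | t9box_G K Φ Θ z t} := by
    rw [hcl.eq_univ ⟨0, h0⟩]; trivial
  exact h1 ε hε

lemma t9box_lc (K : Set ℍ) : LC K fun _ => (0 : ℝ) := fun _ _ => Eventually.of_forall fun _ => rfl

lemma t9box_not (A : Lam Γ K Φ V) (γ : Γ) {w : ℍ} (hw : w ∉ K) : γ • w ∉ K := fun h =>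
  hw (by simpa using A.smul γ⁻¹ _ h)

lemma Aper.mem_closure (F : Deck Γ) (A : Aper Γ K Φ V) (hz : z ∈ K) : z ∈ closure Kᶜ := by
  have hne : (K ∩ closure Kᶜ).Nonempty := by
    by_contra h0
    have h1 : IsClosed Kᶜ := by
      rw [← closure_subset_iff_isClosed]
      intro x hx hk
      exact h0 ⟨x, hk, hx⟩
    have h2 : IsClopen K := ⟨A.closed, isClosed_compl_iff.1 h1⟩
    exact A.nuniv (h2.eq_univ A.ne)
  have h3 := A.min (K ∩ closure Kᶜ) Set.inter_subset_left hne (A.closed.inter isClosed_closure)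
    (fun γ x hx => ⟨A.smul γ x hx.1,
      map_mem_closure (F.cont γ) hx.2 fun w hw => t9box_not A.toLam γ hw⟩)
    (fun t x hx => ⟨A.map t x hx.1, Metric.mem_closure_iff.2 fun ε hε => by
      obtain ⟨δ, hδ, h1⟩ := A.transport (t9box_lc K) hx.1 t (ε := ε / 2) (by positivity)
      obtain ⟨w, hw, h2⟩ := Metric.mem_closure_iff.1 hx.2 δ hδ
      obtain ⟨w', k1, k2, -⟩ := h1 w hw (by rw [dist_comm]; exact h2.le)
      exact ⟨w', k1, by rw [dist_comm]; linarith⟩⟩)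
  rw [← h3] at hz
  exact hz.2

lemma Aper.gap_line (F : Deck Γ) (A : Aper Γ K Φ V) (H : Cht K Φ V p d r) {y y' : ℝ}
    (h1 : -(r / 2) ≤ y) (h2 : y < y') (h3 : y' ≤ r / 2) :
    ∃ w : ℍ, w ∉ K ∧ (co p d w).re = 0 ∧ (co p d w).im ∈ Set.Ioo y y' := by
  have hr := H.pos
  set ζ : ℂ := (((y + y') / 2 : ℝ) : ℂ) * Complex.I with hζ
  have ζre : ζ.re = 0 := by simp [hζ]
  have ζim : ζ.im = (y + y') / 2 := by simp [hζ]
  have c1 : |ζ.re| ≤ r / 2 := by rw [ζre, abs_zero]; linarith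
  have c2 : |ζ.im| ≤ r / 2 := by rw [ζim]; exact abs_le.2 ⟨by linarith, by linarith⟩
  have cx := t9box_co H (c1.trans (by linarith)) (c2.trans (by linarith))
  set x := t9box_pt p d ζ
  by_cases hx : x ∈ K
  · obtain ⟨ε, hε, he⟩ := t9box_cont p d x (η := (y' - y) / 4) (by linarith)
    obtain ⟨δ, hδ, hd⟩ := H.transport A.toLam (t9box_lc K) hx
      (by simp only [InB, cx]; exact ⟨c1, c2⟩) (a := 0) (by rw [abs_zero]; linarith) hε
    rw [A.zero x hx] at hd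
    obtain ⟨w, hw, k0⟩ := Metric.mem_closure_iff.1 (A.mem_closure F hx) δ hδ
    obtain ⟨w', k1, k2, k3, -⟩ := hd w hw (by rw [dist_comm]; exact k0.le)
    have k4 := (Complex.abs_im_le_norm _).trans (he w' k2)
    rw [Complex.sub_im, cx, ζim] at k4
    have k5 := abs_le.1 k4
    exact ⟨w', k1, by rw [k3, cx, ζre], by linarith [k5.1], by linarith [k5.2]⟩
  · exact ⟨x, hx, by rw [cx, ζre], by rw [cx, ζim]; linarith, by rw [cx, ζim]; linarith⟩

lemma t9box_rat (x : ℝ) {ε : ℝ} (hε : 0 < ε) : ∃ y : ℝ, (∃ q : ℚ, y = q) ∧ |y - x| ≤ ε := by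
  obtain ⟨q, h1, h2⟩ := exists_rat_btwn (show x < x + ε by linarith)
  exact ⟨q, ⟨q, rfl⟩, abs_le.2 ⟨by linarith, by linarith⟩⟩

lemma t9box_rat' {ε : ℝ} (hε : 0 < ε) : ∃ y : ℝ, (∃ q : ℚ, y = q) ∧ 0 < y ∧ y ≤ ε := by
  obtain ⟨q, h1, h2⟩ := exists_rat_btwn hε
  exact ⟨q, ⟨q, rfl⟩, h1, h2.le⟩

lemma t9box_ratC (x : ℂ) {ε : ℝ} (hε : 0 < ε) :
    ∃ y : ℂ, (∃ q : ℚ, y.re = q) ∧ (∃ q : ℚ, y.im = q) ∧ ‖y - x‖ ≤ ε := by
  obtain ⟨a, ha, h1⟩ := t9box_rat x.re (ε := ε / 2) (by positivity)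
  obtain ⟨b, hb, h2⟩ := t9box_rat x.im (ε := ε / 2) (by positivity)
  refine ⟨⟨a, b⟩, ha, hb, ?_⟩
  have := t9box_norm ((⟨a, b⟩ : ℂ) - x) (a := ε / 2) (b := ε / 2) h1 h2
  linarith

/-- A point of a gap has a vertical neighbourhood in the gap. -/
lemma t9box_open (A : Lam Γ K Φ V) (H : Cht K Φ V p d r) {w : ℍ} (hw : w ∉ K) (hb : InB p d r w) :
    ∃ μ : ℝ, 0 < μ ∧ ∀ x ∈ K, (co p d x).re = (co p d w).re →
      μ < |(co p d x).im - (co p d w).im| := by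
  obtain ⟨ε, hε, h1⟩ := Metric.isOpen_iff.1 A.closed.isOpen_compl w hw
  obtain ⟨μ, hμ, h2⟩ := t9box_cont' H hb (ε := ε / 2) (by positivity)
  refine ⟨μ, hμ, fun x hx h3 => lt_of_not_ge fun h4 => ?_⟩
  have h5 := t9box_norm (co p d x - co p d w) (a := 0) (b := μ) (by simp [h3]) h4
  have h6 := h2 (co p d x) (by linarith)
  rw [t9box_pt_co H.ne] at h6
  exact h1 (show x ∈ Metric.ball w ε by rw [Metric.mem_ball]; linarith) hx

theorem Aper.exists_sec (F : Deck Γ) (A : Aper Γ K Φ V) : ∃ R : ℝ, ∀ ρ : ℝ, 0 < ρ →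
    ∃ (q : Bx) (r : ℝ), r ≤ ρ ∧ Sec Γ K Φ V q r ∧ ∀ z : ℍ, InB q.p q.d r z → dist z I ≤ R := by
  obtain ⟨z₀, hz₀⟩ := A.ne
  obtain ⟨ι, hι, hinj⟩ := F.inj
  have hV := A.ne_zero hz₀
  obtain ⟨ε, r₀, hε, hr₀, hc⟩ := A.toLam.exists_cht hz₀ hV
    (O := Metric.ball z₀ (ι / 3)) (Metric.ball_mem_nhds _ (by positivity))
  refine ⟨ι / 3 + dist z₀ I, fun ρ hρ => ?_⟩
  obtain ⟨r, hr, r1, r2⟩ : ∃ r : ℝ, 0 < r ∧ r ≤ r₀ ∧ r ≤ ρ :=
    ⟨Min.min r₀ ρ, lt_min hr₀ hρ, min_le_left _ _, min_le_right _ _⟩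
  obtain ⟨d, d1, d2, d3⟩ := t9box_ratC (V z₀) hε
  have hd : d ≠ 0 := (hc z₀ d (by simpa using hε.le) d3).1.ne
  have hd' : 0 < ‖d‖ := norm_pos_iff.2 hd
  obtain ⟨p, p1, p2, p3⟩ := t9box_ratC z₀ (ε := Min.min ε (r / 100 * ‖d‖))
    (lt_min hε (by positivity))
  obtain ⟨H₀, hO⟩ := hc p d (p3.trans (min_le_left _ _)) d3
  have H := H₀.mono hr r1
  have hO' : ∀ w : ℍ, InB p d r w → dist w z₀ < ι / 3 := fun w hw =>
    hO w ⟨hw.1.trans r1, hw.2.trans r1⟩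
  have c0 : ‖co p d z₀‖ ≤ r / 100 := by
    rw [co, norm_div, div_le_iff₀ hd', norm_sub_rev]
    exact p3.trans (min_le_right _ _)
  have c1 := (Complex.abs_re_le_norm _).trans c0
  have c2 := (Complex.abs_im_le_norm _).trans c0
  have c1' : |0 - (co p d z₀).re| ≤ r / 100 := by rw [zero_sub, abs_neg]; exact c1
  obtain ⟨t, -, t2, t3⟩ := H.hit A.toLam hz₀ ⟨c1.trans (by linarith), c2.trans (by linarith)⟩
    (X := 0) (by linarith)
  have t4 : |(co p d (Φ t z₀)).im| ≤ r / 80 := t9box_abs c2 t3 (by linarith)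
  have t5 := abs_le.1 t4
  obtain ⟨w₁, g1, g2, g3, g4⟩ := A.gap_line F H (y := -(r / 10)) (y' := -(r / 20))
    (by linarith) (by linarith) (by linarith)
  obtain ⟨w₂, j1, j2, j3, j4⟩ := A.gap_line F H (y := r / 20) (y' := r / 10)
    (by linarith) (by linarith) (by linarith)
  obtain ⟨μ₁, hμ₁, k1⟩ := t9box_open A.toLam H g1
    ⟨by rw [g2, abs_zero]; linarith, abs_le.2 ⟨by linarith, by linarith⟩⟩
  obtain ⟨μ₂, hμ₂, k2⟩ := t9box_open A.toLam H j1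
    ⟨by rw [j2, abs_zero]; linarith, abs_le.2 ⟨by linarith, by linarith⟩⟩
  obtain ⟨μ, hμ, n1, n2, n3⟩ : ∃ μ : ℝ, 0 < μ ∧ μ ≤ μ₁ ∧ μ ≤ μ₂ ∧ μ ≤ r / 100 :=
    ⟨Min.min μ₁ (Min.min μ₂ (r / 100)), lt_min hμ₁ (lt_min hμ₂ (by positivity)), min_le_left _ _,
      (min_le_right _ _).trans (min_le_left _ _), (min_le_right _ _).trans (min_le_right _ _)⟩
  obtain ⟨e, e1, e2, e3⟩ := t9box_rat' (ε := μ / 10) (by positivity)
  obtain ⟨a, a1, a2⟩ := t9box_rat (co p d w₁).im (ε := μ / 10) (by positivity)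
  obtain ⟨b, b1, b2⟩ := t9box_rat (co p d w₂).im (ε := μ / 10) (by positivity)
  have a3 := abs_le.1 a2
  have b3 := abs_le.1 b2
  refine ⟨⟨p, d, e, a, b, e⟩, r, r2, ⟨⟨hd, e2, e2, by simp only; linarith, ?_, ?_⟩, H, ?_, le_rfl,
    by simp only; linarith, by simp only; linarith, by simp only; linarith, ?_, ?_⟩, ?_⟩
  · intro x hx
    simp only [Bx.supp, Set.mem_ofPred_eq, Set.mem_Icc] at hx
    exact H.sub x ⟨hx.1.trans (by linarith), abs_le.2 ⟨by linarith [hx.2.1], by linarith [hx.2.2]⟩⟩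
  · intro y hy
    simp only [Set.mem_insert_iff, Set.mem_singleton_iff] at hy
    rcases hy with rfl | rfl | rfl | rfl | rfl | rfl | rfl | rfl <;> assumption
  · intro γ x h1 h2
    apply hinj γ x
    have h3 := hO' x h1
    have h4 := hO' _ h2
    have h5 := dist_triangle_right (γ • x) x z₀
    linarith
  · intro x hx h1 h2
    simp only [Bx.ht, Set.mem_Icc, Set.mem_Ioo] at h1 h2 ⊢
    have h3 := k1 x hx (h1.trans g2.symm)
    have h4 := k2 x hx (h1.trans j2.symm)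
    constructor
    · refine lt_of_not_ge fun h5 => absurd h3 (not_lt.2 (abs_le.2 ⟨?_, ?_⟩)) <;> linarith [h2.1]
    · refine lt_of_not_ge fun h5 => absurd h4 (not_lt.2 (abs_le.2 ⟨?_, ?_⟩)) <;> linarith [h2.2]
  · refine ⟨Φ t z₀, A.map t z₀ hz₀, t2, ?_⟩
    simp only [Bx.ht, Set.mem_Icc]
    constructor <;> linarith [t5.1, t5.2]
  · intro x hx
    have h3 := hO' x hx
    have h4 := dist_triangle x z₀ I
    linarith

/-- Points of a gap near a point of the transversal can be moved to the transversal. -/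
lemma t9box_near (A : Lam Γ K Φ V) {q : Bx} (S : Sec Γ K Φ V q r) (h : LC K Θ) {x : ℍ}
    (hx : x ∈ K ∩ q.ln) {ε : ℝ} (hε : 0 < ε) : ∃ δ : ℝ, 0 < δ ∧ ∀ w, w ∉ K → dist w x ≤ δ →
      ∃ u ∈ q.ln, u ∉ K ∧ |q.ht u - q.ht x| ≤ ε ∧ Θ u = Θ w := by
  have hr := S.cht.pos
  have he := S.ok.e
  have h1 := hx.2.1
  have h2 := hx.2.2
  have lo := S.lo
  have hi := S.hi
  have h3 := S.gap x hx.1 h1 ⟨by linarith [h2.1], by linarith [h2.2]⟩
  obtain ⟨η, hη, η1, η2, η3⟩ : ∃ η : ℝ, 0 < η ∧ η ≤ ε ∧ η ≤ q.ht x - q.a ∧ η ≤ q.b - q.ht x :=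
    ⟨min ε (min (q.ht x - q.a) (q.b - q.ht x)),
      lt_min hε (lt_min (by linarith [h3.1]) (by linarith [h3.2])), min_le_left _ _,
      (min_le_right _ _).trans (min_le_left _ _), (min_le_right _ _).trans (min_le_right _ _)⟩
  obtain ⟨ε', hε', k⟩ := t9box_cont q.p q.d x hη
  have hb : InB q.p q.d (r / 2) x :=
    ⟨by rw [h1, abs_zero]; linarith, abs_le.2 ⟨by
      have : q.a ≤ (co q.p q.d x).im := h2.1
      linarith, by
      have : (co q.p q.d x).im ≤ q.b := h2.2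
      linarith⟩⟩
  obtain ⟨δ, hδ, hd⟩ := S.cht.transport A h hx.1 hb (a := 0) (by rw [abs_zero]; linarith) hε'
  rw [A.zero x hx.1] at hd
  refine ⟨δ, hδ, fun w hw hwx => ?_⟩
  obtain ⟨u, u1, u2, u3, u4⟩ := hd w hw hwx
  have u5 : |q.ht u - q.ht x| ≤ η := by
    have := (Complex.abs_im_le_norm _).trans (k u u2)
    rw [Complex.sub_im] at this
    exact this
  have u6 := abs_le.1 u5
  exact ⟨u, ⟨u3.trans h1, by linarith [u6.1], by linarith [u6.2]⟩, u1, u5.trans η1, u4⟩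

/-- Gap points near the two ends of an orbit segment. -/
theorem Aper.star (F : Deck Γ) (A : Aper Γ K Φ V) {q : Bx} (S : Sec Γ K Φ V q r) (h : LC K Θ)
    {b : Γ → ℝ} (he : ∀ (γ : Γ) (z : ℍ), z ∉ K → Θ (γ • z) = Θ z + b γ) {x x' : ℍ}
    (hx : x ∈ K ∩ q.ln) (hx' : x' ∈ K ∩ q.ln) {T : ℝ} {γ : Γ} (e : Φ T x = γ • x') {ε : ℝ}
    (hε : 0 < ε) : ∃ u ∈ q.ln, ∃ u' ∈ q.ln, u ∉ K ∧ u' ∉ K ∧ |q.ht u - q.ht x| ≤ ε ∧
      |q.ht u' - q.ht x'| ≤ ε ∧ Θ u = Θ u' + b γ := by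
  obtain ⟨δ₁, hδ₁, h1⟩ := t9box_near A.toLam S h hx hε
  obtain ⟨δ₂, hδ₂, h2⟩ := t9box_near A.toLam S h hx' hε
  obtain ⟨δ₃, hδ₃, h3⟩ := A.transport h hx.1 T hδ₂
  obtain ⟨w, hw, k0⟩ := Metric.mem_closure_iff.1 (A.mem_closure F hx.1) _ (lt_min hδ₁ hδ₃)
  rw [dist_comm] at k0
  obtain ⟨u, u1, u2, u3, u4⟩ := h1 w hw (k0.le.trans (min_le_left _ _))
  obtain ⟨w', k1, k2, k3⟩ := h3 w hw (k0.le.trans (min_le_right _ _))
  have k4 : γ⁻¹ • w' ∉ K := t9box_not A.toLam _ k1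
  have k5 : dist (γ⁻¹ • w') x' ≤ δ₂ := by
    rw [← F.iso γ, smul_inv_smul, ← e]; exact k2
  obtain ⟨u', v1, v2, v3, v4⟩ := h2 _ k4 k5
  have k6 := he γ _ k4
  rw [smul_inv_smul] at k6
  exact ⟨u, u1, u', v1, u2, v2, u3, v3, by rw [u4, ← k3, k6, v4]⟩

end Pool.Agent.Lib.MP_5bb885_an.Gen
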