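import Pool.Agent.Lib.MP_5bb885_an.T9Lam

/-!
Flow boxes.
-/

namespace Pool.Agent.Lib.MP_5bb885_an.Gen

open UpperHalfPlane MeasureTheory Filter Topology

variable {Γ : Type} [Group Γ] [MulAction Γ ℍ] {K : Set ℍ} {Φ : ℝ → ℍ → ℍ} {V : ℍ → ℂ} {z w : ℍ}
  {p d : ℂ} {r : ℝ}

lemma co_sub (p d z w : ℂ) : co p d z - co p d w = (z - w) / d := by
  simp only [co]
  ring

lemma continuous_co (p d : ℂ) : Continuous (co p d) := by
  unfold co
  fun_prop

lemma t9cht_norm (hd : d ≠ 0) {ζ : ℂ} (h : InB p d r ζ) : ‖ζ - p‖ ≤ 2 * r * ‖d‖ := by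
  have h1 : ‖co p d ζ‖ ≤ 2 * r := by
    have := Complex.norm_le_abs_re_add_abs_im (co p d ζ)
    linarith [h.1, h.2]
  rw [co, norm_div, div_le_iff₀ (norm_pos_iff.2 hd)] at h1
  exact h1

lemma isCompact_InB (hd : d ≠ 0) (p : ℂ) (r : ℝ) : IsCompact {z : ℂ | InB p d r z} := by
  refine (isCompact_closedBall p (2 * r * ‖d‖)).of_isClosed_subset ?_ ?_
  · have hc := continuous_co p d
    exact (isClosed_le (Complex.continuous_re.comp hc).abs continuous_const).inter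
      (isClosed_le (Complex.continuous_im.comp hc).abs continuous_const)
  · intro ζ hζ
    rw [mem_closedBall_iff_norm]
    exact t9cht_norm hd hζ

lemma Cht.mono (H : Cht K Φ V p d r) {r' : ℝ} (h0 : 0 < r') (h : r' ≤ r) : Cht K Φ V p d r' :=
  ⟨H.ne, h0, fun z hz => H.sub z ⟨hz.1.trans h, hz.2.trans h⟩,
    fun z hz hb t ht => H.vel z hz ⟨hb.1.trans h, hb.2.trans h⟩ t (by linarith)⟩

lemma t9cht_nhds {O : Set ℍ} (hO : O ∈ 𝓝 z) :
    ∃ δ : ℝ, 0 < δ ∧ ∀ w : ℍ, ‖(w : ℂ) - z‖ ≤ δ → w ∈ O := by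
  rw [isOpenEmbedding_coe.isInducing.nhds_eq_comap, mem_comap] at hO
  obtain ⟨S, hS, hSO⟩ := hO
  obtain ⟨δ, hδ, hb⟩ := Metric.nhds_basis_closedBall.mem_iff.1 hS
  exact ⟨δ, hδ, fun w hw => hSO (hb (mem_closedBall_iff_norm.2 hw))⟩

/-- Flow boxes around a point where the field does not vanish. -/
lemma Lam.exists_cht (A : Lam Γ K Φ V) (hz : z ∈ K) (h : V z ≠ 0) {O : Set ℍ} (hO : O ∈ 𝓝 z) :
    ∃ ε r₀ : ℝ, 0 < ε ∧ 0 < r₀ ∧ ∀ p d : ℂ, ‖p - z‖ ≤ ε → ‖d - V z‖ ≤ ε →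
      Cht K Φ V p d r₀ ∧ ∀ w : ℍ, InB p d r₀ w → w ∈ O := by
  have hm : 0 < ‖V z‖ := norm_pos_iff.2 h
  have hc : ContinuousOn (fun q : ℝ × ℍ => V (Φ q.1 q.2)) (Set.univ ×ˢ K) :=
    A.contV.comp A.cont fun q hq => A.map q.1 q.2 hq.2
  have h1 := hc (0, z) ⟨trivial, hz⟩
  have h2 : ∀ᶠ q : ℝ × ℍ in 𝓝[Set.univ ×ˢ K] (0, z), ‖V (Φ q.1 q.2) - V z‖ ≤ ‖V z‖ / 40 := by
    have h3 := h1.eventually (Metric.closedBall_mem_nhds _ (show 0 < ‖V z‖ / 40 by positivity))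
    simp only [A.zero z hz, dist_eq_norm] at h3
    exact h3
  rw [eventually_nhdsWithin_iff, nhds_prod_eq] at h2
  obtain ⟨S, hS, U, hU, hSU⟩ := eventually_prod_iff.1 h2
  obtain ⟨δ₁, hδ₁, hb₁⟩ := Metric.nhds_basis_closedBall.mem_iff.1 hS
  obtain ⟨δ₂, hδ₂, hb₂⟩ := t9cht_nhds (inter_mem hU hO)
  have hzi := z.im_pos
  obtain ⟨δ, hδ, e1, e2⟩ : ∃ δ : ℝ, 0 < δ ∧ δ ≤ δ₂ ∧ δ ≤ z.im / 2 :=
    ⟨min δ₂ (z.im / 2), by positivity, min_le_left _ _, min_le_right _ _⟩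
  refine ⟨min (δ / 2) (‖V z‖ / 40), min (δ₁ / 10) (δ / (8 * ‖V z‖)), by positivity, by positivity,
    fun p d hp hd => ?_⟩
  have hp' : ‖p - z‖ ≤ δ / 2 := hp.trans (min_le_left _ _)
  have hd' : ‖d - V z‖ ≤ ‖V z‖ / 40 := hd.trans (min_le_right _ _)
  have hd1 : ‖d‖ ≤ 2 * ‖V z‖ := by
    have := norm_sub_norm_le d (V z)
    linarith
  have hd2 : ‖V z‖ / 2 ≤ ‖d‖ := by
    have := norm_sub_norm_le (V z) d
    rw [norm_sub_rev] at this
    linarith
  have hd0 : d ≠ 0 := norm_pos_iff.1 (by linarith)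
  have near : ∀ ζ : ℂ, InB p d (min (δ₁ / 10) (δ / (8 * ‖V z‖))) ζ → ‖ζ - z‖ ≤ δ := by
    intro ζ hζ
    have a1 := t9cht_norm hd0 hζ
    have a2 : min (δ₁ / 10) (δ / (8 * ‖V z‖)) * ‖d‖ ≤ δ / (8 * ‖V z‖) * (2 * ‖V z‖) :=
      mul_le_mul (min_le_right _ _) hd1 (norm_nonneg _) (by positivity)
    have a3 : δ / (8 * ‖V z‖) * (2 * ‖V z‖) = δ / 4 := by
      field_simp
      norm_num
    have a4 := norm_sub_le_norm_sub_add_norm_sub ζ p z
    linarith
  refine ⟨⟨hd0, by positivity, fun ζ hζ => ?_, fun w hw hb t ht => ?_⟩,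
    fun w hb => (hb₂ w ((near w hb).trans e1)).2⟩
  · have a1 := (Complex.abs_im_le_norm (ζ - z)).trans (near ζ hζ)
    rw [Complex.sub_im, coe_im] at a1
    linarith [(abs_le.1 a1).1]
  · have a1 : t ∈ Metric.closedBall (0 : ℝ) δ₁ := by
      rw [mem_closedBall_zero_iff, Real.norm_eq_abs]
      linarith [min_le_left (δ₁ / 10) (δ / (8 * ‖V z‖))]
    have a2 := hSU (hb₁ a1) (hb₂ w ((near w hb).trans e1)).1 ⟨trivial, hw⟩
    have a3 := norm_sub_le_norm_sub_add_norm_sub (V (Φ t w)) (V z) d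
    rw [norm_sub_rev (V z) d] at a3
    rw [div_sub_one hd0, norm_div, div_le_iff₀ (norm_pos_iff.2 hd0)]
    simp only at a2
    linarith

lemma Cht.move (A : Lam Γ K Φ V) (H : Cht K Φ V p d r) (hz : z ∈ K) (hb : InB p d r z) {s t : ℝ}
    (hs : |s| ≤ 10 * r) (ht : |t| ≤ 10 * r) :
    ‖co p d (Φ t z) - co p d (Φ s z) - (t - s : ℝ)‖ ≤ |t - s| / 10 := by
  have hd : ∀ x ∈ Set.Icc (-(10 * r)) (10 * r),
      HasDerivWithinAt (fun x : ℝ => co p d (Φ x z) - (x : ℂ)) (V (Φ x z) / d - 1)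
        (Set.Icc (-(10 * r)) (10 * r)) x := fun x _ =>
    ((((A.deriv z hz x).sub_const p).div_const d).sub
      (Complex.ofRealCLM.hasDerivAt (x := x))).hasDerivWithinAt
  have h1 := (convex_Icc (-(10 * r)) (10 * r)).norm_image_sub_le_of_norm_hasDerivWithin_le hd
    (fun x hx => H.vel z hz hb x (abs_le.2 hx)) (abs_le.1 hs) (abs_le.1 ht)
  rw [Real.norm_eq_abs] at h1
  have e : co p d (Φ t z) - co p d (Φ s z) - (t - s : ℝ)
      = co p d (Φ t z) - t - (co p d (Φ s z) - s) := by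
    push_cast
    ring
  rw [e]
  linarith

lemma t9cht_re (A : Lam Γ K Φ V) (H : Cht K Φ V p d r) (hz : z ∈ K) (hb : InB p d r z) {s t : ℝ}
    (hs : |s| ≤ 10 * r) (ht : |t| ≤ 10 * r) :
    |(co p d (Φ t z)).re - (co p d (Φ s z)).re - (t - s)| ≤ |t - s| / 10 := by
  have := (Complex.abs_re_le_norm _).trans (H.move A hz hb hs ht)
  simpa only [Complex.sub_re, Complex.ofReal_re] using this

lemma t9cht_im (A : Lam Γ K Φ V) (H : Cht K Φ V p d r) (hz : z ∈ K) (hb : InB p d r z) {s t : ℝ}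
    (hs : |s| ≤ 10 * r) (ht : |t| ≤ 10 * r) :
    |(co p d (Φ t z)).im - (co p d (Φ s z)).im| ≤ |t - s| / 10 := by
  have := (Complex.abs_im_le_norm _).trans (H.move A hz hb hs ht)
  simpa only [Complex.sub_im, Complex.ofReal_im, sub_zero] using this

lemma t9cht_cont (A : Lam Γ K Φ V) (hz : z ∈ K) (p d : ℂ) :
    Continuous fun t => co p d (Φ t z) :=
  (continuous_co p d).comp (continuous_iff_continuousAt.2 fun t => (A.deriv z hz t).continuousAt)

lemma Cht.hit (A : Lam Γ K Φ V) (H : Cht K Φ V p d r) (hz : z ∈ K) (hb : InB p d r z) {X : ℝ}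
    (hX : |X - (co p d z).re| ≤ 9 * r) : ∃ t, |t| ≤ 10 / 9 * |X - (co p d z).re| ∧
      (co p d (Φ t z)).re = X ∧ |(co p d (Φ t z)).im - (co p d z).im| ≤ |X - (co p d z).re| / 9 := by
  have h0 : |(0 : ℝ)| ≤ 10 * r := by
    rw [abs_zero]
    linarith [H.pos]
  have hc : Continuous fun t => (co p d (Φ t z)).re :=
    Complex.continuous_re.comp (t9cht_cont A hz p d)
  have hT : 0 ≤ 10 / 9 * |X - (co p d z).re| := by positivity
  have a1 := t9cht_re A H hz hb h0 (t := 10 / 9 * |X - (co p d z).re|)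
    (by rw [abs_of_nonneg hT]; linarith)
  have a2 := t9cht_re A H hz hb h0 (t := -(10 / 9 * |X - (co p d z).re|))
    (by rw [abs_neg, abs_of_nonneg hT]; linarith)
  rw [A.zero z hz, sub_zero, abs_of_nonneg hT] at a1
  rw [A.zero z hz, sub_zero, abs_neg, abs_of_nonneg hT] at a2
  obtain ⟨t, ht, e⟩ := intermediate_value_Icc (show -(10 / 9 * |X - (co p d z).re|) ≤
      10 / 9 * |X - (co p d z).re| by linarith) hc.continuousOn
    (show X ∈ Set.Icc _ _ from ⟨by linarith [(abs_le.1 a2).2, neg_abs_le (X - (co p d z).re)],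
      by linarith [(abs_le.1 a1).1, le_abs_self (X - (co p d z).re)]⟩)
  have ht' := abs_le.2 ht
  refine ⟨t, ht', e, ?_⟩
  have a3 := t9cht_im A H hz hb h0 (t := t) (by linarith)
  rw [A.zero z hz, sub_zero] at a3
  linarith

lemma Cht.time_eq (A : Lam Γ K Φ V) (H : Cht K Φ V p d r) (hz : z ∈ K) (hb : InB p d r z)
    {s t : ℝ} (hs : |s| ≤ 10 * r) (ht : |t| ≤ 10 * r)
    (h : (co p d (Φ s z)).re = (co p d (Φ t z)).re) : s = t := by
  have a := t9cht_re A H hz hb hs ht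
  rw [h, sub_self, zero_sub, abs_neg] at a
  have b : |t - s| = 0 := by linarith [abs_nonneg (t - s)]
  rw [abs_eq_zero, sub_eq_zero] at b
  exact b.symm

/-- Orbits do not cross. -/
lemma Cht.order (A : Lam Γ K Φ V) (H : Cht K Φ V p d r) (hz : z ∈ K) (hw : w ∈ K)
    (hb : InB p d r z) (hb' : InB p d r w) (h1 : (co p d z).re = (co p d w).re)
    (h2 : (co p d z).im < (co p d w).im) {s t : ℝ} (hs : |s| ≤ 8 * r) (ht : |t| ≤ 8 * r)
    (h3 : (co p d (Φ s z)).re = (co p d (Φ t w)).re) :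
    (co p d (Φ s z)).im < (co p d (Φ t w)).im := by
  have hr := H.pos
  have h0 : |(0 : ℝ)| ≤ 10 * r := by
    rw [abs_zero]
    linarith
  have ex : ∀ σ : ℝ, ∃ τ : ℝ, |σ| ≤ 8 * r →
      |τ| ≤ 10 * r ∧ (co p d (Φ τ w)).re = (co p d (Φ σ z)).re := by
    intro σ
    by_cases hσ : |σ| ≤ 8 * r
    · have a1 := t9cht_re A H hz hb h0 (t := σ) (by linarith)
      rw [A.zero z hz, sub_zero, h1] at a1
      have a2 : |(co p d (Φ σ z)).re - (co p d w).re| ≤ 9 * r := by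
        have := abs_add_le ((co p d (Φ σ z)).re - (co p d w).re - σ) σ
        rw [sub_add_cancel] at this
        linarith
      obtain ⟨τ, b1, b2, -⟩ := H.hit A hw hb' a2
      exact ⟨τ, fun _ => ⟨by linarith, b2⟩⟩
    · exact ⟨0, fun h => absurd h hσ⟩
  choose τ hτ using ex
  have hsub : ∀ σ ∈ Set.uIcc 0 s, |σ| ≤ 8 * r := by
    intro σ hσ
    have := Set.abs_sub_left_of_mem_uIcc hσ
    rw [sub_zero, sub_zero] at this
    linarith
  have hcτ : ContinuousOn τ (Set.uIcc 0 s) := by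
    refine (LipschitzOnWith.of_dist_le_mul (K := 2) fun x hx y hy => ?_).continuousOn
    have a1 := t9cht_re A H hz hb (s := y) (t := x) (by linarith [hsub y hy])
      (by linarith [hsub x hx])
    have a2 := t9cht_re A H hw hb' (hτ y (hsub y hy)).1 (hτ x (hsub x hx)).1
    rw [(hτ y (hsub y hy)).2, (hτ x (hsub x hx)).2] at a2
    rw [Real.dist_eq, Real.dist_eq]
    have a3 := abs_sub_abs_le_abs_sub (τ x - τ y) ((co p d (Φ x z)).re - (co p d (Φ y z)).re)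
    have a4 := abs_sub_abs_le_abs_sub ((co p d (Φ x z)).re - (co p d (Φ y z)).re) (x - y)
    rw [abs_sub_comm] at a2
    simp only [NNReal.coe_ofNat]
    linarith [abs_nonneg (x - y)]
  have hch : ContinuousOn (fun σ => (co p d (Φ (τ σ) w)).im - (co p d (Φ σ z)).im)
      (Set.uIcc 0 s) :=
    ((Complex.continuous_im.comp (t9cht_cont A hw p d)).comp_continuousOn hcτ).sub
      (Complex.continuous_im.comp (t9cht_cont A hz p d)).continuousOn
  have h0' : |(0 : ℝ)| ≤ 8 * r := by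
    rw [abs_zero]
    linarith
  have e0 : τ 0 = 0 := H.time_eq A hw hb' (hτ 0 h0').1 h0 (by
    rw [(hτ 0 h0').2, A.zero z hz, A.zero w hw, h1])
  have es : τ s = t := H.time_eq A hw hb' (hτ s hs).1 (by linarith) (by rw [(hτ s hs).2, h3])
  by_contra hc
  obtain ⟨σ, hσ, e⟩ := intermediate_value_uIcc hch (show (0 : ℝ) ∈ Set.uIcc _ _ from
    Set.mem_uIcc.2 (Or.inr ⟨by rw [es]; linarith [not_lt.1 hc],
      by rw [e0, A.zero z hz, A.zero w hw]; linarith⟩))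
  have hσ' := hsub σ hσ
  have b1 : co p d (Φ (τ σ) w) = co p d (Φ σ z) :=
    Complex.ext (hτ σ hσ').2 (sub_eq_zero.1 e)
  have b2 : Φ (τ σ) w = Φ σ z := by
    have := co_sub p d (Φ (τ σ) w) (Φ σ z)
    rw [b1, sub_self, eq_comm, div_eq_zero_iff] at this
    exact UpperHalfPlane.ext (sub_eq_zero.1 (this.resolve_right H.ne))
  have b3 : Φ (-τ σ + σ) z = w := by
    rw [A.add _ _ z hz, ← b2, ← A.add _ _ w hw, neg_add_cancel, A.zero w hw]
  have c1 := t9cht_re A H hz hb h0 (t := σ) (by linarith)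
  have c2 := t9cht_re A H hw hb' h0 (hτ σ hσ').1
  rw [A.zero z hz, sub_zero] at c1
  rw [A.zero w hw, sub_zero, (hτ σ hσ').2, ← h1] at c2
  have c3 : |-τ σ + σ| ≤ 10 * r := by
    have := (hτ σ hσ').1
    rw [abs_le]
    constructor <;> linarith [abs_le.1 c1, abs_le.1 c2, (abs_le.1 c1).1, (abs_le.1 c1).2,
      (abs_le.1 c2).1, (abs_le.1 c2).2]
  have c4 := H.time_eq A hz hb c3 h0 (by rw [b3, A.zero z hz, h1])
  rw [c4, A.zero z hz] at b3
  rw [b3] at h2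
  exact lt_irrefl _ h2

end Pool.Agent.Lib.MP_5bb885_an.Gen
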