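import Pool.Agent.Lib.MP_5bb885_an.T9Core

/-!
Combinatorics of blocks and the lattice lemma.
-/

namespace Pool.Agent.Lib.MP_5bb885_an.Gen

open UpperHalfPlane MeasureTheory Filter Topology

lemma t9cmb_between {n a j b : ℕ} (h1 : a ≤ j) (h2 : j ≤ b) (h : a / n = b / n) :
    j / n = b / n :=
  le_antisymm (Nat.div_le_div_right h2) (h ▸ Nat.div_le_div_right h1)

/-- A set that meets every block at most once. -/
lemma t9cmb_once (n : ℕ) {N : ℕ} (s : Finset ℕ) (hs : s ⊆ Finset.range N)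
    (h : ∀ i ∈ s, ∀ j ∈ s, i < j → i / n ≠ j / n) : (s.card : ℝ) ≤ N / n + 1 := by
  have h1 : s.card ≤ (Finset.range (N / n + 1)).card :=
    Finset.card_le_card_of_injOn (· / n)
      (fun i hi => by
        have := Finset.mem_range.1 (hs hi)
        exact Finset.mem_coe.2 (Finset.mem_range.2 (Nat.lt_succ_of_le (Nat.div_le_div_right this.le))))
      fun i hi j hj hij => by
        rcases lt_trichotomy i j with h2 | h2 | h2
        · exact absurd hij (h i hi j hj h2)
        · exact h2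
        · exact absurd hij.symm (h j hj i hi h2)
  rw [Finset.card_range] at h1
  have h2 : (s.card : ℝ) ≤ (N / n : ℕ) + 1 := by exact_mod_cast h1
  linarith [Nat.cast_div_le (α := ℝ) (m := N) (n := n)]

/-- The block of `k` lies in `G`. -/
def t9cmbGood (n : ℕ) (G : Set ℕ) (k : ℕ) : Prop := ∀ j, j / n = k / n → j ∈ G

/-- The times between two elements of `E` of a good block. -/
def t9cmbW (n : ℕ) (G E : Set ℕ) : Set ℕ :=
  {k | t9cmbGood n G k ∧ (∃ a ∈ E, a ≤ k ∧ a / n = k / n) ∧ ∃ b ∈ E, k < b ∧ b / n = k / n}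

lemma t9cmb_left {n : ℕ} {G E : Set ℕ} {j : ℕ} (h1 : j ∈ t9cmbW n G E)
    (h2 : j ∉ (· + 1) '' t9cmbW n G E) : j ∈ E ∧ ∀ a ∈ E, a < j → a / n ≠ j / n := by
  obtain ⟨hg, ⟨a, ha, ha1, ha2⟩, b, hb, hb1, hb2⟩ := h1
  have H : ∀ a ∈ E, a < j → a / n ≠ j / n := fun a ha h3 h4 => by
    have h5 : (j - 1) / n = j / n := t9cmb_between (a := a) (by omega) (by omega) h4
    refine h2 ⟨j - 1, ⟨fun i hi => hg i (hi.trans h5), ⟨a, ha, by omega, h4.trans h5.symm⟩,
      b, hb, by omega, hb2.trans h5.symm⟩, ?_⟩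
    show j - 1 + 1 = j
    omega
  refine ⟨?_, H⟩
  rcases ha1.eq_or_lt with rfl | h3
  · exact ha
  · exact absurd ha2 (H a ha h3)

lemma t9cmb_right {n : ℕ} {G E : Set ℕ} {j : ℕ} (h1 : j ∈ (· + 1) '' t9cmbW n G E)
    (h2 : j ∉ t9cmbW n G E) : j ∈ E ∧ ∀ b ∈ E, j < b → j / n ≠ b / n := by
  obtain ⟨k, ⟨hg, ⟨a, ha, ha1, ha2⟩, b, hb, hb1, hb2⟩, rfl⟩ := h1
  have h5 : (k + 1) / n = k / n :=
    (t9cmb_between (a := k) (b := b) (by omega) (by omega) hb2.symm).trans hb2
  have H : ∀ b ∈ E, k + 1 < b → (k + 1) / n ≠ b / n := fun b hb h3 h4 =>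
    h2 ⟨fun i hi => hg i (hi.trans h5), ⟨a, ha, by dsimp only; omega, ha2.trans h5.symm⟩,
      b, hb, h3, h4.symm⟩
  refine ⟨?_, H⟩
  rcases (Nat.succ_le_of_lt hb1).eq_or_lt with h3 | h3
  · obtain rfl : k + 1 = b := h3
    exact hb
  · exact absurd (h5.trans hb2.symm) (H b hb h3)

open Classical in
lemma t9cmb_symm (n : ℕ) (G E : Set ℕ) (N : ℕ) :
    (((Finset.range N).filter
      (· ∈ symmDiff (t9cmbW n G E) ((· + 1) '' t9cmbW n G E))).card : ℝ) ≤ 2 * N / n + 2 := by
  set W := t9cmbW n G E with hW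
  have h1 := t9cmb_once n ((Finset.range N).filter fun j => j ∈ W ∧ j ∉ (· + 1) '' W)
    (Finset.filter_subset _ _) fun i hi j hj hij => by
      obtain ⟨-, h1, h2⟩ := Finset.mem_filter.1 hi
      obtain ⟨-, h3, h4⟩ := Finset.mem_filter.1 hj
      exact (t9cmb_left h3 h4).2 i (t9cmb_left h1 h2).1 hij
  have h2 := t9cmb_once n ((Finset.range N).filter fun j => j ∈ (· + 1) '' W ∧ j ∉ W)
    (Finset.filter_subset _ _) fun i hi j hj hij => by
      obtain ⟨-, h1, h2⟩ := Finset.mem_filter.1 hi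
      obtain ⟨-, h3, h4⟩ := Finset.mem_filter.1 hj
      exact (t9cmb_right h1 h2).2 j (t9cmb_right h3 h4).1 hij
  have h3 : ((Finset.range N).filter (· ∈ symmDiff W ((· + 1) '' W))).card ≤
      ((Finset.range N).filter fun j => j ∈ W ∧ j ∉ (· + 1) '' W).card +
        ((Finset.range N).filter fun j => j ∈ (· + 1) '' W ∧ j ∉ W).card := by
    refine le_trans (Finset.card_le_card fun j hj => ?_) (Finset.card_union_le _ _)
    obtain ⟨h4, h5⟩ := Finset.mem_filter.1 hj
    rcases Set.mem_symmDiff.1 h5 with h6 | h6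
    · exact Finset.mem_union_left _ (Finset.mem_filter.2 ⟨h4, h6⟩)
    · exact Finset.mem_union_right _ (Finset.mem_filter.2 ⟨h4, h6⟩)
  have h4 := (Nat.cast_le (α := ℝ)).2 h3
  rw [Nat.cast_add] at h4
  rw [mul_div_assoc]
  linarith

open Classical in
lemma t9cmb_notGood {n : ℕ} (hn : 0 < n) (G : Set ℕ) (N : ℕ) :
    ((Finset.range N).filter fun k => ¬ t9cmbGood n G k).card ≤
      n * (((Finset.range N).filter (· ∉ G)).card + 1) := by
  refine le_trans (Finset.card_le_mul_card_image_of_maps_to (f := (· / n))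
    (t := insert (N / n) (((Finset.range N).filter (· ∉ G)).image (· / n))) (fun k hk => ?_) n
    fun b _ => ?_) (Nat.mul_le_mul_left _ ((Finset.card_insert_le _ _).trans
      (Nat.succ_le_succ Finset.card_image_le)))
  · obtain ⟨h1, h2⟩ := Finset.mem_filter.1 hk
    simp only [t9cmbGood, not_forall] at h2
    obtain ⟨j, h3, h4⟩ := h2
    rw [Finset.mem_range] at h1
    by_cases h5 : j < N
    · exact Finset.mem_insert_of_mem (Finset.mem_image.2
        ⟨j, Finset.mem_filter.2 ⟨Finset.mem_range.2 h5, h4⟩, h3⟩)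
    · exact Finset.mem_insert.2 (Or.inl
        ((t9cmb_between (a := k) (b := j) h1.le (by omega) h3.symm).trans h3).symm)
  · refine le_trans (Finset.card_le_card (t := Finset.Ico (b * n) (b * n + n)) fun k hk => ?_)
      (by simp)
    obtain rfl := (Finset.mem_filter.1 hk).2
    exact Finset.mem_Ico.2 ⟨Nat.div_mul_le_self _ _, Nat.lt_div_mul_add hn⟩

open Classical in
/-- One level of the bootstrap. -/
lemma t9cmb_step (n : ℕ) {N : ℕ} (G : Set ℕ) {D : ℕ → ℝ} (hD : ∀ k, 0 ≤ D k) {η η' B : ℝ}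
    (hη : 0 < η') (h : ∑ k ∈ (Finset.range N).filter (· ∈ t9cmbW n G {k | D k ≤ η}), D k ≤ B * η') :
    (((Finset.range N).filter fun k => t9cmbGood n G k ∧ η' < D k).card : ℝ) ≤
      ((Finset.range N).filter fun k => t9cmbGood n G k ∧ η < D k).card + B + (N / n + 1) := by
  set W := t9cmbW n G {k | D k ≤ η} with hW
  have h1 := t9cmb_once n ((Finset.range N).filter
      fun j => D j ≤ η ∧ ∀ b, D b ≤ η → j < b → j / n ≠ b / n)
    (Finset.filter_subset _ _) fun i hi j hj hij =>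
      (Finset.mem_filter.1 hi).2.2 j (Finset.mem_filter.1 hj).2.1 hij
  have h2 : (((Finset.range N).filter fun k => k ∈ W ∧ η' < D k).card : ℝ) ≤ B := by
    refine le_of_mul_le_mul_right (le_trans ?_ h) hη
    calc _ = ∑ _k ∈ (Finset.range N).filter fun k => k ∈ W ∧ η' < D k, η' := by
          rw [Finset.sum_const, nsmul_eq_mul]
      _ ≤ ∑ k ∈ (Finset.range N).filter fun k => k ∈ W ∧ η' < D k, D k :=
          Finset.sum_le_sum fun k hk => (Finset.mem_filter.1 hk).2.2.le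
      _ ≤ _ := Finset.sum_le_sum_of_subset_of_nonneg
          (Finset.monotone_filter_right _ fun k _ hk => hk.1) fun k _ _ => hD k
  have h3 : ((Finset.range N).filter fun k => t9cmbGood n G k ∧ η' < D k).card ≤
      ((Finset.range N).filter fun k => t9cmbGood n G k ∧ η < D k).card +
        ((Finset.range N).filter fun k => k ∈ W ∧ η' < D k).card +
        ((Finset.range N).filter
          fun j => D j ≤ η ∧ ∀ b, D b ≤ η → j < b → j / n ≠ b / n).card := by
    refine le_trans (Finset.card_le_card fun k hk => ?_) ((Finset.card_union_le _ _).trans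
      (Nat.add_le_add_right (Finset.card_union_le _ _) _))
    obtain ⟨h4, h5, h6⟩ := Finset.mem_filter.1 hk
    simp only [Finset.mem_union, Finset.mem_filter]
    by_cases h7 : D k ≤ η
    · by_cases h8 : ∀ b, D b ≤ η → k < b → k / n ≠ b / n
      · exact Or.inr ⟨h4, h7, h8⟩
      · simp only [not_forall, not_not] at h8
        obtain ⟨b, h9, h10, h11⟩ := h8
        exact Or.inl (Or.inr ⟨h4, ⟨h5, ⟨k, h7, le_rfl, rfl⟩, b, h9, h10, h11.symm⟩, h6⟩)
    · exact Or.inl (Or.inl ⟨h4, h5, not_le.1 h7⟩)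
  have h4 := (Nat.cast_le (α := ℝ)).2 h3
  rw [Nat.cast_add, Nat.cast_add] at h4
  linarith

open Classical in
/-- The bootstrap over levels. -/
theorem cmb_levels {l : Filter ℕ} (hl : l ≤ atTop) (C η₀ : ℝ) (hη : 0 < η₀) (Λ : ℕ) :
    ∀ᶠ m : ℕ in atTop, ∀ (G : Set ℕ) (D : ℕ → ℝ), (∀ k, 0 ≤ D k) → (∀ k ∈ G, D k ≤ η₀) →
      (∀ᶠ N : ℕ in l, (((Finset.range N).filter (· ∉ G)).card : ℝ) ≤ N / (8 * m ^ 4)) →
      (∀ η : ℝ, 0 < η → η ≤ η₀ → ∀ W ⊆ G, (∀ j ∈ symmDiff W ((· + 1) '' W), D j ≤ η) →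
        (∀ N : ℕ, (((Finset.range N).filter (· ∈ symmDiff W ((· + 1) '' W))).card : ℝ) ≤
          2 * N / m ^ 4 + 2) →
        ∀ᶠ N : ℕ in atTop, ∑ k ∈ (Finset.range N).filter (· ∈ W), D k ≤ C * N * η / m ^ 2) →
      ∀ᶠ N : ℕ in l, (N : ℝ) / 2 ≤
        ((Finset.range N).filter fun k => k ∈ G ∧ D k ≤ η₀ / m ^ Λ).card := by
  filter_upwards [eventually_ge_atTop 1,
    tendsto_natCast_atTop_atTop.eventually_ge_atTop (8 * (Λ : ℝ) * (|C| + 1))] with
    m hm1 hm2 G D hD hG h1 h2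
  have hm : (1 : ℝ) ≤ m := by exact_mod_cast hm1
  have hm0 : (0 : ℝ) < m := by linarith
  have hn : 0 < m ^ 4 := by positivity
  have H : ∀ L : ℕ, ∀ᶠ N : ℕ in atTop, (((Finset.range N).filter
      fun k => t9cmbGood (m ^ 4) G k ∧ η₀ / m ^ L < D k).card : ℝ) ≤
        L * ((|C| + 1) * N / m + 1) := fun L => by
    induction L with
    | zero =>
      refine Eventually.of_forall fun N => ?_
      rw [Finset.filter_false_of_mem fun k _ hk => hk.2.not_ge (by simpa using hG k (hk.1 k rfl))]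
      simp
    | succ L ih =>
      have h3 := h2 (η₀ / m ^ L) (by positivity) (div_le_self hη.le (one_le_pow₀ hm))
        (t9cmbW (m ^ 4) G {k | D k ≤ η₀ / m ^ L}) (fun k hk => hk.1 k rfl)
        (fun j hj => by
          rcases Set.mem_symmDiff.1 hj with h | h
          · exact (t9cmb_left h.1 h.2).1
          · exact (t9cmb_right h.1 h.2).1)
        fun N => by
          have := t9cmb_symm (m ^ 4) G {k | D k ≤ η₀ / m ^ L} N
          rwa [Nat.cast_pow] at this
      filter_upwards [ih, h3] with N h4 h5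
      have h6 := t9cmb_step (m ^ 4) (N := N) G hD (η := η₀ / m ^ L) (η' := η₀ / m ^ (L + 1))
        (B := C * N / m) (by positivity) (h5.trans (le_of_eq (by field_simp; ring)))
      have h7 : C * N / m ≤ |C| * N / m := by gcongr; exact le_abs_self C
      have h8 : (N : ℝ) / (m ^ 4 : ℕ) ≤ N / m := by
        push_cast
        gcongr
        exact le_self_pow₀ hm (by norm_num)
      have h9 : (|C| + 1) * N / m = |C| * N / m + N / m := by ring
      push_cast at h6 h8 ⊢
      linarith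
  filter_upwards [h1, hl (H Λ),
    hl (tendsto_natCast_atTop_atTop.eventually_ge_atTop (4 * ((m : ℝ) ^ 4 + Λ)))] with N h3 h4 h5
  have h6 : (((Finset.range N).filter fun k => ¬ t9cmbGood (m ^ 4) G k).card : ℝ) ≤
      m ^ 4 * (((Finset.range N).filter (· ∉ G)).card + 1) := by
    exact_mod_cast t9cmb_notGood hn G N
  have h7 : (m : ℝ) ^ 4 * ((Finset.range N).filter (· ∉ G)).card ≤ N / 8 := by
    rw [le_div_iff₀ (by positivity)] at h3
    linarith
  have h8 : Λ * ((|C| + 1) * N / m) ≤ N / 8 := by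
    rw [← mul_div_assoc, div_le_div_iff₀ hm0 (by norm_num)]
    nlinarith [Nat.cast_nonneg (α := ℝ) N]
  have h9 : N ≤ ((Finset.range N).filter fun k => k ∈ G ∧ D k ≤ η₀ / m ^ Λ).card +
      ((Finset.range N).filter fun k => ¬ t9cmbGood (m ^ 4) G k).card +
      ((Finset.range N).filter fun k => t9cmbGood (m ^ 4) G k ∧ η₀ / m ^ Λ < D k).card := by
    refine le_trans ((Finset.card_range N).ge.trans (Finset.card_le_card fun k hk => ?_))
      ((Finset.card_union_le _ _).trans (Nat.add_le_add_right (Finset.card_union_le _ _) _))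
    simp only [Finset.mem_union, Finset.mem_filter]
    by_cases h10 : t9cmbGood (m ^ 4) G k
    · rcases le_or_gt (D k) (η₀ / m ^ Λ) with h11 | h11
      · exact Or.inl (Or.inl ⟨hk, h10 k rfl, h11⟩)
      · exact Or.inr ⟨hk, h10, h11⟩
    · exact Or.inl (Or.inr ⟨hk, h10⟩)
  have h10 := (Nat.cast_le (α := ℝ)).2 h9
  rw [Nat.cast_add, Nat.cast_add] at h10
  change _ ≤ _ at h4 h5
  linarith

open Classical in
/-- Three close visits in a short window. -/
lemma cmb_three {E : Set ℕ} {f : ℕ → ℝ} {δ : ℝ} (hδ : 0 < δ) (hf : ∀ k, f k ∈ Set.Icc (0 : ℝ) 1)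
    (h : ∃ᶠ N : ℕ in atTop, (N : ℝ) / 2 ≤ ((Finset.range N).filter (· ∈ E)).card) :
    ∃ i ∈ E, ∃ j ∈ E, ∃ k ∈ E, i < j ∧ j < k ∧ (k : ℝ) - i ≤ 8 / δ + 16 ∧
      |f i - f j| < δ ∧ |f j - f k| < δ := by
  set P := ⌊1 / δ⌋₊ + 1 with hP
  have hP0 : 0 < 8 * P := by omega
  obtain ⟨N, h1, h2⟩ := (h.and_eventually (eventually_gt_atTop (8 * P))).exists
  have h3 : N ≤ 2 * ((Finset.range N).filter (· ∈ E)).card := by
    have : (N : ℝ) ≤ 2 * ((Finset.range N).filter (· ∈ E)).card := by linarith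
    exact_mod_cast this
  obtain ⟨y, -, hy⟩ := Finset.exists_lt_card_fiber_of_mul_lt_card_of_maps_to
    (s := (Finset.range N).filter (· ∈ E)) (t := Finset.range (N / (8 * P) + 1) ×ˢ Finset.range P)
    (f := fun k => (k / (8 * P), ⌊f k / δ⌋₊)) (n := 2)
    (fun k hk => Finset.mem_product.2 ⟨Finset.mem_range.2 (Nat.lt_succ_of_le
        (Nat.div_le_div_right (Finset.mem_range.1 (Finset.mem_filter.1 hk).1).le)),
      Finset.mem_range.2 (Nat.lt_succ_of_le (Nat.floor_le_floor (by gcongr; exact (hf k).2)))⟩)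
    (by
      rw [Finset.card_product, Finset.card_range, Finset.card_range]
      nlinarith [Nat.div_mul_le_self N (8 * P)])
  set e := Finset.orderEmbOfCardLe _ (show 3 ≤ _ from hy) with he
  have hm : ∀ a, e a ∈ E ∧ e a / (8 * P) = y.1 ∧ ⌊f (e a) / δ⌋₊ = y.2 := fun a => by
    obtain ⟨h4, h5⟩ := Finset.mem_filter.1 (Finset.orderEmbOfCardLe_mem _ (show 3 ≤ _ from hy) a)
    exact ⟨(Finset.mem_filter.1 h4).2, congrArg Prod.fst h5, congrArg Prod.snd h5⟩
  have hc : ∀ a b, |f (e a) - f (e b)| < δ := fun a b => by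
    have h4 : ∀ a, (y.2 : ℝ) * δ ≤ f (e a) ∧ f (e a) < (y.2 + 1) * δ := fun a => by
      rw [← (hm a).2.2, ← le_div_iff₀ hδ, ← div_lt_iff₀ hδ]
      exact ⟨Nat.floor_le (div_nonneg (hf _).1 hδ.le), Nat.lt_floor_add_one _⟩
    rw [abs_sub_lt_iff]
    constructor <;> linarith [h4 a, h4 b]
  refine ⟨e 0, (hm 0).1, e 1, (hm 1).1, e 2, (hm 2).1, e.strictMono (by decide),
    e.strictMono (by decide), ?_, hc 0 1, hc 1 2⟩
  have h4 : e 2 < e 0 + 8 * P := by
    have h5 := Nat.lt_div_mul_add (a := e 2) hP0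
    have h6 := Nat.div_mul_le_self (e 0) (8 * P)
    rw [(hm 2).2.1] at h5
    rw [(hm 0).2.1] at h6
    omega
  have h5 : (e 2 : ℝ) < e 0 + 8 * (⌊1 / δ⌋₊ + 1) := by exact_mod_cast h4
  have h6 : (⌊1 / δ⌋₊ : ℝ) ≤ 1 / δ := Nat.floor_le (by positivity)
  have h7 : 8 / δ = 8 * (1 / δ) := by ring
  linarith

lemma t9cmb_int {u : ℕ → ℤ} (h : Tendsto (fun m => (u m : ℝ)) atTop (𝓝 0)) :
    ∀ᶠ m in atTop, u m = 0 := by
  filter_upwards [h.abs.eventually_lt_const (show |(0 : ℝ)| < 1 by simp)] with m hm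
  exact Int.abs_lt_one_iff.1 (by exact_mod_cast hm)

theorem lattice {r : ℕ} {ρ a : Fin r → ℝ} (h0 : ∑ i, a i * ρ i = 0) {v : ℕ → Fin r → ℤ}
    {T : ℕ → ℝ} {τ₁ C : ℝ} (hτ : 0 < τ₁) (h : ∀ᶠ m : ℕ in atTop, τ₁ ≤ T m ∧ T m ≤ C * m ^ 4 ∧
      ∀ i, |v m i - ρ i * T m| ≤ C / m ^ 6) : ∀ᶠ m : ℕ in atTop, ∑ i, a i * v m i = 0 := by
  obtain ⟨e, he⟩ : ∃ e : ℕ → Fin r → ℝ, ∀ m i, (v m i : ℝ) = ρ i * T m + e m i :=
    ⟨fun m i => v m i - ρ i * T m, fun m i => by ring⟩
  have h' : ∀ᶠ m : ℕ in atTop, τ₁ ≤ T m ∧ |T m| ≤ |C| * m ^ 4 ∧ ∀ i, |e m i| ≤ |C| / m ^ 6 := by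
    filter_upwards [h] with m ⟨h1, h2, h3⟩
    refine ⟨h1, ?_, fun i => ?_⟩
    · rw [abs_of_pos (hτ.trans_le h1)]
      exact h2.trans (by gcongr; exact le_abs_self C)
    · have := h3 i
      rw [he, add_sub_cancel_left] at this
      exact this.trans (by gcongr; exact le_abs_self C)
  have h'' := (tendsto_add_atTop_nat 1).eventually h'
  have hlim : ∀ B : ℝ, Tendsto (fun m : ℕ => B / m) atTop (𝓝 0) :=
    tendsto_const_div_atTop_nhds_zero_nat
  have e0 : ∀ i, Tendsto (fun m => e m i) atTop (𝓝 0) := fun i => by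
    refine squeeze_zero_norm' ?_ (hlim |C|)
    filter_upwards [h', eventually_ge_atTop 1] with m h1 h2
    have hm : (1 : ℝ) ≤ m := by exact_mod_cast h2
    exact (h1.2.2 i).trans (by gcongr; exact le_self_pow₀ hm (by norm_num))
  have e1 : ∀ i, Tendsto (fun m => e (m + 1) i) atTop (𝓝 0) := fun i =>
    (e0 i).comp (tendsto_add_atTop_nat 1)
  have e2 : ∀ i, Tendsto (fun m => T m * e (m + 1) i) atTop (𝓝 0) := fun i => by
    refine squeeze_zero_norm' ?_ (hlim (|C| * |C|))
    filter_upwards [h', h'', eventually_ge_atTop 1] with m h1 h2 h3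
    have hm : (1 : ℝ) ≤ m := by exact_mod_cast h3
    rw [Real.norm_eq_abs, abs_mul]
    calc _ ≤ |C| * m ^ 4 * (|C| / (m + 1 : ℕ) ^ 6) :=
          mul_le_mul h1.2.1 (h2.2.2 i) (abs_nonneg _) (by positivity)
      _ ≤ |C| * m ^ 4 * (|C| / m ^ 5) := by
          gcongr
          push_cast
          exact (pow_le_pow_right₀ hm (by norm_num)).trans
            (pow_le_pow_left₀ (by linarith) (by linarith) 6)
      _ = _ := by field_simp
  have e3 : ∀ i, Tendsto (fun m => T (m + 1) * e m i) atTop (𝓝 0) := fun i => by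
    refine squeeze_zero_norm' ?_ (hlim (16 * |C| * |C|))
    filter_upwards [h', h'', eventually_ge_atTop 1] with m h1 h2 h3
    have hm : (1 : ℝ) ≤ m := by exact_mod_cast h3
    rw [Real.norm_eq_abs, abs_mul]
    calc _ ≤ |C| * (m + 1 : ℕ) ^ 4 * (|C| / m ^ 6) :=
          mul_le_mul h2.2.1 (h1.2.2 i) (abs_nonneg _) (by positivity)
      _ ≤ |C| * (2 * m) ^ 4 * (|C| / m ^ 5) := by
          gcongr
          · push_cast
            linarith
          · norm_num
      _ = _ := by field_simp; norm_num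
  by_cases hρ : ∀ i, ρ i = 0
  · have h1 : ∀ᶠ m in atTop, ∀ i, v m i = 0 := eventually_all.2 fun i =>
      t9cmb_int (by simpa [he, hρ] using e0 i)
    filter_upwards [h1] with m hm
    simp [hm]
  obtain ⟨i, hi⟩ := not_forall.1 hρ
  have h1 : ∀ᶠ m in atTop, ∀ j, v m i * v (m + 1) j - v m j * v (m + 1) i = 0 :=
    eventually_all.2 fun j => t9cmb_int (by
      have := ((((((e2 j).const_mul (ρ i)).sub ((e2 i).const_mul (ρ j))).add
        ((e3 i).const_mul (ρ j))).sub ((e3 j).const_mul (ρ i))).add ((e0 i).mul (e1 j))).sub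
        ((e0 j).mul (e1 i))
      simp only [mul_zero, add_zero, sub_zero] at this
      refine this.congr fun m => ?_
      push_cast
      simp only [he]
      ring)
  have h2 : ∀ᶠ m in atTop, v m i ≠ 0 := by
    filter_upwards [h', (e0 i).abs.eventually_lt_const
      (show |(0 : ℝ)| < |ρ i| * τ₁ by simpa using mul_pos (abs_pos.2 hi) hτ)] with m h3 h4 h5
    have h6 : e m i = -(ρ i * T m) := by
      have := he m i
      rw [h5, Int.cast_zero] at this
      linarith
    rw [h6, abs_neg, abs_mul, abs_of_pos (hτ.trans_le h3.1)] at h4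
    exact h4.not_ge (mul_le_mul_of_nonneg_left h3.1 (abs_nonneg _))
  obtain ⟨M, hM⟩ := eventually_atTop.1 (h1.and h2)
  set s : ℕ → ℝ := fun m => ∑ j, a j * v m j with hs
  have h3 : ∀ m, M ≤ m → s m / v m i = s M / v M i := fun m hm => by
    induction m, hm using Nat.le_induction with
    | base => rfl
    | succ m hm ih =>
      rw [← ih, div_eq_div_iff (by exact_mod_cast (hM (m + 1) (by omega)).2)
        (by exact_mod_cast (hM m hm).2)]
      simp only [hs, Finset.sum_mul]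
      refine Finset.sum_congr rfl fun j _ => ?_
      have h4 : (v m i : ℝ) * v (m + 1) j - v m j * v (m + 1) i = 0 := by
        exact_mod_cast (hM m hm).1 j
      linear_combination a j * h4
  have h4 : Tendsto s atTop (𝓝 0) := by
    have := tendsto_finsetSum Finset.univ fun j _ => (e0 j).const_mul (a j)
    simp only [mul_zero, Finset.sum_const_zero] at this
    refine this.congr fun m => ?_
    simp only [hs, he, mul_add, Finset.sum_add_distrib, ← mul_assoc, ← Finset.sum_mul, h0]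
    simp
  have h5 : |s M / v M i| ≤ |0| := by
    refine ge_of_tendsto h4.abs ?_
    filter_upwards [eventually_ge_atTop M] with m hm
    rw [← h3 m hm, abs_div]
    refine div_le_self (abs_nonneg _) ?_
    exact_mod_cast Int.one_le_abs (hM m hm).2
  filter_upwards [eventually_ge_atTop M] with m hm
  have h6 := h3 m hm
  rw [abs_nonpos_iff.1 (h5.trans_eq abs_zero), div_eq_zero_iff] at h6
  exact h6.resolve_right (by exact_mod_cast (hM m hm).2)

end Pool.Agent.Lib.MP_5bb885_an.Gen
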