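import Pool.Agent.Lib.MP_5bb885_an.T9Defs

/-!
Internal definitions.
-/

namespace Pool.Agent.Lib.MP_5bb885_an.Gen

open UpperHalfPlane MeasureTheory Filter Topology

open scoped MatrixGroups

/-- Deck groups of closed surfaces covered by the upper half plane. -/
structure Deck (Γ : Type) [Group Γ] [MulAction Γ ℍ] : Prop where
  mob : ∀ γ : Γ, ∃ g : GL (Fin 2) ℝ, ∀ z : ℍ, γ • z = g • z
  free : ∀ (γ : Γ) (z : ℍ), γ • z = z → γ = 1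
  fin : ∀ R : ℝ, {γ : Γ | dist (γ • I) I ≤ R}.Finite
  cpt : ∃ R : ℝ, ∀ z : ℍ, ∃ γ : Γ, dist (γ • z) I ≤ R

/-- The upper half plane as a subset of `ℂ`. -/
def HP : Set ℂ := {w | 0 < w.im}

/-- Closed hyperbolic balls as subsets of `ℂ`. -/
def KB (R : ℝ) : Set ℂ := (fun z : ℍ => (z : ℂ)) '' Metric.closedBall I R

/-- Families of Lagrangians with uniform Tonelli bounds. -/
structure Unif (S : Set (ℂ × ℂ → ℝ)) : Prop where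
  smooth : ∀ L ∈ S, ContDiffOn ℝ 2 L TH
  sup : ∀ A : ℝ, ∃ B : ℝ, ∀ L ∈ S, ∀ (z : ℍ) (v : ℂ), A * (‖v‖ / z.im) - B ≤ L (z, v)
  up : ∀ r : ℝ, ∃ B : ℝ, ∀ L ∈ S, ∀ (z : ℍ) (v : ℂ), ‖v‖ / z.im ≤ r → L (z, v) ≤ B
  bd : ∀ R r : ℝ, ∃ M : ℝ, ∀ L ∈ S, ∀ z ∈ KB R, ∀ v : ℂ, ‖v‖ ≤ r →
    ‖fderiv ℝ L (z, v)‖ ≤ M ∧ ‖D2 L (z, v)‖ ≤ M
  cvx : ∀ R r : ℝ, ∃ m : ℝ, 0 < m ∧ ∀ L ∈ S, ∀ z ∈ KB R, ∀ v : ℂ, ‖v‖ ≤ r → ∀ w : ℂ,
    m * ‖w‖ ^ 2 ≤ D2 L (z, v) (0, w) (0, w)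

/-- Families of potentials with `C^2` bounds on compact sets. -/
def BddC2 (F : Set (ℂ → ℝ)) : Prop :=
  ∀ R : ℝ, ∃ M : ℝ, ∀ f ∈ F, ∀ z ∈ KB R,
    |f z| ≤ M ∧ ‖fderiv ℝ f z‖ ≤ M ∧ ‖fderiv ℝ (fderiv ℝ f) z‖ ≤ M

/-- Convergence to zero in the `C^2` sense on compact sets. -/
def ToZero (l : Filter ℕ) (f : ℕ → ℂ → ℝ) : Prop :=
  ∀ R ε : ℝ, 0 < ε → ∀ᶠ n in l, ∀ z ∈ KB R,
    |f n z| ≤ ε ∧ ‖fderiv ℝ (f n) z‖ ≤ ε ∧ ‖fderiv ℝ (fderiv ℝ (f n)) z‖ ≤ ε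

/-- The action of `L + k`. -/
noncomputable def ac (L : ℂ × ℂ → ℝ) (k : ℝ) (x : ℝ → ℍ) (s t : ℝ) : ℝ :=
  ∫ τ in s..t, (L (jet x τ) + k)

/-- Dominated functions. -/
def Dom (L : ℂ × ℂ → ℝ) (k : ℝ) (u : ℍ → ℝ) : Prop :=
  ∀ x s t, Adm L x s t → u (x t) - u (x s) ≤ ac L k x s t

/-- Calibrated curves. -/
def Cal (L : ℂ × ℂ → ℝ) (k : ℝ) (u : ℍ → ℝ) (x : ℝ → ℍ) : Prop :=
  ∀ s t, s < t → Adm L x s t ∧ u (x t) - u (x s) = ac L k x s t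

/-- The momentum along a curve. -/
noncomputable def mom (L : ℂ × ℂ → ℝ) (x : ℝ → ℍ) (t : ℝ) : ℂ →L[ℝ] ℝ :=
  Dv (fderiv ℝ L (jet x t))

/-- The force along a curve. -/
noncomputable def frc (L : ℂ × ℂ → ℝ) (x : ℝ → ℍ) (t : ℝ) : ℂ →L[ℝ] ℝ :=
  Dx (fderiv ℝ L (jet x t))

/-- The variation of the momentum. -/
noncomputable def dmom (L : ℂ × ℂ → ℝ) (x : ℝ → ℍ) (η : ℝ → ℂ) (t : ℝ) : ℂ →L[ℝ] ℝ :=
  Dv (D2 L (jet x t) (η t, deriv η t))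

/-- The linear Jacobi equation with coefficients `A`. -/
def JacA (A : ℝ → ℂ × ℂ →L[ℝ] ℂ × ℂ →L[ℝ] ℝ) (η : ℝ → ℂ) : Prop :=
  ∀ t, DifferentiableAt ℝ η t ∧
    HasDerivAt (fun s => Dv (A s (η s, deriv η s))) (Dx (A t (η t, deriv η t))) t

/-- Continuous coefficients, positive definite in the velocity. -/
def Coef (A : ℝ → ℂ × ℂ →L[ℝ] ℂ × ℂ →L[ℝ] ℝ) : Prop :=
  Continuous A ∧ ∀ t (w : ℂ), w ≠ 0 → 0 < A t (0, w) (0, w)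

/-- The normal component of a field along a curve. -/
noncomputable def nrm (x : ℝ → ℍ) (η : ℝ → ℂ) (t : ℝ) : ℝ := (η t / vel x t).im

/-- The tangential component of a field along a curve. -/
noncomputable def tng (x : ℝ → ℍ) (η : ℝ → ℂ) (t : ℝ) : ℝ := (η t / vel x t).re

/-- The normal part of a field along a curve. -/
noncomputable def nu (x : ℝ → ℍ) (η : ℝ → ℂ) (t : ℝ) : ℂ := η t - tng x η t • vel x t

/-- The boundary term of the second variation. -/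
noncomputable def bt (L : ℂ × ℂ → ℝ) (x : ℝ → ℍ) (η : ℝ → ℂ) (t : ℝ) : ℝ :=
  (dmom L x η t - tng x η t • frc L x t) (nu x η t)

/-- Solutions of class `C^2` of the Euler-Lagrange equation. -/
structure Reg (L : ℂ × ℂ → ℝ) (x : ℝ → ℍ) : Prop where
  el : EL L x
  acc : ∀ t, DifferentiableAt ℝ (vel x) t
  cont : Continuous (deriv (vel x))

/-- The set of points on calibrated curves. -/
def CS (L : ℂ × ℂ → ℝ) (k : ℝ) (u : ℍ → ℝ) : Set ℍ := {z | ∃ x, Cal L k u x ∧ x 0 = z}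

/-- Fields at bounded hyperbolic distance from the tangent line. -/
def Bdd (x : ℝ → ℍ) (η : ℝ → ℂ) : Prop :=
  ∃ C : ℝ, ∀ t, ∃ a : ℝ, ‖η t - a • vel x t‖ ≤ C * (x t).im

/-- Hyperbolicity: bounded Jacobi fields in the energy level are tangent. -/
def Hyp (L : ℂ × ℂ → ℝ) (x : ℝ → ℍ) : Prop :=
  ∀ η, Jac L x η → En L x η → Bdd x η → ∃ a : ℝ, ∀ t, η t = a • vel x t

/-- Nonnegative second variation with constant coefficients. -/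
def QPos (A : ℂ × ℂ →L[ℝ] ℂ × ℂ →L[ℝ] ℝ) : Prop :=
  ∀ (a b : ℝ) (ξ ξ' : ℝ → ℂ), a < b → (∀ t, HasDerivAt ξ (ξ' t) t) → Continuous ξ' → ξ a = 0 →
    ξ b = 0 → 0 ≤ ∫ t in a..b, A (ξ t, ξ' t) (ξ t, ξ' t)

/-- The form `2 ⟨a, a'⟩` in the position variables. -/
noncomputable def NN : ℂ × ℂ →L[ℝ] ℂ × ℂ →L[ℝ] ℝ :=
  (2 : ℝ) • (innerSL ℝ (E := ℂ)).bilinearComp (ContinuousLinearMap.fst ℝ ℂ ℂ)
    (ContinuousLinearMap.fst ℝ ℂ ℂ)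

/-- Degenerate nonnegative forms. -/
def Deg (A : ℂ × ℂ →L[ℝ] ℂ × ℂ →L[ℝ] ℝ) : Prop := QPos A ∧ ∀ τ : ℝ, 0 < τ → ¬QPos (A - τ • NN)

/-- There is a degenerate equilibrium. -/
def DegEq (L : ℂ × ℂ → ℝ) : Prop := ∃ z : ℍ, Dx (fderiv ℝ L (z, 0)) = 0 ∧ Deg (D2 L (z, 0))

/-- The projection to `[-1, 1]`. -/
noncomputable def clamp (y : ℝ) : ℝ := max (-1) (min 1 y)

/-- The uniform distribution on a cube. -/
noncomputable def cube : Measure (Fin 4 → ℝ) := ProbabilityTheory.cond volume (Set.Icc (-1) 1)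

instance cube_prob : IsProbabilityMeasure cube :=
  ProbabilityTheory.cond_isProbabilityMeasure_of_finite
    (by simp [Real.volume_Icc_pi]) (by simp [Real.volume_Icc_pi])

/-- A smooth cutoff equal to one on `[a, b]` and to zero outside `(a - e, b + e)`. -/
noncomputable def cut (a b e y : ℝ) : ℝ :=
  Real.smoothTransition ((y - a) / e + 1) * Real.smoothTransition ((b - y) / e + 1)

/-- Boxes. -/
structure Bx where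
  /-- centre -/
  p : ℂ
  /-- direction -/
  d : ℂ
  /-- width -/
  w : ℝ
  /-- bottom -/
  a : ℝ
  /-- top -/
  b : ℝ
  /-- margin -/
  e : ℝ

/-- The affine coordinate with centre `p` and direction `d`. -/
noncomputable def co (p d z : ℂ) : ℂ := (z - p) / d

/-- The test functions of a box. -/
noncomputable def Bx.fn (q : Bx) (j : Fin 4) (z : ℂ) : ℝ :=
  cut (-q.w) q.w q.w (co q.p q.d z).re * cut (q.a - q.e) (q.b + q.e) q.e (co q.p q.d z).im *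
    ![1, (co q.p q.d z).re, (co q.p q.d z).im, Complex.normSq (co q.p q.d z)] j

/-- The closed box that carries the test functions. -/
def Bx.supp (q : Bx) : Set ℂ :=
  {z | |(co q.p q.d z).re| ≤ 2 * q.w ∧ (co q.p q.d z).im ∈ Set.Icc (q.a - 2 * q.e) (q.b + 2 * q.e)}

/-- Boxes with rational data inside the upper half plane. -/
structure Bx.Ok (q : Bx) : Prop where
  ne : q.d ≠ 0
  w : 0 < q.w
  e : 0 < q.e
  ab : q.a < q.b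
  sub : q.supp ⊆ HP
  rat : ∀ y ∈ ({q.p.re, q.p.im, q.d.re, q.d.im, q.w, q.a, q.b, q.e} : Set ℝ), ∃ r : ℚ, y = r

/-- The model functions of a box. -/
noncomputable def Bx.md (q : Bx) (j : Fin 4) (z : ℂ) : ℝ :=
  ![1, (co q.p q.d z).re, (co q.p q.d z).im, Complex.normSq (co q.p q.d z)] j

/-- The countable set of rational boxes. -/
def OB : Type := {q : Bx // q.Ok}

/-- The parameter space of the random perturbation. -/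
abbrev Om : Type := OB → Fin 4 → ℝ

/-- The law of the random perturbation. -/
noncomputable def law : Measure Om := Measure.infinitePi fun _ => cube

/-- The square of radius `r` in the affine coordinate. -/
def InB (p d : ℂ) (r : ℝ) (z : ℂ) : Prop := |(co p d z).re| ≤ r ∧ |(co p d z).im| ≤ r

/-- Flow boxes. -/
structure Cht (K : Set ℍ) (Φ : ℝ → ℍ → ℍ) (V : ℍ → ℂ) (p d : ℂ) (r : ℝ) : Prop where
  ne : d ≠ 0
  pos : 0 < r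
  sub : ∀ z, InB p d r z → 0 < z.im
  vel : ∀ z ∈ K, InB p d r z → ∀ t, |t| ≤ 10 * r → ‖V (Φ t z) / d - 1‖ ≤ 1 / 10

/-- The height on the transversal of a box. -/
noncomputable def Bx.ht (q : Bx) (z : ℍ) : ℝ := (co q.p q.d z).im

/-- The line that carries the transversal of a box. -/
def Bx.ln (q : Bx) : Set ℍ := {z | (co q.p q.d z).re = 0 ∧ q.ht z ∈ Set.Icc q.a q.b}

/-- The signal of the forward half of a passage through a box. -/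
noncomputable def Jp (Φ : ℝ → ℍ → ℍ) (q : Bx) (κ : ℝ) (x : ℍ) : ℝ :=
  ∫ t in (0 : ℝ)..3 * q.w, (q.fn 2 (Φ t x) - κ * q.fn 0 (Φ t x))

/-- The signal of the backward half of a passage through a box. -/
noncomputable def Jm (Φ : ℝ → ℍ → ℍ) (q : Bx) (κ : ℝ) (x : ℍ) : ℝ :=
  ∫ t in -(3 * q.w)..0, (q.fn 2 (Φ t x) - κ * q.fn 0 (Φ t x))

/-- Functions that are locally constant off `K`. -/
def LC (K : Set ℍ) (Θ : ℍ → ℝ) : Prop := ∀ z, z ∉ K → ∀ᶠ w in 𝓝 z, Θ w = Θ z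

/-- The mean of a sequence along a filter. -/
def HasM (l : Filter ℕ) (a : ℕ → ℝ) (v : ℝ) : Prop :=
  Tendsto (fun N : ℕ => (∑ k ∈ Finset.range N, a k) / N) l (𝓝 v)

variable {Γ : Type} [Group Γ] [MulAction Γ ℍ]

/-- Orientation preserving deck transformations. -/
def Ori (γ : Γ) : Prop := ∃ g : SL(2, ℝ), ∀ z : ℍ, γ • z = g • z

open Classical in
/-- The orientation character. -/
noncomputable def sg (γ : Γ) : ℝ := if Ori γ then 1 else -1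

/-- Equivariant functions. -/
def Eqv (c : Γ → ℝ) (u : ℍ → ℝ) : Prop := ∀ (γ : Γ) (z : ℍ), u (γ • z) = u z + c γ

/-- Convergence of cohomology classes. -/
def CLim (l : Filter ℕ) (c : Γ → ℝ) (cs : ℕ → Γ → ℝ) : Prop :=
  ∀ ε : ℝ, 0 < ε → ∀ᶠ n in l, ∀ (γ : Γ) (z : ℍ), |cs n γ - c γ| ≤ ε * dist z (γ • z)

/-- Curves that close up on the surface. -/
def Per (x : ℝ → ℍ) (γ : Γ) (T : ℝ) : Prop := 0 < T ∧ ∀ t, x (t + T) = γ • x t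

/-- Curves that close up on the surface, with the minimal period. -/
def MinPer (x : ℝ → ℍ) (γ : Γ) (T : ℝ) : Prop :=
  Per x γ T ∧ ∀ (s t : ℝ) (δ : Γ), x t = δ • x s → ∃ j : ℤ, t = s + j * T ∧ δ = γ ^ j

/-- The transport of a field by the `j`-th power of the return map. -/
noncomputable def mono (x : ℝ → ℍ) (γ : Γ) (T : ℝ) (j : ℤ) (η : ℝ → ℂ) (t : ℝ) : ℂ :=
  dk (γ ^ (-j)) (x (t + j * T)) (η (t + j * T))

/-- The critical value. -/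
noncomputable def crit (L : ℂ × ℂ → ℝ) (c : Γ → ℝ) : ℝ :=
  sInf {k | ∀ x s t (γ : Γ), Adm L x s t → x t = γ • x s → c γ ≤ ac L k x s t}

/-- Second order upper bound for the critical value in the direction `(ψ, φ)`. -/
def TDa (L : ℂ × ℂ → ℝ) (c ψ : Γ → ℝ) (φ : ℂ → ℝ) (ρ : ℝ) : Prop :=
  ∃ C s₀ : ℝ, 0 < s₀ ∧ ∀ s : ℝ, |s| ≤ s₀ →
    crit (addP L (s • φ)) (c + s • ψ) ≤ crit L c + s * ρ + C * s ^ 2

/-- The inequality for pseudo-orbits given by a second order bound. -/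
def TDK (K : Set ℍ) (Φ : ℝ → ℍ → ℍ) (ψ : Γ → ℝ) (φ : ℂ → ℝ) (ρ : ℝ) : Prop :=
  ∀ τ : ℝ, 0 < τ → ∃ C s₀ δ₀ : ℝ, 0 ≤ C ∧ 0 < s₀ ∧ 0 < δ₀ ∧ ∀ s : ℝ, |s| ≤ s₀ → ∃ h : ℍ → ℝ,
    Eqv (s • ψ) h ∧ (∀ z w, h z - h w ≤ C * dist z w) ∧
    ∀ z ∈ K, ∀ w ∈ K, ∀ T : ℝ, τ ≤ T → dist (Φ T z) w ≤ δ₀ →
      h w - h z ≤ C * dist (Φ T z) w ^ 2 + C * |s| * dist (Φ T z) w +
        s * (∫ t in (0 : ℝ)..T, φ (Φ t z)) + (s * ρ + C * s ^ 2) * T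

variable (Γ)

/-- Invariant functions of class `C^2`. -/
def C2 (f : ℂ → ℝ) : Prop := ContDiffOn ℝ 2 f HP ∧ ∀ (γ : Γ) (z : ℍ), f (γ • z : ℍ) = f z

/-- Convergent sequences of Tonelli Lagrangians. -/
structure LSeq (l : Filter ℕ) (L : ℂ × ℂ → ℝ) (Ls : ℕ → ℂ × ℂ → ℝ) : Prop where
  ton : Tonelli Γ L
  tons : ∀ n, Tonelli Γ (Ls n)
  unif : Unif (insert L (Set.range Ls))
  c0 : ∀ ε : ℝ, 0 < ε → ∀ᶠ n in l, ∀ (z : ℍ) (v : ℂ), |Ls n (z, v) - L (z, v)| ≤ ε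
  c2 : ∀ R r ε : ℝ, 0 < ε → ∀ᶠ n in l, ∀ z ∈ KB R, ∀ v : ℂ, ‖v‖ ≤ r →
    ‖fderiv ℝ (Ls n) (z, v) - fderiv ℝ L (z, v)‖ ≤ ε ∧ ‖D2 (Ls n) (z, v) - D2 L (z, v)‖ ≤ ε

/-- The union of the translates of a curve. -/
def Orb (x : ℝ → ℍ) : Set ℍ := {z | ∃ (γ : Γ) (t : ℝ), z = γ • x t}

/-- The invariant test functions of a box. -/
noncomputable def fam (q : Bx) (j : Fin 4) (z : ℂ) : ℝ :=
  ∑ᶠ γ : Γ, q.fn j ((γ • ofComplex z : ℍ) : ℂ)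

open Classical in
/-- Random perturbations. -/
structure Pert (ε : OB → ℝ) (P : Om → ℂ → ℝ) : Prop where
  pos : ∀ i, 0 < ε i
  pot : ∀ a, Pot Γ (P a)
  lim : ∀ (a : Om) (as : ℕ → Om), Tendsto as atTop (𝓝 a) → ToZero atTop fun n => P (as n) - P a
  upd : ∀ (a : Om) (i : OB) (y : Fin 4 → ℝ), P (Function.update a i y) =
    P (Function.update a i 0) + ∑ j, (ε i * clamp (y j)) • fam Γ i.1 j

variable {Γ} in
/-- Second order bounds in all directions. -/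
def TDall (L : ℂ × ℂ → ℝ) (c : Γ → ℝ) : Prop :=
  (∀ ψ ∈ Coh Γ, ∃ ρ, TDa L c ψ 0 ρ) ∧ ∀ q : Bx, q.Ok → ∀ j, ∃ ρ, TDa L c 0 (fam Γ q j) ρ

variable {Γ} in
/-- All calibrated curves are translates of one hyperbolic closed curve. -/
def Gs (L : ℂ × ℂ → ℝ) (c : Γ → ℝ) : Prop :=
  ∃ (x : ℝ → ℍ) (γ : Γ) (T : ℝ), Per x γ T ∧ Hyp L x ∧ ∀ u, Eqv c u → Dom L (crit L c) u →
    Cal L (crit L c) u x ∧
      ∀ y, Cal L (crit L c) u y → ∃ (δ : Γ) (s : ℝ), ∀ t, y t = δ • x (t + s)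

/-- Invariant Lipschitz flows on closed invariant sets. -/
structure Lam (K : Set ℍ) (Φ : ℝ → ℍ → ℍ) (V : ℍ → ℂ) : Prop where
  closed : IsClosed K
  smul : ∀ (γ : Γ), ∀ z ∈ K, γ • z ∈ K
  map : ∀ t, ∀ z ∈ K, Φ t z ∈ K
  zero : ∀ z ∈ K, Φ 0 z = z
  add : ∀ s t, ∀ z ∈ K, Φ (s + t) z = Φ s (Φ t z)
  comm : ∀ t (γ : Γ), ∀ z ∈ K, Φ t (γ • z) = γ • Φ t z
  deriv : ∀ z ∈ K, ∀ t, HasDerivAt (fun s => (Φ s z : ℂ)) (V (Φ t z)) t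
  speed : ∃ C : ℝ, ∀ z ∈ K, ‖V z‖ ≤ C * z.im
  lip : ∀ R : ℝ, ∃ C : ℝ, ∀ z ∈ K, ∀ w ∈ K, dist z I ≤ R → dist w I ≤ R →
    ‖V z - V w‖ ≤ C * ‖(z : ℂ) - w‖

/-- Minimal sets without closed orbits. -/
structure Aper (K : Set ℍ) (Φ : ℝ → ℍ → ℍ) (V : ℍ → ℂ) : Prop extends Lam Γ K Φ V where
  ne : K.Nonempty
  min : ∀ K' ⊆ K, K'.Nonempty → IsClosed K' → (∀ (γ : Γ), ∀ z ∈ K', γ • z ∈ K') →
    (∀ t, ∀ z ∈ K', Φ t z ∈ K') → K' = K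
  aper : ∀ z ∈ K, ∀ t (γ : Γ), Φ t z = γ • z → t = 0
  nuniv : K ≠ Set.univ

/-- Transversals whose end points lie in gaps. -/
structure Sec (K : Set ℍ) (Φ : ℝ → ℍ → ℍ) (V : ℍ → ℂ) (q : Bx) (r : ℝ) : Prop where
  ok : q.Ok
  cht : Cht K Φ V q.p q.d r
  dis : ∀ (γ : Γ) (z : ℍ), InB q.p q.d r z → InB q.p q.d r (γ • z : ℍ) → γ = 1
  we : q.w ≤ q.e
  wr : 20 * q.w ≤ r
  lo : -(r / 4) ≤ q.a - 4 * q.e
  hi : q.b + 4 * q.e ≤ r / 4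
  gap : ∀ z ∈ K, (co q.p q.d z).re = 0 → q.ht z ∈ Set.Icc (q.a - 4 * q.e) (q.b + 4 * q.e) →
    q.ht z ∈ Set.Ioo q.a q.b
  ne : (K ∩ q.ln).Nonempty

variable {Γ}

/-- First return data on a transversal. -/
structure Ret (K : Set ℍ) (Φ : ℝ → ℍ → ℍ) (q : Bx) (τ : ℍ → ℝ) (g : ℍ → Γ) (R : ℍ → ℍ)
    (τ₁ τ₂ ε₁ : ℝ) : Prop where
  lo : 0 < τ₁
  pos : 0 < ε₁
  map : ∀ x ∈ K ∩ q.ln, R x ∈ K ∩ q.ln
  cont : ContinuousOn R (K ∩ q.ln)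
  hit : ∀ x ∈ K ∩ q.ln, Φ (τ x) x = g x • R x
  bd : ∀ x ∈ K ∩ q.ln, τ x ∈ Set.Icc τ₁ τ₂
  first : ∀ x ∈ K ∩ q.ln, ∀ t ∈ Set.Ioo 0 (τ x), ∀ γ : Γ, γ • Φ t x ∉ q.ln
  near : ∀ x ∈ K ∩ q.ln, ∀ y ∈ K ∩ q.ln, |q.ht x - q.ht y| ≤ ε₁ → g x = g y
  split : ∀ x ∈ K ∩ q.ln, ∀ j, ∫ t in (0 : ℝ)..τ x, fam Γ q j (Φ t x) =
    (∫ t in (0 : ℝ)..3 * q.w, q.fn j (Φ t x)) + ∫ t in -(3 * q.w)..0, q.fn j (Φ t (R x))

/-- The deck transformation after `k` returns. -/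
def Gk (g : ℍ → Γ) (R : ℍ → ℍ) (x : ℍ) : ℕ → Γ
  | 0 => 1
  | k + 1 => Gk g R x k * g (R^[k] x)

/-- The time of the `k`-th return. -/
noncomputable def tk (τ : ℍ → ℝ) (R : ℍ → ℍ) (x : ℍ) (k : ℕ) : ℝ :=
  ∑ i ∈ Finset.range k, τ (R^[i] x)

end Pool.Agent.Lib.MP_5bb885_an.Gen
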