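import Pool.Agent.Lib.MP_5bb885_an.T9Dom

/-!
Continuity and convexity of the critical value, static curves.
-/

namespace Pool.Agent.Lib.MP_5bb885_an.Gen

open UpperHalfPlane MeasureTheory Filter Topology

variable {Γ : Type} [Group Γ] [MulAction Γ ℍ] {L : ℂ × ℂ → ℝ} {S : Set (ℂ × ℂ → ℝ)}
  {x : ℝ → ℍ} {u : ℍ → ℝ} {k : ℝ} {c ψ : Γ → ℝ} {φ : ℂ → ℝ} {ρ : ℝ}

lemma t9crit_adm {L' : ℂ × ℂ → ℝ} (hL : Tonelli Γ L) {ε s t : ℝ}
    (hLL : ∀ (z : ℍ) (v : ℂ), |L' (z, v) - L (z, v)| ≤ ε) (hx : Adm L' x s t) (k : ℝ) :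
    Adm L x s t ∧ ac L k x s t ≤ ac L' k x s t + ε * (t - s) := by
  have hb : ∀ τ, L (jet x τ) ≤ L' (jet x τ) + ε ∧ |L (jet x τ)| ≤ |L' (jet x τ)| + ε := by
    intro τ
    have h1 : |L' (jet x τ) - L (jet x τ)| ≤ ε := hLL (x τ) (vel x τ)
    have h2 := abs_sub_abs_le_abs_sub (L (jet x τ)) (L' (jet x τ))
    rw [abs_sub_comm] at h2
    exact ⟨by linarith [(abs_le.1 h1).1], by linarith⟩
  have hi : IntervalIntegrable (fun τ => L (jet x τ)) volume s t := by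
    have hm := t9adm_meas (x := x) (s := s) (t := t) hL.smooth.continuousOn
      (hx.continuousOn.mono Set.Ioo_subset_Icc_self)
    have h1 : IntervalIntegrable (fun τ => |L' (jet x τ)| + ε) volume s t :=
      hx.2.2.abs.add intervalIntegrable_const
    rw [intervalIntegrable_iff_integrableOn_Ioo_of_le hx.1.le] at h1 ⊢
    exact h1.mono' hm (Eventually.of_forall fun τ => (hb τ).2)
  refine ⟨⟨hx.1, hx.2.1, hi⟩, ?_⟩
  rw [t9adm_ac hi, t9adm_ac hx.2.2]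
  have := intervalIntegral.integral_mono_on hx.1.le hi (hx.2.2.add intervalIntegrable_const)
    fun τ _ => (hb τ).1
  rw [intervalIntegral.integral_add hx.2.2 intervalIntegrable_const,
    intervalIntegral.integral_const, smul_eq_mul] at this
  linarith

lemma t9crit_subgrad {g : ℝ → ℝ} (hg : ConvexOn ℝ Set.univ g) :
    ∃ ρ : ℝ, ∀ s, g 0 + ρ * s ≤ g s := by
  have key : ∀ a b : ℝ, a < 0 → 0 < b → (g 0 - g a) / (0 - a) ≤ (g b - g 0) / (b - 0) :=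
    fun a b ha hb => hg.slope_mono_adjacent (Set.mem_univ _) (Set.mem_univ _) ha hb
  set A : Set ℝ := {r | ∃ a < 0, r = (g 0 - g a) / (0 - a)} with hA
  have hne : A.Nonempty := ⟨_, -1, by norm_num, rfl⟩
  have hbd : ∀ b : ℝ, 0 < b → (g b - g 0) / (b - 0) ∈ upperBounds A := by
    rintro b hb _ ⟨a, ha, rfl⟩
    exact key a b ha hb
  refine ⟨sSup A, fun s => ?_⟩
  rcases lt_trichotomy s 0 with h | rfl | h
  · have h1 : (g 0 - g s) / (0 - s) ≤ sSup A := le_csSup ⟨_, hbd 1 one_pos⟩ ⟨s, h, rfl⟩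
    rw [div_le_iff₀ (by linarith)] at h1
    linarith
  · simp
  · have h1 : sSup A ≤ (g s - g 0) / (s - 0) := csSup_le hne (hbd s h)
    rw [le_div_iff₀ (by linarith)] at h1
    linarith

lemma t9crit_act (L : ℂ × ℂ → ℝ) (U : ℍ → ℝ) (k : ℝ) (x : ℝ → ℍ) (s t : ℝ) :
    act L U k x s t = ac L k x s t - (U (x t) - U (x s)) := rfl

lemma t9crit_low {U : ℍ → ℝ} (hU : Eqv c U) (hu : Eqv c u) (hd : Dom L (crit L c) u)
    (ha : alpha Γ L U = crit L c) (z w : ℍ) : u w - u z - (U w - U z) ∈ lowerBounds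
      {r | ∃ y s' t', Adm L y s' t' ∧ y s' = z ∧ (∃ γ : Γ, y t' = γ • w) ∧
        r = act L U (alpha Γ L U) y s' t'} := by
  rintro _ ⟨y, s', t', hy, rfl, ⟨γ, e⟩, rfl⟩
  have := hd y s' t' hy
  rw [t9crit_act, ha, e, hU]
  rw [e, hu] at this
  linarith

lemma Unif.crit_lip (F : Deck Γ) (U : Unif S) (M : ℝ) : ∃ C : ℝ, 0 ≤ C ∧ ∀ L ∈ S, ∀ L' ∈ S,
    Tonelli Γ L → Tonelli Γ L' → ∀ c ∈ Coh Γ, ∀ c' ∈ Coh Γ,
    (∀ (γ : Γ) (z : ℍ), |c γ| ≤ M * dist z (γ • z)) → ∀ ε : ℝ, 0 ≤ ε → ε ≤ 1 →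
    (∀ (z : ℍ) (v : ℂ), |L' (z, v) - L (z, v)| ≤ ε) →
    (∀ (γ : Γ) (z : ℍ), |c' γ - c γ| ≤ ε * dist z (γ • z)) → crit L' c' ≤ crit L c + C * ε := by
  obtain ⟨k₀, hk₀⟩ := U.crit_bd F M
  obtain ⟨C, hC, hs⟩ := U.short k₀
  refine ⟨C + 1, by linarith, ?_⟩
  intro L hLS L' _ hL hL' c hc c' hc' hM ε h0 h1 hLL hcc
  obtain ⟨u, hu, hd⟩ := exists_dom F hL hc
  refine crit_le F hL' hc' fun x s t γ hx e => ?_
  obtain ⟨hx', hle⟩ := t9crit_adm hL hLL hx (crit L c)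
  have h2 := hs L hLS _ (hk₀ L hLS hL c hc hM) u hd x s t hx'
  have h3 := hd x s t hx'
  have h4 := hcc γ (x s)
  rw [e, hu] at h2 h3
  rw [hx.ac_const (crit L c)]
  have h5 := (abs_le.1 h4).2
  have hst : 0 < t - s := sub_pos.2 hx.1
  have h6 : ε * dist (x s) (γ • x s) ≤ ε * (C * (t - s) +
      (ac L (crit L c) x s t - (u (x s) + c γ - u (x s)))) := mul_le_mul_of_nonneg_left h2 h0
  have h7 : ε * (ac L (crit L c) x s t - (u (x s) + c γ - u (x s))) ≤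
      1 * (ac L (crit L c) x s t - (u (x s) + c γ - u (x s))) :=
    mul_le_mul_of_nonneg_right h1 (by linarith)
  nlinarith

lemma LSeq.const (F : Deck Γ) (hL : Tonelli Γ L) (l : Filter ℕ) : LSeq Γ l L fun _ => L := by
  refine ⟨hL, fun _ => hL, ?_, fun ε hε => Eventually.of_forall fun n z v => by simpa using hε.le,
    fun R r ε hε => Eventually.of_forall fun n z _ v _ =>
      ⟨by rw [sub_self, norm_zero]; exact hε.le, ContinuousLinearMap.opNorm_le_bound₂ _ hε.le fun h k => by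
        rw [sub_apply, sub_apply, sub_self, norm_zero]; positivity⟩⟩
  simpa using hL.unif1 F

lemma LSeq.mono {l l' : Filter ℕ} {Ls : ℕ → ℂ × ℂ → ℝ} (h : LSeq Γ l L Ls) (hl : l' ≤ l) :
    LSeq Γ l' L Ls := by
  exact ⟨h.ton, h.tons, h.unif, fun ε hε => hl (h.c0 ε hε), fun R r ε hε => hl (h.c2 R r ε hε)⟩

lemma lseq_of_toZero (F : Deck Γ) (hL : Tonelli Γ L) {f : ℕ → ℂ → ℝ} (h1 : ∀ n, C2 Γ (f n))
    (h2 : ToZero atTop f) : LSeq Γ atTop L fun n => addP L (f n) := by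
  refine ⟨hL, fun n => hL.add F (h1 n), ?_, fun ε hε => ?_, fun R r ε hε => ?_⟩
  · have := hL.unif F (P := insert 0 (Set.range f)) (by
      rintro _ (rfl | ⟨n, rfl⟩)
      exacts [c2_zero, h1 n]) (bddC2_of_toZero h1 h2)
    rwa [Set.image_insert_eq, addP_zero, ← Set.range_comp] at this
  · filter_upwards [h2.sup F h1 hε] with n hn z v
    simpa [addP] using hn z
  · filter_upwards [h2 R ε hε] with n hn z hz v _
    obtain ⟨-, h3, h4⟩ := hn z hz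
    have hp : ((z, v) : ℂ × ℂ) ∈ TH := KB_sub R hz
    constructor
    · refine ContinuousLinearMap.opNorm_le_bound _ hε.le fun h => ?_
      rw [sub_apply, fderiv_addP hL.smooth (h1 n).1 hp, add_sub_cancel_left]
      exact ((fderiv ℝ (f n) z).le_opNorm _).trans
        (mul_le_mul h3 (norm_fst_le h) (norm_nonneg _) hε.le)
    · refine ContinuousLinearMap.opNorm_le_bound₂ _ hε.le fun h k => ?_
      rw [sub_apply, sub_apply,
        D2_addP hL.smooth (h1 n).1 hp, add_sub_cancel_left]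
      refine ((fderiv ℝ (fderiv ℝ (f n)) z).le_opNorm₂ _ _).trans ?_
      exact mul_le_mul (mul_le_mul h4 (norm_fst_le h) (norm_nonneg _) hε.le) (norm_fst_le k)
        (norm_nonneg _) (by positivity)

lemma CLim.const (l : Filter ℕ) (c : Γ → ℝ) : CLim l c fun _ => c := by
  intro ε hε
  exact Eventually.of_forall fun n γ z => by simpa using mul_nonneg hε.le dist_nonneg

lemma CLim.mono {l l' : Filter ℕ} {cs : ℕ → Γ → ℝ} (h : CLim l c cs) (hl : l' ≤ l) :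
    CLim l' c cs := by
  exact fun ε hε => hl (h ε hε)

lemma clim_of_tendsto (F : Deck Γ) {b : ℕ} (e : (Fin b → ℝ) ≃ₗ[ℝ] Coh Γ) {l : Filter ℕ}
    {t : Fin b → ℝ} {ts : ℕ → Fin b → ℝ} (h : Tendsto ts l (𝓝 t)) :
    CLim l (e t : Γ → ℝ) fun n => (e (ts n) : Γ → ℝ) := by
  obtain ⟨M, hM, hb⟩ := F.lipE e
  intro ε hε
  have h1 : Tendsto (fun n => M * ‖ts n - t‖) l (𝓝 (M * 0)) :=
    (tendsto_iff_norm_sub_tendsto_zero.1 h).const_mul M
  rw [mul_zero] at h1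
  filter_upwards [h1.eventually (ge_mem_nhds hε)] with n hn γ z
  have := hb (ts n - t) γ z
  rw [map_sub] at this
  exact this.trans (mul_le_mul_of_nonneg_right hn dist_nonneg)

lemma LSeq.tendsto_crit (F : Deck Γ) {l : Filter ℕ} {Ls : ℕ → ℂ × ℂ → ℝ} (h : LSeq Γ l L Ls)
    {cs : ℕ → Γ → ℝ} (hc : c ∈ Coh Γ) (hcs : ∀ n, cs n ∈ Coh Γ) (hl : CLim l c cs) :
    Tendsto (fun n => crit (Ls n) (cs n)) l (𝓝 (crit L c)) := by
  obtain ⟨M, hM, hb⟩ := F.lip hc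
  obtain ⟨C, hC, hl'⟩ := h.unif.crit_lip F (M + 1)
  rw [Metric.tendsto_nhds]
  intro η hη
  obtain ⟨ε, h0, h1, h2⟩ : ∃ ε : ℝ, 0 < ε ∧ ε ≤ 1 ∧ C * ε < η := by
    refine ⟨min 1 (η / (C + 1)), by positivity, min_le_left _ _, ?_⟩
    have : C * min 1 (η / (C + 1)) ≤ C * (η / (C + 1)) :=
      mul_le_mul_of_nonneg_left (min_le_right _ _) hC
    have h3 : C * (η / (C + 1)) < η := by
      rw [← mul_div_assoc, div_lt_iff₀ (by linarith)]; nlinarith
    linarith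
  filter_upwards [h.c0 ε h0, hl ε h0] with n hn hn'
  have hm : L ∈ insert L (Set.range Ls) := Set.mem_insert _ _
  have hm' : Ls n ∈ insert L (Set.range Ls) := Set.mem_insert_of_mem _ ⟨n, rfl⟩
  have a1 := hl' L hm (Ls n) hm' h.ton (h.tons n) c hc (cs n) (hcs n)
    (fun γ z => (hb γ z).trans (mul_le_mul_of_nonneg_right (by linarith) dist_nonneg))
    ε h0.le h1 hn hn'
  have a2 := hl' (Ls n) hm' L hm (h.tons n) h.ton (cs n) (hcs n) c hc
    (fun γ z => by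
      have b1 := hb γ z
      have b2 := hn' γ z
      have b3 : ε * dist z (γ • z) ≤ 1 * dist z (γ • z) :=
        mul_le_mul_of_nonneg_right h1 dist_nonneg
      have b4 := abs_add_le (cs n γ - c γ) (c γ)
      rw [sub_add_cancel] at b4
      linarith)
    ε h0.le h1 (fun z v => by rw [abs_sub_comm]; exact hn z v)
    (fun γ z => by rw [abs_sub_comm]; exact hn' γ z)
  rw [Real.dist_eq, abs_lt]
  constructor <;> linarith

lemma crit_convex (F : Deck Γ) (hL : Tonelli Γ L) {f g : ℂ → ℝ} (hf : C2 Γ f) (hg : C2 Γ g)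
    {c' : Γ → ℝ} (hc : c ∈ Coh Γ) (hc' : c' ∈ Coh Γ) {a b : ℝ} (ha : 0 ≤ a) (hb : 0 ≤ b)
    (hab : a + b = 1) : crit (addP L (a • f + b • g)) (a • c + b • c') ≤
      a * crit (addP L f) c + b * crit (addP L g) c' := by
  have hfg : C2 Γ (a • f + b • g) := (hf.smul a).add (hg.smul b)
  refine crit_le F (hL.add F hfg) ((Coh Γ).add_mem ((Coh Γ).smul_mem a hc)
    ((Coh Γ).smul_mem b hc')) fun x s t γ hx e => ?_
  have hx' : Adm L x s t := (adm_addP hfg.1.continuousOn).1 hx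
  have h1 := crit_loop F (hL.add F hf) hc ((adm_addP hf.1.continuousOn).2 hx') e
  have h2 := crit_loop F (hL.add F hg) hc' ((adm_addP hg.1.continuousOn).2 hx') e
  rw [hx'.ac_addP hf.1.continuousOn, hx'.ac_const 0] at h1
  rw [hx'.ac_addP hg.1.continuousOn, hx'.ac_const 0] at h2
  rw [hx'.ac_addP hfg.1.continuousOn, hx'.ac_const 0]
  have i1 := t9adm_pot hf.1.continuousOn hx'.1.le hx'.2.1
  have i2 := t9adm_pot hg.1.continuousOn hx'.1.le hx'.2.1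
  have e1 : ∫ τ in s..t, (a • f + b • g) (x τ) =
      a * (∫ τ in s..t, f (x τ)) + b * ∫ τ in s..t, g (x τ) := by
    simp only [Pi.add_apply, Pi.smul_apply, smul_eq_mul]
    rw [intervalIntegral.integral_add (i1.const_mul a) (i2.const_mul b),
      intervalIntegral.integral_const_mul, intervalIntegral.integral_const_mul]
  rw [e1]
  simp only [Pi.add_apply, Pi.smul_apply, smul_eq_mul]
  have h3 := mul_le_mul_of_nonneg_left h1 ha
  have h4 := mul_le_mul_of_nonneg_left h2 hb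
  have h5 : ac L 0 x s t = a * ac L 0 x s t + b * ac L 0 x s t := by rw [← add_mul, hab, one_mul]
  nlinarith

lemma TDa.zero (L : ℂ × ℂ → ℝ) (c : Γ → ℝ) : TDa L c 0 0 0 := by
  exact ⟨0, 1, one_pos, fun s _ => by simp [addP_zero]⟩

lemma TDa.add (F : Deck Γ) (hL : Tonelli Γ L) (hc : c ∈ Coh Γ) {ψ' : Γ → ℝ} {φ' : ℂ → ℝ} {ρ' : ℝ}
    (hψ : ψ ∈ Coh Γ) (hψ' : ψ' ∈ Coh Γ) (hφ : C2 Γ φ) (hφ' : C2 Γ φ') (h : TDa L c ψ φ ρ)
    (h' : TDa L c ψ' φ' ρ') : TDa L c (ψ + ψ') (φ + φ') (ρ + ρ') := by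
  obtain ⟨C, s₀, h0, h⟩ := h
  obtain ⟨C', s₀', h0', h'⟩ := h'
  refine ⟨2 * C + 2 * C', min s₀ s₀' / 2, by positivity, fun s hs => ?_⟩
  have hs2 : |2 * s| ≤ min s₀ s₀' := by rw [abs_mul, abs_two]; linarith
  have a1 := h (2 * s) (hs2.trans (min_le_left _ _))
  have a2 := h' (2 * s) (hs2.trans (min_le_right _ _))
  have a3 := crit_convex F hL (hφ.smul (2 * s)) (hφ'.smul (2 * s))
    ((Coh Γ).add_mem hc ((Coh Γ).smul_mem (2 * s) hψ))
    ((Coh Γ).add_mem hc ((Coh Γ).smul_mem (2 * s) hψ')) (a := 1 / 2) (b := 1 / 2)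
    (by norm_num) (by norm_num) (by norm_num)
  have e1 : (1 / 2 : ℝ) • (2 * s) • φ + (1 / 2 : ℝ) • (2 * s) • φ' = s • (φ + φ') := by module
  have e2 : (1 / 2 : ℝ) • (c + (2 * s) • ψ) + (1 / 2 : ℝ) • (c + (2 * s) • ψ') =
      c + s • (ψ + ψ') := by module
  rw [e1, e2] at a3
  nlinarith

lemma TDa.smul (h : TDa L c ψ φ ρ) (a : ℝ) : TDa L c (a • ψ) (a • φ) (a * ρ) := by
  obtain ⟨C, s₀, h0, h⟩ := h
  refine ⟨C * a ^ 2, s₀ / (|a| + 1), by positivity, fun s hs => ?_⟩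
  have h1 : |s * a| ≤ s₀ := by
    rw [le_div_iff₀ (by positivity)] at hs
    rw [abs_mul]
    nlinarith [abs_nonneg s]
  have := h (s * a) h1
  rw [smul_smul, smul_smul]
  nlinarith

/-- It is enough to know the bound for the classes of a basis. -/
lemma tda_coh (F : Deck Γ) (hL : Tonelli Γ L) (hc : c ∈ Coh Γ) {b : ℕ}
    (e : (Fin b → ℝ) ≃ₗ[ℝ] Coh Γ) (h : ∀ i, ∃ ρ, TDa L c (e (Pi.single i 1) : Γ → ℝ) 0 ρ) :
    ∀ ψ ∈ Coh Γ, ∃ ρ, TDa L c ψ 0 ρ := by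
  intro ψ hψ
  obtain ⟨t, ht⟩ := e.surjective ⟨ψ, hψ⟩
  have e1 : ψ = ∑ i, t i • (e (Pi.single i 1) : Γ → ℝ) := by
    have : t = ∑ i, t i • (Pi.single i 1 : Fin b → ℝ) := by
      ext j; simp [Finset.sum_apply, Pi.single_apply]
    have h2 := congrArg (fun y : Coh Γ => (y : Γ → ℝ)) ht
    simp only at h2
    rw [← h2]
    conv_lhs => rw [this]
    simp
  have key : (∑ i, t i • (e (Pi.single i 1) : Γ → ℝ)) ∈ Coh Γ ∧
      ∃ ρ, TDa L c (∑ i, t i • (e (Pi.single i 1) : Γ → ℝ)) 0 ρ := by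
    refine Finset.sum_induction _ (fun ψ => ψ ∈ Coh Γ ∧ ∃ ρ, TDa L c ψ 0 ρ) ?_
      ⟨(Coh Γ).zero_mem, 0, TDa.zero L c⟩ fun i _ => ?_
    · rintro ψ₁ ψ₂ ⟨m1, ρ₁, h1⟩ ⟨m2, ρ₂, h2⟩
      refine ⟨(Coh Γ).add_mem m1 m2, ρ₁ + ρ₂, ?_⟩
      simpa using TDa.add F hL hc m1 m2 c2_zero c2_zero h1 h2
    · obtain ⟨ρ, hρ⟩ := h i
      refine ⟨(Coh Γ).smul_mem _ (e _).2, t i * ρ, ?_⟩
      simpa using hρ.smul (t i)
  rw [e1]
  exact key.2

lemma tda_of_second (F : Deck Γ) (hL : Tonelli Γ L) (hc : c ∈ Coh Γ) (hψ : ψ ∈ Coh Γ)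
    (hφ : C2 Γ φ) {C s₀ : ℝ} (h0 : 0 < s₀) (h : ∀ s : ℝ, |s| ≤ s₀ →
      crit (addP L (s • φ)) (c + s • ψ) + crit (addP L ((-s) • φ)) (c + (-s) • ψ) ≤
        2 * crit L c + C * s ^ 2) : ∃ ρ, TDa L c ψ φ ρ := by
  set g : ℝ → ℝ := fun s => crit (addP L (s • φ)) (c + s • ψ) with hg
  have hconv : ConvexOn ℝ Set.univ g := by
    refine ⟨convex_univ, fun s _ t _ a b ha hb hab => ?_⟩
    have a3 := crit_convex F hL (hφ.smul s) (hφ.smul t)
      ((Coh Γ).add_mem hc ((Coh Γ).smul_mem s hψ))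
      ((Coh Γ).add_mem hc ((Coh Γ).smul_mem t hψ)) ha hb hab
    have e1 : a • s • φ + b • t • φ = (a • s + b • t) • φ := by
      simp only [smul_eq_mul]; module
    have e2 : a • (c + s • ψ) + b • (c + t • ψ) = c + (a • s + b • t) • ψ := by
      have : c = (a + b) • c := by rw [hab, one_smul]
      conv_rhs => rw [this]
      simp only [smul_eq_mul]; module
    rw [e1, e2] at a3
    exact a3
  obtain ⟨ρ, hρ⟩ := t9crit_subgrad hconv
  have g0 : g 0 = crit L c := by simp [hg, addP_zero]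
  refine ⟨ρ, C, s₀, h0, fun s hs => ?_⟩
  have a1 := h s hs
  have a2 := hρ (-s)
  rw [g0] at a2
  simp only [hg] at a2
  linarith

/-- A calibrated closed curve on which `φ` has mean zero forces `ρ = 0`. -/
lemma TDa.zero_of_per (F : Deck Γ) (hL : Tonelli Γ L) (hc : c ∈ Coh Γ) (hφ : C2 Γ φ)
    (h : TDa L c 0 φ ρ) (hu : Eqv c u) (hx : Cal L (crit L c) u x) {γ : Γ} {T : ℝ}
    (hp : Per x γ T) (h0 : ∫ t in (0 : ℝ)..T, φ (x t) = 0) : ρ = 0 := by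
  obtain ⟨C, s₀, hs₀, h⟩ := h
  obtain ⟨hadm, hcal⟩ := hx 0 T hp.1
  have e : x T = γ • x 0 := by simpa using hp.2 0
  have key : ∀ s : ℝ, |s| ≤ s₀ → 0 ≤ s * ρ + C * s ^ 2 := by
    intro s hs
    have a1 := h s hs
    rw [smul_zero, add_zero] at a1
    have hφs := hφ.smul s
    have a2 := crit_loop F (hL.add F hφs) hc ((adm_addP hφs.1.continuousOn).2 hadm) e
    rw [hadm.ac_addP hφs.1.continuousOn, hadm.ac_const (crit L c), ← hcal, e, hu] at a2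
    simp only [Pi.smul_apply, smul_eq_mul, intervalIntegral.integral_const_mul, h0] at a2
    have a3 : 0 ≤ (crit (addP L (s • φ)) c - crit L c) * (T - 0) := by linarith
    have a4 := nonneg_of_mul_nonneg_left a3 (by linarith [hp.1])
    linarith
  by_contra hρ
  have hρ' : 0 < |ρ| := abs_pos.2 hρ
  obtain ⟨δ, d0, d1, d2⟩ : ∃ δ : ℝ, 0 < δ ∧ δ ≤ s₀ ∧ C * δ < |ρ| := by
    refine ⟨min s₀ (|ρ| / (|C| + 1)), by positivity, min_le_left _ _, ?_⟩
    have b1 : |C| * min s₀ (|ρ| / (|C| + 1)) ≤ |C| * (|ρ| / (|C| + 1)) :=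
      mul_le_mul_of_nonneg_left (min_le_right _ _) (abs_nonneg _)
    have b2 : |C| * (|ρ| / (|C| + 1)) < |ρ| := by
      rw [← mul_div_assoc, div_lt_iff₀ (by positivity)]; nlinarith
    have b3 : C * min s₀ (|ρ| / (|C| + 1)) ≤ |C| * min s₀ (|ρ| / (|C| + 1)) :=
      mul_le_mul_of_nonneg_right (le_abs_self C) (by positivity)
    linarith
  have k1 := key δ (by rwa [abs_of_pos d0])
  have k2 := key (-δ) (by rwa [abs_neg, abs_of_pos d0])
  rcases abs_cases ρ with ⟨b, -⟩ | ⟨b, -⟩ <;> rw [b] at d2 <;> nlinarith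

lemma alpha_eq_crit {U : ℍ → ℝ} (hU : Eqv c U) : alpha Γ L U = crit L c := by
  unfold alpha crit
  congr 1
  ext k
  constructor
  · intro h x s t γ hx e
    have := h x s t hx ⟨γ, e⟩
    rw [t9crit_act, e, hU] at this
    linarith
  · rintro h x s t hx ⟨γ, e⟩
    have := h x s t γ hx e
    rw [t9crit_act, e, hU]
    linarith

lemma Static.cal (F : Deck Γ) (hL : Tonelli Γ L) (hc : c ∈ Coh Γ) {U : ℍ → ℝ} (hU : Eqv c U)
    (hu : Eqv c u) (hd : Dom L (crit L c) u) (h : Static Γ L U x) : Cal L (crit L c) u x := by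
  intro s t hst
  obtain ⟨hx, e⟩ := h s t hst
  refine ⟨hx, le_antisymm (hd x s t hx) ?_⟩
  have hne : {r | ∃ y s' t', Adm L y s' t' ∧ y s' = x t ∧ (∃ γ : Γ, y t' = γ • x s) ∧
      r = act L U (alpha Γ L U) y s' t'}.Nonempty := by
    obtain ⟨B, hB⟩ := (hL.unif1 F).up 1
    obtain ⟨y, hy, y0, y1, -⟩ := exists_seg hL.smooth.continuousOn (x t) (x s) one_pos
      (hB L rfl)
    exact ⟨_, y, 0, _, hy, y0, ⟨1, by rw [y1, one_smul]⟩, rfl⟩
  have hlow : u (x s) - u (x t) - (U (x s) - U (x t)) ≤ Phi Γ L U (x t) (x s) :=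
    le_csInf hne (t9crit_low hU hu hd (alpha_eq_crit hU) (x t) (x s))
  rw [t9crit_act, alpha_eq_crit hU] at e
  linarith

lemma Cal.static (F : Deck Γ) (hL : Tonelli Γ L) (hc : c ∈ Coh Γ) {U : ℍ → ℝ} (hU : Eqv c U)
    (hu : Eqv c u) (hd : Dom L (crit L c) u) (h : Cal L (crit L c) u x) {γ : Γ} {T : ℝ}
    (hp : Per x γ T) : Static Γ L U x := by
  intro s t hst
  obtain ⟨hx, e⟩ := h s t hst
  refine ⟨hx, ?_⟩
  obtain ⟨j, hj⟩ := exists_nat_gt ((t - s) / T)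
  have hT := hp.1
  have hj' : t < s + ((j : ℤ) : ℝ) * T := by
    rw [div_lt_iff₀ hT] at hj
    push_cast
    linarith
  obtain ⟨hy, ey⟩ := h t _ hj'
  have e2 := hp.zpow (j : ℤ) s
  have hlow := t9crit_low hU hu hd (alpha_eq_crit hU) (x t) (x s)
  have hmem : u (x s) - u (x t) - (U (x s) - U (x t)) ∈
      {r | ∃ y s' t', Adm L y s' t' ∧ y s' = x t ∧ (∃ γ : Γ, y t' = γ • x s) ∧
        r = act L U (alpha Γ L U) y s' t'} := by
    refine ⟨x, t, _, hy, rfl, ⟨_, e2⟩, ?_⟩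
    rw [t9crit_act, alpha_eq_crit hU, ← ey, e2, hu, hU]
    ring
  have : Phi Γ L U (x t) (x s) = u (x s) - u (x t) - (U (x s) - U (x t)) :=
    IsLeast.csInf_eq ⟨hmem, hlow⟩
  rw [this, t9crit_act, alpha_eq_crit hU, ← e]
  ring

end Pool.Agent.Lib.MP_5bb885_an.Gen
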