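import Mathlib

/-!
Aubry sets of Tonelli Lagrangians on a closed surface `Γ \ ℍ`. Objects on the surface are
represented by their lifts to the upper half plane `ℍ ⊆ ℂ`, and a closed 1-form `ω` by a
primitive `U` of its lift.
-/

namespace Pool.Agent.Lib.MP_5bb885_an.Gen

open UpperHalfPlane MeasureTheory

open scoped ContDiff

/-- The first cohomology group `Hom(Γ, ℝ)`. -/
def Coh (Γ : Type) [Group Γ] : Submodule ℝ (Γ → ℝ) where
  carrier := {c | ∀ x y, c (x * y) = c x + c y}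
  zero_mem' := fun _ _ => by simp
  add_mem' := fun {a b} ha hb x y => by
    simp only [Pi.add_apply, ha x y, hb x y]
    ring
  smul_mem' := fun r a ha x y => by
    simp only [Pi.smul_apply, ha x y, smul_add]

/-- The tangent bundle of the upper half plane. -/
def TH : Set (ℂ × ℂ) := {p | 0 < p.1.im}

/-- The Lagrangian `L + f`. -/
def addP (L : ℂ × ℂ → ℝ) (f : ℂ → ℝ) : ℂ × ℂ → ℝ := fun p => L p + f p.1

/-- The second derivative. -/
noncomputable def D2 (L : ℂ × ℂ → ℝ) (p : ℂ × ℂ) : ℂ × ℂ →L[ℝ] ℂ × ℂ →L[ℝ] ℝ :=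
  fderiv ℝ (fderiv ℝ L) p

/-- The position part of a covector. -/
noncomputable def Dx (A : ℂ × ℂ →L[ℝ] ℝ) : ℂ →L[ℝ] ℝ := A.comp (ContinuousLinearMap.inl ℝ ℂ ℂ)

/-- The velocity part of a covector. -/
noncomputable def Dv (A : ℂ × ℂ →L[ℝ] ℝ) : ℂ →L[ℝ] ℝ := A.comp (ContinuousLinearMap.inr ℝ ℂ ℂ)

/-- `g` is `δ`-close to `f` in the `C^k` sense on the ball of radius `k`. -/
def Near (k : ℕ) (δ : ℝ) (f g : ℂ → ℝ) : Prop :=
  ∀ j ≤ k, ∀ z : ℍ, dist z I ≤ k → ‖iteratedFDeriv ℝ j (g - f) z‖ ≤ δ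

/-- The velocity of a curve. -/
noncomputable def vel (x : ℝ → ℍ) (t : ℝ) : ℂ := deriv (fun s => (x s : ℂ)) t

/-- The lift of a curve to the tangent bundle. -/
noncomputable def jet (x : ℝ → ℍ) (t : ℝ) : ℂ × ℂ := (x t, vel x t)

/-- An absolutely continuous curve on `[s, t]` with finite action. -/
def Adm (L : ℂ × ℂ → ℝ) (x : ℝ → ℍ) (s t : ℝ) : Prop :=
  s < t ∧ AbsolutelyContinuousOnInterval x s t ∧
    IntervalIntegrable (fun τ => L (jet x τ)) volume s t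

/-- The action of `L - ω + k` on `[s, t]`, for `ω = dU`. -/
noncomputable def act (L : ℂ × ℂ → ℝ) (U : ℍ → ℝ) (k : ℝ) (x : ℝ → ℍ) (s t : ℝ) : ℝ :=
  (∫ τ in s..t, (L (jet x τ) + k)) - (U (x t) - U (x s))

/-- Solutions of the Euler-Lagrange equation `d/dt L_v = L_x`. -/
def EL (L : ℂ × ℂ → ℝ) (x : ℝ → ℍ) : Prop :=
  ∀ t, DifferentiableAt ℝ (fun s => (x s : ℂ)) t ∧
    HasDerivAt (fun s => Dv (fderiv ℝ L (jet x s))) (Dx (fderiv ℝ L (jet x t))) t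

/-- Solutions of the linearised Euler-Lagrange equation along `x`. -/
def Jac (L : ℂ × ℂ → ℝ) (x : ℝ → ℍ) (η : ℝ → ℂ) : Prop :=
  ∀ t, DifferentiableAt ℝ η t ∧
    HasDerivAt (fun s => Dv (D2 L (jet x s) (η s, deriv η s)))
      (Dx (D2 L (jet x t) (η t, deriv η t))) t

/-- The variation `η` is tangent to the level of the energy `L_v v - L`. -/
def En (L : ℂ × ℂ → ℝ) (x : ℝ → ℍ) (η : ℝ → ℂ) : Prop :=
  ∀ t, D2 L (jet x t) (η t, deriv η t) (0, vel x t) = fderiv ℝ L (jet x t) (η t, 0)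

/-- Hyperbolic equilibria: the linearised equation has no bounded solution other than zero. -/
def HypEq (L : ℂ × ℂ → ℝ) (x : ℝ → ℍ) : Prop :=
  (∀ t, x t = x 0) ∧ ∀ η, Jac L x η → (∃ C, ∀ t, ‖η t‖ ≤ C) → ∀ t, η t = 0

variable (Γ : Type) [Group Γ] [MulAction Γ ℍ]

variable {Γ} in
/-- The derivative of a deck transformation. -/
noncomputable def dk (γ : Γ) (z : ℍ) : ℂ →L[ℝ] ℂ :=
  fderiv ℝ (fun w : ℂ => ((γ • ofComplex w : ℍ) : ℂ)) z

/-- Tonelli Lagrangians on the tangent bundle of `Γ \ ℍ`. -/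
structure Tonelli (L : ℂ × ℂ → ℝ) : Prop where
  smooth : ContDiffOn ℝ 2 L TH
  inv : ∀ (γ : Γ) (z : ℍ) (v : ℂ), L ((γ • z : ℍ), dk γ z v) = L (z, v)
  convex : ∀ p ∈ TH, ∀ w : ℂ, w ≠ 0 → 0 < D2 L p (0, w) (0, w)
  superlinear : ∀ A : ℝ, ∃ B : ℝ, ∀ (z : ℍ) (v : ℂ), A * (‖v‖ / z.im) - B ≤ L (z, v)

/-- Smooth functions on `Γ \ ℍ`. -/
structure Pot (f : ℂ → ℝ) : Prop where
  smooth : ContDiffOn ℝ ∞ f {w | 0 < w.im}
  inv : ∀ (γ : Γ) (z : ℍ), f (γ • z : ℍ) = f z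

/-- Open and dense sets of smooth functions on `Γ \ ℍ`, for the `C^∞` topology. -/
def OpenDense (O : Set (ℂ → ℝ)) : Prop :=
  (∀ f ∈ O, Pot Γ f → ∃ k δ, 0 < δ ∧ ∀ g, Pot Γ g → Near k δ f g → g ∈ O) ∧
    ∀ f, Pot Γ f → ∀ k δ, 0 < δ → ∃ g ∈ O, Pot Γ g ∧ Near k δ f g

variable (L : ℂ × ℂ → ℝ) (U : ℍ → ℝ)

/-- The critical value: the least `k` such that `L - ω + k` has nonnegative action on all closed
curves of the surface. -/
noncomputable def alpha : ℝ :=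
  sInf {k | ∀ x s t, Adm L x s t → (∃ γ : Γ, x t = γ • x s) → 0 ≤ act L U k x s t}

/-- The action potential between the points of the surface below `z` and `w`. -/
noncomputable def Phi (z w : ℍ) : ℝ :=
  sInf {r | ∃ x s t, Adm L x s t ∧ x s = z ∧ (∃ γ : Γ, x t = γ • w) ∧
    r = act L U (alpha Γ L U) x s t}

/-- Static curves. -/
def Static (x : ℝ → ℍ) : Prop :=
  ∀ s t, s < t → Adm L x s t ∧ act L U (alpha Γ L U) x s t = -Phi Γ L U (x t) (x s)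

/-- Hyperbolic periodic orbits: `x` closes up on the surface after time `T`, and the linearised
return map on the tangent space of the energy level, modulo the flow direction, has no eigenvector
`η + i ζ` with an eigenvalue `e^{i θ}`. -/
def HypPer (x : ℝ → ℍ) : Prop :=
  ∃ (γ : Γ) (T : ℝ), 0 < T ∧ (∀ t, x (t + T) = γ • x t) ∧ (∀ t, vel x t ≠ 0) ∧
    ∀ (θ a b : ℝ) (η ζ : ℝ → ℂ), Jac L x η → Jac L x ζ → En L x η → En L x ζ →
      (∀ t, η (t + T) = dk γ (x t) (Real.cos θ • η t - Real.sin θ • ζ t + a • vel x t)) →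
      (∀ t, ζ (t + T) = dk γ (x t) (Real.sin θ • η t + Real.cos θ • ζ t + b • vel x t)) →
      ∃ p q : ℝ, ∀ t, η t = p • vel x t ∧ ζ t = q • vel x t

/-- The Aubry set of `(L, c)` is one hyperbolic periodic orbit or one hyperbolic equilibrium. -/
def Good (c : Γ → ℝ) : Prop :=
  ∀ U : ℍ → ℝ, (∀ (γ : Γ) (z : ℍ), U (γ • z) = U z + c γ) →
    ∃ x₀ : ℝ → ℍ, EL L x₀ ∧ (HypPer Γ L x₀ ∨ HypEq L x₀) ∧
      ∀ x, Static Γ L U x ↔ ∃ (γ : Γ) (s : ℝ), ∀ t, x t = γ • x₀ (t + s)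

end Pool.Agent.Lib.MP_5bb885_an.Gen
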