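import Pool.Agent.Lib.MP_5bb885_an.T9Tay

/-!
Cutoff functions and invariant test functions.
-/

namespace Pool.Agent.Lib.MP_5bb885_an.Gen

open UpperHalfPlane MeasureTheory Filter Topology

open scoped ContDiff

variable {Γ : Type} [Group Γ] [MulAction Γ ℍ] {q : Bx} {a b e y : ℝ}

lemma contDiff_cut (a b e : ℝ) : ContDiff ℝ ∞ (cut a b e) := by
  unfold cut
  exact (Real.smoothTransition.contDiff.comp
    (((contDiff_id.sub contDiff_const).div_const e).add contDiff_const)).mul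
    (Real.smoothTransition.contDiff.comp
      (((contDiff_const.sub contDiff_id).div_const e).add contDiff_const))

lemma cut_nonneg (a b e y : ℝ) : 0 ≤ cut a b e y := by
  exact mul_nonneg (Real.smoothTransition.nonneg _) (Real.smoothTransition.nonneg _)

lemma cut_le_one (a b e y : ℝ) : cut a b e y ≤ 1 := by
  exact mul_le_one₀ (Real.smoothTransition.le_one _) (Real.smoothTransition.nonneg _)
    (Real.smoothTransition.le_one _)

lemma cut_eq_one (he : 0 < e) (h : y ∈ Set.Icc a b) : cut a b e y = 1 := by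
  have h1 : 0 ≤ (y - a) / e := div_nonneg (sub_nonneg.2 h.1) he.le
  have h2 : 0 ≤ (b - y) / e := div_nonneg (sub_nonneg.2 h.2) he.le
  rw [cut, Real.smoothTransition.one_of_one_le (by linarith),
    Real.smoothTransition.one_of_one_le (by linarith), one_mul]

lemma cut_eq_zero (he : 0 < e) (h : y ∉ Set.Ioo (a - e) (b + e)) : cut a b e y = 0 := by
  rw [Set.mem_Ioo, not_and_or, not_lt, not_lt] at h
  rcases h with h | h
  · have h1 : (y - a) / e ≤ -1 := by
      rw [div_le_iff₀ he]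
      linarith
    rw [cut, Real.smoothTransition.zero_of_nonpos (by linarith), zero_mul]
  · have h1 : (b - y) / e ≤ -1 := by
      rw [div_le_iff₀ he]
      linarith
    rw [cut, Real.smoothTransition.zero_of_nonpos (x := (b - y) / e + 1) (by linarith), mul_zero]

lemma t9fam_deriv : ∃ M : ℝ, 0 < M ∧ ∀ x, |deriv Real.smoothTransition x| ≤ M := by
  have hc : Continuous (deriv Real.smoothTransition) :=
    (Real.smoothTransition.contDiff (n := 1)).continuous_deriv (by simp)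
  obtain ⟨C, hC⟩ := (isCompact_Icc (a := (0 : ℝ)) (b := 1)).exists_bound_of_continuousOn
    hc.continuousOn
  refine ⟨|C| + 1, by positivity, fun x => ?_⟩
  have h0 : (0 : ℝ) ≤ |C| + 1 := by positivity
  rcases lt_or_ge x 0 with hx | hx
  · have : Real.smoothTransition =ᶠ[𝓝 x] fun _ => 0 := by
      filter_upwards [Iio_mem_nhds hx] with y hy using Real.smoothTransition.zero_of_nonpos hy.le
    rwa [this.deriv_eq, deriv_const, abs_zero]
  rcases lt_or_ge 1 x with hx' | hx'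
  · have : Real.smoothTransition =ᶠ[𝓝 x] fun _ => 1 := by
      filter_upwards [Ioi_mem_nhds hx'] with y hy using Real.smoothTransition.one_of_one_le hy.le
    rwa [this.deriv_eq, deriv_const, abs_zero]
  · have := hC x ⟨hx, hx'⟩
    rw [Real.norm_eq_abs] at this
    linarith [le_abs_self C]

lemma cut_lip : ∃ Λ : ℝ, 0 < Λ ∧ ∀ a b e : ℝ, 0 < e → (∀ y, |deriv (cut a b e) y| ≤ Λ / e) ∧
    ∀ y y', |cut a b e y - cut a b e y'| ≤ Λ / e * |y - y'| := by
  obtain ⟨M, hM0, hM⟩ := t9fam_deriv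
  have hd : ∀ x, HasDerivAt Real.smoothTransition (deriv Real.smoothTransition x) x := fun x =>
    ((Real.smoothTransition.contDiff (n := 1)).differentiable (by simp) x).hasDerivAt
  refine ⟨2 * M, by positivity, fun a b e he => ?_⟩
  have key : ∀ y, |deriv (cut a b e) y| ≤ 2 * M / e := by
    intro y
    have h1 : HasDerivAt (fun y : ℝ => (y - a) / e + 1) (1 / e) y :=
      (((hasDerivAt_id y).sub_const a).div_const e).add_const 1
    have h2 : HasDerivAt (fun y : ℝ => (b - y) / e + 1) (-1 / e) y :=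
      (((hasDerivAt_id y).const_sub b).div_const e).add_const 1
    have h3 : HasDerivAt (cut a b e) _ y := ((hd _).comp y h1).mul ((hd _).comp y h2)
    rw [h3.deriv]
    simp only [Function.comp_apply]
    have a1 := hM ((y - a) / e + 1)
    have a2 := hM ((b - y) / e + 1)
    have b1 : |Real.smoothTransition ((y - a) / e + 1)| ≤ 1 := by
      rw [abs_of_nonneg (Real.smoothTransition.nonneg _)]
      exact Real.smoothTransition.le_one _
    have b2 : |Real.smoothTransition ((b - y) / e + 1)| ≤ 1 := by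
      rw [abs_of_nonneg (Real.smoothTransition.nonneg _)]
      exact Real.smoothTransition.le_one _
    have e1 : |1 / e| = 1 / e := abs_of_pos (by positivity)
    have e2 : |-1 / e| = 1 / e := by rw [neg_div, abs_neg, e1]
    refine (abs_add_le _ _).trans ?_
    rw [abs_mul, abs_mul, abs_mul, abs_mul, e1, e2]
    have c1 : |deriv Real.smoothTransition ((y - a) / e + 1)| * (1 / e) *
        |Real.smoothTransition ((b - y) / e + 1)| ≤ M * (1 / e) * 1 := by gcongr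
    have c2 : |Real.smoothTransition ((y - a) / e + 1)| *
        (|deriv Real.smoothTransition ((b - y) / e + 1)| * (1 / e)) ≤ 1 * (M * (1 / e)) := by gcongr
    have c3 : 2 * M / e = M * (1 / e) * 1 + 1 * (M * (1 / e)) := by ring
    linarith
  refine ⟨key, fun y y' => ?_⟩
  have hdiff : Differentiable ℝ (cut a b e) := (contDiff_cut a b e).differentiable (by simp)
  exact convex_univ.norm_image_sub_le_of_norm_deriv_le (fun x _ => hdiff x) (fun x _ => key x)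
    (Set.mem_univ y') (Set.mem_univ y)

lemma Bx.fn_eq (q : Bx) (j : Fin 4) (z : ℂ) : q.fn j z = cut (-q.w) q.w q.w (co q.p q.d z).re *
    cut (q.a - q.e) (q.b + q.e) q.e (co q.p q.d z).im * q.md j z := rfl

lemma t9fam_co (q : Bx) : ContDiff ℝ ∞ (co q.p q.d) :=
  (contDiff_id.sub contDiff_const).div_const q.d

lemma t9fam_re (q : Bx) : ContDiff ℝ ∞ fun z => (co q.p q.d z).re :=
  Complex.reCLM.contDiff.comp (t9fam_co q)

lemma t9fam_im (q : Bx) : ContDiff ℝ ∞ fun z => (co q.p q.d z).im :=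
  Complex.imCLM.contDiff.comp (t9fam_co q)

lemma t9fam_closed (q : Bx) : IsClosed q.supp :=
  (isClosed_le (t9fam_re q).continuous.abs continuous_const).inter
    (isClosed_Icc.preimage (t9fam_im q).continuous)

lemma t9fam_coe (q : Bx) (j : Fin 4) (z : ℍ) :
    fam Γ q j z = ∑ᶠ γ : Γ, q.fn j ((γ • z : ℍ) : ℂ) := by
  rw [fam, ofComplex_apply]

lemma t9fam_near (z : ℍ) : ∀ᶠ w : ℍ in 𝓝 z, dist w I ≤ dist z I + 1 := by
  filter_upwards [Metric.ball_mem_nhds z one_pos] with w hw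
  have := dist_triangle w z I
  rw [Metric.mem_ball] at hw
  linarith

lemma t9fam_off (F : Deck Γ) (q : Bx) {γ : Γ} {z : ℍ} (h : ((γ • z : ℍ) : ℂ) ∉ q.supp) :
    ∀ᶠ w : ℍ in 𝓝 z, ((γ • w : ℍ) : ℂ) ∉ q.supp :=
  ((t9fam_closed q).isOpen_compl.preimage (continuous_coe.comp (F.cont γ))).mem_nhds h

lemma Bx.contDiff_md (q : Bx) (j : Fin 4) : ContDiff ℝ ∞ (q.md j) := by
  have h1 := t9fam_re q
  have h2 := t9fam_im q
  fin_cases j
  · exact contDiff_const
  · exact h1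
  · exact h2
  · have : q.md 3 = fun z => (co q.p q.d z).re * (co q.p q.d z).re +
        (co q.p q.d z).im * (co q.p q.d z).im := by
      funext z
      exact Complex.normSq_apply _
    exact this ▸ (h1.mul h1).add (h2.mul h2)

lemma Bx.contDiff_fn (q : Bx) (j : Fin 4) : ContDiff ℝ ∞ (q.fn j) := by
  exact (((contDiff_cut _ _ _).comp (t9fam_re q)).mul
    ((contDiff_cut _ _ _).comp (t9fam_im q))).mul (q.contDiff_md j)

lemma Bx.Ok.isCompact (h : q.Ok) : IsCompact q.supp := by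
  refine Metric.isCompact_of_isClosed_isBounded (t9fam_closed q) ?_
  refine (Metric.isBounded_closedBall (x := q.p)
    (r := ‖q.d‖ * (2 * q.w + (|q.a - 2 * q.e| + |q.b + 2 * q.e|)))).subset fun z hz => ?_
  have e : z - q.p = q.d * co q.p q.d z := by
    rw [co, mul_div_cancel₀ _ h.ne]
  rw [Metric.mem_closedBall, dist_eq_norm, e, norm_mul]
  refine mul_le_mul_of_nonneg_left ((Complex.norm_le_abs_re_add_abs_im _).trans ?_)
    (norm_nonneg _)
  refine add_le_add hz.1 (abs_le.2 ⟨?_, ?_⟩)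
  · have := hz.2.1
    have := neg_abs_le (q.a - 2 * q.e)
    have := abs_nonneg (q.b + 2 * q.e)
    linarith
  · have := hz.2.2
    have := le_abs_self (q.b + 2 * q.e)
    have := abs_nonneg (q.a - 2 * q.e)
    linarith

lemma Bx.Ok.fn_zero (h : q.Ok) (j : Fin 4) {z : ℂ} (hz : z ∉ q.supp) : q.fn j z = 0 := by
  rw [Bx.fn_eq]
  by_cases h1 : |(co q.p q.d z).re| ≤ 2 * q.w
  · have h2 : (co q.p q.d z).im ∉ Set.Ioo (q.a - q.e - q.e) (q.b + q.e + q.e) := fun h2 =>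
      hz ⟨h1, by linarith [h2.1], by linarith [h2.2]⟩
    rw [cut_eq_zero h.e h2, mul_zero, zero_mul]
  · have h2 : (co q.p q.d z).re ∉ Set.Ioo (-q.w - q.w) (q.w + q.w) := fun h2 =>
      h1 (abs_le.2 ⟨by linarith [h2.1], by linarith [h2.2]⟩)
    rw [cut_eq_zero h.w h2, zero_mul, zero_mul]

lemma Bx.fn_nonneg (q : Bx) (z : ℂ) : 0 ≤ q.fn 0 z := by
  rw [Bx.fn_eq]
  exact mul_nonneg (mul_nonneg (cut_nonneg _ _ _ _) (cut_nonneg _ _ _ _)) zero_le_one

instance countable_OB : Countable OB := by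
  have hc : (Set.range ((↑) : ℚ → ℝ)).Countable := Set.countable_range _
  have hp : (Set.pi Set.univ fun _ : Fin 8 => Set.range ((↑) : ℚ → ℝ)).Countable :=
    Set.countable_univ_pi fun _ => hc
  let f : Bx → Fin 8 → ℝ := fun q => ![q.p.re, q.p.im, q.d.re, q.d.im, q.w, q.a, q.b, q.e]
  have hf : Function.Injective f := by
    rintro ⟨p, d, w, a, b, e⟩ ⟨p', d', w', a', b', e'⟩ h
    have h0 : p.re = p'.re := congrFun h 0
    have h1 : p.im = p'.im := congrFun h 1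
    have h2 : d.re = d'.re := congrFun h 2
    have h3 : d.im = d'.im := congrFun h 3
    have h4 : w = w' := congrFun h 4
    have h5 : a = a' := congrFun h 5
    have h6 : b = b' := congrFun h 6
    have h7 : e = e' := congrFun h 7
    rw [Complex.ext h0 h1, Complex.ext h2 h3, h4, h5, h6, h7]
  have hs : {q : Bx | q.Ok}.Countable := by
    refine (hp.preimage_of_injOn (f := f) hf.injOn).mono ?_
    intro q hq i _
    have : f q i ∈ ({q.p.re, q.p.im, q.d.re, q.d.im, q.w, q.a, q.b, q.e} : Set ℝ) := by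
      fin_cases i <;> simp [f]
    obtain ⟨r, hr⟩ := Bx.Ok.rat hq _ this
    exact ⟨r, hr.symm⟩
  exact hs.to_subtype

lemma Bx.Ok.finite (F : Deck Γ) (h : q.Ok) (R : ℝ) : ∃ S : Finset Γ, ∀ z : ℍ, dist z I ≤ R →
    (∀ γ : Γ, ((γ • z : ℍ) : ℂ) ∈ q.supp → γ ∈ S) ∧
      ∀ j, fam Γ q j z = ∑ γ ∈ S, q.fn j (γ • z : ℍ) := by
  obtain ⟨R', hR'⟩ := exists_KB h.isCompact h.sub
  have key : ∀ z : ℍ, dist z I ≤ R → ∀ γ : Γ, ((γ • z : ℍ) : ℂ) ∈ q.supp →
      γ ∈ (F.fin' (max R R')).toFinset := fun z hz γ hγ =>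
    (Set.Finite.mem_toFinset _).2
      ⟨z, hz.trans (le_max_left _ _), (mem_KB.1 (hR' hγ)).trans (le_max_right _ _)⟩
  refine ⟨(F.fin' (max R R')).toFinset, fun z hz => ⟨key z hz, fun j => ?_⟩⟩
  rw [t9fam_coe]
  refine finsum_eq_sum_of_support_subset _ fun γ hγ => ?_
  by_contra hn
  exact hγ (h.fn_zero j fun hs => hn (key z hz γ hs))

theorem Bx.Ok.pot (F : Deck Γ) (h : q.Ok) (j : Fin 4) : Pot Γ (fam Γ q j) := by
  constructor
  · intro w hw
    obtain ⟨z, rfl⟩ : ∃ z : ℍ, (z : ℂ) = w := ⟨⟨w, hw⟩, rfl⟩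
    obtain ⟨S, hS⟩ := h.finite F (dist z I + 1)
    have h1 : fam Γ q j =ᶠ[𝓝 (z : ℂ)]
        fun w : ℂ => ∑ γ ∈ S, q.fn j ((γ • ofComplex w : ℍ) : ℂ) := by
      rw [← isOpenEmbedding_coe.map_nhds_eq, eventuallyEq_map]
      filter_upwards [t9fam_near z] with u hu
      simpa only [Function.comp_apply, ofComplex_apply] using (hS u hu).2 j
    refine (ContDiffAt.congr_of_eventuallyEq ?_ h1).contDiffWithinAt
    exact ContDiffAt.sum fun γ _ => (q.contDiff_fn j).contDiffAt.comp _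
      ((F.contDiffOn γ).contDiffAt (isOpen_HP.mem_nhds z.im_pos))
  · intro γ z
    rw [t9fam_coe, t9fam_coe]
    simp only [← mul_smul]
    exact finsum_comp (g := fun δ : Γ => q.fn j ((δ • z : ℍ) : ℂ)) (fun δ => δ * γ)
      (Group.mulRight_bijective γ)

lemma fam_nonneg (q : Bx) (z : ℂ) : 0 ≤ fam Γ q 0 z := by
  exact finsum_nonneg fun _ => q.fn_nonneg _

lemma Bx.Ok.fn_le_fam (F : Deck Γ) (h : q.Ok) (δ : Γ) (z : ℍ) :
    q.fn 0 (δ • z : ℍ) ≤ fam Γ q 0 z := by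
  obtain ⟨S, hS⟩ := h.finite F (dist z I)
  by_cases hδ : ((δ • z : ℍ) : ℂ) ∈ q.supp
  · rw [(hS z le_rfl).2 0]
    exact Finset.single_le_sum (f := fun γ : Γ => q.fn 0 ((γ • z : ℍ) : ℂ))
      (fun γ _ => q.fn_nonneg _) ((hS z le_rfl).1 δ hδ)
  · rw [h.fn_zero 0 hδ]
    exact fam_nonneg q _

lemma Bx.Ok.fam_eq (h : q.Ok) (j : Fin 4) {δ : Γ} {z : ℍ}
    (H : ∀ γ : Γ, ((γ • z : ℍ) : ℂ) ∈ q.supp → γ = δ) : fam Γ q j z = q.fn j (δ • z : ℍ) := by
  rw [t9fam_coe]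
  exact finsum_eq_single (fun γ : Γ => q.fn j ((γ • z : ℍ) : ℂ)) δ fun γ hγ =>
    h.fn_zero j fun hs => hγ (H γ hs)

lemma Bx.Ok.fam_eventually (F : Deck Γ) (h : q.Ok) {δ : Γ} {z : ℍ}
    (H : ∀ γ : Γ, ((γ • z : ℍ) : ℂ) ∈ q.supp → γ = δ) :
    ∀ᶠ w : ℍ in 𝓝 z, ∀ j, fam Γ q j w = q.fn j (δ • w : ℍ) := by
  obtain ⟨S, hS⟩ := h.finite F (dist z I + 1)
  have h1 : ∀ᶠ w : ℍ in 𝓝 z, ∀ γ ∈ S, γ ≠ δ → ((γ • w : ℍ) : ℂ) ∉ q.supp := by
    refine (Finset.eventually_all S).2 fun γ _ => ?_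
    by_cases hγ : γ = δ
    · exact Eventually.of_forall fun _ hn => absurd hγ hn
    · filter_upwards [t9fam_off F q fun hs => hγ (H γ hs)] with w hw _ using hw
  filter_upwards [h1, t9fam_near z] with w hw hw' j
  refine h.fam_eq j fun γ hγ => ?_
  by_contra hn
  exact hw γ ((hS w hw').1 γ hγ) hn hγ

lemma Bx.Ok.fam_zero (F : Deck Γ) (h : q.Ok) {z : ℍ} (H : ∀ γ : Γ, ((γ • z : ℍ) : ℂ) ∉ q.supp) :
    ∀ᶠ w : ℍ in 𝓝 z, ∀ j, fam Γ q j w = 0 := by
  filter_upwards [h.fam_eventually F (δ := 1) fun γ hγ => absurd hγ (H γ),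
    t9fam_off F q (H 1)] with w hw hw' j
  rw [hw j, h.fn_zero j hw']

lemma Bx.Ok.abs_fam_two (F : Deck Γ) (h : q.Ok) {r : ℝ} (h1 : -r ≤ q.a - 2 * q.e)
    (h2 : q.b + 2 * q.e ≤ r) (z : ℍ) : |fam Γ q 2 z| ≤ r * fam Γ q 0 z := by
  obtain ⟨S, hS⟩ := h.finite F (dist z I)
  rw [(hS z le_rfl).2 2, (hS z le_rfl).2 0, Finset.mul_sum]
  refine (Finset.abs_sum_le_sum_abs _ _).trans (Finset.sum_le_sum fun γ _ => ?_)
  by_cases hγ : ((γ • z : ℍ) : ℂ) ∈ q.supp
  · have e : q.fn 2 ((γ • z : ℍ) : ℂ) =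
        (co q.p q.d ((γ • z : ℍ) : ℂ)).im * q.fn 0 ((γ • z : ℍ) : ℂ) := by
      rw [Bx.fn_eq, Bx.fn_eq]
      change _ * (co q.p q.d ((γ • z : ℍ) : ℂ)).im = _ * (_ * 1)
      ring
    rw [e, abs_mul, abs_of_nonneg (q.fn_nonneg _)]
    exact mul_le_mul_of_nonneg_right
      (abs_le.2 ⟨h1.trans hγ.2.1, hγ.2.2.trans h2⟩) (q.fn_nonneg _)
  · rw [h.fn_zero 2 hγ, h.fn_zero 0 hγ, abs_zero, mul_zero]

/-- Small rational boxes around any point. -/
lemma exists_box (z : ℍ) {O : Set ℍ} (hO : O ∈ 𝓝 z) : ∃ q : Bx, q.Ok ∧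
    (∀ w : ℍ, (w : ℂ) ∈ q.supp → w ∈ O) ∧ |(co q.p q.d z).re| < q.w ∧
      (co q.p q.d z).im ∈ Set.Ioo q.a q.b := by
  have h1 : ((↑) : ℍ → ℂ) '' O ∈ 𝓝 (z : ℂ) := isOpenEmbedding_coe.image_mem_nhds.2 hO
  obtain ⟨ε, hε, hb⟩ := Metric.mem_nhds_iff.1 h1
  obtain ⟨w, hw0, hw⟩ := exists_rat_btwn (show (0 : ℝ) < ε / 10 by positivity)
  obtain ⟨x, hx0, hx⟩ := exists_rat_btwn (show (z : ℂ).re < (z : ℂ).re + w by linarith)
  obtain ⟨y, hy0, hy⟩ := exists_rat_btwn (show (z : ℂ).im < (z : ℂ).im + w by linarith)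
  let q : Bx := ⟨⟨x, y⟩, 1, w, -w, w, w⟩
  have hre : ∀ u : ℂ, (co q.p q.d u).re = u.re - x := fun u => by simp [co, q]
  have him : ∀ u : ℂ, (co q.p q.d u).im = u.im - y := fun u => by simp [co, q]
  have hs : q.supp ⊆ ((↑) : ℍ → ℂ) '' O := by
    refine Set.Subset.trans (fun u hu => ?_) hb
    obtain ⟨a1, a2, a3⟩ := hu
    rw [hre] at a1
    rw [him] at a2 a3
    change _ ≤ 2 * (w : ℝ) at a1
    change -(w : ℝ) - 2 * w ≤ _ at a2
    change _ ≤ (w : ℝ) + 2 * w at a3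
    rw [abs_le] at a1
    rw [Metric.mem_ball, dist_eq_norm]
    refine (Complex.norm_le_abs_re_add_abs_im _).trans_lt ?_
    have b1 : |(u - z).re| ≤ 3 * w := by
      rw [Complex.sub_re, abs_le]
      constructor <;> linarith [a1.1, a1.2]
    have b2 : |(u - z).im| ≤ 4 * w := by
      rw [Complex.sub_im, abs_le]
      constructor <;> linarith
    linarith
  refine ⟨q, ⟨one_ne_zero, hw0, hw0, ?_, ?_, ?_⟩, ?_, ?_, ?_⟩
  · change -(w : ℝ) < w
    linarith
  · intro u hu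
    obtain ⟨v, -, rfl⟩ := hs hu
    exact v.im_pos
  · intro t ht
    simp only [Set.mem_insert_iff, Set.mem_singleton_iff] at ht
    rcases ht with rfl | rfl | rfl | rfl | rfl | rfl | rfl | rfl
    · exact ⟨x, rfl⟩
    · exact ⟨y, rfl⟩
    · exact ⟨1, by simp [q]⟩
    · exact ⟨0, by simp [q]⟩
    · exact ⟨w, rfl⟩
    · exact ⟨-w, by simp [q]⟩
    · exact ⟨w, rfl⟩
    · exact ⟨w, rfl⟩
  · intro u hu
    obtain ⟨v, hv, e⟩ := hs hu
    rwa [← UpperHalfPlane.ext e]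
  · rw [hre, abs_lt]
    change -(w : ℝ) < _ ∧ _ < (w : ℝ)
    constructor <;> linarith
  · rw [him]
    change -(w : ℝ) < _ ∧ _ < (w : ℝ)
    constructor <;> linarith

lemma Bx.Ok.fn_core (h : q.Ok) (j : Fin 4) {z : ℂ} (h1 : |(co q.p q.d z).re| ≤ q.w)
    (h2 : (co q.p q.d z).im ∈ Set.Icc (q.a - q.e) (q.b + q.e)) : q.fn j z = q.md j z := by
  rw [Bx.fn_eq, cut_eq_one h.w (abs_le.1 h1), cut_eq_one h.e h2, one_mul, one_mul]

/-- A nonnegative sum of test functions that vanishes on a closed invariant set and is at least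
one away from it. -/
lemma exists_bumps (F : Deck Γ) {Z : Set ℍ} (hZ : IsClosed Z)
    (hi : ∀ (γ : Γ), ∀ z ∈ Z, γ • z ∈ Z) (hne : Z.Nonempty) {δ : ℝ} (hδ : 0 < δ) :
    ∃ s : Finset OB, (∀ z ∈ Z, ∑ i ∈ s, fam Γ i.1 0 z = 0) ∧
      ∀ z : ℍ, δ ≤ Metric.infDist z Z → 1 ≤ ∑ i ∈ s, fam Γ i.1 0 z := by
  classical
  obtain ⟨R, hR⟩ := F.cpt
  let K : Set ℍ := Metric.closedBall I R ∩ {z | δ ≤ Metric.infDist z Z}
  have hK : IsCompact K := (isCompact_closedBall I R).inter_right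
    (isClosed_le continuous_const (Metric.continuous_infDist_pt Z))
  have hn : ∀ z ∈ K, Zᶜ ∈ 𝓝 z := fun z hz => hZ.isOpen_compl.mem_nhds fun hzZ => by
    have h1 : δ ≤ Metric.infDist z Z := hz.2
    rw [Metric.infDist_zero_of_mem hzZ] at h1
    linarith
  choose B hB hB1 hB2 hB3 using fun (z : ℍ) (hz : z ∈ K) => exists_box z (hn z hz)
  let U : ∀ z ∈ K, Set ℍ := fun z hz => {w | |(co (B z hz).p (B z hz).d w).re| < (B z hz).w ∧
    (co (B z hz).p (B z hz).d w).im ∈ Set.Ioo (B z hz).a (B z hz).b}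
  have hU : ∀ z (hz : z ∈ K), U z hz ∈ 𝓝 z := fun z hz => by
    refine IsOpen.mem_nhds ?_ ⟨hB2 z hz, hB3 z hz⟩
    exact (isOpen_lt (((t9fam_re _).continuous.comp continuous_coe).abs) continuous_const).inter
      (isOpen_Ioo.preimage ((t9fam_im _).continuous.comp continuous_coe))
  obtain ⟨t, ht⟩ := hK.elim_nhds_subcover' U hU
  let g : K → OB := fun z => ⟨B z.1 z.2, hB z.1 z.2⟩
  refine ⟨t.image g, fun z hz => Finset.sum_eq_zero fun i hi' => ?_, fun z hz => ?_⟩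
  · obtain ⟨v, -, rfl⟩ := Finset.mem_image.1 hi'
    have H : ∀ γ : Γ, ((γ • z : ℍ) : ℂ) ∉ (B v.1 v.2).supp := fun γ hγ =>
      hB1 v.1 v.2 _ hγ (hi γ z hz)
    exact (Bx.Ok.fam_zero F (hB v.1 v.2) H).self_of_nhds 0
  · obtain ⟨γ, hγ⟩ := hR z
    have hK' : γ • z ∈ K := by
      refine ⟨hγ, (Metric.le_infDist hne).2 fun y hy => ?_⟩
      have e : dist (γ • z) y = dist z (γ⁻¹ • y) := by
        rw [← F.iso γ z, smul_inv_smul]
      rw [e]
      exact hz.trans (Metric.infDist_le_dist_of_mem (hi _ _ hy))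
    obtain ⟨v, hv, hv'⟩ := Set.mem_iUnion₂.1 (ht hK')
    have he := (hB v.1 v.2).e
    have h1 : (B v.1 v.2).fn 0 ((γ • z : ℍ) : ℂ) = 1 :=
      (hB v.1 v.2).fn_core 0 hv'.1.le ⟨by linarith [hv'.2.1], by linarith [hv'.2.2]⟩
    calc (1 : ℝ) ≤ fam Γ (g v).1 0 z := h1 ▸ (hB v.1 v.2).fn_le_fam F γ z
      _ ≤ _ := Finset.single_le_sum (f := fun i : OB => fam Γ i.1 0 z)
        (fun i _ => fam_nonneg _ _) (Finset.mem_image_of_mem g hv)

end Pool.Agent.Lib.MP_5bb885_an.Gen
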