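import Pool.Agent.Lib.MP_5bb885_an.T9SV1
import Pool.Agent.Lib.MP_5bb885_an.T9Fam

/-!
Equilibria.
-/

namespace Pool.Agent.Lib.MP_5bb885_an.Gen

open UpperHalfPlane MeasureTheory Filter Topology

variable {Γ : Type} [Group Γ] [MulAction Γ ℍ] {L : ℂ × ℂ → ℝ} {u : ℍ → ℝ} {k : ℝ}
  {A B : ℂ × ℂ →L[ℝ] ℂ × ℂ →L[ℝ] ℝ}

lemma NN_apply (p q : ℂ × ℂ) : NN p q = 2 * inner ℝ p.1 q.1 := by
  simp [NN]

lemma t9eq_NN (p : ℂ × ℂ) : NN p p = 2 * ‖p.1‖ ^ 2 := by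
  rw [NN_apply, real_inner_self_eq_norm_sq]

lemma t9eq_cont (A : ℂ × ℂ →L[ℝ] ℂ × ℂ →L[ℝ] ℝ) {ξ ξ' : ℝ → ℂ} (h1 : ∀ t, HasDerivAt ξ (ξ' t) t)
    (h2 : Continuous ξ') : Continuous fun t => A (ξ t, ξ' t) (ξ t, ξ' t) := by
  have h0 : Continuous ξ := continuous_iff_continuousAt.2 fun t => (h1 t).continuousAt
  have h3 : Continuous fun t => ((ξ t, ξ' t) : ℂ × ℂ) := h0.prodMk h2
  exact (A.continuous.comp h3).clm_apply h3

lemma t9eq_mono (h : QPos A) {c : ℝ} (hc : 0 ≤ c) (H : ∀ p, c * A p p ≤ B p p) : QPos B := by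
  intro a b ξ ξ' hab h1 h2 ha hb
  have := h a b ξ ξ' hab h1 h2 ha hb
  calc 0 ≤ c * ∫ t in a..b, A (ξ t, ξ' t) (ξ t, ξ' t) := mul_nonneg hc this
    _ = ∫ t in a..b, c * A (ξ t, ξ' t) (ξ t, ξ' t) := by rw [intervalIntegral.integral_const_mul]
    _ ≤ _ := intervalIntegral.integral_mono_on hab.le
        ((continuous_const.mul (t9eq_cont A h1 h2)).intervalIntegrable _ _)
        ((t9eq_cont B h1 h2).intervalIntegrable _ _) fun t _ => H _

lemma t9eq_le (A : ℂ × ℂ →L[ℝ] ℂ × ℂ →L[ℝ] ℝ) (p q : ℂ × ℂ) : |A p q| ≤ ‖A‖ * ‖p‖ * ‖q‖ :=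
  A.le_opNorm₂ p q

lemma t9eq_tend {E : Type} [NormedAddCommGroup E] [NormedSpace ℝ E] (A : E →L[ℝ] E →L[ℝ] ℝ) :
    Tendsto (fun B => ‖B - A‖) (𝓝 A) (𝓝 0) :=
  tendsto_norm_sub_self A

lemma QPos.add_NN (h : QPos A) {τ : ℝ} (hτ : 0 ≤ τ) : QPos (A + τ • NN) := by
  refine t9eq_mono h zero_le_one fun p => ?_
  simp only [add_apply, smul_apply, smul_eq_mul, t9eq_NN]
  have : 0 ≤ τ * (2 * ‖p.1‖ ^ 2) := by positivity
  linarith

lemma QPos.of_tendsto {As : ℕ → ℂ × ℂ →L[ℝ] ℂ × ℂ →L[ℝ] ℝ} (h : ∀ n, QPos (As n))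
    (hl : Tendsto As atTop (𝓝 A)) : QPos A := by
  intro a b ξ ξ' hab h1 h2 ha hb
  have h0 : Continuous ξ := continuous_iff_continuousAt.2 fun t => (h1 t).continuousAt
  have h3 : Continuous fun t => ‖((ξ t, ξ' t) : ℂ × ℂ)‖ ^ 2 := (h0.prodMk h2).norm.pow 2
  have H : ∀ n, 0 ≤ (∫ t in a..b, A (ξ t, ξ' t) (ξ t, ξ' t))
      + ‖As n - A‖ * ∫ t in a..b, ‖((ξ t, ξ' t) : ℂ × ℂ)‖ ^ 2 := by
    intro n
    refine (h n a b ξ ξ' hab h1 h2 ha hb).trans ?_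
    rw [← intervalIntegral.integral_const_mul, ← intervalIntegral.integral_add
      ((t9eq_cont A h1 h2).intervalIntegrable _ _)
      ((h3.const_mul _).intervalIntegrable _ _)]
    refine intervalIntegral.integral_mono_on hab.le
      ((t9eq_cont _ h1 h2).intervalIntegrable _ _)
      (((t9eq_cont A h1 h2).add (h3.const_mul _)).intervalIntegrable _ _) fun t _ => ?_
    have := (abs_le.1 (t9eq_le (As n - A) (ξ t, ξ' t) (ξ t, ξ' t))).2
    simp only [sub_apply] at this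
    nlinarith
  have hn : Tendsto (fun n => ‖As n - A‖) atTop (𝓝 0) := (t9eq_tend A).comp hl
  have := (hn.mul_const (∫ t in a..b, ‖((ξ t, ξ' t) : ℂ × ℂ)‖ ^ 2)).const_add
    (∫ t in a..b, A (ξ t, ξ' t) (ξ t, ξ' t))
  rw [zero_mul, add_zero] at this
  exact ge_of_tendsto' this H

lemma t9eq_coer (hA : ∀ w : ℂ, w ≠ 0 → 0 < A (0, w) (0, w)) :
    ∃ m : ℝ, 0 < m ∧ ∀ w : ℂ, m * ‖w‖ ^ 2 ≤ A (0, w) (0, w) := by
  have h3 : Continuous fun w : ℂ => (((0 : ℂ), w) : ℂ × ℂ) := continuous_const.prodMk continuous_id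
  have hc : Continuous fun w : ℂ => A (0, w) (0, w) := (A.continuous.comp h3).clm_apply h3
  obtain ⟨w₀, hw₀, hm⟩ := (isCompact_sphere (0 : ℂ) 1).exists_isMinOn ⟨1, by simp⟩ hc.continuousOn
  have n0 : ‖w₀‖ = 1 := by simpa using hw₀
  refine ⟨A (0, w₀) (0, w₀), hA _ (by rintro rfl; simp at n0), fun w => ?_⟩
  rcases eq_or_ne w 0 with rfl | hw
  · simp [show (((0 : ℂ), (0 : ℂ)) : ℂ × ℂ) = 0 from rfl]
  · have hn : 0 < ‖w‖ := norm_pos_iff.2 hw
    have h1 : A (0, w₀) (0, w₀) ≤ A (0, ‖w‖⁻¹ • w) (0, ‖w‖⁻¹ • w) :=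
      hm (show ‖w‖⁻¹ • w ∈ Metric.sphere (0 : ℂ) 1 by
        rw [mem_sphere_zero_iff_norm, norm_smul, norm_inv, norm_norm, inv_mul_cancel₀ hn.ne'])
    have e : (((0 : ℂ), w) : ℂ × ℂ) = ‖w‖ • (((0 : ℂ), ‖w‖⁻¹ • w) : ℂ × ℂ) := by
      rw [Prod.smul_mk, smul_zero, smul_smul, mul_inv_cancel₀ hn.ne', one_smul]
    have e2 : A (0, w) (0, w) = ‖w‖ ^ 2 * A (0, ‖w‖⁻¹ • w) (0, ‖w‖⁻¹ • w) := by
      conv_lhs => rw [e]
      simp only [map_smul, smul_apply, smul_eq_mul]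
      ring
    rw [e2, mul_comm]
    exact mul_le_mul_of_nonneg_left h1 (by positivity)

lemma t9eq_lower (hA : ∀ w : ℂ, w ≠ 0 → 0 < A (0, w) (0, w)) :
    ∃ m M : ℝ, 0 < m ∧ 0 < M ∧ ∀ p : ℂ × ℂ, m * ‖p.2‖ ^ 2 - M * ‖p.1‖ ^ 2 ≤ A p p := by
  obtain ⟨m, hm, H⟩ := t9eq_coer hA
  refine ⟨m / 2, ‖A‖ + 2 * ‖A‖ ^ 2 / m + 1, by positivity, by positivity, fun p => ?_⟩
  obtain ⟨x, v⟩ := p
  have e : ((x, v) : ℂ × ℂ) = (x, 0) + (0, v) := by simp
  have e2 : A (x, v) (x, v) = A (x, 0) (x, 0) + A (x, 0) (0, v) + A (0, v) (x, 0)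
      + A (0, v) (0, v) := by
    conv_lhs => rw [e]
    simp only [map_add, add_apply]
    ring
  have n1 : ‖((x, (0 : ℂ)) : ℂ × ℂ)‖ = ‖x‖ := by simp
  have n2 : ‖(((0 : ℂ), v) : ℂ × ℂ)‖ = ‖v‖ := by simp
  have b1 := (abs_le.1 (t9eq_le A (x, 0) (x, 0))).1
  have b2 := (abs_le.1 (t9eq_le A (x, 0) (0, v))).1
  have b3 := (abs_le.1 (t9eq_le A (0, v) (x, 0))).1
  rw [n1] at b1
  rw [n1, n2] at b2 b3
  have b4 := H v
  have b5 : 2 * ‖A‖ * ‖x‖ * ‖v‖ ≤ m / 2 * ‖v‖ ^ 2 + 2 * ‖A‖ ^ 2 / m * ‖x‖ ^ 2 := by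
    have : m / 2 * ‖v‖ ^ 2 + 2 * ‖A‖ ^ 2 / m * ‖x‖ ^ 2 - 2 * ‖A‖ * ‖x‖ * ‖v‖
        = (m * ‖v‖ - 2 * ‖A‖ * ‖x‖) ^ 2 / (2 * m) := by
      field_simp
      ring
    have h2 : 0 ≤ (m * ‖v‖ - 2 * ‖A‖ * ‖x‖) ^ 2 / (2 * m) := by positivity
    linarith
  rw [e2]
  dsimp only
  nlinarith [sq_nonneg ‖x‖]

lemma QPos.stable (hA : ∀ w : ℂ, w ≠ 0 → 0 < A (0, w) (0, w)) {τ : ℝ} (hτ : 0 < τ)
    (h : QPos (A - τ • NN)) : ∃ τ' : ℝ, 0 < τ' ∧ ∀ᶠ B in 𝓝 A, QPos (B - τ' • NN) := by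
  obtain ⟨m, M, hm, hM, H⟩ := t9eq_lower hA
  obtain ⟨θ, hθ, hθ1, hθ2⟩ : ∃ θ : ℝ, 0 < θ ∧ θ ≤ 1 / 2 ∧ θ * M ≤ τ / 4 := by
    refine ⟨min (1 / 2) (τ / 4 / M), by positivity, min_le_left _ _, ?_⟩
    exact (le_div_iff₀ hM).1 (min_le_right _ _)
  refine ⟨τ / 4, by positivity, ?_⟩
  have hε : 0 < min (θ * m) (τ / 4) := by positivity
  filter_upwards [(t9eq_tend A).eventually (ge_mem_nhds hε)] with B hB
  refine t9eq_mono h (c := 1 - θ) (by linarith) fun p => ?_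
  have b1 := (abs_le.1 (t9eq_le (B - A) p p)).1
  simp only [sub_apply, smul_apply, smul_eq_mul,
    t9eq_NN] at b1 ⊢
  have b2 : ‖p‖ * ‖p‖ ≤ ‖p.1‖ ^ 2 + ‖p.2‖ ^ 2 := by
    rw [Prod.norm_def]
    rcases le_total ‖p.1‖ ‖p.2‖ with h' | h'
    · rw [max_eq_right h']; nlinarith [sq_nonneg ‖p.1‖]
    · rw [max_eq_left h']; nlinarith [sq_nonneg ‖p.2‖]
  have b3 : ‖B - A‖ * ‖p‖ * ‖p‖ ≤ τ / 4 * ‖p.1‖ ^ 2 + θ * m * ‖p.2‖ ^ 2 := by
    rw [mul_assoc]
    refine (mul_le_mul_of_nonneg_left b2 (norm_nonneg (B - A))).trans ?_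
    rw [mul_add]
    exact add_le_add
      (mul_le_mul_of_nonneg_right (hB.trans (min_le_right _ _)) (by positivity))
      (mul_le_mul_of_nonneg_right (hB.trans (min_le_left _ _)) (by positivity))
  have b4 := mul_le_mul_of_nonneg_left (H p) hθ.le
  have b5 := mul_le_mul_of_nonneg_right hθ2 (sq_nonneg ‖p.1‖)
  have b6 := mul_le_mul_of_nonneg_right hθ1 (mul_nonneg hτ.le (sq_nonneg ‖p.1‖))
  nlinarith

lemma Deg.of_tendsto {As : ℕ → ℂ × ℂ →L[ℝ] ℂ × ℂ →L[ℝ] ℝ} (h : ∀ n, Deg (As n))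
    (hA : ∀ w : ℂ, w ≠ 0 → 0 < A (0, w) (0, w)) (hl : Tendsto As atTop (𝓝 A)) : Deg A := by
  refine ⟨QPos.of_tendsto (fun n => (h n).1) hl, fun τ hτ hq => ?_⟩
  obtain ⟨τ', hτ', H⟩ := hq.stable hA hτ
  obtain ⟨n, hn⟩ := (hl.eventually H).exists
  exact (h n).2 τ' hτ' hn

lemma t9eq_unique {s t : ℝ} (h : Deg (A + s • NN)) (h' : Deg (A + t • NN)) : t ≤ s := by
  by_contra hc
  refine h'.2 (t - s) (by linarith [not_le.1 hc]) ?_
  have : A + t • NN - (t - s) • NN = A + s • NN := by module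
  rw [this]
  exact h.1

lemma Deg.unique {s t : ℝ} (h : Deg (A + s • NN)) (h' : Deg (A + t • NN)) : s = t :=
  le_antisymm (t9eq_unique h' h) (t9eq_unique h h')

lemma t9eq_split (P : ℂ × ℂ →L[ℝ] ℝ) (x v : ℂ) : P (x, v) = Dx P x + Dv P v := by
  have e : ((x, v) : ℂ × ℂ) = (x, 0) + (0, v) := by simp
  rw [e, map_add]
  rfl

/-- the second variation of a cut off solution -/
lemma t9eq_int (hA : ∀ w : ℂ, w ≠ 0 → 0 < A (0, w) (0, w)) (hs : ∀ p q, A p q = A q p)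
    {η : ℝ → ℂ} (h : JacA (fun _ => A) η) {χ χ' : ℝ → ℝ} (h1 : ∀ t, HasDerivAt χ (χ' t) t)
    (h2 : Continuous χ') {a b : ℝ} (ha : χ a = 0) (hb : χ b = 0) :
    ∫ t in a..b, A (χ t • η t, χ t • deriv η t + χ' t • η t)
        (χ t • η t, χ t • deriv η t + χ' t • η t)
      = ∫ t in a..b, χ' t ^ 2 * A (0, η t) (0, η t) := by
  have hc : Continuous (deriv η) := h.contDeriv ⟨continuous_const, fun _ => hA⟩
  have hη : ∀ t, HasDerivAt η (deriv η t) t := fun t => (h t).1.hasDerivAt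
  have c0 : Continuous η := continuous_iff_continuousAt.2 fun t => (hη t).continuousAt
  have c1 : Continuous χ := continuous_iff_continuousAt.2 fun t => (h1 t).continuousAt
  have j1 : Continuous fun t => ((η t, deriv η t) : ℂ × ℂ) := c0.prodMk hc
  have j2 : Continuous fun t => (((0 : ℂ), η t) : ℂ × ℂ) := continuous_const.prodMk c0
  have k1 : Continuous fun t => A (η t, deriv η t) (η t, deriv η t) :=
    (A.continuous.comp j1).clm_apply j1
  have k2 : Continuous fun t => A (η t, deriv η t) (0, η t) := (A.continuous.comp j1).clm_apply j2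
  have k3 : Continuous fun t => A (0, η t) (0, η t) := (A.continuous.comp j2).clm_apply j2
  have hd : ∀ t, HasDerivAt (fun s => χ s * χ s * Dv (A (η s, deriv η s)) (η s))
      (2 * χ t * χ' t * A (η t, deriv η t) (0, η t)
        + χ t ^ 2 * A (η t, deriv η t) (η t, deriv η t)) t := by
    intro t
    have d1 := ((h1 t).fun_mul (h1 t)).fun_mul ((h t).2.clm_apply (hη t))
    refine d1.congr_deriv ?_
    rw [t9eq_split (A (η t, deriv η t)) (η t) (deriv η t)]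
    have : Dv (A (η t, deriv η t)) (η t) = A (η t, deriv η t) (0, η t) := rfl
    rw [this]
    ring
  have c2 : Continuous fun t => 2 * χ t * χ' t * A (η t, deriv η t) (0, η t)
        + χ t ^ 2 * A (η t, deriv η t) (η t, deriv η t) := by fun_prop
  have i0 := intervalIntegral.integral_eq_sub_of_hasDerivAt (fun t _ => hd t)
    (c2.intervalIntegrable a b)
  rw [ha, hb] at i0
  simp only [zero_mul, sub_zero] at i0
  have c3 : Continuous fun t => χ' t ^ 2 * A (0, η t) (0, η t) := by fun_prop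
  rw [← add_zero (∫ t in a..b, χ' t ^ 2 * A (0, η t) (0, η t)), ← i0,
    ← intervalIntegral.integral_add (c3.intervalIntegrable a b) (c2.intervalIntegrable a b)]
  refine intervalIntegral.integral_congr fun t _ => ?_
  have e : ((χ t • η t, χ t • deriv η t + χ' t • η t) : ℂ × ℂ)
      = χ t • (η t, deriv η t) + χ' t • ((0 : ℂ), η t) := by simp
  simp only [e, map_add, map_smul, add_apply, smul_apply,
    smul_eq_mul, hs (0, η t) (η t, deriv η t)]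
  ring

/-- A bounded solution other than zero excludes strict positivity. -/
lemma not_qpos (hA : ∀ w : ℂ, w ≠ 0 → 0 < A (0, w) (0, w)) (hs : ∀ p q, A p q = A q p)
    {η : ℝ → ℂ} (h : JacA (fun _ => A) η) {C : ℝ} (hC : ∀ t, ‖η t‖ ≤ C) {t₀ : ℝ} (h0 : η t₀ ≠ 0)
    {τ : ℝ} (hτ : 0 < τ) : ¬QPos (A - τ • NN) := by
  intro hq
  have hc : Continuous (deriv η) := h.contDeriv ⟨continuous_const, fun _ => hA⟩
  have hη : ∀ t, HasDerivAt η (deriv η t) t := fun t => (h t).1.hasDerivAt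
  have c0 : Continuous η := continuous_iff_continuousAt.2 fun t => (hη t).continuousAt
  have hpos : 0 < ∫ t in (t₀ - 1)..(t₀ + 1), ‖η t‖ ^ 2 := by
    refine intervalIntegral.integral_pos (by linarith) (c0.norm.pow 2).continuousOn
      (fun t _ => by positivity) ⟨t₀, ⟨by linarith, by linarith⟩, ?_⟩
    have := norm_pos_iff.2 h0
    positivity
  set c := ∫ t in (t₀ - 1)..(t₀ + 1), ‖η t‖ ^ 2 with hcdef
  obtain ⟨Λ, hΛ, HΛ⟩ := cut_lip
  have hC0 : 0 ≤ C := (norm_nonneg _).trans (hC 0)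
  obtain ⟨R, hR1, hR2⟩ : ∃ R : ℝ, 1 ≤ R ∧ 4 * Λ ^ 2 * (‖A‖ * C * C) < R * (2 * τ * c) := by
    refine ⟨4 * Λ ^ 2 * (‖A‖ * C * C) / (2 * τ * c) + 1, ?_, ?_⟩
    · have : 0 ≤ 4 * Λ ^ 2 * (‖A‖ * C * C) / (2 * τ * c) := by positivity
      linarith
    · rw [add_mul, div_mul_cancel₀ _ (by positivity), one_mul]
      have : 0 < 2 * τ * c := by positivity
      linarith
  have hR : 0 < R := by linarith
  set χ := cut (t₀ - R) (t₀ + R) R with hχ
  have s1 : ContDiff ℝ 1 χ := (contDiff_cut _ _ _).of_le (by exact_mod_cast le_top)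
  have h1 : ∀ t, HasDerivAt χ (deriv χ t) t := fun t =>
    (s1.differentiable one_ne_zero t).hasDerivAt
  have h2 : Continuous (deriv χ) := s1.continuous_deriv le_rfl
  have c1 : Continuous χ := s1.continuous
  have ha : χ (t₀ - R - R) = 0 := cut_eq_zero hR fun hm => lt_irrefl _ hm.1
  have hb : χ (t₀ + R + R) = 0 := cut_eq_zero hR fun hm => lt_irrefl _ hm.2
  have hab : t₀ - R - R < t₀ + R + R := by linarith
  have d1 : ∀ t, HasDerivAt (fun s => χ s • η s) (χ t • deriv η t + deriv χ t • η t) t :=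
    fun t => (h1 t).smul (hη t)
  have d2 : Continuous fun t => χ t • deriv η t + deriv χ t • η t := by fun_prop
  have key := hq _ _ _ _ hab d1 d2 (by simp [ha]) (by simp [hb])
  simp only [sub_apply, smul_apply, smul_eq_mul,
    t9eq_NN] at key
  have c4 : Continuous fun t => ‖χ t • η t‖ ^ 2 := by fun_prop
  rw [intervalIntegral.integral_sub ((t9eq_cont A d1 d2).intervalIntegrable _ _)
    (((c4.const_mul 2).const_mul τ).intervalIntegrable _ _),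
    t9eq_int hA hs h h1 h2 ha hb, intervalIntegral.integral_const_mul,
    intervalIntegral.integral_const_mul] at key
  have l1 : c ≤ ∫ t in (t₀ - R - R)..(t₀ + R + R), ‖χ t • η t‖ ^ 2 := by
    have e : c = ∫ t in (t₀ - 1)..(t₀ + 1), ‖χ t • η t‖ ^ 2 := by
      refine intervalIntegral.integral_congr fun t ht => ?_
      rw [Set.uIcc_of_le (by linarith)] at ht
      have : χ t = 1 := cut_eq_one hR ⟨by linarith [ht.1], by linarith [ht.2]⟩
      simp [this]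
    rw [e]
    refine intervalIntegral.integral_mono_interval (by linarith) (by linarith) (by linarith)
      (Eventually.of_forall fun t => by positivity) (c4.intervalIntegrable _ _)
  have l2 : ∫ t in (t₀ - R - R)..(t₀ + R + R), deriv χ t ^ 2 * A (0, η t) (0, η t)
      ≤ (Λ / R) ^ 2 * (‖A‖ * C * C) * (4 * R) := by
    have := intervalIntegral.norm_integral_le_of_norm_le_const (a := t₀ - R - R) (b := t₀ + R + R)
      (C := (Λ / R) ^ 2 * (‖A‖ * C * C))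
      (f := fun t => deriv χ t ^ 2 * A (0, η t) (0, η t)) (fun t _ => by
        rw [Real.norm_eq_abs, abs_mul, abs_pow]
        refine mul_le_mul (pow_le_pow_left₀ (abs_nonneg _) ((HΛ _ _ _ hR).1 t) 2) ?_
          (abs_nonneg _) (by positivity)
        have n2 : ‖(((0 : ℂ), η t) : ℂ × ℂ)‖ = ‖η t‖ := by simp
        refine (t9eq_le A _ _).trans ?_
        rw [n2]
        have := hC t
        gcongr)
    rw [show t₀ + R + R - (t₀ - R - R) = 4 * R by ring, abs_of_pos (by positivity)] at this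
    exact (le_abs_self _).trans this
  have l3 : (Λ / R) ^ 2 * (‖A‖ * C * C) * (4 * R) = 4 * Λ ^ 2 * (‖A‖ * C * C) / R := by
    field_simp
  have l4 : 4 * Λ ^ 2 * (‖A‖ * C * C) / R < 2 * τ * c := by
    rw [div_lt_iff₀ hR]; linarith
  nlinarith

lemma t9eq_vel (z : ℍ) (t : ℝ) : vel (fun _ => z) t = 0 := by simp [vel]

lemma t9eq_jet (z : ℍ) (t : ℝ) : jet (fun _ => z) t = ((z : ℂ), 0) := by simp [jet, t9eq_vel]

lemma Cal.qpos (F : Deck Γ) (hL : Tonelli Γ L) (hd : Dom L k u) {z : ℍ}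
    (h : Cal L k u fun _ => z) : Dx (fderiv ℝ L (z, 0)) = 0 ∧ QPos (D2 L (z, 0)) := by
  have hx : Reg L fun _ => z := h.reg (hL.unif1 F) rfl hd
  constructor
  · have d1 := hx.hasDerivAt_mom 0
    have e : mom L (fun _ => z) = fun _ => Dv (fderiv ℝ L (z, 0)) := by
      funext t
      rw [mom, t9eq_jet]
    rw [e, frc, t9eq_jet] at d1
    exact d1.unique (hasDerivAt_const _ _)
  · intro a b ξ ξ' hab h1 h2 ha hb
    refine le_of_forall_pos_le_add fun θ hθ => ?_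
    have H := sv_expand hL.smooth hx hab h1 h2 k (half_pos hθ)
    obtain ⟨ε, ⟨-, hadm, hε⟩, hne⟩ :=
      ((H.filter_mono nhdsWithin_le_nhds).and (self_mem_nhdsWithin (s := {0}ᶜ))).exists
    have hne' : ε ≠ 0 := hne
    have p1 := hd _ _ _ hadm
    have p2 := (h a b hab).2
    simp only [ha, hb, smul_zero, add_zero, sub_self, map_zero, mul_zero, sub_zero,
      t9eq_jet] at p1 p2 hε
    rw [← p2] at hε
    have p3 := (abs_le.1 hε).2
    have p4 : 0 < ε ^ 2 := by positivity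
    by_contra hc
    nlinarith [mul_pos p4 (sub_pos.2 (not_le.1 hc))]

theorem Cal.hyp_or_deg (F : Deck Γ) (hL : Tonelli Γ L) (hd : Dom L k u) {z : ℍ}
    (h : Cal L k u fun _ => z) : Hyp L (fun _ => z) ∨ DegEq L := by
  obtain ⟨h1, h2⟩ := h.qpos F hL hd
  by_cases hq : ∀ τ : ℝ, 0 < τ → ¬QPos (D2 L (z, 0) - τ • NN)
  · exact Or.inr ⟨z, h1, h2, hq⟩
  · left
    push Not at hq
    obtain ⟨τ, hτ, hq⟩ := hq
    rintro η hj - ⟨C, hC⟩
    refine ⟨0, fun t => ?_⟩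
    rw [zero_smul]
    by_contra h0
    have hz : (((z : ℂ), (0 : ℂ)) : ℂ × ℂ) ∈ TH := z.im_pos
    refine not_qpos (C := C * z.im) (hL.convex _ hz) (D2_symm hL.smooth hz) (η := η) ?_
      (fun s => ?_) h0 hτ hq
    · intro s
      have := hj s
      simp only [t9eq_jet] at this
      exact this
    · obtain ⟨a, ha⟩ := hC s
      rwa [t9eq_vel, smul_zero, sub_zero] at ha

end Pool.Agent.Lib.MP_5bb885_an.Gen
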