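import Pool.Agent.Lib.MP_5bb885_an.T9Core

/-!
Null sets.
-/

namespace Pool.Agent.Lib.MP_5bb885_an.Gen

open UpperHalfPlane MeasureTheory Filter Topology

open Classical in
lemma t9null_upd_meas {ι : Type} {E : Type} [MeasurableSpace E] (i : ι) :
    Measurable (fun p : (ι → E) × E => Function.update p.1 i p.2) :=
  measurable_update'

open Classical in
lemma t9null_upd_map {ι : Type} {E : Type} [MeasurableSpace E] (μ : Measure E)
    [IsProbabilityMeasure μ] (i : ι) :
    ((Measure.infinitePi (fun _ : ι => μ)).prod μ).map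
      (fun p : (ι → E) × E => Function.update p.1 i p.2) =
      Measure.infinitePi (fun _ : ι => μ) := by
  refine Measure.eq_infinitePi (fun _ : ι => μ) fun s t ht => ?_
  rw [Measure.map_apply (t9null_upd_meas i)
    (MeasurableSet.pi s.countable_toSet fun j _ => ht j)]
  by_cases hi : i ∈ s
  · have e : (fun p : (ι → E) × E => Function.update p.1 i p.2) ⁻¹' (Set.pi (s : Set ι) t) =
        (Set.pi ((s.erase i : Finset ι) : Set ι) t) ×ˢ (t i) := by
      ext ⟨a, y⟩
      simp only [Set.mem_preimage, Set.mem_pi, Finset.mem_coe, Set.mem_prod, Finset.mem_erase]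
      constructor
      · intro h
        refine ⟨fun j hj => ?_, ?_⟩
        · have := h j hj.2
          rwa [Function.update_of_ne hj.1] at this
        · have := h i hi
          rwa [Function.update_self] at this
      · rintro ⟨h1, h2⟩ j hj
        by_cases hji : j = i
        · subst hji
          rwa [Function.update_self]
        · rw [Function.update_of_ne hji]
          exact h1 j ⟨hji, hj⟩
    rw [e, Measure.prod_prod, Measure.infinitePi_pi _ (fun j _ => ht j),
      Finset.prod_erase_mul _ _ hi]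
  · have e : (fun p : (ι → E) × E => Function.update p.1 i p.2) ⁻¹' (Set.pi (s : Set ι) t) =
        (Set.pi (s : Set ι) t) ×ˢ (Set.univ : Set E) := by
      ext ⟨a, y⟩
      simp only [Set.mem_preimage, Set.mem_pi, Finset.mem_coe, Set.mem_prod, Set.mem_univ,
        and_true]
      refine forall_congr' fun j => forall_congr' fun hj => ?_
      have hji : j ≠ i := fun e => hi (e ▸ hj)
      rw [Function.update_of_ne hji]
    rw [e, Measure.prod_prod, Measure.infinitePi_pi _ (fun j _ => ht j), measure_univ, mul_one]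

open Classical in
/-- Resampling of one coordinate. -/
lemma law_null {ι : Type} [Countable ι] {E : Type} [MeasurableSpace E] (μ : Measure E)
    [IsProbabilityMeasure μ] (i : ι) {N : Set (ι → E)} (hN : MeasurableSet N)
    (h : ∀ a : ι → E, μ {y | Function.update a i y ∈ N} = 0) :
    Measure.infinitePi (fun _ : ι => μ) N = 0 := by
  rw [← t9null_upd_map μ i, Measure.map_apply (t9null_upd_meas i) hN,
    Measure.measure_prod_null (t9null_upd_meas i hN)]
  exact Eventually.of_forall fun a => h a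

/-- A measurable set that meets all lines in one direction in null sets is null. -/
lemma line_null {n : ℕ} (v : Fin n → ℝ) {N : Set (Fin n → ℝ)} (hN : MeasurableSet N)
    (h : ∀ y, volume {s : ℝ | y + s • v ∈ N} = 0) : volume N = 0 := by
  have hm : MeasurableSet {p : (Fin n → ℝ) × ℝ | p.1 + p.2 • v ∉ N} := by
    have hc : Measurable fun p : (Fin n → ℝ) × ℝ => p.1 + p.2 • v := by fun_prop
    exact hc hN.compl
  have h1 : ∀ᵐ y : Fin n → ℝ, ∀ᵐ s : ℝ, y + s • v ∉ N :=
    Eventually.of_forall fun y => by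
      rw [ae_iff]
      simpa using h y
  have h2 : ∀ᵐ s : ℝ, ∀ᵐ y : Fin n → ℝ, y + s • v ∉ N :=
    (Measure.ae_ae_comm (p := fun (y : Fin n → ℝ) (s : ℝ) => y + s • v ∉ N) hm).1 h1
  obtain ⟨s, hs⟩ := h2.exists
  rw [ae_iff] at hs
  have e : {y : Fin n → ℝ | ¬ (y + s • v ∉ N)} = (fun y => y + s • v) ⁻¹' N := by
    ext y
    simp
  rwa [e, measure_preimage_add_right] at hs

/-- The second difference of a convex function is bounded at almost every point. -/
lemma convex_second {g : ℝ → ℝ} {s : Set ℝ} (hs : IsOpen s) (h : ConvexOn ℝ s g) :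
    ∀ᵐ t, t ∈ s → ∃ n : ℕ, ∀ a : ℝ, |a| ≤ 1 / (n + 1) →
      g (t + a) + g (t - a) ≤ 2 * g t + n * a ^ 2 := by
  set r : ℝ → ℝ := fun x => derivWithin g (Set.Ioi x) x with hr
  have hmono : MonotoneOn r s := by
    have := h.monotoneOn_rightDeriv
    rwa [hs.interior_eq] at this
  filter_upwards [hmono.ae_differentiableWithinAt_of_mem] with t ht hts
  have hd : DifferentiableAt ℝ r t := (ht hts).differentiableAt (hs.mem_nhds hts)
  obtain ⟨C, hC0, hC⟩ := hd.isBigO_sub.exists_pos
  have hev : ∀ᶠ x in 𝓝 t, x ∈ s ∧ ‖r x - r t‖ ≤ C * ‖x - t‖ :=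
    Filter.Eventually.and (hs.mem_nhds hts) hC.bound
  obtain ⟨δ, hδ, hb⟩ := Metric.eventually_nhds_iff.1 hev
  obtain ⟨n, hn⟩ := exists_nat_ge (max (2 * C) (1 / δ))
  have hn1 : 2 * C ≤ n := (le_max_left _ _).trans hn
  have hn2 : 1 / δ ≤ n := (le_max_right _ _).trans hn
  have key : ∀ a : ℝ, 0 < a → a < δ → g (t + a) + g (t - a) ≤ 2 * g t + n * a ^ 2 := by
    intro a ha haδ
    obtain ⟨hp, hp'⟩ := hb (y := t + a) (by simpa [abs_of_pos ha] using haδ)
    obtain ⟨hq, hq'⟩ := hb (y := t - a) (by simpa [abs_of_pos ha] using haδ)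
    have hpi : t + a ∈ interior s := by rwa [hs.interior_eq]
    have hqi : t - a ∈ interior s := by rwa [hs.interior_eq]
    have s1 : slope g t (t + a) ≤ r (t + a) :=
      (h.slope_le_leftDeriv_of_mem_interior hts hpi (by linarith)).trans
        (h.leftDeriv_le_rightDeriv_of_mem_interior hpi)
    have s2 : r (t - a) ≤ slope g (t - a) t :=
      h.rightDeriv_le_slope_of_mem_interior hqi hts (by linarith)
    rw [slope_def_field, show t + a - t = a by ring, div_le_iff₀ ha] at s1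
    rw [slope_def_field, show t - (t - a) = a by ring, le_div_iff₀ ha] at s2
    rw [show t + a - t = a by ring, Real.norm_eq_abs, Real.norm_eq_abs, abs_of_pos ha] at hp'
    rw [show t - a - t = -a by ring, Real.norm_eq_abs, Real.norm_eq_abs, abs_neg,
      abs_of_pos ha] at hq'
    have b1 := (abs_le.1 hp').2
    have b2 := (abs_le.1 hq').1
    have b3 : r (t + a) - r (t - a) ≤ n * a := by nlinarith
    nlinarith
  refine ⟨n, fun a ha => ?_⟩
  have haδ : |a| < δ := by
    refine ha.trans_lt ?_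
    rw [div_lt_iff₀ (by positivity)]
    rw [div_le_iff₀ hδ] at hn2
    nlinarith
  rcases lt_trichotomy a 0 with h0 | h0 | h0
  · have := key (-a) (by linarith) (by rwa [abs_of_neg h0] at haδ)
    rw [← sub_eq_add_neg, sub_neg_eq_add, neg_sq] at this
    linarith
  · subst h0
    simp only [add_zero, sub_zero]
    nlinarith
  · exact key a h0 (by rwa [abs_of_pos h0] at haδ)

/-- The set where the second difference is bounded is measurable. -/
lemma measurableSet_second {X : Type} [TopologicalSpace X] [MeasurableSpace X]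
    [OpensMeasurableSpace X] {g : X → ℝ → ℝ} (h : ∀ a, Continuous fun p => g p a) :
    MeasurableSet {p | ∃ n : ℕ, ∀ a : ℝ, |a| ≤ 1 / (n + 1) →
      g p a + g p (-a) ≤ 2 * g p 0 + n * a ^ 2} := by
  rw [Set.ofPred_exists]
  refine MeasurableSet.iUnion fun n => IsClosed.measurableSet ?_
  rw [Set.ofPred_forall]
  refine isClosed_iInter fun a => ?_
  rw [Set.ofPred_forall]
  refine isClosed_iInter fun _ => ?_
  exact isClosed_le ((h a).add (h (-a))) ((continuous_const.mul (h 0)).add continuous_const)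

lemma t9null_cube_eq : {y : Fin 4 → ℝ | ∀ j, y j ∈ Set.Ioo (-1 : ℝ) 1} =ᵐ[volume]
    (Set.Icc (-1) 1 : Set (Fin 4 → ℝ)) := by
  have e : {y : Fin 4 → ℝ | ∀ j, y j ∈ Set.Ioo (-1 : ℝ) 1} =
      Set.pi Set.univ fun j : Fin 4 => Set.Ioo ((-1 : Fin 4 → ℝ) j) ((1 : Fin 4 → ℝ) j) := by
    ext y
    simp
  rw [e]
  exact Measure.univ_pi_Ioo_ae_eq_Icc

lemma t9null_cube {N : Set (Fin 4 → ℝ)}
    (h : volume (N ∩ {y | ∀ j, y j ∈ Set.Ioo (-1 : ℝ) 1}) = 0) : cube N = 0 := by
  unfold cube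
  rw [ProbabilityTheory.cond_apply measurableSet_Icc]
  have : volume ((Set.Icc (-1) 1 : Set (Fin 4 → ℝ)) ∩ N) = 0 := by
    rw [Set.inter_comm, ← measure_congr ((ae_eq_refl N).inter t9null_cube_eq)]
    exact h
  rw [this, mul_zero]

lemma cube_ae : ∀ᵐ y ∂cube, ∀ j, y j ∈ Set.Ioo (-1 : ℝ) 1 := by
  rw [ae_iff]
  refine t9null_cube ?_
  have e : {a : Fin 4 → ℝ | ¬ ∀ j, a j ∈ Set.Ioo (-1 : ℝ) 1} ∩
      {y | ∀ j, y j ∈ Set.Ioo (-1 : ℝ) 1} = ∅ := by
    ext y
    simp only [Set.mem_inter_iff, Set.mem_ofPred_eq, Set.mem_empty_iff_false, iff_false]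
    exact fun hy => hy.1 hy.2
  rw [e, measure_empty]

lemma cube_null {N : Set (Fin 4 → ℝ)} (h : volume (N ∩ {y | ∀ j, y j ∈ Set.Ioo (-1 : ℝ) 1}) = 0) :
    cube N = 0 :=
  t9null_cube h

lemma clamp_eq {y : ℝ} (h : y ∈ Set.Icc (-1 : ℝ) 1) : clamp y = y := by
  unfold clamp
  rw [min_eq_right h.2, max_eq_right h.1]

/-- The parameters at which a critical point of `G + y₁ X + y₂ Y + y₃ (X² + Y²)` lies in a set
with at most one value of `y₃` over each point. -/
lemma crit_null {U : Set ℂ} (hU : IsOpen U) {G₁ G₂ : ℂ → ℝ} (h1 : DifferentiableOn ℝ G₁ U)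
    (h2 : DifferentiableOn ℝ G₂ U) {B : Set (ℂ × ℝ)} (hB : MeasurableSet B)
    (hu : ∀ ζ s t, (ζ, s) ∈ B → (ζ, t) ∈ B → s = t) :
    volume {y : Fin 4 → ℝ | ∃ ζ ∈ U, (ζ, y 3) ∈ B ∧ G₁ ζ + y 1 + 2 * y 3 * ζ.re = 0 ∧
      G₂ ζ + y 2 + 2 * y 3 * ζ.im = 0} = 0 := by
  set Z : (Fin 4 → ℝ) → ℂ := fun y => (y 1 : ℂ) + (y 2 : ℂ) * Complex.I with hZ
  have hZd : Differentiable ℝ Z := by
    have a1 : Differentiable ℝ fun y : Fin 4 → ℝ => ((y 1 : ℝ) : ℂ) :=
      Complex.ofRealCLM.differentiable.comp (differentiable_apply 1)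
    have a2 : Differentiable ℝ fun y : Fin 4 → ℝ => ((y 2 : ℝ) : ℂ) :=
      Complex.ofRealCLM.differentiable.comp (differentiable_apply 2)
    exact a1.add (a2.mul_const _)
  set S : Set (Fin 4 → ℝ) := {y | Z y ∈ U ∧ (Z y, y 3) ∈ B} with hS
  set Ψ : (Fin 4 → ℝ) → (Fin 4 → ℝ) := fun y =>
    ![y 0, -G₁ (Z y) - 2 * y 3 * y 1, -G₂ (Z y) - 2 * y 3 * y 2, y 3] with hΨ
  have hSm : MeasurableSet S := by
    have a1 : MeasurableSet (Z ⁻¹' U) := hZd.continuous.measurable hU.measurableSet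
    have a2 : Measurable fun y : Fin 4 → ℝ => (Z y, y 3) :=
      hZd.continuous.measurable.prodMk (measurable_pi_apply 3)
    exact a1.inter (a2 hB)
  have hS0 : volume S = 0 := by
    refine line_null (Pi.single 3 1) hSm fun y => ?_
    refine Set.Subsingleton.measure_zero (fun s hs t ht => ?_) _
    have e : ∀ s : ℝ, Z (y + s • (Pi.single 3 1 : Fin 4 → ℝ)) = Z y := by
      intro s
      simp [hZ]
    have e' : ∀ s : ℝ, (y + s • (Pi.single 3 1 : Fin 4 → ℝ)) 3 = y 3 + s := by
      intro s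
      simp
    have hs2 := hs.2
    have ht2 := ht.2
    rw [e, e'] at hs2 ht2
    have := hu _ _ _ hs2 ht2
    linarith
  have hΨd : DifferentiableOn ℝ Ψ S := by
    have g1 : DifferentiableOn ℝ (fun y => G₁ (Z y)) S :=
      h1.comp hZd.differentiableOn fun y hy => hy.1
    have g2 : DifferentiableOn ℝ (fun y => G₂ (Z y)) S :=
      h2.comp hZd.differentiableOn fun y hy => hy.1
    have p : ∀ j : Fin 4, DifferentiableOn ℝ (fun y : Fin 4 → ℝ => y j) S := fun j =>
      (differentiable_apply j).differentiableOn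
    refine differentiableOn_pi.2 fun j => ?_
    fin_cases j
    · exact p 0
    · exact g1.neg.sub (((p 3).const_mul 2).mul (p 1))
    · exact g2.neg.sub (((p 3).const_mul 2).mul (p 2))
    · exact p 3
  refine measure_mono_null ?_
    (addHaar_image_eq_zero_of_differentiableOn_of_addHaar_eq_zero volume hΨd hS0)
  rintro y ⟨ζ, hζ, hb, e1, e2⟩
  have hz : Z ![y 0, ζ.re, ζ.im, y 3] = ζ := by
    simp [hZ]
  refine ⟨![y 0, ζ.re, ζ.im, y 3], ⟨?_, ?_⟩, ?_⟩
  · rwa [hz]
  · rw [hz]
    simpa using hb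
  · funext j
    fin_cases j
    · simp [hΨ]
    · simp only [hΨ, hz]
      simp
      linarith
    · simp only [hΨ, hz]
      simp
      linarith
    · simp [hΨ]

lemma ae_transfer {E : Type} [AddCommGroup E] [Module ℝ E] {b : ℕ} (e e' : (Fin b → ℝ) ≃ₗ[ℝ] E)
    {P : E → Prop} (h : ∀ᵐ t, P (e t)) : ∀ᵐ t, P (e' t) := by
  have hq := Measure.LinearMap.quasiMeasurePreserving (volume : Measure (Fin b → ℝ))
    ((e'.trans e.symm : (Fin b → ℝ) ≃ₗ[ℝ] (Fin b → ℝ)) : (Fin b → ℝ) →ₗ[ℝ] (Fin b → ℝ))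
    (LinearEquiv.isUnit_det' _).ne_zero
  filter_upwards [hq.ae h] with t ht
  simpa using ht

end Pool.Agent.Lib.MP_5bb885_an.Gen
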