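import Pool.Agent.Lib.MP_5bb885_an.T9Pert
import Pool.Agent.Lib.MP_5bb885_an.T9Null
import Pool.Agent.Lib.MP_5bb885_an.T9Eq
import Pool.Agent.Lib.MP_5bb885_an.T9Cht

/-!
Degenerate equilibria are exceptional.
-/

namespace Pool.Agent.Lib.MP_5bb885_an.Gen

open UpperHalfPlane MeasureTheory Filter Topology

variable {Γ : Type} [Group Γ] [MulAction Γ ℍ] {L : ℂ × ℂ → ℝ} {ε : OB → ℝ} {P : Om → ℂ → ℝ}

/-- The closed core of a box. -/
def Bx.core (q : Bx) : Set ℂ := {z | |(co q.p q.d z).re| ≤ q.w ∧ (co q.p q.d z).im ∈ Set.Icc q.a q.b}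

lemma t9degn_tendsto {E : Type*} [NormedAddCommGroup E] {A B : ℕ → E} {a : E}
    (hB : Tendsto B atTop (𝓝 a)) (h : ∀ η : ℝ, 0 < η → ∀ᶠ n in atTop, ‖A n - B n‖ ≤ η) :
    Tendsto A atTop (𝓝 a) := by
  have h0 : Tendsto (fun n => A n - B n) atTop (𝓝 0) := by
    rw [Metric.tendsto_nhds]
    intro η hη
    filter_upwards [h (η / 2) (by linarith)] with n hn
    rw [dist_zero_right]
    linarith
  simpa using h0.add hB

lemma t9degn_est {f : ℂ → ℝ} (hL : ContDiffOn ℝ 2 L TH) (hf : ContDiffOn ℝ 2 f HP) {p : ℂ × ℂ}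
    (hp : p ∈ TH) : ‖fderiv ℝ (addP L f) p - fderiv ℝ L p‖ ≤ ‖fderiv ℝ f p.1‖ ∧
      ‖D2 (addP L f) p - D2 L p‖ ≤ ‖fderiv ℝ (fderiv ℝ f) p.1‖ := by
  constructor
  · refine ContinuousLinearMap.opNorm_le_bound _ (norm_nonneg _) fun h => ?_
    rw [sub_apply, fderiv_addP hL hf hp, add_sub_cancel_left]
    exact ((fderiv ℝ f p.1).le_opNorm _).trans
      (mul_le_mul_of_nonneg_left (norm_fst_le h) (norm_nonneg _))
  · refine ContinuousLinearMap.opNorm_le_bound₂ _ (ContinuousLinearMap.opNorm_nonneg _)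
      fun h k => ?_
    rw [sub_apply, sub_apply, D2_addP hL hf hp, add_sub_cancel_left]
    refine ((fderiv ℝ (fderiv ℝ f) p.1).le_opNorm₂ _ _).trans ?_
    have h1 := norm_fst_le h
    have h2 := norm_fst_le k
    have h3 := ContinuousLinearMap.opNorm_nonneg (fderiv ℝ (fderiv ℝ f) p.1)
    gcongr

lemma Pert.isClosed_deg (F : Deck Γ) (hL : Tonelli Γ L) (h : Pert Γ ε P) {Q : Set ℂ}
    (hQ : IsCompact Q) (hH : Q ⊆ HP) : IsClosed {a : Om | ∃ z ∈ Q,
      Dx (fderiv ℝ (addP L (P a)) (z, 0)) = 0 ∧ Deg (D2 (addP L (P a)) (z, 0))} := by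
  refine IsSeqClosed.isClosed fun as a has hlim => ?_
  choose zs hzs h1 h2 using has
  obtain ⟨z, hz, φ, hφ, hzl⟩ := hQ.tendsto_subseq hzs
  obtain ⟨R, hR⟩ := exists_KB hQ hH
  have hL' : Tonelli Γ (addP L (P a)) := hL.add F (h.pot a).c2
  have hS := h.lim a _ (hlim.comp hφ.tendsto_atTop) R
  have he : ∀ n, addP (addP L (P a)) (P (as (φ n)) - P a) = addP L (P (as (φ n))) := fun n => by
    rw [addP_addP, add_sub_cancel]
  have hE := fun n => t9degn_est hL'.smooth ((h.pot (as (φ n))).sub (h.pot a)).c2.1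
    (p := (zs (φ n), 0)) (hH (hzs _))
  simp only [he] at hE
  have hp : ((z, 0) : ℂ × ℂ) ∈ TH := hH hz
  have hzl' : Tendsto (fun n => ((zs (φ n), 0) : ℂ × ℂ)) atTop (𝓝 (z, 0)) :=
    hzl.prodMk_nhds tendsto_const_nhds
  have hc := t9tay_cont isOpen_TH hL'.smooth
  have t1 : Tendsto (fun n => fderiv ℝ (addP L (P (as (φ n)))) (zs (φ n), 0)) atTop
      (𝓝 (fderiv ℝ (addP L (P a)) (z, 0))) := by
    refine t9degn_tendsto (((hc.2.1.continuousAt (isOpen_TH.mem_nhds hp)).tendsto).comp hzl')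
      fun η hη => ?_
    filter_upwards [hS η hη] with n hn
    exact (hE n).1.trans (hn _ (hR (hzs _))).2.1
  have t2 : Tendsto (fun n => D2 (addP L (P (as (φ n)))) (zs (φ n), 0)) atTop
      (𝓝 (D2 (addP L (P a)) (z, 0))) := by
    refine t9degn_tendsto (E := ℂ × ℂ →L[ℝ] ℂ × ℂ →L[ℝ] ℝ) (((hc.2.2.continuousAt (isOpen_TH.mem_nhds hp)).tendsto).comp hzl')
      fun η hη => ?_
    filter_upwards [hS η hη] with n hn
    exact (hE n).2.trans (hn _ (hR (hzs _))).2.2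
  refine ⟨z, hz, ?_, Deg.of_tendsto (fun n => h2 (φ n)) (hL'.convex _ hp) t2⟩
  have hD : Continuous (Dx : (ℂ × ℂ →L[ℝ] ℝ) → ℂ →L[ℝ] ℝ) :=
    continuous_id.clm_comp continuous_const
  have t3 := (hD.tendsto _).comp t1
  have t4 : (Dx ∘ fun n => fderiv ℝ (addP L (P (as (φ n)))) (zs (φ n), 0)) = fun _ => 0 :=
    funext fun n => h1 (φ n)
  rw [t4] at t3
  exact (tendsto_nhds_unique tendsto_const_nhds t3).symm

/-- The derivative of the model potential. -/
noncomputable def t9degn_D (q : Bx) (c : Fin 4 → ℝ) (w : ℂ) : ℂ →L[ℝ] ℝ :=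
  (c 1 • Complex.reCLM + c 2 • Complex.imCLM + (2 * c 3) • innerSL ℝ (co q.p q.d w)).comp
    (q.d⁻¹ • ContinuousLinearMap.id ℝ ℂ)

lemma t9degn_co (q : Bx) (w : ℂ) :
    HasFDerivAt (co q.p q.d) (q.d⁻¹ • ContinuousLinearMap.id ℝ ℂ) w := by
  have h := ((hasFDerivAt_id (𝕜 := ℝ) w).sub_const q.p).const_mul q.d⁻¹
  have he : co q.p q.d = fun x => q.d⁻¹ * (id x - q.p) := by
    funext x
    simp [co, div_eq_inv_mul]
  rw [he]
  exact h

lemma t9degn_has (q : Bx) (c : Fin 4 → ℝ) (w : ℂ) :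
    HasFDerivAt (∑ j, c j • q.md j) (t9degn_D q c w) w := by
  have h1 : HasFDerivAt (fun ζ : ℂ => c 0 + c 1 * ζ.re + c 2 * ζ.im + c 3 * ‖ζ‖ ^ 2)
      (c 1 • Complex.reCLM + c 2 • Complex.imCLM + (2 * c 3) • innerSL ℝ (co q.p q.d w))
      (co q.p q.d w) := by
    have a1 := (Complex.reCLM.hasFDerivAt (x := co q.p q.d w)).const_mul (c 1)
    have a2 := (Complex.imCLM.hasFDerivAt (x := co q.p q.d w)).const_mul (c 2)
    have a3 := (hasStrictFDerivAt_norm_sq (co q.p q.d w)).hasFDerivAt.const_mul (c 3)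
    have a4 := ((a1.const_add (c 0)).add a2).add a3
    have a5 : c 3 • 2 • innerSL ℝ (co q.p q.d w) = (2 * c 3) • innerSL ℝ (co q.p q.d w) := by
      rw [← Nat.cast_smul_eq_nsmul ℝ, smul_smul, mul_comm]
      norm_num
    rw [a5] at a4
    exact a4
  have he : (∑ j, c j • q.md j) = (fun ζ : ℂ => c 0 + c 1 * ζ.re + c 2 * ζ.im + c 3 * ‖ζ‖ ^ 2) ∘
      co q.p q.d := by
    funext x
    simp [Fin.sum_univ_four, Bx.md, Complex.normSq_eq_norm_sq]
  rw [he]
  exact h1.comp w (t9degn_co q w)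

lemma t9degn_second (q : Bx) (c : Fin 4 → ℝ) (w h k : ℂ) :
    fderiv ℝ (fderiv ℝ (∑ j, c j • q.md j)) w h k = c 3 / ‖q.d‖ ^ 2 * (2 * inner ℝ h k) := by
  have he : fderiv ℝ (∑ j, c j • q.md j) = t9degn_D q c := funext fun w => (t9degn_has q c w).fderiv
  have a1 := (innerSL ℝ (E := ℂ)).hasFDerivAt.comp w (t9degn_co q w)
  have a2 := ((a1.const_smul (2 * c 3)).const_add
    (c 1 • Complex.reCLM + c 2 • Complex.imCLM)).clm_comp
      (hasFDerivAt_const (q.d⁻¹ • ContinuousLinearMap.id ℝ ℂ) w)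
  have a3 : HasFDerivAt (t9degn_D q c) _ w := a2
  rw [he, a3.fderiv]
  have hn : ‖q.d‖ ^ 2 = q.d.re * q.d.re + q.d.im * q.d.im := by
    rw [Complex.sq_norm, Complex.normSq_apply]
  have hi : innerSL ℝ (q.d⁻¹ * h) (q.d⁻¹ * k) = inner ℝ h k / ‖q.d‖ ^ 2 := by
    rw [innerSL_apply_apply, hn]
    simp only [Complex.inner, Complex.mul_re, Complex.mul_im, Complex.inv_re, Complex.inv_im,
      Complex.normSq_apply, Complex.conj_re, Complex.conj_im, map_mul]
    by_cases h0 : q.d.re * q.d.re + q.d.im * q.d.im = 0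
    · simp [h0]
    · generalize q.d.re * q.d.re + q.d.im * q.d.im = N at h0 hn ⊢
      have hN : N = q.d.re * q.d.re + q.d.im * q.d.im := by
        rw [← hn, Complex.sq_norm, Complex.normSq_apply]
      field_simp
      rw [hN]
      ring
  have h5 : 2 * c 3 * innerSL ℝ (q.d⁻¹ * h) (q.d⁻¹ * k) = c 3 / ‖q.d‖ ^ 2 * (2 * inner ℝ h k) := by
    rw [hi]
    ring
  rw [← h5]
  simp only [ContinuousLinearMap.comp_zero, zero_add]
  rfl

lemma t9degn_core_sub {q : Bx} (hq : q.Ok) : q.core ⊆ q.supp := fun z hz =>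
  ⟨hz.1.trans (by linarith [hq.w]), by linarith [hz.2.1, hq.e], by linarith [hz.2.2, hq.e]⟩

lemma t9degn_cont_co (q : Bx) : Continuous (co q.p q.d) := by
  unfold co
  fun_prop

lemma t9degn_closed_core (q : Bx) : IsClosed q.core := by
  have h := t9degn_cont_co q
  exact (isClosed_le (Complex.continuous_re.comp h).abs continuous_const).and
    (isClosed_Icc.preimage (Complex.continuous_im.comp h))

lemma t9degn_ev (F : Deck Γ) {q : Bx} (hq : q.Ok)
    (hdis : ∀ (γ : Γ) (z : ℍ), (z : ℂ) ∈ q.supp → ((γ • z : ℍ) : ℂ) ∈ q.supp → γ = 1)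
    {z : ℂ} (hz : z ∈ q.core) (hw : |(co q.p q.d z).re| < q.w) (c : Fin 4 → ℝ) :
    (∑ j, c j • fam Γ q j) =ᶠ[𝓝 z] ∑ j, c j • q.md j := by
  have hs := t9degn_core_sub hq hz
  have hH : 0 < z.im := hq.sub hs
  have h1 := hq.fam_eventually F (δ := 1) (z := ⟨z, hH⟩) fun γ hγ => hdis γ ⟨z, hH⟩ hs hγ
  have ht : Tendsto ofComplex (𝓝 z) (𝓝 (⟨z, hH⟩ : ℍ)) := by
    have := (UpperHalfPlane.contMDiffAt_ofComplex (n := 0) hH).continuousAt.tendsto
    rwa [ofComplex_apply_of_im_pos hH] at this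
  have h := t9degn_cont_co q
  have h2 : ∀ᶠ w in 𝓝 z, |(co q.p q.d w).re| < q.w :=
    (Complex.continuous_re.comp h).abs.continuousAt.eventually (gt_mem_nhds hw)
  have h3 : ∀ᶠ w in 𝓝 z, (co q.p q.d w).im ∈ Set.Icc (q.a - q.e) (q.b + q.e) :=
    (Complex.continuous_im.comp h).continuousAt.eventually
      (Icc_mem_nhds (show _ < (co q.p q.d z).im by linarith [hz.2.1, hq.e])
        (show (co q.p q.d z).im < _ by linarith [hz.2.2, hq.e]))
  filter_upwards [ht.eventually h1, h2, h3, isOpen_HP.mem_nhds hH] with w a1 a2 a3 a4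
  rw [ofComplex_apply_of_im_pos a4] at a1
  simp only [Finset.sum_apply, Pi.smul_apply]
  refine Finset.sum_congr rfl fun j _ => ?_
  have a5 := a1 j
  rw [one_smul] at a5
  rw [show fam Γ q j w = q.fn j w from a5, hq.fn_core j a2.le a3]

/-- One box. -/
lemma deg_null (F : Deck Γ) (hL : Tonelli Γ L) {q : Bx} (hq : q.Ok)
    (hdis : ∀ (γ : Γ) (z : ℍ), (z : ℂ) ∈ q.supp → ((γ • z : ℍ) : ℂ) ∈ q.supp → γ = 1) {e : ℝ}
    (he : 0 < e) : cube {y | ∃ z ∈ q.core, |(co q.p q.d z).re| < q.w ∧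
      Dx (fderiv ℝ (addP L (∑ j, (e * clamp (y j)) • fam Γ q j)) (z, 0)) = 0 ∧
      Deg (D2 (addP L (∑ j, (e * clamp (y j)) • fam Γ q j)) (z, 0))} = 0 := by
  have hd := hq.ne
  have hd2 : 0 < ‖q.d‖ ^ 2 := by positivity
  have hA : Continuous fun ζ : ℂ => ((q.p + q.d * ζ, 0) : ℂ × ℂ) := by fun_prop
  have hA' : Differentiable ℝ fun ζ : ℂ => ((q.p + q.d * ζ, 0) : ℂ × ℂ) := by fun_prop
  have hG : ∀ v : ℂ × ℂ, DifferentiableOn ℝ (fun ζ : ℂ => fderiv ℝ L (q.p + q.d * ζ, 0) v / e)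
      {ζ | ((q.p + q.d * ζ, 0) : ℂ × ℂ) ∈ TH} := fun v ζ hζ => by
    have h1 := (((t9tay_has isOpen_TH hL.smooth hζ).2.differentiableAt.comp ζ (hA' ζ)).clm_apply
      (differentiableAt_const v)).mul_const e⁻¹
    simp only [div_eq_mul_inv]
    exact h1.differentiableWithinAt
  have hB : IsClosed {s : ℂ × ℝ | q.p + q.d * s.1 ∈ q.core ∧
      Deg (D2 L (q.p + q.d * s.1, 0) + (e * s.2 / ‖q.d‖ ^ 2) • NN)} := by
    refine IsSeqClosed.isClosed fun ss s hs hl => ?_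
    have hc : Continuous fun s : ℂ × ℝ => q.p + q.d * s.1 := by fun_prop
    have h1 : q.p + q.d * s.1 ∈ q.core :=
      (t9degn_closed_core q).mem_of_tendsto ((hc.tendsto s).comp hl)
        (Eventually.of_forall fun n => (hs n).1)
    have hp : ((q.p + q.d * s.1, 0) : ℂ × ℂ) ∈ TH := hq.sub (t9degn_core_sub hq h1)
    refine ⟨h1, Deg.of_tendsto (fun n => (hs n).2) (fun w hw => ?_) ?_⟩
    · have := hL.convex _ hp w hw
      simpa [NN_apply] using this
    · have hc2 : Continuous fun s : ℂ × ℝ => (e * s.2 / ‖q.d‖ ^ 2) • NN := by fun_prop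
      have : ContinuousAdd (ℂ × ℂ →L[ℝ] ℂ × ℂ →L[ℝ] ℝ) :=
        ContinuousLinearMap.topologicalAddGroup.toContinuousAdd
      refine Tendsto.add ?_ ((hc2.tendsto s).comp hl)
      exact ((continuousOn_D2 hL.smooth).continuousAt (isOpen_TH.mem_nhds hp)).tendsto.comp
        (((hA.comp continuous_fst).tendsto s).comp hl)
  refine cube_null (measure_mono_null ?_ (crit_null (isOpen_TH.preimage hA) (hG (q.d, 0))
    (hG (Complex.I * q.d, 0)) hB.measurableSet fun ζ s t hs ht => ?_))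
  · rintro y ⟨⟨z, hz, hw, h1, h2⟩, hy⟩
    have hcl : ∀ j, clamp (y j) = y j := fun j => clamp_eq (Set.Ioo_subset_Icc_self (hy j))
    simp only [hcl] at h1 h2
    have hp : ((z, 0) : ℂ × ℂ) ∈ TH := hq.sub (t9degn_core_sub hq hz)
    have hz' : q.p + q.d * co q.p q.d z = z := by
      unfold co
      field_simp
      ring
    have hf : ContDiffOn ℝ 2 (∑ j, (e * y j) • fam Γ q j) HP := by
      have := ContDiffOn.sum (s := Finset.univ) fun j _ =>
        (((hq.pot F j).c2.smul (e * y j)).1)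
      convert this using 1
      funext x
      simp
    have hev := t9degn_ev F hq hdis hz hw fun j => e * y j
    have e1 : fderiv ℝ (∑ j, (e * y j) • fam Γ q j) z = t9degn_D q (fun j => e * y j) z := by
      rw [hev.fderiv_eq, (t9degn_has q _ z).fderiv]
    have e2 : ∀ v : ℂ, fderiv ℝ L (z, 0) (v, 0) + t9degn_D q (fun j => e * y j) z v = 0 := by
      intro v
      have := congrArg (fun A : ℂ →L[ℝ] ℝ => A v) h1
      simp only [Dx, ContinuousLinearMap.comp_apply, ContinuousLinearMap.inl_apply,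
        zero_apply] at this
      rwa [fderiv_addP hL.smooth hf hp, e1] at this
    have e3 : D2 (addP L (∑ j, (e * y j) • fam Γ q j)) (z, 0) =
        D2 L (z, 0) + (e * y 3 / ‖q.d‖ ^ 2) • NN := by
      refine ContinuousLinearMap.ext fun u => ContinuousLinearMap.ext fun v => ?_
      rw [D2_addP hL.smooth hf hp, hev.fderiv.fderiv_eq, t9degn_second]
      simp [NN_apply]
    refine ⟨co q.p q.d z, ?_, ?_, ?_, ?_⟩
    · show ((q.p + q.d * co q.p q.d z, 0) : ℂ × ℂ) ∈ TH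
      rwa [hz']
    · show q.p + q.d * co q.p q.d z ∈ q.core ∧ Deg _
      simp only [hz']
      exact ⟨hz, e3 ▸ h2⟩
    · have := e2 q.d
      simp [t9degn_D, inv_mul_cancel₀ hd, Complex.inner] at this
      simp only [hz']
      field_simp
      linarith
    · have := e2 (Complex.I * q.d)
      have h3 : q.d⁻¹ * (Complex.I * q.d) = Complex.I := by field_simp
      simp [t9degn_D, h3, Complex.inner] at this
      simp only [hz']
      field_simp
      linarith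
  · have := Deg.unique hs.2 ht.2
    field_simp at this
    exact this

theorem Pert.ae_nondeg (F : Deck Γ) (hL : Tonelli Γ L) (h : Pert Γ ε P) :
    ∀ᵐ a ∂law, ¬DegEq (addP L (P a)) := by
  have key : ∀ (i : OB) (n : ℕ),
      (∀ (γ : Γ) (z : ℍ), (z : ℂ) ∈ i.1.supp → ((γ • z : ℍ) : ℂ) ∈ i.1.supp → γ = 1) →
      ∀ᵐ a ∂law, ¬∃ z ∈ i.1.core ∩ {z | |(co i.1.p i.1.d z).re| ≤ i.1.w - 1 / (n + 1)},
        Dx (fderiv ℝ (addP L (P a)) (z, 0)) = 0 ∧ Deg (D2 (addP L (P a)) (z, 0)) := by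
    intro i n hdis
    have hQ : IsCompact (i.1.core ∩ {z | |(co i.1.p i.1.d z).re| ≤ i.1.w - 1 / (n + 1)}) :=
      (i.2.isCompact.of_isClosed_subset (t9degn_closed_core _) (t9degn_core_sub i.2)).inter_right
        (isClosed_le (Complex.continuous_re.comp (t9degn_cont_co _)).abs continuous_const)
    have hN := h.isClosed_deg F hL hQ fun z hz => i.2.sub (t9degn_core_sub i.2 hz.1)
    rw [ae_iff]
    simp only [not_not]
    refine law_null cube i hN.measurableSet fun a => ?_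
    refine measure_mono_null ?_ (deg_null F (hL.add F (h.pot
      (@Function.update _ _ (fun a b => Classical.propDecidable (a = b)) a i 0)).c2) i.2 hdis
      (h.pos i))
    rintro y ⟨z, hz, h1⟩
    rw [h.upd, ← addP_addP] at h1
    have h2 : (0 : ℝ) < 1 / (n + 1) := by positivity
    exact ⟨z, hz.1, lt_of_le_of_lt hz.2 (by linarith), h1⟩
  have all : ∀ᵐ a ∂law, ∀ (i : OB) (n : ℕ),
      (∀ (γ : Γ) (z : ℍ), (z : ℂ) ∈ i.1.supp → ((γ • z : ℍ) : ℂ) ∈ i.1.supp → γ = 1) →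
      ¬∃ z ∈ i.1.core ∩ {z | |(co i.1.p i.1.d z).re| ≤ i.1.w - 1 / (n + 1)},
        Dx (fderiv ℝ (addP L (P a)) (z, 0)) = 0 ∧ Deg (D2 (addP L (P a)) (z, 0)) := by
    refine ae_all_iff.2 fun i => ae_all_iff.2 fun n => ?_
    by_cases hdis : ∀ (γ : Γ) (z : ℍ), (z : ℂ) ∈ i.1.supp → ((γ • z : ℍ) : ℂ) ∈ i.1.supp → γ = 1
    · filter_upwards [key i n hdis] with a ha _ using ha
    · exact Eventually.of_forall fun a h' => absurd h' hdis
  filter_upwards [all] with a ha ⟨z, hz⟩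
  obtain ⟨r, hr, hi⟩ := F.inj
  obtain ⟨q, hq, h1, h2, h3⟩ := exists_box z (Metric.ball_mem_nhds z (half_pos hr))
  obtain ⟨n, hn⟩ := exists_nat_one_div_lt (sub_pos.2 h2)
  refine ha ⟨q, hq⟩ n (fun γ w hw hw' => hi γ w ?_)
    ⟨z, ⟨⟨h2.le, Set.Ioo_subset_Icc_self h3⟩, ?_⟩, hz⟩
  · have a1 := Metric.mem_ball.1 (h1 w hw)
    have a2 := Metric.mem_ball.1 (h1 _ hw')
    linarith [dist_triangle_right (γ • w) w z]
  · show |(co q.p q.d z).re| ≤ q.w - 1 / (n + 1)
    linarith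

end Pool.Agent.Lib.MP_5bb885_an.Gen
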