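import Pool.Agent.Lib.MP_5bb885_an.T9Adm

/-!
Dominated functions, calibrated curves, the critical value.
-/

namespace Pool.Agent.Lib.MP_5bb885_an.Gen

open UpperHalfPlane MeasureTheory Filter Topology

variable {Γ : Type} [Group Γ] [MulAction Γ ℍ] {L : ℂ × ℂ → ℝ} {S : Set (ℂ × ℂ → ℝ)}
  {x : ℝ → ℍ} {u : ℍ → ℝ} {k : ℝ} {c : Γ → ℝ}

lemma t9dom_le {a C d : ℝ} (hC : 0 ≤ C) (h : ∀ θ : ℝ, 0 < θ → a ≤ C * (d + θ)) : a ≤ C * d := by
  refine le_of_forall_pos_le_add fun ε hε => ?_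
  have h1 := h (ε / (C + 1)) (by positivity)
  have h2 : C * (ε / (C + 1)) ≤ ε := by
    rw [← mul_div_assoc, div_le_iff₀ (by positivity)]
    nlinarith
  nlinarith

lemma Unif.lipDom (U : Unif S) (k₀ : ℝ) : ∃ C : ℝ, 0 ≤ C ∧ ∀ L ∈ S, ∀ k, k ≤ k₀ → ∀ u, Dom L k u →
    ∀ z w : ℍ, |u w - u z| ≤ C * dist z w := by
  obtain ⟨B, hB⟩ := U.up 1
  refine ⟨max (B + k₀) 0, le_max_right _ _, fun L hL k hk u hu => ?_⟩
  have key : ∀ z w : ℍ, u w - u z ≤ max (B + k₀) 0 * dist z w := by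
    intro z w
    refine t9dom_le (le_max_right _ _) fun θ hθ => ?_
    obtain ⟨y, h1, h2, h3, h4⟩ := exists_seg (U.smooth L hL).continuousOn z w hθ (hB L hL)
    have h5 := hu y _ _ h1
    rw [h2, h3] at h5
    refine h5.trans ((h4 k).trans ?_)
    refine mul_le_mul_of_nonneg_right ?_ (by positivity)
    exact le_trans (by linarith) (le_max_left _ _)
  intro z w
  rw [abs_le]
  have h1 := key z w
  have h2 := key w z
  rw [dist_comm] at h2
  constructor <;> linarith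

lemma Unif.short (U : Unif S) (k₀ : ℝ) : ∃ C : ℝ, 0 ≤ C ∧ ∀ L ∈ S, ∀ k, |k| ≤ k₀ → ∀ u,
    Dom L k u → ∀ x s t, Adm L x s t →
      dist (x s) (x t) ≤ C * (t - s) + (ac L k x s t - (u (x t) - u (x s))) := by
  obtain ⟨C, hC, h⟩ := U.lipDom k₀
  obtain ⟨B, hB⟩ := U.sup (C + 1)
  refine ⟨max (B + k₀) 0, le_max_right _ _, fun L hL k hk u hu x s t hx => ?_⟩
  have h1 := hx.length (by positivity) (hB L hL) k
  have h2 := (abs_le.1 (h L hL k (abs_le.1 hk).2 u hu (x s) (x t))).2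
  have h3 : (B - k) * (t - s) ≤ max (B + k₀) 0 * (t - s) := by
    refine mul_le_mul_of_nonneg_right ?_ (sub_pos.2 hx.1).le
    exact le_trans (by linarith [(abs_le.1 hk).1]) (le_max_left _ _)
  linarith

lemma Unif.calLip (U : Unif S) (k₀ : ℝ) : ∃ C : ℝ, 0 ≤ C ∧ ∀ L ∈ S, ∀ k, |k| ≤ k₀ → ∀ u,
    Dom L k u → ∀ x, Cal L k u x → ∀ s t, dist (x s) (x t) ≤ C * |s - t| := by
  obtain ⟨C, hC, h⟩ := U.short k₀
  refine ⟨C, hC, fun L hL k hk u hu x hx => ?_⟩
  have key : ∀ s t, s < t → dist (x s) (x t) ≤ C * (t - s) := by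
    intro s t hst
    have h1 := h L hL k hk u hu x s t (hx s t hst).1
    have h2 := (hx s t hst).2
    linarith
  intro s t
  rcases lt_trichotomy s t with hst | hst | hst
  · rw [abs_sub_comm, abs_of_pos (sub_pos.2 hst)]
    exact key s t hst
  · subst hst
    simp
  · rw [dist_comm, abs_of_pos (sub_pos.2 hst)]
    exact key t s hst

lemma Cal.continuous (h : Cal L k u x) : Continuous x := by
  refine continuous_iff_continuousAt.2 fun t => ?_
  exact (h (t - 1) (t + 1) (by linarith)).1.continuousOn.continuousAt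
    (Icc_mem_nhds (by linarith) (by linarith))

lemma Dom.mono (h : Dom L k u) {k' : ℝ} (hk : k ≤ k') : Dom L k' u := by
  intro y s t hy
  rw [hy.ac_const k k']
  have h1 := h y s t hy
  have h2 : 0 ≤ (k' - k) * (t - s) := mul_nonneg (sub_nonneg.2 hk) (sub_pos.2 hy.1).le
  linarith

lemma Dom.add_const (h : Dom L k u) (a : ℝ) : Dom L k fun z => u z + a := by
  intro y s t hy
  have h1 := h y s t hy
  simp only
  linarith

lemma Cal.add_const (h : Cal L k u x) (a : ℝ) : Cal L k (fun z => u z + a) x := by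
  intro s t hst
  refine ⟨(h s t hst).1, ?_⟩
  have h1 := (h s t hst).2
  simp only
  linarith

lemma Eqv.add_const (h : Eqv c u) (a : ℝ) : Eqv c fun z => u z + a := by
  intro γ z
  have h1 := h γ z
  simp only
  linarith

lemma Dom.smul (F : Deck Γ) (hL : Tonelli Γ L) (h : Dom L k u) (γ : Γ) :
    Dom L k fun z => u (γ • z) := by
  intro y s t hy
  have h1 := h _ s t (hy.smul F hL γ)
  rw [hL.ac_smul F] at h1
  exact h1

lemma Cal.smul (F : Deck Γ) (hL : Tonelli Γ L) (h : Cal L k u x) (γ : Γ) :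
    Cal L k (fun z => u (γ⁻¹ • z)) fun t => γ • x t := by
  intro s t hst
  refine ⟨(h s t hst).1.smul F hL γ, ?_⟩
  rw [hL.ac_smul F]
  simp only [inv_smul_smul]
  exact (h s t hst).2

lemma Cal.smul_eqv (F : Deck Γ) (hL : Tonelli Γ L) (hu : Eqv c u) (h : Cal L k u x) (γ : Γ) :
    Cal L k u fun t => γ • x t := by
  intro s t hst
  refine ⟨(h s t hst).1.smul F hL γ, ?_⟩
  rw [hL.ac_smul F]
  have h1 := (h s t hst).2
  simp only [hu γ]
  linarith

lemma Cal.shift (h : Cal L k u x) (r : ℝ) : Cal L k u fun t => x (t + r) := by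
  intro s t hst
  obtain ⟨h1, h2⟩ := h (s + r) (t + r) (by linarith)
  have h3 := h1.shift r
  have h4 := ac_shift L k x (s + r) (t + r) r
  simp only [add_sub_cancel_right] at h3 h4
  exact ⟨h3, h2.trans h4.symm⟩

lemma Per.zpow {γ : Γ} {T : ℝ} (h : Per x γ T) (j : ℤ) (t : ℝ) :
    x (t + j * T) = γ ^ j • x t := by
  induction j using Int.induction_on with
  | zero => simp
  | succ i ih =>
    have e : t + ((i : ℤ) + 1 : ℤ) * T = t + ((i : ℤ) : ℝ) * T + T := by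
      push_cast
      ring
    rw [e, h.2, ih, ← mul_smul, add_comm (i : ℤ) 1, zpow_add, zpow_one]
  | pred i ih =>
    have e : t + ((-(i : ℤ) : ℤ) : ℝ) * T = t + ((-(i : ℤ) - 1 : ℤ) : ℝ) * T + T := by
      push_cast
      ring
    rw [e, h.2] at ih
    have e2 : (-(i : ℤ) - 1 : ℤ) = -1 + -(i : ℤ) := by ring
    rw [← inv_smul_smul γ (x (t + ((-(i : ℤ) - 1 : ℤ) : ℝ) * T)), ih, ← mul_smul, e2, zpow_add,
      zpow_neg_one]

lemma t9dom_mem {M B : ℝ} (hM : ∀ (γ : Γ) (z : ℍ), |c γ| ≤ M * dist z (γ • z))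
    (hB : ∀ (z : ℍ) (v : ℂ), |M| * (‖v‖ / z.im) - B ≤ L (z, v)) (y : ℝ → ℍ) (s t : ℝ) (γ : Γ)
    (hy : Adm L y s t) (e : y t = γ • y s) : c γ ≤ ac L B y s t := by
  have h1 := hy.length (abs_nonneg M) hB B
  have h2 := hM γ (y s)
  rw [← e] at h2
  have h3 : M * dist (y s) (y t) ≤ |M| * dist (y s) (y t) :=
    mul_le_mul_of_nonneg_right (le_abs_self M) dist_nonneg
  have h4 := le_abs_self (c γ)
  rw [sub_self, zero_mul, add_zero] at h1
  linarith

lemma crit_loop (F : Deck Γ) (hL : Tonelli Γ L) (hc : c ∈ Coh Γ) {s t : ℝ} {γ : Γ}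
    (h : Adm L x s t) (e : x t = γ • x s) : c γ ≤ ac L (crit L c) x s t := by
  obtain ⟨M, -, hM⟩ := F.lip hc
  obtain ⟨B, hB⟩ := hL.superlinear |M|
  have hst : 0 < t - s := sub_pos.2 h.1
  have h1 : (c γ - ac L 0 x s t) / (t - s) ≤ crit L c := by
    refine le_csInf ⟨B, t9dom_mem hM hB⟩ fun k hk => ?_
    have h2 := hk x s t γ h e
    rw [h.ac_const 0 k] at h2
    rw [div_le_iff₀ hst]
    linarith
  rw [div_le_iff₀ hst] at h1
  rw [h.ac_const 0 (crit L c)]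
  linarith

lemma t9dom_low (hc : c ∈ Coh Γ)
    (h : ∀ x s t (γ : Γ), Adm L x s t → x t = γ • x s → c γ ≤ ac L k x s t) :
    -L ((I : ℍ), 0) ≤ k := by
  obtain ⟨h1, h2⟩ := adm_const L I (s := 0) (t := 1) one_pos
  have h3 := h _ 0 1 1 h1 (one_smul _ _).symm
  rw [coh_one' hc, h2] at h3
  linarith

lemma crit_le (F : Deck Γ) (hL : Tonelli Γ L) (hc : c ∈ Coh Γ)
    (h : ∀ x s t (γ : Γ), Adm L x s t → x t = γ • x s → c γ ≤ ac L k x s t) : crit L c ≤ k := by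
  have _ := F
  have _ := hL
  exact csInf_le ⟨-L ((I : ℍ), 0), fun k' hk' => t9dom_low hc hk'⟩ h

lemma Dom.crit_le (F : Deck Γ) (hL : Tonelli Γ L) (hc : c ∈ Coh Γ) (hu : Eqv c u)
    (h : Dom L k u) : crit L c ≤ k := by
  refine Gen.crit_le F hL hc fun y s t γ hy e => ?_
  have h1 := h y s t hy
  rw [e, hu γ] at h1
  linarith

lemma t9dom_glue {y : ℝ → ℍ} {s t a b : ℝ} (h1 : Adm L y s t) (h2 : Adm L x a b)
    (e : y t = x a) : ∃ z r, Adm L z s r ∧ z s = y s ∧ z r = x b ∧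
      ∀ k, ac L k z s r = ac L k y s t + ac L k x a b := by
  have h3 := h2.shift (a - t)
  have e1 : a - (a - t) = t := by ring
  rw [e1] at h3
  obtain ⟨z, z1, z2, z3, z4⟩ := h1.glue h3 (by simpa using e)
  refine ⟨z, _, z1, z2, by simpa using z3, fun k => ?_⟩
  have h4 := ac_shift L k x a b (a - t)
  rw [e1] at h4
  rw [z4, h4]

lemma t9dom_join (F : Deck Γ) (hL : Tonelli Γ L) (z w : ℍ) :
    ∃ y t, Adm L y 0 t ∧ y 0 = z ∧ y t = w := by
  obtain ⟨B, hB⟩ := (hL.unif1 F).up 1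
  obtain ⟨y, h1, h2, h3, -⟩ := exists_seg hL.smooth.continuousOn z w one_pos (hB L rfl)
  exact ⟨y, _, h1, h2, h3⟩

theorem exists_dom (F : Deck Γ) (hL : Tonelli Γ L) (hc : c ∈ Coh Γ) :
    ∃ u, Eqv c u ∧ Dom L (crit L c) u := by
  let A : ℍ → Set ℝ := fun w => {r | ∃ (y : ℝ → ℍ) (s t : ℝ) (γ : Γ), Adm L y s t ∧ y s = I ∧
    y t = γ • w ∧ r = ac L (crit L c) y s t - c γ}
  have hne : ∀ w, (A w).Nonempty := by
    intro w
    obtain ⟨y, t, h1, h2, h3⟩ := t9dom_join F hL I w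
    exact ⟨_, y, 0, t, 1, h1, h2, by rw [one_smul, h3], rfl⟩
  have hbd : ∀ w, BddBelow (A w) := by
    intro w
    obtain ⟨p, T, h1, h2, h3⟩ := t9dom_join F hL w I
    refine ⟨-ac L (crit L c) p 0 T, ?_⟩
    rintro r ⟨y, s, t, γ, y1, y2, y3, rfl⟩
    obtain ⟨z, b, z1, z2, z3, z4⟩ := t9dom_glue y1 (h1.smul F hL γ) (by simp only [y3, h2])
    have h4 := crit_loop F hL hc (γ := γ) z1 (by simp only [z3, z2, y2, h3])
    rw [z4, hL.ac_smul F] at h4
    linarith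
  have hle : ∀ (δ : Γ) (w : ℍ), sInf (A (δ • w)) ≤ sInf (A w) + c δ := by
    intro δ w
    rw [← sub_le_iff_le_add]
    refine le_csInf (hne w) ?_
    rintro r ⟨y, s, t, γ, y1, y2, y3, rfl⟩
    have h1 : sInf (A (δ • w)) ≤ ac L (crit L c) y s t - c (γ * δ⁻¹) :=
      csInf_le (hbd _) ⟨y, s, t, γ * δ⁻¹, y1, y2, by rw [y3, mul_smul, inv_smul_smul], rfl⟩
    rw [hc γ δ⁻¹, coh_inv' hc] at h1
    linarith
  refine ⟨fun w => sInf (A w), fun δ w => le_antisymm (hle δ w) ?_, fun x s t hx => ?_⟩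
  · have h1 := hle δ⁻¹ (δ • w)
    rw [inv_smul_smul, coh_inv' hc] at h1
    simp only
    linarith
  · have h1 : sInf (A (x t)) - ac L (crit L c) x s t ≤ sInf (A (x s)) := by
      refine le_csInf (hne _) ?_
      rintro r ⟨y, a, b, γ, y1, y2, y3, rfl⟩
      obtain ⟨z, e, z1, z2, z3, z4⟩ := t9dom_glue y1 (hx.smul F hL γ) y3
      have h2 : sInf (A (x t)) ≤ ac L (crit L c) z a e - c γ :=
        csInf_le (hbd _) ⟨z, a, e, γ, z1, z2.trans y2, z3, rfl⟩
      rw [z4, hL.ac_smul F] at h2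
      linarith
    simp only
    linarith

lemma Unif.crit_bd (F : Deck Γ) (U : Unif S) (M : ℝ) : ∃ k₀ : ℝ, ∀ L ∈ S, Tonelli Γ L →
    ∀ c ∈ Coh Γ, (∀ (γ : Γ) (z : ℍ), |c γ| ≤ M * dist z (γ • z)) → |crit L c| ≤ k₀ := by
  obtain ⟨B, hB⟩ := U.sup |M|
  obtain ⟨B', hB'⟩ := U.up 0
  refine ⟨max B B', fun L hL hT c hc hM => ?_⟩
  have h1 : crit L c ≤ B := crit_le F hT hc (t9dom_mem hM (hB L hL))
  have h2 : -L ((I : ℍ), 0) ≤ crit L c :=
    t9dom_low hc fun y s t γ hy e => crit_loop F hT hc hy e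
  have h3 := hB' L hL I 0 (by simp)
  rw [abs_le]
  constructor
  · linarith [le_max_right B B']
  · exact h1.trans (le_max_left _ _)

/-- A closed curve that is calibrated for one function is calibrated for all. -/
lemma Cal.per {u' : ℍ → ℝ} {γ : Γ} {T : ℝ} (hu : Eqv c u) (h : Cal L k u x) (hp : Per x γ T)
    (hu' : Eqv c u') (hd : Dom L k u') : Cal L k u' x := by
  intro s t hst
  refine ⟨(h s t hst).1, ?_⟩
  obtain ⟨j, hj⟩ := exists_int_gt ((t - s) / T)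
  rw [div_lt_iff₀ hp.1] at hj
  have htr : t < s + j * T := by linarith
  obtain ⟨h1, h2⟩ := h s (s + j * T) (by linarith)
  have h3 := h1.ac_add hst.le htr.le k
  have h4 := hd x s t (h s t hst).1
  have h5 := hd x t _ (h t _ htr).1
  rw [hp.zpow, hu] at h2
  rw [hp.zpow, hu'] at h5
  linarith

end Pool.Agent.Lib.MP_5bb885_an.Gen
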