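import Pool.Agent.Lib.MP_5bb885_an.T9Crit

/-!
Limits of almost calibrated curves.
-/

namespace Pool.Agent.Lib.MP_5bb885_an.Gen

open UpperHalfPlane MeasureTheory Filter Topology

variable {Γ : Type} [Group Γ] [MulAction Γ ℍ] {L : ℂ × ℂ → ℝ} {Ls : ℕ → ℂ × ℂ → ℝ}
  {u : ℍ → ℝ} {us : ℕ → ℍ → ℝ} {k : ℝ} {ks : ℕ → ℝ} {c : Γ → ℝ}

/-- Changing the Lagrangian by a bounded function. -/
lemma t9lim_adm {L' : ℂ × ℂ → ℝ} (hL' : ContinuousOn L' TH) {x : ℝ → ℍ} {s t ε : ℝ}
    (h : Adm L x s t) (hε : ∀ (z : ℍ) (v : ℂ), |L' (z, v) - L (z, v)| ≤ ε) :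
    Adm L' x s t ∧ ∀ k, ac L' k x s t ≤ ac L k x s t + ε * (t - s) := by
  have hst := h.1
  have h1 : IntegrableOn (fun τ => L (jet x τ)) (Set.Ioo s t) :=
    (intervalIntegrable_iff_integrableOn_Ioo_of_le hst.le).1 h.2.2
  have h2 := t9adm_meas hL' (h.continuousOn.mono Set.Ioo_subset_Icc_self)
  have h3 : IntegrableOn (fun τ => L' (jet x τ) - L (jet x τ)) (Set.Ioo s t) := by
    refine ⟨h2.sub h1.1, ?_⟩
    refine HasFiniteIntegral.restrict_of_bounded ε (by simp) ?_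
    exact Eventually.of_forall fun τ => hε (x τ) (vel x τ)
  have h4 : IntervalIntegrable (fun τ => L' (jet x τ)) volume s t := by
    rw [intervalIntegrable_iff_integrableOn_Ioo_of_le hst.le]
    have h5 := h1.add h3
    refine h5.congr (Eventually.of_forall fun τ => ?_)
    simp
  refine ⟨⟨hst, h.2.1, h4⟩, fun k => ?_⟩
  have h5 : ∫ τ in s..t, L' (jet x τ) ≤ ∫ τ in s..t, (L (jet x τ) + ε) := by
    refine intervalIntegral.integral_mono_on hst.le h4 (h.2.2.add intervalIntegrable_const)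
      fun τ _ => ?_
    have := (abs_le.1 (hε (x τ) (vel x τ))).2
    change L' (jet x τ) - L (jet x τ) ≤ ε at this
    linarith
  have h6 := t9adm_ac h.2.2 ε
  rw [t9adm_ac h4, t9adm_ac h.2.2]
  change _ ≤ ac L ε x s t at h5
  linarith

lemma t9lim_small {l : Filter ℕ} {a : ℕ → ℝ} {b : ℝ} (h : Tendsto a l (𝓝 b)) {ε : ℝ}
    (hε : 0 < ε) : ∀ᶠ n in l, |a n - b| ≤ ε := by
  filter_upwards [Metric.tendsto_nhds.1 h ε hε] with n hn
  exact hn.le

lemma LSeq.dom {l : Filter ℕ} [l.NeBot] (h : LSeq Γ l L Ls) (hk : Tendsto ks l (𝓝 k))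
    (hd : ∀ n, Dom (Ls n) (ks n) (us n)) (hu : ∀ z, Tendsto (fun n => us n z) l (𝓝 (u z))) :
    Dom L k u := by
  intro x s t ha
  have hst : 0 < t - s := sub_pos.2 ha.1
  refine le_of_forall_pos_le_add fun η hη => ?_
  have hε : 0 < η / (2 * (t - s)) := by positivity
  refine le_of_tendsto ((hu (x t)).sub (hu (x s))) ?_
  filter_upwards [h.c0 _ hε, t9lim_small hk hε] with n h1 h2
  obtain ⟨h3, h4⟩ := t9lim_adm (h.tons n).smooth.continuousOn ha h1
  have h5 := hd n x s t h3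
  have h6 := h4 (ks n)
  have h7 := ha.ac_const k (ks n)
  have h8 : (ks n - k) * (t - s) ≤ η / (2 * (t - s)) * (t - s) :=
    mul_le_mul_of_nonneg_right (abs_le.1 h2).2 hst.le
  have h9 : η / (2 * (t - s)) * (t - s) = η / 2 := by field_simp
  linarith

/-- The excess of the action over the increment of `u`. -/
noncomputable def t9limEx (L : ℂ × ℂ → ℝ) (k : ℝ) (u : ℍ → ℝ) (x : ℝ → ℍ) (s t : ℝ) : ℝ :=
  ac L k x s t - (u (x t) - u (x s))

lemma t9lim_ex_self (x : ℝ → ℍ) (s : ℝ) : t9limEx L k u x s s = 0 := by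
  simp [t9limEx, ac]

lemma t9lim_ex_nonneg (hd : Dom L k u) {x : ℝ → ℍ} {s t a b : ℝ} (h : Adm L x s t) (h1 : s ≤ a)
    (h2 : a ≤ b) (h3 : b ≤ t) : 0 ≤ t9limEx L k u x a b := by
  rcases h2.lt_or_eq with h4 | h4
  · exact sub_nonneg.2 (hd x a b (h.mono h1 h4 h3))
  · rw [h4, t9lim_ex_self]

lemma t9lim_ex_add {x : ℝ → ℍ} {s t a b d : ℝ} (h : Adm L x s t) (h1 : s ≤ a)
    (h2 : a ≤ b) (h3 : b ≤ d) (h4 : d ≤ t) :
    t9limEx L k u x a b + t9limEx L k u x b d = t9limEx L k u x a d := by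
  rcases (h2.trans h3).lt_or_eq with h5 | h5
  · have := (h.mono h1 h5 h4).ac_add h2 h3 k
    simp only [t9limEx]
    linarith
  · have h6 : b = a := le_antisymm (h5 ▸ h3) h2
    rw [h6, ← h5, t9lim_ex_self, add_zero]

lemma t9lim_ex_mono (hd : Dom L k u) {x : ℝ → ℍ} {s t a b : ℝ} (h : Adm L x s t) (h1 : s ≤ a)
    (h2 : a ≤ b) (h3 : b ≤ t) : t9limEx L k u x a b ≤ t9limEx L k u x s t := by
  have e1 := t9lim_ex_add (k := k) (u := u) h le_rfl h1 h2 h3
  have e2 := t9lim_ex_add (k := k) (u := u) h le_rfl (h1.trans h2) h3 le_rfl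
  have e3 := t9lim_ex_nonneg hd h le_rfl h1 (h2.trans h3)
  have e4 := t9lim_ex_nonneg hd h (h1.trans h2) h3 le_rfl
  linarith

/-- The action above a supporting plane. -/
lemma t9lim_plane {x : ℝ → ℍ} {s t m : ℝ} (h : Adm L x s t) (A : ℂ →L[ℝ] ℝ)
    (H : ∀ τ ∈ Set.Icc s t, m + A (vel x τ) ≤ L (jet x τ) + k) :
    m * (t - s) + A ((x t : ℂ) - x s) ≤ ac L k x s t := by
  obtain ⟨h1, h2⟩ := h.ftc
  have h3 : IntervalIntegrable (fun τ => A (vel x τ)) volume s t :=
    ⟨A.integrable_comp h1.1, A.integrable_comp h1.2⟩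
  have h4 : ∫ τ in s..t, (m + A (vel x τ)) ≤ ac L k x s t :=
    intervalIntegral.integral_mono_on h.1.le (intervalIntegrable_const.add h3)
      (h.2.2.add intervalIntegrable_const) H
  rw [intervalIntegral.integral_add intervalIntegrable_const h3, A.intervalIntegral_comp_comm h1,
    h2] at h4
  simp only [intervalIntegral.integral_const, smul_eq_mul] at h4
  linarith

lemma t9lim_slope {G : ℝ → ℝ} {G' τ m : ℝ} (h : HasDerivAt G G' τ)
    (H : ∀ᶠ r in 𝓝[>] (0 : ℝ), m * r ≤ G (τ + r) - G τ) : m ≤ G' := by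
  refine ge_of_tendsto h.tendsto_slope_zero_right ?_
  filter_upwards [H, self_mem_nhdsWithin] with r h1 h2
  have h3 : 0 < r := h2
  rw [smul_eq_mul, ← div_eq_inv_mul, le_div_iff₀ h3]
  exact h1

lemma t9lim_ultra {l : Ultrafilter ℕ} {X : Type} [PseudoMetricSpace X] [ProperSpace X]
    {a : ℕ → X} {z : X} {R : ℝ} (h : ∀ᶠ n in l, dist (a n) z ≤ R) :
    ∃ w, Tendsto a l (𝓝 w) := by
  obtain ⟨w, -, hw⟩ := (isCompact_closedBall z R).ultrafilter_le_nhds (l.map a)
    (le_principal_iff.2 h)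
  exact ⟨w, hw⟩

theorem t9lim_core {l : Ultrafilter ℕ} (h : LSeq Γ l L Ls) (hk : Tendsto ks l (𝓝 k))
    (hd : ∀ n, Dom (Ls n) (ks n) (us n)) (hu : ∀ z, Tendsto (fun n => us n z) l (𝓝 (u z)))
    {xs : ℕ → ℝ → ℍ} (H : ∀ B ε : ℝ, 0 < B → 0 < ε → ∀ᶠ n in l, Adm (Ls n) (xs n) (-B) B ∧
      t9limEx (Ls n) (ks n) (us n) (xs n) (-B) B ≤ ε)
    {R : ℝ} (hR : ∀ᶠ n in l, dist (xs n 0) I ≤ R) :
    ∃ x, Cal L k u x ∧ ∀ t, Tendsto (fun n => xs n t) l (𝓝 (x t)) := by
  have hD : Dom L k u := h.dom hk hd hu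
  obtain ⟨C₁, hC₁, hlip⟩ := h.unif.lipDom (|k| + 1)
  obtain ⟨C, hC, hsh⟩ := h.unif.short (|k| + 1)
  have hmem : ∀ n, Ls n ∈ insert L (Set.range Ls) := fun n => Or.inr ⟨n, rfl⟩
  have hk1 : ∀ᶠ n in l, |ks n| ≤ |k| + 1 := by
    filter_upwards [t9lim_small hk one_pos] with n hn
    have := abs_sub_abs_le_abs_sub (ks n) k
    linarith
  have hL : ContinuousOn L TH := h.ton.smooth.continuousOn
  -- almost Lipschitz bound
  have hA : ∀ B ε : ℝ, 0 < B → 0 < ε → ∀ᶠ n in l, ∀ a ∈ Set.Icc (-B) B, ∀ b ∈ Set.Icc (-B) B,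
      dist (xs n a) (xs n b) ≤ C * |a - b| + ε := by
    intro B ε hB hε
    filter_upwards [H B ε hB hε, hk1] with n ⟨h1, h2⟩ h3
    have key : ∀ a ∈ Set.Icc (-B) B, ∀ b ∈ Set.Icc (-B) B, a < b →
        dist (xs n a) (xs n b) ≤ C * |a - b| + ε := by
      intro a ha b hb hab
      have h4 := hsh _ (hmem n) _ h3 _ (hd n) _ _ _ (h1.mono ha.1 hab hb.2)
      have h5 := t9lim_ex_mono (hd n) h1 ha.1 hab.le hb.2
      rw [abs_sub_comm, abs_of_pos (sub_pos.2 hab)]
      simp only [t9limEx] at h5 h2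
      linarith
    intro a ha b hb
    rcases lt_trichotomy a b with hab | hab | hab
    · exact key a ha b hb hab
    · rw [hab]
      simp [hε.le]
    · rw [dist_comm, abs_sub_comm]
      exact key b hb a ha hab
  have hin : ∀ a b : ℝ, a ∈ Set.Icc (-(|a| + |b| + 1)) (|a| + |b| + 1) ∧
      b ∈ Set.Icc (-(|a| + |b| + 1)) (|a| + |b| + 1) ∧ 0 < |a| + |b| + 1 := by
    intro a b
    have h1 := abs_nonneg a
    have h2 := abs_nonneg b
    have h3 := le_abs_self a
    have h4 := le_abs_self b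
    have h5 := neg_abs_le a
    have h6 := neg_abs_le b
    exact ⟨⟨by linarith, by linarith⟩, ⟨by linarith, by linarith⟩, by linarith⟩
  have hlim : ∀ t, ∃ w, Tendsto (fun n => xs n t) l (𝓝 w) := by
    intro t
    refine t9lim_ultra (z := I) (R := C * |t - 0| + 1 + R) ?_
    filter_upwards [hA _ 1 (hin t 0).2.2 one_pos, hR] with n h1 h2
    have h3 := h1 t (hin t 0).1 0 (hin t 0).2.1
    have h4 := dist_triangle (xs n t) (xs n 0) I
    linarith
  choose x hx using hlim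
  have hxl : ∀ a b, dist (x a) (x b) ≤ C * |a - b| := by
    intro a b
    refine le_of_forall_pos_le_add fun ε hε => ?_
    refine le_of_tendsto ((hx a).dist (hx b)) ?_
    filter_upwards [hA _ ε (hin a b).2.2 hε] with n h1
    exact h1 a (hin a b).1 b (hin a b).2.1
  have hux : ∀ t, Tendsto (fun n => us n (xs n t)) l (𝓝 (u (x t))) := by
    intro t
    have h1 : Tendsto (fun n => us n (xs n t) - us n (x t)) l (𝓝 0) := by
      have h2 : Tendsto (fun n => C₁ * dist (x t) (xs n t)) l (𝓝 0) := by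
        have := ((tendsto_const_nhds (x := x t)).dist (hx t)).const_mul C₁
        simpa using this
      refine squeeze_zero_norm' ?_ h2
      filter_upwards [hk1] with n hn
      exact hlip _ (hmem n) _ ((le_abs_self _).trans hn) _ (hd n) _ _
    have h3 := h1.add (hu (x t))
    simpa using h3
  have hul : ∀ z w, |u w - u z| ≤ C₁ * dist z w :=
    hlip L (Or.inl rfl) k ((le_abs_self k).trans (by linarith)) u hD
  -- the pointwise lower bound for the derivative of `u ∘ x`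
  have hder : ∀ τ F', HasDerivAt (fun a => (x a : ℂ)) (vel x τ) τ →
      HasDerivAt (fun a => u (x a)) F' τ → L (jet x τ) + k ≤ F' := by
    intro τ F' hv hF
    refine le_of_forall_pos_le_add fun η hη => ?_
    have hη' : 0 < η / 3 := by positivity
    set A : ℂ →L[ℝ] ℝ := Dv (fderiv ℝ L (jet x τ)) with hAdef
    have hAe : ∀ w, A w = fderiv ℝ L (x τ, vel x τ) (0, w) := fun w => rfl
    obtain ⟨ρ, hρ, hpl⟩ := Metric.eventually_nhds_iff.1
      (h.unif.plane (Or.inl rfl) (x τ) (vel x τ) hη')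
    have hG : HasDerivAt (fun a => u (x a) - A (x a : ℂ)) (F' - A (vel x τ)) τ :=
      hF.sub (A.hasFDerivAt.comp_hasDerivAt τ hv)
    have hm := t9lim_slope (m := L (jet x τ) + k - A (vel x τ) - η) hG (by
      have hr : ∀ᶠ r in 𝓝[>] (0 : ℝ), C * r < ρ / 3 := by
        have h1 : Tendsto (fun r : ℝ => C * r) (𝓝[>] 0) (𝓝 0) := by
          have : Tendsto (fun r : ℝ => C * r) (𝓝 0) (𝓝 (C * 0)) :=
            (continuous_const.mul continuous_id).tendsto 0
          rw [mul_zero] at this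
          exact this.mono_left nhdsWithin_le_nhds
        exact h1.eventually (gt_mem_nhds (by positivity))
      filter_upwards [hr, self_mem_nhdsWithin] with r hr1 hr2
      have hr0 : 0 < r := hr2
      obtain ⟨b1, b2, b3⟩ := hin τ (τ + r)
      have hlimit : Tendsto (fun n => (us n (xs n (τ + r)) - A (xs n (τ + r) : ℂ)) -
          (us n (xs n τ) - A (xs n τ : ℂ))) l
          (𝓝 ((u (x (τ + r)) - A (x (τ + r) : ℂ)) - (u (x τ) - A (x τ : ℂ)))) := by
        have hAx : ∀ t, Tendsto (fun n => A (xs n t : ℂ)) l (𝓝 (A (x t : ℂ))) := fun t =>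
          ((A.continuous.comp continuous_coe).tendsto (x t)).comp (hx t)
        exact ((hux _).sub (hAx _)).sub ((hux _).sub (hAx _))
      refine le_of_forall_pos_le_add fun ε hε => ?_
      rw [← sub_le_iff_le_add]
      refine ge_of_tendsto hlimit ?_
      filter_upwards [H _ ε b3 hε, hA _ (ρ / 3) b3 (by positivity), h.c0 _ hη',
        t9lim_small hk hη', Metric.tendsto_nhds.1 (hx τ) (ρ / 3) (by positivity)]
        with n ⟨h1, h2⟩ h3 h4 h5 h6
      have h7 := h1.mono b1.1 (lt_add_of_pos_right τ hr0) b2.2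
      have h8 := t9lim_ex_mono (hd n) h1 b1.1 (le_add_of_nonneg_right hr0.le) b2.2
      have h9 := t9lim_plane (k := ks n) (m := L (jet x τ) + k - A (vel x τ) - η) h7 A (by
        intro a ha
        have k1 := h3 a ⟨b1.1.trans ha.1, ha.2.trans b2.2⟩ τ b1
        have k2 : C * |a - τ| ≤ C * r := by
          refine mul_le_mul_of_nonneg_left ?_ hC
          rw [abs_of_nonneg (sub_nonneg.2 ha.1)]
          linarith [ha.2]
        have k3 := dist_triangle (xs n a) (xs n τ) (x τ)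
        have k4 := hpl (y := xs n a) (by linarith) (vel (xs n) a)
        have k5 := (abs_le.1 (h4 (xs n a) (vel (xs n) a))).1
        have k6 := (abs_le.1 h5).1
        rw [← hAe, map_sub] at k4
        change _ ≤ Ls n (xs n a, vel (xs n) a) + ks n
        change L (x τ, vel x τ) + k - A (vel x τ) - η + _ ≤ _
        linarith)
      simp only [t9limEx] at h8 h2
      rw [map_sub, add_sub_cancel_left] at h9
      linarith)
    linarith
  refine ⟨x, fun s t hst => ?_, hx⟩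
  have hadm : Adm L x s t := adm_of_lip hL hst fun a _ b _ => hxl a b
  refine ⟨hadm, le_antisymm (hD x s t hadm) ?_⟩
  have hFac : AbsolutelyContinuousOnInterval (fun a => u (x a)) s t := by
    refine (LipschitzOnWith.of_dist_le_mul
      (K := ⟨C₁ * C, mul_nonneg hC₁ hC⟩) ?_).absolutelyContinuousOnInterval
    intro a _ b _
    rw [Real.dist_eq, Real.dist_eq]
    have h1 := hul (x b) (x a)
    have h2 := hxl a b
    rw [dist_comm] at h1
    change _ ≤ C₁ * C * |a - b|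
    nlinarith
  rw [← hFac.integral_deriv_eq_sub]
  refine intervalIntegral.integral_mono_ae_restrict hst.le
    (hadm.2.2.add intervalIntegrable_const) hFac.intervalIntegrable_deriv ?_
  refine (ae_restrict_iff' measurableSet_Icc).2 ?_
  filter_upwards [hadm.ae_diff, hFac.ae_differentiableAt] with τ k1 k2 k3
  refine hder τ _ (k1 k3) (k2 ?_).hasDerivAt
  rwa [Set.uIcc_of_le hst.le]

theorem LSeq.lim_cal {l : Ultrafilter ℕ} (h : LSeq Γ l L Ls) (hk : Tendsto ks l (𝓝 k))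
    (hd : ∀ n, Dom (Ls n) (ks n) (us n)) (hu : ∀ z, Tendsto (fun n => us n z) l (𝓝 (u z)))
    {xs : ℕ → ℝ → ℍ} {W : ℕ → ℝ} (hW : Tendsto W l atTop)
    (ha : ∀ᶠ n in l, Adm (Ls n) (xs n) (-W n) (W n))
    (he : Tendsto (fun n => ac (Ls n) (ks n) (xs n) (-W n) (W n) -
      (us n (xs n (W n)) - us n (xs n (-W n)))) l (𝓝 0))
    {R : ℝ} (hR : ∀ᶠ n in l, dist (xs n 0) I ≤ R) :
    ∃ x, Cal L k u x ∧ ∀ t, Tendsto (fun n => xs n t) l (𝓝 (x t)) := by
  refine t9lim_core h hk hd hu (fun B ε hB hε => ?_) hR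
  filter_upwards [ha, hW.eventually_ge_atTop B, he.eventually (ge_mem_nhds hε)] with n h1 h2 h3
  exact ⟨h1.mono (neg_le_neg h2) (by linarith) h2,
    (t9lim_ex_mono (hd n) h1 (neg_le_neg h2) (by linarith) h2).trans h3⟩

/-- Repeating a loop. -/
lemma t9lim_repeat (F : Deck Γ) (hL : Tonelli Γ L) {x : ℝ → ℍ} {s t : ℝ} {γ : Γ}
    (h : Adm L x s t) (e : x t = γ • x s) (m : ℕ) :
    ∃ z, Adm L z s (s + (m + 1) * (t - s)) ∧ z s = x s ∧
      z (s + (m + 1) * (t - s)) = γ ^ (m + 1) • x s ∧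
      ∀ k, ac L k z s (s + (m + 1) * (t - s)) = (m + 1) * ac L k x s t := by
  induction m with
  | zero => exact ⟨x, by simpa using h, rfl, by simpa using e, fun k => by simp⟩
  | succ m ih =>
    obtain ⟨z, h1, h2, h3, h4⟩ := ih
    have h5 := (h.shift (-((m + 1) * (t - s)))).smul F hL (γ ^ (m + 1))
    have e1 : s - -(((m : ℝ) + 1) * (t - s)) = s + (m + 1) * (t - s) := by ring
    have e2 : t - -(((m : ℝ) + 1) * (t - s)) = s + (((m + 1 : ℕ) : ℝ) + 1) * (t - s) := by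
      push_cast
      ring
    have h6 : ∀ k, ac L k (fun τ => γ ^ (m + 1) • x (τ + -(((m : ℝ) + 1) * (t - s))))
        (s - -(((m : ℝ) + 1) * (t - s))) (t - -(((m : ℝ) + 1) * (t - s))) = ac L k x s t := by
      intro k
      rw [hL.ac_smul F (γ ^ (m + 1)) k (fun τ => x (τ + -(((m : ℝ) + 1) * (t - s)))), ac_shift]
    rw [e1, e2] at h5 h6
    obtain ⟨w, k1, k2, k3, k4⟩ := h1.glue h5 (by
      rw [h3]
      simp)
    refine ⟨w, k1, k2.trans h2, ?_, fun k => ?_⟩
    · rw [k3, ← e2]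
      simp only [sub_neg_eq_add, add_neg_cancel_right]
      rw [e, ← mul_smul, ← pow_succ]
    · rw [k4, h4, h6]
      push_cast
      ring

/-- Some window of given length has small excess. -/
lemma t9lim_window (hd : Dom L k u) {z : ℝ → ℍ} {a b r ε : ℝ} (hz : Adm L z a b) (hr : 0 < r)
    (hab : r ≤ b - a) (hε : 0 ≤ ε) (he : t9limEx L k u z a b ≤ ε * (b - a)) :
    ∃ p, a ≤ p ∧ p + r ≤ b ∧ t9limEx L k u z p (p + r) ≤ 2 * r * ε := by
  by_contra hne
  push Not at hne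
  have key : ∀ j : ℕ, a + (j + 1) * r ≤ b →
      2 * r * ε * (j + 1) < t9limEx L k u z a (a + (j + 1) * r) := by
    intro j
    induction j with
    | zero =>
      intro h1
      have := hne a le_rfl (by simpa using h1)
      simpa using this
    | succ j ih =>
      intro h1
      push_cast at h1 ⊢
      have hj : (0 : ℝ) ≤ (j + 1) * r := by positivity
      have h2 := ih (by linarith)
      have h3 := hne (a + (j + 1) * r) (by linarith) (by linarith)
      have h4 := t9lim_ex_add (k := k) (u := u) hz le_rfl (b := a + (j + 1) * r)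
        (d := a + (j + 1) * r + r) (by linarith) (by linarith) (by linarith)
      have e : a + (j + 1 + 1) * r = a + (j + 1) * r + r := by ring
      rw [e]
      linarith
  have h1 : 1 ≤ (b - a) / r := (one_le_div hr).2 hab
  obtain ⟨j, hj⟩ : ∃ j : ℕ, ⌊(b - a) / r⌋₊ = j + 1 :=
    Nat.exists_eq_succ_of_ne_zero (Nat.floor_pos.2 h1).ne'
  have h2 := Nat.floor_le (zero_le_one.trans h1)
  have h3 := Nat.lt_floor_add_one ((b - a) / r)
  rw [hj] at h2 h3
  push_cast at h2 h3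
  rw [le_div_iff₀ hr] at h2
  rw [div_lt_iff₀ hr] at h3
  have h4 := key j (by linarith)
  have hj0 : (0 : ℝ) ≤ (j + 1) * r := by positivity
  have h5 := t9lim_ex_mono hd hz le_rfl (b := a + (j + 1) * r) (by linarith) (by linarith)
  have h6 : ε * (b - a) ≤ ε * (2 * ((j + 1) * r)) := by
    refine mul_le_mul_of_nonneg_left ?_ hε
    have : (0 : ℝ) ≤ j * r := by positivity
    linarith
  linarith

lemma t9lim_almost (F : Deck Γ) (hL : Tonelli Γ L) (hc : c ∈ Coh Γ) (hu : Eqv c u)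
    (hd : Dom L (crit L c) u) {R : ℝ} (hR : ∀ z : ℍ, ∃ γ : Γ, dist (γ • z) I ≤ R) {W ε : ℝ}
    (hW : 0 < W) (hε : 0 < ε) : ∃ y, Adm L y (-W) W ∧ dist (y 0) I ≤ R ∧
      t9limEx L (crit L c) u y (-W) W ≤ 4 * W * ε := by
  obtain ⟨x, s, t, γ, h1, h2, h3⟩ : ∃ x s t γ, Adm L x s t ∧ x t = γ • x s ∧
      ac L (crit L c - ε) x s t < c γ := by
    by_contra hne
    push Not at hne
    have := crit_le F hL hc hne
    linarith
  have hT : 0 < t - s := sub_pos.2 h1.1
  obtain ⟨m, hm⟩ := exists_nat_ge (2 * W / (t - s))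
  rw [div_le_iff₀ hT] at hm
  obtain ⟨z, k1, k2, k3, k4⟩ := t9lim_repeat F hL h1 h2 m
  have h4 := h1.ac_const (crit L c) (crit L c - ε)
  have hm0 : (0 : ℝ) ≤ m + 1 := by positivity
  obtain ⟨p, p1, p2, p3⟩ := t9lim_window hd k1 (r := 2 * W) (ε := ε) (by positivity)
    (by nlinarith) hε.le (by
      rw [t9limEx, k4, k3, k2, hu, t9base_pow hc]
      push_cast
      have h5 : ac L (crit L c) x s t - c γ ≤ ε * (t - s) := by linarith
      have h6 := mul_le_mul_of_nonneg_left h5 hm0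
      linarith)
  obtain ⟨δ, hδ⟩ := hR (z (p + W))
  have h5 := ((k1.mono p1 (by linarith) p2).shift (p + W)).smul F hL δ
  have h6 := ac_shift L (crit L c) z p (p + 2 * W) (p + W)
  have e1 : p - (p + W) = -W := by ring
  have e2 : p + 2 * W - (p + W) = W := by ring
  rw [e1, e2] at h5 h6
  refine ⟨fun τ => δ • z (τ + (p + W)), h5, by simpa using hδ, ?_⟩
  rw [t9limEx, hL.ac_smul F δ _ (fun τ => z (τ + (p + W))), h6, hu, hu]
  have e3 : W + (p + W) = p + 2 * W := by ring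
  have e4 : -W + (p + W) = p := by ring
  rw [e3, e4]
  rw [t9limEx] at p3
  linarith

theorem exists_cal (F : Deck Γ) (hL : Tonelli Γ L) (hc : c ∈ Coh Γ) (hu : Eqv c u)
    (hd : Dom L (crit L c) u) : ∃ x, Cal L (crit L c) u x := by
  obtain ⟨R, hR⟩ := F.cpt
  have H : ∀ n : ℕ, ∃ y, Adm L y (-((n : ℝ) + 1)) (n + 1) ∧ dist (y 0) I ≤ R ∧
      t9limEx L (crit L c) u y (-((n : ℝ) + 1)) (n + 1) ≤ 4 * (1 / ((n : ℝ) + 1)) := by
    intro n
    obtain ⟨y, h1, h2, h3⟩ := t9lim_almost F hL hc hu hd hR (W := (n : ℝ) + 1)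
      (ε := 1 / ((n : ℝ) + 1) ^ 2) (by positivity) (by positivity)
    refine ⟨y, h1, h2, h3.trans (le_of_eq ?_)⟩
    field_simp
  choose ys h1 h2 h3 using H
  have hl : (Ultrafilter.of (atTop : Filter ℕ) : Filter ℕ) ≤ atTop := Ultrafilter.of_le _
  obtain ⟨x, hx, -⟩ := (LSeq.const F hL (Ultrafilter.of (atTop : Filter ℕ))).lim_cal
    (ks := fun _ => crit L c) (us := fun _ => u) (u := u) tendsto_const_nhds (fun _ => hd)
    (fun _ => tendsto_const_nhds) (xs := ys) (W := fun n => (n : ℝ) + 1)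
    ((tendsto_natCast_atTop_atTop.atTop_add tendsto_const_nhds).mono_left hl)
    (Eventually.of_forall h1) (by
      have h4 : Tendsto (fun n : ℕ => 4 * (1 / ((n : ℝ) + 1))) atTop (𝓝 0) := by
        simpa using (tendsto_one_div_add_atTop_nhds_zero_nat (𝕜 := ℝ)).const_mul 4
      exact squeeze_zero (fun n => t9lim_ex_nonneg hd (h1 n) le_rfl (h1 n).1.le le_rfl) h3
        (h4.mono_left hl)) (Eventually.of_forall h2)
  exact ⟨x, hx⟩

lemma LSeq.lim_cal' {l : Ultrafilter ℕ} (h : LSeq Γ l L Ls) (hk : Tendsto ks l (𝓝 k))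
    (hd : ∀ n, Dom (Ls n) (ks n) (us n)) (hu : ∀ z, Tendsto (fun n => us n z) l (𝓝 (u z)))
    {xs : ℕ → ℝ → ℍ} (hx : ∀ᶠ n in l, Cal (Ls n) (ks n) (us n) (xs n))
    {R : ℝ} (hR : ∀ᶠ n in l, dist (xs n 0) I ≤ R) :
    ∃ x, Cal L k u x ∧ ∀ t, Tendsto (fun n => xs n t) l (𝓝 (x t)) := by
  refine t9lim_core h hk hd hu (fun B ε hB hε => ?_) hR
  filter_upwards [hx] with n h1
  obtain ⟨h2, h3⟩ := h1 (-B) B (by linarith)
  refine ⟨h2, ?_⟩
  rw [t9limEx, h3, sub_self]
  exact hε.le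

lemma LSeq.lim_dom {l : Ultrafilter ℕ} (h : LSeq Γ l L Ls) (hk : Tendsto ks l (𝓝 k))
    (hd : ∀ n, Dom (Ls n) (ks n) (us n)) {cs : ℕ → Γ → ℝ} (hl : CLim l c cs)
    (hu : ∀ n, Eqv (cs n) (us n)) : ∃ u, Eqv c u ∧ Dom L k u ∧
      ∀ z, Tendsto (fun n => us n z + -us n I) l (𝓝 (u z)) := by
  obtain ⟨C₁, hC₁, hlip⟩ := h.unif.lipDom (k + 1)
  have hlim : ∀ z, ∃ w, Tendsto (fun n => us n z + -us n I) l (𝓝 w) := by
    intro z
    refine t9lim_ultra (z := 0) (R := C₁ * dist I z) ?_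
    filter_upwards [t9lim_small hk one_pos] with n hn
    rw [Real.dist_eq, sub_zero, ← sub_eq_add_neg]
    exact hlip _ (Or.inr ⟨n, rfl⟩) _ (by linarith [(abs_le.1 hn).2]) _ (hd n) _ _
  choose w hw using hlim
  refine ⟨w, fun γ z => ?_, h.dom hk (fun n => (hd n).add_const (-us n I)) hw, hw⟩
  have h1 : Tendsto (fun n => cs n γ) l (𝓝 (c γ)) := by
    rw [Metric.tendsto_nhds]
    intro ε hε
    have h0 : 0 ≤ dist (I : ℍ) (γ • I) := dist_nonneg
    filter_upwards [hl (ε / (dist (I : ℍ) (γ • I) + 1)) (by positivity)] with n hn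
    rw [Real.dist_eq]
    refine (hn γ I).trans_lt ?_
    rw [div_mul_eq_mul_div, div_lt_iff₀ (by positivity)]
    nlinarith
  refine tendsto_nhds_unique (hw (γ • z)) ?_
  refine ((hw z).add h1).congr fun n => ?_
  rw [hu n γ z]
  ring

/-- Under `Gs` every sequence of calibrated curves converges, up to deck transformations, to a
time shift of the closed curve. -/
theorem LSeq.lim_gs (F : Deck Γ) {l : Ultrafilter ℕ} (h : LSeq Γ l L Ls) {cs : ℕ → Γ → ℝ}
    (hc : c ∈ Coh Γ) (hcs : ∀ n, cs n ∈ Coh Γ) (hl : CLim l c cs) {x : ℝ → ℍ}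
    (hx : ∀ u, Eqv c u → Dom L (crit L c) u →
      ∀ y, Cal L (crit L c) u y → ∃ (δ : Γ) (s : ℝ), ∀ t, y t = δ • x (t + s))
    (hu : ∀ n, Eqv (cs n) (us n)) (hd : ∀ n, Dom (Ls n) (crit (Ls n) (cs n)) (us n))
    {ys : ℕ → ℝ → ℍ} (hy : ∀ n, Cal (Ls n) (crit (Ls n) (cs n)) (us n) (ys n)) :
    ∃ (δ : ℕ → Γ) (s : ℝ), ∀ t, Tendsto (fun n => δ n • ys n t) l (𝓝 (x (t + s))) := by
  have hk := h.tendsto_crit F hc hcs hl
  obtain ⟨w, h1, h2, h3⟩ := h.lim_dom hk hd hl hu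
  obtain ⟨R, hR⟩ := F.cpt
  choose δ hδ using fun n => hR (ys n 0)
  obtain ⟨y, h4, h5⟩ := h.lim_cal' hk (fun n => (hd n).add_const (-us n I)) h3
    (xs := fun n t => δ n • ys n t) (Eventually.of_forall fun n =>
      ((hy n).smul_eqv F (h.tons n) (hu n) (δ n)).add_const (-us n I)) (Eventually.of_forall hδ)
  obtain ⟨β, s, h6⟩ := hx w h1 h2 y h4
  refine ⟨fun n => β⁻¹ * δ n, s, fun t => ?_⟩
  have h7 := ((F.cont β⁻¹).tendsto (y t)).comp (h5 t)
  rw [h6, inv_smul_smul] at h7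
  refine h7.congr fun n => ?_
  simp [mul_smul]

end Pool.Agent.Lib.MP_5bb885_an.Gen
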