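import Pool.Agent.Lib.MP_5bb885_an.T9JI
import Pool.Agent.Lib.MP_5bb885_an.T9Lim

/-!
Difference quotients of calibrated curves converge to Jacobi fields.
-/

namespace Pool.Agent.Lib.MP_5bb885_an.Gen

open UpperHalfPlane MeasureTheory Filter Topology

variable {Γ : Type} [Group Γ] [MulAction Γ ℍ] {L : ℂ × ℂ → ℝ} {Ls : ℕ → ℂ × ℂ → ℝ}
  {l : Ultrafilter ℕ} {x : ℝ → ℍ} {us : ℕ → ℍ → ℝ} {ks d : ℕ → ℝ} {k₀ : ℝ} {ys zs : ℕ → ℝ → ℍ}

lemma t9exp_Dv (A : ℂ × ℂ →L[ℝ] ℝ) : ‖Dv A‖ ≤ ‖A‖ :=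
  ContinuousLinearMap.opNorm_le_bound _ (norm_nonneg _) fun w => by
    simpa [Dv] using A.le_opNorm (0, w)

lemma t9exp_Dx (A : ℂ × ℂ →L[ℝ] ℝ) : ‖Dx A‖ ≤ ‖A‖ :=
  ContinuousLinearMap.opNorm_le_bound _ (norm_nonneg _) fun w => by
    simpa [Dx] using A.le_opNorm (w, 0)

lemma t9exp_convex : Convex ℝ TH := by
  intro p hp q hq a b ha hb hab
  have h1 : 0 < p.1.im := hp
  have h2 : 0 < q.1.im := hq
  have h3 : (a • p + b • q).1.im = a * p.1.im + b * q.1.im := by simp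
  change 0 < (a • p + b • q).1.im
  rw [h3]
  rcases ha.eq_or_lt with rfl | ha'
  · rw [zero_add] at hab
    rw [hab]
    linarith
  · have := mul_pos ha' h1
    have := mul_nonneg hb h2.le
    linarith

lemma t9exp_mem (L : ℂ × ℂ → ℝ) (Ls : ℕ → ℂ × ℂ → ℝ) (n : ℕ) : Ls n ∈ insert L (Set.range Ls) :=
  Set.mem_insert_of_mem _ ⟨n, rfl⟩

lemma t9exp_lim {E : Type} [NormedAddCommGroup E] {l : Filter ℕ} {f : ℕ → E} {a : E}
    (h : ∀ ε : ℝ, 0 < ε → ∀ᶠ n in l, ‖f n - a‖ ≤ ε) : Tendsto f l (𝓝 a) :=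
  Metric.nhds_basis_closedBall.tendsto_right_iff.2 fun ε hε =>
    (h ε hε).mono fun _ hn => mem_closedBall_iff_norm.2 hn

lemma t9exp_app {E F : Type} [NormedAddCommGroup E] [NormedSpace ℝ E] [NormedAddCommGroup F]
    [NormedSpace ℝ F] {l : Filter ℕ} {A : ℕ → E →L[ℝ] F} {A₀ : E →L[ℝ] F} {v : ℕ → E} {v₀ : E}
    (hA : Tendsto A l (𝓝 A₀)) (hv : Tendsto v l (𝓝 v₀)) :
    Tendsto (fun n => A n (v n)) l (𝓝 (A₀ v₀)) :=
  ((continuous_fst.clm_apply continuous_snd).tendsto (A₀, v₀)).comp (hA.prodMk_nhds hv)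

/-- Uniform closeness of the derivatives near a compact set. -/
lemma t9exp_near (h : LSeq Γ l L Ls) {K : Set (ℂ × ℂ)} (hK : IsCompact K) (hK' : K ⊆ TH) {ε : ℝ}
    (hε : 0 < ε) : ∃ δ : ℝ, 0 < δ ∧ ∀ᶠ n in l, ∀ p ∈ K, ∀ q : ℂ × ℂ, ‖q - p‖ ≤ δ → q ∈ TH ∧
      ‖fderiv ℝ (Ls n) q - fderiv ℝ L p‖ ≤ ε ∧ ‖D2 (Ls n) q - D2 L p‖ ≤ ε := by
  obtain ⟨R, hR⟩ := exists_KB (hK.image continuous_fst) (by
    rintro _ ⟨p, hp, rfl⟩
    exact hK' hp)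
  obtain ⟨r, hr⟩ := hK.exists_bound_of_continuousOn (f := Prod.snd) continuous_snd.continuousOn
  obtain ⟨δ₁, hδ₁, h₁⟩ := KB_thick R
  obtain ⟨hQ, -, hs⟩ := t9tay_KT (R + 1) (r + 1)
  obtain ⟨-, c1, -⟩ := t9tay_cont isOpen_TH h.ton.smooth
  have hε' : 0 < ε / 2 := half_pos hε
  obtain ⟨δ₂, hδ₂, h₂⟩ := (Metric.uniformContinuousOn_iff_le (f := D2 L)).1
    (hQ.uniformContinuousOn_of_continuous (f := D2 L) ((continuousOn_D2 h.ton.smooth).mono hs))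
    _ hε'
  obtain ⟨δ₃, hδ₃, h₃⟩ := (Metric.uniformContinuousOn_iff_le (f := fderiv ℝ L)).1
    (hQ.uniformContinuousOn_of_continuous (f := fderiv ℝ L) (c1.mono hs)) _ hε'
  refine ⟨min (min δ₁ 1) (min δ₂ δ₃), by positivity, ?_⟩
  filter_upwards [h.c2 (R + 1) (r + 1) _ hε'] with n hn p hp q hq
  have a1 : ‖q - p‖ ≤ δ₁ := hq.trans ((min_le_left _ _).trans (min_le_left _ _))
  have a2 : ‖q - p‖ ≤ 1 := hq.trans ((min_le_left _ _).trans (min_le_right _ _))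
  have a3 : ‖q - p‖ ≤ δ₂ := hq.trans ((min_le_right _ _).trans (min_le_left _ _))
  have a4 : ‖q - p‖ ≤ δ₃ := hq.trans ((min_le_right _ _).trans (min_le_right _ _))
  have b1 : p.1 ∈ KB R := hR ⟨p, hp, rfl⟩
  have b2 : q.1 ∈ KB (R + 1) := by
    have := h₁ _ b1 (q - p).1 ((norm_fst_le _).trans a1)
    simpa using this
  have b3 : ‖q.2‖ ≤ r + 1 := by
    have e : q.2 = p.2 + (q - p).2 := by simp
    rw [e]
    exact (norm_add_le _ _).trans (add_le_add (hr p hp) ((norm_snd_le _).trans a2))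
  have b4 := t9tay_mem b2 b3
  have b5 := t9tay_mem (p := p) (KB_mono (le_add_of_nonneg_right zero_le_one) b1)
    ((hr p hp).trans (le_add_of_nonneg_right zero_le_one))
  obtain ⟨e1, e2⟩ := hn q.1 b2 q.2 b3
  have e3 := h₂ _ b4 _ b5 (by rwa [dist_eq_norm])
  have e4 := h₃ _ b4 _ b5 (by rwa [dist_eq_norm])
  have e5 : ‖D2 L q - D2 L p‖ ≤ ε / 2 := (dist_eq_norm (D2 L q) (D2 L p)).symm.trans_le e3
  have e6 : ‖fderiv ℝ L q - fderiv ℝ L p‖ ≤ ε / 2 := (dist_eq_norm _ _).symm.trans_le e4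
  refine ⟨hs b4, ?_, ?_⟩
  · have := norm_sub_le_norm_sub_add_norm_sub (fderiv ℝ (Ls n) q) (fderiv ℝ L q) (fderiv ℝ L p)
    change ‖fderiv ℝ (Ls n) q - fderiv ℝ L q‖ ≤ ε / 2 at e1
    linarith
  · have := norm_sub_le_norm_sub_add_norm_sub (D2 (Ls n) q) (D2 L q) (D2 L p)
    change ‖D2 (Ls n) q - D2 L q‖ ≤ ε / 2 at e2
    linarith

lemma t9exp_tend (h : LSeq Γ l L Ls) {p : ℂ × ℂ} (hp : p ∈ TH) {q : ℕ → ℂ × ℂ}
    (hq : Tendsto q l (𝓝 p)) : Tendsto (fun n => fderiv ℝ (Ls n) (q n)) l (𝓝 (fderiv ℝ L p)) ∧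
      Tendsto (fun n => D2 (Ls n) (q n)) l (𝓝 (D2 L p)) := by
  have key : ∀ ε : ℝ, 0 < ε → ∀ᶠ n in l, ‖fderiv ℝ (Ls n) (q n) - fderiv ℝ L p‖ ≤ ε ∧
      ‖D2 (Ls n) (q n) - D2 L p‖ ≤ ε := fun ε hε => by
    obtain ⟨δ, hδ, h1⟩ := t9exp_near h isCompact_singleton (Set.singleton_subset_iff.2 hp) hε
    filter_upwards [h1, hq (Metric.closedBall_mem_nhds p hδ)] with n h2 h3
    exact (h2 p rfl (q n) (mem_closedBall_iff_norm.1 h3)).2
  exact ⟨t9exp_lim fun ε hε => (key ε hε).mono fun n hn => hn.1,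
    t9exp_lim (f := fun n => D2 (Ls n) (q n)) (a := D2 L p)
      fun ε hε => (key ε hε).mono fun n hn => hn.2⟩

/-- The energy condition passes to the limit. -/
lemma t9exp_en (h : LSeq Γ l L Ls) {p a : ℂ × ℂ} (hp : p ∈ TH) {q b : ℕ → ℂ × ℂ}
    (hq : Tendsto q l (𝓝 p)) (hb : Tendsto b l (𝓝 a))
    (he : ∀ᶠ n in l, D2 (Ls n) (q n) (b n) (0, (q n).2) = fderiv ℝ (Ls n) (q n) ((b n).1, 0)) :
    D2 L p a (0, p.2) = fderiv ℝ L p (a.1, 0) := by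
  obtain ⟨h1, h2⟩ := t9exp_tend h hp hq
  have h3 : Tendsto (fun n => ((0 : ℂ), (q n).2)) l (𝓝 (0, p.2)) :=
    tendsto_const_nhds.prodMk_nhds (continuous_snd.continuousAt.tendsto.comp hq)
  have h4 : Tendsto (fun n => ((b n).1, (0 : ℂ))) l (𝓝 (a.1, 0)) :=
    (continuous_fst.continuousAt.tendsto.comp hb).prodMk_nhds tendsto_const_nhds
  exact tendsto_nhds_unique_of_eventuallyEq (t9exp_app (t9exp_app h2 hb) h3) (t9exp_app h1 h4) he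

/-- Rolle's theorem for the energy. -/
lemma t9exp_rolle (hL : ContDiffOn ℝ 2 L TH) {p q : ℂ × ℂ} (hp : p ∈ TH) (hq : q ∈ TH)
    (he : fderiv ℝ L p (0, p.2) - L p = fderiv ℝ L q (0, q.2) - L q) :
    ∃ c ∈ Set.Icc (0 : ℝ) 1, D2 L (p + c • (q - p)) (q - p) (0, (p + c • (q - p)).2) =
      fderiv ℝ L (p + c • (q - p)) ((q - p).1, 0) := by
  have hd : ∀ c ∈ Set.Icc (0 : ℝ) 1, HasDerivAt
      (fun s : ℝ => fderiv ℝ L (p + s • (q - p)) (0, (p + s • (q - p)).2) - L (p + s • (q - p)))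
      (D2 L (p + c • (q - p)) (q - p) (0, (p + c • (q - p)).2) -
        fderiv ℝ L (p + c • (q - p)) ((q - p).1, 0)) c := fun c hc => by
    have h1 : HasDerivAt (fun s : ℝ => p + s • (q - p)) (q - p) c := by
      simpa using ((hasDerivAt_id c).smul_const (q - p)).const_add p
    have h2 : HasDerivAt (fun s : ℝ => ((0 : ℂ), (p + s • (q - p)).2)) (0, (q - p).2) c :=
      (hasDerivAt_const c (0 : ℂ)).prodMk (hasFDerivAt_snd.comp_hasDerivAt c h1)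
    obtain ⟨h3, h4⟩ := hasFDerivAt_L hL (t9exp_convex.add_smul_sub_mem hp hq hc)
    have h5 : HasDerivAt (fun s : ℝ => fderiv ℝ L (p + s • (q - p)))
        (D2 L (p + c • (q - p)) (q - p)) c := h4.comp_hasDerivAt c h1
    have h6 : HasDerivAt (fun s : ℝ => L (p + s • (q - p)))
        (fderiv ℝ L (p + c • (q - p)) (q - p)) c := h3.comp_hasDerivAt c h1
    refine ((h5.clm_apply h2).sub h6).congr_deriv ?_
    have e : q - p = ((q - p).1, 0) + (0, (q - p).2) := by ext <;> simp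
    have e' : fderiv ℝ L (p + c • (q - p)) (q - p) = fderiv ℝ L (p + c • (q - p)) ((q - p).1, 0) +
        fderiv ℝ L (p + c • (q - p)) (0, (q - p).2) := by rw [← map_add, ← e]
    rw [e']
    ring
  obtain ⟨c, hc, h⟩ := exists_hasDerivAt_eq_zero zero_lt_one
    (fun c hc => (hd c hc).continuousAt.continuousWithinAt) (by simpa using he)
    fun c hc => hd c (Set.Ioo_subset_Icc_self hc)
  exact ⟨c, Set.Ioo_subset_Icc_self hc, sub_eq_zero.1 h⟩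

lemma t9exp_cpt (hx : Reg L x) (W : ℝ) :
    IsCompact (jet x '' Set.Icc (-W) W) ∧ jet x '' Set.Icc (-W) W ⊆ TH :=
  ⟨isCompact_Icc.image hx.contJet, by
    rintro _ ⟨t, -, rfl⟩
    exact jet_mem x t⟩

lemma t9exp_jet (h : LSeq Γ l L Ls) (hk : ∀ᶠ n in l, |ks n| ≤ k₀)
    (hd : ∀ n, Dom (Ls n) (ks n) (us n)) (hy : ∀ n, Cal (Ls n) (ks n) (us n) (ys n))
    (hx : Reg L x) (h1 : ∀ t, Tendsto (fun n => ys n t) l (𝓝 (x t))) (t : ℝ) :
    Tendsto (fun n => jet (ys n) t) l (𝓝 (jet x t)) :=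
  t9exp_lim fun _ hε => (h.jet_lim hk hd hy hx h1 |t| hε).mono fun _ hn => hn t le_rfl

lemma t9exp_sc {E F : Type} [NormedAddCommGroup E] [NormedSpace ℝ E] [NormedAddCommGroup F]
    [NormedSpace ℝ F] {A : E →L[ℝ] F} {u : F} {v : E} {ε : ℝ} (h : ‖u - A v‖ ≤ ε * ‖v‖) (c : ℝ) :
    ‖c • u - A (c • v)‖ ≤ ε * ‖c • v‖ := by
  rw [map_smul, ← smul_sub, norm_smul, norm_smul, mul_left_comm]
  exact mul_le_mul_of_nonneg_left h (norm_nonneg _)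

/-- The mean value inequality for the difference quotient of the first derivative. -/
lemma t9exp_mvi (hL : ContDiffOn ℝ 2 L TH) {A : ℂ × ℂ →L[ℝ] ℂ × ℂ →L[ℝ] ℝ} {p q q' : ℂ × ℂ}
    {δ ε : ℝ} (hε : 0 ≤ ε) (c : ℝ) (h : ∀ q : ℂ × ℂ, ‖q - p‖ ≤ δ → q ∈ TH ∧ ‖D2 L q - A‖ ≤ ε)
    (hq : ‖q - p‖ ≤ δ) (hq' : ‖q' - p‖ ≤ δ) :
    ‖c • (Dv (fderiv ℝ L q) - Dv (fderiv ℝ L q')) - Dv (A (c • (q.1 - q'.1), c • (q.2 - q'.2)))‖ ≤
      ε * (1 + ‖c • (q.1 - q'.1)‖ + ‖c • (q.2 - q'.2)‖) ∧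
    ‖c • (Dx (fderiv ℝ L q) - Dx (fderiv ℝ L q')) - Dx (A (c • (q.1 - q'.1), c • (q.2 - q'.2)))‖ ≤
      ε * (1 + ‖c • (q.1 - q'.1)‖ + ‖c • (q.2 - q'.2)‖) := by
  have h1 : ‖fderiv ℝ L q - fderiv ℝ L q' - A (q - q')‖ ≤ ε * ‖q - q'‖ :=
    (convex_closedBall p δ).norm_image_sub_le_of_norm_hasFDerivWithin_le'
      (f := fderiv ℝ L) (f' := D2 L) (φ := A)
      (fun y hy => (hasFDerivAt_L hL (h y (mem_closedBall_iff_norm.1 hy)).1).2.hasFDerivWithinAt)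
      (fun y hy => (h y (mem_closedBall_iff_norm.1 hy)).2) (mem_closedBall_iff_norm.2 hq')
      (mem_closedBall_iff_norm.2 hq)
  have h2 := t9exp_sc h1 c
  have e : c • (q - q') = (c • (q.1 - q'.1), c • (q.2 - q'.2)) := rfl
  rw [e] at h2
  have h3 : ‖(c • (q.1 - q'.1), c • (q.2 - q'.2))‖ ≤
      1 + ‖c • (q.1 - q'.1)‖ + ‖c • (q.2 - q'.2)‖ := by
    rw [Prod.norm_mk]
    exact max_le (by linarith [norm_nonneg (c • (q.2 - q'.2))])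
      (by linarith [norm_nonneg (c • (q.1 - q'.1))])
  have h4 := h2.trans (mul_le_mul_of_nonneg_left h3 hε)
  refine ⟨le_of_eq_of_le ?_ ((t9exp_Dv _).trans h4), le_of_eq_of_le ?_ ((t9exp_Dx _).trans h4)⟩
  · congr 1
  · congr 1

lemma t9exp_ball {z : ℍ} {w : ℕ → ℍ} (hw : Tendsto w l (𝓝 z)) :
    ∀ᶠ n in l, dist (w n) I ≤ dist z I + 1 := by
  filter_upwards [hw (Metric.closedBall_mem_nhds z one_pos)] with n hn
  have h4 : dist (w n) z ≤ 1 := hn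
  linarith [dist_triangle (w n) z I]

lemma t9exp_init (h : LSeq Γ l L Ls) (hk : ∀ᶠ n in l, |ks n| ≤ k₀)
    (hd : ∀ n, Dom (Ls n) (ks n) (us n)) (hy : ∀ n, Cal (Ls n) (ks n) (us n) (ys n))
    (hz : ∀ n, Cal (Ls n) (ks n) (us n) (zs n))
    (h1 : ∀ t, Tendsto (fun n => ys n t) l (𝓝 (x t)))
    (h2 : ∀ t, Tendsto (fun n => zs n t) l (𝓝 (x t)))
    (h3 : ∀ᶠ n in l, 0 < d n ∧ dist (ys n 0) (zs n 0) ≤ d n) :
    ∃ C : ℝ, ∀ᶠ n in l, ‖(d n)⁻¹ • ((ys n 0 : ℂ) - zs n 0)‖ ≤ C ∧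
      ‖(d n)⁻¹ • (vel (ys n) 0 - vel (zs n) 0)‖ ≤ C := by
  obtain ⟨C, hC1, hC⟩ := KB_cmp (dist (x 0) I + 1)
  obtain ⟨C', hC0', hC'⟩ := h.unif.vlip k₀ (dist (x 0) I + 1)
  refine ⟨max C (C' * C), ?_⟩
  filter_upwards [hk, h3, t9exp_ball (h1 0), t9exp_ball (h2 0)] with n a1 a2 a3 a4
  have b1 : ‖(ys n 0 : ℂ) - zs n 0‖ ≤ C * d n := (hC _ _ a3 a4).2.1.trans
    (mul_le_mul_of_nonneg_left a2.2 (zero_le_one.trans hC1))
  have b2 := (hC' _ (t9exp_mem L Ls n) _ a1 _ (hd n) _ _ (hy n) (hz n) 0 0 a3 a4).trans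
    (mul_le_mul_of_nonneg_left b1 hC0')
  rw [norm_smul, norm_smul, norm_inv, Real.norm_of_nonneg a2.1.le, inv_mul_le_iff₀ a2.1,
    inv_mul_le_iff₀ a2.1]
  have b3 := mul_le_mul_of_nonneg_left (le_max_left C (C' * C)) a2.1.le
  have b4 := mul_le_mul_of_nonneg_left (le_max_right C (C' * C)) a2.1.le
  constructor <;> linarith

lemma t9exp_aj (h : LSeq Γ l L Ls) (hk : ∀ᶠ n in l, |ks n| ≤ k₀)
    (hd : ∀ n, Dom (Ls n) (ks n) (us n)) (hy : ∀ n, Cal (Ls n) (ks n) (us n) (ys n))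
    (hz : ∀ n, Cal (Ls n) (ks n) (us n) (zs n)) (hx : Reg L x)
    (h1 : ∀ t, Tendsto (fun n => ys n t) l (𝓝 (x t)))
    (h2 : ∀ t, Tendsto (fun n => zs n t) l (𝓝 (x t)))
    (h3 : ∀ᶠ n in l, 0 < d n ∧ dist (ys n 0) (zs n 0) ≤ d n) :
    ∃ η, Jac L x η ∧ ∀ t, Tendsto (fun n => (d n)⁻¹ • ((ys n t : ℂ) - zs n t)) l (𝓝 (η t)) ∧
      Tendsto (fun n => (d n)⁻¹ • (vel (ys n) t - vel (zs n) t)) l (𝓝 (deriv η t)) := by
  have ry : ∀ n, Reg (Ls n) (ys n) := fun n => (hy n).reg h.unif (t9exp_mem L Ls n) (hd n)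
  have rz : ∀ n, Reg (Ls n) (zs n) := fun n => (hz n).reg h.unif (t9exp_mem L Ls n) (hd n)
  obtain ⟨C, hC⟩ := t9exp_init h hk hd hy hz h1 h2 h3
  have a1 : ∀ᶠ n in l, ∀ t, HasDerivAt (fun t => (d n)⁻¹ • ((ys n t : ℂ) - zs n t))
      ((d n)⁻¹ • (vel (ys n) t - vel (zs n) t)) t ∧
      HasDerivAt (fun t => (d n)⁻¹ • (mom (Ls n) (ys n) t - mom (Ls n) (zs n) t))
        ((d n)⁻¹ • (frc (Ls n) (ys n) t - frc (Ls n) (zs n) t)) t :=
    Eventually.of_forall fun n t =>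
      ⟨(((ry n).hasDerivAt t).fun_sub ((rz n).hasDerivAt t)).fun_const_smul (d n)⁻¹,
        (((ry n).hasDerivAt_mom t).fun_sub ((rz n).hasDerivAt_mom t)).fun_const_smul (d n)⁻¹⟩
  obtain ⟨η, hJ, hη⟩ := aj_lim (hx.coef h.ton) l
    (ξ := fun n t => (d n)⁻¹ • ((ys n t : ℂ) - zs n t))
    (ξ' := fun n t => (d n)⁻¹ • (vel (ys n) t - vel (zs n) t))
    (P := fun n t => (d n)⁻¹ • (mom (Ls n) (ys n) t - mom (Ls n) (zs n) t))
    (P' := fun n t => (d n)⁻¹ • (frc (Ls n) (ys n) t - frc (Ls n) (zs n) t)) a1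
    (fun W ε hε => by
      obtain ⟨δ, hδ, h4⟩ := t9exp_near h (t9exp_cpt hx W).1 (t9exp_cpt hx W).2 hε
      filter_upwards [h4, h.jet_lim hk hd hy hx h1 W hδ, h.jet_lim hk hd hz hx h2 W hδ]
        with n h5 h6 h7 t ht
      exact t9exp_mvi (h.tons n).smooth hε.le (d n)⁻¹ (fun q hq =>
        ⟨(h5 _ ⟨t, abs_le.1 ht, rfl⟩ q hq).1, (h5 _ ⟨t, abs_le.1 ht, rfl⟩ q hq).2.2⟩)
        (h6 t ht) (h7 t ht)) hC
  exact ⟨η, hJ, fun t =>
    ⟨t9exp_lim fun ε hε => (hη |t| ε hε).mono fun n hn => (hn t le_rfl).1,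
      t9exp_lim fun ε hε => (hη |t| ε hε).mono fun n hn => (hn t le_rfl).2⟩⟩

lemma t9exp_ensc {A : ℂ × ℂ →L[ℝ] ℂ × ℂ →L[ℝ] ℝ} {B : ℂ × ℂ →L[ℝ] ℝ} {a w : ℂ × ℂ}
    (h : A a w = B (a.1, 0)) (c : ℝ) : A (c • a.1, c • a.2) w = B (c • a.1, 0) := by
  have e1 : (c • a.1, c • a.2) = c • a := rfl
  have e2 : ((c • a.1, 0) : ℂ × ℂ) = c • (a.1, 0) := by simp
  rw [e1, e2, map_smul, map_smul, smul_apply, h]

theorem LSeq.exp0 (h : LSeq Γ l L Ls) (hk : ∀ᶠ n in l, |ks n| ≤ k₀)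
    (hd : ∀ n, Dom (Ls n) (ks n) (us n)) (hy : ∀ n, Cal (Ls n) (ks n) (us n) (ys n))
    (hz : ∀ n, Cal (Ls n) (ks n) (us n) (zs n)) (hx : Reg L x)
    (h1 : ∀ t, Tendsto (fun n => ys n t) l (𝓝 (x t)))
    (h2 : ∀ t, Tendsto (fun n => zs n t) l (𝓝 (x t)))
    (h3 : ∀ᶠ n in l, 0 < d n ∧ dist (ys n 0) (zs n 0) ≤ d n) :
    ∃ η, Jac L x η ∧ En L x η ∧
      ∀ t, Tendsto (fun n => (d n)⁻¹ • ((ys n t : ℂ) - zs n t)) l (𝓝 (η t)) := by
  obtain ⟨η, hJ, hη⟩ := t9exp_aj h hk hd hy hz hx h1 h2 h3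
  refine ⟨η, hJ, fun t => ?_, fun t => (hη t).1⟩
  have r := fun n => t9exp_rolle (h.tons n).smooth (jet_mem (zs n) t) (jet_mem (ys n) t) (by
    have e1 := (hy n).energy h.unif (t9exp_mem L Ls n) (hd n) t
    have e2 := (hz n).energy h.unif (t9exp_mem L Ls n) (hd n) t
    change fderiv ℝ (Ls n) (jet (ys n) t) (0, (jet (ys n) t).2) = _ at e1
    change fderiv ℝ (Ls n) (jet (zs n) t) (0, (jet (zs n) t).2) = _ at e2
    linarith)
  choose c hc hc' using r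
  have j1 := t9exp_jet h hk hd hy hx h1 t
  have j2 := t9exp_jet h hk hd hz hx h2 t
  have j3 : Tendsto (fun n => c n • (jet (ys n) t - jet (zs n) t)) l (𝓝 0) := by
    refine squeeze_zero_norm (a := fun n => ‖jet (ys n) t - jet (zs n) t‖) (fun n => ?_) ?_
    · rw [norm_smul, Real.norm_of_nonneg (hc n).1]
      exact mul_le_of_le_one_left (norm_nonneg _) (hc n).2
    · simpa using (j1.sub j2).norm
  have j4 := j2.add j3
  rw [add_zero] at j4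
  exact t9exp_en h (a := (η t, deriv η t)) (jet_mem x t) j4
    ((hη t).1.prodMk_nhds (hη t).2) (Eventually.of_forall fun n => t9exp_ensc (hc' n) (d n)⁻¹)

lemma t9exp_im {z : ℍ} {w : ℕ → ℍ} (hw : Tendsto w l (𝓝 z)) :
    Tendsto (fun n => (w n).im) l (𝓝 z.im) :=
  (UpperHalfPlane.continuous_im.tendsto z).comp hw

lemma t9exp_dist {z : ℍ} {v w : ℕ → ℍ} (hv : Tendsto v l (𝓝 z)) (hw : Tendsto w l (𝓝 z)) :
    Tendsto (fun n => dist (v n) (w n)) l (𝓝 0) := by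
  simpa using hv.dist hw

lemma t9exp_evd {E : Type} [PseudoMetricSpace E] {f : ℕ → E} {a : E} (h : Tendsto f l (𝓝 a))
    {ε : ℝ} (hε : 0 < ε) : ∀ᶠ n in l, dist (f n) a ≤ ε :=
  h (Metric.closedBall_mem_nhds a hε)

lemma t9exp_evn {E : Type} [NormedAddCommGroup E] {f : ℕ → E} {a : E} (h : Tendsto f l (𝓝 a))
    {ε : ℝ} (hε : 0 < ε) : ∀ᶠ n in l, ‖f n - a‖ ≤ ε :=
  (t9exp_evd h hε).mono fun _ hn => (dist_eq_norm _ _).symm.trans_le hn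

lemma t9exp_norm_inv {c : ℝ} (hc : 0 < c) (v : ℂ) : ‖c⁻¹ • v‖ = c⁻¹ * ‖v‖ := by
  rw [norm_smul, norm_inv, Real.norm_of_nonneg hc.le]

/-- Linearisation of the curves near a fixed time. -/
lemma t9exp_lin (h : LSeq Γ l L Ls) (hk : ∀ᶠ n in l, |ks n| ≤ k₀)
    (hd : ∀ n, Dom (Ls n) (ks n) (us n)) (hz : ∀ n, Cal (Ls n) (ks n) (us n) (zs n))
    (hx : Reg L x) (h2 : ∀ t, Tendsto (fun n => zs n t) l (𝓝 (x t))) (t : ℝ) {ε : ℝ}
    (hε : 0 < ε) : ∃ δ : ℝ, 0 < δ ∧ ∀ᶠ n in l, ∀ a, |a| ≤ δ →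
      ‖(zs n (t + a) : ℂ) - zs n t - a • vel x t‖ ≤ ε * |a| := by
  obtain ⟨δ, hδ, h3⟩ := Metric.continuousAt_iff.1 (hx.contVel.continuousAt (x := t)) _
    (half_pos hε)
  refine ⟨δ / 2, half_pos hδ, ?_⟩
  filter_upwards [h.jet_lim hk hd hz hx h2 (|t| + δ / 2) (half_pos hε)] with n hn a ha
  have r := (hz n).reg h.unif (t9exp_mem L Ls n) (hd n)
  have h4 : ∀ s ∈ Metric.closedBall t (δ / 2), HasDerivWithinAt
      (fun s => (zs n s : ℂ) - s • vel x t) (vel (zs n) s - vel x t)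
      (Metric.closedBall t (δ / 2)) s := fun s _ => by
    have h5 := (hasDerivAt_id s).smul_const (vel x t)
    rw [one_smul] at h5
    exact ((r.hasDerivAt s).sub h5).hasDerivWithinAt
  have h5 : ∀ s ∈ Metric.closedBall t (δ / 2), ‖vel (zs n) s - vel x t‖ ≤ ε := fun s hs => by
    have h6 : dist s t ≤ δ / 2 := hs
    have h7 := h3 (h6.trans_lt (half_lt_self hδ))
    rw [dist_eq_norm] at h7
    have h8 : |s| ≤ |t| + δ / 2 := by
      rw [Real.dist_eq] at h6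
      linarith [abs_sub_abs_le_abs_sub s t]
    have h9 : ‖vel (zs n) s - vel x s‖ ≤ ε / 2 := (norm_snd_le (jet (zs n) s - jet x s)).trans
      (hn s h8)
    linarith [norm_sub_le_norm_sub_add_norm_sub (vel (zs n) s) (vel x s) (vel x t)]
  have h6 := (convex_closedBall t (δ / 2)).norm_image_sub_le_of_norm_hasDerivWithin_le h4 h5
    (Metric.mem_closedBall_self (half_pos hδ).le) (y := t + a) (by
      rwa [Metric.mem_closedBall, dist_self_add_left, Real.norm_eq_abs])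
  rw [add_sub_cancel_left, Real.norm_eq_abs] at h6
  refine le_of_eq_of_le ?_ h6
  congr 1
  rw [add_smul]
  ring

/-- Evaluation at moving times. -/
lemma t9exp_mov (h : LSeq Γ l L Ls) (hk : ∀ᶠ n in l, |ks n| ≤ k₀)
    (hd : ∀ n, Dom (Ls n) (ks n) (us n)) (hz : ∀ n, Cal (Ls n) (ks n) (us n) (zs n))
    (h2 : ∀ t, Tendsto (fun n => zs n t) l (𝓝 (x t))) {s : ℕ → ℝ} {t : ℝ}
    (hs : Tendsto s l (𝓝 t)) : Tendsto (fun n => zs n (s n)) l (𝓝 (x t)) := by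
  obtain ⟨C, -, hC⟩ := h.unif.calLip k₀
  refine (h2 t).congr_dist (squeeze_zero' (g := fun n => C * |t - s n|)
    (Eventually.of_forall fun n => dist_nonneg) ?_ ?_)
  · filter_upwards [hk] with n hn using hC _ (t9exp_mem L Ls n) _ hn _ (hd n) _ (hz n) _ _
  · simpa using ((tendsto_const_nhds (x := t)).sub hs).abs.const_mul C

lemma t9exp_alg {η ξ v : ℂ} {m b ε : ℝ} (hm : 0 < m) (hv : v ≠ 0)
    (hε : ε = m * ‖v‖ / (2 * (‖η‖ + 13 * m))) (h1 : ‖ξ - η‖ ≤ m)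
    (h2 : ‖ξ - b • v‖ ≤ 12 * m + ε * |b|) : ‖η - b • v‖ ≤ 14 * m := by
  have v0 := norm_pos_iff.2 hv
  have e0 := norm_nonneg η
  have K0 : 0 < 2 * (‖η‖ + 13 * m) := by positivity
  have e1 : ε * (2 * (‖η‖ + 13 * m)) = m * ‖v‖ := by rw [hε, div_mul_cancel₀ _ K0.ne']
  have e2 : 0 ≤ ε := by rw [hε]; positivity
  have e3 : ε ≤ ‖v‖ / 2 := by
    rw [hε, div_le_div_iff₀ K0 two_pos]
    nlinarith
  have e4 : ‖η - b • v‖ ≤ 13 * m + ε * |b| := by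
    have := norm_sub_le_norm_sub_add_norm_sub η ξ (b • v)
    rw [norm_sub_rev η ξ] at this
    linarith
  have e5 : |b| * ‖v‖ ≤ ‖η‖ + 13 * m + ε * |b| := by
    have := norm_sub_norm_le (b • v) η
    rw [norm_sub_rev, norm_smul, Real.norm_eq_abs] at this
    linarith
  have e6 : |b| * ‖v‖ ≤ 2 * (‖η‖ + 13 * m) := by
    have := mul_le_mul_of_nonneg_right e3 (abs_nonneg b)
    linarith
  have e7 : ε * |b| ≤ m := by
    refine le_of_mul_le_mul_right ?_ v0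
    have := mul_le_mul_of_nonneg_left e6 e2
    linarith
  linarith

lemma t9exp_bdd (h : LSeq Γ l L Ls) (hk : ∀ᶠ n in l, |ks n| ≤ k₀)
    (hd : ∀ n, Dom (Ls n) (ks n) (us n))
    (hz : ∀ n, Cal (Ls n) (ks n) (us n) (zs n)) (hx : Reg L x)
    (hv : ∀ t, vel x t ≠ 0) {τ : ℝ} (hτ : ∀ t a, |a| ≤ τ → x (t + a) = x t → a = 0)
    (h1 : ∀ t, Tendsto (fun n => ys n t) l (𝓝 (x t)))
    (h2 : ∀ t, Tendsto (fun n => zs n t) l (𝓝 (x t)))
    (h3 : ∀ᶠ n in l, 0 < d n) (h3' : Tendsto d l (𝓝 0))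
    (h4 : ∀ t, ∀ᶠ n in l, ∃ a, |a| ≤ τ ∧ dist (ys n t) (zs n (t + a)) ≤ 2 * d n) {η : ℝ → ℂ}
    (hη : ∀ t, Tendsto (fun n => (d n)⁻¹ • ((ys n t : ℂ) - zs n t)) l (𝓝 (η t))) : Bdd x η := by
  refine ⟨14, fun t => ?_⟩
  obtain ⟨a, ha⟩ := (h4 t).choice
  obtain ⟨b, hb, hb'⟩ := (isCompact_Icc (a := -τ) (b := τ)).ultrafilter_le_nhds (l.map a)
    (le_principal_iff.2 (mem_map.2 (ha.mono fun n hn => abs_le.1 hn.1)))
  have a1 : Tendsto a l (𝓝 b) := hb'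
  have a2 := t9exp_mov h hk hd hz h2 (a1.const_add t)
  have a3 : Tendsto (fun n => dist (ys n t) (zs n (t + a n))) l (𝓝 0) :=
    squeeze_zero' (Eventually.of_forall fun n => dist_nonneg) (ha.mono fun n hn => hn.2)
      (by simpa using h3'.const_mul 2)
  have a4 : x (t + b) = x t := tendsto_nhds_unique a2 ((h1 t).congr_dist a3)
  obtain rfl := hτ t b (abs_le.2 hb) a4
  rw [a4] at a2
  have m0 := (x t).im_pos
  have v0 := norm_pos_iff.2 (hv t)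
  obtain ⟨δ, hδ, h5⟩ := t9exp_lin h hk hd hz hx h2 t
    (ε := (x t).im * ‖vel x t‖ / (2 * (‖η t‖ + 13 * (x t).im))) (by positivity)
  obtain ⟨n, b1, b2, b3, b4, b5, b6, b7⟩ := (ha.and (h3.and (h5.and
    ((t9exp_evn a1 hδ).and ((a3.eventually (eventually_le_nhds one_pos)).and
    ((t9exp_evd a2 one_pos).and (t9exp_evn (hη t) m0))))))).exists
  refine ⟨(d n)⁻¹ * a n, t9exp_alg m0 (hv t) rfl b7 ?_⟩
  have c1 := b3 (a n) (by simpa using b4)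
  have c2 := (near_cmp _ _ b5).1
  have c3 := (near_cmp _ _ b6).2.2
  have c4 : ‖(ys n t : ℂ) - zs n (t + a n)‖ ≤ d n * (12 * (x t).im) := by
    have := mul_le_mul c3 b1.2 dist_nonneg (by positivity)
    linarith
  have e : (d n)⁻¹ • ((ys n t : ℂ) - zs n t) - ((d n)⁻¹ * a n) • vel x t =
      (d n)⁻¹ • (((ys n t : ℂ) - zs n (t + a n)) +
        ((zs n (t + a n) : ℂ) - zs n t - a n • vel x t)) := by
    rw [mul_smul, ← smul_sub]
    congr 1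
    ring
  rw [e, t9exp_norm_inv b2, inv_mul_le_iff₀ b2, abs_mul, abs_inv, abs_of_pos b2, mul_add,
    mul_left_comm (d n) (_ / _), mul_inv_cancel_left₀ b2.ne']
  exact (norm_add_le _ _).trans (add_le_add c4 c1)

/-- Expansivity along a hyperbolic orbit that is not constant. -/
theorem LSeq.expa (h : LSeq Γ l L Ls) (hk : ∀ᶠ n in l, |ks n| ≤ k₀)
    (hd : ∀ n, Dom (Ls n) (ks n) (us n)) (hy : ∀ n, Cal (Ls n) (ks n) (us n) (ys n))
    (hz : ∀ n, Cal (Ls n) (ks n) (us n) (zs n)) (hx : Reg L x) (hH : Hyp L x)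
    (hv : ∀ t, vel x t ≠ 0) {τ : ℝ} (hτ : ∀ t a, |a| ≤ τ → x (t + a) = x t → a = 0)
    (h1 : ∀ t, Tendsto (fun n => ys n t) l (𝓝 (x t)))
    (h2 : ∀ t, Tendsto (fun n => zs n t) l (𝓝 (x t)))
    (h3 : ∀ᶠ n in l, 0 < dist (ys n 0) (zs n 0))
    (h4 : ∀ t, ∀ᶠ n in l, ∃ a, |a| ≤ τ ∧
      dist (ys n t) (zs n (t + a)) ≤ 2 * dist (ys n 0) (zs n 0))
    {ε : ℝ} (hε : 0 < ε) :
    ∀ᶠ n in l, ∃ a, |a| ≤ ε ∧ dist (ys n 0) (zs n a) < dist (ys n 0) (zs n 0) := by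
  have d0 := t9exp_dist (h1 0) (h2 0)
  obtain ⟨η, hJ, hE, hη⟩ := h.exp0 (d := fun n => dist (ys n 0) (zs n 0)) hk hd hy hz hx h1 h2
    (h3.mono fun n hn => ⟨hn, le_rfl⟩)
  obtain ⟨a, ha⟩ := hH η hJ hE (t9exp_bdd h hk hd hz hx hv hτ h1 h2 h3 d0 h4 hη)
  obtain ⟨C, hC1, hC⟩ := KB_cmp (dist (x 0) I + 1)
  have C0 : 0 < C := one_pos.trans_le hC1
  have e0 : 0 < 1 / (2 * C * (1 + |a|)) := by positivity
  obtain ⟨δ, hδ, h5⟩ := t9exp_lin h hk hd hz hx h2 0 e0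
  have a1 : Tendsto (fun n => dist (ys n 0) (zs n 0) * a) l (𝓝 0) := by
    simpa using d0.mul_const a
  filter_upwards [h3, h5, t9exp_evn a1 hδ, t9exp_evn a1 hε, t9exp_evn (hη 0) e0,
    t9exp_ball (h1 0), t9exp_ball (t9exp_mov h hk hd hz h2 a1)] with n b1 b2 b3 b4 c2 b6 b7
  generalize dist (ys n 0) (zs n 0) = D at *
  rw [sub_zero, Real.norm_eq_abs] at b3 b4
  refine ⟨D * a, b4, ?_⟩
  have c1 := b2 (D * a) b3
  have e : (ys n 0 : ℂ) - zs n (D * a) = D • (D⁻¹ • ((ys n 0 : ℂ) - zs n 0) - η 0) -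
      ((zs n (0 + D * a) : ℂ) - zs n 0 - (D * a) • vel x 0) := by
    rw [smul_sub, smul_inv_smul₀ b1.ne', ha, zero_add, mul_smul]
    ring
  have c3 : ‖(ys n 0 : ℂ) - zs n (D * a)‖ ≤ D / (2 * C) := by
    rw [e]
    refine (norm_sub_le _ _).trans ?_
    rw [norm_smul, Real.norm_of_nonneg b1.le]
    rw [abs_mul, abs_of_pos b1] at c1
    refine (add_le_add (mul_le_mul_of_nonneg_left c2 b1.le) c1).trans_eq ?_
    field_simp
  have c4 := (hC _ _ b6 b7).1.trans (mul_le_mul_of_nonneg_left c3 C0.le)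
  have e' : C * (D / (2 * C)) = D / 2 := by field_simp
  linarith

/-- Expansivity at a hyperbolic equilibrium. -/
theorem LSeq.expb (h : LSeq Γ l L Ls) (hk : ∀ᶠ n in l, |ks n| ≤ k₀)
    (hd : ∀ n, Dom (Ls n) (ks n) (us n)) (hy : ∀ n, Cal (Ls n) (ks n) (us n) (ys n))
    (hz : ∀ n, Cal (Ls n) (ks n) (us n) (zs n)) (hx : Reg L x) (hH : Hyp L x)
    (hv : ∀ t, vel x t = 0)
    (h1 : ∀ t, Tendsto (fun n => ys n t) l (𝓝 (x t)))
    (h2 : ∀ t, Tendsto (fun n => zs n t) l (𝓝 (x t)))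
    (h3 : ∀ᶠ n in l, 0 < dist (ys n 0) (zs n 0))
    (h4 : ∀ t, ∀ᶠ n in l, dist (ys n t) (zs n t) ≤ 2 * dist (ys n 0) (zs n 0)) : False := by
  obtain ⟨η, hJ, hE, hη⟩ := h.exp0 (d := fun n => dist (ys n 0) (zs n 0)) hk hd hy hz hx h1 h2
    (h3.mono fun n hn => ⟨hn, le_rfl⟩)
  have h5 : ∀ t, ∀ᶠ n in l, dist (ys n t) (zs n t) ≤ 1 := fun t =>
    t9exp_dist (h1 t) (h2 t) (Iic_mem_nhds one_pos)
  obtain ⟨a, ha⟩ := hH η hJ hE ⟨4, fun t => ⟨0, by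
    rw [zero_smul, sub_zero]
    refine le_of_tendsto_of_tendsto (hη t).norm ((t9exp_im (h2 t)).const_mul 4) ?_
    filter_upwards [h3, h4 t, h5 t] with n b1 b2 b3
    rw [t9exp_norm_inv b1, inv_mul_le_iff₀ b1]
    have := mul_le_mul_of_nonneg_left b2 (zs n t).im_pos.le
    linarith [(near_cmp _ _ b3).1]⟩⟩
  have h6 : (x 0).im ≤ 2 * ‖η 0‖ := by
    refine le_of_tendsto_of_tendsto (t9exp_im (h2 0)) ((hη 0).norm.const_mul 2) ?_
    filter_upwards [h3, h5 0] with n b1 b3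
    rw [t9exp_norm_inv b1, mul_left_comm, le_inv_mul_iff₀ b1]
    linarith [(near_cmp _ _ b3).2.1]
  rw [ha, hv, smul_zero, norm_zero, mul_zero] at h6
  exact h6.not_gt (x 0).im_pos

lemma t9exp_nu {η ζ : ℝ → ℂ} {b c t : ℝ} (h : ζ t = b • (η t - c • vel x t)) :
    nu x ζ t = b • nu x η t := by
  by_cases hv : vel x t = 0
  · simp [nu, h, hv]
  · have e : tng x ζ t = b * (tng x η t - c) := by
      rw [tng, tng, h, smul_div_assoc, sub_div, smul_div_assoc, div_self hv]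
      simp
    rw [nu, nu, e, h, mul_smul, ← smul_sub, sub_smul]
    congr 1
    ring

lemma t9exp_tng {η ζ : ℝ → ℂ} {b t : ℝ} (h : ζ t = b • nu x η t) : tng x ζ t = 0 := by
  by_cases hv : vel x t = 0
  · simp [tng, hv]
  · rw [tng, h, nu, smul_div_assoc, sub_div, smul_div_assoc, div_self hv]
    simp [tng]

lemma t9exp_nu_smul (F : Deck Γ) (γ : Γ) (x : ℝ → ℍ) (η : ℝ → ℂ) (t : ℝ) :
    nu (fun s => γ • x s) (fun s => dk γ (x s) (η s)) t = dk γ (x t) (nu x η t) := by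
  rw [nu, nu, tng, tng, F.vel_smul, (F.dk_div γ (x t) (η t) (vel x t)).2, map_sub, map_smul]

lemma t9exp_nu_shift (x : ℝ → ℍ) (η : ℝ → ℂ) (r t : ℝ) :
    nu (fun s => x (s + r)) (fun s => η (s + r)) t = nu x η (t + r) := by
  rw [nu, nu, tng, tng, vel_shift]

/-- A bounded field that is not tangent, and a time at which its normal part is large. -/
lemma t9exp_pick (hL : Tonelli Γ L) (hx : Reg L x) (hv : (∀ t, vel x t ≠ 0) ∨ ∀ t, vel x t = 0)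
    (hH : ¬Hyp L x) : ∃ s η, Jac L x η ∧ En L x η ∧ nu x η s ≠ 0 ∧
      ∀ t, ‖nu x η t‖ / (x t).im ≤ 2 * (‖nu x η s‖ / (x s).im) := by
  simp only [Hyp, not_forall] at hH
  obtain ⟨η, hJ, hE, ⟨C, hC⟩, hn⟩ := hH
  have h1 : ∃ s, nu x η s ≠ 0 := by
    by_contra hc
    push Not at hc
    rcases hv with hv | hv
    · have e : nrm x η = fun _ => 0 := funext fun t => (nrm_eq_zero (hv t)).2 (hc t)
      exact hn (hJ.tangent hL hx hv hE (s := 0) (by rw [e]) (by rw [e, deriv_const]))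
    · exact hn ⟨0, fun t => by simpa [nu, hv t] using hc t⟩
  obtain ⟨s, hs⟩ := h1
  have h2 : BddAbove (Set.range fun t => ‖nu x η t‖ / (x t).im) := ⟨C, by
    rintro _ ⟨t, rfl⟩
    obtain ⟨a, ha⟩ := hC t
    exact (div_le_iff₀ (x t).im_pos).2 ((norm_nu_le t a).trans ha)⟩
  have h3 : 0 < ⨆ t, ‖nu x η t‖ / (x t).im :=
    (div_pos (norm_pos_iff.2 hs) (x s).im_pos).trans_le (le_ciSup h2 s)
  obtain ⟨r, hr⟩ := exists_lt_of_lt_ciSup (half_lt_self h3)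
  refine ⟨r, η, hJ, hE, fun h0 => ?_, fun t => by linarith [le_ciSup h2 t]⟩
  rw [h0, norm_zero, zero_div] at hr
  linarith

/-- Normalisation of the state at time zero. -/
lemma t9exp_unit (hL : Tonelli Γ L) (hx : Reg L x) {η : ℝ → ℂ} (hJ : Jac L x η) (hE : En L x η)
    (h0 : nu x η 0 ≠ 0) (h1 : ∀ t, ‖nu x η t‖ / (x t).im ≤ 2 * (‖nu x η 0‖ / (x 0).im)) :
    ∃ ξ, Jac L x ξ ∧ En L x ξ ∧ ‖ξ 0‖ + ‖deriv ξ 0‖ = 1 ∧ tng x ξ 0 = 0 ∧
      ∀ t, ‖nu x ξ t‖ * (x 0).im ≤ 2 * (x t).im := by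
  have j1 : Jac L x ((-tng x η 0) • vel x) := JacA.smul (hx.jac_vel hL.smooth) _
  have j2 : Jac L x (η + (-tng x η 0) • vel x) := JacA.add hJ j1
  have e2 : En L x (η + (-tng x η 0) • vel x) := En.add (fun t => (hJ t).1) (fun t => (j1 t).1) hE
    (En.smul' hx.acc (hx.en_vel hL.smooth) _)
  have e0 : ∀ t, (η + (-tng x η 0) • vel x) t = η t - tng x η 0 • vel x t := fun t => by
    rw [Pi.add_apply, Pi.smul_apply, _root_.neg_smul, sub_eq_add_neg]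
  generalize η + (-tng x η 0) • vel x = ζ at j2 e2 e0
  have z0 : ζ 0 = nu x η 0 := e0 0
  have n0 : 0 < ‖ζ 0‖ := by rwa [z0, norm_pos_iff]
  have n1 : ‖ζ 0‖ ≤ ‖ζ 0‖ + ‖deriv ζ 0‖ := le_add_of_nonneg_right (norm_nonneg _)
  generalize hN : ‖ζ 0‖ + ‖deriv ζ 0‖ = N at n1
  have N0 := n0.trans_le n1
  refine ⟨N⁻¹ • ζ, JacA.smul j2 _, En.smul' (fun t => (j2 t).1) e2 _, ?_,
    t9exp_tng (η := η) (b := N⁻¹) (by rw [Pi.smul_apply, z0]), fun t => ?_⟩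
  · rw [deriv_const_smul _ (j2 0).1, Pi.smul_apply, t9exp_norm_inv N0, t9exp_norm_inv N0,
      ← mul_add, hN, inv_mul_cancel₀ N0.ne']
  · rw [t9exp_nu (η := η) (b := N⁻¹) (c := tng x η 0) (by rw [Pi.smul_apply, e0]),
      t9exp_norm_inv N0, mul_assoc, inv_mul_le_iff₀ N0]
    have h2 := h1 t
    rw [← z0, ← mul_div_assoc, div_le_div_iff₀ (x t).im_pos (x 0).im_pos] at h2
    have h3 := mul_le_mul_of_nonneg_right n1 (x t).im_pos.le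
    linarith

lemma t9exp_wit (F : Deck Γ) (hL : Tonelli Γ L) (hx : Reg L x)
    (hv : (∀ t, vel x t ≠ 0) ∨ ∀ t, vel x t = 0) (hH : ¬Hyp L x) : ∃ s, ∀ γ : Γ,
    ∃ ξ, Jac L (fun t => γ • x (t + s)) ξ ∧ En L (fun t => γ • x (t + s)) ξ ∧
      ‖ξ 0‖ + ‖deriv ξ 0‖ = 1 ∧ tng (fun t => γ • x (t + s)) ξ 0 = 0 ∧
      ∀ t, ‖nu (fun t => γ • x (t + s)) ξ t‖ * (γ • x (0 + s)).im ≤ 2 * (γ • x (t + s)).im := by
  obtain ⟨s, η, hJ, hE, h0, h1⟩ := t9exp_pick hL hx hv hH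
  refine ⟨s, fun γ => ?_⟩
  have e : ∀ t, ‖nu (fun t => γ • x (t + s)) (fun t => dk γ (x (t + s)) (η (t + s))) t‖ /
      (γ • x (t + s)).im = ‖nu x η (t + s)‖ / (x (t + s)).im := fun t => by
    rw [t9exp_nu_smul F γ (fun t => x (t + s)) (fun t => η (t + s)), F.norm_dk, t9exp_nu_shift]
  refine t9exp_unit hL ((hx.shift s).smul F hL γ) ((hJ.shift s).smul F hL (hx.shift s) γ)
    ((hE.shift s).smul F hL (hx.shift s) (fun t => ((hJ.shift s) t).1) γ) (fun h2 => ?_)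
    fun t => ?_
  · have h3 := e 0
    rw [h2, norm_zero, zero_div, zero_add] at h3
    exact (div_pos (norm_pos_iff.2 h0) (x s).im_pos).ne h3
  · rw [e, e, zero_add]
    exact h1 _

/-- The limit of normalised fields contradicts hyperbolicity. -/
lemma t9exp_contra (h : LSeq Γ l L Ls) (hk : ∀ᶠ n in l, |ks n| ≤ k₀)
    (hd : ∀ n, Dom (Ls n) (ks n) (us n)) (hy : ∀ n, Cal (Ls n) (ks n) (us n) (ys n))
    (hx : Reg L x) (hH : Hyp L x) (hv : (∀ t, vel x t ≠ 0) ∨ ∀ᶠ n in l, ∀ t, vel (ys n) t = 0)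
    (h1 : ∀ t, Tendsto (fun n => ys n t) l (𝓝 (x t))) {ξ : ℕ → ℝ → ℂ}
    (h2 : ∀ᶠ n in l, Jac (Ls n) (ys n) (ξ n) ∧ En (Ls n) (ys n) (ξ n) ∧
      ‖ξ n 0‖ + ‖deriv (ξ n) 0‖ = 1 ∧ tng (ys n) (ξ n) 0 = 0 ∧
      ∀ t, ‖nu (ys n) (ξ n) t‖ * (ys n 0).im ≤ 2 * (ys n t).im) : False := by
  obtain ⟨η, hJ, hη⟩ := jacA_lim (hx.coef h.ton) l (As := fun n t => D2 (Ls n) (jet (ys n) t))
    (ξ := ξ) (h2.mono fun n hn => hn.1) (fun W ε hε => by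
      obtain ⟨δ, hδ, h4⟩ := t9exp_near h (t9exp_cpt hx W).1 (t9exp_cpt hx W).2 hε
      filter_upwards [h4, h.jet_lim hk hd hy hx h1 W hδ] with n h5 h6 t ht
      exact (h5 _ ⟨t, abs_le.1 ht, rfl⟩ _ (h6 t ht)).2.2) (C := 1)
    (h2.mono fun n hn => ⟨by linarith [hn.2.2.1, norm_nonneg (deriv (ξ n) 0)],
      by linarith [hn.2.2.1, norm_nonneg (ξ n 0)]⟩)
  have l1 : ∀ t, Tendsto (fun n => ξ n t) l (𝓝 (η t)) := fun t =>
    t9exp_lim fun ε hε => (hη |t| ε hε).mono fun n hn => (hn t le_rfl).1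
  have l2 : ∀ t, Tendsto (fun n => deriv (ξ n) t) l (𝓝 (deriv η t)) := fun t =>
    t9exp_lim fun ε hε => (hη |t| ε hε).mono fun n hn => (hn t le_rfl).2
  have l3 := t9exp_jet h hk hd hy hx h1
  have l4 : ∀ t, Tendsto (fun n => vel (ys n) t) l (𝓝 (vel x t)) := fun t =>
    (continuous_snd.tendsto _).comp (l3 t)
  have l5 : ∀ t, Tendsto (fun n => tng (ys n) (ξ n) t) l (𝓝 (tng x η t)) := fun t => by
    rcases hv with hv | hv
    · exact (Complex.continuous_re.tendsto _).comp ((l1 t).div (l4 t) (hv t))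
    · have e : vel x t = 0 := tendsto_nhds_unique_of_eventuallyEq (l4 t) tendsto_const_nhds
        (hv.mono fun n hn => hn t)
      rw [tng, e, div_zero]
      refine tendsto_const_nhds.congr' (hv.mono fun n hn => ?_)
      simp only [tng, hn t, div_zero]
  have l6 : ∀ t, Tendsto (fun n => nu (ys n) (ξ n) t) l (𝓝 (nu x η t)) := fun t =>
    (l1 t).sub ((l5 t).smul (l4 t))
  have hE : En L x η := fun t => t9exp_en h (a := (η t, deriv η t)) (jet_mem x t) (l3 t)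
    ((l1 t).prodMk_nhds (l2 t)) (h2.mono fun n hn => hn.2.1 t)
  have hB : Bdd x η := ⟨2 / (x 0).im, fun t => ⟨tng x η t, by
    rw [div_mul_eq_mul_div, le_div_iff₀ (x 0).im_pos]
    exact le_of_tendsto_of_tendsto ((l6 t).norm.mul (t9exp_im (h1 0)))
      ((t9exp_im (h1 t)).const_mul 2) (h2.mono fun n hn => hn.2.2.2.2 t)⟩⟩
  obtain ⟨a, ha⟩ := hH η hJ hE hB
  have h3 : ‖η 0‖ + ‖deriv η 0‖ = 1 := tendsto_nhds_unique_of_eventuallyEq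
    ((l1 0).norm.add (l2 0).norm) tendsto_const_nhds (h2.mono fun n hn => hn.2.2.1)
  have h4 : tng x η 0 = 0 := tendsto_nhds_unique_of_eventuallyEq (l5 0) tendsto_const_nhds
    (h2.mono fun n hn => hn.2.2.2.1)
  have h5 : η = fun _ => 0 := funext fun t => by
    rcases hv with hv | hv
    · rw [tng, ha, smul_div_assoc, div_self (hv 0)] at h4
      rw [ha, show a = 0 by simpa using h4, zero_smul]
    · rw [ha, tendsto_nhds_unique_of_eventuallyEq (l4 t) tendsto_const_nhds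
        (hv.mono fun n hn => hn t), smul_zero]
  rw [h5] at h3
  simp at h3

/-- Hyperbolicity is stable. -/
theorem LSeq.hyp (F : Deck Γ) (h : LSeq Γ l L Ls) (hk : ∀ᶠ n in l, |ks n| ≤ k₀)
    (hd : ∀ n, Dom (Ls n) (ks n) (us n)) (hy : ∀ n, Cal (Ls n) (ks n) (us n) (ys n))
    (hx : Reg L x) (hH : Hyp L x)
    (hv : ((∀ t, vel x t ≠ 0) ∧ ∀ᶠ n in l, ∀ t, vel (ys n) t ≠ 0) ∨
      ∀ᶠ n in l, ∀ t, vel (ys n) t = 0)
    (hl : ∀ t : ℕ → ℝ, ∃ (δ : ℕ → Γ) (s : ℝ), ∀ r,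
      Tendsto (fun n => δ n • ys n (r + t n)) l (𝓝 (x (r + s)))) :
    ∀ᶠ n in l, Hyp (Ls n) (ys n) := by
  by_contra hc
  have hv' : ∀ᶠ n in l, (∀ t, vel (ys n) t ≠ 0) ∨ ∀ t, vel (ys n) t = 0 :=
    hv.elim (fun a => a.2.mono fun n hn => Or.inl hn) fun a => a.mono fun n hn => Or.inr hn
  obtain ⟨t, ht⟩ := ((hv'.and (Ultrafilter.eventually_not.2 hc)).mono fun n hn =>
    t9exp_wit F (h.tons n) ((hy n).reg h.unif (t9exp_mem L Ls n) (hd n)) hn.1 hn.2).choice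
  obtain ⟨δ, s, hs⟩ := hl t
  obtain ⟨ξ, hξ⟩ := (ht.mono fun n hn => hn (δ n)).choice
  refine t9exp_contra h hk (fun n => (hd n).smul F (h.tons n) (δ n)⁻¹)
    (fun n => ((hy n).shift (t n)).smul F (h.tons n) (δ n)) (hx.shift s) (hH.shift s) ?_ hs hξ
  refine hv.imp (fun a r => ?_) fun a => a.mono fun n hn r => ?_
  · rw [vel_shift]
    exact a.1 _
  · rw [F.vel_smul (δ n) (fun r => ys n (r + t n)), vel_shift, hn, map_zero]

end Pool.Agent.Lib.MP_5bb885_an.Gen
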