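import Pool.Agent.Lib.MP_5bb885_an.T9Jump
import Pool.Agent.Lib.MP_5bb885_an.T9Lim

/-!
The flow on the calibrated set and inequalities for pseudo-orbits.
-/

namespace Pool.Agent.Lib.MP_5bb885_an.Gen

open UpperHalfPlane MeasureTheory Filter Topology

variable {Γ : Type} [Group Γ] [MulAction Γ ℍ] {L : ℂ × ℂ → ℝ} {u : ℍ → ℝ} {k : ℝ}
  {c ψ ψ' : Γ → ℝ} {φ φ' : ℂ → ℝ} {ρ ρ' : ℝ} {K : Set ℍ} {Φ : ℝ → ℍ → ℍ} {V : ℍ → ℂ}

theorem exists_flow (F : Deck Γ) (hL : Tonelli Γ L) (hu : Eqv c u) (hd : Dom L k u) :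
    ∃ Φ V, Lam Γ (CS L k u) Φ V ∧ (∀ z ∈ CS L k u, Cal L k u fun t => Φ t z) ∧
      ∀ x, Cal L k u x → ∀ s, x s ∈ CS L k u ∧ V (x s) = vel x s ∧ ∀ t, Φ t (x s) = x (s + t) := by
  have U := hL.unif1 F
  have hm : L ∈ ({L} : Set (ℂ × ℂ → ℝ)) := rfl
  have hX : ∀ z : ℍ, ∃ x : ℝ → ℍ, z ∈ CS L k u → Cal L k u x ∧ x 0 = z := by
    intro z
    by_cases hz : z ∈ CS L k u
    · obtain ⟨x, hx⟩ := hz
      exact ⟨x, fun _ => hx⟩
    · exact ⟨fun _ => z, fun h => absurd h hz⟩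
  choose X hX using hX
  have key : ∀ x, Cal L k u x → ∀ s, x s ∈ CS L k u ∧ vel (X (x s)) 0 = vel x s ∧
      ∀ t, X (x s) t = x (s + t) := by
    intro x hx s
    have h1 : x s ∈ CS L k u := ⟨fun t => x (t + s), hx.shift s, by simp only [zero_add]⟩
    have h2 : ∀ t, X (x s) t = x (s + t) := fun t => by
      have := Cal.unique U hm hd (hX _ h1).1 hx (s := 0) (t := s) (hX _ h1).2 t
      rwa [zero_add] at this
    refine ⟨h1, ?_, h2⟩
    have e : X (x s) = fun t => x (t + s) := funext fun t => by rw [h2, add_comm]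
    rw [e, vel_shift, zero_add]
  refine ⟨fun t z => X z t, fun z => vel (X z) 0, ⟨?_, ?_, ?_, ?_, ?_, ?_, ?_, ?_, ?_⟩,
    fun z hz => (hX z hz).1, key⟩
  · refine isClosed_of_closure_subset fun z hz => ?_
    obtain ⟨zs, hzs, hlim⟩ := mem_closure_iff_seq_limit.1 hz
    have hl : (hyperfilter ℕ : Filter ℕ) ≤ atTop := Nat.hyperfilter_le_atTop
    have hlim' : Tendsto zs (hyperfilter ℕ) (𝓝 z) := hlim.mono_left hl
    have hR : ∀ᶠ n in (hyperfilter ℕ : Filter ℕ), dist (X (zs n) 0) I ≤ dist z I + 1 := by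
      filter_upwards [hlim'.eventually (Metric.ball_mem_nhds z one_pos)] with n hn
      rw [(hX _ (hzs n)).2]
      have h1 := dist_triangle (zs n) z I
      have h2 : dist (zs n) z < 1 := hn
      linarith
    obtain ⟨x, hx, hxl⟩ := LSeq.lim_cal' (l := hyperfilter ℕ) (us := fun _ => u) (ks := fun _ => k)
      (xs := fun n => X (zs n)) (LSeq.const F hL _) tendsto_const_nhds (fun _ => hd)
      (fun _ => tendsto_const_nhds) (Eventually.of_forall fun n => (hX _ (hzs n)).1) hR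
    refine ⟨x, hx, ?_⟩
    have h0 := hxl 0
    have e : (fun n => X (zs n) 0) = zs := funext fun n => (hX _ (hzs n)).2
    rw [e] at h0
    exact tendsto_nhds_unique h0 hlim'
  · rintro γ z ⟨x, hx, rfl⟩
    exact ⟨fun t => γ • x t, hx.smul_eqv F hL hu γ, rfl⟩
  · intro t z hz
    exact (key _ (hX z hz).1 t).1
  · intro z hz
    exact (hX z hz).2
  · intro s t z hz
    rw [(key _ (hX z hz).1 t).2.2 s, add_comm]
  · intro t γ z hz
    have := (key _ ((hX z hz).1.smul_eqv F hL hu γ) 0).2.2 t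
    rw [(hX z hz).2, zero_add] at this
    exact this
  · intro z hz t
    have := (Cal.c1 U hm hd (hX z hz).1).1 t
    rw [← (key _ (hX z hz).1 t).2.1] at this
    exact this
  · obtain ⟨C, -, hC⟩ := U.speed |k|
    refine ⟨C, fun z hz => ?_⟩
    have := (hC L hm k le_rfl u hd _ (hX z hz).1 0).1
    rwa [(hX z hz).2] at this
  · intro R
    obtain ⟨C, -, hC⟩ := U.vlip |k| R
    refine ⟨C, fun z hz w hw h1 h2 => ?_⟩
    have := hC L hm k le_rfl u hd _ _ (hX z hz).1 (hX w hw).1 0 0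
      (by rwa [(hX z hz).2]) (by rwa [(hX w hw).2])
    rwa [(hX z hz).2, (hX w hw).2] at this

lemma t9flow_int (hφ : C2 Γ φ) {x : ℝ → ℍ} {s t : ℝ} (hst : s ≤ t)
    (hx : ContinuousOn x (Set.Icc s t)) : IntervalIntegrable (fun τ => φ (x τ)) volume s t := by
  refine ContinuousOn.intervalIntegrable ?_
  rw [Set.uIcc_of_le hst]
  exact hφ.1.continuousOn.comp (UpperHalfPlane.continuous_coe.comp_continuousOn hx)
    fun τ _ => (x τ).im_pos

theorem tdk_of_tda (F : Deck Γ) (hL : Tonelli Γ L) (hc : c ∈ Coh Γ) (hψ : ψ ∈ Coh Γ) (hφ : C2 Γ φ)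
    (hu : Eqv c u) (hd : Dom L (crit L c) u)
    (hK : ∀ z ∈ K, Φ 0 z = z ∧ Cal L (crit L c) u fun t => Φ t z) (h : TDa L c ψ φ ρ) :
    TDK K Φ ψ φ ρ := by
  intro τ hτ
  obtain ⟨C₀, s₀, hs₀, hT⟩ := h
  have U := hL.unif F (P := {f | ∃ s : ℝ, |s| ≤ 1 ∧ f = s • φ})
    (by rintro f ⟨s, -, rfl⟩; exact hφ.smul s) hφ.bdd_smul
  have hmem : ∀ s : ℝ, |s| ≤ 1 →
      addP L (s • φ) ∈ addP L '' {f | ∃ s : ℝ, |s| ≤ 1 ∧ f = s • φ} :=
    fun s hs => ⟨s • φ, ⟨s, hs, rfl⟩, rfl⟩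
  have hL0 : L ∈ addP L '' {f | ∃ s : ℝ, |s| ≤ 1 ∧ f = s • φ} := by
    have := hmem 0 (by simp)
    rwa [zero_smul, addP_zero] at this
  obtain ⟨C₁, hC₁, hlip⟩ := U.lipDom (crit L c + |ρ| + |C₀|)
  obtain ⟨C₂, δ, hC₂, hδ, hj⟩ := (hL.unif1 F).jump F |crit L c| (half_pos hτ)
  obtain ⟨Λ, hΛ, -, hΛ'⟩ := hφ.lip F
  have hρ := abs_nonneg ρ
  have hC₀ := abs_nonneg C₀
  have hP : 0 ≤ Λ * C₂ * τ := by positivity
  refine ⟨2 * C₁ + C₂ + Λ * C₂ * τ + |C₀|, min s₀ 1, δ, by positivity, lt_min hs₀ one_pos, hδ,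
    fun s hs => ?_⟩
  have hs1 : |s| ≤ 1 := hs.trans (min_le_right _ _)
  have hcs : c + s • ψ ∈ Coh Γ := (Coh Γ).add_mem hc ((Coh Γ).smul_mem s hψ)
  have hφs : C2 Γ (s • φ) := hφ.smul s
  obtain ⟨us, hus, hds⟩ := exists_dom F (hL.add F hφs) hcs
  have hds' : Dom (addP L (s • φ)) (crit L c + s * ρ + C₀ * s ^ 2) us :=
    hds.mono (hT s (hs.trans (min_le_left _ _)))
  have hsq : s ^ 2 ≤ 1 := by
    rw [← sq_abs]
    exact pow_le_one₀ (abs_nonneg s) hs1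
  have hlev : crit L c + s * ρ + C₀ * s ^ 2 ≤ crit L c + |ρ| + |C₀| := by
    have h1 : s * ρ ≤ |ρ| := by
      calc s * ρ ≤ |s * ρ| := le_abs_self _
        _ = |s| * |ρ| := abs_mul _ _
        _ ≤ 1 * |ρ| := by gcongr
        _ = |ρ| := one_mul _
    have h2 : C₀ * s ^ 2 ≤ |C₀| := by
      calc C₀ * s ^ 2 ≤ |C₀| * s ^ 2 := by gcongr; exact le_abs_self _
        _ ≤ |C₀| * 1 := by gcongr
        _ = |C₀| := mul_one _
    linarith
  refine ⟨fun z => us z - u z, fun γ z => ?_, fun z w => ?_, fun z hz w _ T hT' hdist => ?_⟩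
  · simp only [hus γ z, hu γ z, Pi.add_apply]
    ring
  · have h1 := hlip _ (hmem s hs1) _ hlev us hds' w z
    have h2 := hlip _ hL0 _ (by linarith) u hd w z
    rw [dist_comm] at h1 h2
    have h3 := dist_nonneg (x := z) (y := w)
    have h4 := (abs_le.1 h1).2
    have h5 := (abs_le.1 h2).1
    nlinarith
  · obtain ⟨h0, hx⟩ := hK z hz
    have hcont : ContinuousOn (s • φ) HP := hφs.1.continuousOn
    have hT0 : 0 < T - τ / 2 := by linarith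
    obtain ⟨-, y, hy, y1, y2, y3, y4⟩ := hj L rfl hL _ le_rfl u hd _ hx T w
      (by rwa [dist_comm] at hdist)
    rw [dist_comm w] at y3 y4
    set d := dist (Φ T z) w with hdd
    have hd0 : 0 ≤ d := dist_nonneg
    obtain ⟨a1, c1⟩ := hx 0 (T - τ / 2) hT0
    have e1 := hds' _ _ _ ((adm_addP hcont).2 a1)
    have e2 := hds' _ _ _ ((adm_addP hcont).2 hy)
    rw [a1.ac_addP hcont, a1.ac_const (crit L c)] at e1
    rw [hy.ac_addP hcont, hy.ac_const (crit L c), y1, y2] at e2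
    simp only [Pi.smul_apply, smul_eq_mul, intervalIntegral.integral_const_mul] at e1 e2
    have hxc : Continuous fun t => Φ t z := hx.continuous
    have i1 := t9flow_int hφ hT0.le hxc.continuousOn
    have i2 := t9flow_int hφ (show T - τ / 2 ≤ T by linarith) hxc.continuousOn
    have i3 := t9flow_int hφ (show T - τ / 2 ≤ T by linarith) hy.continuousOn
    have e3 := intervalIntegral.integral_add_adjacent_intervals i1 i2
    have e4 : |(∫ t in (T - τ / 2)..T, φ (y t)) - ∫ t in (T - τ / 2)..T, φ (Φ t z)| ≤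
        Λ * (C₂ * d) * (τ / 2) := by
      rw [← intervalIntegral.integral_sub i3 i2]
      have := intervalIntegral.norm_integral_le_of_norm_le_const (a := T - τ / 2) (b := T)
        (C := Λ * (C₂ * d)) (f := fun t => φ (y t) - φ (Φ t z)) fun t ht => by
          rw [Set.uIoc_of_le (by linarith)] at ht
          rw [Real.norm_eq_abs]
          exact (hΛ' _ _).trans (mul_le_mul_of_nonneg_left (y3 t ⟨ht.1.le, ht.2⟩) hΛ)
      rw [Real.norm_eq_abs, show T - (T - τ / 2) = τ / 2 by ring, abs_of_pos (half_pos hτ)] at this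
      exact this
    have e5 : s * ((∫ t in (T - τ / 2)..T, φ (y t)) - ∫ t in (T - τ / 2)..T, φ (Φ t z)) ≤
        |s| * (Λ * (C₂ * d) * (τ / 2)) := by
      refine (le_abs_self _).trans ?_
      rw [abs_mul]
      exact mul_le_mul_of_nonneg_left e4 (abs_nonneg s)
    have hsd : 0 ≤ |s| * d := by positivity
    have b1 : C₂ * d ^ 2 ≤ (2 * C₁ + C₂ + Λ * C₂ * τ + |C₀|) * d ^ 2 := by
      gcongr
      linarith
    have b2 : |s| * (Λ * (C₂ * d) * (τ / 2)) ≤ (2 * C₁ + C₂ + Λ * C₂ * τ + |C₀|) * |s| * d := by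
      have : Λ * C₂ * τ / 2 * (|s| * d) ≤ (2 * C₁ + C₂ + Λ * C₂ * τ + |C₀|) * (|s| * d) := by
        gcongr
        linarith
      linarith
    have b3 : C₀ * s ^ 2 * T ≤ (2 * C₁ + C₂ + Λ * C₂ * τ + |C₀|) * s ^ 2 * T := by
      have := le_abs_self C₀
      have hT1 : 0 ≤ T := by linarith
      gcongr
      linarith
    rw [← e3]
    simp only [h0] at e1 c1
    linarith

lemma TDK.mono (h : TDK K Φ ψ φ ρ) {K' : Set ℍ} (hK : K' ⊆ K) : TDK K' Φ ψ φ ρ := by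
  intro τ hτ
  obtain ⟨C, s₀, δ₀, hC, hs₀, hδ₀, H⟩ := h τ hτ
  refine ⟨C, s₀, δ₀, hC, hs₀, hδ₀, fun s hs => ?_⟩
  obtain ⟨g, g1, g2, g3⟩ := H s hs
  exact ⟨g, g1, g2, fun z hz w hw => g3 z (hK hz) w (hK hw)⟩

lemma t9flow_cont (A : Lam Γ K Φ V) {z : ℍ} (hz : z ∈ K) : Continuous fun t => Φ t z := by
  rw [UpperHalfPlane.isEmbedding_coe.continuous_iff]
  exact continuous_iff_continuousAt.2 fun t => (A.deriv z hz t).continuousAt

lemma TDK.add (A : Lam Γ K Φ V) (hφ : C2 Γ φ) (hφ' : C2 Γ φ') (h : TDK K Φ ψ φ ρ)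
    (h' : TDK K Φ ψ' φ' ρ') : TDK K Φ (ψ + ψ') (φ + φ') (ρ + ρ') := by
  intro τ hτ
  obtain ⟨C, s₀, δ₀, hC, hs₀, hδ₀, H⟩ := h τ hτ
  obtain ⟨C', s₀', δ₀', hC', hs₀', hδ₀', H'⟩ := h' τ hτ
  refine ⟨2 * (C + C'), min s₀ s₀' / 2, min δ₀ δ₀', by positivity,
    half_pos (lt_min hs₀ hs₀'), lt_min hδ₀ hδ₀', fun s hs => ?_⟩
  have e : |2 * s| = 2 * |s| := by rw [abs_mul, abs_two]
  obtain ⟨g, g1, g2, g3⟩ := H (2 * s) (by rw [e]; linarith [min_le_left s₀ s₀'])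
  obtain ⟨g', g1', g2', g3'⟩ := H' (2 * s) (by rw [e]; linarith [min_le_right s₀ s₀'])
  refine ⟨fun z => (g z + g' z) / 2, fun γ z => ?_, fun z w => ?_, fun z hz w hw T hT hd => ?_⟩
  · simp only [g1 γ z, g1' γ z, Pi.add_apply, Pi.smul_apply, smul_eq_mul]
    ring
  · have h1 := g2 z w
    have h2 := g2' z w
    have h3 := dist_nonneg (x := z) (y := w)
    nlinarith
  · have h1 := g3 z hz w hw T hT (hd.trans (min_le_left _ _))
    have h2 := g3' z hz w hw T hT (hd.trans (min_le_right _ _))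
    have hT0 : 0 ≤ T := by linarith
    have hc := (t9flow_cont A hz).continuousOn (s := Set.Icc 0 T)
    have e1 : ∫ t in (0 : ℝ)..T, (φ + φ') (Φ t z) =
        (∫ t in (0 : ℝ)..T, φ (Φ t z)) + ∫ t in (0 : ℝ)..T, φ' (Φ t z) := by
      simp only [Pi.add_apply]
      exact intervalIntegral.integral_add (t9flow_int hφ hT0 hc) (t9flow_int hφ' hT0 hc)
    rw [e] at h1 h2
    rw [e1]
    have p1 : 0 ≤ (C + C') * dist (Φ T z) w ^ 2 := by positivity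
    have p2 : 0 ≤ (C + C') * |s| * dist (Φ T z) w := by positivity
    nlinarith

lemma TDK.smul (h : TDK K Φ ψ φ ρ) (a : ℝ) : TDK K Φ (a • ψ) (a • φ) (a * ρ) := by
  intro τ hτ
  obtain ⟨C, s₀, δ₀, hC, hs₀, hδ₀, H⟩ := h τ hτ
  have ha := abs_nonneg a
  refine ⟨C * (1 + |a| + a ^ 2), s₀ / (|a| + 1), δ₀, by positivity, by positivity, hδ₀,
    fun s hs => ?_⟩
  have hs' : |s * a| ≤ s₀ := by
    rw [le_div_iff₀ (by positivity)] at hs
    rw [abs_mul]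
    have := abs_nonneg s
    nlinarith
  obtain ⟨g, g1, g2, g3⟩ := H (s * a) hs'
  refine ⟨g, ?_, fun z w => ?_, fun z hz w hw T hT hd => ?_⟩
  · rwa [smul_smul]
  · have h1 := g2 z w
    have h3 : 0 ≤ C * (|a| + a ^ 2) * dist z w := by positivity
    nlinarith
  · have h1 := g3 z hz w hw T hT hd
    have hT0 : 0 ≤ T := by linarith
    simp only [Pi.smul_apply, smul_eq_mul, intervalIntegral.integral_const_mul]
    rw [abs_mul] at h1
    have p1 : 0 ≤ C * (|a| + a ^ 2) * dist (Φ T z) w ^ 2 := by positivity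
    have p2 : 0 ≤ C * (1 + a ^ 2) * |s| * dist (Φ T z) w := by positivity
    have p3 : 0 ≤ C * (1 + |a|) * s ^ 2 * T := by positivity
    nlinarith

lemma t9flow_abs {Q B σ : ℝ} (h1 : σ * Q ≤ B) (h2 : -σ * Q ≤ B) (hσ : 0 < σ) : σ * |Q| ≤ B := by
  rcases abs_cases Q with h | h <;> rw [h.1] <;> linarith

lemma t9flow_opt {Q a b s₀ T : ℝ} (ha : 0 ≤ a) (hb : 0 ≤ b) (hs₀ : 0 < s₀) (hT : 0 < T)
    (h : ∀ s : ℝ, |s| ≤ s₀ → s * Q ≤ a + b * s ^ 2 * T) :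
    |Q| ≤ (a / s₀ + a + b) * (1 + √T) := by
  obtain ⟨r, hr, rfl⟩ : ∃ r, 0 < r ∧ T = r ^ 2 :=
    ⟨√T, Real.sqrt_pos.2 hT, (Real.sq_sqrt hT.le).symm⟩
  rw [Real.sqrt_sq hr.le]
  have key : ∀ σ, 0 < σ → σ ≤ s₀ → |Q| ≤ a / σ + b * σ * r ^ 2 := by
    intro σ h1 h2
    have e := t9flow_abs (h σ (by rwa [abs_of_pos h1]))
      (by simpa using h (-σ) (by rwa [abs_neg, abs_of_pos h1])) h1
    have : a / σ + b * σ * r ^ 2 = (a + b * σ ^ 2 * r ^ 2) / σ := by field_simp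
    rw [this, le_div_iff₀ h1]
    linarith
  have h0 : 0 ≤ a / s₀ := by positivity
  rcases le_total s₀ (1 / r) with h1 | h1
  · have h2 := key s₀ hs₀ le_rfl
    rw [le_div_iff₀ hr] at h1
    have h3 : b * s₀ * r ^ 2 ≤ b * r := by
      have : b * r * (s₀ * r) ≤ b * r * 1 := by gcongr
      nlinarith
    have p1 : 0 ≤ a / s₀ * r := by positivity
    have p2 : 0 ≤ a * r := by positivity
    nlinarith
  · have h2 := key (1 / r) (by positivity) h1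
    have e : a / (1 / r) + b * (1 / r) * r ^ 2 = a * r + b * r := by field_simp
    rw [e] at h2
    have p1 : 0 ≤ a / s₀ * r := by positivity
    nlinarith

lemma t9flow_opt2 {Q a d s₀ T : ℝ} (ha : 0 ≤ a) (hs₀ : 0 < s₀) (hT : 0 < T) (hd : 0 ≤ d)
    (hd' : d ≤ s₀ * √T) (h : ∀ s : ℝ, |s| ≤ s₀ → s * Q ≤ a * d ^ 2 + a * |s| * d + a * s ^ 2 * T) :
    |Q| ≤ 2 * a * d * (1 + √T) := by
  obtain ⟨r, hr, rfl⟩ : ∃ r, 0 < r ∧ T = r ^ 2 :=
    ⟨√T, Real.sqrt_pos.2 hT, (Real.sq_sqrt hT.le).symm⟩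
  rw [Real.sqrt_sq hr.le] at hd' ⊢
  have key : ∀ σ, 0 < σ → σ ≤ s₀ → σ * |Q| ≤ a * d ^ 2 + a * σ * d + a * σ ^ 2 * r ^ 2 := by
    intro σ h1 h2
    have e1 := h σ (by rwa [abs_of_pos h1])
    have e2 := h (-σ) (by rwa [abs_neg, abs_of_pos h1])
    rw [abs_of_pos h1] at e1
    rw [abs_neg, abs_of_pos h1, neg_sq] at e2
    exact t9flow_abs e1 e2 h1
  rcases hd.eq_or_lt with rfl | hd0
  · have : |Q| ≤ 0 := by
      refine le_of_forall_pos_le_add fun ε hε => ?_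
      have hp : 0 < a * r ^ 2 + 1 := by positivity
      have h1 : 0 < min s₀ (ε / (a * r ^ 2 + 1)) := lt_min hs₀ (by positivity)
      have h2 := key _ h1 (min_le_left _ _)
      have h3 := min_le_right s₀ (ε / (a * r ^ 2 + 1))
      set σ := min s₀ (ε / (a * r ^ 2 + 1))
      rw [le_div_iff₀ hp] at h3
      have h4 : σ * |Q| ≤ σ * ε := by nlinarith
      have := le_of_mul_le_mul_left h4 h1
      linarith
    simpa using this
  · have h1 : 0 < d / r := by positivity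
    have h2 := key (d / r) h1 (by rwa [div_le_iff₀ hr])
    have e : a * d ^ 2 + a * (d / r) * d + a * (d / r) ^ 2 * r ^ 2 =
        d / r * (a * d * (1 + 2 * r)) := by
      field_simp
      ring
    rw [e] at h2
    have h3 := le_of_mul_le_mul_left h2 h1
    have p : 0 ≤ a * d := by positivity
    nlinarith

lemma TDK.seg (A : Lam Γ K Φ V) (h : TDK K Φ ψ φ ρ) {τ : ℝ} (hτ : 0 < τ) (R : ℝ) :
    ∃ C : ℝ, 0 ≤ C ∧ ∀ z ∈ K, ∀ (γ : Γ) (T : ℝ), τ ≤ T → dist (Φ T z) (γ • z) ≤ R →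
      |ψ γ - (∫ t in (0 : ℝ)..T, φ (Φ t z)) - ρ * T| ≤ C * (1 + √T) := by
  obtain ⟨C, s₀, δ₀, hC, hs₀, hδ₀, H⟩ := h τ hτ
  refine ⟨C * |R| / s₀ + C * |R| + C, by positivity, fun z hz γ T hT hR => ?_⟩
  refine t9flow_opt (by positivity) hC hs₀ (by linarith) fun s hs => ?_
  obtain ⟨g, g1, g2, g3⟩ := H s hs
  have h1 := g3 z hz _ (A.map T z hz) T hT (by rw [dist_self]; exact hδ₀.le)
  have h2 := g2 (γ • z) (Φ T z)
  have h3 := g1 γ z
  rw [dist_self] at h1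
  rw [dist_comm] at h2
  have h4 : C * dist (Φ T z) (γ • z) ≤ C * |R| :=
    mul_le_mul_of_nonneg_left (hR.trans (le_abs_self R)) hC
  simp only [Pi.smul_apply, smul_eq_mul] at h3
  nlinarith

lemma TDK.seg0 (F : Deck Γ) (A : Lam Γ K Φ V) (h : TDK K Φ (0 : Γ → ℝ) φ ρ) {τ : ℝ} (hτ : 0 < τ) :
    ∃ C : ℝ, 0 ≤ C ∧ ∀ z ∈ K, ∀ T : ℝ, τ ≤ T →
      |(∫ t in (0 : ℝ)..T, φ (Φ t z)) + ρ * T| ≤ C * (1 + √T) := by
  obtain ⟨R, hR⟩ := F.cpt
  obtain ⟨C, hC, H⟩ := h.seg A hτ (2 * R)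
  refine ⟨C, hC, fun z hz T hT => ?_⟩
  obtain ⟨γ₁, h1⟩ := hR z
  obtain ⟨γ₂, h2⟩ := hR (Φ T z)
  have h3 : dist (Φ T z) ((γ₂⁻¹ * γ₁) • z) ≤ 2 * R := by
    rw [← F.iso γ₂, smul_smul, mul_inv_cancel_left]
    linarith [dist_triangle_right (γ₂ • Φ T z) (γ₁ • z) I]
  have h4 := H z hz _ T hT h3
  rw [← abs_neg] at h4
  convert h4 using 2
  simp only [Pi.zero_apply]
  ring

lemma TDK.nonpos (F : Deck Γ) (A : Lam Γ K Φ V) (h : TDK K Φ (0 : Γ → ℝ) φ ρ) {z : ℍ}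
    (hz : z ∈ K) (h0 : ∀ t, 0 ≤ φ (Φ t z)) : ρ ≤ 0 := by
  obtain ⟨C, hC, H⟩ := h.seg0 F A one_pos
  by_contra hρ
  push Not at hρ
  set n := 2 * C / ρ + 1 with hn
  have h1 : 1 ≤ n := by
    have : 0 ≤ 2 * C / ρ := by positivity
    linarith
  have h2 : ρ * n = 2 * C + ρ := by
    rw [hn]
    field_simp
  have h3 := H z hz (n ^ 2) (by nlinarith)
  rw [Real.sqrt_sq (by linarith)] at h3
  have h4 : 0 ≤ ∫ t in (0 : ℝ)..n ^ 2, φ (Φ t z) :=
    intervalIntegral.integral_nonneg (by positivity) fun t _ => h0 t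
  have h5 := (abs_le.1 h3).2
  nlinarith

lemma TDK.loop (A : Lam Γ K Φ V) (h : TDK K Φ ψ φ ρ) {τ : ℝ} (hτ : 0 < τ) :
    ∃ C δ : ℝ, 0 ≤ C ∧ 0 < δ ∧ ∀ z ∈ K, ∀ (γ : Γ) (T : ℝ), τ ≤ T → dist (Φ T z) (γ • z) ≤ δ →
      |ψ γ - (∫ t in (0 : ℝ)..T, φ (Φ t z)) - ρ * T| ≤ C * dist (Φ T z) (γ • z) * (1 + √T) := by
  obtain ⟨C, s₀, δ₀, hC, hs₀, hδ₀, H⟩ := h τ hτ
  have hr := Real.sqrt_pos.2 hτ
  refine ⟨2 * C, min δ₀ (s₀ * √τ), by positivity, lt_min hδ₀ (by positivity),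
    fun z hz γ T hT hd => ?_⟩
  refine t9flow_opt2 hC hs₀ (by linarith) dist_nonneg
    ((hd.trans (min_le_right _ _)).trans (by gcongr)) fun s hs => ?_
  obtain ⟨g, g1, g2, g3⟩ := H s hs
  have h1 := g3 z hz _ (A.smul γ z hz) T hT (hd.trans (min_le_left _ _))
  have h3 := g1 γ z
  simp only [Pi.smul_apply, smul_eq_mul] at h3
  nlinarith

/-- A closed pseudo-orbit with two jumps. -/
lemma TDK.loop2 (F : Deck Γ) (A : Lam Γ K Φ V) (h : TDK K Φ (0 : Γ → ℝ) φ 0) {τ : ℝ}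
    (hτ : 0 < τ) : ∃ C δ : ℝ, 0 ≤ C ∧ 0 < δ ∧ ∀ z ∈ K, ∀ w ∈ K, ∀ (γ : Γ) (T T' d : ℝ), τ ≤ T →
      τ ≤ T' → d ≤ δ → dist (Φ T z) w ≤ d → dist (Φ T' w) (γ • z) ≤ d →
      |(∫ t in (0 : ℝ)..T, φ (Φ t z)) + ∫ t in (0 : ℝ)..T', φ (Φ t w)| ≤
        C * d * (1 + √(T + T')) := by
  have _ := F
  obtain ⟨C, s₀, δ₀, hC, hs₀, hδ₀, H⟩ := h τ hτ
  have hr := Real.sqrt_pos.2 hτ
  refine ⟨2 * (2 * C), min δ₀ (s₀ * √τ), by positivity, lt_min hδ₀ (by positivity),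
    fun z hz w hw γ T T' d hT hT' hd h1 h2 => ?_⟩
  rw [← abs_neg]
  have hd0 : 0 ≤ d := dist_nonneg.trans h1
  refine t9flow_opt2 (by positivity) hs₀ (by linarith) hd0
    ((hd.trans (min_le_right _ _)).trans (by gcongr; linarith)) fun s hs => ?_
  obtain ⟨g, g1, g2, g3⟩ := H s hs
  have e1 := g3 z hz w hw T hT (h1.trans (hd.trans (min_le_left _ _)))
  have e2 := g3 w hw _ (A.smul γ z hz) T' hT' (h2.trans (hd.trans (min_le_left _ _)))
  have e3 := g1 γ z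
  simp only [smul_zero, Pi.zero_apply, add_zero] at e3
  have b1 : C * dist (Φ T z) w ^ 2 ≤ C * d ^ 2 := by gcongr
  have b2 : C * dist (Φ T' w) (γ • z) ^ 2 ≤ C * d ^ 2 := by gcongr
  have b3 : C * |s| * dist (Φ T z) w ≤ C * |s| * d := by gcongr
  have b4 : C * |s| * dist (Φ T' w) (γ • z) ≤ C * |s| * d := by gcongr
  have b5 : 0 ≤ C * s ^ 2 * (T + T') := by
    have : 0 ≤ T + T' := by linarith
    positivity
  nlinarith

end Pool.Agent.Lib.MP_5bb885_an.Gen
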