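import Pool.Agent.Lib.MP_5bb885_an.T9Mob

/-!
Crossing numbers of a curve with a segment.
-/

namespace Pool.Agent.Lib.MP_5bb885_an.Gen

open UpperHalfPlane MeasureTheory Filter Topology

variable {Γ : Type} [Group Γ] [MulAction Γ ℍ] {x : ℝ → ℍ} {z w v : ℂ} {s t r : ℝ}

/-- Continuously differentiable curves. -/
structure C1 (x : ℝ → ℍ) : Prop where
  der : ∀ t, HasDerivAt (fun s => (x s : ℂ)) (vel x t) t
  cont : Continuous (vel x)

/-- The variation of the argument of `(x - z) / (x - w)`. -/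
noncomputable def Wq (z w : ℂ) (x : ℝ → ℍ) (s t : ℝ) : ℝ :=
  (∫ τ in s..t, (vel x τ / (x τ - z) - vel x τ / (x τ - w)).im) / (2 * Real.pi)

/-- The principal argument of `(ζ - z) / (ζ - w)`. -/
noncomputable def ar (z w ζ : ℂ) : ℝ := Complex.arg ((ζ - z) / (ζ - w)) / (2 * Real.pi)

/-- The crossing number. -/
noncomputable def cr (z w : ℂ) (x : ℝ → ℍ) (s t : ℝ) : ℝ :=
  Wq z w x s t - (ar z w (x t) - ar z w (x s))

lemma t9flux1_cx (h : C1 x) : Continuous fun τ => (x τ : ℂ) :=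
  continuous_iff_continuousAt.2 fun τ => (h.der τ).continuousAt

lemma t9flux1_cx' (h : C1 x) : Continuous x :=
  UpperHalfPlane.isEmbedding_coe.continuous_iff.2 (t9flux1_cx h)

lemma C1.smul (F : Deck Γ) (h : C1 x) (γ : Γ) : C1 fun t => γ • x t := by
  refine ⟨fun t => ?_, ?_⟩
  · rw [F.vel_smul]
    exact F.hasDerivAt_smul γ (h.der t)
  · have e : vel (fun t => γ • x t) = fun t => dk γ (x t) (vel x t) :=
      funext fun t => F.vel_smul γ x t
    rw [e]
    exact ((F.continuous_dk γ).comp (t9flux1_cx' h)).clm_apply h.cont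

lemma abs_ar_le (z w ζ : ℂ) : |ar z w ζ| ≤ 1 / 2 := by
  have hp := Real.pi_pos
  rw [ar, abs_div, abs_of_pos (by positivity : 0 < 2 * Real.pi), div_le_iff₀ (by positivity)]
  have := Complex.abs_arg_le_pi ((ζ - z) / (ζ - w))
  linarith

lemma t9flux1_contAt (h : C1 x) {τ : ℝ} (hz : (x τ : ℂ) ≠ z) (hw : (x τ : ℂ) ≠ w) :
    ContinuousAt (fun τ => (vel x τ / (x τ - z) - vel x τ / (x τ - w)).im) τ := by
  have c := (t9flux1_cx h).continuousAt (x := τ)
  refine Complex.continuous_im.continuousAt.comp ?_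
  exact (h.cont.continuousAt.div (c.sub continuousAt_const) (sub_ne_zero.2 hz)).sub
    (h.cont.continuousAt.div (c.sub continuousAt_const) (sub_ne_zero.2 hw))

lemma t9flux1_cont (h : C1 x) (hz : ∀ τ, (x τ : ℂ) ≠ z) (hw : ∀ τ, (x τ : ℂ) ≠ w) :
    Continuous fun τ => (vel x τ / (x τ - z) - vel x τ / (x τ - w)).im :=
  continuous_iff_continuousAt.2 fun τ => t9flux1_contAt h (hz τ) (hw τ)

lemma cr_add (h : C1 x) (hz : ∀ τ, (x τ : ℂ) ≠ z) (hw : ∀ τ, (x τ : ℂ) ≠ w) (s t r : ℝ) :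
    cr z w x s t + cr z w x t r = cr z w x s r := by
  have c := t9flux1_cont h hz hw
  have e := intervalIntegral.integral_add_adjacent_intervals (μ := volume)
    (c.intervalIntegrable s t) (c.intervalIntegrable t r)
  simp only [cr, Wq]
  rw [← e]
  ring

lemma t9flux1_slit {ζ : ℂ} (H : ζ ∉ segment ℝ z w) : (ζ - z) / (ζ - w) ∈ Complex.slitPlane := by
  have hw : ζ - w ≠ 0 := fun e => H (sub_eq_zero.1 e ▸ right_mem_segment ℝ _ _)
  by_contra hq
  rw [Complex.mem_slitPlane_iff, not_or, not_lt, not_not] at hq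
  obtain ⟨h1, h2⟩ := hq
  set a : ℝ := -((ζ - z) / (ζ - w)).re with ha
  have ha0 : 0 ≤ a := by linarith
  have e : (ζ - z) / (ζ - w) = -(a : ℂ) := by
    apply Complex.ext
    · simp [ha]
    · simpa using h2
  rw [div_eq_iff hw] at e
  have h3 : (0 : ℝ) < 1 + a := by linarith
  have h4 : (1 + a : ℂ) ≠ 0 := by exact_mod_cast h3.ne'
  refine H ⟨1 / (1 + a), a / (1 + a), by positivity, by positivity, by field_simp, ?_⟩
  simp only [Complex.real_smul]
  push_cast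
  field_simp
  linear_combination -e

lemma t9flux1_der (h : C1 x) {τ : ℝ} (hz : (x τ : ℂ) ≠ z) (hw : (x τ : ℂ) ≠ w) :
    HasDerivAt (fun τ => ((x τ : ℂ) - z) / (x τ - w))
      (((x τ : ℂ) - z) / (x τ - w) * (vel x τ / (x τ - z) - vel x τ / (x τ - w))) τ := by
  have hz' := sub_ne_zero.2 hz
  have hw' := sub_ne_zero.2 hw
  refine (((h.der τ).sub_const z).div ((h.der τ).sub_const w) hw').congr_deriv ?_
  field_simp

lemma t9flux1_darg (h : C1 x) {τ : ℝ} (H : (x τ : ℂ) ∉ segment ℝ z w) :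
    HasDerivAt (fun τ => Complex.arg (((x τ : ℂ) - z) / (x τ - w)))
      (vel x τ / (x τ - z) - vel x τ / (x τ - w)).im τ := by
  have hz : (x τ : ℂ) ≠ z := fun e => H (e ▸ left_mem_segment ℝ _ _)
  have hw : (x τ : ℂ) ≠ w := fun e => H (e ▸ right_mem_segment ℝ _ _)
  have hs := t9flux1_slit H
  have h1 := (t9flux1_der h hz hw).clog_real hs
  rw [mul_div_cancel_left₀ _ (Complex.slitPlane_ne_zero hs)] at h1
  have h2 := Complex.imCLM.hasFDerivAt.comp_hasDerivAt τ h1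
  simpa only [Function.comp_def, Complex.imCLM_apply, Complex.log_im] using h2

lemma cr_zero (h : C1 x) (hst : s ≤ t) (H : ∀ τ ∈ Set.Icc s t, (x τ : ℂ) ∉ segment ℝ z w) :
    cr z w x s t = 0 := by
  have hI : Set.uIcc s t = Set.Icc s t := Set.uIcc_of_le hst
  have hz : ∀ τ ∈ Set.Icc s t, (x τ : ℂ) ≠ z := fun τ hτ e =>
    H τ hτ (e ▸ left_mem_segment ℝ _ _)
  have hw : ∀ τ ∈ Set.Icc s t, (x τ : ℂ) ≠ w := fun τ hτ e =>
    H τ hτ (e ▸ right_mem_segment ℝ _ _)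
  have e := intervalIntegral.integral_eq_sub_of_hasDerivAt
    (f := fun τ => Complex.arg (((x τ : ℂ) - z) / (x τ - w)))
    (f' := fun τ => (vel x τ / (x τ - z) - vel x τ / (x τ - w)).im) (a := s) (b := t)
    (fun τ hτ => t9flux1_darg h (H τ (hI ▸ hτ)))
    (ContinuousOn.intervalIntegrable fun τ hτ =>
      (t9flux1_contAt h (hz τ (hI ▸ hτ)) (hw τ (hI ▸ hτ))).continuousWithinAt)
  simp only [cr, Wq, ar]
  rw [e]
  ring

lemma t9flux1_neg {ζ : ℂ} (H : ζ ∈ segment ℝ z w) (hz : ζ ≠ z) (hw : ζ ≠ w) :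
    ((ζ - z) / (ζ - w)).re < 0 ∧ ((ζ - z) / (ζ - w)).im = 0 := by
  obtain ⟨a, b, ha, hb, hab, e⟩ := H
  have hab' : (a : ℂ) + b = 1 := by exact_mod_cast hab
  simp only [Complex.real_smul] at e
  have e1 : ζ - z = b * (w - z) := by rw [← e]; linear_combination z * hab'
  have e2 : ζ - w = -a * (w - z) := by rw [← e]; linear_combination w * hab'
  have n1 := sub_ne_zero.2 hz
  have n2 := sub_ne_zero.2 hw
  rw [e1] at n1
  rw [e2] at n2
  have n3 : w - z ≠ 0 := right_ne_zero_of_mul n1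
  have n4 : b ≠ 0 := fun e => left_ne_zero_of_mul n1 (by simp [e])
  have n5 : a ≠ 0 := fun e => left_ne_zero_of_mul n2 (by simp [e])
  have e3 : (ζ - z) / (ζ - w) = ((-(b / a) : ℝ) : ℂ) := by
    rw [e1, e2, mul_div_mul_right _ _ n3]
    push_cast
    rw [div_neg]
  rw [e3, Complex.ofReal_re, Complex.ofReal_im]
  exact ⟨neg_neg_of_pos (div_pos (lt_of_le_of_ne hb n4.symm) (lt_of_le_of_ne ha n5.symm)), rfl⟩

lemma t9flux1_sign {p d ζ : ℂ} (hd : d ≠ 0) (h1 : (co p d z).re = 0)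
    (h2 : (co p d w).re = 0) (h3 : (co p d z).im < (co p d w).im) (hw : ζ ≠ w) :
    ∃ k : ℝ, 0 < k ∧ ((ζ - z) / (ζ - w)).im = k * (co p d ζ).re := by
  have e : (ζ - z) / (ζ - w) = (co p d ζ - co p d z) / (co p d ζ - co p d w) := by
    simp only [co]
    rw [← sub_div, ← sub_div, div_div_div_cancel_right₀ hd]
    congr 1 <;> ring
  have n : co p d ζ - co p d w ≠ 0 := by
    simp only [co]
    rw [← sub_div]
    refine div_ne_zero ?_ hd
    rw [sub_sub_sub_cancel_right]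
    exact sub_ne_zero.2 hw
  have n' := Complex.normSq_pos.2 n
  refine ⟨((co p d w).im - (co p d z).im) / Complex.normSq (co p d ζ - co p d w),
    div_pos (sub_pos.2 h3) n', ?_⟩
  rw [e, Complex.div_im, Complex.sub_re, Complex.sub_im, Complex.sub_re, Complex.sub_im, h1, h2]
  field_simp
  ring

open Classical in
lemma cr_cross (h : C1 x) (hst : s < t) {p d : ℂ} (hd : d ≠ 0) (h1 : (co p d z).re = 0)
    (h2 : (co p d w).re = 0) (h3 : (co p d z).im < (co p d w).im)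
    (hz : ∀ τ, (x τ : ℂ) ≠ z) (hw : ∀ τ, (x τ : ℂ) ≠ w)
    (H : ∀ τ ∈ Set.Ioo s t, (x τ : ℂ) ∉ segment ℝ z w)
    (Hs : (x s : ℂ) ∈ segment ℝ z w → ∀ᶠ τ in 𝓝[>] s, 0 < (co p d (x τ)).re)
    (Ht : (x t : ℂ) ∈ segment ℝ z w → ∀ᶠ τ in 𝓝[<] t, (co p d (x τ)).re < 0) :
    cr z w x s t = if (x t : ℂ) ∈ segment ℝ z w then -1 else 0 := by
  have hp := Real.pi_pos
  have cq : Continuous fun τ => ((x τ : ℂ) - z) / (x τ - w) :=
    ((t9flux1_cx h).sub continuous_const).div ((t9flux1_cx h).sub continuous_const)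
      fun τ => sub_ne_zero.2 (hw τ)
  have cf := t9flux1_cont h hz hw
  obtain ⟨m, hm1, hm2⟩ := exists_between hst
  rw [← cr_add h hz hw s m t]
  have A : cr z w x s m = 0 := by
    have l1 : Tendsto (fun τ => Complex.arg (((x τ : ℂ) - z) / (x τ - w))) (𝓝[>] s)
        (𝓝 (Complex.arg (((x s : ℂ) - z) / (x s - w)))) := by
      by_cases hs : (x s : ℂ) ∈ segment ℝ z w
      · obtain ⟨b1, b2⟩ := t9flux1_neg hs (hz s) (hw s)
        refine (Complex.continuousWithinAt_arg_of_re_neg_of_im_zero b1 b2).tendsto.comp ?_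
        refine tendsto_nhdsWithin_iff.2 ⟨(cq.tendsto s).mono_left nhdsWithin_le_nhds, ?_⟩
        filter_upwards [Hs hs] with τ hτ
        obtain ⟨k, hk, e⟩ := t9flux1_sign hd h1 h2 h3 (hw τ)
        rw [e]
        positivity
      · exact (((Complex.continuousAt_arg (t9flux1_slit hs)).tendsto.comp
          (cq.tendsto s))).mono_left nhdsWithin_le_nhds
    have l2 : Tendsto (fun τ => cr z w x τ m) (𝓝[>] s) (𝓝 (cr z w x s m)) := by
      simp only [cr, Wq, ar]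
      refine Tendsto.sub (Tendsto.div_const ?_ _) (tendsto_const_nhds.sub (l1.div_const _))
      have c := (intervalIntegral.continuous_primitive (μ := volume)
        (fun a b => cf.intervalIntegrable a b) m).neg
      simp only [fun τ => intervalIntegral.integral_symm (μ := volume)
        (f := fun τ => (vel x τ / (x τ - z) - vel x τ / (x τ - w)).im) m τ]
      exact (c.tendsto s).mono_left nhdsWithin_le_nhds
    refine tendsto_nhds_unique l2 (tendsto_const_nhds.congr' ?_)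
    filter_upwards [Ioo_mem_nhdsGT hm1] with τ hτ
    exact (cr_zero h hτ.2.le fun σ hσ => H σ ⟨hτ.1.trans_le hσ.1, hσ.2.trans_lt hm2⟩).symm
  rw [A, zero_add]
  have l3 : ∀ a : ℝ, Tendsto (fun τ => Complex.arg (((x τ : ℂ) - z) / (x τ - w))) (𝓝[<] t)
      (𝓝 a) → cr z w x m t = (a - Complex.arg (((x t : ℂ) - z) / (x t - w))) / (2 * Real.pi) := by
    intro a l1
    have l2 : Tendsto (fun τ => cr z w x m τ) (𝓝[<] t)
        (𝓝 (Wq z w x m t - (a / (2 * Real.pi) - ar z w (x m)))) := by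
      simp only [cr, Wq, ar]
      refine Tendsto.sub (Tendsto.div_const ?_ _) ((l1.div_const _).sub tendsto_const_nhds)
      have c := (intervalIntegral.continuous_primitive (μ := volume)
        (fun a b => cf.intervalIntegrable a b) m)
      exact (c.tendsto t).mono_left nhdsWithin_le_nhds
    have e : Wq z w x m t - (a / (2 * Real.pi) - ar z w (x m)) = 0 := by
      refine tendsto_nhds_unique l2 (tendsto_const_nhds.congr' ?_)
      filter_upwards [Ioo_mem_nhdsLT hm2] with τ hτ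
      exact (cr_zero h hτ.1.le fun σ hσ => H σ ⟨hm1.trans_le hσ.1, hσ.2.trans_lt hτ.2⟩).symm
    rw [cr, sub_div]
    simp only [ar] at e ⊢
    linarith
  split_ifs with ht
  · obtain ⟨b1, b2⟩ := t9flux1_neg ht (hz t) (hw t)
    rw [l3 (-Real.pi), Complex.arg_eq_pi_iff.2 ⟨b1, b2⟩]
    · field_simp
      ring
    · refine (Complex.tendsto_arg_nhdsWithin_im_neg_of_re_neg_of_im_zero b1 b2).comp ?_
      refine tendsto_nhdsWithin_iff.2 ⟨(cq.tendsto t).mono_left nhdsWithin_le_nhds, ?_⟩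
      filter_upwards [Ht ht] with τ hτ
      obtain ⟨k, hk, e⟩ := t9flux1_sign hd h1 h2 h3 (hw τ)
      rw [e]
      exact mul_neg_of_pos_of_neg hk hτ
  · rw [l3 _ ((((Complex.continuousAt_arg (t9flux1_slit ht)).tendsto.comp
          (cq.tendsto t))).mono_left nhdsWithin_le_nhds), sub_self, zero_div]

lemma Wq_add (h : C1 x) (hz : ∀ τ, (x τ : ℂ) ≠ z) (hw : ∀ τ, (x τ : ℂ) ≠ w)
    (hv : ∀ τ, (x τ : ℂ) ≠ v) (s t : ℝ) : Wq z w x s t + Wq w v x s t = Wq z v x s t := by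
  simp only [Wq]
  rw [← add_div, ← intervalIntegral.integral_add ((t9flux1_cont h hz hw).intervalIntegrable s t)
    ((t9flux1_cont h hw hv).intervalIntegrable s t)]
  congr 2
  funext τ
  rw [← Complex.add_im, sub_add_sub_cancel]

lemma t9flux1_cov (F : Deck Γ) {γ : Γ} (ho : Ori γ) (z w : ℍ) : ∃ c : ℂ, c ≠ 0 ∧ ∀ ζ : ℍ,
    (((γ • ζ : ℍ) : ℂ) - (γ • z : ℍ)) / (((γ • ζ : ℍ) : ℂ) - (γ • w : ℍ)) =
      ((ζ : ℂ) - z) / (ζ - w) * c := by
  obtain ⟨σ, M, m₁, m₂, m₃, h⟩ := F.mobD γ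
  obtain ⟨j, e, -, hj, he, hM⟩ := h.crs
  have hσ : ∀ u, σ u = u := by
    rcases h.sgn with ⟨-, a⟩ | ⟨b, -⟩
    · exact a
    · exact absurd ho b
  refine ⟨j w / j z, div_ne_zero (hj w) (hj z), fun ζ => ?_⟩
  simp only [h.val, hσ, hM]
  have n1 := hj ζ
  have n2 := hj z
  have n3 := hj w
  by_cases hw : (ζ : ℂ) - w = 0
  · simp [hw]
  · field_simp

lemma Wq_smul (F : Deck Γ) {γ : Γ} (ho : Ori γ) (h : C1 x) {z w : ℍ} (hz : ∀ τ, x τ ≠ z)
    (hw : ∀ τ, x τ ≠ w) (s t : ℝ) :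
    Wq (γ • z : ℍ) (γ • w : ℍ) (fun τ => γ • x τ) s t = Wq z w x s t := by
  obtain ⟨c, hc, e⟩ := t9flux1_cov F ho z w
  have hz' : ∀ τ, (x τ : ℂ) ≠ z := fun τ e => hz τ (UpperHalfPlane.ext e)
  have hw' : ∀ τ, (x τ : ℂ) ≠ w := fun τ e => hw τ (UpperHalfPlane.ext e)
  have hz'' : ∀ τ, ((γ • x τ : ℍ) : ℂ) ≠ (γ • z : ℍ) := fun τ e =>
    hz τ (smul_left_cancel γ (UpperHalfPlane.ext e))
  have hw'' : ∀ τ, ((γ • x τ : ℍ) : ℂ) ≠ (γ • w : ℍ) := fun τ e =>
    hw τ (smul_left_cancel γ (UpperHalfPlane.ext e))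
  simp only [Wq]
  congr 2
  funext τ
  congr 1
  have d1 := t9flux1_der (h.smul F γ) (hz'' τ) (hw'' τ)
  have d2 := (t9flux1_der h (hz' τ) (hw' τ)).mul_const c
  simp only [e] at d1
  have e2 := d1.unique d2
  have n : ((x τ : ℂ) - z) / (x τ - w) * c ≠ 0 :=
    mul_ne_zero (div_ne_zero (sub_ne_zero.2 (hz' τ)) (sub_ne_zero.2 (hw' τ))) hc
  refine mul_left_cancel₀ n ?_
  rw [e2]
  ring

lemma abs_Wq_le (hst : s ≤ t) {C ε : ℝ} (hε : 0 < ε)
    (H : ∀ τ ∈ Set.Icc s t, ‖vel x τ‖ ≤ C ∧ ε ≤ ‖(x τ : ℂ) - z‖ ∧ ε ≤ ‖(x τ : ℂ) - w‖) :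
    |Wq z w x s t| ≤ C / ε * (t - s) := by
  have hp := Real.pi_gt_three
  have hC : 0 ≤ C := (norm_nonneg _).trans (H s ⟨le_rfl, hst⟩).1
  have b := intervalIntegral.norm_integral_le_of_norm_le_const (a := s) (b := t)
    (f := fun τ => (vel x τ / (x τ - z) - vel x τ / (x τ - w)).im) (C := 2 * (C / ε)) (by
      intro τ hτ
      rw [Set.uIoc_of_le hst] at hτ
      obtain ⟨a1, a2, a3⟩ := H τ ⟨hτ.1.le, hτ.2⟩
      have b1 : ‖vel x τ / (x τ - z)‖ ≤ C / ε := by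
        rw [norm_div]
        exact div_le_div₀ hC a1 hε a2
      have b2 : ‖vel x τ / (x τ - w)‖ ≤ C / ε := by
        rw [norm_div]
        exact div_le_div₀ hC a1 hε a3
      have b3 := Complex.abs_im_le_norm (vel x τ / (x τ - z) - vel x τ / (x τ - w))
      have b4 := norm_sub_le (vel x τ / (x τ - z)) (vel x τ / (x τ - w))
      rw [Real.norm_eq_abs]
      linarith)
  rw [Real.norm_eq_abs, abs_of_nonneg (sub_nonneg.2 hst)] at b
  rw [Wq, abs_div, abs_of_pos (by positivity : 0 < 2 * Real.pi), div_le_iff₀ (by positivity)]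
  have b5 : 0 ≤ C / ε * (t - s) := mul_nonneg (by positivity) (sub_nonneg.2 hst)
  nlinarith

lemma isPreconnected_ext (R : ℝ) : IsPreconnected {ζ : ℍ | R < dist ζ I} := by
  let ρ : ℝ → ℍ := fun r => ⟨(Real.exp r : ℂ) * Complex.I, by
    simp [-Complex.ofReal_exp, Real.exp_pos]⟩
  have hρ : Continuous ρ := by
    refine UpperHalfPlane.isEmbedding_coe.continuous_iff.2 ?_
    change Continuous fun r : ℝ => (Real.exp r : ℂ) * Complex.I
    fun_prop
  have hd : ∀ r, dist (ρ r) I = |r| := fun r => by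
    have e1 : (ρ r).re = (I : ℍ).re := by
      change ((Real.exp r : ℂ) * Complex.I).re = _
      simp [-Complex.ofReal_exp]
    have e2 : (ρ r).im = Real.exp r := by
      change ((Real.exp r : ℂ) * Complex.I).im = _
      simp [-Complex.ofReal_exp]
    rw [UpperHalfPlane.dist_of_re_eq e1, e2, UpperHalfPlane.I_im, Real.log_exp, Real.log_one,
      Real.dist_eq, sub_zero]
  have hs : ∀ r : ℝ, IsPreconnected (Metric.sphere (I : ℍ) r) := fun r => by
    rw [← UpperHalfPlane.isEmbedding_coe.isInducing.isPreconnected_image,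
      UpperHalfPlane.image_coe_sphere]
    exact isPreconnected_sphere (by rw [Complex.rank_real_complex]; norm_num) _ _
  have hr : IsPreconnected (ρ '' Set.Ioi R) := isPreconnected_Ioi.image _ hρ.continuousOn
  have hm : ∀ a : ℍ, ρ (dist a I) ∈ Metric.sphere (I : ℍ) (dist a I) := fun a => by
    rw [Metric.mem_sphere, hd, abs_of_nonneg dist_nonneg]
  refine isPreconnected_of_forall_pair fun a ha b hb => ⟨(Metric.sphere (I : ℍ) (dist a I) ∪
    ρ '' Set.Ioi R) ∪ Metric.sphere (I : ℍ) (dist b I), ?_, Or.inl (Or.inl rfl), Or.inr rfl, ?_⟩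
  · rintro u ((hu | ⟨r, hr, rfl⟩) | hu)
    · exact lt_of_lt_of_eq ha (Metric.mem_sphere.1 hu).symm
    · change R < _
      rw [hd]
      exact lt_of_lt_of_le hr (le_abs_self r)
    · exact lt_of_lt_of_eq hb (Metric.mem_sphere.1 hu).symm
  · exact IsPreconnected.union (ρ (dist b I)) (Or.inr ⟨_, hb, rfl⟩) (hm b)
      (IsPreconnected.union (ρ (dist a I)) (hm a) ⟨_, ha, rfl⟩ (hs _) hr) (hs _)

lemma t9flux1_const {S : Set ℍ} (hS : IsPreconnected S) {f : ℍ → ℝ} {c₀ : ℝ}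
    (hf : ContinuousOn f S) (h : ∀ ζ ∈ S, ∃ n : ℤ, f ζ = c₀ + n) : ∃ c, ∀ ζ ∈ S, f ζ = c := by
  have key : ∀ a ∈ S, ∀ b ∈ S, f a ≤ f b := by
    intro a ha b hb
    by_contra hab
    rw [not_le] at hab
    obtain ⟨m, hm⟩ := h a ha
    obtain ⟨n, hn⟩ := h b hb
    have h1 : n < m := by
      rw [hm, hn] at hab
      exact_mod_cast (add_lt_add_iff_left c₀).1 hab
    have h2 : (n : ℝ) + 1 ≤ m := by exact_mod_cast h1
    obtain ⟨u, hu, e⟩ := hS.intermediate_value hb ha hf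
      (show c₀ + n + 1 / 2 ∈ Set.Icc (f b) (f a) from ⟨by linarith, by linarith⟩)
    obtain ⟨k, hk⟩ := h u hu
    have h3 : (2 * k : ℝ) = 2 * n + 1 := by linarith
    have h4 : 2 * k = 2 * n + 1 := by exact_mod_cast h3
    omega
  rcases S.eq_empty_or_nonempty with rfl | ⟨a, ha⟩
  · exact ⟨0, fun _ h => h.elim⟩
  · exact ⟨f a, fun b hb => le_antisymm (key b hb a ha) (key a ha b hb)⟩

lemma t9flux1_mul {a b : ℂ} (ha : a ≠ 0) (hb : b ≠ 0) : ∃ n : ℤ,
    Complex.arg (a * b) / (2 * Real.pi) =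
      Complex.arg a / (2 * Real.pi) + Complex.arg b / (2 * Real.pi) + n := by
  have hp := Real.pi_pos
  have e := Complex.arg_mul_coe_angle ha hb
  rw [← Real.Angle.coe_add, Real.Angle.angle_eq_iff_two_pi_dvd_sub] at e
  obtain ⟨n, hn⟩ := e
  refine ⟨n, ?_⟩
  field_simp
  linarith

lemma t9flux1_out {R : ℝ} {z w ζ : ℍ} (hz : dist z I ≤ R) (hw : dist w I ≤ R)
    (h : R < dist ζ I) : (ζ : ℂ) ∉ segment ℝ (z : ℂ) w := fun hs =>
  absurd (mem_KB.1 ((convex_KB R).segment_subset (mem_KB.2 hz) (mem_KB.2 hw) hs)) (not_le.2 h)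

lemma t9flux1_car {ζ : ℍ} (H : (ζ : ℂ) ∉ segment ℝ z w) :
    ContinuousAt (fun ζ : ℍ => ar z w ζ) ζ := by
  have hw : (ζ : ℂ) - w ≠ 0 := fun e => H (sub_eq_zero.1 e ▸ right_mem_segment ℝ _ _)
  have c : ContinuousAt (fun ζ : ℍ => ((ζ : ℂ) - z) / (ζ - w)) ζ :=
    (UpperHalfPlane.continuous_coe.continuousAt.sub continuousAt_const).div
      (UpperHalfPlane.continuous_coe.continuousAt.sub continuousAt_const) hw
  exact (ContinuousAt.comp (f := fun ζ : ℍ => ((ζ : ℂ) - z) / (ζ - w))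
    (Complex.continuousAt_arg (t9flux1_slit H)) c).div_const _

lemma ar_add (z w v : ℍ) : ∃ R c : ℝ, ∀ ζ : ℍ, R < dist ζ I →
    ar z w ζ + ar w v ζ - ar z v ζ = c := by
  set R := max (dist z I) (max (dist w I) (dist v I)) with hR
  have hz : dist z I ≤ R := le_max_left _ _
  have hw : dist w I ≤ R := (le_max_left _ _).trans (le_max_right _ _)
  have hv : dist v I ≤ R := (le_max_right _ _).trans (le_max_right _ _)
  refine ⟨R, t9flux1_const (isPreconnected_ext R)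
    (f := fun ζ => ar z w ζ + ar w v ζ - ar z v ζ) (c₀ := 0) (fun ζ hζ => ?_) fun ζ hζ => ?_⟩
  · exact (((t9flux1_car (t9flux1_out hz hw hζ)).add (t9flux1_car (t9flux1_out hw hv hζ))).sub
      (t9flux1_car (t9flux1_out hz hv hζ))).continuousWithinAt
  · have n1 := Complex.slitPlane_ne_zero (t9flux1_slit (t9flux1_out hz hw hζ))
    have n2 := Complex.slitPlane_ne_zero (t9flux1_slit (t9flux1_out hw hv hζ))
    obtain ⟨n, hn⟩ := t9flux1_mul n1 n2
    have n3 : (ζ : ℂ) - w ≠ 0 := fun e => n2 (by rw [e, zero_div])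
    rw [div_mul_div_cancel₀ n3] at hn
    refine ⟨-n, ?_⟩
    simp only [ar]
    push_cast
    linarith

lemma ar_smul (F : Deck Γ) {γ : Γ} (ho : Ori γ) (z w : ℍ) : ∃ R c : ℝ, ∀ ζ : ℍ, R < dist ζ I →
    ar (γ • z : ℍ) (γ • w : ℍ) (γ • ζ : ℍ) - ar z w ζ = c := by
  obtain ⟨k, hk, e⟩ := t9flux1_cov F ho z w
  set R := max (dist z I) (dist w I) with hR
  set D := dist (γ • I : ℍ) I with hD
  have hD0 : 0 ≤ D := dist_nonneg
  have hz : dist z I ≤ R := le_max_left _ _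
  have hw : dist w I ≤ R := le_max_right _ _
  have up : ∀ u : ℍ, dist (γ • u) I ≤ dist u I + D := fun u => by
    have := dist_triangle (γ • u) (γ • I) I
    rwa [F.iso] at this
  have lo : ∀ u : ℍ, dist u I ≤ dist (γ • u) I + D := fun u => by
    have := dist_triangle_right (γ • u) (γ • I) I
    rwa [F.iso] at this
  have o1 : ∀ ζ : ℍ, R + 2 * D < dist ζ I → (ζ : ℂ) ∉ segment ℝ (z : ℂ) w := fun ζ hζ =>
    t9flux1_out hz hw (by linarith)
  have o2 : ∀ ζ : ℍ, R + 2 * D < dist ζ I →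
      ((γ • ζ : ℍ) : ℂ) ∉ segment ℝ ((γ • z : ℍ) : ℂ) (γ • w : ℍ) := fun ζ hζ =>
    t9flux1_out (R := R + D) (by linarith [up z]) (by linarith [up w]) (by linarith [lo ζ])
  refine ⟨R + 2 * D, t9flux1_const (isPreconnected_ext (R + 2 * D))
    (f := fun ζ => ar (γ • z : ℍ) (γ • w : ℍ) (γ • ζ : ℍ) - ar z w ζ)
    (c₀ := Complex.arg k / (2 * Real.pi)) (fun ζ hζ => ?_) fun ζ hζ => ?_⟩
  · exact ((ContinuousAt.comp (f := fun ζ : ℍ => γ • ζ) (t9flux1_car (o2 ζ hζ))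
      (F.cont γ).continuousAt).sub (t9flux1_car (o1 ζ hζ))).continuousWithinAt
  · obtain ⟨n, hn⟩ := t9flux1_mul (Complex.slitPlane_ne_zero (t9flux1_slit (o1 ζ hζ))) hk
    refine ⟨n, ?_⟩
    simp only [ar]
    rw [e, hn]
    ring

end Pool.Agent.Lib.MP_5bb885_an.Gen
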