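import Pool.Agent.Lib.MP_5bb885_an.T9Core

/-!
Means of bounded sequences along an ultrafilter.
-/

namespace Pool.Agent.Lib.MP_5bb885_an.Gen

open UpperHalfPlane MeasureTheory Filter Topology

variable {l : Filter ℕ} {a b : ℕ → ℝ} {v w : ℝ}

lemma t9mean_sum {C : ℝ} (h : ∀ k, |a k| ≤ C) (N : ℕ) : |∑ k ∈ Finset.range N, a k| ≤ C * N := by
  refine (Finset.abs_sum_le_sum_abs _ _).trans ?_
  refine (Finset.sum_le_sum fun k _ => h k).trans (le_of_eq ?_)
  simp [mul_comm]

lemma HasM.exists (l : Ultrafilter ℕ) {C : ℝ} (h : ∀ k, |a k| ≤ C) : ∃ v, HasM l a v := by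
  have hC : 0 ≤ C := (abs_nonneg _).trans (h 0)
  obtain ⟨v, -, hv⟩ := (isCompact_Icc (a := -C) (b := C)).ultrafilter_le_nhds
    (l.map fun N : ℕ => (∑ k ∈ Finset.range N, a k) / N) (le_principal_iff.2 (by
      refine Eventually.of_forall (p := fun N : ℕ =>
        (∑ k ∈ Finset.range N, a k) / N ∈ Set.Icc (-C) C) fun N => ?_
      rw [Set.mem_Icc, ← abs_le, abs_div, Nat.abs_cast]
      exact div_le_of_le_mul₀ (Nat.cast_nonneg N) hC (t9mean_sum h N)))
  exact ⟨v, hv⟩

lemma HasM.unique [l.NeBot] (h : HasM l a v) (h' : HasM l a w) : v = w :=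
  tendsto_nhds_unique h h'

lemma HasM.add (h : HasM l a v) (h' : HasM l b w) : HasM l (fun k => a k + b k) (v + w) := by
  refine (Tendsto.add h h').congr fun N => ?_
  rw [Finset.sum_add_distrib, add_div]

lemma HasM.sub (h : HasM l a v) (h' : HasM l b w) : HasM l (fun k => a k - b k) (v - w) := by
  refine (Tendsto.sub h h').congr fun N => ?_
  rw [Finset.sum_sub_distrib, sub_div]

lemma HasM.const_mul (h : HasM l a v) (r : ℝ) : HasM l (fun k => r * a k) (r * v) := by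
  refine (Tendsto.const_mul r h).congr fun N => ?_
  rw [← Finset.mul_sum, mul_div_assoc]

lemma HasM.const (hl : l ≤ atTop) (v : ℝ) : HasM l (fun _ => v) v := by
  refine (tendsto_const_nhds (x := v)).congr' ?_
  filter_upwards [hl (eventually_gt_atTop 0)] with N hN
  have : (N : ℝ) ≠ 0 := Nat.cast_ne_zero.2 (ne_of_gt hN)
  simp only [Finset.sum_const, Finset.card_range, nsmul_eq_mul]
  field_simp

lemma HasM.mono [l.NeBot] (h : HasM l a v) (h' : HasM l b w) (hab : ∀ k, a k ≤ b k) : v ≤ w :=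
  le_of_tendsto_of_tendsto' h h' fun N =>
    div_le_div_of_nonneg_right (Finset.sum_le_sum fun k _ => hab k) (Nat.cast_nonneg N)

lemma HasM.sum {ι : Type} (s : Finset ι) {f : ι → ℕ → ℝ} {y : ι → ℝ}
    (h : ∀ i ∈ s, HasM l (f i) (y i)) : HasM l (fun k => ∑ i ∈ s, f i k) (∑ i ∈ s, y i) := by
  refine (tendsto_finsetSum s h).congr fun N => ?_
  rw [Finset.sum_comm, Finset.sum_div]

lemma HasM.of_bdd (hl : l ≤ atTop) (h : HasM l a v) {C : ℝ}
    (H : ∀ N, |∑ k ∈ Finset.range N, b k - ∑ k ∈ Finset.range N, a k| ≤ C) : HasM l b v := by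
  have h1 : Tendsto (fun N : ℕ =>
      (∑ k ∈ Finset.range N, b k - ∑ k ∈ Finset.range N, a k) / N) l (𝓝 0) := by
    refine squeeze_zero_norm (fun N => ?_)
      ((tendsto_const_div_atTop_nhds_zero_nat C).mono_left hl)
    rw [Real.norm_eq_abs, abs_div, Nat.abs_cast]
    exact div_le_div_of_nonneg_right (H N) (Nat.cast_nonneg N)
  have h2 := Tendsto.add h h1
  rw [add_zero] at h2
  refine h2.congr fun N => ?_
  ring

lemma t9mean_shift {C : ℝ} (hb : ∀ k, |a k| ≤ C) (i N : ℕ) :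
    |∑ k ∈ Finset.range N, a (k + i) - ∑ k ∈ Finset.range N, a k| ≤ 2 * (C * i) := by
  have h1 := Finset.sum_range_add a N i
  have h2 := Finset.sum_range_add a i N
  rw [add_comm i N] at h2
  have h3 : ∑ k ∈ Finset.range N, a (k + i) = ∑ k ∈ Finset.range N, a (i + k) :=
    Finset.sum_congr rfl fun k _ => by rw [add_comm]
  have h4 := abs_le.1 (t9mean_sum hb i)
  have h5 := abs_le.1 (t9mean_sum (a := fun k => a (N + k)) (fun k => hb _) i)
  rw [abs_le]
  constructor <;> linarith [h4.1, h4.2, h5.1, h5.2]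

lemma HasM.shift (hl : l ≤ atTop) {C : ℝ} (hb : ∀ k, |a k| ≤ C) (i : ℕ) :
    HasM l (fun k => a (k + i)) v ↔ HasM l a v :=
  ⟨fun h => h.of_bdd hl fun N => by
      rw [abs_sub_comm]
      exact t9mean_shift hb i N,
    fun h => h.of_bdd hl fun N => t9mean_shift hb i N⟩

lemma HasM.pos [l.NeBot] (hl : l ≤ atTop) (h : HasM l a v) (h0 : ∀ k, 0 ≤ a k) {P : ℕ}
    (H : ∀ k, ∃ j ≤ P, 1 ≤ a (k + j)) : 0 < v := by
  have h1 : ∀ m : ℕ, (m : ℝ) ≤ ∑ k ∈ Finset.range (m * (P + 1)), a k := by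
    intro m
    induction m with
    | zero => simp
    | succ m ih =>
      rw [add_mul, one_mul, Finset.sum_range_add]
      obtain ⟨j, hj, h2⟩ := H (m * (P + 1))
      have h3 := Finset.single_le_sum (f := fun k => a (m * (P + 1) + k))
        (s := Finset.range (P + 1)) (fun k _ => h0 _) (Finset.mem_range.2 (Nat.lt_succ_of_le hj))
      push_cast
      linarith
  have hP : (0 : ℝ) < 2 * (P + 1) := by positivity
  refine lt_of_lt_of_le (one_div_pos.2 hP) (ge_of_tendsto h ?_)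
  filter_upwards [hl (eventually_ge_atTop (P + 1))] with N hN
  have hN' : P + 1 ≤ N := hN
  have h2 : N / (P + 1) * (P + 1) ≤ N := Nat.div_mul_le_self N (P + 1)
  have h3 : N < N / (P + 1) * (P + 1) + (P + 1) := Nat.lt_div_mul_add (Nat.succ_pos P)
  have h4 : 1 ≤ N / (P + 1) := (Nat.one_le_div_iff (Nat.succ_pos P)).2 hN'
  have h5 : ∑ k ∈ Finset.range (N / (P + 1) * (P + 1)), a k ≤ ∑ k ∈ Finset.range N, a k :=
    Finset.sum_le_sum_of_subset_of_nonneg (Finset.range_mono h2) fun k _ _ => h0 k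
  have h6 := (h1 (N / (P + 1))).trans h5
  generalize N / (P + 1) = m at h3 h4 h6
  have h7 : (N : ℝ) < m * (P + 1) + (P + 1) := by exact_mod_cast h3
  have h8 : (1 : ℝ) ≤ m := by exact_mod_cast h4
  have h9 : (0 : ℝ) < N := by exact_mod_cast lt_of_lt_of_le (Nat.succ_pos P) hN'
  rw [div_le_div_iff₀ hP h9]
  have h10 : (0 : ℝ) < P + 1 := by positivity
  nlinarith

open Classical in
lemma HasM.card_le {E : Set ℕ} (h : HasM l a v) (h0 : ∀ k, 0 ≤ a k) (h1 : ∀ k ∈ E, 1 ≤ a k)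
    (hv : v < w) : ∀ᶠ N in l, (((Finset.range N).filter (· ∈ E)).card : ℝ) ≤ w * N := by
  filter_upwards [Tendsto.eventually h (gt_mem_nhds hv)] with N hN
  rcases Nat.eq_zero_or_pos N with rfl | hN0
  · simp
  · have h2 : (0 : ℝ) < N := by exact_mod_cast hN0
    rw [div_lt_iff₀ h2] at hN
    refine le_trans ?_ hN.le
    rw [Finset.card_eq_sum_ones, Nat.cast_sum]
    refine le_trans (Finset.sum_le_sum fun k hk => ?_)
      (Finset.sum_le_sum_of_subset_of_nonneg (Finset.filter_subset (· ∈ E) _) fun k _ _ => h0 k)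
    simpa using h1 k (Finset.mem_filter.1 hk).2

end Pool.Agent.Lib.MP_5bb885_an.Gen
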