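import Pool.Agent.Lib.MP_5bb885_an.T9Flux1
import Pool.Agent.Lib.MP_5bb885_an.T9Lam
import Pool.Agent.Lib.MP_5bb885_an.T9Mean

/-!
The flux of a lamination through segments.
-/

namespace Pool.Agent.Lib.MP_5bb885_an.Gen

open UpperHalfPlane MeasureTheory Filter Topology

variable {Γ : Type} [Group Γ] [MulAction Γ ℍ] {K : Set ℍ} {Φ : ℝ → ℍ → ℍ} {V : ℍ → ℂ}
  {x z w v : ℍ}

variable (Γ) in
/-- The sum of the crossing numbers of all translates of a curve. -/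
noncomputable def flux (z w : ℂ) (x : ℝ → ℍ) (s t : ℝ) : ℝ :=
  ∑ᶠ γ : Γ, cr z w (fun τ => γ • x τ) s t

lemma Deck.card (F : Deck Γ) (R : ℝ) : ∃ D : ℕ, ∀ (z : ℍ) (S : Finset Γ),
    (∀ γ ∈ S, dist (γ • z) I ≤ R) → S.card ≤ D := by
  refine ⟨(F.fin' R).toFinset.card, fun z S hS => ?_⟩
  rcases S.eq_empty_or_nonempty with rfl | ⟨δ, hδ⟩
  · simp
  · refine Finset.card_le_card_of_injOn (fun γ => γ * δ⁻¹) (fun γ hγ => ?_)
      (mul_left_injective _).injOn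
    rw [Finset.mem_coe, Set.Finite.mem_toFinset]
    exact ⟨δ • z, hS δ hδ, by rw [mul_smul, inv_smul_smul]; exact hS γ hγ⟩

lemma t9f2_fin (F : Deck Γ) (R : ℝ) (p : ℍ) : {γ : Γ | dist (γ • p) I ≤ R}.Finite :=
  (F.fin' (max R (dist p I))).subset fun _ hγ => ⟨p, le_max_right _ _, le_max_of_le_left hγ⟩

/-- A sum over the group whose terms vanish unless one of two points is moved into a ball. -/
lemma t9f2_bound (F : Deck Γ) (R B : ℝ) : ∃ C : ℝ, ∀ (p q : ℍ) (f : Γ → ℝ),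
    (∀ γ, f γ ≠ 0 → |f γ| ≤ B ∧ (dist (γ • p) I ≤ R ∨ dist (γ • q) I ≤ R)) → |∑ᶠ γ, f γ| ≤ C := by
  classical
  obtain ⟨D, hD⟩ := F.card R
  refine ⟨(D + D : ℕ) * |B|, fun p q f hf => ?_⟩
  rw [finsum_eq_sum_of_support_subset f
    (s := (t9f2_fin F R p).toFinset ∪ (t9f2_fin F R q).toFinset) fun γ hγ => by
      simpa using (hf γ hγ).2]
  refine (Finset.abs_sum_le_sum_abs _ _).trans
    ((Finset.sum_le_card_nsmul _ _ |B| fun γ _ => ?_).trans ?_)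
  · by_cases h : f γ = 0
    · rw [h, abs_zero]
      exact abs_nonneg B
    · exact (hf γ h).1.trans (le_abs_self B)
  · rw [nsmul_eq_mul]
    refine mul_le_mul_of_nonneg_right (Nat.cast_le.2 ((Finset.card_union_le _ _).trans
      (add_le_add (hD p _ fun γ hγ => ?_) (hD q _ fun γ hγ => ?_)))) (abs_nonneg B)
    · simpa using hγ
    · simpa using hγ

lemma Lam.c1 (A : Lam Γ K Φ V) (hx : x ∈ K) : C1 (fun t => Φ t x) ∧
    ∀ t, vel (fun t => Φ t x) t = V (Φ t x) := by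
  have h : ∀ t, vel (fun t => Φ t x) t = V (Φ t x) := fun t => (A.deriv x hx t).deriv
  refine ⟨⟨fun t => h t ▸ A.deriv x hx t, ?_⟩, h⟩
  rw [funext h]
  exact A.contV.comp_continuous (A.continuous hx) fun t => A.map t x hx

lemma t9f2_ne (A : Lam Γ K Φ V) (hx : x ∈ K) (hz : z ∉ K) (γ : Γ) (τ : ℝ) : γ • Φ τ x ≠ z :=
  fun h => hz (h ▸ A.smul γ _ (A.map τ x hx))

lemma t9f2_ne' (A : Lam Γ K Φ V) (hx : x ∈ K) (hz : z ∉ K) (γ : Γ) (τ : ℝ) :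
    ((γ • Φ τ x : ℍ) : ℂ) ≠ z := fun h => t9f2_ne A hx hz γ τ (UpperHalfPlane.ext h)

lemma t9f2_hit (F : Deck Γ) (A : Lam Γ K Φ V) (hx : x ∈ K) (z w : ℍ) {s t : ℝ} (hst : s ≤ t)
    {γ : Γ} (h : cr z w (fun τ => γ • Φ τ x) s t ≠ 0) :
    ∃ τ ∈ Set.Icc s t, dist (γ • Φ τ x) I ≤ max (dist z I) (dist w I) := by
  by_contra H
  refine h (cr_zero ((A.c1 hx).1.smul F γ) hst fun τ hτ hm => H ⟨τ, hτ, mem_KB.1 ?_⟩)
  exact (convex_KB _).segment_subset (mem_KB.2 (le_max_left _ _)) (mem_KB.2 (le_max_right _ _)) hm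

lemma t9f2_stay (F : Deck Γ) (A : Lam Γ K Φ V) (z w : ℍ) (τ₂ : ℝ) : ∃ R : ℝ,
    dist z I ≤ R ∧ dist w I ≤ R ∧ ∀ x ∈ K, ∀ s t, s ≤ t → t ≤ s + τ₂ → ∀ γ : Γ,
      cr z w (fun τ => γ • Φ τ x) s t ≠ 0 → ∀ τ ∈ Set.Icc s t, dist (γ • Φ τ x) I ≤ R := by
  obtain ⟨C, hC0, hC⟩ := A.dist_le
  have h0 : 0 ≤ C * |τ₂| := mul_nonneg hC0 (abs_nonneg _)
  refine ⟨C * |τ₂| + max (dist z I) (dist w I), le_add_of_nonneg_of_le h0 (le_max_left _ _),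
    le_add_of_nonneg_of_le h0 (le_max_right _ _), fun x hx s t hst ht γ h τ hτ => ?_⟩
  obtain ⟨σ, hσ, h1⟩ := t9f2_hit F A hx z w hst h
  refine (dist_triangle _ (γ • Φ σ x) _).trans (add_le_add ?_ h1)
  rw [F.iso]
  refine (hC x hx τ σ).trans (mul_le_mul_of_nonneg_left ?_ hC0)
  refine (abs_le.2 ⟨?_, ?_⟩).trans (le_abs_self τ₂) <;> linarith [hτ.1, hτ.2, hσ.1, hσ.2]

lemma Lam.flux_finite (F : Deck Γ) (A : Lam Γ K Φ V) (hx : x ∈ K) (z w : ℍ) {s t : ℝ}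
    (hst : s ≤ t) : (Function.support fun γ : Γ => cr z w (fun τ => γ • Φ τ x) s t).Finite := by
  obtain ⟨R, -, -, hR⟩ := t9f2_stay F A z w (t - s)
  exact (t9f2_fin F R (Φ s x)).subset fun γ hγ =>
    hR x hx s t hst (by linarith) γ hγ s ⟨le_rfl, hst⟩

lemma Lam.flux_add (F : Deck Γ) (A : Lam Γ K Φ V) (hx : x ∈ K) (hz : z ∉ K) (hw : w ∉ K)
    {s t r : ℝ} (hst : s ≤ t) (htr : t ≤ r) : flux Γ z w (fun τ => Φ τ x) s t +
      flux Γ z w (fun τ => Φ τ x) t r = flux Γ z w (fun τ => Φ τ x) s r := by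
  rw [flux, flux, flux, ← finsum_add_distrib (A.flux_finite F hx z w hst)
    (A.flux_finite F hx z w htr)]
  exact finsum_congr fun γ =>
    cr_add ((A.c1 hx).1.smul F γ) (t9f2_ne' A hx hz γ) (t9f2_ne' A hx hw γ) s t r

lemma t9f2_far (A : Lam Γ K Φ V) (hz : z ∉ K) : ∃ ε : ℝ, 0 < ε ∧ ∀ p ∈ K, ε ≤ dist p z := by
  obtain ⟨ε, hε, h⟩ := Metric.isOpen_iff.1 A.closed.isOpen_compl z hz
  exact ⟨ε, hε, fun p hp => not_lt.1 fun h' => h h' hp⟩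

lemma Lam.flux_bd (F : Deck Γ) (A : Lam Γ K Φ V) (hz : z ∉ K) (hw : w ∉ K) (τ₂ : ℝ) : ∃ C : ℝ,
    ∀ x ∈ K, ∀ s t, s ≤ t → t ≤ s + τ₂ → |flux Γ z w (fun τ => Φ τ x) s t| ≤ C := by
  obtain ⟨R, hzR, hwR, hR⟩ := t9f2_stay F A z w τ₂
  obtain ⟨M, hM1, hM⟩ := KB_cmp R
  obtain ⟨Cs, hs⟩ := A.speed
  obtain ⟨ε₁, hε₁, h1⟩ := t9f2_far A hz
  obtain ⟨ε₂, hε₂, h2⟩ := t9f2_far A hw
  have hM0 : 0 < M := one_pos.trans_le hM1
  have hε : 0 < min ε₁ ε₂ / M := div_pos (lt_min hε₁ hε₂) hM0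
  obtain ⟨C, hC⟩ := t9f2_bound F R (|Cs| * M / (min ε₁ ε₂ / M) * τ₂ + 1)
  refine ⟨C, fun x hx s t hst ht => hC (Φ s x) (Φ s x) _ fun γ hγ =>
    ⟨?_, Or.inl (hR x hx s t hst ht γ hγ s ⟨le_rfl, hst⟩)⟩⟩
  have hW : |Wq z w (fun τ => γ • Φ τ x) s t| ≤ |Cs| * M / (min ε₁ ε₂ / M) * (t - s) := by
    refine abs_Wq_le hst hε fun τ hτ => ?_
    have hp := hR x hx s t hst ht γ hγ τ hτ
    have hK := A.smul γ _ (A.map τ x hx)
    refine ⟨?_, ?_, ?_⟩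
    · have e : (fun τ => γ • Φ τ x) = fun τ => Φ τ (γ • x) :=
        funext fun τ => (A.comm τ γ x hx).symm
      rw [e, (A.c1 (A.smul γ x hx)).2, A.comm τ γ x hx]
      exact (hs _ hK).trans (mul_le_mul (le_abs_self _) (hM _ _ hp hp).2.2.2 (im_pos _).le
        (abs_nonneg _))
    · rw [div_le_iff₀' hM0]
      exact (min_le_left _ _).trans ((h1 _ hK).trans (hM _ _ hp hzR).1)
    · rw [div_le_iff₀' hM0]
      exact (min_le_right _ _).trans ((h2 _ hK).trans (hM _ _ hp hwR).1)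
  have h3 : |Cs| * M / (min ε₁ ε₂ / M) * (t - s) ≤ |Cs| * M / (min ε₁ ε₂ / M) * τ₂ :=
    mul_le_mul_of_nonneg_left (by linarith) (by positivity)
  have h4 := abs_le.1 (abs_ar_le z w (γ • Φ t x : ℍ))
  have h5 := abs_le.1 (abs_ar_le z w (γ • Φ s x : ℍ))
  have h6 := abs_le.1 (hW.trans h3)
  rw [cr, abs_le]
  constructor <;> linarith [h4.1, h4.2, h5.1, h5.2, h6.1, h6.2]

lemma Lam.flux_pts (F : Deck Γ) (A : Lam Γ K Φ V) (hz : z ∉ K) (hw : w ∉ K) (hv : v ∉ K) :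
    ∃ C : ℝ, ∀ x ∈ K, ∀ s t, s ≤ t → |flux Γ z w (fun τ => Φ τ x) s t +
      flux Γ w v (fun τ => Φ τ x) s t - flux Γ z v (fun τ => Φ τ x) s t| ≤ C := by
  obtain ⟨R, c, hR⟩ := ar_add z w v
  obtain ⟨C, hC⟩ := t9f2_bound F R 3
  refine ⟨C, fun x hx s t hst => ?_⟩
  have f1 := A.flux_finite F hx z w hst
  have f2 := A.flux_finite F hx w v hst
  rw [flux, flux, flux, ← finsum_add_distrib f1 f2, ← finsum_sub_distrib
    ((f1.union f2).subset (Function.support_add _ _)) (A.flux_finite F hx z v hst)]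
  refine hC (Φ s x) (Φ t x) _ fun γ hγ => ?_
  have e := Wq_add ((A.c1 hx).1.smul F γ) (t9f2_ne' A hx hz γ) (t9f2_ne' A hx hw γ)
    (t9f2_ne' A hx hv γ) s t
  simp only [cr] at hγ ⊢
  constructor
  · have h1 := abs_le.1 (abs_ar_le z w (γ • Φ t x : ℍ))
    have h2 := abs_le.1 (abs_ar_le z w (γ • Φ s x : ℍ))
    have h3 := abs_le.1 (abs_ar_le w v (γ • Φ t x : ℍ))
    have h4 := abs_le.1 (abs_ar_le w v (γ • Φ s x : ℍ))
    have h5 := abs_le.1 (abs_ar_le z v (γ • Φ t x : ℍ))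
    have h6 := abs_le.1 (abs_ar_le z v (γ • Φ s x : ℍ))
    rw [abs_le]
    constructor <;> linarith [h1.1, h1.2, h2.1, h2.2, h3.1, h3.2, h4.1, h4.2, h5.1, h5.2, h6.1, h6.2]
  · by_contra H
    rw [not_or, not_le, not_le] at H
    exact hγ (by linarith [hR _ H.1, hR _ H.2])

lemma Lam.flux_smul (F : Deck Γ) (A : Lam Γ K Φ V) (hz : z ∉ K) (hw : w ∉ K) {δ : Γ}
    (ho : Ori δ) : ∃ C : ℝ, ∀ x ∈ K, ∀ s t, s ≤ t →
      |flux Γ (δ • z : ℍ) (δ • w : ℍ) (fun τ => Φ τ x) s t - flux Γ z w (fun τ => Φ τ x) s t| ≤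
        C := by
  obtain ⟨R, c, hR⟩ := ar_smul F ho z w
  obtain ⟨C, hC⟩ := t9f2_bound F R 2
  refine ⟨C, fun x hx s t hst => ?_⟩
  have f1 : (Function.support fun γ : Γ =>
      cr (δ • z : ℍ) (δ • w : ℍ) (fun τ => (Equiv.mulLeft δ γ) • Φ τ x) s t).Finite :=
    (A.flux_finite F hx (δ • z) (δ • w) hst).preimage (Equiv.mulLeft δ).injective.injOn
  rw [flux, flux, ← finsum_comp_equiv (Equiv.mulLeft δ),
    ← finsum_sub_distrib f1 (A.flux_finite F hx z w hst)]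
  refine hC (Φ s x) (Φ t x) _ fun γ hγ => ?_
  have e := Wq_smul F ho ((A.c1 hx).1.smul F γ) (t9f2_ne A hx hz γ) (t9f2_ne A hx hw γ) s t
  simp only [cr, Equiv.coe_mulLeft, mul_smul] at hγ ⊢
  constructor
  · have h1 := abs_le.1 (abs_ar_le z w (γ • Φ t x : ℍ))
    have h2 := abs_le.1 (abs_ar_le z w (γ • Φ s x : ℍ))
    have h3 := abs_le.1 (abs_ar_le (δ • z : ℍ) (δ • w : ℍ) (δ • γ • Φ t x : ℍ))
    have h4 := abs_le.1 (abs_ar_le (δ • z : ℍ) (δ • w : ℍ) (δ • γ • Φ s x : ℍ))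
    rw [abs_le]
    constructor <;> linarith [h1.1, h1.2, h2.1, h2.2, h3.1, h3.2, h4.1, h4.2]
  · by_contra H
    rw [not_or, not_le, not_le] at H
    exact hγ (by linarith [hR _ H.1, hR _ H.2])

lemma Lam.flux_near (F : Deck Γ) (A : Lam Γ K Φ V) (hz : z ∉ K) : ∀ᶠ w : ℍ in 𝓝 z, w ∉ K ∧
    ∀ x ∈ K, ∀ s t, s ≤ t → flux Γ w z (fun τ => Φ τ x) s t = 0 := by
  obtain ⟨ε, hε, h⟩ := Metric.isOpen_iff.1
    (isOpenEmbedding_coe.isOpenMap _ A.closed.isOpen_compl) z ⟨z, hz, rfl⟩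
  have h1 : ∀ᶠ w : ℍ in 𝓝 z, (w : ℂ) ∈ Metric.ball (z : ℂ) ε :=
    continuous_coe.continuousAt.eventually (Metric.ball_mem_nhds _ hε)
  filter_upwards [h1, A.closed.isOpen_compl.mem_nhds hz] with w hw hw'
  refine ⟨hw', fun x hx s t hst => finsum_eq_zero_of_forall_eq_zero fun γ =>
    cr_zero ((A.c1 hx).1.smul F γ) hst fun τ _ hm => ?_⟩
  obtain ⟨p, hp, e⟩ := h ((convex_ball _ _).segment_subset hw (Metric.mem_ball_self hε) hm)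
  exact t9f2_ne' A hx hp γ τ e.symm

theorem Lam.exists_pot (F : Deck Γ) (ho : ∀ γ : Γ, Ori γ) (A : Lam Γ K Φ V) (hK : K ≠ Set.univ)
    (hx : x ∈ K) (l : Ultrafilter ℕ) (hl : (l : Filter ℕ) ≤ atTop) {t : ℕ → ℝ} {τ₂ : ℝ}
    (ht : ∀ k, t k ≤ t (k + 1) ∧ t (k + 1) ≤ t k + τ₂) : ∃ (Θ : ℍ → ℝ) (b : Γ → ℝ),
      b ∈ Coh Γ ∧ LC K Θ ∧ (∀ (γ : Γ) (z : ℍ), z ∉ K → Θ (γ • z) = Θ z + b γ) ∧
      ∀ z w : ℍ, z ∉ K → w ∉ K →
        HasM l (fun k => flux Γ z w (fun τ => Φ τ x) (t k) (t (k + 1))) (Θ z - Θ w) := by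
  obtain ⟨z₀, hz₀⟩ := (Set.ne_univ_iff_exists_notMem K).1 hK
  have hm : Monotone t := monotone_nat_of_le_succ fun k => (ht k).1
  have tel : ∀ z w : ℍ, z ∉ K → w ∉ K → ∀ N, ∑ k ∈ Finset.range N,
      flux Γ z w (fun τ => Φ τ x) (t k) (t (k + 1)) = flux Γ z w (fun τ => Φ τ x) (t 0) (t N) := by
    intro z w hz hw N
    induction N with
    | zero =>
      have h := A.flux_add F hx hz hw (le_refl (t 0)) le_rfl
      rw [Finset.sum_range_zero]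
      linarith
    | succ N ih =>
      rw [Finset.sum_range_succ, ih, A.flux_add F hx hz hw (hm N.zero_le) (ht N).1]
  have ex : ∀ z : ℍ, ∃ y, z ∉ K →
      HasM l (fun k => flux Γ z z₀ (fun τ => Φ τ x) (t k) (t (k + 1))) y := fun z => by
    by_cases hz : z ∈ K
    · exact ⟨0, fun h => absurd hz h⟩
    · obtain ⟨C, hC⟩ := A.flux_bd F hz hz₀ τ₂
      obtain ⟨y, hy⟩ := HasM.exists l fun k => hC x hx _ _ (ht k).1 (ht k).2
      exact ⟨y, fun _ => hy⟩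
  choose Θ hΘ using ex
  have main : ∀ z w : ℍ, z ∉ K → w ∉ K →
      HasM l (fun k => flux Γ z w (fun τ => Φ τ x) (t k) (t (k + 1))) (Θ z - Θ w) := by
    intro z w hz hw
    obtain ⟨C, hC⟩ := A.flux_pts F hz hw hz₀
    refine ((hΘ z hz).sub (hΘ w hw)).of_bdd hl (C := C) fun N => ?_
    rw [Finset.sum_sub_distrib, tel z w hz hw, tel z z₀ hz hz₀, tel w z₀ hw hz₀,
      ← sub_add, sub_add_eq_add_sub]
    exact hC x hx _ _ (hm N.zero_le)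
  have hout : ∀ (γ : Γ) (z : ℍ), z ∉ K → γ • z ∉ K := fun γ z hz h =>
    hz (inv_smul_smul γ z ▸ A.smul γ⁻¹ _ h)
  have eqv : ∀ (γ : Γ) (z : ℍ), z ∉ K → Θ (γ • z) = Θ z + (Θ (γ • z₀) - Θ z₀) := by
    intro γ z hz
    obtain ⟨C, hC⟩ := A.flux_smul F hz hz₀ (ho γ)
    have h := (main _ _ (hout γ z hz) (hout γ z₀ hz₀)).unique
      ((main z z₀ hz hz₀).of_bdd hl (C := C) fun N => by
        rw [tel _ _ (hout γ z hz) (hout γ z₀ hz₀), tel z z₀ hz hz₀]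
        exact hC x hx _ _ (hm N.zero_le))
    linarith
  refine ⟨Θ, fun γ => Θ (γ • z₀) - Θ z₀, fun γ δ => ?_, fun z hz => ?_, eqv, main⟩
  · simp only [mul_smul, eqv γ _ (hout δ z₀ hz₀)]
    ring
  · filter_upwards [A.flux_near F hz] with w hw
    have h := main w z hw.1 hz
    simp only [fun k => hw.2 x hx _ _ (ht k).1] at h
    exact sub_eq_zero.1 (h.unique (HasM.const hl 0))

end Pool.Agent.Lib.MP_5bb885_an.Gen
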