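import Pool.Agent.Lib.MP_5bb885_an.T9Cht
import Pool.Agent.Lib.MP_5bb885_an.T9Fam

/-!
The first return map of a transversal.
-/

namespace Pool.Agent.Lib.MP_5bb885_an.Gen

open UpperHalfPlane MeasureTheory Filter Topology

variable {Γ : Type} [Group Γ] [MulAction Γ ℍ] {K : Set ℍ} {Φ : ℝ → ℍ → ℍ} {V : ℍ → ℂ} {q : Bx}
  {r τ₁ τ₂ ε₁ : ℝ} {τ : ℍ → ℝ} {g : ℍ → Γ} {R : ℍ → ℍ} {x y : ℍ}

lemma Sec.inB (S : Sec Γ K Φ V q r) (hx : x ∈ q.ln) : InB q.p q.d (r / 4) x := by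
  obtain ⟨h1, h2, h3⟩ := hx
  have hr := S.cht.pos
  have he := S.ok.e
  have hlo := S.lo
  have hhi := S.hi
  simp only [Bx.ht] at h2 h3
  refine ⟨by rw [h1, abs_zero]; linarith, abs_le.2 ⟨by linarith, by linarith⟩⟩

lemma Sec.ht_inj (S : Sec Γ K Φ V q r) (hx : x ∈ q.ln) (hy : y ∈ q.ln) (h : q.ht x = q.ht y) :
    x = y := by
  have h1 : co q.p q.d x = co q.p q.d y := Complex.ext (by rw [hx.1, hy.1]) h
  have h2 := co_sub q.p q.d x y
  rw [h1, sub_self] at h2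
  have h3 : (x : ℂ) - y = 0 := by
    rcases div_eq_zero_iff.1 h2.symm with h4 | h4
    · exact h4
    · exact absurd h4 S.ok.ne
  exact UpperHalfPlane.ext (sub_eq_zero.1 h3)

lemma Sec.ht_mem (S : Sec Γ K Φ V q r) (hx : x ∈ K ∩ q.ln) : q.ht x ∈ Set.Ioo q.a q.b := by
  have he := S.ok.e
  exact S.gap x hx.1 hx.2.1 ⟨by linarith [hx.2.2.1], by linarith [hx.2.2.2]⟩

lemma Sec.exists_ht (S : Sec Γ K Φ V q r) {s : ℝ} (hs : s ∈ Set.Icc q.a q.b) :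
    ∃ u ∈ q.ln, q.ht u = s := by
  have hd := S.ok.ne
  have hc : co q.p q.d (q.p + q.d * (s * Complex.I)) = s * Complex.I := by
    unfold co
    field_simp
    ring
  have hr := S.cht.pos
  have he := S.ok.e
  have hlo := S.lo
  have hhi := S.hi
  have hb : InB q.p q.d r (q.p + q.d * (s * Complex.I)) := by
    constructor
    · rw [hc]
      simp [hr.le]
    · rw [hc]
      simp only [Complex.mul_im, Complex.ofReal_re, Complex.I_im, mul_one, Complex.ofReal_im,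
        Complex.I_re, mul_zero, add_zero]
      exact abs_le.2 ⟨by linarith [hs.1], by linarith [hs.2]⟩
  have h1 : q.ht ⟨_, S.cht.sub _ hb⟩ = s := by
    change (co q.p q.d (q.p + q.d * (s * Complex.I))).im = s
    rw [hc]
    simp
  refine ⟨⟨_, S.cht.sub _ hb⟩, ⟨?_, by rw [h1]; exact hs⟩, h1⟩
  change (co q.p q.d (q.p + q.d * (s * Complex.I))).re = 0
  rw [hc]
  simp

lemma t9ret_co (p d : ℂ) : Continuous fun z : ℍ => co p d z :=
  (continuous_co p d).comp UpperHalfPlane.continuous_coe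

lemma Bx.continuous_ht (q : Bx) : Continuous q.ht :=
  Complex.continuous_im.comp (t9ret_co q.p q.d)

lemma t9ret_mono {p d z : ℂ} {r r' : ℝ} (h : InB p d r z) (hr : r ≤ r') : InB p d r' z :=
  ⟨h.1.trans hr, h.2.trans hr⟩

lemma t9ret_inB (S : Sec Γ K Φ V q r) (hx : x ∈ q.ln) : InB q.p q.d r x :=
  t9ret_mono (S.inB hx) (by linarith [S.cht.pos])

lemma Sec.isCompact_ln (S : Sec Γ K Φ V q r) : IsCompact q.ln := by
  have h1 : IsCompact ((fun z : ℍ => (z : ℂ)) ⁻¹' {z : ℂ | InB q.p q.d r z}) := by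
    rw [UpperHalfPlane.isEmbedding_coe.isInducing.isCompact_preimage_iff]
    · exact isCompact_InB S.ok.ne q.p r
    · intro z hz
      exact ⟨⟨z, S.cht.sub z hz⟩, rfl⟩
  refine h1.of_isClosed_subset ?_ fun z hz => t9ret_inB S hz
  exact (isClosed_eq (Complex.continuous_re.comp (t9ret_co q.p q.d)) continuous_const).inter
    (isClosed_Icc.preimage q.continuous_ht)

lemma Sec.dist_le (S : Sec Γ K Φ V q r) : ∃ C : ℝ, 0 < C ∧ ∀ x ∈ q.ln, ∀ y ∈ q.ln,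
    dist x y ≤ C * |q.ht x - q.ht y| := by
  obtain ⟨ρ, hρ⟩ := S.isCompact_ln.isBounded.subset_closedBall I
  obtain ⟨C, hC, h⟩ := KB_cmp ρ
  have hd : 0 < ‖q.d‖ := norm_pos_iff.2 S.ok.ne
  refine ⟨C * ‖q.d‖, by positivity, fun x hx y hy => ?_⟩
  have h1 := (h x y (hρ hx) (hρ hy)).1
  have h2 : (x : ℂ) - y = q.d * ((q.ht x - q.ht y : ℝ) * Complex.I) := by
    have h3 : co q.p q.d x - co q.p q.d y = (q.ht x - q.ht y : ℝ) * Complex.I := by
      apply Complex.ext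
      · simp [hx.1, hy.1]
      · simp [Bx.ht]
    rw [← h3, co_sub, mul_div_cancel₀ _ S.ok.ne]
  rw [h2, norm_mul, norm_mul, Complex.norm_I, mul_one, Complex.norm_real, Real.norm_eq_abs] at h1
  linarith

/-- Points of the transversal stay in the box for a short time. -/
lemma t9ret_box (A : Lam Γ K Φ V) (S : Sec Γ K Φ V q r) (hx : x ∈ K ∩ q.ln) {u : ℝ}
    (hu : |u| ≤ r / 2) : InB q.p q.d r (Φ u x) := by
  have hr := S.cht.pos
  have h := S.cht.move A hx.1 (t9ret_inB S hx.2) (s := 0) (t := u) (by rw [abs_zero]; linarith)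
    (by linarith)
  rw [A.zero x hx.1, sub_zero] at h
  have h1 := (Complex.abs_re_le_norm _).trans h
  have h2 := (Complex.abs_im_le_norm _).trans h
  have h3 := (S.inB hx.2).2
  simp only [Complex.sub_re, Complex.ofReal_re, hx.2.1, sub_zero, Complex.sub_im,
    Complex.ofReal_im] at h1 h2
  rw [abs_le] at h1 h2 h3
  have h4 := abs_le.1 hu
  have h5 := le_abs_self u
  have h6 := neg_abs_le u
  exact ⟨abs_le.2 ⟨by linarith, by linarith⟩, abs_le.2 ⟨by linarith, by linarith⟩⟩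

lemma t9ret_sep0 (A : Lam Γ K Φ V) (S : Sec Γ K Φ V q r) (hx : x ∈ K ∩ q.ln) {u : ℝ}
    (hu : |u| ≤ r / 2) {γ : Γ} (h : γ • Φ u x ∈ q.ln) : u = 0 := by
  have hr := S.cht.pos
  have h1 : γ = 1 := S.dis γ _ (t9ret_box A S hx hu) (t9ret_inB S h)
  rw [h1, one_smul] at h
  refine S.cht.time_eq A hx.1 (t9ret_inB S hx.2) (by linarith) (by rw [abs_zero]; linarith) ?_
  rw [A.zero x hx.1, h.1, hx.2.1]

lemma t9ret_uniq (S : Sec Γ K Φ V q r) {γ δ : Γ} {z : ℍ} (h1 : γ • z ∈ q.ln)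
    (h2 : δ • z ∈ q.ln) : γ = δ := by
  have h := S.dis (δ * γ⁻¹) (γ • z) (t9ret_inB S h1)
    (by rw [mul_smul, inv_smul_smul]; exact t9ret_inB S h2)
  exact (mul_inv_eq_one.1 h).symm

lemma t9ret_flow (A : Lam Γ K Φ V) (hx : x ∈ K) (γ : Γ) (s t : ℝ) :
    Φ t (γ • Φ s x) = γ • Φ (t + s) x := by
  rw [A.comm t γ _ (A.map s x hx), A.add t s x hx]

/-- Two hits are far apart. -/
lemma t9ret_sep (A : Lam Γ K Φ V) (S : Sec Γ K Φ V q r) (hx : x ∈ K) {s t : ℝ} {γ δ : Γ}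
    (h1 : γ • Φ s x ∈ q.ln) (h2 : δ • Φ t x ∈ q.ln) (h : |t - s| ≤ r / 2) : t = s := by
  have hy : γ • Φ s x ∈ K ∩ q.ln := ⟨A.smul γ _ (A.map s x hx), h1⟩
  have h3 := t9ret_sep0 A S hy h (γ := δ * γ⁻¹)
    (by rw [t9ret_flow A hx, mul_smul, inv_smul_smul, sub_add_cancel]; exact h2)
  linarith

lemma t9ret_supp (S : Sec Γ K Φ V q r) {z : ℂ} (hz : z ∈ q.supp) : InB q.p q.d r z := by
  have hr := S.cht.pos
  have he := S.ok.e
  have hw := S.ok.w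
  have hlo := S.lo
  have hhi := S.hi
  have hwr := S.wr
  exact ⟨hz.1.trans (by linarith), abs_le.2 ⟨by linarith [hz.2.1], by linarith [hz.2.2]⟩⟩

/-- Points of the box hit the transversal. -/
lemma t9ret_hit (A : Lam Γ K Φ V) (S : Sec Γ K Φ V q r) (hx : x ∈ K) (hs : (x : ℂ) ∈ q.supp) :
    ∃ t, |t| ≤ 10 / 9 * |(co q.p q.d x).re| ∧ Φ t x ∈ q.ln ∧
      |q.ht (Φ t x) - q.ht x| ≤ |(co q.p q.d x).re| / 9 := by
  have hr := S.cht.pos
  have he := S.ok.e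
  have hw := S.ok.w
  have hwe := S.we
  have hwr := S.wr
  have h0 : |0 - (co q.p q.d x).re| = |(co q.p q.d x).re| := by rw [zero_sub, abs_neg]
  obtain ⟨t, h1, h2, h3⟩ := S.cht.hit A hx (t9ret_supp S hs) (X := 0)
    (by rw [h0]; linarith [hs.1])
  rw [h0] at h1 h3
  refine ⟨t, h1, ⟨h2, ?_⟩, h3⟩
  have h4 := abs_le.1 h3
  have h5 := hs.1
  have h6 := hs.2.1
  have h7 := hs.2.2
  exact Set.Ioo_subset_Icc_self (S.gap _ (A.map t x hx) h2
    ⟨by unfold Bx.ht; linarith, by unfold Bx.ht; linarith⟩)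

/-- Hits near a given point of the transversal within bounded time. -/
lemma t9ret_rec (F : Deck Γ) (A : Aper Γ K Φ V) (S : Sec Γ K Φ V q r) (hy : y ∈ K ∩ q.ln)
    {ε : ℝ} (hε : 0 < ε) : ∃ T : ℝ, ∀ x ∈ K, ∃ t ∈ Set.Ioc 0 T, ∃ γ : Γ, γ • Φ t x ∈ q.ln ∧
      |q.ht (γ • Φ t x) - q.ht y| < ε := by
  have hr := S.cht.pos
  have he := S.ok.e
  have hw := S.ok.w
  have hwr := S.wr
  have hO : IsOpen {z : ℍ | |(co q.p q.d z).re| < min q.w ε ∧ |q.ht z - q.ht y| < min q.e (ε / 2)} :=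
    (isOpen_lt (Complex.continuous_re.comp (t9ret_co q.p q.d)).abs continuous_const).inter
      (isOpen_lt (q.continuous_ht.sub continuous_const).abs continuous_const)
  obtain ⟨T₀, -, hT⟩ := A.recur F hO ⟨y, ⟨by rw [hy.2.1, abs_zero]; exact lt_min hw hε,
    by rw [sub_self, abs_zero]; exact lt_min he (by linarith)⟩, hy.1⟩
  refine ⟨T₀ + 2 * r, fun x hx => ?_⟩
  obtain ⟨t, ht, γ, h1, h2⟩ := hT _ (A.map r x hx)
  rw [← A.add t r x hx] at h1 h2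
  have h3 := lt_min_iff.1 h1
  have h4 := lt_min_iff.1 h2
  have h5 := abs_lt.1 h4.1
  have hz : γ • Φ (t + r) x ∈ K := A.smul γ _ (A.map _ x hx)
  have hs : ((γ • Φ (t + r) x : ℍ) : ℂ) ∈ q.supp := by
    have h6 := hy.2.2.1
    have h7 := hy.2.2.2
    unfold Bx.ht at h5 h6 h7
    exact ⟨by linarith [h3.1], by linarith, by linarith⟩
  obtain ⟨s, h6, h7, h8⟩ := t9ret_hit A.toLam S hz hs
  rw [t9ret_flow A.toLam hx] at h7 h8
  have h9 := abs_le.1 (h6.trans (mul_le_mul_of_nonneg_left h3.1.le (by norm_num)))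
  refine ⟨s + (t + r), ⟨by linarith [ht.1], by linarith [ht.2]⟩, γ, h7, ?_⟩
  calc _ ≤ |q.ht (γ • Φ (s + (t + r)) x) - q.ht (γ • Φ (t + r) x)| +
        |q.ht (γ • Φ (t + r) x) - q.ht y| := abs_sub_le _ _ _
    _ < ε := by linarith [h3.2, h4.2]

/-- The first hit. -/
lemma t9ret_first (F : Deck Γ) (A : Aper Γ K Φ V) (S : Sec Γ K Φ V q r) :
    ∃ T : ℝ, ∀ x ∈ K ∩ q.ln, ∃ s ∈ Set.Icc (r / 2) T, ∃ γ : Γ, γ • Φ s x ∈ q.ln ∧
      ∀ t ∈ Set.Ioo 0 s, ∀ δ : Γ, δ • Φ t x ∉ q.ln := by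
  have hr := S.cht.pos
  obtain ⟨y, hy⟩ := S.ne
  obtain ⟨T, hT⟩ := t9ret_rec F A S hy one_pos
  refine ⟨T, fun x hx => ?_⟩
  obtain ⟨t₀, ht₀, γ₀, h₀, -⟩ := hT x hx.1
  set H : Set ℝ := {t | 0 < t ∧ ∃ γ : Γ, γ • Φ t x ∈ q.ln} with hH
  have hne : H.Nonempty := ⟨t₀, ht₀.1, γ₀, h₀⟩
  have hbd : BddBelow H := ⟨0, fun t ht => ht.1.le⟩
  obtain ⟨s, hs, hlt⟩ := exists_lt_of_csInf_lt hne (lt_add_of_pos_right (sInf H) (half_pos hr))
  obtain ⟨hs0, γ, hγ⟩ := hs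
  have hmin : ∀ t ∈ H, s ≤ t := by
    intro t ht
    by_contra hc
    obtain ⟨δ, hδ⟩ := ht.2
    have h1 := csInf_le hbd ht
    have h2 := t9ret_sep A.toLam S hx.1 hγ hδ (abs_le.2 ⟨by linarith, by linarith⟩)
    linarith
  refine ⟨s, ⟨?_, (hmin t₀ ⟨ht₀.1, γ₀, h₀⟩).trans ht₀.2⟩, γ, hγ, fun t ht δ hδ => ?_⟩
  · by_contra hc
    have h1 := t9ret_sep0 A.toLam S hx (abs_le.2 ⟨by linarith, by linarith⟩) hγ
    linarith
  · linarith [hmin t ⟨ht.1, δ, hδ⟩, ht.2]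

lemma t9ret_cont (A : Lam Γ K Φ V) (hx : x ∈ K) (t : ℝ) : ContinuousWithinAt (Φ t) K x := by
  have h1 : ContinuousWithinAt (fun z : ℍ => ((t, z) : ℝ × ℍ)) K x :=
    (continuous_const.prodMk continuous_id).continuousWithinAt
  exact ContinuousWithinAt.comp (f := fun z : ℍ => ((t, z) : ℝ × ℍ))
    (A.cont (t, x) ⟨trivial, hx⟩) h1 fun z hz => ⟨trivial, hz⟩

/-- Stability of the first hit. -/
lemma t9ret_near (F : Deck Γ) (A : Lam Γ K Φ V) (S : Sec Γ K Φ V q r) {σ : ℍ → ℝ} {c : ℍ → Γ}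
    (h1 : ∀ x ∈ K ∩ q.ln, r / 2 ≤ σ x) (h2 : ∀ x ∈ K ∩ q.ln, c x • Φ (σ x) x ∈ q.ln)
    (h3 : ∀ x ∈ K ∩ q.ln, ∀ t ∈ Set.Ioo 0 (σ x), ∀ δ : Γ, δ • Φ t x ∉ q.ln)
    (hx : x ∈ K ∩ q.ln) {η : ℝ} (hη : 0 < η) :
    ∀ᶠ y in 𝓝[K ∩ q.ln] x, c y = c x ∧ |σ y - σ x| < η := by
  have hr := S.cht.pos
  have he := S.ok.e
  have hw := S.ok.w
  have hwr := S.wr
  have hC := F.isClosed_sat S.isCompact_ln
  have e1 : ∀ᶠ y in 𝓝 x, ∀ t ∈ Set.Icc (r / 2) (σ x - r / 4),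
      y ∈ K → ¬∃ γ : Γ, γ • Φ t y ∈ q.ln := by
    refine isCompact_Icc.eventually_forall_of_forall_eventually fun t ht => ?_
    have h4 : Φ t x ∈ {z : ℍ | ∃ γ : Γ, γ • z ∈ q.ln}ᶜ := fun ⟨γ, hγ⟩ =>
      h3 x hx t ⟨by linarith [ht.1], by linarith [ht.2]⟩ γ hγ
    have h5 := (A.cont (t, x) ⟨trivial, hx.1⟩).eventually (hC.isOpen_compl.mem_nhds h4)
    rw [eventually_nhdsWithin_iff] at h5
    have h6 : Tendsto (fun p : ℍ × ℝ => (p.2, p.1)) (𝓝 (x, t)) (𝓝 (t, x)) :=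
      continuous_swap.continuousAt
    exact (h6.eventually h5).mono fun p hp hK => hp ⟨trivial, hK⟩
  have hO : IsOpen {z : ℍ | |(co q.p q.d z).re| < min q.w (η / 2) ∧ q.ht z ∈ Set.Ioo q.a q.b} :=
    (isOpen_lt (Complex.continuous_re.comp (t9ret_co q.p q.d)).abs continuous_const).inter
      (isOpen_Ioo.preimage q.continuous_ht)
  have e2 : ∀ᶠ y in 𝓝[K] x, c x • Φ (σ x) y ∈
      {z : ℍ | |(co q.p q.d z).re| < min q.w (η / 2) ∧ q.ht z ∈ Set.Ioo q.a q.b} := by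
    have h4 : ContinuousWithinAt (fun y => c x • Φ (σ x) y) K x :=
      (F.cont (c x)).continuousAt.comp_continuousWithinAt (t9ret_cont A hx.1 (σ x))
    refine h4.eventually (hO.mem_nhds ⟨?_, S.ht_mem ⟨A.smul _ _ (A.map _ _ hx.1), h2 x hx⟩⟩)
    rw [(h2 x hx).1, abs_zero]
    exact lt_min hw (half_pos hη)
  filter_upwards [mem_nhdsWithin_of_mem_nhds e1, nhdsWithin_mono x Set.inter_subset_left e2,
    self_mem_nhdsWithin] with y hy1 hy2 hy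
  have h4 := lt_min_iff.1 hy2.1
  have hs : ((c x • Φ (σ x) y : ℍ) : ℂ) ∈ q.supp := by
    have h6 := hy2.2.1
    have h7 := hy2.2.2
    unfold Bx.ht at h6 h7
    exact ⟨by linarith [h4.1], by linarith, by linarith⟩
  obtain ⟨s, h5, h6, -⟩ := t9ret_hit A S (A.smul _ _ (A.map _ _ hy.1)) hs
  rw [t9ret_flow A hy.1] at h6
  have h7 := abs_le.1 (h5.trans (mul_le_mul_of_nonneg_left h4.1.le (by norm_num)))
  have h8 := h5.trans (mul_le_mul_of_nonneg_left h4.2.le (by norm_num))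
  have h9 := h1 x hx
  have h10 : σ y ≤ s + σ x := by
    by_contra hc
    exact h3 y hy (s + σ x) ⟨by linarith, not_le.1 hc⟩ _ h6
  have h11 : σ x - r / 4 < σ y := by
    by_contra hc
    exact hy1 (σ y) ⟨h1 y hy, not_lt.1 hc⟩ hy.1 ⟨_, h2 y hy⟩
  have h12 : σ y = s + σ x :=
    t9ret_sep A S hy.1 h6 (h2 y hy) (abs_le.2 ⟨by linarith, by linarith⟩)
  refine ⟨t9ret_uniq S (h2 y hy) (by rw [h12]; exact h6), ?_⟩
  rw [h12, add_sub_cancel_right]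
  linarith

lemma t9ret_contφ (A : Lam Γ K Φ V) (hx : x ∈ K) {φ : ℂ → ℝ} (hφ : ContinuousOn φ HP) :
    Continuous fun t => φ (Φ t x) :=
  hφ.comp_continuous (UpperHalfPlane.continuous_coe.comp (A.continuous hx))
    fun t => (Φ t x).im_pos

lemma t9ret_split (F : Deck Γ) (A : Lam Γ K Φ V) (S : Sec Γ K Φ V q r) (hx : x ∈ K ∩ q.ln)
    {T : ℝ} {γ : Γ} (h1 : r / 2 ≤ T) (h2 : γ • Φ T x ∈ q.ln)
    (h3 : ∀ t ∈ Set.Ioo 0 T, ∀ δ : Γ, δ • Φ t x ∉ q.ln) (j : Fin 4) :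
    ∫ t in (0 : ℝ)..T, fam Γ q j (Φ t x) = (∫ t in (0 : ℝ)..3 * q.w, q.fn j (Φ t x)) +
      ∫ t in -(3 * q.w)..0, q.fn j (Φ t (γ • Φ T x)) := by
  have hr := S.cht.pos
  have hw := S.ok.w
  have hwr := S.wr
  have hc := t9ret_contφ A hx.1 (S.ok.pot F j).smooth.continuousOn
  have hy : γ • Φ T x ∈ K ∩ q.ln := ⟨A.smul _ _ (A.map _ _ hx.1), h2⟩
  have i1 : ∫ t in (0 : ℝ)..3 * q.w, fam Γ q j (Φ t x) =
      ∫ t in (0 : ℝ)..3 * q.w, q.fn j (Φ t x) := by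
    refine intervalIntegral.integral_congr fun t ht => ?_
    rw [Set.uIcc_of_le (by linarith)] at ht
    have h4 := S.ok.fam_eq j (δ := (1 : Γ)) (z := Φ t x) fun δ hδ =>
      S.dis δ _ (t9ret_box A S hx (abs_le.2 ⟨by linarith [ht.1], by linarith [ht.2]⟩))
        (t9ret_supp S hδ)
    rw [one_smul] at h4
    exact h4
  have i2 : ∫ t in (3 * q.w)..(T - 3 * q.w), fam Γ q j (Φ t x) = 0 := by
    rw [← intervalIntegral.integral_zero (a := 3 * q.w) (b := T - 3 * q.w) (μ := volume)]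
    refine intervalIntegral.integral_congr fun t ht => ?_
    rw [Set.uIcc_of_le (by linarith)] at ht
    have h4 : ∀ δ : Γ, ((δ • Φ t x : ℍ) : ℂ) ∉ q.supp := by
      intro δ hδ
      obtain ⟨s, h5, h6, -⟩ := t9ret_hit A S (A.smul _ _ (A.map _ _ hx.1)) hδ
      rw [t9ret_flow A hx.1] at h6
      have h7 := abs_le.1 (h5.trans (mul_le_mul_of_nonneg_left hδ.1 (by norm_num)))
      exact h3 (s + t) ⟨by linarith [ht.1], by linarith [ht.2]⟩ δ h6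
    exact (S.ok.fam_eq j (δ := (1 : Γ)) fun δ hδ => absurd hδ (h4 δ)).trans
      (S.ok.fn_zero j (h4 1))
  have i3 : ∫ t in (T - 3 * q.w)..T, fam Γ q j (Φ t x) =
      ∫ t in -(3 * q.w)..0, q.fn j (Φ t (γ • Φ T x)) := by
    have h4 := intervalIntegral.integral_comp_add_right (a := -(3 * q.w)) (b := 0)
      (fun t => fam Γ q j (Φ t x)) T
    rw [zero_add, neg_add_eq_sub] at h4
    rw [← h4]
    refine intervalIntegral.integral_congr fun t ht => ?_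
    rw [Set.uIcc_of_le (by linarith)] at ht
    have h5 := t9ret_box A S hy (u := t) (abs_le.2 ⟨by linarith [ht.1], by linarith [ht.2]⟩)
    rw [t9ret_flow A hx.1] at h5
    simp only [t9ret_flow A hx.1]
    refine S.ok.fam_eq j fun δ hδ => ?_
    have h6 := S.dis (δ * γ⁻¹) _ h5 (by rw [mul_smul, inv_smul_smul]; exact t9ret_supp S hδ)
    exact mul_inv_eq_one.1 h6
  rw [← intervalIntegral.integral_add_adjacent_intervals (hc.intervalIntegrable 0 (3 * q.w))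
      (hc.intervalIntegrable _ T),
    ← intervalIntegral.integral_add_adjacent_intervals
      (hc.intervalIntegrable (3 * q.w) (T - 3 * q.w)) (hc.intervalIntegrable _ T), i1, i2, i3,
    zero_add]

theorem Sec.exists_ret (F : Deck Γ) (A : Aper Γ K Φ V) (S : Sec Γ K Φ V q r) :
    ∃ (τ : ℍ → ℝ) (g : ℍ → Γ) (R : ℍ → ℍ) (τ₁ τ₂ ε₁ : ℝ), Ret K Φ q τ g R τ₁ τ₂ ε₁ := by
  have hr := S.cht.pos
  obtain ⟨T, hT⟩ := t9ret_first F A S
  choose! σ h1 c h2 h3 using hT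
  have hn : ∀ x ∈ K ∩ q.ln, ∀ η : ℝ, 0 < η →
      ∀ᶠ y in 𝓝[K ∩ q.ln] x, c y = c x ∧ |σ y - σ x| < η := fun x hx η hη =>
    t9ret_near F A.toLam S (fun x hx => (h1 x hx).1) h2 h3 hx hη
  have hσ : ContinuousOn σ (K ∩ q.ln) := fun x hx =>
    Metric.tendsto_nhds.2 fun η hη => (hn x hx η hη).mono fun y hy => hy.2
  have hX : IsCompact (K ∩ q.ln) := S.isCompact_ln.inter_left A.closed
  have hb : ∀ x : (K ∩ q.ln : Set ℍ), ∃ δ : ℝ, 0 < δ ∧ ∀ y ∈ K ∩ q.ln, y ∈ Metric.ball x.1 δ →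
      c y = c x := by
    intro x
    obtain ⟨δ, hδ, h⟩ := Metric.mem_nhdsWithin_iff.1 (hn x x.2 1 one_pos)
    exact ⟨δ, hδ, fun y hy hy' => (h ⟨hy', hy⟩).1⟩
  choose δ hδ hb using hb
  obtain ⟨η, hη, hl⟩ := lebesgue_number_lemma_of_metric hX
    (c := fun x : (K ∩ q.ln : Set ℍ) => Metric.ball x.1 (δ x)) (fun _ => Metric.isOpen_ball)
    fun x hx => Set.mem_iUnion.2 ⟨⟨x, hx⟩, Metric.mem_ball_self (hδ _)⟩
  obtain ⟨C, hC, hd⟩ := S.dist_le
  refine ⟨σ, fun x => (c x)⁻¹, fun x => c x • Φ (σ x) x, r / 2, T, η / (2 * C), half_pos hr,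
    by positivity, fun x hx => ⟨A.smul _ _ (A.map _ _ hx.1), h2 x hx⟩, fun x hx => ?_,
    fun x _ => by rw [inv_smul_smul], h1, h3, fun x hx y hy h => ?_,
    fun x hx j => t9ret_split F A.toLam S hx (h1 x hx).1 (h2 x hx) (h3 x hx) j⟩
  · have h4 : ContinuousWithinAt (fun y : ℍ => ((σ y, y) : ℝ × ℍ)) (K ∩ q.ln) x :=
      (hσ x hx).prodMk continuousWithinAt_id
    have h5 : ContinuousWithinAt (fun y : ℍ => Φ (σ y) y) (K ∩ q.ln) x :=
      ContinuousWithinAt.comp (f := fun y : ℍ => ((σ y, y) : ℝ × ℍ))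
        (A.toLam.cont (σ x, x) ⟨trivial, hx.1⟩) h4 fun z hz => ⟨trivial, hz.1⟩
    refine ((F.cont (c x)).continuousAt.comp_continuousWithinAt h5).congr_of_eventuallyEq ?_ rfl
    exact (hn x hx 1 one_pos).mono fun y hy => by simp only [Function.comp, hy.1]
  · obtain ⟨i, hi⟩ := hl x hx
    have h4 : dist y x < η := by
      rw [dist_comm]
      calc dist x y ≤ C * (η / (2 * C)) :=
            (hd x hx.2 y hy.2).trans (mul_le_mul_of_nonneg_left h hC.le)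
        _ = η / 2 := by field_simp
        _ < η := half_lt_self hη
    simp only [hb i x hx (hi (Metric.mem_ball_self hη)), hb i y hy (hi h4)]

lemma Ret.iter (H : Ret K Φ q τ g R τ₁ τ₂ ε₁) (hx : x ∈ K ∩ q.ln) (k : ℕ) :
    R^[k] x ∈ K ∩ q.ln := by
  induction k with
  | zero => exact hx
  | succ k ih =>
    rw [Function.iterate_succ_apply']
    exact H.map _ ih

lemma tk_succ (τ : ℍ → ℝ) (R : ℍ → ℍ) (x : ℍ) (k : ℕ) :
    tk τ R x (k + 1) = tk τ R x k + τ (R^[k] x) :=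
  Finset.sum_range_succ _ _

lemma t9ret_tk0 (τ : ℍ → ℝ) (R : ℍ → ℍ) (x : ℍ) : tk τ R x 0 = 0 := rfl

lemma Ret.flow (A : Lam Γ K Φ V) (H : Ret K Φ q τ g R τ₁ τ₂ ε₁) (hx : x ∈ K ∩ q.ln) (k : ℕ) :
    Φ (tk τ R x k) x = Gk g R x k • R^[k] x := by
  induction k with
  | zero =>
    rw [t9ret_tk0, A.zero x hx.1]
    exact (one_smul _ _).symm
  | succ k ih =>
    rw [tk_succ, add_comm, A.add _ _ x hx.1, ih, A.comm _ _ _ (H.iter hx k).1,
      H.hit _ (H.iter hx k), Function.iterate_succ_apply', Gk, mul_smul]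

lemma Ret.tk_bd (H : Ret K Φ q τ g R τ₁ τ₂ ε₁) (hx : x ∈ K ∩ q.ln) (k : ℕ) :
    k * τ₁ ≤ tk τ R x k ∧ tk τ R x k ≤ k * τ₂ := by
  induction k with
  | zero => simp [t9ret_tk0]
  | succ k ih =>
    have h := H.bd _ (H.iter hx k)
    rw [tk_succ]
    push_cast
    exact ⟨by linarith [ih.1, h.1], by linarith [ih.2, h.2]⟩

lemma t9ret_shift (A : Lam Γ K Φ V) (H : Ret K Φ q τ g R τ₁ τ₂ ε₁) (hx : x ∈ K ∩ q.ln) (k : ℕ)
    (t : ℝ) : Φ (t + tk τ R x k) x = Gk g R x k • Φ t (R^[k] x) := by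
  rw [A.add _ _ x hx.1, H.flow A hx k, A.comm _ _ _ (H.iter hx k).1]

lemma Ret.inj (F : Deck Γ) (A : Aper Γ K Φ V) (H : Ret K Φ q τ g R τ₁ τ₂ ε₁) (hx : x ∈ K ∩ q.ln)
    {i j : ℕ} (h : R^[i] x = R^[j] x) : i = j := by
  have hm : StrictMono (tk τ R x) := strictMono_nat_of_lt_succ fun k => by
    rw [tk_succ]
    linarith [(H.bd _ (H.iter hx k)).1, H.lo]
  have h1 := t9ret_shift A.toLam H hx i (tk τ R x j - tk τ R x i)
  rw [sub_add_cancel, H.flow A.toLam hx j, ← h] at h1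
  have h2 := A.aper _ (H.iter hx i).1 (tk τ R x j - tk τ R x i)
    ((Gk g R x i)⁻¹ * Gk g R x j) (by rw [mul_smul, h1, inv_smul_smul])
  have _ := F
  exact hm.injective (by linarith)

/-- Every hit is a return. -/
lemma t9ret_all (A : Lam Γ K Φ V) (S : Sec Γ K Φ V q r) (H : Ret K Φ q τ g R τ₁ τ₂ ε₁)
    (hx : x ∈ K ∩ q.ln) {s : ℝ} (hs : 0 ≤ s) {γ : Γ} (h : γ • Φ s x ∈ q.ln) :
    ∃ j : ℕ, tk τ R x j = s ∧ R^[j] x = γ • Φ s x := by
  classical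
  have hex : ∃ k : ℕ, s < tk τ R x (k + 1) := by
    obtain ⟨k, hk⟩ := exists_nat_gt (s / τ₁)
    refine ⟨k, lt_of_lt_of_le ?_ (H.tk_bd hx (k + 1)).1⟩
    rw [div_lt_iff₀ H.lo] at hk
    push_cast
    linarith [H.lo]
  have h1 := Nat.find_spec hex
  have h2 : tk τ R x (Nat.find hex) ≤ s := by
    rcases Nat.eq_zero_or_eq_succ_pred (Nat.find hex) with h3 | h3
    · rw [h3]
      exact hs
    · rw [h3]
      exact not_lt.1 (Nat.find_min hex (by omega))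
  generalize Nat.find hex = j at h1 h2
  have h3 := t9ret_shift A H hx j (s - tk τ R x j)
  rw [sub_add_cancel] at h3
  have h4 : s - tk τ R x j = 0 := by
    by_contra hc
    rw [tk_succ] at h1
    refine H.first _ (H.iter hx j) (s - tk τ R x j)
      ⟨lt_of_le_of_ne (by linarith) (Ne.symm hc), by linarith⟩ (γ * Gk g R x j) ?_
    rw [mul_smul, ← h3]
    exact h
  rw [h4, A.zero _ (H.iter hx j).1] at h3
  refine ⟨j, by linarith, ?_⟩
  have h5 : γ = (Gk g R x j)⁻¹ :=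
    t9ret_uniq S h (by rw [h3, inv_smul_smul]; exact (H.iter hx j).2)
  rw [h5, h3, inv_smul_smul]

/-- Bounded return times to a neighbourhood of a point of the transversal. -/
lemma Ret.recur (F : Deck Γ) (A : Aper Γ K Φ V) (S : Sec Γ K Φ V q r)
    (H : Ret K Φ q τ g R τ₁ τ₂ ε₁) (hy : y ∈ K ∩ q.ln) {ε : ℝ} (hε : 0 < ε) :
    ∃ P : ℕ, ∀ x ∈ K ∩ q.ln, ∃ j ≤ P, |q.ht (R^[j] x) - q.ht y| < ε := by
  obtain ⟨T, hT⟩ := t9ret_rec F A S hy hε
  obtain ⟨P, hP⟩ := exists_nat_ge (T / τ₁)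
  refine ⟨P, fun x hx => ?_⟩
  obtain ⟨t, ht, γ, h1, h2⟩ := hT x hx.1
  obtain ⟨j, h3, h4⟩ := t9ret_all A.toLam S H hx ht.1.le h1
  refine ⟨j, ?_, by rw [h4]; exact h2⟩
  have h5 : (j : ℝ) ≤ T / τ₁ := by
    rw [le_div_iff₀ H.lo]
    linarith [(H.tk_bd hx j).1, ht.2]
  exact_mod_cast h5.trans hP

/-- The integral of an invariant function along `N` returns. -/
lemma Ret.integral (A : Lam Γ K Φ V) (H : Ret K Φ q τ g R τ₁ τ₂ ε₁) (hx : x ∈ K ∩ q.ln)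
    {φ : ℂ → ℝ} (hφ : C2 Γ φ) (N : ℕ) : ∫ t in (0 : ℝ)..tk τ R x N, φ (Φ t x) =
      ∑ k ∈ Finset.range N, ∫ t in (0 : ℝ)..τ (R^[k] x), φ (Φ t (R^[k] x)) := by
  have hc := t9ret_contφ A hx.1 hφ.1.continuousOn
  induction N with
  | zero => simp [t9ret_tk0]
  | succ N ih =>
    have h1 := intervalIntegral.integral_comp_add_right (a := 0) (b := τ (R^[N] x))
      (fun t => φ (Φ t x)) (tk τ R x N)
    simp only [t9ret_shift A H hx N, hφ.2] at h1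
    rw [Finset.sum_range_succ, ← ih, h1, zero_add, tk_succ, add_comm (τ _),
      intervalIntegral.integral_add_adjacent_intervals (hc.intervalIntegrable _ _)
        (hc.intervalIntegrable _ _)]

end Pool.Agent.Lib.MP_5bb885_an.Gen
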