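import Pool.Agent.Lib.MP_5bb885_an.T9Flux2
import Pool.Agent.Lib.MP_5bb885_an.T9Ret

/-!
The flux through the transversal counts visits.
-/

namespace Pool.Agent.Lib.MP_5bb885_an.Gen

open UpperHalfPlane MeasureTheory Filter Topology

variable {Γ : Type} [Group Γ] [MulAction Γ ℍ] {K : Set ℍ} {Φ : ℝ → ℍ → ℍ} {V : ℍ → ℂ} {q : Bx}
  {r τ₁ τ₂ ε₁ : ℝ} {τ : ℍ → ℝ} {g : ℍ → Γ} {R : ℍ → ℍ} {x u u' : ℍ}

lemma t9flux3_co {p d z w : ℂ} (hd : d ≠ 0) {a b : ℝ} (hab : a + b = 1) :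
    co p d (a • z + b • w) = a • co p d z + b • co p d w := by
  have e : (a : ℂ) + b = 1 := by exact_mod_cast hab
  simp only [co, Complex.real_smul]
  field_simp
  linear_combination p * e

lemma t9flux3_inj {p d z w : ℂ} (hd : d ≠ 0) (h : co p d z = co p d w) : z = w := by
  simp only [co] at h
  exact sub_left_injective ((div_left_inj' hd).1 h)

lemma t9flux3_inB (S : Sec Γ K Φ V q r) (hx : x ∈ q.ln) : InB q.p q.d r x := by
  have h := S.inB hx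
  have := S.cht.pos
  exact ⟨by linarith [h.1], by linarith [h.2]⟩

lemma t9flux3_move (A : Lam Γ K Φ V) (S : Sec Γ K Φ V q r) (hx : x ∈ K ∩ q.ln) {t : ℝ}
    (ht : |t| ≤ 10 * r) : |(co q.p q.d (Φ t x)).re - t| ≤ |t| / 10 := by
  have hr := S.cht.pos
  have h := S.cht.move A hx.1 (t9flux3_inB S hx.2) (s := 0) (t := t)
    (by rw [abs_zero]; positivity) ht
  rw [A.zero x hx.1, sub_zero] at h
  have h1 := (Complex.abs_re_le_norm _).trans h
  rwa [Complex.sub_re, Complex.sub_re, hx.2.1, sub_zero, Complex.ofReal_re] at h1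

lemma t9flux3_shift (A : Lam Γ K Φ V) (hx : x ∈ K) (γ : Γ) (s t : ℝ) :
    γ • Φ t x = Φ (t - s) (γ • Φ s x) := by
  rw [A.comm _ γ _ (A.map s x hx), ← A.add _ _ _ hx, sub_add_cancel]

lemma Sec.mem_segment (S : Sec Γ K Φ V q r) (hu : u ∈ q.ln) (hu' : u' ∈ q.ln)
    (h : q.ht u < q.ht u') (z : ℍ) :
    (z : ℂ) ∈ segment ℝ (u : ℂ) u' ↔ z ∈ q.ln ∧ q.ht z ∈ Set.Icc (q.ht u) (q.ht u') := by
  constructor
  · rintro ⟨a, b, ha, hb, hab, e⟩
    have e1 := t9flux3_co (p := q.p) (z := u) (w := u') S.ok.ne hab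
    rw [e] at e1
    have e2 : q.ht z = a * q.ht u + b * q.ht u' := by
      simp only [Bx.ht]
      rw [e1]
      simp
    have e3 : (co q.p q.d z).re = 0 := by
      rw [e1]
      simp [hu.1, hu'.1]
    have h4 : q.ht z ∈ Set.Icc (q.ht u) (q.ht u') := by
      rw [← segment_eq_Icc h.le]
      exact ⟨a, b, ha, hb, hab, by rw [e2]; rfl⟩
    exact ⟨⟨e3, hu.2.1.trans h4.1, h4.2.trans hu'.2.2⟩, h4⟩
  · rintro ⟨hz, h4⟩
    rw [← segment_eq_Icc h.le] at h4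
    obtain ⟨a, b, ha, hb, hab, e⟩ := h4
    refine ⟨a, b, ha, hb, hab, t9flux3_inj (p := q.p) S.ok.ne ?_⟩
    rw [t9flux3_co S.ok.ne hab]
    apply Complex.ext
    · simp [hu.1, hu'.1, hz.1]
    · simpa [Bx.ht] using e

open Classical in
lemma Ret.flux (F : Deck Γ) (A : Lam Γ K Φ V) (S : Sec Γ K Φ V q r) (H : Ret K Φ q τ g R τ₁ τ₂ ε₁)
    (hx : x ∈ K ∩ q.ln) (hu : u ∈ q.ln) (hu' : u' ∈ q.ln) (h1 : u ∉ K) (h2 : u' ∉ K)
    (h : q.ht u < q.ht u') (k : ℕ) :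
    flux Γ u u' (fun t => Φ t x) (tk τ R x k) (tk τ R x (k + 1)) =
      if q.ht (R^[k + 1] x) ∈ Set.Ioo (q.ht u) (q.ht u') then -1 else 0 := by
  have hr := S.cht.pos
  have hk := H.iter hx k
  have hk1 := H.iter hx (k + 1)
  have hτ : 0 < τ (R^[k] x) := H.lo.trans_le (H.bd _ hk).1
  have hst : tk τ R x k < tk τ R x (k + 1) := by rw [tk_succ]; linarith
  have hK : ∀ (γ : Γ) (t : ℝ), γ • Φ t x ∈ K := fun γ t => A.smul γ _ (A.map t x hx.1)
  have key : ∀ γ : Γ, cr u u' (fun t => γ • Φ t x) (tk τ R x k) (tk τ R x (k + 1)) =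
      if ((γ • Φ (tk τ R x (k + 1)) x : ℍ) : ℂ) ∈ segment ℝ (u : ℂ) u' then -1 else 0 := by
    intro γ
    refine cr_cross (x := fun t => γ • Φ t x) ((A.c1 hx.1).1.smul F γ) hst S.ok.ne hu.1 hu'.1 h
      (fun t e => h1 (UpperHalfPlane.ext e ▸ hK γ t))
      (fun t e => h2 (UpperHalfPlane.ext e ▸ hK γ t)) (fun t ht e => ?_) (fun e => ?_) (fun e => ?_)
    · have e1 := ((S.mem_segment hu hu' h _).1 e).1
      rw [t9flux3_shift A hx.1 γ (tk τ R x k) t, H.flow A hx k, smul_smul,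
        A.comm _ _ _ hk.1] at e1
      refine H.first _ hk (t - tk τ R x k) ⟨by linarith [ht.1], ?_⟩ _ e1
      have := ht.2
      rw [tk_succ] at this
      linarith
    · have e1 := ((S.mem_segment hu hu' h _).1 e).1
      filter_upwards [Ioo_mem_nhdsGT (show tk τ R x k < tk τ R x k + 10 * r by linarith)] with t ht
      have h3 : 0 < t - tk τ R x k := by linarith [ht.1]
      have h4 := t9flux3_move A S ⟨hK γ _, e1⟩ (t := t - tk τ R x k)
        (by rw [abs_of_pos h3]; linarith [ht.2])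
      rw [← t9flux3_shift A hx.1, abs_of_pos h3] at h4
      linarith [(abs_le.1 h4).1]
    · have e1 := ((S.mem_segment hu hu' h _).1 e).1
      filter_upwards [Ioo_mem_nhdsLT
        (show tk τ R x (k + 1) - 10 * r < tk τ R x (k + 1) by linarith)] with t ht
      have h3 : t - tk τ R x (k + 1) < 0 := by linarith [ht.2]
      have h4 := t9flux3_move A S ⟨hK γ _, e1⟩ (t := t - tk τ R x (k + 1))
        (by rw [abs_of_neg h3]; linarith [ht.1])
      rw [← t9flux3_shift A hx.1, abs_of_neg h3] at h4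
      linarith [(abs_le.1 h4).2]
  rw [Gen.flux, finsum_eq_single _ (Gk g R x (k + 1))⁻¹, key, H.flow A hx (k + 1), inv_smul_smul]
  · refine if_congr ?_ rfl rfl
    rw [S.mem_segment hu hu' h]
    refine ⟨fun e => ⟨lt_of_le_of_ne e.2.1 fun e' => h1 ?_, lt_of_le_of_ne e.2.2 fun e' => h2 ?_⟩,
      fun e => ⟨hk1.2, e.1.le, e.2.le⟩⟩
    · rw [S.ht_inj hu hk1.2 e']
      exact hk1.1
    · rw [← S.ht_inj hk1.2 hu' e']
      exact hk1.1
  · intro γ hγ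
    rw [key, if_neg]
    intro e
    have e1 := ((S.mem_segment hu hu' h _).1 e).1
    rw [H.flow A hx (k + 1), smul_smul] at e1
    exact hγ (eq_inv_of_mul_eq_one_left
      (S.dis _ _ (t9flux3_inB S hk1.2) (t9flux3_inB S e1)))

open Classical in
theorem Ret.exists_flux (F : Deck Γ) (ho : ∀ γ : Γ, Ori γ) (A : Aper Γ K Φ V)
    (S : Sec Γ K Φ V q r) (H : Ret K Φ q τ g R τ₁ τ₂ ε₁) (hx : x ∈ K ∩ q.ln) (l : Ultrafilter ℕ)
    (hl : (l : Filter ℕ) ≤ atTop) : ∃ (Θ : ℍ → ℝ) (b : Γ → ℝ),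
      b ∈ Coh Γ ∧ LC K Θ ∧ (∀ (γ : Γ) (z : ℍ), z ∉ K → Θ (γ • z) = Θ z + b γ) ∧
      ∀ u ∈ q.ln, ∀ u' ∈ q.ln, u ∉ K → u' ∉ K → q.ht u < q.ht u' →
        HasM l (fun k => if q.ht (R^[k] x) ∈ Set.Ioo (q.ht u) (q.ht u') then 1 else 0)
          (Θ u' - Θ u) := by
  obtain ⟨Θ, b, h1, h2, h3, h4⟩ := A.toLam.exists_pot F ho A.nuniv hx.1 l hl (t := tk τ R x)
    (τ₂ := τ₂) (fun k => by
      have := H.bd _ (H.iter hx k)
      rw [tk_succ]
      exact ⟨by linarith [this.1, H.lo], by linarith [this.2]⟩)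
  refine ⟨Θ, b, h1, h2, h3, fun u hu u' hu' a1 a2 a3 => ?_⟩
  have h5 := (h4 u u' a1 a2).const_mul (-1)
  rw [show -1 * (Θ u - Θ u') = Θ u' - Θ u by ring] at h5
  refine (HasM.shift hl (C := 1) (fun k => by split_ifs <;> simp) 1).1 ?_
  refine (congrArg (fun f => HasM l f (Θ u' - Θ u)) (funext fun k => ?_)).mp h5
  rw [H.flux F A.toLam S hx hu hu' a1 a2 a3 k]
  split_ifs <;> simp

end Pool.Agent.Lib.MP_5bb885_an.Gen
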