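import Pool.Agent.Lib.MP_5bb885_an.T9HL

/-!
From the internal good property to the property in the statement.
-/

namespace Pool.Agent.Lib.MP_5bb885_an.Gen

open UpperHalfPlane MeasureTheory Filter Topology

variable {Γ : Type} [Group Γ] [MulAction Γ ℍ] {L : ℂ × ℂ → ℝ} {c : Γ → ℝ} {x : ℝ → ℍ}

lemma t9good_bdd {f : ℝ → ℝ} {T : ℝ} (hT : 0 < T) (hf : Continuous f)
    (hp : ∀ t, f (t + T) = f t) : ∃ C, ∀ t, f t ≤ C := by
  obtain ⟨C, hC⟩ := (Function.Periodic.isBounded_of_continuous hp hT.ne' hf).bddAbove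
  exact ⟨C, fun t => hC ⟨t, rfl⟩⟩

lemma Hyp.hypPer (F : Deck Γ) (hL : Tonelli Γ L) (hx : Reg L x) (hH : Hyp L x) {γ : Γ} {T : ℝ}
    (hp : Per x γ T) (hv : ∀ t, vel x t ≠ 0) : HypPer Γ L x := by
  refine ⟨γ, T, hp.1, hp.2, hv, fun θ a b η ζ hη hζ eη eζ h1 h2 => ?_⟩
  have hvel : ∀ t, vel x (t + T) = dk γ (x t) (vel x t) := fun t => by
    rw [← vel_shift, ← F.vel_smul, show (fun s => x (s + T)) = fun s => γ • x s from funext hp.2]
  have hn : ∀ {ξ : ℝ → ℂ}, Jac L x ξ → Continuous (nrm x ξ) := fun {ξ} hξ =>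
    Complex.continuous_im.comp
      ((continuous_iff_continuousAt.2 fun t => (hξ t).1.continuousAt).div hx.contVel hv)
  have hs : sg γ ^ 2 = 1 := by rcases sg_cases γ with ⟨-, e⟩ | ⟨-, e⟩ <;> rw [e] <;> norm_num
  obtain ⟨C1, hC1⟩ := t9good_bdd (f := fun t => nrm x η t ^ 2 + nrm x ζ t ^ 2) hp.1
    (((hn hη).pow 2).add ((hn hζ).pow 2)) fun t => by
      have e1 : nrm x η (t + T) = sg γ * (Real.cos θ * nrm x η t - Real.sin θ * nrm x ζ t) := by
        rw [nrm, h1, hvel, (F.dk_div γ _ _ _).1, add_div, sub_div, smul_div_assoc, smul_div_assoc,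
          smul_div_assoc, div_self (hv t)]
        simp only [nrm, Complex.add_im, Complex.sub_im, Complex.smul_im, Complex.one_im,
          smul_eq_mul, mul_zero, add_zero]
      have e2 : nrm x ζ (t + T) = sg γ * (Real.sin θ * nrm x η t + Real.cos θ * nrm x ζ t) := by
        rw [nrm, h2, hvel, (F.dk_div γ _ _ _).1, add_div, add_div, smul_div_assoc, smul_div_assoc,
          smul_div_assoc, div_self (hv t)]
        simp only [nrm, Complex.add_im, Complex.sub_im, Complex.smul_im, Complex.one_im,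
          smul_eq_mul, mul_zero, add_zero]
      simp only [e1, e2]
      linear_combination ((Real.cos θ * nrm x η t - Real.sin θ * nrm x ζ t) ^ 2 +
        (Real.sin θ * nrm x η t + Real.cos θ * nrm x ζ t) ^ 2) * hs +
        (nrm x η t ^ 2 + nrm x ζ t ^ 2) * Real.cos_sq_add_sin_sq θ
  obtain ⟨C2, hC2⟩ := t9good_bdd (f := fun t => ‖vel x t‖ / (x t).im) hp.1
    (hx.contVel.norm.div (UpperHalfPlane.continuous_im.comp hx.continuous)
      fun t => (x t).im_ne_zero) fun t => by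
      simp only [hvel, hp.2, F.norm_dk]
  have key : ∀ ξ : ℝ → ℂ, (∀ t, nrm x ξ t ^ 2 ≤ C1) → Bdd x ξ := fun ξ hξ => by
    refine ⟨(1 + C1) * C2, fun t => ⟨tng x ξ t, ?_⟩⟩
    have e : ‖nu x ξ t‖ = |nrm x ξ t| * ‖vel x t‖ := norm_nu (hv t)
    have h3 : |nrm x ξ t| ≤ 1 + C1 := by
      nlinarith [hξ t, sq_abs (nrm x ξ t), sq_nonneg (|nrm x ξ t| - 1)]
    rw [mul_assoc]
    exact e.trans_le (mul_le_mul h3 ((div_le_iff₀ (x t).im_pos).1 (hC2 t)) (norm_nonneg _)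
      ((abs_nonneg _).trans h3))
  obtain ⟨p, hp'⟩ := hH η hη eη (key η fun t => by nlinarith [hC1 t, sq_nonneg (nrm x ζ t)])
  obtain ⟨q, hq'⟩ := hH ζ hζ eζ (key ζ fun t => by nlinarith [hC1 t, sq_nonneg (nrm x η t)])
  exact ⟨p, q, fun t => ⟨hp' t, hq' t⟩⟩

lemma Hyp.hypEq (hL : Tonelli Γ L) (hx : Reg L x) (hH : Hyp L x) (h0 : ∀ t, x t = x 0) :
    HypEq L x := by
  refine ⟨h0, fun η hη ⟨C, hC⟩ t => ?_⟩
  obtain ⟨z, rfl⟩ : ∃ z, x = fun _ => z := ⟨x 0, funext h0⟩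
  have hj : ∀ s, jet (fun _ : ℝ => z) s = ((z : ℂ), 0) := fun s => by rw [jet, vel_const]
  obtain ⟨a, ha⟩ := hH η hη (fun s => by
    have h1 := (hx.el s).2
    simp only [hj] at h1
    have h2 := DFunLike.congr_fun (h1.unique (hasDerivAt_const s _)) (η s)
    rw [vel_const, hj, Prod.mk_zero_zero, map_zero]
    exact h2.symm) ⟨C / z.im, fun s => ⟨0, by
      rw [zero_smul, sub_zero, div_mul_cancel₀ _ z.im_ne_zero]
      exact hC s⟩⟩
  rw [ha, vel_const, smul_zero]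

theorem Gs.good (F : Deck Γ) (hL : Tonelli Γ L) (hc : c ∈ Coh Γ) (h : Gs L c) : Good Γ L c := by
  obtain ⟨x, γ, T, hp, hH, h⟩ := h
  obtain ⟨u, hu, hd⟩ := exists_dom F hL hc
  obtain ⟨hx, hy⟩ := h u hu hd
  have hr : Reg L x := hx.reg (hL.unif1 F) rfl hd
  refine fun U hU => ⟨x, hr.el, ?_, fun y => ⟨fun hs => hy y (hs.cal F hL hc hU hu hd), ?_⟩⟩
  · rcases hx.vel_cases F hL hd with hv | ⟨-, hv⟩
    · exact Or.inl (hH.hypPer F hL hr hp hv)
    · exact Or.inr (hH.hypEq hL hr hv)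
  · rintro ⟨δ, s, e⟩
    obtain rfl : y = fun t => δ • x (t + s) := funext e
    refine ((hx.shift s).smul_eqv F hL hu δ).static F hL hc hU hu hd (γ := δ * γ * δ⁻¹)
      ⟨hp.1, fun t => ?_⟩
    simp only [mul_smul, inv_smul_smul]
    rw [← hp.2, add_right_comm]

end Pool.Agent.Lib.MP_5bb885_an.Gen
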