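import Pool.Agent.Lib.MP_5bb885_an.T9Exp

/-!
Closed calibrated curves: embeddedness, minimal period, the halving lemma.
-/

namespace Pool.Agent.Lib.MP_5bb885_an.Gen

open UpperHalfPlane MeasureTheory Filter Topology

variable {Γ : Type} [Group Γ] [MulAction Γ ℍ] {L : ℂ × ℂ → ℝ} {x : ℝ → ℍ} {u : ℍ → ℝ} {k T : ℝ}
  {c : Γ → ℝ} {γ : Γ}

lemma t9hl_reduce (hp : Per x γ T) (t : ℝ) : ∃ j : ℤ, t - j * T ∈ Set.Ico 0 T ∧
    x t = γ ^ j • x (t - j * T) := by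
  refine ⟨⌊t / T⌋, ⟨Int.sub_floor_div_mul_nonneg t hp.1, Int.sub_floor_div_mul_lt t hp.1⟩, ?_⟩
  rw [← hp.zpow, sub_add_cancel]

lemma t9hl_uniq (F : Deck Γ) (hL : Tonelli Γ L) (hu : Eqv c u) (hd : Dom L k u)
    (hx : Cal L k u x) {δ : Γ} {s t : ℝ} (h : x t = δ • x s) (r : ℝ) :
    x (t + r) = δ • x (s + r) :=
  hx.unique (hL.unif1 F) rfl hd (hx.smul_eqv F hL hu δ) h r

lemma mem_orb (x : ℝ → ℍ) (δ : Γ) (t : ℝ) : δ • x t ∈ Orb Γ x := by
  exact ⟨δ, t, rfl⟩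

lemma smul_mem_orb {z : ℍ} (δ : Γ) : δ • z ∈ Orb Γ x ↔ z ∈ Orb Γ x := by
  constructor
  · rintro ⟨g, t, e⟩
    exact ⟨δ⁻¹ * g, t, by rw [mul_smul, ← e, inv_smul_smul]⟩
  · rintro ⟨g, t, e⟩
    exact ⟨δ * g, t, by rw [mul_smul, ← e]⟩

lemma infDist_orb_smul (F : Deck Γ) (δ : Γ) (z : ℍ) :
    Metric.infDist (δ • z) (Orb Γ x) = Metric.infDist z (Orb Γ x) := by
  have hi : Isometry fun w : ℍ => δ • w := Isometry.of_dist_eq (F.iso δ)
  have e : (fun w : ℍ => δ • w) '' Orb Γ x = Orb Γ x := by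
    ext w
    constructor
    · rintro ⟨v, hv, rfl⟩
      exact (smul_mem_orb δ).2 hv
    · intro hw
      exact ⟨δ⁻¹ • w, (smul_mem_orb δ⁻¹).2 hw, smul_inv_smul δ w⟩
  have h := Metric.infDist_image hi (x := z) (t := Orb Γ x)
  rwa [e] at h

lemma Per.isClosed_orb (F : Deck Γ) (hx : Continuous x) (hp : Per x γ T) : IsClosed (Orb Γ x) := by
  have e : Orb Γ x = {z : ℍ | ∃ δ : Γ, δ • z ∈ x '' Set.Icc 0 T} := by
    ext z
    constructor
    · rintro ⟨g, t, rfl⟩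
      obtain ⟨j, h1, h2⟩ := t9hl_reduce hp t
      refine ⟨(g * γ ^ j)⁻¹, t - j * T, Set.Ico_subset_Icc_self h1, ?_⟩
      rw [h2, ← mul_smul g, inv_smul_smul]
    · rintro ⟨g, t, -, h⟩
      exact (smul_mem_orb g).1 ⟨1, t, by rw [one_smul, h]⟩
  rw [e]
  exact F.isClosed_sat (isCompact_Icc.image hx)

lemma Per.reduce (hp : Per x γ T) (t : ℝ) : ∃ j : ℤ, t - j * T ∈ Set.Ico 0 T ∧
    x t = γ ^ j • x (t - j * T) := by
  exact t9hl_reduce hp t

lemma Cal.emb (F : Deck Γ) (hL : Tonelli Γ L) (hu : Eqv c u) (hd : Dom L k u) (hx : Cal L k u x)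
    (hp : Per x γ T) {τ : ℝ} (hτ : 0 < τ) : ∃ ε : ℝ, 0 < ε ∧ ∀ (δ : Γ) (t t' : ℝ),
      dist (δ • x t') (x t) ≤ ε → ∃ s, |s| ≤ τ ∧ δ • x t' = x (t + s) := by
  have hc := hx.continuous
  obtain ⟨R, hR⟩ : ∃ R : ℝ, ∀ t ∈ Set.Icc 0 T, dist (x t) I ≤ R := by
    obtain ⟨R, hR⟩ := ((isCompact_Icc (a := (0 : ℝ)) (b := T)).image
      (hc.dist (continuous_const (y := I)))).bddAbove
    exact ⟨R, fun t ht => hR ⟨t, ht, rfl⟩⟩
  have key : ∀ δ : Γ, ∀ᶠ ε in 𝓝[>] (0 : ℝ), ∀ t ∈ Set.Icc 0 T, ∀ t' ∈ Set.Icc 0 T,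
      dist (δ • x t') (x t) ≤ ε → ∃ s, |s| ≤ τ ∧ δ • x t' = x (t + s) := by
    intro δ
    set G : Set (ℝ × ℝ) := {p | ∃ s, |s| ≤ τ ∧ δ • x p.2 = x (p.1 + s)} with hG
    have hK : IsCompact ((Set.Icc 0 T ×ˢ Set.Icc 0 T) \ interior G) :=
      (isCompact_Icc.prod isCompact_Icc).diff isOpen_interior
    have hf : Continuous fun p : ℝ × ℝ => dist (δ • x p.2) (x p.1) :=
      ((F.cont δ).comp (hc.comp continuous_snd)).dist (hc.comp continuous_fst)
    obtain ⟨e, he, h1⟩ := hK.exists_forall_le' hf.continuousOn (a := 0) (fun p hp => by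
      refine dist_pos.2 fun h0 => hp.2 (mem_interior_iff_mem_nhds.2 ?_)
      refine Filter.mem_of_superset (Metric.ball_mem_nhds p (half_pos hτ)) fun q hq => ?_
      rw [Metric.mem_ball, Prod.dist_eq, max_lt_iff, Real.dist_eq, Real.dist_eq, abs_lt,
        abs_lt] at hq
      refine ⟨p.1 - q.1 + (q.2 - p.2), abs_le.2 ⟨by linarith, by linarith⟩, ?_⟩
      have h2 := t9hl_uniq F hL hu hd hx h0.symm (q.2 - p.2)
      rw [add_sub_cancel] at h2
      rw [← h2]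
      congr 1
      ring)
    filter_upwards [Ioo_mem_nhdsGT he] with ε hε t ht t' ht' h2
    by_contra h3
    have h4 := h1 (t, t') ⟨⟨ht, ht'⟩, fun h5 => h3 (interior_subset (s := G) h5)⟩
    linarith [hε.2]
  obtain ⟨ε, h1, h2⟩ := (((Filter.eventually_all_finite (F.fin' (R + 1))).2
    fun δ _ => key δ).and (Ioo_mem_nhdsGT (one_pos (α := ℝ)))).exists
  refine ⟨ε, h2.1, fun δ t t' h => ?_⟩
  obtain ⟨j, hj, e⟩ := t9hl_reduce hp t
  obtain ⟨j', hj', e'⟩ := t9hl_reduce hp t'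
  have h3 : dist (((γ ^ j)⁻¹ * δ * γ ^ j') • x (t' - j' * T)) (x (t - j * T)) ≤ ε := by
    rw [← F.iso (γ ^ j), ← e, mul_smul, mul_smul, smul_inv_smul, ← e']
    exact h
  have h4 := hR _ (Set.Ico_subset_Icc_self hj)
  have h5 := hR _ (Set.Ico_subset_Icc_self hj')
  obtain ⟨s, hs, h6⟩ := h1 ((γ ^ j)⁻¹ * δ * γ ^ j') ⟨x (t' - j' * T), by linarith,
    (dist_triangle _ (x (t - j * T)) _).trans (by linarith [h2.2])⟩ _
    (Set.Ico_subset_Icc_self hj) _ (Set.Ico_subset_Icc_self hj') h3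
  refine ⟨s, hs, ?_⟩
  rw [mul_smul, mul_smul, ← e', inv_smul_eq_iff, ← hp.zpow] at h6
  rw [h6]
  congr 1
  ring

lemma Cal.minPer (F : Deck Γ) (hL : Tonelli Γ L) (hu : Eqv c u) (hd : Dom L k u)
    (hx : Cal L k u x) (hp : Per x γ T) (hv : ∀ t, vel x t ≠ 0) :
    ∃ (γ' : Γ) (T' : ℝ), MinPer x γ' T' := by
  have uq := fun {δ : Γ} {s t : ℝ} => t9hl_uniq F hL hu hd hx (δ := δ) (s := s) (t := t)
  let H : AddSubgroup ℝ :=
    { carrier := {t | ∃ δ : Γ, x t = δ • x 0}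
      zero_mem' := ⟨1, (one_smul _ _).symm⟩
      add_mem' := by
        rintro a b ⟨δ, h1⟩ ⟨δ', h2⟩
        exact ⟨δ * δ', by rw [uq h1 b, zero_add, h2, mul_smul]⟩
      neg_mem' := by
        rintro a ⟨δ, h1⟩
        have h2 := uq h1 (-a)
        rw [add_neg_cancel, zero_add] at h2
        exact ⟨δ⁻¹, by rw [h2, inv_smul_smul]⟩ }
  obtain ⟨r, hr, hinj⟩ := F.inj
  have h1 : ∀ᶠ t in 𝓝[≠] (0 : ℝ), (x t : ℂ) ≠ x 0 :=
    ((hx.reg (hL.unif1 F) rfl hd).hasDerivAt 0).eventually_ne (hv 0)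
  have h2 : ∀ᶠ t in 𝓝 (0 : ℝ), dist (x t) (x 0) < r :=
    hx.continuous.continuousAt.eventually (Metric.ball_mem_nhds _ hr)
  have h3 : ∀ᶠ t in 𝓝[>] (0 : ℝ), t ∉ H := by
    filter_upwards [h1.filter_mono (nhdsGT_le_nhdsNE 0), h2.filter_mono nhdsWithin_le_nhds]
      with t h4 h5
    rintro ⟨δ, h6⟩
    rw [h6] at h5
    rw [hinj δ _ h5.le, one_smul] at h6
    exact h4 (by rw [h6])
  obtain ⟨a, ha, h4⟩ := (mem_nhdsGT_iff_exists_Ioo_subset).1 h3
  have hT : T ∈ H := ⟨γ, by rw [← hp.2 0, zero_add]⟩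
  obtain ⟨b, hb⟩ := AddSubgroup.exists_isLeast_pos (H := H)
    (fun h => hp.1.ne' (by rw [h] at hT; exact hT)) ha
    (Set.disjoint_left.2 fun t h5 h6 => h4 h6 h5)
  have hc := AddSubgroup.cyclic_of_min hb
  obtain ⟨⟨γ', h5⟩, hb0⟩ := hb.1
  have hp' : Per x γ' b := ⟨hb0, fun t => by rw [add_comm, uq h5 t, zero_add]⟩
  refine ⟨γ', b, hp', fun s t δ h => ?_⟩
  have h6 : t - s ∈ H := ⟨δ, by rw [sub_eq_add_neg, uq h (-s), add_neg_cancel]⟩
  rw [hc, AddSubgroup.mem_closure_singleton] at h6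
  obtain ⟨j, hj⟩ := h6
  have h7 : t = s + j * b := by rw [← zsmul_eq_mul, hj]; ring
  refine ⟨j, h7, ?_⟩
  have h8 := F.free ((γ' ^ j)⁻¹ * δ) (x s) (by rw [mul_smul, ← h, h7, hp'.zpow, inv_smul_smul])
  exact (inv_mul_eq_one.1 h8).symm

lemma MinPer.inj (h : MinPer x γ T) (t a : ℝ) (ha : |a| ≤ T / 2) (e : x (t + a) = x t) :
    a = 0 := by
  obtain ⟨j, h1, -⟩ := h.2 t (t + a) 1 (by rw [one_smul, e])
  have h2 : a = j * T := by linarith
  have hT := h.1.1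
  rw [h2, abs_mul, abs_of_pos hT] at ha
  have h3 : |(j : ℝ)| < 1 := by nlinarith
  have h4 : j = 0 := by
    rw [← Int.cast_abs, ← Int.cast_one, Int.cast_lt] at h3
    exact Int.abs_lt_one_iff.1 h3
  rw [h2, h4, Int.cast_zero, zero_mul]

lemma Cal.vel_cases (F : Deck Γ) (hL : Tonelli Γ L) (hd : Dom L k u) (hx : Cal L k u x) :
    (∀ t, vel x t ≠ 0) ∨ ((∀ t, vel x t = 0) ∧ ∀ t, x t = x 0) := by
  by_cases h : ∀ t, vel x t ≠ 0
  · exact Or.inl h
  · push Not at h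
    obtain ⟨t, ht⟩ := h
    have h1 := hx.const_of_vel (hL.unif1 F) rfl hd ht
    have h2 : x = fun _ => x t := funext h1
    exact Or.inr ⟨fun s => by rw [h2, vel_const], fun s => by rw [h1 s, h1 0]⟩

theorem halving (F : Deck Γ) (hL : Tonelli Γ L) (hu : Eqv c u) (hd : Dom L k u)
    (hx : Cal L k u x) (hp : Per x γ T) (hH : Hyp L x) : ∃ W δ : ℝ, 0 < W ∧ 0 < δ ∧
      ∀ y, Cal L k u y → ∀ D, D ≤ δ →
        (∀ t, |t| ≤ W → Metric.infDist (y t) (Orb Γ x) ≤ D) →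
          Metric.infDist (y 0) (Orb Γ x) ≤ D / 2 := by
  by_contra hn
  push Not at hn
  have hcl := hp.isClosed_orb F hx.continuous
  have hne : (Orb Γ x).Nonempty := ⟨_, mem_orb x 1 0⟩
  have hex : ∀ n : ℕ, ∃ (y : ℝ → ℍ) (s : ℝ), Cal L k u y ∧ s ∈ Set.Icc 0 T ∧
      dist (y 0) (x s) = Metric.infDist (y 0) (Orb Γ x) ∧ 0 < dist (y 0) (x s) ∧
      dist (y 0) (x s) ≤ 1 / ((n : ℝ) + 1) ∧ ∀ t : ℝ, |t| ≤ n + 1 →
        Metric.infDist (y t) (Orb Γ x) ≤ 2 * dist (y 0) (x s) := by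
    intro n
    obtain ⟨y, hy, D, h1, h2, h3⟩ := hn (n + 1) (1 / ((n : ℝ) + 1)) (by positivity)
      (by positivity)
    obtain ⟨q, ⟨g, t, rfl⟩, h4⟩ := hcl.exists_infDist_eq_dist hne (y 0)
    obtain ⟨j, h5, h6⟩ := hp.reduce t
    have h7 := h2 0 (by rw [abs_zero]; positivity)
    have h8 := Metric.infDist_nonneg (x := y 0) (s := Orb Γ x)
    have h9 : dist ((g * γ ^ j)⁻¹ • y 0) (x (t - j * T)) = Metric.infDist (y 0) (Orb Γ x) := by
      rw [← F.iso (g * γ ^ j), smul_inv_smul, mul_smul, ← h6, h4]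
    refine ⟨fun r => (g * γ ^ j)⁻¹ • y r, t - j * T, hy.smul_eqv F hL hu _,
      Set.Ico_subset_Icc_self h5, ?_, ?_, ?_, fun r hr => ?_⟩
    · rw [h9, infDist_orb_smul F]
    · rw [h9]
      linarith
    · rw [h9]
      linarith
    · rw [h9, infDist_orb_smul F]
      linarith [h2 r hr]
  choose ys ss hy hs h1 h2 h3 h4 using hex
  set l : Ultrafilter ℕ := Ultrafilter.of atTop with hl
  have hle : (l : Filter ℕ) ≤ atTop := Ultrafilter.of_le _
  obtain ⟨σ, -, hσ⟩ := isCompact_Icc.ultrafilter_le_nhds' (l.map ss)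
    (Filter.mem_map.2 (Filter.Eventually.of_forall hs))
  have hσ' : Tendsto ss l (𝓝 σ) := hσ
  have hS := LSeq.const F hL (l : Filter ℕ)
  have U := hL.unif1 F
  have hz : ∀ t, Tendsto (fun n => x (t + ss n)) l (𝓝 (x (t + σ))) := fun t =>
    (hx.continuous.tendsto _).comp (hσ'.const_add t)
  have hd0 : Tendsto (fun n => dist (ys n 0) (x (ss n))) l (𝓝 0) :=
    squeeze_zero (fun _ => dist_nonneg) h3
      (tendsto_one_div_add_atTop_nhds_zero_nat.mono_left hle)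
  have hy0 : Tendsto (fun n => ys n 0) l (𝓝 (x σ)) :=
    ((hx.continuous.tendsto _).comp hσ').congr_dist (hd0.congr fun n => dist_comm _ _)
  have hyl : ∀ t, Tendsto (fun n => ys n t) l (𝓝 (x (t + σ))) := by
    obtain ⟨w, hw, h5⟩ := hS.lim_cal' (ks := fun _ => k) (us := fun _ => u) tendsto_const_nhds
      (fun _ => hd) (fun _ => tendsto_const_nhds) (Filter.Eventually.of_forall hy)
      (R := dist (x σ) I + 1) ((hy0.dist tendsto_const_nhds).eventually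
        (ge_mem_nhds (lt_add_one _)))
    intro t
    have h6 := hw.unique U rfl hd hx (tendsto_nhds_unique (h5 0) hy0) t
    rw [zero_add, add_comm σ] at h6
    rw [← h6]
    exact h5 t
  have key : ∀ τ, 0 < τ → ∀ t, ∀ᶠ n in l, ∃ a, |a| ≤ τ ∧
      dist (ys n t) (x (t + a + ss n)) ≤ 2 * dist (ys n 0) (x (0 + ss n)) := by
    intro τ hτ t
    obtain ⟨ε, hε, h5⟩ := hx.emb F hL hu hd hp hτ
    have h6 : Tendsto (fun n => 2 * dist (ys n 0) (x (ss n)) + dist (ys n t) (x (t + ss n))) l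
        (𝓝 0) := by
      simpa using (hd0.const_mul 2).add ((hyl t).dist (hz t))
    have h7 : ∀ᶠ n : ℕ in l, |t| ≤ n + 1 :=
      ((tendsto_atTop_add_const_right _ 1 tendsto_natCast_atTop_atTop).mono_left
        hle).eventually_ge_atTop _
    filter_upwards [h6.eventually (ge_mem_nhds hε), h7] with n h8 h9
    obtain ⟨q, ⟨g, r, rfl⟩, h10⟩ := hcl.exists_infDist_eq_dist hne (ys n t)
    have h11 := h4 n t h9
    rw [h10] at h11
    obtain ⟨a, ha, h12⟩ := h5 g (t + ss n) r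
      ((dist_triangle_left _ _ (ys n t)).trans (by linarith))
    refine ⟨a, ha, ?_⟩
    rw [zero_add, add_right_comm, ← h12]
    exact h11
  have hk : ∀ᶠ n : ℕ in l, |(fun _ => k) n| ≤ |k| := Filter.Eventually.of_forall fun _ => le_rfl
  have hreg := (hx.shift σ).reg U rfl hd
  have hpos : ∀ᶠ n in l, 0 < dist (ys n 0) (x (0 + ss n)) :=
    Filter.Eventually.of_forall fun n => by rw [zero_add]; exact h2 n
  rcases hx.vel_cases F hL hd with hv | ⟨hv, hc⟩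
  · obtain ⟨γ', T', hm⟩ := hx.minPer F hL hu hd hp hv
    obtain ⟨n, a, -, h5⟩ := (hS.expa (zs := fun n t => x (t + ss n)) hk (fun _ => hd) hy
      (fun n => hx.shift _) hreg (hH.shift σ) (fun t => by rw [vel_shift]; exact hv _)
      (τ := T' / 2) (fun t a ha e => hm.inj (t + σ) a ha (by rw [add_right_comm]; exact e))
      hyl hz hpos (key _ (half_pos hm.1.1)) one_pos).exists
    simp only [zero_add] at h5
    rw [h1 n] at h5
    have h6 := Metric.infDist_le_dist_of_mem (x := ys n 0) (mem_orb x (1 : Γ) (a + ss n))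
    rw [one_smul] at h6
    linarith
  · refine hS.expb (zs := fun n t => x (t + ss n)) hk (fun _ => hd) hy
      (fun n => hx.shift _) hreg (hH.shift σ) (fun t => by rw [vel_shift]; exact hv _)
      hyl hz hpos fun t => ?_
    filter_upwards [key 1 one_pos t] with n h5
    obtain ⟨a, -, h6⟩ := h5
    rwa [hc (t + a + ss n), ← hc (t + ss n)] at h6

lemma halving_iter (F : Deck Γ) (hL : Tonelli Γ L) (hu : Eqv c u) (hd : Dom L k u)
    (hx : Cal L k u x) (hp : Per x γ T) (hH : Hyp L x) : ∃ W δ : ℝ, 0 < W ∧ 0 < δ ∧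
      ∀ y, Cal L k u y → ∀ D, D ≤ δ → ∀ (m : ℕ) (t₀ : ℝ),
        (∀ t, |t - t₀| ≤ m * W → Metric.infDist (y t) (Orb Γ x) ≤ D) →
          Metric.infDist (y t₀) (Orb Γ x) ≤ D / 2 ^ m := by
  obtain ⟨W, δ, hW, hδ, h⟩ := halving F hL hu hd hx hp hH
  refine ⟨W, δ, hW, hδ, fun y hy D hD m => ?_⟩
  induction m with
  | zero =>
    intro t₀ h1
    simpa using h1 t₀ (by simp)
  | succ m ih =>
    intro t₀ h1
    have h0 : 0 ≤ D := Metric.infDist_nonneg.trans (h1 t₀ (by rw [sub_self, abs_zero]; positivity))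
    have h2 := h (fun t => y (t + t₀)) (hy.shift t₀) (D / 2 ^ m)
      ((div_le_self h0 (one_le_pow₀ one_le_two)).trans hD) fun t ht => ih (t + t₀) fun r hr =>
        h1 r (by
          have h3 := abs_sub_le r (t + t₀) t₀
          rw [add_sub_cancel_right] at h3
          push_cast
          linarith)
    rw [zero_add] at h2
    rw [pow_succ, ← div_div]
    exact h2

end Pool.Agent.Lib.MP_5bb885_an.Gen
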