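import Pool.Agent.Lib.MP_5bb885_an.T9JS

/-!
Invariance of the Jacobi equation under deck transformations.
-/

namespace Pool.Agent.Lib.MP_5bb885_an.Gen

open UpperHalfPlane MeasureTheory Filter Topology

variable {Γ : Type} [Group Γ] [MulAction Γ ℍ] {L : ℂ × ℂ → ℝ} {x : ℝ → ℍ} {η ζ : ℝ → ℂ}

/-- The lift of a Moebius map to the tangent bundle. -/
noncomputable def t9jiT (σ : ℂ →L[ℝ] ℂ) (M m₁ : ℂ → ℂ) (p : ℂ × ℂ) : ℂ × ℂ :=
  (σ (M p.1), σ (m₁ p.1 * p.2))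

/-- The first derivative of the lift. -/
noncomputable def t9jiD (σ : ℂ →L[ℝ] ℂ) (m₁ m₂ : ℂ → ℂ) (p k : ℂ × ℂ) : ℂ × ℂ :=
  (σ (m₁ p.1 * k.1), σ (m₂ p.1 * p.2 * k.1 + m₁ p.1 * k.2))

/-- The second derivative of the lift. -/
noncomputable def t9jiE (σ : ℂ →L[ℝ] ℂ) (m₂ m₃ : ℂ → ℂ) (p h k : ℂ × ℂ) : ℂ × ℂ :=
  (σ (m₂ p.1 * h.1 * k.1), σ (m₃ p.1 * h.1 * p.2 * k.1 + m₂ p.1 * h.2 * k.1 + m₂ p.1 * h.1 * k.2))

section aux

variable {γ : Γ} {σ : ℂ →L[ℝ] ℂ} {M m₁ m₂ m₃ : ℂ → ℂ}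

lemma t9ji_sig (σ : ℂ →L[ℝ] ℂ) {f : ℝ → ℂ} {f' : ℂ} {t : ℝ} (h : HasDerivAt f f' t) :
    HasDerivAt (fun s => σ (f s)) (σ f') t :=
  σ.hasFDerivAt.comp_hasDerivAt t h

lemma t9ji_fst {c : ℝ → ℂ × ℂ} {c' : ℂ × ℂ} {t : ℝ} (h : HasDerivAt c c' t) :
    HasDerivAt (fun s => (c s).1) c'.1 t :=
  (ContinuousLinearMap.fst ℝ ℂ ℂ).hasFDerivAt.comp_hasDerivAt t h

lemma t9ji_snd {c : ℝ → ℂ × ℂ} {c' : ℂ × ℂ} {t : ℝ} (h : HasDerivAt c c' t) :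
    HasDerivAt (fun s => (c s).2) c'.2 t :=
  (ContinuousLinearMap.snd ℝ ℂ ℂ).hasFDerivAt.comp_hasDerivAt t h

lemma t9ji_comp {m : ℂ → ℂ} {m' : ℂ} {f : ℝ → ℂ} {f' : ℂ} {t : ℝ} (hm : HasDerivAt m m' (f t))
    (h : HasDerivAt f f' t) : HasDerivAt (fun s => m (f s)) (m' * f') t :=
  hm.comp t h

lemma t9ji_invol (h : MobD γ σ M m₁ m₂ m₃) (w : ℂ) : σ (σ w) = w := by
  rcases h.sgn with ⟨-, a⟩ | ⟨-, a⟩
  · rw [a, a]
  · rw [a, a, Complex.conj_conj]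

lemma t9ji_norm (h : MobD γ σ M m₁ m₂ m₃) (w : ℂ) : ‖σ w‖ = ‖w‖ := by
  rcases h.sgn with ⟨-, a⟩ | ⟨-, a⟩
  · rw [a]
  · rw [a, Complex.norm_conj]

lemma t9ji_mem (h : MobD γ σ M m₁ m₂ m₃) {p : ℂ × ℂ} (hp : p ∈ TH) : t9jiT σ M m₁ p ∈ TH := by
  have h1 := h.val ⟨p.1, hp⟩
  have h2 : 0 < ((γ • (⟨p.1, hp⟩ : ℍ) : ℍ) : ℂ).im := (γ • (⟨p.1, hp⟩ : ℍ)).im_pos
  rw [h1] at h2
  exact h2

lemma t9ji_inv (h : MobD γ σ M m₁ m₂ m₃) (hL : Tonelli Γ L) {p : ℂ × ℂ} (hp : p ∈ TH) :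
    L (t9jiT σ M m₁ p) = L p := by
  have h1 := hL.inv γ ⟨p.1, hp⟩ p.2
  rw [h.val, h.dk_eq] at h1
  exact h1

lemma t9ji_dT (h : MobD γ σ M m₁ m₂ m₃) {c : ℝ → ℂ × ℂ} {c' : ℂ × ℂ} {t : ℝ}
    (hc : HasDerivAt c c' t) (hp : c t ∈ TH) :
    HasDerivAt (fun s => t9jiT σ M m₁ (c s)) (t9jiD σ m₁ m₂ (c t) c') t := by
  have d1 : HasDerivAt M (m₁ (c t).1) (c t).1 := h.d1 ⟨(c t).1, hp⟩
  have d2 : HasDerivAt m₁ (m₂ (c t).1) (c t).1 := h.d2 ⟨(c t).1, hp⟩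
  have e1 := t9ji_sig σ (t9ji_comp (f := fun s => (c s).1) d1 (t9ji_fst hc))
  have e2 := t9ji_sig σ ((t9ji_comp (f := fun s => (c s).1) d2 (t9ji_fst hc)).mul (t9ji_snd hc))
  refine (e1.prodMk e2).congr_deriv ?_
  unfold t9jiD
  congr 2
  ring

lemma t9ji_dD (h : MobD γ σ M m₁ m₂ m₃) {c : ℝ → ℂ × ℂ} {c' : ℂ × ℂ} {t : ℝ}
    (hc : HasDerivAt c c' t) (hp : c t ∈ TH) (k : ℂ × ℂ) :
    HasDerivAt (fun s => t9jiD σ m₁ m₂ (c s) k) (t9jiE σ m₂ m₃ (c t) c' k) t := by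
  have d2 : HasDerivAt m₁ (m₂ (c t).1) (c t).1 := h.d2 ⟨(c t).1, hp⟩
  have d3 : HasDerivAt m₂ (m₃ (c t).1) (c t).1 := h.d3 ⟨(c t).1, hp⟩
  have a2 := t9ji_comp (f := fun s => (c s).1) d2 (t9ji_fst hc)
  have a3 := t9ji_comp (f := fun s => (c s).1) d3 (t9ji_fst hc)
  have e1 := t9ji_sig σ (a2.mul_const k.1)
  have e2 := t9ji_sig σ (((a3.mul (t9ji_snd hc)).mul_const k.1).add (a2.mul_const k.2))
  refine (e1.prodMk e2).congr_deriv ?_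
  unfold t9jiE
  congr 2
  ring

lemma t9ji_line (p k : ℂ × ℂ) : HasDerivAt (fun s : ℝ => p + s • k) k 0 := by
  simpa using ((hasDerivAt_id (0 : ℝ)).smul_const k).const_add p

lemma t9ji_line_mem {p : ℂ × ℂ} (hp : p ∈ TH) (k : ℂ × ℂ) :
    ∀ᶠ s : ℝ in 𝓝 0, p + s • k ∈ TH := by
  have h1 := (t9ji_line p k).continuousAt
  refine h1.eventually (isOpen_TH.mem_nhds ?_)
  simpa using hp

/-- Transformation of the first derivative. -/
lemma t9ji_first (h : MobD γ σ M m₁ m₂ m₃) (hL : Tonelli Γ L) {p : ℂ × ℂ} (hp : p ∈ TH)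
    (k : ℂ × ℂ) : fderiv ℝ L p k = fderiv ℝ L (t9jiT σ M m₁ p) (t9jiD σ m₁ m₂ p k) := by
  have z : p + (0 : ℝ) • k = p := by simp
  have l := t9ji_line p k
  have a1 : HasDerivAt (fun s : ℝ => L (p + s • k)) (fderiv ℝ L p k) 0 :=
    HasFDerivAt.comp_hasDerivAt_of_eq (0 : ℝ) (hasFDerivAt_L hL.smooth hp).1 l z.symm
  have l2 := t9ji_dT h l (by rw [z]; exact hp)
  rw [z] at l2
  have a2 : HasDerivAt (fun s : ℝ => L (t9jiT σ M m₁ (p + s • k)))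
      (fderiv ℝ L (t9jiT σ M m₁ p) (t9jiD σ m₁ m₂ p k)) 0 :=
    HasFDerivAt.comp_hasDerivAt_of_eq (0 : ℝ) (hasFDerivAt_L hL.smooth (t9ji_mem h hp)).1 l2
      (by rw [z])
  refine a1.unique (a2.congr_of_eventuallyEq ?_)
  filter_upwards [t9ji_line_mem hp k] with s hs using (t9ji_inv h hL hs).symm

/-- Transformation of the second derivative. -/
lemma t9ji_second (h : MobD γ σ M m₁ m₂ m₃) (hL : Tonelli Γ L) {p : ℂ × ℂ} (hp : p ∈ TH)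
    (j k : ℂ × ℂ) : D2 L p j k =
      D2 L (t9jiT σ M m₁ p) (t9jiD σ m₁ m₂ p j) (t9jiD σ m₁ m₂ p k) +
        fderiv ℝ L (t9jiT σ M m₁ p) (t9jiE σ m₂ m₃ p j k) := by
  have z : p + (0 : ℝ) • j = p := by simp
  have l := t9ji_line p j
  have a0 : HasDerivAt (fun s : ℝ => fderiv ℝ L (p + s • j)) (D2 L p j) 0 :=
    HasFDerivAt.comp_hasDerivAt_of_eq (0 : ℝ) (hasFDerivAt_L hL.smooth hp).2 l z.symm
  have a1 : HasDerivAt (fun s : ℝ => fderiv ℝ L (p + s • j) k) (D2 L p j k) 0 := by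
    simpa using a0.clm_apply (hasDerivAt_const (0 : ℝ) k)
  have l2 := t9ji_dT h l (by rw [z]; exact hp)
  have l3 := t9ji_dD h l (by rw [z]; exact hp) k
  rw [z] at l2 l3
  have b0 : HasDerivAt (fun s : ℝ => fderiv ℝ L (t9jiT σ M m₁ (p + s • j)))
      (D2 L (t9jiT σ M m₁ p) (t9jiD σ m₁ m₂ p j)) 0 :=
    HasFDerivAt.comp_hasDerivAt_of_eq (0 : ℝ) (hasFDerivAt_L hL.smooth (t9ji_mem h hp)).2 l2
      (by rw [z])
  have b1 := b0.clm_apply l3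
  rw [z] at b1
  refine a1.unique (b1.congr_of_eventuallyEq ?_)
  filter_upwards [t9ji_line_mem hp j] with s hs using t9ji_first h hL hs k

lemma t9ji_split (A : ℂ × ℂ →L[ℝ] ℝ) (a b : ℂ) : A (a, b) = Dx A a + Dv A b := by
  have : ((a, b) : ℂ × ℂ) = (a, 0) + (0, b) := by simp
  rw [this, map_add]
  rfl

lemma t9ji_Dx (A : ℂ × ℂ →L[ℝ] ℝ) (a : ℂ) : Dx A a = A (a, 0) := rfl

lemma t9ji_Dv (A : ℂ × ℂ →L[ℝ] ℝ) (a : ℂ) : Dv A a = A (0, a) := rfl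

/-- Derivatives of covector valued functions. -/
lemma t9ji_covec {P : ℝ → ℂ →L[ℝ] ℝ} {P' : ℂ →L[ℝ] ℝ} {t : ℝ}
    (h : ∀ w, HasDerivAt (fun s => P s w) (P' w) t) : HasDerivAt P P' t := by
  have e : ∀ Q : ℂ →L[ℝ] ℝ, Q = Q 1 • Complex.reCLM + Q Complex.I • Complex.imCLM := by
    intro Q
    ext w
    have e1 : w = w.re • (1 : ℂ) + w.im • Complex.I := by
      apply Complex.ext <;> simp
    conv_lhs => rw [e1, map_add, map_smul, map_smul]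
    simp [mul_comm]
  have h1 := ((h 1).smul_const Complex.reCLM).add ((h Complex.I).smul_const Complex.imCLM)
  rw [← e P'] at h1
  refine h1.congr_of_eventuallyEq (Eventually.of_forall fun s => ?_)
  exact e (P s)

lemma t9ji_jet (F : Deck Γ) (h : MobD γ σ M m₁ m₂ m₃) (x : ℝ → ℍ) (t : ℝ) :
    jet (fun s => γ • x s) t = t9jiT σ M m₁ (jet x t) := by
  rw [jet, F.vel_smul, h.val, h.dk_eq]
  rfl

lemma t9ji_pos (hx : Reg L x) (t : ℝ) : HasDerivAt (fun s => (x s : ℂ)) (vel x t) t :=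
  (hx.el t).1.hasDerivAt

/-- The transported field and its derivative. -/
lemma t9ji_field (h : MobD γ σ M m₁ m₂ m₃) (hx : Reg L x) {t : ℝ} (hη : DifferentiableAt ℝ η t) :
    HasDerivAt (fun s => dk γ (x s) (η s))
      (σ (m₂ (x t) * vel x t * η t + m₁ (x t) * deriv η t)) t := by
  have a2 := t9ji_comp (f := fun s => (x s : ℂ)) (h.d2 (x t)) (t9ji_pos hx t)
  have e := t9ji_sig σ (a2.mul hη.hasDerivAt)
  simp only [h.dk_eq]
  exact e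

lemma t9ji_state (h : MobD γ σ M m₁ m₂ m₃) (hx : Reg L x) {t : ℝ} (hη : DifferentiableAt ℝ η t) :
    (dk γ (x t) (η t), deriv (fun s => dk γ (x s) (η s)) t) =
      t9jiD σ m₁ m₂ (jet x t) (η t, deriv η t) := by
  rw [(t9ji_field h hx hη).deriv, h.dk_eq]
  rfl

lemma t9ji_mom (F : Deck Γ) (h : MobD γ σ M m₁ m₂ m₃) (hL : Tonelli Γ L) (x : ℝ → ℍ) (t : ℝ)
    (ν : ℂ) : mom L x t ν = mom L (fun s => γ • x s) t (σ (m₁ (x t) * ν)) := by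
  rw [mom, mom, t9ji_jet F h, t9ji_Dv, t9ji_Dv, t9ji_first h hL (jet_mem x t)]
  simp [t9jiD, jet]

lemma t9ji_frc (F : Deck Γ) (h : MobD γ σ M m₁ m₂ m₃) (hL : Tonelli Γ L) (x : ℝ → ℍ) (t : ℝ)
    (ν : ℂ) : frc L x t ν = frc L (fun s => γ • x s) t (σ (m₁ (x t) * ν)) +
      mom L (fun s => γ • x s) t (σ (m₂ (x t) * vel x t * ν)) := by
  rw [frc, frc, mom, t9ji_jet F h, t9ji_Dx, ← t9ji_split, t9ji_first h hL (jet_mem x t)]
  simp [t9jiD, jet]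

lemma t9ji_dmom (F : Deck Γ) (h : MobD γ σ M m₁ m₂ m₃) (hL : Tonelli Γ L) (hx : Reg L x) {t : ℝ}
    (hη : DifferentiableAt ℝ η t) (ν : ℂ) :
    dmom L x η t ν = dmom L (fun s => γ • x s) (fun s => dk γ (x s) (η s)) t (σ (m₁ (x t) * ν)) +
      mom L (fun s => γ • x s) t (σ (m₂ (x t) * η t * ν)) := by
  rw [dmom, dmom, mom, t9ji_jet F h, t9ji_state h hx hη, t9ji_Dv, t9ji_Dv, t9ji_Dv,
    t9ji_second h hL (jet_mem x t)]
  simp [t9jiD, t9jiE, jet]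

lemma t9ji_dfrc (F : Deck Γ) (h : MobD γ σ M m₁ m₂ m₃) (hL : Tonelli Γ L) (hx : Reg L x) {t : ℝ}
    (hη : DifferentiableAt ℝ η t) (ν : ℂ) :
    Dx (D2 L (jet x t) (η t, deriv η t)) ν =
      Dx (D2 L (jet (fun s => γ • x s) t)
        (dk γ (x t) (η t), deriv (fun s => dk γ (x s) (η s)) t)) (σ (m₁ (x t) * ν)) +
      dmom L (fun s => γ • x s) (fun s => dk γ (x s) (η s)) t (σ (m₂ (x t) * vel x t * ν)) +
      (frc L (fun s => γ • x s) t (σ (m₂ (x t) * η t * ν)) +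
        mom L (fun s => γ • x s) t
          (σ (m₃ (x t) * η t * vel x t * ν + m₂ (x t) * deriv η t * ν))) := by
  rw [dmom, frc, mom, t9ji_jet F h, t9ji_state h hx hη, ← t9ji_split, ← t9ji_split, t9ji_Dx,
    t9ji_second h hL (jet_mem x t)]
  simp [t9jiD, t9jiE, jet]

/-- The pulled back constant field. -/
lemma t9ji_back (h : MobD γ σ M m₁ m₂ m₃) (hx : Reg L x) (w : ℂ) (t : ℝ) :
    HasDerivAt (fun s => σ w / m₁ (x s))
      (-(m₂ (x t) * vel x t * (σ w / m₁ (x t))) / m₁ (x t)) t := by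
  have a2 := t9ji_comp (f := fun s => (x s : ℂ)) (h.d2 (x t)) (t9ji_pos hx t)
  refine ((hasDerivAt_const t (σ w)).div a2 (h.ne (x t))).congr_deriv ?_
  have := h.ne (x t)
  field_simp
  ring

lemma t9ji_cancel (h : MobD γ σ M m₁ m₂ m₃) (z : ℍ) (w : ℂ) : σ (m₁ z * (σ w / m₁ z)) = w := by
  rw [mul_div_cancel₀ _ (h.ne z), t9ji_invol h]

lemma t9ji_el (F : Deck Γ) (h : MobD γ σ M m₁ m₂ m₃) (hL : Tonelli Γ L) (hx : Reg L x) (t : ℝ) :
    HasDerivAt (mom L fun s => γ • x s) (frc L (fun s => γ • x s) t) t := by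
  refine t9ji_covec fun w => ?_
  have e0 : HasDerivAt (mom L x) (frc L x t) t := (hx.el t).2
  have e1 := e0.clm_apply (t9ji_back h hx w t)
  have e2 : (fun s => mom L (fun s => γ • x s) s w) = fun s => mom L x s (σ w / m₁ (x s)) := by
    funext s
    rw [t9ji_mom F h hL x s, t9ji_cancel h]
  rw [e2]
  refine e1.congr_deriv ?_
  rw [t9ji_frc F h hL x t, t9ji_mom F h hL x t, t9ji_cancel h, mul_div_cancel₀ _ (h.ne (x t)),
    map_neg, map_neg]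
  ring

end aux

theorem Reg.smul (F : Deck Γ) (hL : Tonelli Γ L) (h : Reg L x) (γ : Γ) :
    Reg L fun t => γ • x t := by
  obtain ⟨σ, M, m₁, m₂, m₃, hm⟩ := F.mobD γ
  have hv : vel (fun t => γ • x t) = fun t => dk γ (x t) (vel x t) := funext (F.vel_smul γ x)
  have hd : ∀ t, HasDerivAt (vel fun t => γ • x t)
      (σ (m₂ (x t) * vel x t * vel x t + m₁ (x t) * deriv (vel x) t)) t := fun t => by
    rw [hv]
    exact t9ji_field hm h (h.acc t)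
  refine ⟨fun t => ⟨(F.hasDerivAt_smul γ (t9ji_pos h t)).differentiableAt, t9ji_el F hm hL h t⟩,
    fun t => (hd t).differentiableAt, ?_⟩
  have e : deriv (vel fun t => γ • x t) =
      fun t => σ (m₂ (x t) * vel x t * vel x t + m₁ (x t) * deriv (vel x) t) :=
    funext fun t => (hd t).deriv
  rw [e]
  have c1 : Continuous fun t => m₁ (x t) := continuous_iff_continuousAt.2 fun t =>
    (t9ji_comp (f := fun s => (x s : ℂ)) (hm.d2 (x t)) (t9ji_pos h t)).continuousAt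
  have c2 : Continuous fun t => m₂ (x t) := continuous_iff_continuousAt.2 fun t =>
    (t9ji_comp (f := fun s => (x s : ℂ)) (hm.d3 (x t)) (t9ji_pos h t)).continuousAt
  have cv : Continuous (vel x) := continuous_iff_continuousAt.2 fun t => (h.acc t).continuousAt
  exact σ.continuous.comp (((c2.mul cv).mul cv).add (c1.mul h.cont))

theorem Jac.smul (F : Deck Γ) (hL : Tonelli Γ L) (hx : Reg L x) (h : Jac L x η) (γ : Γ) :
    Jac L (fun t => γ • x t) fun t => dk γ (x t) (η t) := by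
  obtain ⟨σ, M, m₁, m₂, m₃, hm⟩ := F.mobD γ
  intro t
  refine ⟨(t9ji_field hm hx (h t).1).differentiableAt, t9ji_covec fun w => ?_⟩
  have e0 : HasDerivAt (dmom L x η) (Dx (D2 L (jet x t) (η t, deriv η t))) t := (h t).2
  have b := t9ji_back hm hx w t
  have e1 := e0.clm_apply b
  have a3 := t9ji_comp (f := fun s => (x s : ℂ)) (hm.d3 (x t)) (t9ji_pos hx t)
  have e3 := (t9ji_el F hm hL hx t).clm_apply
    (t9ji_sig σ ((a3.mul (h t).1.hasDerivAt).mul b))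
  have e2 : (fun s => dmom L (fun s => γ • x s) (fun s => dk γ (x s) (η s)) s w) =
      fun s => dmom L x η s (σ w / m₁ (x s)) -
        mom L (fun s => γ • x s) s (σ (m₂ (x s) * η s * (σ w / m₁ (x s)))) := by
    funext s
    rw [t9ji_dmom F hm hL hx (h s).1, t9ji_cancel hm]
    ring
  change HasDerivAt (fun s => dmom L (fun s => γ • x s) (fun s => dk γ (x s) (η s)) s w) _ t
  rw [e2]
  refine (e1.sub e3).congr_deriv ?_
  rw [t9ji_dfrc F hm hL hx (h t).1, t9ji_dmom F hm hL hx (h t).1, t9ji_cancel hm,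
    mul_div_cancel₀ _ (hm.ne (x t)), map_neg, map_neg]
  simp only [Pi.mul_apply]
  have e4 : (m₃ (x t) * vel x t * η t + m₂ (x t) * deriv η t) * (σ w / m₁ (x t)) +
      m₂ (x t) * η t * (-(m₂ (x t) * vel x t * (σ w / m₁ (x t))) / m₁ (x t)) =
      (m₃ (x t) * η t * vel x t * (σ w / m₁ (x t)) + m₂ (x t) * deriv η t * (σ w / m₁ (x t))) +
      m₂ (x t) * η t * (-(m₂ (x t) * vel x t * (σ w / m₁ (x t))) / m₁ (x t)) := by ring
  rw [e4]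
  simp only [map_add]
  ring

theorem En.smul (F : Deck Γ) (hL : Tonelli Γ L) (hx : Reg L x) (hη : ∀ t, DifferentiableAt ℝ η t)
    (h : En L x η) (γ : Γ) : En L (fun t => γ • x t) fun t => dk γ (x t) (η t) := by
  obtain ⟨σ, M, m₁, m₂, m₃, hm⟩ := F.mobD γ
  intro t
  have e0 : dmom L x η t (vel x t) = frc L x t (η t) := h t
  rw [t9ji_dmom F hm hL hx (hη t), t9ji_frc F hm hL x t] at e0
  have e1 : m₂ (x t) * η t * vel x t = m₂ (x t) * vel x t * η t := by ring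
  rw [e1, add_left_inj, ← hm.dk_eq, ← hm.dk_eq, ← F.vel_smul] at e0
  exact e0

lemma Bdd.smul (F : Deck Γ) (h : Bdd x η) (γ : Γ) :
    Bdd (fun t => γ • x t) fun t => dk γ (x t) (η t) := by
  obtain ⟨C, hC⟩ := h
  refine ⟨C, fun t => ?_⟩
  obtain ⟨a, ha⟩ := hC t
  refine ⟨a, ?_⟩
  rw [F.vel_smul, ← map_smul, ← map_sub]
  have h1 := F.norm_dk γ (x t) (η t - a • vel x t)
  have h2 : ‖η t - a • vel x t‖ / (x t).im ≤ C := (div_le_iff₀ (x t).im_pos).2 ha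
  rw [← h1] at h2
  exact (div_le_iff₀ (γ • x t).im_pos).1 h2

lemma Hyp.smul (F : Deck Γ) (hL : Tonelli Γ L) (hx : Reg L x) (h : Hyp L x) (γ : Γ) :
    Hyp L fun t => γ • x t := by
  intro η h1 h2 h3
  have hy := hx.smul F hL γ
  have j1 := h1.smul F hL hy γ⁻¹
  have j2 := h2.smul F hL hy (fun t => (h1 t).1) γ⁻¹
  have j3 := h3.smul F γ⁻¹
  simp only [inv_smul_smul] at j1 j2 j3
  obtain ⟨a, ha⟩ := h _ j1 j2 j3
  refine ⟨a, fun t => ?_⟩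
  have e := F.dk_mul γ γ⁻¹ (γ • x t) (η t)
  rw [mul_inv_cancel, dk_one, inv_smul_smul, ha t, map_smul, ← F.vel_smul] at e
  exact e

/-- The transformation law of the variation of the momentum. -/
theorem dmom_smul (F : Deck Γ) (hL : Tonelli Γ L) (hx : Reg L x) {t : ℝ}
    (hη : DifferentiableAt ℝ η t) (γ : Γ) (ν : ℂ) :
    |dmom L x η t ν - dmom L (fun s => γ • x s) (fun s => dk γ (x s) (η s)) t (dk γ (x t) ν)| ≤
      2 * (‖mom L (fun s => γ • x s) t‖ * (γ • x t).im) * (‖η t‖ / (x t).im) *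
        (‖ν‖ / (x t).im) := by
  obtain ⟨σ, M, m₁, m₂, m₃, hm⟩ := F.mobD γ
  rw [t9ji_dmom F hm hL hx hη, hm.dk_eq (x t) ν, add_sub_cancel_left]
  have h1 := (mom L (fun s => γ • x s) t).le_opNorm (σ (m₂ (x t) * η t * ν))
  rw [Real.norm_eq_abs, t9ji_norm hm, norm_mul, norm_mul] at h1
  refine h1.trans ?_
  have hi := (x t).im_pos
  have h2 : ‖m₂ (x t)‖ ≤ 2 * ‖m₁ (x t)‖ / (x t).im := (le_div_iff₀ hi).2 (hm.snd (x t))
  rw [← hm.nrm (x t)]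
  calc ‖mom L (fun s => γ • x s) t‖ * (‖m₂ (x t)‖ * ‖η t‖ * ‖ν‖)
      ≤ ‖mom L (fun s => γ • x s) t‖ * (2 * ‖m₁ (x t)‖ / (x t).im * ‖η t‖ * ‖ν‖) := by gcongr
    _ = _ := by field_simp

end Pool.Agent.Lib.MP_5bb885_an.Gen
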