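import Pool.Agent.Lib.MP_5bb885_an.T9Jump
import Pool.Agent.Lib.MP_5bb885_an.T9AJ

/-!
Jacobi fields: time shifts, linear structure, the tangent field.
-/

namespace Pool.Agent.Lib.MP_5bb885_an.Gen

open UpperHalfPlane MeasureTheory Filter Topology

variable {Γ : Type} [Group Γ] [MulAction Γ ℍ] {L : ℂ × ℂ → ℝ} {x : ℝ → ℍ} {η ζ : ℝ → ℂ}

lemma t9js_vel (x : ℝ → ℍ) (r : ℝ) : vel (fun s => x (s + r)) = fun t => vel x (t + r) :=
  funext fun t => vel_shift x r t

lemma Reg.shift (h : Reg L x) (r : ℝ) : Reg L fun t => x (t + r) := by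
  refine ⟨fun t => ⟨((h.el (t + r)).1.hasDerivAt.comp_add_const t r).differentiableAt, ?_⟩,
    fun t => ?_, ?_⟩
  · simp only [jet_shift]
    exact (h.el (t + r)).2.comp_add_const t r
  · rw [t9js_vel]
    exact ((h.acc (t + r)).hasDerivAt.comp_add_const t r).differentiableAt
  · have e : deriv (vel fun t => x (t + r)) = fun t => deriv (vel x) (t + r) := by
      rw [t9js_vel]
      exact funext fun t => deriv_comp_add_const (vel x) r t
    rw [e]
    exact h.cont.comp (continuous_add_const r)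

lemma Jac.shift (h : Jac L x η) (r : ℝ) : Jac L (fun t => x (t + r)) fun t => η (t + r) := by
  refine fun t => ⟨((h (t + r)).1.hasDerivAt.comp_add_const t r).differentiableAt, ?_⟩
  simp only [jet_shift, deriv_comp_add_const]
  exact (h (t + r)).2.comp_add_const t r

lemma En.shift (h : En L x η) (r : ℝ) : En L (fun t => x (t + r)) fun t => η (t + r) := by
  intro t
  simp only [jet_shift, vel_shift, deriv_comp_add_const]
  exact h (t + r)

lemma Bdd.shift (h : Bdd x η) (r : ℝ) : Bdd (fun t => x (t + r)) fun t => η (t + r) := by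
  obtain ⟨C, hC⟩ := h
  refine ⟨C, fun t => ?_⟩
  simp only [vel_shift]
  exact hC (t + r)

lemma Hyp.shift (h : Hyp L x) (r : ℝ) : Hyp L fun t => x (t + r) := by
  intro η h1 h2 h3
  obtain ⟨a, ha⟩ := h (fun t => η (t + -r)) (by simpa using h1.shift (-r))
    (by simpa using h2.shift (-r)) (by simpa using h3.shift (-r))
  refine ⟨a, fun t => ?_⟩
  simpa [vel_shift] using ha (t + r)

lemma En.add (hη : ∀ t, DifferentiableAt ℝ η t) (hζ : ∀ t, DifferentiableAt ℝ ζ t)
    (h : En L x η) (h' : En L x ζ) : En L x (η + ζ) := by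
  intro t
  have e1 : ((η + ζ) t, deriv (η + ζ) t) = (η t, deriv η t) + (ζ t, deriv ζ t) := by
    rw [deriv_add (hη t) (hζ t)]
    rfl
  have e2 : (((η + ζ) t, 0) : ℂ × ℂ) = (η t, 0) + (ζ t, 0) := by simp
  rw [e1, e2, map_add, map_add, add_apply, h t, h' t]

lemma En.smul' (hη : ∀ t, DifferentiableAt ℝ η t) (h : En L x η) (a : ℝ) : En L x (a • η) := by
  intro t
  have e1 : ((a • η) t, deriv (a • η) t) = a • (η t, deriv η t) := by
    rw [deriv_const_smul a (hη t)]
    rfl
  have e2 : (((a • η) t, 0) : ℂ × ℂ) = a • (η t, 0) := by simp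
  rw [e1, e2, map_smul, map_smul, smul_apply, h t]

lemma Bdd.add (h : Bdd x η) (h' : Bdd x ζ) : Bdd x (η + ζ) := by
  obtain ⟨C, hC⟩ := h
  obtain ⟨C', hC'⟩ := h'
  refine ⟨C + C', fun t => ?_⟩
  obtain ⟨a, ha⟩ := hC t
  obtain ⟨a', ha'⟩ := hC' t
  refine ⟨a + a', ?_⟩
  have e : (η + ζ) t - (a + a') • vel x t = (η t - a • vel x t) + (ζ t - a' • vel x t) := by
    rw [add_smul, Pi.add_apply]
    abel
  rw [e, add_mul]
  exact (norm_add_le _ _).trans (add_le_add ha ha')

lemma Bdd.smul' (h : Bdd x η) (a : ℝ) : Bdd x (a • η) := by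
  obtain ⟨C, hC⟩ := h
  refine ⟨|a| * C, fun t => ?_⟩
  obtain ⟨b, hb⟩ := hC t
  refine ⟨a * b, ?_⟩
  rw [Pi.smul_apply, mul_smul, ← smul_sub, norm_smul, Real.norm_eq_abs, mul_assoc]
  exact mul_le_mul_of_nonneg_left hb (abs_nonneg a)

lemma bdd_vel (x : ℝ → ℍ) : Bdd x (vel x) :=
  ⟨0, fun t => ⟨1, by simp⟩⟩

lemma t9js_dL (hL : ContDiffOn ℝ 2 L TH) (hx : Reg L x) (t : ℝ) :
    HasDerivAt (fun s => fderiv ℝ L (jet x s)) (D2 L (jet x t) (vel x t, deriv (vel x) t)) t :=
  (hasFDerivAt_L hL (jet_mem x t)).2.comp_hasDerivAt t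
    ((hx.hasDerivAt t).prodMk (hx.acc t).hasDerivAt)

/-- The tangent field is a Jacobi field. -/
lemma Reg.dmom_vel (hL : ContDiffOn ℝ 2 L TH) (hx : Reg L x) (t : ℝ) :
    dmom L x (vel x) t = frc L x t := by
  have h := (t9js_dL hL hx t).clm_comp (hasDerivAt_const t (ContinuousLinearMap.inr ℝ ℂ ℂ))
  rw [ContinuousLinearMap.comp_zero, add_zero] at h
  exact h.unique (hx.hasDerivAt_mom t)

lemma Reg.jac_vel (hL : ContDiffOn ℝ 2 L TH) (hx : Reg L x) : Jac L x (vel x) := by
  refine fun t => ⟨hx.acc t, ?_⟩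
  have h := (t9js_dL hL hx t).clm_comp (hasDerivAt_const t (ContinuousLinearMap.inl ℝ ℂ ℂ))
  rw [ContinuousLinearMap.comp_zero, add_zero] at h
  have e : (fun s => Dv (D2 L (jet x s) (vel x s, deriv (vel x) s))) = frc L x :=
    funext fun s => hx.dmom_vel hL s
  rw [e]
  exact h

lemma Reg.en_vel (hL : ContDiffOn ℝ 2 L TH) (hx : Reg L x) : En L x (vel x) := fun t =>
  congrArg (fun A : ℂ →L[ℝ] ℝ => A (vel x t)) (hx.dmom_vel hL t)

/-- A Jacobi field in the energy level that vanishes at `s` with tangent derivative is zero. -/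
lemma Jac.nz (hL : Tonelli Γ L) (hx : Reg L x) (h : Jac L x η) (he : En L x η) {s a : ℝ}
    (h1 : η s = 0) (h2 : deriv η s = a • vel x s) (t : ℝ) : η t = 0 := by
  refine JacA.eq_zero (hx.coef hL) h h1 ?_ t
  by_cases hv : vel x s = 0
  · rw [h2, hv, smul_zero]
  · have e := he s
    have e1 : (((0 : ℂ), a • vel x s) : ℂ × ℂ) = a • (0, vel x s) := by simp
    rw [h1, h2, e1, map_smul, smul_apply, Prod.mk_zero_zero, map_zero,
      smul_eq_mul] at e
    rw [h2, (mul_eq_zero.1 e).resolve_right (hL.convex _ (jet_mem x s) _ hv).ne', zero_smul]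

lemma t9js_nu {t : ℝ} (hv : vel x t ≠ 0) : nu x η t = nrm x η t * Complex.I * vel x t := by
  have e := Complex.re_add_im (η t / vel x t)
  rw [eq_div_iff hv] at e
  rw [nu, nrm, tng, Complex.real_smul]
  linear_combination -e

lemma norm_nu {t : ℝ} (hv : vel x t ≠ 0) : ‖nu x η t‖ = |nrm x η t| * ‖vel x t‖ := by
  rw [t9js_nu hv, norm_mul, norm_mul, Complex.norm_I, mul_one, Complex.norm_real, Real.norm_eq_abs]

lemma nrm_eq_zero {t : ℝ} (hv : vel x t ≠ 0) : nrm x η t = 0 ↔ nu x η t = 0 := by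
  rw [t9js_nu hv]
  simp [hv]

lemma norm_nu_le (t a : ℝ) : ‖nu x η t‖ ≤ ‖η t - a • vel x t‖ := by
  by_cases hv : vel x t = 0
  · simp [nu, hv]
  · have e : η t - a • vel x t = (η t / vel x t - a) * vel x t := by
      rw [sub_mul, div_mul_cancel₀ _ hv, Complex.real_smul]
    rw [norm_nu hv, e, norm_mul]
    refine mul_le_mul_of_nonneg_right ?_ (norm_nonneg _)
    simpa [nrm] using Complex.abs_im_le_norm (η t / vel x t - a)

/-- A double zero of the normal component forces tangency. -/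
lemma Jac.tangent (hL : Tonelli Γ L) (hx : Reg L x) (hv : ∀ t, vel x t ≠ 0) (h : Jac L x η)
    (he : En L x η) {s : ℝ} (h1 : nrm x η s = 0) (h2 : deriv (nrm x η) s = 0) :
    ∃ a : ℝ, ∀ t, η t = a • vel x t := by
  have hq := (h s).1.hasDerivAt.div (hx.acc s).hasDerivAt (hv s)
  have him : HasDerivAt (nrm x η)
      ((deriv η s * vel x s - η s * deriv (vel x) s) / vel x s ^ 2).im s :=
    Complex.imCLM.hasFDerivAt.comp_hasDerivAt s hq
  rw [him.deriv] at h2
  have h0 : η s = tng x η s • vel x s := sub_eq_zero.1 ((nrm_eq_zero (hv s)).1 h1)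
  have hs : ∀ t, DifferentiableAt ℝ ((-tng x η s) • vel x) t := fun t =>
    (hx.acc t).const_smul _
  refine ⟨tng x η s, fun t => ?_⟩
  have key := Jac.nz (η := η + (-tng x η s) • vel x) (s := s)
    (a := ((deriv η s * vel x s - η s * deriv (vel x) s) / vel x s ^ 2).re) hL hx
    (JacA.add h (JacA.smul (hx.jac_vel hL.smooth) _))
    (he.add (fun t => (h t).1) hs ((hx.en_vel hL.smooth).smul' hx.acc _))
    (by rw [Pi.add_apply, Pi.smul_apply, _root_.neg_smul, ← h0, add_neg_cancel]) ?_ t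
  · rwa [Pi.add_apply, Pi.smul_apply, _root_.neg_smul, add_neg_eq_zero] at key
  · have e := Complex.re_add_im ((deriv η s * vel x s - η s * deriv (vel x) s) / vel x s ^ 2)
    rw [h2, Complex.ofReal_zero, zero_mul, add_zero] at e
    rw [deriv_add (h s).1 (hs s), deriv_const_smul _ (hx.acc s), Complex.real_smul,
      Complex.real_smul, e]
    rw [Complex.real_smul] at h0
    have := hv s
    generalize tng x η s = a at h0 ⊢
    rw [h0]
    push_cast
    field_simp
    ring

end Pool.Agent.Lib.MP_5bb885_an.Gen
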