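import Pool.Agent.Lib.MP_5bb885_an.T9Reg2

/-!
Jumps onto and off calibrated curves, with invariant constants.
-/

namespace Pool.Agent.Lib.MP_5bb885_an.Gen

open UpperHalfPlane MeasureTheory Filter Topology

variable {Γ : Type} [Group Γ] [MulAction Γ ℍ] {L : ℂ × ℂ → ℝ} {S : Set (ℂ × ℂ → ℝ)}

lemma t9jump_mom (L : ℂ × ℂ → ℝ) (x : ℝ → ℍ) (t : ℝ) (v : ℂ) :
    mom L x t v = fderiv ℝ L (jet x t) (0, v) := rfl

lemma t9jump_frc (L : ℂ × ℂ → ℝ) (x : ℝ → ℍ) (t : ℝ) (v : ℂ) :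
    frc L x t v = fderiv ℝ L (jet x t) (v, 0) := rfl

/-- The momentum is invariant. -/
lemma Tonelli.mom_smul (F : Deck Γ) (hL : Tonelli Γ L) (γ : Γ) (x : ℝ → ℍ) (t : ℝ) (v : ℂ) :
    mom L (fun s => γ • x s) t (dk γ (x t) v) = mom L x t v := by
  rw [t9jump_mom, t9jump_mom, jet, jet, F.vel_smul]
  have h1 := (t9tay_seg hL.smooth (γ • x t).im_pos (dk γ (x t) (vel x t)) (dk γ (x t) v) 0).1
  have h2 := (t9tay_seg hL.smooth (x t).im_pos (vel x t) v 0).1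
  have e : (fun s : ℝ => L (((γ • x t : ℍ) : ℂ), dk γ (x t) (vel x t) + s • dk γ (x t) v)) =
      fun s : ℝ => L ((x t : ℂ), vel x t + s • v) := by
    funext s
    rw [← hL.inv γ (x t) (vel x t + s • v), map_add, map_smul]
  rw [e] at h1
  simpa only [zero_smul, add_zero] using h1.unique h2

/-- The second order defect of a deck transformation. -/
lemma t9jump_defect (F : Deck Γ) (γ : Γ) (z w : ℍ) (h : dist w z ≤ 1) :
    ‖((γ • w : ℍ) : ℂ) - (γ • z : ℍ) - dk γ z ((w : ℂ) - z)‖ ≤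
      4 * (γ • z).im * dist w z ^ 2 := by
  obtain ⟨σ, M, m₁, m₂, m₃, hM⟩ := F.mobD γ
  have hσ : ∀ a, ‖σ a‖ = ‖a‖ := fun a => by
    rcases hM.sgn with h | h
    · rw [h.2]
    · rw [h.2, RCLike.norm_conj]
  rw [hM.val, hM.val, hM.dk_eq, ← map_sub, ← map_sub, hσ, ← hM.nrm]
  have h1 := hM.tay z w
  have h2 := (near_cmp w z h).1
  have h3 := (near_cmp z w (by rwa [dist_comm])).1
  rw [norm_sub_rev, dist_comm] at h3
  have hw := w.im_pos
  have hz := z.im_pos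
  have hd := dist_nonneg (x := w) (y := z)
  have h4 : ‖(w : ℂ) - z‖ ^ 2 ≤ (2 * z.im * dist w z) * (2 * w.im * dist w z) := by
    rw [sq]
    exact mul_le_mul h2 h3 (norm_nonneg _) (by positivity)
  have h5 := mul_le_mul_of_nonneg_left h4 (norm_nonneg (m₁ z))
  refine le_of_mul_le_mul_right (h1.trans (h5.trans (le_of_eq ?_))) hw
  ring

theorem Unif.twoI (F : Deck Γ) (U : Unif S) (k₀ : ℝ) : ∃ C δ : ℝ, 0 ≤ C ∧ 0 < δ ∧ ∀ L ∈ S,
    Tonelli Γ L → ∀ k, |k| ≤ k₀ → ∀ u, Dom L k u → ∀ x, Cal L k u x → ∀ (t : ℝ) (w : ℍ),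
      dist w (x t) ≤ δ → |u w - u (x t) - mom L x t (w - x t)| ≤ C * dist w (x t) ^ 2 := by
  obtain ⟨R, hR⟩ := F.cpt
  obtain ⟨C₁, δ₁, hC₁, hδ₁, h1⟩ := U.two k₀ R
  obtain ⟨Cs, hCs, h2⟩ := U.speed k₀
  obtain ⟨Ck, hCk, h3⟩ := KB_cmp (R + 1)
  have hCk0 : 0 < Ck := by linarith
  refine ⟨C₁ * Ck ^ 2 + 4 * Cs, min 1 (δ₁ / Ck), by positivity,
    lt_min one_pos (by positivity), ?_⟩
  intro L hL hT k hk u hd x hx t w hw
  obtain ⟨γ, hγ⟩ := hR (x t)
  have hw1 : dist w (x t) ≤ 1 := hw.trans (min_le_left _ _)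
  have hw2 : dist w (x t) ≤ δ₁ / Ck := hw.trans (min_le_right _ _)
  have hd' := hd.smul F hT γ⁻¹
  have hx' := hx.smul F hT γ
  have hγw : dist (γ • w) I ≤ R + 1 := by
    have := dist_triangle (γ • w) (γ • x t) I
    rw [F.iso] at this
    linarith
  have hn : ‖((γ • w : ℍ) : ℂ) - (γ • x t : ℍ)‖ ≤ Ck * dist w (x t) := by
    have := (h3 (γ • w) (γ • x t) hγw (by linarith)).2.1
    rwa [F.iso] at this
  have hn' : ‖((γ • w : ℍ) : ℂ) - (γ • x t : ℍ)‖ ≤ δ₁ := by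
    rw [le_div_iff₀ hCk0] at hw2
    linarith
  have h4 := h1 L hL k hk _ hd' _ hx' t hγ _ hn'
  simp only [add_sub_cancel, ofComplex_apply, inv_smul_smul] at h4
  have h5 := (h2 L hL k hk _ hd' _ hx' t).2
  have h6 := t9jump_defect F γ (x t) w hw1
  have h7 := hT.mom_smul F γ x t ((w : ℂ) - x t)
  set P := mom L (fun s => γ • x s) t with hP
  set E := ((γ • w : ℍ) : ℂ) - (γ • x t : ℍ) - dk γ (x t) ((w : ℂ) - x t) with hE
  have h8 : P (((γ • w : ℍ) : ℂ) - (γ • x t : ℍ)) = mom L x t ((w : ℂ) - x t) + P E := by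
    rw [← h7, hE, ← map_add]
    congr 1
    ring
  have h9 : |P E| ≤ 4 * Cs * dist w (x t) ^ 2 := by
    have a1 : |P E| ≤ ‖P‖ * ‖E‖ := P.le_opNorm E
    have a2 := mul_le_mul_of_nonneg_left h6 (norm_nonneg P)
    have a3 := mul_le_mul_of_nonneg_right h5 (sq_nonneg (dist w (x t)))
    nlinarith
  have h10 : C₁ * ‖((γ • w : ℍ) : ℂ) - (γ • x t : ℍ)‖ ^ 2 ≤ C₁ * (Ck * dist w (x t)) ^ 2 :=
    mul_le_mul_of_nonneg_left (pow_le_pow_left₀ (norm_nonneg _) hn 2) hC₁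
  rw [h8] at h4
  rw [abs_le] at h4 h9 ⊢
  constructor <;> nlinarith [h4.1, h4.2, h9.1, h9.2]

/-- The action of an affine variation of a solution. -/
lemma t9jump_var (hL : ContDiffOn ℝ 2 L TH) {x : ℝ → ℍ} (hx : Reg L x) {a b : ℝ} (hab : a < b)
    (θ₀ θ₁ : ℝ) (h : ℂ) {A : ℝ} (k : ℝ)
    (hm : ∀ s ∈ Set.Icc a b, (x s : ℂ) + (θ₀ + θ₁ * s) • h ∈ HP)
    (ht : ∀ s ∈ Set.Icc a b, L ((x s : ℂ) + (θ₀ + θ₁ * s) • h, vel x s + θ₁ • h) - L (jet x s) -
      fderiv ℝ L (jet x s) ((θ₀ + θ₁ * s) • h, θ₁ • h) ≤ A) :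
    Adm L (fun s => ofComplex ((x s : ℂ) + (θ₀ + θ₁ * s) • h)) a b ∧
      ac L k (fun s => ofComplex ((x s : ℂ) + (θ₀ + θ₁ * s) • h)) a b ≤ ac L k x a b +
        ((θ₀ + θ₁ * b) * mom L x b h - (θ₀ + θ₁ * a) * mom L x a h) + A * (b - a) := by
  have hθ : ∀ s : ℝ, HasDerivAt (fun s : ℝ => θ₀ + θ₁ * s) θ₁ s := fun s => by
    simpa using ((hasDerivAt_id s).const_mul θ₁).const_add θ₀
  have hxc : Continuous fun s => (x s : ℂ) := continuous_coe.comp hx.continuous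
  have hvc := hx.contVel
  have hfc := hx.contFrc hL
  have hmc : Continuous (mom L x) :=
    continuous_iff_continuousAt.2 fun s => (hx.hasDerivAt_mom s).continuousAt
  obtain ⟨h1, h2⟩ := adm_C1 (L := L) hL.continuousOn hab
    (y := fun s => (x s : ℂ) + (θ₀ + θ₁ * s) • h) (y' := fun s => vel x s + θ₁ • h)
    (fun s _ => (hx.hasDerivAt s).add ((hθ s).smul_const h)) (by fun_prop) hm
  refine ⟨h1, ?_⟩
  rw [h2]
  have hG : ∀ s : ℝ, HasDerivAt (fun s : ℝ => (θ₀ + θ₁ * s) * mom L x s h)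
      (θ₁ * mom L x s h + (θ₀ + θ₁ * s) * frc L x s h) s := fun s => by
    have := (hx.hasDerivAt_mom s).clm_apply (hasDerivAt_const s h)
    simp only [map_zero, add_zero] at this
    exact (hθ s).mul this
  have hGc : Continuous fun s : ℝ => θ₁ * mom L x s h + (θ₀ + θ₁ * s) * frc L x s h := by
    fun_prop
  have hGi := intervalIntegral.integral_eq_sub_of_hasDerivAt (a := a) (b := b)
    (fun s _ => hG s) (hGc.intervalIntegrable a b)
  have hxa := (hx.adm hL hab).2.2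
  have hqc : ContinuousOn (fun s => L ((x s : ℂ) + (θ₀ + θ₁ * s) • h, vel x s + θ₁ • h) + k)
      (Set.uIcc a b) := by
    rw [Set.uIcc_of_le hab.le]
    refine (hL.continuousOn.comp (Continuous.continuousOn (by fun_prop)) ?_).add continuousOn_const
    intro s hs
    exact hm s hs
  have hle : ∫ s in a..b, (L ((x s : ℂ) + (θ₀ + θ₁ * s) • h, vel x s + θ₁ • h) + k) ≤
      ∫ s in a..b, ((L (jet x s) + k) +
        (θ₁ * mom L x s h + (θ₀ + θ₁ * s) * frc L x s h) + A) := by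
    refine intervalIntegral.integral_mono_on hab.le hqc.intervalIntegrable
      (((hxa.add intervalIntegrable_const).add (hGc.intervalIntegrable a b)).add
        intervalIntegrable_const) fun s hs => ?_
    have h3 := ht s hs
    have e : (((θ₀ + θ₁ * s) • h, θ₁ • h) : ℂ × ℂ) =
        θ₁ • ((0, h) : ℂ × ℂ) + (θ₀ + θ₁ * s) • ((h, 0) : ℂ × ℂ) := by simp
    rw [e, map_add, map_smul, map_smul, smul_eq_mul, smul_eq_mul, ← t9jump_mom,
      ← t9jump_frc] at h3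
    linarith
  rw [intervalIntegral.integral_add ((hxa.add intervalIntegrable_const).add
      (hGc.intervalIntegrable a b)) intervalIntegrable_const,
    intervalIntegral.integral_add (hxa.add intervalIntegrable_const)
      (hGc.intervalIntegrable a b), hGi, intervalIntegral.integral_const, smul_eq_mul] at hle
  rw [ac]
  linarith

/-- Affine variations of calibrated curves near the base point. -/
lemma t9jump_loc0 (U : Unif S) (k₀ R : ℝ) {τ : ℝ} (hτ : 0 < τ) : ∃ C δ : ℝ, 0 ≤ C ∧ 0 < δ ∧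
    ∀ L ∈ S, ∀ k, |k| ≤ k₀ → ∀ u, Dom L k u → ∀ x, Cal L k u x → ∀ (t : ℝ) (w : ℍ),
      dist (x t) I ≤ R → dist w (x t) ≤ δ → ∀ a b θ₀ θ₁ : ℝ, a < b → b - a ≤ τ →
      (∀ s ∈ Set.Icc a b, |s - t| ≤ τ) → (∀ s ∈ Set.Icc a b, |θ₀ + θ₁ * s| ≤ 1) → |θ₁| ≤ 1 / τ →
      ∃ y, Adm L y a b ∧ (∀ s, y s = ofComplex ((x s : ℂ) + (θ₀ + θ₁ * s) • ((w : ℂ) - x t))) ∧
        (∀ s ∈ Set.Icc a b, dist (y s) (x s) ≤ C * dist w (x t)) ∧
        ac L k y a b ≤ u (x b) - u (x a) + ((θ₀ + θ₁ * b) * mom L x b ((w : ℂ) - x t) -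
          (θ₀ + θ₁ * a) * mom L x a ((w : ℂ) - x t)) + C * dist w (x t) ^ 2 := by
  obtain ⟨Cl, hCl, hl⟩ := U.calLip k₀
  obtain ⟨Cs, hCs, hs⟩ := U.speed k₀
  obtain ⟨Ck, hCk, hk⟩ := KB_cmp (R + Cl * τ + 1)
  obtain ⟨δ₂, hδ₂, hth⟩ := KB_thick (R + Cl * τ)
  obtain ⟨M, hM, hty⟩ := U.taylor (R + Cl * τ + 1) (Cs * Ck + δ₂ / τ)
  have hCk0 : 0 < Ck := by linarith
  have hClτ : 0 ≤ Cl * τ := by positivity
  refine ⟨Ck ^ 2 + M * ((1 + 1 / τ) * Ck) ^ 2 * τ, min 1 (δ₂ / Ck), by positivity,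
    lt_min one_pos (by positivity), ?_⟩
  intro L hL k hk0 u hd x hx t w hR hw a b θ₀ θ₁ hab hba hst hθ hθ₁
  have hw1 : dist w (x t) ≤ 1 := hw.trans (min_le_left _ _)
  have hw2 : dist w (x t) ≤ δ₂ / Ck := hw.trans (min_le_right _ _)
  have hd0 : 0 ≤ dist w (x t) := dist_nonneg
  have hwI : dist w I ≤ R + Cl * τ + 1 := by
    have := dist_triangle w (x t) I
    linarith
  set h : ℂ := (w : ℂ) - x t with hh
  have hn : ‖h‖ ≤ Ck * dist w (x t) := (hk w (x t) hwI (by linarith)).2.1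
  have hn' : ‖h‖ ≤ δ₂ := by
    rw [le_div_iff₀ hCk0] at hw2
    linarith
  have hxs : ∀ s ∈ Set.Icc a b, dist (x s) I ≤ R + Cl * τ := fun s hs' => by
    have h1 := dist_triangle (x s) (x t) I
    have h2 := hl L hL k hk0 u hd x hx s t
    have h3 := mul_le_mul_of_nonneg_left (hst s hs') hCl
    linarith
  have hθh : ∀ s ∈ Set.Icc a b, ‖(θ₀ + θ₁ * s) • h‖ ≤ ‖h‖ := fun s hs' => by
    rw [norm_smul, Real.norm_eq_abs]
    exact mul_le_of_le_one_left (norm_nonneg _) (hθ s hs')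
  have hθ₁h : ‖θ₁ • h‖ ≤ 1 / τ * ‖h‖ := by
    rw [norm_smul, Real.norm_eq_abs]
    exact mul_le_mul_of_nonneg_right hθ₁ (norm_nonneg _)
  have hmem : ∀ s ∈ Set.Icc a b, (x s : ℂ) + (θ₀ + θ₁ * s) • h ∈ KB (R + Cl * τ + 1) :=
    fun s hs' => hth _ (mem_KB.2 (hxs s hs')) _ ((hθh s hs').trans hn')
  have hvel : ∀ s ∈ Set.Icc a b, ‖vel x s‖ ≤ Cs * Ck := fun s hs' => by
    have h1 := (hs L hL k hk0 u hd x hx s).1
    have h2 := (hk (x s) (x s) (by linarith [hxs s hs']) (by linarith [hxs s hs'])).2.2.2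
    exact h1.trans (mul_le_mul_of_nonneg_left h2 hCs)
  have hτ1 : 0 < 1 / τ := by positivity
  have hδτ : 1 / τ * ‖h‖ ≤ δ₂ / τ := by
    rw [div_eq_mul_one_div δ₂ τ, mul_comm δ₂]
    exact mul_le_mul_of_nonneg_left hn' hτ1.le
  obtain ⟨h1, h2⟩ := t9jump_var (U.smooth L hL) (hx.reg U hL hd) hab θ₀ θ₁ h
    (A := M * ((1 + 1 / τ) * Ck * dist w (x t)) ^ 2) k
    (fun s hs' => KB_sub _ (hmem s hs')) (fun s hs' => by
      have a1 := (hty L hL (jet x s) ((x s : ℂ) + (θ₀ + θ₁ * s) • h, vel x s + θ₁ • h)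
        (mem_KB.2 (by linarith [hxs s hs'])) (hmem s hs')
        (by
          have := hvel s hs'
          have : 0 ≤ δ₂ / τ := by positivity
          show ‖vel x s‖ ≤ _
          linarith)
        (by
          have := hvel s hs'
          have := norm_add_le (vel x s) (θ₁ • h)
          show ‖vel x s + θ₁ • h‖ ≤ _
          linarith)).2.2.2.1
      have e : (((x s : ℂ) + (θ₀ + θ₁ * s) • h, vel x s + θ₁ • h) : ℂ × ℂ) - jet x s =
          ((θ₀ + θ₁ * s) • h, θ₁ • h) := by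
        simp [jet]
      rw [e] at a1
      have a2 : ‖(((θ₀ + θ₁ * s) • h, θ₁ • h) : ℂ × ℂ)‖ ≤ (1 + 1 / τ) * Ck * dist w (x t) := by
        have b1 := hθh s hs'
        have b2 : 0 ≤ 1 / τ * ‖h‖ := by positivity
        have b3 : (1 + 1 / τ) * ‖h‖ ≤ (1 + 1 / τ) * (Ck * dist w (x t)) :=
          mul_le_mul_of_nonneg_left hn (by positivity)
        have b4 := norm_nonneg h
        rw [Prod.norm_def]
        refine max_le ?_ ?_ <;> dsimp only <;> nlinarith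
      exact (le_abs_self _).trans (a1.trans
        (mul_le_mul_of_nonneg_left (pow_le_pow_left₀ (norm_nonneg _) a2 2) hM)))
  refine ⟨_, h1, fun s => rfl, fun s hs' => ?_, ?_⟩
  · have a0 : 0 < ((x s : ℂ) + (θ₀ + θ₁ * s) • h).im := KB_sub _ (hmem s hs')
    have a1 : ((ofComplex ((x s : ℂ) + (θ₀ + θ₁ * s) • h) : ℍ) : ℂ) =
        (x s : ℂ) + (θ₀ + θ₁ * s) • h := by
      rw [ofComplex_apply_of_im_pos a0]
    have a2 := (hk (ofComplex ((x s : ℂ) + (θ₀ + θ₁ * s) • h)) (x s)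
      (mem_KB.1 (by rw [a1]; exact hmem s hs')) (by linarith [hxs s hs'])).1
    rw [a1, add_sub_cancel_left] at a2
    have a3 := mul_le_mul_of_nonneg_left ((hθh s hs').trans hn) hCk0.le
    have a4 : 0 ≤ M * ((1 + 1 / τ) * Ck) ^ 2 * τ * dist w (x t) := by positivity
    nlinarith
  · rw [← (hx a b hab).2] at h2
    have a1 : M * ((1 + 1 / τ) * Ck * dist w (x t)) ^ 2 * (b - a) ≤
        M * ((1 + 1 / τ) * Ck * dist w (x t)) ^ 2 * τ :=
      mul_le_mul_of_nonneg_left hba (by positivity)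
    have a2 : 0 ≤ Ck ^ 2 * dist w (x t) ^ 2 := by positivity
    nlinarith

theorem Unif.jump (F : Deck Γ) (U : Unif S) (k₀ : ℝ) {τ : ℝ} (hτ : 0 < τ) : ∃ C δ : ℝ, 0 ≤ C ∧
    0 < δ ∧ ∀ L ∈ S, Tonelli Γ L → ∀ k, |k| ≤ k₀ → ∀ u, Dom L k u → ∀ x, Cal L k u x →
      ∀ (t : ℝ) (w : ℍ), dist w (x t) ≤ δ →
      (∃ y, Adm L y t (t + τ) ∧ y t = w ∧ y (t + τ) = x (t + τ) ∧
        (∀ s ∈ Set.Icc t (t + τ), dist (y s) (x s) ≤ C * dist w (x t)) ∧
        ac L k y t (t + τ) ≤ u (x (t + τ)) - u w + C * dist w (x t) ^ 2) ∧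
      ∃ y, Adm L y (t - τ) t ∧ y (t - τ) = x (t - τ) ∧ y t = w ∧
        (∀ s ∈ Set.Icc (t - τ) t, dist (y s) (x s) ≤ C * dist w (x t)) ∧
        ac L k y (t - τ) t ≤ u w - u (x (t - τ)) + C * dist w (x t) ^ 2 := by
  obtain ⟨R, hR⟩ := F.cpt
  obtain ⟨C₁, δ₁, hC₁, hδ₁, h1⟩ := U.twoI F k₀
  obtain ⟨C₂, δ₂, hC₂, hδ₂, h2⟩ := t9jump_loc0 U k₀ R hτ
  refine ⟨C₁ + C₂, min δ₁ δ₂, by positivity, lt_min hδ₁ hδ₂, ?_⟩
  intro L hL hT k hk u hd x hx t w hw
  obtain ⟨γ, hγ⟩ := hR (x t)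
  have hd' := hd.smul F hT γ⁻¹
  have hx' := hx.smul F hT γ
  have hw' : dist (γ • w) (γ • x t) = dist w (x t) := F.iso γ w (x t)
  have hd0 : 0 ≤ dist w (x t) := dist_nonneg
  have h3 := h1 L hL hT k hk _ hd' _ hx' t (γ • w) (by
    rw [hw']
    exact hw.trans (min_le_left _ _))
  have h4 := h2 L hL k hk _ hd' _ hx' t (γ • w) hγ (by
    rw [hw']
    exact hw.trans (min_le_right _ _))
  simp only [inv_smul_smul, hw'] at h3 h4
  rw [abs_le] at h3
  have hback : ∀ (y : ℝ → ℍ) (s : ℝ), dist (γ⁻¹ • y s) (x s) = dist (y s) (γ • x s) := by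
    intro y s
    rw [← F.iso γ, smul_inv_smul]
  have hC : C₂ * dist w (x t) ≤ (C₁ + C₂) * dist w (x t) := by nlinarith
  have hτ0 : τ ≠ 0 := hτ.ne'
  constructor
  · have e1 : (t + τ) / τ + -(1 / τ) * t = 1 := by field_simp; ring
    have e2 : (t + τ) / τ + -(1 / τ) * (t + τ) = 0 := by field_simp; ring
    obtain ⟨y, y1, y2, y3, y4⟩ := h4 t (t + τ) ((t + τ) / τ) (-(1 / τ)) (by linarith)
      (by linarith) (fun s hs => abs_le.2 ⟨by linarith [hs.1], by linarith [hs.2]⟩)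
      (fun s hs => by
        have e : (t + τ) / τ + -(1 / τ) * s = (t + τ - s) / τ := by field_simp; ring
        rw [e, abs_div, abs_of_pos hτ, div_le_one hτ]
        exact abs_le.2 ⟨by linarith [hs.2], by linarith [hs.1]⟩)
      (by rw [abs_neg, abs_of_pos (by positivity)])
    refine ⟨fun s => γ⁻¹ • y s, y1.smul F hT γ⁻¹, ?_, ?_, fun s hs => ?_, ?_⟩
    · simp only [y2, e1, one_smul, add_sub_cancel, ofComplex_apply, inv_smul_smul]
    · simp only [y2, e2, zero_smul, add_zero, ofComplex_apply, inv_smul_smul]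
    · rw [hback]
      exact (y3 s hs).trans hC
    · rw [hT.ac_smul F]
      rw [e1, e2] at y4
      linarith [h3.2]
  · have e1 : (τ - t) / τ + 1 / τ * (t - τ) = 0 := by field_simp; ring
    have e2 : (τ - t) / τ + 1 / τ * t = 1 := by field_simp; ring
    obtain ⟨y, y1, y2, y3, y4⟩ := h4 (t - τ) t ((τ - t) / τ) (1 / τ) (by linarith)
      (by linarith) (fun s hs => abs_le.2 ⟨by linarith [hs.1], by linarith [hs.2]⟩)
      (fun s hs => by
        have e : (τ - t) / τ + 1 / τ * s = (τ - t + s) / τ := by field_simp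
        rw [e, abs_div, abs_of_pos hτ, div_le_one hτ]
        exact abs_le.2 ⟨by linarith [hs.1], by linarith [hs.2]⟩)
      (by rw [abs_of_pos (by positivity)])
    refine ⟨fun s => γ⁻¹ • y s, y1.smul F hT γ⁻¹, ?_, ?_, fun s hs => ?_, ?_⟩
    · simp only [y2, e1, zero_smul, add_zero, ofComplex_apply, inv_smul_smul]
    · simp only [y2, e2, one_smul, add_sub_cancel, ofComplex_apply, inv_smul_smul]
    · rw [hback]
      exact (y3 s hs).trans hC
    · rw [hT.ac_smul F]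
      rw [e1, e2] at y4
      linarith [h3.1]

end Pool.Agent.Lib.MP_5bb885_an.Gen
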