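import Pool.Agent.Lib.MP_5bb885_an.T18Main

/-!
The theorem for Lagrangians whose second derivatives are locally Lipschitz.
-/

namespace Pool.Agent.Lib.MP_5bb885_an.Gen

open UpperHalfPlane MeasureTheory Filter Topology

variable {Γ : Type} [Group Γ] [MulAction Γ ℍ] {L : ℂ × ℂ → ℝ} {b : ℕ}

lemma lip2_of_loc (hL : LocallyLipschitzOn TH (D2 L)) : Lip2 {L} := by
  intro R r
  obtain ⟨hK, -, hs⟩ := t9tay_KT R r
  obtain ⟨A, hA⟩ := (hL.mono hs).exists_lipschitzOnWith_of_compact hK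
  refine ⟨A, A.2, ?_⟩
  rintro _ rfl p p' hp hp' hv hv'
  have h := hA.dist_le_mul p (t9tay_mem hp hv) p' (t9tay_mem hp' hv')
  rwa [dist_eq_norm, dist_eq_norm] at h

lemma lip2_add (hL2 : ContDiffOn ℝ 2 L TH) (hL : Lip2 {L}) {G : Set (ℂ → ℝ)}
    (hG : ∀ f ∈ G, Pot Γ f)
    (h : ∀ R : ℝ, ∃ M : ℝ, ∀ f ∈ G, ∀ j ≤ 3, ∀ z ∈ KB R, ‖iteratedFDeriv ℝ j f z‖ ≤ M) :
    Lip2 (addP L '' G) := by
  intro R r
  obtain ⟨A, hA0, hA⟩ := hL R r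
  obtain ⟨M, hM⟩ := h R
  refine ⟨A + |M|, by positivity, ?_⟩
  rintro _ ⟨f, hf, rfl⟩ p p' hp hp' hv hv'
  have h2 : ContDiffOn ℝ 3 f HP := t18c3_pot (hG f hf)
  have a1 : ‖D2 L p - D2 L p'‖ ≤ A * ‖p - p'‖ := hA L rfl p p' hp hp' hv hv'
  have a2 : ‖fderiv ℝ (fderiv ℝ f) p.1 - fderiv ℝ (fderiv ℝ f) p'.1‖ ≤ |M| * ‖p.1 - p'.1‖ :=
    (convex_KB R).norm_image_sub_le_of_norm_fderiv_le (𝕜 := ℝ)
      (fun x hx => ((t18c3_c1 isOpen_HP h2).contDiffAt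
        (isOpen_HP.mem_nhds (KB_sub R hx))).differentiableAt (by norm_num))
      (fun x hx => by
        rw [← norm_iteratedFDeriv_one, norm_iteratedFDeriv_fderiv, norm_iteratedFDeriv_fderiv]
        exact (hM f hf 3 le_rfl x hx).trans (le_abs_self _)) hp' hp
  have a3 : ‖fderiv ℝ (fderiv ℝ f) p.1 - fderiv ℝ (fderiv ℝ f) p'.1‖ ≤ |M| * ‖p - p'‖ :=
    a2.trans (mul_le_mul_of_nonneg_left (norm_fst_le (p - p')) (abs_nonneg _))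
  have hf2 : ContDiffOn ℝ 2 f HP := h2.of_le (by norm_num)
  refine ContinuousLinearMap.opNorm_le_bound₂ _ (by positivity) fun u k => ?_
  have e : (D2 (addP L f) p - D2 (addP L f) p') u k = (D2 L p - D2 L p') u k +
      (fderiv ℝ (fderiv ℝ f) p.1 - fderiv ℝ (fderiv ℝ f) p'.1) u.1 k.1 := by
    simp only [sub_apply]
    rw [D2_addP hL2 hf2 (KB_sub R hp), D2_addP hL2 hf2 (KB_sub R hp')]
    ring
  rw [e]
  have b1 := (D2 L p - D2 L p').le_of_opNorm₂_le_of_le a1 (le_refl ‖u‖) (le_refl ‖k‖)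
  have b2 := (fderiv ℝ (fderiv ℝ f) p.1 - fderiv ℝ (fderiv ℝ f) p'.1).le_of_opNorm₂_le_of_le a3
    (norm_fst_le u) (norm_fst_le k)
  exact (norm_add_le _ _).trans (by linarith)

lemma Pot.bdd3 {f : ℂ → ℝ} (hf : Pot Γ f) (R : ℝ) : ∃ M : ℝ, ∀ g ∈ ({f} : Set (ℂ → ℝ)), ∀ j ≤ 3,
    ∀ z ∈ KB R, ‖iteratedFDeriv ℝ j g z‖ ≤ M := by
  have h : ∀ i : ℕ, ∃ D : ℝ, ∀ z ∈ KB R, ‖iteratedFDerivWithin ℝ i f HP z‖ ≤ D := fun i =>
    (isCompact_KB R).exists_bound_of_continuousOn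
      ((hf.smooth.continuousOn_iteratedFDerivWithin (t18c3_top i)
        isOpen_HP.uniqueDiffOn).mono (KB_sub R))
  choose D hD using h
  refine ⟨∑ i ∈ Finset.range 4, |D i|, ?_⟩
  rintro _ rfl i hi z hz
  rw [← iteratedFDerivWithin_of_isOpen i isOpen_HP (KB_sub R hz)]
  refine ((hD i z hz).trans (le_abs_self _)).trans ?_
  exact Finset.single_le_sum (f := fun i => |D i|) (fun _ _ => abs_nonneg _)
    (Finset.mem_range.2 (by omega))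

theorem dense_good_lip (F : Deck Γ) (hL : Tonelli Γ L) (h3 : LocallyLipschitzOn TH (D2 L))
    (e : (Fin b → ℝ) ≃ₗ[ℝ] Coh Γ) {f : ℂ → ℝ} (hf : Pot Γ f) (k : ℕ) {δ : ℝ} (hδ : 0 < δ) :
    ∃ g, Pot Γ g ∧ Near k δ f g ∧ ∀ᵐ t, Gs (addP L g) (e t : Γ → ℝ) := by
  obtain ⟨k₀, hk₀⟩ := F.three
  obtain ⟨ε, P, hP, hN⟩ := exists_pert F (max k k₀) hδ
  have hL' : Tonelli Γ (addP L f) := hL.add F hf.c2
  have hb : ∀ R : ℝ, ∃ M : ℝ, ∀ g ∈ Set.range P, ∀ j ≤ 3, ∀ z ∈ KB R,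
      ‖iteratedFDeriv ℝ j g z‖ ≤ M := fun R => by
    obtain ⟨M, hM⟩ := hk₀ δ R
    refine ⟨M, ?_⟩
    rintro _ ⟨a, rfl⟩
    have h1 := (hN a 0).mono (le_max_right k k₀)
    rw [zero_add] at h1
    exact hM _ (hP.pot a) h1
  have h0 : Lip2 {addP L f} := by
    have := lip2_add (Γ := Γ) hL.smooth (lip2_of_loc h3) (G := {f})
      (by rintro _ rfl; exact hf) hf.bdd3
    rwa [Set.image_singleton] at this
  have hl : Lip2 (addP (addP L f) '' Set.range P) :=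
    lip2_add (Γ := Γ) hL'.smooth h0 (by rintro _ ⟨a, rfl⟩; exact hP.pot a) hb
  obtain ⟨a, ⟨h1, h2⟩, h4⟩ := (((hP.ae_tdall F hL' e).and (hP.ae_nondeg F hL')).and
    (hP.ae_nodegO F hL' e (bddC2_of_three hb) hl)).exists
  refine ⟨f + P a, hf.add (hP.pot a), (hN a f).mono (le_max_left k k₀), ?_⟩
  rw [addP_addP] at h1 h2 h4
  filter_upwards [h1, h4] with t ht ht'
  rcases ht.gs_or' F (hL.add F (hf.add (hP.pot a)).c2) (e t).2 with h5 | h5 | h5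
  · exact h5
  · exact absurd h5 h2
  · exact absurd h5 ht'

theorem main_lip (F : Deck Γ) (hL : Tonelli Γ L) (h3 : LocallyLipschitzOn TH (D2 L)) :
    ∃ b : ℕ, Nonempty ((Fin b → ℝ) ≃ₗ[ℝ] Coh Γ) ∧ ∃ O : ℕ → Set (ℂ → ℝ),
      (∀ n, OpenDense Γ (O n)) ∧ ∀ f, Pot Γ f → (∀ n, f ∈ O n) →
        ∀ e : (Fin b → ℝ) ≃ₗ[ℝ] Coh Γ, ∀ᵐ t, Good Γ (addP L f) (e t : Γ → ℝ) := by
  obtain ⟨b, ⟨e₀⟩⟩ := F.dim
  obtain ⟨O, hO, hG⟩ := residual_good F hL e₀ fun f hf k δ hδ => dense_good_lip F hL h3 e₀ hf k hδ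
  refine ⟨b, ⟨e₀⟩, O, hO, fun f hf hfO e => ?_⟩
  have h1 := ae_transfer e₀ e (P := fun c : Coh Γ => Gs (addP L f) (c : Γ → ℝ)) (hG f hf hfO)
  filter_upwards [h1] with t ht
  exact ht.good F (hL.add F hf.c2) (e t).2

end Pool.Agent.Lib.MP_5bb885_an.Gen
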