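import Pool.Agent.Lib.MP_5bb885_an.T9HL

/-!
Openness of the good property.
-/

namespace Pool.Agent.Lib.MP_5bb885_an.Gen

open UpperHalfPlane MeasureTheory Filter Topology

variable {Γ : Type} [Group Γ] [MulAction Γ ℍ] {L : ℂ × ℂ → ℝ} {Ls : ℕ → ℂ × ℂ → ℝ}
  {c : Γ → ℝ} {cs : ℕ → Γ → ℝ} {x : ℝ → ℍ}

lemma t9open_half {α : Type} (f : α → ℝ) (A : Set α) {B : ℝ} (hB : ∀ p ∈ A, f p ≤ B) {p₀ : α}
    (h0 : p₀ ∈ A) (h1 : 0 < f p₀) : ∃ p ∈ A, 0 < f p ∧ ∀ q ∈ A, f q ≤ 2 * f p := by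
  have hb : BddAbove (f '' A) := ⟨B, by rintro _ ⟨p, hp, rfl⟩; exact hB p hp⟩
  have hle : ∀ q ∈ A, f q ≤ sSup (f '' A) := fun q hq => le_csSup hb ⟨q, hq, rfl⟩
  have h2 := hle p₀ h0
  obtain ⟨_, ⟨p, hp, rfl⟩, h3⟩ := exists_lt_of_lt_csSup (s := f '' A) ⟨_, p₀, h0, rfl⟩
    (show sSup (f '' A) / 2 < sSup (f '' A) by linarith)
  exact ⟨p, hp, by linarith, fun q hq => by linarith [hle q hq]⟩

lemma t9open_choose (F : Deck Γ) {l : Filter ℕ} (h : LSeq Γ l L Ls) (hcs : ∀ n, cs n ∈ Coh Γ)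
    (P : ℕ → (ℍ → ℝ) → (ℝ → ℍ) → (ℝ → ℍ) → Prop)
    (hb : ∀ᶠ n in l, ∃ u y z, Eqv (cs n) u ∧ Dom (Ls n) (crit (Ls n) (cs n)) u ∧
      Cal (Ls n) (crit (Ls n) (cs n)) u y ∧ Cal (Ls n) (crit (Ls n) (cs n)) u z ∧ P n u y z) :
    ∃ (us : ℕ → ℍ → ℝ) (ys zs : ℕ → ℝ → ℍ), (∀ n, Eqv (cs n) (us n)) ∧
      (∀ n, Dom (Ls n) (crit (Ls n) (cs n)) (us n)) ∧
      (∀ n, Cal (Ls n) (crit (Ls n) (cs n)) (us n) (ys n)) ∧
      (∀ n, Cal (Ls n) (crit (Ls n) (cs n)) (us n) (zs n)) ∧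
      ∀ᶠ n in l, P n (us n) (ys n) (zs n) := by
  have H : ∀ n, ∃ u y z, (Eqv (cs n) u ∧ Dom (Ls n) (crit (Ls n) (cs n)) u ∧
      Cal (Ls n) (crit (Ls n) (cs n)) u y ∧ Cal (Ls n) (crit (Ls n) (cs n)) u z) ∧
      ((∃ u y z, Eqv (cs n) u ∧ Dom (Ls n) (crit (Ls n) (cs n)) u ∧
      Cal (Ls n) (crit (Ls n) (cs n)) u y ∧ Cal (Ls n) (crit (Ls n) (cs n)) u z ∧ P n u y z) →
        P n u y z) := by
    intro n
    by_cases e : ∃ u y z, Eqv (cs n) u ∧ Dom (Ls n) (crit (Ls n) (cs n)) u ∧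
      Cal (Ls n) (crit (Ls n) (cs n)) u y ∧ Cal (Ls n) (crit (Ls n) (cs n)) u z ∧ P n u y z
    · obtain ⟨u, y, z, h1, h2, h3, h4, h5⟩ := e
      exact ⟨u, y, z, ⟨h1, h2, h3, h4⟩, fun _ => h5⟩
    · obtain ⟨u, h1, h2⟩ := exists_dom F (h.tons n) (hcs n)
      obtain ⟨y, h3⟩ := exists_cal F (h.tons n) (hcs n) h1 h2
      exact ⟨u, y, y, ⟨h1, h2, h3, h3⟩, fun e' => absurd e' e⟩
  choose us ys zs h1 h2 using H
  exact ⟨us, ys, zs, fun n => (h1 n).1, fun n => (h1 n).2.1, fun n => (h1 n).2.2.1,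
    fun n => (h1 n).2.2.2, hb.mono h2⟩

lemma t9open_k (F : Deck Γ) {l : Filter ℕ} (h : LSeq Γ l L Ls) (hc : c ∈ Coh Γ)
    (hcs : ∀ n, cs n ∈ Coh Γ) (hl : CLim l c cs) :
    ∀ᶠ n in l, |crit (Ls n) (cs n)| ≤ |crit L c| + 1 :=
  (h.tendsto_crit F hc hcs hl).abs.eventually (eventually_le_nhds (lt_add_one _))

lemma t9open_mem (L : ℂ × ℂ → ℝ) (Ls : ℕ → ℂ × ℂ → ℝ) (n : ℕ) :
    Ls n ∈ insert L (Set.range Ls) := Or.inr ⟨n, rfl⟩

lemma t9open_close {l : Filter ℕ} {y z : ℕ → ℍ} {p : ℍ} (hy : Tendsto y l (𝓝 p))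
    (hz : Tendsto z l (𝓝 p)) {ε : ℝ} (hε : 0 < ε) : ∀ᶠ n in l, dist (y n) (z n) ≤ ε := by
  have := hy.dist hz
  rw [dist_self] at this
  exact this.eventually (eventually_le_nhds hε)

/-- Limits of pairs of close calibrated curves. -/
lemma t9open_pair (F : Deck Γ) {l : Ultrafilter ℕ} (h : LSeq Γ l L Ls) (hc : c ∈ Coh Γ)
    (hcs : ∀ n, cs n ∈ Coh Γ) (hl : CLim l c cs)
    (hx : ∀ u, Eqv c u → Dom L (crit L c) u →
      ∀ y, Cal L (crit L c) u y → ∃ (δ : Γ) (s : ℝ), ∀ t, y t = δ • x (t + s))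
    {us : ℕ → ℍ → ℝ} {ys zs : ℕ → ℝ → ℍ} (hu : ∀ n, Eqv (cs n) (us n))
    (hd : ∀ n, Dom (Ls n) (crit (Ls n) (cs n)) (us n))
    (hy : ∀ n, Cal (Ls n) (crit (Ls n) (cs n)) (us n) (ys n))
    (hz : ∀ n, Cal (Ls n) (crit (Ls n) (cs n)) (us n) (zs n)) {ε : ℝ}
    (he : ∀ᶠ n in l, dist (ys n 0) (zs n 0) ≤ ε) :
    ∃ (δ : ℕ → Γ) (s s' : ℝ) (g : Γ),
      (∀ t, Tendsto (fun n => δ n • ys n t) l (𝓝 (x (t + s)))) ∧
      (∀ t, Tendsto (fun n => δ n • zs n t) l (𝓝 (g • x (t + s')))) ∧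
      dist (g • x s') (x s) ≤ ε := by
  obtain ⟨δ, s, h1⟩ := h.lim_gs F hc hcs hl hx hu hd hy
  obtain ⟨δ', s', h2⟩ := h.lim_gs F hc hcs hl hx hu hd hz
  set R := |ε| + dist (x (0 + s)) I + dist (x (0 + s')) I + 1 with hR
  have e1 := t9open_close (h1 0) tendsto_const_nhds one_pos
  have e2 := t9open_close (h2 0) tendsto_const_nhds one_pos
  have e3 : ∀ᶠ n in l, ∃ g ∈ {γ : Γ | ∃ z : ℍ, dist z I ≤ R ∧ dist (γ • z) I ≤ R},
      δ n * (δ' n)⁻¹ = g := by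
    filter_upwards [e1, e2, he] with n a1 a2 a3
    refine ⟨_, ⟨δ' n • zs n 0, ?_, ?_⟩, rfl⟩
    · have := dist_triangle (δ' n • zs n 0) (x (0 + s')) I
      have := abs_nonneg ε
      have := dist_nonneg (x := x (0 + s)) (y := I)
      linarith
    · rw [mul_smul, inv_smul_smul]
      have := dist_triangle4 (δ n • zs n 0) (δ n • ys n 0) (x (0 + s)) I
      rw [F.iso, dist_comm (zs n 0)] at this
      have := le_abs_self ε
      have := dist_nonneg (x := x (0 + s')) (y := I)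
      linarith
  obtain ⟨g, -, hg⟩ := (Ultrafilter.eventually_exists_mem_iff (F.fin' R)).1 e3
  have h3 : ∀ t, Tendsto (fun n => δ n • zs n t) l (𝓝 (g • x (t + s'))) := by
    intro t
    refine (((F.cont g).tendsto _).comp (h2 t)).congr' ?_
    filter_upwards [hg] with n a
    simp only [Function.comp, ← a, mul_smul, inv_smul_smul]
  refine ⟨δ, s, s', g, h1, h3, ?_⟩
  have h4 := (h3 0).dist (h1 0)
  rw [zero_add, zero_add] at h4
  refine le_of_tendsto h4 (he.mono fun n a => ?_)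
  rw [F.iso, dist_comm]
  exact a

/-- Local expansivity of the calibrated sets near a hyperbolic orbit that is not constant. -/
lemma LSeq.local_a (F : Deck Γ) {l : Ultrafilter ℕ} (h : LSeq Γ l L Ls) (hc : c ∈ Coh Γ)
    (hcs : ∀ n, cs n ∈ Coh Γ) (hl : CLim l c cs) {γ : Γ} {T : ℝ} (hp : Per x γ T) (hH : Hyp L x)
    (hv : ∀ t, vel x t ≠ 0) (hx : ∀ u, Eqv c u → Dom L (crit L c) u → Cal L (crit L c) u x ∧
      ∀ y, Cal L (crit L c) u y → ∃ (δ : Γ) (s : ℝ), ∀ t, y t = δ • x (t + s))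
    {τ : ℝ} (hτ : 0 < τ) : ∃ ε : ℝ, 0 < ε ∧ ∀ᶠ n in l, ∀ u, Eqv (cs n) u →
      Dom (Ls n) (crit (Ls n) (cs n)) u → ∀ y z, Cal (Ls n) (crit (Ls n) (cs n)) u y →
        Cal (Ls n) (crit (Ls n) (cs n)) u z → dist (y 0) (z 0) ≤ ε →
          ∃ a, |a| ≤ τ ∧ y 0 = z a := by
  obtain ⟨u₀, hu₀, hd₀⟩ := exists_dom F h.ton hc
  have hx₀ := (hx u₀ hu₀ hd₀).1
  have hL : L ∈ insert L (Set.range Ls) := Set.mem_insert _ _
  have hR : Reg L x := hx₀.reg h.unif hL hd₀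
  obtain ⟨γ', T', hm⟩ := hx₀.minPer F h.ton hu₀ hd₀ hp hv
  have hT' : 0 < T' := hm.1.1
  obtain ⟨σ₀, hσ₀, hσ₁, hσ₂⟩ : ∃ σ₀ : ℝ, 0 < σ₀ ∧ σ₀ ≤ τ ∧ σ₀ ≤ T' / 4 :=
    ⟨min τ (T' / 4), lt_min hτ (by linarith), min_le_left _ _, min_le_right _ _⟩
  obtain ⟨ε, hε, hemb⟩ := hx₀.emb F h.ton hu₀ hd₀ hp (show 0 < σ₀ / 4 by linarith)
  refine ⟨ε, hε, ?_⟩
  by_contra hcon
  have hbad := Ultrafilter.eventually_not.2 hcon
  obtain ⟨us, ys, zs, hu, hd, hy, hz, hP⟩ := t9open_choose F h hcs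
    (fun n u y z => ∃ a, dist (y 0) (z 0) ≤ ε ∧ |a| ≤ σ₀ ∧ 0 < dist (y 0) (z a) ∧
      (∀ a', |a'| ≤ σ₀ → dist (y 0) (z a) ≤ dist (y 0) (z a')) ∧
      ∀ y' z', Cal (Ls n) (crit (Ls n) (cs n)) u y' → Cal (Ls n) (crit (Ls n) (cs n)) u z' →
        dist (y' 0) (z' 0) ≤ ε → ∃ a', |a'| ≤ σ₀ ∧ dist (y' 0) (z' a') ≤ 2 * dist (y 0) (z a)) (by
    filter_upwards [hbad] with n hn
    push Not at hn
    obtain ⟨u, h1, h2, y, z, h3, h4, h5, h6⟩ := hn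
    have hmin : ∀ (y' z' : ℝ → ℍ), Cal (Ls n) (crit (Ls n) (cs n)) u z' →
        ∃ a, |a| ≤ σ₀ ∧ ∀ a', |a'| ≤ σ₀ → dist (y' 0) (z' a) ≤ dist (y' 0) (z' a') := by
      intro y' z' hz'
      obtain ⟨a, ha, hmin⟩ := (isCompact_Icc (a := -σ₀) (b := σ₀)).exists_isMinOn
        ⟨0, by constructor <;> linarith⟩
        (f := fun a => dist (y' 0) (z' a)) (continuous_const.dist hz'.continuous).continuousOn
      exact ⟨a, abs_le.2 ha, fun a' ha' => hmin (abs_le.1 ha')⟩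
    obtain ⟨a, ha1, ha2⟩ := hmin y z h4
    obtain ⟨⟨y₁, z₁, a₁⟩, ⟨b1, b2, b3, b4, b5⟩, b6, b7⟩ := t9open_half
      (fun p : (ℝ → ℍ) × (ℝ → ℍ) × ℝ => dist (p.1 0) (p.2.1 p.2.2))
      {p | Cal (Ls n) (crit (Ls n) (cs n)) u p.1 ∧ Cal (Ls n) (crit (Ls n) (cs n)) u p.2.1 ∧
        dist (p.1 0) (p.2.1 0) ≤ ε ∧ |p.2.2| ≤ σ₀ ∧
        ∀ a', |a'| ≤ σ₀ → dist (p.1 0) (p.2.1 p.2.2) ≤ dist (p.1 0) (p.2.1 a')} (B := ε)
      (fun p hp => (hp.2.2.2.2 0 (by simpa using hσ₀.le)).trans hp.2.2.1) (p₀ := (y, z, a))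
      ⟨h3, h4, h5, ha1, ha2⟩ (dist_pos.2 (h6 a (ha1.trans hσ₁)))
    refine ⟨u, y₁, z₁, h1, h2, b1, b2, a₁, b3, b4, b6, b5, fun y' z' c1 c2 c3 => ?_⟩
    obtain ⟨a', c4, c5⟩ := hmin y' z' c2
    exact ⟨a', c4, b7 (y', z', a') ⟨c1, c2, c3, c4, c5⟩⟩)
  obtain ⟨as, hA⟩ := hP.choice
  obtain ⟨δ, s, s', g, h1, h2, h3⟩ := t9open_pair F h hc hcs hl (fun u a b => (hx u a b).2) hu hd
    hy hz (hA.mono fun n a => a.1)
  obtain ⟨σ, hσ, hg⟩ := hemb g s s' h3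
  have h4 : ∀ t, Tendsto (fun n => δ n • zs n t) l (𝓝 (x (t + σ + s))) := by
    intro t
    have := Cal.unique h.unif hL hd₀ (hx₀.smul_eqv F h.ton hu₀ g) hx₀ hg t
    have e : x (t + σ + s) = g • x (t + s') := by
      rw [add_comm t s', this]
      congr 1
      ring
    rw [e]
    exact h2 t
  have hk := t9open_k F h hc hcs hl
  obtain ⟨a₀, ha₀, ha⟩ : ∃ a₀ ∈ Set.Icc (-σ₀) σ₀, Tendsto as l (𝓝 a₀) :=
    (isCompact_Icc (a := -σ₀) (b := σ₀)).ultrafilter_le_nhds' (l.map as)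
      (hA.mono fun n a => abs_le.1 a.2.1)
  obtain ⟨C, -, hC⟩ := h.unif.calLip (|crit L c| + 1)
  have h5 : ∀ t, Tendsto (fun n => δ n • zs n (t + as n)) l (𝓝 (x (t + a₀ + σ + s))) := by
    intro t
    refine (h4 (t + a₀)).congr_dist (squeeze_zero' (Eventually.of_forall fun _ => dist_nonneg)
      (g := fun n => C * |t + a₀ - (t + as n)|) ?_ ?_)
    · filter_upwards [hk] with n a
      rw [F.iso]
      exact hC _ (t9open_mem L Ls n) _ a _ (hd n) _ (hz n) _ _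
    · have : Tendsto (fun n => C * |t + a₀ - (t + as n)|) l (𝓝 (C * |t + a₀ - (t + a₀)|)) :=
        (tendsto_const_nhds.sub (ha.const_add t)).abs.const_mul C
      simpa using this
  have hσ' := abs_le.1 hσ
  have h6 : a₀ + σ = 0 := by
    have b1 := (h1 0).dist (h5 0)
    have b2 := (h1 0).dist (h4 (-σ))
    have b3 := le_of_tendsto_of_tendsto b1 b2 (hA.mono fun n a => by
      simp only [F.iso, zero_add]
      exact a.2.2.2.1 (-σ) (abs_le.2 ⟨by linarith, by linarith⟩))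
    rw [neg_add_cancel, dist_self, dist_le_zero] at b3
    refine hm.inj s (a₀ + σ) (abs_le.2 ⟨by linarith [ha₀.1], by linarith [ha₀.2]⟩) ?_
    rw [zero_add, zero_add] at b3
    rw [add_comm s]
    exact b3.symm
  have h7 : ∀ t, Tendsto (fun n => δ n • zs n (t + as n)) l (𝓝 (x (t + s))) := by
    intro t
    have := h5 t
    rwa [add_assoc t, h6, add_zero] at this
  have h8 : ∀ᶠ n in l, |as n| ≤ σ₀ / 2 :=
    ha.abs.eventually (eventually_le_nhds (abs_lt.2 ⟨by linarith, by linarith⟩))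
  have hY : ∀ n, Cal (Ls n) (crit (Ls n) (cs n)) (us n) fun t => δ n • ys n t :=
    fun n => (hy n).smul_eqv F (h.tons n) (hu n) (δ n)
  have hZ : ∀ n, Cal (Ls n) (crit (Ls n) (cs n)) (us n) fun t => δ n • zs n (t + as n) :=
    fun n => ((hz n).shift (as n)).smul_eqv F (h.tons n) (hu n) (δ n)
  have key := h.expa (x := fun t => x (t + s)) hk hd hY hZ (hR.shift s) (hH.shift s)
    (fun t => by rw [vel_shift]; exact hv _) (τ := σ₀)
    (fun t a b1 b2 => hm.inj (t + s) a (by linarith) (by rw [add_right_comm]; exact b2)) h1 h7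
    (hA.mono fun n a => by simpa only [F.iso, zero_add] using a.2.2.1)
    (fun t => by
      filter_upwards [hA, t9open_close (h1 t) (h7 t) hε] with n a b
      obtain ⟨a', c1, c2⟩ := a.2.2.2.2 _ _ ((hY n).shift t) ((hZ n).shift t)
        (by simpa only [zero_add] using b)
      refine ⟨a', c1, ?_⟩
      simp only [F.iso, zero_add] at c2 ⊢
      rwa [add_comm t a']) (show 0 < σ₀ / 2 by linarith)
  obtain ⟨n, ⟨a, b1, b2⟩, b3, b4⟩ := (key.and (hA.and h8)).exists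
  simp only [F.iso, zero_add] at b2
  have b5 := abs_le.1 b1
  have b6 := abs_le.1 b4
  exact absurd (b3.2.2.2.1 (a + as n) (abs_le.2 ⟨by linarith, by linarith⟩)) (not_le.2 b2)

/-- Local expansivity of the calibrated sets near a hyperbolic equilibrium. -/
lemma LSeq.local_b (F : Deck Γ) {l : Ultrafilter ℕ} (h : LSeq Γ l L Ls) (hc : c ∈ Coh Γ)
    (hcs : ∀ n, cs n ∈ Coh Γ) (hl : CLim l c cs) (hH : Hyp L x)
    (hv : ∀ t, x t = x 0) (hx : ∀ u, Eqv c u → Dom L (crit L c) u → Cal L (crit L c) u x ∧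
      ∀ y, Cal L (crit L c) u y → ∃ (δ : Γ) (s : ℝ), ∀ t, y t = δ • x (t + s)) :
    ∃ ε : ℝ, 0 < ε ∧ ∀ᶠ n in l, ∀ u, Eqv (cs n) u →
      Dom (Ls n) (crit (Ls n) (cs n)) u → ∀ y z, Cal (Ls n) (crit (Ls n) (cs n)) u y →
        Cal (Ls n) (crit (Ls n) (cs n)) u z → dist (y 0) (z 0) ≤ ε → y 0 = z 0 := by
  obtain ⟨u₀, hu₀, hd₀⟩ := exists_dom F h.ton hc
  have hx₀ := (hx u₀ hu₀ hd₀).1
  have hL : L ∈ insert L (Set.range Ls) := Set.mem_insert _ _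
  have hR : Reg L x := hx₀.reg h.unif hL hd₀
  obtain ⟨ε, hε, hinj⟩ := F.inj
  refine ⟨ε, hε, ?_⟩
  by_contra hcon
  have hbad := Ultrafilter.eventually_not.2 hcon
  obtain ⟨us, ys, zs, hu, hd, hy, hz, hA⟩ := t9open_choose F h hcs
    (fun n u y z => dist (y 0) (z 0) ≤ ε ∧ 0 < dist (y 0) (z 0) ∧
      ∀ y' z', Cal (Ls n) (crit (Ls n) (cs n)) u y' → Cal (Ls n) (crit (Ls n) (cs n)) u z' →
        dist (y' 0) (z' 0) ≤ ε → dist (y' 0) (z' 0) ≤ 2 * dist (y 0) (z 0)) (by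
    filter_upwards [hbad] with n hn
    push Not at hn
    obtain ⟨u, h1, h2, y, z, h3, h4, h5, h6⟩ := hn
    obtain ⟨⟨y₁, z₁⟩, ⟨b1, b2, b3⟩, b6, b7⟩ := t9open_half
      (fun p : (ℝ → ℍ) × (ℝ → ℍ) => dist (p.1 0) (p.2 0))
      {p | Cal (Ls n) (crit (Ls n) (cs n)) u p.1 ∧ Cal (Ls n) (crit (Ls n) (cs n)) u p.2 ∧
        dist (p.1 0) (p.2 0) ≤ ε} (B := ε) (fun p hp => hp.2.2) (p₀ := (y, z))
      ⟨h3, h4, h5⟩ (dist_pos.2 h6)
    exact ⟨u, y₁, z₁, h1, h2, b1, b2, b3, b6, fun y' z' c1 c2 c3 => b7 (y', z') ⟨c1, c2, c3⟩⟩)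
  obtain ⟨δ, s, s', g, h1, h2, h3⟩ := t9open_pair F h hc hcs hl (fun u a b => (hx u a b).2) hu hd
    hy hz (hA.mono fun n a => a.1)
  rw [hv s', hv s] at h3
  obtain rfl := hinj g _ h3
  have h4 : ∀ t, Tendsto (fun n => δ n • ys n t) l (𝓝 (x t)) := fun t => by
    rw [hv t, ← hv (t + s)]; exact h1 t
  have h5 : ∀ t, Tendsto (fun n => δ n • zs n t) l (𝓝 (x t)) := fun t => by
    rw [hv t, ← hv (t + s'), ← one_smul Γ (x (t + s'))]; exact h2 t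
  have hY : ∀ n, Cal (Ls n) (crit (Ls n) (cs n)) (us n) fun t => δ n • ys n t :=
    fun n => (hy n).smul_eqv F (h.tons n) (hu n) (δ n)
  have hZ : ∀ n, Cal (Ls n) (crit (Ls n) (cs n)) (us n) fun t => δ n • zs n t :=
    fun n => (hz n).smul_eqv F (h.tons n) (hu n) (δ n)
  have hv0 : ∀ t, vel x t = 0 := fun t => by
    have e : x = fun _ => x 0 := funext hv
    rw [e]
    exact vel_const _ _
  exact h.expb (t9open_k F h hc hcs hl) hd hY hZ hR hH hv0 h4 h5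
    (hA.mono fun n a => by simpa only [F.iso] using a.2.1)
    (fun t => by
      filter_upwards [hA, t9open_close (h4 t) (h5 t) hε] with n a b
      have c2 := a.2.2 _ _ ((hY n).shift t) ((hZ n).shift t) (by simpa only [zero_add] using b)
      simpa only [F.iso, zero_add] using c2)

lemma t9open_uniq (F : Deck Γ) {l : Ultrafilter ℕ} (h : LSeq Γ l L Ls) (hc : c ∈ Coh Γ)
    (hcs : ∀ n, cs n ∈ Coh Γ) (hl : CLim l c cs)
    (hx : ∀ u, Eqv c u → Dom L (crit L c) u →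
      ∀ y, Cal L (crit L c) u y → ∃ (δ : Γ) (s : ℝ), ∀ t, y t = δ • x (t + s))
    {ε : ℝ} (hε : 0 < ε) (hloc : ∀ᶠ n in l, ∀ u, Eqv (cs n) u →
      Dom (Ls n) (crit (Ls n) (cs n)) u → ∀ y z, Cal (Ls n) (crit (Ls n) (cs n)) u y →
        Cal (Ls n) (crit (Ls n) (cs n)) u z → dist (y 0) (z 0) ≤ ε → ∃ a, y 0 = z a)
    {us : ℕ → ℍ → ℝ} {ys : ℕ → ℝ → ℍ} (hu : ∀ n, Eqv (cs n) (us n))
    (hy : ∀ n, Cal (Ls n) (crit (Ls n) (cs n)) (us n) (ys n))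
    (h1 : Tendsto (fun n => ys n 0) l (𝓝 (x 0)))
    (hp : ∀ᶠ n in l, ∃ (γ : Γ) (T : ℝ), Per (ys n) γ T) (hH : ∀ᶠ n in l, Hyp (Ls n) (ys n)) :
    ∀ᶠ n in l, Gs (Ls n) (cs n) := by
  have key : ∀ᶠ n in l, ∀ u, Eqv (cs n) u → Dom (Ls n) (crit (Ls n) (cs n)) u →
      ∀ y, Cal (Ls n) (crit (Ls n) (cs n)) u y →
        ∃ (δ : Γ) (s : ℝ), ∀ t, y t = δ • ys n (t + s) := by
    by_contra hcon
    have hbad := Ultrafilter.eventually_not.2 hcon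
    obtain ⟨vs, ws, -, hv, hd, hw, -, hA⟩ := t9open_choose F h hcs
      (fun n _ y _ => ¬∃ (δ : Γ) (s : ℝ), ∀ t, y t = δ • ys n (t + s)) (by
      filter_upwards [hbad] with n hn
      by_contra e
      refine hn fun u a1 a2 y a3 => ?_
      by_contra e'
      exact e ⟨u, y, y, a1, a2, a3, a3, e'⟩)
    obtain ⟨δ, s, h2⟩ := h.lim_gs F hc hcs hl hx hv hd hw
    have h3 := h2 (0 + -s)
    rw [zero_add, neg_add_cancel] at h3
    obtain ⟨n, b1, b2, ⟨γ, T, b3⟩, b4⟩ :=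
      (hA.and (hloc.and (hp.and (t9open_close h3 h1 hε)))).exists
    have c1 := ((hw n).shift (-s)).smul_eqv F (h.tons n) (hv n) (δ n)
    have c2 := (hy n).per (hu n) b3 (hv n) (hd n)
    obtain ⟨a, c3⟩ := b2 _ (hv n) (hd n) _ _ c1 c2 (by simpa only [zero_add] using b4)
    refine b1 ⟨(δ n)⁻¹, a + s, fun t => ?_⟩
    have c4 := Cal.unique h.unif (t9open_mem L Ls n) (hd n) c1 c2 c3 (t + s)
    simp only [zero_add, add_neg_cancel_right] at c4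
    rw [eq_inv_smul_iff, c4]
    congr 1
    ring
  filter_upwards [key, hp, hH] with n a1 a2 a3
  obtain ⟨γ, T, a2⟩ := a2
  exact ⟨ys n, γ, T, a2, a3, fun u b1 b2 => ⟨(hy n).per (hu n) a2 b1 b2, a1 u b1 b2⟩⟩

lemma t9open_gs (F : Deck Γ) {l : Ultrafilter ℕ} (h : LSeq Γ l L Ls) (hc : c ∈ Coh Γ)
    (hcs : ∀ n, cs n ∈ Coh Γ) (hl : CLim l c cs) (hG : Gs L c) :
    ∀ᶠ n in l, Gs (Ls n) (cs n) := by
  obtain ⟨x, γ, T, hp, hH, hx⟩ := hG
  have hx' : ∀ u, Eqv c u → Dom L (crit L c) u →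
      ∀ y, Cal L (crit L c) u y → ∃ (δ : Γ) (s : ℝ), ∀ t, y t = δ • x (t + s) :=
    fun u a b => (hx u a b).2
  obtain ⟨u₀, hu₀, hd₀⟩ := exists_dom F h.ton hc
  have hx₀ := (hx u₀ hu₀ hd₀).1
  have hL : L ∈ insert L (Set.range Ls) := Set.mem_insert _ _
  have hR : Reg L x := hx₀.reg h.unif hL hd₀
  have hk := t9open_k F h hc hcs hl
  choose us hu hd using fun n => exists_dom F (h.tons n) (hcs n)
  choose ws hw using fun n => exists_cal F (h.tons n) (hcs n) (hu n) (hd n)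
  obtain ⟨δ, s, h0⟩ := h.lim_gs F hc hcs hl hx' hu hd hw
  obtain ⟨ys, hy, h1⟩ : ∃ ys : ℕ → ℝ → ℍ,
      (∀ n, Cal (Ls n) (crit (Ls n) (cs n)) (us n) (ys n)) ∧
      ∀ t, Tendsto (fun n => ys n t) l (𝓝 (x t)) := by
    refine ⟨fun n t => δ n • ws n (t + -s),
      fun n => ((hw n).shift (-s)).smul_eqv F (h.tons n) (hu n) (δ n), fun t => ?_⟩
    have := h0 (t + -s)
    rwa [neg_add_cancel_right] at this
  have hlim : ∀ t : ℕ → ℝ, ∃ (δ : ℕ → Γ) (s : ℝ), ∀ r,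
      Tendsto (fun n => δ n • ys n (r + t n)) l (𝓝 (x (r + s))) := fun t =>
    h.lim_gs F hc hcs hl hx' hu hd fun n => (hy n).shift (t n)
  rcases hx₀.vel_cases F h.ton hd₀ with hv | ⟨-, hv⟩
  · have hT := hp.1
    obtain ⟨ε, hε, hloc⟩ := h.local_a F hc hcs hl hp hH hv hx (show 0 < T / 2 by linarith)
    have h2 : Tendsto (fun n => γ⁻¹ • ys n (0 + T)) l (𝓝 (x 0)) := by
      have := ((F.cont γ⁻¹).tendsto _).comp (h1 (0 + T))
      rwa [hp.2 0, inv_smul_smul] at this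
    have hper : ∀ᶠ n in l, ∃ (γ : Γ) (T : ℝ), Per (ys n) γ T := by
      filter_upwards [hloc, t9open_close (h1 0) h2 hε] with n a1 a2
      have c1 := ((hy n).shift T).smul_eqv F (h.tons n) (hu n) γ⁻¹
      obtain ⟨a, c2, c3⟩ := a1 _ (hu n) (hd n) _ _ (hy n) c1 a2
      refine ⟨γ, a + T, by linarith [(abs_le.1 c2).1], fun t => ?_⟩
      have c4 := Cal.unique h.unif (t9open_mem L Ls n) (hd n) (hy n) c1 c3 t
      simp only [zero_add] at c4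
      rw [c4, smul_inv_smul]
      congr 1
      ring
    have hvel : ∀ᶠ n in l, ∀ t, vel (ys n) t ≠ 0 := by
      have hpos : 0 < ‖vel x 0‖ := norm_pos_iff.2 (hv 0)
      filter_upwards [h.jet_lim hk hd hy hR h1 0 (half_pos hpos)] with n a
      rcases (hy n).vel_cases F (h.tons n) (hd n) with b | ⟨b, -⟩
      · exact b
      · have b1 := (norm_snd_le _).trans (a 0 (by simp))
        simp only [jet, Prod.snd_sub, b 0, zero_sub, norm_neg] at b1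
        linarith
    exact t9open_uniq F h hc hcs hl hx' hε
      (hloc.mono fun n a u b1 b2 y z b3 b4 b5 => (a u b1 b2 y z b3 b4 b5).imp fun _ e => e.2)
      hu hy (h1 0) hper (h.hyp F hk hd hy hR hH (Or.inl ⟨hv, hvel⟩) hlim)
  · obtain ⟨ε, hε, hloc⟩ := h.local_b F hc hcs hl hH hv hx
    obtain ⟨C, hC0, hC⟩ := h.unif.calLip (|crit L c| + 1)
    have hvel : ∀ᶠ n in l, (∀ t, vel (ys n) t = 0) ∧ ∀ t, ys n t = ys n 0 := by
      filter_upwards [hloc, hk] with n a1 a2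
      rcases (hy n).vel_cases F (h.tons n) (hd n) with b | b
      · refine absurd ?_ (b 0)
        have hη : 0 < ε / (C + 1) := by positivity
        have e : (fun t => (ys n t : ℂ)) =ᶠ[𝓝 0] fun _ => (ys n 0 : ℂ) := by
          filter_upwards [Metric.ball_mem_nhds (0 : ℝ) hη] with t ht
          rw [mem_ball_zero_iff, Real.norm_eq_abs, lt_div_iff₀ (by linarith)] at ht
          have b1 := hC _ (t9open_mem L Ls n) _ a2 _ (hd n) _ (hy n) (0 + t) 0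
          have b2 := a1 _ (hu n) (hd n) _ _ ((hy n).shift t) (hy n) (b1.trans (by
            rw [zero_add, sub_zero]
            nlinarith [abs_nonneg t]))
          simp only [zero_add] at b2
          rw [b2]
        rw [vel, e.deriv_eq, deriv_const]
      · exact b
    exact t9open_uniq F h hc hcs hl hx' hε
      (hloc.mono fun n a u b1 b2 y z b3 b4 b5 => ⟨0, a u b1 b2 y z b3 b4 b5⟩)
      hu hy (h1 0) (hvel.mono fun n a => ⟨1, 1, one_pos, fun t => by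
        rw [one_smul, a.2 (t + 1), a.2 t]⟩)
      (h.hyp F hk hd hy hR hH (Or.inr (hvel.mono fun n a => a.1)) hlim)

theorem LSeq.gs (F : Deck Γ) (h : LSeq Γ atTop L Ls) (hc : c ∈ Coh Γ) (hcs : ∀ n, cs n ∈ Coh Γ)
    (hl : CLim atTop c cs) (hG : Gs L c) : ∀ᶠ n in atTop, Gs (Ls n) (cs n) :=
  Filter.mem_iff_ultrafilter.2 fun _ hg => t9open_gs F (h.mono hg) hc hcs (hl.mono hg) hG

end Pool.Agent.Lib.MP_5bb885_an.Gen
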