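import Pool.Agent.Lib.MP_5bb885_an.T9HL
import Pool.Agent.Lib.MP_5bb885_an.T9Fam

/-!
The signal of a small box on a closed curve.
-/

namespace Pool.Agent.Lib.MP_5bb885_an.Gen

open UpperHalfPlane MeasureTheory Filter Topology

lemma t9pass_cut_der (a b e y : ℝ) : HasDerivAt (cut a b e) (deriv (cut a b e) y) y :=
  (((contDiff_cut a b e).differentiable (by simp)) y).hasDerivAt

lemma t9pass_cut_cont (a b e : ℝ) : Continuous (deriv (cut a b e)) :=
  (contDiff_cut a b e).continuous_deriv (by exact_mod_cast le_top)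

lemma t9pass_hasF (w κ : ℝ) (z : ℂ) :
    HasFDerivAt (fun z : ℂ => cut (-w) w w z.re * (z.im - κ))
      (cut (-w) w w z.re • Complex.imCLM +
        (z.im - κ) • (deriv (cut (-w) w w) z.re • Complex.reCLM)) z := by
  have h1 : HasFDerivAt (fun z : ℂ => cut (-w) w w z.re)
      (deriv (cut (-w) w w) z.re • Complex.reCLM) z :=
    (t9pass_cut_der (-w) w w z.re).comp_hasFDerivAt z Complex.reCLM.hasFDerivAt
  have h2 : HasFDerivAt (fun z : ℂ => z.im - κ) Complex.imCLM z :=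
    Complex.imCLM.hasFDerivAt.sub_const κ
  exact h1.mul h2

lemma t9pass_fderiv (w κ : ℝ) (z h : ℂ) :
    fderiv ℝ (fun z : ℂ => cut (-w) w w z.re * (z.im - κ)) z h =
      cut (-w) w w z.re * h.im + (z.im - κ) * (deriv (cut (-w) w w) z.re * h.re) := by
  rw [(t9pass_hasF w κ z).fderiv]
  simp

/-- The mean value inequality for a curve with velocity near one. -/
lemma t9pass_move {ζ ζ' : ℝ → ℂ} {ε t₀ τ : ℝ} (h : ∀ t, HasDerivAt ζ (ζ' t) t)
    (hb : ∀ t ∈ Set.Icc (t₀ - τ) (t₀ + τ), ‖ζ' t - 1‖ ≤ ε) {t : ℝ}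
    (ht : t ∈ Set.Icc (t₀ - τ) (t₀ + τ)) : ‖ζ t - ζ t₀ - ((t - t₀ : ℝ) : ℂ)‖ ≤ ε * |t - t₀| := by
  have h0 : t₀ ∈ Set.Icc (t₀ - τ) (t₀ + τ) := by
    obtain ⟨h1, h2⟩ := ht
    constructor <;> linarith
  have hd : ∀ s ∈ Set.Icc (t₀ - τ) (t₀ + τ), HasDerivWithinAt (fun s : ℝ => ζ s - (s : ℂ))
      (ζ' s - 1) (Set.Icc (t₀ - τ) (t₀ + τ)) s := fun s _ =>
    ((h s).sub (Complex.ofRealCLM.hasDerivAt (x := s))).hasDerivWithinAt
  have := (convex_Icc _ _).norm_image_sub_le_of_norm_hasDerivWithin_le hd hb h0 ht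
  rw [Real.norm_eq_abs] at this
  have e : ζ t - ζ t₀ - ((t - t₀ : ℝ) : ℂ) = ζ t - (t : ℂ) - (ζ t₀ - (t₀ : ℂ)) := by
    push_cast
    ring
  rw [e]
  exact this

lemma t9pass_re_im {ζ ζ' : ℝ → ℂ} {ε t₀ τ a : ℝ} (h : ∀ t, HasDerivAt ζ (ζ' t) t)
    (hb : ∀ t ∈ Set.Icc (t₀ - τ) (t₀ + τ), ‖ζ' t - 1‖ ≤ ε) (h0 : ‖ζ t₀‖ ≤ a) {t : ℝ}
    (ht : t ∈ Set.Icc (t₀ - τ) (t₀ + τ)) :
    |(ζ t).re - (t - t₀)| ≤ ε * |t - t₀| + a ∧ |(ζ t).im| ≤ ε * |t - t₀| + a := by
  have h1 := t9pass_move h hb ht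
  have h2 : ‖ζ t - ((t - t₀ : ℝ) : ℂ)‖ ≤ ε * |t - t₀| + a := by
    calc ‖ζ t - ((t - t₀ : ℝ) : ℂ)‖ = ‖(ζ t - ζ t₀ - ((t - t₀ : ℝ) : ℂ)) + ζ t₀‖ := by
          congr 1; ring
      _ ≤ _ := (norm_add_le _ _).trans (add_le_add h1 h0)
  constructor
  · have := (Complex.abs_re_le_norm _).trans h2
    simpa using this
  · have := (Complex.abs_im_le_norm _).trans h2
    simpa using this

/-- The local computation for one passage, in the coordinate of the box. -/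
lemma pass_local : ∃ Λ : ℝ, 0 < Λ ∧ ∀ (ζ ζ' : ℝ → ℂ) (n g g' : ℝ → ℝ) (w ε κ c B t₀ : ℝ),
    0 < w → w ≤ 1 → 0 ≤ ε → ε ≤ 1 / 10 → |κ| ≤ 4 * ε * w → 0 ≤ c →
    (∀ t, HasDerivAt ζ (ζ' t) t) → Continuous ζ' → (∀ t, HasDerivAt g (g' t) t) → Continuous g' →
    Continuous n → ‖ζ t₀‖ ≤ ε * w →
    (∀ t ∈ Set.Icc (t₀ - 3 * w) (t₀ + 3 * w), ‖ζ' t - 1‖ ≤ ε ∧ c ≤ n t ∧ n t ≤ B ∧ |g' t| ≤ B) →
    w * c - Λ * ε * w * B ≤ ∫ t in (t₀ - 3 * w)..(t₀ + 3 * w),
      fderiv ℝ (fun z : ℂ => cut (-w) w w z.re * (z.im - κ)) (ζ t)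
        ((g t + n t * Complex.I) * ζ' t) := by
  obtain ⟨Λ₀, hΛ₀, hΛ⟩ := cut_lip
  refine ⟨48 + 48 * Λ₀, by positivity, ?_⟩
  intro ζ ζ' n g g' w ε κ c B t₀ hw hw1 hε hε1 hκ hc hζ hζ' hg hg' hn h0 H
  have hle : t₀ - 3 * w ≤ t₀ + 3 * w := by linarith
  have hB : 0 ≤ B := (abs_nonneg _).trans (H t₀ ⟨by linarith, by linarith⟩).2.2.2
  set χ := cut (-w) w w with hχ
  have cζ : Continuous ζ := continuous_iff_continuousAt.2 fun t => (hζ t).continuousAt
  have cg : Continuous g := continuous_iff_continuousAt.2 fun t => (hg t).continuousAt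
  have cχ : Continuous χ := (contDiff_cut _ _ _).continuous
  have cχ' : Continuous (deriv χ) := t9pass_cut_cont _ _ _
  have hri := fun t (ht : t ∈ Set.Icc (t₀ - 3 * w) (t₀ + 3 * w)) =>
    t9pass_re_im hζ (fun s hs => (H s hs).1) h0 ht
  have habs : ∀ t ∈ Set.Icc (t₀ - 3 * w) (t₀ + 3 * w), |t - t₀| ≤ 3 * w := fun t ht =>
    abs_le.2 ⟨by linarith [ht.1], by linarith [ht.2]⟩
  have hY : ∀ t ∈ Set.Icc (t₀ - 3 * w) (t₀ + 3 * w), |(ζ t).im - κ| ≤ 8 * ε * w := by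
    intro t ht
    have h1 := (hri t ht).2
    have h2 := mul_le_mul_of_nonneg_left (habs t ht) hε
    have h3 := abs_sub (ζ t).im κ
    linarith
  -- the function along the curve
  set f : ℝ → ℝ := fun t => χ (ζ t).re * ((ζ t).im - κ) with hf
  set f' : ℝ → ℝ := fun t =>
    χ (ζ t).re * (ζ' t).im + ((ζ t).im - κ) * (deriv χ (ζ t).re * (ζ' t).re) with hf'
  have hfd : ∀ t, HasDerivAt f (f' t) t := by
    intro t
    have := (t9pass_hasF w κ (ζ t)).comp_hasDerivAt t (hζ t)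
    refine this.congr_deriv ?_
    simp [hf', hχ]
  have cf : Continuous f := by rw [hf]; fun_prop
  have cf' : Continuous f' := by rw [hf']; fun_prop
  set P : ℝ → ℝ := fun t => n t * (χ (ζ t).re * (ζ' t).re) with hP
  set Q : ℝ → ℝ := fun t => n t * (((ζ t).im - κ) * (deriv χ (ζ t).re * (ζ' t).im)) with hQ
  have cP : Continuous P := by rw [hP]; fun_prop
  have cQ : Continuous Q := by rw [hQ]; fun_prop
  have hsplit : (∫ t in (t₀ - 3 * w)..(t₀ + 3 * w),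
      fderiv ℝ (fun z : ℂ => χ z.re * (z.im - κ)) (ζ t) ((g t + n t * Complex.I) * ζ' t)) =
      (∫ t in (t₀ - 3 * w)..(t₀ + 3 * w), g t * f' t) +
        (∫ t in (t₀ - 3 * w)..(t₀ + 3 * w), P t) - ∫ t in (t₀ - 3 * w)..(t₀ + 3 * w), Q t := by
    have c1 : Continuous fun t => g t * f' t := cg.mul cf'
    have c2 : Continuous fun t => g t * f' t + P t := c1.add cP
    rw [← intervalIntegral.integral_add (c1.intervalIntegrable _ _)
      (cP.intervalIntegrable _ _), ← intervalIntegral.integral_sub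
      (c2.intervalIntegrable _ _) (cQ.intervalIntegrable _ _)]
    refine intervalIntegral.integral_congr fun t _ => ?_
    simp only [hχ, t9pass_fderiv, hf', hP, hQ, Complex.mul_im, Complex.mul_re, Complex.add_re,
      Complex.add_im, Complex.ofReal_re, Complex.ofReal_im, Complex.I_re, Complex.I_im]
    ring
  rw [hsplit]
  -- integration by parts
  have hend1 : f (t₀ - 3 * w) = 0 := by
    have h1 := (hri (t₀ - 3 * w) ⟨le_rfl, hle⟩).1
    have h2 := mul_le_mul_of_nonneg_left (habs (t₀ - 3 * w) ⟨le_rfl, hle⟩) hε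
    have h3 : ε * w ≤ 1 / 10 * w := mul_le_mul_of_nonneg_right hε1 hw.le
    have h4 := (abs_le.1 h1).2
    have : χ (ζ (t₀ - 3 * w)).re = 0 := cut_eq_zero hw fun h => by
      have := h.1
      nlinarith
    simp [hf, this]
  have hend2 : f (t₀ + 3 * w) = 0 := by
    have h1 := (hri (t₀ + 3 * w) ⟨hle, le_rfl⟩).1
    have h2 := mul_le_mul_of_nonneg_left (habs (t₀ + 3 * w) ⟨hle, le_rfl⟩) hε
    have h3 : ε * w ≤ 1 / 10 * w := mul_le_mul_of_nonneg_right hε1 hw.le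
    have h4 := (abs_le.1 h1).1
    have : χ (ζ (t₀ + 3 * w)).re = 0 := cut_eq_zero hw fun h => by
      have := h.2
      nlinarith
    simp [hf, this]
  have hparts : (∫ t in (t₀ - 3 * w)..(t₀ + 3 * w), g t * f' t) =
      -∫ t in (t₀ - 3 * w)..(t₀ + 3 * w), g' t * f t := by
    rw [intervalIntegral.integral_mul_deriv_eq_deriv_mul (fun t _ => hg t) (fun t _ => hfd t)
      (hg'.intervalIntegrable _ _) (cf'.intervalIntegrable _ _), hend1, hend2]
    ring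
  have hlen : |t₀ + 3 * w - (t₀ - 3 * w)| = 6 * w := by
    rw [abs_of_nonneg (by linarith)]; ring
  have hA : |∫ t in (t₀ - 3 * w)..(t₀ + 3 * w), g' t * f t| ≤ B * (8 * ε * w) * (6 * w) := by
    rw [← hlen, ← Real.norm_eq_abs]
    refine intervalIntegral.norm_integral_le_of_norm_le_const fun t ht => ?_
    rw [Set.uIoc_of_le hle] at ht
    have ht' : t ∈ Set.Icc (t₀ - 3 * w) (t₀ + 3 * w) := ⟨ht.1.le, ht.2⟩
    rw [Real.norm_eq_abs, abs_mul]
    refine mul_le_mul (H t ht').2.2.2 ?_ (abs_nonneg _) hB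
    simp only [hf, abs_mul]
    have h1 : |χ (ζ t).re| ≤ 1 := by
      rw [abs_of_nonneg (cut_nonneg _ _ _ _)]
      exact cut_le_one _ _ _ _
    calc |χ (ζ t).re| * |(ζ t).im - κ| ≤ 1 * (8 * ε * w) :=
          mul_le_mul h1 (hY t ht') (abs_nonneg _) zero_le_one
      _ = _ := one_mul _
  have hQb : |∫ t in (t₀ - 3 * w)..(t₀ + 3 * w), Q t| ≤
      B * (8 * ε * w * (Λ₀ / w * 1)) * (6 * w) := by
    rw [← hlen, ← Real.norm_eq_abs]
    refine intervalIntegral.norm_integral_le_of_norm_le_const fun t ht => ?_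
    rw [Set.uIoc_of_le hle] at ht
    have ht' : t ∈ Set.Icc (t₀ - 3 * w) (t₀ + 3 * w) := ⟨ht.1.le, ht.2⟩
    obtain ⟨h1, h2, h3, -⟩ := H t ht'
    have h4 : |(ζ' t).im| ≤ 1 := by
      have := (Complex.abs_im_le_norm _).trans h1
      simp only [Complex.sub_im, Complex.one_im, sub_zero] at this
      linarith
    rw [Real.norm_eq_abs]
    simp only [hQ, abs_mul]
    refine mul_le_mul (by rw [abs_of_nonneg (hc.trans h2)]; exact h3) ?_ (by positivity) hB
    refine mul_le_mul (hY t ht') ?_ (by positivity) (by positivity)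
    exact mul_le_mul ((hΛ (-w) w w hw).1 _) h4 (abs_nonneg _) (by positivity)
  have hre : ∀ t ∈ Set.Icc (t₀ - 3 * w) (t₀ + 3 * w), 9 / 10 ≤ (ζ' t).re := by
    intro t ht
    have := (Complex.abs_re_le_norm _).trans (H t ht).1
    simp only [Complex.sub_re, Complex.one_re] at this
    linarith [(abs_le.1 this).1]
  have hPb : w * c ≤ ∫ t in (t₀ - 3 * w)..(t₀ + 3 * w), P t := by
    have h1 : (∫ t in (t₀ - 4 / 5 * w)..(t₀ + 4 / 5 * w), P t) ≤
        ∫ t in (t₀ - 3 * w)..(t₀ + 3 * w), P t := by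
      refine intervalIntegral.integral_mono_interval (by linarith) (by linarith) (by linarith) ?_
        (cP.intervalIntegrable _ _)
      refine (ae_restrict_iff' measurableSet_Ioc).2 (ae_of_all _ fun t ht => ?_)
      have ht' : t ∈ Set.Icc (t₀ - 3 * w) (t₀ + 3 * w) := ⟨ht.1.le, ht.2⟩
      exact mul_nonneg (hc.trans (H t ht').2.1)
        (mul_nonneg (cut_nonneg _ _ _ _) (by linarith [hre t ht']))
    have h2 : (∫ _ in (t₀ - 4 / 5 * w)..(t₀ + 4 / 5 * w), c * (9 / 10)) ≤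
        ∫ t in (t₀ - 4 / 5 * w)..(t₀ + 4 / 5 * w), P t := by
      refine intervalIntegral.integral_mono_on (by linarith) intervalIntegrable_const
        (cP.intervalIntegrable _ _) fun t ht => ?_
      have ht' : t ∈ Set.Icc (t₀ - 3 * w) (t₀ + 3 * w) := ⟨by linarith [ht.1], by linarith [ht.2]⟩
      have h3 : |t - t₀| ≤ 4 / 5 * w := abs_le.2 ⟨by linarith [ht.1], by linarith [ht.2]⟩
      have h4 := abs_le.1 (hri t ht').1
      have h5 : ε * |t - t₀| ≤ 1 / 10 * (4 / 5 * w) := mul_le_mul hε1 h3 (abs_nonneg _) (by norm_num)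
      have h6 : ε * w ≤ 1 / 10 * w := mul_le_mul_of_nonneg_right hε1 hw.le
      have h7 : χ (ζ t).re = 1 := cut_eq_one hw
        ⟨by linarith [h4.1, ht.1], by linarith [h4.2, ht.2]⟩
      simp only [hP, h7, one_mul]
      exact mul_le_mul (H t ht').2.1 (hre t ht') (by norm_num) (hc.trans (H t ht').2.1)
    rw [intervalIntegral.integral_const, smul_eq_mul] at h2
    nlinarith [mul_nonneg hw.le hc]
  rw [hparts]
  have e1 : B * (8 * ε * w * (Λ₀ / w * 1)) * (6 * w) = 48 * Λ₀ * ε * w * B := by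
    field_simp
    ring
  have e2 : B * (8 * ε * w) * (6 * w) ≤ 48 * ε * w * B := by
    have : 0 ≤ ε * w * B := by positivity
    nlinarith
  rw [e1] at hQb
  have := (abs_le.1 hA).2
  have := (abs_le.1 hQb).2
  nlinarith

variable {Γ : Type} [Group Γ] [MulAction Γ ℍ] {L : ℂ × ℂ → ℝ} {x : ℝ → ℍ} {u : ℍ → ℝ}
  {c : Γ → ℝ} {γ : Γ} {T k : ℝ}

/-- Complex numbers with rational coordinates are dense. -/
lemma t9pass_rat (z : ℂ) {r : ℝ} (hr : 0 < r) :
    ∃ a b : ℚ, ‖(⟨a, b⟩ : ℂ) - z‖ ≤ r := by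
  obtain ⟨a, ha⟩ := exists_rat_near z.re (half_pos hr)
  obtain ⟨b, hb⟩ := exists_rat_near z.im (half_pos hr)
  refine ⟨a, b, (Complex.norm_le_abs_re_add_abs_im _).trans ?_⟩
  simp only [Complex.sub_re, Complex.sub_im]
  rw [abs_sub_comm] at ha hb
  linarith

/-- A rational direction close to the velocity on an interval. -/
lemma t9pass_dir {v : ℝ → ℂ} (hv : Continuous v) {t₀ : ℝ} (h0 : v t₀ ≠ 0) {ε : ℝ} (hε : 0 < ε) :
    ∃ (a b : ℚ) (τ : ℝ), (⟨a, b⟩ : ℂ) ≠ 0 ∧ 0 < τ ∧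
      ∀ t ∈ Set.Icc (t₀ - τ) (t₀ + τ), ‖v t / (⟨a, b⟩ : ℂ) - 1‖ ≤ ε := by
  have h1 : ∀ᶠ d in 𝓝 (v t₀), d ≠ 0 ∧ ‖v t₀ / d - 1‖ < ε := by
    refine (eventually_ne_nhds h0).and ?_
    have : ContinuousAt (fun d : ℂ => ‖v t₀ / d - 1‖) (v t₀) :=
      ((continuousAt_const.div continuousAt_id h0).sub continuousAt_const).norm
    refine this.eventually_lt continuousAt_const ?_
    simpa [div_self h0] using hε
  obtain ⟨r, hr, h2⟩ := Metric.eventually_nhds_iff.1 h1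
  obtain ⟨a, b, hab⟩ := t9pass_rat (v t₀) (half_pos hr)
  obtain ⟨h3, h4⟩ := h2 (y := (⟨a, b⟩ : ℂ)) (by rw [dist_eq_norm]; linarith)
  have h5 : ∀ᶠ t in 𝓝 t₀, ‖v t / (⟨a, b⟩ : ℂ) - 1‖ < ε := by
    have : ContinuousAt (fun t => ‖v t / (⟨a, b⟩ : ℂ) - 1‖) t₀ := by fun_prop
    exact this.eventually_lt continuousAt_const h4
  obtain ⟨τ, hτ, h6⟩ := Metric.eventually_nhds_iff.1 h5
  refine ⟨a, b, τ / 2, h3, half_pos hτ, fun t ht => (h6 ?_).le⟩
  rw [Real.dist_eq, abs_lt]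
  constructor <;> linarith [ht.1, ht.2]

/-- Euclidean balls inside hyperbolic balls. -/
lemma t9pass_ball (z : ℍ) {ε : ℝ} (hε : 0 < ε) : ∃ ρ : ℝ, 0 < ρ ∧ ∀ y : ℂ, ‖y - z‖ < ρ →
    0 < y.im ∧ ∀ w : ℍ, (w : ℂ) = y → dist w z ≤ ε := by
  have h1 : IsOpen ((fun w : ℍ => (w : ℂ)) '' Metric.ball z ε) :=
    isOpenEmbedding_coe.isOpenMap _ Metric.isOpen_ball
  obtain ⟨ρ, hρ, h2⟩ := Metric.isOpen_iff.1 h1 z ⟨z, Metric.mem_ball_self hε, rfl⟩
  refine ⟨ρ, hρ, fun y hy => ?_⟩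
  obtain ⟨w, hw, rfl⟩ := h2 (show y ∈ Metric.ball (z : ℂ) ρ by rwa [mem_ball_iff_norm])
  refine ⟨w.im_pos, fun w' hw' => ?_⟩
  rw [UpperHalfPlane.ext hw']
  exact (Metric.mem_ball.1 hw).le

lemma t9pass_co (p d : ℂ) (z : ℂ) :
    HasFDerivAt (co p d) (ContinuousLinearMap.mul ℝ ℂ d⁻¹) z := by
  have : co p d = fun z => ContinuousLinearMap.mul ℝ ℂ d⁻¹ z - p / d := by
    funext y
    simp only [co, ContinuousLinearMap.mul_apply']
    ring
  rw [this]
  exact (ContinuousLinearMap.mul ℝ ℂ d⁻¹).hasFDerivAt.sub_const _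

lemma t9pass_int {T w : ℝ} (hT : 6 * w ≤ T) {t t₀ : ℝ} {i j : ℤ}
    (h1 : |t - (t₀ + i * T)| < 3 * w) (h2 : |t - (t₀ + j * T)| ≤ 3 * w) : i = j := by
  have hw : 0 < w := by linarith [abs_nonneg (t - (t₀ + i * T))]
  obtain ⟨a1, a2⟩ := abs_lt.1 h1
  obtain ⟨b1, b2⟩ := abs_le.1 h2
  rcases lt_trichotomy i j with h | h | h
  · have : (i : ℝ) + 1 ≤ j := by exact_mod_cast h
    nlinarith
  · exact h
  · have : (j : ℝ) + 1 ≤ i := by exact_mod_cast h
    nlinarith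

/-- The tangential component has a continuous derivative. -/
lemma t9pass_tng (hx : Reg L x) (hv : ∀ t, vel x t ≠ 0) {η : ℝ → ℂ}
    (h1 : ∀ t, DifferentiableAt ℝ η t) (h2 : Continuous (deriv η)) :
    (∀ t, HasDerivAt (tng x η) (deriv (tng x η) t) t) ∧ Continuous (deriv (tng x η)) ∧
      Continuous (nrm x η) := by
  have cη : Continuous η := continuous_iff_continuousAt.2 fun t => (h1 t).continuousAt
  have hd : ∀ t, HasDerivAt (tng x η)
      (((deriv η t * vel x t - η t * deriv (vel x) t) / vel x t ^ 2).re) t := fun t =>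
    Complex.reCLM.hasFDerivAt.comp_hasDerivAt t
      ((h1 t).hasDerivAt.div (hx.acc t).hasDerivAt (hv t))
  have he : deriv (tng x η) =
      fun t => ((deriv η t * vel x t - η t * deriv (vel x) t) / vel x t ^ 2).re :=
    funext fun t => (hd t).deriv
  refine ⟨fun t => (hd t).differentiableAt.hasDerivAt, ?_, ?_⟩
  · rw [he]
    exact Complex.continuous_re.comp (((h2.mul hx.contVel).sub (cη.mul hx.cont)).div
      (hx.contVel.pow 2) fun t => pow_ne_zero 2 (hv t))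
  · exact Complex.continuous_im.comp (cη.div hx.contVel hv)

theorem exists_pass (F : Deck Γ) (hL : Tonelli Γ L) (hu : Eqv c u) (hd : Dom L k u)
    (hx : Cal L k u x) (hp : MinPer x γ T) (ho : Ori γ) (hv : ∀ t, vel x t ≠ 0) (t₀ : ℝ)
    {ε w₁ : ℝ} (hε : 0 < ε) (hw : 0 < w₁) : ∃ (q : Bx) (κ w₀ c₁ : ℝ), q.Ok ∧ 0 < w₀ ∧ w₀ ≤ w₁ ∧
      0 < c₁ ∧ ∀ φ, φ = fam Γ q 2 + (-κ) • fam Γ q 0 → (∫ t in (0 : ℝ)..T, φ (x t) = 0) ∧
      (∀ t, (∀ j : ℤ, w₀ ≤ |t - (t₀ + j * T)|) → ∀ᶠ z : ℍ in 𝓝 (x t), φ z = 0) ∧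
      ∀ η : ℝ → ℂ, (∀ t, DifferentiableAt ℝ η t) → Continuous (deriv η) → ∀ (j : ℤ) (c₀ B : ℝ),
        0 ≤ c₀ → ε * B ≤ c₀ → (∀ t, |t - (t₀ + j * T)| ≤ w₀ →
          c₀ ≤ nrm x η t ∧ nrm x η t ≤ B ∧ |deriv (tng x η) t| ≤ B) →
        c₁ * c₀ ≤ ∫ t in (t₀ + j * T - w₀)..(t₀ + j * T + w₀), fderiv ℝ φ (x t) (η t) := by
  have hR : Reg L x := Cal.reg (hL.unif1 F) (Set.mem_singleton L) hd hx
  have hT : 0 < T := hp.1.1
  obtain ⟨Λ, hΛ, hloc⟩ := pass_local
  obtain ⟨ε', hε', hε1, hε2⟩ : ∃ ε' : ℝ, 0 < ε' ∧ ε' ≤ 1 / 10 ∧ Λ * ε' ≤ ε / 2 := by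
    refine ⟨min (1 / 10) (ε / (2 * Λ)), by positivity, min_le_left _ _, ?_⟩
    calc Λ * min (1 / 10) (ε / (2 * Λ)) ≤ Λ * (ε / (2 * Λ)) :=
          mul_le_mul_of_nonneg_left (min_le_right _ _) hΛ.le
      _ = ε / 2 := by field_simp
  obtain ⟨d₁, d₂, τ, hd0, hτ, hdir⟩ := t9pass_dir hR.contVel (hv t₀) hε'
  set d : ℂ := ⟨d₁, d₂⟩ with hdd
  have hdn : 0 < ‖d‖ := norm_pos_iff.2 hd0
  obtain ⟨ε₀, hε₀, hemb⟩ := Cal.emb F hL hu hd hx hp.1 hτ
  obtain ⟨ρ, hρ, hball⟩ := t9pass_ball (x t₀) hε₀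
  obtain ⟨w', hw0, hw'⟩ := exists_rat_btwn
    (show (0 : ℝ) < min (min (min 1 (w₁ / 3)) (min (τ / 3) (T / 6))) (ρ / (6 * ‖d‖)) by positivity)
  set w : ℝ := (w' : ℝ) with hww
  simp only [lt_min_iff] at hw'
  obtain ⟨⟨⟨hw1, hw2⟩, hw3, hw4⟩, hw5⟩ := hw'
  have hw6 : 6 * w * ‖d‖ < ρ := by
    rw [lt_div_iff₀ (by positivity)] at hw5
    linarith
  obtain ⟨p₁, p₂, hp0⟩ := t9pass_rat (x t₀) (show 0 < ε' * w * ‖d‖ by positivity)
  set p : ℂ := ⟨p₁, p₂⟩ with hpp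
  set q : Bx := ⟨p, d, w, -w, w, w⟩ with hq
  set ζ : ℝ → ℂ := fun t => co p d (x t) with hζ
  have hζd : ∀ t, HasDerivAt ζ (vel x t / d) t := fun t =>
    ((hR.hasDerivAt t).sub_const p).div_const d
  have hζ0 : ‖ζ t₀‖ ≤ ε' * w := by
    simp only [hζ, co, norm_div]
    rw [div_le_iff₀ hdn, norm_sub_rev]
    exact hp0
  have hεw : ε' * w ≤ 1 / 10 * w := mul_le_mul_of_nonneg_right hε1 hw0.le
  have hsupp : ∀ z ∈ q.supp, ‖z - x t₀‖ < ρ := by
    intro z hz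
    obtain ⟨h1, h2, h3⟩ := hz
    simp only [hq] at h1 h2 h3
    have h4 : ‖co p d z‖ ≤ 5 * w := by
      refine (Complex.norm_le_abs_re_add_abs_im _).trans ?_
      have : |(co p d z).im| ≤ 3 * w := abs_le.2 ⟨by linarith, by linarith⟩
      linarith
    simp only [co, norm_div] at h4
    rw [div_le_iff₀ hdn] at h4
    have h5 : ε' * w * ‖d‖ ≤ 1 / 10 * w * ‖d‖ := mul_le_mul_of_nonneg_right hεw hdn.le
    have h6 : 0 ≤ w * ‖d‖ := by positivity
    calc ‖z - x t₀‖ = ‖(z - p) + (p - x t₀)‖ := by congr 1; ring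
      _ ≤ ‖z - p‖ + ‖p - x t₀‖ := norm_add_le _ _
      _ < ρ := by linarith
  have hok : q.Ok := by
    refine ⟨hd0, hw0, hw0, by simp only [hq]; linarith, fun z hz => (hball z (hsupp z hz)).1, ?_⟩
    intro y hy
    simp only [hq, hpp, hdd, Set.mem_insert_iff, Set.mem_singleton_iff] at hy
    rcases hy with rfl | rfl | rfl | rfl | rfl | rfl | rfl | rfl
    · exact ⟨p₁, rfl⟩
    · exact ⟨p₂, rfl⟩
    · exact ⟨d₁, rfl⟩
    · exact ⟨d₂, rfl⟩
    · exact ⟨w', rfl⟩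
    · exact ⟨-w', by push_cast; rfl⟩
    · exact ⟨w', rfl⟩
    · exact ⟨w', rfl⟩
  have hri := fun t (ht : t ∈ Set.Icc (t₀ - τ) (t₀ + τ)) => t9pass_re_im hζd hdir hζ0 ht
  have hback : ∀ (j : ℤ) (t : ℝ), γ ^ (-j) • x t = x (t - j * T) := by
    intro j t
    rw [← hp.1.zpow (-j) t]
    congr 1
    push_cast
    ring
  -- translates of the curve meet the box only during the passages
  have key : ∀ (δ : Γ) (t : ℝ), ((δ • x t : ℍ) : ℂ) ∈ q.supp →
      ∃ j : ℤ, |t - (t₀ + j * T)| < 3 * w ∧ δ = γ ^ (-j) := by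
    intro δ t h
    obtain ⟨s, hs, e⟩ := hemb δ t₀ t ((hball _ (hsupp _ h)).2 _ rfl)
    have h1 : |(ζ (t₀ + s)).re| ≤ 2 * w := by
      have := h.1
      rw [e] at this
      exact this
    have h2 := (hri (t₀ + s) ⟨by linarith [(abs_le.1 hs).1], by linarith [(abs_le.1 hs).2]⟩).1
    rw [add_sub_cancel_left] at h2
    have h3 : ε' * |s| ≤ 1 / 10 * |s| := mul_le_mul_of_nonneg_right hε1 (abs_nonneg _)
    have h4 : |s| ≤ |(ζ (t₀ + s)).re| + |(ζ (t₀ + s)).re - s| := by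
      have := abs_sub (ζ (t₀ + s)).re ((ζ (t₀ + s)).re - s)
      rwa [sub_sub_cancel] at this
    obtain ⟨j, hj, hδ⟩ := hp.2 t (t₀ + s) δ e.symm
    refine ⟨-j, ?_, by rw [neg_neg]; exact hδ⟩
    have : t - (t₀ + ((-j : ℤ) : ℝ) * T) = s := by
      push_cast
      linarith
    rw [this]
    linarith
  have him : ∀ s, |s - t₀| ≤ 3 * w → |(ζ s).im| ≤ 4 * ε' * w := by
    intro s hs
    have h1 := abs_le.1 hs
    have h2 := (hri s ⟨by linarith [h1.1], by linarith [h1.2]⟩).2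
    have h3 := mul_le_mul_of_nonneg_left hs hε'.le
    linarith
  have hfn : ∀ (δ : Γ) (t : ℝ), |q.fn 2 (δ • x t : ℍ)| ≤ 4 * ε' * w * q.fn 0 (δ • x t : ℍ) := by
    intro δ t
    by_cases h : ((δ • x t : ℍ) : ℂ) ∈ q.supp
    · obtain ⟨j, hj, rfl⟩ := key δ t h
      rw [hback]
      have h1 := him (t - j * T) (by
        have : t - j * T - t₀ = t - (t₀ + j * T) := by ring
        rw [this]
        exact hj.le)
      have h2 : q.fn 2 (x (t - j * T)) = (ζ (t - j * T)).im * q.fn 0 (x (t - j * T)) := by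
        simp only [Bx.fn, hζ, hq]
        simp only [Matrix.cons_val]
        ring
      rw [h2, abs_mul, abs_of_nonneg (q.fn_nonneg _)]
      exact mul_le_mul_of_nonneg_right h1 (q.fn_nonneg _)
    · rw [hok.fn_zero 2 h, hok.fn_zero 0 h]
      simp
  have hfam : ∀ t, |fam Γ q 2 (x t)| ≤ 4 * ε' * w * fam Γ q 0 (x t) := by
    intro t
    obtain ⟨S, hS⟩ := hok.finite F (dist (x t) I)
    obtain ⟨-, h1⟩ := hS (x t) le_rfl
    rw [h1 2, h1 0, Finset.mul_sum]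
    exact (Finset.abs_sum_le_sum_abs _ _).trans (Finset.sum_le_sum fun δ _ => hfn δ t)
  have hcont : ∀ i, Continuous fun t => fam Γ q i (x t) := fun i =>
    (hok.pot F i).smooth.continuousOn.comp_continuous
      (UpperHalfPlane.continuous_coe.comp hR.continuous) fun t => (x t).im_pos
  set I₀ : ℝ := ∫ t in (0 : ℝ)..T, fam Γ q 0 (x t) with hI₀
  set I₂ : ℝ := ∫ t in (0 : ℝ)..T, fam Γ q 2 (x t) with hI₂
  have hI0 : 0 ≤ I₀ := intervalIntegral.integral_nonneg hT.le fun t _ => fam_nonneg q _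
  have hI2 : |I₂| ≤ 4 * ε' * w * I₀ := by
    refine (intervalIntegral.abs_integral_le_integral_abs hT.le).trans ?_
    rw [hI₀, ← intervalIntegral.integral_const_mul]
    exact intervalIntegral.integral_mono_on hT.le ((hcont 2).abs.intervalIntegrable _ _)
      ((continuous_const.mul (hcont 0)).intervalIntegrable _ _) fun t _ => hfam t
  have hκ : |I₂ / I₀| ≤ 4 * ε' * w ∧ I₂ + -(I₂ / I₀) * I₀ = 0 := by
    rcases hI0.eq_or_lt with h | h
    · rw [← h] at hI2 ⊢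
      have : I₂ = 0 := by simpa using hI2
      rw [this]
      exact ⟨by simp; positivity, by simp⟩
    · refine ⟨?_, by field_simp; ring⟩
      rw [abs_div, abs_of_pos h, div_le_iff₀ h]
      exact hI2
  set κ : ℝ := I₂ / I₀ with hκκ
  refine ⟨q, κ, 3 * w, w / 2, hok, by linarith, by linarith, by linarith, ?_⟩
  rintro φ rfl
  refine ⟨?_, ?_, ?_⟩
  · simp only [Pi.add_apply, Pi.smul_apply, smul_eq_mul]
    have c1 : Continuous fun t => -κ * fam Γ q 0 (x t) := continuous_const.mul (hcont 0)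
    rw [intervalIntegral.integral_add ((hcont 2).intervalIntegrable _ _)
      (c1.intervalIntegrable _ _), intervalIntegral.integral_const_mul]
    exact hκ.2
  · intro t ht
    have H : ∀ δ : Γ, ((δ • x t : ℍ) : ℂ) ∉ q.supp := fun δ h => by
      obtain ⟨j, hj, -⟩ := key δ t h
      exact absurd (ht j) (not_le.2 hj)
    filter_upwards [hok.fam_zero F H] with z hz
    simp [hz]
  · intro η hη1 hη2 j c₀ B hc₀ hB H
    obtain ⟨hg1, hg2, hg3⟩ := t9pass_tng hR hv hη1 hη2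
    have hB0 : 0 ≤ B := (abs_nonneg _).trans (H (t₀ + j * T) (by simp; linarith)).2.2
    have hmain := hloc ζ (fun s => vel x s / d) (fun s => nrm x η (s + j * T))
      (fun s => tng x η (s + j * T)) (fun s => deriv (tng x η) (s + j * T)) w ε' κ c₀ B t₀
      hw0 hw1.le hε'.le hε1 hκ.1 hc₀ hζd (hR.contVel.div_const d)
      (fun s => (hg1 (s + j * T)).comp_add_const s (j * T)) (hg2.comp (by fun_prop))
      (hg3.comp (by fun_prop)) hζ0 (fun s hs => ⟨hdir s ⟨by linarith [hs.1], by linarith [hs.2]⟩,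
        H (s + j * T) (abs_le.2 ⟨by linarith [hs.1], by linarith [hs.2]⟩)⟩)
    have hshift : (∫ t in (t₀ + j * T - 3 * w)..(t₀ + j * T + 3 * w),
        fderiv ℝ (fam Γ q 2 + (-κ) • fam Γ q 0) (x t) (η t)) =
        ∫ s in (t₀ - 3 * w)..(t₀ + 3 * w),
          fderiv ℝ (fam Γ q 2 + (-κ) • fam Γ q 0) (x (s + j * T)) (η (s + j * T)) := by
      rw [intervalIntegral.integral_comp_add_right
        (fun t => fderiv ℝ (fam Γ q 2 + (-κ) • fam Γ q 0) (x t) (η t))]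
      congr 1 <;> ring
    have hcg : (∫ s in (t₀ - 3 * w)..(t₀ + 3 * w),
          fderiv ℝ (fam Γ q 2 + (-κ) • fam Γ q 0) (x (s + j * T)) (η (s + j * T))) =
        ∫ s in (t₀ - 3 * w)..(t₀ + 3 * w),
          fderiv ℝ (fun z : ℂ => cut (-w) w w z.re * (z.im - κ)) (ζ s)
            ((tng x η (s + j * T) + nrm x η (s + j * T) * Complex.I) * (vel x s / d)) := by
      refine intervalIntegral.integral_congr fun s hs => ?_
      rw [Set.uIcc_of_le (by linarith)] at hs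
      have hs1 : |s - t₀| ≤ 3 * w := abs_le.2 ⟨by linarith [hs.1], by linarith [hs.2]⟩
      have hs2 : |s + j * T - (t₀ + j * T)| ≤ 3 * w := by
        rwa [add_sub_add_right_eq_sub]
      have hb : ∀ r, γ ^ (-j) • x (r + j * T) = x r := fun r => by
        rw [hback, add_sub_cancel_right]
      have hU : ∀ δ : Γ, ((δ • x (s + j * T) : ℍ) : ℂ) ∈ q.supp → δ = γ ^ (-j) := by
        intro δ h
        obtain ⟨i, hi, rfl⟩ := key δ _ h
        rw [t9pass_int (by linarith) hi hs2]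
      have hev1 := hok.fam_eventually F hU
      have hev2 : ∀ᶠ z : ℍ in 𝓝 (x (s + j * T)),
          |(co p d (γ ^ (-j) • z : ℍ)).im| < 2 * w := by
        have hc : Continuous fun z : ℍ => |(co p d (γ ^ (-j) • z : ℍ)).im| := by
          have := UpperHalfPlane.continuous_coe.comp (F.cont (γ ^ (-j)))
          unfold co
          exact (Complex.continuous_im.comp ((this.sub continuous_const).div_const d)).abs
        refine hc.continuousAt.eventually_lt continuousAt_const ?_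
        rw [hb]
        have := him s hs1
        simp only [hζ] at this
        linarith
      have hev : ∀ᶠ z : ℍ in 𝓝 (x (s + j * T)), (fam Γ q 2 + (-κ) • fam Γ q 0) z =
          ((fun z : ℂ => cut (-w) w w z.re * (z.im - κ)) ∘ co p d) (γ ^ (-j) • z : ℍ) := by
        filter_upwards [hev1, hev2] with z h1 h2
        have h3 : cut (-w - w) (w + w) w (co p d (γ ^ (-j) • z : ℍ)).im = 1 :=
          cut_eq_one hw0 ⟨by linarith [(abs_lt.1 h2).1], by linarith [(abs_lt.1 h2).2]⟩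
        simp only [Pi.add_apply, Pi.smul_apply, smul_eq_mul, Function.comp_apply]
        rw [h1 2, h1 0]
        simp only [Bx.fn, hq, h3]
        simp only [Matrix.cons_val]
        ring
      have hF := fun z : ℂ => (t9pass_hasF w κ (co p d z)).differentiableAt.hasFDerivAt.comp z
        (t9pass_co p d z)
      have hvel : vel x s = dk (γ ^ (-j)) (x (s + j * T)) (vel x (s + j * T)) := by
        have h1 := F.vel_smul (γ ^ (-j)) (fun r => x (r + j * T)) s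
        rw [vel_shift] at h1
        simp only [hb] at h1
        exact h1
      have hsg : sg (γ ^ (-j)) = 1 := by
        rcases sg_cases (γ ^ (-j)) with h | h
        · exact h.2
        · exact absurd (ho.zpow _) h.1
      obtain ⟨h1, h2⟩ := F.dk_div (γ ^ (-j)) (x (s + j * T)) (η (s + j * T)) (vel x (s + j * T))
      rw [← hvel, hsg, one_mul] at h1
      rw [← hvel] at h2
      have h3 : dk (γ ^ (-j)) (x (s + j * T)) (η (s + j * T)) / vel x s =
          tng x η (s + j * T) + nrm x η (s + j * T) * Complex.I := by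
        apply Complex.ext
        · rw [h2]; simp [tng]
        · rw [h1]; simp [nrm]
      show fderiv ℝ (fam Γ q 2 + (-κ) • fam Γ q 0) (x (s + j * T)) (η (s + j * T)) = _
      rw [F.fderiv_comp (γ ^ (-j)) hev (hF _).differentiableAt, (hF _).fderiv, hb, ← h3]
      simp only [ContinuousLinearMap.comp_apply, ContinuousLinearMap.mul_apply', hζ]
      congr 1
      have := hv s
      field_simp
    rw [hshift, hcg]
    refine le_trans ?_ hmain
    have h1 : Λ * ε' * B ≤ ε / 2 * B := mul_le_mul_of_nonneg_right hε2 hB0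
    have h2 : w * (Λ * ε' * B) ≤ w * (c₀ / 2) := mul_le_mul_of_nonneg_left (by linarith) hw0.le
    nlinarith

end Pool.Agent.Lib.MP_5bb885_an.Gen
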