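import Pool.Agent.Lib.MP_5bb885_an.T9SV2
import Pool.Agent.Lib.MP_5bb885_an.T9Pass
import Pool.Agent.Lib.MP_5bb885_an.T9Bnd

/-!
Closed calibrated curves are hyperbolic.
-/

namespace Pool.Agent.Lib.MP_5bb885_an.Gen

open UpperHalfPlane MeasureTheory Filter Topology

variable {Γ : Type} [Group Γ] [MulAction Γ ℍ] {L : ℂ × ℂ → ℝ} {x : ℝ → ℍ} {u : ℍ → ℝ}
  {c : Γ → ℝ} {γ : Γ} {T : ℝ}

/-- Summation of the signals of the passages. -/
lemma sum_pass {f : ℝ → ℝ} (hf : Continuous f) {t₀ T w₀ a b m : ℝ} (hw : 0 < w₀)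
    (hT : 2 * w₀ ≤ T) (hab : a ≤ b) (h0 : ∀ t, (∀ j : ℤ, w₀ ≤ |t - (t₀ + j * T)|) → f t = 0)
    (ha : ∀ j : ℤ, w₀ ≤ |a - (t₀ + j * T)|) (hb : ∀ j : ℤ, w₀ ≤ |b - (t₀ + j * T)|)
    (hm : 0 ≤ m) (h : ∀ j : ℤ, t₀ + j * T ∈ Set.Icc a b →
      m ≤ ∫ t in (t₀ + j * T - w₀)..(t₀ + j * T + w₀), f t) (J : Finset ℤ)
    (hJ : ∀ j ∈ J, t₀ + j * T ∈ Set.Icc a b) : J.card * m ≤ ∫ t in a..b, f t := by
  have hT0 : 0 < T := by linarith
  set S : Finset ℤ := Finset.Icc ⌈(a - t₀) / T⌉ ⌊(b - t₀) / T⌋ with hS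
  have mem : ∀ j : ℤ, j ∈ S ↔ t₀ + j * T ∈ Set.Icc a b := fun j => by
    rw [hS, Finset.mem_Icc, Int.ceil_le, Int.le_floor, div_le_iff₀ hT0, le_div_iff₀ hT0,
      Set.mem_Icc]
    constructor <;> rintro ⟨h1, h2⟩ <;> constructor <;> linarith
  have e1 : ∫ t in Set.Ioc a b, f t =
      ∫ t in ⋃ j ∈ S, Set.Ioc (t₀ + j * T - w₀) (t₀ + j * T + w₀), f t := by
    refine setIntegral_eq_of_subset_of_forall_sdiff_eq_zero measurableSet_Ioc ?_ ?_
    · refine Set.iUnion₂_subset fun j hj => ?_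
      obtain ⟨h1, h2⟩ := (mem j).1 hj
      have h3 := ha j
      have h4 := hb j
      rw [abs_of_nonpos (by linarith)] at h3
      rw [abs_of_nonneg (by linarith)] at h4
      exact Set.Ioc_subset_Ioc (by linarith) (by linarith)
    · rintro t ⟨⟨h1, h2⟩, h3⟩
      refine h0 t fun j => le_of_not_gt fun h4 => h3 ?_
      rw [abs_lt] at h4
      refine Set.mem_iUnion₂.2 ⟨j, (mem j).2 ⟨?_, ?_⟩, by linarith [h4.1], by linarith [h4.2]⟩
      · by_contra h5
        have := ha j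
        rw [abs_of_nonneg (by linarith)] at this
        linarith [h4.2]
      · by_contra h5
        have := hb j
        rw [abs_of_nonpos (by linarith)] at this
        linarith [h4.1]
  rw [intervalIntegral.integral_of_le hab, e1, integral_biUnion_finset _
    (fun _ _ => measurableSet_Ioc) ?_ fun j _ => (hf.intervalIntegrable _ _).1]
  · calc (J.card : ℝ) * m ≤ S.card * m := by
          gcongr
          exact fun j hj => (mem j).2 (hJ j hj)
      _ = ∑ _j ∈ S, m := by simp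
      _ ≤ _ := Finset.sum_le_sum fun j hj => by
          rw [← intervalIntegral.integral_of_le (by linarith)]
          exact h j ((mem j).1 hj)
  · have key : ∀ i j : ℤ, i < j → Disjoint (Set.Ioc (t₀ + i * T - w₀) (t₀ + i * T + w₀))
        (Set.Ioc (t₀ + j * T - w₀) (t₀ + j * T + w₀)) := fun i j hij => by
      have h1 : (i : ℝ) + 1 ≤ j := by exact_mod_cast hij
      exact Set.Ioc_disjoint_Ioc_of_le (by nlinarith)
    intro i _ j _ hij
    rcases lt_or_gt_of_ne hij with h1 | h1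
    · exact key i j h1
    · exact (key j i h1).symm

lemma t9per_zero {n : ℝ → ℝ} (hn : Continuous n) {s t : ℝ} (hst : s ≤ t) (h1 : n s ≤ 0)
    (h2 : 0 < n t) : ∃ a, a < t ∧ n a = 0 ∧ ∀ r ∈ Set.Ioc a t, 0 < n r := by
  have ivt : ∀ s, s ≤ t → n s ≤ 0 → ∃ a ∈ Set.Icc s t, n a = 0 := fun s hst h1 =>
    intermediate_value_Icc hst hn.continuousOn ⟨h1, h2.le⟩
  obtain ⟨a, ⟨ha, h0⟩, hmax⟩ := (isCompact_Icc.inter_right
    (isClosed_eq hn continuous_const)).exists_isGreatest (ivt s hst h1)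
  have h0 : n a = 0 := h0
  refine ⟨a, lt_of_le_of_ne ha.2 (by rintro rfl; linarith), h0, fun r hr => ?_⟩
  by_contra h3
  obtain ⟨a', ha', h4⟩ := ivt r hr.2 (not_lt.1 h3)
  have := hmax ⟨⟨ha.1.trans (hr.1.le.trans ha'.1), ha'.2⟩, h4⟩
  linarith [hr.1, ha'.1]

lemma t9per_gap (hT : 0 < T) (y : ℝ) :
    ∃ r, 0 < r ∧ ∀ δ, δ ≤ r → ∀ j : ℤ, δ ≤ |y - δ - j * T| := by
  have h1 : ((⌈y / T⌉ - 1 : ℤ) : ℝ) * T < y := by
    rw [← lt_div_iff₀ hT]
    push_cast
    linarith [Int.ceil_lt_add_one (y / T)]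
  have h2 : y ≤ ((⌈y / T⌉ - 1 : ℤ) : ℝ) * T + T := by
    have := (div_le_iff₀ hT).1 (Int.le_ceil (y / T))
    push_cast
    linarith
  generalize ⌈y / T⌉ - 1 = k at h1 h2
  refine ⟨(y - k * T) / 2, by linarith, fun δ hδ j => ?_⟩
  rcases le_or_gt j k with h | h
  · have h3 : (j : ℝ) ≤ k := by exact_mod_cast h
    exact le_abs.2 (Or.inl (by nlinarith))
  · have h3 : (k : ℝ) + 1 ≤ j := by exact_mod_cast h
    exact le_abs.2 (Or.inr (by nlinarith))

lemma t9per_core (F : Deck Γ) (hL : Tonelli Γ L) (hc : c ∈ Coh Γ) (h : TDall L c) (hu : Eqv c u)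
    (hd : Dom L (crit L c) u) (hx : Cal L (crit L c) u x) (hp : MinPer x γ T) (ho : Ori γ)
    (hv : ∀ t, vel x t ≠ 0) {η : ℝ → ℂ} (hJ : Jac L x η) (hE : En L x η) (hB : Bdd x η)
    (t₀ : ℝ) {w₁ c₀ : ℝ} (hw : 0 < w₁) (hwT : 2 * w₁ ≤ T) (hc₀ : 0 < c₀) :
    ∃ m C : ℝ, 0 < m ∧ 0 ≤ C ∧ ∀ a b, a < b → (∀ j : ℤ, w₁ ≤ |a - (t₀ + j * T)|) →
      (∀ j : ℤ, w₁ ≤ |b - (t₀ + j * T)|) →
      (∀ j : ℤ, t₀ + j * T ∈ Set.Icc a b → ∀ t, |t - (t₀ + j * T)| ≤ w₁ → c₀ ≤ nrm x η t) →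
      ∀ J : Finset ℤ, (∀ j ∈ J, t₀ + j * T ∈ Set.Icc a b) → ∀ σ : ℝ, 0 < σ →
        σ * (J.card * m) ≤ (bt L x η b - bt L x η a) / 2 +
          C * ((‖nu x η a‖ / (x a).im) ^ 2 + (‖nu x η b‖ / (x b).im) ^ 2) +
          C * σ * (‖nu x η a‖ / (x a).im + ‖nu x η b‖ / (x b).im) + C * σ ^ 2 * (b - a + C) := by
  have hr : Reg L x := hx.reg (hL.unif1 F) rfl hd
  obtain ⟨B, hB0, hB⟩ := jac_bound F hL hr hp.1 hv hJ hE hB
  obtain ⟨q, κ, w₀, c₁, hq, hw₀, hw₁, hc₁, hφ⟩ :=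
    exists_pass F hL hu hd hx hp ho hv t₀ (ε := c₀ / (B + 1)) (by positivity) hw
  obtain ⟨h0, hz, hs⟩ := hφ _ rfl
  have c2 := (hq.pot F 2).c2
  have c0 := ((hq.pot F 0).c2).smul (-κ)
  obtain ⟨ρ₂, h2⟩ := h.2 q hq 2
  obtain ⟨ρ₀, h1⟩ := h.2 q hq 0
  have h3 := TDa.add F hL hc (zero_mem _) (by simp) c2 c0 h2 (h1.smul (-κ))
  rw [smul_zero, add_zero] at h3
  have cφ := c2.add c0
  generalize fam Γ q 2 + (-κ) • fam Γ q 0 = φ at h0 hz hs h3 cφ
  rw [h3.zero_of_per F hL hc cφ hu hx hp.1 h0] at h3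
  obtain ⟨C, hC, hsv⟩ := sv_ineq F hL hc hu hd hx hp.1 cφ h3 h0
  have dη : ∀ t, DifferentiableAt ℝ η t := fun t => (hJ t).1
  refine ⟨c₁ * c₀, C, by positivity, hC, fun a b hab ha hb hn J hJ' σ hσ => ?_⟩
  have ha' := fun j => hw₁.trans (ha j)
  have hb' := fun j => hw₁.trans (hb j)
  refine le_trans (mul_le_mul_of_nonneg_left ?_ hσ.le)
    (hsv η hJ hE a b hab (hz a ha').self_of_nhds (hz b hb').self_of_nhds σ hσ)
  have op : IsOpen HP := isOpen_lt continuous_const Complex.continuous_im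
  refine sum_pass (Continuous.clm_apply ?_ (Differentiable.continuous dη)) hw₀ (by linarith)
    hab.le (fun t ht => ?_) ha' hb' (by positivity) (fun j hj => ?_) J hJ'
  · exact (cφ.1.continuousOn_fderiv_of_isOpen op (by norm_num)).comp_continuous
      (continuous_coe.comp hr.continuous) fun t => (x t).im_pos
  · have : φ =ᶠ[𝓝 (x t : ℂ)] fun _ => 0 := by
      rw [← isOpenEmbedding_coe.map_nhds_eq]
      exact hz t ht
    simp [this.fderiv_eq]
  · refine hs η dη (JacA.contDeriv (hr.coef hL) hJ) j c₀ B hc₀.le ?_ fun t ht =>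
      ⟨hn j hj t (ht.trans hw₁), (le_abs_self _).trans (hB t).1, (hB t).2.1⟩
    rw [div_mul_eq_mul_div, div_le_iff₀ (by positivity)]
    nlinarith

lemma t9per_pos (F : Deck Γ) (hL : Tonelli Γ L) (hc : c ∈ Coh Γ) (h : TDall L c) (hu : Eqv c u)
    (hd : Dom L (crit L c) u) (hx : Cal L (crit L c) u x) (hp : MinPer x γ T) (ho : Ori γ)
    (hv : ∀ t, vel x t ≠ 0) {η : ℝ → ℂ} (hJ : Jac L x η) (hE : En L x η) (hB : Bdd x η)
    (hn : ¬∃ a : ℝ, ∀ t, η t = a • vel x t) {s : ℝ} (hs : 0 < nrm x η s) : False := by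
  have hr : Reg L x := hx.reg (hL.unif1 F) rfl hd
  have hT : 0 < T := hp.1.1
  have cn : Continuous (nrm x η) := Complex.continuous_im.comp
    ((Differentiable.continuous fun t => (hJ t).1).div hr.contVel hv)
  by_cases hA : (∃ a, a ≤ s ∧ nrm x η a ≤ 0) ∧ ∃ b, s ≤ b ∧ nrm x η b ≤ 0
  · obtain ⟨⟨a₀, h1, h2⟩, b₀, h3, h4⟩ := hA
    obtain ⟨a, ha, za, pa⟩ := t9per_zero cn h1 h2 hs
    obtain ⟨b', hb, zb, pb⟩ := t9per_zero (cn.comp continuous_neg) (neg_le_neg h3)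
      (by simpa using h4) (by simpa using hs)
    have zb : nrm x η (-b') = 0 := zb
    have pos : ∀ t ∈ Set.Ioo a (-b'), 0 < nrm x η t := fun t ht => by
      rcases le_total t s with h5 | h5
      · exact pa t ⟨ht.1, h5⟩
      · simpa using pb (-t) ⟨by linarith [ht.2], neg_le_neg h5⟩
    have hab : a < -b' := by linarith
    generalize -b' = b at zb pos hab
    obtain ⟨r₁, hr₁, g₁⟩ := t9per_gap hT 0
    obtain ⟨r₂, hr₂, g₂⟩ := t9per_gap hT (b - a)
    obtain ⟨δ, d0, d1, d2, d3, d4⟩ : ∃ δ, 0 < δ ∧ δ ≤ r₁ ∧ δ ≤ r₂ ∧ δ ≤ b - a ∧ δ ≤ T :=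
      ⟨min (min r₁ r₂) (min (b - a) T), lt_min (lt_min hr₁ hr₂) (lt_min (by linarith) hT),
        (min_le_left _ _).trans (min_le_left _ _), (min_le_left _ _).trans (min_le_right _ _),
        (min_le_right _ _).trans (min_le_left _ _), (min_le_right _ _).trans (min_le_right _ _)⟩
    have ga : ∀ j : ℤ, δ ≤ |a - (a + δ + j * T)| := fun j => by
      convert g₁ δ d1 j using 2; ring
    have gb : ∀ j : ℤ, δ ≤ |b - (a + δ + j * T)| := fun j => by
      convert g₂ δ d2 j using 2; ring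
    obtain ⟨t₁, ht₁, hmin⟩ := (isCompact_Icc (a := a + δ / 2) (b := b - δ / 2)).exists_isMinOn
      (Set.nonempty_Icc.2 (by linarith)) cn.continuousOn
    obtain ⟨m, C, hm, hC, key⟩ := t9per_core F hL hc h hu hd hx hp ho hv hJ hE hB (a + δ)
      (w₁ := δ / 2) (by linarith) (by linarith)
      (pos t₁ ⟨by linarith [ht₁.1], by linarith [ht₁.2]⟩)
    have hK : 0 < C * (b - a + C) + 1 := by
      have : 0 ≤ C * (b - a + C) := mul_nonneg hC (by linarith)
      linarith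
    have hσ : 0 < m / (C * (b - a + C) + 1) := div_pos hm hK
    have := key a b hab (fun j => by linarith [ga j]) (fun j => by linarith [gb j])
      (fun j hj t ht => by
        have h5 := ga j
        have h6 := gb j
        rw [abs_of_nonpos (by linarith [hj.1])] at h5
        rw [abs_of_nonneg (by linarith [hj.2])] at h6
        rw [abs_le] at ht
        exact hmin ⟨by linarith [ht.1], by linarith [ht.2]⟩)
      {0} (by simp; constructor <;> linarith) _ hσ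
    have e : m / (C * (b - a + C) + 1) * (C * (b - a + C) + 1) = m := div_mul_cancel₀ _ hK.ne'
    generalize m / (C * (b - a + C) + 1) = σ at hσ this e
    simp only [bt, (nrm_eq_zero (hv a)).1 za, (nrm_eq_zero (hv b)).1 zb] at this
    simp at this
    nlinarith [mul_pos hσ hσ]
  · have long : ∀ l : ℝ, 0 ≤ l → ∃ r, ∀ t ∈ Set.Icc r (r + l), 0 < nrm x η t := by
      intro l hl
      rcases not_and_or.1 hA with h1 | h1 <;> push Not at h1
      · exact ⟨s - l, fun t ht => h1 t (by linarith [ht.2])⟩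
      · exact ⟨s, fun t ht => h1 t ht.1⟩
    obtain ⟨c₀, hc₀, low⟩ := jac_pos F hL hr hp.1 ho hv hJ hE hB hn
    obtain ⟨m, C, hm, hC, key⟩ := t9per_core F hL hc h hu hd hx hp ho hv hJ hE hB (T / 2)
      (w₁ := T / 2) (by linarith) (by linarith) hc₀
    obtain ⟨B, hB0, hB⟩ := jac_bound F hL hr hp.1 hv hJ hE hB
    obtain ⟨M, hM⟩ := exists_nat_gt
      (max 1 ((B + C * (B ^ 2 + B ^ 2) + C * (B + B) + C * (T + C)) / m))
    have M1 : (1 : ℝ) < M := (le_max_left _ _).trans_lt hM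
    have M2 := (div_lt_iff₀ hm).1 ((le_max_right _ _).trans_lt hM)
    obtain ⟨r, hpos⟩ := long ((M ^ 2 + 3) * T + 2) (by positivity)
    have k1 := (div_le_iff₀ hT).1 (Int.le_ceil ((r + 1 + T) / T))
    have k2 := (lt_div_iff₀ hT).1 (sub_lt_iff_lt_add.2 (Int.ceil_lt_add_one ((r + 1 + T) / T)))
    generalize ⌈(r + 1 + T) / T⌉ = k at k1 k2
    have half : ∀ i j : ℤ, T / 2 ≤ |i * T - (T / 2 + j * T)| := fun i j => by
      rcases le_or_gt i j with h1 | h1
      · have h3 : (i : ℝ) ≤ j := by exact_mod_cast h1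
        exact le_abs.2 (Or.inr (by nlinarith))
      · have h3 : (j : ℝ) + 1 ≤ i := by exact_mod_cast h1
        exact le_abs.2 (Or.inl (by nlinarith))
    have hσ : (0 : ℝ) < 1 / M := by positivity
    have := key (k * T) (((k + M ^ 2 : ℤ) : ℝ) * T)
      (by push_cast; linarith [mul_pos (pow_pos (zero_lt_one.trans M1) 2) hT]) (half k)
      (half _) (fun j hj t ht => low t fun s' hs' => hpos s' (by
        rw [abs_le] at ht
        push_cast at hj
        constructor <;> nlinarith [hj.1, hj.2, ht.1, ht.2, hs'.1, hs'.2]))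
      (Finset.Ico k (k + M ^ 2)) (fun j hj => by
        obtain ⟨h1, h2⟩ := Finset.mem_Ico.1 hj
        have h3 : (k : ℝ) ≤ j := by exact_mod_cast h1
        have h4 : (j : ℝ) + 1 ≤ ((k + M ^ 2 : ℤ) : ℝ) := by exact_mod_cast h2
        constructor <;> nlinarith) _ hσ
    have card : ((Finset.Ico k (k + M ^ 2)).card : ℝ) = M ^ 2 := by
      rw [Int.card_Ico, add_sub_cancel_left, ← Nat.cast_pow, Int.toNat_natCast, Nat.cast_pow]
    have e1 : 1 / (M : ℝ) * (M ^ 2 * m) = M * m := by field_simp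
    have e2 : C * (1 / (M : ℝ)) ^ 2 * (((k + M ^ 2 : ℤ) : ℝ) * T - k * T + C) =
        C * (T + C * (1 / M) ^ 2) := by
      push_cast
      field_simp
      ring
    rw [card, e1, e2] at this
    generalize ((k + M ^ 2 : ℤ) : ℝ) * T = b at this
    generalize (k : ℝ) * T = a at this
    have s1 : 1 / (M : ℝ) ≤ 1 := by rw [div_le_one (by linarith)]; exact M1.le
    have na : 0 ≤ ‖nu x η a‖ / (x a).im := div_nonneg (norm_nonneg _) (x a).im_pos.le
    have nb : 0 ≤ ‖nu x η b‖ / (x b).im := div_nonneg (norm_nonneg _) (x b).im_pos.le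
    have ba := (hB a).2.2.1
    have bb := (hB b).2.2.1
    have i1 : C * ((‖nu x η a‖ / (x a).im) ^ 2 + (‖nu x η b‖ / (x b).im) ^ 2) ≤
        C * (B ^ 2 + B ^ 2) := by gcongr
    have i2 : C * (1 / M) * (‖nu x η a‖ / (x a).im + ‖nu x η b‖ / (x b).im) ≤
        C * 1 * (B + B) := by gcongr
    have i3 : C * (T + C * (1 / M) ^ 2) ≤ C * (T + C * 1 ^ 2) := by gcongr
    linarith [(abs_le.1 (hB a).2.2.2).1, (abs_le.1 (hB b).2.2.2).2]

theorem TDall.hyp (F : Deck Γ) (hL : Tonelli Γ L) (hc : c ∈ Coh Γ) (h : TDall L c) (hu : Eqv c u)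
    (hd : Dom L (crit L c) u) (hx : Cal L (crit L c) u x) (hp : MinPer x γ T) (ho : Ori γ)
    (hv : ∀ t, vel x t ≠ 0) : Hyp L x := by
  intro η hJ hE hB
  by_contra hn
  have hr : Reg L x := hx.reg (hL.unif1 F) rfl hd
  have h0 : nrm x η = fun _ => 0 := by
    funext s
    rcases lt_trichotomy (nrm x η s) 0 with h1 | h1 | h1
    · refine (t9per_pos F hL hc h hu hd hx hp ho hv (η := (-1 : ℝ) • η) (JacA.smul hJ _)
        (hE.smul' (fun t => (hJ t).1) _) (hB.smul' _) ?_ (s := s) ?_).elim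
      · rintro ⟨a, ha⟩
        refine hn ⟨-a, fun t => ?_⟩
        rw [_root_.neg_smul, ← ha t]
        simp
      · have : nrm x ((-1 : ℝ) • η) s = -nrm x η s := by simp [nrm, neg_div]
        linarith
    · exact h1
    · exact (t9per_pos F hL hc h hu hd hx hp ho hv hJ hE hB hn h1).elim
  exact hn (Jac.tangent hL hr hv hJ hE (s := 0) (by rw [h0]) (by rw [h0]; simp))

end Pool.Agent.Lib.MP_5bb885_an.Gen
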