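import Pool.Agent.Lib.MP_5bb885_an.T9Pert
import Pool.Agent.Lib.MP_5bb885_an.T9Null
import Pool.Agent.Lib.MP_5bb885_an.T9Crit

/-!
Second order bounds hold almost everywhere.
-/

namespace Pool.Agent.Lib.MP_5bb885_an.Gen

open UpperHalfPlane MeasureTheory Filter Topology

variable {Γ : Type} [Group Γ] [MulAction Γ ℍ] {L : ℂ × ℂ → ℝ} {ε : OB → ℝ} {P : Om → ℂ → ℝ}
  {b : ℕ}

lemma Pert.continuous_crit (F : Deck Γ) (hL : Tonelli Γ L) (h : Pert Γ ε P)
    (e : (Fin b → ℝ) ≃ₗ[ℝ] Coh Γ) {ψ : Γ → ℝ} (hψ : ψ ∈ Coh Γ) {φ : ℂ → ℝ} (hφ : C2 Γ φ) :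
    Continuous fun p : Om × (Fin b → ℝ) =>
      crit (addP (addP L (P p.1)) φ) ((e p.2 : Γ → ℝ) + ψ) := by
  refine continuous_iff_seqContinuous.2 fun ps p hp => ?_
  have h0 : Tonelli Γ (addP (addP L (P p.1)) φ) := (hL.add F (h.pot _).c2).add F hφ
  have h1 := lseq_of_toZero F h0 (f := fun n => P (ps n).1 - P p.1)
    (fun n => ((h.pot _).sub (h.pot _)).c2)
    (h.lim p.1 (fun n => (ps n).1) ((continuous_fst.tendsto p).comp hp))
  have h2 := clim_of_tendsto F e ((continuous_snd.tendsto p).comp hp)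
  have h3 : CLim atTop ((e p.2 : Γ → ℝ) + ψ) fun n => (e (ps n).2 : Γ → ℝ) + ψ := by
    intro η hη
    filter_upwards [h2 η hη] with n hn γ z
    have := hn γ z
    simp only [Function.comp] at this
    simpa using this
  have h4 := h1.tendsto_crit F ((Coh Γ).add_mem (e p.2).2 hψ)
    (fun n => (Coh Γ).add_mem (e (ps n).2).2 hψ) h3
  refine h4.congr fun n => ?_
  have : addP (addP (addP L (P p.1)) φ) (P (ps n).1 - P p.1) = addP (addP L (P (ps n).1)) φ := by
    funext q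
    simp only [addP, Pi.sub_apply]
    ring
  simp only [Function.comp, this]

lemma t9td_cont (F : Deck Γ) (hL : Tonelli Γ L) (e : (Fin b → ℝ) ≃ₗ[ℝ] Coh Γ) :
    Continuous fun t : Fin b → ℝ => crit L (e t : Γ → ℝ) := by
  refine continuous_iff_seqContinuous.2 fun ts t ht => ?_
  exact (LSeq.const F hL atTop).tendsto_crit F (e t).2 (fun n => (e (ts n)).2)
    (clim_of_tendsto F e ht)

lemma t9td_convex (F : Deck Γ) (hL : Tonelli Γ L) {Q φ : ℂ → ℝ} (hQ : C2 Γ Q) (hφ : C2 Γ φ)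
    {c ψ : Γ → ℝ} (hc : c ∈ Coh Γ) (hψ : ψ ∈ Coh Γ) :
    ConvexOn ℝ Set.univ fun s : ℝ => crit (addP L (Q + s • φ)) (c + s • ψ) := by
  refine ⟨convex_univ, fun s _ t _ a a' ha ha' hab => ?_⟩
  have := crit_convex F hL (hQ.add (hφ.smul s)) (hQ.add (hφ.smul t))
    ((Coh Γ).add_mem hc ((Coh Γ).smul_mem s hψ)) ((Coh Γ).add_mem hc ((Coh Γ).smul_mem t hψ))
    ha ha' hab
  have e1 : a • (Q + s • φ) + a' • (Q + t • φ) = Q + (a • s + a' • t) • φ := by
    funext z
    simp only [Pi.add_apply, Pi.smul_apply, smul_eq_mul]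
    linear_combination (Q z) * hab
  have e2 : a • (c + s • ψ) + a' • (c + t • ψ) = c + (a • s + a' • t) • ψ := by
    funext z
    simp only [Pi.add_apply, Pi.smul_apply, smul_eq_mul]
    linear_combination (c z) * hab
  rw [e1, e2] at this
  simpa only [smul_eq_mul] using this

lemma Pert.ae_coh (F : Deck Γ) (hL : Tonelli Γ L) (e : (Fin b → ℝ) ≃ₗ[ℝ] Coh Γ) :
    ∀ᵐ t, ∀ ψ ∈ Coh Γ, ∃ ρ, TDa L (e t : Γ → ℝ) ψ 0 ρ := by
  have key : ∀ i : Fin b, ∀ᵐ t, ∃ ρ, TDa L (e t : Γ → ℝ) (e (Pi.single i 1) : Γ → ℝ) 0 ρ := by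
    intro i
    set v : Fin b → ℝ := Pi.single i 1 with hv
    set g : (Fin b → ℝ) → ℝ → ℝ := fun t a => crit L (e (t + a • v) : Γ → ℝ) with hg
    have hm := measurableSet_second (g := g) fun a =>
      (t9td_cont F hL e).comp (continuous_id.add continuous_const)
    have h0 := line_null v hm.compl fun y => by
      have hc := t9td_convex F hL c2_zero c2_zero (e y).2 (e v).2
      have := convex_second isOpen_univ hc
      rw [ae_iff] at this
      refine measure_mono_null (fun s hs => ?_) this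
      intro H
      obtain ⟨n, hn⟩ := H trivial
      refine hs ⟨n, fun a ha => ?_⟩
      have e1 : ∀ a : ℝ, g (y + s • v) a =
          crit (addP L (0 + (s + a) • (0 : ℂ → ℝ))) ((e y : Γ → ℝ) + (s + a) • (e v : Γ → ℝ)) := by
        intro a
        simp only [hg, smul_zero, add_zero, addP_zero]
        rw [add_assoc, ← add_smul, map_add, map_smul]
        rfl
      rw [e1, e1, e1, ← sub_eq_add_neg, add_zero s]
      exact hn a ha
    have h1 : ∀ᵐ t, ∃ n : ℕ, ∀ a : ℝ, |a| ≤ 1 / (n + 1) →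
        g t a + g t (-a) ≤ 2 * g t 0 + n * a ^ 2 := h0
    filter_upwards [h1] with t ⟨n, hn⟩
    refine tda_of_second F hL (e t).2 (e v).2 c2_zero (C := n) (s₀ := 1 / (n + 1))
      (by positivity) fun s hs => ?_
    have e1 : ∀ a : ℝ, g t a =
        crit (addP L (a • (0 : ℂ → ℝ))) ((e t : Γ → ℝ) + a • (e v : Γ → ℝ)) := by
      intro a
      simp only [hg, smul_zero, addP_zero]
      rw [map_add, map_smul]
      rfl
    have e0 : g t 0 = crit L (e t : Γ → ℝ) := by simp [hg]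
    rw [← e1, ← e1, ← e0]
    exact hn s hs
  filter_upwards [ae_all_iff.2 key] with t ht
  exact tda_coh F hL (e t).2 e ht

lemma t9td_c2_sum {ι : Type} (s : Finset ι) {f : ι → ℂ → ℝ} (h : ∀ i, C2 Γ (f i)) :
    C2 Γ (∑ i ∈ s, f i) :=
  Finset.sum_induction f (C2 Γ) (fun _ _ ha hb => ha.add hb) c2_zero fun i _ => h i

instance t9td_law_prob : IsProbabilityMeasure law := by
  unfold law
  infer_instance

lemma Pert.ae_fam (F : Deck Γ) (hL : Tonelli Γ L) (h : Pert Γ ε P)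
    (e : (Fin b → ℝ) ≃ₗ[ℝ] Coh Γ) (i : OB) (j : Fin 4) :
    ∀ᵐ a ∂law, ∀ᵐ t, ∃ ρ, TDa (addP L (P a)) (e t : Γ → ℝ) 0 (fam Γ i.1 j) ρ := by
  classical
  have hfam : ∀ j', C2 Γ (fam Γ i.1 j') := fun j' => (i.2.pot F j').c2
  set φ : ℂ → ℝ := ε i • fam Γ i.1 j with hφ
  have hφ2 : C2 Γ φ := (hfam j).smul _
  set g : Om × (Fin b → ℝ) → ℝ → ℝ := fun p s =>
    crit (addP (addP L (P p.1)) (s • φ)) ((e p.2 : Γ → ℝ) + s • (0 : Γ → ℝ)) with hg
  have hm := measurableSet_second (g := g) fun s =>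
    h.continuous_crit F hL e ((Coh Γ).smul_mem s (Coh Γ).zero_mem) (hφ2.smul s)
  set G : Set (Om × (Fin b → ℝ)) := {p | ∃ n : ℕ, ∀ a : ℝ, |a| ≤ 1 / (n + 1) →
      g p a + g p (-a) ≤ 2 * g p 0 + n * a ^ 2} with hG
  have h1 : ∀ t : Fin b → ℝ, ∀ᵐ a ∂law, (a, t) ∈ G := by
    intro t
    have hmt : MeasurableSet {a : Om | (a, t) ∉ G} := measurable_prodMk_right hm.compl
    refine law_null cube i hmt fun a => cube_null ?_
    have hopen : MeasurableSet {y : Fin 4 → ℝ | ∀ j', y j' ∈ Set.Ioo (-1 : ℝ) 1} := by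
      rw [Set.ofPred_forall]
      exact MeasurableSet.iInter fun j' => measurable_pi_apply j' measurableSet_Ioo
    refine line_null (Pi.single j 1) ((measurable_update a hmt).inter hopen) fun y => ?_
    set Q : ℂ → ℝ := P (Function.update a i 0) + ∑ j', (ε i * y j') • fam Γ i.1 j' with hQ
    have hQ2 : C2 Γ Q := (h.pot _).c2.add (t9td_c2_sum _ fun j' => (hfam j').smul _)
    have hc := t9td_convex F hL hQ2 hφ2 (e t).2 (Coh Γ).zero_mem
    have := convex_second isOpen_univ hc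
    rw [ae_iff] at this
    refine measure_mono_null (fun s hs => ?_) this
    intro H
    obtain ⟨n, hn⟩ := H trivial
    obtain ⟨hs1, hs2⟩ := hs
    refine hs1 ⟨n, fun σ hσ => ?_⟩
    have e0 : P (Function.update a i (y + s • (Pi.single j 1 : Fin 4 → ℝ))) = Q + s • φ := by
      have hu := h.upd a i (y + s • (Pi.single j 1 : Fin 4 → ℝ))
      have e3 : ∀ j', (ε i * clamp ((y + s • (Pi.single j 1 : Fin 4 → ℝ)) j')) • fam Γ i.1 j' =
          (ε i * y j') • fam Γ i.1 j' + if j' = j then s • φ else 0 := by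
        intro j'
        rw [clamp_eq (Set.Ioo_subset_Icc_self (hs2 j'))]
        by_cases hj : j' = j
        · subst hj
          simp only [Pi.add_apply, Pi.smul_apply, Pi.single_eq_same, smul_eq_mul, mul_one,
            if_true, hφ]
          rw [smul_smul, ← add_smul]
          congr 1
          ring
        · simp [hj]
      simp only [e3, Finset.sum_add_distrib, Finset.sum_ite_eq', Finset.mem_univ, if_true] at hu
      rw [hQ, add_assoc]
      convert hu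
    have e1 : ∀ σ : ℝ, g (Function.update a i (y + s • (Pi.single j 1 : Fin 4 → ℝ)), t) σ =
        crit (addP L (Q + (s + σ) • φ)) ((e t : Γ → ℝ) + (s + σ) • (0 : Γ → ℝ)) := by
      intro σ
      simp only [hg, smul_zero]
      rw [e0, addP_addP, add_assoc, ← add_smul]
    have := hn σ hσ
    rw [sub_eq_add_neg, ← e1, ← e1] at this
    have e2 := e1 0
    rw [add_zero s] at e2
    rw [← e2] at this
    convert this
  have h2 : ∀ᵐ a ∂law, ∀ᵐ t : Fin b → ℝ, (a, t) ∈ G :=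
    (Measure.ae_ae_comm (p := fun (a : Om) (t : Fin b → ℝ) => (a, t) ∈ G) hm).2
      (Eventually.of_forall h1)
  filter_upwards [h2] with a ha
  filter_upwards [ha] with t ⟨n, hn⟩
  have hT : Tonelli Γ (addP L (P a)) := hL.add F (h.pot a).c2
  obtain ⟨ρ, hρ⟩ := tda_of_second F hT (e t).2 (Coh Γ).zero_mem hφ2 (C := n) (s₀ := 1 / (n + 1))
    (by positivity) fun s hs => by
      have := hn s hs
      simp only [hg, zero_smul, addP_zero, add_zero] at this
      exact this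
  refine ⟨(ε i)⁻¹ * ρ, ?_⟩
  have := hρ.smul (ε i)⁻¹
  rwa [smul_zero, hφ, smul_smul, inv_mul_cancel₀ (h.pos i).ne', one_smul] at this

theorem Pert.ae_tdall (F : Deck Γ) (hL : Tonelli Γ L) (h : Pert Γ ε P)
    (e : (Fin b → ℝ) ≃ₗ[ℝ] Coh Γ) : ∀ᵐ a ∂law, ∀ᵐ t, TDall (addP L (P a)) (e t : Γ → ℝ) := by
  have h1 : ∀ᵐ a ∂law, ∀ i : OB, ∀ j : Fin 4,
      ∀ᵐ t, ∃ ρ, TDa (addP L (P a)) (e t : Γ → ℝ) 0 (fam Γ i.1 j) ρ :=
    ae_all_iff.2 fun i => ae_all_iff.2 fun j => h.ae_fam F hL e i j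
  filter_upwards [h1] with a ha
  have h2 : ∀ᵐ t, ∀ i : OB, ∀ j : Fin 4,
      ∃ ρ, TDa (addP L (P a)) (e t : Γ → ℝ) 0 (fam Γ i.1 j) ρ :=
    ae_all_iff.2 fun i => ae_all_iff.2 fun j => ha i j
  filter_upwards [h2, Pert.ae_coh F (hL.add F (h.pot a).c2) e] with t ht ht'
  exact ⟨ht', fun q hq j => ht ⟨q, hq⟩ j⟩

end Pool.Agent.Lib.MP_5bb885_an.Gen
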