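import Pool.Agent.Lib.MP_5bb885_an.T9HL
import Pool.Agent.Lib.MP_5bb885_an.T9Flow
import Pool.Agent.Lib.MP_5bb885_an.T9Fam
import Pool.Agent.Lib.MP_5bb885_an.T9Lam

/-!
Uniqueness of the calibrated orbit.
-/

namespace Pool.Agent.Lib.MP_5bb885_an.Gen

open UpperHalfPlane MeasureTheory Filter Topology

variable {Γ : Type} [Group Γ] [MulAction Γ ℍ] {L : ℂ × ℂ → ℝ} {c : Γ → ℝ} {x : ℝ → ℍ}
  {u : ℍ → ℝ} {γ : Γ} {T : ℝ}

lemma TDall.bumps (F : Deck Γ) (hL : Tonelli Γ L) (hc : c ∈ Coh Γ) (h : TDall L c)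
    (s : Finset OB) : C2 Γ (fun z => ∑ i ∈ s, fam Γ i.1 0 z) ∧
      ∃ ρ, TDa L c 0 (fun z => ∑ i ∈ s, fam Γ i.1 0 z) ρ := by
  classical
  induction s using Finset.induction_on with
  | empty =>
    have e : (fun z => ∑ i ∈ (∅ : Finset OB), fam Γ i.1 0 z) = 0 := by
      funext z; simp
    rw [e]
    exact ⟨c2_zero, 0, TDa.zero L c⟩
  | insert i s hi ih =>
    have e : (fun z => ∑ j ∈ insert i s, fam Γ j.1 0 z) =
        fam Γ i.1 0 + fun z => ∑ j ∈ s, fam Γ j.1 0 z := by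
      funext z; rw [Finset.sum_insert hi]; rfl
    obtain ⟨h1, ρ, h2⟩ := ih
    obtain ⟨ρ', h3⟩ := h.2 i.1 i.2 0
    have h4 := (i.2.pot F 0).c2
    rw [e]
    refine ⟨h4.add h1, ρ' + ρ, ?_⟩
    have := TDa.add F hL hc (Submodule.zero_mem _) (Submodule.zero_mem _) h4 h1 h3 h2
    rwa [add_zero] at this

lemma t9uniq_mono {f : ℝ → ℝ} (hf : Continuous f) (h0 : ∀ t, 0 ≤ f t) {a b a' b' : ℝ}
    (h1 : a ≤ a') (h2 : a' ≤ b') (h3 : b' ≤ b) : ∫ s in a'..b', f s ≤ ∫ s in a..b, f s :=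
  intervalIntegral.integral_mono_interval h1 h2 h3 (Eventually.of_forall h0)
    (hf.intervalIntegrable _ _)

lemma t9uniq_good {C c₀ W : ℝ} (hc₀ : 0 < c₀) (hW : 0 < W) : ∃ A : ℝ, 1 ≤ A ∧
    ∀ (f : ℝ → ℝ) (E : Set ℝ), Continuous f → (∀ t, 0 ≤ f t) →
      (∀ t ∈ E, c₀ ≤ ∫ s in t..t + 1, f s) → ∀ m : ℕ, 1 ≤ m → ∀ a : ℝ,
      (∫ s in a..a + A * m ^ 2, f s) ≤ C * (1 + √(A * m ^ 2)) →
      ∃ t₀ ∈ Set.Icc a (a + A * m ^ 2), ∀ t, |t - t₀| ≤ m * W → t ∉ E := by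
  obtain ⟨k, hk⟩ := exists_nat_gt (max 1 (|C| * (1 + √(2 * W + 1)) / c₀))
  have hk1 : (1 : ℝ) < k := (le_max_left _ _).trans_lt hk
  have hk2 : |C| * (1 + √(2 * W + 1)) < k * c₀ :=
    (div_lt_iff₀ hc₀).1 ((le_max_right _ _).trans_lt hk)
  refine ⟨k ^ 2 * (2 * W + 1), by nlinarith, fun f E hf h0 hE m hm a hI => ?_⟩
  have hm1 : (1 : ℝ) ≤ m := by exact_mod_cast hm
  by_contra hn
  push Not at hn
  set l : ℝ := 2 * (m * W) + 1 with hl
  have hmW : 0 < m * W := by positivity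
  have hl0 : 0 < l := by positivity
  have hJ : ((k ^ 2 * m : ℕ) : ℝ) * l ≤ k ^ 2 * (2 * W + 1) * m ^ 2 := by
    push_cast
    have : (0 : ℝ) ≤ k ^ 2 * m * (m - 1) := by
      have : (0 : ℝ) ≤ m - 1 := by linarith
      positivity
    rw [hl]
    nlinarith
  have key : ∀ j : ℕ, j ≤ k ^ 2 * m → j * c₀ ≤ ∫ s in a..a + j * l, f s := by
    intro j
    induction j with
    | zero => intro _; simp
    | succ j ih =>
      intro hj
      have h1 := ih (by omega)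
      have hj' : ((j + 1 : ℕ) : ℝ) * l ≤ ((k ^ 2 * m : ℕ) : ℝ) * l :=
        mul_le_mul_of_nonneg_right (by exact_mod_cast hj) hl0.le
      have hj0 : (0 : ℝ) ≤ j * l := by positivity
      have e1 : ((j + 1 : ℕ) : ℝ) * l = j * l + 2 * (m * W) + 1 := by
        push_cast; rw [hl]; ring
      obtain ⟨t, ht, htE⟩ := hn (a + j * l + m * W) ⟨by linarith, by linarith⟩
      rw [abs_le] at ht
      have h2 : ∫ s in t..t + 1, f s ≤ ∫ s in a + j * l..a + ((j + 1 : ℕ) : ℝ) * l, f s :=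
        t9uniq_mono hf h0 (by linarith [ht.1]) (by linarith) (by linarith [ht.2])
      have h3 := intervalIntegral.integral_add_adjacent_intervals
        (hf.intervalIntegrable (μ := volume) a (a + j * l))
        (hf.intervalIntegrable (a + j * l) (a + ((j + 1 : ℕ) : ℝ) * l))
      have h4 := hE t htE
      rw [← h3]
      push_cast at h2 ⊢
      linarith
  have h1 := key _ le_rfl
  have h2 : ∫ s in a..a + ((k ^ 2 * m : ℕ) : ℝ) * l, f s ≤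
      ∫ s in a..a + k ^ 2 * (2 * W + 1) * m ^ 2, f s :=
    t9uniq_mono hf h0 le_rfl (le_add_of_nonneg_right (by positivity)) (by linarith)
  have e2 : √((k : ℝ) ^ 2 * (2 * W + 1) * m ^ 2) = k * m * √(2 * W + 1) := by
    rw [show (k : ℝ) ^ 2 * (2 * W + 1) * m ^ 2 = (k * m) ^ 2 * (2 * W + 1) by ring,
      Real.sqrt_mul (by positivity), Real.sqrt_sq (by positivity)]
  rw [e2] at hI
  have hs := Real.sqrt_nonneg (2 * W + 1)
  have hkm : (1 : ℝ) ≤ k * m := by nlinarith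
  have h3 : C * (1 + k * m * √(2 * W + 1)) ≤ k * m * (|C| * (1 + √(2 * W + 1))) := by
    calc C * (1 + k * m * √(2 * W + 1)) ≤ |C| * (1 + k * m * √(2 * W + 1)) :=
          mul_le_mul_of_nonneg_right (le_abs_self C) (by positivity)
      _ ≤ |C| * (k * m + k * m * √(2 * W + 1)) :=
          mul_le_mul_of_nonneg_left (by linarith) (abs_nonneg C)
      _ = _ := by ring
  have h4 : k * m * (|C| * (1 + √(2 * W + 1))) < k * m * (k * c₀) :=
    mul_lt_mul_of_pos_left hk2 (by linarith)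
  push_cast at h1 h2
  nlinarith

/-- If the integral of `f ≥ 0` grows like a square root and each excursion costs `c₀`, there are
long intervals without excursion. -/
lemma good_interval {C c₀ W : ℝ} (hc₀ : 0 < c₀) (hW : 0 < W) : ∃ A : ℝ, 0 < A ∧
    ∀ (f : ℝ → ℝ) (E : Set ℝ), Continuous f → (∀ t, 0 ≤ f t) →
      (∀ t ∈ E, c₀ ≤ ∫ s in t..t + 1, f s) → ∀ m : ℕ, 1 ≤ m → ∀ a : ℝ,
      (∫ s in a..a + A * m ^ 2, f s) ≤ C * (1 + √(A * m ^ 2)) →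
      ∃ t₀ ∈ Set.Icc a (a + A * m ^ 2), ∀ t, |t - t₀| ≤ m * W → t ∉ E := by
  obtain ⟨A, h1, h2⟩ := t9uniq_good (C := C) hc₀ hW
  exact ⟨A, by linarith, h2⟩

lemma t9uniq_cost {f : ℝ → ℝ} (hf : Continuous f) (h0 : ∀ t, 0 ≤ f t) {t c₀ : ℝ} (h1 : 0 ≤ c₀)
    (h2 : c₀ ≤ 1) (h3 : ∀ s ∈ Set.Icc t (t + c₀), 1 ≤ f s) : c₀ ≤ ∫ s in t..t + 1, f s := by
  have h4 : ∫ _ in t..t + c₀, (1 : ℝ) ≤ ∫ s in t..t + c₀, f s :=
    intervalIntegral.integral_mono_on (by linarith) intervalIntegrable_const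
      (hf.intervalIntegrable _ _) h3
  have h5 := t9uniq_mono hf h0 (le_refl t) (by linarith : t ≤ t + c₀)
    (by linarith : t + c₀ ≤ t + 1)
  simp only [intervalIntegral.integral_const, add_sub_cancel_left, smul_eq_mul, mul_one] at h4
  linarith

lemma t9uniq_small {a : ℝ} (ha : 0 < a) : ∀ᶠ m : ℕ in atTop, (m : ℝ) / 2 ^ m < a := by
  have h := tendsto_pow_const_div_const_pow_of_one_lt 1 (one_lt_two (α := ℝ))
  simp only [pow_one] at h
  exact h.eventually (gt_mem_nhds ha)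

theorem TDall.gs (F : Deck Γ) (hL : Tonelli Γ L) (hc : c ∈ Coh Γ) (h : TDall L c) (hu : Eqv c u)
    (hd : Dom L (crit L c) u) (hx : Cal L (crit L c) u x) (hp : Per x γ T) (hH : Hyp L x) :
    Gs L c := by
  have _ := hd
  refine ⟨x, γ, T, hp, hH, fun u' hu' hd' => ?_⟩
  have hx' : Cal L (crit L c) u' x := Cal.per hu hx hp hu' hd'
  refine ⟨hx', fun y hy => ?_⟩
  have U := hL.unif1 F
  by_cases hy0 : y 0 ∈ Orb Γ x
  · obtain ⟨δ, s, e⟩ := hy0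
    refine ⟨δ, s, fun t => ?_⟩
    have := Cal.unique U (Set.mem_singleton L) hd' hy (hx'.smul_eqv F hL hu' δ) e t
    rwa [zero_add, add_comm s t] at this
  exfalso
  have hZ := hp.isClosed_orb F hx'.continuous
  have hne : (Orb Γ x).Nonempty := ⟨_, mem_orb x 1 0⟩
  have hD : 0 < Metric.infDist (y 0) (Orb Γ x) := (hZ.notMem_iff_infDist_pos hne).1 hy0
  obtain ⟨Φ, V, A, hcal, hfl⟩ := exists_flow F hL hu' hd'
  obtain ⟨W, δ₁, hW, hδ₁, hhalf⟩ := halving_iter F hL hu' hd' hx' hp hH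
  set δ := min δ₁ (Metric.infDist (y 0) (Orb Γ x) / 2) with hδdef
  have hδ : 0 < δ := lt_min hδ₁ (half_pos hD)
  obtain ⟨S, hS0, hS1⟩ := exists_bumps F hZ (fun g z hz => (smul_mem_orb g).2 hz) hne (half_pos hδ)
  obtain ⟨hφ, ρ, hρ⟩ := h.bumps F hL hc S
  set φ : ℂ → ℝ := fun z => ∑ i ∈ S, fam Γ i.1 0 z with hφdef
  have φ0 : ∀ (g : Γ) (t : ℝ), φ (g • x t : ℍ) = 0 := fun g t => hS0 _ (mem_orb x g t)
  have hρ0 : ρ = 0 := by
    refine hρ.zero_of_per F hL hc hφ hu' hx' hp ?_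
    have : ∀ t, φ (x t) = 0 := fun t => by simpa using φ0 1 t
    simp [this]
  subst hρ0
  have hK : TDK (CS L (crit L c) u') Φ (0 : Γ → ℝ) φ 0 :=
    tdk_of_tda F hL hc (Submodule.zero_mem _) hφ hu' hd' (fun z hz => ⟨A.zero z hz, hcal z hz⟩) hρ
  obtain ⟨C₁, hC₁, hlip⟩ := U.calLip |crit L c|
  have hlip' := hlip L (Set.mem_singleton L) _ le_rfl u' hd' y hy
  obtain ⟨C₃, hC₃, hseg⟩ := hK.seg0 F A one_pos
  obtain ⟨C₂, δ₂, hC₂, hδ₂, hloop⟩ := hK.loop2 F A one_pos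
  set f : ℝ → ℝ := fun t => φ (y t) with hfdef
  have hf : Continuous f :=
    hφ.1.continuousOn.comp_continuous (continuous_coe.comp hy.continuous) fun t => (y t).im_pos
  have hf0 : ∀ t, 0 ≤ f t := fun t => Finset.sum_nonneg fun i _ => fam_nonneg _ _
  set c₀ : ℝ := min 1 (δ / (2 * C₁ + 1)) with hc₀def
  have hc₀ : 0 < c₀ := lt_min one_pos (by positivity)
  have hc₁ : C₁ * c₀ ≤ δ / 2 := by
    have h1 : c₀ * (2 * C₁ + 1) ≤ δ := (le_div_iff₀ (by positivity)).1 (min_le_right _ _)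
    nlinarith
  set E : Set ℝ := {t | δ < Metric.infDist (y t) (Orb Γ x)} with hEdef
  have hE : ∀ t ∈ E, c₀ ≤ ∫ s in t..t + 1, f s := by
    intro t ht
    refine t9uniq_cost hf hf0 hc₀.le (min_le_left _ _) fun s hs => hS1 _ ?_
    have h1 := Metric.infDist_le_infDist_add_dist (x := y t) (y := y s) (s := Orb Γ x)
    have h2 := hlip' t s
    have h3 : |t - s| ≤ c₀ := abs_le.2 ⟨by linarith [hs.2], by linarith [hs.1]⟩
    have h4 := mul_le_mul_of_nonneg_left h3 hC₁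
    have h5 : δ < Metric.infDist (y t) (Orb Γ x) := ht
    linarith
  have hE0 : (0 : ℝ) ∈ E := (min_le_right _ _).trans_lt (half_lt_self hD)
  have hint : ∀ a b : ℝ, ∫ t in (0 : ℝ)..b, φ (Φ t (y a)) = ∫ s in a..a + b, f s := by
    intro a b
    have e := intervalIntegral.integral_comp_add_left (a := 0) (b := b) f a
    rw [add_zero] at e
    rw [← e]
    simp only [(hfl y hy a).2.2, hfdef]
  obtain ⟨B, hB, hgood⟩ := t9uniq_good (C := C₃) hc₀ hW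
  have hT := hp.1
  set Q : ℝ := 1 + √(2 * B + 3 + T) with hQ
  have hQ0 : 0 < Q := by positivity
  obtain ⟨m, hm1, hm2, hm3⟩ := ((eventually_ge_atTop 1).and
    ((t9uniq_small (div_pos hδ₂ hδ)).and
      (t9uniq_small (div_pos hc₀ (by positivity : 0 < (C₂ + 1) * δ * Q))))).exists
  have hm : (1 : ℝ) ≤ m := by exact_mod_cast hm1
  have hBm : 1 ≤ B * (m : ℝ) ^ 2 := by nlinarith
  have hnear : ∀ a : ℝ, ∃ t₀ ∈ Set.Icc a (a + B * m ^ 2), ∃ (g : Γ) (s : ℝ),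
      dist (y t₀) (g • x s) ≤ δ / 2 ^ m := by
    intro a
    have h1 := hseg (y a) (hfl y hy a).1 _ hBm
    rw [zero_mul, add_zero, hint] at h1
    obtain ⟨t₀, ht₀, h2⟩ := hgood f E hf hf0 hE m hm1 a ((le_abs_self _).trans h1)
    have h3 := hhalf y hy δ (min_le_left _ _) m t₀ fun t ht => not_lt.1 (h2 t ht)
    obtain ⟨w, ⟨g, s, rfl⟩, hw⟩ := hZ.exists_infDist_eq_dist hne (y t₀)
    exact ⟨t₀, ht₀, g, s, hw ▸ h3⟩
  obtain ⟨t₁, ht₁, g₁, s₁, hd₁⟩ := hnear 1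
  obtain ⟨t₂, ht₂, g₂, s₂, hd₂⟩ := hnear (-1 - B * m ^ 2)
  set j : ℤ := ⌈(1 - (s₂ - s₁)) / T⌉ with hj
  have hj1 : 1 - (s₂ - s₁) ≤ j * T := (div_le_iff₀ hT).1 (Int.le_ceil _)
  have hj2 : j * T < 1 - (s₂ - s₁) + T := by
    have := Int.ceil_lt_add_one ((1 - (s₂ - s₁)) / T)
    rw [← hj, div_add_one hT.ne', lt_div_iff₀ hT] at this
    exact this
  have hw := hfl _ (hx'.smul_eqv F hL hu' g₁) s₁
  have h2m : (0 : ℝ) < 2 ^ m := by positivity
  have hd2 : δ / 2 ^ m ≤ δ * (m / 2 ^ m) := by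
    rw [← mul_div_assoc]
    exact div_le_div_of_nonneg_right (le_mul_of_one_le_right hδ.le hm) h2m.le
  have key := hloop (y t₂) (hfl y hy t₂).1 (g₁ • x s₁) hw.1 (g₁ * γ ^ j * g₂⁻¹) (t₁ - t₂)
    (s₂ - s₁ + j * T) (δ / 2 ^ m) (by linarith [ht₁.1, ht₂.2]) (by linarith)
    (by
      have := (lt_div_iff₀ hδ).1 hm2
      linarith)
    (by rwa [(hfl y hy t₂).2.2, add_sub_cancel])
    (by
      rw [hw.2.2, show s₁ + (s₂ - s₁ + j * T) = s₂ + j * T by ring, hp.zpow,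
        show g₁ • γ ^ j • x s₂ = (g₁ * γ ^ j * g₂⁻¹) • g₂ • x s₂ by
          simp only [mul_smul, inv_smul_smul], F.iso, dist_comm]
      exact hd₂)
  have e0 : ∫ t in (0 : ℝ)..s₂ - s₁ + j * T, φ (Φ t (g₁ • x s₁)) = 0 := by
    simp only [hw.2.2, φ0, intervalIntegral.integral_zero]
  rw [e0, add_zero, hint, add_sub_cancel] at key
  have h1 : c₀ ≤ ∫ s in t₂..t₁, f s :=
    (hE 0 hE0).trans (t9uniq_mono hf hf0 (by linarith [ht₂.2]) (by linarith)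
      (by linarith [ht₁.1]))
  have h2 : √(t₁ - t₂ + (s₂ - s₁ + j * T)) ≤ m * √(2 * B + 3 + T) := by
    rw [← Real.sqrt_sq (by linarith : (0 : ℝ) ≤ m), ← Real.sqrt_mul (by positivity)]
    refine Real.sqrt_le_sqrt ?_
    have h3 : (1 : ℝ) ≤ (m : ℝ) ^ 2 := by nlinarith
    have h4 : 3 + T ≤ (m : ℝ) ^ 2 * (3 + T) := le_mul_of_one_le_left (by linarith) h3
    linarith [ht₁.2, ht₂.1]
  have h3 : 1 + √(t₁ - t₂ + (s₂ - s₁ + j * T)) ≤ m * Q := by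
    rw [hQ]
    linarith
  have h4 : C₂ * (δ / 2 ^ m) * (1 + √(t₁ - t₂ + (s₂ - s₁ + j * T))) ≤
      (C₂ + 1) * (δ / 2 ^ m) * (m * Q) := by
    gcongr
    linarith
  have h5 := (lt_div_iff₀ (by positivity : 0 < (C₂ + 1) * δ * Q)).1 hm3
  have h6 : (C₂ + 1) * (δ / 2 ^ m) * (m * Q) = (m : ℝ) / 2 ^ m * ((C₂ + 1) * δ * Q) := by ring
  linarith [le_abs_self (∫ s in t₂..t₁, f s)]

end Pool.Agent.Lib.MP_5bb885_an.Gen
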