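import Pool.Agent.Lib.MP_5bb885_an.T9NP
import Pool.Agent.Lib.MP_5bb885_an.T9Per
import Pool.Agent.Lib.MP_5bb885_an.T9Uniq
import Pool.Agent.Lib.MP_5bb885_an.T9Open
import Pool.Agent.Lib.MP_5bb885_an.T9Good
import Pool.Agent.Lib.MP_5bb885_an.T9TD
import Pool.Agent.Lib.MP_5bb885_an.T9DegN

/-!
Assembly.
-/

namespace Pool.Agent.Lib.MP_5bb885_an.Gen

open UpperHalfPlane MeasureTheory Filter Topology

variable {Γ : Type} [Group Γ] [MulAction Γ ℍ] {L : ℂ × ℂ → ℝ} {c : Γ → ℝ} {b : ℕ}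

theorem TDall.gs_or (F : Deck Γ) (ho : ∀ γ : Γ, Ori γ) (hL : Tonelli Γ L) (hc : c ∈ Coh Γ)
    (h : TDall L c) : Gs L c ∨ DegEq L := by
  obtain ⟨u, hu, hd⟩ := exists_dom F hL hc
  obtain ⟨x, hx⟩ := exists_cal F hL hc hu hd
  obtain ⟨Φ, V, A, hΦ, hx'⟩ := exists_flow F hL hu hd
  have hK : (CS L (crit L c) u).Nonempty := ⟨x 0, x, hx, rfl⟩
  have hK0 : ∀ z ∈ CS L (crit L c) u, Φ 0 z = z ∧ Cal L (crit L c) u fun t => Φ t z :=
    fun z hz => ⟨A.zero z hz, hΦ z hz⟩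
  rcases A.trichotomy F hK with ⟨z, hz, γ, T, hT, hzT⟩ | ⟨K', hK', A'⟩
  · have hy : Cal L (crit L c) u fun t => Φ t z := hΦ z hz
    have hp : Per (fun t => Φ t z) γ T := by
      refine ⟨hT, fun t => ?_⟩
      show Φ (t + T) z = γ • Φ t z
      rw [A.add t T z hz, hzT, A.comm t γ z hz]
    rcases hy.vel_cases F hL hd with hv | ⟨_, h0⟩
    · obtain ⟨γ', T', hm⟩ := hy.minPer F hL hu hd hp hv
      exact Or.inl (h.gs F hL hc hu hd hy hp (h.hyp F hL hc hu hd hy hm (ho γ') hv))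
    · have e : (fun t => Φ t z) = fun _ => Φ 0 z := funext h0
      rw [e] at hy hp
      rcases hy.hyp_or_deg F hL hd with hH | hD
      · exact Or.inl (h.gs F hL hc hu hd hy hp hH)
      · exact Or.inr hD
  · exfalso
    refine A'.false F ho (fun ψ hψ => ?_) (fun q hq j => ?_)
    · obtain ⟨ρ, hρ⟩ := h.1 ψ hψ
      exact ⟨ρ, (tdk_of_tda F hL hc hψ c2_zero hu hd hK0 hρ).mono hK'⟩
    · obtain ⟨ρ, hρ⟩ := h.2 q hq j
      exact ⟨ρ, (tdk_of_tda F hL hc (Coh Γ).zero_mem (hq.pot F j).c2 hu hd hK0 hρ).mono hK'⟩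

theorem dense_good (F : Deck Γ) (ho : ∀ γ : Γ, Ori γ) (hL : Tonelli Γ L)
    (e : (Fin b → ℝ) ≃ₗ[ℝ] Coh Γ) {f : ℂ → ℝ} (hf : Pot Γ f) (k : ℕ) {δ : ℝ} (hδ : 0 < δ) :
    ∃ g, Pot Γ g ∧ Near k δ f g ∧ ∀ᵐ t, Gs (addP L g) (e t : Γ → ℝ) := by
  obtain ⟨ε, P, hP, hN⟩ := exists_pert F k hδ
  have hL' : Tonelli Γ (addP L f) := hL.add F hf.c2
  have : IsProbabilityMeasure law := by
    unfold law
    infer_instance
  obtain ⟨a, h1, h2⟩ := ((hP.ae_tdall F hL' e).and (hP.ae_nondeg F hL')).exists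
  refine ⟨f + P a, hf.add (hP.pot a), hN a f, ?_⟩
  rw [addP_addP] at h1 h2
  filter_upwards [h1] with t ht
  exact (ht.gs_or F ho (hL.add F (hf.add (hP.pot a)).c2) (e t).2).resolve_right h2

lemma isOpen_gs (F : Deck Γ) (hL : Tonelli Γ L) (e : (Fin b → ℝ) ≃ₗ[ℝ] Coh Γ) :
    IsOpen {t | Gs L (e t : Γ → ℝ)} := by
  rw [← isClosed_compl_iff]
  refine IsSeqClosed.isClosed fun ts t hts hl hG => ?_
  obtain ⟨n, hn⟩ := ((LSeq.const F hL atTop).gs F (e t).2 (fun n => (e (ts n)).2)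
    (clim_of_tendsto F e hl) hG).exists
  exact hts n hn

theorem residual_good (F : Deck Γ) (hL : Tonelli Γ L) (e : (Fin b → ℝ) ≃ₗ[ℝ] Coh Γ)
    (h : ∀ f, Pot Γ f → ∀ (k : ℕ) (δ : ℝ), 0 < δ →
      ∃ g, Pot Γ g ∧ Near k δ f g ∧ ∀ᵐ t, Gs (addP L g) (e t : Γ → ℝ)) :
    ∃ O : ℕ → Set (ℂ → ℝ), (∀ n, OpenDense Γ (O n)) ∧ ∀ f, Pot Γ f → (∀ n, f ∈ O n) →
      ∀ᵐ t, Gs (addP L f) (e t : Γ → ℝ) := by
  have hpos : ∀ n : ℕ, (0 : ENNReal) < ((n : ENNReal) + 1)⁻¹ := fun n =>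
    ENNReal.inv_pos.2 (by simp)
  refine ⟨fun n => {f | Pot Γ f → volume (Metric.closedBall (0 : Fin b → ℝ) n ∩
    {t | Gs (addP L f) (e t : Γ → ℝ)}ᶜ) < ((n : ENNReal) + 1)⁻¹}, fun n => ⟨?_, ?_⟩, ?_⟩
  · intro f hfO hf
    by_contra hcon
    push Not at hcon
    choose g hg hN hO using fun k : ℕ => hcon k (1 / ((k : ℝ) + 1)) (by positivity)
    have hL' : Tonelli Γ (addP L f) := hL.add F hf.c2
    have hs := lseq_of_toZero F hL' (fun k => ((hg k).sub hf).c2) (toZero_of_near hN)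
    have hs' : LSeq Γ atTop (addP L f) fun k => addP L (g k) := by
      convert hs using 2 with k
      rw [addP_addP, add_sub_cancel]
    set A : ℕ → Set (Fin b → ℝ) := fun k => Metric.closedBall (0 : Fin b → ℝ) n ∩
      {t | Gs (addP L (g k)) (e t : Γ → ℝ)}ᶜ with hA
    have hAm : ∀ k, MeasurableSet (A k) := fun k =>
      Metric.isClosed_closedBall.measurableSet.inter
        (isOpen_gs F (hL.add F (hg k).c2) e).measurableSet.compl
    have hAr : ∀ k, ((n : ENNReal) + 1)⁻¹ ≤ volume (A k) := fun k => by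
      by_contra hlt
      exact hO k fun _ => not_le.1 hlt
    set B : ℕ → Set (Fin b → ℝ) := fun m => ⋃ k, ⋃ _ : m ≤ k, A k with hB
    have hBm : ∀ m, MeasurableSet (B m) := fun m =>
      MeasurableSet.iUnion fun k => MeasurableSet.iUnion fun _ => hAm k
    have hanti : Antitone B := fun m m' hm t ht => by
      simp only [hB, Set.mem_iUnion] at ht ⊢
      obtain ⟨k, hk, ht⟩ := ht
      exact ⟨k, hm.trans hk, ht⟩
    have hsub : ∀ m, B m ⊆ Metric.closedBall (0 : Fin b → ℝ) n := fun m t ht => by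
      simp only [hB, Set.mem_iUnion] at ht
      obtain ⟨k, _, ht⟩ := ht
      exact ht.1
    have hfin : volume (B 0) ≠ ⊤ :=
      ((measure_mono (hsub 0)).trans_lt (isCompact_closedBall _ _).measure_lt_top).ne
    have hlim := tendsto_measure_iInter_atTop (μ := volume) (fun m => (hBm m).nullMeasurableSet)
      hanti ⟨0, hfin⟩
    have hge : ((n : ENNReal) + 1)⁻¹ ≤ volume (⋂ m, B m) := by
      refine ge_of_tendsto' hlim fun m => (hAr m).trans (measure_mono fun t ht => ?_)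
      simp only [hB, Set.mem_iUnion]
      exact ⟨m, le_rfl, ht⟩
    have hin : (⋂ m, B m) ⊆ Metric.closedBall (0 : Fin b → ℝ) n ∩
        {t | Gs (addP L f) (e t : Γ → ℝ)}ᶜ := fun t ht => by
      rw [Set.mem_iInter] at ht
      refine ⟨hsub 0 (ht 0), fun hG => ?_⟩
      obtain ⟨m, hm⟩ := eventually_atTop.1
        (hs'.gs F (e t).2 (fun _ => (e t).2) (CLim.const _ _) hG)
      have h1 := ht m
      simp only [hB, Set.mem_iUnion] at h1
      obtain ⟨k, hk, h1⟩ := h1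
      exact h1.2 (hm k hk)
    exact absurd (hfO hf) (not_lt.2 (hge.trans (measure_mono hin)))
  · intro f hf k δ hδ
    obtain ⟨g, hg, hN, hae⟩ := h f hf k δ hδ
    refine ⟨g, fun _ => ?_, hg, hN⟩
    rw [measure_mono_null Set.inter_subset_right hae]
    exact hpos n
  · intro f hf hO
    have h0 : ∀ m : ℕ, volume (Metric.closedBall (0 : Fin b → ℝ) m ∩
        {t | Gs (addP L f) (e t : Γ → ℝ)}ᶜ) = 0 := fun m => by
      refine le_antisymm ?_ zero_le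
      have hl : Tendsto (fun n : ℕ => ((n : ENNReal) + 1)⁻¹) atTop (𝓝 0) := by
        refine (ENNReal.tendsto_inv_nat_nhds_zero.comp (tendsto_add_atTop_nat 1)).congr fun n => ?_
        simp
      refine ge_of_tendsto hl (eventually_atTop.2 ⟨m, fun n hn => ?_⟩)
      refine le_trans (measure_mono ?_) (hO n hf).le
      exact Set.inter_subset_inter_left _
        (Metric.closedBall_subset_closedBall (by exact_mod_cast hn))
    refine measure_mono_null (fun t ht => ?_) (measure_iUnion_null h0)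
    obtain ⟨m, hm⟩ := exists_nat_ge (dist t 0)
    exact Set.mem_iUnion.2 ⟨m, hm, ht⟩

theorem main (F : Deck Γ) (ho : ∀ γ : Γ, Ori γ) (hL : Tonelli Γ L) :
    ∃ b : ℕ, Nonempty ((Fin b → ℝ) ≃ₗ[ℝ] Coh Γ) ∧ ∃ O : ℕ → Set (ℂ → ℝ),
      (∀ n, OpenDense Γ (O n)) ∧ ∀ f, Pot Γ f → (∀ n, f ∈ O n) →
        ∀ e : (Fin b → ℝ) ≃ₗ[ℝ] Coh Γ, ∀ᵐ t, Good Γ (addP L f) (e t : Γ → ℝ) := by
  obtain ⟨b, ⟨e₀⟩⟩ := F.dim
  obtain ⟨O, hO, hG⟩ := residual_good F hL e₀ fun f hf k δ hδ => dense_good F ho hL e₀ hf k hδ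
  refine ⟨b, ⟨e₀⟩, O, hO, fun f hf hfO e => ?_⟩
  have h1 := ae_transfer e₀ e (P := fun c : Coh Γ => Gs (addP L f) (c : Γ → ℝ)) (hG f hf hfO)
  filter_upwards [h1] with t ht
  exact ht.good F (hL.add F hf.c2) (e t).2

end Pool.Agent.Lib.MP_5bb885_an.Gen
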