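import Pool.Agent.Lib.MP_5bb885_an.T9Base

/-!
Calculus of deck transformations.
-/

namespace Pool.Agent.Lib.MP_5bb885_an.Gen

open UpperHalfPlane MeasureTheory Filter Topology

open scoped ContDiff

variable {Γ : Type} [Group Γ] [MulAction Γ ℍ]

/-- A deck transformation is a Möbius map followed by the identity or the conjugation. -/
structure MobD (γ : Γ) (σ : ℂ →L[ℝ] ℂ) (M m₁ m₂ m₃ : ℂ → ℂ) : Prop where
  sgn : (Ori γ ∧ ∀ w, σ w = w) ∨ (¬Ori γ ∧ ∀ w, σ w = starRingEnd ℂ w)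
  val : ∀ z : ℍ, ((γ • z : ℍ) : ℂ) = σ (M z)
  d1 : ∀ z : ℍ, HasDerivAt M (m₁ z) z
  d2 : ∀ z : ℍ, HasDerivAt m₁ (m₂ z) z
  d3 : ∀ z : ℍ, HasDerivAt m₂ (m₃ z) z
  ne : ∀ z : ℍ, m₁ z ≠ 0
  dk_eq : ∀ (z : ℍ) (v : ℂ), dk γ z v = σ (m₁ z * v)
  nrm : ∀ z : ℍ, ‖m₁ z‖ * z.im = (γ • z).im
  snd : ∀ z : ℍ, ‖m₂ z‖ * z.im ≤ 2 * ‖m₁ z‖
  tay : ∀ z w : ℍ, ‖M w - M z - m₁ z * (w - z)‖ * w.im ≤ ‖m₁ z‖ * ‖(w : ℂ) - z‖ ^ 2
  crs : ∃ (j : ℍ → ℂ) (e : ℂ), Continuous j ∧ (∀ z, j z ≠ 0) ∧ e ≠ 0 ∧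
    ∀ z w : ℍ, M z - M w = e * (z - w) / (j z * j w)

lemma t9mob_fun {γ : Γ} {g : GL (Fin 2) ℝ} (hg : ∀ z : ℍ, γ • z = g • z) :
    (fun w : ℂ => ((γ • ofComplex w : ℍ) : ℂ)) = fun w : ℂ => ((g • ofComplex w : ℍ) : ℂ) :=
  funext fun w => by rw [hg]

lemma t9mob_dk {γ : Γ} {g : GL (Fin 2) ℝ} (hg : ∀ z : ℍ, γ • z = g • z) (z : ℍ) :
    dk γ z = smulFDeriv g z := by
  rw [dk, t9mob_fun hg]
  exact (hasStrictFDerivAt_smul g z).hasFDerivAt.fderiv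

lemma t9mob_der {g : GL (Fin 2) ℝ} (K : ℂ) (n : ℕ) (z : ℍ) :
    HasDerivAt (fun w : ℂ => K / denom g w ^ (n + 1))
      (-(n + 1) * g 1 0 * K / denom g z ^ (n + 1 + 1)) z := by
  have h0 := denom_ne_zero g z
  have hd : HasDerivAt (fun w : ℂ => denom g w) (g 1 0) z := by
    simpa [denom] using ((hasDerivAt_id (z : ℂ)).const_mul (g 1 0 : ℂ)).add_const (g 1 1 : ℂ)
  refine ((hasDerivAt_const (z : ℂ) K).div (hd.pow (n + 1)) (pow_ne_zero _ h0)).congr_deriv ?_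
  simp only [Pi.pow_apply, Nat.add_sub_cancel]
  push_cast
  field_simp
  ring

lemma t9mob_crs (g : GL (Fin 2) ℝ) (z w : ℍ) :
    num g z / denom g z - num g w / denom g w =
      (g.det.val : ℂ) * (z - w) / (denom g z * denom g w) := by
  have h1 := denom_ne_zero g z
  have h2 := denom_ne_zero g w
  rw [div_sub_div _ _ h1 h2]
  congr 1
  simp only [num, denom, Matrix.GeneralLinearGroup.val_det_apply, Matrix.det_fin_two]
  push_cast
  ring

lemma t9mob_im (g : GL (Fin 2) ℝ) (z : ℍ) : ‖(g 1 0 : ℂ)‖ * z.im ≤ ‖denom g z‖ := by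
  have h := Complex.abs_im_le_norm (denom g z)
  have e : (denom g z).im = g 1 0 * z.im := by simp [denom]
  rwa [e, abs_mul, abs_of_pos z.im_pos, ← Real.norm_eq_abs, ← Complex.norm_real] at h

lemma Deck.mobD (F : Deck Γ) (γ : Γ) : ∃ σ M m₁ m₂ m₃, MobD γ σ M m₁ m₂ m₃ := by
  obtain ⟨g, hg⟩ := F.mob γ
  have hD : (g.det.val : ℂ) ≠ 0 := Complex.ofReal_ne_zero.2 g.det.ne_zero
  refine ⟨(σ g : ℂ →L[ℝ] ℂ), fun w => num g w / denom g w,
    fun w => (g.det.val : ℂ) / denom g w ^ (1 + 1),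
    fun w => -((1 : ℕ) + 1) * g 1 0 * (g.det.val : ℂ) / denom g w ^ (1 + 1 + 1),
    fun w => -((1 + 1 : ℕ) + 1) * g 1 0 * (-((1 : ℕ) + 1) * g 1 0 * (g.det.val : ℂ)) /
      denom g w ^ (1 + 1 + 1 + 1), ?_, fun z => ?_, fun z => ?_, fun z => t9mob_der _ 1 z,
    fun z => t9mob_der _ (1 + 1) z, fun z => div_ne_zero hD (pow_ne_zero _ (denom_ne_zero g z)),
    fun z v => ?_, fun z => ?_, fun z => ?_, fun z w => ?_,
    fun z => denom g z, g.det.val, ?_, denom_ne_zero g, hD, t9mob_crs g⟩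
  · rw [t9base_ori hg]
    by_cases h : 0 < g.det.val
    · exact Or.inl ⟨h, fun w => by rw [σ, if_pos h]; rfl⟩
    · exact Or.inr ⟨h, fun w => by rw [σ, if_neg h]; rfl⟩
  · rw [hg, coe_smul]
    rfl
  · have h0 := denom_ne_zero g z
    refine ((((hasDerivAt_id (z : ℂ)).const_mul (g 0 0 : ℂ)).add_const (g 0 1 : ℂ)).div
      (((hasDerivAt_id (z : ℂ)).const_mul (g 1 0 : ℂ)).add_const (g 1 1 : ℂ)) h0).congr_deriv ?_
    simp only [denom, id, Matrix.GeneralLinearGroup.val_det_apply, Matrix.det_fin_two]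
    push_cast
    ring
  · rw [t9mob_dk hg]
    simp [smulFDeriv, mul_comm]
  · rw [hg, im_smul_eq_div_normSq, norm_div, norm_pow, Complex.normSq_eq_norm_sq,
      Complex.norm_real, Real.norm_eq_abs]
    ring
  · have h0 := norm_pos_iff.2 (denom_ne_zero g z)
    have h1 := t9mob_im g z
    have h2 : ‖(-((1 : ℕ) + 1) : ℂ)‖ = 2 := by norm_num
    simp only [norm_div, norm_pow, norm_mul, h2]
    rw [div_mul_eq_mul_div, ← mul_div_assoc, div_le_div_iff₀ (by positivity) (by positivity)]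
    have h3 := mul_le_mul_of_nonneg_left h1
      (show 0 ≤ 2 * ‖(g.det.val : ℂ)‖ * ‖denom g z‖ ^ (1 + 1) by positivity)
    calc _ = 2 * ‖(g.det.val : ℂ)‖ * ‖denom g z‖ ^ (1 + 1) * (‖(g 1 0 : ℂ)‖ * z.im) := by ring
      _ ≤ _ := h3
      _ = _ := by ring
  · have h0 := denom_ne_zero g z
    have h0' := denom_ne_zero g w
    have h1 := t9mob_im g w
    have h4 := norm_pos_iff.2 h0'
    have e : num g w / denom g w - num g z / denom g z -
        (g.det.val : ℂ) / denom g z ^ (1 + 1) * (w - z) =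
          -((g.det.val : ℂ) / denom g z ^ (1 + 1) * (w - z) ^ 2 * (g 1 0 / denom g w)) := by
      rw [t9mob_crs]
      field_simp
      simp only [denom]
      ring
    rw [e, norm_neg, norm_mul, norm_mul, norm_pow, norm_div (g 1 0 : ℂ), mul_assoc]
    refine mul_le_of_le_one_right (by positivity) ?_
    rwa [div_mul_eq_mul_div, div_le_one h4]
  · unfold denom
    fun_prop

lemma Deck.hasFDerivAt (F : Deck Γ) (γ : Γ) (z : ℍ) :
    HasFDerivAt (fun w : ℂ => ((γ • ofComplex w : ℍ) : ℂ)) (dk γ z) z := by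
  obtain ⟨g, hg⟩ := F.mob γ
  rw [t9mob_dk hg, t9mob_fun hg]
  exact (hasStrictFDerivAt_smul g z).hasFDerivAt

lemma Deck.contDiffOn (F : Deck Γ) (γ : Γ) :
    ContDiffOn ℝ ∞ (fun w : ℂ => ((γ • ofComplex w : ℍ) : ℂ)) HP := by
  obtain ⟨g, hg⟩ := F.mob γ
  have h1 : ContDiffOn ℝ ∞ (fun w : ℂ => num g w * (denom g w)⁻¹) HP := by
    refine ContDiffOn.mul ?_ (ContDiffOn.inv ?_ fun w hw => denom_ne_zero_of_im g (ne_of_gt hw))
    · unfold num
      fun_prop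
    · unfold denom
      fun_prop
  refine ((σ g : ℂ →L[ℝ] ℂ).contDiff.comp_contDiffOn h1).congr fun w hw => ?_
  rw [hg, coe_smul, ofComplex_apply_of_im_pos hw, div_eq_mul_inv]
  rfl

lemma Deck.continuous_dk (F : Deck Γ) (γ : Γ) : Continuous fun z : ℍ => dk γ z := by
  exact ((F.contDiffOn γ).continuousOn_fderiv_of_isOpen isOpen_upperHalfPlaneSet
    (by simp)).comp_continuous continuous_coe fun z => z.im_pos

lemma Deck.dk_mul (F : Deck Γ) (γ δ : Γ) (z : ℍ) (v : ℂ) :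
    dk (γ * δ) z v = dk γ (δ • z) (dk δ z v) := by
  have h1 := F.hasFDerivAt γ (δ • z)
  have h2 := F.hasFDerivAt δ z
  have h3 := HasFDerivAt.comp (z : ℂ) (by simpa only [ofComplex_apply] using h1) h2
  have h4 := F.hasFDerivAt (γ * δ) z
  simp only [Function.comp_def, ofComplex_apply, ← mul_smul] at h3
  rw [h4.unique h3]
  rfl

lemma dk_one (z : ℍ) (v : ℂ) : dk (1 : Γ) z v = v := by
  have h : (fun w : ℂ => (((1 : Γ) • ofComplex w : ℍ) : ℂ)) =ᶠ[𝓝 (z : ℂ)] id := by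
    simpa only [one_smul, Function.comp_def] using eventuallyEq_coe_comp_ofComplex z.im_pos
  rw [dk, h.fderiv_eq, fderiv_id]
  rfl

lemma Deck.norm_dk (F : Deck Γ) (γ : Γ) (z : ℍ) (v : ℂ) :
    ‖dk γ z v‖ / (γ • z).im = ‖v‖ / z.im := by
  obtain ⟨σ, M, m₁, m₂, m₃, h⟩ := F.mobD γ
  have h1 : ‖σ (m₁ z * v)‖ = ‖m₁ z‖ * ‖v‖ := by
    rcases h.sgn with ⟨-, a⟩ | ⟨-, a⟩
    · rw [a, norm_mul]
    · rw [a, Complex.norm_conj, norm_mul]
  rw [h.dk_eq, h1, ← h.nrm, mul_div_mul_left _ _ (norm_ne_zero_iff.2 (h.ne z))]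

lemma Deck.dk_div (F : Deck Γ) (γ : Γ) (z : ℍ) (η v : ℂ) :
    (dk γ z η / dk γ z v).im = sg γ * (η / v).im ∧ (dk γ z η / dk γ z v).re = (η / v).re := by
  obtain ⟨σ, M, m₁, m₂, m₃, h⟩ := F.mobD γ
  rw [h.dk_eq, h.dk_eq]
  rcases h.sgn with ⟨b, a⟩ | ⟨b, a⟩
  · rw [a, a, mul_div_mul_left _ _ (h.ne z), sg, if_pos b, one_mul]
    exact ⟨rfl, rfl⟩
  · rw [a, a, ← map_div₀, mul_div_mul_left _ _ (h.ne z), sg, if_neg b, Complex.conj_im,
      Complex.conj_re, neg_one_mul]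
    exact ⟨rfl, rfl⟩

lemma Deck.hasDerivAt_smul (F : Deck Γ) (γ : Γ) {x : ℝ → ℍ} {v : ℂ} {t : ℝ}
    (h : HasDerivAt (fun s => (x s : ℂ)) v t) :
    HasDerivAt (fun s => ((γ • x s : ℍ) : ℂ)) (dk γ (x t) v) t := by
  simpa only [Function.comp_def, ofComplex_apply] using
    (F.hasFDerivAt γ (x t)).comp_hasDerivAt t h

/-- Holds at every time: if `x` is not differentiable at `t`, both sides vanish. -/
lemma Deck.vel_smul (F : Deck Γ) (γ : Γ) (x : ℝ → ℍ) (t : ℝ) :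
    vel (fun s => γ • x s) t = dk γ (x t) (vel x t) := by
  by_cases h : DifferentiableAt ℝ (fun s => (x s : ℂ)) t
  · exact (F.hasDerivAt_smul γ h.hasDerivAt).deriv
  · have h' : ¬DifferentiableAt ℝ (fun s => ((γ • x s : ℍ) : ℂ)) t := fun h' => h (by
      simpa only [inv_smul_smul] using
        (F.hasDerivAt_smul γ⁻¹ (x := fun s => γ • x s) h'.hasDerivAt).differentiableAt)
    rw [vel, vel, deriv_zero_of_not_differentiableAt h, deriv_zero_of_not_differentiableAt h',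
      map_zero]

/-- The chain rule for a function that is locally of the form `φ₀ ∘ γ`. -/
lemma Deck.fderiv_comp (F : Deck Γ) (γ : Γ) {φ φ₀ : ℂ → ℝ} {z : ℍ}
    (h : ∀ᶠ w : ℍ in 𝓝 z, φ w = φ₀ (γ • w : ℍ)) (h₀ : DifferentiableAt ℝ φ₀ (γ • z : ℍ)) (v : ℂ) :
    fderiv ℝ φ z v = fderiv ℝ φ₀ (γ • z : ℍ) (dk γ z v) := by
  have h1 : φ =ᶠ[𝓝 (z : ℂ)] φ₀ ∘ fun w : ℂ => ((γ • ofComplex w : ℍ) : ℂ) := by
    rw [← isOpenEmbedding_coe.map_nhds_eq, eventuallyEq_map]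
    filter_upwards [h] with w hw
    simpa only [Function.comp_apply, ofComplex_apply] using hw
  have h2 := HasFDerivAt.comp (z : ℂ) (by simpa only [ofComplex_apply] using h₀.hasFDerivAt)
    (F.hasFDerivAt γ z)
  rw [h1.fderiv_eq, h2.fderiv]
  rfl

lemma vel_shift (x : ℝ → ℍ) (r t : ℝ) : vel (fun s => x (s + r)) t = vel x (t + r) := by
  exact deriv_comp_add_const (fun s => (x s : ℂ)) r t

lemma jet_shift (x : ℝ → ℍ) (r t : ℝ) : jet (fun s => x (s + r)) t = jet x (t + r) := by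
  rw [jet, jet, vel_shift]

lemma vel_const (z : ℍ) (t : ℝ) : vel (fun _ => z) t = 0 := by
  exact deriv_const t _

lemma jet_mem (x : ℝ → ℍ) (t : ℝ) : jet x t ∈ TH := by
  exact (x t).im_pos

end Pool.Agent.Lib.MP_5bb885_an.Gen
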