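import Pool.Agent.Lib.MP_5bb885_an.T9Ret
import Pool.Agent.Lib.MP_5bb885_an.T9Flow

/-!
The signal of a transversal.
-/

namespace Pool.Agent.Lib.MP_5bb885_an.Gen

open UpperHalfPlane MeasureTheory Filter Topology

variable {Γ : Type} [Group Γ] [MulAction Γ ℍ] {K : Set ℍ} {Φ : ℝ → ℍ → ℍ} {V : ℍ → ℂ} {q : Bx}
  {r τ₁ τ₂ ε₁ : ℝ} {τ : ℍ → ℝ} {g : ℍ → Γ} {R : ℍ → ℍ} {x₀ : ℍ}

lemma t9sig_lb {f : ℝ → ℝ} (hf : Continuous f) {a b c : ℝ} (hab : a ≤ b)
    (h : ∀ t ∈ Set.Icc a b, c ≤ f t) : c * (b - a) ≤ ∫ t in a..b, f t := by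
  have h1 := intervalIntegral.integral_mono_on hab
    ((continuous_const (y := c)).intervalIntegrable (μ := volume) a b)
    (hf.intervalIntegrable a b) h
  rw [intervalIntegral.integral_const, smul_eq_mul, mul_comm] at h1
  exact h1

lemma t9sig_sqrt (B C τ₂ : ℝ) (hC : 0 ≤ C) (hτ : 0 ≤ τ₂) {σ : ℝ} (hσ : 0 < σ) :
    ∀ᶠ N : ℕ in atTop, B + C * √(N * τ₂) ≤ σ * N := by
  set l := σ / (2 * (C * τ₂ + 1)) with hl
  have h0 : 0 < C * τ₂ + 1 := by positivity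
  have l0 : 0 < l := by positivity
  have l1 : l * (C * τ₂ + 1) = σ / 2 := by rw [hl]; field_simp
  filter_upwards [tendsto_natCast_atTop_atTop.eventually_ge_atTop
    ((B + C / (4 * l)) / (σ / 2))] with N hN
  have hN0 : (0 : ℝ) ≤ N := Nat.cast_nonneg N
  have h1 : B + C / (4 * l) ≤ N * (σ / 2) := (div_le_iff₀ (by positivity)).1 hN
  have h2 : √(N * τ₂) ≤ l * (N * τ₂) + 1 / (4 * l) := by
    have e : √(N * τ₂) ^ 2 = N * τ₂ := Real.sq_sqrt (by positivity)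
    have h3 : 0 ≤ (2 * l * √(N * τ₂) - 1) ^ 2 / (4 * l) := by positivity
    have h4 : (2 * l * √(N * τ₂) - 1) ^ 2 / (4 * l) =
        l * √(N * τ₂) ^ 2 - √(N * τ₂) + 1 / (4 * l) := by field_simp; ring
    rw [h4, e] at h3
    linarith
  have h5 := mul_le_mul_of_nonneg_left h2 hC
  have h6 : C * (l * (N * τ₂)) ≤ N * (σ / 2) := by
    rw [← l1]
    nlinarith [mul_nonneg hN0 l0.le]
  have h7 : C * (l * (N * τ₂) + 1 / (4 * l)) = C * (l * (N * τ₂)) + C / (4 * l) := by ring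
  linarith

lemma t9sig_cont_fn (A : Lam Γ K Φ V) {x : ℍ} (hx : x ∈ K) (q : Bx) (j : Fin 4) :
    Continuous fun t => q.fn j (Φ t x) :=
  (q.contDiff_fn j).continuous.comp (continuous_coe.comp (A.continuous hx))

lemma t9sig_cont_fam (F : Deck Γ) (A : Lam Γ K Φ V) (hq : q.Ok) {x : ℍ} (hx : x ∈ K) (j : Fin 4) :
    Continuous fun t => fam Γ q j (Φ t x) :=
  (hq.pot F j).smooth.continuousOn.comp_continuous (continuous_coe.comp (A.continuous hx))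
    fun t => (Φ t x).im_pos

/-- The position along a short orbit segment that starts on the transversal. -/
lemma t9sig_move (A : Lam Γ K Φ V) (S : Sec Γ K Φ V q r) {x : ℍ} (hx : x ∈ K ∩ q.ln) {t : ℝ}
    (ht : |t| ≤ 3 * q.w) : |(co q.p q.d (Φ t x)).re| ≤ 11 / 10 * |t| ∧
      (co q.p q.d (Φ t x)).im ∈ Set.Icc (q.a - q.e) (q.b + q.e) := by
  have hr := S.cht.pos
  have hw := S.ok.w
  have h1 := S.wr
  have h2 := S.we
  have hb := S.inB hx.2
  have hb' : InB q.p q.d r x := ⟨hb.1.trans (by linarith), hb.2.trans (by linarith)⟩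
  have h := S.cht.move A hx.1 hb' (s := 0) (t := t) (by rw [abs_zero]; linarith) (by linarith)
  rw [A.zero x hx.1, sub_zero] at h
  have hre := (Complex.abs_re_le_norm _).trans h
  have him := (Complex.abs_im_le_norm _).trans h
  have e0 : (co q.p q.d x).re = 0 := hx.2.1
  have e1 : (co q.p q.d x).im ∈ Set.Icc q.a q.b := hx.2.2
  simp only [Complex.sub_re, Complex.ofReal_re, e0, sub_zero] at hre
  simp only [Complex.sub_im, Complex.ofReal_im, sub_zero] at him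
  have h3 := abs_le.1 hre
  have h4 := abs_le.1 him
  have h5 := le_abs_self t
  have h6 := neg_abs_le t
  refine ⟨abs_le.2 ⟨by linarith [h3.1], by linarith [h3.2]⟩, ?_, ?_⟩
  · linarith [h4.1, e1.1]
  · linarith [h4.2, e1.2]

lemma t9sig_fn (hq : q.Ok) (κ : ℝ) {z : ℂ}
    (h : (co q.p q.d z).im ∈ Set.Icc (q.a - q.e) (q.b + q.e)) :
    q.fn 2 z - κ * q.fn 0 z = cut (-q.w) q.w q.w (co q.p q.d z).re * ((co q.p q.d z).im - κ) := by
  rw [Bx.fn_eq, Bx.fn_eq, cut_eq_one hq.e h]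
  simp only [Bx.md, Matrix.cons_val_zero, Matrix.cons_val]
  ring

/-- The pointwise form of the signal inequality. -/
lemma t9sig_point (A : Lam Γ K Φ V) (S : Sec Γ K Φ V q r) {C Λ κ : ℝ} (hC : 0 ≤ C) (hΛ : 0 ≤ Λ)
    (hl : ∀ y y', |cut (-q.w) q.w q.w y - cut (-q.w) q.w q.w y'| ≤ Λ / q.w * |y - y'|)
    (h1 : C * r ≤ 1 / 60) (h2 : Λ * C * r ≤ 1 / 60) (hκ : |κ| ≤ r) {x y : ℍ} (hx : x ∈ K ∩ q.ln)
    (hy : y ∈ K ∩ q.ln) (hxy : q.ht x ≤ q.ht y) {t : ℝ} (ht : |t| ≤ 3 * q.w)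
    (hloc : ‖(Φ t y : ℂ) - Φ t x - (y - x)‖ ≤ C * |t| * ‖(y : ℂ) - x‖) :
    cut (-q.w) q.w q.w (co q.p q.d (Φ t y)).re * ((q.ht y - q.ht x) / 2) - (q.ht y - q.ht x) / 16 ≤
      (q.fn 2 (Φ t y) - κ * q.fn 0 (Φ t y)) - (q.fn 2 (Φ t x) - κ * q.fn 0 (Φ t x)) := by
  have hr := S.cht.pos
  have hw := S.ok.w
  have he := S.ok.e
  have hwr := S.wr
  have mx := t9sig_move A S hx ht
  have my := t9sig_move A S hy ht
  rw [t9sig_fn S.ok κ mx.2, t9sig_fn S.ok κ my.2]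
  set δ := q.ht y - q.ht x with hδ
  have δ0 : 0 ≤ δ := sub_nonneg.2 hxy
  have hd : 0 < ‖q.d‖ := norm_pos_iff.2 S.ok.ne
  have e1 : ((y : ℂ) - x) / q.d = δ * Complex.I := by
    rw [← co_sub q.p]
    apply Complex.ext
    · simp [hx.2.1, hy.2.1]
    · simp [hδ, Bx.ht]
  have e2 : ‖(y : ℂ) - x‖ / ‖q.d‖ = δ := by
    rw [← norm_div, e1, norm_mul, Complex.norm_I, mul_one, Complex.norm_real, Real.norm_eq_abs,
      abs_of_nonneg δ0]
  have e3 : ‖co q.p q.d (Φ t y) - co q.p q.d (Φ t x) - δ * Complex.I‖ ≤ C * |t| * δ := by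
    rw [co_sub, ← e1, ← sub_div, norm_div, ← e2, ← mul_div_assoc]
    exact div_le_div_of_nonneg_right hloc hd.le
  have hre := (Complex.abs_re_le_norm _).trans e3
  have him := (Complex.abs_im_le_norm _).trans e3
  simp only [Complex.sub_re, Complex.mul_re, Complex.ofReal_re, Complex.I_re, mul_zero,
    Complex.ofReal_im, Complex.I_im, zero_mul, sub_zero] at hre
  simp only [Complex.sub_im, Complex.mul_im, Complex.ofReal_re, Complex.I_re, mul_zero,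
    Complex.ofReal_im, Complex.I_im, mul_one, add_zero] at him
  set Xx := (co q.p q.d (Φ t x)).re
  set Xy := (co q.p q.d (Φ t y)).re
  set Yx := (co q.p q.d (Φ t x)).im
  set Yy := (co q.p q.d (Φ t y)).im
  have ct : C * |t| * δ ≤ C * (3 * q.w) * δ := by gcongr
  have c1 : C * (3 * q.w) ≤ 1 / 2 := by nlinarith
  have c2 : C * (3 * q.w) * δ ≤ 1 / 2 * δ := by gcongr
  have y1 : δ / 2 ≤ Yy - Yx := by linarith [(abs_le.1 him).1]
  have y2 : |Yx - κ| ≤ 5 / 4 * r := by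
    have := S.lo
    have := S.hi
    have k1 := abs_le.1 hκ
    exact abs_le.2 ⟨by linarith [mx.2.1, k1.2], by linarith [mx.2.2, k1.1]⟩
  have x1 : |cut (-q.w) q.w q.w Xy - cut (-q.w) q.w q.w Xx| ≤ 3 * Λ * C * δ := by
    refine (hl Xy Xx).trans ?_
    calc Λ / q.w * |Xy - Xx| ≤ Λ / q.w * (C * (3 * q.w) * δ) := by
          gcongr
          exact hre.trans ct
      _ = 3 * Λ * C * δ := by field_simp
  have x2 : |(cut (-q.w) q.w q.w Xy - cut (-q.w) q.w q.w Xx) * (Yx - κ)| ≤ δ / 16 := by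
    rw [abs_mul]
    calc _ ≤ 3 * Λ * C * δ * (5 / 4 * r) := by gcongr
      _ = 15 / 4 * (Λ * C * r) * δ := by ring
      _ ≤ 15 / 4 * (1 / 60) * δ := by gcongr
      _ = δ / 16 := by ring
  have x3 := mul_le_mul_of_nonneg_left y1 (cut_nonneg (-q.w) q.w q.w Xy)
  have x4 := (abs_le.1 x2).1
  nlinarith

/-- The signal of a passage increases with the height. -/
theorem Lam.signal (A : Lam Γ K Φ V) (R₀ : ℝ) : ∃ r₁ : ℝ, 0 < r₁ ∧ ∀ (q : Bx) (r : ℝ), r ≤ r₁ →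
    Sec Γ K Φ V q r → (∀ z : ℍ, InB q.p q.d r z → dist z I ≤ R₀) → ∀ κ : ℝ, |κ| ≤ r →
      ∀ x ∈ K ∩ q.ln, ∀ y ∈ K ∩ q.ln, q.ht x ≤ q.ht y →
        q.w / 4 * (q.ht y - q.ht x) ≤ Jp Φ q κ y - Jp Φ q κ x ∧
        q.w / 4 * (q.ht y - q.ht x) ≤ Jm Φ q κ y - Jm Φ q κ x := by
  obtain ⟨C, hC, hloc⟩ := A.loc R₀ 1
  obtain ⟨Λ, hΛ, hcut⟩ := cut_lip
  refine ⟨1 / (60 * ((Λ + 1) * (C + 1))), by positivity, fun q r hr S hR κ hκ x hx y hy hxy => ?_⟩
  have hr0 := S.cht.pos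
  have hw := S.ok.w
  have hwr := S.wr
  have r1 : (Λ + 1) * (C + 1) * r ≤ 1 / 60 := by
    have := (le_div_iff₀ (by positivity)).1 hr
    linarith
  have p1 : 0 ≤ Λ * C * r := by positivity
  have p2 : 0 ≤ Λ * r := by positivity
  have p3 : 0 ≤ C * r := by positivity
  have r2 : C * r ≤ 1 / 60 := by nlinarith
  have r3 : Λ * C * r ≤ 1 / 60 := by nlinarith
  have r4 : r ≤ 1 / 60 := by nlinarith
  have inb : ∀ z ∈ K ∩ q.ln, dist z I ≤ R₀ := fun z hz => by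
    have hb := S.inB hz.2
    exact hR z ⟨hb.1.trans (by linarith), hb.2.trans (by linarith)⟩
  set δ := q.ht y - q.ht x with hδ
  have δ0 : 0 ≤ δ := sub_nonneg.2 hxy
  set f : ℝ → ℝ := fun t => (q.fn 2 (Φ t y) - κ * q.fn 0 (Φ t y)) -
    (q.fn 2 (Φ t x) - κ * q.fn 0 (Φ t x)) with hf
  have cx : Continuous fun t => q.fn 2 (Φ t x) - κ * q.fn 0 (Φ t x) :=
    (t9sig_cont_fn A hx.1 q 2).sub (continuous_const.mul (t9sig_cont_fn A hx.1 q 0))
  have cy : Continuous fun t => q.fn 2 (Φ t y) - κ * q.fn 0 (Φ t y) :=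
    (t9sig_cont_fn A hy.1 q 2).sub (continuous_const.mul (t9sig_cont_fn A hy.1 q 0))
  have cf : Continuous f := cy.sub cx
  have pt : ∀ t, |t| ≤ 3 * q.w →
      cut (-q.w) q.w q.w (co q.p q.d (Φ t y)).re * (δ / 2) - δ / 16 ≤ f t := fun t ht =>
    t9sig_point A S hC hΛ.le (hcut _ _ _ hw).2 r2 r3 hκ hx hy hxy ht
      (hloc y hy.1 x hx.1 (inb y hy) (inb x hx) t (by linarith)).2
  have far : ∀ t, |t| ≤ 3 * q.w → -(δ / 16) ≤ f t := fun t ht => by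
    have h1 := pt t ht
    have h2 := mul_nonneg (cut_nonneg (-q.w) q.w q.w (co q.p q.d (Φ t y)).re)
      (show 0 ≤ δ / 2 by linarith)
    linarith
  have near : ∀ t, |t| ≤ 9 / 10 * q.w → 7 / 16 * δ ≤ f t := fun t ht => by
    have h1 := pt t (by linarith)
    have h2 := (t9sig_move A S hy (t := t) (by linarith)).1
    rw [cut_eq_one hw (abs_le.1 (h2.trans (by linarith)))] at h1
    linarith
  constructor
  · have e : Jp Φ q κ y - Jp Φ q κ x = ∫ t in (0 : ℝ)..3 * q.w, f t :=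
      (intervalIntegral.integral_sub (cy.intervalIntegrable _ _) (cx.intervalIntegrable _ _)).symm
    rw [e, ← intervalIntegral.integral_add_adjacent_intervals (b := 9 / 10 * q.w)
      (cf.intervalIntegrable _ _) (cf.intervalIntegrable _ _)]
    have i1 := t9sig_lb cf (a := 0) (b := 9 / 10 * q.w) (by linarith) fun t ht =>
      near t (abs_le.2 ⟨by linarith [ht.1], ht.2⟩)
    have i2 := t9sig_lb cf (a := 9 / 10 * q.w) (b := 3 * q.w) (by linarith) fun t ht =>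
      far t (abs_le.2 ⟨by linarith [ht.1], ht.2⟩)
    nlinarith [mul_nonneg hw.le δ0]
  · have e : Jm Φ q κ y - Jm Φ q κ x = ∫ t in -(3 * q.w)..0, f t :=
      (intervalIntegral.integral_sub (cy.intervalIntegrable _ _) (cx.intervalIntegrable _ _)).symm
    rw [e, ← intervalIntegral.integral_add_adjacent_intervals (b := -(9 / 10 * q.w))
      (cf.intervalIntegrable _ _) (cf.intervalIntegrable _ _)]
    have i1 := t9sig_lb cf (a := -(9 / 10 * q.w)) (b := 0) (by linarith) fun t ht =>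
      near t (abs_le.2 ⟨ht.1, by linarith [ht.2]⟩)
    have i2 := t9sig_lb cf (a := -(3 * q.w)) (b := -(9 / 10 * q.w)) (by linarith) fun t ht =>
      far t (abs_le.2 ⟨ht.1, by linarith [ht.2]⟩)
    nlinarith [mul_nonneg hw.le δ0]

/-- Each return contributes a definite amount to the integral of the bump. -/
lemma t9sig_mass (A : Lam Γ K Φ V) (S : Sec Γ K Φ V q r) (H : Ret K Φ q τ g R τ₁ τ₂ ε₁) {x : ℍ}
    (hx : x ∈ K ∩ q.ln) : 9 / 10 * q.w ≤ ∫ t in (0 : ℝ)..τ x, fam Γ q 0 (Φ t x) := by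
  have hw := S.ok.w
  have cx := t9sig_cont_fn A hx.1 q 0
  rw [H.split x hx 0, ← intervalIntegral.integral_add_adjacent_intervals (b := 9 / 10 * q.w)
    (cx.intervalIntegrable _ _) (cx.intervalIntegrable _ _)]
  have i1 := t9sig_lb cx (a := 0) (b := 9 / 10 * q.w) (c := 1) (by linarith) fun t ht => by
    have h0 : |t| ≤ 9 / 10 * q.w := abs_le.2 ⟨by linarith [ht.1], ht.2⟩
    have h1 := t9sig_move A S hx (t := t) (by linarith)
    rw [S.ok.fn_core 0 (h1.1.trans (by linarith)) h1.2]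
    simp [Bx.md]
  have i2 : 0 ≤ ∫ t in (9 / 10 * q.w)..3 * q.w, q.fn 0 (Φ t x) :=
    intervalIntegral.integral_nonneg (by linarith) fun t _ => q.fn_nonneg _
  have i3 : 0 ≤ ∫ t in -(3 * q.w)..0, q.fn 0 (Φ t (R x)) :=
    intervalIntegral.integral_nonneg (by linarith) fun t _ => q.fn_nonneg _
  linarith

lemma Ret.kappa (F : Deck Γ) (A : Lam Γ K Φ V) (S : Sec Γ K Φ V q r)
    (H : Ret K Φ q τ g R τ₁ τ₂ ε₁) (h : ∀ j, ∃ ρ, TDK K Φ (0 : Γ → ℝ) (fam Γ q j) ρ) :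
    ∃ κ : ℝ, |κ| ≤ r ∧ TDK K Φ (0 : Γ → ℝ) (fam Γ q 2 + (-κ) • fam Γ q 0) 0 := by
  obtain ⟨ρ₀, h0⟩ := h 0
  obtain ⟨ρ₂, h2⟩ := h 2
  obtain ⟨x, hx⟩ := S.ne
  have hr := S.cht.pos
  have hw := S.ok.w
  have he := S.ok.e
  have c0 : C2 Γ (fam Γ q 0) := (S.ok.pot F 0).c2
  have c2 : C2 Γ (fam Γ q 2) := (S.ok.pot F 2).c2
  have comb : ∀ a b : ℝ, TDK K Φ (0 : Γ → ℝ) (a • fam Γ q 2 + b • fam Γ q 0) (a * ρ₂ + b * ρ₀) := by
    intro a b
    have := TDK.add A (c2.smul a) (c0.smul b) (h2.smul a) (h0.smul b)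
    simpa only [smul_zero, add_zero] using this
  have two : ∀ z : ℍ, |fam Γ q 2 z| ≤ r * fam Γ q 0 z :=
    S.ok.abs_fam_two F (by linarith [S.lo]) (by linarith [S.hi])
  have n1 : 1 * ρ₂ + r * ρ₀ ≤ 0 := (comb 1 r).nonpos F A hx.1 fun t => by
    have := (abs_le.1 (two (Φ t x))).1
    simp only [Pi.add_apply, Pi.smul_apply, smul_eq_mul]
    linarith
  have n2 : -1 * ρ₂ + r * ρ₀ ≤ 0 := (comb (-1) r).nonpos F A hx.1 fun t => by
    have := (abs_le.1 (two (Φ t x))).2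
    simp only [Pi.add_apply, Pi.smul_apply, smul_eq_mul]
    linarith
  have n0 : ρ₀ ≤ 0 := h0.nonpos F A hx.1 fun t => fam_nonneg q _
  have ne : ρ₀ ≠ 0 := by
    rintro rfl
    obtain ⟨C, hC, hseg⟩ := h0.seg0 F A H.lo
    have τ0 : 0 ≤ τ₂ := H.lo.le.trans ((H.bd x hx).1.trans (H.bd x hx).2)
    obtain ⟨N, hN, hN1⟩ := ((t9sig_sqrt C C τ₂ hC τ0 (σ := q.w / 2) (by linarith)).and
      (eventually_ge_atTop 1)).exists
    have N1 : (1 : ℝ) ≤ N := by exact_mod_cast hN1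
    have b := H.tk_bd hx N
    have s1 := hseg x hx.1 (tk τ R x N) (by nlinarith [H.lo, b.1])
    rw [zero_mul, add_zero, H.integral A hx c0] at s1
    have s2 : ∑ _k ∈ Finset.range N, 9 / 10 * q.w ≤
        ∑ k ∈ Finset.range N, ∫ t in (0 : ℝ)..τ (R^[k] x), fam Γ q 0 (Φ t (R^[k] x)) :=
      Finset.sum_le_sum fun k _ => t9sig_mass A S H (H.iter hx k)
    rw [Finset.sum_const, Finset.card_range, nsmul_eq_mul] at s2
    have s3 := mul_le_mul_of_nonneg_left (Real.sqrt_le_sqrt b.2) hC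
    have s4 := (le_abs_self _).trans s1
    nlinarith
  have neg : ρ₀ < 0 := lt_of_le_of_ne n0 ne
  refine ⟨ρ₂ / ρ₀, ?_, ?_⟩
  · rw [abs_div, div_le_iff₀ (abs_pos.2 ne), abs_of_neg neg]
    exact abs_le.2 ⟨by linarith, by linarith⟩
  · have := comb 1 (-(ρ₂ / ρ₀))
    rw [one_smul, one_mul, neg_mul, div_mul_cancel₀ _ ne, add_neg_cancel] at this
    exact this

lemma Ret.split' (F : Deck Γ) (A : Lam Γ K Φ V) (S : Sec Γ K Φ V q r)
    (H : Ret K Φ q τ g R τ₁ τ₂ ε₁) (κ : ℝ) {x : ℍ} (hx : x ∈ K ∩ q.ln) :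
    ∫ t in (0 : ℝ)..τ x, (fam Γ q 2 + (-κ) • fam Γ q 0) (Φ t x) =
      Jp Φ q κ x + Jm Φ q κ (R x) := by
  have hy := H.map x hx
  have a0 := t9sig_cont_fam F A S.ok hx.1 0
  have a2 := t9sig_cont_fam F A S.ok hx.1 2
  have b0 := t9sig_cont_fn A hx.1 q 0
  have b2 := t9sig_cont_fn A hx.1 q 2
  have c0 := t9sig_cont_fn A hy.1 q 0
  have c2 := t9sig_cont_fn A hy.1 q 2
  simp only [Pi.add_apply, Pi.smul_apply, smul_eq_mul]
  rw [intervalIntegral.integral_add (a2.intervalIntegrable _ _)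
      ((a0.intervalIntegrable _ _).const_mul _), intervalIntegral.integral_const_mul,
    H.split x hx 2, H.split x hx 0, Jp, Jm,
    intervalIntegral.integral_sub (b2.intervalIntegrable _ _)
      ((b0.intervalIntegrable _ _).const_mul _),
    intervalIntegral.integral_sub (c2.intervalIntegrable _ _)
      ((c0.intervalIntegrable _ _).const_mul _),
    intervalIntegral.integral_const_mul, intervalIntegral.integral_const_mul]
  ring

open Classical in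
lemma t9sig_count (D : Set ℕ) (N : ℕ) :
    ∑ k ∈ Finset.range N, (if k + 1 ∈ D then (1 : ℝ) else 0) ≤
      ((Finset.range (N + 1)).filter (· ∈ D)).card := by
  rw [Finset.card_filter, Finset.sum_range_succ']
  push_cast
  have : (0 : ℝ) ≤ if 0 ∈ D then 1 else 0 := by split_ifs <;> norm_num
  linarith

/-- The final numerical step. -/
lemma t9sig_num {c C₀ E B C₂ τ₂ η m N S n q : ℝ} (hc : 0 < c) (hE : 0 ≤ E) (hη : 0 < η)
    (hm : 1 ≤ m) (hn : n ≤ 2 * (N + 1) / m ^ 4 + 2)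
    (h1 : -B ≤ E * η ^ 2 * n - η / m ^ 2 * (c * S - C₂ * (1 + q)) + C₀ * (η / m ^ 2) ^ 2 * (N * τ₂))
    (h2 : B * m ^ 2 / η + E * η * m ^ 2 * (2 / m ^ 4 + 2) + C₂ + C₂ * q ≤ η / m ^ 2 * N) :
    S ≤ (2 * E + C₀ * τ₂ + 1) / c * N * η / m ^ 2 := by
  have m0 : 0 < m := by linarith
  have σ0 : 0 < η / m ^ 2 := by positivity
  have h3 : E * η ^ 2 * n ≤ E * η ^ 2 * (2 * (N + 1) / m ^ 4 + 2) := by gcongr
  have h4 : η / m ^ 2 * (c * S) ≤ η / m ^ 2 * ((2 * E + C₀ * τ₂ + 1) * N * η / m ^ 2) := by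
    have h5 := mul_le_mul_of_nonneg_left h2 σ0.le
    have e1 : η / m ^ 2 * (B * m ^ 2 / η + E * η * m ^ 2 * (2 / m ^ 4 + 2) + C₂ + C₂ * q) =
        B + E * η ^ 2 * (2 / m ^ 4 + 2) + η / m ^ 2 * (C₂ * (1 + q)) := by
      field_simp
      ring
    have e2 : η / m ^ 2 * ((2 * E + C₀ * τ₂ + 1) * N * η / m ^ 2) =
        E * η ^ 2 * (2 * N / m ^ 4) + C₀ * (η / m ^ 2) ^ 2 * (N * τ₂) +
          η / m ^ 2 * (η / m ^ 2 * N) := by
      field_simp
    have e3 : E * η ^ 2 * (2 * (N + 1) / m ^ 4 + 2) =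
        E * η ^ 2 * (2 * N / m ^ 4) + E * η ^ 2 * (2 / m ^ 4 + 2) := by ring
    rw [e1] at h5
    rw [e2]
    rw [e3] at h3
    rw [mul_sub] at h1
    linarith
  have h6 := le_of_mul_le_mul_left h4 σ0
  have e4 : (2 * E + C₀ * τ₂ + 1) / c * N * η / m ^ 2 =
      (2 * E + C₀ * τ₂ + 1) * N * η / m ^ 2 / c := by ring
  rw [e4, le_div_iff₀ hc]
  linarith

open Classical in
/-- The averaged inequality for pseudo-orbits that follow the companions on a set of times. -/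
theorem Ret.sig_ineq (F : Deck Γ) (A : Lam Γ K Φ V) (S : Sec Γ K Φ V q r)
    (H : Ret K Φ q τ g R τ₁ τ₂ ε₁) (hx : x₀ ∈ K ∩ q.ln) {κ c : ℝ} (hc : 0 < c)
    (h : TDK K Φ (0 : Γ → ℝ) (fam Γ q 2 + (-κ) • fam Γ q 0) 0)
    (hJ : ∀ x ∈ K ∩ q.ln, ∀ y ∈ K ∩ q.ln, q.ht x ≤ q.ht y →
      c * (q.ht y - q.ht x) ≤ Jp Φ q κ y - Jp Φ q κ x ∧
      c * (q.ht y - q.ht x) ≤ Jm Φ q κ y - Jm Φ q κ x) :
    ∃ C ε₂ : ℝ, 0 < ε₂ ∧ ∀ y : ℕ → ℍ, (∀ k, y k ∈ K ∩ q.ln ∧ q.ht (R^[k] x₀) ≤ q.ht (y k)) →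
      ∀ m : ℕ, 1 ≤ m → ∀ η : ℝ, 0 < η → η ≤ ε₂ → ∀ W : Set ℕ, (∀ k ∈ W, R (y k) = y (k + 1)) →
      (∀ j ∈ symmDiff W ((· + 1) '' W), q.ht (y j) - q.ht (R^[j] x₀) ≤ η) →
      (∀ N, (((Finset.range N).filter (· ∈ symmDiff W ((· + 1) '' W))).card : ℝ) ≤
        2 * N / m ^ 4 + 2) →
      ∀ᶠ N in atTop, ∑ k ∈ (Finset.range N).filter (· ∈ W), (q.ht (y k) - q.ht (R^[k] x₀)) ≤
        C * N * η / m ^ 2 := by
  obtain ⟨C₀, s₀, δ₀, hC₀, hs₀, hδ₀, hT⟩ := h τ₁ H.lo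
  obtain ⟨C₁, hC₁, hd⟩ := S.dist_le
  obtain ⟨C₂, hC₂, hseg⟩ := h.seg0 F A H.lo
  have cφ : C2 Γ (fam Γ q 2 + (-κ) • fam Γ q 0) :=
    (S.ok.pot F 2).c2.add ((S.ok.pot F 0).c2.smul (-κ))
  set φ := fam Γ q 2 + (-κ) • fam Γ q 0 with hφ
  have τ0 : 0 ≤ τ₂ := H.lo.le.trans ((H.bd x₀ hx).1.trans (H.bd x₀ hx).2)
  set E := C₀ * C₁ ^ 2 + C₀ * C₁ with hE
  have E0 : 0 ≤ E := by positivity
  refine ⟨(2 * E + C₀ * τ₂ + 1) / c, min s₀ (δ₀ / C₁), lt_min hs₀ (by positivity),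
    fun y hy m hm η hη hη2 W hW hD hcard => ?_⟩
  have m1 : (1 : ℝ) ≤ m := by exact_mod_cast hm
  have m2 : (1 : ℝ) ≤ (m : ℝ) ^ 2 := one_le_pow₀ m1
  set σ := η / (m : ℝ) ^ 2 with hσ
  have σ0 : 0 < σ := by positivity
  have σ1 : σ ≤ η := div_le_self hη.le m2
  have η1 : C₁ * η ≤ δ₀ := by
    have := (le_div_iff₀ hC₁).1 (hη2.trans (min_le_right _ _))
    linarith
  obtain ⟨h, hinv, hlip, hin⟩ := hT (-σ) (by
    rw [abs_neg, abs_of_pos σ0]; exact σ1.trans (hη2.trans (min_le_left _ _)))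
  have hinv' : ∀ (γ : Γ) (z : ℍ), h (γ • z) = h z := fun γ z => by simpa using hinv γ z
  set D := symmDiff W ((· + 1) '' W) with hDdef
  have xk := H.iter hx
  set z : ℕ → ℍ := fun k => if k ∈ W then y k else R^[k] x₀ with hz
  have zk : ∀ k, z k ∈ K ∩ q.ln := fun k => by
    simp only [hz]
    split_ifs
    · exact (hy k).1
    · exact xk k
  have img : ∀ k, k + 1 ∈ (· + 1) '' W ↔ k ∈ W := fun k =>
    ⟨fun ⟨j, hj, e⟩ => by rwa [← Nat.add_right_cancel e], fun hk => ⟨k, hk, rfl⟩⟩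
  have gap : ∀ j ∈ D, dist (y j) (R^[j] x₀) ≤ C₁ * η := fun j hj => by
    refine (hd _ (hy j).1.2 _ (xk j).2).trans ?_
    rw [abs_of_nonneg (sub_nonneg.2 (hy j).2)]
    exact mul_le_mul_of_nonneg_left (hD j hj) hC₁.le
  have jump : ∀ k, dist (R (z k)) (z (k + 1)) ≤ C₁ * η * if k + 1 ∈ D then 1 else 0 := by
    intro k
    have nn : (0 : ℝ) ≤ C₁ * η * if k + 1 ∈ D then 1 else 0 := by
      split_ifs <;> positivity
    by_cases h1 : k ∈ W <;> by_cases h2 : k + 1 ∈ W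
    · simp only [hz, if_pos h1, if_pos h2, hW k h1, dist_self]
      exact nn
    · have hm : k + 1 ∈ D := Set.mem_symmDiff.2 (Or.inr ⟨(img k).2 h1, h2⟩)
      simp only [hz, if_pos h1, if_neg h2, hW k h1, if_pos hm, mul_one]
      exact gap _ hm
    · have hm : k + 1 ∈ D := Set.mem_symmDiff.2 (Or.inl ⟨h2, fun h3 => h1 ((img k).1 h3)⟩)
      simp only [hz, if_neg h1, if_pos h2, if_pos hm, mul_one]
      rw [← Function.iterate_succ_apply' R, dist_comm]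
      exact gap _ hm
    · simp only [hz, if_neg h1, if_neg h2]
      rw [← Function.iterate_succ_apply' R, dist_self]
      exact nn
  have sig : ∀ k, (∫ t in (0 : ℝ)..τ (R^[k] x₀), φ (Φ t (R^[k] x₀))) +
      c * (if k ∈ W then q.ht (y k) - q.ht (R^[k] x₀) else 0) ≤
        ∫ t in (0 : ℝ)..τ (z k), φ (Φ t (z k)) := by
    intro k
    by_cases h1 : k ∈ W
    · simp only [hz, if_pos h1]
      rw [hφ, H.split' F A S κ (xk k), H.split' F A S κ (hy k).1, hW k h1,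
        ← Function.iterate_succ_apply' R]
      have j1 := (hJ _ (xk k) _ (hy k).1 (hy k).2).1
      have j2 := (hJ _ (xk (k + 1)) _ (hy (k + 1)).1 (hy (k + 1)).2).2
      have j3 := mul_nonneg hc.le (sub_nonneg.2 (hy (k + 1)).2)
      simp only [Nat.succ_eq_add_one]
      linarith
    · simp only [hz, if_neg h1, mul_zero, add_zero, le_refl]
  have step : ∀ k, h (z (k + 1)) - h (z k) ≤ E * η ^ 2 * (if k + 1 ∈ D then 1 else 0) -
      σ * ((∫ t in (0 : ℝ)..τ (R^[k] x₀), φ (Φ t (R^[k] x₀))) +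
        c * (if k ∈ W then q.ht (y k) - q.ht (R^[k] x₀) else 0)) + C₀ * σ ^ 2 * τ₂ := by
    intro k
    have e : dist (Φ (τ (z k)) (z k)) (g (z k) • z (k + 1)) = dist (R (z k)) (z (k + 1)) := by
      rw [H.hit _ (zk k), F.iso]
    have j := jump k
    have j1 : dist (R (z k)) (z (k + 1)) ≤ δ₀ := by
      refine j.trans (le_trans ?_ η1)
      split_ifs
      · rw [mul_one]
      · rw [mul_zero]; positivity
    have i := hin (z k) (zk k).1 (g (z k) • z (k + 1)) (A.smul _ _ (zk (k + 1)).1) (τ (z k))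
      (H.bd _ (zk k)).1 (by rw [e]; exact j1)
    rw [e, hinv', abs_neg, abs_of_pos σ0, mul_zero, zero_add, neg_sq] at i
    have i1 : C₀ * dist (R (z k)) (z (k + 1)) ^ 2 + C₀ * σ * dist (R (z k)) (z (k + 1)) ≤
        E * η ^ 2 * (if k + 1 ∈ D then 1 else 0) := by
      split_ifs at j ⊢
      · rw [mul_one] at j
        calc _ ≤ C₀ * (C₁ * η) ^ 2 + C₀ * η * (C₁ * η) := by gcongr
          _ = _ := by rw [hE]; ring
      · rw [mul_zero] at j
        rw [le_antisymm j dist_nonneg]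
        simp
    have i2 := mul_le_mul_of_nonneg_left (sig k) σ0.le
    have i3 : C₀ * σ ^ 2 * τ (z k) ≤ C₀ * σ ^ 2 * τ₂ := by
      gcongr
      exact (H.bd _ (zk k)).2
    linarith
  filter_upwards [t9sig_sqrt (C₀ * (C₁ * (q.b - q.a)) * (m : ℝ) ^ 2 / η +
    E * η * (m : ℝ) ^ 2 * (2 / (m : ℝ) ^ 4 + 2) + C₂) C₂ τ₂ hC₂ τ0 σ0, eventually_ge_atTop 1]
    with N hN hN1
  have N1 : (1 : ℝ) ≤ N := by exact_mod_cast hN1
  have s1 := Finset.sum_le_sum fun k (_ : k ∈ Finset.range N) => step k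
  rw [Finset.sum_range_sub fun k => h (z k), Finset.sum_add_distrib, Finset.sum_sub_distrib,
    ← Finset.mul_sum, ← Finset.mul_sum, Finset.sum_add_distrib, ← Finset.mul_sum,
    ← H.integral A hx cφ, ← Finset.sum_filter (· ∈ W), Finset.sum_const, Finset.card_range,
    nsmul_eq_mul] at s1
  have b := H.tk_bd hx N
  have s2 := hseg x₀ hx.1 (tk τ R x₀ N) (by nlinarith [H.lo, b.1])
  rw [zero_mul, add_zero] at s2
  have s3 := mul_le_mul_of_nonneg_left (Real.sqrt_le_sqrt b.2) hC₂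
  have s4 : -(C₂ * (1 + √(N * τ₂))) ≤ ∫ t in (0 : ℝ)..tk τ R x₀ N, φ (Φ t x₀) := by
    linarith [(abs_le.1 s2).1]
  have s5 : h (z 0) - h (z N) ≤ C₀ * (C₁ * (q.b - q.a)) := by
    refine (hlip _ _).trans (mul_le_mul_of_nonneg_left ((hd _ (zk 0).2 _ (zk N).2).trans
      (mul_le_mul_of_nonneg_left ?_ hC₁.le)) hC₀)
    have u1 := (zk 0).2.2
    have u2 := (zk N).2.2
    exact abs_le.2 ⟨by linarith [u1.1, u2.2], by linarith [u1.2, u2.1]⟩
  have s6 := (t9sig_count D N).trans (hcard (N + 1))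
  push_cast at s6
  have s7 := mul_le_mul_of_nonneg_left s4 σ0.le
  refine t9sig_num (B := C₀ * (C₁ * (q.b - q.a))) (C₂ := C₂) (q := √(N * τ₂)) hc E0 hη m1 s6 ?_ hN
  rw [← hσ]
  nlinarith

end Pool.Agent.Lib.MP_5bb885_an.Gen
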