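import Pool.Agent.Lib.MP_5bb885_an.T9Theta
import Pool.Agent.Lib.MP_5bb885_an.T9Cmb
import Pool.Agent.Lib.MP_5bb885_an.T9Sig

/-!
Second order bounds exclude minimal sets without closed orbits.
-/

namespace Pool.Agent.Lib.MP_5bb885_an.Gen

open UpperHalfPlane MeasureTheory Filter Topology

variable {Γ : Type} [Group Γ] [MulAction Γ ℍ] {K : Set ℍ} {Φ : ℝ → ℍ → ℍ} {V : ℍ → ℂ} {q : Bx}
  {r τ₁ τ₂ ε₁ : ℝ} {τ : ℍ → ℝ} {g : ℍ → Γ} {R : ℍ → ℍ} {x₀ : ℍ} {θ : ℝ → ℝ} {b : Γ → ℝ}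

lemma t9np_close (hθ : Monotone θ) {s t s' t' δ η : ℝ} (hs : θ s' = θ s + δ) (ht : θ t' = θ t + δ)
    (h1 : s' - s ≤ η) (h2 : t' - t ≤ η) (h : |θ s - θ t| < δ) : |s - t| ≤ η := by
  obtain ⟨h3, h4⟩ := abs_lt.1 h
  have h5 : t < s' := hθ.reflect_lt (by linarith)
  have h6 : s < t' := hθ.reflect_lt (by linarith)
  rw [abs_le]
  constructor <;> linarith

/-- Very close returns after a polynomial time. -/
theorem close_returns (F : Deck Γ) (A : Lam Γ K Φ V) (S : Sec Γ K Φ V q r)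
    (H : Ret K Φ q τ g R τ₁ τ₂ ε₁) (hx : x₀ ∈ K ∩ q.ln) {l : Filter ℕ} [l.NeBot] (hl : l ≤ atTop)
    (hθ : Cdf K q R l x₀ θ) (hb : ∀ x ∈ K ∩ q.ln, θ (q.ht x) - θ (q.ht (R x)) = b (g x))
    {κ c : ℝ} (hc : 0 < c) (h : TDK K Φ (0 : Γ → ℝ) (fam Γ q 2 + (-κ) • fam Γ q 0) 0)
    (hJ : ∀ x ∈ K ∩ q.ln, ∀ y ∈ K ∩ q.ln, q.ht x ≤ q.ht y →
      c * (q.ht y - q.ht x) ≤ Jp Φ q κ y - Jp Φ q κ x ∧
      c * (q.ht y - q.ht x) ≤ Jm Φ q κ y - Jm Φ q κ x) :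
    ∃ C : ℝ, ∀ᶠ m : ℕ in atTop, ∃ i j k : ℕ, i < j ∧ j < k ∧ (k : ℝ) - i ≤ C * m ^ 4 ∧
      |q.ht (R^[i] x₀) - q.ht (R^[j] x₀)| ≤ C / m ^ 8 ∧
      |q.ht (R^[j] x₀) - q.ht (R^[k] x₀)| ≤ C / m ^ 8 := by
  classical
  obtain ⟨C, ε₂, hε₂, hsig⟩ := H.sig_ineq F A S hx hc h hJ
  obtain ⟨M, hM, hpart⟩ := hθ.partner A S H hx hb hε₂
  refine ⟨128 * M + 16 + ε₂, ?_⟩
  filter_upwards [cmb_levels hl C ε₂ hε₂ 8, eventually_ge_atTop 1] with m hlev hm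
  have hm1 : (1 : ℝ) ≤ m := by exact_mod_cast hm
  have hm4 : (1 : ℝ) ≤ (m : ℝ) ^ 4 := one_le_pow₀ hm1
  have hm8 : (0 : ℝ) < (m : ℝ) ^ 8 := by positivity
  obtain ⟨δ, ⟨hδ1, -⟩, y, G, hy, hG, hcard⟩ := hpart (1 / (8 * M * m ^ 4)) (by positivity)
  have hδ0 : 0 < δ := lt_of_lt_of_le (by positivity) hδ1
  have h1 := hlev G (fun k => q.ht (y k) - q.ht (R^[k] x₀)) (fun k => sub_nonneg.2 (hy k).2)
    (fun k hk => (hG k hk).2.1) (by
      filter_upwards [hcard] with N hN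
      refine hN.trans (le_of_eq ?_)
      field_simp)
    (fun η h1 h2 W hW h3 h4 => hsig y hy m hm η h1 h2 W (fun k hk => (hG k (hW hk)).1) h3 h4)
  obtain ⟨i, hi, j, hj, k, hk, hij, hjk, h2, h3, h4⟩ := cmb_three
    (E := {k | k ∈ G ∧ q.ht (y k) - q.ht (R^[k] x₀) ≤ ε₂ / m ^ 8})
    (f := fun k => θ (q.ht (R^[k] x₀))) hδ0 (fun k => hθ.mem S (H.iter hx k)) (by
      refine (h1.frequently.filter_mono hl).mono fun N hN => ?_
      convert hN using 3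
      ext k
      simp)
  have h5 : ε₂ / (m : ℝ) ^ 8 ≤ (128 * M + 16 + ε₂) / m ^ 8 :=
    div_le_div_of_nonneg_right (by linarith) hm8.le
  refine ⟨i, j, k, hij, hjk, ?_, ?_, ?_⟩
  · have h6 : 8 / δ ≤ 128 * M * m ^ 4 := by
      rw [div_le_iff₀ hδ0]
      have h7 := mul_le_mul_of_nonneg_left hδ1 (show (0 : ℝ) ≤ 128 * M * m ^ 4 by positivity)
      refine le_trans (le_of_eq ?_) h7
      field_simp
      norm_num
    nlinarith
  · exact (t9np_close hθ.mono (hG i hi.1).2.2 (hG j hj.1).2.2 hi.2 hj.2 h3).trans h5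
  · exact (t9np_close hθ.mono (hG j hj.1).2.2 (hG k hk.1).2.2 hj.2 hk.2 h4).trans h5

lemma t9np_zero {σ B t₁ : ℝ} (ht : 0 < t₁) {T : ℕ → ℝ} (hT : ∀ N : ℕ, N * t₁ ≤ T N)
    (h : ∀ N : ℕ, 1 ≤ N → |σ| * T N ≤ B * (1 + √(T N))) : σ = 0 := by
  by_contra hne
  have hσ : 0 < |σ| := abs_pos.2 hne
  obtain ⟨N, hN⟩ := exists_nat_gt (((2 * |B| / |σ|) ^ 2 + 1) / t₁ + 1)
  have h0 : 0 ≤ ((2 * |B| / |σ|) ^ 2 + 1) / t₁ := by positivity
  have hN1 : 1 ≤ N := by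
    have : (1 : ℝ) < N := by linarith
    exact_mod_cast this.le
  have h1 : (2 * |B| / |σ|) ^ 2 + 1 < T N := by
    have h2 : ((2 * |B| / |σ|) ^ 2 + 1) / t₁ < N := by linarith
    rw [div_lt_iff₀ ht] at h2
    exact h2.trans_le (hT N)
  have h2 := h N hN1
  have h3 : 0 ≤ (2 * |B| / |σ|) ^ 2 := sq_nonneg _
  have h4 : 1 ≤ √(T N) := Real.one_le_sqrt.2 (by linarith)
  have h5 : 2 * |B| / |σ| < √(T N) := Real.lt_sqrt_of_sq_lt (by linarith)
  have h6 : √(T N) * √(T N) = T N := Real.mul_self_sqrt (by linarith)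
  rw [div_lt_iff₀ hσ] at h5
  have h7 := le_abs_self B
  have h8 := abs_nonneg B
  generalize √(T N) = s at h2 h4 h5 h6
  rw [← h6] at h2
  nlinarith

/-- Very close returns have zero displacement. -/
theorem loop_zero (F : Deck Γ) (A : Lam Γ K Φ V) (S : Sec Γ K Φ V q r)
    (H : Ret K Φ q τ g R τ₁ τ₂ ε₁) (hb : b ∈ Coh Γ)
    (hbd : ∀ x ∈ K ∩ q.ln, ∀ k, |b (Gk g R x k)| ≤ 1)
    (h : ∀ ψ ∈ Coh Γ, ∃ ρ, TDK K Φ ψ 0 ρ) {x : ℕ → ℍ} {k : ℕ → ℕ} {C : ℝ}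
    (hm : ∀ᶠ m : ℕ in atTop, x m ∈ K ∩ q.ln ∧ 0 < k m ∧ (k m : ℝ) ≤ C * m ^ 4 ∧
      |q.ht (x m) - q.ht (R^[k m] (x m))| ≤ C / m ^ 8) :
    ∀ᶠ m : ℕ in atTop, b (Gk g R (x m) (k m)) = 0 := by
  obtain ⟨n, ψ, hψ, hspan⟩ := F.ints
  obtain ⟨a, ha⟩ := hspan b hb
  choose ρ hρ using fun i => h _ (hψ i)
  obtain ⟨D, hD, hdist⟩ := S.dist_le
  have hτ := H.lo
  have hd : ∀ z ∈ K ∩ q.ln, ∀ N, dist (Φ (tk τ R z N) z) (Gk g R z N • z) ≤
      D * |q.ht z - q.ht (R^[N] z)| := by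
    intro z hz N
    rw [H.flow A hz, F.iso, dist_comm]
    exact hdist z hz.2 _ (H.iter hz N).2
  have hT : ∀ z ∈ K ∩ q.ln, ∀ N, 1 ≤ N → τ₁ ≤ tk τ R z N := by
    intro z hz N hN
    have h1 : (1 : ℝ) ≤ N := by exact_mod_cast hN
    have h2 := (H.tk_bd hz N).1
    nlinarith
  obtain ⟨z, hz⟩ := S.ne
  have hτ₂ : 0 ≤ τ₂ := hτ.le.trans ((H.bd z hz).1.trans (H.bd z hz).2)
  have h0 : ∑ i, a i * ρ i = 0 := by
    choose B hB0 hB using fun i => (hρ i).seg A hτ (D * (q.b - q.a))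
    refine t9np_zero (B := 1 + ∑ i, |a i| * B i) hτ (T := tk τ R z)
      (fun N => (H.tk_bd hz N).1) fun N hN => ?_
    have h1 := hT z hz N hN
    have h2 : dist (Φ (tk τ R z N) z) (Gk g R z N • z) ≤ D * (q.b - q.a) := by
      refine (hd z hz N).trans (mul_le_mul_of_nonneg_left ?_ hD.le)
      have h3 := hz.2.2
      have h4 := (H.iter hz N).2.2
      rw [abs_le]
      constructor <;> linarith [h3.1, h3.2, h4.1, h4.2]
    have h3 : |b (Gk g R z N) - (∑ i, a i * ρ i) * tk τ R z N| ≤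
        (∑ i, |a i| * B i) * (1 + √(tk τ R z N)) := by
      rw [ha, Finset.sum_mul, Finset.sum_mul, ← Finset.sum_sub_distrib]
      refine (Finset.abs_sum_le_sum_abs _ _).trans (Finset.sum_le_sum fun i _ => ?_)
      have h4 := hB i z hz.1 _ _ h1 h2
      simp only [Pi.zero_apply, intervalIntegral.integral_zero, sub_zero] at h4
      rw [mul_assoc, ← mul_sub, abs_mul, mul_assoc]
      exact mul_le_mul_of_nonneg_left h4 (abs_nonneg _)
    have h4 := hbd z hz N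
    have h5 := abs_sub_abs_le_abs_sub ((∑ i, a i * ρ i) * tk τ R z N) (b (Gk g R z N))
    rw [abs_sub_comm, abs_mul, abs_of_pos (hτ.trans_le h1)] at h5
    have h6 := Real.sqrt_nonneg (tk τ R z N)
    linarith
  choose B δ hB0 hδ hB using fun i => (hρ i).loop A hτ
  have hsmall : ∀ᶠ m : ℕ in atTop, ∀ i, D * (|C| / m ^ 8) ≤ δ i := by
    refine eventually_all.2 fun i => ?_
    have h1 : Tendsto (fun m : ℕ => D * (|C| / (m : ℝ) ^ 8)) atTop (𝓝 (D * 0)) :=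
      (tendsto_const_nhds.div_atTop ((tendsto_pow_atTop (by norm_num)).comp
        tendsto_natCast_atTop_atTop)).const_mul D
    rw [mul_zero] at h1
    exact h1.eventually (ge_mem_nhds (hδ i))
  have hlat := lattice h0 (v := fun m i => ψ (Gk g R (x m) (k m)) i)
    (T := fun m => tk τ R (x m) (k m))
    (C := |C| * τ₂ + (∑ i, B i) * (D * |C|) * (1 + √(|C| * τ₂))) hτ (by
      filter_upwards [hm, hsmall, eventually_ge_atTop 1] with m ⟨h1, h2, h3, h4⟩ h5 h6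
      have hm1 : (1 : ℝ) ≤ m := by exact_mod_cast h6
      have hm2 : (1 : ℝ) ≤ (m : ℝ) ^ 2 := one_le_pow₀ hm1
      have hsum : 0 ≤ ∑ i, B i := Finset.sum_nonneg fun i _ => hB0 i
      have h7 := hT _ h1 _ h2
      have h8 : tk τ R (x m) (k m) ≤ |C| * τ₂ * m ^ 4 := by
        refine (H.tk_bd h1 (k m)).2.trans ?_
        have h9 : (k m : ℝ) ≤ |C| * m ^ 4 :=
          h3.trans (mul_le_mul_of_nonneg_right (le_abs_self C) (by positivity))
        nlinarith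
      have h9 : dist (Φ (tk τ R (x m) (k m)) (x m)) (Gk g R (x m) (k m) • x m) ≤
          D * (|C| / m ^ 8) :=
        (hd _ h1 _).trans (mul_le_mul_of_nonneg_left (h4.trans
          (div_le_div_of_nonneg_right (le_abs_self C) (by positivity))) hD.le)
      have h10 : 1 + √(tk τ R (x m) (k m)) ≤ (1 + √(|C| * τ₂)) * m ^ 2 := by
        have h11 : √(tk τ R (x m) (k m)) ≤ √(|C| * τ₂) * m ^ 2 := by
          refine (Real.sqrt_le_sqrt h8).trans (le_of_eq ?_)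
          rw [Real.sqrt_mul (by positivity), show (m : ℝ) ^ 4 = (m ^ 2) ^ 2 by ring,
            Real.sqrt_sq (by positivity)]
        linarith
      refine ⟨h7, h8.trans (mul_le_mul_of_nonneg_right (le_add_of_nonneg_right (by positivity))
        (by positivity)), fun i => ?_⟩
      have h11 := hB i _ h1.1 _ _ h7 (h9.trans (h5 i))
      simp only [Pi.zero_apply, intervalIntegral.integral_zero, sub_zero] at h11
      have h12 : B i ≤ ∑ i, B i :=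
        Finset.single_le_sum (f := B) (fun i _ => hB0 i) (Finset.mem_univ i)
      have h13 := mul_le_mul (mul_le_mul h12 h9 dist_nonneg hsum) h10 (by positivity)
        (by positivity)
      refine h11.trans (h13.trans ?_)
      have e : (∑ i, B i) * (D * (|C| / m ^ 8)) * ((1 + √(|C| * τ₂)) * m ^ 2) =
          (∑ i, B i) * (D * |C|) * (1 + √(|C| * τ₂)) / m ^ 6 := by
        field_simp
      rw [e]
      exact div_le_div_of_nonneg_right (le_add_of_nonneg_left (by positivity)) (by positivity))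
  filter_upwards [hlat] with m hm
  rw [ha]
  exact hm

theorem Aper.false (F : Deck Γ) (ho : ∀ γ : Γ, Ori γ) (A : Aper Γ K Φ V)
    (h1 : ∀ ψ ∈ Coh Γ, ∃ ρ, TDK K Φ ψ 0 ρ)
    (h2 : ∀ q : Bx, q.Ok → ∀ j, ∃ ρ, TDK K Φ (0 : Γ → ℝ) (fam Γ q j) ρ) : False := by
  obtain ⟨R₀, hsec⟩ := A.exists_sec F
  obtain ⟨r₁, hr₁, hsig⟩ := A.toLam.signal R₀
  obtain ⟨q, r, hr, S, hin⟩ := hsec r₁ hr₁
  obtain ⟨τ, g, R, τ₁, τ₂, ε₁, H⟩ := S.exists_ret F A
  obtain ⟨x₀, hx⟩ := S.ne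
  have hl : (Ultrafilter.of (atTop : Filter ℕ) : Filter ℕ) ≤ atTop := Ultrafilter.of_le _
  obtain ⟨θ, hθ⟩ := H.exists_cdf F A S hx _ hl
  obtain ⟨b, hb, hsh⟩ := hθ.exists_shift F ho A S H hx hl
  obtain ⟨κ, hκ, hT⟩ := H.kappa F A.toLam S (h2 q S.ok)
  have hw := S.ok.w
  obtain ⟨C, hC⟩ := close_returns F A.toLam S H hx hl hθ hsh (c := q.w / 4) (by positivity) hT
    (hsig q r hr S hin κ hκ)
  obtain ⟨i, hC⟩ := hC.choice
  obtain ⟨j, hC⟩ := hC.choice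
  obtain ⟨k, hC⟩ := hC.choice
  have hbd : ∀ x ∈ K ∩ q.ln, ∀ k, |b (Gk g R x k)| ≤ 1 := by
    intro x hx k
    rw [← shift_iter H hb hsh hx k, abs_le]
    have h3 := hθ.mem S hx
    have h4 := hθ.mem S (H.iter hx k)
    constructor <;> linarith [h3.1, h3.2, h4.1, h4.2]
  have hit : ∀ s t : ℕ, s < t → R^[t - s] (R^[s] x₀) = R^[t] x₀ := by
    intro s t hst
    rw [← Function.iterate_add_apply, Nat.sub_add_cancel hst.le]
  have h3 := loop_zero F A.toLam S H hb hbd h1 (x := fun m => R^[i m] x₀)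
    (k := fun m => j m - i m) (C := C) (by
      filter_upwards [hC] with m ⟨k1, k2, k3, k4, _⟩
      refine ⟨H.iter hx _, Nat.sub_pos_of_lt k1, ?_, by rwa [hit _ _ k1]⟩
      have k6 : (j m : ℝ) ≤ k m := by exact_mod_cast k2.le
      rw [Nat.cast_sub k1.le]
      linarith)
  have h4 := loop_zero F A.toLam S H hb hbd h1 (x := fun m => R^[j m] x₀)
    (k := fun m => k m - j m) (C := C) (by
      filter_upwards [hC] with m ⟨k1, k2, k3, _, k5⟩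
      refine ⟨H.iter hx _, Nat.sub_pos_of_lt k2, ?_, by rwa [hit _ _ k2]⟩
      have k6 : (i m : ℝ) ≤ j m := by exact_mod_cast k1.le
      rw [Nat.cast_sub k2.le]
      linarith)
  obtain ⟨m, ⟨k1, k2, -⟩, k3, k4⟩ := (hC.and (h3.and h4)).exists
  rw [← shift_iter H hb hsh (H.iter hx _), hit _ _ k1, sub_eq_zero] at k3
  rw [← shift_iter H hb hsh (H.iter hx _), hit _ _ k2, sub_eq_zero] at k4
  rcases hθ.three S (H.iter hx _) (H.iter hx _) (H.iter hx _) k3 k4 with k5 | k5 | k5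
  · exact k1.ne (H.inj F A hx k5)
  · exact k2.ne (H.inj F A hx k5)
  · exact (k1.trans k2).ne (H.inj F A hx k5)

end Pool.Agent.Lib.MP_5bb885_an.Gen
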