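import Pool.Agent.Lib.MP_5bb885_an.T9Mob

/-!
A closed surface of negative Euler characteristic has no nowhere vanishing vector field.
-/

namespace Pool.Agent.Lib.MP_5bb885_an.Gen

open UpperHalfPlane MeasureTheory Filter Topology

variable {Γ : Type} [Group Γ] [MulAction Γ ℍ]

/-- The automorphy factor `c z + d`. -/
noncomputable def t9ph_j (g : G) (z : ℍ) : ℂ := g 1 0 * z + g 1 1

lemma t9ph_j_ne (g : G) (z : ℍ) : t9ph_j g z ≠ 0 := by
  intro h
  have h1 := congrArg Complex.re h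
  have h2 := congrArg Complex.im h
  simp only [t9ph_j, Complex.add_re, Complex.mul_re, Complex.ofReal_re, coe_re, Complex.ofReal_im,
    coe_im, zero_mul, sub_zero, Complex.zero_re, Complex.add_im, Complex.mul_im, add_zero,
    Complex.zero_im] at h1 h2
  have := den_pos g z
  rw [h1, h2] at this
  simp at this

lemma t9ph_coe (g : G) (z : ℍ) : ((g • z : ℍ) : ℂ) = (g 0 0 * z + g 0 1) / t9ph_j g z := by
  rw [coe_specialLinearGroup_apply]
  rfl

lemma t9ph_j_mul (g h : G) (z : ℍ) : t9ph_j (g * h) z = t9ph_j g (h • z) * t9ph_j h z := by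
  have hne := t9ph_j_ne h z
  rw [t9ph_j, t9ph_j, t9ph_coe, add_mul, mul_assoc, div_mul_cancel₀ _ hne, mul_ent, mul_ent, t9ph_j]
  push_cast
  ring

lemma t9ph_j_cont (z : ℍ) : Continuous fun g : G => t9ph_j g z := by
  unfold t9ph_j
  have h : ∀ i j, Continuous fun g : G => g i j := fun i j =>
    continuous_subtype_val.matrix_elem i j
  exact ((Complex.continuous_ofReal.comp (h 1 0)).mul continuous_const).add
    (Complex.continuous_ofReal.comp (h 1 1))

lemma t9ph_j_cont' (g : G) : Continuous fun z : ℍ => t9ph_j g z :=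
  (continuous_const.mul continuous_coe).add continuous_const

lemma t9ph_slit (g : G) (z w : ℍ) : t9ph_j g z / t9ph_j g w ∈ Complex.slitPlane := by
  by_contra h
  rw [Complex.mem_slitPlane_iff, not_or, not_lt, not_not] at h
  have e := div_mul_cancel₀ (t9ph_j g z) (t9ph_j_ne g w)
  generalize t9ph_j g z / t9ph_j g w = r at h e
  have h1 := congrArg Complex.re e
  have h2 := congrArg Complex.im e
  simp only [t9ph_j, Complex.add_re, Complex.mul_re, Complex.ofReal_re, coe_re, Complex.ofReal_im,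
    coe_im, zero_mul, sub_zero, Complex.add_im, Complex.mul_im, add_zero, h.2] at h1 h2
  by_cases hc : g 1 0 = 0
  · have hd : g 1 1 ≠ 0 := fun h' => by simpa [hc, h'] using det_eq g
    simp only [hc, zero_mul, zero_add] at h1
    have : r.re = 1 := mul_right_cancel₀ hd (by rw [h1, one_mul])
    linarith [h.1]
  · have : r.re * w.im = z.im := mul_left_cancel₀ hc (by linarith)
    nlinarith [z.im_pos, w.im_pos, h.1]

/-- Two continuous logarithms of the same function that agree at one point are equal. -/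
lemma t9ph_uniq {f₁ f₂ : ℍ → ℂ} (h₁ : Continuous f₁) (h₂ : Continuous f₂)
    (he : ∀ z, Complex.exp (f₁ z) = Complex.exp (f₂ z)) (w : ℍ) (hw : f₁ w = f₂ w) (z : ℍ) :
    f₁ z = f₂ z :=
  congrFun (Complex.isCoveringMap_exp.eq_of_comp_eq h₁ h₂
    (funext fun z => Subtype.ext (he z)) w hw) z

/-- The logarithm of `(j k z / j k w) ^ 2`. -/
noncomputable def t9ph_l (k : G) (z w : ℍ) : ℂ := 2 * Complex.log (t9ph_j k z / t9ph_j k w)

lemma t9ph_l_self (k : G) (z : ℍ) : t9ph_l k z z = 0 := by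
  simp [t9ph_l, t9ph_j_ne k z]

lemma t9ph_exp_l (k : G) (z w : ℍ) :
    Complex.exp (t9ph_l k z w) = (t9ph_j k z / t9ph_j k w) ^ 2 := by
  rw [t9ph_l, two_mul, Complex.exp_add,
    Complex.exp_log (div_ne_zero (t9ph_j_ne k z) (t9ph_j_ne k w)), sq]

lemma t9ph_l_cont (z w : ℍ) : Continuous fun g : G => t9ph_l g z w :=
  continuous_const.mul (((t9ph_j_cont z).div (t9ph_j_cont w) fun g => t9ph_j_ne g w).clog
    fun g => t9ph_slit g z w)

lemma t9ph_l_cont' (g : G) (w : ℍ) : Continuous fun z : ℍ => t9ph_l g z w :=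
  continuous_const.mul (((t9ph_j_cont' g).div_const _).clog fun z => t9ph_slit g z w)

/-- The variation of the logarithm of the pull-back of `exp B` by `g`. -/
noncomputable def t9ph_P (B : ℍ → ℂ) (g : G) (z w : ℍ) : ℂ := B (g • z) - B (g • w) + t9ph_l g z w

variable {B : ℍ → ℂ}

lemma t9ph_P_self (g : G) (z : ℍ) : t9ph_P B g z z = 0 := by
  simp [t9ph_P, t9ph_l_self]

lemma t9ph_exp_P (g : G) (z w : ℍ) : Complex.exp (t9ph_P B g z w) =
    Complex.exp (B (g • z)) * t9ph_j g z ^ 2 / (Complex.exp (B (g • w)) * t9ph_j g w ^ 2) := by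
  rw [t9ph_P, Complex.exp_add, Complex.exp_sub, t9ph_exp_l, div_pow, div_mul_div_comm]

lemma t9ph_P_cont (hB : Continuous B) (z w : ℍ) : Continuous fun g : G => t9ph_P B g z w :=
  ((hB.comp (continuous_id.smul continuous_const)).sub
    (hB.comp (continuous_id.smul continuous_const))).add (t9ph_l_cont z w)

lemma t9ph_P_cont' (hB : Continuous B) (g : G) (w : ℍ) : Continuous fun z : ℍ => t9ph_P B g z w :=
  ((hB.comp (continuous_const_smul g)).sub continuous_const).add (t9ph_l_cont' g w)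

lemma t9ph_P_add (hB : Continuous B) (g : G) (z w u : ℍ) :
    t9ph_P B g z w + t9ph_P B g w u = t9ph_P B g z u := by
  refine t9ph_uniq ((t9ph_P_cont' hB g w).add continuous_const) (t9ph_P_cont' hB g u)
    (fun z => ?_) w (by simp [t9ph_P_self]) z
  have := t9ph_j_ne g w
  have := t9ph_j_ne g u
  simp only [Pi.add_apply, Complex.exp_add, t9ph_exp_P]
  field_simp

lemma t9ph_P_right (hB : Continuous B) (g k : G) (z w : ℍ) :
    t9ph_P B (g * k) z w = t9ph_P B g (k • z) (k • w) + t9ph_l k z w := by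
  refine t9ph_uniq (t9ph_P_cont' hB (g * k) w)
    (((t9ph_P_cont' hB g (k • w)).comp (continuous_const_smul k)).add (t9ph_l_cont' k w))
    (fun z => ?_) w (by simp [t9ph_P_self, t9ph_l_self]) z
  have := t9ph_j_ne g (k • w)
  have := t9ph_j_ne k w
  simp only [Pi.add_apply, Function.comp_apply, Complex.exp_add, t9ph_exp_P, t9ph_exp_l, t9ph_j_mul,
    mul_smul]
  field_simp

lemma t9ph_P_left (hB : Continuous B) {h : G}
    (hh : ∀ z, Complex.exp (B (h • z)) * t9ph_j h z ^ 2 = Complex.exp (B z)) (g : G) (z w : ℍ) :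
    t9ph_P B (h * g) z w = t9ph_P B g z w := by
  refine t9ph_uniq (t9ph_P_cont' hB (h * g) w) (t9ph_P_cont' hB g w)
    (fun z => ?_) w (by simp [t9ph_P_self]) z
  simp only [t9ph_exp_P, t9ph_j_mul, mul_smul, mul_pow, ← mul_assoc, hh]

/-- There is no `SL(2, ℝ)`-equivariant angle function. -/
lemma t9ph_alg (φ : ℍ → ℍ → ℂ) (c : ℂ) (hc : c ≠ 0) (h1 : ∀ z w u, φ z w + φ w u = φ z u)
    (h2 : ∀ (k : G) z w, φ z w = φ (k • z) (k • w) + c * t9ph_l k z w) : False := by
  have h0 : ∀ z, φ z z = 0 := fun z => by simpa using h1 z z z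
  have hB : ∀ k : G, k 1 0 = 0 → ∀ z w, φ (k • z) (k • w) = φ z w := fun k hk z w => by
    have : t9ph_j k z = t9ph_j k w := by simp [t9ph_j, hk]
    rw [h2 k z w, t9ph_l, this, div_self (t9ph_j_ne k w)]
    simp
  have hI : ∀ k : G, k 1 0 = 0 → ∀ z, φ (k • z) z = φ (k • I) I := fun k hk z => by
    have e1 := h1 (k • z) (k • I) I
    have e2 := h1 (k • z) z I
    rw [hB k hk] at e1
    linear_combination e2 - e1
  have hM : ∀ k k' : G, k 1 0 = 0 → k' 1 0 = 0 →
      φ ((k * k') • I) I = φ (k • I) I + φ (k' • I) I := fun k k' hk hk' => by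
    rw [mul_smul, ← hI k hk (k' • I), h1]
  let T : ℝ → G := fun t => mk4 1 t 0 1 (by simp)
  let D : G := mk4 2 0 0 (1 / 2) (by norm_num)
  have hT : ∀ t, φ (T t • I) I = 0 := fun t => by
    have a : ∀ s t, T (s + t) = T s * T t := fun s t =>
      ext4 (by simp [T, mul_ent]) (by simp [T, mul_ent, add_comm]) (by simp [T, mul_ent])
        (by simp [T, mul_ent])
    have b : D * T t = T (t + t + (t + t)) * D :=
      ext4 (by simp [T, D, mul_ent]) (by simp only [T, D, mul_ent, mk4_00, mk4_01, mk4_11]; ring)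
        (by simp [T, D, mul_ent]) (by simp [T, D, mul_ent])
    have e1 := hM D (T t) rfl rfl
    have e2 := hM (T t) (T t) rfl rfl
    rw [b, hM _ _ rfl rfl, a, hM _ _ rfl rfl, a, e2] at e1
    linear_combination e1 / 3
  have him : ∀ z w : ℍ, z.im = w.im → φ z w = 0 := fun z w h => by
    have : z = T (z.re - w.re) • w := by
      refine ext_re_im ?_ ?_
      · simp [smul_re, T]
      · simp [smul_im, T, h]
    rw [this, hI _ rfl, hT]
  let S : G := mk4 0 (-1) 1 0 (by simp)
  let z : ℍ := ⟨⟨-1, 1⟩, one_pos⟩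
  let w : ℍ := ⟨⟨1, 1⟩, one_pos⟩
  have e := h2 S z w
  rw [him z w rfl, him (S • z) (S • w) (by simp [smul_im, S, z, w]), zero_add] at e
  have e' := congrArg Complex.exp ((mul_eq_zero.1 e.symm).resolve_left hc)
  rw [t9ph_exp_l, Complex.exp_zero, div_pow, div_eq_one_iff_eq (pow_ne_zero _ (t9ph_j_ne S w))] at e'
  have := congrArg Complex.im e'
  simp [t9ph_j, S, z, w, sq] at this
  norm_num at this

/-- A partition of unity for a proper cocompact isometric action. -/
lemma t9ph_rho (iso : ∀ (γ : Γ) (z w : ℍ), dist (γ • z) (γ • w) = dist z w)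
    (fin : ∀ R : ℝ, {γ : Γ | dist (γ • I) I ≤ R}.Finite)
    (cpt : ∃ R : ℝ, ∀ z : ℍ, ∃ γ : Γ, dist (γ • z) I ≤ R) :
    ∃ (ρ : ℍ → ℝ) (R : ℝ), Continuous ρ ∧ (∀ z, 0 ≤ ρ z) ∧ (∀ z, ρ z ≠ 0 → dist z I ≤ R) ∧
      ∀ z, ∑ᶠ γ : Γ, ρ (γ • z) = 1 := by
  obtain ⟨R, hR⟩ := cpt
  let f : ℍ → ℝ := fun z => max 0 (R + 1 - dist z I)
  have fc : Continuous f := continuous_const.max (continuous_const.sub (by fun_prop))
  have f0 : ∀ z, 0 ≤ f z := fun z => le_max_left _ _
  have fs : ∀ z, f z ≠ 0 → dist z I ≤ R + 1 := fun z h => by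
    by_contra h'
    exact h (max_eq_left (by linarith))
  have lf : LocallyFinite fun γ : Γ => Function.support fun z : ℍ => f (γ • z) := fun z => by
    refine ⟨Metric.ball z 1, Metric.ball_mem_nhds z one_pos,
      (fin (R + 1 + (1 + dist z I))).subset ?_⟩
    rintro γ ⟨w, h1, h2⟩
    have h3 := fs _ h1
    have h4 := dist_triangle (γ • I) (γ • w) I
    have h5 := dist_triangle w z I
    rw [iso, dist_comm I w] at h4
    have h6 : dist w z < 1 := h2
    show dist (γ • I) I ≤ _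
    linarith
  let n : ℍ → ℝ := fun z => ∑ᶠ γ : Γ, f (γ • z)
  have nc : Continuous n := continuous_finsum
    (fun γ => fc.comp (Isometry.of_dist_eq (iso γ)).continuous) lf
  have np : ∀ z, 0 < n z := fun z => by
    obtain ⟨γ, hγ⟩ := hR z
    exact finsum_pos (fun _ => f0 _) ⟨γ, lt_max_of_lt_right (by linarith)⟩ (lf.point_finite z)
  have ni : ∀ (δ : Γ) z, n (δ • z) = n z := fun δ z => by
    simp only [n, ← mul_smul]
    exact finsum_comp_equiv (Equiv.mulRight δ) (f := fun γ : Γ => f (γ • z))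
  refine ⟨fun z => f z * (n z)⁻¹, R + 1, fc.mul (nc.inv₀ fun z => (np z).ne'),
    fun z => mul_nonneg (f0 z) (inv_nonneg.2 (np z).le), fun z h => fs z (left_ne_zero_of_mul h),
    fun z => ?_⟩
  simp only [ni]
  rw [← finsum_mul]
  exact mul_inv_cancel₀ (np z).ne'

lemma t9ph_cpt (R : ℝ) : IsCompact {g : G | dist (g • I) I ≤ R} :=
  isProperMap_smul_I.isCompact_preimage (isCompact_closedBall I R)

lemma t9ph_lc : LocallyCompactSpace G := by
  have : WeaklyLocallyCompactSpace G := ⟨fun g => ⟨_, t9ph_cpt (dist (g • I) I + 1), by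
    have hc : Continuous fun g : G => dist (g • I) I :=
      (continuous_id.smul continuous_const).dist continuous_const
    exact hc.continuousAt.eventually (Iic_mem_nhds (lt_add_one _))⟩⟩
  infer_instance

lemma t9ph_right [MeasurableSpace G] [BorelSpace G] (μ : Measure G) [μ.IsHaarMeasure] :
    μ.IsMulRightInvariant := by
  have := t9ph_lc
  have : SecondCountableTopology G :=
    inferInstanceAs (SecondCountableTopology {A : Fin 2 → Fin 2 → ℝ // Matrix.det A = 1})
  refine ⟨fun g => ?_⟩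
  have h1 : g ∈ commutator G := by
    rw [Matrix.SL2.commutator_eq_top (a := (2 : ℝ)) (by norm_num) (by norm_num)]
    trivial
  have h2 : Measure.modularCharacterFun g = 1 :=
    Abelianization.commutator_subset_ker (Measure.modularCharacter (G := G)).toHomUnits h1 |>
      congrArg Units.val
  rw [Measure.map_right_mul_eq_modularCharacterFun_smul, h2, one_smul]

lemma t9ph_supp {ρ : ℍ → ℝ} {R : ℝ} (hs : ∀ z, ρ z ≠ 0 → dist z I ≤ R) (w : ℍ) :
    HasCompactSupport fun g : G => ρ (g • w) := by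
  refine HasCompactSupport.intro (t9ph_cpt (dist I w + R)) fun g hg => ?_
  by_contra h
  have h1 := dist_triangle (g • I) (g • w) I
  rw [dist_smul] at h1
  exact hg (h1.trans (by linarith [hs _ h]))

/-- Unfolding. -/
lemma t9ph_unfold [MeasurableSpace G] [BorelSpace G] (μ : Measure G) [μ.IsHaarMeasure]
    (fin : ∀ R : ℝ, {γ : Γ | dist (γ • I) I ≤ R}.Finite) {ρ : ℍ → ℝ} {R : ℝ} (hc : Continuous ρ)
    (hs : ∀ z, ρ z ≠ 0 → dist z I ≤ R) (h1 : ∀ z, ∑ᶠ γ : Γ, ρ (γ • z) = 1) {F : G → ℂ}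
    (hF : Continuous F) (hi : ∀ γ : Γ, ∃ h : G, (∀ z : ℍ, γ • z = h • z) ∧ ∀ g, F (h * g) = F g)
    (w w' : ℍ) : ∫ g, ρ (g • w) • F g ∂μ = ∫ g, ρ (g • w') • F g ∂μ := by
  have := t9ph_lc
  choose h hh hF' using hi
  let T := (fin (R + (dist w w' + R))).toFinset
  have hT : ∀ (γ : Γ) (g : G), ρ (γ • g • w) ≠ 0 → ρ (g • w') ≠ 0 → γ ∈ T := fun γ g a b => by
    have e := dist_triangle4 (γ • I) (γ • g • w') (γ • g • w) I
    rw [hh γ I, hh γ (g • w'), dist_smul, hh γ (g • w), dist_smul, dist_smul, ← hh, ← hh,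
      dist_comm I, dist_comm w'] at e
    have := hs _ a
    have := hs _ b
    simp only [T, Set.Finite.mem_toFinset, Set.mem_ofPred_eq]
    linarith
  have hinv : ∀ (γ : Γ) (z : ℍ), γ⁻¹ • z = (h γ)⁻¹ • z := fun γ z => by
    rw [inv_smul_eq_iff, hh, smul_inv_smul]
  have cc : ∀ (k : G) (u : ℍ), Continuous fun g : G => ρ (k • g • u) := fun k u =>
    hc.comp ((continuous_id.smul continuous_const).const_smul k)
  have c1 : ∀ u : ℍ, Continuous fun g : G => ρ (g • u) := fun u =>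
    hc.comp (continuous_id.smul continuous_const)
  have e1 : ∀ g : G, ρ (g • w') • F g = ∑ γ ∈ T, (ρ (h γ • g • w) * ρ (g • w')) • F g := fun g => by
    rw [← Finset.sum_smul, ← Finset.sum_mul]
    by_cases b : ρ (g • w') = 0
    · simp [b]
    · simp only [← hh]
      rw [← finsum_eq_sum_of_support_subset _ fun γ a => hT γ g a b, h1, one_mul]
  have e2 : ∀ g : G, ρ (g • w) • F g = ∑ γ ∈ T, (ρ (g • w) * ρ ((h γ)⁻¹ • g • w')) • F g :=
    fun g => by
    rw [← Finset.sum_smul, ← Finset.mul_sum]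
    by_cases b : ρ (g • w) = 0
    · simp [b]
    · rw [← finsum_eq_sum_of_support_subset _ fun γ a => hT γ ((h γ)⁻¹ * g)
        (by rwa [hh, mul_smul, smul_inv_smul]) (by rwa [mul_smul])]
      simp only [← hinv]
      have := finsum_comp_equiv (Equiv.inv Γ) (f := fun γ : Γ => ρ (γ • g • w'))
      rw [show ∑ᶠ γ : Γ, ρ (γ⁻¹ • g • w') = 1 from this.trans (h1 _), mul_one]
  simp only [e1, e2]
  rw [integral_finsetSum, integral_finsetSum]
  · refine Finset.sum_congr rfl fun γ _ => ?_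
    rw [← integral_mul_left_eq_self _ (h γ)]
    simp only [mul_smul, inv_smul_smul, hF']
  · exact fun γ _ => (((cc _ _).mul (c1 _)).smul hF).integrable_of_hasCompactSupport
      ((t9ph_supp hs w').mul_left.smul_right)
  · exact fun γ _ => (((c1 _).mul (cc _ _)).smul hF).integrable_of_hasCompactSupport
      ((t9ph_supp hs w).mul_right.smul_right)

lemma t9ph_core (fin : ∀ R : ℝ, {γ : Γ | dist (γ • I) I ≤ R}.Finite)
    (cpt : ∃ R : ℝ, ∀ z : ℍ, ∃ γ : Γ, dist (γ • z) I ≤ R) (hB : Continuous B)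
    (hi : ∀ γ : Γ, ∃ h : G, (∀ z : ℍ, γ • z = h • z) ∧
      ∀ z, Complex.exp (B (h • z)) * t9ph_j h z ^ 2 = Complex.exp (B z)) : False := by
  have := t9ph_lc
  borelize G
  let μ : Measure G := Measure.haar
  have := t9ph_right μ
  obtain ⟨ρ, R, hc, h0, hs, h1⟩ := t9ph_rho (fun γ z w => by
    obtain ⟨h, hh, -⟩ := hi γ
    rw [hh, hh, dist_smul]) fin cpt
  have c1 : Continuous fun g : G => ρ (g • I) := hc.comp (continuous_id.smul continuous_const)
  have hint : ∀ {F : G → ℂ}, Continuous F → Integrable (fun g => ρ (g • I) • F g) μ := fun hF =>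
    (c1.smul hF).integrable_of_hasCompactSupport (t9ph_supp hs I).smul_right
  have hpos : 0 < ∫ g, ρ (g • I) ∂μ := by
    obtain ⟨γ, hγ⟩ : ∃ γ : Γ, ρ (γ • I) ≠ 0 := by
      by_contra h
      simp only [not_exists, not_not] at h
      simpa [h] using h1 I
    obtain ⟨h, hh, -⟩ := hi γ
    exact c1.integral_pos_of_hasCompactSupport_nonneg_nonzero (t9ph_supp hs I) (fun _ => h0 _)
      (x := h) (by rwa [← hh])
  refine t9ph_alg (fun z w => ∫ g, ρ (g • I) • t9ph_P B g z w ∂μ) (∫ g, ρ (g • I) ∂μ : ℝ)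
    (Complex.ofReal_ne_zero.2 hpos.ne') (fun z w u => ?_) fun k z w => ?_
  · rw [← integral_add (hint (t9ph_P_cont hB z w)) (hint (t9ph_P_cont hB w u))]
    simp only [← smul_add, t9ph_P_add hB]
  · rw [t9ph_unfold μ fin hc hs h1 (t9ph_P_cont hB z w) (fun γ => by
      obtain ⟨h, hh, hh'⟩ := hi γ
      exact ⟨h, hh, fun g => t9ph_P_left hB hh' g z w⟩) I (k⁻¹ • I),
      ← integral_mul_right_eq_self _ k]
    simp only [mul_smul, smul_inv_smul, t9ph_P_right hB, smul_add]
    rw [integral_add (hint (t9ph_P_cont hB _ _)) (hint continuous_const), integral_smul_const,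
      Complex.real_smul]

lemma t9ph_dk {γ : Γ} {h : G} (hh : ∀ z : ℍ, γ • z = h • z) (z : ℍ) (v : ℂ) :
    dk γ z v * t9ph_j h z ^ 2 = v := by
  have h1 := (hasStrictDerivAt_smul (g := (h : GL (Fin 2) ℝ)) (by simp) z).hasDerivAt
  have h2 : (fun w : ℂ => ((γ • ofComplex w : ℍ) : ℂ)) =
      fun w : ℂ => (((h : GL (Fin 2) ℝ) • ofComplex w : ℍ) : ℂ) := by
    funext w
    rw [hh]
    rfl
  have h3 : denom (h : GL (Fin 2) ℝ) z = t9ph_j h z := by simp [denom, t9ph_j]
  rw [dk, h2, (h1.hasFDerivAt.restrictScalars ℝ).fderiv, h3]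
  have := t9ph_j_ne h z
  simp
  field_simp

theorem Deck.no_field (F : Deck Γ) (V : ℍ → ℂ) (hc : Continuous V) (h0 : ∀ z, V z ≠ 0)
    (he : ∀ (γ : Γ) (z : ℍ), V (γ • z) = dk γ z (V z)) : False := by
  obtain ⟨B, hB, hV⟩ := Complex.exists_continuousOn_eqOn_exp_comp (X := ℍ) (U := Set.univ)
    (Homeomorph.Set.univ ℍ).toHomotopyEquiv.simplyConnectedSpace isOpen_univ hc.continuousOn
    (by rintro ⟨z, -, hz⟩; exact h0 z hz)
  let H : Subgroup Γ :=
    { carrier := {γ | Ori γ}
      one_mem' := ⟨1, fun z => by rw [one_smul, one_smul]⟩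
      mul_mem' := by
        rintro a b ⟨g, hg⟩ ⟨g', hg'⟩
        exact ⟨g * g', fun z => by rw [mul_smul, mul_smul, hg, hg']⟩
      inv_mem' := by
        rintro a ⟨g, hg⟩
        exact ⟨g⁻¹, fun z => by rw [inv_smul_eq_iff, hg, smul_inv_smul]⟩ }
  refine t9ph_core (Γ := H) (fun R => (F.fin R).preimage Subtype.val_injective.injOn) ?_
    (continuousOn_univ.1 hB) ?_
  · obtain ⟨R, hR⟩ := F.cpt
    by_cases h : ∀ γ : Γ, Ori γ
    · exact ⟨R, fun z => (hR z).elim fun γ hγ => ⟨⟨γ, h γ⟩, hγ⟩⟩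
    · obtain ⟨δ, hδ⟩ := not_forall.1 h
      refine ⟨R + dist (δ • I) I, fun z => (hR z).elim fun γ hγ => ?_⟩
      by_cases hγ' : Ori γ
      · exact ⟨⟨γ, hγ'⟩, hγ.trans (le_add_of_nonneg_right dist_nonneg)⟩
      · have h1 : sg (δ * γ) = 1 := by
          rw [F.sg_mul, ((sg_cases δ).resolve_left fun h => hδ h.1).2,
            ((sg_cases γ).resolve_left fun h => hγ' h.1).2]
          norm_num
        have h2 : Ori (δ * γ) := ((sg_cases _).resolve_right fun h => by
          rw [h1] at h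
          norm_num at h).1
        refine ⟨⟨δ * γ, h2⟩, ?_⟩
        have h3 := dist_triangle (δ • γ • z) (δ • I) I
        rw [F.iso, ← mul_smul] at h3
        exact h3.trans (by linarith)
  · rintro ⟨γ, g, hg⟩
    refine ⟨g, hg, fun z => ?_⟩
    have h1 : ∀ z, Complex.exp (B z) = V z := fun z => hV (Set.mem_univ z)
    rw [h1, h1, ← hg, he, t9ph_dk hg]

end Pool.Agent.Lib.MP_5bb885_an.Gen
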