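import Pool.Agent.Lib.MP_5bb885_an.T9Fam

/-!
Random smooth perturbations.
-/

namespace Pool.Agent.Lib.MP_5bb885_an.Gen

open UpperHalfPlane MeasureTheory Filter Topology

variable {Γ : Type} [Group Γ] [MulAction Γ ℍ]

section aux

open scoped ContDiff

/-- Small positive weights for countably many summability conditions. -/
lemma t9pert_weights {ι : Type} [Countable ι] (W : ℕ → ι → ℝ) (hW : ∀ n i, 0 ≤ W n i) {δ : ℝ}
    (hδ : 0 < δ) : ∃ ε : ι → ℝ, (∀ i, 0 < ε i) ∧ (∀ n, Summable fun i => ε i * W n i) ∧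
      ∑' i, ε i * W 0 i ≤ δ := by
  obtain ⟨E⟩ := nonempty_encodable ι
  obtain ⟨η, hη, c, hc, hcδ⟩ := posSumOfEncodable hδ ι
  have hA : ∀ i, 0 ≤ ∑ n ∈ Finset.range (Encodable.encode i + 1), W n i := fun i =>
    Finset.sum_nonneg fun n _ => hW n i
  have key : ∀ n i, n ≤ Encodable.encode i →
      η i / (1 + ∑ n ∈ Finset.range (Encodable.encode i + 1), W n i) * W n i ≤ η i := by
    intro n i hn
    have h1 : W n i ≤ ∑ n ∈ Finset.range (Encodable.encode i + 1), W n i :=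
      Finset.single_le_sum (f := fun n => W n i) (fun m _ => hW m i)
        (Finset.mem_range.2 (by omega))
    have h2 := hA i
    rw [div_mul_eq_mul_div, div_le_iff₀ (by linarith)]
    exact mul_le_mul_of_nonneg_left (by linarith) (hη i).le
  have hpos : ∀ i, 0 < η i / (1 + ∑ n ∈ Finset.range (Encodable.encode i + 1), W n i) :=
    fun i => div_pos (hη i) (by linarith [hA i])
  have hs : ∀ n, Summable fun i =>
      η i / (1 + ∑ n ∈ Finset.range (Encodable.encode i + 1), W n i) * W n i := by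
    intro n
    refine Summable.of_norm_bounded_eventually hc.summable ?_
    have hfin : {i : ι | Encodable.encode i < n}.Finite :=
      (Set.finite_Iio n).preimage Encodable.encode_injective.injOn
    filter_upwards [hfin.compl_mem_cofinite] with i hi
    rw [Real.norm_of_nonneg (mul_nonneg (hpos i).le (hW n i))]
    exact key n i (not_lt.1 hi)
  refine ⟨_, hpos, hs, ?_⟩
  refine ((hs 0).tsum_le_tsum (fun i => key 0 i (Nat.zero_le _)) hc.summable).trans ?_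
  rw [hc.tsum_eq]
  exact hcδ

/-- Cutoff functions. -/
lemma t9pert_cut (R : ℕ) : ∃ χ : ℂ → ℝ, ContDiff ℝ ∞ χ ∧ HasCompactSupport χ ∧ tsupport χ ⊆ HP ∧
    ∀ z ∈ KB R, χ =ᶠ[𝓝 z] 1 := by
  have h1 : Real.sinh R < Real.cosh R := Real.sinh_lt_cosh _
  have h2 : 0 ≤ Real.sinh R := Real.sinh_nonneg_iff.2 (Nat.cast_nonneg R)
  let b : ContDiffBump ((center I R : ℍ) : ℂ) :=
    ⟨(2 * Real.sinh R + Real.cosh R) / 3, (Real.sinh R + 2 * Real.cosh R) / 3, by linarith,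
      by linarith⟩
  refine ⟨b, b.contDiff, b.hasCompactSupport, ?_, ?_⟩
  · rw [b.tsupport_eq]
    intro z hz
    have h3 : ‖z - (center I R : ℍ)‖ ≤ (Real.sinh R + 2 * Real.cosh R) / 3 := by
      rwa [Metric.mem_closedBall, dist_eq_norm] at hz
    have h4 := (abs_le.1 ((Complex.abs_im_le_norm _).trans h3)).1
    have h5 : ((center I R : ℍ) : ℂ).im = Real.cosh R := by
      rw [coe_im, center_im, I_im, one_mul]
    rw [Complex.sub_im, h5] at h4
    show 0 < z.im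
    linarith
  · intro z hz
    rw [KB, image_coe_closedBall, I_im, one_mul] at hz
    refine b.eventuallyEq_one_of_mem_ball (Metric.closedBall_subset_ball ?_ hz)
    show Real.sinh R < (2 * Real.sinh R + Real.cosh R) / 3
    linarith

lemma t9pert_mul {χ g : ℂ → ℝ} (h1 : ContDiff ℝ ∞ χ) (h2 : tsupport χ ⊆ HP)
    (hg : ContDiffOn ℝ ∞ g HP) : ContDiff ℝ ∞ fun z => χ z * g z := by
  refine contDiff_iff_contDiffAt.2 fun z => ?_
  by_cases hz : z ∈ tsupport χ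
  · exact h1.contDiffAt.mul (hg.contDiffAt (isOpen_HP.mem_nhds (h2 hz)))
  · refine (contDiffAt_const (c := (0 : ℝ))).congr_of_eventuallyEq ?_
    filter_upwards [notMem_tsupport_iff_eventuallyEq.1 hz] with w hw
    rw [hw]
    simp

/-- The series with coefficients `c`. -/
noncomputable def t9pertQ (g : OB → Fin 4 → ℂ → ℝ) (ε : OB → ℝ) (c : OB → Fin 4 → ℝ) (z : ℂ) :
    ℝ := ∑' i, ∑ j, (ε i * c i j) * g i j z

lemma t9pert_term {g : OB → Fin 4 → ℂ → ℝ} (hg : ∀ i j, ContDiff ℝ ∞ (g i j)) {ε : OB → ℝ}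
    (hε : ∀ i, 0 < ε i) (c : OB → Fin 4 → ℝ) {B : OB → Fin 4 → ℝ} {m : ℕ}
    (hB : ∀ i j z, ‖iteratedFDeriv ℝ m (g i j) z‖ ≤ B i j) (i : OB) (z : ℂ) :
    ‖iteratedFDeriv ℝ m (fun z => ∑ j, (ε i * c i j) * g i j z) z‖ ≤
      ε i * ∑ j, |c i j| * B i j := by
  have hm : ∀ j, ContDiffAt ℝ m (g i j) z := fun j =>
    (hg i j).contDiffAt.of_le (by exact_mod_cast le_top)
  rw [iteratedFDeriv_fun_sum_apply fun j _ => contDiffAt_const.mul (hm j), Finset.mul_sum]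
  refine (norm_sum_le _ _).trans (Finset.sum_le_sum fun j _ => ?_)
  have e := iteratedFDeriv_const_smul_apply' (a := ε i * c i j) (hm j)
  simp only [smul_eq_mul] at e
  rw [e, norm_smul, Real.norm_eq_abs, abs_mul, abs_of_pos (hε i), mul_assoc]
  exact mul_le_mul_of_nonneg_left (mul_le_mul_of_nonneg_left (hB i j z) (abs_nonneg _))
    (hε i).le

lemma t9pert_le {ε : OB → ℝ} (hε : ∀ i, 0 < ε i) {c B : OB → Fin 4 → ℝ} {A : ℝ}
    (hc : ∀ i j, |c i j| ≤ A) (hB : ∀ i j, 0 ≤ B i j) (i : OB) :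
    0 ≤ ε i * ∑ j, |c i j| * B i j ∧ ε i * ∑ j, |c i j| * B i j ≤ A * (ε i * ∑ j, B i j) := by
  refine ⟨mul_nonneg (hε i).le (Finset.sum_nonneg fun j _ =>
    mul_nonneg (abs_nonneg _) (hB i j)), ?_⟩
  rw [mul_left_comm, Finset.mul_sum (a := A)]
  exact mul_le_mul_of_nonneg_left (Finset.sum_le_sum fun j _ =>
    mul_le_mul_of_nonneg_right (hc i j) (hB i j)) (hε i).le

/-- Smoothness and bounds for series of globally smooth functions. -/
lemma t9pert_glob {g : OB → Fin 4 → ℂ → ℝ} (hg : ∀ i j, ContDiff ℝ ∞ (g i j)) {ε : OB → ℝ}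
    (hε : ∀ i, 0 < ε i) {B : ℕ → OB → Fin 4 → ℝ} (hB0 : ∀ m i j, 0 ≤ B m i j)
    (hB : ∀ m i j z, ‖iteratedFDeriv ℝ m (g i j) z‖ ≤ B m i j)
    (hs : ∀ m, Summable fun i => ε i * ∑ j, B m i j) {c : OB → Fin 4 → ℝ} {A : ℝ}
    (hc : ∀ i j, |c i j| ≤ A) : ContDiff ℝ ∞ (t9pertQ g ε c) ∧
      ∀ m z, ‖iteratedFDeriv ℝ m (t9pertQ g ε c) z‖ ≤ ∑' i, ε i * ∑ j, |c i j| * B m i j := by
  have h1 : ∀ i, ContDiff ℝ ((⊤ : ℕ∞) : WithTop ℕ∞) fun z => ∑ j, (ε i * c i j) * g i j z :=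
    fun i => ContDiff.sum fun j _ => contDiff_const.mul (hg i j)
  have h2 : ∀ m : ℕ, Summable fun i => ε i * ∑ j, |c i j| * B m i j := fun m =>
    Summable.of_nonneg_of_le (fun i => (t9pert_le hε hc (hB0 m) i).1)
      (fun i => (t9pert_le hε hc (hB0 m) i).2) ((hs m).mul_left A)
  refine ⟨contDiff_tsum (v := fun m i => ε i * ∑ j, |c i j| * B m i j) h1 (fun m _ => h2 m)
    fun m i z _ => t9pert_term hg hε c (hB m) i z, fun m z => ?_⟩
  have e := iteratedFDeriv_tsum_apply (v := fun m i => ε i * ∑ j, |c i j| * B m i j) h1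
    (fun m _ => h2 m) (fun m i z _ => t9pert_term hg hε c (hB m) i z) (k := m) le_top z
  exact e.symm ▸ tsum_of_norm_bounded (h2 m).hasSum fun i => t9pert_term hg hε c (hB m) i z

lemma t9pert_summable {g : OB → Fin 4 → ℂ → ℝ} {ε : OB → ℝ} (hε : ∀ i, 0 < ε i)
    {B : OB → Fin 4 → ℝ} (hB : ∀ i j z, |g i j z| ≤ B i j)
    (hs : Summable fun i => ε i * ∑ j, B i j) {c : OB → Fin 4 → ℝ} {A : ℝ}
    (hc : ∀ i j, |c i j| ≤ A) (z : ℂ) : Summable fun i => ∑ j, (ε i * c i j) * g i j z := by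
  refine Summable.of_norm_bounded (hs.mul_left A) fun i => ?_
  refine le_trans ?_ (t9pert_le hε hc (fun i j => (abs_nonneg _).trans (hB i j z)) i).2
  rw [Finset.mul_sum]
  refine (norm_sum_le _ _).trans (Finset.sum_le_sum fun j _ => ?_)
  rw [Real.norm_eq_abs, abs_mul, abs_mul, abs_of_pos (hε i), mul_assoc]
  exact mul_le_mul_of_nonneg_left (mul_le_mul_of_nonneg_left (hB i j z) (abs_nonneg _))
    (hε i).le

lemma t9pert_sub {g : OB → Fin 4 → ℂ → ℝ} {ε : OB → ℝ} (hε : ∀ i, 0 < ε i)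
    {B : OB → Fin 4 → ℝ} (hB : ∀ i j z, |g i j z| ≤ B i j)
    (hs : Summable fun i => ε i * ∑ j, B i j) {c c' : OB → Fin 4 → ℝ} {A : ℝ}
    (hc : ∀ i j, |c i j| ≤ A) (hc' : ∀ i j, |c' i j| ≤ A) :
    t9pertQ g ε c - t9pertQ g ε c' = t9pertQ g ε fun i j => c i j - c' i j := by
  funext z
  rw [Pi.sub_apply, t9pertQ, t9pertQ, t9pertQ,
    ← (t9pert_summable hε hB hs hc z).tsum_sub (t9pert_summable hε hB hs hc' z)]
  refine tsum_congr fun i => ?_
  rw [← Finset.sum_sub_distrib]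
  exact Finset.sum_congr rfl fun j _ => by ring

lemma t9pert_clamp (y : ℝ) : |clamp y| ≤ 1 :=
  abs_le.2 ⟨le_max_left _ _, max_le (by norm_num) (min_le_left _ _)⟩

lemma t9pert_clamp_cont : Continuous clamp := by
  unfold clamp
  fun_prop

lemma t9pert_norms (f : ℂ → ℝ) (z : ℂ) : |f z| = ‖iteratedFDeriv ℝ 0 f z‖ ∧
    ‖fderiv ℝ f z‖ = ‖iteratedFDeriv ℝ 1 f z‖ ∧
    ‖fderiv ℝ (fderiv ℝ f) z‖ = ‖iteratedFDeriv ℝ 2 f z‖ := by
  refine ⟨by rw [norm_iteratedFDeriv_zero, Real.norm_eq_abs],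
    (norm_iteratedFDeriv_one f).symm, ?_⟩
  rw [← norm_iteratedFDeriv_one, norm_iteratedFDeriv_fderiv]

/-- The data of the construction. -/
lemma t9pert_data (F : Deck Γ) (k : ℕ) {δ : ℝ} (hδ : 0 < δ) :
    ∃ (ε : OB → ℝ) (B₀ : OB → Fin 4 → ℝ) (B : ℕ → ℕ → OB → Fin 4 → ℝ), (∀ i, 0 < ε i) ∧
      (∀ i j z, |fam Γ i.1 j z| ≤ B₀ i j) ∧ (Summable fun i => ε i * ∑ j, B₀ i j) ∧
      (∀ R m i j, 0 ≤ B R m i j) ∧ (∀ R m, Summable fun i => ε i * ∑ j, B R m i j) ∧
      (∀ m ≤ k, ∑' i, ε i * ∑ j, B k m i j ≤ δ) ∧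
      ∀ (c : OB → Fin 4 → ℝ) (A : ℝ), (∀ i j, |c i j| ≤ A) → ∀ (R : ℕ), ∀ z ∈ KB R,
        ContDiffAt ℝ ∞ (t9pertQ (fun i j => fam Γ i.1 j) ε c) z ∧
        ∀ m, ‖iteratedFDeriv ℝ m (t9pertQ (fun i j => fam Γ i.1 j) ε c) z‖ ≤
          ∑' i, ε i * ∑ j, |c i j| * B R m i j := by
  choose χ hχ1 hχ2 hχ3 hχ4 using t9pert_cut
  have hG : ∀ (R : ℕ) (i : OB) (j : Fin 4), ContDiff ℝ ∞ fun z => χ R z * fam Γ i.1 j z :=
    fun R i j => t9pert_mul (hχ1 R) (hχ3 R) (i.2.pot F j).smooth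
  have hB : ∀ (R m : ℕ) (i : OB) (j : Fin 4), ∃ C, ∀ z,
      ‖iteratedFDeriv ℝ m (fun z => χ R z * fam Γ i.1 j z) z‖ ≤ C := fun R m i j =>
    Continuous.bounded_above_of_compact_support
      ((hG R i j).continuous_iteratedFDeriv (by exact_mod_cast le_top))
      ((hχ2 R).mul_right.iteratedFDeriv m)
  choose B hB using hB
  have hB0 : ∀ R m i j, 0 ≤ B R m i j := fun R m i j => (norm_nonneg _).trans (hB R m i j 0)
  have hS : ∀ (i : OB) (j : Fin 4), ∃ C, ∀ z, |fam Γ i.1 j z| ≤ C := fun i j => by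
    obtain ⟨Λ, -, h, -⟩ := (i.2.pot F j).c2.lip F
    refine ⟨Λ, fun z => ?_⟩
    have e : fam Γ i.1 j z = fam Γ i.1 j ((ofComplex z : ℍ) : ℂ) := by
      simp only [fam, ofComplex_apply]
    rw [e]
    exact h _
  choose B₀ hB₀ using hS
  have hB₀0 : ∀ i j, 0 ≤ B₀ i j := fun i j => (abs_nonneg _).trans (hB₀ i j 0)
  let W : ℕ → OB → ℝ := fun n i => ∑ j, B₀ i j +
    ∑ R ∈ Finset.range (n + k + 1), ∑ m ∈ Finset.range (n + k + 1), ∑ j, B R m i j
  have a0 : ∀ i, 0 ≤ ∑ j, B₀ i j := fun i => Finset.sum_nonneg fun j _ => hB₀0 i j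
  have a1 : ∀ R m i, 0 ≤ ∑ j, B R m i j := fun R m i => Finset.sum_nonneg fun j _ => hB0 R m i j
  have a2 : ∀ n i, 0 ≤ ∑ R ∈ Finset.range n, ∑ m ∈ Finset.range n, ∑ j, B R m i j := fun n i =>
    Finset.sum_nonneg fun R _ => Finset.sum_nonneg fun m _ => a1 R m i
  have a3 : ∀ n R m i, R ≤ n + k → m ≤ n + k → ∑ j, B R m i j ≤ W n i := by
    intro n R m i h1 h2
    have b1 : ∑ j, B R m i j ≤ ∑ m ∈ Finset.range (n + k + 1), ∑ j, B R m i j :=
      Finset.single_le_sum (f := fun m => ∑ j, B R m i j) (fun m _ => a1 R m i)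
        (Finset.mem_range.2 (by omega))
    have b2 : ∑ m ∈ Finset.range (n + k + 1), ∑ j, B R m i j ≤
        ∑ R ∈ Finset.range (n + k + 1), ∑ m ∈ Finset.range (n + k + 1), ∑ j, B R m i j :=
      Finset.single_le_sum (f := fun R => ∑ m ∈ Finset.range (n + k + 1), ∑ j, B R m i j)
        (fun R _ => Finset.sum_nonneg fun m _ => a1 R m i) (Finset.mem_range.2 (by omega))
    have b3 := a0 i
    show _ ≤ _ + _
    linarith
  obtain ⟨ε, hε, hs, hle⟩ := t9pert_weights W (fun n i => add_nonneg (a0 i) (a2 _ i)) hδ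
  have hs' : ∀ R m, Summable fun i => ε i * ∑ j, B R m i j := fun R m =>
    Summable.of_nonneg_of_le (fun i => mul_nonneg (hε i).le (a1 R m i))
      (fun i => mul_le_mul_of_nonneg_left (a3 (R + m) R m i (by omega) (by omega)) (hε i).le)
      (hs (R + m))
  refine ⟨ε, B₀, B, hε, hB₀, ?_, hB0, hs', fun m hm => ?_, fun c A hc R z hz => ?_⟩
  · exact Summable.of_nonneg_of_le (fun i => mul_nonneg (hε i).le (a0 i))
      (fun i => mul_le_mul_of_nonneg_left (le_add_of_nonneg_right (a2 _ i)) (hε i).le) (hs 0)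
  · exact ((hs' k m).tsum_le_tsum (fun i =>
      mul_le_mul_of_nonneg_left (a3 0 k m i (by omega) (by omega)) (hε i).le) (hs 0)).trans hle
  · obtain ⟨h1, h2⟩ := t9pert_glob (hG R) hε (hB0 R) (hB R) (hs' R) hc
    have e : t9pertQ (fun i j => fam Γ i.1 j) ε c =ᶠ[𝓝 z]
        t9pertQ (fun i j z => χ R z * fam Γ i.1 j z) ε c := by
      filter_upwards [hχ4 R z hz] with w hw
      simp only [t9pertQ, hw, Pi.one_apply, one_mul]
    refine ⟨h1.contDiffAt.congr_of_eventuallyEq e, fun m => ?_⟩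
    rw [(e.iteratedFDeriv ℝ m).eq_of_nhds]
    exact h2 m z

end aux

theorem exists_pert (F : Deck Γ) (k : ℕ) {δ : ℝ} (hδ : 0 < δ) : ∃ ε P, Pert Γ ε P ∧
    ∀ (a : Om) (f : ℂ → ℝ), Near k δ f (f + P a) := by
  obtain ⟨ε, B₀, B, hε, hB₀, hs₀, hB0, hs, hk, hQ⟩ := t9pert_data F k hδ
  have hsub : ∀ a a' : Om,
      t9pertQ (fun i j => fam Γ i.1 j) ε (fun i j => clamp (a i j)) -
        t9pertQ (fun i j => fam Γ i.1 j) ε (fun i j => clamp (a' i j)) =
      t9pertQ (fun i j => fam Γ i.1 j) ε fun i j => clamp (a i j) - clamp (a' i j) :=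
    fun a a' => t9pert_sub hε hB₀ hs₀ (fun i j => t9pert_clamp _) fun i j => t9pert_clamp _
  have h2 : ∀ y y' : ℝ, |clamp y - clamp y'| ≤ 2 := fun y y' => by
    have a1 := abs_le.1 (t9pert_clamp y)
    have a2 := abs_le.1 (t9pert_clamp y')
    exact abs_le.2 ⟨by linarith [a1.1, a2.2], by linarith [a1.2, a2.1]⟩
  refine ⟨ε, fun a => t9pertQ (fun i j => fam Γ i.1 j) ε fun i j => clamp (a i j),
    ⟨hε, fun a => ⟨fun z hz => ?_, fun γ z => ?_⟩, fun a as has R η hη => ?_, fun a i y => ?_⟩,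
    fun a f m hm z hz => ?_⟩
  · obtain ⟨R, hR⟩ := exists_nat_ge (dist (⟨z, hz⟩ : ℍ) I)
    exact (hQ _ 1 (fun i j => t9pert_clamp _) R z (mem_KB.2 hR)).1.contDiffWithinAt
  · simp only [t9pertQ, fun (i : OB) (j : Fin 4) => (i.2.pot F j).inv γ z]
  · obtain ⟨R', hR'⟩ := exists_nat_ge R
    have hlim : ∀ m, Tendsto (fun n => ∑' i, ε i * ∑ j, |clamp (as n i j) - clamp (a i j)| *
        B R' m i j) atTop (𝓝 0) := by
      intro m
      have := tendsto_tsum_of_dominated_convergence (𝓕 := atTop)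
        (f := fun n i => ε i * ∑ j, |clamp (as n i j) - clamp (a i j)| * B R' m i j)
        (g := fun _ => (0 : ℝ)) ((hs R' m).mul_left 2) (fun i => ?_)
        (Eventually.of_forall fun n i => ?_)
      · simpa using this
      · have hc : Continuous fun b : Om =>
            ε i * ∑ j, |clamp (b i j) - clamp (a i j)| * B R' m i j := by
          have := t9pert_clamp_cont
          fun_prop
        simpa [Function.comp_def] using (hc.tendsto a).comp has
      · have := t9pert_le (c := fun i j => clamp (as n i j) - clamp (a i j)) hε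
          (fun i j => h2 _ _) (hB0 R' m) i
        rw [Real.norm_of_nonneg this.1]
        exact this.2
    filter_upwards [(hlim 0).eventually (ge_mem_nhds hη), (hlim 1).eventually (ge_mem_nhds hη),
      (hlim 2).eventually (ge_mem_nhds hη)] with n h0 h1 h2' z hz
    have hb := (hQ (fun i j => clamp (as n i j) - clamp (a i j)) 2 (fun i j => h2 _ _) R' z
      (KB_mono hR' hz)).2
    rw [hsub]
    obtain ⟨e0, e1, e2⟩ := t9pert_norms (t9pertQ (fun i j => fam Γ i.1 j) ε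
      fun i j => clamp (as n i j) - clamp (a i j)) z
    rw [e0, e1, e2]
    exact ⟨(hb 0).trans h0, (hb 1).trans h1, (hb 2).trans h2'⟩
  · rw [← sub_eq_iff_eq_add', hsub]
    funext z
    rw [t9pertQ, tsum_eq_single i]
    · simp [clamp, Finset.sum_apply]
    · intro i' hi'
      simp [Function.update, hi']
  · rw [add_sub_cancel_left]
    refine ((hQ _ 1 (fun i j => t9pert_clamp _) k z (mem_KB.2 hz)).2 m).trans
      (le_trans ?_ (hk m hm))
    have hle := fun i => t9pert_le (c := fun i j => clamp (a i j)) hε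
      (fun i j => t9pert_clamp _) (hB0 k m) i
    simp only [one_mul] at hle
    exact (Summable.of_nonneg_of_le (fun i => (hle i).1) (fun i => (hle i).2)
      (hs k m)).tsum_le_tsum (fun i => (hle i).2) (hs k m)

lemma Pot.add {f g : ℂ → ℝ} (hf : Pot Γ f) (hg : Pot Γ g) : Pot Γ (f + g) :=
  ⟨hf.smooth.add hg.smooth, fun γ z => by simp only [Pi.add_apply, hf.inv, hg.inv]⟩

lemma Pot.sub {f g : ℂ → ℝ} (hf : Pot Γ f) (hg : Pot Γ g) : Pot Γ (f - g) :=
  ⟨hf.smooth.sub hg.smooth, fun γ z => by simp only [Pi.sub_apply, hf.inv, hg.inv]⟩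

lemma toZero_of_near {f : ℂ → ℝ} {g : ℕ → ℂ → ℝ} (h : ∀ n, Near n (1 / (n + 1)) f (g n)) :
    ToZero atTop fun n => g n - f := by
  intro R ε hε
  obtain ⟨R', hR'⟩ := exists_nat_ge R
  filter_upwards [tendsto_one_div_add_atTop_nhds_zero_nat.eventually (ge_mem_nhds hε),
    eventually_ge_atTop 2, eventually_ge_atTop R'] with n h1 h2 h3 z hz
  obtain ⟨w, hw, rfl⟩ := hz
  have hw' : dist w I ≤ n := (Metric.mem_closedBall.1 hw).trans
    (hR'.trans (by exact_mod_cast h3))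
  obtain ⟨e0, e1, e2⟩ := t9pert_norms (g n - f) w
  rw [e0, e1, e2]
  exact ⟨(h n 0 (by omega) w hw').trans h1, (h n 1 (by omega) w hw').trans h1,
    (h n 2 h2 w hw').trans h1⟩

end Pool.Agent.Lib.MP_5bb885_an.Gen
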