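import Pool.Agent.Lib.MP_5bb885_an.T9Dom

/-!
Regularity of calibrated curves, first part.
-/

namespace Pool.Agent.Lib.MP_5bb885_an.Gen

open UpperHalfPlane MeasureTheory Filter Topology

variable {Γ : Type} [Group Γ] [MulAction Γ ℍ] {L : ℂ × ℂ → ℝ} {S : Set (ℂ × ℂ → ℝ)}
  {x y : ℝ → ℍ} {u : ℍ → ℝ} {k : ℝ}

/-- A covector that is bounded below by a quadratic function near zero vanishes. -/
lemma t9reg1_lin {A : ℂ →L[ℝ] ℝ} {C δ : ℝ} (hδ : 0 < δ)
    (h : ∀ v : ℂ, ‖v‖ ≤ δ → 0 ≤ A v + C * ‖v‖ ^ 2) : A = 0 := by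
  have h1 : ∀ v : ℂ, 0 ≤ A v := fun v => by
    have h2 : Tendsto (fun t : ℝ => A v + C * ‖v‖ ^ 2 * t) (𝓝[>] 0) (𝓝 (A v + C * ‖v‖ ^ 2 * 0)) :=
      tendsto_nhdsWithin_of_tendsto_nhds (Continuous.tendsto (by fun_prop) 0)
    have h3 : Tendsto (fun t : ℝ => t * ‖v‖) (𝓝[>] 0) (𝓝 (0 * ‖v‖)) :=
      tendsto_nhdsWithin_of_tendsto_nhds (Continuous.tendsto (by fun_prop) 0)
    rw [mul_zero, add_zero] at h2
    refine ge_of_tendsto h2 ?_
    filter_upwards [self_mem_nhdsWithin, h3.eventually_le_const (by simpa using hδ)] with t ht h4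
    have ht' : 0 < t := ht
    have h5 := h (t • v) (by rwa [norm_smul, Real.norm_of_nonneg ht'.le])
    rw [map_smul, norm_smul, Real.norm_of_nonneg ht'.le, smul_eq_mul] at h5
    exact nonneg_of_mul_nonneg_right (by nlinarith) ht'
  ext1 v
  have h2 := h1 (-v)
  rw [map_neg] at h2
  exact le_antisymm (neg_nonneg.1 h2) (h1 v)

lemma t9reg1_hasF {g : ℂ → ℝ} {z : ℂ} {P : ℂ →L[ℝ] ℝ} {C δ : ℝ} (hδ : 0 < δ)
    (h : ∀ h : ℂ, ‖h‖ ≤ δ → |g (z + h) - g z - P h| ≤ C * ‖h‖ ^ 2) : HasFDerivAt g P z := by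
  rw [hasFDerivAt_iff_isLittleO_nhds_zero]
  refine (Asymptotics.IsBigO.of_bound C ?_).trans_isLittleO
    (Asymptotics.isLittleO_norm_pow_id (E' := ℂ) one_lt_two)
  filter_upwards [Metric.closedBall_mem_nhds (0 : ℂ) hδ] with v hv
  rw [Real.norm_eq_abs, Real.norm_of_nonneg (by positivity)]
  exact h v (mem_closedBall_zero_iff.1 hv)

/-- The integrated Euler-Lagrange equation, solved. -/
lemma t9reg1_ode {E : Type} [NormedAddCommGroup E] [NormedSpace ℝ E] [CompleteSpace E]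
    {m f P : ℝ → E} (hm : ∀ a b, IntervalIntegrable m volume a b)
    (hf : ∀ a b, IntervalIntegrable f volume a b)
    (H : ∀ t τ, 0 < τ → τ • P t = ∫ s in (t - τ)..t, (m s + (s - (t - τ)) • f s)) :
    (∀ a t, P t = P a + ∫ s in a..t, f s) ∧ ∀ᵐ t, m t = P t := by
  have hg : ∀ a b, IntervalIntegrable (fun s : ℝ => s • f s) volume a b := fun a b =>
    (hf a b).continuousOn_smul continuousOn_id
  have H' : ∀ a t, a < t → (t - a) • P t =
      (∫ s in a..t, m s) + (∫ s in a..t, s • f s) - a • ∫ s in a..t, f s := fun a t hat => by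
    have h1 := H t (t - a) (sub_pos.2 hat)
    rw [sub_sub_cancel] at h1
    rw [h1, ← intervalIntegral.integral_add (hm a t) (hg a t), ← intervalIntegral.integral_smul,
      ← intervalIntegral.integral_sub (g := fun s => a • f s) ((hm a t).add (hg a t))
        ((hf a t).smul a)]
    congr 1
    funext s
    rw [sub_smul, add_sub_assoc]
  have h1 : ∀ a t, a < t → P t = P a + ∫ s in a..t, f s := fun a t hat => by
    have e1 := H' (a - 1) t (by linarith)
    have e2 := H' a t hat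
    have e3 := H' (a - 1) a (by linarith)
    rw [← intervalIntegral.integral_add_adjacent_intervals (hm (a - 1) a) (hm a t),
      ← intervalIntegral.integral_add_adjacent_intervals (hg (a - 1) a) (hg a t),
      ← intervalIntegral.integral_add_adjacent_intervals (hf (a - 1) a) (hf a t)] at e1
    linear_combination (norm := module) e1 - e2 - e3
  have h2 : ∀ a t, P t = P a + ∫ s in a..t, f s := fun a t => by
    rcases lt_trichotomy a t with c | rfl | c
    · exact h1 a t c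
    · simp
    · rw [h1 t a c, intervalIntegral.integral_symm t a, add_neg_cancel_right]
  have loc : ∀ {g : ℝ → E}, (∀ a b, IntervalIntegrable g volume a b) → LocallyIntegrable g volume :=
    fun hg t => ⟨Set.Ioc (t - 1) (t + 1), Ioc_mem_nhds (by linarith) (by linarith), (hg _ _).1⟩
  refine ⟨h2, ?_⟩
  filter_upwards [LocallyIntegrable.ae_hasDerivAt_integral (loc hm),
    LocallyIntegrable.ae_hasDerivAt_integral (loc hf),
    LocallyIntegrable.ae_hasDerivAt_integral (loc hg)] with t d1 d2 d3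
  have a1 := ((d1 (t - 1)).add (d3 (t - 1))).sub ((d2 (t - 1)).const_smul (t - 1))
  have a2 := ((hasDerivAt_id t).sub_const (t - 1)).smul ((d2 (t - 1)).const_add (P (t - 1)))
  have a3 := a1.unique (a2.congr_of_eventuallyEq (by
    filter_upwards [Ioi_mem_nhds (sub_one_lt t)] with s hs
    have := H' (t - 1) s hs
    rw [h2 (t - 1) s] at this
    exact this.symm))
  rw [← h2 (t - 1) t] at a3
  simp only [id] at a3
  linear_combination (norm := module) a3


/-- Bounds for the jets of a Lipschitz curve. -/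
lemma t9reg1_jet (C R : ℝ) (hC : 0 ≤ C) : ∃ r : ℝ, 0 ≤ r ∧ ∀ x : ℝ → ℍ,
    (∀ s t, dist (x s) (x t) ≤ C * |s - t|) → ∀ s, dist (x s) I ≤ R → ‖vel x s‖ ≤ r ∧
      ∀ t, dist (x t) I ≤ R → ‖(x s : ℂ) - x t‖ ≤ r * |s - t| := by
  obtain ⟨K, hK1, hK⟩ := KB_cmp R
  have hK0 : 0 ≤ K := by linarith
  refine ⟨K * C, by positivity, fun x hx s hs => ⟨?_, fun t ht => ?_⟩⟩
  · have h1 := vel_le_of_lip (Eventually.of_forall fun a => hx a s) hC
    have h2 := (hK _ _ hs hs).2.2.2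
    nlinarith
  · refine (hK _ _ hs ht).2.1.trans ?_
    rw [mul_assoc]
    exact mul_le_mul_of_nonneg_left (hx s t) hK0

lemma t9reg1_ball {C a b : ℝ} (hC : 0 ≤ C) (hx : ∀ s t, dist (x s) (x t) ≤ C * |s - t|) {t s : ℝ}
    (ht : t ∈ Set.Icc a b) (hs : s ∈ Set.Icc a b) : dist (x s) I ≤ dist (x t) I + C * (b - a) := by
  have h1 := dist_triangle (x s) (x t) I
  have h2 : |s - t| ≤ b - a := abs_le.2 ⟨by linarith [hs.1, ht.2], by linarith [hs.2, ht.1]⟩
  linarith [hx s t, mul_le_mul_of_nonneg_left h2 hC]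

lemma t9reg1_int (U : Unif S) (hL : L ∈ S) (hd : Dom L k u) (h : Cal L k u x) (a b : ℝ) :
    IntervalIntegrable (fun s => fderiv ℝ L (jet x s)) volume a b := by
  wlog hab : a ≤ b
  · exact (this U hL hd h b a (le_of_not_ge hab)).symm
  obtain ⟨C, hC, hx⟩ := U.calLip |k|
  replace hx := hx L hL k le_rfl u hd x h
  obtain ⟨r, -, hr⟩ := t9reg1_jet C (dist (x a) I + C * (b - a)) hC
  obtain ⟨M, hM⟩ := U.bd (dist (x a) I + C * (b - a)) r
  have h1 : Measurable (jet x) :=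
    (continuous_coe.comp h.continuous).measurable.prodMk (measurable_deriv _)
  rw [intervalIntegrable_iff_integrableOn_Icc_of_le hab]
  refine ⟨((measurable_fderiv ℝ L).comp h1).aestronglyMeasurable, ?_⟩
  refine HasFiniteIntegral.restrict_of_bounded M (by simp) ?_
  refine (ae_restrict_iff' measurableSet_Icc).2 (Eventually.of_forall fun τ hτ => ?_)
  have h2 := t9reg1_ball hC hx ⟨le_rfl, hab⟩ hτ
  exact (hM L hL _ (mem_KB.2 h2) _ (hr x hx τ h2).1).1

lemma t9reg1_mom (U : Unif S) (hL : L ∈ S) (hd : Dom L k u) (h : Cal L k u x) (a b : ℝ) :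
    IntervalIntegrable (mom L x) volume a b ∧ IntervalIntegrable (frc L x) volume a b := by
  have h1 := t9reg1_int U hL hd h a b
  have h2 : ∀ A : ℂ →L[ℝ] ℂ × ℂ,
      IntervalIntegrable (fun s => (fderiv ℝ L (jet x s)).comp A) volume a b := fun A =>
    ⟨((ContinuousLinearMap.compL ℝ ℂ (ℂ × ℂ) ℝ).flip A).integrable_comp h1.1,
      ((ContinuousLinearMap.compL ℝ ℂ (ℂ × ℂ) ℝ).flip A).integrable_comp h1.2⟩
  exact ⟨h2 _, h2 _⟩

lemma t9reg1_sum (U : Unif S) (hL : L ∈ S) (hd : Dom L k u) (h : Cal L k u x) (a b c : ℝ) :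
    IntervalIntegrable (fun s => mom L x s + (s - c) • frc L x s) volume a b :=
  (t9reg1_mom U hL hd h a b).1.add ((t9reg1_mom U hL hd h a b).2.continuousOn_smul (by fun_prop))


/-- The affine variations of a calibrated curve. -/
lemma t9reg1_var (U : Unif S) (k₀ R W B : ℝ) : ∃ C δ : ℝ, 0 ≤ C ∧ 0 < δ ∧ ∀ L ∈ S, ∀ k, |k| ≤ k₀ →
    ∀ u, Dom L k u → ∀ x, Cal L k u x → ∀ a b c β : ℝ, a < b → b - a ≤ W → |β| ≤ B →
      (∀ s ∈ Set.Icc a b, dist (x s) I ≤ R ∧ |β * (s - c)| ≤ 1) → ∀ h : ℂ, ‖h‖ ≤ δ →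
      u (ofComplex (x b + (β * (b - c)) • h)) - u (ofComplex (x a + (β * (a - c)) • h)) -
        (u (x b) - u (x a)) ≤
      β * (∫ s in a..b, (mom L x s + (s - c) • frc L x s)) h + C * ‖h‖ ^ 2 := by
  obtain ⟨C₁, hC₁, hlip⟩ := U.calLip k₀
  obtain ⟨r, hr0, hr⟩ := t9reg1_jet C₁ R hC₁
  obtain ⟨δ₁, hδ₁, hth⟩ := KB_thick R
  obtain ⟨M, hM0, hM⟩ := U.taylor (R + 1) (r + |B|)
  refine ⟨M * (1 + |B|) ^ 2 * |W|, min δ₁ 1, by positivity, by positivity,
    fun L hL k hk u hd x hx a b c β hab hW hβ hs h hh => ?_⟩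
  have hx1 := hlip L hL k hk u hd x hx
  have hβ' : |β| ≤ |B| := hβ.trans (le_abs_self B)
  have hh1 : ‖h‖ ≤ 1 := hh.trans (min_le_right _ _)
  set y : ℝ → ℂ := fun s => x s + (β * (s - c)) • h with hy
  have n1 : ∀ s ∈ Set.Icc a b, ‖(β * (s - c)) • h‖ ≤ ‖h‖ := fun s hs' => by
    rw [norm_smul]
    exact mul_le_of_le_one_left (norm_nonneg _) (hs s hs').2
  have n2 : ‖β • h‖ ≤ |B| * ‖h‖ := by
    rw [norm_smul]
    exact mul_le_mul_of_nonneg_right hβ' (norm_nonneg _)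
  have hyK : ∀ s ∈ Set.Icc a b, y s ∈ KB (R + 1) := fun s hs' =>
    hth _ (mem_KB.2 (hs s hs').1) _ ((n1 s hs').trans (hh.trans (min_le_left _ _)))
  obtain ⟨hA, hj⟩ := adm_lipC (U.smooth L hL).continuousOn hab (y := y) (C := r + ‖β • h‖)
    (fun s hs' t ht' => by
      have e : y s - y t = ((x s : ℂ) - x t) + (s - t) • β • h := by
        simp only [hy]
        module
      rw [e, add_mul]
      refine (norm_add_le _ _).trans (add_le_add ((hr x hx1 s (hs s hs').1).2 t (hs t ht').1) ?_)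
      rw [norm_smul, mul_comm, Real.norm_eq_abs])
    fun s hs' => KB_sub _ (hyK s hs')
  have h1 := hd _ a b hA
  obtain ⟨hA0, h2⟩ := hx a b hab
  have hI := t9reg1_sum U hL hd hx a b c
  have hI' : IntervalIntegrable (fun s => (mom L x s + (s - c) • frc L x s) h) volume a b :=
    ⟨(ContinuousLinearMap.apply ℝ ℝ h).integrable_comp hI.1,
      (ContinuousLinearMap.apply ℝ ℝ h).integrable_comp hI.2⟩
  have i1 : IntervalIntegrable (fun s => L (jet x s) + k) volume a b :=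
    hA0.2.2.add intervalIntegrable_const
  have h3 : ac L k (fun τ => ofComplex (y τ)) a b ≤ ∫ s in a..b, (L (jet x s) + k +
      β * (mom L x s + (s - c) • frc L x s) h + M * (1 + |B|) ^ 2 * ‖h‖ ^ 2) := by
    refine intervalIntegral.integral_mono_ae_restrict hab.le (hA.2.2.add intervalIntegrable_const)
      ((i1.add (hI'.const_mul β)).add intervalIntegrable_const) ?_
    rw [← Measure.restrict_congr_set Ioo_ae_eq_Icc]
    refine (ae_restrict_iff' measurableSet_Ioo).2 ?_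
    filter_upwards [hA0.ae_diff] with s hd' hs'
    have hs'' := Set.Ioo_subset_Icc_self hs'
    have d1 : HasDerivAt y (vel x s + β • h) s := by
      have := (hd' hs'').add ((((hasDerivAt_id s).sub_const c).const_mul β).smul_const h)
      rw [mul_one] at this
      exact this
    have v1 := (hr x hx1 s (hs s hs'').1).1
    have e : ((y s, vel x s + β • h) : ℂ × ℂ) - jet x s = ((β * (s - c)) • h, β • h) := by
      simp [jet, hy]
    have t1 := (hM L hL (jet x s) (y s, vel x s + β • h)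
      (KB_mono (by linarith) (mem_KB.2 (hs s hs'').1)) (hyK s hs'')
      (v1.trans (le_add_of_nonneg_right (abs_nonneg B)))
      ((norm_add_le _ _).trans (add_le_add v1 (n2.trans
        (mul_le_of_le_one_right (abs_nonneg B) hh1))))).2.2.2.1
    rw [e] at t1
    have e2 : fderiv ℝ L (jet x s) ((β * (s - c)) • h, β • h) =
        β * (mom L x s + (s - c) • frc L x s) h := by
      have : (((β * (s - c)) • h, β • h) : ℂ × ℂ) =
          β • (((0, h) : ℂ × ℂ) + (s - c) • ((h, 0) : ℂ × ℂ)) := by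
        simp [mul_smul]
      rw [this, map_smul, map_add, map_smul]
      rfl
    have n3 : ‖(((β * (s - c)) • h, β • h) : ℂ × ℂ)‖ ≤ (1 + |B|) * ‖h‖ := by
      have := mul_nonneg (abs_nonneg B) (norm_nonneg h)
      refine norm_prod_le_iff.2 ⟨(n1 s hs'').trans ?_, n2.trans ?_⟩
      · linarith
      · linarith [norm_nonneg h]
    have n4 := mul_le_mul_of_nonneg_left (pow_le_pow_left₀ (norm_nonneg _) n3 2) hM0
    rw [e2] at t1
    simp only [hj s hs', d1.deriv]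
    have := (abs_le.1 t1).2
    rw [mul_pow, ← mul_assoc] at n4
    linarith
  rw [intervalIntegral.integral_add (i1.add (hI'.const_mul β)) intervalIntegrable_const,
    intervalIntegral.integral_add i1 (hI'.const_mul β), intervalIntegral.integral_const_mul,
    intervalIntegral.integral_const, ← ContinuousLinearMap.intervalIntegral_apply hI,
    smul_eq_mul] at h3
  have h4 : (b - a) * (M * (1 + |B|) ^ 2 * ‖h‖ ^ 2) ≤ |W| * (M * (1 + |B|) ^ 2 * ‖h‖ ^ 2) :=
    mul_le_mul_of_nonneg_right (hW.trans (le_abs_self W)) (by positivity)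
  unfold ac at h2
  linarith


lemma t9reg1_up (U : Unif S) (k₀ R : ℝ) {τ : ℝ} (hτ : 0 < τ) : ∃ C δ : ℝ, 0 ≤ C ∧ 0 < δ ∧
    ∀ L ∈ S, ∀ k, |k| ≤ k₀ → ∀ u, Dom L k u → ∀ x, Cal L k u x → ∀ t, dist (x t) I ≤ R →
      ∀ h : ℂ, ‖h‖ ≤ δ → u (ofComplex (x t + h)) - u (x t) ≤
        τ⁻¹ * (∫ s in (t - τ)..t, (mom L x s + (s - (t - τ)) • frc L x s)) h + C * ‖h‖ ^ 2 := by
  obtain ⟨C₁, hC₁, hlip⟩ := U.calLip k₀
  obtain ⟨C, δ, hC, hδ, H⟩ := t9reg1_var U k₀ (R + C₁ * τ) τ |τ⁻¹|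
  refine ⟨C, δ, hC, hδ, fun L hL k hk u hd x hx t ht h hh => ?_⟩
  have h1 := H L hL k hk u hd x hx (t - τ) t (t - τ) τ⁻¹ (by linarith) (by linarith) le_rfl
    (fun s hs => ⟨by
      have := t9reg1_ball hC₁ (hlip L hL k hk u hd x hx) ⟨by linarith, le_rfl⟩ hs
      rw [sub_sub_cancel] at this
      linarith, by
      rw [abs_of_nonneg (mul_nonneg (inv_nonneg.2 hτ.le) (sub_nonneg.2 hs.1)), inv_mul_le_one₀ hτ]
      linarith [hs.2]⟩) h hh
  rw [sub_sub_cancel, inv_mul_cancel₀ hτ.ne', one_smul, sub_self, mul_zero, zero_smul, add_zero,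
    ofComplex_apply] at h1
  linarith

lemma t9reg1_lo (U : Unif S) (k₀ R : ℝ) : ∃ C δ : ℝ, 0 ≤ C ∧ 0 < δ ∧
    ∀ L ∈ S, ∀ k, |k| ≤ k₀ → ∀ u, Dom L k u → ∀ x, Cal L k u x → ∀ t, dist (x t) I ≤ R →
      ∃ P : ℂ →L[ℝ] ℝ, ∀ h : ℂ, ‖h‖ ≤ δ → P h - C * ‖h‖ ^ 2 ≤ u (ofComplex (x t + h)) - u (x t) := by
  obtain ⟨C₁, hC₁, hlip⟩ := U.calLip k₀
  obtain ⟨C, δ, hC, hδ, H⟩ := t9reg1_var U k₀ (R + C₁) 1 |-1|
  refine ⟨C, δ, hC, hδ, fun L hL k hk u hd x hx t ht =>
    ⟨∫ s in t..t + 1, (mom L x s + (s - (t + 1)) • frc L x s), fun h hh => ?_⟩⟩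
  have h1 := H L hL k hk u hd x hx t (t + 1) (t + 1) (-1) (by linarith) (by linarith) le_rfl
    (fun s hs => ⟨by
      have := t9reg1_ball hC₁ (hlip L hL k hk u hd x hx) ⟨le_rfl, by linarith⟩ hs
      rw [add_sub_cancel_left, mul_one] at this
      linarith, abs_le.2 ⟨by linarith [hs.2], by linarith [hs.1]⟩⟩) h hh
  rw [sub_self, mul_zero, zero_smul, add_zero, ofComplex_apply,
    show (-1 : ℝ) * (t - (t + 1)) = 1 by ring, one_smul] at h1
  linarith

/-- The two-sided estimate with an unspecified covector `P`, and the integrated form of the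
Euler-Lagrange equation. -/
lemma Unif.two0 (U : Unif S) (k₀ R : ℝ) : ∃ C δ : ℝ, 0 ≤ C ∧ 0 < δ ∧ ∀ L ∈ S, ∀ k, |k| ≤ k₀ →
    ∀ u, Dom L k u → ∀ x, Cal L k u x → ∀ t, dist (x t) I ≤ R → ∃ P : ℂ →L[ℝ] ℝ,
      (∀ h : ℂ, ‖h‖ ≤ δ → |u (ofComplex (x t + h)) - u (x t) - P h| ≤ C * ‖h‖ ^ 2) ∧
      ∀ τ, 0 < τ → IntervalIntegrable (mom L x) volume (t - τ) t ∧
        IntervalIntegrable (frc L x) volume (t - τ) t ∧
        τ • P = ∫ s in (t - τ)..t, (mom L x s + (s - (t - τ)) • frc L x s) := by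
  obtain ⟨C₁, δ₁, hC₁, hδ₁, H₁⟩ := t9reg1_lo U k₀ R
  obtain ⟨C₂, δ₂, hC₂, hδ₂, H₂⟩ := t9reg1_up U k₀ R one_pos
  refine ⟨C₁ + C₂, min δ₁ δ₂, by positivity, by positivity, fun L hL k hk u hd x hx t ht => ?_⟩
  obtain ⟨P, hP⟩ := H₁ L hL k hk u hd x hx t ht
  have key : ∀ τ, 0 < τ →
      τ • P = ∫ s in (t - τ)..t, (mom L x s + (s - (t - τ)) • frc L x s) := fun τ hτ => by
    obtain ⟨C₃, δ₃, -, hδ₃, H₃⟩ := t9reg1_up U k₀ R hτ
    have h1 := t9reg1_lin (C := C₁ + C₃) (lt_min hδ₁ hδ₃)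
      (A := τ⁻¹ • (∫ s in (t - τ)..t, (mom L x s + (s - (t - τ)) • frc L x s)) - P) fun v hv => by
        have a1 := hP v (hv.trans (min_le_left _ _))
        have a2 := H₃ L hL k hk u hd x hx t ht v (hv.trans (min_le_right _ _))
        rw [sub_apply, smul_apply, smul_eq_mul]
        linarith
    rw [← sub_eq_zero.1 h1, smul_smul, mul_inv_cancel₀ hτ.ne', one_smul]
  refine ⟨P, fun h hh => ?_, fun τ hτ => ⟨(t9reg1_mom U hL hd hx _ _).1,
    (t9reg1_mom U hL hd hx _ _).2, key τ hτ⟩⟩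
  have a1 := hP h (hh.trans (min_le_left _ _))
  have a2 := H₂ L hL k hk u hd x hx t ht h (hh.trans (min_le_right _ _))
  rw [← key 1 one_pos, one_smul, inv_one, one_mul] at a2
  have a3 := mul_nonneg hC₁ (sq_nonneg ‖h‖)
  have a4 := mul_nonneg hC₂ (sq_nonneg ‖h‖)
  exact abs_le.2 ⟨by linarith, by linarith⟩

/-- A function with two-sided quadratic estimates has a Lipschitz differential. -/
lemma lip_of_two {g : ℂ → ℝ} {z w : ℂ} {P Q : ℂ →L[ℝ] ℝ} {C δ : ℝ} (hC : 0 ≤ C) (hδ : 0 < δ)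
    (h1 : ∀ h : ℂ, ‖h‖ ≤ δ → |g (z + h) - g z - P h| ≤ C * ‖h‖ ^ 2)
    (h2 : ∀ h : ℂ, ‖h‖ ≤ δ → |g (w + h) - g w - Q h| ≤ C * ‖h‖ ^ 2) (h : 2 * ‖z - w‖ ≤ δ) :
    ‖P - Q‖ ≤ 6 * C * ‖z - w‖ := by
  rcases eq_or_ne z w with rfl | hne
  · rw [(t9reg1_hasF hδ h1).unique (t9reg1_hasF hδ h2)]
    simp
  have hd : 0 < ‖z - w‖ := norm_pos_iff.2 (sub_ne_zero.2 hne)
  refine ContinuousLinearMap.opNorm_le_of_unit_norm (by positivity) fun e he => ?_
  set d := ‖z - w‖ with hd'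
  have n0 : ‖d • e‖ = d := by rw [norm_smul, he, mul_one, Real.norm_of_nonneg hd.le]
  have n1 : ‖z - w + d • e‖ ≤ 2 * d := (norm_add_le _ _).trans (by linarith)
  have n2 : ‖z - w - d • e‖ ≤ 2 * d := (norm_sub_le _ _).trans (by linarith)
  have a1 := abs_le.1 (h1 (d • e) (by linarith))
  have a2 := abs_le.1 (h1 (-(d • e)) (by rw [norm_neg]; linarith))
  have a3 := abs_le.1 (h2 _ (n1.trans h))
  have a4 := abs_le.1 (h2 _ (n2.trans h))
  have b3 := mul_le_mul_of_nonneg_left (pow_le_pow_left₀ (norm_nonneg _) n1 2) hC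
  have b4 := mul_le_mul_of_nonneg_left (pow_le_pow_left₀ (norm_nonneg _) n2 2) hC
  rw [show w + (z - w + d • e) = z + d • e by ring] at a3
  rw [show w + (z - w - d • e) = z + -(d • e) by ring] at a4
  rw [norm_neg] at a2
  rw [n0] at a1 a2
  simp only [map_add, map_neg, map_smul, smul_eq_mul] at a1 a2 a3
  rw [map_sub Q _ (d • e), map_smul, smul_eq_mul] at a4
  have c0 : 0 ≤ C * d ^ 2 := by positivity
  rw [Real.norm_eq_abs, sub_apply, abs_le]
  constructor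
  · refine le_of_mul_le_mul_left ?_ hd
    linarith [a1.1, a1.2, a2.1, a2.2, a3.1, a3.2, a4.1, a4.2]
  · refine le_of_mul_le_mul_left ?_ hd
    linarith [a1.1, a1.2, a2.1, a2.2, a3.1, a3.2, a4.1, a4.2]

/-- The velocity is controlled by the momentum and the position. -/
lemma t9reg1_vel (U : Unif S) (R r : ℝ) : ∃ C : ℝ, 0 ≤ C ∧ ∀ L ∈ S, ∀ z ∈ KB R, ∀ w ∈ KB R,
    ∀ v v' : ℂ, ‖v‖ ≤ r → ‖v'‖ ≤ r → ‖v - v'‖ ≤
      C * (‖Dv (fderiv ℝ L (z, v)) - Dv (fderiv ℝ L (w, v'))‖ + ‖z - w‖) := by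
  obtain ⟨m, hm, H⟩ := U.strong R r
  obtain ⟨M, hM, H'⟩ := U.taylor R r
  refine ⟨(1 + M) / m, by positivity, fun L hL z hz w hw v v' hv hv' => ?_⟩
  rcases (norm_nonneg (v - v')).eq_or_lt with h0 | h0
  · rw [← h0]
    positivity
  have a1 := H L hL z hz v v' hv hv'
  have a2 := (H' L hL (z, v') (w, v') hz hw hv' hv').2.2.2.2
  have a3 := (fderiv ℝ L (w, v') - fderiv ℝ L (z, v')).le_of_opNorm_le a2 (0, v - v')
  have a4 := (Dv (fderiv ℝ L (z, v)) - Dv (fderiv ℝ L (w, v'))).le_opNorm (v - v')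
  have e1 : ‖((w, v') : ℂ × ℂ) - (z, v')‖ = ‖z - w‖ := by simp [norm_sub_rev]
  have e2 : ‖((0, v - v') : ℂ × ℂ)‖ = ‖v - v'‖ := by simp
  have e3 : (Dv (fderiv ℝ L (z, v)) - Dv (fderiv ℝ L (w, v'))) (v - v') =
      fderiv ℝ L (z, v) (0, v - v') - fderiv ℝ L (w, v') (0, v - v') := rfl
  rw [e1, e2, sub_apply, Real.norm_eq_abs] at a3
  rw [e3, Real.norm_eq_abs] at a4
  rw [div_mul_eq_mul_div, le_div_iff₀ hm]
  refine le_of_mul_le_mul_right ?_ h0
  have b1 := mul_nonneg (norm_nonneg (z - w)) h0.le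
  have b2 := mul_nonneg hM (mul_nonneg
    (norm_nonneg (Dv (fderiv ℝ L (z, v)) - Dv (fderiv ℝ L (w, v')))) h0.le)
  linarith [(abs_le.1 a3).2, (abs_le.1 a4).2]

/-- Calibrated curves are continuously differentiable, and the momentum is the differential of
`u`. -/
theorem Cal.c1 (U : Unif S) (hL : L ∈ S) (hd : Dom L k u) (h : Cal L k u x) :
    (∀ t, HasDerivAt (fun s => (x s : ℂ)) (vel x t) t) ∧ Continuous (vel x) ∧
    (∀ t, HasFDerivAt (fun w : ℂ => u (ofComplex w)) (mom L x t) (x t)) ∧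
    ∀ t, HasDerivAt (mom L x) (frc L x t) t := by
  have h0 : ∀ t, ∃ P : ℂ →L[ℝ] ℝ, HasFDerivAt (fun w : ℂ => u (ofComplex w)) P (x t) ∧
      ∀ τ, 0 < τ → τ • P = ∫ s in (t - τ)..t, (mom L x s + (s - (t - τ)) • frc L x s) := fun t => by
    obtain ⟨C, δ, -, hδ, H⟩ := U.two0 |k| (dist (x t) I)
    obtain ⟨P, h1, h2⟩ := H L hL k le_rfl u hd x h t le_rfl
    exact ⟨P, t9reg1_hasF hδ (by simpa only [ofComplex_apply] using h1),
      fun τ hτ => (h2 τ hτ).2.2⟩
  choose P hP hP' using h0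
  have hf := fun a b => (t9reg1_mom U hL hd h a b).2
  obtain ⟨o1, o2⟩ := t9reg1_ode (fun a b => (t9reg1_mom U hL hd h a b).1) hf hP'
  obtain ⟨C, hC, hx⟩ := U.calLip |k|
  replace hx := hx L hL k le_rfl u hd x h
  have key : ∀ t, HasDerivAt (fun s => (x s : ℂ)) (vel x t) t ∧ ContinuousAt (vel x) t := by
    intro t
    set R := dist (x t) I + C * (t + 1 - (t - 1)) with hR
    have hb : ∀ s ∈ Set.Icc (t - 1) (t + 1), dist (x s) I ≤ R := fun s hs =>
      t9reg1_ball hC hx ⟨by linarith, by linarith⟩ hs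
    obtain ⟨r, hr0, hr⟩ := t9reg1_jet C R hC
    obtain ⟨M, hM0, hM⟩ := U.taylor R r
    obtain ⟨K, hK0, hK⟩ := t9reg1_vel U R r
    have hfr : ∀ s ∈ Set.Icc (t - 1) (t + 1), ‖frc L x s‖ ≤ M := fun s hs => by
      have a1 := (hM L hL (jet x s) (jet x s) (mem_KB.2 (hb s hs)) (mem_KB.2 (hb s hs))
        (hr x hx s (hb s hs)).1 (hr x hx s (hb s hs)).1).2.1
      refine ContinuousLinearMap.opNorm_le_bound _ hM0 fun v => ?_
      have a2 := (fderiv ℝ L (jet x s)).le_of_opNorm_le a1 (v, 0)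
      have e : ‖((v, 0) : ℂ × ℂ)‖ = ‖v‖ := by simp
      rw [e] at a2
      exact a2
    have hl : LipschitzOnWith ⟨K * (M + r), by positivity⟩ (vel x)
        (Set.Icc (t - 1) (t + 1) ∩ {s | mom L x s = P s}) := by
      refine LipschitzOnWith.of_dist_le_mul fun s hs s' hs' => ?_
      have a1 := hK L hL _ (mem_KB.2 (hb s hs.1)) _ (mem_KB.2 (hb s' hs'.1)) _ _
        (hr x hx s (hb s hs.1)).1 (hr x hx s' (hb s' hs'.1)).1
      have a2 : ‖mom L x s - mom L x s'‖ ≤ M * |s - s'| := by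
        rw [hs.2, hs'.2, o1 s' s, add_sub_cancel_left]
        exact intervalIntegral.norm_integral_le_of_norm_le_const fun a ha =>
          hfr a (Set.uIcc_subset_Icc hs'.1 hs.1 (Set.uIoc_subset_uIcc ha))
      have a3 := (hr x hx s (hb s hs.1)).2 s' (hb s' hs'.1)
      rw [dist_eq_norm, Real.dist_eq]
      refine a1.trans ?_
      change K * (‖mom L x s - mom L x s'‖ + _) ≤ K * (M + r) * _
      rw [mul_assoc, add_mul]
      exact mul_le_mul_of_nonneg_left (add_le_add a2 a3) hK0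
    obtain ⟨g, hg, hg'⟩ := hl.extend_finite_dimension
    have hder : ∀ s ∈ Set.Ioo (t - 1) (t + 1), HasDerivAt (fun s => (x s : ℂ)) (g s) s := by
      intro s hs
      have a1 := ((hg.continuous.integral_hasStrictDerivAt (t - 1) s).hasDerivAt).const_add
        (x (t - 1) : ℂ)
      refine a1.congr_of_eventuallyEq ?_
      filter_upwards [Ioo_mem_nhds hs.1 hs.2] with s' hs'
      have a2 := (h (t - 1) s' hs'.1).1.ftc.2
      rw [intervalIntegral.integral_congr_ae (g := g)] at a2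
      · rw [a2, add_sub_cancel]
      · filter_upwards [o2] with a ha ha'
        rw [Set.uIoc_of_le hs'.1.le] at ha'
        exact hg' ⟨⟨ha'.1.le, ha'.2.trans hs'.2.le⟩, ha⟩
    have ht : t ∈ Set.Ioo (t - 1) (t + 1) := ⟨by linarith, by linarith⟩
    refine ⟨(hder t ht).differentiableAt.hasDerivAt, hg.continuous.continuousAt.congr ?_⟩
    filter_upwards [Ioo_mem_nhds ht.1 ht.2] with s hs
    exact (hder s hs).deriv.symm
  have hv : Continuous (vel x) := continuous_iff_continuousAt.2 fun t => (key t).2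
  have hj : Continuous fun s => fderiv ℝ L (jet x s) :=
    (t9tay_cont isOpen_TH (U.smooth L hL)).2.1.comp_continuous
      ((continuous_coe.comp h.continuous).prodMk hv) (jet_mem x)
  have hm : Continuous (mom L x) := hj.clm_comp continuous_const
  have hfc : Continuous (frc L x) := hj.clm_comp continuous_const
  have hPd : ∀ t, HasDerivAt P (frc L x t) t := fun t => by
    have e : P = fun t => P 0 + ∫ s in (0 : ℝ)..t, frc L x s := funext (o1 0)
    rw [e]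
    exact ((hfc.integral_hasStrictDerivAt 0 t).hasDerivAt).const_add _
  have e : mom L x = P := (hm.ae_eq_iff_eq volume
    (continuous_iff_continuousAt.2 fun t => (hPd t).continuousAt)).1 o2
  rw [e]
  exact ⟨fun t => (key t).1, hv, hP, hPd⟩

theorem Unif.two (U : Unif S) (k₀ R : ℝ) : ∃ C δ : ℝ, 0 ≤ C ∧ 0 < δ ∧ ∀ L ∈ S, ∀ k, |k| ≤ k₀ →
    ∀ u, Dom L k u → ∀ x, Cal L k u x → ∀ t, dist (x t) I ≤ R → ∀ h : ℂ, ‖h‖ ≤ δ →
      |u (ofComplex (x t + h)) - u (x t) - mom L x t h| ≤ C * ‖h‖ ^ 2 := by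
  obtain ⟨C, δ, hC, hδ, H⟩ := U.two0 k₀ R
  refine ⟨C, δ, hC, hδ, fun L hL k hk u hd x hx t ht => ?_⟩
  obtain ⟨P, h1, -⟩ := H L hL k hk u hd x hx t ht
  have h2 : HasFDerivAt (fun w : ℂ => u (ofComplex w)) P (x t) :=
    t9reg1_hasF hδ (by simpa only [ofComplex_apply] using h1)
  rwa [((Cal.c1 U hL hd hx).2.2.1 t).unique h2]

end Pool.Agent.Lib.MP_5bb885_an.Gen
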