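import Pool.Agent.Lib.MP_5bb885_an.T9Reg1

/-!
Regularity of calibrated curves, second part.
-/

namespace Pool.Agent.Lib.MP_5bb885_an.Gen

open UpperHalfPlane MeasureTheory Filter Topology

variable {Γ : Type} [Group Γ] [MulAction Γ ℍ] {L : ℂ × ℂ → ℝ} {S : Set (ℂ × ℂ → ℝ)}
  {x y : ℝ → ℍ} {u : ℍ → ℝ} {k : ℝ}

lemma Reg.hasDerivAt (h : Reg L x) (t : ℝ) : HasDerivAt (fun s => (x s : ℂ)) (vel x t) t := by
  exact (h.el t).1.hasDerivAt

lemma Reg.continuous (h : Reg L x) : Continuous x := by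
  rw [isEmbedding_coe.continuous_iff]
  exact continuous_iff_continuousAt.2 fun t => (h.el t).1.continuousAt

lemma Reg.contVel (h : Reg L x) : Continuous (vel x) := by
  exact continuous_iff_continuousAt.2 fun t => (h.acc t).continuousAt

lemma Reg.contJet (h : Reg L x) : Continuous (jet x) := by
  exact (continuous_coe.comp h.continuous).prodMk h.contVel

lemma Reg.hasDerivAt_mom (h : Reg L x) (t : ℝ) : HasDerivAt (mom L x) (frc L x t) t := by
  exact (h.el t).2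

lemma t9reg2_mem (x : ℝ → ℍ) (t : ℝ) : jet x t ∈ TH := (x t).im_pos

lemma t9reg2_frc (hL : ContDiffOn ℝ 2 L TH) (h : Continuous (jet x)) : Continuous (frc L x) := by
  have h1 : Continuous fun t => fderiv ℝ L (jet x t) :=
    (t9tay_cont isOpen_TH hL).2.1.comp_continuous h (t9reg2_mem x)
  exact h1.clm_comp continuous_const

lemma Reg.contFrc (hL : ContDiffOn ℝ 2 L TH) (h : Reg L x) : Continuous (frc L x) := by
  exact t9reg2_frc hL h.contJet

lemma Reg.coef (hL : Tonelli Γ L) (h : Reg L x) : Coef fun t => D2 L (jet x t) := by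
  exact ⟨(continuousOn_D2 hL.smooth).comp_continuous h.contJet (t9reg2_mem x),
    fun t w hw => hL.convex _ (t9reg2_mem x t) w hw⟩

lemma Reg.adm (hL : ContDiffOn ℝ 2 L TH) (h : Reg L x) {s t : ℝ} (hst : s < t) : Adm L x s t := by
  have h1 := (adm_C1 (L := L) hL.continuousOn hst (y := fun τ => (x τ : ℂ)) (y' := vel x)
    (fun τ _ => h.hasDerivAt τ) h.contVel.continuousOn (fun a _ => (x a).im_pos)).1
  simpa only [ofComplex_apply] using h1

/-- The velocity part of a covector, as a continuous linear map. -/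
noncomputable def t9reg2Dv : (ℂ × ℂ →L[ℝ] ℝ) →L[ℝ] ℂ →L[ℝ] ℝ :=
  (ContinuousLinearMap.compL ℝ ℂ (ℂ × ℂ) ℝ).flip (ContinuousLinearMap.inr ℝ ℂ ℂ)

lemma t9reg2_dv (A : ℂ × ℂ →L[ℝ] ℝ) : t9reg2Dv A = Dv A := rfl

lemma t9reg2_equiv (A : ℂ × ℂ →L[ℝ] ℂ × ℂ →L[ℝ] ℝ) (hA : ∀ w : ℂ, w ≠ 0 → 0 < A (0, w) (0, w)) :
    ∃ e : (ℂ × ℂ) ≃L[ℝ] ℂ × (ℂ →L[ℝ] ℝ),
      (e : ℂ × ℂ →L[ℝ] ℂ × (ℂ →L[ℝ] ℝ)) = (ContinuousLinearMap.fst ℝ ℂ ℂ).prod (t9reg2Dv.comp A) := by
  have h1 : Function.Injective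
      (((ContinuousLinearMap.fst ℝ ℂ ℂ).prod (t9reg2Dv.comp A) : ℂ × ℂ →L[ℝ] ℂ × (ℂ →L[ℝ] ℝ)) :
        ℂ × ℂ →ₗ[ℝ] ℂ × (ℂ →L[ℝ] ℝ)) := by
    rw [injective_iff_map_eq_zero]
    rintro ⟨a, w⟩ h
    have h2 : a = 0 := congrArg Prod.fst h
    subst h2
    have h3 : Dv (A (0, w)) = 0 := congrArg Prod.snd h
    have h4 : A (0, w) (0, w) = 0 := congrArg (fun B : ℂ →L[ℝ] ℝ => B w) h3
    by_contra hw
    have h5 : w ≠ 0 := fun e => hw (by rw [e]; rfl)
    exact (hA w h5).ne' h4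
  have h2 : Module.finrank ℝ (ℂ × ℂ) = Module.finrank ℝ (ℂ × (ℂ →L[ℝ] ℝ)) := by
    rw [Module.finrank_prod, Module.finrank_prod,
      ← (LinearMap.toContinuousLinearMap : (ℂ →ₗ[ℝ] ℝ) ≃ₗ[ℝ] ℂ →L[ℝ] ℝ).finrank_eq,
      Module.finrank_linearMap]
    simp
  exact ⟨(LinearMap.linearEquivOfInjective _ h1 h2).toContinuousLinearEquiv, by ext <;> rfl⟩

theorem Cal.reg (U : Unif S) (hL : L ∈ S) (hd : Dom L k u) (h : Cal L k u x) : Reg L x := by
  obtain ⟨h1, h2, -, h4⟩ := h.c1 U hL hd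
  have hs := U.smooth L hL
  have hx : Continuous fun s => (x s : ℂ) := continuous_iff_continuousAt.2 fun t =>
    (h1 t).continuousAt
  have hj : Continuous (jet x) := hx.prodMk h2
  have hf := t9reg2_frc hs hj
  have hc : ContDiff ℝ 1 fun s => (((x s : ℂ), mom L x s) : ℂ × (ℂ →L[ℝ] ℝ)) := by
    refine ContDiff.prodMk ?_ ?_
    · refine contDiff_one_iff_deriv.2 ⟨fun t => (h1 t).differentiableAt, h2⟩
    · refine contDiff_one_iff_deriv.2 ⟨fun t => (h4 t).differentiableAt, ?_⟩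
      have : deriv (mom L x) = frc L x := funext fun t => (h4 t).deriv
      rwa [this]
  have hv : ContDiff ℝ 1 (vel x) := by
    refine contDiff_iff_contDiffAt.2 fun t => ?_
    obtain ⟨m, hm, H⟩ := U.cvx (dist (x t) I) ‖vel x t‖
    obtain ⟨e, he⟩ := t9reg2_equiv (D2 L (jet x t)) fun w hw =>
      lt_of_lt_of_le (by positivity) (H L hL (x t) (mem_KB.2 le_rfl) _ le_rfl w)
    have g1 : ContDiffAt ℝ 1 (fun p : ℂ × ℂ => (p.1, t9reg2Dv (fderiv ℝ L p))) (jet x t) := by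
      refine contDiffAt_fst.prodMk (t9reg2Dv.contDiff.contDiffAt.comp _ ?_)
      exact (hs.contDiffAt (isOpen_TH.mem_nhds (t9reg2_mem x t))).fderiv_right (by norm_num)
    have g2 : HasFDerivAt (fun p : ℂ × ℂ => (p.1, t9reg2Dv (fderiv ℝ L p)))
        (e : ℂ × ℂ →L[ℝ] ℂ × (ℂ →L[ℝ] ℝ)) (jet x t) := by
      rw [he]
      exact hasFDerivAt_fst.prodMk
        (t9reg2Dv.hasFDerivAt.comp _ (hasFDerivAt_L hs (t9reg2_mem x t)).2)
    have g3 := g1.to_localInverse g2 one_ne_zero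
    have g4 : ∀ᶠ p in 𝓝 (jet x t),
        g1.localInverse g2 one_ne_zero (p.1, t9reg2Dv (fderiv ℝ L p)) = p :=
      (g1.hasStrictFDerivAt' g2 one_ne_zero).eventually_left_inverse
    have g5 : vel x =ᶠ[𝓝 t] fun s => (g1.localInverse g2 one_ne_zero (x s, mom L x s)).2 := by
      filter_upwards [hj.continuousAt.eventually g4] with s hs
      exact (congrArg Prod.snd hs).symm
    refine ContDiffAt.congr_of_eventuallyEq ?_ g5
    exact contDiffAt_snd.comp t (ContDiffAt.comp t g3 hc.contDiffAt)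
  exact ⟨fun t => ⟨(h1 t).differentiableAt, h4 t⟩, fun t => hv.differentiable one_ne_zero t,
    hv.continuous_deriv le_rfl⟩

lemma Cal.energy (U : Unif S) (hL : L ∈ S) (hd : Dom L k u) (h : Cal L k u x) (t : ℝ) :
    mom L x t (vel x t) = L (jet x t) + k := by
  obtain ⟨h1, h2, h3, -⟩ := h.c1 U hL hd
  have hx : Continuous fun s => (x s : ℂ) := continuous_iff_continuousAt.2 fun t =>
    (h1 t).continuousAt
  have hj : Continuous fun s => L (jet x s) + k :=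
    ((U.smooth L hL).continuousOn.comp_continuous (hx.prodMk h2) (t9reg2_mem x)).add
      continuous_const
  have g1 : HasDerivAt (fun s => u (x s)) (mom L x t (vel x t)) t := by
    have := (h3 t).comp_hasDerivAt t (h1 t)
    simpa only [Function.comp_def, ofComplex_apply] using this
  have g2 : HasDerivAt (fun s => u (x (t - 1)) + ∫ τ in (t - 1)..s, (L (jet x τ) + k))
      (L (jet x t) + k) t := (hj.integral_hasStrictDerivAt (t - 1) t).hasDerivAt.const_add _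
  refine g1.unique (g2.congr_of_eventuallyEq ?_)
  filter_upwards [lt_mem_nhds (show t - 1 < t by linarith)] with s hs
  have := (h _ _ hs).2
  unfold ac at this
  linarith

lemma Unif.speed (U : Unif S) (k₀ : ℝ) : ∃ C : ℝ, 0 ≤ C ∧ ∀ L ∈ S, ∀ k, |k| ≤ k₀ → ∀ u,
    Dom L k u → ∀ x, Cal L k u x → ∀ t, ‖vel x t‖ ≤ C * (x t).im ∧ ‖mom L x t‖ * (x t).im ≤ C := by
  obtain ⟨C, hC, H⟩ := U.calLip k₀
  obtain ⟨C', hC', H'⟩ := U.lipDom k₀
  refine ⟨C + 2 * C', by positivity, fun L hL k hk u hd x hx t => ⟨?_, ?_⟩⟩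
  · refine (vel_le_of_lip (Eventually.of_forall fun a => H L hL k hk u hd x hx a t) hC).trans ?_
    have := (x t).im_pos
    nlinarith
  · have h0 := (x t).im_pos
    have h1 : ‖mom L x t‖ ≤ 2 * C' / (x t).im := by
      refine ((hx.c1 U hL hd).2.2.1 t).le_of_lip' (by positivity) ?_
      rw [← isOpenEmbedding_coe.map_nhds_eq, eventually_map]
      filter_upwards [Metric.closedBall_mem_nhds (x t) one_pos] with w hw
      rw [ofComplex_apply, ofComplex_apply, Real.norm_eq_abs]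
      have h2 := H' L hL k (le_of_abs_le hk) u hd (x t) w
      have h3 := (near_cmp w (x t) hw).2.1
      rw [dist_comm] at h2
      refine h2.trans ?_
      rw [div_mul_eq_mul_div, le_div_iff₀ h0]
      nlinarith
    rw [le_div_iff₀ h0] at h1
    linarith

theorem Unif.vlip (U : Unif S) (k₀ R : ℝ) : ∃ C : ℝ, 0 ≤ C ∧ ∀ L ∈ S, ∀ k, |k| ≤ k₀ → ∀ u,
    Dom L k u → ∀ x y, Cal L k u x → Cal L k u y → ∀ s t, dist (x s) I ≤ R → dist (y t) I ≤ R →
      ‖vel x s - vel y t‖ ≤ C * ‖(x s : ℂ) - y t‖ := by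
  obtain ⟨C₂, δ, hC₂, hδ, H2⟩ := U.two k₀ R
  obtain ⟨Cs, hCs, Hs⟩ := U.speed k₀
  obtain ⟨Cb, hCb, Hb⟩ := KB_cmp R
  obtain ⟨m, hm, Hm⟩ := U.strong R (Cs * Cb)
  obtain ⟨M, hM, HM⟩ := U.taylor R (Cs * Cb)
  have hr : 0 ≤ Cs * Cb := by positivity
  refine ⟨(6 * C₂ + M) / m + 4 * (Cs * Cb) / δ, by positivity,
    fun L hL k hk u hd x y hx hy s t hs ht => ?_⟩
  have v1 : ‖vel x s‖ ≤ Cs * Cb :=
    (Hs L hL k hk u hd x hx s).1.trans (mul_le_mul_of_nonneg_left (Hb _ _ hs hs).2.2.2 hCs)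
  have v2 : ‖vel y t‖ ≤ Cs * Cb :=
    (Hs L hL k hk u hd y hy t).1.trans (mul_le_mul_of_nonneg_left (Hb _ _ ht ht).2.2.2 hCs)
  have d0 := norm_nonneg ((x s : ℂ) - y t)
  have a1 : 0 ≤ (6 * C₂ + M) / m * ‖(x s : ℂ) - y t‖ := by positivity
  have a2 : 0 ≤ 4 * (Cs * Cb) / δ * ‖(x s : ℂ) - y t‖ := by positivity
  rw [add_mul]
  rcases le_or_gt (2 * ‖(x s : ℂ) - y t‖) δ with hn | hn
  · have b1 : ‖mom L x s - mom L y t‖ ≤ 6 * C₂ * ‖(x s : ℂ) - y t‖ :=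
      lip_of_two (g := fun w => u (ofComplex w)) hC₂ hδ
        (fun h hh => by simpa only [ofComplex_apply] using H2 L hL k hk u hd x hx s hs h hh)
        (fun h hh => by simpa only [ofComplex_apply] using H2 L hL k hk u hd y hy t ht h hh) hn
    have b2 := Hm L hL (x s) (mem_KB.2 hs) _ _ v1 v2
    have b3 := (HM L hL ((x s : ℂ), vel y t) ((y t : ℂ), vel y t) (mem_KB.2 hs) (mem_KB.2 ht)
      v2 v2).2.2.2.2
    have b4 : ‖(((y t : ℂ), vel y t) : ℂ × ℂ) - ((x s : ℂ), vel y t)‖ = ‖(x s : ℂ) - y t‖ := by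
      rw [Prod.mk_sub_mk, sub_self, Prod.norm_mk, norm_zero, norm_sub_rev]
      exact max_eq_left d0
    rw [b4] at b3
    set w := vel x s - vel y t with hw
    have b5 : (mom L x s - mom L y t) w ≤ 6 * C₂ * ‖(x s : ℂ) - y t‖ * ‖w‖ :=
      (le_abs_self _).trans (((mom L x s - mom L y t).le_opNorm w).trans
        (mul_le_mul_of_nonneg_right b1 (norm_nonneg _)))
    have b6 : (fderiv ℝ L ((y t : ℂ), vel y t) - fderiv ℝ L ((x s : ℂ), vel y t)) (0, w) ≤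
        M * ‖(x s : ℂ) - y t‖ * ‖w‖ := by
      refine (le_abs_self _).trans (((fderiv ℝ L ((y t : ℂ), vel y t) -
        fderiv ℝ L ((x s : ℂ), vel y t)).le_opNorm (0, w)).trans ?_)
      have : ‖((0, w) : ℂ × ℂ)‖ = ‖w‖ := by
        rw [Prod.norm_mk, norm_zero]
        exact max_eq_right (norm_nonneg _)
      rw [this]
      exact mul_le_mul_of_nonneg_right b3 (norm_nonneg _)
    have b7 : (mom L x s - mom L y t) w =
        fderiv ℝ L ((x s : ℂ), vel x s) (0, w) - fderiv ℝ L ((y t : ℂ), vel y t) (0, w) := rfl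
    rw [sub_apply] at b6
    have b8 : m * ‖w‖ * ‖w‖ ≤ (6 * C₂ + M) * ‖(x s : ℂ) - y t‖ * ‖w‖ := by nlinarith
    have b9 : ‖w‖ ≤ (6 * C₂ + M) / m * ‖(x s : ℂ) - y t‖ := by
      rcases (norm_nonneg w).eq_or_lt with e | e
      · rw [← e]
        exact a1
      · rw [div_mul_eq_mul_div, le_div_iff₀ hm, mul_comm]
        exact le_of_mul_le_mul_right b8 e
    linarith
  · have b1 : 2 * (Cs * Cb) ≤ 4 * (Cs * Cb) / δ * ‖(x s : ℂ) - y t‖ := by
      rw [div_mul_eq_mul_div, le_div_iff₀ hδ]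
      nlinarith
    have b2 := norm_sub_le (vel x s) (vel y t)
    linarith

lemma t9reg2_fwd {f f' : ℝ → ℂ} {K W : ℝ} (hf : ∀ t, HasDerivAt f (f' t) t)
    (hb : ∀ t, |t| ≤ W → ‖f' t‖ ≤ K * ‖f t‖) {t : ℝ} (h0 : 0 ≤ t) (ht : t ≤ W) :
    ‖f t‖ ≤ ‖f 0‖ * Real.exp (K * t) := by
  have h := norm_le_gronwallBound_of_norm_deriv_right_le (f := f) (f' := f') (δ := ‖f 0‖) (K := K)
    (ε := 0) (a := 0) (b := W) (fun s _ => (hf s).continuousAt.continuousWithinAt)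
    (fun s _ => (hf s).hasDerivWithinAt) le_rfl
    (fun s hs => by simpa using hb s (by rw [abs_of_nonneg hs.1]; exact hs.2.le)) t ⟨h0, ht⟩
  rwa [gronwallBound_ε0, sub_zero] at h

lemma t9reg2_gron {f f' : ℝ → ℂ} {K W : ℝ} (hf : ∀ t, HasDerivAt f (f' t) t)
    (hb : ∀ t, |t| ≤ W → ‖f' t‖ ≤ K * ‖f t‖) {t : ℝ} (ht : |t| ≤ W) :
    ‖f t‖ ≤ ‖f 0‖ * Real.exp (K * |t|) := by
  rcases le_total 0 t with h | h
  · rw [abs_of_nonneg h] at ht ⊢
    exact t9reg2_fwd hf hb h ht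
  · rw [abs_of_nonpos h] at ht ⊢
    have h1 := t9reg2_fwd (f := fun s => f (-s)) (f' := fun s => -f' (-s)) (K := K) (W := W)
      (fun s => by simpa [Function.comp_def] using (hf (-s)).scomp s (hasDerivAt_neg s))
      (fun s hs => by simpa using hb (-s) (by rwa [abs_neg])) (neg_nonneg.2 h) ht
    simpa using h1

lemma t9reg2_ball {C R W : ℝ} (hC : 0 ≤ C) (h : ∀ s t, dist (x s) (x t) ≤ C * |s - t|)
    (h0 : dist (x 0) I ≤ R) {t : ℝ} (ht : |t| ≤ W) : dist (x t) I ≤ R + C * W := by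
  have h1 := dist_triangle (x t) (x 0) I
  have h2 := h t 0
  rw [sub_zero] at h2
  nlinarith

lemma Unif.gron (U : Unif S) (k₀ R W : ℝ) : ∃ C : ℝ, 0 ≤ C ∧ ∀ L ∈ S, ∀ k, |k| ≤ k₀ → ∀ u,
    Dom L k u → ∀ x y, Cal L k u x → Cal L k u y → dist (x 0) I ≤ R → dist (y 0) I ≤ R →
      ∀ t, |t| ≤ W → ‖(x t : ℂ) - y t‖ ≤ C * ‖(x 0 : ℂ) - y 0‖ ∧
        ‖vel x t - vel y t‖ ≤ C * ‖(x 0 : ℂ) - y 0‖ := by
  obtain ⟨C, hC, H⟩ := U.calLip k₀
  obtain ⟨K, hK, HK⟩ := U.vlip k₀ (R + C * W)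
  refine ⟨(1 + K) * Real.exp (K * W), by positivity,
    fun L hL k hk u hd x y hx hy h1 h2 t ht => ?_⟩
  have b1 : ∀ s, |s| ≤ W → ‖vel x s - vel y s‖ ≤ K * ‖(x s : ℂ) - y s‖ := fun s hs =>
    HK L hL k hk u hd x y hx hy s s (t9reg2_ball hC (H L hL k hk u hd x hx) h1 hs)
      (t9reg2_ball hC (H L hL k hk u hd y hy) h2 hs)
  have b2 : ‖(x t : ℂ) - y t‖ ≤ ‖(x 0 : ℂ) - y 0‖ * Real.exp (K * |t|) :=
    t9reg2_gron (f := fun s => (x s : ℂ) - y s) (f' := fun s => vel x s - vel y s)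
      (fun s => ((hx.c1 U hL hd).1 s).sub ((hy.c1 U hL hd).1 s)) b1 ht
  have b3 : Real.exp (K * |t|) ≤ Real.exp (K * W) :=
    Real.exp_le_exp.2 (mul_le_mul_of_nonneg_left ht hK)
  have b4 := b2.trans (mul_le_mul_of_nonneg_left b3 (norm_nonneg _))
  have b5 := (b1 t ht).trans (mul_le_mul_of_nonneg_left b4 hK)
  have b6 : 0 ≤ ‖(x 0 : ℂ) - y 0‖ * Real.exp (K * W) := by positivity
  have b7 := mul_nonneg hK b6
  constructor <;> nlinarith

lemma Cal.unique (U : Unif S) (hL : L ∈ S) (hd : Dom L k u) (hx : Cal L k u x) (hy : Cal L k u y)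
    {s t : ℝ} (h : x s = y t) (r : ℝ) : x (s + r) = y (t + r) := by
  obtain ⟨C, -, H⟩ := U.gron |k| (dist (x s) I) |r|
  have h1 := (H L hL k le_rfl u hd _ _ (hx.shift s) (hy.shift t) (by simp) (by simp [h]) r
    le_rfl).1
  simp only [zero_add, h, sub_self, norm_zero, mul_zero, norm_le_zero_iff, sub_eq_zero] at h1
  rw [add_comm s, add_comm t]
  exact UpperHalfPlane.ext h1

lemma Cal.const_of_vel (U : Unif S) (hL : L ∈ S) (hd : Dom L k u) (hx : Cal L k u x) {t : ℝ}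
    (h : vel x t = 0) (s : ℝ) : x s = x t := by
  obtain ⟨C, hC, H⟩ := U.calLip |k|
  obtain ⟨K, -, HK⟩ := U.vlip |k| (dist (x t) I + C * |s - t|)
  have b0 : ∀ r, |r| ≤ |s - t| → dist (x (r + t)) I ≤ dist (x t) I + C * |s - t| := fun r hr =>
    t9reg2_ball (x := fun r => x (r + t)) hC (H L hL k le_rfl u hd _ (hx.shift t)) (by simp) hr
  have b1 := t9reg2_gron (f := fun r => (x (r + t) : ℂ) - x t) (f' := fun r => vel x (r + t))
    (K := K) (W := |s - t|)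
    (fun r => (((hx.c1 U hL hd).1 (r + t)).comp_add_const r t).sub_const _)
    (fun r hr => by
      simpa [h] using HK L hL k le_rfl u hd x x hx hx (r + t) t (b0 r hr)
        (by simpa using b0 0 (by simp))) le_rfl
  simp only [sub_add_cancel, zero_add, sub_self, norm_zero, zero_mul, norm_le_zero_iff,
    sub_eq_zero] at b1
  exact UpperHalfPlane.ext b1

lemma t9reg2_pt {l : Filter ℕ} {Y V : ℕ → ℝ → ℂ} {X : ℝ → ℂ} {v : ℂ} {t Λ : ℝ} (hΛ : 0 ≤ Λ)
    (hY : ∀ n t, HasDerivAt (Y n) (V n t) t) (hX : HasDerivAt X v t)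
    (hV : ∀ᶠ n in l, ∀ s ∈ Set.Icc t (t + 1), ‖V n s - V n t‖ ≤ Λ * |s - t|)
    (hl : ∀ t, Tendsto (fun n => Y n t) l (𝓝 (X t))) {ε : ℝ} (hε : 0 < ε) :
    ∀ᶠ n in l, ‖V n t - v‖ ≤ ε := by
  have h1 := (hasDerivAt_iff_isLittleO_nhds_zero.1 hX).bound (show 0 < ε / 4 by positivity)
  have h2 : ∀ᶠ h in 𝓝 (0 : ℝ), h < min 1 (ε / 4 / (Λ + 1)) := gt_mem_nhds (by positivity)
  obtain ⟨h, ⟨a1, a2⟩, a3⟩ := (((h1.and h2).filter_mono nhdsWithin_le_nhds).and
    (self_mem_nhdsWithin (a := (0 : ℝ)) (s := Set.Ioi 0))).exists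
  have a3 : 0 < h := a3
  obtain ⟨a4, a5⟩ := lt_min_iff.1 a2
  rw [lt_div_iff₀ (by positivity)] at a5
  rw [Real.norm_eq_abs, abs_of_pos a3] at a1
  have e0 : 0 < ε / 4 * h := by positivity
  filter_upwards [hV, Metric.tendsto_nhds.1 (hl t) _ e0, Metric.tendsto_nhds.1 (hl (t + h)) _ e0]
    with n b1 b2 b3
  rw [dist_eq_norm] at b2 b3
  have b4 := norm_image_sub_le_of_norm_deriv_le_segment' (f := fun s => Y n s - s • V n t)
    (f' := fun s => V n s - V n t) (a := t) (b := t + h) (C := ε / 4)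
    (fun s _ => by
      have c := ((hY n s).sub ((hasDerivAt_id s).smul_const (V n t))).hasDerivWithinAt
        (s := Set.Icc t (t + h))
      rw [one_smul] at c
      exact c)
    (fun s hs => (b1 s ⟨hs.1, by linarith [hs.2]⟩).trans (by
      rw [abs_of_nonneg (sub_nonneg.2 hs.1)]
      nlinarith [hs.1, hs.2])) (t + h) ⟨by linarith, le_rfl⟩
  have b5 : h • (V n t - v) = (X (t + h) - X t - h • v) + (Y n (t + h) - X (t + h)) -
      (Y n t - X t) - (Y n (t + h) - (t + h) • V n t - (Y n t - t • V n t)) := by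
    rw [add_smul, smul_sub]
    ring
  have b6 : h * ‖V n t - v‖ ≤ h * ε := by
    have c1 := congrArg norm b5
    rw [norm_smul, Real.norm_eq_abs, abs_of_pos a3] at c1
    have c2 := norm_sub_le ((X (t + h) - X t - h • v) + (Y n (t + h) - X (t + h)) -
      (Y n t - X t)) (Y n (t + h) - (t + h) • V n t - (Y n t - t • V n t))
    have c3 := norm_sub_le ((X (t + h) - X t - h • v) + (Y n (t + h) - X (t + h))) (Y n t - X t)
    have c4 := norm_add_le (X (t + h) - X t - h • v) (Y n (t + h) - X (t + h))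
    rw [add_sub_cancel_left] at b4
    linarith
  exact le_of_mul_le_mul_left b6 a3

lemma t9reg2_net {E : Type} [NormedAddCommGroup E] {l : Filter ℕ} {Y : ℕ → ℝ → E} {X : ℝ → E}
    {W Λ : ℝ} (hX : Continuous X)
    (hY : ∀ᶠ n in l, ∀ s t, |s| ≤ W → |t| ≤ W → ‖Y n s - Y n t‖ ≤ Λ * |s - t|)
    (hl : ∀ t, |t| ≤ W → ∀ ε, 0 < ε → ∀ᶠ n in l, ‖Y n t - X t‖ ≤ ε) {ε : ℝ} (hε : 0 < ε) :
    ∀ᶠ n in l, ∀ t, |t| ≤ W → ‖Y n t - X t‖ ≤ ε := by
  obtain ⟨T, hT, H⟩ := (isCompact_Icc (a := -W) (b := W)).elim_nhds_subcover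
    (fun t => {s | Λ * |s - t| < ε / 3 ∧ ‖X t - X s‖ < ε / 3}) fun t _ => by
      have h1 : Continuous fun s => Λ * |s - t| := by fun_prop
      have h2 : Continuous fun s => ‖X t - X s‖ := by fun_prop
      exact (h1.continuousAt.eventually_lt continuousAt_const (by simpa using hε)).and
        (h2.continuousAt.eventually_lt continuousAt_const (by simpa using hε))
  have h1 : ∀ᶠ n in l, ∀ t ∈ T, ‖Y n t - X t‖ ≤ ε / 3 :=
    (eventually_all_finset T).2 fun t ht => hl t (abs_le.2 (hT t ht)) _ (by positivity)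
  filter_upwards [hY, h1] with n b1 b2 s hs
  obtain ⟨t, ht, b3, b4⟩ := Set.mem_iUnion₂.1 (H (abs_le.1 hs))
  have b5 := b1 s t hs (abs_le.2 (hT t ht))
  have b6 := b2 t ht
  have b7 : Y n s - X s = (Y n s - Y n t) + (Y n t - X t) + (X t - X s) := by abel
  have b8 := norm_add₃_le (a := Y n s - Y n t) (b := Y n t - X t) (c := X t - X s)
  rw [← b7] at b8
  linarith

/-- Uniform convergence of positions and velocities on compact intervals. -/
lemma LSeq.jet_lim {l : Filter ℕ} {Ls : ℕ → ℂ × ℂ → ℝ} (h : LSeq Γ l L Ls) {ks : ℕ → ℝ} {k₀ : ℝ}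
    {us : ℕ → ℍ → ℝ} {ys : ℕ → ℝ → ℍ} (hk : ∀ᶠ n in l, |ks n| ≤ k₀)
    (hd : ∀ n, Dom (Ls n) (ks n) (us n)) (hy : ∀ n, Cal (Ls n) (ks n) (us n) (ys n))
    (hx : Reg L x) (hl : ∀ t, Tendsto (fun n => ys n t) l (𝓝 (x t))) (W : ℝ) {ε : ℝ}
    (hε : 0 < ε) : ∀ᶠ n in l, ∀ t, |t| ≤ W → ‖jet (ys n) t - jet x t‖ ≤ ε := by
  have U := h.unif
  have hL : ∀ n, Ls n ∈ insert L (Set.range Ls) := fun n => Or.inr ⟨n, rfl⟩
  obtain ⟨C, hC, H⟩ := U.calLip k₀
  obtain ⟨K, hK, HK⟩ := U.vlip k₀ (dist (x 0) I + 1 + C * (W + 1))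
  obtain ⟨B, hB, HB⟩ := KB_cmp (dist (x 0) I + 1 + C * (W + 1))
  have h1 : ∀ᶠ n in l, ∀ s t, |s| ≤ W + 1 → |t| ≤ W + 1 →
      ‖(ys n s : ℂ) - ys n t‖ ≤ (1 + K) * (B * C) * |s - t| ∧
        ‖vel (ys n) s - vel (ys n) t‖ ≤ (1 + K) * (B * C) * |s - t| := by
    filter_upwards [hk, Metric.tendsto_nhds.1 (hl 0) _ one_pos] with n a1 a2 s t hs ht
    have a3 := H _ (hL n) _ a1 _ (hd n) _ (hy n)
    have a4 : dist (ys n 0) I ≤ dist (x 0) I + 1 := by
      linarith [dist_triangle (ys n 0) (x 0) I]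
    have a5 := t9reg2_ball hC a3 a4 hs
    have a6 := t9reg2_ball hC a3 a4 ht
    have a7 := (HB _ _ a5 a6).2.1.trans (mul_le_mul_of_nonneg_left (a3 s t) (by linarith))
    have a8 := (HK _ (hL n) _ a1 _ (hd n) _ _ (hy n) (hy n) s t a5 a6).trans
      (mul_le_mul_of_nonneg_left a7 hK)
    have a9 : 0 ≤ B * (C * |s - t|) := by positivity
    have a10 := mul_nonneg hK a9
    constructor <;> nlinarith
  have h2 : ∀ t, Tendsto (fun n => (ys n t : ℂ)) l (𝓝 (x t)) := fun t =>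
    (continuous_coe.tendsto _).comp (hl t)
  refine t9reg2_net (Λ := (1 + K) * (B * C)) hx.contJet ?_ ?_ hε
  · filter_upwards [h1] with n a1 s t hs ht
    exact max_le (a1 s t (by linarith) (by linarith)).1 (a1 s t (by linarith) (by linarith)).2
  · intro t ht η hη
    have a1 := t9reg2_pt (l := l) (Y := fun n s => (ys n s : ℂ)) (V := fun n => vel (ys n))
      (Λ := (1 + K) * (B * C)) (by positivity) (fun n => ((hy n).c1 U (hL n) (hd n)).1)
      (hx.hasDerivAt t) (by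
        filter_upwards [h1] with n a1 s hs
        obtain ⟨a2, a3⟩ := abs_le.1 ht
        exact (a1 s t (abs_le.2 ⟨by linarith [hs.1], by linarith [hs.2]⟩) (by linarith)).2) h2 hη
    filter_upwards [a1, Metric.tendsto_nhds.1 (h2 t) _ hη] with n a2 a3
    rw [dist_eq_norm] at a3
    exact max_le a3.le a2

end Pool.Agent.Lib.MP_5bb885_an.Gen
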