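import Pool.Agent.Lib.MP_5bb885_an.T9JI

/-!
Second variation of the action.
-/

namespace Pool.Agent.Lib.MP_5bb885_an.Gen

open UpperHalfPlane MeasureTheory Filter Topology

variable {Γ : Type} [Group Γ] [MulAction Γ ℍ] {L : ℂ × ℂ → ℝ} {x : ℝ → ℍ} {ξ ξ' η : ℝ → ℂ}
  {a b : ℝ}

lemma t9sv1_split (A : ℂ × ℂ →L[ℝ] ℝ) (u v : ℂ) : Dx A u + Dv A v = A (u, v) := by
  simp only [Dx, Dv, ContinuousLinearMap.comp_apply, ContinuousLinearMap.inl_apply,
    ContinuousLinearMap.inr_apply]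
  rw [← map_add]
  simp

lemma t9sv1_mem (x : ℝ → ℍ) (t : ℝ) : jet x t ∈ TH := (x t).im_pos

lemma t9sv1_small (M : ℝ) {δ : ℝ} (hδ : 0 < δ) : ∀ᶠ ε : ℝ in 𝓝 0, |ε| * M ≤ δ := by
  have h : Continuous fun ε : ℝ => |ε| * M := by fun_prop
  have h2 := h.tendsto 0
  simp only [abs_zero, zero_mul] at h2
  exact h2.eventually (ge_mem_nhds hδ)

lemma t9sv1_KB (hx : Continuous x) (a b : ℝ) : ∃ R, ∀ t ∈ Set.Icc a b, (x t : ℂ) ∈ KB R := by
  obtain ⟨R, hR⟩ := exists_KB (isCompact_Icc.image (UpperHalfPlane.continuous_coe.comp hx)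
    (s := Set.Icc a b)) (by
      rintro _ ⟨t, -, rfl⟩
      exact (x t).im_pos)
  exact ⟨R, fun t ht => hR ⟨t, ht, rfl⟩⟩

/-- Second order expansion of the action along `x + ε ξ`. -/
theorem sv_expand (hL : ContDiffOn ℝ 2 L TH) (hx : Reg L x) (hab : a < b)
    (h1 : ∀ t, HasDerivAt ξ (ξ' t) t) (h2 : Continuous ξ') (k : ℝ) {θ : ℝ} (hθ : 0 < θ) :
    ∀ᶠ ε : ℝ in 𝓝 0, (∀ t ∈ Set.Icc a b, (x t : ℂ) + ε • ξ t ∈ HP) ∧
      Adm L (fun t => ofComplex (x t + ε • ξ t)) a b ∧
      |ac L k (fun t => ofComplex (x t + ε • ξ t)) a b - ac L k x a b -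
        ε * (mom L x b (ξ b) - mom L x a (ξ a)) -
        ε ^ 2 / 2 * ∫ t in a..b, D2 L (jet x t) (ξ t, ξ' t) (ξ t, ξ' t)| ≤ θ * ε ^ 2 := by
  have hξ : Continuous ξ := continuous_iff_continuousAt.2 fun t => (h1 t).continuousAt
  have hh : Continuous fun t => ((ξ t, ξ' t) : ℂ × ℂ) := hξ.prodMk h2
  obtain ⟨R, hR⟩ := t9sv1_KB hx.continuous a b
  obtain ⟨r, hr⟩ := isCompact_Icc.exists_bound_of_continuousOn
    (hx.contVel.continuousOn (s := Set.Icc a b))
  obtain ⟨M, hM⟩ := isCompact_Icc.exists_bound_of_continuousOn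
    (hh.continuousOn (s := Set.Icc a b))
  have hM0 : 0 ≤ M := (norm_nonneg _).trans (hM a ⟨le_rfl, hab.le⟩)
  have hba : 0 < b - a := sub_pos.2 hab
  set ε' := θ / ((b - a) * (M ^ 2 + 1)) with hε'
  have hε0 : 0 < ε' := by positivity
  obtain ⟨δ, hδ, hT⟩ := taylor2 hL R r hε0
  obtain ⟨δ₁, hδ₁, hK⟩ := KB_thick R
  have cL : Continuous fun t => L (jet x t) :=
    hL.continuousOn.comp_continuous hx.contJet (t9sv1_mem x)
  have cD : Continuous fun t => fderiv ℝ L (jet x t) :=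
    (t9tay_cont isOpen_TH hL).2.1.comp_continuous hx.contJet (t9sv1_mem x)
  have cD2 : Continuous fun t => D2 L (jet x t) :=
    (continuousOn_D2 hL).comp_continuous hx.contJet (t9sv1_mem x)
  have c1 : Continuous fun t => fderiv ℝ L (jet x t) (ξ t, ξ' t) := cD.clm_apply hh
  have c2 : Continuous fun t => D2 L (jet x t) (ξ t, ξ' t) (ξ t, ξ' t) :=
    (cD2.clm_apply hh).clm_apply hh
  have ftc : ∫ t in a..b, fderiv ℝ L (jet x t) (ξ t, ξ' t)
      = mom L x b (ξ b) - mom L x a (ξ a) := by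
    refine intervalIntegral.integral_eq_sub_of_hasDerivAt (f := fun t => mom L x t (ξ t))
      (fun t _ => ?_) (c1.intervalIntegrable _ _)
    have := (hx.hasDerivAt_mom t).clm_apply (h1 t)
    rwa [frc, mom, t9sv1_split] at this
  filter_upwards [t9sv1_small M hδ, t9sv1_small M hδ₁] with ε e1 e2
  have hn : ∀ t ∈ Set.Icc a b, ‖ε • ((ξ t, ξ' t) : ℂ × ℂ)‖ ≤ |ε| * M := fun t ht => by
    rw [norm_smul, Real.norm_eq_abs]
    exact mul_le_mul_of_nonneg_left (hM t ht) (abs_nonneg ε)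
  have hHP : ∀ t ∈ Set.Icc a b, (x t : ℂ) + ε • ξ t ∈ HP := fun t ht =>
    KB_sub _ (hK _ (hR t ht) _ (((norm_fst_le (ε • ((ξ t, ξ' t) : ℂ × ℂ))).trans
      (hn t ht)).trans e2))
  have hd : ∀ t ∈ Set.Icc a b,
      HasDerivAt (fun t => (x t : ℂ) + ε • ξ t) (vel x t + ε • ξ' t) t := fun t _ =>
    (hx.hasDerivAt t).add ((h1 t).const_smul ε)
  have cv : Continuous fun t => vel x t + ε • ξ' t := hx.contVel.add (h2.const_smul ε)
  have cy : Continuous fun t => (x t : ℂ) + ε • ξ t :=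
    (UpperHalfPlane.continuous_coe.comp hx.continuous).add (hξ.const_smul ε)
  obtain ⟨A1, A2⟩ := adm_C1 hL.continuousOn hab hd cv.continuousOn hHP
  refine ⟨hHP, A1, ?_⟩
  have c0 : ContinuousOn (fun t => L ((x t : ℂ) + ε • ξ t, vel x t + ε • ξ' t))
      (Set.uIcc a b) := by
    rw [Set.uIcc_of_le hab.le]
    exact hL.continuousOn.comp (cy.prodMk cv).continuousOn hHP
  have i0 : IntervalIntegrable (fun t => L ((x t : ℂ) + ε • ξ t, vel x t + ε • ξ' t) + k)
      volume a b := (c0.add (continuousOn_const (c := k))).intervalIntegrable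
  have i1 : IntervalIntegrable (fun t => L (jet x t) + k) volume a b :=
    (cL.add (continuous_const (y := k))).intervalIntegrable a b
  have i2 := (c1.intervalIntegrable (μ := volume) a b).const_mul ε
  have i3 := (c2.intervalIntegrable (μ := volume) a b).const_mul (ε ^ 2 / 2)
  rw [A2, ac, ← ftc, ← intervalIntegral.integral_const_mul, ← intervalIntegral.integral_const_mul,
    ← intervalIntegral.integral_sub i0 i1, ← intervalIntegral.integral_sub (i0.sub i1) i2,
    ← intervalIntegral.integral_sub ((i0.sub i1).sub i2) i3, ← Real.norm_eq_abs]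
  refine (intervalIntegral.norm_integral_le_of_norm_le_const (C := ε' * (|ε| * M) ^ 2)
    fun t ht => ?_).trans ?_
  · rw [Set.uIoc_of_le hab.le] at ht
    have ht' := Set.Ioc_subset_Icc_self ht
    have h3 := (hT (jet x t) (hR t ht') (hr t ht') (ε • (ξ t, ξ' t)) 0 ((hn t ht').trans e1)
      (by simpa using hδ.le)).1
    have e3 : jet x t + ε • ((ξ t, ξ' t) : ℂ × ℂ)
        = ((x t : ℂ) + ε • ξ t, vel x t + ε • ξ' t) := rfl
    rw [e3] at h3
    simp only [map_smul, smul_apply, smul_eq_mul] at h3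
    rw [Real.norm_eq_abs]
    refine le_trans (le_of_eq ?_) (h3.trans (mul_le_mul_of_nonneg_left
      (pow_le_pow_left₀ (norm_nonneg _) (hn t ht') 2) hε0.le))
    congr 1
    ring
  · rw [abs_of_pos hba, mul_pow, sq_abs]
    have e4 : ε' * ((b - a) * (M ^ 2 + 1)) = θ := by
      rw [hε']
      field_simp
    rw [← e4]
    have : 0 ≤ ε' * (b - a) * ε ^ 2 := by positivity
    nlinarith

/-- First order expansion of the integral of a potential. -/
lemma sv_pot {φ : ℂ → ℝ} (hφ : ContDiffOn ℝ 2 φ HP) (hx : Continuous x) (hab : a < b)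
    (h1 : Continuous ξ) {θ : ℝ} (hθ : 0 < θ) : ∀ᶠ ε : ℝ in 𝓝 0,
      |(∫ t in a..b, φ (x t + ε • ξ t)) - (∫ t in a..b, φ (x t)) -
        ε * ∫ t in a..b, fderiv ℝ φ (x t) (ξ t)| ≤ θ * |ε| := by
  obtain ⟨R, hR⟩ := t9sv1_KB hx a b
  obtain ⟨M, hM⟩ := isCompact_Icc.exists_bound_of_continuousOn
    (h1.continuousOn (s := Set.Icc a b))
  have hM0 : 0 ≤ M := (norm_nonneg _).trans (hM a ⟨le_rfl, hab.le⟩)
  have hba : 0 < b - a := sub_pos.2 hab
  set ε' := θ / ((b - a) * (M + 1)) with hε'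
  have hε0 : 0 < ε' := by positivity
  obtain ⟨δ₁, hδ₁, hK⟩ := KB_thick R
  obtain ⟨k0, k1, -⟩ := t9tay_cont isOpen_HP hφ
  obtain ⟨δ, hδ, hU⟩ := (Metric.uniformContinuousOn_iff_le (f := fderiv ℝ φ)).1
    ((isCompact_KB (R + 1)).uniformContinuousOn_of_continuous (k1.mono (KB_sub _))) ε' hε0
  have cx : Continuous fun t => (x t : ℂ) := UpperHalfPlane.continuous_coe.comp hx
  have cφ : Continuous fun t => φ (x t) := k0.comp_continuous cx fun t => (x t).im_pos
  have c1 : Continuous fun t => fderiv ℝ φ (x t) (ξ t) :=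
    (k1.comp_continuous cx fun t => (x t).im_pos).clm_apply h1
  filter_upwards [t9sv1_small M hδ, t9sv1_small M hδ₁] with ε e1 e2
  have hn : ∀ t ∈ Set.Icc a b, ‖ε • ξ t‖ ≤ |ε| * M := fun t ht => by
    rw [norm_smul, Real.norm_eq_abs]
    exact mul_le_mul_of_nonneg_left (hM t ht) (abs_nonneg ε)
  have c0 : ContinuousOn (fun t => φ ((x t : ℂ) + ε • ξ t)) (Set.uIcc a b) := by
    rw [Set.uIcc_of_le hab.le]
    exact k0.comp (cx.add (h1.const_smul ε)).continuousOn fun t ht =>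
      KB_sub _ (hK _ (hR t ht) _ ((hn t ht).trans e2))
  have i0 := c0.intervalIntegrable (μ := volume)
  have i1 := cφ.intervalIntegrable (μ := volume) a b
  have i2 := (c1.intervalIntegrable (μ := volume) a b).const_mul ε
  rw [← intervalIntegral.integral_const_mul, ← intervalIntegral.integral_sub i0 i1,
    ← intervalIntegral.integral_sub (i0.sub i1) i2, ← Real.norm_eq_abs]
  refine (intervalIntegral.norm_integral_le_of_norm_le_const (C := ε' * (|ε| * M))
    fun t ht => ?_).trans ?_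
  · rw [Set.uIoc_of_le hab.le] at ht
    have ht' := Set.Ioc_subset_Icc_self ht
    have hs : ∀ w ∈ Metric.closedBall (x t : ℂ) (|ε| * M), w ∈ KB (R + 1) := fun w hw => by
      have := hK _ (hR t ht') (w - x t) ((mem_closedBall_iff_norm.1 hw).trans e2)
      simpa using this
    have h0 : (x t : ℂ) ∈ Metric.closedBall (x t : ℂ) (|ε| * M) :=
      Metric.mem_closedBall_self (by positivity)
    have h3 := Convex.norm_image_sub_le_of_norm_hasFDerivWithin_le' (𝕜 := ℝ) (f := φ)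
      (f' := fderiv ℝ φ) (φ := fderiv ℝ φ (x t)) (C := ε')
      (s := Metric.closedBall (x t : ℂ) (|ε| * M)) (x := x t) (y := x t + ε • ξ t)
      (fun w hw => (t9tay_has isOpen_HP hφ (KB_sub _ (hs w hw))).1.hasFDerivWithinAt)
      (fun w hw => by
        rw [← dist_eq_norm]
        exact hU w (hs w hw) _ (hs _ h0) ((Metric.mem_closedBall.1 hw).trans e1))
      (convex_closedBall _ _) h0 (by
        rw [mem_closedBall_iff_norm, add_sub_cancel_left]
        exact hn t ht')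
    rw [add_sub_cancel_left, map_smul, smul_eq_mul] at h3
    exact h3.trans (mul_le_mul_of_nonneg_left (hn t ht') hε0.le)
  · rw [abs_of_pos hba]
    have e4 : ε' * ((b - a) * (M + 1)) = θ := by
      rw [hε']
      field_simp
    rw [← e4]
    have : 0 ≤ ε' * (b - a) * |ε| := by positivity
    nlinarith

/-- The second variation of a Jacobi field is a boundary term. -/
lemma Jac.integral (hL : Tonelli Γ L) (hx : Reg L x) (h : Jac L x η) (a b : ℝ) :
    ∫ t in a..b, D2 L (jet x t) (η t, deriv η t) (η t, deriv η t) =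
      dmom L x η b (η b) - dmom L x η a (η a) := by
  have hc := hx.coef hL
  have c1 : Continuous (deriv η) := JacA.contDeriv hc h
  have c0 : Continuous η := continuous_iff_continuousAt.2 fun t => (h t).1.continuousAt
  have hh : Continuous fun t => ((η t, deriv η t) : ℂ × ℂ) := c0.prodMk c1
  refine intervalIntegral.integral_eq_sub_of_hasDerivAt (f := fun t => dmom L x η t (η t))
    (fun t _ => ?_) (((hc.1.clm_apply hh).clm_apply hh).intervalIntegrable _ _)
  have := (h t).2.clm_apply (h t).1.hasDerivAt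
  rwa [t9sv1_split] at this

/-- A continuous family of linear forms applied to a curve through zero. -/
lemma t9sv1_prod {A : ℝ → ℂ →L[ℝ] ℝ} {g : ℝ → ℂ} {g' : ℂ} (hA : ContinuousAt A 0)
    (hg : HasDerivAt g g' 0) (h0 : g 0 = 0) : HasDerivAt (fun ε => A ε (g ε)) (A 0 g') 0 := by
  rw [hasDerivAt_iff_tendsto_slope_zero] at hg ⊢
  have h1 : Tendsto A (𝓝[≠] 0) (𝓝 (A 0)) := hA.tendsto.mono_left nhdsWithin_le_nhds
  have h2 := (isBoundedBilinearMap_apply (𝕜 := ℝ) (E := ℂ) (F := ℝ)).continuous.tendsto (A 0, g')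
  refine (h2.comp (h1.prodMk_nhds hg)).congr fun ε => ?_
  simp only [Function.comp_apply, h0, zero_add, map_zero, sub_zero, map_smul]

/-- A function whose first and second derivatives vanish at zero. -/
lemma t9sv1_second {H H' : ℝ → ℝ} (h1 : ∀ ε, HasDerivAt H (H' ε) ε) (h2 : HasDerivAt H' 0 0)
    (h3 : H 0 = 0) (h4 : H' 0 = 0) {θ : ℝ} (hθ : 0 < θ) : ∀ᶠ ε : ℝ in 𝓝 0, |H ε| ≤ θ * ε ^ 2 := by
  have h5 := h2.isLittleO.bound hθ
  simp only [h4, sub_zero, smul_zero, Real.norm_eq_abs] at h5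
  obtain ⟨δ, hδ, h6⟩ := Metric.eventually_nhds_iff.1 h5
  filter_upwards [Metric.ball_mem_nhds 0 hδ] with ε hε
  have hε' : |ε| < δ := by simpa using hε
  have h7 := Convex.norm_image_sub_le_of_norm_hasDerivWithin_le (𝕜 := ℝ) (f := H) (f' := H')
    (s := Metric.closedBall 0 |ε|) (x := 0) (y := ε) (C := θ * |ε|)
    (fun s _ => (h1 s).hasDerivWithinAt)
    (fun s hs => by
      have hs' : |s| ≤ |ε| := by simpa using hs
      rw [Real.norm_eq_abs]
      exact (h6 (by simpa using hs'.trans_lt hε')).trans (mul_le_mul_of_nonneg_left hs' hθ.le))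
    (convex_closedBall _ _) (Metric.mem_closedBall_self (abs_nonneg ε)) (by simp)
  rw [h3, sub_zero, sub_zero, Real.norm_eq_abs, Real.norm_eq_abs, mul_assoc, abs_mul_abs_self]
    at h7
  rwa [sq]

/-- The expansion at an end point. -/
theorem sv_end (hL : Tonelli Γ L) (hx : Reg L x) {k : ℝ}
    (hk : ∀ t, mom L x t (vel x t) = L (jet x t) + k) (he : En L x η) (t : ℝ) {θ : ℝ}
    (hθ : 0 < θ) : ∀ᶠ ε : ℝ in 𝓝 0, (x t : ℂ) + ε • η t ∈ HP ∧
      |ε * mom L x t (η t) + ε ^ 2 / 2 * dmom L x η t (η t) -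
        ac L k x t (t + ε * tng x η t) -
        mom L x (t + ε * tng x η t) (x t + ε • η t - x (t + ε * tng x η t)) -
        ε ^ 2 / 2 * bt L x η t| ≤ θ * ε ^ 2 ∧
      dist (ofComplex (x t + ε • η t)) (x (t + ε * tng x η t)) ≤
        |ε| * (2 * (‖nu x η t‖ / (x t).im) + θ) := by
  set τ := tng x η t with hτ
  set ν := nu x η t with hν
  have eν : ν = η t - τ • vel x t := rfl
  have hs : ∀ ε : ℝ, HasDerivAt (fun ε : ℝ => t + ε * τ) τ ε := fun ε => by
    simpa using ((hasDerivAt_id ε).mul_const τ).const_add t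
  have hg : ∀ ε : ℝ, HasDerivAt (fun ε : ℝ => (x t : ℂ) + ε • η t - x (t + ε * τ))
      (η t - τ • vel x (t + ε * τ)) ε := fun ε => by
    have h1 : HasDerivAt (fun ε : ℝ => (x t : ℂ) + ε • η t) (η t) ε := by
      simpa using ((hasDerivAt_id ε).smul_const (η t)).const_add (x t : ℂ)
    have h2 := (hx.hasDerivAt (t + ε * τ)).scomp ε (hs ε)
    exact h1.sub h2
  have hg0 : HasDerivAt (fun ε : ℝ => (x t : ℂ) + ε • η t - x (t + ε * τ)) ν 0 := by
    simpa [eν] using hg 0
  have hm : ∀ ε : ℝ, HasDerivAt (fun ε : ℝ => mom L x (t + ε * τ))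
      (τ • frc L x (t + ε * τ)) ε := fun ε => by
    have h2 := (hx.hasDerivAt_mom (t + ε * τ)).scomp ε (hs ε)
    exact h2
  have cL : Continuous fun s => L (jet x s) + k :=
    (hL.smooth.continuousOn.comp_continuous hx.contJet (t9sv1_mem x)).add continuous_const
  have ha : ∀ ε : ℝ, HasDerivAt (fun ε : ℝ => ac L k x t (t + ε * τ))
      (τ * mom L x (t + ε * τ) (vel x (t + ε * τ))) ε := fun ε => by
    have h1 := (cL.integral_hasStrictDerivAt t (t + ε * τ)).hasDerivAt.scomp ε (hs ε)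
    rw [hk]
    exact h1
  have hc : dmom L x η t (η t) - bt L x η t = τ * (frc L x t (η t) + frc L x t ν) := by
    have e1 : dmom L x η t (vel x t) = frc L x t (η t) := he t
    have e2 : dmom L x η t ν = dmom L x η t (η t) - τ * frc L x t (η t) := by
      rw [eν, map_sub, map_smul, e1, smul_eq_mul]
    rw [bt, ← hτ, ← hν, sub_apply, smul_apply, e2,
      smul_eq_mul]
    ring
  have key := t9sv1_second
    (H := fun ε : ℝ => ε * mom L x t (η t) + ε ^ 2 / 2 * dmom L x η t (η t) -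
        ac L k x t (t + ε * τ) - mom L x (t + ε * τ) (x t + ε • η t - x (t + ε * τ)) -
        ε ^ 2 / 2 * bt L x η t)
    (H' := fun ε : ℝ => mom L x t (η t) - mom L x (t + ε * τ) (η t)
        - τ * frc L x (t + ε * τ) (x t + ε • η t - x (t + ε * τ))
        + ε * (τ * (frc L x t (η t) + frc L x t ν)))
    (fun ε => by
      have h2 : HasDerivAt (fun ε : ℝ => ε ^ 2 / 2) ε ε := by
        simpa using (hasDerivAt_pow 2 ε).div_const 2
      have h1 := (((((hasDerivAt_id ε).mul_const (mom L x t (η t))).add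
        (h2.mul_const (dmom L x η t (η t)))).sub (ha ε)).sub
        ((hm ε).clm_apply (hg ε))).sub (h2.mul_const (bt L x η t))
      refine HasDerivAt.congr_deriv h1 ?_
      rw [← hc]
      simp only [map_sub, map_smul, smul_apply, smul_eq_mul]
      ring)
    (by
      have h1 := (hm 0).clm_apply (hasDerivAt_const (0 : ℝ) (η t))
      have h2 := t9sv1_prod (A := fun ε : ℝ => frc L x (t + ε * τ))
        (((hx.contFrc hL.smooth).comp (by fun_prop)).continuousAt) hg0 (by simp)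
      have h3 := (((h1.const_sub (mom L x t (η t))).sub (h2.const_mul τ)).add
        ((hasDerivAt_id (0 : ℝ)).mul_const (τ * (frc L x t (η t) + frc L x t ν))))
      refine HasDerivAt.congr_deriv h3 ?_
      simp only [map_zero, smul_apply, smul_eq_mul, zero_mul, add_zero]
      ring)
    (by simp [ac]) (by simp) hθ
  have him := (x t).im_pos
  have cy : Continuous fun ε : ℝ => (x t : ℂ) + ε • η t := by fun_prop
  have cw : Continuous fun ε : ℝ => x (t + ε * τ) := hx.continuous.comp (by fun_prop)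
  have e1 : ∀ᶠ ε : ℝ in 𝓝 0, (x t : ℂ) + ε • η t ∈ HP :=
    cy.continuousAt.eventually (isOpen_HP.mem_nhds (by simpa [HP] using him))
  have e2 : ∀ᶠ ε : ℝ in 𝓝 0, dist (ofComplex (x t + ε • η t)) (x (t + ε * τ)) ≤ 1 := by
    have h1 : ContinuousAt ofComplex ((x t : ℂ) + (0 : ℝ) • η t) :=
      (mdifferentiableAt_ofComplex (by simpa using him)).continuousAt
    have h2 := (ContinuousAt.comp (f := fun ε : ℝ => (x t : ℂ) + ε • η t) h1
      cy.continuousAt).dist cw.continuousAt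
    refine h2.eventually (ge_mem_nhds ?_)
    simp
  have e3 := hg0.isLittleO.bound (c := θ * (x t).im / 4) (by positivity)
  have e4 : ∀ᶠ ε : ℝ in 𝓝 0, 2 * (‖ν‖ + θ * (x t).im / 4) / (x (t + ε * τ)).im
      ≤ 2 * (‖ν‖ / (x t).im) + θ := by
    have h1 : Continuous fun ε : ℝ => 2 * (‖ν‖ + θ * (x t).im / 4) / (x (t + ε * τ)).im :=
      continuous_const.div (UpperHalfPlane.continuous_im.comp cw) fun ε => (x _).im_pos.ne'
    refine h1.continuousAt.eventually (ge_mem_nhds ?_)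
    have : 2 * (‖ν‖ + θ * (x t).im / 4) / (x t).im = 2 * (‖ν‖ / (x t).im) + θ / 2 := by
      field_simp
      ring
    simp only [zero_mul, add_zero, this]
    linarith
  filter_upwards [key, e1, e2, e3, e4] with ε k1 k2 k3 k4 k5
  refine ⟨k2, k1, ?_⟩
  have h1 := (near_cmp _ _ k3).2.1
  rw [ofComplex_apply_of_im_pos k2] at h1 ⊢
  simp only [zero_smul, add_zero, zero_mul, sub_self, sub_zero, Real.norm_eq_abs] at k4
  have h2 : ‖(x t : ℂ) + ε • η t - x (t + ε * τ)‖ ≤ |ε| * (‖ν‖ + θ * (x t).im / 4) := by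
    have h3 := norm_add_le ((x t : ℂ) + ε • η t - x (t + ε * τ) - ε • ν) (ε • ν)
    rw [sub_add_cancel, norm_smul, Real.norm_eq_abs] at h3
    linarith
  have hw := (x (t + ε * τ)).im_pos
  refine le_trans ?_ (mul_le_mul_of_nonneg_left k5 (abs_nonneg ε))
  rw [← mul_div_assoc, le_div_iff₀ hw, mul_comm]
  refine h1.trans ?_
  change 2 * ‖(x t : ℂ) + ε • η t - x (t + ε * τ)‖ ≤ _
  linarith

end Pool.Agent.Lib.MP_5bb885_an.Gen
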