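import Pool.Agent.Lib.MP_5bb885_an.T9SV1
import Pool.Agent.Lib.MP_5bb885_an.T9Crit

/-!
The second variation inequality along a closed calibrated curve.
-/

namespace Pool.Agent.Lib.MP_5bb885_an.Gen

open UpperHalfPlane MeasureTheory Filter Topology

variable {Γ : Type} [Group Γ] [MulAction Γ ℍ] {L : ℂ × ℂ → ℝ} {x : ℝ → ℍ} {u : ℍ → ℝ}
  {c : Γ → ℝ} {γ : Γ} {T : ℝ} {φ : ℂ → ℝ}

lemma t9sv2_dom (F : Deck Γ) (hL : Tonelli Γ L) (hc : c ∈ Coh Γ) (hφ : C2 Γ φ) {k K s : ℝ}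
    (hs : crit (addP L (s • φ)) c ≤ k + K) : ∃ v, Eqv c v ∧ ∀ y p q, Adm L y p q →
      v (y q) - v (y p) ≤ ac L k y p q + K * (q - p) + s * ∫ τ in p..q, φ (y τ) := by
  obtain ⟨v, hv, hd⟩ := exists_dom F (hL.add F (hφ.smul s)) hc
  have hcont : ContinuousOn (s • φ) HP := (hφ.smul s).1.continuousOn
  refine ⟨v, hv, fun y p q hy => ?_⟩
  have h1 := hd.mono hs y p q ((adm_addP hcont).2 hy)
  rw [hy.ac_addP hcont, hy.ac_const k (k + K)] at h1
  simp only [Pi.smul_apply, smul_eq_mul, intervalIntegral.integral_const_mul] at h1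
  linarith

lemma t9sv2_ac {k : ℝ} (hx : Cal L k u x) (p q : ℝ) : u (x q) - u (x p) = ac L k x p q := by
  rcases lt_trichotomy p q with h | rfl | h
  · exact (hx p q h).2
  · simp [ac]
  · have h1 := (hx q p h).2
    rw [ac, intervalIntegral.integral_symm] at h1
    rw [ac]
    linarith

lemma t9sv2_cont (hφ : C2 Γ φ) (hx : Continuous x) : Continuous fun t => φ (x t) :=
  hφ.1.continuousOn.comp_continuous (continuous_coe.comp hx) fun t => (x t).im_pos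

lemma t9sv2_close (hφ : C2 Γ φ) (hx : Continuous x) {Λ D p q : ℝ} (hΛ : 0 ≤ Λ)
    (hl : ∀ z w : ℍ, |φ z - φ w| ≤ Λ * dist z w) {y : ℝ → ℍ} (hy : Adm L y p q)
    (hD : ∀ s ∈ Set.Icc p q, dist (y s) (x s) ≤ D) :
    (∫ τ in p..q, φ (x τ)) - Λ * D * (q - p) ≤ ∫ τ in p..q, φ (y τ) := by
  have h1 : IntervalIntegrable (fun τ => φ (x τ)) volume p q :=
    (t9sv2_cont hφ hx).intervalIntegrable p q
  have h2 := t9adm_pot hφ.1.continuousOn hy.1.le hy.2.1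
  have h3 := intervalIntegral.integral_mono_on hy.1.le
    (h1.sub (intervalIntegrable_const (c := Λ * D))) h2 fun s hs => by
      have h4 := (abs_le.1 (hl (y s) (x s))).1
      have h5 := mul_le_mul_of_nonneg_left (hD s hs) hΛ
      linarith
  rw [intervalIntegral.integral_sub h1 intervalIntegrable_const, intervalIntegral.integral_const,
    smul_eq_mul] at h3
  linarith

lemma t9sv2_small {f : ℝ → ℝ} (hf : Continuous f) {a : ℝ} (h0 : f a = 0) (τ : ℝ) {θ : ℝ}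
    (hθ : 0 < θ) : ∀ᶠ ε : ℝ in 𝓝 0, |∫ t in a..a + ε * τ, f t| ≤ θ * |ε| := by
  have h1 : HasDerivAt (fun r => ∫ t in a..r, f t) (f a) (a + 0 * τ) := by
    rw [zero_mul, add_zero]
    exact (hf.integral_hasStrictDerivAt a a).hasDerivAt
  have h2 : HasDerivAt (fun ε : ℝ => a + ε * τ) τ 0 := by
    simpa using ((hasDerivAt_id (0 : ℝ)).mul_const τ).const_add a
  have h3 := (h1.comp (0 : ℝ) h2).isLittleO.bound hθ
  filter_upwards [h3] with ε hε
  simpa [h0] using hε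

lemma t9sv2_ev (A : ℝ) {δ : ℝ} (hδ : 0 < δ) : ∀ᶠ ε : ℝ in 𝓝 0, |ε * A| ≤ δ := by
  have h1 : Continuous fun ε : ℝ => |ε * A| := by fun_prop
  have h2 : Tendsto (fun ε : ℝ => |ε * A|) (𝓝 0) (𝓝 0) := by simpa using h1.tendsto 0
  exact h2.eventually (ge_mem_nhds hδ)

lemma t9sv2_per (hφ : C2 Γ φ) (hx : Continuous x) (hp : Per x γ T)
    (h0 : ∫ t in (0 : ℝ)..T, φ (x t) = 0) (j : ℤ) (p : ℝ) :
    ∫ t in p..p + j * T, φ (x t) = 0 := by
  have h1 : Function.Periodic (fun t => φ (x t)) T := fun t => by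
    simp only [hp.2 t, hφ.2 γ (x t)]
  have h2 := h1.intervalIntegral_add_zsmul_eq j p fun a b =>
    (t9sv2_cont hφ hx).intervalIntegrable a b
  rw [h1.intervalIntegral_add_eq p 0, zero_add, h0, zsmul_eq_mul] at h2
  simpa using h2

/-- The final arithmetic. -/
lemma t9sv2_arith {ε σ θ J B K C₁ C₂ Λ M na nb da db X I t : ℝ} (hε : 0 < ε) (hσ : 0 < σ)
    (hK : 0 ≤ K) (hC₁ : 0 ≤ C₁) (hC₂ : 0 ≤ C₂) (hΛ : 0 ≤ Λ) (ha0 : 0 ≤ da) (hb0 : 0 ≤ db)
    (ha : da ≤ ε * (2 * na + θ)) (hb : db ≤ ε * (2 * nb + θ)) (ht : t ≤ M)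
    (hX : X ≤ ε ^ 2 / 2 * B + 3 * θ * ε ^ 2 + C₂ * (da ^ 2 + db ^ 2))
    (hI : ε * J - 3 * θ * ε - Λ * C₁ * (da + db) ≤ I)
    (h : 0 ≤ X + C₁ * (da ^ 2 + db ^ 2) + K * (σ * ε) ^ 2 * t - σ * ε * I) :
    σ * J ≤ B / 2 + 3 * θ + (C₁ + C₂) * ((2 * na + θ) ^ 2 + (2 * nb + θ) ^ 2) + K * σ ^ 2 * M +
      3 * θ * σ + σ * Λ * C₁ * (2 * na + θ + (2 * nb + θ)) := by
  have h1 : da ^ 2 ≤ ε ^ 2 * (2 * na + θ) ^ 2 := by
    rw [← mul_pow]
    exact pow_le_pow_left₀ ha0 ha 2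
  have h2 : db ^ 2 ≤ ε ^ 2 * (2 * nb + θ) ^ 2 := by
    rw [← mul_pow]
    exact pow_le_pow_left₀ hb0 hb 2
  have h3 := mul_le_mul_of_nonneg_left (add_le_add h1 h2) (add_nonneg hC₁ hC₂)
  have h4 := mul_le_mul_of_nonneg_left hI (mul_pos hσ hε).le
  have h5 := mul_le_mul_of_nonneg_left (add_le_add ha hb)
    (mul_nonneg (mul_pos hσ hε).le (mul_nonneg hΛ hC₁))
  have h6 := mul_le_mul_of_nonneg_left ht (mul_nonneg hK (sq_nonneg (σ * ε)))
  refine le_of_mul_le_mul_left ?_ (pow_pos hε 2)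
  nlinarith

theorem sv_ineq (F : Deck Γ) (hL : Tonelli Γ L) (hc : c ∈ Coh Γ) (hu : Eqv c u)
    (hd : Dom L (crit L c) u) (hx : Cal L (crit L c) u x) (hp : Per x γ T) (hφ : C2 Γ φ)
    (h : TDa L c 0 φ 0) (h0 : ∫ t in (0 : ℝ)..T, φ (x t) = 0) : ∃ C : ℝ, 0 ≤ C ∧
      ∀ η, Jac L x η → En L x η → ∀ a b, a < b → φ (x a) = 0 → φ (x b) = 0 → ∀ σ : ℝ, 0 < σ →
        σ * ∫ t in a..b, fderiv ℝ φ (x t) (η t) ≤ (bt L x η b - bt L x η a) / 2 +
          C * ((‖nu x η a‖ / (x a).im) ^ 2 + (‖nu x η b‖ / (x b).im) ^ 2) +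
          C * σ * (‖nu x η a‖ / (x a).im + ‖nu x η b‖ / (x b).im) + C * σ ^ 2 * (b - a + C) := by
  have U := hL.unif1 F
  have hm : L ∈ ({L} : Set (ℂ × ℂ → ℝ)) := rfl
  set k := crit L c with hk
  have hR : Reg L x := hx.reg U hm hd
  have hxc : Continuous x := hR.continuous
  have hfc := t9sv2_cont hφ hxc
  obtain ⟨C₀, s₀, hs₀, hT⟩ := h
  obtain ⟨C₁, δ₁, hC₁, hδ₁, hJ⟩ := U.jump F |k| one_pos
  obtain ⟨C₂, δ₂, hC₂, hδ₂, h2⟩ := U.twoI F |k|
  replace hJ := hJ L hm hL k le_rfl u hd x hx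
  replace h2 := h2 L hm hL k le_rfl u hd x hx
  obtain ⟨Λ, hΛ, -, hl⟩ := hφ.lip F
  have hT0 := hp.1
  refine ⟨4 * (C₁ + C₂) + 2 * Λ * C₁ + |C₀| + 4 + T, by positivity, ?_⟩
  intro η hη he a b hab ha hb σ hσ
  have hη1 : ∀ t, HasDerivAt η (deriv η t) t := fun t => (hη t).1.hasDerivAt
  have hη2 : Continuous (deriv η) := JacA.contDeriv (hR.coef hL) hη
  have hηc : Continuous η := continuous_iff_continuousAt.2 fun t => (hη1 t).continuousAt
  set na := ‖nu x η a‖ / (x a).im with hna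
  set nb := ‖nu x η b‖ / (x b).im with hnb
  have hna0 : 0 ≤ na := div_nonneg (norm_nonneg _) (x a).im_pos.le
  have hnb0 : 0 ≤ nb := div_nonneg (norm_nonneg _) (x b).im_pos.le
  set J := ∫ t in a..b, fderiv ℝ φ (x t) (η t) with hJdef
  set j : ℤ := ⌈(b - a + 3) / T⌉ with hj
  have hj1 : b - a + 3 ≤ j * T := (div_le_iff₀ hT0).1 (Int.le_ceil _)
  have hj2 : j * T ≤ b - a + 3 + T := by
    have h3 : (j : ℝ) - 1 ≤ (b - a + 3) / T := by linarith [Int.ceil_lt_add_one ((b - a + 3) / T)]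
    have h4 := (le_div_iff₀ hT0).1 h3
    linarith
  have key : ∀ θ : ℝ, 0 < θ → σ * J ≤ (bt L x η b - bt L x η a) / 2 + 3 * θ +
      (C₁ + C₂) * ((2 * na + θ) ^ 2 + (2 * nb + θ) ^ 2) + |C₀| * σ ^ 2 * (b - a + 4 + T) +
      3 * θ * σ + σ * Λ * C₁ * (2 * na + θ + (2 * nb + θ)) := by
    intro θ hθ
    have hen := fun t => hx.energy U hm hd t
    have hδ : 0 < min δ₁ δ₂ := lt_min hδ₁ hδ₂
    have ev := (sv_expand hL.smooth hR hab hη1 hη2 k hθ).and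
      ((sv_pot hφ.1 hxc hab hηc hθ).and ((sv_end hL hR hen he a hθ).and
      ((sv_end hL hR hen he b hθ).and ((t9sv2_small hfc ha (tng x η a) hθ).and
      ((t9sv2_small hfc hb (tng x η b) hθ).and ((t9sv2_ev σ hs₀).and
      ((t9sv2_ev (tng x η a) (show (0 : ℝ) < 1 / 4 by norm_num)).and
      ((t9sv2_ev (tng x η b) (show (0 : ℝ) < 1 / 4 by norm_num)).and
      ((t9sv2_ev (2 * na + θ) hδ).and (t9sv2_ev (2 * nb + θ) hδ))))))))))
    obtain ⟨ε, ⟨⟨e1, e2, e3⟩, e4, ⟨a1, a2, a3⟩, ⟨b1, b2, b3⟩, a4, b4, e5, a5, b5, a6, b6⟩, hε⟩ :=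
      ((ev.filter_mono (nhdsWithin_le_nhds (s := Set.Ioi 0))).and self_mem_nhdsWithin).exists
    replace hε : 0 < ε := hε
    rw [abs_of_pos hε] at e4 a3 b3 a4 b4
    rw [hη.integral hL hR] at e3
    set a' := a + ε * tng x η a with ha'
    set b' := b + ε * tng x η b with hb'
    set wa : ℍ := ofComplex (x a + ε • η a) with hwa
    set wb : ℍ := ofComplex (x b + ε • η b) with hwb
    have hwa' : (wa : ℂ) = x a + ε • η a := by rw [hwa, ofComplex_apply_of_im_pos a1]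
    have hwb' : (wb : ℂ) = x b + ε • η b := by rw [hwb, ofComplex_apply_of_im_pos b1]
    have hda : dist wa (x a') ≤ min δ₁ δ₂ := a3.trans ((le_abs_self _).trans a6)
    have hdb : dist wb (x b') ≤ min δ₁ δ₂ := b3.trans ((le_abs_self _).trans b6)
    obtain ⟨-, y₁, p1, p2, p3, p4, p5⟩ := hJ a' wa (hda.trans (min_le_left _ _))
    obtain ⟨⟨y₃, q1, q2, q3, q4, q5⟩, -⟩ := hJ b' wb (hdb.trans (min_le_left _ _))
    have ta := abs_le.1 (h2 a' wa (hda.trans (min_le_right _ _)))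
    have tb := abs_le.1 (h2 b' wb (hdb.trans (min_le_right _ _)))
    rw [hwa'] at ta
    rw [hwb'] at tb
    have hs : crit (addP L ((-(σ * ε)) • φ)) c ≤ k + |C₀| * (σ * ε) ^ 2 := by
      have h3 := hT (-(σ * ε)) (by rwa [abs_neg, mul_comm])
      rw [smul_zero, add_zero, mul_zero, add_zero, neg_sq] at h3
      exact h3.trans (add_le_add_right
        (mul_le_mul_of_nonneg_right (le_abs_self C₀) (sq_nonneg _)) _)
    obtain ⟨v, hv, hD⟩ := t9sv2_dom F hL hc hφ hs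
    have ha5 := abs_le.1 a5
    have hb5 := abs_le.1 b5
    have hlt : b' + 1 < a' - 1 + j * T := by
      rw [ha', hb']
      linarith [ha5.1, hb5.2]
    have d1 := hD y₁ _ _ p1
    have d2 := hD _ _ _ e2
    have d3 := hD y₃ _ _ q1
    have d4 := hD x _ _ (hx _ _ hlt).1
    rw [p2, p3] at d1
    rw [q2, q3] at d3
    rw [← hwa, ← hwb] at d2
    rw [← t9sv2_ac hx] at d4
    have z1 : v (x (a' - 1 + j * T)) = v (x (a' - 1)) + c (γ ^ j) := by rw [hp.zpow, hv]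
    have z2 : u (x (a' - 1 + j * T)) = u (x (a' - 1)) + c (γ ^ j) := by rw [hp.zpow, hu]
    have i1 := t9sv2_close hφ hxc hΛ hl p1 p4
    have i3 := t9sv2_close hφ hxc hΛ hl q1 q4
    have i2 : ∫ τ in a..b, φ (ofComplex (x τ + ε • η τ) : ℍ) = ∫ τ in a..b, φ (x τ + ε • η τ) := by
      refine intervalIntegral.integral_congr fun τ hτ => ?_
      rw [Set.uIcc_of_le hab.le] at hτ
      simp only [ofComplex_apply_of_im_pos (e1 τ hτ)]
    rw [i2] at d2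
    have ii := fun p q r : ℝ => intervalIntegral.integral_add_adjacent_intervals
      (hfc.intervalIntegrable (μ := volume) p q) (hfc.intervalIntegrable q r)
    have i4 := t9sv2_per hφ hxc hp h0 j (a' - 1)
    have i5 := ii (a' - 1) a' b'
    have i6 := ii (a' - 1) b' (b' + 1)
    have i7 := ii (a' - 1) (b' + 1) (a' - 1 + j * T)
    have i8 := ii a a' b'
    have i9 := ii a b b'
    have c1 := t9sv2_ac hx a a'
    have c2 := t9sv2_ac hx b b'
    have c3 := t9sv2_ac hx a b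
    refine t9sv2_arith (da := dist wa (x a')) (db := dist wb (x b'))
      (X := u wa - u wb + ac L k (fun t => ofComplex (x t + ε • η t)) a b)
      (I := (∫ τ in a' - 1..a', φ (y₁ τ)) + (∫ τ in a..b, φ (x τ + ε • η τ)) +
        (∫ τ in b'..b' + 1, φ (y₃ τ)) + ∫ τ in b' + 1..a' - 1 + j * T, φ (x τ))
      (t := b - a + (a' - b') + j * T) hε hσ (abs_nonneg _) hC₁ hC₂ hΛ dist_nonneg dist_nonneg
      a3 b3 ?_ ?_ ?_ ?_
    · rw [ha', hb']
      linarith [ha5.2, hb5.1]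
    · linarith [(abs_le.1 e3).2, (abs_le.1 a2).1, (abs_le.1 b2).2, ta.2, tb.1]
    · linarith [(abs_le.1 e4).1, (abs_le.1 a4).1, (abs_le.1 b4).2]
    · linarith
  have hc0 : Continuous fun θ : ℝ => (bt L x η b - bt L x η a) / 2 + 3 * θ +
      (C₁ + C₂) * ((2 * na + θ) ^ 2 + (2 * nb + θ) ^ 2) + |C₀| * σ ^ 2 * (b - a + 4 + T) +
      3 * θ * σ + σ * Λ * C₁ * (2 * na + θ + (2 * nb + θ)) := by fun_prop
  have hlim := ge_of_tendsto ((hc0.tendsto 0).mono_left (nhdsWithin_le_nhds (s := Set.Ioi 0)))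
    (eventually_of_mem self_mem_nhdsWithin key)
  set C := 4 * (C₁ + C₂) + 2 * Λ * C₁ + |C₀| + 4 + T with hC
  have k0 := abs_nonneg C₀
  have k1 := mul_nonneg hΛ hC₁
  have m1 : 4 * (C₁ + C₂) * (na ^ 2 + nb ^ 2) ≤ C * (na ^ 2 + nb ^ 2) :=
    mul_le_mul_of_nonneg_right (by linarith) (by positivity)
  have m2 : 2 * Λ * C₁ * (σ * (na + nb)) ≤ C * (σ * (na + nb)) :=
    mul_le_mul_of_nonneg_right (by linarith) (by positivity)
  have m3 : |C₀| * σ ^ 2 * (b - a + 4 + T) ≤ C * σ ^ 2 * (b - a + C) :=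
    mul_le_mul (mul_le_mul_of_nonneg_right (by linarith) (sq_nonneg _)) (by linarith)
      (by linarith) (by positivity)
  nlinarith

end Pool.Agent.Lib.MP_5bb885_an.Gen
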