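import Pool.Agent.Lib.MP_5bb885_an.T9Mob

/-!
Taylor estimates for Tonelli Lagrangians.
-/

namespace Pool.Agent.Lib.MP_5bb885_an.Gen

open UpperHalfPlane MeasureTheory Filter Topology

variable {Γ : Type} [Group Γ] [MulAction Γ ℍ] {L : ℂ × ℂ → ℝ} {S : Set (ℂ × ℂ → ℝ)}
  {f φ : ℂ → ℝ}

lemma addP_zero (L : ℂ × ℂ → ℝ) : addP L 0 = L := by
  funext p
  simp [addP]

lemma addP_addP (L : ℂ × ℂ → ℝ) (f g : ℂ → ℝ) : addP (addP L f) g = addP L (f + g) := by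
  funext p
  simp [addP, add_assoc]

/-- First and second derivatives of a `C^2` function on an open set. -/
lemma t9tay_has {E : Type*} [NormedAddCommGroup E] [NormedSpace ℝ E] {g : E → ℝ} {s : Set E}
    (hs : IsOpen s) (hg : ContDiffOn ℝ 2 g s) {p : E} (hp : p ∈ s) :
    HasFDerivAt g (fderiv ℝ g p) p ∧ HasFDerivAt (fderiv ℝ g) (fderiv ℝ (fderiv ℝ g) p) p := by
  have h : ContDiffAt ℝ 2 g p := hg.contDiffAt (hs.mem_nhds hp)
  have h' : ContDiffAt ℝ 1 (fderiv ℝ g) p := h.fderiv_right (by norm_num)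
  exact ⟨(h.differentiableAt (by norm_num)).hasFDerivAt,
    (h'.differentiableAt (by norm_num)).hasFDerivAt⟩

lemma t9tay_cont {E : Type*} [NormedAddCommGroup E] [NormedSpace ℝ E] {g : E → ℝ} {s : Set E}
    (hs : IsOpen s) (hg : ContDiffOn ℝ 2 g s) :
    ContinuousOn g s ∧ ContinuousOn (fderiv ℝ g) s ∧ ContinuousOn (fderiv ℝ (fderiv ℝ g)) s := by
  have h1 : ContDiffOn ℝ 1 (fderiv ℝ g) s := hg.fderiv_of_isOpen hs (by norm_num)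
  exact ⟨hg.continuousOn, h1.continuousOn, h1.continuousOn_fderiv_of_isOpen hs le_rfl⟩

lemma t9tay_fderiv_addP (hL : ContDiffOn ℝ 2 L TH) (hf : ContDiffOn ℝ 2 f HP) {p : ℂ × ℂ}
    (hp : p ∈ TH) : fderiv ℝ (addP L f) p =
      fderiv ℝ L p + (fderiv ℝ f p.1).comp (ContinuousLinearMap.fst ℝ ℂ ℂ) := by
  have h1 := (t9tay_has isOpen_TH hL hp).1
  have h2 := (t9tay_has isOpen_HP hf (show p.1 ∈ HP from hp)).1
  exact (h1.add (h2.comp p (hasFDerivAt_fst (𝕜 := ℝ) (p := p)))).fderiv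

lemma fderiv_addP (hL : ContDiffOn ℝ 2 L TH) (hf : ContDiffOn ℝ 2 f HP) {p : ℂ × ℂ} (hp : p ∈ TH)
    (h : ℂ × ℂ) : fderiv ℝ (addP L f) p h = fderiv ℝ L p h + fderiv ℝ f p.1 h.1 := by
  rw [t9tay_fderiv_addP hL hf hp]
  rfl

lemma D2_addP (hL : ContDiffOn ℝ 2 L TH) (hf : ContDiffOn ℝ 2 f HP) {p : ℂ × ℂ} (hp : p ∈ TH)
    (h k : ℂ × ℂ) : D2 (addP L f) p h k = D2 L p h k + fderiv ℝ (fderiv ℝ f) p.1 h.1 k.1 := by
  have h1 := (t9tay_has isOpen_TH hL hp).2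
  have h2 := (t9tay_has isOpen_HP hf (show p.1 ∈ HP from hp)).2
  have he : fderiv ℝ (addP L f) =ᶠ[𝓝 p] fun q =>
      fderiv ℝ L q + (fderiv ℝ f q.1).comp (ContinuousLinearMap.fst ℝ ℂ ℂ) := by
    filter_upwards [isOpen_TH.mem_nhds hp] with q hq using t9tay_fderiv_addP hL hf hq
  have h3 := (h2.comp p (hasFDerivAt_fst (𝕜 := ℝ) (p := p))).clm_comp
    (hasFDerivAt_const (ContinuousLinearMap.fst ℝ ℂ ℂ) p)
  have h4 := (h1.add h3).congr_of_eventuallyEq he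
  unfold D2
  rw [h4.fderiv]
  simp

lemma hasFDerivAt_L (hL : ContDiffOn ℝ 2 L TH) {p : ℂ × ℂ} (hp : p ∈ TH) :
    HasFDerivAt L (fderiv ℝ L p) p ∧ HasFDerivAt (fderiv ℝ L) (D2 L p) p :=
  t9tay_has isOpen_TH hL hp

lemma continuousOn_D2 (hL : ContDiffOn ℝ 2 L TH) : ContinuousOn (D2 L) TH :=
  (t9tay_cont isOpen_TH hL).2.2

lemma D2_symm (hL : ContDiffOn ℝ 2 L TH) {p : ℂ × ℂ} (hp : p ∈ TH) (h k : ℂ × ℂ) :
    D2 L p h k = D2 L p k h := by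
  have h1 : ContDiffAt ℝ 2 L p := hL.contDiffAt (isOpen_TH.mem_nhds hp)
  exact h1.isSymmSndFDerivAt (by simp) h k

lemma Pot.c2 (h : Pot Γ f) : C2 Γ f :=
  ⟨h.smooth.of_le (by norm_cast), h.inv⟩

lemma c2_zero : C2 Γ 0 := ⟨contDiffOn_const, fun _ _ => rfl⟩

lemma C2.add {g : ℂ → ℝ} (hf : C2 Γ f) (hg : C2 Γ g) : C2 Γ (f + g) :=
  ⟨hf.1.add hg.1, fun γ z => by simp only [Pi.add_apply, hf.2 γ z, hg.2 γ z]⟩

lemma C2.smul (hf : C2 Γ f) (s : ℝ) : C2 Γ (s • f) :=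
  ⟨hf.1.const_smul s, fun γ z => by simp only [Pi.smul_apply, hf.2 γ z]⟩

/-- Bounds of a `C^2` function on a compact set. -/
lemma t9tay_bd {E : Type*} [NormedAddCommGroup E] [NormedSpace ℝ E] {g : E → ℝ} {s K : Set E}
    (hs : IsOpen s) (hg : ContDiffOn ℝ 2 g s) (hK : IsCompact K) (hKs : K ⊆ s) :
    ∃ M : ℝ, 0 ≤ M ∧ ∀ z ∈ K, |g z| ≤ M ∧ ‖fderiv ℝ g z‖ ≤ M ∧
      ‖fderiv ℝ (fderiv ℝ g) z‖ ≤ M := by
  obtain ⟨h0, h1, h2⟩ := t9tay_cont hs hg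
  obtain ⟨M0, hM0⟩ := hK.exists_bound_of_continuousOn (h0.mono hKs)
  obtain ⟨M1, hM1⟩ := hK.exists_bound_of_continuousOn (h1.mono hKs)
  obtain ⟨M2, hM2⟩ := hK.exists_bound_of_continuousOn (f := fderiv ℝ (fderiv ℝ g)) (h2.mono hKs)
  refine ⟨|M0| + |M1| + |M2|, by positivity, fun z hz => ⟨?_, ?_, ?_⟩⟩
  · have := hM0 z hz
    rw [Real.norm_eq_abs] at this
    linarith [le_abs_self M0, abs_nonneg M1, abs_nonneg M2]
  · linarith [hM1 z hz, le_abs_self M1, abs_nonneg M0, abs_nonneg M2]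
  · linarith [hM2 z hz, le_abs_self M2, abs_nonneg M0, abs_nonneg M1]

lemma C2.lip (F : Deck Γ) (hφ : C2 Γ φ) : ∃ Λ : ℝ, 0 ≤ Λ ∧ (∀ z : ℍ, |φ z| ≤ Λ) ∧
    ∀ z w : ℍ, |φ z - φ w| ≤ Λ * dist z w := by
  obtain ⟨R, hR⟩ := F.cpt
  obtain ⟨M, hM0, hM⟩ := t9tay_bd isOpen_HP hφ.1 (isCompact_KB (R + 1)) (KB_sub _)
  obtain ⟨C, hC1, hC⟩ := KB_cmp (R + 1)
  have hb : ∀ z : ℍ, |φ z| ≤ M := fun z => by
    obtain ⟨γ, hγ⟩ := hR z
    rw [← hφ.2 γ z]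
    exact (hM _ (mem_KB.2 (by linarith))).1
  refine ⟨2 * M * C, by positivity, fun z => (hb z).trans (by nlinarith), fun z w => ?_⟩
  rcases le_total (dist z w) 1 with h | h
  · obtain ⟨γ, hγ⟩ := hR z
    have hd := F.iso γ z w
    have hz : dist (γ • z) I ≤ R + 1 := by linarith
    have hw : dist (γ • w) I ≤ R + 1 := by
      have := dist_triangle (γ • w) (γ • z) I
      rw [dist_comm (γ • w) (γ • z)] at this
      linarith
    have hmv := (convex_KB (R + 1)).norm_image_sub_le_of_norm_hasFDerivWithin_le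
      (f := φ) (f' := fderiv ℝ φ) (C := M)
      (fun x hx => (t9tay_has isOpen_HP hφ.1 (KB_sub _ hx)).1.hasFDerivWithinAt)
      (fun x hx => (hM x hx).2.1) (mem_KB.2 hw) (mem_KB.2 hz)
    rw [hφ.2, hφ.2, Real.norm_eq_abs] at hmv
    have h2 := (hC _ _ hz hw).2.1
    rw [hd] at h2
    have h3 : M * ‖((γ • z : ℍ) : ℂ) - (γ • w : ℍ)‖ ≤ M * (C * dist z w) :=
      mul_le_mul_of_nonneg_left h2 hM0
    have h4 : 0 ≤ M * C * dist z w := by positivity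
    nlinarith
  · have h1 : |φ z - φ w| ≤ 2 * M := by
      have := abs_sub (φ z) (φ w)
      linarith [hb z, hb w]
    have h2 : 1 ≤ C * dist z w := by nlinarith
    nlinarith

lemma t9tay_smooth_addP (hL : ContDiffOn ℝ 2 L TH) (hf : ContDiffOn ℝ 2 f HP) :
    ContDiffOn ℝ 2 (addP L f) TH :=
  hL.add (hf.comp contDiffOn_fst fun _ hp => hp)

lemma Tonelli.add (F : Deck Γ) (hL : Tonelli Γ L) (hf : C2 Γ f) : Tonelli Γ (addP L f) := by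
  obtain ⟨Λ, -, hΛ, -⟩ := hf.lip F
  refine ⟨t9tay_smooth_addP hL.smooth hf.1, fun γ z v => ?_, fun p hp w hw => ?_, fun A => ?_⟩
  · simp only [addP, hL.inv γ z v, hf.2 γ z]
  · rw [D2_addP hL.smooth hf.1 hp]
    simpa using hL.convex p hp w hw
  · obtain ⟨B, hB⟩ := hL.superlinear A
    refine ⟨B + Λ, fun z v => ?_⟩
    have h1 := hB z v
    have h2 := (abs_le.1 (hΛ z)).1
    simp only [addP]
    linarith


lemma t9tay_KT (R r : ℝ) : IsCompact (KB R ×ˢ Metric.closedBall (0 : ℂ) r) ∧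
    Convex ℝ (KB R ×ˢ Metric.closedBall (0 : ℂ) r) ∧ KB R ×ˢ Metric.closedBall (0 : ℂ) r ⊆ TH :=
  ⟨(isCompact_KB R).prod (isCompact_closedBall _ _), (convex_KB R).prod (convex_closedBall _ _),
    fun _ hp => KB_sub R hp.1⟩

lemma t9tay_mem {R r : ℝ} {p : ℂ × ℂ} (h1 : p.1 ∈ KB R) (h2 : ‖p.2‖ ≤ r) :
    p ∈ KB R ×ˢ Metric.closedBall (0 : ℂ) r :=
  ⟨h1, mem_closedBall_zero_iff.2 h2⟩

/-- Uniform convexity in the velocity on compact sets. -/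
lemma t9tay_cvx (hL : Tonelli Γ L) (R r : ℝ) : ∃ m : ℝ, 0 < m ∧ ∀ z ∈ KB R, ∀ v : ℂ, ‖v‖ ≤ r →
    ∀ w : ℂ, m * ‖w‖ ^ 2 ≤ D2 L (z, v) (0, w) (0, w) := by
  obtain ⟨hK, -, hs⟩ := t9tay_KT R r
  have hc : ContinuousOn (fun q : (ℂ × ℂ) × ℂ => D2 L q.1 (0, q.2) (0, q.2))
      ((KB R ×ˢ Metric.closedBall (0 : ℂ) r) ×ˢ Metric.sphere (0 : ℂ) 1) := by
    have h1 : ContinuousOn (fun q : (ℂ × ℂ) × ℂ => D2 L q.1)
        ((KB R ×ˢ Metric.closedBall (0 : ℂ) r) ×ˢ Metric.sphere (0 : ℂ) 1) :=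
      (continuousOn_D2 hL.smooth).comp continuousOn_fst fun q hq => hs hq.1
    have h2 : Continuous fun q : (ℂ × ℂ) × ℂ => ((0, q.2) : ℂ × ℂ) := by fun_prop
    exact (h1.clm_apply h2.continuousOn).clm_apply h2.continuousOn
  obtain ⟨m, hm, h⟩ := (hK.prod (isCompact_sphere (0 : ℂ) 1)).exists_forall_le' hc (a := 0)
    fun q hq => hL.convex q.1 (hs hq.1) q.2 (by
      rintro h0
      have := hq.2
      rw [h0] at this
      simp at this)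
  refine ⟨m, hm, fun z hz v hv w => ?_⟩
  rcases eq_or_ne w 0 with rfl | hw
  · have : ((0, 0) : ℂ × ℂ) = 0 := rfl
    simp [this]
  have hn : 0 < ‖w‖ := norm_pos_iff.2 hw
  have h1 := h ((z, v), ‖w‖⁻¹ • w) ⟨t9tay_mem hz hv, by simp [hn.ne']⟩
  have h2 : ((0, w) : ℂ × ℂ) = ‖w‖ • ((0, ‖w‖⁻¹ • w) : ℂ × ℂ) := by
    rw [Prod.smul_mk, smul_zero, smul_smul, mul_inv_cancel₀ hn.ne', one_smul]
  rw [h2, map_smul, map_smul]
  simp only [smul_apply, smul_eq_mul]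
  nlinarith [mul_le_mul_of_nonneg_left h1 (sq_nonneg ‖w‖)]

lemma Tonelli.unif (F : Deck Γ) (hL : Tonelli Γ L) {P : Set (ℂ → ℝ)} (h1 : ∀ f ∈ P, C2 Γ f)
    (h2 : BddC2 P) : Unif (addP L '' P) := by
  obtain ⟨R₀, hR₀⟩ := F.cpt
  obtain ⟨M₀, hM₀⟩ := h2 R₀
  have hb : ∀ f ∈ P, ∀ z : ℍ, |f z| ≤ M₀ := fun f hf z => by
    obtain ⟨γ, hγ⟩ := hR₀ z
    rw [← (h1 f hf).2 γ z]
    exact (hM₀ f hf _ (mem_KB.2 hγ)).1
  refine ⟨?_, fun A => ?_, fun r => ?_, fun R r => ?_, fun R r => ?_⟩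
  · rintro _ ⟨f, hf, rfl⟩
    exact t9tay_smooth_addP hL.smooth (h1 f hf).1
  · obtain ⟨B, hB⟩ := hL.superlinear A
    refine ⟨B + M₀, ?_⟩
    rintro _ ⟨f, hf, rfl⟩ z v
    have h3 := hB z v
    have h4 := (abs_le.1 (hb f hf z)).1
    simp only [addP]
    linarith
  · obtain ⟨C, hC1, hC⟩ := KB_cmp R₀
    obtain ⟨hK, -, hs⟩ := t9tay_KT R₀ (C * |r|)
    obtain ⟨M, -, hM⟩ := t9tay_bd isOpen_TH hL.smooth hK hs
    refine ⟨M + M₀, ?_⟩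
    rintro _ ⟨f, hf, rfl⟩ z v hv
    obtain ⟨γ, hγ⟩ := hR₀ z
    have h3 : ‖dk γ z v‖ ≤ C * |r| := by
      have h4 := F.norm_dk γ z v
      have h5 := (hC _ _ hγ hγ).2.2.2
      have h6 : ‖dk γ z v‖ ≤ |r| * (γ • z).im := by
        rw [← div_le_iff₀ (γ • z).im_pos, h4]
        exact hv.trans (le_abs_self r)
      nlinarith [abs_nonneg r]
    have h4 := (abs_le.1 (hM ((γ • z : ℍ), dk γ z v) (t9tay_mem (mem_KB.2 hγ) h3)).1).2
    have h5 := (abs_le.1 (hb f hf z)).2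
    rw [hL.inv] at h4
    simp only [addP]
    linarith
  · obtain ⟨hK, -, hs⟩ := t9tay_KT R r
    obtain ⟨M, hM0, hM⟩ := t9tay_bd isOpen_TH hL.smooth hK hs
    obtain ⟨N, hN⟩ := h2 R
    refine ⟨M + |N|, ?_⟩
    rintro _ ⟨f, hf, rfl⟩ z hz v hv
    have hp : ((z, v) : ℂ × ℂ) ∈ TH := KB_sub R hz
    obtain ⟨-, hM1, hM2⟩ := hM (z, v) (t9tay_mem hz hv)
    obtain ⟨-, hN1, hN2⟩ := hN f hf z hz
    have hN' := le_abs_self N
    constructor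
    · refine ContinuousLinearMap.opNorm_le_bound _ (by positivity) fun h => ?_
      rw [fderiv_addP hL.smooth (h1 f hf).1 hp]
      have a1 := (fderiv ℝ L (z, v)).le_of_opNorm_le hM1 h
      have a2 := (fderiv ℝ f z).le_of_opNorm_le_of_le (hN1.trans hN') (norm_fst_le h)
      exact (norm_add_le _ _).trans (by linarith)
    · refine ContinuousLinearMap.opNorm_le_bound₂ _ (by positivity) fun h k => ?_
      rw [D2_addP hL.smooth (h1 f hf).1 hp]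
      have a1 := (D2 L (z, v)).le_of_opNorm₂_le_of_le hM2 (le_refl ‖h‖) (le_refl ‖k‖)
      have a2 := (fderiv ℝ (fderiv ℝ f) z).le_of_opNorm₂_le_of_le (hN2.trans hN') (norm_fst_le h)
        (norm_fst_le k)
      exact (norm_add_le _ _).trans (by linarith)
  · obtain ⟨m, hm, h⟩ := t9tay_cvx hL R r
    refine ⟨m, hm, ?_⟩
    rintro _ ⟨f, hf, rfl⟩ z hz v hv w
    have hp : ((z, v) : ℂ × ℂ) ∈ TH := KB_sub R hz
    rw [D2_addP hL.smooth (h1 f hf).1 hp]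
    simpa using h z hz v hv w

lemma t9tay_zero_bd {M : ℝ} (hM : 0 ≤ M) (z : ℂ) : |(0 : ℂ → ℝ) z| ≤ M ∧
    ‖fderiv ℝ (0 : ℂ → ℝ) z‖ ≤ M ∧ ‖fderiv ℝ (fderiv ℝ (0 : ℂ → ℝ)) z‖ ≤ M := by
  have e : fderiv ℝ (0 : ℂ → ℂ →L[ℝ] ℝ) = 0 := fderiv_zero
  rw [fderiv_zero, e]
  exact ⟨by simpa using hM, by simpa using hM, (ContinuousLinearMap.opNorm_zero).trans_le hM⟩

lemma Tonelli.unif1 (F : Deck Γ) (hL : Tonelli Γ L) : Unif {L} := by
  have h := hL.unif F (P := {0}) (by rintro _ rfl; exact c2_zero)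
    fun R => ⟨0, by rintro _ rfl z _; exact t9tay_zero_bd le_rfl z⟩
  rwa [Set.image_singleton, addP_zero] at h

lemma C2.bdd_smul (hφ : C2 Γ φ) : BddC2 {f | ∃ s : ℝ, |s| ≤ 1 ∧ f = s • φ} := by
  intro R
  obtain ⟨M, hM0, hM⟩ := t9tay_bd isOpen_HP hφ.1 (isCompact_KB R) (KB_sub _)
  refine ⟨M, ?_⟩
  rintro _ ⟨s, hs, rfl⟩ z hz
  obtain ⟨a0, a1, a2⟩ := hM z hz
  have e1 : fderiv ℝ (s • φ) = s • fderiv ℝ φ := fderiv_const_smul_field s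
  have e2 : fderiv ℝ (s • fderiv ℝ φ) = s • fderiv ℝ (fderiv ℝ φ) :=
    fderiv_const_smul_field (𝕜 := ℝ) (f := fderiv ℝ φ) s
  rw [e1, e2]
  simp only [Pi.smul_apply, norm_smul, smul_eq_mul, abs_mul, Real.norm_eq_abs]
  exact ⟨(mul_le_of_le_one_left (abs_nonneg _) hs).trans a0,
    (mul_le_of_le_one_left (norm_nonneg _) hs).trans a1,
    (ContinuousLinearMap.opNorm_smul_le s _).trans
      ((mul_le_of_le_one_left (ContinuousLinearMap.opNorm_nonneg _) hs).trans a2)⟩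

lemma bddC2_of_toZero {f : ℕ → ℂ → ℝ} (h1 : ∀ n, C2 Γ (f n)) (h2 : ToZero atTop f) :
    BddC2 (insert 0 (Set.range f)) := by
  intro R
  obtain ⟨N, hN⟩ := eventually_atTop.1 (h2 R 1 one_pos)
  choose M hM0 hM using fun n => t9tay_bd isOpen_HP (h1 n).1 (isCompact_KB R) (KB_sub _)
  have hs : 0 ≤ ∑ n ∈ Finset.range N, M n := Finset.sum_nonneg fun n _ => hM0 n
  refine ⟨1 + ∑ n ∈ Finset.range N, M n, ?_⟩
  rintro _ (rfl | ⟨n, rfl⟩) z hz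
  · exact t9tay_zero_bd (by linarith) z
  rcases le_or_gt N n with hn | hn
  · obtain ⟨a0, a1, a2⟩ := hN n hn z hz
    exact ⟨by linarith, by linarith, by linarith⟩
  · obtain ⟨a0, a1, a2⟩ := hM n z hz
    have := Finset.single_le_sum (f := M) (fun n _ => hM0 n) (Finset.mem_range.2 hn)
    exact ⟨by linarith, by linarith, by linarith⟩

lemma ToZero.sup (F : Deck Γ) {l : Filter ℕ} {f : ℕ → ℂ → ℝ} (h1 : ∀ n, C2 Γ (f n))
    (h2 : ToZero l f) {ε : ℝ} (hε : 0 < ε) : ∀ᶠ n in l, ∀ z : ℍ, |f n z| ≤ ε := by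
  obtain ⟨R, hR⟩ := F.cpt
  filter_upwards [h2 R ε hε] with n hn z
  obtain ⟨γ, hγ⟩ := hR z
  rw [← (h1 n).2 γ z]
  exact (hn _ (mem_KB.2 hγ)).1


lemma Unif.taylor (U : Unif S) (R r : ℝ) : ∃ M : ℝ, 0 ≤ M ∧ ∀ L ∈ S, ∀ p q : ℂ × ℂ,
    p.1 ∈ KB R → q.1 ∈ KB R → ‖p.2‖ ≤ r → ‖q.2‖ ≤ r →
      |L p| ≤ M ∧ ‖fderiv ℝ L p‖ ≤ M ∧ |L q - L p| ≤ M * ‖q - p‖ ∧
      |L q - L p - fderiv ℝ L p (q - p)| ≤ M * ‖q - p‖ ^ 2 ∧
      ‖fderiv ℝ L q - fderiv ℝ L p‖ ≤ M * ‖q - p‖ := by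
  obtain ⟨M₁, hM₁⟩ := U.bd R r
  obtain ⟨B₀, hB₀⟩ := U.sup 0
  obtain ⟨C, hC1, hC⟩ := KB_cmp R
  obtain ⟨B₁, hB₁⟩ := U.up (C * r)
  obtain ⟨-, hcv, hs⟩ := t9tay_KT R r
  set M := |M₁| + |B₀| + |B₁| with hM
  have hM1 : M₁ ≤ M := by linarith [le_abs_self M₁, abs_nonneg B₀, abs_nonneg B₁]
  have hM0 : 0 ≤ M := by positivity
  refine ⟨M, hM0, fun L hL p q hp hq hp' hq' => ?_⟩
  have hsm := U.smooth L hL
  have hb : ∀ x ∈ KB R ×ˢ Metric.closedBall (0 : ℂ) r, ‖fderiv ℝ L x‖ ≤ M ∧ ‖D2 L x‖ ≤ M :=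
    fun x hx => by
      obtain ⟨a, b⟩ := hM₁ L hL x.1 hx.1 x.2 (mem_closedBall_zero_iff.1 hx.2)
      exact ⟨a.trans hM1, b.trans hM1⟩
  have hlip : ∀ x ∈ KB R ×ˢ Metric.closedBall (0 : ℂ) r, ∀ y ∈ KB R ×ˢ Metric.closedBall (0 : ℂ) r,
      ‖fderiv ℝ L y - fderiv ℝ L x‖ ≤ M * ‖y - x‖ := fun x hx y hy =>
    hcv.norm_image_sub_le_of_norm_hasFDerivWithin_le (f := fderiv ℝ L) (f' := D2 L)
      (fun x hx => (hasFDerivAt_L hsm (hs hx)).2.hasFDerivWithinAt) (fun x hx => (hb x hx).2) hx hy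
  have hpK := t9tay_mem hp hp'
  have hqK := t9tay_mem hq hq'
  refine ⟨?_, (hb p hpK).1, ?_, ?_, hlip p hpK q hqK⟩
  · obtain ⟨z, v⟩ := p
    obtain ⟨z, hz, rfl⟩ : ∃ w : ℍ, dist w I ≤ R ∧ (w : ℂ) = z := hp
    have h1 := hB₀ L hL z v
    have h2 := hB₁ L hL z v (by
      have h3 := (hC z z hz hz).2.2.1
      have h4 : 1 ≤ C * z.im := by
        rwa [inv_le_iff_one_le_mul₀' (by linarith)] at h3
      have h5 : 0 ≤ r := (norm_nonneg _).trans hp'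
      rw [div_le_iff₀ z.im_pos]
      have h6 : ‖v‖ ≤ r := hp'
      nlinarith)
    rw [abs_le]
    constructor
    · linarith [le_abs_self B₀, abs_nonneg M₁, abs_nonneg B₁]
    · linarith [le_abs_self B₁, abs_nonneg M₁, abs_nonneg B₀]
  · exact hcv.norm_image_sub_le_of_norm_hasFDerivWithin_le (f := L) (f' := fderiv ℝ L)
      (fun x hx => (hasFDerivAt_L hsm (hs hx)).1.hasFDerivWithinAt) (fun x hx => (hb x hx).1)
      hpK hqK
  · have h := (hcv.inter (convex_closedBall p ‖q - p‖)).norm_image_sub_le_of_norm_hasFDerivWithin_le'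
      (f := L) (f' := fderiv ℝ L) (φ := fderiv ℝ L p) (C := M * ‖q - p‖)
      (fun x hx => (hasFDerivAt_L hsm (hs hx.1)).1.hasFDerivWithinAt)
      (fun x hx => (hlip p hpK x hx.1).trans
        (mul_le_mul_of_nonneg_left (mem_closedBall_iff_norm.1 hx.2) hM0))
      ⟨hpK, Metric.mem_closedBall_self (norm_nonneg _)⟩ ⟨hqK, mem_closedBall_iff_norm.2 le_rfl⟩
    rw [Real.norm_eq_abs] at h
    exact h.trans_eq (by ring)

/-- Derivatives along a segment in a fibre. -/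
lemma t9tay_seg (hL : ContDiffOn ℝ 2 L TH) {z : ℂ} (hz : 0 < z.im) (v w : ℂ) (t : ℝ) :
    HasDerivAt (fun s : ℝ => L (z, v + s • w)) (fderiv ℝ L (z, v + t • w) (0, w)) t ∧
    HasDerivAt (fun s : ℝ => fderiv ℝ L (z, v + s • w) (0, w))
      (D2 L (z, v + t • w) (0, w) (0, w)) t := by
  have h1 : HasDerivAt (fun s : ℝ => ((z, v + s • w) : ℂ × ℂ)) (0, w) t := by
    have := (hasDerivAt_const t z).prodMk (((hasDerivAt_id t).smul_const w).const_add v)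
    simpa using this
  obtain ⟨h2, h3⟩ := hasFDerivAt_L hL (p := (z, v + t • w)) hz
  have h5 := HasFDerivAt.comp_hasDerivAt (f := fun s : ℝ => ((z, v + s • w) : ℂ × ℂ)) t h2 h1
  have h6 := HasFDerivAt.comp_hasDerivAt (f := fun s : ℝ => ((z, v + s • w) : ℂ × ℂ)) t h3 h1
  have h4 := h6.clm_apply (hasDerivAt_const t ((0, w) : ℂ × ℂ))
  rw [map_zero, add_zero] at h4
  exact ⟨h5, h4⟩

lemma t9tay_slope {g g' : ℝ → ℝ} (h : ∀ t, HasDerivAt g (g' t) t) {b : ℝ} (hb : 0 < b) :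
    ∃ c ∈ Set.Ioo 0 b, g b - g 0 = b * g' c := by
  obtain ⟨c, hc, h1⟩ := exists_hasDerivAt_eq_slope g g' hb
    (fun t _ => (h t).continuousAt.continuousWithinAt) fun t _ => h t
  refine ⟨c, hc, ?_⟩
  rw [h1, sub_zero]
  field_simp

lemma Unif.strong (U : Unif S) (R r : ℝ) : ∃ m : ℝ, 0 < m ∧ ∀ L ∈ S, ∀ z ∈ KB R, ∀ v v' : ℂ,
    ‖v‖ ≤ r → ‖v'‖ ≤ r →
      m * ‖v - v'‖ ^ 2 ≤ fderiv ℝ L (z, v) (0, v - v') - fderiv ℝ L (z, v') (0, v - v') := by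
  obtain ⟨m, hm, h⟩ := U.cvx R r
  refine ⟨m, hm, fun L hL z hz v v' hv hv' => ?_⟩
  obtain ⟨c, hc, h1⟩ := t9tay_slope
    (fun t => (t9tay_seg (U.smooth L hL) (KB_sub R hz) v' (v - v') t).2) one_pos
  simp only [one_smul, add_sub_cancel, zero_smul, add_zero, one_mul] at h1
  rw [h1]
  refine h L hL z hz _ ?_ _
  have h2 := (convex_closedBall (0 : ℂ) r).add_smul_sub_mem (mem_closedBall_zero_iff.2 hv')
    (mem_closedBall_zero_iff.2 hv) ⟨hc.1.le, hc.2.le⟩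
  exact mem_closedBall_zero_iff.1 h2

lemma Unif.support (U : Unif S) (hL : L ∈ S) (z : ℍ) (v v' : ℂ) :
    L (z, v) + fderiv ℝ L (z, v) (0, v' - v) ≤ L (z, v') := by
  have hs := t9tay_seg (U.smooth L hL) (z := z) z.im_pos v (v' - v)
  obtain ⟨c, hc, h1⟩ := t9tay_slope (fun t => (hs t).1) one_pos
  obtain ⟨d, -, h2⟩ := t9tay_slope (fun t => (hs t).2) hc.1
  simp only [one_smul, add_sub_cancel, zero_smul, add_zero, one_mul] at h1 h2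
  obtain ⟨m, hm, h⟩ := U.cvx (dist z I) ‖v + d • (v' - v)‖
  have h3 := h L hL z (mem_KB.2 le_rfl) _ le_rfl (v' - v)
  have h4 : 0 ≤ m * ‖v' - v‖ ^ 2 := by positivity
  nlinarith [mul_nonneg hc.1.le (h4.trans h3)]


lemma Unif.plane (U : Unif S) (hL : L ∈ S) (z₀ : ℍ) (v₀ : ℂ) {η : ℝ} (hη : 0 < η) :
    ∀ᶠ z : ℍ in 𝓝 z₀, ∀ v : ℂ, L (z₀, v₀) + fderiv ℝ L (z₀, v₀) (0, v - v₀) - η ≤ L (z, v) := by
  set a := L (z₀, v₀) with ha
  set l := fderiv ℝ L (z₀, v₀) with hl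
  obtain ⟨B, hB⟩ := U.sup (2 * z₀.im * (‖l‖ + 1))
  set ρ := |a| + ‖l‖ * ‖v₀‖ + |B| + ‖v₀‖ + 1 with hρ
  have hρ0 : 0 < ρ := by positivity
  obtain ⟨c0, c1, -⟩ := t9tay_cont isOpen_TH (U.smooth L hL)
  have hp : ((z₀, v₀) : ℂ × ℂ) ∈ TH := z₀.im_pos
  have hj : Tendsto (fun z : ℍ => ((z, v₀) : ℂ × ℂ)) (𝓝 z₀) (𝓝 (z₀, v₀)) :=
    (UpperHalfPlane.continuous_coe.prodMk continuous_const).tendsto z₀
  have e0 := Metric.tendsto_nhds.1 ((c0.continuousAt (isOpen_TH.mem_nhds hp)).tendsto.comp hj)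
    (η / 2) (by positivity)
  have e1 := Metric.tendsto_nhds.1 ((c1.continuousAt (isOpen_TH.mem_nhds hp)).tendsto.comp hj)
    (η / 2 / ρ) (by positivity)
  have e2 : ∀ᶠ z : ℍ in 𝓝 z₀, z.im < 2 * z₀.im :=
    (UpperHalfPlane.continuous_im.tendsto z₀).eventually_lt_const (by linarith [z₀.im_pos])
  filter_upwards [e0, e1, e2] with z h0 h1 h2 v
  have hn : ‖((0, v - v₀) : ℂ × ℂ)‖ = ‖v - v₀‖ := by simp
  rcases le_total ‖v - v₀‖ ρ with h | h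
  · have h3 := U.support hL z v₀ v
    simp only [Function.comp_apply, dist_eq_norm] at h0 h1
    have h4 := (fderiv ℝ L (z, v₀) - l).le_of_opNorm_le_of_le h1.le (hn.trans_le h)
    rw [div_mul_cancel₀ _ hρ0.ne', Real.norm_eq_abs, sub_apply] at h4
    rw [Real.norm_eq_abs] at h0
    linarith [(abs_le.1 h4).1, (abs_lt.1 h0).1]
  · have h3 := hB L hL z v
    have h4 : (‖l‖ + 1) * ‖v‖ ≤ 2 * z₀.im * (‖l‖ + 1) * (‖v‖ / z.im) := by
      rw [← mul_div_assoc, le_div_iff₀ z.im_pos]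
      have : 0 ≤ (‖l‖ + 1) * ‖v‖ := by positivity
      nlinarith
    have h5 := l.le_opNorm (0, v - v₀)
    rw [hn, Real.norm_eq_abs] at h5
    have h6 := norm_sub_le v v₀
    have h7 := mul_le_mul_of_nonneg_left h6 (norm_nonneg l)
    linarith [le_abs_self (l (0, v - v₀)), le_abs_self a, le_abs_self B]

lemma taylor2 (hL : ContDiffOn ℝ 2 L TH) (R r : ℝ) {ε : ℝ} (hε : 0 < ε) : ∃ δ : ℝ, 0 < δ ∧
    ∀ p : ℂ × ℂ, p.1 ∈ KB R → ‖p.2‖ ≤ r → ∀ h h' : ℂ × ℂ, ‖h‖ ≤ δ → ‖h'‖ ≤ δ →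
      |L (p + h) - L p - fderiv ℝ L p h - D2 L p h h / 2| ≤ ε * ‖h‖ ^ 2 ∧
      ‖fderiv ℝ L (p + h) - fderiv ℝ L (p + h') - D2 L p (h - h')‖ ≤ ε * ‖h - h'‖ := by
  obtain ⟨δ₁, hδ₁, h₁⟩ := KB_thick R
  obtain ⟨hK, -, hs⟩ := t9tay_KT (R + 1) (r + 1)
  obtain ⟨δ₂, hδ₂, h₂⟩ := (Metric.uniformContinuousOn_iff_le (f := D2 L)).1
    (hK.uniformContinuousOn_of_continuous (f := D2 L) ((continuousOn_D2 hL).mono hs)) ε hε
  set δ := min δ₁ (min δ₂ 1) with hδ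
  have hδ0 : 0 < δ := by positivity
  refine ⟨δ, hδ0, fun p hp hp' => ?_⟩
  have hm : ∀ x : ℂ × ℂ, ‖x‖ ≤ δ → p + x ∈ KB (R + 1) ×ˢ Metric.closedBall (0 : ℂ) (r + 1) :=
    fun x hx => t9tay_mem (h₁ _ hp _ ((norm_fst_le x).trans (hx.trans (min_le_left _ _))))
      ((norm_add_le p.2 x.2).trans (add_le_add hp' ((norm_snd_le x).trans
        (hx.trans ((min_le_right _ _).trans (min_le_right _ _))))))
  have hp0 := hm 0 (by simpa using hδ0.le)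
  rw [add_zero] at hp0
  have hD : ∀ x : ℂ × ℂ, ‖x‖ ≤ δ → ‖D2 L (p + x) - D2 L p‖ ≤ ε := fun x hx => by
    have := h₂ _ (hm x hx) _ hp0 (by
      rw [dist_self_add_left]
      exact hx.trans ((min_le_right _ _).trans (min_le_left _ _)))
    exact (dist_eq_norm (D2 L (p + x)) (D2 L p)).symm.trans_le this
  have hd : ∀ x : ℂ × ℂ, ‖x‖ ≤ δ → HasFDerivAt (fun y => L (p + y)) (fderiv ℝ L (p + x)) x ∧
      HasFDerivAt (fun y => fderiv ℝ L (p + y)) (D2 L (p + x)) x := fun x hx =>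
    ⟨(hasFDerivAt_comp_add_left p).2 (hasFDerivAt_L hL (hs (hm x hx))).1,
      (hasFDerivAt_comp_add_left p).2 (hasFDerivAt_L hL (hs (hm x hx))).2⟩
  have key : ∀ h h' : ℂ × ℂ, ‖h‖ ≤ δ → ‖h'‖ ≤ δ →
      ‖fderiv ℝ L (p + h) - fderiv ℝ L (p + h') - D2 L p (h - h')‖ ≤ ε * ‖h - h'‖ :=
    fun h h' hh hh' => (convex_closedBall (0 : ℂ × ℂ) δ).norm_image_sub_le_of_norm_hasFDerivWithin_le'
      (f := fun y => fderiv ℝ L (p + y)) (f' := fun y => D2 L (p + y)) (φ := D2 L p)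
      (fun x hx => (hd x (mem_closedBall_zero_iff.1 hx)).2.hasFDerivWithinAt)
      (fun x hx => hD x (mem_closedBall_zero_iff.1 hx)) (mem_closedBall_zero_iff.2 hh')
      (mem_closedBall_zero_iff.2 hh)
  refine fun h h' hh hh' => ⟨?_, key h h' hh hh'⟩
  have hg : ∀ x : ℂ × ℂ, ‖x‖ ≤ δ →
      HasFDerivAt (fun y => L (p + y) - fderiv ℝ L p y - (2⁻¹ : ℝ) * D2 L p y y)
        (fderiv ℝ L (p + x) - fderiv ℝ L p - D2 L p x) x := fun x hx => by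
    have a1 := ((D2 L p).hasFDerivAt (x := x)).clm_apply (hasFDerivAt_id x)
    have a2 := ((hd x hx).1.sub ((fderiv ℝ L p).hasFDerivAt (x := x))).sub (a1.const_mul (2⁻¹ : ℝ))
    refine a2.congr_fderiv ?_
    ext1 <;> ext1 <;> simp [D2_symm hL (hs hp0) x] <;> ring
  have hf := (convex_closedBall (0 : ℂ × ℂ) ‖h‖).norm_image_sub_le_of_norm_hasFDerivWithin_le
    (C := ε * ‖h‖) (fun x hx => (hg x ((mem_closedBall_zero_iff.1 hx).trans hh)).hasFDerivWithinAt)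
    (fun x hx => by
      have hx' := mem_closedBall_zero_iff.1 hx
      have := key x 0 (hx'.trans hh) (by simpa using hδ0.le)
      rw [add_zero, sub_zero] at this
      exact this.trans (mul_le_mul_of_nonneg_left hx' hε.le))
    (Metric.mem_closedBall_self (norm_nonneg _)) (mem_closedBall_zero_iff.2 le_rfl)
  simp only [add_zero, map_zero, sub_zero, mul_zero, Real.norm_eq_abs] at hf
  refine le_of_eq_of_le (congrArg _ (by ring)) (hf.trans_eq (by ring))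

end Pool.Agent.Lib.MP_5bb885_an.Gen
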