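import Pool.Agent.Lib.MP_5bb885_an.T9Flux3
import Pool.Agent.Lib.MP_5bb885_an.T9Box

/-!
The transverse measure and the interval exchange.
-/

namespace Pool.Agent.Lib.MP_5bb885_an.Gen

open UpperHalfPlane MeasureTheory Filter Topology

variable {Γ : Type} [Group Γ] [MulAction Γ ℍ] {K : Set ℍ} {Φ : ℝ → ℍ → ℍ} {V : ℍ → ℂ} {q : Bx}
  {r τ₁ τ₂ ε₁ : ℝ} {τ : ℍ → ℝ} {g : ℍ → Γ} {R : ℍ → ℍ} {x₀ : ℍ} {l : Filter ℕ} {θ : ℝ → ℝ}
  {b : Γ → ℝ}

open Classical in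
/-- The distribution function of the visits of an orbit. -/
structure Cdf (K : Set ℍ) (q : Bx) (R : ℍ → ℍ) (l : Filter ℕ) (x₀ : ℍ) (θ : ℝ → ℝ) : Prop where
  mean : ∀ y, HasM l (fun k => if q.ht (R^[k] x₀) < y then 1 else 0) (θ y)
  mono : Monotone θ
  cont : Continuous θ
  lo : θ q.a = 0
  hi : θ q.b = 1
  strict : ∀ x ∈ K ∩ q.ln, ∀ y y', y < q.ht x → q.ht x < y' → θ y < θ y'
  flat : ∀ y y', y ≤ y' → (∀ x ∈ K ∩ q.ln, q.ht x ∉ Set.Ico y y') → θ y = θ y'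
  freq : ∀ α β η : ℝ, α ≤ β → 0 < η → ∀ᶠ N in l,
    (((Finset.range N).filter fun k => θ (q.ht (R^[k] x₀)) ∈ Set.Icc α β).card : ℝ) ≤
      (β - α + η) * N

open Classical in
lemma t9theta_ico {a : ℕ → ℝ} (hm : ∀ y, HasM l (fun k => if a k < y then 1 else 0) (θ y))
    {y y' : ℝ} (h : y ≤ y') :
    HasM l (fun k => if a k ∈ Set.Ico y y' then 1 else 0) (θ y' - θ y) := by
  have e : (fun k => if a k ∈ Set.Ico y y' then (1 : ℝ) else 0) =
      fun k => (if a k < y' then 1 else 0) - (if a k < y then 1 else 0) := by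
    funext k
    by_cases h1 : a k < y
    · rw [if_pos h1, if_pos (h1.trans_le h), if_neg fun h2 => not_le.2 h1 h2.1, sub_self]
    · by_cases h2 : a k < y'
      · rw [if_neg h1, if_pos h2, if_pos ⟨not_lt.1 h1, h2⟩, sub_zero]
      · rw [if_neg h1, if_neg h2, if_neg fun h3 => h2 h3.2, sub_self]
  rw [e]
  exact (hm y').sub (hm y)

lemma t9theta_gap (A : Lam Γ K Φ V) (S : Sec Γ K Φ V q r) {y : ℝ}
    (h : ∀ x ∈ K ∩ q.ln, q.ht x ≠ y) :
    ∃ ρ : ℝ, 0 < ρ ∧ ∀ x ∈ K ∩ q.ln, q.ht x ∉ Set.Ico (y - ρ) (y + ρ) := by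
  have hK : IsClosed (q.ht '' (K ∩ q.ln)) :=
    ((S.isCompact_ln.inter_left A.closed).image q.continuous_ht).isClosed
  obtain ⟨ρ, hρ, h1⟩ := Metric.isOpen_iff.1 hK.isOpen_compl y fun ⟨x, hx, e⟩ => h x hx e
  refine ⟨ρ / 2, half_pos hρ, fun x hx h2 => h1 (a := q.ht x) ?_ ⟨x, hx, rfl⟩⟩
  rw [Metric.mem_ball, Real.dist_eq, abs_lt]
  exact ⟨by linarith [h2.1], by linarith [h2.2]⟩

lemma t9theta_contOn (H : Ret K Φ q τ g R τ₁ τ₂ ε₁) (i : ℕ) : ContinuousOn R^[i] (K ∩ q.ln) :=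
  H.cont.iterate H.map i

lemma t9theta_sep (F : Deck Γ) (A : Aper Γ K Φ V) (S : Sec Γ K Φ V q r)
    (H : Ret K Φ q τ g R τ₁ τ₂ ε₁) {x : ℍ} (hx : x ∈ K ∩ q.ln) {i : ℕ} (hi : 0 < i) :
    ∀ᶠ ρ in 𝓝[>] (0 : ℝ), ∀ z ∈ K ∩ q.ln, |q.ht z - q.ht x| ≤ ρ →
      ρ < |q.ht (R^[i] z) - q.ht x| := by
  have h1 : 0 < |q.ht (R^[i] x) - q.ht x| := abs_pos.2 (sub_ne_zero.2 fun e =>
    hi.ne' (H.inj F A hx (j := 0) (S.ht_inj (H.iter hx i).2 hx.2 e)))
  obtain ⟨C, hC, h2⟩ := S.dist_le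
  obtain ⟨d, hd, h3⟩ := Metric.continuousWithinAt_iff.1
    ((q.continuous_ht.comp_continuousOn (t9theta_contOn H i)) x hx) _ (half_pos h1)
  filter_upwards [Ioo_mem_nhdsGT (half_pos h1), Ioo_mem_nhdsGT (div_pos hd hC)] with ρ h4 h5 z hz h6
  have h7 : dist z x < d := by
    have h8 := (lt_div_iff₀ hC).1 h5.2
    nlinarith [h2 z hz.2 x hx.2]
  have h8 : |q.ht (R^[i] z) - q.ht (R^[i] x)| < _ := h3 hz h7
  have h9 := abs_sub_le (q.ht (R^[i] x)) (q.ht (R^[i] z)) (q.ht x)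
  rw [abs_sub_comm] at h8
  linarith [h4.2]

lemma t9theta_cont (hm : Monotone θ)
    (h : ∀ y η : ℝ, 0 < η → ∃ ρ : ℝ, 0 < ρ ∧ θ (y + ρ) - θ (y - ρ) < η) : Continuous θ := by
  refine Metric.continuous_iff.2 fun y η hη => ?_
  obtain ⟨ρ, hρ, h1⟩ := h y η hη
  refine ⟨ρ, hρ, fun z hz => ?_⟩
  rw [Real.dist_eq, abs_lt] at hz ⊢
  have h2 : θ (y - ρ) ≤ θ z := hm (by linarith)
  have h3 : θ z ≤ θ (y + ρ) := hm (by linarith)
  have h4 : θ (y - ρ) ≤ θ y := hm (by linarith)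
  have h5 : θ y ≤ θ (y + ρ) := hm (by linarith)
  exact ⟨by linarith, by linarith⟩

theorem Ret.exists_cdf (F : Deck Γ) (A : Aper Γ K Φ V) (S : Sec Γ K Φ V q r)
    (H : Ret K Φ q τ g R τ₁ τ₂ ε₁) (hx : x₀ ∈ K ∩ q.ln) (l : Ultrafilter ℕ)
    (hl : (l : Filter ℕ) ≤ atTop) : ∃ θ, Cdf K q R l x₀ θ := by
  classical
  have hex : ∀ y : ℝ, ∃ v, HasM l (fun k => if q.ht (R^[k] x₀) < y then 1 else 0) v := fun y =>
    HasM.exists l (C := 1) fun k => by split_ifs <;> simp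
  choose θ hm using hex
  have hmem : ∀ k, q.ht (R^[k] x₀) ∈ Set.Ioo q.a q.b := fun k => S.ht_mem (H.iter hx k)
  have mono : Monotone θ := fun y y' h => (hm y).mono (hm y') fun k => by
    by_cases h1 : q.ht (R^[k] x₀) < y
    · rw [if_pos h1, if_pos (h1.trans_le h)]
    · rw [if_neg h1]
      split_ifs <;> simp
  have flat : ∀ y y', y ≤ y' → (∀ x ∈ K ∩ q.ln, q.ht x ∉ Set.Ico y y') → θ y = θ y' := by
    intro y y' h h1
    have h2 := t9theta_ico hm h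
    have h3 : ∀ k, q.ht (R^[k] x₀) ∉ Set.Ico y y' := fun k => h1 _ (H.iter hx k)
    simp only [h3, if_false] at h2
    linarith [h2.unique (HasM.const hl 0)]
  have cont : Continuous θ := by
    refine t9theta_cont mono fun y η hη => ?_
    by_cases h : ∀ x ∈ K ∩ q.ln, q.ht x ≠ y
    · obtain ⟨ρ, hρ, h1⟩ := t9theta_gap A.toLam S h
      exact ⟨ρ, hρ, by rw [flat _ _ (by linarith) h1, sub_self]; exact hη⟩
    · push Not at h
      obtain ⟨x, hx', rfl⟩ := h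
      obtain ⟨N, hN⟩ := exists_nat_gt (1 / η)
      obtain ⟨ρ, h1, hρ⟩ := (((Filter.eventually_all_finset (Finset.range N)).2 fun i _ =>
        t9theta_sep F A S H hx' (Nat.succ_pos i)).and self_mem_nhdsWithin).exists
      have hρ' : 0 < ρ := hρ
      refine ⟨ρ, hρ', ?_⟩
      have h2 := t9theta_ico hm (y := q.ht x - ρ) (y' := q.ht x + ρ) (by linarith)
      have h3 := HasM.sum (Finset.range N) fun i _ =>
        (HasM.shift hl (C := 1) (fun k => by split_ifs <;> simp) i).2 h2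
      have near : ∀ m, q.ht (R^[m] x₀) ∈ Set.Ico (q.ht x - ρ) (q.ht x + ρ) →
          |q.ht (R^[m] x₀) - q.ht x| ≤ ρ := fun m h4 =>
        abs_le.2 ⟨by linarith [h4.1], by linarith [h4.2]⟩
      have key : ∀ k i j, j < N → i < j →
          q.ht (R^[k + i] x₀) ∈ Set.Ico (q.ht x - ρ) (q.ht x + ρ) →
          q.ht (R^[k + j] x₀) ∈ Set.Ico (q.ht x - ρ) (q.ht x + ρ) → False := by
        intro k i j hj hij h4 h5
        have h6 := h1 (j - i - 1) (Finset.mem_range.2 (by omega)) _ (H.iter hx (k + i)) (near _ h4)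
        rw [← Function.iterate_add_apply, show (j - i - 1).succ + (k + i) = k + j by omega] at h6
        linarith [near _ h5]
      have h4 := h3.mono (HasM.const hl 1) fun k => by
        rw [Finset.sum_boole, Nat.cast_le_one, Finset.card_le_one]
        intro i hi j hj
        rw [Finset.mem_filter, Finset.mem_range] at hi hj
        rcases lt_trichotomy i j with h5 | h5 | h5
        · exact (key k i j hj.1 h5 hi.2 hj.2).elim
        · exact h5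
        · exact (key k j i hi.1 h5 hj.2 hi.2).elim
      rw [Finset.sum_const, Finset.card_range, nsmul_eq_mul] at h4
      rw [div_lt_iff₀ hη] at hN
      by_contra h5
      have h6 := mul_le_mul_of_nonneg_left (not_lt.1 h5) (Nat.cast_nonneg (α := ℝ) N)
      linarith
  refine ⟨θ, hm, mono, cont, ?_, ?_, fun x hx' y y' h1 h2 => ?_, flat, fun α β η h hη => ?_⟩
  · have h1 := hm q.a
    have h2 : ∀ k, ¬q.ht (R^[k] x₀) < q.a := fun k => not_lt.2 (hmem k).1.le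
    simp only [h2, if_false] at h1
    exact h1.unique (HasM.const hl 0)
  · have h1 := hm q.b
    have h2 : ∀ k, q.ht (R^[k] x₀) < q.b := fun k => (hmem k).2
    simp only [h2, if_true] at h1
    exact h1.unique (HasM.const hl 1)
  · obtain ⟨P, hP⟩ := H.recur F A S hx' (lt_min (sub_pos.2 h1) (sub_pos.2 h2))
    refine sub_pos.1 ((t9theta_ico hm (h1.trans h2).le).pos hl
      (fun k => by split_ifs <;> simp) (P := P) fun k => ?_)
    obtain ⟨j, hj, h3⟩ := hP _ (H.iter hx k)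
    rw [← Function.iterate_add_apply, add_comm j, lt_min_iff, abs_lt, abs_lt] at h3
    exact ⟨j, hj, by rw [if_pos ⟨by linarith [h3.1.1], by linarith [h3.2.2]⟩]⟩
  · have hK : IsCompact (Set.Icc q.a q.b ∩ θ ⁻¹' Set.Icc α β) :=
      isCompact_Icc.inter_right (isClosed_Icc.preimage cont)
    have hin : ∀ k, θ (q.ht (R^[k] x₀)) ∈ Set.Icc α β →
        q.ht (R^[k] x₀) ∈ Set.Icc q.a q.b ∩ θ ⁻¹' Set.Icc α β := fun k h1 =>
      ⟨Set.Ioo_subset_Icc_self (hmem k), h1⟩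
    rcases (Set.Icc q.a q.b ∩ θ ⁻¹' Set.Icc α β).eq_empty_or_nonempty with h1 | h1
    · refine Filter.Eventually.of_forall fun N => ?_
      rw [Finset.filter_eq_empty_iff.2 fun k _ h2 => by
        have h3 := hin k h2
        rw [h1] at h3
        exact h3]
      simp only [Finset.card_empty, Nat.cast_zero]
      exact mul_nonneg (by linarith) (Nat.cast_nonneg _)
    · obtain ⟨y₁, hy₁, h2⟩ := hK.exists_isLeast h1
      obtain ⟨y₂, hy₂, h3⟩ := hK.exists_isGreatest h1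
      obtain ⟨y₃, h4, h5⟩ := (((cont.tendsto y₂).eventually
        (gt_mem_nhds (lt_add_of_pos_right _ hη))).filter_mono
          (nhdsWithin_le_nhds (s := Set.Ioi y₂))).and self_mem_nhdsWithin |>.exists
      have h6 : y₂ < y₃ := h5
      have h7 := (t9theta_ico hm ((h2 hy₂).trans h6.le)).card_le
        (E := {k | θ (q.ht (R^[k] x₀)) ∈ Set.Icc α β}) (w := β - α + η)
        (fun k => by split_ifs <;> simp)
        (fun k hk => by rw [if_pos ⟨h2 (hin k hk), (h3 (hin k hk)).trans_lt h6⟩])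
        (by linarith [hy₁.2.1, hy₂.2.2])
      filter_upwards [h7] with N h8
      convert h8

/-- In the coordinate `θ` the return map is a translation by a cohomology class. -/
theorem Cdf.exists_shift (F : Deck Γ) (ho : ∀ γ : Γ, Ori γ) (A : Aper Γ K Φ V)
    (S : Sec Γ K Φ V q r) (H : Ret K Φ q τ g R τ₁ τ₂ ε₁) (hx : x₀ ∈ K ∩ q.ln) {l : Ultrafilter ℕ}
    (hl : (l : Filter ℕ) ≤ atTop) (h : Cdf K q R l x₀ θ) : ∃ b ∈ Coh Γ,
      ∀ x ∈ K ∩ q.ln, θ (q.ht x) - θ (q.ht (R x)) = b (g x) := by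
  classical
  obtain ⟨Θ, b, hb, hc, he, hf⟩ := H.exists_flux F ho A S hx l hl
  have k1 : ∀ u ∈ q.ln, ∀ u' ∈ q.ln, u ∉ K → u' ∉ K → q.ht u < q.ht u' →
      Θ u' - Θ u = θ (q.ht u') - θ (q.ht u) := by
    intro u hu u' hu' h1 h2 h3
    refine (hf u hu u' hu' h1 h2 h3).unique ?_
    have h4 := t9theta_ico h.mean h3.le
    have h6 : ∀ k, q.ht (R^[k] x₀) ∈ Set.Ioo (q.ht u) (q.ht u') ↔
        q.ht (R^[k] x₀) ∈ Set.Ico (q.ht u) (q.ht u') := fun k => by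
      refine ⟨fun h5 => Set.Ioo_subset_Ico_self h5,
        fun h5 => ⟨h5.1.lt_of_ne fun e => h1 ?_, h5.2⟩⟩
      rw [S.ht_inj hu (H.iter hx k).2 e]
      exact (H.iter hx k).1
    simp only [h6]
    convert h4
  have k2 : ∀ u ∈ q.ln, ∀ u' ∈ q.ln, u ∉ K → u' ∉ K →
      Θ u' - Θ u = θ (q.ht u') - θ (q.ht u) := by
    intro u hu u' hu' h1 h2
    rcases lt_trichotomy (q.ht u) (q.ht u') with h3 | h3 | h3
    · exact k1 u hu u' hu' h1 h2 h3
    · rw [S.ht_inj hu hu' h3, sub_self, sub_self]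
    · linarith [k1 u' hu' u hu h2 h1 h3]
  refine ⟨b, hb, fun x hx' => ?_⟩
  have hcl : IsClosed {p : ℝ × ℝ | θ p.1 - θ p.2 = b (g x)} :=
    isClosed_eq ((h.cont.comp continuous_fst).sub (h.cont.comp continuous_snd)) continuous_const
  have h5 : ((q.ht x, q.ht (R x)) : ℝ × ℝ) ∈ closure {p : ℝ × ℝ | θ p.1 - θ p.2 = b (g x)} := by
    refine Metric.mem_closure_iff.2 fun ε hε => ?_
    obtain ⟨u, hu, u', hu', h1, h2, h3, h4, h6⟩ :=
      A.star F S hc he hx' (H.map x hx') (H.hit x hx') (half_pos hε)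
    refine ⟨(q.ht u, q.ht u'), ?_, ?_⟩
    · have h7 := k2 u' hu' u hu h2 h1
      change θ (q.ht u) - θ (q.ht u') = b (g x)
      linarith
    · rw [Prod.dist_eq, max_lt_iff, Real.dist_eq, Real.dist_eq, abs_sub_comm,
        abs_sub_comm (q.ht (R x))]
      exact ⟨by linarith, by linarith⟩
  rwa [hcl.closure_eq] at h5

lemma shift_iter (H : Ret K Φ q τ g R τ₁ τ₂ ε₁) (hb : b ∈ Coh Γ)
    (h : ∀ x ∈ K ∩ q.ln, θ (q.ht x) - θ (q.ht (R x)) = b (g x)) {x : ℍ} (hx : x ∈ K ∩ q.ln)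
    (k : ℕ) : θ (q.ht x) - θ (q.ht (R^[k] x)) = b (Gk g R x k) := by
  induction k with
  | zero => simp [Gk, coh_one' hb]
  | succ k ih =>
    rw [Gk, hb, ← ih, Function.iterate_succ_apply', ← h _ (H.iter hx k)]
    ring

lemma Cdf.mem (S : Sec Γ K Φ V q r) (h : Cdf K q R l x₀ θ) {x : ℍ} (hx : x ∈ K ∩ q.ln) :
    θ (q.ht x) ∈ Set.Icc (0 : ℝ) 1 := by
  have h1 := S.ht_mem hx
  exact ⟨h.lo ▸ h.mono h1.1.le, h.hi ▸ h.mono h1.2.le⟩

lemma Cdf.three (S : Sec Γ K Φ V q r) (h : Cdf K q R l x₀ θ) {x y z : ℍ} (hx : x ∈ K ∩ q.ln)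
    (hy : y ∈ K ∩ q.ln) (hz : z ∈ K ∩ q.ln) (h1 : θ (q.ht x) = θ (q.ht y))
    (h2 : θ (q.ht y) = θ (q.ht z)) : x = y ∨ y = z ∨ x = z := by
  by_contra hn
  push Not at hn
  rcases lt_or_gt_of_ne (fun e => hn.1 (S.ht_inj hx.2 hy.2 e)) with a1 | a1 <;>
  rcases lt_or_gt_of_ne (fun e => hn.2.1 (S.ht_inj hy.2 hz.2 e)) with a2 | a2 <;>
  rcases lt_or_gt_of_ne (fun e => hn.2.2 (S.ht_inj hx.2 hz.2 e)) with a3 | a3
  · linarith [h.strict y hy _ _ a1 a2]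
  · linarith
  · linarith [h.strict z hz _ _ a3 a2]
  · linarith [h.strict x hx _ _ a3 a1]
  · linarith [h.strict x hx _ _ a1 a3]
  · linarith [h.strict z hz _ _ a2 a3]
  · linarith
  · linarith [h.strict y hy _ _ a2 a1]

open Classical in
/-- Companions at a fixed distance in the coordinate `θ`. -/
theorem Cdf.partner (A : Lam Γ K Φ V) (S : Sec Γ K Φ V q r) (H : Ret K Φ q τ g R τ₁ τ₂ ε₁)
    (hx : x₀ ∈ K ∩ q.ln) (h : Cdf K q R l x₀ θ)
    (hb : ∀ x ∈ K ∩ q.ln, θ (q.ht x) - θ (q.ht (R x)) = b (g x)) {ε₂ : ℝ} (hε : 0 < ε₂) :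
    ∃ M : ℝ, 0 < M ∧ ∀ δ₀ : ℝ, 0 < δ₀ → ∃ δ ∈ Set.Icc (δ₀ / 2) δ₀, ∃ (y : ℕ → ℍ) (G : Set ℕ),
      (∀ k, y k ∈ K ∩ q.ln ∧ q.ht (R^[k] x₀) ≤ q.ht (y k)) ∧
      (∀ k ∈ G, R (y k) = y (k + 1) ∧ q.ht (y k) - q.ht (R^[k] x₀) ≤ ε₂ ∧
        θ (q.ht (y k)) = θ (q.ht (R^[k] x₀)) + δ) ∧
      ∀ᶠ N in l, (((Finset.range N).filter (· ∉ G)).card : ℝ) ≤ M * δ₀ * N := by
  have he : 0 < min ε₁ ε₂ := lt_min H.pos hε
  set e := min ε₁ ε₂ with hedef
  set Y : Finset ℝ := insert q.b ((Finset.range (⌈(q.b - q.a) / e⌉₊ + 1)).image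
    fun i : ℕ => q.a + i * e) with hY
  have grid : ∀ s ∈ Set.Ioo q.a q.b, ∃ y ∈ Y, s ≤ y ∧ y ≤ s + e := by
    intro s hs
    have h0 : 0 ≤ (s - q.a) / e := div_nonneg (by linarith [hs.1]) he.le
    refine ⟨q.a + ⌈(s - q.a) / e⌉₊ * e, Finset.mem_insert_of_mem (Finset.mem_image_of_mem _
      (Finset.mem_range.2 (Nat.lt_succ_of_le (Nat.ceil_mono
        (div_le_div_of_nonneg_right (by linarith [hs.2]) he.le))))), ?_, ?_⟩
    · have h1 := (div_le_iff₀ he).1 (Nat.le_ceil ((s - q.a) / e))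
      linarith
    · have h1 := mul_le_mul_of_nonneg_right (Nat.ceil_lt_add_one h0).le he.le
      rw [add_mul, div_mul_cancel₀ _ he.ne'] at h1
      linarith
  have hc : (0 : ℝ) < Y.card := Nat.cast_pos.2 (Finset.card_pos.2 ⟨_, Finset.mem_insert_self _ _⟩)
  refine ⟨Y.card * 2, by positivity, fun δ₀ hδ₀ => ?_⟩
  obtain ⟨δ, hδ, hgen⟩ : ∃ δ ∈ Set.Icc (δ₀ / 2) δ₀,
      δ ∉ Set.range fun p : ℚ × ℕ => θ p.1 - θ (q.ht (R^[p.2] x₀)) := by
    by_contra h1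
    push Not at h1
    have h2 := (Set.countable_range _).mono (show Set.Icc (δ₀ / 2) δ₀ ⊆ _ from h1)
    have h3 := h2.measure_zero volume
    rw [Real.volume_Icc, ENNReal.ofReal_eq_zero] at h3
    linarith
  have hδ' : 0 < δ := by linarith [hδ.1]
  have uq0 : ∀ k s s', s < s' → θ s = θ (q.ht (R^[k] x₀)) + δ →
      θ s' = θ (q.ht (R^[k] x₀)) + δ → False := by
    intro k s s' h1 h2 h3
    obtain ⟨ρ, h4, h5⟩ := exists_rat_btwn h1
    refine hgen ⟨(ρ, k), ?_⟩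
    have h6 := h.mono h4.le
    have h7 := h.mono h5.le
    simp only
    linarith
  have uq : ∀ k s s', θ s = θ (q.ht (R^[k] x₀)) + δ → θ s' = θ (q.ht (R^[k] x₀)) + δ →
      s = s' := by
    intro k s s' h2 h3
    rcases lt_trichotomy s s' with h1 | h1 | h1
    · exact (uq0 k s s' h1 h2 h3).elim
    · exact h1
    · exact (uq0 k s' s h1 h3 h2).elim
  have ex : ∀ k, θ (q.ht (R^[k] x₀)) + δ ≤ 1 →
      ∃ x ∈ K ∩ q.ln, θ (q.ht x) = θ (q.ht (R^[k] x₀)) + δ := by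
    intro k h1
    obtain ⟨s, -, hs⟩ := intermediate_value_Icc S.ok.ab.le h.cont.continuousOn
      (show θ (q.ht (R^[k] x₀)) + δ ∈ Set.Icc (θ q.a) (θ q.b) by
        rw [h.lo, h.hi]
        exact ⟨by linarith [(h.mem S (H.iter hx k)).1], h1⟩)
    by_contra h2
    obtain ⟨ρ, hρ, h3⟩ := t9theta_gap A S (y := s) fun x hx' e' => h2 ⟨x, hx', by rw [e', hs]⟩
    have h4 := h.flat _ _ (by linarith) h3
    have h5 : θ (s - ρ) ≤ θ s := h.mono (by linarith)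
    have h6 : θ s ≤ θ (s + ρ) := h.mono (by linarith)
    exact uq0 k s (s + ρ) (by linarith) hs (by linarith)
  have hy : ∀ k, ∃ y ∈ K ∩ q.ln, q.ht (R^[k] x₀) ≤ q.ht y ∧
      ((∃ x ∈ K ∩ q.ln, θ (q.ht x) = θ (q.ht (R^[k] x₀)) + δ) →
        θ (q.ht y) = θ (q.ht (R^[k] x₀)) + δ) := by
    intro k
    by_cases h1 : ∃ x ∈ K ∩ q.ln, θ (q.ht x) = θ (q.ht (R^[k] x₀)) + δ
    · obtain ⟨x, hx', h2⟩ := h1
      refine ⟨x, hx', le_of_not_gt fun h3 => ?_, fun _ => h2⟩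
      linarith [h.mono h3.le]
    · exact ⟨_, H.iter hx k, le_rfl, fun h2 => (h1 h2).elim⟩
  choose y hy1 hy2 hy3 using hy
  refine ⟨δ, hδ, y, {k | θ (q.ht (y k)) = θ (q.ht (R^[k] x₀)) + δ ∧
    q.ht (y k) - q.ht (R^[k] x₀) ≤ e}, fun k => ⟨hy1 k, hy2 k⟩, fun k hk => ?_, ?_⟩
  · obtain ⟨h1, h2⟩ := hk
    refine ⟨?_, h2.trans (min_le_right _ _), h1⟩
    have h3 := H.near _ (hy1 k) _ (H.iter hx k) (by
      rw [abs_of_nonneg (sub_nonneg.2 (hy2 k))]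
      exact h2.trans (min_le_left _ _))
    have h4 := hb _ (hy1 k)
    have h5 := hb _ (H.iter hx k)
    rw [← Function.iterate_succ_apply' R] at h5
    have h6 : θ (q.ht (R (y k))) = θ (q.ht (R^[k + 1] x₀)) + δ := by
      rw [h3] at h4
      linarith
    exact S.ht_inj (H.map _ (hy1 k)).2 (hy1 (k + 1)).2
      (uq (k + 1) _ _ h6 (hy3 (k + 1) ⟨_, H.map _ (hy1 k), h6⟩))
  · filter_upwards [(Filter.eventually_all_finset Y).2 fun s _ =>
      h.freq (θ s - δ) (θ s) δ₀ (by linarith) hδ₀] with N hN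
    have h4 := Finset.sum_le_card_nsmul Y _ (2 * δ₀ * N) fun s hs => (hN s hs).trans
      (mul_le_mul_of_nonneg_right (by linarith [hδ.2]) (Nat.cast_nonneg N))
    rw [nsmul_eq_mul, ← Nat.cast_sum] at h4
    refine le_trans (Nat.cast_le.2 (le_trans (Finset.card_le_card ?_) Finset.card_biUnion_le))
      (h4.trans_eq (by ring))
    intro k hk'
    have hk := (@Finset.mem_filter _ _ (_) _ _).1 hk'
    simp only [Finset.mem_biUnion, Finset.mem_filter]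
    by_cases h2 : θ (q.ht (R^[k] x₀)) + δ ≤ 1
    · have h3 := hy3 k (ex k h2)
      have h4 : e < q.ht (y k) - q.ht (R^[k] x₀) := not_le.1 fun h4 => hk.2 ⟨h3, h4⟩
      obtain ⟨s, hs, h5, h6⟩ := grid _ (S.ht_mem (H.iter hx k))
      have h7 : θ s ≤ θ (q.ht (y k)) := h.mono (by linarith)
      exact ⟨s, hs, hk.1, by linarith, h.mono h5⟩
    · refine ⟨q.b, Finset.mem_insert_self _ _, hk.1, ?_⟩
      rw [h.hi]
      exact ⟨by linarith, (h.mem S (H.iter hx k)).2⟩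

end Pool.Agent.Lib.MP_5bb885_an.Gen
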